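import Pool.Agent.Lib.MP_9cf0c9_mp.C2

/-! The weak third order equation of the solution. -/

set_option linter.unusedSectionVars false
set_option linter.unusedVariables false
set_option linter.style.haveILetI false

namespace Pool.Agent.TF.Grd
open MeasureTheory Set Metric Filter Topology
open scoped ENNReal NNReal RealInnerProductSpace Gradient

variable {ι : Type*} [Fintype ι]

theorem gradient_translate (η : X → ℝ) (c x : X) : ∇ (fun y => η (y + c)) x = ∇ η (x + c) := by
  unfold gradient
  rw [fderiv_comp_add_right]

theorem gradient_out {η : X → ℝ} {x : X} (hx : x ∉ tsupport η) : ∇ η x = 0 := by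
  have h1 : η =ᶠ[𝓝 x] fun _ => 0 := notMem_tsupport_iff_eventuallyEq.mp hx
  rw [h1.gradient_eq]
  exact gradient_const x 0

/-- continuity off a finite set gives measurability -/
theorem aesm_off {E : Type*} [NormedAddCommGroup E] {R : ι → X} {f : X → E}
    (hf : ContinuousOn f (range R)ᶜ) : AEStronglyMeasurable f volume := by
  have h0 : volume (range R) = 0 := finite_null (finite_range R)
  have h1 := hf.aestronglyMeasurable (μ := (volume : Measure X)) (isOpen_off R).measurableSet
  have h2 : ∀ᵐ x : X, x ∈ (range R)ᶜ := measure_eq_zero_iff_ae_notMem.mp h0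
  rwa [Measure.restrict_eq_self_of_ae_mem h2] at h1

theorem BC_gradient {η : X → ℝ} {C : ℝ≥0} (hη : LipschitzWith C η) (hc : HasCompactSupport η) :
    BC (fun x => ‖∇ η x‖) := by
  obtain ⟨r, hr0, hr⟩ := exists_radius hc
  refine ⟨(measurable_gradient η).norm, ⟨C, fun x => ?_⟩, ⟨r, fun x hx => ?_⟩⟩
  · rw [abs_of_nonneg (norm_nonneg _)]; exact gradient_bound hη x
  · have hx' : x ∉ tsupport η := fun h => by
      have := hr h
      rw [mem_ball_zero_iff] at this
      linarith
    rw [gradient_out hx', norm_zero]

section sol
variable {z : ι → ℝ} (hz : ∀ i, 0 ≤ z i) (R : ι → X) {φ₀ : ℝ} (hφ : 0 < φ₀)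
    {ρ : X → ℝ} (hρ : TC ρ) (heq : ∀ x, ρ x = tf (Vpt z R x - pot ρ x - φ₀))
include hz hφ hρ heq

/-- **the weak third order equation** -/
theorem weak_hess {H : X → X →L[ℝ] X} (h : HessSol z R ρ H) (e : X) {η : X → ℝ} {C : ℝ≥0}
    (hη : LipschitzWith C η) (hc : HasCompactSupport η) (hoff : ∀ i, R i ∉ tsupport η) :
    ∫ x, ⟪H x e, ∇ η x⟫ =
      -∫ x, 4 * Real.pi * gam (psi φ₀ z R ρ x) * ⟪psi' z R ρ x, e⟫ * η x := by
  set K := tsupport η with hK
  have hKc : IsCompact K := hc
  have hKoff : K ⊆ (range R)ᶜ := by
    rintro x hx ⟨i, hi⟩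
    exact hoff i (hi ▸ hx)
  obtain ⟨ε, hε, hsub⟩ := hKc.exists_cthickening_subset_open (isOpen_off R) hKoff
  set K' := cthickening ε K with hK'
  have hK'c : IsCompact K' := hKc.cthickening
  have hmem : ∀ x ∈ K, ∀ v : X, ‖v‖ ≤ ε → x + v ∈ K' := by
    intro x hx v hv
    refine closedBall_subset_cthickening hx ε ?_
    rw [mem_closedBall, dist_eq_norm, add_sub_cancel_left]
    exact hv
  set P : X → X := psi' z R ρ with hP
  set G : X → X := fun x => gam (psi φ₀ z R ρ x) • psi' z R ρ x with hG
  obtain ⟨B1, hB1⟩ := hK'c.exists_bound_of_continuousOn (h.cont.mono hsub)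
  have hGc : ContinuousOn G K' := by
    intro x hx
    have hx' := off_mem.mpr (hsub hx)
    have h1 := (hasGradientAt_psi hz R hφ hρ heq hx').hasFDerivAt.continuousAt
    exact ((gam_continuous'.continuousAt.comp h1).smul
      (psi'_continuousAt hz R hφ hρ heq hx')).continuousWithinAt
  obtain ⟨B2, hB2⟩ := hK'c.exists_bound_of_continuousOn hGc
  set t₀ : ℝ := ε / (‖e‖ + 1) with ht₀
  have ht₀pos : 0 < t₀ := by positivity
  have hte : ∀ t ∈ ball (0 : ℝ) t₀, ‖t • e‖ ≤ ε := by
    intro t ht
    rw [mem_ball, Real.dist_eq, sub_zero] at ht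
    rw [norm_smul, Real.norm_eq_abs]
    have h1 : |t| * ‖e‖ ≤ t₀ * (‖e‖ + 1) :=
      mul_le_mul ht.le (by linarith) (norm_nonneg _) ht₀pos.le
    have h2 : t₀ * (‖e‖ + 1) = ε := by rw [ht₀]; field_simp
    linarith
  have hPm : AEStronglyMeasurable P volume :=
    (gVpt_meas z R).aestronglyMeasurable.sub (gradV_meas hρ.meas)
  have hgm : Measurable fun x => ∇ η x := measurable_gradient η
  -- the identity for the translated functions
  have hid : ∀ t ∈ ball (0 : ℝ) t₀, ∫ x, ⟪P (x + t • e), ∇ η x⟫ =
      -(4 * Real.pi * ∫ x, ρ (x + t • e) * η x) := by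
    intro t ht
    set c : X := -(t • e) with hcdef
    set u : X → ℝ := fun y => η (y + c) with hu
    have hul : LipschitzWith C u := by
      have h2 : LipschitzWith 1 (fun x : X => x + c) := (isometry_add_right c).lipschitz
      have := hη.comp h2
      rwa [mul_one] at this
    have huc : HasCompactSupport u := hc.comp_homeomorph (Homeomorph.addRight c)
    have h1 := (weak_sol z R hρ hul huc).2
    have h2 : ∀ i, u (R i) = 0 := by
      intro i
      simp only [hu]
      refine image_eq_zero_of_notMem_tsupport fun hmemK => ?_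
      have h3 := hmem _ hmemK (t • e) (hte t ht)
      have h4 : R i + c + t • e = R i := by rw [hcdef]; abel
      rw [h4] at h3
      exact hsub h3 ⟨i, rfl⟩
    simp only [h2, mul_zero, Finset.sum_const_zero, zero_sub] at h1
    have h5 : ∫ x, ⟪gVpt z R x - gradV ρ x, ∇ u x⟫ = ∫ x, ⟪P (x + t • e), ∇ η x⟫ := by
      rw [← integral_add_right_eq_self (fun x => ⟪P (x + t • e), ∇ η x⟫) c]
      refine integral_congr_ae (Eventually.of_forall fun x => ?_)
      simp only
      rw [hu, gradient_translate]
      have e1 : x + c + t • e = x := by rw [hcdef]; abel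
      rw [e1]
      rfl
    have h6 : ∫ x, ρ x * u x = ∫ x, ρ (x + t • e) * η x := by
      rw [← integral_add_right_eq_self (fun x => ρ (x + t • e) * η x) c]
      refine integral_congr_ae (Eventually.of_forall fun x => ?_)
      have e1 : x + c + t • e = x := by rw [hcdef]; abel
      simp only [hu]
      rw [e1]
    rw [← h5, ← h6]
    exact h1
  -- differentiate the left side
  have hgBC := BC_gradient hη hc
  have hline : ∀ (x : X) (t : ℝ), HasDerivAt (fun s : ℝ => x + s • e) e t := fun x t => by
    simpa using ((hasDerivAt_id t).smul_const e).const_add x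
  have hL := (hasDerivAt_integral_of_dominated_loc_of_deriv_le (μ := (volume : Measure X))
      (F := fun (t : ℝ) (x : X) => ⟪P (x + t • e), ∇ η x⟫)
      (F' := fun (t : ℝ) (x : X) => ⟪H (x + t • e) e, ∇ η x⟫)
      (bound := fun x => B1 * ‖e‖ * ‖∇ η x‖) (x₀ := (0 : ℝ)) (s := ball 0 t₀)
      (ball_mem_nhds 0 ht₀pos)
      (Eventually.of_forall fun t => (hPm.comp_measurePreserving
        (measurePreserving_add_right volume (t • e))).inner hgm.aestronglyMeasurable)
      (by
        simp only [zero_smul, add_zero]
        exact (weak_sol z R hρ hη hc).1)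
      (by
        simp only [zero_smul, add_zero]
        exact ((aesm_off h.cont).apply_continuousLinearMap e).inner hgm.aestronglyMeasurable)
      (by
        refine Eventually.of_forall fun x t ht => ?_
        by_cases hx : x ∈ K
        · have h1 := hB1 _ (hmem x hx _ (hte t ht))
          rw [Real.norm_eq_abs]
          refine (abs_real_inner_le_norm _ _).trans ?_
          refine mul_le_mul_of_nonneg_right ?_ (norm_nonneg _)
          exact (ContinuousLinearMap.le_opNorm _ _).trans
            (mul_le_mul_of_nonneg_right h1 (norm_nonneg _))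
        · rw [gradient_out hx, inner_zero_right, norm_zero, norm_zero, mul_zero])
      (hgBC.integrable.const_mul _)
      (by
        refine Eventually.of_forall fun x t ht => ?_
        by_cases hx : x ∈ K
        · have h1 := off_mem.mpr (hsub (hmem x hx _ (hte t ht)))
          have h2 := (h.deriv _ h1).comp_hasDerivAt t (hline x t)
          have h3 := h2.inner ℝ (hasDerivAt_const t (∇ η x))
          simp only [inner_zero_right, zero_add] at h3
          exact h3
        · simp only [gradient_out hx, inner_zero_right]
          exact hasDerivAt_const _ _)).2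
  -- differentiate the right side
  obtain ⟨M, hM⟩ := hc.exists_bound_of_continuous hη.continuous
  have hρm : ∀ t : ℝ, Measurable fun x => ρ (x + t • e) := fun t =>
    hρ.meas.comp (measurable_id.add_const _)
  have hηi : Integrable fun x => |η x| :=
    (hη.continuous.integrable_of_hasCompactSupport hc).abs
  have hRt := (hasDerivAt_integral_of_dominated_loc_of_deriv_le (μ := (volume : Measure X))
      (F := fun (t : ℝ) (x : X) => ρ (x + t • e) * η x)
      (F' := fun (t : ℝ) (x : X) => ⟪G (x + t • e), e⟫ * η x)
      (bound := fun x => B2 * ‖e‖ * |η x|) (x₀ := (0 : ℝ)) (s := ball 0 t₀)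
      (ball_mem_nhds 0 ht₀pos)
      (Eventually.of_forall fun t =>
        ((hρm t).mul hη.continuous.measurable).aestronglyMeasurable)
      (by
        simp only [zero_smul, add_zero]
        exact hρ.int.mul_bdd hη.continuous.aestronglyMeasurable (Eventually.of_forall hM))
      (by
        simp only [zero_smul, add_zero]
        have h1 : ContinuousOn G (range R)ᶜ := by
          intro x hx
          have hx' := off_mem.mpr hx
          have h1 := (hasGradientAt_psi hz R hφ hρ heq hx').hasFDerivAt.continuousAt
          exact ((gam_continuous'.continuousAt.comp h1).smul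
            (psi'_continuousAt hz R hφ hρ heq hx')).continuousWithinAt
        exact ((aesm_off h1).inner aestronglyMeasurable_const).mul
          hη.continuous.aestronglyMeasurable)
      (by
        refine Eventually.of_forall fun x t ht => ?_
        by_cases hx : x ∈ K
        · have h1 := hB2 _ (hmem x hx _ (hte t ht))
          rw [norm_mul, Real.norm_eq_abs, Real.norm_eq_abs]
          refine mul_le_mul_of_nonneg_right ?_ (abs_nonneg _)
          exact (abs_real_inner_le_norm _ _).trans
            (mul_le_mul_of_nonneg_right h1 (norm_nonneg _))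
        · rw [image_eq_zero_of_notMem_tsupport hx, mul_zero, norm_zero, abs_zero, mul_zero])
      (hηi.const_mul _)
      (by
        refine Eventually.of_forall fun x t ht => ?_
        by_cases hx : x ∈ K
        · refine HasDerivAt.mul_const ?_ _
          have h1 := off_mem.mpr (hsub (hmem x hx _ (hte t ht)))
          have h2 := (hasGradientAt_rho hz R hφ hρ heq h1).hasFDerivAt.comp_hasDerivAt t
            (hline x t)
          rwa [InnerProductSpace.toDual_apply_apply] at h2
        · simp only [image_eq_zero_of_notMem_tsupport hx, mul_zero]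
          exact hasDerivAt_const _ _)).2
  have hR2 := (hRt.const_mul (4 * Real.pi)).neg
  have hE : (fun t : ℝ => ∫ x, ⟪P (x + t • e), ∇ η x⟫) =ᶠ[𝓝 0]
      (-fun t : ℝ => 4 * Real.pi * ∫ x, ρ (x + t • e) * η x) := by
    filter_upwards [ball_mem_nhds (0 : ℝ) ht₀pos] with t ht
    exact hid t ht
  have hfin := hL.unique (hR2.congr_of_eventuallyEq hE)
  simp only [zero_smul, add_zero] at hfin
  rw [hfin, ← integral_const_mul]
  congr 1
  refine integral_congr_ae (Eventually.of_forall fun x => ?_)
  simp only [hG]
  rw [real_inner_smul_left]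
  ring

end sol

end Pool.Agent.TF.Grd
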