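import Pool.Agent.Lib.MP_9cf0c9_mp.GradBase
import Pool.Agent.Lib.MP_9cf0c9_mp.C2Weak

/-! Collinear nuclei: definitions.  All nuclei lie on the axis `{x | x.snd = 0}` of
`X = ℝ × ℝ²`.  Off the axis the field is `E = -∇ψ = p • (x - c • e1)`; `pf` is the function `p`
(transverse field over distance), `cf` the function `c` (foot of the field line on the axis). -/

set_option autoImplicit false
set_option linter.unusedSectionVars false
set_option linter.unusedVariables false

namespace Pool.Agent.TF.Col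
open MeasureTheory Set Metric Filter Topology
open scoped ENNReal NNReal RealInnerProductSpace Gradient
open Pool.Agent.TF.Grd

/-- the axis -/
def ax : Set X := {x | x.snd = 0}

/-- distance to the axis -/
noncomputable def ht (x : X) : ℝ := ‖x.snd‖

/-- the transverse part of `x` -/
noncomputable def perp (x : X) : X := mk 0 x.snd

/-- unit vector pointing away from the axis -/
noncomputable def es (x : X) : X := (ht x)⁻¹ • perp x

/-- `A` has the weak divergence `d` off the axis -/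
structure WD (A : X → X) (d : X → ℝ) : Prop where
  contA : ContinuousOn A axᶜ
  contd : ContinuousOn d axᶜ
  eq : ∀ (η : X → ℝ) (C : ℝ≥0), LipschitzWith C η → HasCompactSupport η →
    Disjoint (tsupport η) ax → ∫ x, ⟪A x, ∇ η x⟫ = -∫ x, d x * η x

/-- `f` is continuously differentiable off the axis with gradient `f'` -/
structure C1O (f : X → ℝ) (f' : X → X) : Prop where
  grad : ∀ x, x ∉ ax → HasGradientAt f (f' x) x
  cont : ContinuousOn f' axᶜ

section sol
variable {ι : Type*} [Fintype ι]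

/-- `p = (transverse field) / (distance to the axis)` -/
noncomputable def pf (z : ι → ℝ) (R : ι → X) (ρ : X → ℝ) (x : X) : ℝ :=
  -(⟪psi' z R ρ x, perp x⟫ / ht x ^ 2)

/-- the foot of the field line: `c = x₁ - E₁ / p` -/
noncomputable def cf (z : ι → ℝ) (R : ι → X) (ρ : X → ℝ) (x : X) : ℝ :=
  x.fst + ⟪psi' z R ρ x, e1⟫ / pf z R ρ x

/-- the derivative of `p` -/
noncomputable def pf' (z : ι → ℝ) (R : ι → X) (ρ : X → ℝ) (H : X → X →L[ℝ] X) (x : X) : X :=
  -((ht x ^ 2)⁻¹ • (H x (perp x) + perp (psi' z R ρ x)) -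
    (2 * ⟪psi' z R ρ x, perp x⟫ / ht x ^ 4) • perp x)

/-- the derivative of `c` -/
noncomputable def cf' (z : ι → ℝ) (R : ι → X) (ρ : X → ℝ) (H : X → X →L[ℝ] X) (x : X) : X :=
  e1 + ((pf z R ρ x)⁻¹ • H x e1 - (⟪psi' z R ρ x, e1⟫ / pf z R ρ x ^ 2) • pf' z R ρ H x)

/-- the structure of the field of a solution with nuclei on the axis -/
structure Axial (z : ι → ℝ) (R : ι → X) (ρ : X → ℝ) (lo hi : ℝ) : Prop where
  on_axis : ∀ i, R i ∈ ax
  form : ∀ x, x ∉ ax → psi' z R ρ x = -(pf z R ρ x • (x - cf z R ρ x • e1))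
  pos : ∀ x, x ∉ ax → 0 < pf z R ρ x
  lo_le : ∀ x, x ∉ ax → lo ≤ cf z R ρ x
  le_hi : ∀ x, x ∉ ax → cf z R ρ x ≤ hi

end sol

/-! ### elementary facts -/

theorem perp_eq (x : X) : perp x = x - x.fst • e1 := by
  rw [← mk_eta x]
  unfold perp e1 mk
  rw [← WithLp.toLp_smul, ← WithLp.toLp_sub]
  simp

theorem mem_ax {x : X} : x ∈ ax ↔ x.snd = 0 := Iff.rfl

theorem ht_nonneg (x : X) : 0 ≤ ht x := norm_nonneg _

theorem ht_pos {x : X} (hx : x ∉ ax) : 0 < ht x := norm_pos_iff.mpr hx

theorem ht_continuous : Continuous ht := by unfold ht; fun_prop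

theorem perp_continuous : Continuous perp := by
  have : Continuous fun x : X => x - x.fst • e1 := by fun_prop
  refine this.congr fun x => (perp_eq x).symm

theorem isClosed_ax : IsClosed ax := by
  have h : IsClosed {x : X | ht x = 0} := isClosed_eq ht_continuous continuous_const
  have e : ax = {x : X | ht x = 0} := by
    ext x
    simp [ax, ht]
  rw [e]; exact h

theorem isOpen_off_ax : IsOpen axᶜ := isClosed_ax.isOpen_compl

theorem inner_X (x y : X) : ⟪x, y⟫ = x.fst * y.fst + ⟪x.snd, y.snd⟫ := by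
  rw [WithLp.prod_inner_apply]
  simp [mul_comm]

theorem norm_e1 : ‖e1‖ = 1 := by
  have h : ‖e1‖ ^ 2 = 1 := by
    unfold e1
    rw [norm_mk_sq]
    simp
  nlinarith [norm_nonneg e1]

theorem inner_perp (x y : X) : ⟪x, perp y⟫ = ⟪x.snd, y.snd⟫ := by
  rw [inner_X]; simp [perp]

theorem inner_perp_e1 (x : X) : ⟪perp x, e1⟫ = 0 := by
  rw [inner_e1]; simp [perp]

theorem inner_e1_perp (x : X) : ⟪e1, perp x⟫ = 0 := by
  rw [real_inner_comm]; exact inner_perp_e1 x

theorem norm_perp (x : X) : ‖perp x‖ = ht x := by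
  have h : ‖perp x‖ ^ 2 = ht x ^ 2 := by
    unfold perp ht
    rw [norm_mk_sq]
    simp
  nlinarith [norm_nonneg (perp x), ht_nonneg x]

theorem inner_self_perp (x : X) : ⟪x, perp x⟫ = ht x ^ 2 := by
  rw [inner_perp, real_inner_self_eq_norm_sq]; rfl

theorem norm_es {x : X} (hx : x ∉ ax) : ‖es x‖ = 1 := by
  have := ht_pos hx
  unfold es
  rw [norm_smul, norm_perp, norm_inv, Real.norm_of_nonneg this.le, inv_mul_cancel₀ this.ne']

theorem inner_es_e1 (x : X) : ⟪es x, e1⟫ = 0 := by
  unfold es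
  rw [real_inner_smul_left, inner_perp_e1, mul_zero]

theorem ax_nontrivial_off {ι : Type*} {R : ι → X} (hR : ∀ i, R i ∈ ax) {x : X} (hx : x ∉ ax) :
    ∀ i, x ≠ R i := fun i h => hx (h ▸ hR i)

theorem nhds_off {x : X} (hx : x ∉ ax) : axᶜ ∈ 𝓝 x := isOpen_off_ax.mem_nhds hx

end Pool.Agent.TF.Col
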