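import Pool.Agent.Lib.MP_9cf0c9_mp.EqDefs

/-! Interface for the gradient trial field `Y = s (ψ, G) G - c`, `G = √(|∇ψ|² + ε²)`:
second derivatives of the solution, and the pointwise quantities. -/

set_option linter.unusedSectionVars false
set_option linter.unusedVariables false

namespace Pool.Agent.TF.Grd
open MeasureTheory Set Metric Filter Topology
open scoped ENNReal NNReal RealInnerProductSpace Gradient

section rad
variable {q G₁ : ℝ} {s s₁ s₂ e : ℝ → ℝ → ℝ}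

theorem rad_deriv (h : RadFn q G₁ s s₁ s₂ e) (p g : ℝ) (hg : 0 < g) :
    HasFDerivAt (fun q : ℝ × ℝ => s q.1 q.2)
      (s₁ p g • ContinuousLinearMap.fst ℝ ℝ ℝ + s₂ p g • ContinuousLinearMap.snd ℝ ℝ ℝ) (p, g) :=
  (h.c1.strict isOpen_HP (q := (p, g)) hg).hasFDerivAt

theorem rad_cont (h : RadFn q G₁ s s₁ s₂ e) :
    ContinuousOn (fun q : ℝ × ℝ => s q.1 q.2) {q | 0 < q.2} :=
  fun p hp => (rad_deriv h p.1 p.2 hp).continuousAt.continuousWithinAt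

theorem rad_cont₁ (h : RadFn q G₁ s s₁ s₂ e) :
    ContinuousOn (fun q : ℝ × ℝ => s₁ q.1 q.2) {q | 0 < q.2} := h.c1.c₁

theorem rad_cont₂ (h : RadFn q G₁ s s₁ s₂ e) :
    ContinuousOn (fun q : ℝ × ℝ => s₂ q.1 q.2) {q | 0 < q.2} := h.c1.c₂

end rad

section sol
variable {ι : Type*} [Fintype ι]

/-- Hilbert-Schmidt norm squared -/
noncomputable def hs (H : X →L[ℝ] X) : ℝ := ∑ i, ‖H (stdOrthonormalBasis ℝ X i)‖ ^ 2

/-- trace -/
noncomputable def tr (H : X →L[ℝ] X) : ℝ :=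
  ∑ i, ⟪H (stdOrthonormalBasis ℝ X i), stdOrthonormalBasis ℝ X i⟫

/-- second derivative of `|x - c|⁻¹` -/
noncomputable def hP (c x : X) : X →L[ℝ] X :=
  (3 * (‖x - c‖ ^ 5)⁻¹) • (innerSL ℝ (x - c)).smulRight (x - c) -
    (‖x - c‖ ^ 3)⁻¹ • ContinuousLinearMap.id ℝ X

theorem hP_apply (c x a : X) : hP c x a =
    (3 * (‖x - c‖ ^ 5)⁻¹ * ⟪x - c, a⟫) • (x - c) - (‖x - c‖ ^ 3)⁻¹ • a := by
  simp only [hP, sub_apply, smul_apply, ContinuousLinearMap.smulRight_apply,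
    innerSL_apply_apply, ContinuousLinearMap.id_apply, smul_smul]

/-- second derivative of the potential of the nuclei -/
noncomputable def hVpt (z : ι → ℝ) (R : ι → X) (x : X) : X →L[ℝ] X := ∑ i, z i • hP (R i) x

/-- the potential minus the chemical potential, and its gradient -/
noncomputable def psi (φ₀ : ℝ) (z : ι → ℝ) (R : ι → X) (ρ : X → ℝ) (x : X) : ℝ :=
  Vpt z R x - pot ρ x - φ₀

noncomputable def psi' (z : ι → ℝ) (R : ι → X) (ρ : X → ℝ) (x : X) : X :=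
  gVpt z R x - gradV ρ x

/-- second derivatives of the solution off the nuclei -/
structure HessSol (z : ι → ℝ) (R : ι → X) (ρ : X → ℝ) (H : X → X →L[ℝ] X) : Prop where
  deriv : ∀ x, (∀ i, x ≠ R i) → HasFDerivAt (psi' z R ρ) (H x) x
  cont : ContinuousOn H (range R)ᶜ
  symm : ∀ x, (∀ i, x ≠ R i) → ∀ a b, ⟪H x a, b⟫ = ⟪a, H x b⟫
  trace : ∀ x, (∀ i, x ≠ R i) → tr (H x) = 4 * Real.pi * ρ x
  near : ∃ C, 0 ≤ C ∧ ∀ x, (∀ i, x ≠ R i) →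
    ‖H x - hVpt z R x‖ ≤ C * (1 + ∑ i, (‖x - R i‖⁻¹) ^ (7 / 4 : ℝ))
  far : ∃ C N, 0 ≤ C ∧ 0 < N ∧ ∀ x, N ≤ ‖x‖ → ‖H x‖ ≤ C * (‖x‖ ^ 2)⁻¹

/-- regularised modulus of the gradient -/
noncomputable def Gm (ε : ℝ) (v : X) : ℝ := √(‖v‖ ^ 2 + ε ^ 2)

theorem Gm_sq (ε : ℝ) (v : X) : Gm ε v ^ 2 = ‖v‖ ^ 2 + ε ^ 2 :=
  Real.sq_sqrt (by positivity)

theorem Gm_pos {ε : ℝ} (hε : 0 < ε) (v : X) : 0 < Gm ε v := Real.sqrt_pos.mpr (by positivity)

/-- gradient of the regularised modulus -/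
noncomputable def gG (ε : ℝ) (v : X) (H : X →L[ℝ] X) : X := H ((Gm ε v)⁻¹ • v)

/-- gradient of `s (ψ, G)`, with `a = s₁`, `b = s₂` -/
noncomputable def gs (ε a b : ℝ) (v : X) (H : X →L[ℝ] X) : X := a • v + b • gG ε v H

/-- the pointwise density: everything except the terms with the constant `c` -/
noncomputable def DD (ε s a b Rr Γ : ℝ) (v : X) (H : X →L[ℝ] X) : ℝ :=
  ‖v‖ ^ 2 + s ^ 2 * (hs H - ‖gG ε v H‖ ^ 2) - Gm ε v ^ 2 * ‖gs ε a b v H‖ ^ 2 -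
    2 * Gm ε v * ⟪v, gs ε a b v H⟫ - 2 * s * ⟪v, gG ε v H⟫ + 2 * Rr * s * Gm ε v -
    Γ * s ^ 2 * ε ^ 2

end sol

end Pool.Agent.TF.Grd
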