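import Pool.Agent.Lib.MP_9cf0c9_mp.Hess2
import Pool.Agent.Lib.MP_9cf0c9_mp.GradDefs

/-! The solution is `C²` off the nuclei, with bounds for the second derivative. -/

set_option linter.unusedSectionVars false
set_option linter.unusedVariables false
set_option linter.style.haveILetI false

namespace Pool.Agent.TF
open MeasureTheory Set Metric Filter Topology
open scoped ENNReal NNReal RealInnerProductSpace Gradient

section gen
variable {V : Type*} [NormedAddCommGroup V] [InnerProductSpace ℝ V] [FiniteDimensional ℝ V]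
  [MeasurableSpace V] [BorelSpace V] [hd : Fact (Module.finrank ℝ V = 3)]

/-- the local theorem with `fderiv` -/
theorem loc_hess' (V : Type*) [NormedAddCommGroup V] [InnerProductSpace ℝ V]
    [FiniteDimensional ℝ V] [MeasurableSpace V] [BorelSpace V]
    [hd : Fact (Module.finrank ℝ V = 3)] :
    ∃ C : ℝ, 0 ≤ C ∧ ∀ {f : V → ℝ} {f' : V → V} (hm : Measurable f)
    (hf : Integrable f) {x₀ : V} {δ : ℝ} (hδ : 0 < δ)
    (hg : ∀ x ∈ ball x₀ δ, HasGradientAt f (f' x) x) (hc : ContinuousOn f' (ball x₀ δ))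
    {M₀ M₁ : ℝ} (h0 : ∀ x ∈ ball x₀ δ, |f x| ≤ M₀) (h1 : ∀ x ∈ ball x₀ δ, ‖f' x‖ ≤ M₁),
    HasFDerivAt (gradV f) (fderiv ℝ (gradV f) x₀) x₀ ∧
      ContinuousAt (fderiv ℝ (gradV f)) x₀ ∧
      (∀ a b, ⟪fderiv ℝ (gradV f) x₀ a, b⟫ = ⟪a, fderiv ℝ (gradV f) x₀ b⟫) ∧
      ∑ i, ⟪fderiv ℝ (gradV f) x₀ (stdOrthonormalBasis ℝ V i), stdOrthonormalBasis ℝ V i⟫ =
        -(4 * Real.pi * f x₀) ∧
      ‖fderiv ℝ (gradV f) x₀‖ ≤ C * (δ * M₁ + M₀ + δ⁻¹ * ∫ y, (‖x₀ - y‖ ^ 2)⁻¹ * |f y|) := by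
  obtain ⟨C, hC, h⟩ := loc_hess (V := V)
  refine ⟨C, hC, ?_⟩
  intro f f' hm hf x₀ δ hδ hg hc M₀ M₁ h0 h1
  obtain ⟨H, p1, p2, p3, p4, p5⟩ := h hm hf hδ hg hc h0 h1
  have hx : x₀ ∈ ball x₀ (δ / 4) := mem_ball_self (by positivity)
  have e : ∀ x ∈ ball x₀ (δ / 4), fderiv ℝ (gradV f) x = H x := fun x hx => (p1 x hx).fderiv
  refine ⟨(p1 x₀ hx).differentiableAt.hasFDerivAt, ?_, ?_, ?_, ?_⟩
  · refine (p2 x₀ hx).congr ?_
    filter_upwards [isOpen_ball.mem_nhds hx] with y hy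
    exact (e y hy).symm
  · rw [e x₀ hx]; exact p3
  · rw [e x₀ hx]; exact p4
  · rw [e x₀ hx]; exact p5

variable {ι : Type*} [Fintype ι]

/-- bound of the convolution near the singularities -/
theorem int_bound_nuc {f : V → ℝ} (hfm : Measurable f) (R : ι → V) {C r : ℝ} (hC : 0 ≤ C)
    (hf : ∀ y, |f y| ≤ C * (1 + ∑ i, (‖y - R i‖⁻¹) ^ (3 / 2 : ℝ))) (h0 : ∀ y, r ≤ ‖y‖ → f y = 0) :
    ∃ D : ℝ, 0 ≤ D ∧ ∀ x, (∀ i, x ≠ R i) →
      ∫ y, (‖x - y‖ ^ 2)⁻¹ * |f y| ≤ D * (1 + ∑ i, (‖x - R i‖⁻¹) ^ (3 / 4 : ℝ)) := by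
  obtain ⟨C1, hC1, hconv⟩ := conv_bound (V := V) r
  set B : V → ℝ := (ball (0 : V) r).indicator fun _ => (1 : ℝ) with hB
  have hB0 : ∀ y, 0 ≤ B y := fun y => indicator_nonneg (fun _ _ => zero_le_one) _
  have hBbc : BC B := by
    refine ⟨measurable_const.indicator measurableSet_ball, ⟨1, fun x => ?_⟩,
      ⟨r, fun x hx => indicator_of_notMem (by simpa using hx) _⟩⟩
    rw [abs_of_nonneg (hB0 x)]
    exact indicator_le_self' (fun _ _ => zero_le_one) _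
  obtain ⟨C2, hC2⟩ := ker_sq.bound hBbc
  have hC20 : 0 ≤ C2 := (abs_nonneg _).trans (hC2 0)
  refine ⟨C * (C2 + C1), by positivity, fun x hx => ?_⟩
  set F : V → ℝ := fun y => C * ((‖x - y‖ ^ 2)⁻¹ * B y +
    ∑ i, B y * ((‖y - R i‖⁻¹) ^ (3 / 2 : ℝ) * (‖x - y‖ ^ 2)⁻¹)) with hF
  have i1 : Integrable (fun y => (‖x - y‖ ^ 2)⁻¹ * B y) := ker_sq.integrable hBbc x
  have i2 : Integrable (fun y => ∑ i, B y * ((‖y - R i‖⁻¹) ^ (3 / 2 : ℝ) * (‖x - y‖ ^ 2)⁻¹)) :=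
    integrable_finsetSum _ fun i _ => (hconv x (R i) (hx i)).1
  have hFi : Integrable F := (i1.add i2).const_mul C
  have hle : ∀ y, (‖x - y‖ ^ 2)⁻¹ * |f y| ≤ F y := by
    intro y
    by_cases hy : y ∈ ball (0 : V) r
    · have hBy : B y = 1 := indicator_of_mem hy _
      simp only [hF, hBy, mul_one, one_mul]
      refine (mul_le_mul_of_nonneg_left (hf y) (by positivity)).trans (le_of_eq ?_)
      rw [← Finset.sum_mul]
      ring
    · have : f y = 0 := h0 y (by simpa using hy)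
      rw [this, abs_zero, mul_zero]
      have hBy := hB0 y
      have : 0 ≤ ∑ i, B y * ((‖y - R i‖⁻¹) ^ (3 / 2 : ℝ) * (‖x - y‖ ^ 2)⁻¹) :=
        Finset.sum_nonneg fun i _ => by positivity
      simp only [hF]
      positivity
  have h1 : ∫ y, (‖x - y‖ ^ 2)⁻¹ * |f y| ≤ ∫ y, F y :=
    integral_mono_of_nonneg (Eventually.of_forall fun y => by positivity) hFi
      (Eventually.of_forall hle)
  refine h1.trans ?_
  simp only [hF]
  rw [integral_const_mul, integral_add i1 i2,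
    integral_finsetSum _ fun i _ => (hconv x (R i) (hx i)).1]
  have h2 : ∫ y, (‖x - y‖ ^ 2)⁻¹ * B y ≤ C2 := (le_abs_self _).trans (hC2 x)
  have h3 : ∑ i, ∫ y, B y * ((‖y - R i‖⁻¹) ^ (3 / 2 : ℝ) * (‖x - y‖ ^ 2)⁻¹) ≤
      ∑ i, C1 * (‖x - R i‖⁻¹) ^ (3 / 4 : ℝ) :=
    Finset.sum_le_sum fun i _ => (hconv x (R i) (hx i)).2
  rw [← Finset.mul_sum] at h3
  set Q : ℝ := ∑ i, (‖x - R i‖⁻¹) ^ (3 / 4 : ℝ) with hQ
  have hQ0 : 0 ≤ Q := Finset.sum_nonneg fun i _ => by positivity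
  have q1 := mul_nonneg hC hC20
  have q2 := mul_nonneg hC hC1
  have q3 := mul_nonneg q1 hQ0
  calc C * ((∫ y, (‖x - y‖ ^ 2)⁻¹ * B y) +
        ∑ i, ∫ y, B y * ((‖y - R i‖⁻¹) ^ (3 / 2 : ℝ) * (‖x - y‖ ^ 2)⁻¹))
      ≤ C * (C2 + C1 * Q) := mul_le_mul_of_nonneg_left (add_le_add h2 h3) hC
    _ ≤ C * (C2 + C1) * (1 + Q) := by linarith only [q2, q3]

end gen

/-! ### the nonlinearity -/

theorem gam_nonneg' (w : ℝ) : 0 ≤ gam w := by unfold gam; positivity

theorem gam_continuous' : Continuous gam := by unfold gam; fun_prop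

theorem hasDerivAt_tf' (v : ℝ) : HasDerivAt tf (gam v) v := by
  rcases lt_trichotomy v 0 with hv | hv | hv
  · have h1 : tf =ᶠ[𝓝 v] fun _ => 0 := by
      filter_upwards [gt_mem_nhds hv] with w hw
      exact tf_of_nonpos hw.le
    have h2 : gam v = 0 := by unfold gam; rw [max_eq_right hv.le]; simp
    rw [h2]
    exact (hasDerivAt_const v (0 : ℝ)).congr_of_eventuallyEq h1
  · subst hv
    have h2 : gam 0 = 0 := by unfold gam; simp
    have h3 : tf 0 = 0 := tf_of_nonpos le_rfl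
    rw [h2, hasDerivAt_iff_isLittleO_nhds_zero, Asymptotics.isLittleO_iff]
    intro c hc
    have h4 : Tendsto (fun h : ℝ => √|h|) (𝓝 0) (𝓝 √|(0 : ℝ)|) :=
      (by fun_prop : Continuous fun h : ℝ => √|h|).tendsto 0
    rw [abs_zero, Real.sqrt_zero] at h4
    filter_upwards [h4.eventually (gt_mem_nhds hc)] with h hh
    rw [zero_add, h3, sub_zero, smul_zero, sub_zero, Real.norm_of_nonneg (tf_nonneg h),
      Real.norm_eq_abs]
    unfold tf
    have e1 : max h 0 ≤ |h| := max_le (le_abs_self h) (abs_nonneg h)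
    calc max h 0 * √(max h 0) ≤ |h| * √|h| :=
          mul_le_mul e1 (Real.sqrt_le_sqrt e1) (Real.sqrt_nonneg _) (abs_nonneg _)
      _ ≤ |h| * c := mul_le_mul_of_nonneg_left hh.le (abs_nonneg _)
      _ = c * |h| := mul_comm _ _
  · have h1 : HasDerivAt (fun v => v * √v) (1 * √v + v * (1 / (2 * √v))) v :=
      (hasDerivAt_id v).mul (Real.hasDerivAt_sqrt hv.ne')
    have h2 : tf =ᶠ[𝓝 v] fun v => v * √v := by
      filter_upwards [lt_mem_nhds hv] with w hw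
      unfold tf; rw [max_eq_left hw.le]
    refine (h1.congr_of_eventuallyEq h2).congr_deriv ?_
    unfold gam
    rw [max_eq_left hv.le]
    have h3 : √v * √v = v := Real.mul_self_sqrt hv.le
    have h4 : √v ≠ 0 := (Real.sqrt_pos.2 hv).ne'
    field_simp
    linarith only [h3]

end Pool.Agent.TF

namespace Pool.Agent.TF.Grd
open MeasureTheory Set Metric Filter Topology
open scoped ENNReal NNReal RealInnerProductSpace Gradient

variable {ι : Type*} [Fintype ι]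

theorem hP_eq (c x : X) : hP c x = d2 c x := rfl

theorem hP_norm (c x : X) : ‖hP c x‖ ≤ 4 * (‖x - c‖ ^ 3)⁻¹ := d2_norm c x

/-- the sum of the inverse distances -/
noncomputable def aR (R : ι → X) (x : X) : ℝ := 1 + ∑ i, ‖x - R i‖⁻¹

theorem one_le_aR (R : ι → X) (x : X) : 1 ≤ aR R x := by
  unfold aR
  have : 0 ≤ ∑ i, ‖x - R i‖⁻¹ := Finset.sum_nonneg fun i _ => by positivity
  linarith

theorem inv_le_aR (R : ι → X) (x : X) (i : ι) : ‖x - R i‖⁻¹ ≤ aR R x := by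
  unfold aR
  have := Finset.single_le_sum (f := fun i => ‖x - R i‖⁻¹) (fun i _ => by positivity)
    (Finset.mem_univ i)
  linarith

theorem aR_ball {R : ι → X} {x : X} (hx : ∀ i, x ≠ R i) {y : X}
    (hy : y ∈ ball x (2 * aR R x)⁻¹) (i : ι) : y ≠ R i ∧ ‖y - R i‖⁻¹ ≤ 2 * aR R x := by
  have ha := one_le_aR R x
  have h0 : 0 < ‖x - R i‖ := norm_pos_iff.mpr (sub_ne_zero.mpr (hx i))
  have h1 : (aR R x)⁻¹ ≤ ‖x - R i‖ := by
    rw [inv_le_comm₀ (by linarith) h0]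
    exact inv_le_aR R x i
  have h2 : (2 * aR R x)⁻¹ = (aR R x)⁻¹ / 2 := by
    rw [mul_inv]; ring
  rw [mem_ball, dist_eq_norm, h2] at hy
  have h3 : ‖x - R i‖ ≤ ‖y - R i‖ + ‖y - x‖ := by
    have e : x - R i = (y - R i) - (y - x) := by abel
    rw [e]
    exact norm_sub_le _ _
  have h4 : (aR R x)⁻¹ / 2 ≤ ‖y - R i‖ := by linarith
  have h5 : 0 < (aR R x)⁻¹ / 2 := by positivity
  constructor
  · intro h
    rw [h, sub_self, norm_zero] at h4
    linarith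
  · calc ‖y - R i‖⁻¹ ≤ ((aR R x)⁻¹ / 2)⁻¹ := inv_anti₀ h5 h4
      _ = _ := by rw [inv_div, div_inv_eq_mul]

theorem off_mem {R : ι → X} {x : X} : (∀ i, x ≠ R i) ↔ x ∈ (range R)ᶜ := by
  constructor
  · rintro h ⟨i, hi⟩
    exact h i hi.symm
  · intro h i hi
    exact h ⟨i, hi.symm⟩

theorem isOpen_off (R : ι → X) : IsOpen (range R)ᶜ := (finite_range R).isClosed.isOpen_compl

theorem gVpt_continuousAt (z : ι → ℝ) {R : ι → X} {x : X} (hx : ∀ i, x ≠ R i) :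
    ContinuousAt (gVpt z R) x := by
  unfold gVpt
  exact tendsto_finsetSum _ fun i _ => ((hasFDerivAt_gradP (hx i)).continuousAt).const_smul (z i)

theorem hasFDerivAt_gVpt (z : ι → ℝ) {R : ι → X} {x : X} (hx : ∀ i, x ≠ R i) :
    HasFDerivAt (gVpt z R) (hVpt z R x) x := by
  unfold gVpt hVpt
  exact HasFDerivAt.fun_sum fun i _ => (hasFDerivAt_gradP (hx i)).fun_const_smul (z i)

theorem hVpt_continuousAt (z : ι → ℝ) {R : ι → X} {x : X} (hx : ∀ i, x ≠ R i) :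
    ContinuousAt (hVpt z R) x := by
  unfold hVpt
  exact tendsto_finsetSum _ fun i _ => (d2_continuousAt (hx i)).const_smul (z i)

section sol
variable {z : ι → ℝ} (hz : ∀ i, 0 ≤ z i) (R : ι → X) {φ₀ : ℝ} (hφ : 0 < φ₀)
    {ρ : X → ℝ} (hρ : TC ρ) (heq : ∀ x, ρ x = tf (Vpt z R x - pot ρ x - φ₀))
include hz hφ hρ heq

theorem rho_locbdd {x : X} (hx : ∀ i, x ≠ R i) : ∃ δ > 0, ∃ M, ∀ y ∈ ball x δ, |ρ y| ≤ M := by
  have hp0 : ∀ x, 0 ≤ pot ρ x := pot_nonneg hρ.nonneg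
  have hle : ∀ x, |ρ x| ≤ gdom φ₀ z R x := fun x => by
    rw [abs_of_nonneg (hρ.nonneg x), heq x]
    exact tf_mono (by have := hp0 x; linarith)
  have hc : ContinuousAt (gdom φ₀ z R) x :=
    tf_continuous.continuousAt.comp ((Vpt_continuousAt z R hx).sub continuousAt_const)
  exact locbdd_of_continuousAt hle hc

theorem hasGradientAt_psi {x : X} (hx : ∀ i, x ≠ R i) :
    HasGradientAt (psi φ₀ z R ρ) (psi' z R ρ x) x := by
  obtain ⟨δ, hδ, M, hM⟩ := rho_locbdd hz R hφ hρ heq hx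
  have h1 := (loc_grad hρ.meas hρ.int hδ hM).2.1
  have h2 := ((hasGradientAt_Vpt z R hx).hasFDerivAt.sub h1.hasFDerivAt).sub_const φ₀
  rw [← map_sub] at h2
  exact h2

theorem psi'_continuousAt {x : X} (hx : ∀ i, x ≠ R i) : ContinuousAt (psi' z R ρ) x := by
  obtain ⟨δ, hδ, M, hM⟩ := rho_locbdd hz R hφ hρ heq hx
  exact (gVpt_continuousAt z hx).sub (loc_grad hρ.meas hρ.int hδ hM).2.2

theorem hasGradientAt_rho {x : X} (hx : ∀ i, x ≠ R i) :
    HasGradientAt ρ (gam (psi φ₀ z R ρ x) • psi' z R ρ x) x := by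
  have h1 := hasGradientAt_psi hz R hφ hρ heq hx
  have h2 := (hasDerivAt_tf' (psi φ₀ z R ρ x)).comp_hasFDerivAt x h1.hasFDerivAt
  have h3 : tf ∘ psi φ₀ z R ρ = ρ := funext fun y => (heq y).symm
  rw [h3] at h2
  rw [hasGradientAt_iff_hasFDerivAt, map_smul]
  exact h2

/-- bounds for the density, its gradient and the convolution in terms of `aR` -/
theorem sol_bounds : ∃ K : ℝ, 0 ≤ K ∧ ∀ x, (∀ i, x ≠ R i) →
    (∀ y ∈ ball x (2 * aR R x)⁻¹, |ρ y| ≤ K * aR R x ^ (3 / 2 : ℝ) ∧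
      ‖gam (psi φ₀ z R ρ y) • psi' z R ρ y‖ ≤ K * aR R x ^ (5 / 2 : ℝ)) ∧
    ∫ y, (‖x - y‖ ^ 2)⁻¹ * |ρ y| ≤ K * aR R x ^ (3 / 4 : ℝ) := by
  obtain ⟨-, ⟨D, hD, hD'⟩, -⟩ := sol_facts hz R hφ hρ heq
  obtain ⟨C, hC, hC'⟩ := tf_Vn_le hz R
  obtain ⟨r, hr0, hr⟩ := sol_supp hz R hφ hρ heq
  have hp0 : ∀ x, 0 ≤ pot ρ x := pot_nonneg hρ.nonneg
  have hle : ∀ x, |ρ x| ≤ gdom φ₀ z R x := fun x => by
    rw [abs_of_nonneg (hρ.nonneg x), heq x]
    exact tf_mono (by have := hp0 x; linarith)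
  obtain ⟨D2, hD2, hD2'⟩ := int_bound_nuc hρ.meas R hC (fun y => (hle y).trans (hC' φ₀ hφ.le y)) hr
  set Z : ℝ := ∑ i, z i with hZ
  have hZ0 : 0 ≤ Z := Finset.sum_nonneg fun i _ => hz i
  set n : ℝ := (Fintype.card ι : ℝ) with hn
  have hn0 : 0 ≤ n := by positivity
  set K1 : ℝ := tf (2 * Z) with hK1
  have hK10 : 0 ≤ K1 := tf_nonneg _
  set K2 : ℝ := 3 / 2 * √(2 * Z) * (4 * Z + 2 * D * (1 + n)) with hK2
  have hK20 : 0 ≤ K2 := by positivity
  set K3 : ℝ := D2 * (1 + n) with hK3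
  have hK30 : 0 ≤ K3 := by positivity
  refine ⟨K1 + K2 + K3, by positivity, fun x hx => ?_⟩
  have ha1 := one_le_aR R x
  set a := aR R x with ha
  have ha0 : 0 < a := by linarith
  have hpsi : ∀ y ∈ ball x (2 * a)⁻¹, psi φ₀ z R ρ y ≤ 2 * Z * a := by
    intro y hy
    have h1 : Vpt z R y ≤ 2 * Z * a := by
      unfold Vpt
      rw [hZ, Finset.mul_sum, Finset.sum_mul]
      refine Finset.sum_le_sum fun i _ => ?_
      have h2 := (aR_ball hx hy i).2
      have h3 := mul_le_mul_of_nonneg_left h2 (hz i)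
      calc z i * ‖y - R i‖⁻¹ ≤ z i * (2 * aR R x) := h3
        _ = _ := by ring
    unfold psi
    have := hp0 y
    linarith
  refine ⟨fun y hy => ⟨?_, ?_⟩, ?_⟩
  · rw [abs_of_nonneg (hρ.nonneg y), heq y]
    have h1 : tf (Vpt z R y - pot ρ y - φ₀) ≤ tf (2 * Z * a) := tf_mono (hpsi y hy)
    have h2 : tf (2 * Z * a) = K1 * a ^ (3 / 2 : ℝ) := by
      rw [hK1, tf_eq_rpow (by positivity), tf_eq_rpow (by positivity),
        Real.mul_rpow (by positivity) ha0.le]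
    rw [h2] at h1
    refine h1.trans (mul_le_mul_of_nonneg_right (by linarith) (by positivity))
  · have h1 : gam (psi φ₀ z R ρ y) ≤ 3 / 2 * (√(2 * Z) * √a) := by
      unfold gam
      refine mul_le_mul_of_nonneg_left ?_ (by norm_num)
      rw [← Real.sqrt_mul (by positivity)]
      exact Real.sqrt_le_sqrt (max_le (hpsi y hy) (by positivity))
    have hoff : ∀ i, y ≠ R i := fun i => (aR_ball hx hy i).1
    have h2 : ‖psi' z R ρ y‖ ≤ (4 * Z + 2 * D * (1 + n)) * a ^ 2 := by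
      unfold psi'
      refine (norm_sub_le _ _).trans ?_
      have h3 : ‖gVpt z R y‖ ≤ 4 * Z * a ^ 2 := by
        unfold gVpt
        refine (norm_sum_le _ _).trans ?_
        rw [hZ, Finset.mul_sum, Finset.sum_mul]
        refine Finset.sum_le_sum fun i _ => ?_
        rw [norm_smul, Real.norm_of_nonneg (hz i), gradP_norm]
        have h4 := (aR_ball hx hy i).2
        have h5 : (‖y - R i‖ ^ 2)⁻¹ ≤ (2 * a) ^ 2 := by
          rw [← inv_pow]
          exact pow_le_pow_left₀ (by positivity) h4 2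
        calc z i * (‖y - R i‖ ^ 2)⁻¹ ≤ z i * (2 * a) ^ 2 := mul_le_mul_of_nonneg_left h5 (hz i)
          _ = _ := by ring
      have h6 : ‖gradV ρ y‖ ≤ 2 * D * (1 + n) * a ^ 2 := by
        refine (hD' y hoff).trans ?_
        have h7 : ∑ i, (‖y - R i‖⁻¹) ^ (3 / 4 : ℝ) ≤ n * (2 * a) := by
          have h8 : ∀ i ∈ (Finset.univ : Finset ι), (‖y - R i‖⁻¹) ^ (3 / 4 : ℝ) ≤ 2 * a := by
            intro i _
            have h9 := (aR_ball hx hy i).2
            calc (‖y - R i‖⁻¹) ^ (3 / 4 : ℝ) ≤ (2 * a) ^ (3 / 4 : ℝ) :=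
                  Real.rpow_le_rpow (by positivity) h9 (by norm_num)
              _ ≤ (2 * a) ^ (1 : ℝ) := Real.rpow_le_rpow_of_exponent_le (by linarith) (by norm_num)
              _ = 2 * a := Real.rpow_one _
          have h10 := Finset.sum_le_sum h8
          rw [Finset.sum_const, Finset.card_univ, nsmul_eq_mul] at h10
          exact h10
        have h11 : 1 + n * (2 * a) ≤ 2 * (1 + n) * a ^ 2 := by
          have e1 : a ≤ a ^ 2 := by
            have := mul_le_mul_of_nonneg_left ha1 ha0.le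
            linarith only [this]
          have e2 : 1 ≤ 2 * a ^ 2 := by linarith only [e1, ha1, sq_nonneg a]
          linarith only [mul_le_mul_of_nonneg_left e1 hn0, e2]
        calc D * (1 + ∑ i, (‖y - R i‖⁻¹) ^ (3 / 4 : ℝ)) ≤ D * (2 * (1 + n) * a ^ 2) :=
              mul_le_mul_of_nonneg_left (by linarith) hD
          _ = _ := by ring
      linarith
    rw [norm_smul, Real.norm_of_nonneg (gam_nonneg' _)]
    have h3 : gam (psi φ₀ z R ρ y) * ‖psi' z R ρ y‖ ≤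
        3 / 2 * (√(2 * Z) * √a) * ((4 * Z + 2 * D * (1 + n)) * a ^ 2) :=
      mul_le_mul h1 h2 (norm_nonneg _) (by positivity)
    have h4 : √a * a ^ 2 = a ^ (5 / 2 : ℝ) := by
      rw [Real.sqrt_eq_rpow, ← Real.rpow_natCast, ← Real.rpow_add ha0]
      norm_num
    have h5 : 3 / 2 * (√(2 * Z) * √a) * ((4 * Z + 2 * D * (1 + n)) * a ^ 2) =
        K2 * a ^ (5 / 2 : ℝ) := by
      rw [← h4, hK2]; ring
    rw [h5] at h3
    exact h3.trans (mul_le_mul_of_nonneg_right (by linarith) (by positivity))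
  · refine (hD2' x hx).trans ?_
    have h1 : ∀ i ∈ (Finset.univ : Finset ι), (‖x - R i‖⁻¹) ^ (3 / 4 : ℝ) ≤ a ^ (3 / 4 : ℝ) :=
      fun i _ => Real.rpow_le_rpow (by positivity) (inv_le_aR R x i) (by norm_num)
    have h2 := Finset.sum_le_sum h1
    rw [Finset.sum_const, Finset.card_univ, nsmul_eq_mul] at h2
    have h3 : 1 ≤ a ^ (3 / 4 : ℝ) := Real.one_le_rpow ha1 (by norm_num)
    calc D2 * (1 + ∑ i, (‖x - R i‖⁻¹) ^ (3 / 4 : ℝ)) ≤ D2 * (a ^ (3 / 4 : ℝ) + n * a ^ (3 / 4 : ℝ)) :=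
          mul_le_mul_of_nonneg_left (by linarith) hD2
      _ = K3 * a ^ (3 / 4 : ℝ) := by rw [hK3]; ring
      _ ≤ _ := mul_le_mul_of_nonneg_right (by linarith) (by positivity)

/-- **the solution is `C²` off the nuclei** -/
theorem exists_hessSol : ∃ H, HessSol z R ρ H := by
  obtain ⟨C, hC, hloc⟩ := loc_hess' X
  obtain ⟨K, hK, hb⟩ := sol_bounds hz R hφ hρ heq
  obtain ⟨r, hr0, hr⟩ := sol_supp hz R hφ hρ heq
  set G : X → X →L[ℝ] X := fderiv ℝ (gradV ρ) with hG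
  have hmain : ∀ x, (∀ i, x ≠ R i) → HasFDerivAt (gradV ρ) (G x) x ∧ ContinuousAt G x ∧
      (∀ a b, ⟪G x a, b⟫ = ⟪a, G x b⟫) ∧ tr (G x) = -(4 * Real.pi * ρ x) ∧
      ‖G x‖ ≤ C * (2 * K + 2 * K) * aR R x ^ (7 / 4 : ℝ) := by
    intro x hx
    have ha1 := one_le_aR R x
    set a := aR R x with ha
    have ha0 : 0 < a := by linarith
    have hδ : 0 < (2 * a)⁻¹ := by positivity
    obtain ⟨b1, b2⟩ := hb x hx
    have hoff : ∀ y ∈ ball x (2 * a)⁻¹, ∀ i, y ≠ R i := fun y hy i => (aR_ball hx hy i).1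
    obtain ⟨q1, q2, q3, q4, q5⟩ := hloc (f' := fun y => gam (psi φ₀ z R ρ y) • psi' z R ρ y)
      hρ.meas hρ.int hδ
      (fun y hy => hasGradientAt_rho hz R hφ hρ heq (hoff y hy))
      (fun y hy => ContinuousAt.continuousWithinAt (by
        have h1 := (hasGradientAt_psi hz R hφ hρ heq (hoff y hy)).hasFDerivAt.continuousAt
        exact (gam_continuous'.continuousAt.comp h1).smul
          (psi'_continuousAt hz R hφ hρ heq (hoff y hy))))
      (fun y hy => (b1 y hy).1) (fun y hy => (b1 y hy).2)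
    refine ⟨q1, q2, q3, q4, q5.trans ?_⟩
    rw [mul_assoc]
    refine mul_le_mul_of_nonneg_left ?_ hC
    have e1 : a ^ (5 / 2 : ℝ) = a * a ^ (3 / 2 : ℝ) := by
      rw [← Real.rpow_one_add' ha0.le (by norm_num)]; norm_num
    have e2 : a ^ (7 / 4 : ℝ) = a * a ^ (3 / 4 : ℝ) := by
      rw [← Real.rpow_one_add' ha0.le (by norm_num)]; norm_num
    have e3 : a ^ (3 / 2 : ℝ) ≤ a ^ (7 / 4 : ℝ) :=
      Real.rpow_le_rpow_of_exponent_le ha1 (by norm_num)
    have e4 : (2 * a)⁻¹ * (K * a ^ (5 / 2 : ℝ)) = K / 2 * a ^ (3 / 2 : ℝ) := by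
      rw [e1]; field_simp
    have e5 : (2 * a)⁻¹⁻¹ * ∫ y, (‖x - y‖ ^ 2)⁻¹ * |ρ y| ≤ 2 * K * a ^ (7 / 4 : ℝ) := by
      rw [inv_inv, e2]
      calc 2 * a * ∫ y, (‖x - y‖ ^ 2)⁻¹ * |ρ y| ≤ 2 * a * (K * a ^ (3 / 4 : ℝ)) :=
            mul_le_mul_of_nonneg_left b2 (by positivity)
        _ = _ := by ring
    rw [e4]
    have e6 : K / 2 * a ^ (3 / 2 : ℝ) + K * a ^ (3 / 2 : ℝ) ≤ 2 * K * a ^ (7 / 4 : ℝ) := by
      have := mul_le_mul_of_nonneg_left e3 hK
      have h0 : 0 ≤ K * a ^ (7 / 4 : ℝ) := by positivity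
      linarith
    linarith
  refine ⟨fun x => hVpt z R x - G x, ?_, ?_, ?_, ?_, ?_, ?_⟩
  · intro x hx
    exact (hasFDerivAt_gVpt z hx).sub (hmain x hx).1
  · intro x hx
    have hx' := off_mem.mpr hx
    exact ((hVpt_continuousAt z hx').sub (hmain x hx').2.1).continuousWithinAt
  · intro x hx a b
    have h1 : ∀ i, ⟪(z i • hP (R i) x) a, b⟫ = ⟪a, (z i • hP (R i) x) b⟫ := by
      intro i
      rw [smul_apply, smul_apply, real_inner_smul_left, real_inner_smul_right, hP_apply,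
        hP_apply, inner_sub_left, inner_sub_right, real_inner_smul_left, real_inner_smul_left,
        real_inner_smul_right, real_inner_smul_right, real_inner_comm b a, real_inner_comm a (x - R i)]
      ring
    rw [sub_apply, sub_apply, inner_sub_left, inner_sub_right, (hmain x hx).2.2.1 a b]
    congr 1
    unfold hVpt
    rw [sum_apply, sum_apply, sum_inner, inner_sum]
    exact Finset.sum_congr rfl fun i _ => h1 i
  · intro x hx
    have h1 : tr (hVpt z R x) = 0 := by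
      unfold tr hVpt
      have e1 : ∀ j, ⟪(∑ i, z i • hP (R i) x) (stdOrthonormalBasis ℝ X j), stdOrthonormalBasis ℝ X j⟫ =
          ∑ i, z i * ⟪d2 (R i) x (stdOrthonormalBasis ℝ X j), stdOrthonormalBasis ℝ X j⟫ := by
        intro j
        rw [sum_apply, sum_inner]
        refine Finset.sum_congr rfl fun i _ => ?_
        rw [smul_apply, real_inner_smul_left, hP_eq]
      simp_rw [e1]
      rw [Finset.sum_comm]
      refine Finset.sum_eq_zero fun i _ => ?_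
      rw [← Finset.mul_sum, d2_trace, mul_zero]
    have h2 := (hmain x hx).2.2.2.1
    have h3 : tr (hVpt z R x - G x) = tr (hVpt z R x) - tr (G x) := by
      unfold tr
      rw [← Finset.sum_sub_distrib]
      refine Finset.sum_congr rfl fun i _ => ?_
      rw [sub_apply, inner_sub_left]
    rw [h3, h1, h2]
    ring
  · set n : ℝ := (Fintype.card ι : ℝ) with hn
    have hn0 : 0 ≤ n := by positivity
    refine ⟨C * (2 * K + 2 * K) * (1 + n) ^ (7 / 4 : ℝ), by positivity, fun x hx => ?_⟩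
    have h1 := (hmain x hx).2.2.2.2
    have e : hVpt z R x - G x - hVpt z R x = -G x := by abel
    rw [e, norm_neg]
    refine h1.trans ?_
    rw [mul_assoc (C * (2 * K + 2 * K))]
    refine mul_le_mul_of_nonneg_left ?_ (by positivity)
    -- `aR ≤ (1 + n) max`
    obtain ⟨m, hm1, hm2, hm3⟩ : ∃ m : ℝ, 1 ≤ m ∧ (∀ i, ‖x - R i‖⁻¹ ≤ m) ∧
        m ^ (7 / 4 : ℝ) ≤ 1 + ∑ i, (‖x - R i‖⁻¹) ^ (7 / 4 : ℝ) := by
      have hs0 : ∀ i, 0 ≤ (‖x - R i‖⁻¹) ^ (7 / 4 : ℝ) := fun i => by positivity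
      have hS0 : 0 ≤ ∑ i, (‖x - R i‖⁻¹) ^ (7 / 4 : ℝ) := Finset.sum_nonneg fun i _ => hs0 i
      set S := 1 + ∑ i, (‖x - R i‖⁻¹) ^ (7 / 4 : ℝ) with hS
      have hS1 : 1 ≤ S := by linarith
      refine ⟨S ^ (4 / 7 : ℝ), Real.one_le_rpow hS1 (by norm_num), fun i => ?_, ?_⟩
      · have h2 : (‖x - R i‖⁻¹) ^ (7 / 4 : ℝ) ≤ S := by
          have := Finset.single_le_sum (f := fun i => (‖x - R i‖⁻¹) ^ (7 / 4 : ℝ))
            (fun i _ => hs0 i) (Finset.mem_univ i)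
          linarith
        have h3 := Real.rpow_le_rpow (hs0 i) h2 (by norm_num : (0 : ℝ) ≤ 4 / 7)
        rw [← Real.rpow_mul (by positivity)] at h3
        norm_num at h3
        exact h3
      · rw [← Real.rpow_mul (by linarith)]
        norm_num
    have h2 : aR R x ≤ (1 + n) * m := by
      unfold aR
      have h3 := Finset.sum_le_sum (s := Finset.univ) fun i _ => hm2 i
      rw [Finset.sum_const, Finset.card_univ, nsmul_eq_mul] at h3
      linarith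
    calc aR R x ^ (7 / 4 : ℝ) ≤ ((1 + n) * m) ^ (7 / 4 : ℝ) :=
          Real.rpow_le_rpow (by have := one_le_aR R x; linarith) h2 (by norm_num)
      _ = (1 + n) ^ (7 / 4 : ℝ) * m ^ (7 / 4 : ℝ) :=
          Real.mul_rpow (by positivity) (by linarith)
      _ ≤ _ := mul_le_mul_of_nonneg_left hm3 (by positivity)
  · -- far away
    set M : ℝ := ∑ i, ‖R i‖ with hM
    have hM0 : 0 ≤ M := Finset.sum_nonneg fun i _ => norm_nonneg _
    have hMi : ∀ i, ‖R i‖ ≤ M := fun i =>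
      Finset.single_le_sum (f := fun i => ‖R i‖) (fun i _ => norm_nonneg _) (Finset.mem_univ i)
    set Z : ℝ := ∑ i, z i with hZ
    have hZ0 : 0 ≤ Z := Finset.sum_nonneg fun i _ => hz i
    set m : ℝ := ∫ y, |ρ y| with hm
    have hm0 : 0 ≤ m := integral_nonneg fun y => abs_nonneg _
    refine ⟨32 * Z + 8 * C * m, 2 * r + 2 * M + 1, by positivity, by positivity, fun x hx => ?_⟩
    have hx1 : 1 ≤ ‖x‖ := by linarith
    have hx0 : 0 < ‖x‖ := by linarith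
    have hcube : (‖x‖ ^ 3)⁻¹ ≤ (‖x‖ ^ 2)⁻¹ :=
      inv_anti₀ (by positivity) (pow_le_pow_right₀ hx1 (by norm_num))
    have h1 : ‖hVpt z R x‖ ≤ 32 * Z * (‖x‖ ^ 2)⁻¹ := by
      unfold hVpt
      refine (norm_sum_le _ _).trans ?_
      rw [hZ, Finset.mul_sum, Finset.sum_mul]
      refine Finset.sum_le_sum fun i _ => ?_
      rw [norm_smul, Real.norm_of_nonneg (hz i)]
      have h2 : ‖x‖ / 2 ≤ ‖x - R i‖ := by
        have := norm_sub_norm_le x (R i)
        have := hMi i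
        linarith
      have h3 : (‖x‖ / 2) ^ 3 ≤ ‖x - R i‖ ^ 3 := pow_le_pow_left₀ (by positivity) h2 3
      have h4 : (‖x - R i‖ ^ 3)⁻¹ ≤ 8 * (‖x‖ ^ 3)⁻¹ := by
        calc (‖x - R i‖ ^ 3)⁻¹ ≤ ((‖x‖ / 2) ^ 3)⁻¹ := inv_anti₀ (by positivity) h3
          _ = _ := by
            rw [div_pow, inv_div]
            ring
      calc z i * ‖hP (R i) x‖ ≤ z i * (4 * (8 * (‖x‖ ^ 2)⁻¹)) := by
            refine mul_le_mul_of_nonneg_left ((hP_norm _ _).trans ?_) (hz i)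
            linarith
        _ = _ := by ring
    have h2 : ‖G x‖ ≤ 8 * C * m * (‖x‖ ^ 2)⁻¹ := by
      have hδ : 0 < ‖x‖ / 2 := by positivity
      have hfar : ∀ y ∈ ball x (‖x‖ / 2), r ≤ ‖y‖ := by
        intro y hy
        rw [mem_ball, dist_eq_norm] at hy
        have h3 : ‖x‖ ≤ ‖y‖ + ‖y - x‖ := by
          have e : x = y - (y - x) := by abel
          calc ‖x‖ = ‖y - (y - x)‖ := by rw [← e]
            _ ≤ _ := norm_sub_le _ _
        linarith
      have hz' : ∀ y ∈ ball x (‖x‖ / 2), ρ y = 0 := fun y hy => hr y (hfar y hy)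
      have q := (hloc (f' := fun _ => (0 : X)) hρ.meas hρ.int hδ
        (fun y hy => by
          refine (hasGradientAt_const y (0 : ℝ)).congr_of_eventuallyEq ?_
          filter_upwards [isOpen_ball.mem_nhds hy] with w hw
          exact hz' w hw) continuousOn_const (M₀ := 0) (M₁ := 0)
        (fun y hy => by rw [hz' y hy, abs_zero]) (fun y _ => by rw [norm_zero])).2.2.2.2
      have h3 : ∫ y, (‖x - y‖ ^ 2)⁻¹ * |ρ y| ≤ ∫ y, (4 * (‖x‖ ^ 2)⁻¹) * |ρ y| := by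
        refine integral_mono_of_nonneg (Eventually.of_forall fun y => by positivity)
          (hρ.int.abs.const_mul _) (Eventually.of_forall fun y => ?_)
        simp only
        by_cases hy : y ∈ ball x (‖x‖ / 2)
        · rw [hz' y hy, abs_zero, mul_zero, mul_zero]
        · refine mul_le_mul_of_nonneg_right ?_ (abs_nonneg _)
          rw [mem_ball, dist_eq_norm, not_lt, norm_sub_rev] at hy
          have h5 : (‖x‖ / 2) ^ 2 ≤ ‖x - y‖ ^ 2 := pow_le_pow_left₀ (by positivity) hy 2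
          calc (‖x - y‖ ^ 2)⁻¹ ≤ ((‖x‖ / 2) ^ 2)⁻¹ := inv_anti₀ (by positivity) h5
            _ = _ := by
              rw [div_pow, inv_div]
              ring
      rw [integral_const_mul, ← hm] at h3
      have h6 : (‖x‖ / 2)⁻¹ ≤ 2 := by
        rw [inv_div]
        exact (div_le_iff₀ hx0).mpr (by linarith)
      have h7 : (‖x‖ / 2)⁻¹ * ∫ y, (‖x - y‖ ^ 2)⁻¹ * |ρ y| ≤ 2 * (4 * (‖x‖ ^ 2)⁻¹ * m) := by
        refine mul_le_mul h6 h3 (integral_nonneg fun y => by positivity) (by norm_num)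
      calc ‖G x‖ ≤ C * (‖x‖ / 2 * 0 + 0 + (‖x‖ / 2)⁻¹ * ∫ y, (‖x - y‖ ^ 2)⁻¹ * |ρ y|) := q
        _ ≤ C * (‖x‖ / 2 * 0 + 0 + 2 * (4 * (‖x‖ ^ 2)⁻¹ * m)) :=
            mul_le_mul_of_nonneg_left (by linarith) hC
        _ = _ := by ring
    calc ‖hVpt z R x - G x‖ ≤ ‖hVpt z R x‖ + ‖G x‖ := norm_sub_le _ _
      _ ≤ 32 * Z * (‖x‖ ^ 2)⁻¹ + 8 * C * m * (‖x‖ ^ 2)⁻¹ := add_le_add h1 h2
      _ = _ := by ring

end sol

end Pool.Agent.TF.Grd
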