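import Pool.Agent.Lib.MP_9cf0c9_mp.Thomson

/-! The weak Poisson equation for point charges and trial functions; pointwise bounds for the
gradient of potentials of densities with singularities of order `3/2` at the nuclei. -/

set_option linter.unusedSectionVars false
set_option linter.unusedVariables false
set_option linter.style.haveILetI false

namespace Pool.Agent.TF
open MeasureTheory Set Metric Filter Topology
open scoped ENNReal NNReal RealInnerProductSpace Gradient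

variable {V : Type*} [NormedAddCommGroup V] [InnerProductSpace ℝ V] [FiniteDimensional ℝ V]
  [MeasurableSpace V] [BorelSpace V]

section dim3
variable [hd : Fact (Module.finrank ℝ V = 3)]

/-- gradient of `|x - c|⁻¹` -/
noncomputable def gradP (c x : V) : V := -((‖x - c‖ ^ 3)⁻¹ • (x - c))

theorem gradP_norm (c x : V) : ‖gradP c x‖ = (‖x - c‖ ^ 2)⁻¹ := by
  unfold gradP
  rw [norm_neg, norm_kv]

theorem gradP_meas (c : V) : Measurable (gradP c) :=
  (measurable_kv.comp (measurable_id.sub measurable_const)).neg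

theorem hasGradientAt_inv_norm {c x : V} (hx : x ≠ c) :
    HasGradientAt (fun y => ‖y - c‖⁻¹) (gradP c x) x := by
  have h0 : 0 < ‖x - c‖ := norm_pos_iff.mpr (sub_ne_zero.mpr hx)
  have h1 : HasFDerivAt (fun y : V => ‖y - c‖ ^ 2) ((2 : ℝ) • innerSL ℝ (x - c)) x := by
    have h2 : HasFDerivAt (fun y : V => ‖y‖ ^ 2) ((2 : ℝ) • innerSL ℝ (x - c)) (x - c) := by
      refine (hasStrictFDerivAt_norm_sq (x - c)).hasFDerivAt.congr_fderiv ?_
      ext y
      simp
    exact h2.comp x ((hasFDerivAt_id x).sub_const c)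
  have h3 : HasDerivAt (fun t : ℝ => (√t)⁻¹) (-(1 / 2) * (√(‖x - c‖ ^ 2) ^ 3)⁻¹) (‖x - c‖ ^ 2) := by
    have h4 : HasDerivAt (fun t : ℝ => √t) (1 / (2 * √(‖x - c‖ ^ 2))) (‖x - c‖ ^ 2) :=
      Real.hasDerivAt_sqrt (by positivity)
    have h5 := h4.fun_inv (by positivity)
    refine h5.congr_deriv ?_
    rw [Real.sqrt_sq h0.le]
    field_simp
  have h6 := HasDerivAt.comp_hasFDerivAt (h₂ := fun t : ℝ => (√t)⁻¹) x h3 h1
  have h7 : HasFDerivAt (fun y => ‖y - c‖⁻¹) ((-(1 / 2) * (√(‖x - c‖ ^ 2) ^ 3)⁻¹) •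
      ((2 : ℝ) • innerSL ℝ (x - c))) x := by
    refine h6.congr_of_eventuallyEq (Eventually.of_forall fun y => ?_)
    simp only [Function.comp]
    rw [Real.sqrt_sq (norm_nonneg _)]
  rw [hasGradientAt_iff_hasFDerivAt]
  refine h7.congr_fderiv ?_
  ext y
  unfold gradP
  rw [Real.sqrt_sq h0.le]
  simp only [smul_apply, smul_eq_mul, innerSL_apply_apply, InnerProductSpace.toDual_apply_apply,
    inner_neg_left, real_inner_smul_left]
  ring

/-- regularised point charge -/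
theorem div_rep_at {ε : ℝ} (hε : 0 < ε) (c : V) {u : V → ℝ} {C : ℝ≥0} (hu : LipschitzWith C u)
    (hc : HasCompactSupport u) :
    ∫ x, ⟪(√(‖x - c‖ ^ 2 + ε ^ 2) ^ 3)⁻¹ • (x - c), ∇ u x⟫ =
      ∫ x, -(3 * ε ^ 2 * (√(‖x - c‖ ^ 2 + ε ^ 2) ^ 5)⁻¹) * u x := by
  set v : V → ℝ := fun x => u (x + c) with hv
  have hvl : LipschitzWith C v := by
    have h2 : LipschitzWith 1 (fun x : V => x + c) := (isometry_add_right c).lipschitz
    have := hu.comp h2
    rwa [mul_one] at this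
  have hvc : HasCompactSupport v := hc.comp_homeomorph (Homeomorph.addRight c)
  have h := div_rep hε hvl hvc
  have hg : ∀ x, ∇ v x = ∇ u (x + c) := by
    intro x
    unfold gradient
    rw [hv, fderiv_comp_add_right]
  rw [← integral_add_right_eq_self (fun x => ⟪(√(‖x - c‖ ^ 2 + ε ^ 2) ^ 3)⁻¹ • (x - c), ∇ u x⟫) c,
    ← integral_add_right_eq_self
      (fun x => -(3 * ε ^ 2 * (√(‖x - c‖ ^ 2 + ε ^ 2) ^ 5)⁻¹) * u x) c]
  simp only [add_sub_cancel_right, real_inner_smul_left]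
  simp_rw [hg] at h
  rw [h, ← integral_neg]
  refine integral_congr_ae (Eventually.of_forall fun x => ?_)
  simp only [hv]
  ring

theorem k5e_integrable {ε : ℝ} (hε : 0 < ε) (c : V) :
    Integrable (fun x : V => -(3 * ε ^ 2 * (√(‖x - c‖ ^ 2 + ε ^ 2) ^ 5)⁻¹)) := by
  have h1 := ((k5_integrable V).comp_smul (R := ε⁻¹) (by positivity)).const_mul (ε ^ 3)⁻¹
  have h2 : Integrable (fun x : V => 3 * ε ^ 2 * (√(‖x‖ ^ 2 + ε ^ 2) ^ 5)⁻¹) := by
    refine h1.congr (Eventually.of_forall fun x => ?_)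
    simp only
    have e1 : √(‖x‖ ^ 2 + ε ^ 2) = ε * √(‖ε⁻¹ • x‖ ^ 2 + 1) := by
      rw [norm_smul, Real.norm_of_nonneg (by positivity : (0 : ℝ) ≤ ε⁻¹), mul_pow]
      rw [show ‖x‖ ^ 2 + ε ^ 2 = ε ^ 2 * (ε⁻¹ ^ 2 * ‖x‖ ^ 2 + 1) by field_simp,
        Real.sqrt_mul (by positivity), Real.sqrt_sq hε.le]
    rw [e1]
    have hp : 0 < √(‖ε⁻¹ • x‖ ^ 2 + 1) := Real.sqrt_pos.mpr (by positivity)
    generalize √(‖ε⁻¹ • x‖ ^ 2 + 1) = s at hp
    field_simp
  exact (h2.comp_sub_right c).neg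

theorem rhs_scale_at {ε : ℝ} (hε : 0 < ε) (c : V) (k : V → ℝ) :
    ∫ x, -(3 * ε ^ 2 * (√(‖x - c‖ ^ 2 + ε ^ 2) ^ 5)⁻¹) * k x =
      -∫ w, 3 * (√(‖w‖ ^ 2 + 1) ^ 5)⁻¹ * k (ε • w + c) := by
  rw [← rhs_scale hε (fun x => k (x + c)), ← integral_neg,
    ← integral_add_right_eq_self
      (fun x => -(3 * ε ^ 2 * (√(‖x - c‖ ^ 2 + ε ^ 2) ^ 5)⁻¹) * k x) c]
  simp only [add_sub_cancel_right]
  refine integral_congr_ae (Eventually.of_forall fun x => ?_)
  simp only
  ring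

/-- the weak Poisson equation of a point charge for trial functions -/
theorem weak_point {S : Set V} (hS : S.Finite) {k : V → ℝ} {k' : V → V} (hk : TrialK S k k')
    (c : V) (hI : Integrable fun x => (‖x - c‖ ^ 2)⁻¹ * ‖k' x‖) :
    Integrable (fun x => ⟪gradP c x, k' x⟫) ∧ ∫ x, ⟪gradP c x, k' x⟫ = 4 * Real.pi * k c := by
  haveI := nontriv (V := V)
  have hS' : (insert 0 S).Finite := hS.insert 0
  have hne : (insert (0 : V) S).Nonempty := insert_nonempty _ _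
  have hk2 := hk.mono (subset_insert (0 : V) S)
  obtain ⟨B, hB⟩ := hk.bdd
  have hB0 : 0 ≤ B := (abs_nonneg _).trans (hB 0)
  set A : ℝ → V → V := fun ε x => (√(‖x - c‖ ^ 2 + ε ^ 2) ^ 3)⁻¹ • (x - c) with hA
  have hAm : ∀ ε, Measurable (A ε) := by
    intro ε
    have h1 : Measurable (fun x : V => (√(‖x - c‖ ^ 2 + ε ^ 2) ^ 3)⁻¹) := by
      have : Continuous (fun x : V => √(‖x - c‖ ^ 2 + ε ^ 2) ^ 3) := by fun_prop
      exact this.measurable.inv
    exact h1.smul (measurable_id.sub measurable_const)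
  have hsq : ∀ ε : ℝ, ∀ x : V, ‖x - c‖ ≤ √(‖x - c‖ ^ 2 + ε ^ 2) := fun ε x => by
    refine Real.le_sqrt_of_sq_le ?_
    nlinarith [sq_nonneg ε]
  have hsqe : ∀ ε : ℝ, 0 < ε → ∀ x : V, ε ≤ √(‖x - c‖ ^ 2 + ε ^ 2) := fun ε hε x => by
    refine Real.le_sqrt_of_sq_le ?_
    nlinarith [sq_nonneg ‖x - c‖]
  have hAn : ∀ ε : ℝ, 0 < ε → ∀ x, ‖A ε x‖ ≤ (‖x - c‖ ^ 2)⁻¹ := by
    intro ε hε x
    simp only [hA]
    rw [norm_smul, norm_inv, norm_pow, Real.norm_of_nonneg (Real.sqrt_nonneg _)]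
    by_cases hx : ‖x - c‖ = 0
    · rw [hx]; simp
    have h0 : 0 < ‖x - c‖ := lt_of_le_of_ne (norm_nonneg _) (Ne.symm hx)
    calc (√(‖x - c‖ ^ 2 + ε ^ 2) ^ 3)⁻¹ * ‖x - c‖ ≤ (‖x - c‖ ^ 3)⁻¹ * ‖x - c‖ := by
          refine mul_le_mul_of_nonneg_right ?_ h0.le
          exact inv_anti₀ (by positivity) (pow_le_pow_left₀ h0.le (hsq ε x) 3)
      _ = _ := by field_simp
  have hAb : ∀ ε : ℝ, 0 < ε → ∀ x, ‖A ε x‖ ≤ (ε ^ 2)⁻¹ := by
    intro ε hε x
    simp only [hA]
    rw [norm_smul, norm_inv, norm_pow, Real.norm_of_nonneg (Real.sqrt_nonneg _)]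
    have h1 := hsq ε x
    have h2 := hsqe ε hε x
    have h3 : 0 < √(‖x - c‖ ^ 2 + ε ^ 2) := hε.trans_le h2
    calc (√(‖x - c‖ ^ 2 + ε ^ 2) ^ 3)⁻¹ * ‖x - c‖
        ≤ (√(‖x - c‖ ^ 2 + ε ^ 2) ^ 3)⁻¹ * √(‖x - c‖ ^ 2 + ε ^ 2) :=
          mul_le_mul_of_nonneg_left h1 (by positivity)
      _ = (√(‖x - c‖ ^ 2 + ε ^ 2) ^ 2)⁻¹ := by field_simp
      _ ≤ _ := inv_anti₀ (by positivity) (pow_le_pow_left₀ hε.le h2 2)
  have hcWi : Integrable (fun x => cW (insert (0 : V) S) x) := by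
    refine ((cW_sq_integrable hS' hne).const_mul 2).mono' (cW_meas _).aestronglyMeasurable
      (Eventually.of_forall fun x => ?_)
    rw [Real.norm_of_nonneg (cW_nonneg _ _)]
    exact cW_le _ _
  have hweak : ∀ ε : ℝ, 0 < ε → ∫ x, ⟪A ε x, k' x⟫ =
      -∫ w, 3 * (√(‖w‖ ^ 2 + 1) ^ 5)⁻¹ * k (ε • w + c) := by
    intro ε hε
    rw [← rhs_scale_at hε c k]
    refine (weak_K hS'.isClosed hne (finite_null hS') hk2 (A := A ε)
      (g := fun x => -(3 * ε ^ 2 * (√(‖x - c‖ ^ 2 + ε ^ 2) ^ 5)⁻¹)) (hAm ε).aestronglyMeasurable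
      (k5e_integrable hε c) (fun u C hu hc => div_rep_at hε c hu hc) ?_ ?_).2
    · refine hI.mono' ((hAm ε).aestronglyMeasurable.norm.mul hk.meas.norm)
        (Eventually.of_forall fun x => ?_)
      rw [Real.norm_of_nonneg (by positivity)]
      exact mul_le_mul_of_nonneg_right (hAn ε hε x) (norm_nonneg _)
    · refine (hcWi.const_mul (ε ^ 2)⁻¹).mono'
        ((hAm ε).aestronglyMeasurable.norm.mul (cW_meas _).aestronglyMeasurable)
        (Eventually.of_forall fun x => ?_)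
      have := cW_nonneg (insert (0 : V) S) x
      rw [Real.norm_of_nonneg (by positivity)]
      exact mul_le_mul_of_nonneg_right (hAb ε hε x) this
  set e : ℕ → ℝ := fun n => 1 / ((n : ℝ) + 1) with he
  have he0 : ∀ n, 0 < e n := fun n => by positivity
  have hel : Tendsto e atTop (𝓝 0) := tendsto_one_div_add_atTop_nhds_zero_nat
  have hne' : ∀ᵐ x : V, x ≠ c := by rw [ae_iff]; simp
  have hL : Tendsto (fun n => ∫ x, ⟪A (e n) x, k' x⟫) atTop
      (𝓝 (∫ x, ⟪-gradP c x, k' x⟫)) := by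
    refine tendsto_integral_of_dominated_convergence (fun x => (‖x - c‖ ^ 2)⁻¹ * ‖k' x‖)
      (fun n => (hAm _).aestronglyMeasurable.inner hk.meas) hI
      (fun n => Eventually.of_forall fun x => ?_) ?_
    · rw [Real.norm_eq_abs]
      exact (abs_real_inner_le_norm _ _).trans
        (mul_le_mul_of_nonneg_right (hAn _ (he0 n) x) (norm_nonneg _))
    · filter_upwards [hne'] with x hx
      have hn : 0 < ‖x - c‖ := norm_pos_iff.mpr (sub_ne_zero.mpr hx)
      refine Tendsto.inner ?_ tendsto_const_nhds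
      unfold gradP
      rw [neg_neg]
      refine Tendsto.smul ?_ tendsto_const_nhds
      have h1 : Tendsto (fun n => √(‖x - c‖ ^ 2 + e n ^ 2) ^ 3) atTop
          (𝓝 (√(‖x - c‖ ^ 2 + 0 ^ 2) ^ 3)) :=
        (((Real.continuous_sqrt.tendsto _).comp ((hel.pow 2).const_add _))).pow 3
      have e1 : √(‖x - c‖ ^ 2 + 0 ^ 2) = ‖x - c‖ := by
        rw [zero_pow two_ne_zero, add_zero, Real.sqrt_sq hn.le]
      rw [e1] at h1
      exact h1.inv₀ (by positivity)
  have hR : Tendsto (fun n => -∫ w : V, 3 * (√(‖w‖ ^ 2 + 1) ^ 5)⁻¹ * k (e n • w + c)) atTop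
      (𝓝 (-∫ w : V, 3 * (√(‖w‖ ^ 2 + 1) ^ 5)⁻¹ * k c)) := by
    refine Tendsto.neg ?_
    refine tendsto_integral_of_dominated_convergence
      (fun w => 3 * (√(‖w‖ ^ 2 + 1) ^ 5)⁻¹ * B) (fun n => ?_)
      ((k5_integrable V).mul_const B) (fun n => Eventually.of_forall fun w => ?_)
      (Eventually.of_forall fun w => ?_)
    · have h1 : Measurable (fun w : V => 3 * (√(‖w‖ ^ 2 + 1) ^ 5)⁻¹) := by
        have : Continuous (fun x : V => √(‖x‖ ^ 2 + 1) ^ 5) := by fun_prop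
        exact measurable_const.mul this.measurable.inv
      exact (h1.mul (hk.cont.comp (by fun_prop : Continuous fun w : V =>
        e n • w + c)).measurable).aestronglyMeasurable
    · rw [norm_mul, Real.norm_of_nonneg (by positivity)]
      exact mul_le_mul_of_nonneg_left (hB _) (by positivity)
    · refine Tendsto.const_mul _ ?_
      have h1 : Tendsto (fun n => e n • w + c) atTop (𝓝 ((0 : ℝ) • w + c)) :=
        (hel.smul_const w).add_const c
      rw [zero_smul, zero_add] at h1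
      exact (hk.cont.tendsto c).comp h1
  have heq : (fun n => ∫ x, ⟪A (e n) x, k' x⟫) =
      fun n => -∫ w : V, 3 * (√(‖w‖ ^ 2 + 1) ^ 5)⁻¹ * k (e n • w + c) :=
    funext fun n => hweak _ (he0 n)
  rw [heq] at hL
  have h9 := tendsto_nhds_unique hL hR
  rw [integral_mul_const, k5_integral] at h9
  refine ⟨?_, ?_⟩
  · refine hI.mono' ((gradP_meas c).aestronglyMeasurable.inner hk.meas)
      (Eventually.of_forall fun x => ?_)
    rw [Real.norm_eq_abs, ← gradP_norm c x]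
    exact abs_real_inner_le_norm _ _
  · have h10 : ∫ x, ⟪-gradP c x, k' x⟫ = -∫ x, ⟪gradP c x, k' x⟫ := by
      rw [← integral_neg]
      refine integral_congr_ae (Eventually.of_forall fun x => ?_)
      simp only
      rw [inner_neg_left]
    rw [h10] at h9
    linarith

end dim3

end Pool.Agent.TF
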