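import Pool.Agent.Lib.MP_9cf0c9_mp.SecVar
import Pool.Agent.Lib.MP_9cf0c9_mp.WeakPoint
import Pool.Agent.Lib.MP_9cf0c9_mp.GradBound

/-! The algebraic identity for the second variation: `Vtr = ∫ F + ∑ c i`, where
`F = 4 ρ Y - γ Y² + (|ψ'|² - |Y'|²) / (4 π)` and `c i = 2 z i lim (Y - z i / r i)` at the
nucleus `i`. -/

set_option linter.unusedSectionVars false
set_option linter.unusedVariables false
set_option linter.style.haveILetI false

namespace Pool.Agent.TF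
open MeasureTheory Set Metric Filter Topology
open scoped ENNReal NNReal RealInnerProductSpace Gradient

section gen
variable {V : Type*} [NormedAddCommGroup V] [InnerProductSpace ℝ V] [FiniteDimensional ℝ V]
  [MeasurableSpace V] [BorelSpace V] [hd : Fact (Module.finrank ℝ V = 3)]
variable {ι : Type*} [Fintype ι]

theorem inv_four_integrable (c : V) : Integrable (fun x : V => (1 + ‖x - c‖) ^ (-(4 : ℝ))) := by
  have h : Integrable (fun x : V => (1 + ‖x‖) ^ (-(4 : ℝ))) :=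
    integrable_one_add_norm (by rw [hd.out]; norm_num)
  exact h.comp_sub_right c

/-- `|x - c|⁻² g` is integrable for a square integrable `g` with moderate singularities -/
theorem inv_sq_mul_integrable {g : V → ℝ} (hgm : AEStronglyMeasurable g volume)
    (hg : Integrable fun x => g x ^ 2) (R : ι → V) {C : ℝ}
    (hC : ∀ᵐ x : V, |g x| ≤ C * (1 + ∑ i, (‖x - R i‖⁻¹) ^ (3 / 4 : ℝ))) (c : V) :
    Integrable (fun x => (‖x - c‖ ^ 2)⁻¹ * g x) := by
  set n : ℝ := ((Fintype.card ι : ℕ) : ℝ) with hn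
  have hn0 : 0 ≤ n := Nat.cast_nonneg _
  set K : ℝ := |C| with hK
  have hK0 : 0 ≤ K := abs_nonneg _
  have hw : ∀ a : V, Integrable (fun x : V => w114 (x - a)) := fun a =>
    w114_integrable.comp_sub_right a
  have hball : Integrable ((ball c 1).indicator fun _ : V => (1 : ℝ)) :=
    (integrable_indicator_iff measurableSet_ball).mpr
      (integrableOn_const measure_ball_lt_top.ne)
  have hdom : Integrable (fun x : V => K * ((1 + n) * w114 (x - c) + ∑ i, w114 (x - R i)) +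
      (K * (2 + 2 * n)) * (ball c 1).indicator (fun _ : V => (1 : ℝ)) x +
      16 * (1 + ‖x - c‖) ^ (-(4 : ℝ)) + g x ^ 2) := by
    refine ((Integrable.add ?_ (hball.const_mul _)).add
      ((inv_four_integrable c).const_mul 16)).add hg
    exact (((hw c).const_mul _).add (integrable_finsetSum _ fun i _ => hw (R i))).const_mul K
  have hm : AEStronglyMeasurable (fun x : V => (‖x - c‖ ^ 2)⁻¹ * g x) volume :=
    (((measurable_id.sub measurable_const).norm.pow_const 2).inv.aestronglyMeasurable).mul hgm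
  refine hdom.mono' hm ?_
  filter_upwards [hC] with x hx
  have hA0 : 0 ≤ (‖x - c‖ ^ 2)⁻¹ := by positivity
  have hs0 : 0 ≤ ∑ i, w114 (x - R i) := Finset.sum_nonneg fun i _ => w114_nonneg _
  have hwc : 0 ≤ w114 (x - c) := w114_nonneg _
  have h4 : 0 ≤ (1 + ‖x - c‖) ^ (-(4 : ℝ)) := by positivity
  rw [norm_mul, Real.norm_of_nonneg hA0, Real.norm_eq_abs]
  by_cases hb : x ∈ ball c 1
  · rw [indicator_of_mem hb]
    set t : ℝ := ‖x - c‖⁻¹ with ht
    have ht0 : 0 ≤ t := by positivity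
    have e2 : (‖x - c‖ ^ 2)⁻¹ = t ^ (2 : ℝ) := by
      rw [ht, ← inv_pow]; norm_cast
    have hgx : |g x| ≤ K * (1 + ∑ i, (‖x - R i‖⁻¹) ^ (3 / 4 : ℝ)) := by
      refine hx.trans (mul_le_mul_of_nonneg_right (le_abs_self C) ?_)
      have : 0 ≤ ∑ i, (‖x - R i‖⁻¹) ^ (3 / 4 : ℝ) :=
        Finset.sum_nonneg fun i _ => by positivity
      linarith
    have b0 : t ^ (2 : ℝ) * 1 ≤ w114 (x - c) + 2 := by
      have h := rpow_mul_le ht0 zero_le_one (by norm_num : (0 : ℝ) ≤ 2)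
        (by norm_num : (0 : ℝ) ≤ 3 / 4) (by norm_num)
      rw [Real.one_rpow, Real.one_rpow, show (2 : ℝ) + 3 / 4 = 11 / 4 by norm_num] at h
      have h' := rpow114_le (x - c)
      linarith
    have b1 : ∀ i, t ^ (2 : ℝ) * (‖x - R i‖⁻¹) ^ (3 / 4 : ℝ) ≤
        w114 (x - c) + w114 (x - R i) + 2 := by
      intro i
      have h := rpow_mul_le ht0 (by positivity : 0 ≤ ‖x - R i‖⁻¹) (by norm_num : (0 : ℝ) ≤ 2)
        (by norm_num : (0 : ℝ) ≤ 3 / 4) (by norm_num)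
      rw [show (2 : ℝ) + 3 / 4 = 11 / 4 by norm_num] at h
      have h1 := rpow114_le (x - c)
      have h2 := rpow114_le (x - R i)
      linarith
    have b2 : t ^ (2 : ℝ) * (1 + ∑ i, (‖x - R i‖⁻¹) ^ (3 / 4 : ℝ)) ≤
        (1 + n) * w114 (x - c) + (∑ i, w114 (x - R i)) + (2 + 2 * n) := by
      rw [mul_add, Finset.mul_sum]
      have h3 : ∑ i, t ^ (2 : ℝ) * (‖x - R i‖⁻¹) ^ (3 / 4 : ℝ) ≤
          ∑ i, (w114 (x - c) + w114 (x - R i) + 2) := Finset.sum_le_sum fun i _ => b1 i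
      have h4 : ∑ i, (w114 (x - c) + w114 (x - R i) + 2) =
          n * w114 (x - c) + (∑ i, w114 (x - R i)) + n * 2 := by
        rw [Finset.sum_add_distrib, Finset.sum_add_distrib, Finset.sum_const, Finset.sum_const,
          Finset.card_univ, nsmul_eq_mul, nsmul_eq_mul]
      linarith
    rw [e2]
    calc t ^ (2 : ℝ) * |g x| ≤ t ^ (2 : ℝ) * (K * (1 + ∑ i, (‖x - R i‖⁻¹) ^ (3 / 4 : ℝ))) :=
          mul_le_mul_of_nonneg_left hgx (by positivity)
      _ = K * (t ^ (2 : ℝ) * (1 + ∑ i, (‖x - R i‖⁻¹) ^ (3 / 4 : ℝ))) := by ring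
      _ ≤ K * ((1 + n) * w114 (x - c) + (∑ i, w114 (x - R i)) + (2 + 2 * n)) :=
          mul_le_mul_of_nonneg_left b2 hK0
      _ ≤ _ := by nlinarith [sq_nonneg (g x)]
  · rw [indicator_of_notMem hb]
    have h1 : 1 ≤ ‖x - c‖ := by
      rw [mem_ball, dist_eq_norm, not_lt] at hb
      exact hb
    have h5 : ((‖x - c‖ ^ 2)⁻¹) ^ 2 ≤ 16 * (1 + ‖x - c‖) ^ (-(4 : ℝ)) := by
      have e1 : (1 + ‖x - c‖) ^ (-(4 : ℝ)) = ((1 + ‖x - c‖) ^ 4)⁻¹ := by
        rw [Real.rpow_neg (by positivity)]; norm_cast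
      rw [e1, inv_pow, ← pow_mul, show 2 * 2 = 4 by norm_num]
      rw [inv_le_iff_one_le_mul₀ (by positivity)]
      have h6 : (1 + ‖x - c‖) ^ 4 ≤ (2 * ‖x - c‖) ^ 4 :=
        pow_le_pow_left₀ (by positivity) (by linarith) 4
      have h7 : 16 * ((1 + ‖x - c‖) ^ 4)⁻¹ * ‖x - c‖ ^ 4 =
          (2 * ‖x - c‖) ^ 4 / (1 + ‖x - c‖) ^ 4 := by
        field_simp
        ring
      rw [h7, le_div_iff₀ (by positivity)]
      linarith
    have h8 : (‖x - c‖ ^ 2)⁻¹ * |g x| ≤ ((‖x - c‖ ^ 2)⁻¹) ^ 2 + g x ^ 2 := by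
      have := sq_nonneg ((‖x - c‖ ^ 2)⁻¹ - |g x|)
      rw [← sq_abs (g x)]
      nlinarith [mul_nonneg hA0 (abs_nonneg (g x))]
    have h9 : 0 ≤ K * ((1 + n) * w114 (x - c) + ∑ i, w114 (x - R i)) := by positivity
    linarith

end gen

section sol
variable {ι : Type*} [Fintype ι]

/-- gradient of the potential of the nuclei -/
noncomputable def gVpt (z : ι → ℝ) (R : ι → X) (x : X) : X := ∑ i, z i • gradP (R i) x

theorem hasGradientAt_Vpt (z : ι → ℝ) (R : ι → X) {x : X} (hx : ∀ i, x ≠ R i) :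
    HasGradientAt (Vpt z R) (gVpt z R x) x := by
  have h1 : ∀ i ∈ (Finset.univ : Finset ι), HasFDerivAt (fun y : X => z i * ‖y - R i‖⁻¹)
      (z i • InnerProductSpace.toDual ℝ X (gradP (R i) x)) x := fun i _ => by
    have h := (hasGradientAt_inv_norm (hx i)).hasFDerivAt.const_mul (z i)
    exact h
  have h2 := HasFDerivAt.fun_sum h1
  rw [hasGradientAt_iff_hasFDerivAt]
  refine h2.congr_fderiv ?_
  unfold gVpt
  rw [map_sum]
  refine Finset.sum_congr rfl fun i _ => ?_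
  rw [map_smul]

theorem Vpt_continuousAt (z : ι → ℝ) (R : ι → X) {x : X} (hx : ∀ i, x ≠ R i) :
    ContinuousAt (Vpt z R) x := (hasGradientAt_Vpt z R hx).hasFDerivAt.continuousAt

/-- regularity of the potential of the solution -/
theorem sol_facts {z : ι → ℝ} (hz : ∀ i, 0 ≤ z i) (R : ι → X) {φ₀ : ℝ} (hφ : 0 < φ₀)
    {ρ : X → ℝ} (hρ : TC ρ) (heq : ∀ x, ρ x = tf (Vpt z R x - pot ρ x - φ₀)) :
    TrialK (range R) (pot ρ) (gradV ρ) ∧
      (∃ C : ℝ, 0 ≤ C ∧ ∀ x, (∀ i, x ≠ R i) →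
        ‖gradV ρ x‖ ≤ C * (1 + ∑ i, (‖x - R i‖⁻¹) ^ (3 / 4 : ℝ))) ∧
      ∫ x, ‖gradV ρ x‖ ^ 2 = 4 * Real.pi * En ρ ρ := by
  have hp0 : ∀ x, 0 ≤ pot ρ x := pot_nonneg hρ.nonneg
  have hle : ∀ x, |ρ x| ≤ gdom φ₀ z R x := fun x => by
    rw [abs_of_nonneg (hρ.nonneg x), heq x]
    exact tf_mono (by have := hp0 x; linarith)
  have hloc : ∀ x, x ∉ range R → ∃ δ > 0, ∃ M, ∀ y ∈ ball x δ, |ρ y| ≤ M := by
    intro x hx
    have hx' : ∀ i, x ≠ R i := fun i h => hx ⟨i, h.symm⟩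
    have hc : ContinuousAt (gdom φ₀ z R) x :=
      tf_continuous.continuousAt.comp ((Vpt_continuousAt z R hx').sub continuousAt_const)
    exact locbdd_of_continuousAt hle hc
  refine ⟨trialK_pot (finite_range R) hρ hloc, ?_, energy_TC (finite_range R) hρ hloc⟩
  obtain ⟨C, hC, hC'⟩ := tf_Vn_le hz R
  obtain ⟨r, hr0, hr⟩ := Vpt_far hz R hφ
  have hs : ∀ y, r ≤ ‖y‖ → ρ y = 0 := fun y hy => by
    rw [heq y]
    exact tf_of_nonpos (by have := hr y hy; have := hp0 y; linarith)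
  obtain ⟨D, hD, hD'⟩ := gradV_bound_nuc hρ.meas R hC
    (fun y => (hle y).trans (hC' φ₀ hφ.le y)) hs
  exact ⟨D, hD, fun x hx => (hD' x hx).2⟩

/-- the density of the calibrated integral -/
noncomputable def Fcal (φ₀ : ℝ) (z : ι → ℝ) (R : ι → X) (ρ k : X → ℝ) (k' : X → X) (x : X) : ℝ :=
  4 * (ρ x * (Vpt z R x + k x)) -
    gam (Vpt z R x - pot ρ x - φ₀) * (Vpt z R x + k x) ^ 2 +
    (4 * Real.pi)⁻¹ * (‖gVpt z R x - gradV ρ x‖ ^ 2 - ‖gVpt z R x + k' x‖ ^ 2)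

theorem inner_gVpt {z : ι → ℝ} {R : ι → X} {S : Set X} (hS : S.Finite) {k : X → ℝ} {k' : X → X}
    (hk : TrialK S k k') {C : ℝ}
    (hkb : ∀ᵐ x : X, ‖k' x‖ ≤ C * (1 + ∑ i, (‖x - R i‖⁻¹) ^ (3 / 4 : ℝ))) :
    Integrable (fun x => ⟪gVpt z R x, k' x⟫) ∧
      ∫ x, ⟪gVpt z R x, k' x⟫ = 4 * Real.pi * ∑ i, z i * k (R i) := by
  have hI : ∀ i, Integrable (fun x => (‖x - R i‖ ^ 2)⁻¹ * ‖k' x‖) := fun i =>
    inv_sq_mul_integrable hk.meas.norm hk.sq R (C := C) (by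
      filter_upwards [hkb] with x hx
      rwa [abs_of_nonneg (norm_nonneg _)]) (R i)
  have hP := fun i => weak_point hS hk (R i) (hI i)
  have e : ∀ x, ⟪gVpt z R x, k' x⟫ = ∑ i, z i * ⟪gradP (R i) x, k' x⟫ := fun x => by
    unfold gVpt
    rw [sum_inner]
    refine Finset.sum_congr rfl fun i _ => ?_
    rw [real_inner_smul_left]
  have hi : Integrable (fun x => ∑ i, z i * ⟪gradP (R i) x, k' x⟫) :=
    integrable_finsetSum _ fun i _ => (hP i).1.const_mul (z i)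
  constructor
  · exact hi.congr (Eventually.of_forall fun x => (e x).symm)
  · simp_rw [e]
    rw [integral_finsetSum _ fun i _ => (hP i).1.const_mul (z i), Finset.mul_sum]
    refine Finset.sum_congr rfl fun i _ => ?_
    rw [integral_const_mul, (hP i).2]
    ring

/-- **T7a**: the second variation as an integral of the calibration density -/
theorem calib_alg {z : ι → ℝ} (hz : ∀ i, 0 ≤ z i) (R : ι → X) {φ₀ : ℝ} (hφ : 0 < φ₀)
    {ρ : X → ℝ} (hρ : TC ρ) (heq : ∀ x, ρ x = tf (Vpt z R x - pot ρ x - φ₀))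
    {S : Set X} (hS : S.Finite) {k : X → ℝ} {k' : X → X} (hk : TrialK S k k') {C : ℝ}
    (hkb : ∀ᵐ x : X, ‖k' x‖ ≤ C * (1 + ∑ i, (‖x - R i‖⁻¹) ^ (3 / 4 : ℝ))) :
    Integrable (Fcal φ₀ z R ρ k k') ∧
      Vtr φ₀ z R ρ k ((8 * Real.pi)⁻¹ * ∫ x, ‖k' x‖ ^ 2) =
        (∫ x, Fcal φ₀ z R ρ k k' x) + ∑ i, 2 * z i * (Vpt z R (R i) + k (R i)) := by
  have hpi : (0 : ℝ) < Real.pi := Real.pi_pos
  obtain ⟨hT, ⟨D, hD0, hD⟩, hE⟩ := sol_facts hz R hφ hρ heq
  obtain ⟨B, hB⟩ := hk.bdd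
  have hB0 : 0 ≤ B := (abs_nonneg _).trans (hB 0)
  have hkm := hk.cont.measurable
  have hoff : ∀ᵐ x : X, ∀ i, x ≠ R i := by
    have h0 : volume (range R) = 0 := finite_null (finite_range R)
    have h1 : ∀ᵐ x : X, x ∉ range R := measure_eq_zero_iff_ae_notMem.mp h0
    filter_upwards [h1] with x hx i h
    exact hx ⟨i, h.symm⟩
  have hDb : ∀ᵐ x : X, ‖gradV ρ x‖ ≤ D * (1 + ∑ i, (‖x - R i‖⁻¹) ^ (3 / 4 : ℝ)) := by
    filter_upwards [hoff] with x hx
    exact hD x hx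
  obtain ⟨a1, a2⟩ := inner_gVpt (z := z) (finite_range R) hT hDb
  obtain ⟨b1, b2⟩ := inner_gVpt (z := z) (R := R) hS hk hkb
  have c1 : Integrable (fun x => Vpt z R x * ρ x) := hρ.Vpt_int z R
  have c2 : ∫ x, Vpt z R x * ρ x = ∑ i, z i * pot ρ (R i) := hρ.Vpt_eq z R
  have d1 : Integrable (fun x => ρ x * k x) := hρ.int.mul_bdd hkm.aestronglyMeasurable
    (Eventually.of_forall fun x => by rw [Real.norm_eq_abs]; exact hB x)
  have g1 : Integrable (fun x => gam (Vpt z R x - pot ρ x - φ₀) * (Vpt z R x + k x) ^ 2) := by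
    refine gam_integrable hz R hφ hρ hB0 (((Vpt_meas z R).add hkm).pow_const 2) fun x => ?_
    have hV := Vpt_nonneg hz R x
    have := abs_le.mp (hB x)
    rw [abs_of_nonneg (sq_nonneg _)]
    exact sq_le_sq' (by linarith) (by linarith)
  have eF : ∀ x, Fcal φ₀ z R ρ k k' x = 4 * (Vpt z R x * ρ x) + 4 * (ρ x * k x) -
      gam (Vpt z R x - pot ρ x - φ₀) * (Vpt z R x + k x) ^ 2 +
      (4 * Real.pi)⁻¹ * (‖gradV ρ x‖ ^ 2 - 2 * ⟪gVpt z R x, gradV ρ x⟫ -
        2 * ⟪gVpt z R x, k' x⟫ - ‖k' x‖ ^ 2) := by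
    intro x
    unfold Fcal
    rw [norm_sub_sq_real, norm_add_sq_real]
    ring
  have i1 : Integrable (fun x => 4 * (Vpt z R x * ρ x) + 4 * (ρ x * k x)) :=
    (c1.const_mul 4).add (d1.const_mul 4)
  have i2 : Integrable (fun x => 4 * (Vpt z R x * ρ x) + 4 * (ρ x * k x) -
      gam (Vpt z R x - pot ρ x - φ₀) * (Vpt z R x + k x) ^ 2) := i1.sub g1
  have i3 : Integrable (fun x => ‖gradV ρ x‖ ^ 2 - 2 * ⟪gVpt z R x, gradV ρ x⟫) :=
    hT.sq.sub (a1.const_mul 2)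
  have i4 : Integrable (fun x => ‖gradV ρ x‖ ^ 2 - 2 * ⟪gVpt z R x, gradV ρ x⟫ -
      2 * ⟪gVpt z R x, k' x⟫) := i3.sub (b1.const_mul 2)
  have i5 : Integrable (fun x => ‖gradV ρ x‖ ^ 2 - 2 * ⟪gVpt z R x, gradV ρ x⟫ -
      2 * ⟪gVpt z R x, k' x⟫ - ‖k' x‖ ^ 2) := i4.sub hk.sq
  constructor
  · exact (i2.add (i5.const_mul _)).congr (Eventually.of_forall fun x => (eF x).symm)
  · have hF : ∫ x, Fcal φ₀ z R ρ k k' x = 4 * (∑ i, z i * pot ρ (R i)) + 4 * (∫ x, ρ x * k x) -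
        (∫ x, gam (Vpt z R x - pot ρ x - φ₀) * (Vpt z R x + k x) ^ 2) +
        (4 * Real.pi)⁻¹ * (4 * Real.pi * En ρ ρ - 2 * (4 * Real.pi * ∑ i, z i * pot ρ (R i)) -
          2 * (4 * Real.pi * ∑ i, z i * k (R i)) - ∫ x, ‖k' x‖ ^ 2) := by
      simp_rw [eF]
      rw [integral_add i2 (i5.const_mul _), integral_sub i1 g1,
        integral_add (c1.const_mul 4) (d1.const_mul 4), integral_const_mul, integral_const_mul,
        integral_const_mul, integral_sub i4 hk.sq, integral_sub i3 (b1.const_mul 2),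
        integral_sub hT.sq (a1.const_mul 2), integral_const_mul, integral_const_mul, c2, a2, b2,
        hE]
    have hU : 4 * Unuc z R = ∑ i, 2 * z i * Vpt z R (R i) := by
      unfold Unuc Vpt
      rw [Finset.mul_sum, Finset.mul_sum]
      refine Finset.sum_congr rfl fun i _ => ?_
      rw [Finset.mul_sum, Finset.mul_sum, Finset.mul_sum]
      refine Finset.sum_congr rfl fun j _ => ?_
      ring
    have hc : ∑ i, 2 * z i * (Vpt z R (R i) + k (R i)) =
        4 * Unuc z R + 2 * ∑ i, z i * k (R i) := by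
      rw [hU, Finset.mul_sum, ← Finset.sum_add_distrib]
      refine Finset.sum_congr rfl fun i _ => ?_
      ring
    rw [hc, hF]
    unfold Vtr
    field_simp
    ring

/-- the constant at the nucleus `i` -/
theorem calib_nuc {z : ι → ℝ} {R : ι → X} (hR : Function.Injective R) {k : X → ℝ}
    (hk : Continuous k) (i : ι) :
    Tendsto (fun x => Vpt z R x + k x - z i * ‖x - R i‖⁻¹) (𝓝 (R i))
      (𝓝 (Vpt z R (R i) + k (R i))) := by
  classical
  have e : ∀ x, Vpt z R x + k x - z i * ‖x - R i‖⁻¹ =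
      (∑ j ∈ Finset.univ.erase i, z j * ‖x - R j‖⁻¹) + k x := by
    intro x
    unfold Vpt
    rw [← Finset.add_sum_erase _ _ (Finset.mem_univ i)]
    ring
  have e2 : Vpt z R (R i) + k (R i) =
      (∑ j ∈ Finset.univ.erase i, z j * ‖R i - R j‖⁻¹) + k (R i) := by
    have := e (R i)
    rw [sub_self, norm_zero, inv_zero, mul_zero, sub_zero] at this
    exact this
  simp_rw [e]
  rw [e2]
  refine Tendsto.add (tendsto_finsetSum _ fun j hj => ?_) hk.continuousAt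
  have hne : R i - R j ≠ 0 := sub_ne_zero.mpr (hR.ne (Finset.ne_of_mem_erase hj).symm)
  have hc : ContinuousAt (fun x : X => z j * ‖x - R j‖⁻¹) (R i) := by
    refine ContinuousAt.mul continuousAt_const (ContinuousAt.inv₀ ?_ (norm_ne_zero_iff.mpr hne))
    fun_prop
  exact hc

end sol

end Pool.Agent.TF
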