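import Pool.Agent.Lib.MP_9cf0c9_mp.ThomsonC

/-! Convexity in the volume from trial functions with an arbitrarily small negative second
variation. -/

set_option linter.unusedSectionVars false
set_option linter.unusedVariables false
set_option linter.style.haveILetI false

namespace Pool.Agent.TF
open MeasureTheory Set Metric Filter Topology
open scoped ENNReal NNReal RealInnerProductSpace Gradient

variable {ι : Type*} [Fintype ι]

/-- A trial field with almost nonnegative second variation gives the support inequality. -/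
theorem support_of_Vtr_err {z : ι → ℝ} (hz : ∀ i, 0 ≤ z i) (R : ι → X) {φ₀ : ℝ} (hφ : 0 < φ₀)
    {ρ : X → ℝ} (hρ : TC ρ) (heq : ∀ x, ρ x = tf (Vpt z R x - pot ρ x - φ₀)) {k : X → ℝ}
    (hk : Measurable k) {B : ℝ} (hB : ∀ x, |k x| ≤ B) {E : ℝ}
    (hT : ∀ σ τ : X → ℝ, TC σ → TC τ → ∀ c : ℝ,
      c * (∫ x, (σ x - τ x) * k x) ≤ c ^ 2 * E + 1 / 2 * (En σ σ - 2 * En σ τ + En τ τ))
    {η : ℝ} (hη : 0 ≤ η) (hV : -η ≤ Vtr φ₀ z R ρ k E) :
    ∃ a : ℝ, ∀ ε : ℝ, η < ε → ∃ δ : ℝ, 0 < δ ∧ ∀ t : ℝ, |t| < δ →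
      GTF φ₀ z R + a * t - ε * t ^ 2 ≤ GTF φ₀ z (fun i => (1 + t) ^ (1 / 3 : ℝ) • R i) := by
  have hB1 : 0 ≤ B := (abs_nonneg _).trans (hB 0)
  obtain ⟨r, hr0, hr⟩ := Vpt_far hz R (φ₀ := φ₀ / 4) (by positivity)
  have hG : GTF φ₀ z R = Ept φ₀ z R ρ :=
    GTF_eq hφ hz R hρ fun σ hσ => Ept_min hρ hσ (Eventually.of_forall heq)
  rw [hG, Ept_sol R hρ heq]
  have hexp := gam_expand hz R hφ hρ hk hB1 hB
  unfold Vtr at hV
  rw [hexp] at hV
  set U := Unuc z R with hU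
  set A0 := ∫ x, Phi (Vpt z R x - pot ρ x - φ₀) with hA0
  set A1 := ∑ i, z i * pot ρ (R i) with hA1
  set A2 := ∫ x, ρ x * k x with hA2
  set QVV := ∫ x, gam (Vpt z R x - pot ρ x - φ₀) * Vpt z R x ^ 2 with hQVV
  set QVk := ∫ x, gam (Vpt z R x - pot ρ x - φ₀) * (Vpt z R x * k x) with hQVk
  set Qkk := ∫ x, gam (Vpt z R x - pot ρ x - φ₀) * k x ^ 2 with hQkk
  set M := ∫ x, (ball (0 : X) r).indicator
        (fun x => (Vpt z R x + B) ^ 2 * √(Vpt z R x + B)) x with hM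
  set N := En ρ ρ with hN
  set q : ℝ → ℝ := fun s => U * ((1 + s)⁻¹ + 1 + s / 3) + A1 * (1 + 2 / 3 * s) +
    N / 2 * (1 + s / 3) + A2 * (1 + s + s ^ 2 / 3) * (1 + s) * (2 + s) -
    1 / 2 * (1 + s) * QVV - (1 + s) ^ 2 * (1 + s + s ^ 2 / 3) * QVk -
    1 / 2 * (1 + s) ^ 3 * (1 + s + s ^ 2 / 3) ^ 2 * Qkk -
    (1 + s) * (1 + s + s ^ 2 / 3) ^ 2 * E - (1 + s) ^ 3 * (12 * √(2 * |s|) * M) with hq
  have hqc : ContinuousAt q 0 := by
    have h1 : ContinuousAt (fun s : ℝ => (1 + s)⁻¹) 0 :=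
      ContinuousAt.inv₀ (by fun_prop) (by norm_num)
    have h2 : ContinuousAt (fun s : ℝ => U * ((1 + s)⁻¹ + 1 + s / 3)) 0 :=
      continuousAt_const.mul ((h1.add continuousAt_const).add (by fun_prop))
    have h3 : Continuous (fun s : ℝ => A1 * (1 + 2 / 3 * s) +
      N / 2 * (1 + s / 3) + A2 * (1 + s + s ^ 2 / 3) * (1 + s) * (2 + s) -
      1 / 2 * (1 + s) * QVV - (1 + s) ^ 2 * (1 + s + s ^ 2 / 3) * QVk -
      1 / 2 * (1 + s) ^ 3 * (1 + s + s ^ 2 / 3) ^ 2 * Qkk -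
      (1 + s) * (1 + s + s ^ 2 / 3) ^ 2 * E - (1 + s) ^ 3 * (12 * √(2 * |s|) * M)) := by
      fun_prop
    refine (h2.add h3.continuousAt).congr (Eventually.of_forall fun s => ?_)
    simp only [hq, Pi.add_apply]
    ring
  have hq0 : -η ≤ q 0 := by
    have : q 0 = 1 / 2 * (4 * U + N + 2 * A1 + 4 * A2 - (QVV + 2 * QVk + Qkk) - 2 * E) := by
      simp only [hq, abs_zero, mul_zero, Real.sqrt_zero, add_zero]
      ring
    rw [this]
    linarith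
  refine ⟨(-U - 3 * A0 + A1 - 1 / 2 * N) / 3, fun ε hηε => ?_⟩
  have hε : 0 < ε := hη.trans_lt hηε
  have c1 : ∀ᶠ s in 𝓝 (0 : ℝ), -ε < q s := hqc.eventually (lt_mem_nhds (by linarith))
  have c2 : ∀ᶠ s in 𝓝 (0 : ℝ), |s| < 1 / 4 := by
    have h1 : Tendsto (fun s : ℝ => |s|) (𝓝 0) (𝓝 |(0 : ℝ)|) := continuous_abs.tendsto 0
    rw [abs_zero] at h1
    exact h1.eventually (gt_mem_nhds (by norm_num))
  have c3 : ∀ᶠ s in 𝓝 (0 : ℝ), 2 * |s| * B < φ₀ / 4 := by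
    have h1 : Tendsto (fun s : ℝ => 2 * |s| * B) (𝓝 0) (𝓝 (2 * |(0 : ℝ)| * B)) :=
      (by fun_prop : Continuous fun s : ℝ => 2 * |s| * B).tendsto 0
    rw [abs_zero, mul_zero, zero_mul] at h1
    exact h1.eventually (gt_mem_nhds (by positivity))
  have hst : Tendsto (fun t : ℝ => (1 + t) ^ (1 / 3 : ℝ) - 1) (𝓝 0) (𝓝 0) := by
    have h1 : ContinuousAt (fun t : ℝ => (1 + t) ^ (1 / 3 : ℝ) - 1) 0 := by
      refine ContinuousAt.sub ?_ continuousAt_const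
      refine ContinuousAt.rpow_const (by fun_prop) (Or.inl (by norm_num))
    have h2 := h1.tendsto
    simpa using h2
  have c4 : ∀ᶠ t in 𝓝 (0 : ℝ), |t| < 1 := by
    have h1 : Tendsto (fun s : ℝ => |s|) (𝓝 0) (𝓝 |(0 : ℝ)|) := continuous_abs.tendsto 0
    rw [abs_zero] at h1
    exact h1.eventually (gt_mem_nhds (by norm_num))
  obtain ⟨δ, hδ, hball⟩ := Metric.eventually_nhds_iff.mp
    ((hst.eventually (c1.and (c2.and c3))).and c4)
  refine ⟨δ, hδ, fun t ht => ?_⟩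
  obtain ⟨⟨h1, h2, h3⟩, h4⟩ := hball (y := t) (by rwa [Real.dist_eq, sub_zero])
  set s : ℝ := (1 + t) ^ (1 / 3 : ℝ) - 1 with hs
  have h1t : 0 < 1 + t := by
    have := (abs_lt.mp h4).1
    linarith
  have hs1 : 1 + s = (1 + t) ^ (1 / 3 : ℝ) := by rw [hs]; ring
  have hs3 : (1 + s) ^ 3 = 1 + t := by
    rw [hs1, ← Real.rpow_natCast, ← Real.rpow_mul h1t.le]
    norm_num
  have ht3 : t = 3 * (s + s ^ 2 + s ^ 3 / 3) := by
    have : (1 + s) ^ 3 = 1 + 3 * s + 3 * s ^ 2 + s ^ 3 := by ring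
    linarith
  rw [← hs1]
  refine le_GTF _ fun σ hσ => ?_
  have hge := Ept_ge hz R hφ hρ heq hk hB1 hB hT hr h2.le h3.le rfl hσ
  have hs' := abs_lt.mp h2
  have halg := q_algebra (s := s) (U := U) (A0 := A0) (A1 := A1) (A2 := A2) (En := N)
    (QVV := QVV) (QVk := QVk) (Qkk := Qkk) (E := E) (M := 12 * √(2 * |s|) * M)
    (ne_of_gt (by linarith : (0 : ℝ) < 1 + s)) rfl rfl
  have hfin : U - A0 - 1 / 2 * N + (-U - 3 * A0 + A1 - 1 / 2 * N) / 3 * t - ε * t ^ 2 ≤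
      (U - A0 - 1 / 2 * N) +
        (-U - 3 * A0 + A1 - 1 / 2 * N) / 3 * (3 * (s + s ^ 2 + s ^ 3 / 3)) + s ^ 2 * q s := by
    rw [← ht3]
    have h5 := aux_q hε h1 (aux_s2 hs'.1 hs'.2 ht3)
    linarith
  exact (hfin.trans (le_of_eq halg.symm)).trans hge

/-- Convexity in the volume from trial functions, at every scale, whose second variation is at
least `-η` for every `η > 0`. -/
theorem GTF_convex_of_trial_err {z : ι → ℝ} (hz : ∀ i, 0 ≤ z i) (R : ι → X) {φ₀ : ℝ} (hφ : 0 < φ₀)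
    (h : ∀ c : ℝ, 0 < c → ∀ ρ : X → ℝ, TC ρ →
      (∀ x, ρ x = tf (Vpt z (fun i => c • R i) x - pot ρ x - φ₀)) → ∀ η : ℝ, 0 < η →
      ∃ (S : Set X) (k : X → ℝ) (k' : X → X), S.Finite ∧ TrialK S k k' ∧
        -η ≤ Vtr φ₀ z (fun i => c • R i) ρ k ((8 * Real.pi)⁻¹ * ∫ x, ‖k' x‖ ^ 2)) :
    ConvexOn ℝ (Ioi 0) fun v : ℝ => GTF φ₀ z fun i => v ^ (1 / 3 : ℝ) • R i := by
  refine GTF_convex_of_support hφ hz R fun c hc ε hε => ?_
  obtain ⟨ρ, hρ, -, heq⟩ := exists_point_sol hz (fun i => c • R i) hφ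
  obtain ⟨S, k, k', hS, hk, hV⟩ := h c hc ρ hρ heq (ε / 2) (by positivity)
  obtain ⟨B, hB⟩ := hk.bdd
  obtain ⟨a, ha⟩ := support_of_Vtr_err hz (fun i => c • R i) hφ hρ heq hk.cont.measurable hB
    (fun σ τ hσ hτ c => thomson_mul hS hk hσ hτ c) (by positivity) hV
  obtain ⟨δ, hδ, hsup⟩ := ha ε (by linarith)
  exact ⟨a, δ, hδ, hsup⟩

end Pool.Agent.TF
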