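import Pool.Agent.Lib.MP_9cf0c9_mp.CalibSol
import Pool.Agent.Lib.MP_9cf0c9_mp.CalibEnds
import Pool.Agent.Lib.MP_9cf0c9_mp.ConvexErr

/-! The calibration criterion with an integrable error. -/

set_option linter.unusedSectionVars false
set_option linter.unusedVariables false
set_option linter.style.haveILetI false

namespace Pool.Agent.TF
open MeasureTheory Set Metric Filter Topology
open scoped ENNReal NNReal RealInnerProductSpace Gradient

variable {ι : Type*} [Fintype ι]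

/-- **the calibration criterion with errors**: `e` in the pointwise inequality, `d i` in the flux
condition at the nucleus `i` -/
theorem Vtr_ge_of_calib {z : ι → ℝ} (hz : ∀ i, 0 ≤ z i) {R : ι → X}
    (hR : Function.Injective R) {φ₀ : ℝ} (hφ : 0 < φ₀)
    {ρ : X → ℝ} (hρ : TC ρ) (heq : ∀ x, ρ x = tf (Vpt z R x - pot ρ x - φ₀))
    {S : Set X} (hS : S.Finite) {k : X → ℝ} {k' : X → X} (hk : TrialK S k k') {C : ℝ}
    (hkb : ∀ᵐ x : X, ‖k' x‖ ≤ C * (1 + ∑ i, (‖x - R i‖⁻¹) ^ (3 / 4 : ℝ)))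
    {H D e : X → ℝ} {H' A : X → X} (he : Integrable e) {d : ι → ℝ}
    (hH : Flux.LocLip R H) (hH' : ∀ᵐ x : X, HasGradientAt H (H' x) x)
    (hA : Flux.LocInt R A) (hD : Flux.LocInt R D)
    (hflux : ∀ ζ, Flux.TestFn R ζ → -∫ x, ⟪A x, ∇ ζ x⟫ ≤ ∫ x, ζ x * D x)
    (hpt : ∀ᵐ x : X, -e x ≤ Fcal φ₀ z R ρ k k' x - ⟪H' x, gVpt z R x - gradV ρ x⟫ -
      4 * Real.pi * (ρ x * H x) - D x)
    (hnuc : ∀ i, ∀ δ : ℝ, 0 < δ → ∃ η : ℝ, 0 < η ∧ ∀ᵐ x : X, ‖x - R i‖ < η →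
      4 * Real.pi * ‖x - R i‖ ^ 2 * ⟪H x • (gVpt z R x - gradV ρ x) + A x,
        ‖x - R i‖⁻¹ • (x - R i)⟫ ≤ 2 * z i * (Vpt z R (R i) + k (R i)) + d i + δ)
    (hinf : ∀ δ : ℝ, 0 < δ → ∃ N : ℝ, ∀ᵐ x : X, N < ‖x‖ →
      -δ ≤ 4 * Real.pi * ‖x‖ ^ 2 * ⟪H x • (gVpt z R x - gradV ρ x) + A x, ‖x‖⁻¹ • x⟫) :
    -(∫ x, e x) - ∑ i, d i ≤ Vtr φ₀ z R ρ k ((8 * Real.pi)⁻¹ * ∫ x, ‖k' x‖ ^ 2) := by
  obtain ⟨hF, hV⟩ := calib_alg hz R hφ hρ heq hS hk hkb
  have hFe : Integrable fun x => Fcal φ₀ z R ρ k k' x + e x := hF.add he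
  have h := Flux.calib_int hR (ρ := ρ) (H := H) (D := D) (F := fun x => Fcal φ₀ z R ρ k k' x + e x)
    (ψ' := fun x => gVpt z R x - gradV ρ x) (H' := H') (A := A)
    (c := fun i => 2 * z i * (Vpt z R (R i) + k (R i)) + d i)
    (locInt_of_integrable R hρ.int)
    (fun K hK h => (gVpt_locInt z R K hK h).sub (gradV_locInt hz R hφ hρ heq K hK h))
    (by
      intro u C' hu hc hoff
      rw [(weak_sol z R hρ hu hc).2]
      have h0 : ∀ i, u (R i) = 0 := fun i => (hoff i).self_of_nhds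
      simp only [h0, mul_zero, Finset.sum_const_zero, zero_sub]
      ring) hH hH' hA hD hFe hflux
    (by
      filter_upwards [hpt] with x hx
      linarith) hnuc hinf
  rw [integral_add hF he, Finset.sum_add_distrib] at h
  rw [hV]
  linarith

/-- convexity of the energy at fixed chemical potential from calibrations with small errors -/
theorem GTF_convex_of_calib_err {z : ι → ℝ} (hz : ∀ i, 0 ≤ z i) (R : ι → X)
    (hR : Function.Injective R) {φ₀ : ℝ} (hφ : 0 < φ₀)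
    (h : ∀ R' : ι → X, Function.Injective R' → ∀ ρ : X → ℝ, TC ρ →
      (∀ x, ρ x = tf (Vpt z R' x - pot ρ x - φ₀)) → ∀ η : ℝ, 0 < η →
      ∃ (S : Set X) (k : X → ℝ) (k' : X → X), S.Finite ∧ TrialK S k k' ∧
        -η ≤ Vtr φ₀ z R' ρ k ((8 * Real.pi)⁻¹ * ∫ x, ‖k' x‖ ^ 2)) :
    ConvexOn ℝ (Ioi 0) fun v : ℝ => GTF φ₀ z fun i => v ^ (1 / 3 : ℝ) • R i := by
  refine GTF_convex_of_trial_err hz R hφ fun c hc ρ hρ heq η hη => ?_
  exact h (fun i => c • R i) (fun i j hij => hR (smul_right_injective X hc.ne' hij)) ρ hρ heq η hη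

end Pool.Agent.TF
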