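import Pool.Agent.Lib.MP_9cf0c9_mp.FluxLimit

/-! From a pointwise calibration inequality to an integral inequality.
`ψ'` is the gradient of the potential (weak Poisson equation with density `ρ` off the nuclei),
`H` a multiplier, `A` a vector field whose divergence is at most `D` (in the weak sense), and
`F - ⟪H', ψ'⟫ - 4 π ρ H - D ≥ 0` almost everywhere.  Then `0 ≤ ∫ F + ∑ c i`, where `c i` bounds
the flux of `H ψ' + A` out of the nucleus `i`. -/

set_option autoImplicit false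
set_option linter.unusedSectionVars false
set_option linter.unusedVariables false
set_option linter.style.haveILetI false

namespace Pool.Agent.TF.Flux
open MeasureTheory Set Metric Filter Topology
open scoped ENNReal NNReal RealInnerProductSpace Gradient

variable {V : Type*} [NormedAddCommGroup V] [InnerProductSpace ℝ V] [FiniteDimensional ℝ V]
  [MeasurableSpace V] [BorelSpace V]
variable {ι : Type*} [Fintype ι]

/-- Lipschitz on compact sets without nuclei -/
def LocLip (R : ι → V) (H : V → ℝ) : Prop :=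
  ∀ K, IsCompact K → (∀ i, R i ∉ K) → ∃ C : ℝ≥0, LipschitzOnWith C H K

/-- integrable on compact sets without nuclei -/
def LocInt {E : Type*} [NormedAddCommGroup E] (R : ι → V) (f : V → E) : Prop :=
  ∀ K, IsCompact K → (∀ i, R i ∉ K) → IntegrableOn f K

theorem LocLip.bound {R : ι → V} {H : V → ℝ} (hH : LocLip R H) {K : Set V} (hK : IsCompact K)
    (hR : ∀ i, R i ∉ K) : ∃ B : ℝ, 0 ≤ B ∧ ∀ x ∈ K, ‖H x‖ ≤ B := by
  obtain ⟨C, hC⟩ := hH K hK hR
  obtain ⟨B, hB⟩ := hK.exists_bound_of_continuousOn hC.continuousOn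
  exact ⟨max B 0, le_max_right _ _, fun x hx => (hB x hx).trans (le_max_left _ _)⟩

theorem TestFn.notMem {R : ι → V} {ζ : V → ℝ} (h : TestFn R ζ) (i : ι) : R i ∉ tsupport ζ := by
  rw [notMem_tsupport_iff_eventuallyEq]
  exact h.off i

/-- `ζ H` is an admissible test function -/
theorem lip_mul {R : ι → V} {ζ H : V → ℝ} {C : ℝ≥0} (hζ : LipschitzWith C ζ)
    (hs : HasCompactSupport ζ) (hoff : ∀ i, R i ∉ tsupport ζ) (hH : LocLip R H) :
    ∃ C' : ℝ≥0, LipschitzWith C' fun x => ζ x * H x := by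
  obtain ⟨B, hB0, hB⟩ := hH.bound hs.isCompact hoff
  obtain ⟨L, hL⟩ := hH _ hs.isCompact hoff
  obtain ⟨M, hM⟩ := hs.isCompact.exists_bound_of_continuousOn hζ.continuous.continuousOn
  set M' : ℝ := max M 0 with hM'
  have hM1 : ∀ x ∈ tsupport ζ, |ζ x| ≤ M' := fun x hx => (hM x hx).trans (le_max_left _ _)
  have hM0 : 0 ≤ M' := le_max_right _ _
  have hsup : ∀ x, x ∉ tsupport ζ → ζ x = 0 := fun x hx => image_eq_zero_of_notMem_tsupport hx
  have h1 : ∀ x y, x ∈ tsupport ζ → y ∉ tsupport ζ → |ζ x * H x - ζ y * H y| ≤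
      (M' * L + B * C) * dist x y := by
    intro x y hx hy
    have h2 := hζ.dist_le_mul x y
    rw [Real.dist_eq] at h2
    have h3 := hB x hx
    rw [Real.norm_eq_abs] at h3
    have h4 : |ζ x * H x - ζ y * H y| = |ζ x - ζ y| * |H x| := by
      rw [hsup y hy, zero_mul, sub_zero, sub_zero, abs_mul]
    rw [h4]
    have hd : (0 : ℝ) ≤ dist x y := dist_nonneg
    calc |ζ x - ζ y| * |H x| ≤ (C * dist x y) * B :=
          mul_le_mul h2 h3 (abs_nonneg _) (by positivity)
      _ ≤ (M' * L + B * C) * dist x y := by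
          have : 0 ≤ M' * L * dist x y := by positivity
          nlinarith
  refine ⟨⟨M' * L + B * C, by positivity⟩, LipschitzWith.of_dist_le_mul fun x y => ?_⟩
  change dist (ζ x * H x) (ζ y * H y) ≤ (M' * L + B * C) * dist x y
  rw [Real.dist_eq]
  by_cases hx : x ∈ tsupport ζ
  · by_cases hy : y ∈ tsupport ζ
    · have h2 := hζ.dist_le_mul x y
      rw [Real.dist_eq] at h2
      have h3 := hB y hy
      rw [Real.norm_eq_abs] at h3
      have h5 := hL.dist_le_mul x hx y hy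
      rw [Real.dist_eq] at h5
      have e : ζ x * H x - ζ y * H y = ζ x * (H x - H y) + (ζ x - ζ y) * H y := by ring
      rw [e]
      have hd : (0 : ℝ) ≤ dist x y := dist_nonneg
      calc |ζ x * (H x - H y) + (ζ x - ζ y) * H y|
          ≤ |ζ x| * |H x - H y| + |ζ x - ζ y| * |H y| := by
            refine (abs_add_le _ _).trans (le_of_eq ?_)
            rw [abs_mul, abs_mul]
        _ ≤ M' * (L * dist x y) + (C * dist x y) * B := by
            refine add_le_add (mul_le_mul (hM1 x hx) h5 (abs_nonneg _) hM0)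
              (mul_le_mul h2 h3 (abs_nonneg _) (by positivity))
        _ = (M' * L + B * C) * dist x y := by ring
    · exact h1 x y hx hy
  · by_cases hy : y ∈ tsupport ζ
    · rw [abs_sub_comm, dist_comm]
      exact h1 y x hy hx
    · rw [hsup x hx, hsup y hy]
      simp only [zero_mul, sub_self, abs_zero]
      positivity

theorem gradient_mul_ae {ζ H : V → ℝ} {H' : V → V} {C : ℝ≥0} (hζ : LipschitzWith C ζ)
    (hH' : ∀ᵐ x : V, HasGradientAt H (H' x) x) :
    ∀ᵐ x : V, ∇ (fun x => ζ x * H x) x = ζ x • H' x + H x • ∇ ζ x := by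
  filter_upwards [hH', hζ.ae_differentiableAt (μ := (volume : Measure V))] with x h1 h2
  refine HasGradientAt.gradient ?_
  have h3 := h2.hasGradientAt
  rw [hasGradientAt_iff_hasFDerivAt] at h1 h3 ⊢
  refine (h3.mul h1).congr_fderiv ?_
  rw [map_add, map_smul, map_smul]

theorem LocInt.mul_left {E : Type*} [NormedAddCommGroup E] [NormedSpace ℝ E] {R : ι → V}
    {f : V → E} (hf : LocInt R f) {ζ : V → ℝ} (hζ : Continuous ζ) (hs : HasCompactSupport ζ)
    (hoff : ∀ i, R i ∉ tsupport ζ) : Integrable fun x => ζ x • f x := by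
  have h1 : (fun x => ζ x • f x) = (tsupport ζ).indicator fun x => ζ x • f x := by
    funext x
    by_cases hx : x ∈ tsupport ζ
    · rw [indicator_of_mem hx]
    · rw [indicator_of_notMem hx, image_eq_zero_of_notMem_tsupport hx, zero_smul]
  obtain ⟨M, hM⟩ := hs.isCompact.exists_bound_of_continuousOn hζ.continuousOn
  rw [h1, integrable_indicator_iff (isClosed_tsupport ζ).measurableSet]
  refine Integrable.bdd_smul (hf _ hs.isCompact hoff) M hζ.aestronglyMeasurable ?_
  exact (ae_restrict_iff' (isClosed_tsupport ζ).measurableSet).2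
    (Eventually.of_forall fun x hx => hM x hx)

theorem LocInt.inner_grad {R : ι → V} {f : V → V} (hf : LocInt R f) {ζ : V → ℝ} {C : ℝ≥0}
    (hζ : LipschitzWith C ζ) (hs : HasCompactSupport ζ) (hoff : ∀ i, R i ∉ tsupport ζ) :
    Integrable fun x => ⟪f x, ∇ ζ x⟫ := by
  have h1 : (fun x => ⟪f x, ∇ ζ x⟫) = (tsupport ζ).indicator fun x => ⟪f x, ∇ ζ x⟫ := by
    funext x
    by_cases hx : x ∈ tsupport ζ
    · rw [indicator_of_mem hx]
    · rw [indicator_of_notMem hx, gradient_zero_of_notMem hx, inner_zero_right]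
  rw [h1, integrable_indicator_iff (isClosed_tsupport ζ).measurableSet]
  have h2 := hf _ hs.isCompact hoff
  refine Integrable.mono' (h2.norm.const_mul (C : ℝ))
    (h2.1.inner (measurable_gradient ζ).aestronglyMeasurable) (Eventually.of_forall fun x => ?_)
  calc ‖⟪f x, ∇ ζ x⟫‖ ≤ ‖f x‖ * ‖∇ ζ x‖ := norm_inner_le_norm _ _
    _ ≤ ‖f x‖ * C := mul_le_mul_of_nonneg_left (gradient_bound hζ x) (norm_nonneg _)
    _ = C * ‖f x‖ := mul_comm _ _

theorem LocLip.smul_locInt {R : ι → V} {H : V → ℝ} {f : V → V} (hH : LocLip R H)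
    (hf : LocInt R f) : LocInt R fun x => H x • f x := by
  intro K hK hR
  obtain ⟨B, hB0, hB⟩ := hH.bound hK hR
  obtain ⟨C, hC⟩ := hH K hK hR
  refine Integrable.bdd_smul (hf K hK hR) B
    (hC.continuousOn.aestronglyMeasurable hK.measurableSet) ?_
  exact (ae_restrict_iff' hK.measurableSet).2 (Eventually.of_forall fun x hx => hB x hx)

theorem LocLip.mul_locInt {R : ι → V} {H f : V → ℝ} (hH : LocLip R H)
    (hf : LocInt R f) : LocInt R fun x => f x * H x := by
  intro K hK hR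
  obtain ⟨B, hB0, hB⟩ := hH.bound hK hR
  obtain ⟨C, hC⟩ := hH K hK hR
  refine ((hf K hK hR).bdd_mul (hC.continuousOn.aestronglyMeasurable hK.measurableSet)
    (c := B) ?_).congr (Eventually.of_forall fun x => mul_comm _ _)
  exact (ae_restrict_iff' hK.measurableSet).2 (Eventually.of_forall fun x hx => hB x hx)

/-- the gradient of a locally Lipschitz function is locally bounded, almost everywhere -/
theorem LocLip.grad_inner_locInt {R : ι → V} {H : V → ℝ} {H' f : V → V} (hH : LocLip R H)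
    (hH' : ∀ᵐ x : V, HasGradientAt H (H' x) x) (hf : LocInt R f) :
    LocInt R fun x => ⟪H' x, f x⟫ := by
  classical
  intro K hK hR
  -- a compact neighbourhood of `K` without nuclei
  have hop : IsOpen (range R)ᶜ := (finite_range R).isClosed.isOpen_compl
  have hsub : K ⊆ (range R)ᶜ := by
    rintro x hx ⟨i, rfl⟩
    exact hR i hx
  obtain ⟨L, hL, hKL, hLs⟩ := exists_compact_between hK hop hsub
  have hRL : ∀ i, R i ∉ L := fun i hi => hLs hi ⟨i, rfl⟩
  obtain ⟨C, hC⟩ := hH L hL hRL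
  have hb : ∀ᵐ x : V, x ∈ K → ‖H' x‖ ≤ C := by
    filter_upwards [hH'] with x hx hxK
    have h1 : x ∈ interior L := hKL hxK
    have h2 : ‖(InnerProductSpace.toDual ℝ V) (H' x)‖ ≤ C :=
      (hasGradientAt_iff_hasFDerivAt.1 hx).le_of_lipschitzOn
        (mem_interior_iff_mem_nhds.1 h1) hC
    rwa [LinearIsometryEquiv.norm_map] at h2
  have hm : AEStronglyMeasurable H' volume := by
    have h3 : (fun x => ∇ H x) =ᵐ[volume] H' := by
      filter_upwards [hH'] with x hx
      exact hx.gradient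
    exact (measurable_gradient H).aestronglyMeasurable.congr h3
  have h2 := hf K hK hR
  refine Integrable.mono' (h2.norm.const_mul (C : ℝ)) (hm.restrict.inner h2.1) ?_
  refine (ae_restrict_iff' hK.measurableSet).2 ?_
  filter_upwards [hb] with x hx hxK
  calc ‖⟪H' x, f x⟫‖ ≤ ‖H' x‖ * ‖f x‖ := norm_inner_le_norm _ _
    _ ≤ C * ‖f x‖ := mul_le_mul_of_nonneg_right (hx hxK) (norm_nonneg _)

/-- the integrated calibration inequality with a test function -/
theorem calib_test {R : ι → V} {ρ H D F : V → ℝ} {ψ' H' A : V → V}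
    (hρ : LocInt R ρ) (hψ : LocInt R ψ')
    (hweak : ∀ (u : V → ℝ) (C : ℝ≥0), LipschitzWith C u → HasCompactSupport u →
      (∀ i, ∀ᶠ x in 𝓝 (R i), u x = 0) →
      ∫ x, ⟪ψ' x, ∇ u x⟫ = -(4 * Real.pi) * ∫ x, ρ x * u x)
    (hH : LocLip R H) (hH' : ∀ᵐ x : V, HasGradientAt H (H' x) x)
    (hA : LocInt R A) (hD : LocInt R D) (hF : Integrable F)
    (hflux : ∀ ζ, TestFn R ζ → -∫ x, ⟪A x, ∇ ζ x⟫ ≤ ∫ x, ζ x * D x)
    (hpt : ∀ᵐ x : V, 0 ≤ F x - ⟪H' x, ψ' x⟫ - 4 * Real.pi * (ρ x * H x) - D x)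
    {ζ : V → ℝ} (hζ : TestFn R ζ) :
    0 ≤ (∫ x, ζ x * F x) + ∫ x, ⟪H x • ψ' x + A x, ∇ ζ x⟫ := by
  obtain ⟨C, hC⟩ := hζ.lip
  have hoff := hζ.notMem
  have hcont := hC.continuous
  obtain ⟨C', hC'⟩ := lip_mul hC hζ.supp hoff hH
  -- integrability of all the terms
  have i1 : Integrable fun x => ζ x * F x := by
    have h := LocInt.mul_left (R := R) (f := F) (fun K _ _ => hF.integrableOn) hcont hζ.supp hoff
    simpa only [smul_eq_mul] using h
  have i2 : Integrable fun x => ζ x * ⟪H' x, ψ' x⟫ := by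
    have h := (hH.grad_inner_locInt hH' hψ).mul_left hcont hζ.supp hoff
    simpa only [smul_eq_mul] using h
  have i3 : Integrable fun x => ζ x * (ρ x * H x) := by
    have h := (hH.mul_locInt hρ).mul_left hcont hζ.supp hoff
    simpa only [smul_eq_mul] using h
  have i4 : Integrable fun x => ζ x * D x := by
    have h := hD.mul_left hcont hζ.supp hoff
    simpa only [smul_eq_mul] using h
  have i5 : Integrable fun x => ⟪H x • ψ' x, ∇ ζ x⟫ :=
    (hH.smul_locInt hψ).inner_grad hC hζ.supp hoff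
  have i6 : Integrable fun x => ⟪A x, ∇ ζ x⟫ := hA.inner_grad hC hζ.supp hoff
  -- the weak equation with the test function `ζ H`
  have hsupp : HasCompactSupport fun x => ζ x * H x := hζ.supp.mul_right
  have hw := hweak _ C' hC' hsupp (fun i => by
    filter_upwards [hζ.off i] with x hx
    rw [hx, zero_mul])
  have e1 : ∫ x, ⟪ψ' x, ∇ (fun x => ζ x * H x) x⟫ =
      (∫ x, ζ x * ⟪H' x, ψ' x⟫) + ∫ x, ⟪H x • ψ' x, ∇ ζ x⟫ := by
    rw [← integral_add i2 i5]
    refine integral_congr_ae ?_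
    filter_upwards [gradient_mul_ae hC hH'] with x hx
    rw [hx, inner_add_right, inner_smul_right, inner_smul_right, inner_smul_left,
      real_inner_comm (H' x)]
    simp
  have e2 : ∫ x, ρ x * (ζ x * H x) = ∫ x, ζ x * (ρ x * H x) := by
    refine integral_congr_ae (Eventually.of_forall fun x => ?_)
    simp only
    ring
  rw [e1, e2] at hw
  -- the pointwise inequality
  have hp : 0 ≤ ∫ x, ζ x * (F x - ⟪H' x, ψ' x⟫ - 4 * Real.pi * (ρ x * H x) - D x) := by
    refine integral_nonneg_of_ae ?_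
    filter_upwards [hpt] with x hx
    exact mul_nonneg (hζ.nonneg x) hx
  have e3 : ∫ x, ζ x * (F x - ⟪H' x, ψ' x⟫ - 4 * Real.pi * (ρ x * H x) - D x) =
      (∫ x, ζ x * F x) - (∫ x, ζ x * ⟪H' x, ψ' x⟫) - 4 * Real.pi * (∫ x, ζ x * (ρ x * H x)) -
        ∫ x, ζ x * D x := by
    have j3 : Integrable fun x => 4 * Real.pi * (ζ x * (ρ x * H x)) := i3.const_mul _
    have j12 : Integrable fun x => ζ x * F x - ζ x * ⟪H' x, ψ' x⟫ := i1.sub i2
    have j123 : Integrable fun x => ζ x * F x - ζ x * ⟪H' x, ψ' x⟫ -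
        4 * Real.pi * (ζ x * (ρ x * H x)) := j12.sub j3
    rw [← integral_const_mul, ← integral_sub i1 i2, ← integral_sub j12 j3,
      ← integral_sub j123 i4]
    refine integral_congr_ae (Eventually.of_forall fun x => ?_)
    simp only
    ring
  have e4 : ∫ x, ⟪H x • ψ' x + A x, ∇ ζ x⟫ =
      (∫ x, ⟪H x • ψ' x, ∇ ζ x⟫) + ∫ x, ⟪A x, ∇ ζ x⟫ := by
    rw [← integral_add i5 i6]
    refine integral_congr_ae (Eventually.of_forall fun x => ?_)
    simp only
    rw [inner_add_left]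
  have hfl := hflux ζ hζ
  rw [e3] at hp
  rw [e4]
  linarith

/-- a pointwise calibration inequality gives an integral inequality -/
theorem calib_int [hd : Fact (Module.finrank ℝ V = 3)] {R : ι → V} (hR : Function.Injective R)
    {ρ H D F : V → ℝ} {ψ' H' A : V → V} {c : ι → ℝ}
    (hρ : LocInt R ρ) (hψ : LocInt R ψ')
    (hweak : ∀ (u : V → ℝ) (C : ℝ≥0), LipschitzWith C u → HasCompactSupport u →
      (∀ i, ∀ᶠ x in 𝓝 (R i), u x = 0) →
      ∫ x, ⟪ψ' x, ∇ u x⟫ = -(4 * Real.pi) * ∫ x, ρ x * u x)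
    (hH : LocLip R H) (hH' : ∀ᵐ x : V, HasGradientAt H (H' x) x)
    (hA : LocInt R A) (hD : LocInt R D) (hF : Integrable F)
    (hflux : ∀ ζ, TestFn R ζ → -∫ x, ⟪A x, ∇ ζ x⟫ ≤ ∫ x, ζ x * D x)
    (hpt : ∀ᵐ x : V, 0 ≤ F x - ⟪H' x, ψ' x⟫ - 4 * Real.pi * (ρ x * H x) - D x)
    (hnuc : ∀ i, ∀ δ : ℝ, 0 < δ → ∃ η : ℝ, 0 < η ∧ ∀ᵐ x : V, ‖x - R i‖ < η →
      4 * Real.pi * ‖x - R i‖ ^ 2 * ⟪H x • ψ' x + A x, ‖x - R i‖⁻¹ • (x - R i)⟫ ≤ c i + δ)
    (hinf : ∀ δ : ℝ, 0 < δ → ∃ N : ℝ, ∀ᵐ x : V, N < ‖x‖ →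
      -δ ≤ 4 * Real.pi * ‖x‖ ^ 2 * ⟪H x • ψ' x + A x, ‖x‖⁻¹ • x⟫) :
    0 ≤ (∫ x, F x) + ∑ i, c i :=
  flux_limit hR hF
    (fun K hK h => (hH.smul_locInt hψ K hK h).add (hA K hK h))
    (fun ζ hζ => calib_test hρ hψ hweak hH hH' hA hD hF hflux hpt hζ) hnuc hinf

end Pool.Agent.TF.Flux
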