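import Pool.Agent.Lib.MP_9cf0c9_mp.WeakK

/-! Weak Poisson equation for trial functions and Thomson's inequality. -/

set_option linter.unusedSectionVars false
set_option linter.unusedVariables false
set_option linter.style.haveILetI false

namespace Pool.Agent.TF
open MeasureTheory Set Metric Filter Topology
open scoped ENNReal NNReal RealInnerProductSpace Gradient

variable {V : Type*} [NormedAddCommGroup V] [InnerProductSpace ℝ V] [FiniteDimensional ℝ V]
  [MeasurableSpace V] [BorelSpace V]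

section dim3
variable [hd : Fact (Module.finrank ℝ V = 3)]

theorem cW_nonneg (S : Set V) (x : V) : 0 ≤ cW S x :=
  indicator_nonneg (fun _ _ => inv_nonneg.mpr infDist_nonneg) _

theorem cW_meas (S : Set V) : Measurable (cW S) := by
  have hc : Continuous fun y : V => infDist y S := continuous_infDist_pt S
  exact hc.measurable.inv.indicator (measurableSet_le hc.measurable measurable_const)

theorem cW_le (S : Set V) (x : V) : cW S x ≤ 2 * cW S x ^ 2 := by
  unfold cW
  by_cases h : x ∈ {x : V | infDist x S ≤ 2}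
  · rw [indicator_of_mem h]
    rcases (infDist_nonneg (x := x) (s := S)).eq_or_lt with h0 | h0
    · rw [← h0]; simp
    · have h2 : infDist x S ≤ 2 := h
      have : 1 ≤ 2 * (infDist x S)⁻¹ := by
        rw [← div_eq_mul_inv, le_div_iff₀ h0]; linarith
      have h3 : 0 ≤ (infDist x S)⁻¹ := by positivity
      nlinarith
  · rw [indicator_of_notMem h]; simp

theorem cW_sq_integrable {S : Set V} (hS : S.Finite) (hne : S.Nonempty) :
    Integrable (fun x => cW S x ^ 2) := by
  classical
  have hI : Integrable (fun x : V => ∑ s ∈ hS.toFinset,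
      (ball (0 : V) 3).indicator (fun v => (‖v‖ ^ 2)⁻¹) (x - s)) := by
    refine integrable_finsetSum _ fun s _ => ?_
    have h1 : Integrable ((ball (0 : V) 3).indicator fun v => (‖v‖ ^ 2)⁻¹) :=
      (integrable_indicator_iff measurableSet_ball).mpr (integrableOn_inv_sq 3)
    exact h1.comp_sub_right s
  refine hI.mono' ((cW_meas S).pow_const 2).aestronglyMeasurable (Eventually.of_forall fun x => ?_)
  rw [Real.norm_of_nonneg (by positivity)]
  have hnn : ∀ s ∈ hS.toFinset, 0 ≤ (ball (0 : V) 3).indicator (fun v => (‖v‖ ^ 2)⁻¹) (x - s) :=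
    fun s _ => indicator_nonneg (fun _ _ => by positivity) _
  by_cases h : x ∈ {x : V | infDist x S ≤ 2}
  · obtain ⟨y, hy, hy2⟩ := hS.isCompact.exists_infDist_eq_dist hne x
    have h2 : infDist x S ≤ 2 := h
    have h3 : x - y ∈ ball (0 : V) 3 := by
      rw [mem_ball_zero_iff, ← dist_eq_norm, ← hy2]; linarith
    refine le_trans ?_ (Finset.single_le_sum hnn (hS.mem_toFinset.mpr hy))
    rw [indicator_of_mem h3]
    unfold cW
    rw [indicator_of_mem h, hy2, dist_eq_norm, inv_pow]
  · unfold cW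
    rw [indicator_of_notMem h]
    simpa using Finset.sum_nonneg hnn

theorem mul_integrable_of_sq {a b : V → ℝ} (ha : AEStronglyMeasurable a volume)
    (hb : AEStronglyMeasurable b volume) (h1 : Integrable fun x => a x ^ 2)
    (h2 : Integrable fun x => b x ^ 2) : Integrable fun x => a x * b x := by
  refine (h1.add h2).mono' (ha.mul hb) (Eventually.of_forall fun x => ?_)
  rw [Real.norm_eq_abs, abs_mul, Pi.add_apply, ← sq_abs (a x), ← sq_abs (b x)]
  nlinarith [sq_nonneg (|a x| - |b x|), abs_nonneg (a x), abs_nonneg (b x)]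

theorem finite_null {S : Set V} (hS : S.Finite) : volume S = 0 := by
  haveI := nontriv (V := V)
  exact hS.measure_zero _

/-- weak Poisson equation for trial functions -/
theorem weak_L2 {S : Set V} (hS : S.Finite) {k : V → ℝ} {k' : V → V} (hk : TrialK S k k')
    {f : V → ℝ} (hf : Integrable f) (hfm : Measurable f)
    (hsq : Integrable fun x => ‖gradV f x‖ ^ 2) :
    Integrable (fun x => ⟪gradV f x, k' x⟫) ∧
      ∫ x, ⟪gradV f x, k' x⟫ = 4 * Real.pi * ∫ x, f x * k x := by
  have hS' : (insert 0 S).Finite := hS.insert 0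
  have hne : (insert (0 : V) S).Nonempty := insert_nonempty _ _
  have hk2 := hk.mono (subset_insert (0 : V) S)
  have hm := gradV_meas hfm (V := V)
  have h := weak_K hS'.isClosed hne (finite_null hS') hk2 (A := gradV f)
    (g := fun x => 4 * Real.pi * f x) hm (hf.const_mul _) (fun u C hu hc => by
      rw [(weak_poisson hf hfm hu hc).2, ← integral_const_mul]
      refine integral_congr_ae (Eventually.of_forall fun x => ?_)
      simp only
      ring)
    (mul_integrable_of_sq hm.norm hk.meas.norm hsq hk.sq)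
    (mul_integrable_of_sq hm.norm (cW_meas _).aestronglyMeasurable hsq (cW_sq_integrable hS' hne))
  refine ⟨h.1, h.2.trans ?_⟩
  rw [← integral_const_mul]
  refine integral_congr_ae (Eventually.of_forall fun x => ?_)
  simp only
  ring

theorem weak_TC {S : Set V} (hS : S.Finite) {k : V → ℝ} {k' : V → V} (hk : TrialK S k k')
    {f : V → ℝ} (hf : TC f) :
    Integrable (fun x => ⟪gradV f x, k' x⟫) ∧
      ∫ x, ⟪gradV f x, k' x⟫ = 4 * Real.pi * ∫ x, f x * k x :=
  weak_L2 hS hk hf.int hf.meas (energy_TC_le hf).1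

/-- the potential of a locally bounded density is a trial function -/
theorem trialK_pot {S : Set V} (hS : S.Finite) {f : V → ℝ} (hf : TC f)
    (hloc : ∀ x, x ∉ S → ∃ δ > 0, ∃ M, ∀ y ∈ ball x δ, |f y| ≤ M) :
    TrialK S (pot f) (gradV f) := by
  have hG : ∀ x, x ∉ S → ∃ δ > 0, (∀ y ∈ ball x δ, HasGradientAt (pot f) (gradV f y) y) ∧
      ContinuousAt (gradV f) x := by
    intro x hx
    obtain ⟨δ, hδ, M, hM⟩ := hloc x hx
    refine ⟨δ / 2, half_pos hδ, fun y hy => ?_, (loc_grad hf.meas hf.int hδ hM).2.2⟩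
    refine (loc_grad hf.meas hf.int (x₀ := y) (half_pos hδ) (M := M) fun w hw => hM w ?_).2.1
    rw [mem_ball] at hy hw ⊢
    have := dist_triangle w y x
    linarith
  refine ⟨⟨tcB f, fun x => ?_⟩, fun ε hε => ?_, hf.pot_continuous, fun x hx => ?_, ?_,
    (energy_TC_le hf).1⟩
  · rw [abs_of_nonneg (pot_nonneg hf.nonneg x)]
    exact hf.pot_le x
  · obtain ⟨r, hr⟩ := hf.pot_decay hε
    refine ⟨r, fun x hx => ?_⟩
    rw [abs_of_nonneg (pot_nonneg hf.nonneg x)]
    exact hr x hx
  · obtain ⟨δ, hδ, h1, h2⟩ := hG x hx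
    exact lipAt_of_gradient hδ h1 h2
  · have hSn : ∀ᵐ x : V, x ∉ S := by
      rw [ae_iff]
      simpa using finite_null hS
    filter_upwards [hSn] with x hx
    obtain ⟨δ, hδ, h1, h2⟩ := hG x hx
    exact h1 x (mem_ball_self hδ)

/-- Dirichlet energy of the potential of a locally bounded density -/
theorem energy_TC {S : Set V} (hS : S.Finite) {f : V → ℝ} (hf : TC f)
    (hloc : ∀ x, x ∉ S → ∃ δ > 0, ∃ M, ∀ y ∈ ball x δ, |f y| ≤ M) :
    ∫ x, ‖gradV f x‖ ^ 2 = 4 * Real.pi * En f f := by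
  have h := (weak_TC hS (trialK_pot hS hf hloc) hf).2
  have e : ∀ x, ⟪gradV f x, gradV f x⟫ = ‖gradV f x‖ ^ 2 := fun x => real_inner_self_eq_norm_sq _
  simp_rw [e] at h
  exact h

theorem locbdd_of_continuousAt {f g : V → ℝ} {x : V} (h : ∀ y, |f y| ≤ g y)
    (hg : ContinuousAt g x) : ∃ δ > 0, ∃ M, ∀ y ∈ ball x δ, |f y| ≤ M := by
  have h1 : ∀ᶠ y in 𝓝 x, g y < g x + 1 := hg.eventually (gt_mem_nhds (by linarith))
  obtain ⟨δ, hδ, h2⟩ := Metric.eventually_nhds_iff_ball.mp h1
  exact ⟨δ, hδ, g x + 1, fun y hy => (h y).trans (h2 y hy).le⟩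

/-! ### Thomson's inequality -/

theorem thomson_BC {S : Set V} (hS : S.Finite) {k : V → ℝ} {k' : V → V} (hk : TrialK S k k')
    {f : V → ℝ} (hf : BC f) :
    ∫ x, f x * k x ≤ (8 * Real.pi)⁻¹ * (∫ x, ‖k' x‖ ^ 2) + 1 / 2 * En f f := by
  obtain ⟨e1, e2⟩ := energy_BC hf
  obtain ⟨w1, w2⟩ := weak_L2 hS hk hf.integrable hf.meas e1
  have h1 : ∫ x, ⟪gradV f x, k' x⟫ ≤ ∫ x, (1 / 2 * ‖gradV f x‖ ^ 2 + 1 / 2 * ‖k' x‖ ^ 2) := by
    refine integral_mono w1 ((e1.const_mul _).add (hk.sq.const_mul _)) fun x => ?_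
    simp only
    have := real_inner_le_norm (gradV f x) (k' x)
    nlinarith [sq_nonneg (‖gradV f x‖ - ‖k' x‖)]
  rw [integral_add (e1.const_mul _) (hk.sq.const_mul _), integral_const_mul, integral_const_mul,
    e2, w2] at h1
  have hpi := Real.pi_pos
  have h2 : ∫ x, f x * k x = (4 * Real.pi)⁻¹ * (4 * Real.pi * ∫ x, f x * k x) := by
    rw [← mul_assoc, inv_mul_cancel₀ (by positivity), one_mul]
  rw [h2]
  refine (mul_le_mul_of_nonneg_left h1 (by positivity)).trans (le_of_eq ?_)
  field_simp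
  ring

theorem En_eq_prod {f g : V → ℝ} (hf : TC f) (hg : TC g) :
    En f g = ∫ p : V × V, f p.1 * (‖p.1 - p.2‖⁻¹ * g p.2) ∂(volume.prod volume) := by
  rw [integral_prod _ (hf.prod_integrable hg)]
  unfold En pot
  refine integral_congr_ae (Eventually.of_forall fun x => ?_)
  simp only
  rw [integral_const_mul]

theorem trunc_TC {f : V → ℝ} (hf : TC f) (n : ℕ) : TC (trunc f n) :=
  (trunc_BC hf.meas hf.nonneg n).toTC (trunc_nonneg hf.nonneg n)

theorem En_trunc_tendsto {f g : V → ℝ} (hf : TC f) (hg : TC g) :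
    Tendsto (fun n => En (trunc f n) (trunc g n)) atTop (𝓝 (En f g)) := by
  have h1 : ∀ n, En (trunc f n) (trunc g n) = ∫ p : V × V,
      trunc f n p.1 * (‖p.1 - p.2‖⁻¹ * trunc g n p.2) ∂(volume.prod volume) := fun n =>
    En_eq_prod (trunc_TC hf n) (trunc_TC hg n)
  simp_rw [h1]
  rw [En_eq_prod hf hg]
  refine tendsto_integral_of_dominated_convergence
    (fun p : V × V => f p.1 * (‖p.1 - p.2‖⁻¹ * g p.2))
    (fun n => ((trunc_TC hf n).prod_integrable (trunc_TC hg n)).aestronglyMeasurable)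
    (hf.prod_integrable hg) (fun n => Eventually.of_forall fun p => ?_)
    (Eventually.of_forall fun p => ?_)
  · have a1 := trunc_nonneg hf.nonneg n p.1
    have a2 := trunc_nonneg hg.nonneg n p.2
    rw [Real.norm_of_nonneg (by positivity)]
    refine mul_le_mul (trunc_le hf.nonneg n _) ?_ (by positivity) (hf.nonneg _)
    exact mul_le_mul_of_nonneg_left (trunc_le hg.nonneg n _) (by positivity)
  · exact (trunc_tendsto f p.1).mul ((trunc_tendsto g p.2).const_mul _)

theorem trunc_mul_tendsto {f k : V → ℝ} (hf : TC f) (hk : Measurable k) {B : ℝ}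
    (hB : ∀ x, |k x| ≤ B) :
    Tendsto (fun n => ∫ x, trunc f n x * k x) atTop (𝓝 (∫ x, f x * k x)) := by
  refine tendsto_integral_of_dominated_convergence (fun x => f x * B)
    (fun n => ((trunc_TC hf n).meas.mul hk).aestronglyMeasurable) (hf.int.mul_const _)
    (fun n => Eventually.of_forall fun x => ?_) (Eventually.of_forall fun x => ?_)
  · rw [norm_mul, Real.norm_of_nonneg (trunc_nonneg hf.nonneg n x), Real.norm_eq_abs]
    exact mul_le_mul (trunc_le hf.nonneg n x) (hB x) (abs_nonneg _) (hf.nonneg x)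
  · exact (trunc_tendsto f x).mul_const _

/-- Thomson's inequality for differences of admissible densities -/
theorem thomson {S : Set V} (hS : S.Finite) {k : V → ℝ} {k' : V → V} (hk : TrialK S k k')
    {σ τ : V → ℝ} (hσ : TC σ) (hτ : TC τ) :
    ∫ x, (σ x - τ x) * k x ≤ (8 * Real.pi)⁻¹ * (∫ x, ‖k' x‖ ^ 2) +
      1 / 2 * (En σ σ - 2 * En σ τ + En τ τ) := by
  obtain ⟨B, hB⟩ := hk.bdd
  have hkm := hk.cont.measurable
  have hbσ : ∀ n, BC (trunc σ n) := fun n => trunc_BC hσ.meas hσ.nonneg n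
  have hbτ : ∀ n, BC (trunc τ n) := fun n => trunc_BC hτ.meas hτ.nonneg n
  have hik : ∀ {f : V → ℝ}, TC f → Integrable (fun x => f x * k x) := fun {f} hf => by
    refine (hf.int.mul_const B).mono' (hf.meas.mul hkm).aestronglyMeasurable
      (Eventually.of_forall fun x => ?_)
    rw [norm_mul, Real.norm_of_nonneg (hf.nonneg x), Real.norm_eq_abs]
    exact mul_le_mul_of_nonneg_left (hB x) (hf.nonneg x)
  have hn : ∀ n, (∫ x, trunc σ n x * k x) - (∫ x, trunc τ n x * k x) ≤
      (8 * Real.pi)⁻¹ * (∫ x, ‖k' x‖ ^ 2) + 1 / 2 * (En (trunc σ n) (trunc σ n) -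
        2 * En (trunc σ n) (trunc τ n) + En (trunc τ n) (trunc τ n)) := by
    intro n
    have h := thomson_BC hS hk ((hbσ n).sub (hbτ n))
    rw [En_sub_left (hbσ n) (hbτ n) ((hbσ n).sub (hbτ n)), En_sub_right (hbσ n) (hbσ n) (hbτ n),
      En_sub_right (hbτ n) (hbσ n) (hbτ n), En_symm (hbτ n) (hbσ n)] at h
    have e : ∫ x, (trunc σ n x - trunc τ n x) * k x =
        (∫ x, trunc σ n x * k x) - ∫ x, trunc τ n x * k x := by
      rw [← integral_sub (hik (trunc_TC hσ n)) (hik (trunc_TC hτ n))]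
      refine integral_congr_ae (Eventually.of_forall fun x => ?_)
      simp only
      ring
    rw [e] at h
    refine h.trans (le_of_eq ?_)
    ring
  have e2 : ∫ x, (σ x - τ x) * k x = (∫ x, σ x * k x) - ∫ x, τ x * k x := by
    rw [← integral_sub (hik hσ) (hik hτ)]
    refine integral_congr_ae (Eventually.of_forall fun x => ?_)
    simp only
    ring
  rw [e2]
  refine le_of_tendsto_of_tendsto' ((trunc_mul_tendsto hσ hkm hB).sub
    (trunc_mul_tendsto hτ hkm hB)) (Tendsto.const_add _ (Tendsto.const_mul _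
    (((En_trunc_tendsto hσ hσ).sub ((En_trunc_tendsto hσ hτ).const_mul 2)).add
      (En_trunc_tendsto hτ hτ)))) hn

end dim3

end Pool.Agent.TF
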