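import Pool.Agent.Lib.MP_9cf0c9_mp.CalibAlg
import Pool.Agent.Lib.MP_9cf0c9_mp.CalibInt
import Pool.Agent.Lib.MP_9cf0c9_mp.Trial

/-! The calibration criterion for the solution: a pointwise inequality gives `0 ≤ Vtr`. -/

set_option linter.unusedSectionVars false
set_option linter.unusedVariables false
set_option linter.style.haveILetI false

namespace Pool.Agent.TF
open MeasureTheory Set Metric Filter Topology
open scoped ENNReal NNReal RealInnerProductSpace Gradient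

variable {ι : Type*} [Fintype ι]

theorem locInt_of_integrable {E : Type*} [NormedAddCommGroup E] (R : ι → X) {f : X → E}
    (hf : Integrable f) : Flux.LocInt R f := fun _ _ _ => hf.integrableOn

theorem gVpt_meas (z : ι → ℝ) (R : ι → X) : Measurable (gVpt z R) := by
  unfold gVpt
  exact Finset.measurable_sum _ fun i _ => (gradP_meas (R i)).const_smul (z i)

/-- the weak equation for the gradient of `V - pot ρ` -/
theorem weak_sol (z : ι → ℝ) (R : ι → X) {ρ : X → ℝ} (hρ : TC ρ) {u : X → ℝ} {C : ℝ≥0}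
    (hu : LipschitzWith C u) (hc : HasCompactSupport u) :
    Integrable (fun x => ⟪gVpt z R x - gradV ρ x, ∇ u x⟫) ∧
      ∫ x, ⟪gVpt z R x - gradV ρ x, ∇ u x⟫ =
        4 * Real.pi * (∑ i, z i * u (R i)) - 4 * Real.pi * ∫ x, ρ x * u x := by
  obtain ⟨w1, w2⟩ := weak_poisson hρ.int hρ.meas hu hc
  obtain ⟨r, hr0, hr⟩ := exists_radius hc
  have hgm : Measurable fun x => ∇ u x := measurable_gradient u
  have hg0 : ∀ x, x ∉ ball (0 : X) r → ∇ u x = 0 := by
    intro x hx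
    have hx' : x ∉ tsupport u := fun h => hx (hr h)
    have h1 : u =ᶠ[𝓝 x] fun _ => 0 := by
      have := notMem_tsupport_iff_eventuallyEq.mp hx'
      exact this
    rw [h1.gradient_eq]
    exact gradient_const x 0
  have hsq : Integrable fun x => ‖∇ u x‖ ^ 2 := by
    have hb : Integrable ((ball (0 : X) r).indicator fun _ : X => ((C : ℝ)) ^ 2) :=
      (integrable_indicator_iff measurableSet_ball).mpr
        (integrableOn_const measure_ball_lt_top.ne)
    refine hb.mono' (hgm.norm.pow_const 2).aestronglyMeasurable (Eventually.of_forall fun x => ?_)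
    rw [Real.norm_of_nonneg (by positivity)]
    by_cases hx : x ∈ ball (0 : X) r
    · rw [indicator_of_mem hx]
      exact pow_le_pow_left₀ (norm_nonneg _) (gradient_bound hu x) 2
    · rw [indicator_of_notMem hx, hg0 x hx]
      simp
  have hK : TrialK (∅ : Set X) u (fun x => ∇ u x) := by
    refine ⟨?_, ?_, hu.continuous, fun x _ => lipAt_of_lip hu x, ?_, hsq⟩
    · obtain ⟨B, hB⟩ := hc.exists_bound_of_continuous hu.continuous
      exact ⟨B, fun x => by rw [← Real.norm_eq_abs]; exact hB x⟩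
    · intro ε hε
      refine ⟨r, fun x hx => ?_⟩
      have hx' : x ∉ tsupport u := fun h => by
        have := hr h
        rw [mem_ball_zero_iff] at this
        linarith
      rw [image_eq_zero_of_notMem_tsupport hx', abs_zero]
      exact hε
    · filter_upwards [hu.ae_differentiableAt] with x hx
      exact hx.hasGradientAt
  have hb : ∀ᵐ x : X, ‖∇ u x‖ ≤ (C : ℝ) * (1 + ∑ i, (‖x - R i‖⁻¹) ^ (3 / 4 : ℝ)) := by
    refine Eventually.of_forall fun x => (gradient_bound hu x).trans ?_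
    have h1 : 0 ≤ ∑ i, (‖x - R i‖⁻¹) ^ (3 / 4 : ℝ) :=
      Finset.sum_nonneg fun i _ => by positivity
    have h2 : (0 : ℝ) ≤ C := C.coe_nonneg
    nlinarith
  obtain ⟨p1, p2⟩ := inner_gVpt (z := z) (R := R) finite_empty hK hb
  have e : ∀ x, ⟪gVpt z R x - gradV ρ x, ∇ u x⟫ = ⟪gVpt z R x, ∇ u x⟫ - ⟪gradV ρ x, ∇ u x⟫ :=
    fun x => inner_sub_left _ _ _
  constructor
  · exact (p1.sub w1).congr (Eventually.of_forall fun x => (e x).symm)
  · simp_rw [e]
    rw [integral_sub p1 w1, p2, w2]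

/-- the gradient of the potential of the nuclei is locally integrable off the nuclei -/
theorem gVpt_locInt (z : ι → ℝ) (R : ι → X) : Flux.LocInt R (gVpt z R) := by
  intro K hK hR
  have hP : ∀ i, ContinuousOn (gradP (R i)) K := by
    intro i
    unfold gradP
    have hne : ∀ x ∈ K, ‖x - R i‖ ^ 3 ≠ 0 := fun x hx => by
      have : x - R i ≠ 0 := sub_ne_zero.mpr fun h => hR i (h ▸ hx)
      exact pow_ne_zero _ (norm_ne_zero_iff.mpr this)
    have h1 : ContinuousOn (fun x : X => ‖x - R i‖ ^ 3) K := by fun_prop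
    have h2 : ContinuousOn (fun x : X => x - R i) K := by fun_prop
    exact ((h1.inv₀ hne).smul h2).neg
  have hc : ContinuousOn (gVpt z R) K := by
    unfold gVpt
    exact continuousOn_finsetSum _ fun i _ => (hP i).const_smul (z i)
  exact hc.integrableOn_compact hK

/-- the gradient of the potential of the solution is locally integrable off the nuclei -/
theorem gradV_locInt {z : ι → ℝ} (hz : ∀ i, 0 ≤ z i) (R : ι → X) {φ₀ : ℝ} (hφ : 0 < φ₀)
    {ρ : X → ℝ} (hρ : TC ρ) (heq : ∀ x, ρ x = tf (Vpt z R x - pot ρ x - φ₀)) :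
    Flux.LocInt R (gradV ρ) := by
  obtain ⟨hT, -, -⟩ := sol_facts hz R hφ hρ heq
  intro K hK hR
  have h1 : IntegrableOn (fun x => ‖gradV ρ x‖ ^ 2 + 1) K :=
    hT.sq.integrableOn.add (integrableOn_const hK.measure_lt_top.ne)
  refine h1.mono' hT.meas.restrict (Eventually.of_forall fun x => ?_)
  nlinarith [sq_nonneg (‖gradV ρ x‖ - 1), norm_nonneg (gradV ρ x)]

/-- **the calibration criterion** -/
theorem Vtr_nonneg_of_calib {z : ι → ℝ} (hz : ∀ i, 0 ≤ z i) {R : ι → X}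
    (hR : Function.Injective R) {φ₀ : ℝ} (hφ : 0 < φ₀)
    {ρ : X → ℝ} (hρ : TC ρ) (heq : ∀ x, ρ x = tf (Vpt z R x - pot ρ x - φ₀))
    {S : Set X} (hS : S.Finite) {k : X → ℝ} {k' : X → X} (hk : TrialK S k k') {C : ℝ}
    (hkb : ∀ᵐ x : X, ‖k' x‖ ≤ C * (1 + ∑ i, (‖x - R i‖⁻¹) ^ (3 / 4 : ℝ)))
    {H D : X → ℝ} {H' A : X → X}
    (hH : Flux.LocLip R H) (hH' : ∀ᵐ x : X, HasGradientAt H (H' x) x)
    (hA : Flux.LocInt R A) (hD : Flux.LocInt R D)
    (hflux : ∀ ζ, Flux.TestFn R ζ → -∫ x, ⟪A x, ∇ ζ x⟫ ≤ ∫ x, ζ x * D x)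
    (hpt : ∀ᵐ x : X, 0 ≤ Fcal φ₀ z R ρ k k' x - ⟪H' x, gVpt z R x - gradV ρ x⟫ -
      4 * Real.pi * (ρ x * H x) - D x)
    (hnuc : ∀ i, ∀ δ : ℝ, 0 < δ → ∃ η : ℝ, 0 < η ∧ ∀ᵐ x : X, ‖x - R i‖ < η →
      4 * Real.pi * ‖x - R i‖ ^ 2 * ⟪H x • (gVpt z R x - gradV ρ x) + A x,
        ‖x - R i‖⁻¹ • (x - R i)⟫ ≤ 2 * z i * (Vpt z R (R i) + k (R i)) + δ)
    (hinf : ∀ δ : ℝ, 0 < δ → ∃ N : ℝ, ∀ᵐ x : X, N < ‖x‖ →
      -δ ≤ 4 * Real.pi * ‖x‖ ^ 2 * ⟪H x • (gVpt z R x - gradV ρ x) + A x, ‖x‖⁻¹ • x⟫) :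
    0 ≤ Vtr φ₀ z R ρ k ((8 * Real.pi)⁻¹ * ∫ x, ‖k' x‖ ^ 2) := by
  obtain ⟨hF, hV⟩ := calib_alg hz R hφ hρ heq hS hk hkb
  rw [hV]
  refine Flux.calib_int hR (ρ := ρ) (H := H) (D := D) (F := Fcal φ₀ z R ρ k k')
    (ψ' := fun x => gVpt z R x - gradV ρ x) (H' := H') (A := A)
    (c := fun i => 2 * z i * (Vpt z R (R i) + k (R i)))
    (locInt_of_integrable R hρ.int)
    (fun K hK h => (gVpt_locInt z R K hK h).sub (gradV_locInt hz R hφ hρ heq K hK h))
    ?_ hH hH' hA hD hF hflux hpt hnuc hinf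
  intro u C' hu hc hoff
  rw [(weak_sol z R hρ hu hc).2]
  have h0 : ∀ i, u (R i) = 0 := fun i => (hoff i).self_of_nhds
  simp only [h0, mul_zero, Finset.sum_const_zero, zero_sub]
  ring

end Pool.Agent.TF
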