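import Mathlib

/-! Flux inequality on star shaped sets, without a surface integral: if `g ≥ 0` on a star
shaped measurable set `C` then the integral over `C` of `n g + y · ∇ g` is nonnegative.
The divergence enters only through the fundamental theorem of calculus on rays. -/

set_option linter.unusedSectionVars false
set_option linter.unusedVariables false

namespace Pool.Agent.TF
open MeasureTheory Set Metric Filter Topology Module
open scoped ENNReal NNReal RealInnerProductSpace Pointwise

variable {V : Type*} [NormedAddCommGroup V] [InnerProductSpace ℝ V] [FiniteDimensional ℝ V]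
  [MeasurableSpace V] [BorelSpace V]

/-- star shaped about the origin -/
def Star0 (C : Set V) : Prop := ∀ y ∈ C, ∀ t : ℝ, 0 ≤ t → t ≤ 1 → t • y ∈ C

theorem Star0.smul_subset {C : Set V} (hC : Star0 C) {t : ℝ} (h0 : 0 ≤ t) (h1 : t ≤ 1) :
    t • C ⊆ C := by
  rintro _ ⟨y, hy, rfl⟩
  exact hC y hy t h0 h1

theorem Star0.inter_ball {C : Set V} (hC : Star0 C) (r : ℝ) : Star0 (C ∩ ball 0 r) := by
  rintro y ⟨hy, hr⟩ t h0 h1
  refine ⟨hC y hy t h0 h1, ?_⟩
  rw [mem_ball_zero_iff] at hr ⊢
  rw [norm_smul, Real.norm_of_nonneg h0]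
  exact (mul_le_of_le_one_left (norm_nonneg _) h1).trans_lt hr

theorem Star0.null {C : Set V} (hCm : MeasurableSet C) (hC : Star0 C) :
    volume {y : V | y ∈ C ∧ ∀ t : ℝ, 0 < t → t < 1 → t⁻¹ • y ∉ C} = 0 := by
  set B : Set V := {y : V | y ∈ C ∧ ∀ t : ℝ, 0 < t → t < 1 → t⁻¹ • y ∉ C} with hB
  have hcov : B ⊆ ⋃ m : ℕ, (B ∩ ball 0 (m : ℝ)) := by
    intro y hy
    obtain ⟨m, hm⟩ := exists_nat_gt ‖y‖
    exact mem_iUnion.2 ⟨m, hy, by rwa [mem_ball_zero_iff]⟩
  refine measure_mono_null hcov (measure_iUnion_null fun m => ?_)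
  set D : Set V := C ∩ ball 0 (m : ℝ) with hD
  have hDs : Star0 D := hC.inter_ball _
  have hDm : MeasurableSet D := hCm.inter measurableSet_ball
  have hDf : volume D ≠ ∞ := ((measure_mono inter_subset_right).trans_lt measure_ball_lt_top).ne
  have key : ∀ t : ℝ, 0 < t → t < 1 →
      volume (B ∩ ball 0 (m : ℝ)) ≤ ENNReal.ofReal ((1 - t ^ finrank ℝ V) * volume.real D) := by
    intro t h0 h1
    have hsub : B ∩ ball 0 (m : ℝ) ⊆ D \ (t • D) := by
      rintro y ⟨⟨hyC, hyt⟩, hym⟩
      refine ⟨⟨hyC, hym⟩, ?_⟩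
      rintro ⟨c, hc, hcy⟩
      have hcy' : t • c = y := hcy
      apply hyt t h0 h1
      rw [← hcy', smul_smul, inv_mul_cancel₀ h0.ne', one_smul]
      exact hc.1
    refine (measure_mono hsub).trans ?_
    have hm : MeasurableSet (t • D) := hDm.const_smul_of_ne_zero h0.ne'
    rw [measure_sdiff (hDs.smul_subset h0.le h1.le) hm.nullMeasurableSet
      ((measure_mono (hDs.smul_subset h0.le h1.le)).trans_lt (lt_top_iff_ne_top.2 hDf)).ne,
      Measure.addHaar_smul, abs_of_nonneg (by positivity), Measure.real,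
      ENNReal.ofReal_mul (sub_nonneg.2 (pow_le_one₀ h0.le h1.le)), ENNReal.ofReal_toReal hDf,
      ENNReal.ofReal_sub _ (by positivity), ENNReal.ofReal_one, ENNReal.sub_mul, one_mul]
    intro _ _
    exact hDf
  have hlim : Tendsto (fun t : ℝ => ENNReal.ofReal ((1 - t ^ finrank ℝ V) * volume.real D))
      (𝓝[<] 1) (𝓝 0) := by
    have : Tendsto (fun t : ℝ => ENNReal.ofReal ((1 - t ^ finrank ℝ V) * volume.real D))
      (𝓝 1) (𝓝 (ENNReal.ofReal ((1 - 1 ^ finrank ℝ V) * volume.real D))) := by
      refine (ENNReal.continuous_ofReal.comp ?_).tendsto 1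
      fun_prop
    simp only [one_pow, sub_self, zero_mul, ENNReal.ofReal_zero] at this
    exact this.mono_left nhdsWithin_le_nhds
  refine le_antisymm (ge_of_tendsto hlim ?_) zero_le
  have h01 : ∀ᶠ t in 𝓝[<] (1 : ℝ), 0 < t ∧ t < 1 := by
    have := Ioo_mem_nhdsLT (show (0 : ℝ) < 1 by norm_num)
    filter_upwards [this] with t ht using ⟨ht.1, ht.2⟩
  filter_upwards [h01] with t ht using key t ht.1 ht.2

/-- product integrability of the dilated function -/
theorem Star0.prod_integrable {C : Set V} {F : V → ℝ} (hFm : Measurable F)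
    (hF : Integrable F) {s : ℝ} (hs : 0 < s) :
    Integrable (fun p : V × ℝ => p.2 ^ finrank ℝ V * p.2⁻¹ * F (p.2 • p.1))
      ((volume.restrict C).prod (volume.restrict (Ioc s 1))) := by
  set n := finrank ℝ V with hn
  have hjm : Measurable (fun p : V × ℝ => p.2 ^ n * p.2⁻¹ * F (p.2 • p.1)) :=
    ((measurable_snd.pow_const n).mul measurable_snd.inv).mul
      (hFm.comp (measurable_snd.smul measurable_fst))
  have hslice : ∀ t : ℝ, 0 < t → Integrable (fun y => F (t • y)) :=
    fun t ht => (integrable_comp_smul_iff volume F ht.ne').2 hF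
  have hbd : ∀ t : ℝ, 0 < t → ∫ y in C, ‖t ^ n * t⁻¹ * F (t • y)‖ ≤ t⁻¹ * ∫ y, ‖F y‖ := by
    intro t ht
    have e1 : ∫ y in C, ‖t ^ n * t⁻¹ * F (t • y)‖ ≤ ∫ y, ‖t ^ n * t⁻¹ * F (t • y)‖ :=
      setIntegral_le_integral ((hslice t ht).const_mul _).norm
        (Eventually.of_forall fun y => norm_nonneg _)
    have e2 : ∫ y, ‖t ^ n * t⁻¹ * F (t • y)‖ = t⁻¹ * ∫ y, ‖F y‖ := by
      have : (fun y => ‖t ^ n * t⁻¹ * F (t • y)‖) = fun y => (t ^ n * t⁻¹) * ‖F (t • y)‖ := by
        funext y
        rw [norm_mul, Real.norm_of_nonneg (by positivity)]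
      rw [this, integral_const_mul]
      have h5 := Measure.integral_comp_smul (volume : Measure V) (fun y => ‖F y‖) t
      rw [h5, smul_eq_mul, abs_of_nonneg (by positivity), ← hn]
      field_simp
    exact e1.trans e2.le
  rw [integrable_prod_iff' hjm.aestronglyMeasurable]
  constructor
  · filter_upwards [ae_restrict_mem measurableSet_Ioc] with t ht
    exact (((hslice t (hs.trans ht.1)).const_mul _).restrict)
  · refine Integrable.mono' (g := fun t => s⁻¹ * ∫ y, ‖F y‖) (integrable_const _) ?_ ?_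
    · exact (hjm.norm.stronglyMeasurable.integral_prod_left' (μ := volume.restrict C)).aestronglyMeasurable
    · filter_upwards [ae_restrict_mem measurableSet_Ioc] with t ht
      rw [Real.norm_of_nonneg (integral_nonneg fun _ => norm_nonneg _)]
      refine (hbd t (hs.trans ht.1)).trans ?_
      refine mul_le_mul_of_nonneg_right ?_ (integral_nonneg fun _ => norm_nonneg _)
      exact inv_anti₀ hs ht.1.le

/-- for almost every `y` the dilated function is integrable on the ray, away from the origin -/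
theorem Star0.ray_integrable {C : Set V} (hCm : MeasurableSet C) (hC : Star0 C) {F : V → ℝ}
    (hFm : Measurable F) (hF : IntegrableOn F C) :
    ∀ᵐ y ∂volume.restrict C, ∀ s : ℝ, 0 < s → s < 1 →
      IntervalIntegrable (fun t => t ^ finrank ℝ V * t⁻¹ * F (t • y)) volume s 1 := by
  set n := finrank ℝ V with hn
  have hF'm : Measurable (C.indicator F) := hFm.indicator hCm
  have hF'i : Integrable (C.indicator F) := (integrable_indicator_iff hCm).2 hF
  have h1 : ∀ᵐ y ∂volume.restrict C, ∀ m : ℕ,
      Integrable (fun t => t ^ n * t⁻¹ * C.indicator F (t • y))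
        (volume.restrict (Ioc (1 / ((m : ℝ) + 1)) 1)) := by
    rw [ae_all_iff]
    intro m
    have := Star0.prod_integrable (C := C) hF'm hF'i (s := 1 / ((m : ℝ) + 1)) (by positivity)
    exact this.prod_right_ae
  filter_upwards [h1, ae_restrict_mem hCm] with y hy hyC s hs hs1
  obtain ⟨m, hm⟩ := exists_nat_one_div_lt hs
  rw [intervalIntegrable_iff_integrableOn_Ioc_of_le hs1.le]
  have h2 : IntegrableOn (fun t => t ^ n * t⁻¹ * C.indicator F (t • y)) (Ioc s 1) :=
    (hy m).mono_measure (Measure.restrict_mono (Ioc_subset_Ioc_left hm.le) le_rfl)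
  refine h2.congr_fun (fun t ht => ?_) measurableSet_Ioc
  simp only
  rw [indicator_of_mem (hC y hyC t (hs.le.trans ht.1.le) ht.2)]

/-- the flux inequality on a star shaped set -/
theorem Star0.flux_nonneg {C : Set V} (hCm : MeasurableSet C) (hC : Star0 C) {g F : V → ℝ}
    (hg0 : ∀ y ∈ C, 0 ≤ g y) (hg : IntegrableOn g C) (hFm : Measurable F)
    (hF : IntegrableOn F C) {s0 : ℝ} (hs0 : 0 < s0) (hs1 : s0 < 1)
    (hFTC : ∀ᵐ y ∂volume.restrict C, ∀ s : ℝ, s0 < s → s < 1 →
      g y - s ^ finrank ℝ V * g (s • y) ≤ ∫ t in s..1, t ^ finrank ℝ V * t⁻¹ * F (t • y)) :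
    0 ≤ ∫ y in C, F y := by
  set n := finrank ℝ V with hn
  set F' : V → ℝ := C.indicator F with hF'
  have hF'm : Measurable F' := hFm.indicator hCm
  have hF'i : Integrable F' := (integrable_indicator_iff hCm).2 hF
  have hF'C : ∫ y, F' y = ∫ y in C, F y := integral_indicator hCm
  -- the dilated integrals
  set Ψ : ℝ → ℝ := fun t => ∫ y in C, F' (t • y) with hΨ
  have hΨeq : ∀ t : ℝ, 0 < t → Ψ t = (t ^ n)⁻¹ * ∫ y in t • C, F' y := by
    intro t ht
    have := Measure.setIntegral_comp_smul_of_pos (volume : Measure V) F' C ht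
    simpa [hΨ, smul_eq_mul] using this
  have hlim : Tendsto Ψ (𝓝[<] 1) (𝓝 (∫ y in C, F y)) := by
    have h1 : Tendsto (fun t : ℝ => ∫ y in t • C, F' y) (𝓝[<] 1) (𝓝 (∫ y, F' y)) := by
      have e : ∀ᶠ t : ℝ in 𝓝[<] 1, ∫ y in t • C, F' y = ∫ y, (t • C).indicator F' y := by
        filter_upwards [Ioo_mem_nhdsLT (show (0 : ℝ) < 1 by norm_num)] with t ht
        rw [integral_indicator (hCm.const_smul_of_ne_zero ht.1.ne')]
      refine Tendsto.congr' (EventuallyEq.symm e) ?_
      refine tendsto_integral_filter_of_dominated_convergence (fun y => ‖F' y‖) ?_ ?_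
        hF'i.norm ?_
      · filter_upwards [Ioo_mem_nhdsLT (show (0 : ℝ) < 1 by norm_num)] with t ht
        exact (hF'm.indicator (hCm.const_smul_of_ne_zero ht.1.ne')).aestronglyMeasurable
      · exact Eventually.of_forall fun t => Eventually.of_forall fun y =>
          norm_indicator_le_norm_self _ _
      · have hnull := hC.null hCm
        have hae : ∀ᵐ y : V, ¬ (y ∈ C ∧ ∀ t : ℝ, 0 < t → t < 1 → t⁻¹ • y ∉ C) := by
          rw [ae_iff]
          simpa using hnull
        filter_upwards [hae] with y hy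
        by_cases hyC : y ∈ C
        · have : ∃ t : ℝ, 0 < t ∧ t < 1 ∧ t⁻¹ • y ∈ C := by
            by_contra hcon
            push Not at hcon
            exact hy ⟨hyC, fun t h0 h1 => hcon t h0 h1⟩
          obtain ⟨t0, h0, h1, hmem⟩ := this
          have hev : ∀ᶠ t : ℝ in 𝓝[<] 1, (t • C).indicator F' y = F' y := by
            filter_upwards [Ioo_mem_nhdsLT h1] with t ht
            have htpos : 0 < t := h0.trans ht.1
            refine indicator_of_mem ?_ _
            refine ⟨(t0 / t) • (t0⁻¹ • y), hC _ hmem _ (by positivity)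
              ((div_le_one htpos).2 ht.1.le), ?_⟩
            show t • ((t0 / t) • (t0⁻¹ • y)) = y
            rw [smul_smul, smul_smul]
            have : t * (t0 / t * t0⁻¹) = 1 := by
              field_simp
            have h2 : t * (t0 / t) * t0⁻¹ = 1 := by
              field_simp
            first
              | rw [this, one_smul]
              | rw [h2, one_smul]
          exact tendsto_const_nhds.congr' (EventuallyEq.symm hev)
        · have hz : F' y = 0 := indicator_of_notMem hyC _
          have : ∀ t : ℝ, (t • C).indicator F' y = 0 := by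
            intro t
            by_cases hm : y ∈ t • C
            · rw [indicator_of_mem hm, hz]
            · rw [indicator_of_notMem hm]
          simp only [this, hz]
          exact tendsto_const_nhds
    have h2 : Tendsto (fun t : ℝ => (t ^ n)⁻¹) (𝓝[<] 1) (𝓝 1) := by
      have h3 : Tendsto (fun t : ℝ => (t ^ n)⁻¹) (𝓝 1) (𝓝 ((1 ^ n)⁻¹)) :=
        ((continuous_pow n).tendsto (1 : ℝ)).inv₀ (by simp)
      simp only [one_pow, inv_one] at h3
      exact h3.mono_left nhdsWithin_le_nhds
    have h4 := h2.mul h1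
    rw [one_mul, hF'C] at h4
    refine h4.congr' ?_
    filter_upwards [Ioo_mem_nhdsLT (show (0 : ℝ) < 1 by norm_num)] with t ht
    exact (hΨeq t ht.1).symm
  -- suppose the integral is negative
  by_contra hneg
  push Not at hneg
  set I : ℝ := ∫ y in C, F y with hI
  have hev : ∀ᶠ t in 𝓝[<] (1 : ℝ), Ψ t < I / 2 := by
    refine hlim.eventually (gt_mem_nhds ?_)
    linarith
  obtain ⟨a, ha1, ha⟩ : ∃ a : ℝ, a < 1 ∧ ∀ t ∈ Ioo a 1, Ψ t < I / 2 := by
    obtain ⟨a, ha, hsub⟩ := (mem_nhdsLT_iff_exists_Ioo_subset' (show (0 : ℝ) < 1 by norm_num)).1 hev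
    exact ⟨a, ha, fun t ht => hsub ht⟩
  obtain ⟨s, hsa, hs1'⟩ := exists_between (max_lt ha1 hs1)
  have hs0' : s0 < s := (le_max_right _ _).trans_lt hsa
  have hspos : 0 < s := hs0.trans hs0'
  have has : a < s := (le_max_left _ _).trans_lt hsa
  -- Fubini
  have hslice : ∀ t : ℝ, 0 < t → Integrable (fun y => F' (t • y)) :=
    fun t ht => (integrable_comp_smul_iff volume F' ht.ne').2 hF'i
  have hprod : Integrable (fun p : V × ℝ => p.2 ^ n * p.2⁻¹ * F' (p.2 • p.1))
      ((volume.restrict C).prod (volume.restrict (Ioc s 1))) :=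
    Star0.prod_integrable hF'm hF'i hspos
  have hfub : ∫ y in C, (∫ t in s..1, t ^ n * t⁻¹ * F' (t • y)) =
      ∫ t in s..1, t ^ n * t⁻¹ * Ψ t := by
    have h6 := integral_integral_swap (f := fun (y : V) (t : ℝ) => t ^ n * t⁻¹ * F' (t • y)) hprod
    simp only [intervalIntegral.integral_of_le hs1'.le]
    rw [h6]
    refine integral_congr_ae (Eventually.of_forall fun t => ?_)
    simp only [hΨ]
    rw [integral_const_mul]
  -- the left hand side is nonnegative
  have hpos : 0 ≤ ∫ y in C, (∫ t in s..1, t ^ n * t⁻¹ * F' (t • y)) := by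
    have hgi : IntegrableOn (fun y => s ^ n * g (s • y)) C := by
      have h7 : Integrable (fun y => (C.indicator g) (s • y)) :=
        (integrable_comp_smul_iff volume (C.indicator g) hspos.ne').2
          ((integrable_indicator_iff hCm).2 hg)
      refine ((h7.const_mul (s ^ n)).restrict (s := C)).congr ?_
      filter_upwards [ae_restrict_mem hCm] with y hy
      rw [indicator_of_mem (hC y hy s hspos.le hs1'.le)]
    have h8 : ∫ y in C, s ^ n * g (s • y) ≤ ∫ y in C, g y := by
      rw [integral_const_mul]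
      have h9 := Measure.setIntegral_comp_smul_of_pos (volume : Measure V) g C hspos
      rw [h9, smul_eq_mul, ← mul_assoc, mul_inv_cancel₀ (by positivity), one_mul]
      refine setIntegral_mono_set hg ?_ (hC.smul_subset hspos.le hs1'.le).eventuallyLE
      filter_upwards [ae_restrict_mem hCm] with y hy using hg0 y hy
    have hLi : IntegrableOn (fun y => g y - s ^ n * g (s • y)) C := hg.sub hgi
    have hRi : IntegrableOn (fun y => ∫ t in s..1, t ^ n * t⁻¹ * F' (t • y)) C := by
      have := hprod.integral_prod_left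
      simp only [intervalIntegral.integral_of_le hs1'.le]
      exact this
    calc (0 : ℝ) ≤ ∫ y in C, (g y - s ^ n * g (s • y)) := by
          rw [integral_sub hg hgi]; linarith
      _ ≤ _ := by
          refine integral_mono_ae hLi hRi ?_
          filter_upwards [hFTC, ae_restrict_mem hCm] with y hy hyC
          refine (hy s hs0' hs1').trans (le_of_eq ?_)
          refine intervalIntegral.integral_congr fun t ht => ?_
          rw [uIcc_of_le hs1'.le] at ht
          simp only [hF']
          rw [indicator_of_mem (hC y hyC t (hspos.le.trans ht.1) ht.2)]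
  rw [hfub] at hpos
  -- but it is negative
  have hΨint : IntervalIntegrable (fun t => t ^ n * t⁻¹ * Ψ t) volume s 1 := by
    rw [intervalIntegrable_iff_integrableOn_Ioc_of_le hs1'.le]
    have := hprod.integral_prod_right
    refine this.congr (Eventually.of_forall fun t => ?_)
    simp only [hΨ]
    rw [integral_const_mul]
  have hneg' : ∫ t in s..1, t ^ n * t⁻¹ * Ψ t < 0 := by
    have hlt : ∀ t ∈ Ioo s 1, t ^ n * t⁻¹ * Ψ t < 0 := by
      intro t ht
      have h10 : Ψ t < 0 := (ha t ⟨has.trans ht.1, ht.2⟩).trans (by linarith)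
      have htp : 0 < t := hspos.trans ht.1
      exact mul_neg_of_pos_of_neg (by positivity) h10
    have h11 := intervalIntegral.intervalIntegral_pos_of_pos_on (f := fun t => -(t ^ n * t⁻¹ * Ψ t))
      hΨint.neg (fun t ht => neg_pos.2 (hlt t ht)) hs1'
    rw [intervalIntegral.integral_neg] at h11
    linarith
  linarith

/-- the flux inequality on a star shaped set, with the divergence given by one sided
derivatives on the rays: `F ≥ n g + D`, `D` = derivative of `g` along `y`. -/
theorem Star0.flux_nonneg' [Nontrivial V] {C : Set V} (hCm : MeasurableSet C) (hC : Star0 C) {g F D : V → ℝ}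
    (hg0 : ∀ y ∈ C, 0 ≤ g y) (hg : IntegrableOn g C) (hFm : Measurable F)
    (hF : IntegrableOn F C)
    (hcont : ∀ y ∈ C, y ≠ 0 → ContinuousOn (fun t : ℝ => g (t • y)) (Ioc 0 1))
    (hder : ∀ y ∈ C, y ≠ 0 → ∀ t : ℝ, 0 < t → t < 1 →
      HasDerivWithinAt (fun t : ℝ => g (t • y)) (t⁻¹ * D (t • y)) (Ioi t) t)
    (hFD : ∀ y ∈ C, y ≠ 0 → finrank ℝ V * g y + D y ≤ F y) :
    0 ≤ ∫ y in C, F y := by
  set n := finrank ℝ V with hn
  refine hC.flux_nonneg hCm hg0 hg hFm hF (s0 := 1 / 2) (by norm_num) (by norm_num) ?_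
  have hne : ∀ᵐ y ∂volume.restrict C, y ≠ 0 := by
    refine ae_restrict_of_ae ?_
    have : ({(0 : V)}ᶜ : Set V) ∈ ae (volume : Measure V) :=
      compl_mem_ae_iff.2 (measure_singleton 0)
    filter_upwards [this] with y hy using hy
  filter_upwards [hne, hC.ray_integrable hCm hFm hF, ae_restrict_mem hCm] with y hy0 hint hyC s hs hs1
  have hs0 : 0 < s := lt_trans (by norm_num) hs
  have h1 := intervalIntegral.sub_le_integral_of_hasDeriv_right_of_le
    (g := fun t : ℝ => t ^ n * g (t • y))
    (g' := fun t : ℝ => (n * t ^ (n - 1)) * g (t • y) + t ^ n * (t⁻¹ * D (t • y)))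
    (φ := fun t : ℝ => t ^ n * t⁻¹ * F (t • y)) hs1.le ?_ ?_ ?_ ?_
  · simpa using h1
  · exact (continuous_pow n).continuousOn.mul
      ((hcont y hyC hy0).mono fun t ht => ⟨hs0.trans_le ht.1, ht.2⟩)
  · intro t ht
    exact ((hasDerivAt_pow n t).hasDerivWithinAt).mul
      (hder y hyC hy0 t (hs0.trans ht.1) ht.2)
  · have := hint s hs0 hs1
    rw [intervalIntegrable_iff_integrableOn_Icc_of_le hs1.le] at this
    exact this
  · intro t ht
    have htp : 0 < t := hs0.trans ht.1
    have hmem : t • y ∈ C := hC y hyC t htp.le ht.2.le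
    have hne' : t • y ≠ 0 := smul_ne_zero htp.ne' hy0
    have h2 := mul_le_mul_of_nonneg_left (hFD _ hmem hne')
      (show (0 : ℝ) ≤ t ^ n * t⁻¹ by positivity)
    refine le_trans (le_of_eq ?_) h2
    rcases Nat.eq_zero_or_pos n with h0 | hpos
    · rw [h0]; simp
    · obtain ⟨m, hm⟩ : ∃ m, n = m + 1 := ⟨n - 1, by omega⟩
      rw [hm]
      simp only [Nat.add_sub_cancel]
      field_simp
      ring

/-- translated form: a set star shaped about `P` -/
theorem star_flux_nonneg [Nontrivial V] (P : V) {C : Set V} (hCm : MeasurableSet C)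
    (hC : Star0 ((fun y => P + y) ⁻¹' C)) {g F D : V → ℝ}
    (hg0 : ∀ x ∈ C, 0 ≤ g x) (hg : IntegrableOn g C) (hFm : Measurable F)
    (hF : IntegrableOn F C)
    (hcont : ∀ x ∈ C, x ≠ P → ContinuousOn (fun t : ℝ => g (P + t • (x - P))) (Ioc 0 1))
    (hder : ∀ x ∈ C, x ≠ P → ∀ t : ℝ, 0 < t → t < 1 →
      HasDerivWithinAt (fun t : ℝ => g (P + t • (x - P))) (t⁻¹ * D (P + t • (x - P))) (Ioi t) t)
    (hFD : ∀ x ∈ C, x ≠ P → finrank ℝ V * g x + D x ≤ F x) :
    0 ≤ ∫ x in C, F x := by
  have hmp : MeasurePreserving (fun y : V => P + y) volume volume :=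
    measurePreserving_add_left volume P
  have hemb : MeasurableEmbedding (fun y : V => P + y) := measurableEmbedding_addLeft P
  rw [← hmp.setIntegral_preimage_emb hemb]
  refine Star0.flux_nonneg' (g := fun y => g (P + y)) (D := fun y => D (P + y))
    (hCm.preimage (measurable_const_add P)) hC (fun y hy => hg0 _ hy) ?_
    (hFm.comp (measurable_const_add P)) ?_ ?_ ?_ ?_
  · exact (hmp.integrableOn_comp_preimage hemb).2 hg
  · exact (hmp.integrableOn_comp_preimage hemb).2 hF
  · intro y hy hy0
    have := hcont (P + y) hy (by simpa using hy0)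
    simpa using this
  · intro y hy hy0 t h0 h1
    have := hder (P + y) hy (by simpa using hy0) t h0 h1
    simpa using this
  · intro y hy hy0
    exact hFD (P + y) hy (by simpa using hy0)

/-- integral over a finite measurable partition -/
theorem integral_eq_sum_partition {k : ℕ} {C : Fin k → Set V} (hCm : ∀ j, MeasurableSet (C j))
    (hdisj : Pairwise (Function.onFun Disjoint C)) (hun : ⋃ j, C j = univ) {F : V → ℝ}
    (hF : Integrable F) : ∫ x, F x = ∑ j, ∫ x in C j, F x := by
  rw [← setIntegral_univ, ← hun, integral_iUnion_fintype hCm hdisj fun j => hF.integrableOn]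

/-- the (disjoint) Voronoi cell of the nucleus `j`; ties go to the smaller index -/
def cell {k : ℕ} (R : Fin k → V) (j : Fin k) : Set V :=
  {x | ∀ i, dist x (R j) ≤ dist x (R i) ∧ (i < j → dist x (R j) < dist x (R i))}

theorem cell_measurable {k : ℕ} (R : Fin k → V) (j : Fin k) : MeasurableSet (cell R j) := by
  have : cell R j = ⋂ i, ({x | dist x (R j) ≤ dist x (R i)} ∩
      {x | i < j → dist x (R j) < dist x (R i)}) := by
    ext x; simp [cell]
  rw [this]
  refine MeasurableSet.iInter fun i => (measurableSet_le (by fun_prop) (by fun_prop)).inter ?_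
  by_cases h : i < j
  · simp only [h, forall_const]
    exact measurableSet_lt (by fun_prop) (by fun_prop)
  · simp only [h, false_imp_iff, Set.ofPred_true]
    exact MeasurableSet.univ

theorem cell_star {k : ℕ} (R : Fin k → V) (j : Fin k) :
    Star0 ((fun y => R j + y) ⁻¹' (cell R j)) := by
  intro y hy t h0 h1 i
  obtain ⟨h2, h3⟩ := hy i
  have e1 : dist (R j + t • y) (R j) = t * ‖y‖ := by
    rw [dist_eq_norm, add_sub_cancel_left, norm_smul, Real.norm_of_nonneg h0]
  have e2 : dist (R j + y) (R j) = ‖y‖ := by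
    rw [dist_eq_norm, add_sub_cancel_left]
  have e3 : dist (R j + y) (R j + t • y) = (1 - t) * ‖y‖ := by
    rw [dist_eq_norm, show R j + y - (R j + t • y) = (1 - t) • y by rw [sub_smul, one_smul]; abel,
      norm_smul, Real.norm_of_nonneg (by linarith)]
  have e4 := dist_triangle (R j + y) (R j + t • y) (R i)
  simp only at h2 h3
  rw [e2] at h2 h3
  rw [e3] at e4
  simp only
  rw [e1]
  constructor
  · linarith
  · intro hij
    have := h3 hij
    linarith

theorem cell_disjoint {k : ℕ} (R : Fin k → V) : Pairwise (Function.onFun Disjoint (cell R)) := by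
  intro i j hij
  rw [Function.onFun, Set.disjoint_left]
  intro x hi hj
  rcases lt_or_gt_of_ne hij with h | h
  · exact absurd ((hj i).2 h) (not_lt.2 (hi j).1)
  · exact absurd ((hi j).2 h) (not_lt.2 (hj i).1)

theorem cell_union {k : ℕ} (hk : 0 < k) (R : Fin k → V) : ⋃ j, cell R j = univ := by
  have : Nonempty (Fin k) := ⟨⟨0, hk⟩⟩
  rw [eq_univ_iff_forall]
  intro x
  rw [mem_iUnion]
  obtain ⟨m, hm⟩ := Finite.exists_min (fun i => dist x (R i))
  let S : Finset (Fin k) := Finset.univ.filter fun j => dist x (R j) = dist x (R m)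
  have hS : S.Nonempty := ⟨m, by simp [S]⟩
  refine ⟨S.min' hS, fun i => ?_⟩
  have h1 : dist x (R (S.min' hS)) = dist x (R m) := by
    have := S.min'_mem hS
    simpa [S] using this
  refine ⟨h1.le.trans (hm i), fun hlt => ?_⟩
  rw [h1]
  refine lt_of_le_of_ne (hm i) fun heq => ?_
  have : i ∈ S := by simp [S, heq]
  exact absurd (S.min'_le i this) (not_le.2 hlt)

/-- the flux inequality summed over the Voronoi cells -/
theorem cells_flux_nonneg [Nontrivial V] {k : ℕ} (R : Fin k → V) {g F D : Fin k → V → ℝ}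
    (hg0 : ∀ j, ∀ x ∈ cell R j, 0 ≤ g j x) (hg : ∀ j, IntegrableOn (g j) (cell R j))
    (hFm : ∀ j, Measurable (F j)) (hF : ∀ j, IntegrableOn (F j) (cell R j))
    (hcont : ∀ j, ∀ x ∈ cell R j, x ≠ R j →
      ContinuousOn (fun t : ℝ => g j (R j + t • (x - R j))) (Ioc 0 1))
    (hder : ∀ j, ∀ x ∈ cell R j, x ≠ R j → ∀ t : ℝ, 0 < t → t < 1 →
      HasDerivWithinAt (fun t : ℝ => g j (R j + t • (x - R j)))
        (t⁻¹ * D j (R j + t • (x - R j))) (Ioi t) t)
    (hFD : ∀ j, ∀ x ∈ cell R j, x ≠ R j → finrank ℝ V * g j x + D j x ≤ F j x) :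
    0 ≤ ∑ j, ∫ x in cell R j, F j x :=
  Finset.sum_nonneg fun j _ => star_flux_nonneg (R j) (cell_measurable R j) (cell_star R j)
    (hg0 j) (hg j) (hFm j) (hF j) (hcont j) (hder j) (hFD j)

end Pool.Agent.TF
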