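import Pool.Agent.Lib.MP_9cf0c9_mp.Soft

/-! Gradient calculus for piecewise functions: algebra of `HasGradientAt`, chain rules,
continuous selections of Lipschitz functions, and the fact that two locally Lipschitz functions
have the same gradient at almost every point where they agree. -/

set_option autoImplicit false
set_option linter.unusedSectionVars false
set_option linter.unusedVariables false

namespace Pool.Agent.TF
open MeasureTheory Set Metric Filter Topology
open scoped ENNReal NNReal RealInnerProductSpace Gradient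

variable {V : Type*} [NormedAddCommGroup V] [InnerProductSpace ℝ V] [FiniteDimensional ℝ V]
  [MeasurableSpace V] [BorelSpace V]

/-! ### algebra of gradients -/

section algebra

variable {u v : V → ℝ} {a b x : V}

theorem hg_add (hu : HasGradientAt u a x) (hv : HasGradientAt v b x) :
    HasGradientAt (fun y => u y + v y) (a + b) x := by
  rw [hasGradientAt_iff_hasFDerivAt] at *
  rw [map_add]
  exact hu.fun_add hv

theorem hg_sub (hu : HasGradientAt u a x) (hv : HasGradientAt v b x) :
    HasGradientAt (fun y => u y - v y) (a - b) x := by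
  rw [hasGradientAt_iff_hasFDerivAt] at *
  rw [map_sub]
  exact hu.fun_sub hv

theorem hg_neg (hu : HasGradientAt u a x) : HasGradientAt (fun y => -u y) (-a) x := by
  rw [hasGradientAt_iff_hasFDerivAt] at *
  rw [map_neg]
  exact hu.fun_neg

theorem hg_mul (hu : HasGradientAt u a x) (hv : HasGradientAt v b x) :
    HasGradientAt (fun y => u y * v y) (u x • b + v x • a) x := by
  rw [hasGradientAt_iff_hasFDerivAt] at *
  rw [map_add, map_smul, map_smul]
  exact hu.fun_mul hv

theorem hg_const_mul (c : ℝ) (hu : HasGradientAt u a x) :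
    HasGradientAt (fun y => c * u y) (c • a) x := by
  rw [hasGradientAt_iff_hasFDerivAt] at *
  rw [map_smul]
  exact hu.const_mul c

theorem hg_add_const (c : ℝ) (hu : HasGradientAt u a x) :
    HasGradientAt (fun y => u y + c) a x := by
  rw [hasGradientAt_iff_hasFDerivAt] at *
  exact hu.add_const c

theorem hg_sub_const (c : ℝ) (hu : HasGradientAt u a x) :
    HasGradientAt (fun y => u y - c) a x := by
  rw [hasGradientAt_iff_hasFDerivAt] at *
  exact hu.sub_const c

/-- composition with a function of one variable -/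
theorem hg_comp {f : ℝ → ℝ} {f' : ℝ} (hf : HasDerivAt f f' (u x)) (hu : HasGradientAt u a x) :
    HasGradientAt (fun y => f (u y)) (f' • a) x := by
  rw [hasGradientAt_iff_hasFDerivAt] at *
  rw [map_smul]
  exact hf.comp_hasFDerivAt x hu

/-- composition with a function of two variables -/
theorem hg_comp2 {G : ℝ × ℝ → ℝ} {p q : ℝ}
    (hG : HasFDerivAt G (p • ContinuousLinearMap.fst ℝ ℝ ℝ + q • ContinuousLinearMap.snd ℝ ℝ ℝ)
      (u x, v x))
    (hu : HasGradientAt u a x) (hv : HasGradientAt v b x) :
    HasGradientAt (fun y => G (u y, v y)) (p • a + q • b) x := by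
  rw [hasGradientAt_iff_hasFDerivAt] at *
  have h := HasFDerivAt.comp (g := G) x hG (hu.prodMk hv)
  refine h.congr_fderiv ?_
  ext y
  simp [map_add, map_smul]

/-- the gradient of the distance to a point -/
theorem hg_dist (P : V) (hx : x ≠ P) :
    HasGradientAt (fun y => ‖y - P‖) (‖x - P‖⁻¹ • (x - P)) x := by
  have hx' : x - P ≠ 0 := sub_ne_zero.mpr hx
  have hn : 0 < ‖x - P‖ := norm_pos_iff.mpr hx'
  have h1 : HasFDerivAt (fun y : V => ‖y - P‖ ^ 2) ((2 : ℝ) • innerSL ℝ (x - P)) x := by
    have h := (hasStrictFDerivAt_norm_sq (x - P)).hasFDerivAt.comp x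
      ((hasFDerivAt_id x).sub_const P)
    refine h.congr_fderiv ?_
    ext y
    simp
  have h := h1.sqrt (by positivity)
  have e : (fun y : V => √(‖y - P‖ ^ 2)) = fun y => ‖y - P‖ := by
    funext z; exact Real.sqrt_sq (norm_nonneg _)
  rw [e] at h
  rw [hasGradientAt_iff_hasFDerivAt]
  refine h.congr_fderiv ?_
  ext v
  rw [map_smul]
  simp only [_root_.smul_apply, innerSL_apply_apply,
    InnerProductSpace.toDual_apply_apply, Real.sqrt_sq (norm_nonneg (x - P)), smul_eq_mul]
  field_simp

end algebra

/-! ### almost everywhere statements -/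

/-- Rademacher for locally Lipschitz functions -/
theorem ae_diff_of_lipAt {u : V → ℝ} {U : Set V} (h : ∀ x ∈ U, LipAt u x) :
    ∀ᵐ x : V, x ∈ U → DifferentiableAt ℝ u x := by
  have key : volume {x : V | x ∈ U ∧ ¬ DifferentiableAt ℝ u x} = 0 := by
    refine measure_null_of_locally_null _ fun x hx => ?_
    obtain ⟨C, t, ht, hC⟩ := h x hx.1
    obtain ⟨s, hst, hso, hxs⟩ := _root_.mem_nhds_iff.mp ht
    refine ⟨s ∩ {x : V | x ∈ U ∧ ¬ DifferentiableAt ℝ u x}, ?_, ?_⟩
    · exact inter_mem (mem_nhdsWithin_of_mem_nhds (hso.mem_nhds hxs)) self_mem_nhdsWithin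
    · have h1 := (hC.mono hst).ae_differentiableWithinAt_of_mem (μ := (volume : Measure V))
      rw [ae_iff] at h1
      refine measure_mono_null ?_ h1
      rintro y ⟨hy, hy2⟩ hh
      exact hy2.2 ((hh hy).differentiableAt (hso.mem_nhds hy))
  rw [ae_iff]
  refine measure_mono_null ?_ key
  intro x hx
  simpa using hx

/-- **two functions have the same gradient at almost every point where they agree** -/
theorem ae_gradient_eq {u v : V → ℝ} {U : Set V} (hU : IsOpen U) (hu : ∀ x ∈ U, LipAt u x)
    (hv : ContinuousOn v U) :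
    ∀ᵐ x : V, x ∈ U → u x = v x → ∀ g : V, HasGradientAt v g x → HasGradientAt u g x := by
  classical
  set k : V → ℝ := fun x => if x ∈ U then u x - v x else 1 with hk
  have huc : ContinuousOn u U := fun x hx => (hu x hx).continuousAt.continuousWithinAt
  have hkm : Measurable k := by
    have h1 : Measurable (U.piecewise (fun x => u x - v x) (fun _ => (1 : ℝ))) := by
      refine measurable_of_isOpen fun O hO => ?_
      rw [piecewise_preimage]
      unfold Set.ite
      refine MeasurableSet.union ?_ ?_
      · rw [inter_comm]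
        exact ((huc.sub hv).isOpen_inter_preimage hU hO).measurableSet
      · exact (measurable_const hO.measurableSet).diff hU.measurableSet
    exact h1
  filter_upwards [ae_diff_of_lipAt hu, ae_level hkm 0] with x h1 h2 hxU hxv g hg
  have e : k =ᶠ[𝓝 x] fun y => u y - v y := by
    filter_upwards [hU.mem_nhds hxU] with y hy
    simp only [hk]
    rw [if_pos hy]
  have hd := h1 hxU
  have h3 : DifferentiableAt ℝ k x := (hd.sub hg.differentiableAt).congr_of_eventuallyEq e
  have h4 : k x = 0 := by
    simp only [hk]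
    rw [if_pos hxU, hxv, sub_self]
  have h5 : ∇ k x = 0 := h2 h4 h3
  rw [e.gradient_eq] at h5
  have h6 := (hg_sub hd.hasGradientAt hg).gradient
  rw [h5] at h6
  have h7 : ∇ u x = g := (sub_eq_zero.mp h6.symm)
  rw [← h7]
  exact hd.hasGradientAt

/-- the same with finitely many pieces -/
theorem ae_gradient_pieces {ι : Type*} [Countable ι] {u : V → ℝ} {U : Set V} (hU : IsOpen U)
    (hu : ∀ x ∈ U, LipAt u x) {v : ι → V → ℝ} (hv : ∀ i, ContinuousOn (v i) U) :
    ∀ᵐ x : V, x ∈ U → ∀ i, u x = v i x → ∀ g : V, HasGradientAt (v i) g x →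
      HasGradientAt u g x := by
  have h := ae_all_iff.mpr fun i => ae_gradient_eq hU hu (hv i)
  filter_upwards [h] with x hx hxU i hi g hg
  exact hx i hxU hi g hg

/-! ### continuous selections -/

/-- a continuous selection of finitely many Lipschitz functions of one variable is Lipschitz -/
theorem selection_one {n : ℕ} {f : ℝ → ℝ} {g : Fin n → ℝ → ℝ} {C a b : ℝ} (hab : a ≤ b)
    (hC : 0 ≤ C) (hf : ContinuousOn f (Icc a b))
    (hg : ∀ i, ∀ s ∈ Icc a b, ∀ t ∈ Icc a b, |g i s - g i t| ≤ C * |s - t|)
    (hs : ∀ t ∈ Icc a b, ∃ i, f t = g i t) : |f b - f a| ≤ C * (b - a) := by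
  classical
  -- induction on the number of pieces which are used
  have key : ∀ m : ℕ, ∀ S : Finset (Fin n), S.card = m → ∀ a' : ℝ, a ≤ a' → a' ≤ b →
      (∀ t ∈ Icc a' b, ∃ i ∈ S, f t = g i t) → |f b - f a'| ≤ C * (b - a') := by
    intro m
    induction m with
    | zero =>
      intro S hS a' h1 h2 h3
      obtain ⟨i, hi, _⟩ := h3 a' ⟨le_rfl, h2⟩
      rw [Finset.card_eq_zero.mp hS] at hi
      simp at hi
    | succ m ih =>
      intro S hS a' h1 h2 h3
      obtain ⟨i, hi, hia⟩ := h3 a' ⟨le_rfl, h2⟩
      -- the last time at which the piece i is used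
      set T : Set ℝ := {t | t ∈ Icc a' b ∧ f t = g i t} with hT
      have hgc : ContinuousOn (g i) (Icc a b) := by
        have : LipschitzOnWith C.toNNReal (g i) (Icc a b) := by
          refine LipschitzOnWith.of_dist_le_mul fun s hs t ht => ?_
          rw [Real.coe_toNNReal _ hC, Real.dist_eq, Real.dist_eq]
          exact hg i s hs t ht
        exact this.continuousOn
      have hsub : Icc a' b ⊆ Icc a b := Icc_subset_Icc_left h1
      have hTc : IsClosed T := by
        have : T = Icc a' b ∩ (fun t => f t - g i t) ⁻¹' {0} := by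
          ext t
          simp only [hT, mem_ofPred_eq, mem_inter_iff, mem_preimage, mem_singleton_iff, sub_eq_zero]
        rw [this]
        exact ((hf.mono hsub).sub (hgc.mono hsub)).preimage_isClosed_of_isClosed isClosed_Icc
          isClosed_singleton
      have hTne : T.Nonempty := ⟨a', ⟨le_rfl, h2⟩, hia⟩
      have hTb : BddAbove T := ⟨b, fun t ht => ht.1.2⟩
      set c := sSup T with hc
      have hcT : c ∈ T := hTc.csSup_mem hTne hTb
      have hca : a' ≤ c := hcT.1.1
      have hcb : c ≤ b := hcT.1.2
      have h4 : |f c - f a'| ≤ C * (c - a') := by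
        rw [hcT.2, hia]
        have := hg i c (hsub hcT.1) a' ⟨h1, h2⟩
        rwa [abs_of_nonneg (sub_nonneg.mpr hca)] at this
      have h5 : |f b - f c| ≤ C * (b - c) := by
        rcases hcb.eq_or_lt with h | h
        · rw [h, sub_self, sub_self, abs_zero, mul_zero]
        -- on (c, b] the other pieces are used
        have h6 : ∀ d, c < d → d ≤ b → |f b - f d| ≤ C * (b - d) := by
          intro d hd1 hd2
          refine ih (S.erase i) ?_ d (h1.trans (hca.trans hd1.le)) hd2 ?_
          · rw [Finset.card_erase_of_mem hi, hS]; rfl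
          · intro t ht
            obtain ⟨j, hj, hjt⟩ := h3 t ⟨hca.trans (hd1.le.trans ht.1), ht.2⟩
            refine ⟨j, Finset.mem_erase.mpr ⟨?_, hj⟩, hjt⟩
            rintro rfl
            have : t ≤ c := le_csSup hTb ⟨⟨hca.trans (hd1.le.trans ht.1), ht.2⟩, hjt⟩
            linarith [ht.1]
        have hfc : ContinuousWithinAt f (Ioc c b) c :=
          (hf c ⟨h1.trans hca, hcb⟩).mono fun t ht => ⟨h1.trans (hca.trans ht.1.le), ht.2⟩
        have hne : (𝓝[Ioc c b] c).NeBot := by
          rw [← mem_closure_iff_nhdsWithin_neBot, closure_Ioc h.ne]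
          exact ⟨le_rfl, hcb⟩
        have h7 : Tendsto (fun d => |f b - f d|) (𝓝[Ioc c b] c) (𝓝 |f b - f c|) :=
          (tendsto_const_nhds.sub hfc).abs
        have h8 : Tendsto (fun d => C * (b - d)) (𝓝[Ioc c b] c) (𝓝 (C * (b - c))) :=
          ((tendsto_const_nhds.sub (tendsto_id.mono_left nhdsWithin_le_nhds)).const_mul C)
        refine le_of_tendsto_of_tendsto h7 h8 ?_
        filter_upwards [self_mem_nhdsWithin] with d hd
        exact h6 d hd.1 hd.2
      calc |f b - f a'| = |(f b - f c) + (f c - f a')| := by ring_nf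
        _ ≤ |f b - f c| + |f c - f a'| := abs_add_le _ _
        _ ≤ C * (b - c) + C * (c - a') := add_le_add h5 h4
        _ = C * (b - a') := by ring
  exact key _ Finset.univ rfl a le_rfl hab fun t ht => by
    obtain ⟨i, hi⟩ := hs t ht
    exact ⟨i, Finset.mem_univ i, hi⟩

/-- **a continuous selection of finitely many locally Lipschitz functions is locally
Lipschitz** -/
theorem lipAt_selection {n : ℕ} {u : V → ℝ} {v : Fin n → V → ℝ} {x : V}
    (hu : ∀ᶠ y in 𝓝 x, ContinuousAt u y) (hv : ∀ i, LipAt (v i) x)
    (hs : ∀ᶠ y in 𝓝 x, ∃ i, u y = v i y) : LipAt u x := by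
  classical
  choose C t ht hC using hv
  have h1 : (⋂ i, t i) ∈ 𝓝 x := Filter.iInter_mem.mpr ht
  obtain ⟨δ, hδ, hb⟩ := Metric.mem_nhds_iff.mp (inter_mem h1 (inter_mem hu hs))
  set K : ℝ≥0 := ∑ i, C i with hK
  refine ⟨K, ball x δ, ball_mem_nhds x hδ, LipschitzOnWith.of_dist_le_mul fun y hy z hz => ?_⟩
  have hseg : ∀ s ∈ Icc (0 : ℝ) 1, y + s • (z - y) ∈ ball x δ := by
    intro s hs
    have := (convex_ball x δ) hy hz (sub_nonneg.mpr hs.2) hs.1 (by ring)
    have e : (1 - s) • y + s • z = y + s • (z - y) := by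
      rw [sub_smul, one_smul, smul_sub]; abel
    rwa [e] at this
  have h2 : |u (y + (1 : ℝ) • (z - y)) - u (y + (0 : ℝ) • (z - y))| ≤
      (K * ‖z - y‖) * (1 - 0) := by
    refine selection_one (f := fun s : ℝ => u (y + s • (z - y)))
      (g := fun i s => v i (y + s • (z - y))) zero_le_one (by positivity) ?_ ?_ ?_
    · intro s hs
      have h3 : ContinuousAt u (y + s • (z - y)) := (hb (hseg s hs)).2.1
      exact (ContinuousAt.comp (f := fun s : ℝ => y + s • (z - y)) h3
        (by fun_prop)).continuousWithinAt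
    · intro i s hs s' hs'
      have h3 := (hC i).dist_le_mul _ (mem_iInter.mp (hb (hseg s hs)).1 i) _
        (mem_iInter.mp (hb (hseg s' hs')).1 i)
      rw [Real.dist_eq, dist_eq_norm, add_sub_add_left_eq_sub, ← sub_smul, norm_smul,
        Real.norm_eq_abs] at h3
      refine h3.trans ?_
      have h4 : (C i : ℝ) ≤ K := by
        have : C i ≤ K := Finset.single_le_sum (fun _ _ => zero_le) (Finset.mem_univ i)
        exact_mod_cast this
      calc (C i : ℝ) * (|s - s'| * ‖z - y‖) ≤ K * (|s - s'| * ‖z - y‖) :=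
            mul_le_mul_of_nonneg_right h4 (by positivity)
        _ = _ := by ring
    · intro s hs
      exact (hb (hseg s hs)).2.2
  rw [one_smul, zero_smul, add_zero, add_sub_cancel, sub_zero, mul_one] at h2
  rw [dist_comm, Real.dist_eq, dist_comm, dist_eq_norm]
  exact h2

end Pool.Agent.TF
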