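import Pool.Agent.Lib.MP_9cf0c9_mp.WeakFlux83
import Pool.Agent.Lib.MP_9cf0c9_mp.Col58Def

/-! The calibration criterion for weak trial functions, collinear nuclei: fields which are
continuous off the axis with a continuous weak divergence there, and `O(ht^(-1/2))` near the
axis. -/

set_option autoImplicit false
set_option linter.unusedSectionVars false
set_option linter.unusedVariables false
set_option linter.style.haveILetI false

namespace Pool.Agent.TF.Col
open MeasureTheory Set Metric Filter Topology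
open scoped ENNReal NNReal RealInnerProductSpace Gradient
open Pool.Agent.TF.Grd

/-! ### the axis is a null set, the inverse of the distance is locally integrable -/

theorem ax_null : volume ax = 0 := by
  have h1 : volume ((fun p : ℝ × E2 => mk p.1 p.2) ⁻¹' ax) = volume ax :=
    mk_measurePreserving.measure_preimage isClosed_ax.measurableSet.nullMeasurableSet
  rw [← h1]
  have h2 : (fun p : ℝ × E2 => mk p.1 p.2) ⁻¹' ax = univ ×ˢ {(0 : E2)} := by
    ext p
    simp [ax]
  rw [h2, Measure.volume_eq_prod, Measure.prod_prod]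
  simp

theorem ae_off_ax : ∀ᵐ x : X, x ∉ ax := measure_eq_zero_iff_ae_notMem.mp ax_null

theorem inv_ht_integrableOn (r : ℝ) : IntegrableOn (fun x : X => (ht x)⁻¹) (ball 0 r) := by
  have h2 : Integrable ((ball (0 : E2) r).indicator fun y : E2 => ‖y‖⁻¹) := by
    have h3 : (ball (0 : E2) r).indicator (fun y : E2 => ‖y‖⁻¹) =
        fun y : E2 => (Iio r).indicator (fun s : ℝ => s⁻¹) ‖y‖ := by
      funext y
      by_cases hy : ‖y‖ < r
      · rw [indicator_of_mem (by simpa using hy), indicator_of_mem (by simpa using hy)]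
      · rw [indicator_of_notMem (by simpa using hy), indicator_of_notMem (by simpa using hy)]
    rw [h3, integrable_fun_norm_addHaar (μ := (volume : Measure E2))
      (f := fun s : ℝ => (Iio r).indicator (fun s : ℝ => s⁻¹) s)]
    have h4 : Module.finrank ℝ E2 = 2 := by simp
    rw [h4]
    have h5 : IntegrableOn (fun _ : ℝ => (1 : ℝ)) (Ioi 0 ∩ Iio r) := by
      rw [Ioi_inter_Iio]
      exact integrableOn_const (by rw [Real.volume_Ioo]; exact ENNReal.ofReal_ne_top)
    have h6 : IntegrableOn ((Iio r).indicator fun _ : ℝ => (1 : ℝ)) (Ioi 0) := by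
      rw [IntegrableOn, integrable_indicator_iff measurableSet_Iio, IntegrableOn,
        Measure.restrict_restrict measurableSet_Iio, inter_comm]
      exact h5
    refine h6.congr_fun (fun s hs => ?_) measurableSet_Ioi
    have hs0 : s ≠ 0 := (ne_of_gt hs)
    simp only [Nat.add_one_sub_one, pow_one, smul_eq_mul]
    by_cases h : s < r
    · rw [indicator_of_mem (show s ∈ Iio r from h), indicator_of_mem (show s ∈ Iio r from h)]
      field_simp
    · rw [indicator_of_notMem (show s ∉ Iio r from h), indicator_of_notMem (show s ∉ Iio r from h),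
        mul_zero]
  have h1 : Integrable ((ball (0 : ℝ) r).indicator fun _ : ℝ => (1 : ℝ)) :=
    (integrable_indicator_iff measurableSet_ball).mpr (integrableOn_const measure_ball_lt_top.ne)
  have h3 := h1.mul_prod h2
  rw [← Measure.volume_eq_prod] at h3
  have h4 : Integrable fun x : X => (ball (0 : ℝ) r).indicator (fun _ : ℝ => (1 : ℝ)) x.fst *
      (ball (0 : E2) r).indicator (fun y : E2 => ‖y‖⁻¹) x.snd := by
    rw [← mk_measurePreserving.integrable_comp_emb mk_embedding]
    exact h3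
  refine (h4.integrableOn (s := ball (0 : X) r)).mono' ?_ ?_
  · exact ht_continuous.measurable.inv.aestronglyMeasurable
  · refine (ae_restrict_iff' measurableSet_ball).2 (Eventually.of_forall fun x hx => ?_)
    rw [mem_ball_zero_iff] at hx
    have h5 : ‖x‖ ^ 2 = x.fst ^ 2 + ‖x.snd‖ ^ 2 := by
      rw [← mk_eta x, norm_mk_sq]
      simp
    have h6 : |x.fst| ≤ ‖x‖ := abs_le_of_sq_le_sq (by nlinarith [sq_nonneg ‖x.snd‖]) (norm_nonneg _)
    have h7 : ‖x.snd‖ ≤ ‖x‖ := by
      have := abs_le_of_sq_le_sq (a := ‖x.snd‖) (b := ‖x‖) (by nlinarith [sq_nonneg x.fst])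
        (norm_nonneg _)
      rwa [abs_of_nonneg (norm_nonneg _)] at this
    rw [indicator_of_mem (show x.fst ∈ ball (0 : ℝ) r by
        rw [mem_ball_zero_iff, Real.norm_eq_abs]; exact h6.trans_lt hx),
      indicator_of_mem (show x.snd ∈ ball (0 : E2) r by
        rw [mem_ball_zero_iff]; exact h7.trans_lt hx), one_mul]
    unfold ht
    rw [Real.norm_of_nonneg (by positivity)]

theorem off_ax_meas {E : Type*} [NormedAddCommGroup E] [SecondCountableTopology E]
    [MeasurableSpace E] [BorelSpace E] {A : X → E} (h : ContinuousOn A axᶜ) :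
    AEStronglyMeasurable A volume := by
  have h1 : AEStronglyMeasurable A (volume.restrict axᶜ) :=
    h.aestronglyMeasurable isOpen_off_ax.measurableSet
  have h2 : (volume : Measure X).restrict axᶜ = volume :=
    Measure.restrict_eq_self_of_ae_mem ae_off_ax
  rwa [h2] at h1

/-- fields with a moderate singularity at the axis are locally square integrable -/
theorem locInt_sq {ι : Type*} [Fintype ι] {R : ι → X} {A : X → X} (h : ContinuousOn A axᶜ)
    (hax : ∀ x₀ ∈ ax, (∀ i, x₀ ≠ R i) → ∃ C δ : ℝ, 0 < δ ∧ ∀ x ∈ ball x₀ δ, x ∉ ax →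
      ‖A x‖ ^ 2 ≤ C * (ht x)⁻¹) : Flux.LocInt R fun x => ‖A x‖ ^ 2 := by
  intro K hK hR
  have hm : AEStronglyMeasurable (fun x => ‖A x‖ ^ 2) volume := (off_ax_meas h).norm.pow 2
  refine hK.induction_on (p := fun s => IntegrableOn (fun x => ‖A x‖ ^ 2) s) integrableOn_empty
    (fun s t hst ht => ht.mono_set hst) (fun s t hs ht => hs.union ht) fun x₀ hx₀ => ?_
  by_cases hx : x₀ ∈ ax
  · obtain ⟨C, δ, hδ, hb⟩ := hax x₀ hx fun i hi => hR i (hi ▸ hx₀)
    refine ⟨ball x₀ δ, mem_nhdsWithin_of_mem_nhds (ball_mem_nhds _ hδ), ?_⟩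
    have h1 : IntegrableOn (fun x : X => C * (ht x)⁻¹) (ball x₀ δ) := by
      refine ((inv_ht_integrableOn (‖x₀‖ + δ)).mono_set fun x hx => ?_).const_mul C
      rw [mem_ball_zero_iff]
      rw [mem_ball, dist_eq_norm] at hx
      have := norm_add_le (x - x₀) x₀
      rw [sub_add_cancel] at this
      linarith
    refine h1.mono' hm.restrict ((ae_restrict_iff' measurableSet_ball).2 ?_)
    filter_upwards [ae_off_ax] with x hxa hxb
    rw [Real.norm_of_nonneg (by positivity)]
    exact hb x hxb hxa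
  · obtain ⟨δ, hδ, hb⟩ := Metric.isOpen_iff.mp isOpen_off_ax x₀ hx
    have hsub : closedBall x₀ (δ / 2) ⊆ axᶜ := fun y hy => hb (by
      rw [mem_ball]; rw [mem_closedBall] at hy; linarith)
    refine ⟨closedBall x₀ (δ / 2), mem_nhdsWithin_of_mem_nhds (closedBall_mem_nhds _ (by
      positivity)), ?_⟩
    have hc : ContinuousOn (fun x => ‖A x‖ ^ 2) (closedBall x₀ (δ / 2)) :=
      ((h.mono hsub).norm).pow 2
    exact hc.integrableOn_compact (isCompact_closedBall _ _)

/-- **the calibration criterion for collinear nuclei**: `J` has the weak divergence `d` off the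
axis, `d ≤ Fcal + e` there -/
theorem Vtr_ge_WD {ι : Type*} [Fintype ι] {z : ι → ℝ} (hz : ∀ i, 0 ≤ z i) {R : ι → X}
    (hR : Function.Injective R) {φ₀ : ℝ} (hφ : 0 < φ₀)
    {ρ : X → ℝ} (hρ : TC ρ) (heq : ∀ x, ρ x = tf (Vpt z R x - pot ρ x - φ₀))
    {k : X → ℝ} {k' : X → X} (hk : WTrial k k')
    (hI : ∀ i, Integrable (fun x => (‖x - R i‖ ^ 2)⁻¹ * ‖k' x‖))
    (hN : Flux.ZeroCap ax) {J : X → X} {d : X → ℝ} (hJ : WD J d) {e : X → ℝ} (he : Integrable e)
    {c : ι → ℝ}
    (hax : ∀ x₀ ∈ ax, (∀ i, x₀ ≠ R i) → ∃ C δ : ℝ, 0 < δ ∧ ∀ x ∈ ball x₀ δ, x ∉ ax →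
      ‖J x‖ ^ 2 ≤ C * (ht x)⁻¹)
    (hd : ∀ᵐ x : X, d x ≤ Fcal φ₀ z R ρ k k' x + e x)
    (hnuc : ∀ i, ∀ δ : ℝ, 0 < δ → ∀ᶠ ε in 𝓝[>] (0 : ℝ),
      -∫ x, ⟪J x, Flux.gcut ε (x - R i)⟫ ≤ 2 * z i * (Vpt z R (R i) + k (R i)) + c i + δ)
    (hinf : ∀ δ : ℝ, 0 < δ → ∀ᶠ N in atTop, ∫ x, ⟪J x, Flux.gcut N x⟫ ≤ δ) :
    -(∫ x, e x) - ∑ i, c i ≤ Vtr φ₀ z R ρ k ((8 * Real.pi)⁻¹ * ∫ x, ‖k' x‖ ^ 2) := by
  have hF : Integrable fun x => Fcal φ₀ z R ρ k k' x + e x :=
    (hk.calib_alg hz R hφ hρ heq hI).1.add he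
  refine hk.Vtr_ge hz hR hφ hρ heq hI hN he (off_ax_meas hJ.contA) (locInt_sq hJ.contA hax)
    (fun ζ hζ => ?_) hnuc hinf
  obtain ⟨C, hC⟩ := hζ.test.lip
  have hdis : Disjoint (tsupport ζ) ax := by
    rw [Set.disjoint_left]
    intro x hx hx'
    exact (notMem_tsupport_iff_eventuallyEq.mpr (hζ.offN x hx')) hx
  rw [hJ.eq ζ C hC hζ.test.supp hdis, neg_neg]
  obtain ⟨M, hM⟩ := hζ.test.supp.exists_bound_of_continuous hC.continuous
  have hdint : Integrable fun x => d x * ζ x := by
    have h1 : (fun x => d x * ζ x) = (tsupport ζ).indicator fun x => d x * ζ x := by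
      funext x
      by_cases hx : x ∈ tsupport ζ
      · rw [indicator_of_mem hx]
      · rw [indicator_of_notMem hx, image_eq_zero_of_notMem_tsupport hx, mul_zero]
    rw [h1, integrable_indicator_iff (isClosed_tsupport ζ).measurableSet]
    refine ContinuousOn.integrableOn_compact hζ.test.supp.isCompact ?_
    refine (hJ.contd.mono fun x hx => ?_).mul hC.continuous.continuousOn
    exact fun h => Set.disjoint_left.mp hdis hx h
  have hFint : Integrable fun x => ζ x * (Fcal φ₀ z R ρ k k' x + e x) :=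
    hF.bdd_mul hC.continuous.aestronglyMeasurable (c := M) (Eventually.of_forall hM)
  refine integral_mono_ae hdint hFint ?_
  filter_upwards [hd] with x hx
  rw [mul_comm]
  exact mul_le_mul_of_nonneg_left hx (hζ.test.nonneg x)

end Pool.Agent.TF.Col
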