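import Pool.Agent.Lib.MP_9cf0c9_mp.Col58H
import Pool.Agent.Lib.MP_9cf0c9_mp.Poho39

/-! Two nuclei: the weak divergence of the current of the transverse form. -/

set_option autoImplicit false
set_option linter.unusedSectionVars false
set_option linter.unusedVariables false
set_option linter.unusedSimpArgs false

namespace Pool.Agent.TF.Col
open MeasureTheory Set Metric Filter Topology
open scoped ENNReal NNReal RealInnerProductSpace Gradient
open Pool.Agent.TF.Grd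

variable {ι : Type*} [Fintype ι]
variable {φ₀ : ℝ} {z : ι → ℝ} {R : ι → X} {ρ : X → ℝ} {H : X → X →L[ℝ] X} {lo hi : ℝ}

/-- the calibrated density (times `4π`) of a trial `Y` -/
noncomputable def Fd (φ₀ : ℝ) (z : ι → ℝ) (R : ι → X) (ρ : X → ℝ) (Y : X → ℝ) (Y' : X → X)
    (x : X) : ℝ :=
  4 * (4 * Real.pi * ρ x) * Y x - 4 * Real.pi * gam (psi φ₀ z R ρ x) * Y x ^ 2 +
    ‖psi' z R ρ x‖ ^ 2 - ‖Y' x‖ ^ 2

theorem norm_frame {x : X} (hx : x ∉ Col.ax) (u v : ℝ) :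
    ‖u • e1 + v • es x‖ ^ 2 = u ^ 2 + v ^ 2 := by
  rw [← real_inner_self_eq_norm_sq]
  simp only [inner_add_left, inner_add_right, real_inner_smul_left,
    real_inner_smul_right, inner_e1_self, inner_es_self hx, inner_es_e1, inner_e1_es]
  ring

theorem perp_frame {x : X} (hx : x ∉ Col.ax) (u v : ℝ) :
    perp (u • e1 + v • es x) = v • es x := by
  have hs := ht_pos hx
  have h1 : ∀ y w : X, ∀ r t : ℝ, perp (r • y + t • w) = r • perp y + t • perp w := by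
    intro y w r t
    rw [perp_eq, perp_eq, perp_eq]
    simp only [WithLp.add_fst, WithLp.smul_fst, smul_eq_mul]
    module
  have h2 : perp e1 = 0 := by
    rw [perp_eq]
    have : e1.fst = 1 := rfl
    rw [this, one_smul, sub_self]
  have h3 : perp (es x) = es x := by
    have h4 : (es x).fst = 0 := by
      have := inner_es_e1 x
      rwa [inner_e1] at this
    rw [perp_eq, h4, zero_smul, sub_zero]
  rw [h1, h2, h3, smul_zero, zero_add]

theorem Dat.YY'_frame (D : Dat φ₀ z R ρ H lo hi) (a b : ℝ) {x : X} (hx : x ∉ Col.ax) :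
    YY' z R ρ H a b x =
      ((zt z R ρ x ^ 2 + ht x ^ 2 + tq z R ρ a b x) * px z R ρ H x +
        pf z R ρ x * (2 * zt z R ρ x - 2 * zt z R ρ x * cx z R ρ H x +
          (a + b - 2 * cf z R ρ x) * cx z R ρ H x)) • e1 +
      ((zt z R ρ x ^ 2 + ht x ^ 2 + tq z R ρ a b x) * ps z R ρ H x +
        pf z R ρ x * (2 * ht x - 2 * zt z R ρ x * cs z R ρ H x +
          (a + b - 2 * cf z R ρ x) * cs z R ρ H x)) • es x := by
  unfold YY' Yt' tq' r2
  rw [D.p'_eq hx, D.c'_eq hx, Vf_eq z R ρ hx]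
  module

theorem Dat.ff'_frame (D : Dat φ₀ z R ρ H lo hi) (a b : ℝ) {x : X} (hx : x ∉ Col.ax) :
    ff' z R ρ H a b x =
      (tq z R ρ a b x * px z R ρ H x +
        pf z R ρ x * ((a + b - 2 * cf z R ρ x) * cx z R ρ H x)) • e1 +
      (tq z R ρ a b x * ps z R ρ H x +
        pf z R ρ x * ((a + b - 2 * cf z R ρ x) * cs z R ρ H x)) • es x := by
  unfold ff' tq'
  rw [D.p'_eq hx, D.c'_eq hx]
  module

theorem Dat.psi'_frame (D : Dat φ₀ z R ρ H lo hi) {x : X} (hx : x ∉ Col.ax) :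
    psi' z R ρ x = (-(pf z R ρ x * zt z R ρ x)) • e1 + (-(pf z R ρ x * ht x)) • es x := by
  rw [D.ax.form x hx]
  have h := Vf_eq z R ρ hx
  unfold Vf at h
  rw [h]
  module

/-- the algebraic identity behind the transverse form -/
theorem NH_alg (a b w A B A2 B2 p : ℝ) (hp : 0 < p) (ζ s : ℝ) (hs : 0 < s) (px' ps' u v c : ℝ)
    (hB2 : B2 = w * ps' + p * ((a + b - 2 * c) * v))
    (hB : B = (ζ ^ 2 + s ^ 2 + w) * ps' + p * (2 * s - 2 * ζ * v + (a + b - 2 * c) * v)) (g r : ℝ)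
    (r3 : ζ * px' + s * ps' = p * u - 3 * p - 4 * Real.pi * r) :
  s * B * (4 * Real.pi * g * (p * (ζ ^ 2 + s ^ 2 + w)) - 4 * (4 * Real.pi * r) - 2 * p - 2 / s * B) + B ^ 2 -
                  (A ^ 2 + B ^ 2) -
                (s * -(p * s) * (4 * Real.pi * r) + (-(p * s)) ^ 2 - ((-(p * ζ)) ^ 2 + (-(p * s)) ^ 2)) +
              (A * (1 / 2 * (s ^ 2 * (4 * Real.pi * (g * -(p * ζ))))) +
                    B * (1 / 2 * (s ^ 2 * (4 * Real.pi * (g * -(p * s))) + 4 * Real.pi * r * (2 * s))) +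
                  (A2 * (1 / 2 * (s ^ 2 * (4 * Real.pi * (g * -(p * ζ))))) +
                    B2 * (1 / 2 * (s ^ 2 * (4 * Real.pi * (g * -(p * s))) + 4 * Real.pi * r * (2 * s)))) +
                1 / 2 * (s ^ 2 * (4 * Real.pi * r)) *
                  (4 * Real.pi * g * (p * (ζ ^ 2 + s ^ 2 + w)) - 4 * (4 * Real.pi * r) - 2 * p - 2 / s * B +
                    (4 * Real.pi * g * (p * w) - 2 * p * (u ^ 2 + v ^ 2) - 2 / s * B2))) +
            (s * (2 * (4 * Real.pi * r * B + p * (ζ ^ 2 + s ^ 2 + w) * (4 * Real.pi * (g * -(p * s))))) +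
              2 * (4 * Real.pi * r * (p * (ζ ^ 2 + s ^ 2 + w))) * 2) +
          (-(p * ζ) * (s ^ 2 * (4 * Real.pi * (g * -(p * ζ)))) +
              (-(p * s) * (s ^ 2 * (4 * Real.pi * (g * -(p * s)))) + -(p * s) * (4 * Real.pi * r * (2 * s))) +
            s ^ 2 * (4 * Real.pi * r) * (4 * Real.pi * r)) +
        (u * (s ^ 2 * (p * p) * -(2 * u)) + u * ((a + b - 2 * c) * (s ^ 2 * (p * px' + p * px'))) +
            (v * (s ^ 2 * (p * p) * -(2 * v)) +
              v * ((a + b - 2 * c) * (s ^ 2 * (p * ps' + p * ps') + p * p * (2 * s)))) +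
          s ^ 2 * (p * p) * (a + b - 2 * c) * (-(2 / s * v) - 2 / p * (u * px' + v * ps'))) +
      g *
        (4 * Real.pi *
          (s ^ 2 * (1 / 2 * ((p * (ζ ^ 2 + s ^ 2 + w) + p * w) * (p * (1 - u) + ζ * px') + p * ζ * (A + A2))) -
              ζ * (s * (1 / 2 * ((p * (ζ ^ 2 + s ^ 2 + w) + p * w) * (p * (0 - v) + ζ * ps') + p * ζ * (B + B2)))) +
            1 / 2 * ((p * (ζ ^ 2 + s ^ 2 + w) + p * w) * (p * ζ)) * (s * v - 2 * ζ))) =
    4 * (4 * Real.pi * r) * (p * (ζ ^ 2 + s ^ 2 + w)) - 4 * Real.pi * g * (p * (ζ ^ 2 + s ^ 2 + w)) ^ 2 +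
          ((-(p * ζ)) ^ 2 + (-(p * s)) ^ 2) -
        (A ^ 2 + B ^ 2) -
      (s ^ 2 * ((2 * p ^ 2 + p * (4 * Real.pi * r)) * (u ^ 2 + v ^ 2)) + s ^ 2 * (B / s + 4 * Real.pi * r + p) ^ 2 -
        4 * Real.pi * g * ((p * w) ^ 2 + s * (p * w) * B2)) := by
  have hi : s * s⁻¹ = 1 := mul_inv_cancel₀ hs.ne'
  have hj : p * p⁻¹ = 1 := mul_inv_cancel₀ hp.ne'
  linear_combination
    (4 * Real.pi * g * (p * (ζ ^ 2 + s ^ 2 + w) + p * w) * (1 / 2) * s ^ 2) * r3 +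
    (4 * Real.pi * g * (p * (ζ ^ 2 + s ^ 2 + w) + p * w) * (1 / 2) * s) * (hB - hB2) +
    (-2 * B ^ 2 - s * (4 * Real.pi * r) * (B + B2) - 2 * (a + b - 2 * c) * s * p ^ 2 * v +
      (s * s⁻¹ + 1) * B ^ 2 + 2 * s * B * (4 * Real.pi * r + p)) * hi +
    (-2 * (a + b - 2 * c) * s ^ 2 * p * (u * px' + v * ps')) * hj

/-- **the transverse form**: weak divergence of the current -/
theorem Dat.wd_NH_of (D : Dat φ₀ z R ρ H lo hi) (a b : ℝ)
    (htg : ∀ (T : X → X) (d : X → ℝ), WD T d → (∀ x, x ∉ Col.ax → ⟪T x, psi' z R ρ x⟫ = 0) →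
      WD (fun x => gam (psi φ₀ z R ρ x) • T x) fun x => gam (psi φ₀ z R ρ x) * d x) :
    WD (NH φ₀ z R ρ H a b) fun x => Fd φ₀ z R ρ (YY z R ρ a b) (YY' z R ρ H a b) x -
      QH φ₀ z R ρ H a b x := by
  have hR : C1O (fun x => 4 * Real.pi * ρ x)
      fun x => (4 * Real.pi) • (gam (psi φ₀ z R ρ x) • psi' z R ρ x) := D.c1_rho.const_mul _
  have n1 := WD.stress_perp (D.c1_YY a b) (D.wd_YY a b)
  have n2 := WD.stress_perp D.c1_psi D.wd_psi'
  have n3 := ((D.wd_YY a b).add (D.wd_f a b)).mul ((C1O.ht_sq.mul hR).const_mul (1 / 2))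
  have n4 := WD.perp.mul ((hR.mul (D.c1_YY a b)).const_mul 2)
  have n5 := D.wd_psi'.mul (C1O.ht_sq.mul hR)
  have hm : C1O (fun x => a + b - 2 * cf z R ρ x) fun x => -((2 : ℝ) • cf' z R ρ H x) :=
    ((C1O.const (a + b)).sub (D.c1_c.const_mul 2)).congr' fun x _ => by rw [zero_sub]
  have n6 := D.wd_c.mul ((C1O.ht_sq.mul (D.c1_p.mul D.c1_p)).mul hm)
  have n7 := htg _ _ ((D.wd_TT a b).const_smul (4 * Real.pi)) fun x hx => by
    rw [real_inner_smul_left, D.TT_tang a b hx, mul_zero]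
  refine ((((((n1.sub n2).add n3).add n4).add n5).add n6).add n7).congr (fun x hx => rfl)
    fun x hx => ?_
  have hs := ht_pos hx
  have hp := D.ax.pos x hx
  have r1 := D.curl hx
  have r3 := D.divr hx
  unfold Fd QH KK dTT
  have hw : wT' z R ρ H a b x = (1 / 2 : ℝ) • ((YY z R ρ a b x + ff z R ρ a b x) •
      (pf z R ρ x • (e1 - cf' z R ρ H x) + zt z R ρ x • pf' z R ρ H x) +
      (pf z R ρ x * zt z R ρ x) • (YY' z R ρ H a b x + ff' z R ρ H a b x)) := rfl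
  obtain ⟨w, hwd⟩ : ∃ w, w = (cf z R ρ x - a) * (b - cf z R ρ x) := ⟨_, rfl⟩
  obtain ⟨A, hA⟩ : ∃ A, A = (zt z R ρ x ^ 2 + ht x ^ 2 + w) * px z R ρ H x +
        pf z R ρ x * (2 * zt z R ρ x - 2 * zt z R ρ x * cx z R ρ H x +
          (a + b - 2 * cf z R ρ x) * cx z R ρ H x) := ⟨_, rfl⟩
  obtain ⟨B, hB⟩ : ∃ B, B = (zt z R ρ x ^ 2 + ht x ^ 2 + w) * ps z R ρ H x +
        pf z R ρ x * (2 * ht x - 2 * zt z R ρ x * cs z R ρ H x +
          (a + b - 2 * cf z R ρ x) * cs z R ρ H x) := ⟨_, rfl⟩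
  obtain ⟨A2, hA2⟩ : ∃ A2, A2 = w * px z R ρ H x +
        pf z R ρ x * ((a + b - 2 * cf z R ρ x) * cx z R ρ H x) := ⟨_, rfl⟩
  obtain ⟨B2, hB2⟩ : ∃ B2, B2 = w * ps z R ρ H x +
        pf z R ρ x * ((a + b - 2 * cf z R ρ x) * cs z R ρ H x) := ⟨_, rfl⟩
  have hYf : YY' z R ρ H a b x = A • e1 + B • es x := by
    rw [D.YY'_frame a b hx, hA, hB, hwd]
    rfl
  have hff : ff' z R ρ H a b x = A2 • e1 + B2 • es x := by
    rw [D.ff'_frame a b hx, hA2, hB2, hwd]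
    rfl
  rw [hw, hYf, hff, D.psi'_frame hx, D.p'_eq hx, D.c'_eq hx,
    perp_frame hx, perp_frame hx, norm_frame hx, norm_frame hx, norm_smul, norm_smul,
    norm_es hx, perp_es hx]
  simp only [Real.norm_eq_abs, mul_one, sq_abs]
  simp only [inner_neg_left, inner_add_left, inner_add_right, real_inner_smul_left,
    real_inner_smul_right, inner_sub_left, inner_sub_right, inner_e1_self, inner_es_self hx,
    inner_es_e1, inner_e1_es, mul_zero, zero_mul, mul_one, one_mul, add_zero, zero_add]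
  have e1' : YY z R ρ a b x = pf z R ρ x * (zt z R ρ x ^ 2 + ht x ^ 2 + w) := by
    rw [hwd]; rfl
  have e2' : ff z R ρ a b x = pf z R ρ x * w := by rw [hwd]; rfl
  have e4' : wT z R ρ a b x = 1 / 2 * ((YY z R ρ a b x + ff z R ρ a b x) *
      (pf z R ρ x * zt z R ρ x)) := rfl
  rw [e4', e1', e2']
  clear e4' e1' e2' hw hYf hff n1 n2 n3 n4 n5 n6 n7 hm hR htg
  exact NH_alg a b _ _ _ _ _ _ hp _ _ hs _ _ _ _ _ hB2 hB _ _ r3

end Pool.Agent.TF.Col
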