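import Pool.Agent.Lib.MP_9cf0c9_mp.Col58L
import Pool.Agent.Lib.MP_9cf0c9_mp.Col58H2

/-! The trial `Y = X - D e`, `X = -⟨x - a, ψ'⟩`: exact formula for its density, for every `e`
which is locally Lipschitz off the axis (kinks allowed). -/

set_option autoImplicit false
set_option linter.unusedSectionVars false
set_option linter.unusedVariables false

namespace Pool.Agent.TF.Col
open MeasureTheory Set Metric Filter Topology
open scoped ENNReal NNReal RealInnerProductSpace Gradient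
open Pool.Agent.TF.Grd

variable {ι : Type*} [Fintype ι]
variable {φ₀ : ℝ} {z : ι → ℝ} {R : ι → X} {ρ : X → ℝ} {H : X → X →L[ℝ] X} {lo hi : ℝ}

/-- the dilation derivative `X = -⟨ψ', x - a⟩` about the point `a` -/
noncomputable def Xa (z : ι → ℝ) (R : ι → X) (ρ : X → ℝ) (a : X) (x : X) : ℝ :=
  -⟪psi' z R ρ x, x - a⟫

noncomputable def Xa' (z : ι → ℝ) (R : ι → X) (ρ : X → ℝ) (H : X → X →L[ℝ] X) (a : X)
    (x : X) : X := -(psi' z R ρ x + H x (x - a))

theorem Dat.c1_Xa (D : Dat φ₀ z R ρ H lo hi) (a : X) :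
    C1O (Xa z R ρ a) (Xa' z R ρ H a) := by
  refine ⟨fun x hx => ?_, ?_⟩
  · have h1 := ((D.derivP hx).inner ℝ ((hasFDerivAt_id x).sub_const a)).neg
    rw [hasGradientAt_iff_hasFDerivAt]
    refine h1.congr_fderiv ?_
    ext v
    simp only [ContinuousLinearMap.comp_apply, InnerProductSpace.toDual_apply_apply,
      fderivInnerCLM_apply, ContinuousLinearMap.prod_apply, ContinuousLinearMap.id_apply,
      neg_apply, id]
    unfold Xa'
    rw [inner_neg_left, inner_add_left, D.hs.symm x (D.off hx) (x - a) v,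
      real_inner_comm (H x v) (x - a)]
  · have h1 : ContinuousOn (fun x => H x (x - a)) Col.axᶜ := fun x hx =>
      ((D.hs.contAt (D.off hx)).clm_apply
        (continuousAt_id.sub continuousAt_const)).continuousWithinAt
    exact (D.contP.add h1).neg

/-- `ΔX = ΓX - 2R` -/
theorem Dat.wd_Xa (D : Dat φ₀ z R ρ H lo hi) (a : X) :
    WD (Xa' z R ρ H a) fun x => 4 * Real.pi * gam (psi φ₀ z R ρ x) * Xa z R ρ a x -
      2 * (4 * Real.pi * ρ x) := by
  classical
  have hc : ∀ j, C1O (fun x : X => ⟪x - a, stdOrthonormalBasis ℝ X j⟫)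
      fun _ => stdOrthonormalBasis ℝ X j := fun j => by
    refine ⟨fun x hx => ?_, continuousOn_const⟩
    have h1 := (innerSL ℝ (stdOrthonormalBasis ℝ X j)).hasFDerivAt.comp x
      ((hasFDerivAt_id x).sub_const a)
    rw [hasGradientAt_iff_hasFDerivAt]
    refine (h1.congr_of_eventuallyEq (Eventually.of_forall fun y => ?_)).congr_fderiv ?_
    · simp only [Function.comp, innerSL_apply_apply, id]
      exact real_inner_comm _ _
    · ext v
      simp
  have key : ∀ s : Finset (Fin (Module.finrank ℝ X)),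
      WD (fun x => ∑ j ∈ s, ⟪x - a, stdOrthonormalBasis ℝ X j⟫ • H x (stdOrthonormalBasis ℝ X j))
        fun x => ∑ j ∈ s, (⟪stdOrthonormalBasis ℝ X j, H x (stdOrthonormalBasis ℝ X j)⟫ +
          ⟪x - a, stdOrthonormalBasis ℝ X j⟫ * (4 * Real.pi * gam (psi φ₀ z R ρ x) *
            ⟪psi' z R ρ x, stdOrthonormalBasis ℝ X j⟫)) := by
    intro s
    induction s using Finset.induction_on with
    | empty => simpa using WD.zero
    | insert j s hj ih =>
      have h1 := ((D.wd_H (stdOrthonormalBasis ℝ X j)).mul (hc j)).add ih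
      refine h1.congr (fun x _ => ?_) fun x _ => ?_
      · rw [Finset.sum_insert hj]
      · rw [Finset.sum_insert hj]
  have h2 := (D.wd_psi'.add (key Finset.univ)).neg
  refine h2.congr (fun x hx => ?_) fun x hx => ?_
  · unfold Xa'
    congr 2
    conv_rhs => rw [sum_basis (x - a), map_sum]
    refine Finset.sum_congr rfl fun j _ => ?_
    rw [map_smul]
  · rw [Finset.sum_add_distrib]
    have t1 : ∑ j, ⟪stdOrthonormalBasis ℝ X j, H x (stdOrthonormalBasis ℝ X j)⟫ =
        4 * Real.pi * ρ x := by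
      have := D.hs.trace x (D.off hx)
      unfold tr at this
      rw [← this]
      refine Finset.sum_congr rfl fun j _ => real_inner_comm _ _
    have t2 : ∑ j, ⟪x - a, stdOrthonormalBasis ℝ X j⟫ * (4 * Real.pi * gam (psi φ₀ z R ρ x) *
        ⟪psi' z R ρ x, stdOrthonormalBasis ℝ X j⟫) =
        4 * Real.pi * gam (psi φ₀ z R ρ x) * ⟪psi' z R ρ x, x - a⟫ := by
      conv_rhs => rw [sum_basis (x - a), inner_sum, Finset.mul_sum]
      refine Finset.sum_congr rfl fun j _ => ?_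
      rw [real_inner_smul_right]
      ring
    rw [t1, t2]
    unfold Xa
    ring

/-- the stress field about `a` -/
noncomputable def sta (z : ι → ℝ) (R : ι → X) (ρ : X → ℝ) (a : X) (x : X) : X :=
  ⟪psi' z R ρ x, x - a⟫ • psi' z R ρ x - (1 / 2 * ‖psi' z R ρ x‖ ^ 2) • (x - a)

/-- the divergence of the stress about a point of the axis -/
theorem Dat.wd_sta (D : Dat φ₀ z R ρ H lo hi) (t : ℝ) :
    WD (sta z R ρ (t • e1)) fun x => -(Xa z R ρ (t • e1) x * (4 * Real.pi * ρ x)) -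
      1 / 2 * ‖psi' z R ρ x‖ ^ 2 := by
  have hc : C1O (fun x : X => x.fst - t) fun _ => e1 :=
    (C1O.fst.sub (C1O.const t)).congr' fun x _ => by rw [sub_zero]
  have hx : ∀ x : X, x - t • e1 = (x.fst - t) • e1 + (1 : ℝ) • perp x := fun x => by
    rw [perp_eq]
    module
  refine (WD.stressF D.c1_psi D.wd_psi' hc (C1O.const 1)).congr (fun x _ => ?_) fun x _ => ?_
  · unfold sta
    rw [hx x]
  · have h1 : ‖perp (psi' z R ρ x)‖ ^ 2 + ⟪psi' z R ρ x, e1⟫ ^ 2 = ‖psi' z R ρ x‖ ^ 2 := by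
      have h2 : psi' z R ρ x = ⟪psi' z R ρ x, e1⟫ • e1 + perp (psi' z R ρ x) := by
        rw [perp_eq, inner_e1]
        module
      have h3 : ‖psi' z R ρ x‖ ^ 2 = ‖⟪psi' z R ρ x, e1⟫ • e1 + perp (psi' z R ρ x)‖ ^ 2 := by
        rw [← h2]
      rw [h3, norm_add_sq_real, real_inner_smul_left, inner_e1_perp, norm_smul, norm_e1,
        Real.norm_eq_abs, mul_one, sq_abs]
      ring
    unfold Xa
    rw [hx x, inner_zero_left, inner_zero_left, real_inner_comm (psi' z R ρ x) e1, inner_e1_self]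
    linear_combination (1 : ℝ) * h1

/-- the current of the trial `X - D e` -/
noncomputable def JE (z : ι → ℝ) (R : ι → X) (ρ : X → ℝ) (H : X → X →L[ℝ] X) (a : X) (d : ℝ)
    (e : X → ℝ) (e' : X → X) (x : X) : X :=
  (2 * d) • (e x • Xa' z R ρ H a x) - Xa z R ρ a x • Xa' z R ρ H a x - (2 : ℝ) • sta z R ρ a x -
    d ^ 2 • (e x • e' x)

/-- **exact formula**: `div J = F(X - D e) - D² e (Δe - Γe)` -/
theorem Dat.wdl_JE (D : Dat φ₀ z R ρ H lo hi) (t d : ℝ) {e : X → ℝ} {e' : X → X} {l : X → ℝ}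
    (hL : ∀ x, x ∉ Col.ax → LipAt e x) (hg : ∀ᵐ x : X, HasGradientAt e (e' x) x)
    (he : WDL (fun x => e x • e' x) fun x => ‖e' x‖ ^ 2 + e x * l x) :
    WDL (JE z R ρ H (t • e1) d e e') fun x =>
      Fd φ₀ z R ρ (fun y => Xa z R ρ (t • e1) y - d * e y)
        (fun y => Xa' z R ρ H (t • e1) y - d • e' y) x -
      d ^ 2 * (e x * (l x - 4 * Real.pi * gam (psi φ₀ z R ρ x) * e x)) := by
  have n1 := ((D.wd_Xa (t • e1)).mul (D.c1_Xa (t • e1))).toL
  have n2 := (D.wd_sta t).toL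
  have n3 := (D.wd_Xa (t • e1)).toL.mul_lip hL hg
  refine ((((n3.const_smul (2 * d)).sub n1).sub (n2.const_smul 2)).sub
    (he.const_smul (d ^ 2))).congr (fun x hx => rfl) (Eventually.of_forall fun x => ?_)
  unfold Fd
  have h1 : ‖Xa' z R ρ H (t • e1) x - d • e' x‖ ^ 2 = ‖Xa' z R ρ H (t • e1) x‖ ^ 2 -
      2 * d * ⟪e' x, Xa' z R ρ H (t • e1) x⟫ + d ^ 2 * ‖e' x‖ ^ 2 := by
    rw [norm_sub_sq_real, real_inner_smul_right, norm_smul, Real.norm_eq_abs, mul_pow, sq_abs,
      real_inner_comm (e' x)]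
    ring
  rw [h1, real_inner_self_eq_norm_sq]
  ring

end Pool.Agent.TF.Col
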