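import Pool.Agent.Lib.MP_9cf0c9_mp.Col58Id

/-! Two nuclei: the trial `Y = p (r² + (c - a)(b - c))` and its equation; the identity with the
transverse weight `s²` (algebraic part). -/

set_option autoImplicit false
set_option linter.unusedSectionVars false
set_option linter.unusedVariables false
set_option linter.unusedSimpArgs false

namespace Pool.Agent.TF.Col
open MeasureTheory Set Metric Filter Topology
open scoped ENNReal NNReal RealInnerProductSpace Gradient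
open Pool.Agent.TF.Grd

variable {ι : Type*} [Fintype ι]
variable {φ₀ : ℝ} {z : ι → ℝ} {R : ι → X} {ρ : X → ℝ} {H : X → X →L[ℝ] X} {lo hi : ℝ}

/-- `(c - a)(b - c)` -/
noncomputable def tq (z : ι → ℝ) (R : ι → X) (ρ : X → ℝ) (a b : ℝ) (x : X) : ℝ :=
  (cf z R ρ x - a) * (b - cf z R ρ x)

noncomputable def tq' (z : ι → ℝ) (R : ι → X) (ρ : X → ℝ) (H : X → X →L[ℝ] X) (a b : ℝ)
    (x : X) : X := (a + b - 2 * cf z R ρ x) • cf' z R ρ H x

theorem Dat.c1_tq (D : Dat φ₀ z R ρ H lo hi) (a b : ℝ) :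
    C1O (tq z R ρ a b) (tq' z R ρ H a b) := by
  refine ((D.c1_c.sub (C1O.const a)).mul ((C1O.const b).sub D.c1_c)).congr (fun x hx => rfl)
    fun x hx => ?_
  unfold tq'
  module

/-- `f = p (c - a)(b - c)` -/
noncomputable def ff (z : ι → ℝ) (R : ι → X) (ρ : X → ℝ) (a b : ℝ) (x : X) : ℝ :=
  pf z R ρ x * tq z R ρ a b x

noncomputable def ff' (z : ι → ℝ) (R : ι → X) (ρ : X → ℝ) (H : X → X →L[ℝ] X) (a b : ℝ)
    (x : X) : X := pf z R ρ x • tq' z R ρ H a b x + tq z R ρ a b x • pf' z R ρ H x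

theorem Dat.c1_f (D : Dat φ₀ z R ρ H lo hi) (a b : ℝ) : C1O (ff z R ρ a b) (ff' z R ρ H a b) :=
  D.c1_p.mul (D.c1_tq a b)

/-- the transverse weak divergence -/
theorem WD.perp : WD Col.perp fun _ => 2 := by
  refine (WD.of_c1 (A := Col.perp)
    (T := fun _ => ContinuousLinearMap.id ℝ X - (innerSL ℝ e1).smulRight e1)
    (fun x _ => hasFDerivAt_perp x) continuousOn_const).congr_div fun x _ => ?_
  unfold tr
  have hj : ∀ j, ⟪(ContinuousLinearMap.id ℝ X - (innerSL ℝ e1).smulRight e1)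
      (stdOrthonormalBasis ℝ X j), stdOrthonormalBasis ℝ X j⟫ =
      1 - ⟪e1, stdOrthonormalBasis ℝ X j⟫ * ⟪e1, stdOrthonormalBasis ℝ X j⟫ := fun j => by
    rw [sub_apply, inner_sub_left, ContinuousLinearMap.id_apply, real_inner_self_eq_norm_sq,
      (stdOrthonormalBasis ℝ X).norm_eq_one, ContinuousLinearMap.smulRight_apply,
      innerSL_apply_apply, real_inner_smul_left]
    ring
  simp_rw [hj]
  rw [Finset.sum_sub_distrib, sum_inner_mul', inner_e1_self]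
  simp only [Finset.sum_const, Finset.card_univ, Fintype.card_fin, nsmul_eq_mul, mul_one]
  have : Module.finrank ℝ X = 3 := Fact.out
  rw [this]; norm_num

/-- `Δf = Γf - 2p|∇c|² - (2/s)f_s` -/
theorem Dat.wd_f (D : Dat φ₀ z R ρ H lo hi) (a b : ℝ) :
    WD (ff' z R ρ H a b) fun x => 4 * Real.pi * gam (psi φ₀ z R ρ x) * ff z R ρ a b x -
      2 * pf z R ρ x * (cx z R ρ H x ^ 2 + cs z R ρ H x ^ 2) -
      2 / ht x * ⟪ff' z R ρ H a b x, es x⟫ := by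
  have hm : C1O (fun x => a + b - 2 * cf z R ρ x) fun x => -((2 : ℝ) • cf' z R ρ H x) :=
    ((C1O.const (a + b)).sub (D.c1_c.const_mul 2)).congr' fun x _ => by rw [zero_sub]
  have h1 := D.wd_c.mul (D.c1_p.mul hm)
  have h2 := D.wd_p.mul (D.c1_tq a b)
  refine (h1.add h2).congr (fun x hx => ?_) fun x hx => ?_
  · unfold ff' tq'
    module
  · have hs := ht_pos hx
    have hp := D.ax.pos x hx
    unfold ff' ff tq'
    rw [D.p'_eq hx, D.c'_eq hx]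
    simp only [inner_neg_left, inner_add_left, inner_add_right, real_inner_smul_left,
      real_inner_smul_right, inner_e1_self, inner_es_self hx, inner_es_e1, inner_e1_es]
    field_simp
    ring

/-- the trial for two nuclei -/
noncomputable def YY (z : ι → ℝ) (R : ι → X) (ρ : X → ℝ) (a b : ℝ) : X → ℝ :=
  Yt z R ρ (tq z R ρ a b)

noncomputable def YY' (z : ι → ℝ) (R : ι → X) (ρ : X → ℝ) (H : X → X →L[ℝ] X) (a b : ℝ) : X → X :=
  Yt' z R ρ H (tq z R ρ a b) (tq' z R ρ H a b)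

theorem Dat.c1_YY (D : Dat φ₀ z R ρ H lo hi) (a b : ℝ) : C1O (YY z R ρ a b) (YY' z R ρ H a b) :=
  D.c1_Y (D.c1_tq a b)

/-- `ΔY = ΓY - 4R - 2p - (2/s)Y_s` -/
theorem Dat.wd_YY (D : Dat φ₀ z R ρ H lo hi) (a b : ℝ) :
    WD (YY' z R ρ H a b) fun x => 4 * Real.pi * gam (psi φ₀ z R ρ x) * YY z R ρ a b x -
      4 * (4 * Real.pi * ρ x) - 2 * pf z R ρ x - 2 / ht x * ⟪YY' z R ρ H a b x, es x⟫ := by
  have hm : C1O (fun x => a + b - 2 * cf z R ρ x - 2 * zt z R ρ x)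
      fun x => -((2 : ℝ) • e1) := by
    refine (((C1O.const (a + b)).sub (D.c1_c.const_mul 2)).sub (D.c1_zt.const_mul 2)).congr'
      fun x _ => ?_
    module
  have h1 := D.wd_c.mul (D.c1_p.mul hm)
  have h2 := D.wd_p.mul (D.c1_r2.add (D.c1_tq a b))
  have h3 := D.wd_V.mul (D.c1_p.const_mul 2)
  refine ((h1.add h2).add h3).congr (fun x hx => ?_) fun x hx => ?_
  · unfold YY' Yt' tq'
    module
  · have hs := ht_pos hx
    have hp := D.ax.pos x hx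
    have r3 := D.divr hx
    unfold YY' Yt' YY Yt tq'
    rw [D.p'_eq hx, D.c'_eq hx, Vf_eq z R ρ hx]
    simp only [inner_neg_left, inner_add_left, inner_add_right, real_inner_smul_left,
      real_inner_smul_right, inner_sub_left, inner_sub_right, inner_e1_self, inner_es_self hx,
      inner_es_e1, inner_e1_es]
    have e1 : 4 * Real.pi * ρ x = pf z R ρ x * cx z R ρ H x - 3 * pf z R ρ x -
        (zt z R ρ x * px z R ρ H x + ht x * ps z R ρ H x) := by linarith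
    rw [e1]
    field_simp
    ring

/-- `K = Y_s/s + R + p` -/
noncomputable def KK (z : ι → ℝ) (R : ι → X) (ρ : X → ℝ) (H : X → X →L[ℝ] X) (a b : ℝ)
    (x : X) : ℝ := ⟪YY' z R ρ H a b x, es x⟫ / ht x + 4 * Real.pi * ρ x + pf z R ρ x

/-- the density of the transverse form -/
noncomputable def QH (φ₀ : ℝ) (z : ι → ℝ) (R : ι → X) (ρ : X → ℝ) (H : X → X →L[ℝ] X) (a b : ℝ)
    (x : X) : ℝ :=
  ht x ^ 2 * ((2 * pf z R ρ x ^ 2 + pf z R ρ x * (4 * Real.pi * ρ x)) *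
    (cx z R ρ H x ^ 2 + cs z R ρ H x ^ 2)) + ht x ^ 2 * KK z R ρ H a b x ^ 2 -
    4 * Real.pi * gam (psi φ₀ z R ρ x) * (ff z R ρ a b x ^ 2 +
      ht x * ff z R ρ a b x * ⟪ff' z R ρ H a b x, es x⟫)

/-- the coefficient of the tangential field -/
noncomputable def wT (z : ι → ℝ) (R : ι → X) (ρ : X → ℝ) (a b : ℝ) (x : X) : ℝ :=
  1 / 2 * ((YY z R ρ a b x + ff z R ρ a b x) * (pf z R ρ x * zt z R ρ x))

noncomputable def wT' (z : ι → ℝ) (R : ι → X) (ρ : X → ℝ) (H : X → X →L[ℝ] X) (a b : ℝ)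
    (x : X) : X :=
  (1 / 2 : ℝ) • ((YY z R ρ a b x + ff z R ρ a b x) • (pf z R ρ x • (e1 - cf' z R ρ H x) +
    zt z R ρ x • pf' z R ρ H x) + (pf z R ρ x * zt z R ρ x) •
    (YY' z R ρ H a b x + ff' z R ρ H a b x))

theorem Dat.c1_wT (D : Dat φ₀ z R ρ H lo hi) (a b : ℝ) : C1O (wT z R ρ a b) (wT' z R ρ H a b) :=
  (((D.c1_YY a b).add (D.c1_f a b)).mul (D.c1_p.mul D.c1_zt)).const_mul (1 / 2)

/-- the field `T` with `⟪T, ψ'⟫ = 0` -/
noncomputable def TT (z : ι → ℝ) (R : ι → X) (ρ : X → ℝ) (a b : ℝ) (x : X) : X :=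
  wT z R ρ a b x • (ht x ^ 2 • e1 - zt z R ρ x • perp x)

noncomputable def dTT (z : ι → ℝ) (R : ι → X) (ρ : X → ℝ) (H : X → X →L[ℝ] X) (a b : ℝ)
    (x : X) : ℝ :=
  ht x ^ 2 * ⟪wT' z R ρ H a b x, e1⟫ - zt z R ρ x * (ht x * ⟪wT' z R ρ H a b x, es x⟫) +
    wT z R ρ a b x * (ht x * cs z R ρ H x - 2 * zt z R ρ x)

theorem Dat.wd_TT (D : Dat φ₀ z R ρ H lo hi) (a b : ℝ) :
    WD (TT z R ρ a b) (dTT z R ρ H a b) := by
  have h1 := (WD.const e1).mul (C1O.ht_sq)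
  have h2 := WD.perp.mul D.c1_zt
  refine ((h1.sub h2).mul (D.c1_wT a b)).congr (fun x hx => rfl) fun x hx => ?_
  unfold dTT
  rw [perp_es hx, D.c'_eq hx]
  simp only [inner_add_left, inner_add_right, real_inner_smul_left,
    real_inner_smul_right, inner_sub_left, inner_sub_right, inner_e1_self, inner_es_self hx,
    inner_es_e1, inner_e1_es]
  ring

theorem Dat.TT_tang (D : Dat φ₀ z R ρ H lo hi) (a b : ℝ) {x : X} (hx : x ∉ Col.ax) :
    ⟪TT z R ρ a b x, psi' z R ρ x⟫ = 0 := by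
  rw [real_inner_comm, D.inner_psi' hx]
  unfold TT
  rw [Vf_eq z R ρ hx, perp_es hx]
  simp only [inner_add_left, inner_add_right, real_inner_smul_left,
    real_inner_smul_right, inner_sub_left, inner_sub_right, inner_e1_self, inner_es_self hx,
    inner_es_e1, inner_e1_es]
  ring

/-- the stress field of a function with gradient `u'` -/
noncomputable def st (u' : X → X) (x : X) : X :=
  ⟪u' x, perp x⟫ • u' x - (1 / 2 * ‖u' x‖ ^ 2) • perp x

/-- the current of the transverse form -/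
noncomputable def NH (φ₀ : ℝ) (z : ι → ℝ) (R : ι → X) (ρ : X → ℝ) (H : X → X →L[ℝ] X) (a b : ℝ)
    (x : X) : X :=
  st (YY' z R ρ H a b) x - st (psi' z R ρ) x +
    (1 / 2 * (ht x ^ 2 * (4 * Real.pi * ρ x))) • (YY' z R ρ H a b x + ff' z R ρ H a b x) +
    (2 * (4 * Real.pi * ρ x * YY z R ρ a b x)) • perp x +
    (ht x ^ 2 * (4 * Real.pi * ρ x)) • psi' z R ρ x +
    (ht x ^ 2 * (pf z R ρ x * pf z R ρ x) * (a + b - 2 * cf z R ρ x)) • cf' z R ρ H x +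
    gam (psi φ₀ z R ρ x) • ((4 * Real.pi) • TT z R ρ a b x)

theorem idH_alg {p R G z s cx cs c a b px ps : ℝ} (hs : 0 < s) (hp : 0 < p)
    (r1 : z * ps - s * px = p * cs) (r3 : z * px + s * ps = p * cx - 3 * p - R)
    {m t Y Y1 Y2 f f1 f2 w1 w2 : ℝ} (hm : m = a + b - 2 * c) (ht : t = (c - a) * (b - c))
    (hY : Y = p * (z ^ 2 + s ^ 2 + t))
    (hY1 : Y1 = (z ^ 2 + s ^ 2 + t) * px + p * (2 * z - 2 * z * cx + m * cx))
    (hY2 : Y2 = (z ^ 2 + s ^ 2 + t) * ps + p * (2 * s - 2 * z * cs + m * cs))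
    (hf : f = p * t) (hf1 : f1 = t * px + p * (m * cx)) (hf2 : f2 = t * ps + p * (m * cs))
    (hw1 : w1 = 1 / 2 * ((Y + f) * (p * (1 - cx) + z * px) + p * z * (Y1 + f1)))
    (hw2 : w2 = 1 / 2 * ((Y + f) * (p * (0 - cs) + z * ps) + p * z * (Y2 + f2))) :
    4 * R * Y - G * Y ^ 2 + p ^ 2 * (z ^ 2 + s ^ 2) - (Y1 ^ 2 + Y2 ^ 2) =
    (s * Y2 * (G * Y - 4 * R - 2 * p - 2 / s * Y2) + Y2 ^ 2 - (Y1 ^ 2 + Y2 ^ 2)) -
    (s * (-(p * s)) * R + (p * s) ^ 2 - p ^ 2 * (z ^ 2 + s ^ 2)) +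
    (s * R * (Y2 + f2) - 1 / 2 * (s ^ 2 * (G * p)) * (z * (Y1 + f1) + s * (Y2 + f2)) +
      1 / 2 * (s ^ 2 * R) * ((G * Y - 4 * R - 2 * p - 2 / s * Y2) +
        (G * f - 2 * p * (cx ^ 2 + cs ^ 2) - 2 / s * f2))) +
    (s * (2 * (-(G * (p * s)) * Y + R * Y2)) + 4 * R * Y) +
    (2 * s * R * (-(p * s)) + s ^ 2 * (G * (p ^ 2 * (z ^ 2 + s ^ 2))) + s ^ 2 * R * R) +
    (s ^ 2 * p ^ 2 * (-2) * (cx ^ 2 + cs ^ 2)) +
    G * (s ^ 2 * w1 - z * (s * w2) + 1 / 2 * ((Y + f) * (p * z)) * (s * cs - 2 * z)) +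
    (s ^ 2 * ((2 * p ^ 2 + p * R) * (cx ^ 2 + cs ^ 2)) + s ^ 2 * (Y2 / s + R + p) ^ 2 -
      G * (f ^ 2 + s * f * f2)) := by
  have hr : 0 < z ^ 2 + s ^ 2 := by positivity
  have e1 : ps = (z * (p * cs) + s * (p * cx - 3 * p - R)) / (z ^ 2 + s ^ 2) := by
    rw [eq_div_iff hr.ne', ← r1, ← r3]; ring
  have e2 : px = (z * (p * cx - 3 * p - R) - s * (p * cs)) / (z ^ 2 + s ^ 2) := by
    rw [eq_div_iff hr.ne', ← r1, ← r3]; ring
  rw [hw1, hw2, hf1, hf2, hf, hY1, hY2, hY, hm, ht, e1, e2]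
  field_simp
  ring

end Pool.Agent.TF.Col
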