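import Pool.Agent.Lib.MP_9cf0c9_mp.Col58Rel

/-! Collinear nuclei: the identity for the trial `Y = p (r² + τ)`. -/

set_option autoImplicit false
set_option linter.unusedSectionVars false
set_option linter.unusedVariables false

namespace Pool.Agent.TF.Col
open MeasureTheory Set Metric Filter Topology
open scoped ENNReal NNReal RealInnerProductSpace Gradient
open Pool.Agent.TF.Grd

variable {ι : Type*} [Fintype ι]
variable {φ₀ : ℝ} {z : ι → ℝ} {R : ι → X} {ρ : X → ℝ} {H : X → X →L[ℝ] X} {lo hi : ℝ}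

/-- the square of the distance to the foot -/
noncomputable def r2 (z : ι → ℝ) (R : ι → X) (ρ : X → ℝ) (x : X) : ℝ :=
  zt z R ρ x ^ 2 + ht x ^ 2

theorem r2_pos (z : ι → ℝ) (R : ι → X) (ρ : X → ℝ) {x : X} (hx : x ∉ Col.ax) :
    0 < r2 z R ρ x := by
  have := ht_pos hx
  unfold r2
  positivity

/-- the trial `Y = p (r² + τ)` -/
noncomputable def Yt (z : ι → ℝ) (R : ι → X) (ρ : X → ℝ) (τ : X → ℝ) (x : X) : ℝ :=
  pf z R ρ x * (r2 z R ρ x + τ x)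

/-- its gradient -/
noncomputable def Yt' (z : ι → ℝ) (R : ι → X) (ρ : X → ℝ) (H : X → X →L[ℝ] X) (τ : X → ℝ)
    (τ' : X → X) (x : X) : X :=
  pf z R ρ x • ((2 : ℝ) • Vf z R ρ x - (2 * zt z R ρ x) • cf' z R ρ H x + τ' x) +
    (r2 z R ρ x + τ x) • pf' z R ρ H x

/-- the current of the identity -/
noncomputable def Jt (z : ι → ℝ) (R : ι → X) (ρ : X → ℝ) (H : X → X →L[ℝ] X) (τ : X → ℝ)
    (x : X) : X :=
  (-(pf z R ρ x * (r2 z R ρ x + τ x) ^ 2)) • pf' z R ρ H x +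
    (-(pf z R ρ x ^ 2 * (3 * r2 z R ρ x + 4 * τ x))) • Vf z R ρ x +
    (pf z R ρ x ^ 2 * zt z R ρ x * (r2 z R ρ x + 4 * τ x)) • cf' z R ρ H x

/-- the density of the identity -/
noncomputable def Qt (z : ι → ℝ) (R : ι → X) (ρ : X → ℝ) (H : X → X →L[ℝ] X) (τ : X → ℝ)
    (τ' : X → X) (x : X) : ℝ :=
  pf z R ρ x ^ 2 * ((ht x ^ 2 - zt z R ρ x ^ 2) * (cx z R ρ H x ^ 2 + cs z R ρ H x ^ 2) +
    4 * τ x * (cx z R ρ H x ^ 2 + cs z R ρ H x ^ 2 - cx z R ρ H x +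
      zt z R ρ x * cs z R ρ H x / ht x) - ‖τ' x‖ ^ 2 +
    2 * τ x ^ 2 / r2 z R ρ x * (3 + 4 * Real.pi * ρ x / pf z R ρ x - cx z R ρ H x -
      zt z R ρ x * cs z R ρ H x / ht x))

theorem Dat.c1_zt (D : Dat φ₀ z R ρ H lo hi) : C1O (zt z R ρ) fun x => e1 - cf' z R ρ H x :=
  C1O.fst.sub D.c1_c

theorem Dat.c1_r2 (D : Dat φ₀ z R ρ H lo hi) :
    C1O (r2 z R ρ) fun x => (2 : ℝ) • Vf z R ρ x - (2 * zt z R ρ x) • cf' z R ρ H x := by
  refine ((D.c1_zt.mul D.c1_zt).add C1O.ht_sq).congr (fun x hx => ?_) fun x hx => ?_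
  · unfold r2; ring
  · rw [Vf_eq z R ρ hx, ← perp_es hx]
    module

theorem Dat.c1_Y (D : Dat φ₀ z R ρ H lo hi) {τ : X → ℝ} {τ' : X → X} (hτ : C1O τ τ') :
    C1O (Yt z R ρ τ) (Yt' z R ρ H τ τ') :=
  D.c1_p.mul (D.c1_r2.add hτ)

theorem Dat.wd_V (D : Dat φ₀ z R ρ H lo hi) : WD (Vf z R ρ) fun x => 3 - cx z R ρ H x := by
  have h1 : WD (fun x : X => x) fun _ => 3 := by
    refine (WD.of_c1 (A := fun x : X => x) (T := fun _ => ContinuousLinearMap.id ℝ X)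
      (fun x _ => hasFDerivAt_id x) continuousOn_const).congr_div fun x _ => ?_
    unfold tr
    have hj : ∀ j, ⟪(ContinuousLinearMap.id ℝ X) (stdOrthonormalBasis ℝ X j),
        stdOrthonormalBasis ℝ X j⟫ = (1 : ℝ) := fun j => by
      rw [ContinuousLinearMap.id_apply, real_inner_self_eq_norm_sq,
        (stdOrthonormalBasis ℝ X).norm_eq_one, one_pow]
    simp only [hj, Finset.sum_const, Finset.card_univ, Fintype.card_fin, nsmul_eq_mul, mul_one]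
    have : Module.finrank ℝ X = 3 := Fact.out
    rw [this]; norm_num
  refine (h1.sub ((WD.const e1).mul D.c1_c)).congr (fun x hx => rfl) fun x hx => ?_
  unfold cx
  ring

/-- coefficient of `∇p` in the current -/
noncomputable def Ja (z : ι → ℝ) (R : ι → X) (ρ : X → ℝ) (H : X → X →L[ℝ] X) (τ : X → ℝ)
    (τ' : X → X) (x : X) : X :=
  -((r2 z R ρ x + τ x) ^ 2 • pf' z R ρ H x + (2 * pf z R ρ x * (r2 z R ρ x + τ x)) •
    ((2 : ℝ) • Vf z R ρ x - (2 * zt z R ρ x) • cf' z R ρ H x + τ' x))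

/-- the divergence of the current -/
noncomputable def dJt (φ₀ : ℝ) (z : ι → ℝ) (R : ι → X) (ρ : X → ℝ) (H : X → X →L[ℝ] X) (τ : X → ℝ)
    (τ' : X → X) (x : X) : ℝ :=
  (⟪Ja z R ρ H τ τ' x, pf' z R ρ H x⟫ + -(pf z R ρ x * (r2 z R ρ x + τ x) ^ 2) *
    (4 * Real.pi * gam (psi φ₀ z R ρ x) * pf z R ρ x - 2 / ht x * ps z R ρ H x)) +
  (⟪-((2 * pf z R ρ x * (3 * r2 z R ρ x + 4 * τ x)) • pf' z R ρ H x + (pf z R ρ x ^ 2) •
    ((3 : ℝ) • ((2 : ℝ) • Vf z R ρ x - (2 * zt z R ρ x) • cf' z R ρ H x) + (4 : ℝ) • τ' x)),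
      Vf z R ρ x⟫ + -(pf z R ρ x ^ 2 * (3 * r2 z R ρ x + 4 * τ x)) * (3 - cx z R ρ H x)) +
  (⟪(2 * pf z R ρ x * zt z R ρ x * (r2 z R ρ x + 4 * τ x)) • pf' z R ρ H x +
    (pf z R ρ x ^ 2 * (r2 z R ρ x + 4 * τ x)) • (e1 - cf' z R ρ H x) +
    (pf z R ρ x ^ 2 * zt z R ρ x) • ((2 : ℝ) • Vf z R ρ x - (2 * zt z R ρ x) • cf' z R ρ H x +
      (4 : ℝ) • τ' x), cf' z R ρ H x⟫ + pf z R ρ x ^ 2 * zt z R ρ x * (r2 z R ρ x + 4 * τ x) *
    (-(2 / ht x * cs z R ρ H x) - 2 / pf z R ρ x * ⟪pf' z R ρ H x, cf' z R ρ H x⟫))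

theorem Dat.wd_J (D : Dat φ₀ z R ρ H lo hi) {τ : X → ℝ} {τ' : X → X} (hτ : C1O τ τ') :
    WD (Jt z R ρ H τ) (dJt φ₀ z R ρ H τ τ') := by
  have hr := D.c1_r2.add hτ
  have h1 := D.wd_p.mul (D.c1_p.mul (hr.mul hr)).neg
  have h2 := D.wd_V.mul ((D.c1_p.mul D.c1_p).mul ((D.c1_r2.const_mul 3).add (hτ.const_mul 4))).neg
  have h3 := D.wd_c.mul (((D.c1_p.mul D.c1_p).mul D.c1_zt).mul (D.c1_r2.add (hτ.const_mul 4)))
  refine ((h1.add h2).add h3).congr (fun x hx => ?_) fun x hx => ?_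
  · unfold Jt
    congr 3 <;> ring
  · unfold dJt Ja
    congr 1
    · congr 1
      · congr 1
        · congr 1
          module
        · ring
      · congr 1
        · congr 1
          module
        · ring
    · congr 1
      · congr 1
        module
      · ring

theorem id51_alg {p R G z s cx cs t T1 T2 TT px ps : ℝ} (hs : 0 < s) (hp : 0 < p)
    (r1 : z * ps - s * px = p * cs) (r3 : z * px + s * ps = p * cx - 3 * p - R) :
    4 * R * (p * (z ^ 2 + s ^ 2 + t)) - G * (p * (z ^ 2 + s ^ 2 + t)) ^ 2 +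
      p ^ 2 * (z ^ 2 + s ^ 2) -
      ((z ^ 2 + s ^ 2 + t) ^ 2 * (px ^ 2 + ps ^ 2) + 2 * (z ^ 2 + s ^ 2 + t) * p *
        (2 * (z * px + s * ps) - 2 * z * (px * cx + ps * cs) + (px * T1 + ps * T2)) +
        p ^ 2 * (4 * (z ^ 2 + s ^ 2) + 4 * z ^ 2 * (cx ^ 2 + cs ^ 2) + TT -
          8 * z * (z * cx + s * cs) + 4 * (z * T1 + s * T2) - 4 * z * (cx * T1 + cs * T2))) =
    ((-((z ^ 2 + s ^ 2 + t) ^ 2 * (px ^ 2 + ps ^ 2) + 2 * p * (z ^ 2 + s ^ 2 + t) *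
        (2 * (z * px + s * ps) - 2 * z * (px * cx + ps * cs) + (px * T1 + ps * T2)))) +
      -(p * (z ^ 2 + s ^ 2 + t) ^ 2) * (G * p - 2 / s * ps)) +
    ((-(2 * p * (3 * (z ^ 2 + s ^ 2) + 4 * t) * (z * px + s * ps) +
        p ^ 2 * (3 * (2 * (z ^ 2 + s ^ 2) - 2 * z * (z * cx + s * cs)) +
          4 * (z * T1 + s * T2)))) +
      -(p ^ 2 * (3 * (z ^ 2 + s ^ 2) + 4 * t)) * (3 - cx)) +
    ((2 * p * z * (z ^ 2 + s ^ 2 + 4 * t) * (px * cx + ps * cs) +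
        p ^ 2 * (z ^ 2 + s ^ 2 + 4 * t) * (cx - (cx ^ 2 + cs ^ 2)) +
        p ^ 2 * z * (2 * (z * cx + s * cs) - 2 * z * (cx ^ 2 + cs ^ 2) +
          4 * (cx * T1 + cs * T2))) +
      p ^ 2 * z * (z ^ 2 + s ^ 2 + 4 * t) *
        (-(2 / s * cs) - 2 / p * (px * cx + ps * cs))) +
    p ^ 2 * ((s ^ 2 - z ^ 2) * (cx ^ 2 + cs ^ 2) +
      4 * t * (cx ^ 2 + cs ^ 2 - cx + z * cs / s) - TT +
      2 * t ^ 2 / (z ^ 2 + s ^ 2) * (3 + R / p - cx - z * cs / s)) := by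
  have hr : 0 < z ^ 2 + s ^ 2 := by positivity
  have e1 : ps = (z * (p * cs) + s * (p * cx - 3 * p - R)) / (z ^ 2 + s ^ 2) := by
    rw [eq_div_iff hr.ne', ← r1, ← r3]; ring
  have e2 : px = (z * (p * cx - 3 * p - R) - s * (p * cs)) / (z ^ 2 + s ^ 2) := by
    rw [eq_div_iff hr.ne', ← r1, ← r3]; ring
  rw [e1, e2]
  field_simp
  ring

/-- **the identity** -/
theorem Dat.id51 (D : Dat φ₀ z R ρ H lo hi) (τ : X → ℝ) (τ' : X → X) {x : X}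
    (hx : x ∉ Col.ax) :
    4 * (4 * Real.pi * ρ x) * Yt z R ρ τ x -
      4 * Real.pi * gam (psi φ₀ z R ρ x) * Yt z R ρ τ x ^ 2 + ‖psi' z R ρ x‖ ^ 2 -
      ‖Yt' z R ρ H τ τ' x‖ ^ 2 = dJt φ₀ z R ρ H τ τ' x + Qt z R ρ H τ τ' x := by
  have hs := ht_pos hx
  have hp := D.ax.pos x hx
  have r1 := D.curl hx
  have r3 := D.divr hx
  have hP : ‖psi' z R ρ x‖ ^ 2 = pf z R ρ x ^ 2 * (zt z R ρ x ^ 2 + ht x ^ 2) := by
    rw [← real_inner_self_eq_norm_sq, D.inner_psi' hx, real_inner_comm, D.inner_psi' hx]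
    rw [Vf_eq z R ρ hx]
    simp only [inner_add_left, inner_add_right, real_inner_smul_left, real_inner_smul_right,
      inner_e1_self, inner_es_self hx, inner_es_e1, inner_e1_es]
    ring
  have h := id51_alg (p := pf z R ρ x) (R := 4 * Real.pi * ρ x)
    (G := 4 * Real.pi * gam (psi φ₀ z R ρ x)) (z := zt z R ρ x) (s := ht x)
    (cx := cx z R ρ H x) (cs := cs z R ρ H x) (t := τ x) (T1 := ⟪τ' x, e1⟫)
    (T2 := ⟪τ' x, es x⟫) (TT := ‖τ' x‖ ^ 2) (px := px z R ρ H x) (ps := ps z R ρ H x)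
    hs hp r1 r3
  have hY : ‖Yt' z R ρ H τ τ' x‖ ^ 2 = (zt z R ρ x ^ 2 + ht x ^ 2 + τ x) ^ 2 *
      (px z R ρ H x ^ 2 + ps z R ρ H x ^ 2) + 2 * (zt z R ρ x ^ 2 + ht x ^ 2 + τ x) *
      pf z R ρ x * (2 * (zt z R ρ x * px z R ρ H x + ht x * ps z R ρ H x) -
        2 * zt z R ρ x * (px z R ρ H x * cx z R ρ H x + ps z R ρ H x * cs z R ρ H x) +
        (px z R ρ H x * ⟪τ' x, e1⟫ + ps z R ρ H x * ⟪τ' x, es x⟫)) +
      pf z R ρ x ^ 2 * (4 * (zt z R ρ x ^ 2 + ht x ^ 2) + 4 * zt z R ρ x ^ 2 *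
        (cx z R ρ H x ^ 2 + cs z R ρ H x ^ 2) + ‖τ' x‖ ^ 2 -
          8 * zt z R ρ x * (zt z R ρ x * cx z R ρ H x + ht x * cs z R ρ H x) +
          4 * (zt z R ρ x * ⟪τ' x, e1⟫ + ht x * ⟪τ' x, es x⟫) -
          4 * zt z R ρ x * (cx z R ρ H x * ⟪τ' x, e1⟫ + cs z R ρ H x * ⟪τ' x, es x⟫)) := by
    rw [← real_inner_self_eq_norm_sq, ← real_inner_self_eq_norm_sq (τ' x)]
    unfold Yt' r2
    rw [Vf_eq z R ρ hx, D.p'_eq hx, D.c'_eq hx]
    simp only [inner_add_left, inner_add_right, real_inner_smul_left, real_inner_smul_right,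
      inner_sub_left, inner_sub_right, inner_e1_self, inner_es_self hx, inner_es_e1, inner_e1_es,
      real_inner_comm (τ' x) e1, real_inner_comm (τ' x) (es x)]
    ring
  rw [hP, hY]
  unfold Yt r2
  rw [h]
  unfold dJt Qt Ja r2
  rw [Vf_eq z R ρ hx, D.p'_eq hx, D.c'_eq hx]
  simp only [inner_neg_left, inner_add_left, inner_add_right, real_inner_smul_left,
    real_inner_smul_right, inner_sub_left, inner_e1_self, inner_es_self hx,
    inner_es_e1, inner_e1_es]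
  ring

end Pool.Agent.TF.Col
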