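import Pool.Agent.Lib.MP_9cf0c9_mp.Col58Wd

/-! Collinear nuclei: first derivatives of `p` and `c` off the axis, the first order relations
and the weak divergences of `∇p` and `∇c`. -/

set_option autoImplicit false
set_option linter.unusedSectionVars false
set_option linter.unusedVariables false

namespace Pool.Agent.TF.Col
open MeasureTheory Set Metric Filter Topology
open scoped ENNReal NNReal RealInnerProductSpace Gradient
open Pool.Agent.TF.Grd

variable {ι : Type*} [Fintype ι]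

/-- data of a solution with nuclei on the axis -/
structure Dat (φ₀ : ℝ) (z : ι → ℝ) (R : ι → X) (ρ : X → ℝ) (H : X → X →L[ℝ] X)
    (lo hi : ℝ) : Prop where
  hz : ∀ i, 0 ≤ z i
  hφ : 0 < φ₀
  hρ : TC ρ
  heq : ∀ x, ρ x = tf (Vpt z R x - pot ρ x - φ₀)
  hs : HessSol z R ρ H
  ax : Axial z R ρ lo hi

variable {φ₀ : ℝ} {z : ι → ℝ} {R : ι → X} {ρ : X → ℝ} {H : X → X →L[ℝ] X} {lo hi : ℝ}

theorem Dat.off (D : Dat φ₀ z R ρ H lo hi) {x : X} (hx : x ∉ Col.ax) : ∀ i, x ≠ R i :=
  ax_nontrivial_off D.ax.on_axis hx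

theorem Dat.contH (D : Dat φ₀ z R ρ H lo hi) : ContinuousOn H Col.axᶜ :=
  fun x hx => (D.hs.contAt (D.off hx)).continuousWithinAt

theorem Dat.derivP (D : Dat φ₀ z R ρ H lo hi) {x : X} (hx : x ∉ Col.ax) :
    HasFDerivAt (psi' z R ρ) (H x) x := D.hs.deriv x (D.off hx)

theorem Dat.contP (D : Dat φ₀ z R ρ H lo hi) : ContinuousOn (psi' z R ρ) Col.axᶜ :=
  fun x hx => (D.derivP hx).continuousAt.continuousWithinAt

theorem Dat.c1_psi (D : Dat φ₀ z R ρ H lo hi) : C1O (psi φ₀ z R ρ) (psi' z R ρ) :=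
  ⟨fun x hx => psi_grad D.hz D.hφ D.hρ D.heq (D.off hx), D.contP⟩

theorem Dat.cont_gam (D : Dat φ₀ z R ρ H lo hi) :
    ContinuousOn (fun x => gam (psi φ₀ z R ρ x)) Col.axᶜ :=
  gam_continuous'.comp_continuousOn D.c1_psi.cont0

/-- `4πρ` is continuously differentiable -/
theorem Dat.c1_rho (D : Dat φ₀ z R ρ H lo hi) :
    C1O ρ fun x => gam (psi φ₀ z R ρ x) • psi' z R ρ x :=
  ⟨fun x hx => hasGradientAt_rho D.hz R D.hφ D.hρ D.heq (D.off hx), D.cont_gam.smul D.contP⟩

/-! ### weak equations -/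

theorem Dat.wd_psi' (D : Dat φ₀ z R ρ H lo hi) :
    WD (psi' z R ρ) fun x => 4 * Real.pi * ρ x := by
  refine WD.of_tst D.contP (continuousOn_const.mul D.c1_rho.cont0) fun η hη => ?_
  obtain ⟨C, hC⟩ := hη.lip
  have h1 := (weak_sol z R D.hρ hC hη.cs).2
  have h0 : ∀ i, η (R i) = 0 := fun i => by
    by_contra h
    exact hη.notMem (subset_tsupport η (by simpa using h)) (D.ax.on_axis i)
  simp only [h0, mul_zero, Finset.sum_const_zero, zero_sub] at h1
  have e : ∀ x, 4 * Real.pi * ρ x * η x = 4 * Real.pi * (ρ x * η x) := fun x => by ring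
  simp_rw [e]
  rw [integral_const_mul]
  exact h1

theorem Dat.wd_H (D : Dat φ₀ z R ρ H lo hi) (e : X) :
    WD (fun x => H x e) fun x => 4 * Real.pi * gam (psi φ₀ z R ρ x) * ⟪psi' z R ρ x, e⟫ := by
  refine WD.of_tst (fun x hx => (D.hs.contAt (D.off hx)).clm_apply
      continuousAt_const |>.continuousWithinAt)
    ((continuousOn_const.mul D.cont_gam).mul (D.contP.inner continuousOn_const)) fun η hη => ?_
  obtain ⟨C, hC⟩ := hη.lip
  exact weak_hess D.hz R D.hφ D.hρ D.heq D.hs e hC hη.cs fun i hi => hη.notMem hi (D.ax.on_axis i)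

/-! ### derivatives of `p` and `c` -/

theorem perp_symm (x y : X) : ⟪perp x, y⟫ = ⟪x, perp y⟫ := by
  rw [inner_X, inner_X]; simp [perp]

theorem Dat.c1_inner (D : Dat φ₀ z R ρ H lo hi) (e : X) :
    C1O (fun x => ⟪psi' z R ρ x, e⟫) fun x => H x e := by
  refine ⟨fun x hx => ?_, fun x hx => (D.hs.contAt (D.off hx)).clm_apply
      continuousAt_const |>.continuousWithinAt⟩
  have h1 := (innerSL ℝ e).hasFDerivAt.comp x (D.derivP hx)
  rw [hasGradientAt_iff_hasFDerivAt]
  refine (h1.congr_of_eventuallyEq (Eventually.of_forall fun y => ?_)).congr_fderiv ?_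
  · simp only [Function.comp, innerSL_apply_apply]
    exact real_inner_comm _ _
  · ext v
    simp only [ContinuousLinearMap.comp_apply, innerSL_apply_apply,
      InnerProductSpace.toDual_apply_apply]
    rw [← D.hs.symm x (D.off hx)]

theorem Dat.c1_perp (D : Dat φ₀ z R ρ H lo hi) :
    C1O (fun x => ⟪psi' z R ρ x, perp x⟫) fun x => H x (perp x) + perp (psi' z R ρ x) := by
  refine ⟨fun x hx => ?_, ?_⟩
  · have h1 := (D.derivP hx).inner ℝ (hasFDerivAt_perp x)
    rw [hasGradientAt_iff_hasFDerivAt]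
    refine h1.congr_fderiv ?_
    ext v
    simp only [ContinuousLinearMap.comp_apply, InnerProductSpace.toDual_apply_apply,
      fderivInnerCLM_apply, ContinuousLinearMap.prod_apply, perp_apply]
    rw [inner_add_left, perp_symm, D.hs.symm x (D.off hx) (perp x) v,
      real_inner_comm (H x v) (perp x)]
    ring
  · have h1 : ContinuousOn (fun x => H x (perp x)) Col.axᶜ := fun x hx =>
      ((D.hs.contAt (D.off hx)).clm_apply perp_continuous.continuousAt).continuousWithinAt
    exact h1.add (perp_continuous.comp_continuousOn D.contP)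

theorem Dat.c1_p (D : Dat φ₀ z R ρ H lo hi) : C1O (pf z R ρ) (pf' z R ρ H) := by
  have h1 := (D.c1_perp.mul (C1O.ht_sq.inv fun x hx => pow_ne_zero 2 (ht_pos hx).ne')).neg
  refine h1.congr (fun x hx => ?_) fun x hx => ?_
  · unfold pf
    rw [div_eq_mul_inv]
  · have := ht_pos hx
    unfold pf'
    rw [smul_smul, smul_smul]
    congr 1
    rw [add_comm, sub_eq_add_neg, ← neg_smul]
    congr 2
    field_simp

theorem Dat.c1_c (D : Dat φ₀ z R ρ H lo hi) : C1O (cf z R ρ) (cf' z R ρ H) := by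
  have h1 := C1O.fst.add ((D.c1_inner e1).mul (D.c1_p.inv fun x hx => (D.ax.pos x hx).ne'))
  refine h1.congr (fun x hx => ?_) fun x hx => ?_
  · unfold cf
    rw [div_eq_mul_inv]
  · have := D.ax.pos x hx
    unfold cf'
    congr 1
    rw [add_comm, sub_eq_add_neg, ← neg_smul, smul_smul]
    congr 2
    rw [div_eq_mul_inv, mul_neg]

end Pool.Agent.TF.Col
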