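import Pool.Agent.Lib.MP_9cf0c9_mp.PointSol
import Pool.Agent.Lib.MP_9cf0c9_mp.Compare
import Pool.Agent.Lib.MP_9cf0c9_mp.ConvexCrit

/-! The second variation of the Thomas-Fermi energy under dilations: a trial field `k` with
nonnegative second variation gives the support inequality for the energy as a function of the
volume. -/

set_option linter.unusedSectionVars false
set_option linter.unusedVariables false
set_option linter.style.haveILetI false

namespace Pool.Agent.TF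
open MeasureTheory Set Metric Filter Topology
open scoped ENNReal NNReal RealInnerProductSpace

/-! ### pointwise expansion -/

/-- the derivative of `tf` -/
noncomputable def gam (w : ℝ) : ℝ := 3 / 2 * √(max w 0)

theorem gam_nonneg (w : ℝ) : 0 ≤ gam w := by unfold gam; positivity

theorem gam_continuous : Continuous gam := by unfold gam; fun_prop

theorem gam_of_nonpos {w : ℝ} (hw : w ≤ 0) : gam w = 0 := by
  unfold gam; rw [max_eq_right hw]; simp

theorem Phi_taylor (w η : ℝ) :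
    Phi (w + η) ≤ Phi w + tf w * η + 1 / 2 * gam w * η ^ 2 + 3 * (η ^ 2 * √|η|) := by
  have hs0 : 0 ≤ √|η| := Real.sqrt_nonneg _
  rcases lt_or_ge w 0 with hw | hw
  · rw [Phi_of_nonpos hw.le, tf_of_nonpos hw.le, gam_of_nonpos hw.le]
    rcases le_total (w + η) 0 with h | h
    · rw [Phi_of_nonpos h]
      have : 0 ≤ η ^ 2 * √|η| := by positivity
      linarith
    · have hη : 0 ≤ η := by linarith
      have h1 : Phi (w + η) ≤ Phi η := by
        unfold Phi
        have h2 : tf (w + η) ≤ tf η := tf_mono (by linarith)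
        have h3 := tf_nonneg (w + η)
        have : (w + η) * tf (w + η) ≤ η * tf η := mul_le_mul (by linarith) h2 h3 hη
        linarith
      refine h1.trans ?_
      unfold Phi tf
      rw [max_eq_left hη, abs_of_nonneg hη]
      have : 0 ≤ η ^ 2 * √η := by positivity
      linarith
  · set A : ℝ := √w with hA
    have hA0 : 0 ≤ A := Real.sqrt_nonneg _
    have hA2 : w = A ^ 2 := (Real.sq_sqrt hw).symm
    have e1 : Phi w = 2 / 5 * A ^ 5 := by
      unfold Phi tf; rw [max_eq_left hw, ← hA]; rw [hA2]; ring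
    have e2 : tf w = A ^ 3 := by
      unfold tf; rw [max_eq_left hw, ← hA]; rw [hA2]; ring
    have e3 : gam w = 3 / 2 * A := by
      unfold gam; rw [max_eq_left hw, ← hA]
    rcases lt_or_ge (w + η) 0 with h | h
    · rw [Phi_of_nonpos h.le, e1, e2, e3]
      have hη : A ^ 2 < |η| := by
        rw [abs_of_neg (by linarith [sq_nonneg A])]
        linarith
      have h2 : A ≤ √|η| := Real.le_sqrt_of_sq_le hη.le
      have hηn : η < 0 := by linarith [sq_nonneg A]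
      have h3 : |η| = -η := abs_of_neg hηn
      have h4 : A ^ 2 * (A * (-η)) ≤ (-η) * (√|η| * (-η)) := by
        refine mul_le_mul (by rw [← h3]; exact hη.le) ?_ (mul_nonneg hA0 (by linarith)) (by linarith)
        exact mul_le_mul_of_nonneg_right h2 (by linarith)
      have h5 : 0 ≤ A ^ 5 := by positivity
      have h6 : 0 ≤ A * η ^ 2 := by positivity
      have h7 : 0 ≤ η ^ 2 * √|η| := by positivity
      linarith
    · set B : ℝ := √(w + η) with hB
      have hB0 : 0 ≤ B := Real.sqrt_nonneg _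
      have hB2 : w + η = B ^ 2 := (Real.sq_sqrt h).symm
      have e4 : Phi (w + η) = 2 / 5 * B ^ 5 := by
        unfold Phi tf; rw [max_eq_left h, ← hB]; rw [hB2]; ring
      have hη : η = B ^ 2 - A ^ 2 := by linarith
      rw [e4, e1, e2, e3]
      have key : 2 / 5 * A ^ 5 + A ^ 3 * η + 1 / 2 * (3 / 2 * A) * η ^ 2 =
          2 / 5 * B ^ 5 - 1 / 20 * ((B - A) ^ 3 * (8 * B ^ 2 + 9 * A * B + 3 * A ^ 2)) := by
        rw [hη]; ring
      rw [key]
      rcases le_total B A with hBA | hBA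
      · have h1 : (B - A) ^ 3 ≤ 0 := by
          have : 0 ≤ (A - B) ^ 3 := by
            have : 0 ≤ A - B := by linarith
            positivity
          linarith
        have h2 : 0 ≤ 8 * B ^ 2 + 9 * A * B + 3 * A ^ 2 := by positivity
        have h3 : (B - A) ^ 3 * (8 * B ^ 2 + 9 * A * B + 3 * A ^ 2) ≤ 0 :=
          mul_nonpos_of_nonpos_of_nonneg h1 h2
        have h4 : 0 ≤ η ^ 2 * √|η| := by positivity
        linarith
      · have hd : 0 ≤ B - A := by linarith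
        have hηp : 0 ≤ η := by rw [hη]; linarith [mul_nonneg hd (add_nonneg hB0 hA0)]
        have h1 : B - A ≤ √|η| := by
          refine Real.le_sqrt_of_sq_le ?_
          rw [abs_of_nonneg hηp, hη]
          linarith [mul_nonneg hd hA0]
        have h2 : η ^ 2 * (B - A) ≤ η ^ 2 * √|η| := mul_le_mul_of_nonneg_left h1 (by positivity)
        have h3 : η ^ 2 * (B - A) = (B - A) ^ 3 * (A + B) ^ 2 := by rw [hη]; ring
        have h4 : (B - A) ^ 3 * (8 * B ^ 2 + 9 * A * B + 3 * A ^ 2) ≤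
            (B - A) ^ 3 * (20 * (A + B) ^ 2) := by
          refine mul_le_mul_of_nonneg_left ?_ (by positivity)
          linarith [mul_nonneg hA0 hB0, sq_nonneg A, sq_nonneg B]
        have h6 : 0 ≤ η ^ 2 * √|η| := by positivity
        linarith

/-! ### dilations -/

section dil
variable {V : Type*} [NormedAddCommGroup V] [InnerProductSpace ℝ V] [FiniteDimensional ℝ V]
  [MeasurableSpace V] [BorelSpace V] [hd : Fact (Module.finrank ℝ V = 3)]
variable {ι : Type*} [Fintype ι]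

theorem TC.cmul {f : V → ℝ} (hf : TC f) {c : ℝ} (hc : 0 ≤ c) : TC (fun x => c * f x) := by
  refine ⟨hf.meas.const_mul c, fun x => mul_nonneg hc (hf.nonneg x), hf.int.const_mul c, ?_⟩
  refine (hf.int53.const_mul (c ^ (5 / 3 : ℝ))).congr (Eventually.of_forall fun x => ?_)
  simp only
  rw [Real.mul_rpow hc (hf.nonneg x)]

theorem En_cmul_left (c : ℝ) (f g : V → ℝ) : En (fun x => c * f x) g = c * En f g := by
  unfold En
  rw [← integral_const_mul]
  exact integral_congr_ae (Eventually.of_forall fun x => by ring)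

theorem En_cmul_right (c : ℝ) (f g : V → ℝ) : En f (fun x => c * g x) = c * En f g := by
  unfold En
  rw [← integral_const_mul]
  refine integral_congr_ae (Eventually.of_forall fun x => ?_)
  simp only
  rw [pot_const_mul]
  ring

theorem TC.dil {l : ℝ} (hl : 0 < l) {σ : V → ℝ} (hσ : TC σ) : TC (fun y => σ (l • y)) :=
  ⟨hσ.meas.comp (measurable_const_smul l), fun y => hσ.nonneg _,
    (integrable_comp_smul_iff volume σ hl.ne').mpr hσ.int,
    (integrable_comp_smul_iff volume (fun x => σ x ^ (5 / 3 : ℝ)) hl.ne').mpr hσ.int53⟩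

theorem pot_dil {l : ℝ} (hl : 0 < l) (σ : V → ℝ) (x : V) :
    pot σ (l • x) = l ^ 2 * pot (fun y => σ (l • y)) x := by
  have h := pot_scl hl σ x
  have h2 : pot (scl l σ) x = l ^ 3 * pot (fun y => σ (l • y)) x := by
    unfold scl
    exact pot_const_mul _ _ _
  rw [h2] at h
  refine mul_left_cancel₀ hl.ne' ?_
  rw [← h]
  ring

theorem Ept_dil (φ₀ : ℝ) (z : ι → ℝ) (R : ι → V) {l : ℝ} (hl : 0 < l) {σ : V → ℝ} (hσ : TC σ) :
    Ept φ₀ z (fun i => l • R i) σ = l⁻¹ * Unuc z R +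
      l ^ 3 * (3 / 5 * (∫ y, (σ (l • y)) ^ (5 / 3 : ℝ)) + φ₀ * (∫ y, σ (l • y)) -
        l⁻¹ * (∑ i, z i * pot (fun y => σ (l • y)) (R i)) +
        1 / 2 * l ^ 2 * En (fun y => σ (l • y)) (fun y => σ (l • y))) := by
  have h1 : ∫ y, (σ (l • y)) ^ (5 / 3 : ℝ) = (l ^ 3)⁻¹ * ∫ x, σ x ^ (5 / 3 : ℝ) :=
    integral_smul3 hl (fun x => σ x ^ (5 / 3 : ℝ))
  have h2 : ∫ y, σ (l • y) = (l ^ 3)⁻¹ * ∫ x, σ x := integral_smul3 hl σ
  have h3 : En (fun y => σ (l • y)) (fun y => σ (l • y)) = (l ^ 5)⁻¹ * En σ σ := by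
    unfold En
    have e1 : ∀ x, σ (l • x) * pot (fun y => σ (l • y)) x =
        (l ^ 2)⁻¹ * (fun x => σ x * pot σ x) (l • x) := by
      intro x
      simp only
      rw [pot_dil hl σ x]
      field_simp
    simp_rw [e1]
    rw [integral_const_mul, integral_smul3 hl (fun x => σ x * pot σ x)]
    field_simp
  have h4 : ∑ i, z i * pot σ (l • R i) = l ^ 2 * ∑ i, z i * pot (fun y => σ (l • y)) (R i) := by
    rw [Finset.mul_sum]
    refine Finset.sum_congr rfl fun i _ => ?_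
    rw [pot_dil hl σ]
    ring
  unfold Ept
  rw [Unuc_smul R hl, h4, h1, h2, h3]
  field_simp
  ring

end dil

/-! ### integrals with the nuclear potential -/

variable {ι : Type*} [Fintype ι]

theorem Vpt_mul_eq (z : ι → ℝ) (R : ι → X) (s : X → ℝ) (x : X) :
    Vpt z R x * s x = ∑ i, z i * (‖R i - x‖⁻¹ * s x) := by
  unfold Vpt
  rw [Finset.sum_mul]
  refine Finset.sum_congr rfl fun i _ => ?_
  rw [norm_sub_rev]
  ring

theorem TC.Vpt_int {s : X → ℝ} (hs : TC s) (z : ι → ℝ) (R : ι → X) :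
    Integrable (fun x => Vpt z R x * s x) := by
  have h1 : Integrable (fun x => ∑ i, z i * (‖R i - x‖⁻¹ * s x)) :=
    integrable_finsetSum _ fun i _ => (hs.pot_integrable (R i)).const_mul (z i)
  refine h1.congr (Eventually.of_forall fun x => ?_)
  simp only
  rw [Vpt_mul_eq]

theorem TC.Vpt_eq {s : X → ℝ} (hs : TC s) (z : ι → ℝ) (R : ι → X) :
    ∫ x, Vpt z R x * s x = ∑ i, z i * pot s (R i) := by
  simp_rw [Vpt_mul_eq]
  rw [integral_finsetSum _ fun i _ => (hs.pot_integrable (R i)).const_mul (z i)]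
  refine Finset.sum_congr rfl fun i _ => ?_
  rw [integral_const_mul]
  rfl

theorem Phi_eq_tf (w : ℝ) : Phi w = 2 / 5 * tf w ^ (5 / 3 : ℝ) := by
  have h := young_tf_eq w
  unfold Phi at h ⊢
  linarith

theorem rpow52_add {a b : ℝ} (ha : 0 ≤ a) (hb : 0 ≤ b) :
    (a + b) ^ (5 / 2 : ℝ) ≤ 2 ^ (5 / 2 : ℝ) * (a ^ (5 / 2 : ℝ) + b ^ (5 / 2 : ℝ)) := by
  have ha' := Real.rpow_nonneg ha (5 / 2 : ℝ)
  have hb' := Real.rpow_nonneg hb (5 / 2 : ℝ)
  have h2 : (0 : ℝ) ≤ 2 ^ (5 / 2 : ℝ) := by positivity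
  rcases le_total a b with h | h
  · have h1 : (a + b) ^ (5 / 2 : ℝ) ≤ (2 * b) ^ (5 / 2 : ℝ) :=
      Real.rpow_le_rpow (by positivity) (by linarith) (by norm_num)
    rw [Real.mul_rpow (by norm_num) hb] at h1
    refine h1.trans (mul_le_mul_of_nonneg_left (by linarith) h2)
  · have h1 : (a + b) ^ (5 / 2 : ℝ) ≤ (2 * a) ^ (5 / 2 : ℝ) :=
      Real.rpow_le_rpow (by positivity) (by linarith) (by norm_num)
    rw [Real.mul_rpow (by norm_num) ha] at h1
    refine h1.trans (mul_le_mul_of_nonneg_left (by linarith) h2)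

/-- integrable dominating function for the second variation -/
theorem dom52 {z : ι → ℝ} (hz : ∀ i, 0 ≤ z i) (R : ι → X) {B : ℝ} (hB : 0 ≤ B) (r : ℝ) :
    Integrable ((ball (0 : X) r).indicator
      fun x => (Vpt z R x + B) ^ 2 * √(Vpt z R x + B)) := by
  have hg := gdom_TC hz R (one_pos)
  set Bl : X → ℝ := (ball (0 : X) r).indicator fun _ => (1 : ℝ) with hBl
  have hBint : Integrable Bl := (integrable_indicator_iff measurableSet_ball).mpr
    (integrableOn_const measure_ball_lt_top.ne)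
  have hm : Measurable fun x => (Vpt z R x + B) ^ 2 * √(Vpt z R x + B) := by
    have h1 : Measurable fun x => Vpt z R x + B := (Vpt_meas z R).add_const _
    exact (h1.pow_const 2).mul h1.sqrt
  refine ((hg.int53.const_mul (2 ^ (5 / 2 : ℝ))).add
    (hBint.const_mul (2 ^ (5 / 2 : ℝ) * (1 + B) ^ (5 / 2 : ℝ)))).mono'
    (hm.indicator measurableSet_ball).aestronglyMeasurable (Eventually.of_forall fun x => ?_)
  have hV := Vpt_nonneg hz R x
  have hg0 : 0 ≤ gdom 1 z R x ^ (5 / 3 : ℝ) := Real.rpow_nonneg (tf_nonneg _) _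
  rw [Pi.add_apply]
  by_cases hx : x ∈ ball (0 : X) r
  · rw [indicator_of_mem hx]
    have hB1 : Bl x = 1 := indicator_of_mem hx _
    have e1 : (Vpt z R x + B) ^ 2 * √(Vpt z R x + B) = (Vpt z R x + B) ^ (5 / 2 : ℝ) := by
      have h0 : 0 ≤ Vpt z R x + B := by positivity
      rw [Real.sqrt_eq_rpow, ← Real.rpow_natCast, ← Real.rpow_add_of_nonneg h0 (by norm_num)
        (by norm_num)]
      norm_num
    rw [e1, Real.norm_of_nonneg (by positivity), hB1, mul_one]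
    have h1 : (Vpt z R x + B) ^ (5 / 2 : ℝ) ≤
        (max (Vpt z R x - 1) 0 + (1 + B)) ^ (5 / 2 : ℝ) := by
      refine Real.rpow_le_rpow (by positivity) ?_ (by norm_num)
      have := le_max_left (Vpt z R x - 1) 0
      linarith
    have h2 := rpow52_add (le_max_right (Vpt z R x - 1) 0) (by positivity : (0 : ℝ) ≤ 1 + B)
    have h3 : max (Vpt z R x - 1) 0 ^ (5 / 2 : ℝ) = gdom 1 z R x ^ (5 / 3 : ℝ) := by
      unfold gdom
      rcases le_total (Vpt z R x - 1) 0 with h | h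
      · rw [max_eq_right h, tf_of_nonpos h, Real.zero_rpow (by norm_num),
          Real.zero_rpow (by norm_num)]
      · rw [max_eq_left h, tf_eq_rpow h, ← Real.rpow_mul h]
        norm_num
    rw [h3] at h2
    refine h1.trans (h2.trans (le_of_eq ?_))
    ring
  · rw [indicator_of_notMem hx, norm_zero]
    have : 0 ≤ Bl x := indicator_nonneg (fun _ _ => zero_le_one) _
    positivity

/-! ### the second variation -/

/-- the second variation of the energy in the volume for the trial potential `V + k` -/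
noncomputable def Vtr (φ₀ : ℝ) (z : ι → ℝ) (R : ι → X) (ρ k : X → ℝ) (E : ℝ) : ℝ :=
  4 * Unuc z R + En ρ ρ + 2 * (∑ i, z i * pot ρ (R i)) + 4 * (∫ x, ρ x * k x) -
    (∫ x, gam (Vpt z R x - pot ρ x - φ₀) * (Vpt z R x + k x) ^ 2) - 2 * E

theorem q_algebra {s U A0 A1 A2 En QVV QVk Qkk E M D m : ℝ} (hs : 1 + s ≠ 0)
    (hm : m = s + s ^ 2 + s ^ 3 / 3)
    (hD : D = (1 + s)⁻¹ * U - (1 + s) ^ 3 * (A0 + (((1 + s)⁻¹ - 1) * A1 - m * A2) +
      1 / 2 * (((1 + s)⁻¹ - 1) ^ 2 * QVV - 2 * ((1 + s)⁻¹ - 1) * m * QVk + m ^ 2 * Qkk) +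
      s ^ 2 * M) - m * (1 + s) * A2 - (1 + s) * m ^ 2 * E - 1 / 2 * (1 + s) * En) :
    D = (U - A0 - 1 / 2 * En) + (-U - 3 * A0 + A1 - 1 / 2 * En) / 3 * (3 * m) +
      s ^ 2 * (U * ((1 + s)⁻¹ + 1 + s / 3) + A1 * (1 + 2 / 3 * s) + En / 2 * (1 + s / 3) +
        A2 * (1 + s + s ^ 2 / 3) * (1 + s) * (2 + s) - 1 / 2 * (1 + s) * QVV -
        (1 + s) ^ 2 * (1 + s + s ^ 2 / 3) * QVk -
        1 / 2 * (1 + s) ^ 3 * (1 + s + s ^ 2 / 3) ^ 2 * Qkk -
        (1 + s) * (1 + s + s ^ 2 / 3) ^ 2 * E - (1 + s) ^ 3 * M) := by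
  rw [hD, hm]
  field_simp
  ring

theorem eta_bound {s V B k : ℝ} (hs : |s| ≤ 1 / 4) (hV : 0 ≤ V) (hB : 0 ≤ B) (hk : |k| ≤ B) :
    |((1 + s)⁻¹ - 1) * V - (s + s ^ 2 + s ^ 3 / 3) * k| ≤ 2 * |s| * (V + B) := by
  have hs' := abs_le.mp hs
  have h1 : 0 < 1 + s := by linarith
  have e1 : (1 + s)⁻¹ - 1 = -(s * (1 + s)⁻¹) := by field_simp; ring
  have h2 : |(1 + s)⁻¹ - 1| ≤ 2 * |s| := by
    rw [e1, abs_neg, abs_mul, abs_of_pos (inv_pos.mpr h1)]
    have : (1 + s)⁻¹ ≤ 2 := by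
      rw [inv_le_comm₀ h1 (by norm_num)]
      linarith
    nlinarith [abs_nonneg s]
  have h3 : |s + s ^ 2 + s ^ 3 / 3| ≤ 2 * |s| := by
    have e2 : s + s ^ 2 + s ^ 3 / 3 = (1 + s + s ^ 2 / 3) * s := by ring
    rw [e2, abs_mul]
    refine mul_le_mul_of_nonneg_right ?_ (abs_nonneg s)
    rw [abs_le]
    constructor <;> nlinarith
  have h4 : |((1 + s)⁻¹ - 1) * V| ≤ 2 * |s| * V := by
    rw [abs_mul, abs_of_nonneg hV]
    exact mul_le_mul_of_nonneg_right h2 hV
  have h5 : |(s + s ^ 2 + s ^ 3 / 3) * k| ≤ 2 * |s| * B := by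
    rw [abs_mul]
    exact mul_le_mul h3 hk (abs_nonneg _) (by positivity)
  have h6 := abs_sub (((1 + s)⁻¹ - 1) * V) ((s + s ^ 2 + s ^ 3 / 3) * k)
  linarith

theorem Ept_ge {z : ι → ℝ} (hz : ∀ i, 0 ≤ z i) (R : ι → X) {φ₀ : ℝ} (hφ : 0 < φ₀) {ρ : X → ℝ}
    (hρ : TC ρ) (heq : ∀ x, ρ x = tf (Vpt z R x - pot ρ x - φ₀)) {k : X → ℝ}
    (hk : Measurable k) {B : ℝ} (hB1 : 0 ≤ B) (hB : ∀ x, |k x| ≤ B) {E : ℝ}
    (hT : ∀ σ τ : X → ℝ, TC σ → TC τ → ∀ c : ℝ,
      c * (∫ x, (σ x - τ x) * k x) ≤ c ^ 2 * E + 1 / 2 * (En σ σ - 2 * En σ τ + En τ τ))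
    {r : ℝ} (hr : ∀ x, r ≤ ‖x‖ → Vpt z R x ≤ φ₀ / 4)
    {s : ℝ} (hs : |s| ≤ 1 / 4) (hsB : 2 * |s| * B ≤ φ₀ / 4) {m : ℝ}
    (hm : m = s + s ^ 2 + s ^ 3 / 3) {σ : X → ℝ} (hσ : TC σ) :
    (1 + s)⁻¹ * Unuc z R - (1 + s) ^ 3 * ((∫ x, Phi (Vpt z R x - pot ρ x - φ₀)) +
      (((1 + s)⁻¹ - 1) * (∑ i, z i * pot ρ (R i)) - m * ∫ x, ρ x * k x) +
      1 / 2 * (((1 + s)⁻¹ - 1) ^ 2 * (∫ x, gam (Vpt z R x - pot ρ x - φ₀) * Vpt z R x ^ 2) -
        2 * ((1 + s)⁻¹ - 1) * m * (∫ x, gam (Vpt z R x - pot ρ x - φ₀) * (Vpt z R x * k x)) +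
        m ^ 2 * (∫ x, gam (Vpt z R x - pot ρ x - φ₀) * k x ^ 2)) +
      s ^ 2 * (12 * √(2 * |s|) * ∫ x, (ball (0 : X) r).indicator
        (fun x => (Vpt z R x + B) ^ 2 * √(Vpt z R x + B)) x)) -
      m * (1 + s) * (∫ x, ρ x * k x) - (1 + s) * m ^ 2 * E - 1 / 2 * (1 + s) * En ρ ρ ≤
    Ept φ₀ z (fun i => (1 + s) • R i) σ := by
  have hs' := abs_le.mp hs
  have hl : 0 < 1 + s := by linarith
  set V : X → ℝ := Vpt z R with hVdef
  set w : X → ℝ := fun x => V x - pot ρ x - φ₀ with hw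
  set dm : X → ℝ := (ball (0 : X) r).indicator (fun x => (V x + B) ^ 2 * √(V x + B)) with hdm
  set a : ℝ := (1 + s)⁻¹ - 1 with ha
  set η : X → ℝ := fun x => a * V x - m * k x with hη
  set T : X → ℝ := fun y => σ ((1 + s) • y) with hTdef
  have hTT : TC T := hσ.dil hl
  have hV0 : ∀ x, 0 ≤ V x := Vpt_nonneg hz R
  have hVm : Measurable V := Vpt_meas z R
  have hpm : Measurable (pot ρ) := hρ.pot_continuous.measurable
  have hwm : Measurable w := (hVm.sub hpm).sub measurable_const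
  have hηm : Measurable η := (hVm.const_mul a).sub (hk.const_mul m)
  have hp0 : ∀ x, 0 ≤ pot ρ x := pot_nonneg hρ.nonneg
  have hdmi : Integrable dm := dom52 hz R hB1 r
  have hdm0 : ∀ x, 0 ≤ dm x := fun x => indicator_nonneg (fun y _ => by
    have := hV0 y
    positivity) x
  -- bounds outside the ball
  have hηb : ∀ x, |η x| ≤ 2 * |s| * (V x + B) := by
    intro x
    have := eta_bound hs (hV0 x) hB1 (hB x)
    simp only [hη, ha, hm]
    exact this
  have hout : ∀ x, x ∉ ball (0 : X) r → w x ≤ 0 ∧ w x + η x ≤ 0 := by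
    intro x hx
    have hx' : r ≤ ‖x‖ := by simpa using hx
    have h1 := hr x hx'
    have h2 := hp0 x
    have h3 := (abs_le.mp (hηb x)).2
    have h4 : 2 * |s| * (V x + B) ≤ 1 / 2 * V x + φ₀ / 4 := by
      have : 2 * |s| * V x ≤ 1 / 2 * V x := mul_le_mul_of_nonneg_right (by linarith) (hV0 x)
      linarith
    simp only [hw]
    constructor <;> linarith
  -- the pointwise expansion
  have hpt : ∀ x, Phi (w x + η x) ≤ Phi (w x) + (a * (V x * ρ x) - m * (ρ x * k x)) +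
      1 / 2 * (a ^ 2 * (gam (w x) * V x ^ 2) - 2 * a * m * (gam (w x) * (V x * k x)) +
        m ^ 2 * (gam (w x) * k x ^ 2)) + s ^ 2 * (12 * √(2 * |s|)) * dm x := by
    intro x
    have hρx : ρ x = tf (w x) := heq x
    by_cases hx : x ∈ ball (0 : X) r
    · have h1 := Phi_taylor (w x) (η x)
      have h2 : η x ^ 2 * √|η x| ≤ 4 * s ^ 2 * √(2 * |s|) * dm x := by
        have e1 : dm x = (V x + B) ^ 2 * √(V x + B) := indicator_of_mem hx _
        have h3 : η x ^ 2 ≤ 4 * s ^ 2 * (V x + B) ^ 2 := by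
          rw [← sq_abs (η x)]
          have h4 : |η x| ^ 2 ≤ (2 * |s| * (V x + B)) ^ 2 :=
            pow_le_pow_left₀ (abs_nonneg _) (hηb x) 2
          have h5 : (2 * |s| * (V x + B)) ^ 2 = 4 * s ^ 2 * (V x + B) ^ 2 := by
            rw [mul_pow, mul_pow, sq_abs]; ring
          rwa [h5] at h4
        have h4 : √|η x| ≤ √(2 * |s|) * √(V x + B) := by
          rw [← Real.sqrt_mul (by positivity)]
          exact Real.sqrt_le_sqrt (hηb x)
        rw [e1]
        calc η x ^ 2 * √|η x| ≤ (4 * s ^ 2 * (V x + B) ^ 2) * (√(2 * |s|) * √(V x + B)) :=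
              mul_le_mul h3 h4 (Real.sqrt_nonneg _) (by positivity)
          _ = 4 * s ^ 2 * √(2 * |s|) * ((V x + B) ^ 2 * √(V x + B)) := by ring
      have e2 : tf (w x) * η x = a * (V x * ρ x) - m * (ρ x * k x) := by
        rw [hρx]; simp only [hη]; ring
      have e3 : 1 / 2 * gam (w x) * η x ^ 2 = 1 / 2 * (a ^ 2 * (gam (w x) * V x ^ 2) -
          2 * a * m * (gam (w x) * (V x * k x)) + m ^ 2 * (gam (w x) * k x ^ 2)) := by
        simp only [hη]; ring
      rw [e2, e3] at h1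
      linarith
    · obtain ⟨h1, h2⟩ := hout x hx
      have h3 : 0 ≤ s ^ 2 * (12 * √(2 * |s|)) * dm x := by
        have := hdm0 x
        positivity
      rw [Phi_of_nonpos h2, Phi_of_nonpos h1, gam_of_nonpos h1, hρx, tf_of_nonpos h1]
      simp only [mul_zero, zero_mul, sub_zero, add_zero, zero_add]
      exact h3
  -- integrability
  have iP0 : Integrable (fun x => Phi (w x)) := by
    refine (hρ.int53.const_mul (2 / 5)).congr (Eventually.of_forall fun x => ?_)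
    simp only
    rw [Phi_eq_tf, ← heq x]
  have i1 : Integrable (fun x => V x * ρ x) := hρ.Vpt_int z R
  have i2 : Integrable (fun x => ρ x * k x) := by
    have : Integrable (fun x => k x * ρ x) :=
      hρ.int.bdd_mul hk.aestronglyMeasurable (Eventually.of_forall hB)
    exact this.congr (Eventually.of_forall fun x => by ring)
  have hgm : Measurable fun x => gam (w x) := gam_continuous.measurable.comp hwm
  have hgd : ∀ x, ∀ b : ℝ, |b| ≤ (V x + B) ^ 2 → |gam (w x) * b| ≤ 3 / 2 * dm x := by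
    intro x b hb
    by_cases hx : x ∈ ball (0 : X) r
    · have e1 : dm x = (V x + B) ^ 2 * √(V x + B) := indicator_of_mem hx _
      have h1 : gam (w x) ≤ 3 / 2 * √(V x + B) := by
        unfold gam
        refine mul_le_mul_of_nonneg_left (Real.sqrt_le_sqrt ?_) (by norm_num)
        have := hV0 x
        have := hp0 x
        simp only [hw]
        refine max_le (by linarith) (by linarith)
      rw [abs_mul, abs_of_nonneg (gam_nonneg _), e1]
      calc gam (w x) * |b| ≤ 3 / 2 * √(V x + B) * (V x + B) ^ 2 :=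
            mul_le_mul h1 hb (abs_nonneg _) (by positivity)
        _ = 3 / 2 * ((V x + B) ^ 2 * √(V x + B)) := by ring
    · rw [gam_of_nonpos (hout x hx).1, zero_mul, abs_zero]
      have := hdm0 x
      positivity
  have hgi : ∀ b : X → ℝ, Measurable b → (∀ x, |b x| ≤ (V x + B) ^ 2) →
      Integrable (fun x => gam (w x) * b x) := by
    intro b hbm hb
    exact (hdmi.const_mul (3 / 2)).mono' (hgm.mul hbm).aestronglyMeasurable
      (Eventually.of_forall fun x => hgd x (b x) (hb x))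
  have i3 : Integrable (fun x => gam (w x) * V x ^ 2) := by
    refine hgi (fun x => V x ^ 2) (hVm.pow_const 2) fun x => ?_
    rw [abs_of_nonneg (by positivity)]
    have := hV0 x
    exact pow_le_pow_left₀ this (by linarith) 2
  have i4 : Integrable (fun x => gam (w x) * (V x * k x)) := by
    refine hgi (fun x => V x * k x) (hVm.mul hk) fun x => ?_
    have h0 := hV0 x
    rw [abs_mul, abs_of_nonneg h0, pow_two]
    exact mul_le_mul (by linarith) ((hB x).trans (by linarith)) (abs_nonneg _) (by linarith)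
  have i5 : Integrable (fun x => gam (w x) * k x ^ 2) := by
    refine hgi (fun x => k x ^ 2) (hk.pow_const 2) fun x => ?_
    have h0 := hV0 x
    rw [abs_of_nonneg (by positivity), ← sq_abs (k x)]
    exact pow_le_pow_left₀ (abs_nonneg _) ((hB x).trans (by linarith)) 2
  have i12 : Integrable (fun x => a * (V x * ρ x) - m * (ρ x * k x)) :=
    (i1.const_mul a).sub (i2.const_mul m)
  have i34 : Integrable (fun x => a ^ 2 * (gam (w x) * V x ^ 2) -
      2 * a * m * (gam (w x) * (V x * k x))) := (i3.const_mul _).sub (i4.const_mul _)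
  have i345 : Integrable (fun x => a ^ 2 * (gam (w x) * V x ^ 2) -
      2 * a * m * (gam (w x) * (V x * k x)) + m ^ 2 * (gam (w x) * k x ^ 2)) :=
    i34.add (i5.const_mul _)
  have i6 : Integrable (fun x => s ^ 2 * (12 * √(2 * |s|)) * dm x) := hdmi.const_mul _
  have i012 : Integrable (fun x => Phi (w x) + (a * (V x * ρ x) - m * (ρ x * k x))) :=
    iP0.add i12
  have iall' : Integrable (fun x => Phi (w x) + (a * (V x * ρ x) - m * (ρ x * k x)) +
      1 / 2 * (a ^ 2 * (gam (w x) * V x ^ 2) - 2 * a * m * (gam (w x) * (V x * k x)) +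
        m ^ 2 * (gam (w x) * k x ^ 2))) := i012.add (i345.const_mul _)
  have iall : Integrable (fun x => Phi (w x) + (a * (V x * ρ x) - m * (ρ x * k x)) +
      1 / 2 * (a ^ 2 * (gam (w x) * V x ^ 2) - 2 * a * m * (gam (w x) * (V x * k x)) +
        m ^ 2 * (gam (w x) * k x ^ 2)) + s ^ 2 * (12 * √(2 * |s|)) * dm x) := iall'.add i6
  have iP' : Integrable (fun x => Phi (w x + η x)) := by
    refine iall.mono' (Phi_continuous.measurable.comp (hwm.add hηm)).aestronglyMeasurable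
      (Eventually.of_forall fun x => ?_)
    rw [Real.norm_of_nonneg (Phi_nonneg _)]
    exact hpt x
  have hP' : ∫ x, Phi (w x + η x) ≤ (∫ x, Phi (w x)) +
      (a * (∑ i, z i * pot ρ (R i)) - m * ∫ x, ρ x * k x) +
      1 / 2 * (a ^ 2 * (∫ x, gam (w x) * V x ^ 2) -
        2 * a * m * (∫ x, gam (w x) * (V x * k x)) + m ^ 2 * (∫ x, gam (w x) * k x ^ 2)) +
      s ^ 2 * (12 * √(2 * |s|) * ∫ x, dm x) := by
    have h1 := integral_mono iP' iall hpt
    refine h1.trans (le_of_eq ?_)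
    rw [integral_add iall' i6, integral_add i012 (i345.const_mul _), integral_add iP0 i12,
      integral_sub (i1.const_mul a) (i2.const_mul m), integral_const_mul, integral_const_mul,
      integral_const_mul, integral_add i34 (i5.const_mul _),
      integral_sub (i3.const_mul _) (i4.const_mul _), integral_const_mul, integral_const_mul,
      integral_const_mul, integral_const_mul, hρ.Vpt_eq z R]
    ring
  -- Young's inequality
  have j1 : Integrable (fun x => V x * T x) := hTT.Vpt_int z R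
  have j2 : Integrable (fun x => T x * pot ρ x) := hTT.En_integrable hρ
  have j3 : Integrable (fun x => T x * k x) := by
    have : Integrable (fun x => k x * T x) :=
      hTT.int.bdd_mul hk.aestronglyMeasurable (Eventually.of_forall hB)
    exact this.congr (Eventually.of_forall fun x => by ring)
  have hY : (1 + s)⁻¹ * (∑ i, z i * pot T (R i)) - En T ρ - m * (∫ x, T x * k x) -
      φ₀ * (∫ x, T x) - ∫ x, Phi (w x + η x) ≤ 3 / 5 * ∫ x, T x ^ (5 / 3 : ℝ) := by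
    have j12 : Integrable (fun x => (1 + s)⁻¹ * (V x * T x) - T x * pot ρ x) :=
      (j1.const_mul _).sub j2
    have j123 : Integrable (fun x => (1 + s)⁻¹ * (V x * T x) - T x * pot ρ x -
      m * (T x * k x)) := j12.sub (j3.const_mul _)
    have j1234 : Integrable (fun x => (1 + s)⁻¹ * (V x * T x) - T x * pot ρ x -
      m * (T x * k x) - φ₀ * T x) := j123.sub (hTT.int.const_mul _)
    have h1 : ∫ x, ((1 + s)⁻¹ * (V x * T x) - T x * pot ρ x - m * (T x * k x) - φ₀ * T x -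
        Phi (w x + η x)) ≤ ∫ x, 3 / 5 * T x ^ (5 / 3 : ℝ) := by
      refine integral_mono (j1234.sub iP') (hTT.int53.const_mul _) fun x => ?_
      have h2 := young_tf (w x + η x) (hTT.nonneg x)
      have e1 : (w x + η x) * T x = (1 + s)⁻¹ * (V x * T x) - T x * pot ρ x - m * (T x * k x) -
          φ₀ * T x := by
        simp only [hw, hη, ha]; ring
      rw [e1] at h2
      simp only
      linarith
    rw [integral_sub j1234 iP', integral_sub j123 (hTT.int.const_mul _),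
      integral_sub j12 (j3.const_mul _), integral_sub (j1.const_mul _) j2, integral_const_mul,
      integral_const_mul, integral_const_mul, integral_const_mul, hTT.Vpt_eq z R] at h1
    exact h1
  -- Thomson's inequality
  have hTh := hT (fun x => (1 + s) ^ 2 * T x) ρ (hTT.cmul (by positivity)) hρ m
  rw [En_cmul_left, En_cmul_right, En_cmul_left] at hTh
  have e5 : ∫ x, ((1 + s) ^ 2 * T x - ρ x) * k x = (1 + s) ^ 2 * (∫ x, T x * k x) -
      ∫ x, ρ x * k x := by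
    rw [← integral_const_mul, ← integral_sub (j3.const_mul _) i2]
    exact integral_congr_ae (Eventually.of_forall fun x => by ring)
  rw [e5] at hTh
  rw [Ept_dil φ₀ z R hl hσ]
  have hTh' : (1 + s) * (m * ((1 + s) ^ 2 * (∫ x, T x * k x) - ∫ x, ρ x * k x)) ≤
      (1 + s) * (m ^ 2 * E + 1 / 2 * ((1 + s) ^ 2 * ((1 + s) ^ 2 * En T T) -
        2 * ((1 + s) ^ 2 * En T ρ) + En ρ ρ)) := mul_le_mul_of_nonneg_left hTh hl.le
  have hY' : (1 + s) ^ 3 * ((1 + s)⁻¹ * (∑ i, z i * pot T (R i)) - En T ρ -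
      m * (∫ x, T x * k x) - φ₀ * (∫ x, T x) - ∫ x, Phi (w x + η x)) ≤
      (1 + s) ^ 3 * (3 / 5 * ∫ x, T x ^ (5 / 3 : ℝ)) :=
    mul_le_mul_of_nonneg_left hY (by positivity)
  have hP'' := mul_le_mul_of_nonneg_left hP' (by positivity : (0 : ℝ) ≤ (1 + s) ^ 3)
  linarith [hTh', hY', hP'']

theorem gam_integrable {z : ι → ℝ} (hz : ∀ i, 0 ≤ z i) (R : ι → X) {φ₀ : ℝ} (hφ : 0 < φ₀)
    {ρ : X → ℝ} (hρ : TC ρ) {B : ℝ} (hB : 0 ≤ B) {b : X → ℝ} (hb : Measurable b)
    (hbB : ∀ x, |b x| ≤ (Vpt z R x + B) ^ 2) :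
    Integrable (fun x => gam (Vpt z R x - pot ρ x - φ₀) * b x) := by
  obtain ⟨r, hr0, hr⟩ := Vpt_far hz R hφ
  have hdmi := dom52 hz R hB r
  have hV0 : ∀ x, 0 ≤ Vpt z R x := Vpt_nonneg hz R
  have hp0 : ∀ x, 0 ≤ pot ρ x := pot_nonneg hρ.nonneg
  have hwm : Measurable fun x => Vpt z R x - pot ρ x - φ₀ :=
    ((Vpt_meas z R).sub hρ.pot_continuous.measurable).sub measurable_const
  refine (hdmi.const_mul (3 / 2)).mono'
    ((gam_continuous.measurable.comp hwm).mul hb).aestronglyMeasurable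
    (Eventually.of_forall fun x => ?_)
  rw [Real.norm_eq_abs]
  by_cases hx : x ∈ ball (0 : X) r
  · rw [indicator_of_mem hx]
    have h1 : gam (Vpt z R x - pot ρ x - φ₀) ≤ 3 / 2 * √(Vpt z R x + B) := by
      unfold gam
      refine mul_le_mul_of_nonneg_left (Real.sqrt_le_sqrt ?_) (by norm_num)
      have := hV0 x
      have := hp0 x
      refine max_le (by linarith) (by linarith)
    rw [abs_mul, abs_of_nonneg (gam_nonneg _)]
    calc gam (Vpt z R x - pot ρ x - φ₀) * |b x| ≤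
          3 / 2 * √(Vpt z R x + B) * (Vpt z R x + B) ^ 2 :=
          mul_le_mul h1 (hbB x) (abs_nonneg _) (by positivity)
      _ = 3 / 2 * ((Vpt z R x + B) ^ 2 * √(Vpt z R x + B)) := by ring
  · have h1 := hr x (by simpa using hx)
    have h2 := hp0 x
    rw [gam_of_nonpos (by linarith), zero_mul, abs_zero, indicator_of_notMem hx, mul_zero]

theorem gam_expand {z : ι → ℝ} (hz : ∀ i, 0 ≤ z i) (R : ι → X) {φ₀ : ℝ} (hφ : 0 < φ₀)
    {ρ : X → ℝ} (hρ : TC ρ) {k : X → ℝ} (hk : Measurable k) {B : ℝ} (hB1 : 0 ≤ B)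
    (hB : ∀ x, |k x| ≤ B) :
    ∫ x, gam (Vpt z R x - pot ρ x - φ₀) * (Vpt z R x + k x) ^ 2 =
      (∫ x, gam (Vpt z R x - pot ρ x - φ₀) * Vpt z R x ^ 2) +
      2 * (∫ x, gam (Vpt z R x - pot ρ x - φ₀) * (Vpt z R x * k x)) +
      ∫ x, gam (Vpt z R x - pot ρ x - φ₀) * k x ^ 2 := by
  have hV0 : ∀ x, 0 ≤ Vpt z R x := Vpt_nonneg hz R
  have i3 := gam_integrable hz R hφ hρ hB1 ((Vpt_meas z R).pow_const 2) fun x => by
    rw [abs_of_nonneg (by positivity)]
    have := hV0 x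
    exact pow_le_pow_left₀ this (by linarith) 2
  have i4 := gam_integrable hz R hφ hρ hB1 ((Vpt_meas z R).mul hk) fun x => by
    have h0 := hV0 x
    rw [Pi.mul_apply, abs_mul, abs_of_nonneg h0, pow_two]
    exact mul_le_mul (by linarith) ((hB x).trans (by linarith)) (abs_nonneg _) (by linarith)
  have i5 := gam_integrable hz R hφ hρ hB1 (hk.pow_const 2) fun x => by
    have h0 := hV0 x
    rw [abs_of_nonneg (by positivity), ← sq_abs (k x)]
    exact pow_le_pow_left₀ (abs_nonneg _) ((hB x).trans (by linarith)) 2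
  have e1 : ∀ x, gam (Vpt z R x - pot ρ x - φ₀) * (Vpt z R x + k x) ^ 2 =
      gam (Vpt z R x - pot ρ x - φ₀) * Vpt z R x ^ 2 +
      2 * (gam (Vpt z R x - pot ρ x - φ₀) * (Vpt z R x * k x)) +
      gam (Vpt z R x - pot ρ x - φ₀) * k x ^ 2 := fun x => by ring
  simp_rw [e1]
  have i34 : Integrable (fun x => gam (Vpt z R x - pot ρ x - φ₀) * Vpt z R x ^ 2 +
      2 * (gam (Vpt z R x - pot ρ x - φ₀) * (Vpt z R x * k x))) := i3.add (i4.const_mul 2)
  have i4' : Integrable (fun x => 2 * (gam (Vpt z R x - pot ρ x - φ₀) * (Vpt z R x * k x))) :=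
    i4.const_mul 2
  rw [integral_add i34 i5, integral_add i3 i4', integral_const_mul]

/-- the energy of the minimiser through the dual functional -/
theorem Ept_sol {z : ι → ℝ} (R : ι → X) {φ₀ : ℝ} {ρ : X → ℝ} (hρ : TC ρ)
    (heq : ∀ x, ρ x = tf (Vpt z R x - pot ρ x - φ₀)) :
    Ept φ₀ z R ρ = Unuc z R - (∫ x, Phi (Vpt z R x - pot ρ x - φ₀)) - 1 / 2 * En ρ ρ := by
  have j1 : Integrable (fun x => Vpt z R x * ρ x) := hρ.Vpt_int z R
  have j2 : Integrable (fun x => ρ x * pot ρ x) := hρ.En_integrable hρ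
  have j12 : Integrable (fun x => Vpt z R x * ρ x - ρ x * pot ρ x) := j1.sub j2
  have j123 : Integrable (fun x => Vpt z R x * ρ x - ρ x * pot ρ x - φ₀ * ρ x) :=
    j12.sub (hρ.int.const_mul _)
  have j4 : Integrable (fun x => 3 / 5 * ρ x ^ (5 / 3 : ℝ)) := hρ.int53.const_mul _
  have h1 : ∫ x, (Vpt z R x * ρ x - ρ x * pot ρ x - φ₀ * ρ x - 3 / 5 * ρ x ^ (5 / 3 : ℝ)) =
      ∫ x, Phi (Vpt z R x - pot ρ x - φ₀) := by
    refine integral_congr_ae (Eventually.of_forall fun x => ?_)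
    simp only
    have h2 := young_tf_eq (Vpt z R x - pot ρ x - φ₀)
    rw [← heq x] at h2
    linarith
  rw [integral_sub j123 j4, integral_sub j12 (hρ.int.const_mul _), integral_sub j1 j2,
    integral_const_mul, integral_const_mul, hρ.Vpt_eq z R] at h1
  have hE : En ρ ρ = ∫ x, ρ x * pot ρ x := rfl
  unfold Ept
  rw [hE]
  linarith

theorem aux_s2 {s t : ℝ} (h1 : -(1 / 4) < s) (h2 : s < 1 / 4)
    (ht : t = 3 * (s + s ^ 2 + s ^ 3 / 3)) : s ^ 2 ≤ t ^ 2 := by
  have e1 : t ^ 2 = s ^ 2 * (3 + 3 * s + s ^ 2) ^ 2 := by rw [ht]; ring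
  have e2 : 1 ≤ 3 + 3 * s + s ^ 2 := by nlinarith
  have e3 : 1 ≤ (3 + 3 * s + s ^ 2) ^ 2 := one_le_pow₀ e2
  rw [e1]
  exact le_mul_of_one_le_right (sq_nonneg s) e3

theorem aux_q {s t ε q : ℝ} (hε : 0 < ε) (hq : -ε < q) (hst : s ^ 2 ≤ t ^ 2) :
    -(ε * t ^ 2) ≤ s ^ 2 * q := by
  have h1 : s ^ 2 * (-ε) ≤ s ^ 2 * q := mul_le_mul_of_nonneg_left hq.le (sq_nonneg s)
  have h2 : ε * s ^ 2 ≤ ε * t ^ 2 := mul_le_mul_of_nonneg_left hst hε.le
  linarith

/-- A trial field with nonnegative second variation gives the support inequality. -/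
theorem support_of_Vtr {z : ι → ℝ} (hz : ∀ i, 0 ≤ z i) (R : ι → X) {φ₀ : ℝ} (hφ : 0 < φ₀)
    {ρ : X → ℝ} (hρ : TC ρ) (heq : ∀ x, ρ x = tf (Vpt z R x - pot ρ x - φ₀)) {k : X → ℝ}
    (hk : Measurable k) {B : ℝ} (hB : ∀ x, |k x| ≤ B) {E : ℝ}
    (hT : ∀ σ τ : X → ℝ, TC σ → TC τ → ∀ c : ℝ,
      c * (∫ x, (σ x - τ x) * k x) ≤ c ^ 2 * E + 1 / 2 * (En σ σ - 2 * En σ τ + En τ τ))
    (hV : 0 ≤ Vtr φ₀ z R ρ k E) :
    ∃ a : ℝ, ∀ ε : ℝ, 0 < ε → ∃ δ : ℝ, 0 < δ ∧ ∀ t : ℝ, |t| < δ →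
      GTF φ₀ z R + a * t - ε * t ^ 2 ≤ GTF φ₀ z (fun i => (1 + t) ^ (1 / 3 : ℝ) • R i) := by
  have hB1 : 0 ≤ B := (abs_nonneg _).trans (hB 0)
  obtain ⟨r, hr0, hr⟩ := Vpt_far hz R (φ₀ := φ₀ / 4) (by positivity)
  have hG : GTF φ₀ z R = Ept φ₀ z R ρ :=
    GTF_eq hφ hz R hρ fun σ hσ => Ept_min hρ hσ (Eventually.of_forall heq)
  rw [hG, Ept_sol R hρ heq]
  have hexp := gam_expand hz R hφ hρ hk hB1 hB
  unfold Vtr at hV
  rw [hexp] at hV
  set U := Unuc z R with hU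
  set A0 := ∫ x, Phi (Vpt z R x - pot ρ x - φ₀) with hA0
  set A1 := ∑ i, z i * pot ρ (R i) with hA1
  set A2 := ∫ x, ρ x * k x with hA2
  set QVV := ∫ x, gam (Vpt z R x - pot ρ x - φ₀) * Vpt z R x ^ 2 with hQVV
  set QVk := ∫ x, gam (Vpt z R x - pot ρ x - φ₀) * (Vpt z R x * k x) with hQVk
  set Qkk := ∫ x, gam (Vpt z R x - pot ρ x - φ₀) * k x ^ 2 with hQkk
  set M := ∫ x, (ball (0 : X) r).indicator
        (fun x => (Vpt z R x + B) ^ 2 * √(Vpt z R x + B)) x with hM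
  set N := En ρ ρ with hN
  set q : ℝ → ℝ := fun s => U * ((1 + s)⁻¹ + 1 + s / 3) + A1 * (1 + 2 / 3 * s) +
    N / 2 * (1 + s / 3) + A2 * (1 + s + s ^ 2 / 3) * (1 + s) * (2 + s) -
    1 / 2 * (1 + s) * QVV - (1 + s) ^ 2 * (1 + s + s ^ 2 / 3) * QVk -
    1 / 2 * (1 + s) ^ 3 * (1 + s + s ^ 2 / 3) ^ 2 * Qkk -
    (1 + s) * (1 + s + s ^ 2 / 3) ^ 2 * E - (1 + s) ^ 3 * (12 * √(2 * |s|) * M) with hq
  have hqc : ContinuousAt q 0 := by
    have h1 : ContinuousAt (fun s : ℝ => (1 + s)⁻¹) 0 :=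
      ContinuousAt.inv₀ (by fun_prop) (by norm_num)
    have h2 : ContinuousAt (fun s : ℝ => U * ((1 + s)⁻¹ + 1 + s / 3)) 0 :=
      continuousAt_const.mul ((h1.add continuousAt_const).add (by fun_prop))
    have h3 : Continuous (fun s : ℝ => A1 * (1 + 2 / 3 * s) +
      N / 2 * (1 + s / 3) + A2 * (1 + s + s ^ 2 / 3) * (1 + s) * (2 + s) -
      1 / 2 * (1 + s) * QVV - (1 + s) ^ 2 * (1 + s + s ^ 2 / 3) * QVk -
      1 / 2 * (1 + s) ^ 3 * (1 + s + s ^ 2 / 3) ^ 2 * Qkk -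
      (1 + s) * (1 + s + s ^ 2 / 3) ^ 2 * E - (1 + s) ^ 3 * (12 * √(2 * |s|) * M)) := by
      fun_prop
    refine (h2.add h3.continuousAt).congr (Eventually.of_forall fun s => ?_)
    simp only [hq, Pi.add_apply]
    ring
  have hq0 : 0 ≤ q 0 := by
    have : q 0 = 1 / 2 * (4 * U + N + 2 * A1 + 4 * A2 - (QVV + 2 * QVk + Qkk) - 2 * E) := by
      simp only [hq, abs_zero, mul_zero, Real.sqrt_zero, add_zero]
      ring
    rw [this]
    linarith
  refine ⟨(-U - 3 * A0 + A1 - 1 / 2 * N) / 3, fun ε hε => ?_⟩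
  have c1 : ∀ᶠ s in 𝓝 (0 : ℝ), -ε < q s := hqc.eventually (lt_mem_nhds (by linarith))
  have c2 : ∀ᶠ s in 𝓝 (0 : ℝ), |s| < 1 / 4 := by
    have h1 : Tendsto (fun s : ℝ => |s|) (𝓝 0) (𝓝 |(0 : ℝ)|) := continuous_abs.tendsto 0
    rw [abs_zero] at h1
    exact h1.eventually (gt_mem_nhds (by norm_num))
  have c3 : ∀ᶠ s in 𝓝 (0 : ℝ), 2 * |s| * B < φ₀ / 4 := by
    have h1 : Tendsto (fun s : ℝ => 2 * |s| * B) (𝓝 0) (𝓝 (2 * |(0 : ℝ)| * B)) :=
      (by fun_prop : Continuous fun s : ℝ => 2 * |s| * B).tendsto 0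
    rw [abs_zero, mul_zero, zero_mul] at h1
    exact h1.eventually (gt_mem_nhds (by positivity))
  have hst : Tendsto (fun t : ℝ => (1 + t) ^ (1 / 3 : ℝ) - 1) (𝓝 0) (𝓝 0) := by
    have h1 : ContinuousAt (fun t : ℝ => (1 + t) ^ (1 / 3 : ℝ) - 1) 0 := by
      refine ContinuousAt.sub ?_ continuousAt_const
      refine ContinuousAt.rpow_const (by fun_prop) (Or.inl (by norm_num))
    have h2 := h1.tendsto
    simpa using h2
  have c4 : ∀ᶠ t in 𝓝 (0 : ℝ), |t| < 1 := by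
    have h1 : Tendsto (fun s : ℝ => |s|) (𝓝 0) (𝓝 |(0 : ℝ)|) := continuous_abs.tendsto 0
    rw [abs_zero] at h1
    exact h1.eventually (gt_mem_nhds (by norm_num))
  obtain ⟨δ, hδ, hball⟩ := Metric.eventually_nhds_iff.mp
    ((hst.eventually (c1.and (c2.and c3))).and c4)
  refine ⟨δ, hδ, fun t ht => ?_⟩
  obtain ⟨⟨h1, h2, h3⟩, h4⟩ := hball (y := t) (by rwa [Real.dist_eq, sub_zero])
  set s : ℝ := (1 + t) ^ (1 / 3 : ℝ) - 1 with hs
  have h1t : 0 < 1 + t := by
    have := (abs_lt.mp h4).1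
    linarith
  have hs1 : 1 + s = (1 + t) ^ (1 / 3 : ℝ) := by rw [hs]; ring
  have hs3 : (1 + s) ^ 3 = 1 + t := by
    rw [hs1, ← Real.rpow_natCast, ← Real.rpow_mul h1t.le]
    norm_num
  have ht3 : t = 3 * (s + s ^ 2 + s ^ 3 / 3) := by
    have : (1 + s) ^ 3 = 1 + 3 * s + 3 * s ^ 2 + s ^ 3 := by ring
    linarith
  rw [← hs1]
  refine le_GTF _ fun σ hσ => ?_
  have hge := Ept_ge hz R hφ hρ heq hk hB1 hB hT hr h2.le h3.le rfl hσ
  have hs' := abs_lt.mp h2
  have halg := q_algebra (s := s) (U := U) (A0 := A0) (A1 := A1) (A2 := A2) (En := N)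
    (QVV := QVV) (QVk := QVk) (Qkk := Qkk) (E := E) (M := 12 * √(2 * |s|) * M)
    (ne_of_gt (by linarith : (0 : ℝ) < 1 + s)) rfl rfl
  have hfin : U - A0 - 1 / 2 * N + (-U - 3 * A0 + A1 - 1 / 2 * N) / 3 * t - ε * t ^ 2 ≤
      (U - A0 - 1 / 2 * N) +
        (-U - 3 * A0 + A1 - 1 / 2 * N) / 3 * (3 * (s + s ^ 2 + s ^ 3 / 3)) + s ^ 2 * q s := by
    rw [← ht3]
    have h5 := aux_q hε h1 (aux_s2 hs'.1 hs'.2 ht3)
    linarith
  exact (hfin.trans (le_of_eq halg.symm)).trans hge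

/-- Convexity in the volume from trial fields at every scale. -/
theorem GTF_convex_of_Vtr {z : ι → ℝ} (hz : ∀ i, 0 ≤ z i) (R : ι → X) {φ₀ : ℝ} (hφ : 0 < φ₀)
    (h : ∀ c : ℝ, 0 < c → ∀ ρ : X → ℝ, TC ρ →
      (∀ x, ρ x = tf (Vpt z (fun i => c • R i) x - pot ρ x - φ₀)) →
      ∃ (k : X → ℝ) (B E : ℝ), Measurable k ∧ (∀ x, |k x| ≤ B) ∧
        (∀ σ τ : X → ℝ, TC σ → TC τ → ∀ c : ℝ, c * (∫ x, (σ x - τ x) * k x) ≤
          c ^ 2 * E + 1 / 2 * (En σ σ - 2 * En σ τ + En τ τ)) ∧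
        0 ≤ Vtr φ₀ z (fun i => c • R i) ρ k E) :
    ConvexOn ℝ (Ioi 0) fun v : ℝ => GTF φ₀ z fun i => v ^ (1 / 3 : ℝ) • R i := by
  refine GTF_convex_of_support hφ hz R fun c hc ε hε => ?_
  obtain ⟨ρ, hρ, -, heq⟩ := exists_point_sol hz (fun i => c • R i) hφ
  obtain ⟨k, B, E, hk, hB, hT, hV⟩ := h c hc ρ hρ heq
  obtain ⟨a, ha⟩ := support_of_Vtr hz (fun i => c • R i) hφ hρ heq hk hB hT hV
  obtain ⟨δ, hδ, hsup⟩ := ha ε hε
  exact ⟨a, δ, hδ, hsup⟩

end Pool.Agent.TF
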