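import Pool.Agent.Lib.MP_9cf0c9_mp.Thomson
import Pool.Agent.Lib.MP_9cf0c9_mp.SecVar

/-! Thomson's inequality for multiples of a trial function, and convexity from trial functions. -/

set_option linter.unusedSectionVars false
set_option linter.unusedVariables false
set_option linter.style.haveILetI false

namespace Pool.Agent.TF
open MeasureTheory Set Metric Filter Topology
open scoped ENNReal NNReal RealInnerProductSpace Gradient

section gen
variable {V : Type*} [NormedAddCommGroup V] [InnerProductSpace ℝ V] [FiniteDimensional ℝ V]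
  [MeasurableSpace V] [BorelSpace V]

theorem TrialK.cmul {S : Set V} {k : V → ℝ} {k' : V → V} (h : TrialK S k k') (c : ℝ) :
    TrialK S (fun x => c * k x) (fun x => c • k' x) := by
  obtain ⟨B, hB⟩ := h.bdd
  refine ⟨⟨|c| * B, fun x => ?_⟩, fun ε hε => ?_, continuous_const.mul h.cont,
    fun x hx => (LipAt.const c x).mul (h.lip x hx), ?_, ?_⟩
  · rw [abs_mul]
    exact mul_le_mul_of_nonneg_left (hB x) (abs_nonneg _)
  · obtain ⟨r, hr⟩ := h.decay (ε / (|c| + 1)) (by positivity)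
    refine ⟨r, fun x hx => ?_⟩
    have h1 := hr x hx
    rw [lt_div_iff₀ (by positivity)] at h1
    rw [abs_mul]
    nlinarith [abs_nonneg (k x), abs_nonneg c]
  · filter_upwards [h.grad] with x hx
    rw [hasGradientAt_iff_hasFDerivAt] at hx ⊢
    have h2 := hx.const_mul c
    simpa only [map_smul] using h2
  · refine (h.sq.const_mul (c ^ 2)).congr (Eventually.of_forall fun x => ?_)
    simp only [norm_smul, Real.norm_eq_abs, mul_pow, sq_abs]

variable [hd : Fact (Module.finrank ℝ V = 3)]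

theorem thomson_mul {S : Set V} (hS : S.Finite) {k : V → ℝ} {k' : V → V} (hk : TrialK S k k')
    {σ τ : V → ℝ} (hσ : TC σ) (hτ : TC τ) (c : ℝ) :
    c * (∫ x, (σ x - τ x) * k x) ≤ c ^ 2 * ((8 * Real.pi)⁻¹ * ∫ x, ‖k' x‖ ^ 2) +
      1 / 2 * (En σ σ - 2 * En σ τ + En τ τ) := by
  have h := thomson hS (hk.cmul c) hσ hτ
  have e1 : ∫ x, (σ x - τ x) * (c * k x) = c * ∫ x, (σ x - τ x) * k x := by
    rw [← integral_const_mul]
    refine integral_congr_ae (Eventually.of_forall fun x => ?_)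
    simp only
    ring
  have e2 : ∫ x, ‖c • k' x‖ ^ 2 = c ^ 2 * ∫ x, ‖k' x‖ ^ 2 := by
    rw [← integral_const_mul]
    refine integral_congr_ae (Eventually.of_forall fun x => ?_)
    simp only [norm_smul, Real.norm_eq_abs, mul_pow, sq_abs]
  rw [e1, e2] at h
  linarith

end gen

variable {ι : Type*} [Fintype ι]

/-- Convexity in the volume from admissible trial functions at every scale. -/
theorem GTF_convex_of_trial {z : ι → ℝ} (hz : ∀ i, 0 ≤ z i) (R : ι → X) {φ₀ : ℝ} (hφ : 0 < φ₀)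
    (h : ∀ c : ℝ, 0 < c → ∀ ρ : X → ℝ, TC ρ →
      (∀ x, ρ x = tf (Vpt z (fun i => c • R i) x - pot ρ x - φ₀)) →
      ∃ (S : Set X) (k : X → ℝ) (k' : X → X), S.Finite ∧ TrialK S k k' ∧
        0 ≤ Vtr φ₀ z (fun i => c • R i) ρ k ((8 * Real.pi)⁻¹ * ∫ x, ‖k' x‖ ^ 2)) :
    ConvexOn ℝ (Ioi 0) fun v : ℝ => GTF φ₀ z fun i => v ^ (1 / 3 : ℝ) • R i := by
  refine GTF_convex_of_Vtr hz R hφ fun c hc ρ hρ heq => ?_
  obtain ⟨S, k, k', hS, hk, hV⟩ := h c hc ρ hρ heq
  obtain ⟨B, hB⟩ := hk.bdd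
  exact ⟨k, B, _, hk.cont.measurable, hB, fun σ τ hσ hτ c => thomson_mul hS hk hσ hτ c, hV⟩

end Pool.Agent.TF
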