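import Pool.Agent.Lib.MP_9cf0c9_mp.Thin36
import Pool.Agent.Lib.MP_9cf0c9_mp.ThomsonC
import Pool.Agent.Lib.MP_9cf0c9_mp.Col58Def

/-! Weak identities and Thomson's inequality for trial functions which are locally Lipschitz off
a thin set. -/

set_option linter.unusedSectionVars false
set_option linter.unusedVariables false
set_option linter.style.haveILetI false

namespace Pool.Agent.TF
open MeasureTheory Set Metric Filter Topology
open scoped ENNReal NNReal RealInnerProductSpace Gradient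

variable {V : Type*} [NormedAddCommGroup V] [InnerProductSpace ℝ V] [FiniteDimensional ℝ V]
  [MeasurableSpace V] [BorelSpace V]

section dim3
variable [hd : Fact (Module.finrank ℝ V = 3)]

/-- extension of a weak identity with a square integrable field to trial functions which are
locally Lipschitz off a thin set -/
theorem Thin.weak {S : Set V} (hS : Thin S) {k : V → ℝ} {k' : V → V} (hk : TrialK S k k')
    {A : V → V} {g : V → ℝ} (hA : AEStronglyMeasurable A volume)
    (hA2 : Integrable fun x => ‖A x‖ ^ 2) (hg : Integrable g)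
    (hw : ∀ (u : V → ℝ) (C : ℝ≥0), LipschitzWith C u → HasCompactSupport u →
      ∫ x, ⟪A x, ∇ u x⟫ = ∫ x, g x * u x) :
    Integrable (fun x => ⟪A x, k' x⟫) ∧ ∫ x, ⟪A x, k' x⟫ = ∫ x, g x * k x := by
  obtain ⟨B, hB⟩ := hk.bdd
  obtain ⟨u, hu, -, hule, hut, hui, hul⟩ := hS.exists_approx hk
  have hAk : Integrable fun x => ⟪A x, k' x⟫ := by
    refine (mul_integrable_of_sq hA.norm hk.meas.norm hA2 hk.sq).mono' (hA.inner hk.meas)
      (Eventually.of_forall fun x => ?_)
    rw [Real.norm_eq_abs]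
    exact abs_real_inner_le_norm _ _
  refine ⟨hAk, ?_⟩
  have hum : ∀ n, AEStronglyMeasurable (fun x => ∇ (u n) x - k' x) volume := fun n =>
    (measurable_gradient _).aestronglyMeasurable.sub hk.meas
  have hd1 : ∀ n, Integrable fun x => ⟪A x, ∇ (u n) x - k' x⟫ := by
    intro n
    refine (mul_integrable_of_sq hA.norm (hum n).norm hA2 (hui n)).mono' (hA.inner (hum n))
      (Eventually.of_forall fun x => ?_)
    rw [Real.norm_eq_abs]
    exact abs_real_inner_le_norm _ _
  -- the difference tends to zero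
  have hdt : Tendsto (fun n => ∫ x, ⟪A x, ∇ (u n) x - k' x⟫) atTop (𝓝 0) := by
    rw [tendsto_zero_iff_abs_tendsto_zero]
    have key : ∀ δ : ℝ, 0 < δ → ∀ n, |∫ x, ⟪A x, ∇ (u n) x - k' x⟫| ≤
        δ * (∫ x, ‖A x‖ ^ 2) + δ⁻¹ * ∫ x, ‖∇ (u n) x - k' x‖ ^ 2 := by
      intro δ hδ n
      rw [← integral_const_mul, ← integral_const_mul,
        ← integral_add (hA2.const_mul δ) ((hui n).const_mul δ⁻¹)]
      refine (abs_integral_le_integral_abs).trans (integral_mono (hd1 n).abs
        ((hA2.const_mul δ).add ((hui n).const_mul δ⁻¹)) fun x => ?_)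
      simp only [Pi.add_apply]
      have h1 := abs_real_inner_le_norm (A x) (∇ (u n) x - k' x)
      set a := ‖A x‖
      set b := ‖∇ (u n) x - k' x‖
      have ha : 0 ≤ a := norm_nonneg _
      have hb : 0 ≤ b := norm_nonneg _
      have h2 : a * b ≤ δ * a ^ 2 + δ⁻¹ * b ^ 2 := by
        have h3 : 0 ≤ δ⁻¹ * (δ * a - b) ^ 2 := by positivity
        have h4 : δ⁻¹ * (δ * a - b) ^ 2 = δ * a ^ 2 - 2 * (a * b) + δ⁻¹ * b ^ 2 := by
          field_simp
          ring
        have h5 : 0 ≤ a * b := by positivity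
        linarith
      exact h1.trans h2
    rw [Metric.tendsto_atTop]
    intro ε hε
    set I := ∫ x, ‖A x‖ ^ 2 with hI
    have hI0 : 0 ≤ I := integral_nonneg fun x => by positivity
    set δ : ℝ := ε / (2 * (I + 1)) with hδ'
    have hδ : 0 < δ := by positivity
    have h1 : δ * I ≤ ε / 2 := by
      rw [hδ', div_mul_eq_mul_div, div_le_iff₀ (by positivity)]
      nlinarith
    obtain ⟨N, hN⟩ := (Metric.tendsto_atTop.mp hul) (δ * (ε / 2)) (by positivity)
    refine ⟨N, fun n hn => ?_⟩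
    have h2 := hN n hn
    rw [Real.dist_eq, sub_zero] at h2 ⊢
    rw [Function.comp_apply, abs_abs]
    have h3 : δ⁻¹ * (∫ x, ‖∇ (u n) x - k' x‖ ^ 2) < ε / 2 := by
      rw [inv_mul_lt_iff₀ hδ]
      exact (le_abs_self _).trans_lt h2
    linarith [key δ hδ n]
  have hL : Tendsto (fun n => ∫ x, ⟪A x, ∇ (u n) x⟫) atTop (𝓝 (∫ x, ⟪A x, k' x⟫)) := by
    have h1 : ∀ n, ∫ x, ⟪A x, ∇ (u n) x⟫ =
        (∫ x, ⟪A x, ∇ (u n) x - k' x⟫) + ∫ x, ⟪A x, k' x⟫ := by
      intro n
      rw [← integral_add (hd1 n) hAk]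
      refine integral_congr_ae (Eventually.of_forall fun x => ?_)
      simp only
      rw [inner_sub_right]
      ring
    simp_rw [h1]
    have h2 := hdt.add_const (∫ x, ⟪A x, k' x⟫)
    rwa [zero_add] at h2
  have hR : Tendsto (fun n => ∫ x, g x * u n x) atTop (𝓝 (∫ x, g x * k x)) := by
    refine tendsto_integral_of_dominated_convergence (fun x => |g x| * B) (fun n => ?_)
      (hg.abs.mul_const _) (fun n => Eventually.of_forall fun x => ?_) ?_
    · obtain ⟨⟨C, hC⟩, -⟩ := hu n
      exact hg.aestronglyMeasurable.mul hC.continuous.measurable.aestronglyMeasurable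
    · rw [norm_mul, Real.norm_eq_abs, Real.norm_eq_abs]
      exact mul_le_mul_of_nonneg_left ((hule n x).trans (hB x)) (abs_nonneg _)
    · filter_upwards [hS.ae_notMem] with x hx
      exact (hut x hx).const_mul _
  have heq : ∀ n, ∫ x, ⟪A x, ∇ (u n) x⟫ = ∫ x, g x * u n x := by
    intro n
    obtain ⟨⟨C, hC⟩, hc⟩ := hu n
    exact hw _ C hC hc
  simp_rw [heq] at hL
  exact tendsto_nhds_unique hL hR

/-- weak Poisson equation for trial functions which are locally Lipschitz off a thin set -/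
theorem Thin.weak_L2 {S : Set V} (hS : Thin S) {k : V → ℝ} {k' : V → V} (hk : TrialK S k k')
    {f : V → ℝ} (hf : Integrable f) (hfm : Measurable f)
    (hsq : Integrable fun x => ‖gradV f x‖ ^ 2) :
    Integrable (fun x => ⟪gradV f x, k' x⟫) ∧
      ∫ x, ⟪gradV f x, k' x⟫ = 4 * Real.pi * ∫ x, f x * k x := by
  have h := hS.weak hk (A := gradV f) (g := fun x => 4 * Real.pi * f x) (gradV_meas hfm (V := V))
    hsq (hf.const_mul _) (fun u C hu hc => by
      rw [(weak_poisson hf hfm hu hc).2, ← integral_const_mul]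
      refine integral_congr_ae (Eventually.of_forall fun x => ?_)
      simp only
      ring)
  refine ⟨h.1, h.2.trans ?_⟩
  rw [← integral_const_mul]
  refine integral_congr_ae (Eventually.of_forall fun x => ?_)
  simp only
  ring

theorem Thin.weak_TC {S : Set V} (hS : Thin S) {k : V → ℝ} {k' : V → V} (hk : TrialK S k k')
    {f : V → ℝ} (hf : TC f) :
    Integrable (fun x => ⟪gradV f x, k' x⟫) ∧
      ∫ x, ⟪gradV f x, k' x⟫ = 4 * Real.pi * ∫ x, f x * k x :=
  hS.weak_L2 hk hf.int hf.meas (energy_TC_le hf).1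

/-- Thomson's inequality for trial functions which are locally Lipschitz off a thin set -/
theorem Thin.thomson {S : Set V} (hS : Thin S) {k : V → ℝ} {k' : V → V} (hk : TrialK S k k')
    {σ τ : V → ℝ} (hσ : TC σ) (hτ : TC τ) :
    ∫ x, (σ x - τ x) * k x ≤ (8 * Real.pi)⁻¹ * (∫ x, ‖k' x‖ ^ 2) +
      1 / 2 * (En σ σ - 2 * En σ τ + En τ τ) := by
  obtain ⟨B, hB⟩ := hk.bdd
  obtain ⟨u, hu, -, hule, hut, hui, hul⟩ := hS.exists_approx hk
  set N := 1 / 2 * (En σ σ - 2 * En σ τ + En τ τ) with hN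
  set I := ∫ x, ‖k' x‖ ^ 2 with hI
  have hI0 : 0 ≤ I := integral_nonneg fun x => by positivity
  have hpi := Real.pi_pos
  -- the functions `u n` are trial functions
  have hT : ∀ n, TrialK (∅ : Set V) (u n) (fun x => ∇ (u n) x) := by
    intro n
    obtain ⟨⟨C, hC⟩, hc⟩ := hu n
    obtain ⟨r, hr⟩ := hc.isCompact.isBounded.subset_ball (0 : V)
    have hx0 : ∀ x, x ∉ ball (0 : V) r → u n x = 0 ∧ ∇ (u n) x = 0 := fun x hx =>
      have h1 : x ∉ tsupport (u n) := fun h => hx (hr h)
      ⟨image_eq_zero_of_notMem_tsupport h1, gradient_zero_of_notMem h1⟩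
    refine ⟨⟨B, fun x => (hule n x).trans (hB x)⟩, fun ε hε => ⟨r, fun x hx => ?_⟩,
      hC.continuous, fun x _ => lipAt_of_lip hC x, ?_, ?_⟩
    · rw [(hx0 x (by simpa using hx)).1, abs_zero]
      exact hε
    · filter_upwards [hC.ae_differentiableAt] with x hx
      exact hx.hasGradientAt
    · have hb : Integrable ((ball (0 : V) r).indicator fun _ : V => ((C : ℝ)) ^ 2) :=
        (integrable_indicator_iff measurableSet_ball).mpr
          (integrableOn_const measure_ball_lt_top.ne)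
      refine hb.mono' ((measurable_gradient _).norm.pow_const 2).aestronglyMeasurable
        (Eventually.of_forall fun x => ?_)
      rw [Real.norm_of_nonneg (by positivity)]
      by_cases hx : x ∈ ball (0 : V) r
      · rw [indicator_of_mem hx]
        exact pow_le_pow_left₀ (norm_nonneg _) (gradient_bound hC x) 2
      · rw [indicator_of_notMem hx, (hx0 x hx).2]
        simp
  have hlim : Tendsto (fun n => ∫ x, (σ x - τ x) * u n x) atTop
      (𝓝 (∫ x, (σ x - τ x) * k x)) := by
    refine tendsto_integral_of_dominated_convergence (fun x => |σ x - τ x| * B) (fun n => ?_)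
      ((hσ.int.sub hτ.int).abs.mul_const _) (fun n => Eventually.of_forall fun x => ?_) ?_
    · obtain ⟨⟨C, hC⟩, -⟩ := hu n
      exact ((hσ.meas.sub hτ.meas).mul hC.continuous.measurable).aestronglyMeasurable
    · rw [norm_mul, Real.norm_eq_abs, Real.norm_eq_abs]
      exact mul_le_mul_of_nonneg_left ((hule n x).trans (hB x)) (abs_nonneg _)
    · filter_upwards [hS.ae_notMem] with x hx
      exact (hut x hx).const_mul _
  have key : ∀ δ : ℝ, 0 < δ → ∫ x, (σ x - τ x) * k x ≤
      (8 * Real.pi)⁻¹ * ((1 + δ) * I) + N := by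
    intro δ hδ
    have h1 : ∀ n, ∫ x, (σ x - τ x) * u n x ≤ (8 * Real.pi)⁻¹ * ((1 + δ) * I +
        (1 + δ⁻¹) * ∫ x, ‖∇ (u n) x - k' x‖ ^ 2) + N := by
      intro n
      refine (TF.thomson finite_empty (hT n) hσ hτ).trans ?_
      refine add_le_add_left (mul_le_mul_of_nonneg_left ?_ (by positivity)) _
      rw [hI, ← integral_const_mul, ← integral_const_mul,
        ← integral_add (hk.sq.const_mul _) ((hui n).const_mul _)]
      refine integral_mono (hT n).sq ((hk.sq.const_mul _).add ((hui n).const_mul _)) fun x => ?_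
      simp only [Pi.add_apply]
      set q := ∇ (u n) x - k' x with hq
      have e1 : ∇ (u n) x = k' x + q := by rw [hq]; abel
      rw [e1]
      have h2 : ‖k' x + q‖ ^ 2 ≤ (‖k' x‖ + ‖q‖) ^ 2 :=
        pow_le_pow_left₀ (norm_nonneg _) (norm_add_le _ _) 2
      have h3 : 0 ≤ δ⁻¹ * (δ * ‖k' x‖ - ‖q‖) ^ 2 := by positivity
      have h4 : δ⁻¹ * (δ * ‖k' x‖ - ‖q‖) ^ 2 =
          δ * ‖k' x‖ ^ 2 - 2 * (‖k' x‖ * ‖q‖) + δ⁻¹ * ‖q‖ ^ 2 := by
        field_simp
        ring
      nlinarith
    have h2 : Tendsto (fun n => (8 * Real.pi)⁻¹ * ((1 + δ) * I +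
        (1 + δ⁻¹) * ∫ x, ‖∇ (u n) x - k' x‖ ^ 2) + N) atTop
        (𝓝 ((8 * Real.pi)⁻¹ * ((1 + δ) * I + (1 + δ⁻¹) * 0) + N)) :=
      (((hul.const_mul _).const_add _).const_mul _).add_const _
    rw [mul_zero, add_zero] at h2
    exact le_of_tendsto_of_tendsto' hlim h2 h1
  have h3 : Tendsto (fun n : ℕ => (8 * Real.pi)⁻¹ * ((1 + 1 / ((n : ℝ) + 1)) * I) + N) atTop
      (𝓝 ((8 * Real.pi)⁻¹ * ((1 + 0) * I) + N)) :=
    (((tendsto_one_div_add_atTop_nhds_zero_nat.const_add 1).mul_const I).const_mul _).add_const _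
  rw [add_zero, one_mul] at h3
  exact ge_of_tendsto' h3 fun n => key _ (by positivity)

theorem Thin.thomson_mul {S : Set V} (hS : Thin S) {k : V → ℝ} {k' : V → V}
    (hk : TrialK S k k') {σ τ : V → ℝ} (hσ : TC σ) (hτ : TC τ) (c : ℝ) :
    c * (∫ x, (σ x - τ x) * k x) ≤ c ^ 2 * ((8 * Real.pi)⁻¹ * ∫ x, ‖k' x‖ ^ 2) +
      1 / 2 * (En σ σ - 2 * En σ τ + En τ τ) := by
  have h := hS.thomson (hk.cmul c) hσ hτ
  have e1 : ∫ x, (σ x - τ x) * (c * k x) = c * ∫ x, (σ x - τ x) * k x := by
    rw [← integral_const_mul]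
    refine integral_congr_ae (Eventually.of_forall fun x => ?_)
    simp only
    ring
  have e2 : ∫ x, ‖c • k' x‖ ^ 2 = c ^ 2 * ∫ x, ‖k' x‖ ^ 2 := by
    rw [← integral_const_mul]
    refine integral_congr_ae (Eventually.of_forall fun x => ?_)
    simp only [norm_smul, Real.norm_eq_abs, mul_pow, sq_abs]
  rw [e1, e2] at h
  linarith

end dim3

/-! ### the axis -/

theorem Col.ax_eq_range : Col.ax = range fun s : ℝ => (0 : X) + s • e1 := by
  ext x
  constructor
  · intro hx
    refine ⟨x.fst, ?_⟩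
    have h1 : Col.perp x = 0 := by
      rw [← norm_eq_zero, Col.norm_perp]
      unfold Col.ht
      rw [Col.mem_ax.mp hx, norm_zero]
    rw [Col.perp_eq, sub_eq_zero] at h1
    simp only [zero_add]
    exact h1.symm
  · rintro ⟨s, rfl⟩
    rw [Col.mem_ax]
    simp [e1, mk]

/-- the axis is thin -/
theorem thin_ax : Thin Col.ax := by
  rw [Col.ax_eq_range]
  exact thin_line 0 Col.norm_e1

end Pool.Agent.TF
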