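import Pool.Agent.Lib.MP_9cf0c9_mp.Col83
import Pool.Agent.Lib.MP_9cf0c9_mp.ThinWeak36

/-! Thin sets have capacity zero; trial functions locally Lipschitz off a thin set are weak trial
functions; the calibration criterion for trial functions off the axis. -/

set_option autoImplicit false
set_option linter.unusedSectionVars false
set_option linter.unusedVariables false
set_option linter.style.haveILetI false

namespace Pool.Agent.TF
open MeasureTheory Set Metric Filter Topology
open scoped ENNReal NNReal RealInnerProductSpace Gradient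

section gen
variable {V : Type*} [NormedAddCommGroup V] [InnerProductSpace ℝ V] [FiniteDimensional ℝ V]
  [MeasurableSpace V] [BorelSpace V] [hd : Fact (Module.finrank ℝ V = 3)]

theorem Thin.zeroCap {S : Set V} (hS : Thin S) : Flux.ZeroCap S := by
  intro K hK
  obtain ⟨r, hr⟩ := hK.isBounded.subset_ball (0 : V)
  obtain ⟨C, hC0, hC⟩ := hS.lcut_energy r
  refine ⟨fun n => lcut S n, fun n => lcut_lip S n, fun n x => lcut_nonneg S n x,
    fun n x => lcut_le_one S n x, fun n x hx => ?_, ?_, ?_⟩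
  · have hc : Continuous fun y : V => infDist y S := continuous_infDist_pt S
    have h1 : infDist x S < (4 : ℝ)⁻¹ ^ (2 * n + 1) := by
      rw [infDist_zero_of_mem hx]
      positivity
    filter_upwards [hc.continuousAt.eventually (gt_mem_nhds h1)] with y hy
    exact lcut_eq_zero hy.le
  · filter_upwards [hS.ae_notMem] with x hx
    exact tendsto_const_nhds.congr' (by
      filter_upwards [hS.lcut_tendsto hx] with n hn
      exact hn.symm)
  · have h1 : Tendsto (fun n : ℕ => C / ((n : ℝ) + 1)) atTop (𝓝 0) := by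
      have := tendsto_one_div_add_atTop_nhds_zero_nat (𝕜 := ℝ) |>.const_mul C
      rw [mul_zero] at this
      refine this.congr fun n => ?_
      ring
    refine squeeze_zero (fun n => integral_nonneg fun x => by positivity) (fun n => ?_) h1
    refine le_trans ?_ (hC n)
    obtain ⟨L, hL⟩ := lcut_lip S n
    refine setIntegral_mono_set ?_ (Eventually.of_forall fun x => by positivity)
      (Eventually.of_forall hr)
    exact (Flux.lip_grad_sq_loc hL (isCompact_closedBall (0 : V) r)).mono_set ball_subset_closedBall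

theorem wTrial_of_lip {u : V → ℝ} {C : ℝ≥0} (hu : LipschitzWith C u) (hc : HasCompactSupport u) :
    TrialK ∅ u (fun x => ∇ u x) := by
  obtain ⟨B, hB⟩ := hc.exists_bound_of_continuous hu.continuous
  obtain ⟨r, hr⟩ := hc.isCompact.isBounded.subset_closedBall (0 : V)
  refine ⟨⟨B, fun x => by rw [← Real.norm_eq_abs]; exact hB x⟩, ?_, hu.continuous,
    fun x _ => lipAt_of_lip hu x, ?_, ?_⟩
  · intro ε hε
    refine ⟨r + 1, fun x hx => ?_⟩
    have hx' : x ∉ tsupport u := fun h => by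
      have := hr h
      rw [mem_closedBall_zero_iff] at this
      linarith
    rw [image_eq_zero_of_notMem_tsupport hx', abs_zero]
    exact hε
  · filter_upwards [hu.ae_differentiableAt] with x hx
    exact hx.hasGradientAt
  · have h1 : (fun x => ‖∇ u x‖ ^ 2) = (tsupport u).indicator fun x => ‖∇ u x‖ ^ 2 := by
      funext x
      by_cases hx : x ∈ tsupport u
      · rw [indicator_of_mem hx]
      · rw [indicator_of_notMem hx, gradient_zero_of_notMem hx, norm_zero]; norm_num
    rw [h1, integrable_indicator_iff (isClosed_tsupport u).measurableSet]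
    exact Flux.lip_grad_sq_loc hu hc.isCompact

theorem Thin.wTrial {S : Set V} (hS : Thin S) {k : V → ℝ} {k' : V → V} (hk : TrialK S k k') :
    WTrial k k' := by
  obtain ⟨u, h1, h2, h3, h4, h5, h6⟩ := hS.exists_approx hk
  obtain ⟨B, hB⟩ := hk.bdd
  refine ⟨hk.bdd, hk.cont, hk.meas, hk.sq, u, fun n x => ∇ (u n) x, B, fun n => ?_,
    fun n x => (h3 n x).trans (hB x), ?_, h6⟩
  · obtain ⟨⟨C, hC⟩, hc⟩ := h1 n
    exact wTrial_of_lip hC hc
  · filter_upwards [hS.ae_notMem] with x hx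
    exact h4 x hx

end gen

theorem Col.zeroCap_ax : Flux.ZeroCap Col.ax := thin_ax.zeroCap

theorem Col.wTrial {k : X → ℝ} {k' : X → X} (hk : TrialK Col.ax k k') : WTrial k k' :=
  thin_ax.wTrial hk

namespace Col

/-- **the calibration criterion for collinear nuclei**, trial functions locally Lipschitz off the
axis: `J` has the weak divergence `d` off the axis, `d ≤ Fcal + e` there -/
theorem Vtr_ge_col {ι : Type*} [Fintype ι] {z : ι → ℝ} (hz : ∀ i, 0 ≤ z i) {R : ι → X}
    (hR : Function.Injective R) {φ₀ : ℝ} (hφ : 0 < φ₀)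
    {ρ : X → ℝ} (hρ : TC ρ) (heq : ∀ x, ρ x = tf (Vpt z R x - pot ρ x - φ₀))
    {k : X → ℝ} {k' : X → X} (hk : TrialK ax k k')
    (hI : ∀ i, Integrable (fun x => (‖x - R i‖ ^ 2)⁻¹ * ‖k' x‖))
    {J : X → X} {d : X → ℝ} (hJ : WD J d) {e : X → ℝ} (he : Integrable e)
    {c : ι → ℝ}
    (hax : ∀ x₀ ∈ ax, (∀ i, x₀ ≠ R i) → ∃ C δ : ℝ, 0 < δ ∧ ∀ x ∈ ball x₀ δ, x ∉ ax →
      ‖J x‖ ^ 2 ≤ C * (ht x)⁻¹)
    (hd : ∀ᵐ x : X, d x ≤ Fcal φ₀ z R ρ k k' x + e x)
    (hnuc : ∀ i, ∀ δ : ℝ, 0 < δ → ∀ᶠ ε in 𝓝[>] (0 : ℝ),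
      -∫ x, ⟪J x, Flux.gcut ε (x - R i)⟫ ≤ 2 * z i * (Vpt z R (R i) + k (R i)) + c i + δ)
    (hinf : ∀ δ : ℝ, 0 < δ → ∀ᶠ N in atTop, ∫ x, ⟪J x, Flux.gcut N x⟫ ≤ δ) :
    -(∫ x, e x) - ∑ i, c i ≤ Vtr φ₀ z R ρ k ((8 * Real.pi)⁻¹ * ∫ x, ‖k' x‖ ^ 2) :=
  Vtr_ge_WD hz hR hφ hρ heq (Col.wTrial hk) hI Col.zeroCap_ax hJ he hax hd hnuc hinf

end Col

end Pool.Agent.TF
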