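import Pool.Agent.Lib.MP_9cf0c9_mp.Col58Id
import Pool.Agent.Lib.MP_9cf0c9_mp.Col83
import Pool.Agent.Lib.MP_9cf0c9_mp.ColGlue83

/-! Weak divergences off the axis which are only locally integrable: products with functions
which are locally Lipschitz off the axis. -/

set_option autoImplicit false
set_option linter.unusedSectionVars false
set_option linter.unusedVariables false

namespace Pool.Agent.TF.Col
open MeasureTheory Set Metric Filter Topology
open scoped ENNReal NNReal RealInnerProductSpace Gradient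
open Pool.Agent.TF.Grd

/-- `A` is continuous off the axis and has the locally integrable weak divergence `d` there -/
structure WDL (A : X → X) (d : X → ℝ) : Prop where
  contA : ContinuousOn A axᶜ
  locd : ∀ K : Set X, IsCompact K → K ⊆ axᶜ → IntegrableOn d K
  eq : ∀ (η : X → ℝ) (C : ℝ≥0), LipschitzWith C η → HasCompactSupport η →
    Disjoint (tsupport η) ax → ∫ x, ⟪A x, ∇ η x⟫ = -∫ x, d x * η x

theorem WD.toL {A : X → X} {d : X → ℝ} (h : WD A d) : WDL A d :=
  ⟨h.contA, fun K hK hKa => (h.contd.mono hKa).integrableOn_compact hK, h.eq⟩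

theorem WDL.tst {A : X → X} {d : X → ℝ} (h : WDL A d) {η : X → ℝ} (hη : Tst η) :
    ∫ x, ⟪A x, ∇ η x⟫ = -∫ x, d x * η x := by
  obtain ⟨C, hC⟩ := hη.lip
  exact h.eq η C hC hη.cs hη.off

theorem WDL.of_tst {A : X → X} {d : X → ℝ} (hA : ContinuousOn A axᶜ)
    (hd : ∀ K : Set X, IsCompact K → K ⊆ axᶜ → IntegrableOn d K)
    (h : ∀ η, Tst η → ∫ x, ⟪A x, ∇ η x⟫ = -∫ x, d x * η x) : WDL A d :=
  ⟨hA, hd, fun η C h1 h2 h3 => h η ⟨⟨C, h1⟩, h2, h3⟩⟩

theorem Tst.int_mulL {η : X → ℝ} (h : Tst η) {d : X → ℝ}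
    (hd : ∀ K : Set X, IsCompact K → K ⊆ axᶜ → IntegrableOn d K) :
    Integrable fun x => d x * η x := by
  obtain ⟨C, hC⟩ := h.lip
  have hK : tsupport η ⊆ axᶜ := fun x hx => h.notMem hx
  have h1 : (fun x => d x * η x) = (tsupport η).indicator fun x => d x * η x := by
    funext x
    by_cases hx : x ∈ tsupport η
    · rw [indicator_of_mem hx]
    · rw [indicator_of_notMem hx, image_eq_zero_of_notMem_tsupport hx, mul_zero]
  rw [h1, integrable_indicator_iff (isClosed_tsupport η).measurableSet]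
  exact (hd _ h.cs hK).mul_continuousOn hC.continuous.continuousOn h.cs

theorem locd_congr {d e : X → ℝ} (hd : ∀ K : Set X, IsCompact K → K ⊆ axᶜ → IntegrableOn d K)
    (h : ∀ᵐ x : X, d x = e x) : ∀ K : Set X, IsCompact K → K ⊆ axᶜ → IntegrableOn e K :=
  fun K hK hKa => (hd K hK hKa).congr (ae_restrict_of_ae h)

theorem WDL.congr {A B : X → X} {d e : X → ℝ} (h : WDL A d) (h1 : ∀ x, x ∉ ax → A x = B x)
    (h2 : ∀ᵐ x : X, d x = e x) : WDL B e := by
  refine WDL.of_tst (h.contA.congr fun x hx => (h1 x hx).symm) (locd_congr h.locd h2)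
    fun η hη => ?_
  have e1 : ∀ x, ⟪B x, ∇ η x⟫ = ⟪A x, ∇ η x⟫ := fun x => by
    by_cases hx : x ∈ tsupport η
    · rw [h1 x (hη.notMem hx)]
    · rw [gradient_zero_of_notMem hx, inner_zero_right, inner_zero_right]
  have e2 : ∫ x, e x * η x = ∫ x, d x * η x := by
    refine integral_congr_ae ?_
    filter_upwards [h2] with x hx
    rw [hx]
  simp_rw [e1]
  rw [e2]
  exact h.tst hη

theorem WDL.congr_div {A : X → X} {d e : X → ℝ} (h : WDL A d)
    (h2 : ∀ᵐ x : X, d x = e x) : WDL A e := h.congr (fun _ _ => rfl) h2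

theorem WDL.add {A B : X → X} {d e : X → ℝ} (hA : WDL A d) (hB : WDL B e) :
    WDL (fun x => A x + B x) fun x => d x + e x := by
  refine WDL.of_tst (hA.contA.add hB.contA) (fun K hK hKa => (hA.locd K hK hKa).add
    (hB.locd K hK hKa)) fun η hη => ?_
  simp_rw [inner_add_left, add_mul]
  rw [integral_add (hη.int_inner hA.contA) (hη.int_inner hB.contA),
    integral_add (hη.int_mulL hA.locd) (hη.int_mulL hB.locd), hA.tst hη, hB.tst hη]
  ring

theorem WDL.neg {A : X → X} {d : X → ℝ} (hA : WDL A d) : WDL (fun x => -A x) fun x => -d x := by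
  refine WDL.of_tst hA.contA.neg (fun K hK hKa => (hA.locd K hK hKa).neg) fun η hη => ?_
  simp_rw [inner_neg_left, neg_mul]
  rw [integral_neg, integral_neg, hA.tst hη]

theorem WDL.sub {A B : X → X} {d e : X → ℝ} (hA : WDL A d) (hB : WDL B e) :
    WDL (fun x => A x - B x) fun x => d x - e x := by
  refine (hA.add hB.neg).congr (fun x _ => ?_) (Eventually.of_forall fun x => ?_)
  · rw [sub_eq_add_neg]
  · ring

/-- the gradient of a function which is locally Lipschitz off the axis is locally bounded -/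
theorem LipAt_locb {f : X → ℝ} (hf : ∀ x, x ∉ ax → LipAt f x) {K : Set X} (hK : IsCompact K)
    (hKa : K ⊆ axᶜ) : ∃ M : ℝ, 0 ≤ M ∧ ∀ x ∈ K, ‖∇ f x‖ ≤ M := by
  refine hK.induction_on (p := fun s => ∃ M : ℝ, 0 ≤ M ∧ ∀ x ∈ s, ‖∇ f x‖ ≤ M)
    ⟨0, le_rfl, fun x hx => absurd hx (notMem_empty x)⟩
    (fun s t hst ⟨M, h0, hM⟩ => ⟨M, h0, fun x hx => hM x (hst hx)⟩)
    (fun s t ⟨M, h0, hM⟩ ⟨N, h0', hN⟩ => ⟨max M N, le_max_of_le_left h0, fun x hx => ?_⟩)
    fun x hx => ?_
  · rcases hx with hx | hx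
    · exact (hM x hx).trans (le_max_left _ _)
    · exact (hN x hx).trans (le_max_right _ _)
  · obtain ⟨C, t, ht, hC⟩ := hf x (hKa hx)
    obtain ⟨δ, hδ, hsub⟩ := Metric.mem_nhds_iff.mp ht
    refine ⟨ball x δ, mem_nhdsWithin_of_mem_nhds (ball_mem_nhds _ hδ), C, C.2, fun y hy => ?_⟩
    rw [norm_gradient]
    exact norm_fderiv_le_of_lipschitzOn ℝ (isOpen_ball.mem_nhds hy) (hC.mono hsub)

theorem locInt_inner {f : X → ℝ} (hf : ∀ x, x ∉ ax → LipAt f x) {f' : X → X}
    (hg : ∀ᵐ x : X, HasGradientAt f (f' x) x) {A : X → X} (hA : ContinuousOn A axᶜ) :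
    ∀ K : Set X, IsCompact K → K ⊆ axᶜ → IntegrableOn (fun x => ⟪f' x, A x⟫) K := by
  intro K hK hKa
  obtain ⟨M, hM0, hM⟩ := LipAt_locb hf hK hKa
  have h2 : IntegrableOn A K := (hA.mono hKa).integrableOn_compact hK
  have h3 : IntegrableOn (fun x => ⟪∇ f x, A x⟫) K := by
    refine Integrable.mono' (h2.norm.const_mul M)
      ((measurable_gradient f).aestronglyMeasurable.inner h2.1)
      ((ae_restrict_iff' hK.measurableSet).2 (Eventually.of_forall fun x hx => ?_))
    exact (norm_inner_le_norm _ _).trans (mul_le_mul_of_nonneg_right (hM x hx) (norm_nonneg _))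
  refine h3.congr (ae_restrict_of_ae ?_)
  filter_upwards [hg] with x hx
  rw [hx.gradient]

theorem contOn_of_lipAt {f : X → ℝ} (hf : ∀ x, x ∉ ax → LipAt f x) : ContinuousOn f axᶜ :=
  fun x hx => (hf x hx).continuousAt.continuousWithinAt

theorem locd_mul {d f : X → ℝ} (hd : ∀ K : Set X, IsCompact K → K ⊆ axᶜ → IntegrableOn d K)
    (hf : ContinuousOn f axᶜ) :
    ∀ K : Set X, IsCompact K → K ⊆ axᶜ → IntegrableOn (fun x => f x * d x) K :=
  fun K hK hKa => (hd K hK hKa).continuousOn_mul (hf.mono hKa) hK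

/-- **product rule** for functions which are locally Lipschitz off the axis -/
theorem WDL.mul_lip {A : X → X} {d f : X → ℝ} {f' : X → X} (hA : WDL A d)
    (hf : ∀ x, x ∉ ax → LipAt f x) (hg : ∀ᵐ x : X, HasGradientAt f (f' x) x) :
    WDL (fun x => f x • A x) fun x => ⟪f' x, A x⟫ + f x * d x := by
  have hfc := contOn_of_lipAt hf
  have hI := locInt_inner hf hg hA.contA
  have hJ := locd_mul hA.locd hfc
  refine WDL.of_tst (hfc.smul hA.contA) (fun K hK hKa => (hI K hK hKa).add (hJ K hK hKa))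
    fun η hη => ?_
  obtain ⟨C, hC⟩ := hη.lip
  have h1 := hA.tst (hη.mul_lip hf)
  have hgr : ∀ᵐ x : X, ⟪A x, ∇ (fun x => f x * η x) x⟫ =
      ⟪f x • A x, ∇ η x⟫ + ⟪f' x, A x⟫ * η x := by
    filter_upwards [hC.ae_differentiableAt (μ := (volume : Measure X)), hg] with x hx hgx
    have h3 := hx.hasGradientAt
    have h4 : HasGradientAt (fun x => f x * η x) (f x • ∇ η x + η x • f' x) x := by
      rw [hasGradientAt_iff_hasFDerivAt] at hgx h3 ⊢
      refine (hgx.mul h3).congr_fderiv ?_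
      rw [map_add, map_smul, map_smul]
    rw [h4.gradient, inner_add_right, real_inner_smul_right, real_inner_smul_right,
      real_inner_smul_left, real_inner_comm (f' x)]
    ring
  rw [integral_congr_ae hgr, integral_add (hη.int_inner (A := fun x => f x • A x)
    (hfc.smul hA.contA)) (hη.int_mulL hI)] at h1
  have e1 : ∫ x, (⟪f' x, A x⟫ + f x * d x) * η x =
      (∫ x, ⟪f' x, A x⟫ * η x) + ∫ x, d x * (f x * η x) := by
    have h5 : Integrable fun x => d x * (f x * η x) :=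
      (hη.int_mulL hJ).congr (Eventually.of_forall fun x => by simp only; ring)
    rw [← integral_add (hη.int_mulL hI) h5]
    refine integral_congr_ae (Eventually.of_forall fun x => ?_)
    simp only
    ring
  rw [e1]
  linarith

theorem WDL.mul {A : X → X} {d f : X → ℝ} {f' : X → X} (hA : WDL A d) (hf : C1O f f') :
    WDL (fun x => f x • A x) fun x => ⟪f' x, A x⟫ + f x * d x :=
  hA.mul_lip (fun x hx => hf.lip hx) (by
    filter_upwards [ae_off_ax] with x hx
    exact hf.grad x hx)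

theorem WDL.const_smul {A : X → X} {d : X → ℝ} (hA : WDL A d) (a : ℝ) :
    WDL (fun x => a • A x) fun x => a * d x := by
  refine (hA.mul (C1O.const a)).congr_div (Eventually.of_forall fun x => ?_)
  simp

/-- the positive part of a function with a gradient -/
theorem grad_posPart {f : X → ℝ} {f' : X → X} {x : X} (hf : HasGradientAt f (f' x) x)
    (hd : DifferentiableAt ℝ (fun y => max (f y) 0) x) :
    HasGradientAt (fun y => max (f y) 0) (if 0 < f x then f' x else 0) x := by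
  by_cases h : 0 < f x
  · rw [if_pos h]
    refine hf.congr_of_eventuallyEq ?_
    have h1 : ContinuousAt f x := by
      rw [hasGradientAt_iff_hasFDerivAt] at hf
      exact hf.continuousAt
    filter_upwards [h1 (Ioi_mem_nhds h)] with y hy
    exact max_eq_left (le_of_lt hy)
  · rw [if_neg h]
    have h1 : IsLocalMin (fun y => max (f y) 0) x := by
      refine Eventually.of_forall fun y => ?_
      simp only
      rw [max_eq_right (not_lt.mp h)]
      exact le_max_right _ _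
    have h2 := h1.fderiv_eq_zero
    rw [hasGradientAt_iff_hasFDerivAt, map_zero, ← h2]
    exact hd.hasFDerivAt

/-- functions which are locally Lipschitz off the axis are differentiable almost everywhere -/
theorem ae_diff_of_lipAt {f : X → ℝ} (hf : ∀ x, x ∉ ax → LipAt f x) :
    ∀ᵐ x : X, DifferentiableAt ℝ f x := by
  have h1 : ∀ x ∈ axᶜ, ∃ t ∈ 𝓝[axᶜ] x, ∀ᵐ y : X, y ∈ t → DifferentiableAt ℝ f y := by
    intro x hx
    obtain ⟨C, t, ht, hC⟩ := hf x hx
    obtain ⟨δ, hδ, hsub⟩ := Metric.mem_nhds_iff.mp ht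
    refine ⟨ball x δ, mem_nhdsWithin_of_mem_nhds (ball_mem_nhds _ hδ), ?_⟩
    filter_upwards [(hC.mono hsub).ae_differentiableWithinAt_of_mem] with y hy hyb
    exact (hy hyb).differentiableAt (isOpen_ball.mem_nhds hyb)
  have h2 : volume (axᶜ ∩ {x : X | ¬ DifferentiableAt ℝ f x}) = 0 := by
    refine measure_null_of_locally_null _ fun x hx => ?_
    obtain ⟨t, ht, hty⟩ := h1 x hx.1
    refine ⟨t ∩ {x : X | ¬ DifferentiableAt ℝ f x}, ?_, ?_⟩
    · have h3 : 𝓝[axᶜ ∩ {x : X | ¬ DifferentiableAt ℝ f x}] x ≤ 𝓝[axᶜ] x :=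
        nhdsWithin_mono _ inter_subset_left
      refine Filter.inter_mem (h3 ht) ?_
      exact mem_of_superset self_mem_nhdsWithin inter_subset_right
    · rw [ae_iff] at hty
      refine measure_mono_null (fun y hy => ?_) hty
      exact fun hi => hy.2 (hi hy.1)
  have h3 : ∀ᵐ x : X, x ∉ axᶜ ∩ {x : X | ¬ DifferentiableAt ℝ f x} :=
    measure_eq_zero_iff_ae_notMem.mp h2
  filter_upwards [h3, ae_off_ax] with x hx hxa
  by_contra h
  exact hx ⟨hxa, h⟩

/-- the field `h⁺∇h` -/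
theorem WD.posPart {h : X → ℝ} {h' : X → X} {l : X → ℝ} (hh : C1O h h') (hl : WD h' l) :
    WDL (fun x => max (h x) 0 • h' x) fun x =>
      (if 0 < h x then ‖h' x‖ ^ 2 else 0) + max (h x) 0 * l x := by
  have hL : ∀ x, x ∉ ax → LipAt (fun y => max (h y) 0) x := fun x hx =>
    (hh.lip hx).max (LipAt.const 0 x)
  have hg : ∀ᵐ x : X, HasGradientAt (fun y => max (h y) 0) (if 0 < h x then h' x else 0) x := by
    filter_upwards [ae_diff_of_lipAt hL, ae_off_ax] with x hx hxa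
    exact grad_posPart (hh.grad x hxa) hx
  refine (hl.toL.mul_lip hL hg).congr_div (Eventually.of_forall fun x => ?_)
  split_ifs with hx
  · rw [real_inner_self_eq_norm_sq]
  · rw [inner_zero_left]

/-- the lower bound of the second variation with a locally integrable divergence -/
theorem Vtr_ge_WDL {ι : Type*} [Fintype ι] {z : ι → ℝ} (hz : ∀ i, 0 ≤ z i) {R : ι → X}
    (hR : Function.Injective R) {φ₀ : ℝ} (hφ : 0 < φ₀)
    {ρ : X → ℝ} (hρ : TC ρ) (heq : ∀ x, ρ x = tf (Vpt z R x - pot ρ x - φ₀))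
    {k : X → ℝ} {k' : X → X} (hk : TrialK ax k k')
    (hI : ∀ i, Integrable (fun x => (‖x - R i‖ ^ 2)⁻¹ * ‖k' x‖))
    {J : X → X} {d : X → ℝ} (hJ : WDL J d) {e : X → ℝ} (he : Integrable e)
    {c : ι → ℝ}
    (hax : ∀ x₀ ∈ ax, (∀ i, x₀ ≠ R i) → ∃ C δ : ℝ, 0 < δ ∧ ∀ x ∈ ball x₀ δ, x ∉ ax →
      ‖J x‖ ^ 2 ≤ C * (ht x)⁻¹)
    (hd : ∀ᵐ x : X, d x ≤ Fcal φ₀ z R ρ k k' x + e x)
    (hnuc : ∀ i, ∀ δ : ℝ, 0 < δ → ∀ᶠ ε in 𝓝[>] (0 : ℝ),
      -∫ x, ⟪J x, Flux.gcut ε (x - R i)⟫ ≤ 2 * z i * (Vpt z R (R i) + k (R i)) + c i + δ)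
    (hinf : ∀ δ : ℝ, 0 < δ → ∀ᶠ N in atTop, ∫ x, ⟪J x, Flux.gcut N x⟫ ≤ δ) :
    -(∫ x, e x) - ∑ i, c i ≤ Vtr φ₀ z R ρ k ((8 * Real.pi)⁻¹ * ∫ x, ‖k' x‖ ^ 2) := by
  have hk' := Col.wTrial hk
  have hF : Integrable fun x => Fcal φ₀ z R ρ k k' x + e x :=
    (hk'.calib_alg hz R hφ hρ heq hI).1.add he
  refine hk'.Vtr_ge hz hR hφ hρ heq hI Col.zeroCap_ax he (off_ax_meas hJ.contA)
    (locInt_sq hJ.contA hax) (fun ζ hζ => ?_) hnuc hinf
  obtain ⟨C, hC⟩ := hζ.test.lip
  have hdis : Disjoint (tsupport ζ) ax := by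
    rw [Set.disjoint_left]
    intro x hx hx'
    exact (notMem_tsupport_iff_eventuallyEq.mpr (hζ.offN x hx')) hx
  have hT : Tst ζ := ⟨⟨C, hC⟩, hζ.test.supp, hdis⟩
  rw [hJ.eq ζ C hC hζ.test.supp hdis, neg_neg]
  obtain ⟨M, hM⟩ := hζ.test.supp.exists_bound_of_continuous hC.continuous
  have hFint : Integrable fun x => ζ x * (Fcal φ₀ z R ρ k k' x + e x) :=
    hF.bdd_mul hC.continuous.aestronglyMeasurable (c := M) (Eventually.of_forall hM)
  refine integral_mono_ae (hT.int_mulL hJ.locd) hFint ?_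
  filter_upwards [hd] with x hx
  rw [mul_comm]
  exact mul_le_mul_of_nonneg_left hx (hζ.test.nonneg x)

end Pool.Agent.TF.Col
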