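import Pool.Agent.Lib.MP_9cf0c9_mp.Col58Jet

/-! Collinear nuclei: first order relations between `∇p` and `∇c`, weak divergences of `∇p`
and `∇c`. -/

set_option autoImplicit false
set_option linter.unusedSectionVars false
set_option linter.unusedVariables false

namespace Pool.Agent.TF.Col
open MeasureTheory Set Metric Filter Topology
open scoped ENNReal NNReal RealInnerProductSpace Gradient
open Pool.Agent.TF.Grd

variable {ι : Type*} [Fintype ι]
variable {φ₀ : ℝ} {z : ι → ℝ} {R : ι → X} {ρ : X → ℝ} {H : X → X →L[ℝ] X} {lo hi : ℝ}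

/-- the vector from the foot to the point -/
noncomputable def Vf (z : ι → ℝ) (R : ι → X) (ρ : X → ℝ) (x : X) : X := x - cf z R ρ x • e1

/-- axial component of `Vf` -/
noncomputable def zt (z : ι → ℝ) (R : ι → X) (ρ : X → ℝ) (x : X) : ℝ := x.fst - cf z R ρ x

/-- axial and transverse derivatives of `p` and `c` -/
noncomputable def px (z : ι → ℝ) (R : ι → X) (ρ : X → ℝ) (H : X → X →L[ℝ] X) (x : X) : ℝ :=
  ⟪pf' z R ρ H x, e1⟫
noncomputable def ps (z : ι → ℝ) (R : ι → X) (ρ : X → ℝ) (H : X → X →L[ℝ] X) (x : X) : ℝ :=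
  ⟪pf' z R ρ H x, es x⟫
noncomputable def cx (z : ι → ℝ) (R : ι → X) (ρ : X → ℝ) (H : X → X →L[ℝ] X) (x : X) : ℝ :=
  ⟪cf' z R ρ H x, e1⟫
noncomputable def cs (z : ι → ℝ) (R : ι → X) (ρ : X → ℝ) (H : X → X →L[ℝ] X) (x : X) : ℝ :=
  ⟪cf' z R ρ H x, es x⟫

theorem perp_es {x : X} (hx : x ∉ Col.ax) : perp x = ht x • es x := by
  have := ht_pos hx
  unfold es
  rw [smul_smul, mul_inv_cancel₀ this.ne', one_smul]

theorem Vf_eq (z : ι → ℝ) (R : ι → X) (ρ : X → ℝ) {x : X} (hx : x ∉ Col.ax) :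
    Vf z R ρ x = zt z R ρ x • e1 + ht x • es x := by
  rw [← perp_es hx]
  unfold Vf zt
  rw [perp_eq, sub_smul]
  abel

theorem inner_e1_self : ⟪e1, e1⟫ = 1 := by
  rw [real_inner_self_eq_norm_sq, norm_e1, one_pow]

theorem inner_es_self {x : X} (hx : x ∉ Col.ax) : ⟪es x, es x⟫ = 1 := by
  rw [real_inner_self_eq_norm_sq, norm_es hx, one_pow]

theorem inner_e1_es (x : X) : ⟪e1, es x⟫ = 0 := by rw [real_inner_comm]; exact inner_es_e1 x

/-- the second derivatives in terms of the derivatives of `p` and `c` -/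
theorem Dat.H_eq (D : Dat φ₀ z R ρ H lo hi) {x : X} (hx : x ∉ Col.ax) (v : X) :
    H x v = -(pf z R ρ x • (v - ⟪cf' z R ρ H x, v⟫ • e1) +
      ⟪pf' z R ρ H x, v⟫ • Vf z R ρ x) := by
  have h1 := (D.c1_p.grad x hx).hasFDerivAt
  have h2 := (D.c1_c.grad x hx).hasFDerivAt
  have h0 := (hasFDerivAt_id (𝕜 := ℝ) x).sub (h2.smul_const e1)
  have h3 := (h1.smul h0).neg
  have h4 := h3.congr_of_eventuallyEq (f₁ := psi' z R ρ) (by
    filter_upwards [nhds_off hx] with y hy
    exact D.ax.form y hy)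
  rw [(D.derivP hx).unique h4]
  simp only [neg_apply, add_apply, smul_apply, ContinuousLinearMap.smulRight_apply,
    sub_apply, ContinuousLinearMap.id_apply, InnerProductSpace.toDual_apply_apply]
  rfl

/-- symmetry of the second derivatives -/
theorem Dat.symm_rel (D : Dat φ₀ z R ρ H lo hi) {x : X} (hx : x ∉ Col.ax) (u w : X) :
    pf z R ρ x * (⟪cf' z R ρ H x, u⟫ * ⟪e1, w⟫) - ⟪pf' z R ρ H x, u⟫ * ⟪Vf z R ρ x, w⟫ =
      pf z R ρ x * (⟪cf' z R ρ H x, w⟫ * ⟪e1, u⟫) - ⟪pf' z R ρ H x, w⟫ * ⟪Vf z R ρ x, u⟫ := by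
  have h := D.hs.symm x (D.off hx) u w
  rw [D.H_eq hx, D.H_eq hx] at h
  simp only [inner_neg_left, inner_neg_right, inner_add_left, inner_add_right,
    real_inner_smul_left, real_inner_smul_right, inner_sub_left, inner_sub_right] at h
  rw [real_inner_comm w u, real_inner_comm e1 u, real_inner_comm (Vf z R ρ x) u] at h
  linarith

theorem Dat.inner_V_es (D : Dat φ₀ z R ρ H lo hi) {x : X} (hx : x ∉ Col.ax) :
    ⟪Vf z R ρ x, es x⟫ = ht x := by
  rw [Vf_eq z R ρ hx, inner_add_left, real_inner_smul_left, real_inner_smul_left, inner_e1_es,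
    inner_es_self hx]
  ring

theorem Dat.inner_V_e1 (D : Dat φ₀ z R ρ H lo hi) {x : X} (hx : x ∉ Col.ax) :
    ⟪Vf z R ρ x, e1⟫ = zt z R ρ x := by
  rw [Vf_eq z R ρ hx, inner_add_left, real_inner_smul_left, real_inner_smul_left, inner_es_e1,
    inner_e1_self]
  ring

/-- the curl relation -/
theorem Dat.curl (D : Dat φ₀ z R ρ H lo hi) {x : X} (hx : x ∉ Col.ax) :
    zt z R ρ x * ps z R ρ H x - ht x * px z R ρ H x = pf z R ρ x * cs z R ρ H x := by
  have h := D.symm_rel hx e1 (es x)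
  rw [inner_e1_es, inner_e1_self, D.inner_V_es hx, D.inner_V_e1 hx] at h
  unfold ps px cs
  linarith

/-- `∇p` in the frame -/
theorem Dat.p'_eq (D : Dat φ₀ z R ρ H lo hi) {x : X} (hx : x ∉ Col.ax) :
    pf' z R ρ H x = px z R ρ H x • e1 + ps z R ρ H x • es x := by
  have hs := ht_pos hx
  refine ext_inner_right ℝ fun u => ?_
  have h := D.symm_rel hx u (es x)
  have hc := D.curl hx
  rw [inner_e1_es, D.inner_V_es hx] at h
  have hV : ⟪Vf z R ρ x, u⟫ = zt z R ρ x * ⟪e1, u⟫ + ht x * ⟪es x, u⟫ := by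
    rw [Vf_eq z R ρ hx, inner_add_left, real_inner_smul_left, real_inner_smul_left]
  rw [hV] at h
  rw [inner_add_left, real_inner_smul_left, real_inner_smul_left]
  have h2 : ht x * ⟪pf' z R ρ H x, u⟫ = ht x * (px z R ρ H x * ⟪e1, u⟫ +
      ps z R ρ H x * ⟪es x, u⟫) := by
    unfold ps px cs at *
    linear_combination -h + ⟪e1, u⟫ * hc
  exact mul_left_cancel₀ hs.ne' h2

/-- `∇c` in the frame -/
theorem Dat.c'_eq (D : Dat φ₀ z R ρ H lo hi) {x : X} (hx : x ∉ Col.ax) :
    cf' z R ρ H x = cx z R ρ H x • e1 + cs z R ρ H x • es x := by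
  have hp := D.ax.pos x hx
  refine ext_inner_right ℝ fun u => ?_
  have h := D.symm_rel hx u e1
  have hc := D.curl hx
  rw [inner_e1_self, D.inner_V_e1 hx] at h
  have hV : ⟪Vf z R ρ x, u⟫ = zt z R ρ x * ⟪e1, u⟫ + ht x * ⟪es x, u⟫ := by
    rw [Vf_eq z R ρ hx, inner_add_left, real_inner_smul_left, real_inner_smul_left]
  rw [hV, D.p'_eq hx] at h
  simp only [inner_add_left, real_inner_smul_left, inner_e1_self, inner_es_e1] at h
  rw [inner_add_left, real_inner_smul_left, real_inner_smul_left]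
  have h2 : pf z R ρ x * ⟪cf' z R ρ H x, u⟫ = pf z R ρ x * (cx z R ρ H x * ⟪e1, u⟫ +
      cs z R ρ H x * ⟪es x, u⟫) := by
    unfold cx at *
    linear_combination h + ⟪es x, u⟫ * hc
  exact mul_left_cancel₀ hp.ne' h2

theorem sum_inner_mul' (a b : X) :
    ∑ j, ⟪a, stdOrthonormalBasis ℝ X j⟫ * ⟪b, stdOrthonormalBasis ℝ X j⟫ = ⟪a, b⟫ := by
  have h := (stdOrthonormalBasis ℝ X).sum_inner_mul_inner a b
  rw [← h]
  refine Finset.sum_congr rfl fun j _ => ?_
  rw [real_inner_comm b]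

/-- the divergence relation -/
theorem Dat.divr (D : Dat φ₀ z R ρ H lo hi) {x : X} (hx : x ∉ Col.ax) :
    zt z R ρ x * px z R ρ H x + ht x * ps z R ρ H x =
      pf z R ρ x * cx z R ρ H x - 3 * pf z R ρ x - 4 * Real.pi * ρ x := by
  have h := D.hs.trace x (D.off hx)
  have hn : ∑ j : Fin (Module.finrank ℝ X), ⟪stdOrthonormalBasis ℝ X j,
      stdOrthonormalBasis ℝ X j⟫ = 3 := by
    have hj : ∀ j, ⟪stdOrthonormalBasis ℝ X j, stdOrthonormalBasis ℝ X j⟫ = (1 : ℝ) := fun j => by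
      rw [real_inner_self_eq_norm_sq, (stdOrthonormalBasis ℝ X).norm_eq_one, one_pow]
    simp only [hj, Finset.sum_const, Finset.card_univ, Fintype.card_fin, nsmul_eq_mul, mul_one]
    have : Module.finrank ℝ X = 3 := Fact.out
    rw [this]; norm_num
  unfold tr at h
  have e : ∀ j, ⟪H x (stdOrthonormalBasis ℝ X j), stdOrthonormalBasis ℝ X j⟫ =
      -(pf z R ρ x * ⟪stdOrthonormalBasis ℝ X j, stdOrthonormalBasis ℝ X j⟫) +
      pf z R ρ x * (⟪cf' z R ρ H x, stdOrthonormalBasis ℝ X j⟫ *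
        ⟪e1, stdOrthonormalBasis ℝ X j⟫) -
      ⟪pf' z R ρ H x, stdOrthonormalBasis ℝ X j⟫ *
        ⟪Vf z R ρ x, stdOrthonormalBasis ℝ X j⟫ := by
    intro j
    rw [D.H_eq hx, inner_neg_left, inner_add_left, real_inner_smul_left, inner_sub_left,
      real_inner_smul_left, real_inner_smul_left]
    ring
  simp_rw [e] at h
  rw [Finset.sum_sub_distrib, Finset.sum_add_distrib, Finset.sum_neg_distrib, ← Finset.mul_sum,
    ← Finset.mul_sum, hn, sum_inner_mul', sum_inner_mul'] at h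
  rw [Vf_eq z R ρ hx, inner_add_right, real_inner_smul_right, real_inner_smul_right] at h
  unfold px ps cx
  linarith

/-! ### the weak divergence of `∇p` and `∇c` -/

/-- transverse unit vectors -/
noncomputable def eb (j : Fin 2) : X := mk 0 (EuclideanSpace.single j 1)

theorem inner_e1_eb (j : Fin 2) : ⟪e1, eb j⟫ = 0 := by
  rw [real_inner_comm, inner_e1]; rfl

theorem inner_eb_self (j : Fin 2) : ⟪eb j, eb j⟫ = 1 := by
  rw [real_inner_self_eq_norm_sq]
  unfold eb
  rw [norm_mk_sq]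
  simp

theorem sum_inner_eb (x y : X) : ∑ j, ⟪x, eb j⟫ * ⟪y, eb j⟫ = ⟪x, perp y⟫ := by
  rw [inner_perp]
  have e : ∀ (v : X) (j : Fin 2), ⟪v, eb j⟫ = v.snd j := by
    intro v j
    rw [inner_X]
    simp [eb, EuclideanSpace.inner_single_right]
  simp only [e]
  rw [PiLp.inner_apply]
  refine Finset.sum_congr rfl fun j _ => ?_
  simp [mul_comm]

theorem C1O.inner_const' (e : X) : C1O (fun x => ⟪x, e⟫) fun _ => e := by
  refine ⟨fun x _ => ?_, continuousOn_const⟩
  have h : HasFDerivAt (fun x : X => ⟪e, x⟫) (innerSL ℝ e) x := (innerSL ℝ e).hasFDerivAt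
  rw [hasGradientAt_iff_hasFDerivAt]
  refine (h.congr_of_eventuallyEq (Eventually.of_forall fun y => ?_)).congr_fderiv ?_
  · simp only; rw [real_inner_comm]
  · ext y; simp

theorem WD.sum {κ : Type*} (s : Finset κ) {A : κ → X → X} {d : κ → X → ℝ}
    (h : ∀ j ∈ s, WD (A j) (d j)) : WD (fun x => ∑ j ∈ s, A j x) fun x => ∑ j ∈ s, d j x := by
  classical
  induction s using Finset.induction_on with
  | empty => simpa using WD.zero
  | insert j s hj ih =>
    have h1 := (h j (Finset.mem_insert_self j s)).add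
      (ih fun i hi => h i (Finset.mem_insert_of_mem hi))
    refine h1.congr (fun x _ => ?_) fun x _ => ?_
    · rw [Finset.sum_insert hj]
    · rw [Finset.sum_insert hj]

/-- `E` in terms of `p` -/
theorem Dat.inner_psi' (D : Dat φ₀ z R ρ H lo hi) {x : X} (hx : x ∉ Col.ax) (e : X) :
    ⟪psi' z R ρ x, e⟫ = -(pf z R ρ x * ⟪Vf z R ρ x, e⟫) := by
  rw [D.ax.form x hx, inner_neg_left, real_inner_smul_left]
  rfl

/-- the transposed form of the second derivatives -/
theorem Dat.H_eq' (D : Dat φ₀ z R ρ H lo hi) {x : X} (hx : x ∉ Col.ax) (v : X) :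
    H x v = -(⟪Vf z R ρ x, v⟫ • pf' z R ρ H x +
      pf z R ρ x • (v - ⟪e1, v⟫ • cf' z R ρ H x)) := by
  refine ext_inner_right ℝ fun u => ?_
  have h := D.symm_rel hx u v
  rw [D.H_eq hx]
  simp only [inner_neg_left, inner_add_left, real_inner_smul_left, inner_sub_left]
  linarith

theorem Dat.wd_s2p (D : Dat φ₀ z R ρ H lo hi) :
    WD (fun x => ht x ^ 2 • pf' z R ρ H x) fun x =>
      4 * Real.pi * gam (psi φ₀ z R ρ x) * pf z R ρ x * ht x ^ 2 := by
  have h1 : ∀ j : Fin 2, WD (fun x => ⟪x, eb j⟫ ^ 2 • pf' z R ρ H x) fun x =>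
      4 * Real.pi * gam (psi φ₀ z R ρ x) * pf z R ρ x * ⟪x, eb j⟫ ^ 2 := by
    intro j
    have a1 := ((D.wd_H (eb j)).neg.mul (C1O.inner_const' (eb j)))
    have a2 := (WD.const (eb j)).mul (D.c1_p.mul (C1O.inner_const' (eb j)))
    refine (a1.sub a2).congr (fun x hx => ?_) fun x hx => ?_
    · have e1' : ⟪Vf z R ρ x, eb j⟫ = ⟪x, eb j⟫ := by
        unfold Vf
        rw [inner_sub_left, real_inner_smul_left, inner_e1_eb, mul_zero, sub_zero]
      rw [D.H_eq' hx, inner_e1_eb, e1']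
      module
    · have e1' : ⟪Vf z R ρ x, eb j⟫ = ⟪x, eb j⟫ := by
        unfold Vf
        rw [inner_sub_left, real_inner_smul_left, inner_e1_eb, mul_zero, sub_zero]
      rw [D.H_eq' hx, inner_e1_eb, e1', D.inner_psi' hx, e1']
      simp only [inner_neg_right, inner_add_right, inner_add_left,
        real_inner_smul_left, real_inner_smul_right, zero_smul, sub_zero, inner_eb_self, mul_zero,
        add_zero]
      rw [real_inner_comm (pf' z R ρ H x) (eb j)]
      ring
  have h2 := WD.sum Finset.univ fun j _ => h1 j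
  have hsum : ∀ x : X, ∑ j : Fin 2, ⟪x, eb j⟫ ^ 2 = ht x ^ 2 := fun x => by
    rw [← inner_self_perp, ← sum_inner_eb]
    exact Finset.sum_congr rfl fun j _ => by ring
  refine h2.congr (fun x hx => ?_) fun x hx => ?_
  · rw [← Finset.sum_smul, hsum]
  · rw [← Finset.mul_sum, hsum]

/-- **the equation of `p`** -/
theorem Dat.wd_p (D : Dat φ₀ z R ρ H lo hi) :
    WD (pf' z R ρ H) fun x => 4 * Real.pi * gam (psi φ₀ z R ρ x) * pf z R ρ x -
      2 / ht x * ps z R ρ H x := by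
  have h := D.wd_s2p.mul (C1O.ht_sq.inv fun x hx => pow_ne_zero 2 (ht_pos hx).ne')
  refine h.congr (fun x hx => ?_) fun x hx => ?_
  · have := ht_pos hx
    rw [smul_smul, inv_mul_cancel₀ (by positivity), one_smul]
  · have := ht_pos hx
    rw [perp_es hx]
    simp only [real_inner_smul_left, real_inner_smul_right, smul_smul]
    unfold ps
    rw [real_inner_comm (pf' z R ρ H x) (es x)]
    field_simp
    ring

/-- **the equation of `c`** -/
theorem Dat.wd_c (D : Dat φ₀ z R ρ H lo hi) :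
    WD (cf' z R ρ H) fun x => -(2 / ht x * cs z R ρ H x) -
      2 / pf z R ρ x * ⟪pf' z R ρ H x, cf' z R ρ H x⟫ := by
  -- `p ∇c = ζ ∇p + p e₁ + H e₁`
  have hzt : C1O (zt z R ρ) fun x => e1 - cf' z R ρ H x := C1O.fst.sub D.c1_c
  have a1 := D.wd_p.mul hzt
  have a2 := (WD.const e1).mul D.c1_p
  have a3 := (a1.add a2).add (D.wd_H e1)
  have a4 : WD (fun x => pf z R ρ x • cf' z R ρ H x) fun x =>
      -⟪pf' z R ρ H x, cf' z R ρ H x⟫ - 2 / ht x * (pf z R ρ x * cs z R ρ H x) := by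
    refine a3.congr (fun x hx => ?_) fun x hx => ?_
    · rw [D.H_eq' hx, D.inner_V_e1 hx, inner_e1_self]
      module
    · have hs := ht_pos hx
      have hc := D.curl hx
      rw [D.inner_psi' hx, D.inner_V_e1 hx, inner_sub_left, ← hc,
        real_inner_comm (pf' z R ρ H x) (cf' z R ρ H x), real_inner_comm (pf' z R ρ H x) e1]
      unfold ps px
      field_simp
      ring
  have a5 := a4.mul (D.c1_p.inv fun x hx => (D.ax.pos x hx).ne')
  refine a5.congr (fun x hx => ?_) fun x hx => ?_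
  · have := D.ax.pos x hx
    rw [smul_smul, inv_mul_cancel₀ this.ne', one_smul]
  · have h1 := D.ax.pos x hx
    have h2 := ht_pos hx
    rw [real_inner_smul_left, real_inner_smul_right]
    field_simp
    ring

end Pool.Agent.TF.Col
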