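import Pool.Agent.Lib.MP_9cf0c9_mp.Col58Def

/-! Weak divergences off the axis: algebra, and the equations of the solution. -/

set_option autoImplicit false
set_option linter.unusedSectionVars false
set_option linter.unusedVariables false

namespace Pool.Agent.TF.Col
open MeasureTheory Set Metric Filter Topology
open scoped ENNReal NNReal RealInnerProductSpace Gradient
open Pool.Agent.TF.Grd

/-! ### continuously differentiable functions off the axis -/

theorem C1O.gradAt {f : X → ℝ} {f' : X → X} (h : C1O f f') {x : X} (hx : x ∉ ax) :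
    HasGradientAt f (f' x) x := h.grad x hx

theorem C1O.contAt {f : X → ℝ} {f' : X → X} (h : C1O f f') {x : X} (hx : x ∉ ax) :
    ContinuousAt f' x := h.cont.continuousAt (nhds_off hx)

theorem C1O.cont0 {f : X → ℝ} {f' : X → X} (h : C1O f f') : ContinuousOn f axᶜ :=
  fun x hx => (h.grad x hx).hasFDerivAt.continuousAt.continuousWithinAt

theorem C1O.congr {f g : X → ℝ} {f' g' : X → X} (h : C1O f f') (h0 : ∀ x, x ∉ ax → f x = g x)
    (h1 : ∀ x, x ∉ ax → f' x = g' x) : C1O g g' := by
  refine ⟨fun x hx => ?_, h.cont.congr fun x hx => (h1 x hx).symm⟩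
  rw [← h1 x hx]
  refine (h.grad x hx).congr_of_eventuallyEq ?_
  filter_upwards [nhds_off hx] with y hy
  exact (h0 y hy).symm

theorem C1O.congr' {f : X → ℝ} {f' g' : X → X} (h : C1O f f')
    (h1 : ∀ x, x ∉ ax → f' x = g' x) : C1O f g' := h.congr (fun _ _ => rfl) h1

theorem C1O.lip {f : X → ℝ} {f' : X → X} (h : C1O f f') {x : X} (hx : x ∉ ax) : LipAt f x := by
  obtain ⟨δ, hδ, hb⟩ := Metric.isOpen_iff.mp isOpen_off_ax x hx
  exact lipAt_of_gradient hδ (fun y hy => h.grad y (hb hy)) (h.contAt hx)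

theorem C1O.const (a : ℝ) : C1O (fun _ => a) fun _ => (0 : X) :=
  ⟨fun x _ => hasGradientAt_const x a, continuousOn_const⟩

theorem C1O.add {f g : X → ℝ} {f' g' : X → X} (hf : C1O f f') (hg : C1O g g') :
    C1O (fun x => f x + g x) fun x => f' x + g' x := by
  refine ⟨fun x hx => ?_, hf.cont.add hg.cont⟩
  have h1 := hf.grad x hx
  have h2 := hg.grad x hx
  rw [hasGradientAt_iff_hasFDerivAt] at h1 h2 ⊢
  rw [map_add]
  exact h1.add h2

theorem C1O.neg {f : X → ℝ} {f' : X → X} (hf : C1O f f') : C1O (fun x => -f x) fun x => -f' x := by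
  refine ⟨fun x hx => ?_, hf.cont.neg⟩
  have h1 := hf.grad x hx
  rw [hasGradientAt_iff_hasFDerivAt] at h1 ⊢
  rw [map_neg]
  exact h1.neg

theorem C1O.sub {f g : X → ℝ} {f' g' : X → X} (hf : C1O f f') (hg : C1O g g') :
    C1O (fun x => f x - g x) fun x => f' x - g' x := by
  refine ⟨fun x hx => ?_, hf.cont.sub hg.cont⟩
  have h1 := hf.grad x hx
  have h2 := hg.grad x hx
  rw [hasGradientAt_iff_hasFDerivAt] at h1 h2 ⊢
  rw [map_sub]
  exact h1.sub h2

theorem C1O.mul {f g : X → ℝ} {f' g' : X → X} (hf : C1O f f') (hg : C1O g g') :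
    C1O (fun x => f x * g x) fun x => f x • g' x + g x • f' x := by
  refine ⟨fun x hx => ?_, (hf.cont0.smul hg.cont).add (hg.cont0.smul hf.cont)⟩
  have h1 := hf.grad x hx
  have h2 := hg.grad x hx
  rw [hasGradientAt_iff_hasFDerivAt] at h1 h2 ⊢
  refine (h1.mul h2).congr_fderiv ?_
  rw [map_add, map_smul, map_smul]

theorem C1O.const_mul {f : X → ℝ} {f' : X → X} (hf : C1O f f') (a : ℝ) :
    C1O (fun x => a * f x) fun x => a • f' x := by
  refine ((C1O.const a).mul hf).congr' fun x _ => ?_
  simp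

/-- composition with a function of one variable -/
theorem C1O.comp {f : X → ℝ} {f' : X → X} (hf : C1O f f') {F F' : ℝ → ℝ} {T : Set ℝ}
    (hT : ∀ x, x ∉ ax → f x ∈ T) (hF : ∀ t ∈ T, HasDerivAt F (F' t) t) (hc : ContinuousOn F' T) :
    C1O (fun x => F (f x)) fun x => F' (f x) • f' x := by
  refine ⟨fun x hx => ?_, (hc.comp hf.cont0 hT).smul hf.cont⟩
  have h1 := hf.grad x hx
  have h2 := (hF _ (hT x hx)).comp_hasFDerivAt x h1.hasFDerivAt
  rw [hasGradientAt_iff_hasFDerivAt, map_smul]
  exact h2

theorem C1O.inv {f : X → ℝ} {f' : X → X} (hf : C1O f f') (h0 : ∀ x, x ∉ ax → f x ≠ 0) :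
    C1O (fun x => (f x)⁻¹) fun x => -(f x ^ 2)⁻¹ • f' x :=
  hf.comp (F := fun t => t⁻¹) (F' := fun t => -(t ^ 2)⁻¹) (T := {t | t ≠ 0}) h0
    (fun t ht => hasDerivAt_inv ht)
    ((continuousOn_pow 2).inv₀ fun t ht => pow_ne_zero 2 ht).neg

theorem C1O.fst : C1O (fun x => x.fst) fun _ => e1 := by
  refine ⟨fun x _ => ?_, continuousOn_const⟩
  have h : HasFDerivAt (fun x : X => ⟪e1, x⟫) (innerSL ℝ e1) x := (innerSL ℝ e1).hasFDerivAt
  rw [hasGradientAt_iff_hasFDerivAt]
  refine (h.congr_of_eventuallyEq (Eventually.of_forall fun y => ?_)).congr_fderiv ?_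
  · simp only; rw [real_inner_comm, inner_e1]
  · ext y; simp

theorem hasFDerivAt_perp (x : X) : HasFDerivAt perp
    (ContinuousLinearMap.id ℝ X - (innerSL ℝ e1).smulRight e1) x := by
  have h : HasFDerivAt (fun x : X => x - ⟪e1, x⟫ • e1)
      (ContinuousLinearMap.id ℝ X - (innerSL ℝ e1).smulRight e1) x :=
    (hasFDerivAt_id x).sub ((innerSL ℝ e1).smulRight e1).hasFDerivAt
  refine h.congr_of_eventuallyEq (Eventually.of_forall fun y => ?_)
  simp only
  rw [perp_eq, real_inner_comm, inner_e1]

theorem perp_apply (v : X) :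
    (ContinuousLinearMap.id ℝ X - (innerSL ℝ e1).smulRight e1) v = perp v := by
  simp only [sub_apply, ContinuousLinearMap.id_apply,
    ContinuousLinearMap.smulRight_apply, innerSL_apply_apply]
  rw [perp_eq, real_inner_comm, inner_e1]

theorem C1O.ht_sq : C1O (fun x => ht x ^ 2) fun x => (2 : ℝ) • perp x := by
  have hc : Continuous fun x : X => (2 : ℝ) • perp x := by
    have h : Continuous fun x : X => (2 : ℝ) • (x - x.fst • e1) := by fun_prop
    refine h.congr fun x => ?_
    rw [perp_eq]
  refine ⟨fun x _ => ?_, hc.continuousOn⟩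
  have h1 : HasFDerivAt (fun x : X => ‖perp x‖ ^ 2) _ x := (hasFDerivAt_perp x).norm_sq
  rw [hasGradientAt_iff_hasFDerivAt]
  refine (h1.congr_of_eventuallyEq (Eventually.of_forall fun y => ?_)).congr_fderiv ?_
  · simp only; rw [norm_perp]
  · ext v
    simp only [smul_apply, ContinuousLinearMap.comp_apply, perp_apply, innerSL_apply_apply,
      InnerProductSpace.toDual_apply_apply, real_inner_smul_left]
    rw [inner_perp, inner_X]
    simp [perp]

theorem C1O.ht : C1O ht es := by
  refine (C1O.ht_sq.comp (F := fun t => √t) (F' := fun t => (2 * √t)⁻¹) (T := Ioi 0)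
    (fun x hx => ?_) (fun t ht => ?_) ?_).congr (fun x hx => ?_) fun x hx => ?_
  · have := ht_pos hx
    exact pow_pos this 2
  · have := Real.hasDerivAt_sqrt (ne_of_gt ht : t ≠ 0)
    simpa [one_div] using this
  · refine ContinuousOn.inv₀ (by fun_prop) fun t ht => ?_
    have : 0 < √t := Real.sqrt_pos.mpr ht
    positivity
  · exact Real.sqrt_sq (ht_nonneg x)
  · have := ht_pos hx
    rw [Real.sqrt_sq (ht_nonneg x), smul_smul]
    unfold es
    congr 1
    field_simp

theorem C1O.ht_inv : C1O (fun x => (Col.ht x)⁻¹) fun x => -(Col.ht x ^ 2)⁻¹ • es x :=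
  C1O.ht.inv fun x hx => (ht_pos hx).ne'

/-! ### test functions -/

/-- Lipschitz with compact support off the axis -/
structure Tst (η : X → ℝ) : Prop where
  lip : ∃ C : ℝ≥0, LipschitzWith C η
  cs : HasCompactSupport η
  off : Disjoint (tsupport η) ax

theorem Tst.notMem {η : X → ℝ} (h : Tst η) {x : X} (hx : x ∈ tsupport η) : x ∉ ax :=
  fun h' => (Set.disjoint_left.mp h.off) hx h'

theorem WD.tst {A : X → X} {d : X → ℝ} (h : WD A d) {η : X → ℝ} (hη : Tst η) :
    ∫ x, ⟪A x, ∇ η x⟫ = -∫ x, d x * η x := by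
  obtain ⟨C, hC⟩ := hη.lip
  exact h.eq η C hC hη.cs hη.off

theorem Tst.int_mul {η : X → ℝ} (h : Tst η) {d : X → ℝ} (hd : ContinuousOn d axᶜ) :
    Integrable fun x => d x * η x := by
  obtain ⟨C, hC⟩ := h.lip
  have hK : tsupport η ⊆ axᶜ := fun x hx => h.notMem hx
  have h1 : (fun x => d x * η x) = (tsupport η).indicator fun x => d x * η x := by
    funext x
    by_cases hx : x ∈ tsupport η
    · rw [indicator_of_mem hx]
    · rw [indicator_of_notMem hx, image_eq_zero_of_notMem_tsupport hx, mul_zero]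
  rw [h1, integrable_indicator_iff (isClosed_tsupport η).measurableSet]
  exact ((hd.mono hK).mul hC.continuous.continuousOn).integrableOn_compact h.cs

theorem Tst.int_inner {η : X → ℝ} (h : Tst η) {A : X → X} (hA : ContinuousOn A axᶜ) :
    Integrable fun x => ⟪A x, ∇ η x⟫ := by
  obtain ⟨C, hC⟩ := h.lip
  have hK : tsupport η ⊆ axᶜ := fun x hx => h.notMem hx
  have h1 : (fun x => ⟪A x, ∇ η x⟫) = (tsupport η).indicator fun x => ⟪A x, ∇ η x⟫ := by
    funext x
    by_cases hx : x ∈ tsupport η
    · rw [indicator_of_mem hx]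
    · rw [indicator_of_notMem hx, gradient_zero_of_notMem hx, inner_zero_right]
  rw [h1, integrable_indicator_iff (isClosed_tsupport η).measurableSet]
  have h2 : IntegrableOn A (tsupport η) := (hA.mono hK).integrableOn_compact h.cs
  refine Integrable.mono' (h2.norm.const_mul (C : ℝ))
    (h2.1.inner (measurable_gradient η).aestronglyMeasurable) (Eventually.of_forall fun x => ?_)
  calc ‖⟪A x, ∇ η x⟫‖ ≤ ‖A x‖ * ‖∇ η x‖ := norm_inner_le_norm _ _
    _ ≤ ‖A x‖ * C := mul_le_mul_of_nonneg_left (gradient_bound hC x) (norm_nonneg _)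
    _ = C * ‖A x‖ := mul_comm _ _

/-- a function which is locally Lipschitz off the axis times a test function is a test function -/
theorem Tst.mul_lip {η f : X → ℝ} (h : Tst η) (hf : ∀ x, x ∉ ax → LipAt f x) :
    Tst fun x => f x * η x := by
  obtain ⟨C, hC⟩ := h.lip
  have hsub : tsupport (fun x => f x * η x) ⊆ tsupport η := tsupport_mul_subset_right
  obtain ⟨r, hr0, hr⟩ := exists_radius h.cs
  have h1 := lipschitz_of_compact (u := fun x => f x * η x) (R := r) (fun x => ?_) hr0
    fun x hx => ?_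
  · exact ⟨h1.1, h1.2, h.off.mono_left hsub⟩
  · by_cases hx : x ∈ tsupport η
    · exact (hf x (h.notMem hx)).mul (lipAt_of_lip hC x)
    · have h2 : (fun y => f y * η y) =ᶠ[𝓝 x] fun _ => 0 := by
        filter_upwards [(isClosed_tsupport η).isOpen_compl.mem_nhds hx] with y hy
        rw [image_eq_zero_of_notMem_tsupport hy, mul_zero]
      exact (LipAt.const 0 x).congr h2.symm
  · have : x ∉ tsupport η := fun h' => by
      have := hr h'
      rw [mem_ball_zero_iff] at this
      linarith
    rw [image_eq_zero_of_notMem_tsupport this, mul_zero]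

/-! ### algebra of weak divergences -/

theorem WD.of_tst {A : X → X} {d : X → ℝ} (hA : ContinuousOn A axᶜ) (hd : ContinuousOn d axᶜ)
    (h : ∀ η, Tst η → ∫ x, ⟪A x, ∇ η x⟫ = -∫ x, d x * η x) : WD A d :=
  ⟨hA, hd, fun η C h1 h2 h3 => h η ⟨⟨C, h1⟩, h2, h3⟩⟩

theorem WD.congr {A B : X → X} {d e : X → ℝ} (h : WD A d) (h1 : ∀ x, x ∉ ax → A x = B x)
    (h2 : ∀ x, x ∉ ax → d x = e x) : WD B e := by
  refine WD.of_tst (h.contA.congr fun x hx => (h1 x hx).symm)
    (h.contd.congr fun x hx => (h2 x hx).symm) fun η hη => ?_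
  have e1 : ∀ x, ⟪B x, ∇ η x⟫ = ⟪A x, ∇ η x⟫ := fun x => by
    by_cases hx : x ∈ tsupport η
    · rw [h1 x (hη.notMem hx)]
    · rw [gradient_zero_of_notMem hx, inner_zero_right, inner_zero_right]
  have e2 : ∀ x, e x * η x = d x * η x := fun x => by
    by_cases hx : x ∈ tsupport η
    · rw [h2 x (hη.notMem hx)]
    · rw [image_eq_zero_of_notMem_tsupport hx, mul_zero, mul_zero]
  simp_rw [e1, e2]
  exact h.tst hη

theorem WD.congr_div {A : X → X} {d e : X → ℝ} (h : WD A d)
    (h2 : ∀ x, x ∉ ax → d x = e x) : WD A e := h.congr (fun _ _ => rfl) h2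

theorem WD.zero : WD (fun _ => (0 : X)) fun _ => 0 :=
  WD.of_tst continuousOn_const continuousOn_const fun η _ => by simp

theorem WD.add {A B : X → X} {d e : X → ℝ} (hA : WD A d) (hB : WD B e) :
    WD (fun x => A x + B x) fun x => d x + e x := by
  refine WD.of_tst (hA.contA.add hB.contA) (hA.contd.add hB.contd) fun η hη => ?_
  simp_rw [inner_add_left, add_mul]
  rw [integral_add (hη.int_inner hA.contA) (hη.int_inner hB.contA),
    integral_add (hη.int_mul hA.contd) (hη.int_mul hB.contd), hA.tst hη, hB.tst hη]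
  ring

theorem WD.neg {A : X → X} {d : X → ℝ} (hA : WD A d) : WD (fun x => -A x) fun x => -d x := by
  refine WD.of_tst hA.contA.neg hA.contd.neg fun η hη => ?_
  simp_rw [inner_neg_left, neg_mul]
  rw [integral_neg, integral_neg, hA.tst hη]

theorem WD.sub {A B : X → X} {d e : X → ℝ} (hA : WD A d) (hB : WD B e) :
    WD (fun x => A x - B x) fun x => d x - e x := by
  refine (hA.add hB.neg).congr (fun x _ => ?_) fun x _ => ?_
  · rw [sub_eq_add_neg]
  · ring

/-- product rule -/
theorem WD.mul {A : X → X} {d f : X → ℝ} {f' : X → X} (hA : WD A d) (hf : C1O f f') :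
    WD (fun x => f x • A x) fun x => ⟪f' x, A x⟫ + f x * d x := by
  refine WD.of_tst (hf.cont0.smul hA.contA)
    ((hf.cont.inner hA.contA).add (hf.cont0.mul hA.contd)) fun η hη => ?_
  obtain ⟨C, hC⟩ := hη.lip
  have h1 := hA.tst (hη.mul_lip fun x hx => hf.lip hx)
  have hg : ∀ᵐ x : X, ⟪A x, ∇ (fun x => f x * η x) x⟫ =
      ⟪f x • A x, ∇ η x⟫ + ⟪f' x, A x⟫ * η x := by
    filter_upwards [hC.ae_differentiableAt (μ := (volume : Measure X))] with x hx
    by_cases hxs : x ∈ tsupport η
    · have h2 := hf.grad x (hη.notMem hxs)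
      have h3 := hx.hasGradientAt
      have h4 : HasGradientAt (fun x => f x * η x) (f x • ∇ η x + η x • f' x) x := by
        rw [hasGradientAt_iff_hasFDerivAt] at h2 h3 ⊢
        refine (h2.mul h3).congr_fderiv ?_
        rw [map_add, map_smul, map_smul]
      rw [h4.gradient, inner_add_right, real_inner_smul_right, real_inner_smul_right,
        real_inner_smul_left, real_inner_comm (f' x)]
      ring
    · have h2 : (fun y => f y * η y) =ᶠ[𝓝 x] fun _ => 0 := by
        filter_upwards [(isClosed_tsupport η).isOpen_compl.mem_nhds hxs] with y hy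
        rw [image_eq_zero_of_notMem_tsupport hy, mul_zero]
      rw [h2.gradient_eq, gradient_zero_of_notMem hxs, image_eq_zero_of_notMem_tsupport hxs]
      simp [gradient]
  rw [integral_congr_ae hg, integral_add (hη.int_inner (A := fun x => f x • A x) (hf.cont0.smul hA.contA))
    (hη.int_mul (hf.cont.inner hA.contA))] at h1
  have e1 : ∫ x, (⟪f' x, A x⟫ + f x * d x) * η x =
      (∫ x, ⟪f' x, A x⟫ * η x) + ∫ x, d x * (f x * η x) := by
    have h5 : Integrable fun x => d x * (f x * η x) :=
      (hη.int_mul (hA.contd.mul hf.cont0)).congr (Eventually.of_forall fun x => by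
        simp only [Pi.mul_apply]; ring)
    rw [← integral_add (hη.int_mul (hf.cont.inner hA.contA)) h5]
    refine integral_congr_ae (Eventually.of_forall fun x => ?_)
    simp only
    ring
  rw [e1]
  linarith

theorem WD.const_smul {A : X → X} {d : X → ℝ} (hA : WD A d) (a : ℝ) :
    WD (fun x => a • A x) fun x => a * d x := by
  refine (hA.mul (C1O.const a)).congr_div fun x _ => ?_
  simp

/-- constant fields -/
theorem WD.const (e : X) : WD (fun _ => e) fun _ => 0 := by
  refine WD.of_tst continuousOn_const continuousOn_const fun η hη => ?_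
  obtain ⟨C, hC⟩ := hη.lip
  have h1 := (LipschitzWith.const (1 : ℝ) (α := X)).integral_lineDeriv_mul_eq
    (μ := (volume : Measure X)) hC hη.cs (-e)
  have e1 : ∀ x : X, lineDeriv ℝ (fun _ : X => (1 : ℝ)) x (-e) = 0 := fun x => by
    simp [lineDeriv]
  simp only [e1, zero_mul, integral_zero, neg_neg, mul_one] at h1
  simp only [zero_mul, integral_zero, neg_zero]
  rw [h1]
  refine integral_congr_ae ?_
  filter_upwards [lineDeriv_ae hC] with x hx
  rw [hx e, real_inner_comm]

/-- a field with values in the span of constant directions -/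
theorem WD.of_sum {κ : Type*} [Fintype κ] {A : X → X} {b : κ → X} {a : κ → X → ℝ}
    {a' : κ → X → X} (h : ∀ j, C1O (a j) (a' j)) (hA : ∀ x, x ∉ ax → A x = ∑ j, a j x • b j) :
    WD A fun x => ∑ j, ⟪a' j x, b j⟫ := by
  classical
  have key : ∀ s : Finset κ, WD (fun x => ∑ j ∈ s, a j x • b j) fun x => ∑ j ∈ s, ⟪a' j x, b j⟫ := by
    intro s
    induction s using Finset.induction_on with
    | empty => simpa using WD.zero
    | insert j s hj ih =>
      have h1 := ((WD.const (b j)).mul (h j)).add ih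
      refine h1.congr (fun x _ => ?_) fun x _ => ?_
      · rw [Finset.sum_insert hj]
      · rw [Finset.sum_insert hj]; ring
  exact (key Finset.univ).congr (fun x hx => (hA x hx).symm) fun x _ => rfl

theorem sum_basis (v : X) :
    v = ∑ j, ⟪v, stdOrthonormalBasis ℝ X j⟫ • stdOrthonormalBasis ℝ X j := by
  have h := (stdOrthonormalBasis ℝ X).sum_repr' v
  conv_lhs => rw [← h]
  refine Finset.sum_congr rfl fun j _ => ?_
  rw [real_inner_comm]

/-- components of a continuously differentiable field -/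
theorem C1O.inner_const {A : X → X} {T : X → X →L[ℝ] X}
    (hA : ∀ x, x ∉ ax → HasFDerivAt A (T x) x) (hT : ContinuousOn T axᶜ) (e : X) :
    C1O (fun x => ⟪A x, e⟫) fun x => (T x).adjoint e := by
  refine ⟨fun x hx => ?_, ?_⟩
  · have h1 := (innerSL ℝ e).hasFDerivAt.comp x (hA x hx)
    rw [hasGradientAt_iff_hasFDerivAt]
    refine (h1.congr_of_eventuallyEq (Eventually.of_forall fun y => ?_)).congr_fderiv ?_
    · simp only [Function.comp, innerSL_apply_apply]
      exact real_inner_comm _ _
    · ext v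
      simp only [ContinuousLinearMap.comp_apply, innerSL_apply_apply,
        InnerProductSpace.toDual_apply_apply]
      rw [ContinuousLinearMap.adjoint_inner_left]
  · have h2 : Continuous fun S : X →L[ℝ] X => ContinuousLinearMap.adjoint S e := by
      exact (ContinuousLinearMap.apply ℝ X e).continuous.comp
        (ContinuousLinearMap.adjoint (𝕜 := ℝ) (E := X) (F := X)).continuous
    exact h2.comp_continuousOn hT

/-- the weak divergence of a continuously differentiable field is the trace of the derivative -/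
theorem WD.of_c1 {A : X → X} {T : X → X →L[ℝ] X}
    (hA : ∀ x, x ∉ ax → HasFDerivAt A (T x) x) (hT : ContinuousOn T axᶜ) :
    WD A fun x => tr (T x) := by
  have h := WD.of_sum (A := A) (b := fun j => stdOrthonormalBasis ℝ X j)
    (a := fun j x => ⟪A x, stdOrthonormalBasis ℝ X j⟫)
    (fun j => C1O.inner_const hA hT (stdOrthonormalBasis ℝ X j)) fun x _ => sum_basis (A x)
  refine h.congr_div fun x _ => ?_
  unfold tr
  refine Finset.sum_congr rfl fun j _ => ?_
  rw [ContinuousLinearMap.adjoint_inner_left]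
  exact real_inner_comm _ _

end Pool.Agent.TF.Col
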