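import Pool.Agent.Lib.MP_9cf0c9_mp.FarB74
import Pool.Agent.Lib.MP_9cf0c9_mp.Col83

/-! Collinear nuclei: the trial and the currents far from the nuclei; their fluxes at infinity
vanish (module G2). -/

set_option autoImplicit false
set_option linter.unusedSectionVars false
set_option linter.unusedVariables false
set_option linter.style.haveILetI false

namespace Pool.Agent.TF.Col
open MeasureTheory Set Metric Filter Topology
open scoped ENNReal NNReal RealInnerProductSpace Gradient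
open Pool.Agent.TF.Grd

/-! ### general facts -/

/-- a field of size `r⁻³` has no flux at infinity -/
theorem flux_inf {J : X → X} {C N₀ : ℝ} (hC : 0 ≤ C)
    (hJ : ∀ x, x ∉ Col.ax → N₀ ≤ ‖x‖ → ‖J x‖ ≤ C * (‖x‖ ^ 3)⁻¹) :
    Tendsto (fun N : ℝ => ∫ x, ⟪J x, Flux.gcut N x⟫) atTop (𝓝 0) := by
  set m : ℝ := (volume (ball (0 : X) 1)).toReal with hm
  have hm0 : 0 ≤ m := ENNReal.toReal_nonneg
  have key : ∀ᶠ N : ℝ in atTop, ‖∫ x, ⟪J x, Flux.gcut N x⟫‖ ≤ 8 * C * m * N⁻¹ := by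
    filter_upwards [eventually_ge_atTop N₀, eventually_gt_atTop 0] with N h1 h0
    have hvol : volume.real (closedBall (0 : X) (2 * N)) = (2 * N) ^ 3 * m := by
      have hf : Module.finrank ℝ X = 3 := Fact.out
      rw [Measure.real, Measure.addHaar_closedBall _ _ (by positivity), hf, ENNReal.toReal_mul,
        ENNReal.toReal_ofReal (by positivity)]
    have h2 : ‖∫ x, ⟪J x, Flux.gcut N x⟫‖ ≤
        ∫ x, (closedBall (0 : X) (2 * N)).indicator (fun _ => C * (N ^ 3)⁻¹ * N⁻¹) x := by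
      refine norm_integral_le_of_norm_le ((integrable_indicator_iff measurableSet_closedBall).2
        (integrableOn_const measure_closedBall_lt_top.ne)) ?_
      filter_upwards [ae_off_ax] with x hx
      by_cases hxN : ‖x‖ ∈ Ioo N (2 * N)
      · have hxb : x ∈ closedBall (0 : X) (2 * N) := by
          rw [mem_closedBall_zero_iff]; exact hxN.2.le
        rw [indicator_of_mem hxb]
        refine (norm_inner_le_norm _ _).trans (mul_le_mul ?_ (Flux.norm_gcut_le h0 x)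
          (norm_nonneg _) (by positivity))
        refine (hJ x hx (h1.trans hxN.1.le)).trans (mul_le_mul_of_nonneg_left ?_ hC)
        exact inv_anti₀ (by positivity) (pow_le_pow_left₀ h0.le hxN.1.le 3)
      · have e : Flux.gcut N x = 0 := by
          unfold Flux.gcut
          rw [indicator_of_notMem hxN, zero_smul]
        rw [e, inner_zero_right, norm_zero]
        exact indicator_nonneg (fun _ _ => by positivity) x
    rw [integral_indicator measurableSet_closedBall, setIntegral_const, smul_eq_mul, hvol] at h2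
    refine h2.trans (le_of_eq ?_)
    field_simp
    ring
  refine squeeze_zero_norm' key ?_
  have h3 := (tendsto_inv_atTop_zero (𝕜 := ℝ)).const_mul (8 * C * m)
  rwa [mul_zero] at h3

/-- the form of the condition at infinity in `Vtr_ge_col` -/
theorem flux_inf_le {J : X → X}
    (h : Tendsto (fun N : ℝ => ∫ x, ⟪J x, Flux.gcut N x⟫) atTop (𝓝 0)) :
    ∀ δ : ℝ, 0 < δ → ∀ᶠ N in atTop, ∫ x, ⟪J x, Flux.gcut N x⟫ ≤ δ := fun δ hδ => by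
  filter_upwards [h.eventually (Iio_mem_nhds hδ)] with N hN
  exact le_of_lt hN

/-- fields of size `r⁻²` are square integrable far away -/
theorem sq_int_inf {A : X → X} {C N₀ : ℝ} (hN : 1 ≤ N₀) (hA : AEStronglyMeasurable A volume)
    (h : ∀ x, x ∉ Col.ax → N₀ ≤ ‖x‖ → ‖A x‖ ≤ C * (‖x‖ ^ 2)⁻¹) :
    IntegrableOn (fun x => ‖A x‖ ^ 2) {x : X | N₀ ≤ ‖x‖} := by
  have hS : MeasurableSet {x : X | N₀ ≤ ‖x‖} := (isClosed_le continuous_const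
    continuous_norm).measurableSet
  have h1 : Integrable (fun x : X => C ^ 2 * 16 * (1 + ‖x‖) ^ (-(4 : ℝ))) := by
    refine (integrable_one_add_norm ?_).const_mul _
    have hf : Module.finrank ℝ X = 3 := Fact.out
    rw [hf]; norm_num
  refine h1.integrableOn.mono' (hA.norm.pow 2).restrict ((ae_restrict_iff' hS).2 ?_)
  filter_upwards [ae_off_ax] with x hx hxN
  have hxN' : N₀ ≤ ‖x‖ := hxN
  have hx1 : 1 ≤ ‖x‖ := hN.trans hxN'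
  have hx0 : 0 < ‖x‖ := by linarith
  have h2 := h x hx hxN'
  rw [Real.norm_of_nonneg (by positivity)]
  have h3 : ‖A x‖ ^ 2 ≤ (C * (‖x‖ ^ 2)⁻¹) ^ 2 := pow_le_pow_left₀ (norm_nonneg _) h2 2
  refine h3.trans ?_
  have e1 : (1 + ‖x‖) ^ (-(4 : ℝ)) = ((1 + ‖x‖) ^ 4)⁻¹ := by
    rw [Real.rpow_neg (by positivity), ← Real.rpow_natCast]
    norm_num
  rw [e1, mul_pow, mul_assoc]
  refine mul_le_mul_of_nonneg_left ?_ (sq_nonneg C)
  have e2 : ((‖x‖ ^ 2)⁻¹) ^ 2 = 16 * ((2 * ‖x‖) ^ 4)⁻¹ := by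
    field_simp
    norm_num
  rw [e2]
  refine mul_le_mul_of_nonneg_left ?_ (by norm_num)
  exact inv_anti₀ (by positivity) (pow_le_pow_left₀ (by positivity) (by linarith) 4)

/-! ### the geometry far away -/

variable {ι : Type*} [Fintype ι]
variable {φ₀ : ℝ} {z : ι → ℝ} {R : ι → X} {ρ : X → ℝ} {H : X → X →L[ℝ] X} {lo hi : ℝ}
variable {C N : ℝ}

theorem ht_le_norm (x : X) : ht x ≤ ‖x‖ := by
  have h1 : ‖x‖ ^ 2 = x.fst ^ 2 + ht x ^ 2 := by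
    unfold ht
    rw [← mk_eta x, norm_mk_sq]
    simp
  nlinarith [sq_nonneg x.fst, norm_nonneg x, ht_nonneg x]

theorem abs_fst_le_norm (x : X) : |x.fst| ≤ ‖x‖ := by
  have h1 : ‖x‖ ^ 2 = x.fst ^ 2 + ht x ^ 2 := by
    unfold ht
    rw [← mk_eta x, norm_mk_sq]
    simp
  exact abs_le_of_sq_le_sq (by nlinarith [sq_nonneg (ht x)]) (norm_nonneg x)

/-- a bound for the foot -/
theorem Dat.abs_c (D : Dat φ₀ z R ρ H lo hi) {x : X} (hx : x ∉ Col.ax) :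
    |cf z R ρ x| ≤ |lo| + |hi| := by
  have h1 := D.ax.lo_le x hx
  have h2 := D.ax.le_hi x hx
  rw [abs_le]
  constructor
  · linarith [neg_abs_le lo, abs_nonneg hi]
  · linarith [le_abs_self hi, abs_nonneg lo]

theorem Dat.abs_zt (D : Dat φ₀ z R ρ H lo hi) {x : X} (hx : x ∉ Col.ax) (h1 : 1 ≤ ‖x‖) :
    |zt z R ρ x| ≤ (1 + |lo| + |hi|) * ‖x‖ := by
  have h2 := D.abs_c hx
  have h3 := abs_fst_le_norm x
  have h4 := abs_sub x.fst (cf z R ρ x)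
  have h5 : 0 ≤ |lo| + |hi| := by positivity
  unfold zt
  nlinarith

theorem Dat.norm_V (D : Dat φ₀ z R ρ H lo hi) {x : X} (hx : x ∉ Col.ax) (h1 : 1 ≤ ‖x‖) :
    ‖Vf z R ρ x‖ ≤ (1 + |lo| + |hi|) * ‖x‖ := by
  have h2 := D.abs_c hx
  have h4 : ‖Vf z R ρ x‖ ≤ ‖x‖ + |cf z R ρ x| := by
    unfold Vf
    refine (norm_sub_le _ _).trans (le_of_eq ?_)
    rw [norm_smul, norm_e1, mul_one, Real.norm_eq_abs]
  have h5 : 0 ≤ |lo| + |hi| := by positivity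
  nlinarith

theorem r2_eq_norm {x : X} (hx : x ∉ Col.ax) : r2 z R ρ x = ‖Vf z R ρ x‖ ^ 2 := by
  rw [← real_inner_self_eq_norm_sq, Vf_eq z R ρ hx]
  unfold r2
  simp only [inner_add_left, inner_add_right, real_inner_smul_left, real_inner_smul_right,
    inner_e1_self, inner_es_self hx, inner_es_e1, inner_e1_es]
  ring

theorem Dat.r2_le (D : Dat φ₀ z R ρ H lo hi) {x : X} (hx : x ∉ Col.ax) (h1 : 1 ≤ ‖x‖) :
    r2 z R ρ x ≤ (1 + |lo| + |hi|) ^ 2 * ‖x‖ ^ 2 := by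
  rw [r2_eq_norm hx, ← mul_pow]
  exact pow_le_pow_left₀ (norm_nonneg _) (D.norm_V hx h1) 2

/-- `|a r² + b τ|` for bounded `τ` -/
theorem Dat.abs_r2_add (D : Dat φ₀ z R ρ H lo hi) {x : X} (hx : x ∉ Col.ax) (h1 : 1 ≤ ‖x‖)
    {a b t T : ℝ} (ha : |a| ≤ 4) (hb : |b| ≤ 4) (ht : |t| ≤ T) :
    |a * r2 z R ρ x + b * t| ≤ 4 * ((1 + |lo| + |hi|) ^ 2 + T) * ‖x‖ ^ 2 := by
  have h2 := D.r2_le hx h1
  have h3 := (r2_pos z R ρ hx).le
  have hT : 0 ≤ T := (abs_nonneg t).trans ht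
  have h4 : 1 ≤ ‖x‖ ^ 2 := one_le_pow₀ h1
  calc |a * r2 z R ρ x + b * t| ≤ |a| * r2 z R ρ x + |b| * |t| := by
        refine (abs_add_le _ _).trans (le_of_eq ?_)
        rw [abs_mul, abs_mul, abs_of_nonneg h3]
    _ ≤ 4 * ((1 + |lo| + |hi|) ^ 2 * ‖x‖ ^ 2) + 4 * (T * ‖x‖ ^ 2) := by
        refine add_le_add (mul_le_mul ha h2 h3 (by norm_num)) ?_
        exact mul_le_mul hb (ht.trans (le_mul_of_one_le_right hT h4)) (abs_nonneg _) (by norm_num)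
    _ = _ := by ring

/-! ### the current of the identity -/

theorem FarB.Jt_le (F : FarB φ₀ z R ρ H C N) (D : Dat φ₀ z R ρ H lo hi) {τ : X → ℝ} {T : ℝ}
    (hτ : ∀ x, x ∉ Col.ax → N ≤ ‖x‖ → |τ x| ≤ T) :
    ∃ C' : ℝ, 0 ≤ C' ∧ ∀ x, x ∉ Col.ax → N ≤ ‖x‖ → ‖Jt z R ρ H τ x‖ ≤ C' * (‖x‖ ^ 3)⁻¹ := by
  set A : ℝ := 1 + |lo| + |hi| with hA
  set B : ℝ := 4 * (A ^ 2 + |T|) with hB
  have hA0 : 0 ≤ A := by positivity
  have hB0 : 0 ≤ B := by positivity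
  have hC0 := F.C0
  refine ⟨C ^ 2 * B ^ 2 + 2 * (A * B * C ^ 2), by positivity, fun x hx hxN => ?_⟩
  have h1 : 1 ≤ ‖x‖ := F.N0.trans hxN
  have h0 : 0 < ‖x‖ := by linarith
  have hp0 := (D.ax.pos x hx).le
  have hp := F.p x hx hxN
  have hp' := F.p' x hx hxN
  have hc' := F.pc' x hx hxN
  have ht : |τ x| ≤ |T| := (hτ x hx hxN).trans (le_abs_self T)
  have hV := D.norm_V hx h1
  have hz := D.abs_zt hx h1
  have b1 := D.abs_r2_add hx h1 (a := 1) (b := 1) (by norm_num) (by norm_num) ht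
  have b2 := D.abs_r2_add hx h1 (a := 3) (b := 4) (by norm_num) (by norm_num) ht
  have b3 := D.abs_r2_add hx h1 (a := 1) (b := 4) (by norm_num) (by norm_num) ht
  rw [← hA, ← hB] at b1 b2 b3
  rw [one_mul, one_mul] at b1
  rw [one_mul] at b3
  unfold Jt
  refine (norm_add_le _ _).trans ?_
  refine (add_le_add_left (norm_add_le _ _) _).trans ?_
  have t1 : ‖(-(pf z R ρ x * (r2 z R ρ x + τ x) ^ 2)) • pf' z R ρ H x‖ ≤
      C ^ 2 * B ^ 2 * (‖x‖ ^ 3)⁻¹ := by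
    rw [norm_smul, norm_neg, norm_mul, norm_pow, Real.norm_of_nonneg hp0, Real.norm_eq_abs]
    calc pf z R ρ x * |r2 z R ρ x + τ x| ^ 2 * ‖pf' z R ρ H x‖
        ≤ (C * (‖x‖ ^ 3)⁻¹) * (B * ‖x‖ ^ 2) ^ 2 * (C * (‖x‖ ^ 4)⁻¹) := by gcongr
      _ = _ := by field_simp
  have t2 : ‖(-(pf z R ρ x ^ 2 * (3 * r2 z R ρ x + 4 * τ x))) • Vf z R ρ x‖ ≤
      A * B * C ^ 2 * (‖x‖ ^ 3)⁻¹ := by
    rw [norm_smul, norm_neg, norm_mul, norm_pow, Real.norm_of_nonneg hp0, Real.norm_eq_abs]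
    calc pf z R ρ x ^ 2 * |3 * r2 z R ρ x + 4 * τ x| * ‖Vf z R ρ x‖
        ≤ (C * (‖x‖ ^ 3)⁻¹) ^ 2 * (B * ‖x‖ ^ 2) * (A * ‖x‖) := by gcongr
      _ = _ := by field_simp
  have t3 : ‖(pf z R ρ x ^ 2 * zt z R ρ x * (r2 z R ρ x + 4 * τ x)) • cf' z R ρ H x‖ ≤
      A * B * C ^ 2 * (‖x‖ ^ 3)⁻¹ := by
    rw [norm_smul, norm_mul, norm_mul, norm_pow, Real.norm_of_nonneg hp0, Real.norm_eq_abs,
      Real.norm_eq_abs]
    calc pf z R ρ x ^ 2 * |zt z R ρ x| * |r2 z R ρ x + 4 * τ x| * ‖cf' z R ρ H x‖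
        = pf z R ρ x * |zt z R ρ x| * |r2 z R ρ x + 4 * τ x| *
          (pf z R ρ x * ‖cf' z R ρ H x‖) := by ring
      _ ≤ (C * (‖x‖ ^ 3)⁻¹) * (A * ‖x‖) * (B * ‖x‖ ^ 2) * (C * (‖x‖ ^ 3)⁻¹) := by gcongr
      _ = _ := by field_simp
  linarith

theorem FarB.flux_Jt (F : FarB φ₀ z R ρ H C N) (D : Dat φ₀ z R ρ H lo hi) {τ : X → ℝ} {T : ℝ}
    (hτ : ∀ x, x ∉ Col.ax → N ≤ ‖x‖ → |τ x| ≤ T) :
    Tendsto (fun M : ℝ => ∫ x, ⟪Jt z R ρ H τ x, Flux.gcut M x⟫) atTop (𝓝 0) := by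
  obtain ⟨C', h1, h2⟩ := F.Jt_le D hτ
  exact flux_inf h1 h2

/-! ### the trial -/

theorem FarB.Yt'_le (F : FarB φ₀ z R ρ H C N) (D : Dat φ₀ z R ρ H lo hi) {τ : X → ℝ}
    {τ' : X → X} {T : ℝ} (hτ : ∀ x, x ∉ Col.ax → N ≤ ‖x‖ → |τ x| ≤ T)
    (hτ' : ∀ x, x ∉ Col.ax → N ≤ ‖x‖ → pf z R ρ x * ‖τ' x‖ ≤ T * (‖x‖ ^ 2)⁻¹) :
    ∃ C' : ℝ, 0 ≤ C' ∧ ∀ x, x ∉ Col.ax → N ≤ ‖x‖ →
      ‖Yt' z R ρ H τ τ' x‖ ≤ C' * (‖x‖ ^ 2)⁻¹ := by
  set A : ℝ := 1 + |lo| + |hi| with hA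
  set B : ℝ := 4 * (A ^ 2 + |T|) with hB
  have hA0 : 0 ≤ A := by positivity
  have hB0 : 0 ≤ B := by positivity
  have hC0 := F.C0
  refine ⟨4 * A * C + |T| + B * C, by positivity, fun x hx hxN => ?_⟩
  have h1 : 1 ≤ ‖x‖ := F.N0.trans hxN
  have h0 : 0 < ‖x‖ := by linarith
  have hp0 := (D.ax.pos x hx).le
  have hp := F.p x hx hxN
  have hp' := F.p' x hx hxN
  have hc' := F.pc' x hx hxN
  have ht : |τ x| ≤ |T| := (hτ x hx hxN).trans (le_abs_self T)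
  have hV := D.norm_V hx h1
  have hz := D.abs_zt hx h1
  have b1 := D.abs_r2_add hx h1 (a := 1) (b := 1) (by norm_num) (by norm_num) ht
  rw [← hA, ← hB] at b1
  rw [one_mul, one_mul] at b1
  have ht' : pf z R ρ x * ‖τ' x‖ ≤ |T| * (‖x‖ ^ 2)⁻¹ :=
    (hτ' x hx hxN).trans (mul_le_mul_of_nonneg_right (le_abs_self T) (by positivity))
  unfold Yt'
  have e : pf z R ρ x • ((2 : ℝ) • Vf z R ρ x - (2 * zt z R ρ x) • cf' z R ρ H x + τ' x) +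
      (r2 z R ρ x + τ x) • pf' z R ρ H x = (2 * pf z R ρ x) • Vf z R ρ x +
      (-(2 * zt z R ρ x * pf z R ρ x)) • cf' z R ρ H x + pf z R ρ x • τ' x +
      (r2 z R ρ x + τ x) • pf' z R ρ H x := by module
  rw [e]
  have t1 : ‖(2 * pf z R ρ x) • Vf z R ρ x‖ ≤ 2 * A * C * (‖x‖ ^ 2)⁻¹ := by
    rw [norm_smul, Real.norm_of_nonneg (by positivity)]
    calc 2 * pf z R ρ x * ‖Vf z R ρ x‖ ≤ 2 * (C * (‖x‖ ^ 3)⁻¹) * (A * ‖x‖) := by gcongr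
      _ = _ := by field_simp
  have t2 : ‖(-(2 * zt z R ρ x * pf z R ρ x)) • cf' z R ρ H x‖ ≤ 2 * A * C * (‖x‖ ^ 2)⁻¹ := by
    rw [norm_smul, norm_neg, norm_mul, norm_mul, Real.norm_of_nonneg hp0, Real.norm_eq_abs,
      Real.norm_eq_abs, abs_of_pos (by norm_num : (0 : ℝ) < 2)]
    calc 2 * |zt z R ρ x| * pf z R ρ x * ‖cf' z R ρ H x‖
        = 2 * |zt z R ρ x| * (pf z R ρ x * ‖cf' z R ρ H x‖) := by ring
      _ ≤ 2 * (A * ‖x‖) * (C * (‖x‖ ^ 3)⁻¹) := by gcongr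
      _ = _ := by field_simp
  have t3 : ‖pf z R ρ x • τ' x‖ ≤ |T| * (‖x‖ ^ 2)⁻¹ := by
    rw [norm_smul, Real.norm_of_nonneg hp0]
    exact ht'
  have t4 : ‖(r2 z R ρ x + τ x) • pf' z R ρ H x‖ ≤ B * C * (‖x‖ ^ 2)⁻¹ := by
    rw [norm_smul, Real.norm_eq_abs]
    calc |r2 z R ρ x + τ x| * ‖pf' z R ρ H x‖ ≤ (B * ‖x‖ ^ 2) * (C * (‖x‖ ^ 4)⁻¹) := by gcongr
      _ = _ := by field_simp
  have n1 := norm_add_le ((2 * pf z R ρ x) • Vf z R ρ x +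
      (-(2 * zt z R ρ x * pf z R ρ x)) • cf' z R ρ H x + pf z R ρ x • τ' x)
      ((r2 z R ρ x + τ x) • pf' z R ρ H x)
  have n2 := norm_add_le ((2 * pf z R ρ x) • Vf z R ρ x +
      (-(2 * zt z R ρ x * pf z R ρ x)) • cf' z R ρ H x) (pf z R ρ x • τ' x)
  have n3 := norm_add_le ((2 * pf z R ρ x) • Vf z R ρ x)
      ((-(2 * zt z R ρ x * pf z R ρ x)) • cf' z R ρ H x)
  linarith

/-! ### two nuclei -/

theorem Dat.abs_tq (D : Dat φ₀ z R ρ H lo hi) (a b : ℝ) {x : X} (hx : x ∉ Col.ax) :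
    |tq z R ρ a b x| ≤ (|lo| + |hi| + |a|) * (|lo| + |hi| + |b|) := by
  have h2 := D.abs_c hx
  unfold tq
  rw [abs_mul]
  refine mul_le_mul ?_ ?_ (abs_nonneg _) (by positivity)
  · exact (abs_sub _ _).trans (by linarith)
  · exact (abs_sub _ _).trans (by linarith)

theorem Dat.abs_m (D : Dat φ₀ z R ρ H lo hi) (a b : ℝ) {x : X} (hx : x ∉ Col.ax) :
    |a + b - 2 * cf z R ρ x| ≤ |a| + |b| + 2 * (|lo| + |hi|) := by
  have h2 := D.abs_c hx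
  refine (abs_sub _ _).trans (add_le_add (abs_add_le _ _) ?_)
  rw [abs_mul, abs_of_pos (by norm_num : (0 : ℝ) < 2)]
  linarith

theorem FarB.YY'_le (F : FarB φ₀ z R ρ H C N) (D : Dat φ₀ z R ρ H lo hi) (a b : ℝ) :
    ∃ C' : ℝ, 0 ≤ C' ∧ ∀ x, x ∉ Col.ax → N ≤ ‖x‖ →
      ‖YY' z R ρ H a b x‖ ≤ C' * (‖x‖ ^ 2)⁻¹ := by
  have hC0 := F.C0
  set T₁ : ℝ := (|lo| + |hi| + |a|) * (|lo| + |hi| + |b|) with hT₁
  set T₂ : ℝ := (|a| + |b| + 2 * (|lo| + |hi|)) * C with hT₂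
  have h1 : 0 ≤ T₁ := by positivity
  have h2 : 0 ≤ T₂ := by positivity
  refine F.Yt'_le D (T := T₁ + T₂) (fun x hx hxN => ?_) fun x hx hxN => ?_
  · have := D.abs_tq a b hx
    linarith
  · have h3 : 1 ≤ ‖x‖ := F.N0.trans hxN
    have h0 : 0 < ‖x‖ := by linarith
    have hc' := F.pc' x hx hxN
    have hm := D.abs_m a b hx
    have hp0 := (D.ax.pos x hx).le
    unfold tq'
    rw [norm_smul, Real.norm_eq_abs]
    have h4 : (‖x‖ ^ 3)⁻¹ ≤ (‖x‖ ^ 2)⁻¹ :=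
      inv_anti₀ (by positivity) (pow_le_pow_right₀ h3 (by norm_num))
    calc pf z R ρ x * (|a + b - 2 * cf z R ρ x| * ‖cf' z R ρ H x‖)
        = |a + b - 2 * cf z R ρ x| * (pf z R ρ x * ‖cf' z R ρ H x‖) := by ring
      _ ≤ (|a| + |b| + 2 * (|lo| + |hi|)) * (C * (‖x‖ ^ 3)⁻¹) := by gcongr
      _ = T₂ * (‖x‖ ^ 3)⁻¹ := by rw [hT₂]; ring
      _ ≤ T₂ * (‖x‖ ^ 2)⁻¹ := mul_le_mul_of_nonneg_left h4 h2
      _ ≤ (T₁ + T₂) * (‖x‖ ^ 2)⁻¹ := mul_le_mul_of_nonneg_right (by linarith) (by positivity)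

theorem norm_st_le (u' : X → X) (x : X) : ‖st u' x‖ ≤ 3 / 2 * (ht x * ‖u' x‖ ^ 2) := by
  unfold st
  refine (norm_sub_le _ _).trans ?_
  rw [norm_smul, norm_smul, norm_perp]
  have h1 : ‖⟪u' x, perp x⟫‖ ≤ ‖u' x‖ * ht x := by
    have := norm_inner_le_norm (𝕜 := ℝ) (u' x) (perp x)
    rwa [norm_perp] at this
  have h2 : ‖1 / 2 * ‖u' x‖ ^ 2‖ = 1 / 2 * ‖u' x‖ ^ 2 := Real.norm_of_nonneg (by positivity)
  rw [h2]
  have h3 := mul_le_mul_of_nonneg_right h1 (norm_nonneg (u' x))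
  nlinarith

theorem FarB.NH_le (F : FarB φ₀ z R ρ H C N) (D : Dat φ₀ z R ρ H lo hi) (a b : ℝ) :
    ∃ C' : ℝ, 0 ≤ C' ∧ ∀ x, x ∉ Col.ax → N ≤ ‖x‖ →
      ‖NH φ₀ z R ρ H a b x‖ ≤ C' * (‖x‖ ^ 3)⁻¹ := by
  have hC0 := F.C0
  obtain ⟨C₁, hC₁, hY⟩ := F.YY'_le D a b
  set M : ℝ := |a| + |b| + 2 * (|lo| + |hi|) with hM
  have hM0 : 0 ≤ M := by positivity
  refine ⟨3 / 2 * C₁ ^ 2 + 3 / 2 * C ^ 2 + M * C ^ 2, by positivity, fun x hx hxN => ?_⟩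
  have h1 : 1 ≤ ‖x‖ := F.N0.trans hxN
  have h0 : 0 < ‖x‖ := by linarith
  have hp0 := (D.ax.pos x hx).le
  have hs0 := ht_nonneg x
  have hs := ht_le_norm x
  have hp := F.p x hx hxN
  have hc' := F.pc' x hx hxN
  have hY' := hY x hx hxN
  have hE := F.E x hxN
  have hm := D.abs_m a b hx
  rw [← hM] at hm
  have hρ0 : ρ x = 0 := F.rho x hxN
  have hg0 : gam (psi φ₀ z R ρ x) = 0 := by
    have h2 := D.heq x
    rw [hρ0] at h2
    refine gam_of_nonpos ?_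
    by_contra h3
    push Not at h3
    have h4 : tf (Vpt z R x - pot ρ x - φ₀) = psi φ₀ z R ρ x * √(psi φ₀ z R ρ x) := by
      have h5 : Vpt z R x - pot ρ x - φ₀ = psi φ₀ z R ρ x := rfl
      rw [h5]
      unfold tf
      rw [max_eq_left h3.le]
    rw [h4] at h2
    have h6 : 0 < psi φ₀ z R ρ x * √(psi φ₀ z R ρ x) := mul_pos h3 (Real.sqrt_pos.2 h3)
    linarith
  have e : NH φ₀ z R ρ H a b x = st (YY' z R ρ H a b) x - st (psi' z R ρ) x +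
      (ht x ^ 2 * (pf z R ρ x * pf z R ρ x) * (a + b - 2 * cf z R ρ x)) • cf' z R ρ H x := by
    unfold NH
    rw [hρ0, hg0]
    module
  rw [e]
  have t1 : ‖st (YY' z R ρ H a b) x‖ ≤ 3 / 2 * C₁ ^ 2 * (‖x‖ ^ 3)⁻¹ := by
    refine (norm_st_le _ x).trans ?_
    calc 3 / 2 * (ht x * ‖YY' z R ρ H a b x‖ ^ 2)
        ≤ 3 / 2 * (‖x‖ * (C₁ * (‖x‖ ^ 2)⁻¹) ^ 2) := by gcongr
      _ = _ := by field_simp
  have t2 : ‖st (psi' z R ρ) x‖ ≤ 3 / 2 * C ^ 2 * (‖x‖ ^ 3)⁻¹ := by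
    refine (norm_st_le _ x).trans ?_
    calc 3 / 2 * (ht x * ‖psi' z R ρ x‖ ^ 2)
        ≤ 3 / 2 * (‖x‖ * (C * (‖x‖ ^ 2)⁻¹) ^ 2) := by gcongr
      _ = _ := by field_simp
  have t3 : ‖(ht x ^ 2 * (pf z R ρ x * pf z R ρ x) * (a + b - 2 * cf z R ρ x)) •
      cf' z R ρ H x‖ ≤ M * C ^ 2 * (‖x‖ ^ 3)⁻¹ := by
    rw [norm_smul, norm_mul, norm_mul, norm_mul, norm_pow, Real.norm_of_nonneg hp0,
      Real.norm_of_nonneg hs0, Real.norm_eq_abs]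
    calc ht x ^ 2 * (pf z R ρ x * pf z R ρ x) * |a + b - 2 * cf z R ρ x| * ‖cf' z R ρ H x‖
        = ht x ^ 2 * pf z R ρ x * |a + b - 2 * cf z R ρ x| *
          (pf z R ρ x * ‖cf' z R ρ H x‖) := by ring
      _ ≤ ‖x‖ ^ 2 * (C * (‖x‖ ^ 3)⁻¹) * M * (C * (‖x‖ ^ 3)⁻¹) := by gcongr
      _ = M * C ^ 2 * (‖x‖ ^ 4)⁻¹ := by field_simp
      _ ≤ M * C ^ 2 * (‖x‖ ^ 3)⁻¹ := by
          refine mul_le_mul_of_nonneg_left ?_ (by positivity)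
          exact inv_anti₀ (by positivity) (pow_le_pow_right₀ h1 (by norm_num))
  have n1 := norm_add_le (st (YY' z R ρ H a b) x - st (psi' z R ρ) x)
      ((ht x ^ 2 * (pf z R ρ x * pf z R ρ x) * (a + b - 2 * cf z R ρ x)) • cf' z R ρ H x)
  have n2 := norm_sub_le (st (YY' z R ρ H a b) x) (st (psi' z R ρ) x)
  linarith

theorem FarB.flux_NH (F : FarB φ₀ z R ρ H C N) (D : Dat φ₀ z R ρ H lo hi) (a b : ℝ) :
    Tendsto (fun M : ℝ => ∫ x, ⟪NH φ₀ z R ρ H a b x, Flux.gcut M x⟫) atTop (𝓝 0) := by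
  obtain ⟨C', h1, h2⟩ := F.NH_le D a b
  exact flux_inf h1 h2

end Pool.Agent.TF.Col
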