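import Pool.Agent.Lib.MP_9cf0c9_mp.DisFar
import Pool.Agent.Lib.MP_9cf0c9_mp.Col58Def

/-! Lipschitz bounds of the second derivative of far potentials. -/

set_option linter.unusedSectionVars false
set_option linter.unusedVariables false
set_option linter.style.haveILetI false

namespace Pool.Agent.TF
open MeasureTheory Set Metric Filter Topology
open scoped ENNReal NNReal RealInnerProductSpace Gradient

namespace Rot23

variable {V : Type*} [NormedAddCommGroup V] [InnerProductSpace ℝ V] [FiniteDimensional ℝ V]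
  [MeasurableSpace V] [BorelSpace V] [hd : Fact (Module.finrank ℝ V = 3)]

theorem d2_shift (c x x' : V) : d2 c x' = d2 (c + (x - x')) x := by
  have e : x - (c + (x - x')) = x' - c := by abel
  unfold d2
  rw [e]

/-- Lipschitz bound of the second derivative of `|x - c|⁻¹` -/
theorem d2_lip {c x x' : V} (h0 : 0 < ‖x - c‖) (h : 2 * ‖x - x'‖ ≤ ‖x - c‖) :
    ‖d2 c x - d2 c x'‖ ≤ 80 * ‖x - x'‖ * (‖x - c‖ ^ 4)⁻¹ := by
  rw [d2_shift c x x', norm_sub_rev]
  refine Dis.ker2 h0 h ?_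
  have e : c + (x - x') - c = x - x' := by abel
  rw [e]

/-- twice differentiable with Lipschitz second derivative, on a ball -/
structure C11 (c : V) (δ K : ℝ) (v : V → V) (A : V → V →L[ℝ] V) : Prop where
  deriv : ∀ x ∈ ball c δ, HasFDerivAt v (A x) x
  bd0 : ∀ x ∈ ball c δ, ‖v x‖ ≤ K
  bd1 : ∀ x ∈ ball c δ, ‖A x‖ ≤ K
  lip : ∀ x ∈ ball c δ, ∀ y ∈ ball c δ, ‖A x - A y‖ ≤ K * ‖x - y‖

theorem C11.nonneg {c : V} {δ K : ℝ} (hδ : 0 < δ) {v : V → V} {A : V → V →L[ℝ] V}
    (h : C11 c δ K v A) : 0 ≤ K := (norm_nonneg _).trans (h.bd0 c (mem_ball_self hδ))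

theorem C11.zero (c : V) (δ : ℝ) : C11 c δ 0 (fun _ => (0 : V)) (fun _ => 0) :=
  ⟨fun x _ => hasFDerivAt_const _ _, fun x _ => by simp, fun x _ => by simp,
    fun x _ y _ => by simp⟩

theorem C11.add {c : V} {δ K L : ℝ} {v w : V → V} {A B : V → V →L[ℝ] V}
    (h : C11 c δ K v A) (k : C11 c δ L w B) :
    C11 c δ (K + L) (fun x => v x + w x) (fun x => A x + B x) := by
  refine ⟨fun x hx => (h.deriv x hx).add (k.deriv x hx), fun x hx => ?_, fun x hx => ?_,
    fun x hx y hy => ?_⟩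
  · exact (norm_add_le _ _).trans (add_le_add (h.bd0 x hx) (k.bd0 x hx))
  · exact (norm_add_le _ _).trans (add_le_add (h.bd1 x hx) (k.bd1 x hx))
  · have e : A x + B x - (A y + B y) = (A x - A y) + (B x - B y) := by abel
    rw [e, add_mul]
    exact (norm_add_le _ _).trans (add_le_add (h.lip x hx y hy) (k.lip x hx y hy))

theorem C11.smul {c : V} {δ K : ℝ} {v : V → V} {A : V → V →L[ℝ] V}
    (h : C11 c δ K v A) (r : ℝ) :
    C11 c δ (|r| * K) (fun x => r • v x) (fun x => r • A x) := by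
  refine ⟨fun x hx => (h.deriv x hx).fun_const_smul r, fun x hx => ?_, fun x hx => ?_,
    fun x hx y hy => ?_⟩
  · rw [norm_smul, Real.norm_eq_abs]
    exact mul_le_mul_of_nonneg_left (h.bd0 x hx) (abs_nonneg _)
  · rw [norm_smul, Real.norm_eq_abs]
    exact mul_le_mul_of_nonneg_left (h.bd1 x hx) (abs_nonneg _)
  · rw [← smul_sub, norm_smul, Real.norm_eq_abs, mul_assoc]
    exact mul_le_mul_of_nonneg_left (h.lip x hx y hy) (abs_nonneg _)

theorem C11.sum {ι : Type*} (s : Finset ι) {c : V} {δ : ℝ} {v : ι → V → V}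
    {A : ι → V → V →L[ℝ] V} (h : ∀ i ∈ s, ∃ K, C11 c δ K (v i) (A i)) :
    ∃ K, C11 c δ K (fun x => ∑ i ∈ s, v i x) (fun x => ∑ i ∈ s, A i x) := by
  classical
  induction s using Finset.induction_on with
  | empty => exact ⟨0, by simpa using C11.zero c δ⟩
  | insert i s hi ih =>
    obtain ⟨K, hK⟩ := ih fun j hj => h j (Finset.mem_insert_of_mem hj)
    obtain ⟨L, hL⟩ := h i (Finset.mem_insert_self i s)
    refine ⟨L + K, ?_⟩
    simp only [Finset.sum_insert hi]
    exact hL.add hK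

theorem C11.mono {c : V} {δ δ' K : ℝ} {v : V → V} {A : V → V →L[ℝ] V}
    (h : C11 c δ K v A) (hd' : δ' ≤ δ) : C11 c δ' K v A :=
  ⟨fun x hx => h.deriv x (ball_subset_ball hd' hx), fun x hx => h.bd0 x (ball_subset_ball hd' hx),
    fun x hx => h.bd1 x (ball_subset_ball hd' hx),
    fun x hx y hy => h.lip x (ball_subset_ball hd' hx) y (ball_subset_ball hd' hy)⟩

/-- distances from a far point -/
theorem far_geo {c p x : V} {δ : ℝ} (hp : 2 * δ ≤ ‖p - c‖) (hx : x ∈ ball c (δ / 4)) :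
    7 / 4 * δ ≤ ‖x - p‖ := by
  rw [mem_ball, dist_eq_norm] at hx
  have e : p - c = (x - c) - (x - p) := by abel
  have h1 : ‖p - c‖ ≤ ‖x - c‖ + ‖x - p‖ := by rw [e]; exact norm_sub_le _ _
  linarith

theorem ball_dist {c x y : V} {δ : ℝ} (hx : x ∈ ball c (δ / 4)) (hy : y ∈ ball c (δ / 4)) :
    ‖x - y‖ ≤ δ / 2 := by
  rw [mem_ball, dist_eq_norm] at hx hy
  have e : x - y = (x - c) - (y - c) := by abel
  have h1 : ‖x - y‖ ≤ ‖x - c‖ + ‖y - c‖ := by rw [e]; exact norm_sub_le _ _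
  linarith

/-- a far nucleus -/
theorem c11_gradP {c p : V} {δ : ℝ} (hδ : 0 < δ) (hp : 2 * δ ≤ ‖p - c‖) :
    ∃ K, C11 c (δ / 4) K (gradP p) (d2 p) := by
  have hfar : ∀ x ∈ ball c (δ / 4), δ ≤ ‖x - p‖ := fun x hx => by
    have := far_geo hp hx
    linarith
  refine ⟨(δ ^ 2)⁻¹ + 4 * (δ ^ 3)⁻¹ + 80 * (δ ^ 4)⁻¹, ?_, ?_, ?_, ?_⟩
  · intro x hx
    have h1 := hfar x hx
    refine hasFDerivAt_gradP fun h => ?_
    rw [h, sub_self, norm_zero] at h1
    linarith
  · intro x hx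
    rw [gradP_norm]
    have h1 := inv_anti₀ (by positivity) (pow_le_pow_left₀ hδ.le (hfar x hx) 2)
    have h2 : 0 ≤ 4 * (δ ^ 3)⁻¹ + 80 * (δ ^ 4)⁻¹ := by positivity
    linarith
  · intro x hx
    refine (d2_norm p x).trans ?_
    have h1 := inv_anti₀ (by positivity) (pow_le_pow_left₀ hδ.le (hfar x hx) 3)
    have h2 : 0 ≤ (δ ^ 2)⁻¹ + 80 * (δ ^ 4)⁻¹ := by positivity
    linarith
  · intro x hx y hy
    have h1 := hfar x hx
    have h0 : 0 < ‖x - p‖ := by linarith
    have h3 := ball_dist hx hy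
    refine (d2_lip h0 (by linarith)).trans ?_
    have h2 := inv_anti₀ (by positivity) (pow_le_pow_left₀ hδ.le h1 4)
    have h4 : 0 ≤ (δ ^ 2)⁻¹ + 4 * (δ ^ 3)⁻¹ := by positivity
    calc 80 * ‖x - y‖ * (‖x - p‖ ^ 4)⁻¹ ≤ 80 * ‖x - y‖ * (δ ^ 4)⁻¹ := by gcongr
      _ = 80 * (δ ^ 4)⁻¹ * ‖x - y‖ := by ring
      _ ≤ _ := by
        refine mul_le_mul_of_nonneg_right ?_ (norm_nonneg _)
        linarith

/-- the far part of a density -/
theorem c11_gradV {f : V → ℝ} (hm : Measurable f) (hf : Integrable f) {c : V} {δ : ℝ} (hδ : 0 < δ)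
    (h0 : ∀ y ∈ ball c (2 * δ), f y = 0) :
    ∃ K, C11 c (δ / 4) K (gradV f) (hF f) := by
  have hfar : ∀ x ∈ ball c (δ / 4), ∀ y, f y ≠ 0 → δ ≤ ‖x - y‖ := by
    intro x hx y hy
    have hy' : y ∉ ball c (2 * δ) := fun h => hy (h0 y h)
    rw [mem_ball, dist_eq_norm, not_lt] at hy'
    have := far_geo hy' hx
    linarith
  have hsub : ball c (δ / 4) ⊆ ball c δ := ball_subset_ball (by linarith)
  have hfh := far_hess hm hf hδ h0
  set m : ℝ := ∫ y, |f y| with hmdef
  have hm0 : 0 ≤ m := integral_nonneg fun y => abs_nonneg _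
  refine ⟨((δ ^ 2)⁻¹ + 4 * (δ ^ 3)⁻¹ + 80 * (δ ^ 4)⁻¹) * m, ?_, ?_, ?_, ?_⟩
  · exact fun x hx => (hfh x (hsub hx)).2.1
  · intro x hx
    have h1 : ∫ y, (‖x - y‖ ^ 2)⁻¹ * |f y| ≤ ∫ y, (δ ^ 2)⁻¹ * |f y| := by
      refine integral_mono_of_nonneg (Eventually.of_forall fun y => by positivity)
        (hf.abs.const_mul _) (Eventually.of_forall fun y => ?_)
      by_cases hy : f y = 0
      · simp [hy]
      · exact mul_le_mul_of_nonneg_right
          (inv_anti₀ (by positivity) (pow_le_pow_left₀ hδ.le (hfar x hx y hy) 2)) (abs_nonneg _)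
    rw [integral_const_mul, ← hmdef] at h1
    refine ((gradV_norm_le x).trans h1).trans (mul_le_mul_of_nonneg_right ?_ hm0)
    have h2 : 0 ≤ 4 * (δ ^ 3)⁻¹ + 80 * (δ ^ 4)⁻¹ := by positivity
    linarith
  · intro x hx
    have h1 : ‖hF f x‖ ≤ ∫ y, (4 * (δ ^ 3)⁻¹) * |f y| := by
      unfold hF
      refine (norm_integral_le_integral_norm _).trans ?_
      refine integral_mono_of_nonneg (Eventually.of_forall fun y => norm_nonneg _)
        (hf.abs.const_mul _) (Eventually.of_forall fun y => ?_)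
      simp only
      rw [norm_smul, Real.norm_eq_abs, mul_comm]
      by_cases hy : f y = 0
      · simp [hy]
      · refine mul_le_mul_of_nonneg_right ((d2_norm y x).trans ?_) (abs_nonneg _)
        have := inv_anti₀ (by positivity) (pow_le_pow_left₀ hδ.le (hfar x hx y hy) 3)
        linarith
    rw [integral_const_mul, ← hmdef] at h1
    refine h1.trans (mul_le_mul_of_nonneg_right ?_ hm0)
    have h2 : 0 ≤ (δ ^ 2)⁻¹ + 80 * (δ ^ 4)⁻¹ := by positivity
    linarith
  · intro x hx x' hx'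
    have h1 : ‖hF f x - hF f x'‖ ≤ ∫ y, (80 * ‖x - x'‖ * (δ ^ 4)⁻¹) * |f y| := by
      unfold hF
      rw [← integral_sub (hfh x (hsub hx)).1 (hfh x' (hsub hx')).1]
      refine (norm_integral_le_integral_norm _).trans ?_
      refine integral_mono_of_nonneg (Eventually.of_forall fun y => norm_nonneg _)
        (hf.abs.const_mul _) (Eventually.of_forall fun y => ?_)
      simp only
      rw [← smul_sub, norm_smul, Real.norm_eq_abs, mul_comm]
      by_cases hy : f y = 0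
      · simp [hy]
      · refine mul_le_mul_of_nonneg_right ?_ (abs_nonneg _)
        have hy' : y ∉ ball c (2 * δ) := fun h => hy (h0 y h)
        rw [mem_ball, dist_eq_norm, not_lt] at hy'
        have h2 := far_geo hy' hx
        have h3 := ball_dist hx hx'
        have h4 : 0 < ‖x - y‖ := by linarith
        refine (d2_lip h4 (by linarith)).trans ?_
        have h5 := inv_anti₀ (by positivity) (pow_le_pow_left₀ hδ.le (hfar x hx y hy) 4)
        gcongr
    rw [integral_const_mul, ← hmdef] at h1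
    refine h1.trans ?_
    have h4 : 0 ≤ (δ ^ 2)⁻¹ + 4 * (δ ^ 3)⁻¹ := by positivity
    calc 80 * ‖x - x'‖ * (δ ^ 4)⁻¹ * m = 80 * (δ ^ 4)⁻¹ * m * ‖x - x'‖ := by ring
      _ ≤ _ := by
        refine mul_le_mul_of_nonneg_right ?_ (norm_nonneg _)
        refine mul_le_mul_of_nonneg_right ?_ hm0
        linarith

end Rot23

end Pool.Agent.TF
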