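import Pool.Agent.Lib.MP_9cf0c9_mp.HolPot61
import Pool.Agent.Lib.MP_9cf0c9_mp.FarLip23
import Pool.Agent.Lib.MP_9cf0c9_mp.C2

/-! Local Hoelder continuity (exponent `1/2`) of the second derivative of a solution of the
Thomas-Fermi equation away from the nuclei. -/

set_option autoImplicit false
set_option linter.unusedSectionVars false
set_option linter.unusedVariables false
set_option linter.style.haveILetI false

namespace Pool.Agent.TF
open MeasureTheory Set Metric Filter Topology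
open scoped ENNReal NNReal RealInnerProductSpace Gradient

variable {V : Type*} [NormedAddCommGroup V] [InnerProductSpace ℝ V] [FiniteDimensional ℝ V]
  [MeasurableSpace V] [BorelSpace V]

/-- Hoelder bound on a set -/
def HolOn {W W' : Type*} [NormedAddCommGroup W] [NormedAddCommGroup W'] (A : W → W') (s : Set W) :
    Prop :=
  ∃ C : ℝ, 0 ≤ C ∧ ∀ x ∈ s, ∀ y ∈ s, ‖A x - A y‖ ≤ C * ‖x - y‖ ^ (1 / 2 : ℝ)

section gen
variable {W W' : Type*} [NormedAddCommGroup W] [NormedAddCommGroup W']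

theorem HolOn.mono {A : W → W'} {s t : Set W} (h : HolOn A t) (hs : s ⊆ t) : HolOn A s := by
  obtain ⟨C, hC, h⟩ := h
  exact ⟨C, hC, fun x hx y hy => h x (hs hx) y (hs hy)⟩

theorem HolOn.congr {A B : W → W'} {s : Set W} (h : HolOn A s) (he : ∀ x ∈ s, B x = A x) :
    HolOn B s := by
  obtain ⟨C, hC, h⟩ := h
  exact ⟨C, hC, fun x hx y hy => by rw [he x hx, he y hy]; exact h x hx y hy⟩

theorem HolOn.add {A B : W → W'} {s : Set W} (h : HolOn A s) (k : HolOn B s) :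
    HolOn (fun x => A x + B x) s := by
  obtain ⟨C, hC, h⟩ := h
  obtain ⟨D, hD, k⟩ := k
  refine ⟨C + D, by positivity, fun x hx y hy => ?_⟩
  have e : A x + B x - (A y + B y) = (A x - A y) + (B x - B y) := by abel
  rw [e, add_mul]
  exact (norm_add_le _ _).trans (add_le_add (h x hx y hy) (k x hx y hy))

theorem HolOn.sub {A B : W → W'} {s : Set W} (h : HolOn A s) (k : HolOn B s) :
    HolOn (fun x => A x - B x) s := by
  obtain ⟨C, hC, h⟩ := h
  obtain ⟨D, hD, k⟩ := k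
  refine ⟨C + D, by positivity, fun x hx y hy => ?_⟩
  have e : A x - B x - (A y - B y) = (A x - A y) - (B x - B y) := by abel
  rw [e, add_mul]
  exact (norm_sub_le _ _).trans (add_le_add (h x hx y hy) (k x hx y hy))

theorem HolOn.sum {ι : Type*} (t : Finset ι) {A : ι → W → W'} {s : Set W}
    (h : ∀ i ∈ t, HolOn (A i) s) : HolOn (fun x => ∑ i ∈ t, A i x) s := by
  classical
  induction t using Finset.induction_on with
  | empty => exact ⟨0, le_rfl, fun x _ y _ => by simp⟩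
  | insert a t ha ih =>
    simp_rw [Finset.sum_insert ha]
    exact (h a (Finset.mem_insert_self a t)).add
      (ih fun i hi => h i (Finset.mem_insert_of_mem hi))

/-- a Lipschitz map is Hoelder on a ball -/
theorem HolOn.of_lip {A : W → W'} {c : W} {r K : ℝ} (hK : 0 ≤ K)
    (h : ∀ x ∈ ball c r, ∀ y ∈ ball c r, ‖A x - A y‖ ≤ K * ‖x - y‖) : HolOn A (ball c r) := by
  refine ⟨K * (2 * |r|) ^ (1 / 2 : ℝ), by positivity, fun x hx y hy => ?_⟩
  refine (h x hx y hy).trans ?_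
  rw [mul_assoc]
  refine mul_le_mul_of_nonneg_left ?_ hK
  have h1 : ‖x - y‖ ≤ 2 * |r| := by
    rw [mem_ball, dist_eq_norm] at hx hy
    have e : x - y = (x - c) - (y - c) := by abel
    rw [e]
    have := norm_sub_le (x - c) (y - c)
    have := le_abs_self r
    linarith
  have h2 : ‖x - y‖ = ‖x - y‖ ^ (1 / 2 : ℝ) * ‖x - y‖ ^ (1 / 2 : ℝ) := by
    rw [← Real.sqrt_eq_rpow, Real.mul_self_sqrt (norm_nonneg _)]
  calc ‖x - y‖ = ‖x - y‖ ^ (1 / 2 : ℝ) * ‖x - y‖ ^ (1 / 2 : ℝ) := h2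
    _ ≤ (2 * |r|) ^ (1 / 2 : ℝ) * ‖x - y‖ ^ (1 / 2 : ℝ) :=
      mul_le_mul_of_nonneg_right (Real.rpow_le_rpow (norm_nonneg _) h1 (by norm_num))
        (by positivity)

end gen

/-- a radial cut-off -/
theorem exists_cutoff (x₀ : V) {δ : ℝ} (hδ : 0 < δ) : ∃ (χ : V → ℝ) (χ' : V → V),
    (∀ x, HasGradientAt χ (χ' x) x) ∧ Continuous χ ∧ Continuous χ' ∧ (∃ B, ∀ x, ‖χ' x‖ ≤ B) ∧
    (∀ x, 0 ≤ χ x) ∧ (∀ x, χ x ≤ 1) ∧ (∀ x, ‖x - x₀‖ ≤ δ / 2 → χ x = 1) ∧
    (∀ x, 3 / 4 * δ ≤ ‖x - x₀‖ → χ x = 0) := by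
  let φ : ContDiffBump (0 : V) := ⟨1 / 2, 3 / 4, by norm_num, by norm_num⟩
  obtain ⟨B, hB⟩ : ∃ B, ∀ x, ‖fderiv ℝ φ x‖ ≤ B := by
    have h1 : HasCompactSupport (fderiv ℝ φ) := φ.hasCompactSupport.fderiv (𝕜 := ℝ)
    have h2 : Continuous (fderiv ℝ φ) := (φ.contDiff (n := 1)).continuous_fderiv (by norm_num)
    exact h1.exists_bound_of_continuous h2
  set χ : V → ℝ := fun x => φ (δ⁻¹ • (x - x₀)) with hχ
  set χ' : V → V := fun x => δ⁻¹ • ∇ (φ : V → ℝ) (δ⁻¹ • (x - x₀)) with hχ'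
  have hφd : ∀ x, DifferentiableAt ℝ (φ : V → ℝ) x := fun x =>
    (φ.contDiff (n := 1)).differentiable (by norm_num) x
  have hφg : Continuous (fun x => ∇ (φ : V → ℝ) x) := by
    unfold gradient
    exact (InnerProductSpace.toDual ℝ V).symm.continuous.comp
      ((φ.contDiff (n := 1)).continuous_fderiv (by norm_num))
  have hφn : ∀ x, ‖∇ (φ : V → ℝ) x‖ ≤ B := fun x => by
    unfold gradient
    rw [LinearIsometryEquiv.norm_map]
    exact hB x
  have hnorm : ∀ x : V, ‖δ⁻¹ • (x - x₀)‖ = δ⁻¹ * ‖x - x₀‖ := fun x => by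
    rw [norm_smul, Real.norm_of_nonneg (by positivity : (0:ℝ) ≤ δ⁻¹)]
  refine ⟨χ, χ', ?_, φ.continuous.comp (by fun_prop),
    (hφg.comp (by fun_prop : Continuous fun x : V => δ⁻¹ • (x - x₀))).const_smul _,
    ⟨δ⁻¹ * B, ?_⟩, fun x => φ.nonneg, fun x => φ.le_one, ?_, ?_⟩
  · intro x
    have h2 : HasFDerivAt (fun x : V => δ⁻¹ • (x - x₀)) (δ⁻¹ • ContinuousLinearMap.id ℝ V) x :=
      ((hasFDerivAt_id x).sub_const x₀).fun_const_smul δ⁻¹
    have h3 := ((hφd (δ⁻¹ • (x - x₀))).hasGradientAt.hasFDerivAt).comp x h2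
    rw [hasGradientAt_iff_hasFDerivAt]
    refine h3.congr_fderiv ?_
    ext a
    simp [hχ']
  · intro x
    simp only [hχ']
    rw [norm_smul, Real.norm_of_nonneg (by positivity : (0:ℝ) ≤ δ⁻¹)]
    exact mul_le_mul_of_nonneg_left (hφn _) (by positivity)
  · intro x hx
    refine φ.one_of_mem_closedBall ?_
    rw [mem_closedBall, dist_zero_right, hnorm]
    show δ⁻¹ * ‖x - x₀‖ ≤ 1 / 2
    rw [inv_mul_le_iff₀ hδ]
    linarith
  · intro x hx
    refine φ.zero_of_le_dist ?_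
    rw [dist_zero_right, hnorm]
    show 3 / 4 ≤ δ⁻¹ * ‖x - x₀‖
    rw [le_inv_mul_iff₀ hδ]
    linarith

section dim3
variable [hd : Fact (Module.finrank ℝ V = 3)]

theorem C1c.hN_holder {c : V → ℝ} {c' : V → V} (h : C1c c c') : ∃ C : ℝ, 0 ≤ C ∧
    ∀ x y : V, ‖hN c' x - hN c' y‖ ≤ C * ‖x - y‖ ^ (1 / 2 : ℝ) := by
  have h1 : ∀ i, ∃ C : ℝ, 0 ≤ C ∧ ∀ x y : V,
      ‖gradV (fun y => ⟪c' y, stdOrthonormalBasis ℝ V i⟫) x -
        gradV (fun y => ⟪c' y, stdOrthonormalBasis ℝ V i⟫) y‖ ≤ C * ‖x - y‖ ^ (1 / 2 : ℝ) :=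
    fun i => gradV_holder (h.bcd _)
  choose C hC hC' using h1
  refine ⟨∑ i, C i, Finset.sum_nonneg fun i _ => hC i, fun x y => ?_⟩
  unfold hN
  rw [← Finset.sum_sub_distrib, Finset.sum_mul]
  refine (norm_sum_le _ _).trans (Finset.sum_le_sum fun i _ => ?_)
  have e : (innerSL ℝ (gradV (fun y => ⟪c' y, stdOrthonormalBasis ℝ V i⟫) x)).smulRight
      (stdOrthonormalBasis ℝ V i) -
      (innerSL ℝ (gradV (fun y => ⟪c' y, stdOrthonormalBasis ℝ V i⟫) y)).smulRight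
      (stdOrthonormalBasis ℝ V i) =
      (innerSL ℝ (gradV (fun y => ⟪c' y, stdOrthonormalBasis ℝ V i⟫) x -
        gradV (fun y => ⟪c' y, stdOrthonormalBasis ℝ V i⟫) y)).smulRight
      (stdOrthonormalBasis ℝ V i) := by
    ext a
    simp [sub_smul]
  rw [e, ContinuousLinearMap.norm_smulRight_apply, (stdOrthonormalBasis ℝ V).norm_eq_one, mul_one,
    innerSL_apply_norm]
  exact hC' i x y

/-- **second derivatives of the potential of a density which is `C¹` near a point are Hoelder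
continuous there** -/
theorem loc_holder {f : V → ℝ} {f' : V → V} (hm : Measurable f)
    (hf : Integrable f) {x₀ : V} {δ : ℝ} (hδ : 0 < δ)
    (hg : ∀ x ∈ ball x₀ δ, HasGradientAt f (f' x) x) (hc : ContinuousOn f' (ball x₀ δ))
    {M₀ : ℝ} (h0 : ∀ x ∈ ball x₀ δ, |f x| ≤ M₀) :
    ∃ H : V → V →L[ℝ] V, (∀ x ∈ ball x₀ (δ / 16), HasFDerivAt (gradV f) (H x) x) ∧
      HolOn H (ball x₀ (δ / 16)) := by
  obtain ⟨χ, χ', hχg, hχc, hχ'c, ⟨B, hχ'n⟩, hχ0, hχ1, hχone, hχz⟩ := exists_cutoff x₀ hδ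
  have hx₀ : x₀ ∈ ball x₀ δ := mem_ball_self hδ
  have hM₀ : 0 ≤ M₀ := (abs_nonneg _).trans (h0 x₀ hx₀)
  have hχz' : ∀ x, 3 / 4 * δ < ‖x - x₀‖ → χ' x = 0 ∧ χ =ᶠ[𝓝 x] fun _ => 0 := by
    intro x hx
    have h2 : ∀ᶠ y in 𝓝 x, 3 / 4 * δ < ‖y - x₀‖ := by
      have : ContinuousAt (fun y : V => ‖y - x₀‖) x := by fun_prop
      exact this.eventually (lt_mem_nhds hx)
    have h3 : χ =ᶠ[𝓝 x] fun _ => 0 := by
      filter_upwards [h2] with y hy
      exact hχz y hy.le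
    refine ⟨?_, h3⟩
    have h4 := (hχg x).congr_of_eventuallyEq h3.symm
    exact h4.unique (hasGradientAt_const x 0)
  -- the near part
  set c : V → ℝ := fun x => χ x * f x with hcdef
  set c' : V → V := fun x => χ x • f' x + f x • χ' x with hc'def
  have hcb : ∀ x, |c x| ≤ M₀ := by
    intro x
    simp only [hcdef]
    rw [abs_mul, abs_of_nonneg (hχ0 x)]
    by_cases hx : x ∈ ball x₀ δ
    · calc χ x * |f x| ≤ 1 * M₀ := mul_le_mul (hχ1 x) (h0 x hx) (abs_nonneg _) zero_le_one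
        _ = M₀ := one_mul _
    · rw [mem_ball, dist_eq_norm, not_lt] at hx
      rw [hχz x (by linarith), zero_mul]
      exact hM₀
  have hc'out : ∀ x, 3 / 4 * δ < ‖x - x₀‖ → c' x = 0 := by
    intro x hx
    simp only [hc'def]
    rw [hχz x hx.le, (hχz' x hx).1, zero_smul, smul_zero, add_zero]
  have hout : ∀ x, ‖x₀‖ + δ ≤ ‖x‖ → 3 / 4 * δ < ‖x - x₀‖ := by
    intro x hx
    have := norm_sub_norm_le x x₀
    linarith
  have hC1 : C1c c c' := by
    refine ⟨⟨hχc.measurable.mul hm, ⟨M₀, hcb⟩, ⟨‖x₀‖ + δ, fun x hx => ?_⟩⟩, ?_, ?_,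
      ⟨‖x₀‖ + δ, fun x hx => hc'out x (hout x hx)⟩⟩
    · simp only [hcdef]
      rw [hχz x (hout x hx).le, zero_mul]
    · intro x
      by_cases hx : x ∈ ball x₀ δ
      · have h2 := (hχg x).hasFDerivAt.mul (hg x hx).hasFDerivAt
        rw [hasGradientAt_iff_hasFDerivAt]
        refine h2.congr_fderiv ?_
        ext a
        simp [hc'def]
      · rw [mem_ball, dist_eq_norm, not_lt] at hx
        have hx' : 3 / 4 * δ < ‖x - x₀‖ := by linarith
        rw [hc'out x hx']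
        refine (hasGradientAt_const x (0 : ℝ)).congr_of_eventuallyEq ?_
        filter_upwards [(hχz' x hx').2] with y hy
        simp only [hcdef]
        rw [hy, zero_mul]
    · rw [continuous_iff_continuousAt]
      intro x
      by_cases hx : x ∈ ball x₀ δ
      · have hn := isOpen_ball.mem_nhds hx
        have h2 : ContinuousAt f' x := hc.continuousAt hn
        have h3 : ContinuousAt f x := (hg x hx).hasFDerivAt.continuousAt
        exact (hχc.continuousAt.smul h2).add (h3.smul hχ'c.continuousAt)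
      · rw [mem_ball, dist_eq_norm, not_lt] at hx
        have hx' : 3 / 4 * δ < ‖x - x₀‖ := by linarith
        have h2 : ∀ᶠ y in 𝓝 x, 3 / 4 * δ < ‖y - x₀‖ := by
          have : ContinuousAt (fun y : V => ‖y - x₀‖) x := by fun_prop
          exact this.eventually (lt_mem_nhds hx')
        refine (continuousAt_const (y := (0 : V))).congr ?_
        filter_upwards [h2] with y hy
        exact (hc'out y hy).symm
  -- the far part
  set g : V → ℝ := fun x => (1 - χ x) * f x with hgdef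
  have hgm : Measurable g := (measurable_const.sub hχc.measurable).mul hm
  have hgle : ∀ x, |g x| ≤ |f x| := by
    intro x
    simp only [hgdef]
    rw [abs_mul, abs_of_nonneg (by have := hχ1 x; linarith)]
    refine mul_le_of_le_one_left (abs_nonneg _) ?_
    have := hχ0 x; linarith
  have hgi : Integrable g := hf.abs.mono' hgm.aestronglyMeasurable
    (Eventually.of_forall fun x => by rw [Real.norm_eq_abs]; exact hgle x)
  have hg0' : ∀ y ∈ ball x₀ (2 * (δ / 4)), g y = 0 := by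
    intro y hy
    rw [mem_ball, dist_eq_norm] at hy
    simp only [hgdef]
    rw [hχone y (by linarith), sub_self, zero_mul]
  have hfp := (far_part hgm hgi (by positivity : 0 < δ / 4) hg0').1
  obtain ⟨K, hK⟩ := Rot23.c11_gradV hgm hgi (by positivity : 0 < δ / 4) hg0'
  have e16 : δ / 4 / 4 = δ / 16 := by ring
  rw [e16] at hK
  have hsub : ball x₀ (δ / 16) ⊆ ball x₀ (δ / 4) := ball_subset_ball (by linarith)
  have hsum : ∀ x ∈ ball x₀ (δ / 4), gradV f x = gradV c x + gradV g x := by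
    intro x hx
    rw [← gradV_add (hC1.bc.GI x) (hfp x hx).1]
    congr 1
    funext y
    simp only [hcdef, hgdef]
    ring
  refine ⟨fun x => hN c' x + hF g x, fun x hx => ?_, ?_⟩
  · refine ((hC1.hasFDerivAt x).add (hK.deriv x hx)).congr_of_eventuallyEq ?_
    filter_upwards [isOpen_ball.mem_nhds (hsub hx)] with y hy
    exact hsum y hy
  · obtain ⟨C, hC, hC'⟩ := hC1.hN_holder
    exact HolOn.add ⟨C, hC, fun x _ y _ => hC' x y⟩
      (HolOn.of_lip (hK.nonneg (by positivity)) hK.lip)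

end dim3

end Pool.Agent.TF

namespace Pool.Agent.TF.Grd
open MeasureTheory Set Metric Filter Topology
open scoped ENNReal NNReal RealInnerProductSpace Gradient

variable {ι : Type*} [Fintype ι]

theorem hVpt_holder (z : ι → ℝ) {R : ι → X} {x₀ : X} {δ : ℝ} (hδ : 0 < δ)
    (hx : ∀ i, 2 * δ ≤ ‖R i - x₀‖) : HolOn (hVpt z R) (ball x₀ (δ / 4)) := by
  have h1 : ∀ i ∈ (Finset.univ : Finset ι), HolOn (fun x => z i • hP (R i) x) (ball x₀ (δ / 4)) := by
    intro i _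
    obtain ⟨K, hK⟩ := Rot23.c11_gradP hδ (hx i)
    have h2 := hK.smul (z i)
    exact HolOn.of_lip (h2.nonneg (by positivity)) h2.lip
  exact HolOn.sum Finset.univ h1

section sol
variable {z : ι → ℝ} (hz : ∀ i, 0 ≤ z i) (R : ι → X) {φ₀ : ℝ} (hφ : 0 < φ₀)
    {ρ : X → ℝ} (hρ : TC ρ) (heq : ∀ x, ρ x = tf (Vpt z R x - pot ρ x - φ₀))
include hz hφ hρ heq

/-- **the second derivative of a solution is Hoelder continuous near every point off the
nuclei** -/
theorem hess_holder {H : X → X →L[ℝ] X} (h : HessSol z R ρ H) {x₀ : X} (hx₀ : ∀ i, x₀ ≠ R i) :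
    ∃ δ > 0, HolOn H (ball x₀ δ) := by
  obtain ⟨K, hK, hb⟩ := sol_bounds hz R hφ hρ heq
  obtain ⟨b1, -⟩ := hb x₀ hx₀
  set a := aR R x₀ with ha
  have ha1 : 1 ≤ a := one_le_aR R x₀
  have ha0 : 0 < a := by linarith
  set δ : ℝ := (2 * a)⁻¹ with hδdef
  have hδ : 0 < δ := by positivity
  have hoff : ∀ y ∈ ball x₀ δ, ∀ i, y ≠ R i := fun y hy i => (aR_ball hx₀ hy i).1
  obtain ⟨G, hG1, hG2⟩ := loc_holder (V := X)
    (f' := fun y => gam (psi φ₀ z R ρ y) • psi' z R ρ y) hρ.meas hρ.int hδ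
    (fun y hy => hasGradientAt_rho hz R hφ hρ heq (hoff y hy))
    (fun y hy => ContinuousAt.continuousWithinAt (by
      have h1 := (hasGradientAt_psi hz R hφ hρ heq (hoff y hy)).hasFDerivAt.continuousAt
      exact (gam_continuous'.continuousAt.comp h1).smul
        (psi'_continuousAt hz R hφ hρ heq (hoff y hy))))
    (fun y hy => (b1 y hy).1)
  have hfar : ∀ i, 2 * (δ / 2) ≤ ‖R i - x₀‖ := by
    intro i
    have h1 : R i ∉ ball x₀ δ := fun hm => hoff _ hm i rfl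
    rw [mem_ball, dist_eq_norm, not_lt] at h1
    linarith
  have hV := hVpt_holder z (by positivity : 0 < δ / 2) hfar
  have hs1 : ball x₀ (δ / 16) ⊆ ball x₀ (δ / 2 / 4) := ball_subset_ball (by linarith)
  have hs2 : ball x₀ (δ / 16) ⊆ ball x₀ δ := ball_subset_ball (by linarith)
  refine ⟨δ / 16, by positivity, ((hV.mono hs1).sub hG2).congr fun x hx => ?_⟩
  have h1 : HasFDerivAt (psi' z R ρ) (hVpt z R x - G x) x :=
    (hasFDerivAt_gVpt z (hoff x (hs2 hx))).sub (hG1 x hx)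
  exact (h.deriv x (hoff x (hs2 hx))).unique h1

/-- the same, with the constants spelled out -/
theorem hess_holder' {H : X → X →L[ℝ] X} (h : HessSol z R ρ H) {x₀ : X} (hx₀ : ∀ i, x₀ ≠ R i) :
    ∃ δ > 0, ∃ C : ℝ, 0 ≤ C ∧ ∀ x ∈ ball x₀ δ, ∀ y ∈ ball x₀ δ,
      ‖H x - H y‖ ≤ C * ‖x - y‖ ^ (1 / 2 : ℝ) := by
  obtain ⟨δ, hδ, C, hC, h1⟩ := hess_holder hz R hφ hρ heq h hx₀
  exact ⟨δ, hδ, C, hC, h1⟩

/-- the same, with the square root -/
theorem hess_holder_sqrt {H : X → X →L[ℝ] X} (h : HessSol z R ρ H) {x₀ : X}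
    (hx₀ : ∀ i, x₀ ≠ R i) :
    ∃ δ > 0, ∃ C : ℝ, 0 ≤ C ∧ ∀ x ∈ ball x₀ δ, ∀ y ∈ ball x₀ δ,
      ‖H x - H y‖ ≤ C * √‖x - y‖ := by
  obtain ⟨δ, hδ, C, hC, h1⟩ := hess_holder' hz R hφ hρ heq h hx₀
  refine ⟨δ, hδ, C, hC, fun x hx y hy => ?_⟩
  rw [Real.sqrt_eq_rpow]
  exact h1 x hx y hy

end sol

end Pool.Agent.TF.Grd
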