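import Pool.Agent.Lib.MP_9cf0c9_mp.ColFinal36
import Pool.Agent.Lib.MP_9cf0c9_mp.HolHess86
import Pool.Agent.Lib.MP_9cf0c9_mp.FluxInf74

/-! Collinear nuclei: the currents `Jt` and `NH` near the axis. -/

set_option autoImplicit false
set_option linter.unusedSectionVars false
set_option linter.unusedVariables false

namespace Pool.Agent.TF.Col
open MeasureTheory Set Metric Filter Topology
open scoped ENNReal NNReal RealInnerProductSpace Gradient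
open Pool.Agent.TF.Grd

variable {ι : Type*} [Fintype ι]
variable {φ₀ : ℝ} {z : ι → ℝ} {R : ι → X} {ρ : X → ℝ} {H : X → X →L[ℝ] X} {lo hi : ℝ}

theorem bdd_nhds {E : Type*} [NormedAddCommGroup E] {f : X → E} {x₀ : X}
    (hf : ContinuousAt f x₀) :
    ∃ B δ : ℝ, 0 < δ ∧ 0 ≤ B ∧ ∀ x ∈ ball x₀ δ, ‖f x‖ ≤ B := by
  have h1 : ∀ᶠ x in 𝓝 x₀, ‖f x‖ < ‖f x₀‖ + 1 :=
    hf.norm.eventually (gt_mem_nhds (by linarith))
  obtain ⟨δ, hδ, h⟩ := Metric.eventually_nhds_iff_ball.mp h1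
  exact ⟨‖f x₀‖ + 1, δ, hδ, by positivity, fun x hx => (h x hx).le⟩

theorem Dat.holder (D : Dat φ₀ z R ρ H lo hi) {x₀ : X} (h0R : ∀ i, x₀ ≠ R i) :
    ∃ δ > 0, ∃ C : ℝ, 0 ≤ C ∧ ∀ x ∈ ball x₀ δ, ∀ y ∈ ball x₀ δ,
      ‖H x - H y‖ ≤ C * √‖x - y‖ :=
  hess_holder_sqrt D.hz R D.hφ D.hρ D.heq D.hs h0R

/-- the current `Jt` near the axis -/
theorem Dat.axb_Jt (D : Dat φ₀ z R ρ H lo hi) {τ : X → ℝ}
    (hτ : ∀ x₀ ∈ Col.ax, (∀ i, x₀ ≠ R i) → ∃ B δ : ℝ, 0 < δ ∧ ∀ x ∈ ball x₀ δ, x ∉ Col.ax →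
      |τ x| ≤ B) : AxB R (Jt z R ρ H τ) := by
  intro x₀ h0 h0R
  obtain ⟨δ, hδ, C, hC, hH⟩ := D.holder h0R
  obtain ⟨B, δ', hδ', hB⟩ := hτ x₀ h0 h0R
  obtain ⟨K, δ'', hδ'', hK, h⟩ := D.axis_YJ h0 h0R hδ hH (τ := τ) (τ' := fun _ => 0)
    (B := max B 0) hδ' fun x hx hxa => ⟨(hB x hx hxa).trans (le_max_left _ _), by
      rw [smul_zero, norm_zero, mul_zero]
      exact le_max_right _ _⟩
  exact ⟨K ^ 2, δ'', hδ'', fun x hx hxa => (h x hx hxa).2.2.2⟩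

/-- the gradient of the trial near the axis -/
theorem Dat.axb_Yt' (D : Dat φ₀ z R ρ H lo hi) {τ : X → ℝ} {τ' : X → X}
    (hτ : ∀ x₀ ∈ Col.ax, (∀ i, x₀ ≠ R i) → ∃ B δ : ℝ, 0 < δ ∧ ∀ x ∈ ball x₀ δ, x ∉ Col.ax →
      |τ x| ≤ B ∧ √(ht x) * ‖pf z R ρ x • τ' x‖ ≤ B) : AxB R (Yt' z R ρ H τ τ') := by
  intro x₀ h0 h0R
  obtain ⟨δ, hδ, C, hC, hH⟩ := D.holder h0R
  obtain ⟨B, δ', hδ', hB⟩ := hτ x₀ h0 h0R
  obtain ⟨K, δ'', hδ'', hK, h⟩ := D.axis_YJ h0 h0R hδ hH hδ' hB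
  exact ⟨K ^ 2, δ'', hδ'', fun x hx hxa => (h x hx hxa).2.2.1⟩

/-- a state function has a derivative with a moderate singularity -/
theorem Dat.axb_tau (D : Dat φ₀ z R ρ H lo hi) {τ : X → ℝ} {τ' : X → X} {a b g : X → ℝ}
    (hB : ∀ x₀ ∈ Col.ax, (∀ i, x₀ ≠ R i) → ∃ B δ : ℝ, 0 < δ ∧ ∀ x ∈ ball x₀ δ, x ∉ Col.ax →
      |τ x| ≤ B ∧ |a x| ≤ B ∧ |b x| ≤ B ∧ |g x| ≤ B)
    (hτ' : ∀ x, x ∉ Col.ax → τ' x = a x • e1 + b x • es x + g x • cf' z R ρ H x) :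
    ∀ x₀ ∈ Col.ax, (∀ i, x₀ ≠ R i) → ∃ B δ : ℝ, 0 < δ ∧ ∀ x ∈ ball x₀ δ, x ∉ Col.ax →
      |τ x| ≤ B ∧ √(ht x) * ‖pf z R ρ x • τ' x‖ ≤ B := by
  intro x₀ h0 h0R
  obtain ⟨δ, hδ, C, hC, hH⟩ := D.holder h0R
  obtain ⟨B, δ', hδ', hB'⟩ := hB x₀ h0 h0R
  obtain ⟨δ₁, K, hδ₁, hK, h⟩ := D.axis_tau' h0 h0R hδ hH hδ' (fun x hx hxa =>
    ⟨(hB' x hx hxa).2.1, (hB' x hx hxa).2.2.1, (hB' x hx hxa).2.2.2⟩) hτ'
  refine ⟨max B K, min δ' δ₁, lt_min hδ' hδ₁, fun x hx hxa => ⟨?_, ?_⟩⟩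
  · exact (hB' x (ball_subset_ball (min_le_left _ _) hx) hxa).1.trans (le_max_left _ _)
  · exact (h x (ball_subset_ball (min_le_right _ _) hx) hxa).trans (le_max_right _ _)

/-! ### two nuclei -/

theorem Dat.axb_tq (D : Dat φ₀ z R ρ H lo hi) (a b : ℝ) :
    ∀ x₀ ∈ Col.ax, (∀ i, x₀ ≠ R i) → ∃ B δ : ℝ, 0 < δ ∧ ∀ x ∈ ball x₀ δ, x ∉ Col.ax →
      |tq z R ρ a b x| ≤ B ∧ √(ht x) * ‖pf z R ρ x • tq' z R ρ H a b x‖ ≤ B := by
  refine D.axb_tau (a := fun _ => 0) (b := fun _ => 0) (g := fun x => a + b - 2 * cf z R ρ x)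
    (fun x₀ h0 h0R => ⟨(|lo| + |hi| + |a|) * (|lo| + |hi| + |b|) +
      (|a| + |b| + 2 * (|lo| + |hi|)), 1, one_pos, fun x hx hxa => ?_⟩) fun x hx => ?_
  · have h1 := D.abs_tq a b hxa
    have h2 := D.abs_m a b hxa
    have h3 : 0 ≤ (|lo| + |hi| + |a|) * (|lo| + |hi| + |b|) := by positivity
    have h4 : 0 ≤ |a| + |b| + 2 * (|lo| + |hi|) := by positivity
    refine ⟨by linarith, ?_, ?_, by linarith⟩ <;>
    · rw [abs_zero]; linarith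
  · rw [zero_smul, zero_smul, zero_add, zero_add]
    rfl

/-- pointwise bound of the current of the transverse form -/
theorem Dat.NH_pt (D : Dat φ₀ z R ρ H lo hi) (a b : ℝ) {x : X} (hxa : x ∉ Col.ax) {B Q W : ℝ}
    (hB1 : 1 ≤ B) (hQ : B * (B ^ 2 + 1 + B) ≤ Q)
    (hW : 1 / 2 * ((Q + B * B) * (B * B)) * (1 + B) ≤ W) (hs1 : ht x ≤ 1)
    (g1 : pf z R ρ x ≤ B) (g2 : |zt z R ρ x| ≤ B) (g3 : √(ht x) * ‖pf' z R ρ H x‖ ≤ B)
    (g4 : √(ht x) * ‖pf z R ρ x • cf' z R ρ H x‖ ≤ B) (g5 : |tq z R ρ a b x| ≤ B)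
    (g6 : √(ht x) * ‖YY' z R ρ H a b x‖ ≤ B) (g7 : |4 * Real.pi * ρ x| ≤ B)
    (g8 : |gam (psi φ₀ z R ρ x)| * (4 * Real.pi) ≤ B) (g9 : ‖psi' z R ρ x‖ ≤ B)
    (g10 : |a + b - 2 * cf z R ρ x| ≤ B) :
    ‖NH φ₀ z R ρ H a b x‖ ≤ 3 / 2 * B ^ 2 + 3 / 2 * B ^ 2 + 1 / 2 * B * (B + (B * B + B * B)) +
      2 * (B * Q) + B * B + B * B * B + B * W := by
  have hB0 : 0 ≤ B := by linarith
  have hQ0 : 0 ≤ Q := le_trans (by positivity) hQ
  have hs := ht_pos hxa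
  have hp := D.ax.pos x hxa
  -- powers of the height
  have hsq : √(ht x) * √(ht x) = ht x := Real.mul_self_sqrt hs.le
  have hs3 : 0 ≤ √(ht x) := Real.sqrt_nonneg _
  have hs4 : √(ht x) ≤ 1 := by
    rw [← Real.sqrt_one]; exact Real.sqrt_le_sqrt hs1
  have hsle : ht x ≤ √(ht x) := by
    nth_rewrite 1 [← hsq]
    exact (mul_le_mul_of_nonneg_left hs4 hs3).trans (mul_one _).le
  have hs2 : ht x ^ 2 ≤ √(ht x) := by
    rw [pow_two]
    exact (mul_le_mul hs1 hsle hs.le one_pos.le).trans (one_mul _).le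
  have hs22 : ht x ^ 2 ≤ 1 := hs2.trans hs4
  have w2 : ∀ (v : X) (A : ℝ), √(ht x) * ‖v‖ ≤ A → ht x ^ 2 * ‖v‖ ≤ A := fun v A h =>
    (mul_le_mul_of_nonneg_right hs2 (norm_nonneg v)).trans h
  have w3 : ∀ v : X, ∀ A : ℝ, √(ht x) * ‖v‖ ≤ A → ht x * ‖v‖ ^ 2 ≤ A ^ 2 := fun v A h => by
    have := pow_le_pow_left₀ (by positivity) h 2
    rwa [mul_pow, Real.sq_sqrt hs.le] at this
  have hff : √(ht x) * ‖ff' z R ρ H a b x‖ ≤ B * B + B * B := by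
    have e : ff' z R ρ H a b x = (a + b - 2 * cf z R ρ x) • (pf z R ρ x • cf' z R ρ H x) +
        tq z R ρ a b x • pf' z R ρ H x := by
      unfold ff' tq'
      module
    rw [e]
    have h1 : ‖(a + b - 2 * cf z R ρ x) • (pf z R ρ x • cf' z R ρ H x) +
        tq z R ρ a b x • pf' z R ρ H x‖ ≤ B * ‖pf z R ρ x • cf' z R ρ H x‖ +
          B * ‖pf' z R ρ H x‖ := by
      refine (norm_add_le _ _).trans (add_le_add ?_ ?_)
      · rw [norm_smul, Real.norm_eq_abs]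
        exact mul_le_mul_of_nonneg_right g10 (norm_nonneg _)
      · rw [norm_smul, Real.norm_eq_abs]
        exact mul_le_mul_of_nonneg_right g5 (norm_nonneg _)
    calc _ ≤ √(ht x) * (B * ‖pf z R ρ x • cf' z R ρ H x‖ + B * ‖pf' z R ρ H x‖) :=
          mul_le_mul_of_nonneg_left h1 hs3
      _ = B * (√(ht x) * ‖pf z R ρ x • cf' z R ρ H x‖) +
          B * (√(ht x) * ‖pf' z R ρ H x‖) := by ring
      _ ≤ B * B + B * B := add_le_add (mul_le_mul_of_nonneg_left g4 hB0)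
          (mul_le_mul_of_nonneg_left g3 hB0)
  have hr : |r2 z R ρ x| ≤ B ^ 2 + 1 := by
    unfold r2
    have h1 : zt z R ρ x ^ 2 ≤ B ^ 2 := by
      rw [← sq_abs]
      exact pow_le_pow_left₀ (abs_nonneg _) g2 2
    rw [abs_of_nonneg (by positivity)]
    linarith
  have hYY : |YY z R ρ a b x| ≤ Q := by
    unfold YY Yt
    rw [abs_mul, abs_of_pos hp]
    exact (mul_le_mul g1 ((abs_add_le _ _).trans (add_le_add hr g5)) (abs_nonneg _) hB0).trans hQ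
  have hff0 : |ff z R ρ a b x| ≤ B * B := by
    unfold ff
    rw [abs_mul, abs_of_pos hp]
    exact mul_le_mul g1 g5 (abs_nonneg _) hB0
  have hTT : ‖TT z R ρ a b x‖ ≤ W := by
    have n1 : ‖ht x ^ 2 • e1 - zt z R ρ x • perp x‖ ≤ 1 + B := by
      refine (norm_sub_le _ _).trans (add_le_add ?_ ?_)
      · rw [norm_smul, norm_e1, mul_one, Real.norm_of_nonneg (by positivity)]
        exact hs22
      · rw [norm_smul, Real.norm_eq_abs, norm_perp]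
        exact (mul_le_mul g2 hs1 hs.le hB0).trans (mul_one B).le
    have n2 : |wT z R ρ a b x| ≤ 1 / 2 * ((Q + B * B) * (B * B)) := by
      unfold wT
      rw [abs_mul, abs_mul, abs_mul, abs_of_pos hp, abs_of_pos (by norm_num : (0 : ℝ) < 1 / 2)]
      exact mul_le_mul_of_nonneg_left (mul_le_mul ((abs_add_le _ _).trans
        (add_le_add hYY hff0)) (mul_le_mul g1 g2 (abs_nonneg _) hB0) (by positivity)
        (by positivity)) (by norm_num)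
    unfold TT
    rw [norm_smul, Real.norm_eq_abs]
    exact (mul_le_mul n2 n1 (norm_nonneg _) (by positivity)).trans hW
  -- the current
  unfold NH
  refine (norm_add_le _ _).trans (add_le_add ((norm_add_le _ _).trans (add_le_add
    ((norm_add_le _ _).trans (add_le_add ((norm_add_le _ _).trans (add_le_add
    ((norm_add_le _ _).trans (add_le_add ((norm_sub_le _ _).trans (add_le_add ?_ ?_)) ?_))
    ?_)) ?_)) ?_)) ?_)
  · refine (norm_st_le _ _).trans (mul_le_mul_of_nonneg_left (w3 _ _ g6) (by norm_num))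
  · refine (norm_st_le _ _).trans (mul_le_mul_of_nonneg_left (w3 _ _ ?_) (by norm_num))
    exact (mul_le_mul_of_nonneg_right hs4 (norm_nonneg _)).trans ((one_mul _).le.trans g9)
  · rw [norm_smul, Real.norm_eq_abs, abs_mul, abs_mul,
      abs_of_pos (by norm_num : (0 : ℝ) < 1 / 2), abs_of_nonneg (by positivity : 0 ≤ ht x ^ 2)]
    have h1 : √(ht x) * ‖YY' z R ρ H a b x + ff' z R ρ H a b x‖ ≤ B + (B * B + B * B) := by
      refine (mul_le_mul_of_nonneg_left (norm_add_le _ _) hs3).trans ?_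
      rw [mul_add]
      exact add_le_add g6 hff
    have h2 := w2 _ _ h1
    calc 1 / 2 * (ht x ^ 2 * |4 * Real.pi * ρ x|) *
          ‖YY' z R ρ H a b x + ff' z R ρ H a b x‖
        = 1 / 2 * |4 * Real.pi * ρ x| *
          (ht x ^ 2 * ‖YY' z R ρ H a b x + ff' z R ρ H a b x‖) := by ring
      _ ≤ 1 / 2 * B * (B + (B * B + B * B)) :=
        mul_le_mul (mul_le_mul_of_nonneg_left g7 (by norm_num)) h2 (by positivity)
          (by positivity)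
  · rw [norm_smul, Real.norm_eq_abs, abs_mul, abs_mul,
      abs_of_pos (by norm_num : (0 : ℝ) < 2), norm_perp]
    calc 2 * (|4 * Real.pi * ρ x| * |YY z R ρ a b x|) * ht x
        ≤ 2 * (B * Q) * 1 := mul_le_mul (mul_le_mul_of_nonneg_left
          (mul_le_mul g7 hYY (abs_nonneg _) hB0) (by norm_num)) hs1 hs.le (by positivity)
      _ = 2 * (B * Q) := mul_one _
  · rw [norm_smul, Real.norm_eq_abs, abs_mul, abs_of_nonneg (by positivity : 0 ≤ ht x ^ 2)]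
    refine mul_le_mul ?_ g9 (norm_nonneg _) hB0
    exact (mul_le_mul hs22 g7 (abs_nonneg _) one_pos.le).trans (one_mul _).le
  · have e : (ht x ^ 2 * (pf z R ρ x * pf z R ρ x) * (a + b - 2 * cf z R ρ x)) •
        cf' z R ρ H x = (ht x ^ 2 * (pf z R ρ x * (a + b - 2 * cf z R ρ x))) •
          (pf z R ρ x • cf' z R ρ H x) := by module
    rw [e, norm_smul, Real.norm_eq_abs, abs_mul, abs_mul, abs_of_pos hp,
      abs_of_nonneg (by positivity : 0 ≤ ht x ^ 2)]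
    calc ht x ^ 2 * (pf z R ρ x * |a + b - 2 * cf z R ρ x|) *
          ‖pf z R ρ x • cf' z R ρ H x‖
        = pf z R ρ x * |a + b - 2 * cf z R ρ x| *
          (ht x ^ 2 * ‖pf z R ρ x • cf' z R ρ H x‖) := by ring
      _ ≤ B * B * B := mul_le_mul (mul_le_mul g1 g10 (abs_nonneg _) hB0) (w2 _ _ g4)
          (by positivity) (by positivity)
  · rw [norm_smul, norm_smul, Real.norm_eq_abs, Real.norm_of_nonneg (by positivity :
      (0 : ℝ) ≤ 4 * Real.pi), ← mul_assoc]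
    exact mul_le_mul g8 hTT (norm_nonneg _) hB0

/-- the current of the transverse form near the axis -/
theorem Dat.axb_NH (D : Dat φ₀ z R ρ H lo hi) (a b : ℝ) : AxB R (NH φ₀ z R ρ H a b) := by
  intro x₀ h0 h0R
  obtain ⟨δ₀, hδ₀, C₀, hC₀, hH⟩ := D.holder h0R
  obtain ⟨δ₁, C₁, hδ₁, -, hC₁, hb⟩ := D.axis_bounds h0 h0R hδ₀ hH
  obtain ⟨B₂, δ₂, hδ₂, h2⟩ := D.axb_tq a b x₀ h0 h0R
  obtain ⟨C₃, δ₃, hδ₃, hC₃, h3⟩ := D.axis_YJ h0 h0R hδ₀ hH hδ₂ h2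
  have hpsi : ContinuousAt (psi φ₀ z R ρ) x₀ :=
    (psi_grad D.hz D.hφ D.hρ D.heq h0R).continuousAt
  have hrho : ContinuousAt ρ x₀ := by
    have h4 : ρ = fun x => tf (psi φ₀ z R ρ x) := funext D.heq
    rw [h4]
    exact tf_continuous.continuousAt.comp hpsi
  have hgam : ContinuousAt (fun x => gam (psi φ₀ z R ρ x)) x₀ :=
    gam_continuous'.continuousAt.comp hpsi
  obtain ⟨B₄, δ₄, hδ₄, hB₄, h4⟩ := bdd_nhds hrho
  obtain ⟨B₅, δ₅, hδ₅, hB₅, h5⟩ := bdd_nhds hgam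
  obtain ⟨B₆, δ₆, hδ₆, hB₆, h6⟩ := bdd_nhds (D.hs.deriv x₀ h0R).continuousAt
  have hpi := Real.pi_pos
  have hm0 : 0 ≤ |a| + |b| + 2 * (|lo| + |hi|) := by positivity
  -- one constant for everything
  obtain ⟨B, hB1, q1, q2, q3, q4, q5, q6, q7⟩ : ∃ B : ℝ, 1 ≤ B ∧ C₁ ≤ B ∧ |B₂| ≤ B ∧ C₃ ≤ B ∧
      4 * Real.pi * B₄ ≤ B ∧ 4 * Real.pi * B₅ ≤ B ∧ B₆ ≤ B ∧
      |a| + |b| + 2 * (|lo| + |hi|) ≤ B := by
    have n1 : 0 ≤ 4 * Real.pi * B₄ := by positivity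
    have n2 : 0 ≤ 4 * Real.pi * B₅ := by positivity
    have n3 := abs_nonneg B₂
    refine ⟨1 + C₁ + |B₂| + C₃ + 4 * Real.pi * B₄ + 4 * Real.pi * B₅ + B₆ +
      (|a| + |b| + 2 * (|lo| + |hi|)), ?_, ?_, ?_, ?_, ?_, ?_, ?_, ?_⟩ <;> linarith
  obtain ⟨δ, hδ0, m1, m2, m3, m4, m5, m6, m7⟩ : ∃ δ : ℝ, 0 < δ ∧ δ ≤ 1 ∧ δ ≤ δ₁ ∧ δ ≤ δ₂ ∧
      δ ≤ δ₃ ∧ δ ≤ δ₄ ∧ δ ≤ δ₅ ∧ δ ≤ δ₆ := by
    refine ⟨min (min (min 1 δ₁) (min δ₂ δ₃)) (min (min δ₄ δ₅) δ₆), by positivity,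
      (min_le_left _ _).trans ((min_le_left _ _).trans (min_le_left _ _)),
      (min_le_left _ _).trans ((min_le_left _ _).trans (min_le_right _ _)),
      (min_le_left _ _).trans ((min_le_right _ _).trans (min_le_left _ _)),
      (min_le_left _ _).trans ((min_le_right _ _).trans (min_le_right _ _)),
      (min_le_right _ _).trans ((min_le_left _ _).trans (min_le_left _ _)),
      (min_le_right _ _).trans ((min_le_left _ _).trans (min_le_right _ _)),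
      (min_le_right _ _).trans (min_le_right _ _)⟩
  have hB0 : 0 ≤ B := by linarith
  refine ⟨(3 / 2 * B ^ 2 + 3 / 2 * B ^ 2 + 1 / 2 * B * (B + (B * B + B * B)) +
      2 * (B * (B * (B ^ 2 + 1 + B))) + B * B + B * B * B +
      B * (1 / 2 * ((B * (B ^ 2 + 1 + B) + B * B) * (B * B)) * (1 + B))) ^ 2, δ, hδ0,
    fun x hx hxa => ?_⟩
  have hs := ht_pos hxa
  have hs1 : ht x ≤ 1 := ((ht_le_dist x h0).trans (mem_ball_iff_norm.mp hx).le).trans m1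
  obtain ⟨b1, b2, b3, b4, b5, -⟩ := hb x (ball_subset_ball m2 hx) hxa
  obtain ⟨c1, c2⟩ := h2 x (ball_subset_ball m3 hx) hxa
  obtain ⟨d1, -, -, -⟩ := h3 x (ball_subset_ball m4 hx) hxa
  have f4 := h4 x (ball_subset_ball m5 hx)
  have f5 := h5 x (ball_subset_ball m6 hx)
  have f6 := h6 x (ball_subset_ball m7 hx)
  rw [Real.norm_eq_abs] at f4 f5
  have hbound := D.NH_pt a b hxa hB1 le_rfl le_rfl hs1 (b2.trans q1) (b3.trans q1)
    (b4.trans q1) (b5.trans q1) ((c1.trans (le_abs_self B₂)).trans q2) (d1.trans q3)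
    (by
      rw [abs_mul, abs_of_pos (by positivity : (0 : ℝ) < 4 * Real.pi)]
      exact (mul_le_mul_of_nonneg_left f4 (by positivity)).trans q4)
    (by
      rw [mul_comm]
      exact (mul_le_mul_of_nonneg_left f5 (by positivity)).trans q5)
    (f6.trans q6) ((D.abs_m a b hxa).trans q7)
  have hinv : 1 ≤ (ht x)⁻¹ := (one_le_inv₀ hs).mpr hs1
  refine (pow_le_pow_left₀ (norm_nonneg _) hbound 2).trans ?_
  exact le_mul_of_one_le_right (sq_nonneg _) hinv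

end Pool.Agent.TF.Col
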