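import Pool.Agent.Lib.MP_9cf0c9_mp.Col58H2

/-! Collinear nuclei: currents tangential to the level surfaces may be multiplied by a continuous
function of the level. -/

set_option autoImplicit false
set_option linter.unusedSectionVars false
set_option linter.unusedVariables false

namespace Pool.Agent.TF.Col
open MeasureTheory Set Metric Filter Topology
open scoped ENNReal NNReal RealInnerProductSpace Gradient
open Pool.Agent.TF.Grd

/-- a tangential field times a continuous function of the level, approximated uniformly by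
continuously differentiable functions -/
theorem WD.tang {u : X → ℝ} {u' : X → X} (hu : C1O u u') {T : X → X} {d : X → ℝ} (hT : WD T d)
    (h0 : ∀ x, x ∉ ax → ⟪T x, u' x⟫ = 0) {g : ℝ → ℝ} (hg : Continuous g)
    (happ : ∀ ε : ℝ, 0 < ε → ∃ F F' : ℝ → ℝ, (∀ t, HasDerivAt F (F' t) t) ∧ Continuous F' ∧
      ∀ t, |F t - g t| ≤ ε) :
    WD (fun x => g (u x) • T x) fun x => g (u x) * d x := by
  have hgu : ContinuousOn (fun x => g (u x)) axᶜ := hg.comp_continuousOn hu.cont0
  refine WD.of_tst (hgu.smul hT.contA) (hgu.mul hT.contd) fun η hη => ?_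
  set A := ∫ x, |⟪T x, ∇ η x⟫| with hA
  set B := ∫ x, |d x * η x| with hB
  have hA0 : 0 ≤ A := integral_nonneg fun x => abs_nonneg _
  have hB0 : 0 ≤ B := integral_nonneg fun x => abs_nonneg _
  have iA := hη.int_inner hT.contA
  have iB := hη.int_mul hT.contd
  have igA := hη.int_inner (A := fun x => g (u x) • T x) (hgu.smul hT.contA)
  have igB := hη.int_mul (d := fun x => g (u x) * d x) (hgu.mul hT.contd)
  have key : ∀ ε : ℝ, 0 < ε → |(∫ x, ⟪g (u x) • T x, ∇ η x⟫) + ∫ x, g (u x) * d x * η x| ≤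
      ε * (A + B) := by
    intro ε hε
    obtain ⟨F, F', hF, hF', hFg⟩ := happ ε hε
    have hFc : Continuous F := continuous_iff_continuousAt.mpr fun t => (hF t).continuousAt
    have hFu : ContinuousOn (fun x => F (u x)) axᶜ := hFc.comp_continuousOn hu.cont0
    have h1 : WD (fun x => F (u x) • T x) fun x => F (u x) * d x := by
      refine (hT.mul (hu.comp (F := F) (F' := F') (T := univ) (fun _ _ => mem_univ _)
        (fun t _ => hF t) hF'.continuousOn)).congr_div fun x hx => ?_
      rw [real_inner_smul_left, real_inner_comm, h0 x hx, mul_zero, zero_add]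
    have h2 := h1.tst hη
    have iFA := hη.int_inner h1.contA
    have iFB := hη.int_mul h1.contd
    have h3 : |(∫ x, ⟪g (u x) • T x, ∇ η x⟫) - ∫ x, ⟪F (u x) • T x, ∇ η x⟫| ≤ ε * A := by
      rw [← integral_sub igA iFA, hA, ← integral_const_mul]
      refine (abs_integral_le_integral_abs).trans ?_
      refine integral_mono (igA.sub iFA).abs (iA.abs.const_mul ε) fun x => ?_
      simp only [real_inner_smul_left]
      rw [← sub_mul, abs_mul, abs_sub_comm]
      exact mul_le_mul_of_nonneg_right (hFg _) (abs_nonneg _)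
    have h4 : |(∫ x, g (u x) * d x * η x) - ∫ x, F (u x) * d x * η x| ≤ ε * B := by
      rw [← integral_sub igB iFB, hB, ← integral_const_mul]
      refine (abs_integral_le_integral_abs).trans ?_
      refine integral_mono (igB.sub iFB).abs (iB.abs.const_mul ε) fun x => ?_
      simp only
      rw [show g (u x) * d x * η x - F (u x) * d x * η x = (g (u x) - F (u x)) * (d x * η x) by
        ring, abs_mul, abs_sub_comm]
      exact mul_le_mul_of_nonneg_right (hFg _) (abs_nonneg _)
    have e : (∫ x, ⟪g (u x) • T x, ∇ η x⟫) + ∫ x, g (u x) * d x * η x =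
        ((∫ x, ⟪g (u x) • T x, ∇ η x⟫) - ∫ x, ⟪F (u x) • T x, ∇ η x⟫) +
        ((∫ x, g (u x) * d x * η x) - ∫ x, F (u x) * d x * η x) := by
      rw [h2]; ring
    rw [e]
    refine (abs_add_le _ _).trans ?_
    linarith
  have h5 : |(∫ x, ⟪g (u x) • T x, ∇ η x⟫) + ∫ x, g (u x) * d x * η x| ≤ 0 := by
    refine le_of_forall_pos_le_add fun δ hδ => ?_
    have h6 := key (δ / (A + B + 1)) (by positivity)
    refine h6.trans ?_
    rw [zero_add, div_mul_eq_mul_div, div_le_iff₀ (by positivity)]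
    nlinarith
  have h6 := abs_nonpos_iff.mp h5
  linarith

/-- uniform approximation of `gam` -/
theorem gam_approx (ε : ℝ) (hε : 0 < ε) : ∃ F F' : ℝ → ℝ, (∀ t, HasDerivAt F (F' t) t) ∧
    Continuous F' ∧ ∀ t, |F t - gam t| ≤ ε := by
  set e := (ε / 2) ^ 2 with he
  have he0 : 0 < e := by positivity
  -- the square of the positive part
  have hq : ∀ t : ℝ, HasDerivAt (fun t : ℝ => max t 0 ^ 2) (2 * max t 0) t := by
    intro t
    rcases lt_trichotomy t 0 with ht | ht | ht
    · have h1 : (fun t : ℝ => max t 0 ^ 2) =ᶠ[𝓝 t] fun _ => 0 := by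
        filter_upwards [gt_mem_nhds ht] with s hs
        rw [max_eq_right hs.le]; norm_num
      rw [max_eq_right ht.le, mul_zero]
      exact (hasDerivAt_const t (0 : ℝ)).congr_of_eventuallyEq h1
    · subst ht
      rw [max_self, mul_zero]
      have h1 : (fun t : ℝ => max t 0 ^ 2) =O[𝓝 0] fun t : ℝ => ‖t - 0‖ ^ 2 := by
        refine Asymptotics.IsBigO.of_bound 1 (Eventually.of_forall fun t => ?_)
        rw [Real.norm_of_nonneg (by positivity), sub_zero, norm_pow, norm_norm, one_mul,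
          Real.norm_eq_abs]
        exact pow_le_pow_left₀ (le_max_right _ _) (max_le (le_abs_self t) (abs_nonneg t)) 2
      have h2 := h1.hasFDerivAt (𝕜 := ℝ) (n := 2) (by norm_num)
      exact (h2.hasDerivAt).congr_deriv (by simp)
    · have h1 : (fun t : ℝ => max t 0 ^ 2) =ᶠ[𝓝 t] fun t => t ^ 2 := by
        filter_upwards [lt_mem_nhds ht] with s hs
        rw [max_eq_left hs.le]
      rw [max_eq_left ht.le]
      exact ((hasDerivAt_pow 2 t).congr_of_eventuallyEq h1).congr_deriv (by ring)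
  have hpos : ∀ t : ℝ, 0 < max t 0 ^ 2 + e ^ 2 := fun t => by positivity
  have hd : ∀ t : ℝ, HasDerivAt (fun t : ℝ => 3 / 2 * √√(max t 0 ^ 2 + e ^ 2))
      (3 / 2 * (2 * max t 0 / (2 * √(max t 0 ^ 2 + e ^ 2)) /
        (2 * √√(max t 0 ^ 2 + e ^ 2)))) t := fun t => by
    have h1 := ((hq t).add_const (e ^ 2)).sqrt (hpos t).ne'
    exact (h1.sqrt (Real.sqrt_pos.mpr (hpos t)).ne').const_mul _
  refine ⟨_, _, hd, ?_, fun t => ?_⟩
  · have c1 : Continuous fun t : ℝ => √(max t 0 ^ 2 + e ^ 2) := by fun_prop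
    refine continuous_const.mul (((by fun_prop : Continuous fun t : ℝ => 2 * max t 0).div
      (by fun_prop) fun t => ?_).div (by fun_prop) fun t => ?_)
    · have := Real.sqrt_pos.mpr (hpos t)
      positivity
    · have := Real.sqrt_pos.mpr (Real.sqrt_pos.mpr (hpos t))
      positivity
  · unfold gam
    set m := max t 0 with hm
    have hm0 : 0 ≤ m := le_max_right _ _
    have h1 : m ≤ √(m ^ 2 + e ^ 2) := by
      refine Real.le_sqrt_of_sq_le ?_
      nlinarith
    have h2 : √(m ^ 2 + e ^ 2) ≤ m + e := by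
      rw [show m + e = √((m + e) ^ 2) from (Real.sqrt_sq (by positivity)).symm]
      exact Real.sqrt_le_sqrt (by nlinarith [mul_nonneg hm0 he0.le])
    have h3 : √m ≤ √√(m ^ 2 + e ^ 2) := Real.sqrt_le_sqrt h1
    have h4 : √√(m ^ 2 + e ^ 2) ≤ √m + √e := by
      refine (Real.sqrt_le_sqrt h2).trans ?_
      rw [Real.sqrt_le_left (by positivity)]
      nlinarith [Real.sq_sqrt hm0, Real.sq_sqrt he0.le, Real.sqrt_nonneg m, Real.sqrt_nonneg e]
    have h5 : √e = ε / 2 := by rw [he]; exact Real.sqrt_sq (by positivity)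
    rw [h5] at h4
    rw [abs_of_nonneg (by linarith)]
    linarith

/-- **tangential currents** -/
theorem Dat.tang {ι : Type*} [Fintype ι] {φ₀ : ℝ} {z : ι → ℝ} {R : ι → X} {ρ : X → ℝ}
    {H : X → X →L[ℝ] X} {lo hi : ℝ} (D : Dat φ₀ z R ρ H lo hi) {T : X → X} {d : X → ℝ}
    (hT : WD T d) (h0 : ∀ x, x ∉ Col.ax → ⟪T x, psi' z R ρ x⟫ = 0) :
    WD (fun x => gam (psi φ₀ z R ρ x) • T x) fun x => gam (psi φ₀ z R ρ x) * d x :=
  WD.tang D.c1_psi hT h0 gam_continuous' gam_approx

/-- **the transverse form** -/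
theorem Dat.wd_NH {ι : Type*} [Fintype ι] {φ₀ : ℝ} {z : ι → ℝ} {R : ι → X} {ρ : X → ℝ}
    {H : X → X →L[ℝ] X} {lo hi : ℝ} (D : Dat φ₀ z R ρ H lo hi) (a b : ℝ) :
    WD (NH φ₀ z R ρ H a b) fun x => Fd φ₀ z R ρ (YY z R ρ a b) (YY' z R ρ H a b) x -
      QH φ₀ z R ρ H a b x :=
  D.wd_NH_of a b fun T d hT h0 => D.tang hT h0

end Pool.Agent.TF.Col
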