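import Pool.Agent.Lib.MP_9cf0c9_mp.TC

/-! The representation formula of a Lipschitz function with compact support by its gradient
(weak form of the Poisson equation for a point charge), in dimension three. -/

set_option linter.unusedSectionVars false
set_option linter.unusedVariables false
set_option linter.style.haveILetI false

namespace Pool.Agent.TF
open MeasureTheory Set Metric Filter Topology
open scoped ENNReal NNReal RealInnerProductSpace Gradient

variable {V : Type*} [NormedAddCommGroup V] [InnerProductSpace ℝ V] [FiniteDimensional ℝ V]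
  [MeasurableSpace V] [BorelSpace V]

/-- a radius outside which a compactly supported function vanishes -/
theorem exists_radius {u : V → ℝ} (hc : HasCompactSupport u) :
    ∃ R : ℝ, 0 < R ∧ tsupport u ⊆ ball 0 R := by
  obtain ⟨R, hR⟩ := hc.isCompact.isBounded.subset_ball (0 : V)
  exact ⟨max R 1, by positivity, hR.trans (ball_subset_ball (le_max_left _ _))⟩

/-- integration by parts of a `C^1` function against a Lipschitz function -/
theorem ibp {a : V → ℝ} (ha : ContDiff ℝ 1 a) {u : V → ℝ} {C : ℝ≥0} (hu : LipschitzWith C u)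
    (hc : HasCompactSupport u) (e : V) :
    ∫ x, a x * lineDeriv ℝ u x e = -∫ x, fderiv ℝ a x e * u x := by
  obtain ⟨R, hR0, hR⟩ := exists_radius hc
  let χ : ContDiffBump (0 : V) := ⟨R, R + 1, hR0, by linarith⟩
  set b : V → ℝ := fun x => χ x * a x with hb
  have hbc : ContDiff ℝ 1 b := (χ.contDiff (n := 1)).mul ha
  have hbs : HasCompactSupport b := χ.hasCompactSupport.mul_right
  obtain ⟨D, hD⟩ := hbc.lipschitzWith_of_hasCompactSupport hbs (by simp)
  have h1 := hD.integral_lineDeriv_mul_eq (μ := (volume : Measure V)) hu hc e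
  have hnear : ∀ x ∈ tsupport u, b =ᶠ[𝓝 x] a := by
    intro x hx
    filter_upwards [isOpen_ball.mem_nhds (hR hx)] with y hy
    have : χ y = 1 := χ.one_of_mem_closedBall (ball_subset_closedBall hy)
    simp only [hb, this, one_mul]
  have h2 : ∫ x, fderiv ℝ a x e * u x = ∫ x, lineDeriv ℝ b x e * u x := by
    refine integral_congr_ae (Eventually.of_forall fun x => ?_)
    simp only
    by_cases hx : x ∈ tsupport u
    · rw [(hbc.differentiable (by simp) x).lineDeriv_eq_fderiv, (hnear x hx).fderiv_eq]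
    · rw [image_eq_zero_of_notMem_tsupport hx, mul_zero, mul_zero]
  have h3 : ∫ x, a x * lineDeriv ℝ u x e = -∫ x, lineDeriv ℝ u x (-e) * b x := by
    rw [← integral_neg]
    refine integral_congr_ae (Eventually.of_forall fun x => ?_)
    simp only
    by_cases hx : x ∈ tsupport u
    · rw [lineDeriv_neg, (hnear x hx).eq_of_nhds]; ring
    · have h0 : lineDeriv ℝ u x e = 0 := by
        have : u =ᶠ[𝓝 x] fun _ => 0 := by
          filter_upwards [(isClosed_tsupport u).isOpen_compl.mem_nhds hx] with y hy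
          exact image_eq_zero_of_notMem_tsupport hy
        rw [this.lineDeriv_eq]
        simp [lineDeriv]
      rw [lineDeriv_neg, h0]; ring
  rw [h3, h2, h1]

theorem inner_gradient (u : V → ℝ) (x e : V) : ⟪∇ u x, e⟫ = fderiv ℝ u x e := by
  rw [inner_gradient_left]

theorem measurable_gradient (u : V → ℝ) : Measurable (fun x => ∇ u x) := by
  have h : Measurable (fderiv ℝ u) := measurable_fderiv ℝ u
  exact (InnerProductSpace.toDual ℝ V).symm.continuous.measurable.comp h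

theorem norm_gradient (u : V → ℝ) (x : V) : ‖∇ u x‖ = ‖fderiv ℝ u x‖ := by
  unfold gradient
  rw [LinearIsometryEquiv.norm_map]

theorem gradient_bound {u : V → ℝ} {C : ℝ≥0} (hu : LipschitzWith C u) (x : V) : ‖∇ u x‖ ≤ C := by
  rw [norm_gradient]
  exact norm_fderiv_le_of_lipschitz ℝ hu

theorem gradient_zero_of_notMem {u : V → ℝ} {x : V} (hx : x ∉ tsupport u) : ∇ u x = 0 := by
  have h : u =ᶠ[𝓝 x] fun _ => 0 := by
    filter_upwards [(isClosed_tsupport u).isOpen_compl.mem_nhds hx] with y hy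
    exact image_eq_zero_of_notMem_tsupport hy
  rw [h.gradient_eq]
  simp [gradient]

theorem lineDeriv_ae {u : V → ℝ} {C : ℝ≥0} (hu : LipschitzWith C u) :
    ∀ᵐ x : V, ∀ e : V, lineDeriv ℝ u x e = ⟪∇ u x, e⟫ := by
  filter_upwards [hu.ae_differentiableAt] with x hx e
  rw [hx.lineDeriv_eq_fderiv, inner_gradient]

theorem hasDerivAt_phi {t : ℝ} (ht : 0 < t) :
    HasDerivAt (fun t : ℝ => (√t ^ 3)⁻¹) (-(3 / 2) * (√t ^ 5)⁻¹) t := by
  have h1 : HasDerivAt (fun t : ℝ => √t) (1 / (2 * √t)) t := Real.hasDerivAt_sqrt ht.ne'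
  have h2 := (h1.fun_pow 3).fun_inv (pow_ne_zero 3 (Real.sqrt_pos.mpr ht).ne')
  refine h2.congr_deriv ?_
  have : 0 < √t := Real.sqrt_pos.mpr ht
  field_simp
  norm_num
  ring

theorem hasFDerivAt_ke {ε : ℝ} (hε : 0 < ε) (x : V) :
    HasFDerivAt (fun x : V => (√(‖x‖ ^ 2 + ε ^ 2) ^ 3)⁻¹)
      ((-(3 / 2) * (√(‖x‖ ^ 2 + ε ^ 2) ^ 5)⁻¹) • ((2 : ℝ) • innerSL ℝ x)) x := by
  have hq : HasFDerivAt (fun x : V => ‖x‖ ^ 2 + ε ^ 2) ((2 : ℝ) • innerSL ℝ x) x := by
    have := (hasStrictFDerivAt_norm_sq x).hasFDerivAt.add_const (ε ^ 2)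
    refine this.congr_fderiv ?_
    ext y
    simp
  have h0 : 0 < ‖x‖ ^ 2 + ε ^ 2 := by positivity
  exact HasDerivAt.comp_hasFDerivAt (h₂ := fun t : ℝ => (√t ^ 3)⁻¹) x (hasDerivAt_phi h0) hq

theorem contDiff_ke {ε : ℝ} (hε : 0 < ε) :
    ContDiff ℝ 1 (fun x : V => (√(‖x‖ ^ 2 + ε ^ 2) ^ 3)⁻¹) := by
  have h1 : ContDiff ℝ 1 (fun x : V => ‖x‖ ^ 2 + ε ^ 2) := (contDiff_norm_sq ℝ).add contDiff_const
  have h2 : ContDiff ℝ 1 (fun x : V => √(‖x‖ ^ 2 + ε ^ 2)) :=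
    h1.sqrt fun x => by positivity
  refine (h2.pow 3).inv fun x => ?_
  have : 0 < √(‖x‖ ^ 2 + ε ^ 2) := Real.sqrt_pos.mpr (by positivity)
  positivity

theorem bdd_ibp_integrable {a : V → ℝ} (ha : Continuous a) {u : V → ℝ} {C : ℝ≥0}
    (hu : LipschitzWith C u) (hc : HasCompactSupport u) (e : V) :
    Integrable (fun x => a x * ⟪∇ u x, e⟫) := by
  obtain ⟨R, hR0, hR⟩ := exists_radius hc
  obtain ⟨M, hM⟩ := (isCompact_closedBall (0 : V) R).exists_bound_of_continuousOn ha.continuousOn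
  have hm : Measurable (fun x => a x * ⟪∇ u x, e⟫) :=
    ha.measurable.mul ((measurable_gradient u).inner measurable_const)
  have hM0 : 0 ≤ M := (norm_nonneg _).trans (hM 0 (by simp [hR0.le]))
  have hbc : BC (fun x => a x * ⟪∇ u x, e⟫) := by
    refine ⟨hm, ⟨M * (C * ‖e‖), fun x => ?_⟩, ⟨R, fun x hx => ?_⟩⟩
    · by_cases hx : x ∈ tsupport u
      · rw [abs_mul]
        refine mul_le_mul (hM x (ball_subset_closedBall (hR hx))) ?_ (abs_nonneg _) hM0
        exact (abs_real_inner_le_norm _ _).trans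
          (mul_le_mul_of_nonneg_right (gradient_bound hu x) (norm_nonneg _))
      · rw [gradient_zero_of_notMem hx, inner_zero_left, mul_zero, abs_zero]
        positivity
    · have hx' : x ∉ tsupport u := fun h => by
        have := hR h
        rw [mem_ball_zero_iff] at this
        linarith
      rw [gradient_zero_of_notMem hx', inner_zero_left, mul_zero]
  exact hbc.integrable

section dim3
variable [hd : Fact (Module.finrank ℝ V = 3)]

theorem div_rep {ε : ℝ} (hε : 0 < ε) {u : V → ℝ} {C : ℝ≥0} (hu : LipschitzWith C u)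
    (hc : HasCompactSupport u) :
    ∫ x, (√(‖x‖ ^ 2 + ε ^ 2) ^ 3)⁻¹ * ⟪x, ∇ u x⟫ =
      -∫ x, 3 * ε ^ 2 * (√(‖x‖ ^ 2 + ε ^ 2) ^ 5)⁻¹ * u x := by
  set b := stdOrthonormalBasis ℝ V with hb
  set k : V → ℝ := fun x => (√(‖x‖ ^ 2 + ε ^ 2) ^ 3)⁻¹ with hk
  set k5 : V → ℝ := fun x => (√(‖x‖ ^ 2 + ε ^ 2) ^ 5)⁻¹ with hk5
  have hkc : ContDiff ℝ 1 k := contDiff_ke hε
  have hk5c : Continuous k5 := by
    rw [hk5]
    have h2 : Continuous (fun x : V => √(‖x‖ ^ 2 + ε ^ 2) ^ 5) := by fun_prop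
    refine h2.inv₀ fun x => ?_
    have : 0 < √(‖x‖ ^ 2 + ε ^ 2) := Real.sqrt_pos.mpr (by positivity)
    positivity
  have ha : ∀ i, ContDiff ℝ 1 (fun x : V => k x * ⟪b i, x⟫) := fun i =>
    hkc.mul (contDiff_const.inner ℝ contDiff_id)
  have hda : ∀ i x, fderiv ℝ (fun x : V => k x * ⟪b i, x⟫) x (b i) =
      k x - 3 * k5 x * ⟪b i, x⟫ ^ 2 := by
    intro i x
    have h1 : HasFDerivAt (fun x : V => ⟪b i, x⟫) (innerSL ℝ (b i)) x := (innerSL ℝ (b i)).hasFDerivAt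
    have h2 := (hasFDerivAt_ke hε x).mul h1
    have h3 : HasFDerivAt (fun x : V => k x * ⟪b i, x⟫) _ x := h2
    rw [h3.fderiv]
    simp only [add_apply, smul_apply, smul_eq_mul,
      innerSL_apply_apply, real_inner_self_eq_norm_sq, b.norm_eq_one]
    rw [real_inner_comm (b i) x]
    simp only [hk, hk5]
    ring
  have hi : ∀ i, ∫ x, (k x * ⟪b i, x⟫) * ⟪∇ u x, b i⟫ =
      -∫ x, (k x - 3 * k5 x * ⟪b i, x⟫ ^ 2) * u x := by
    intro i
    have h := ibp (ha i) hu hc (b i)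
    rw [integral_congr_ae (g := fun x => (k x * ⟪b i, x⟫) * ⟪∇ u x, b i⟫)] at h
    · rw [h]
      congr 1
      refine integral_congr_ae (Eventually.of_forall fun x => ?_)
      simp only
      rw [hda]
    · filter_upwards [lineDeriv_ae hu] with x hx
      rw [hx]
  have hint1 : ∀ i ∈ (Finset.univ : Finset _), Integrable (fun x => (k x * ⟪b i, x⟫) * ⟪∇ u x, b i⟫) :=
    fun i _ => bdd_ibp_integrable (hkc.continuous.mul (by fun_prop)) hu hc (b i)
  have hint2 : ∀ i ∈ (Finset.univ : Finset _),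
      Integrable (fun x => (k x - 3 * k5 x * ⟪b i, x⟫ ^ 2) * u x) := by
    intro i _
    refine Continuous.integrable_of_hasCompactSupport ?_ hc.mul_left
    have h2 : Continuous fun x : V => ⟪b i, x⟫ := by fun_prop
    exact (hkc.continuous.sub ((continuous_const.mul hk5c).mul (h2.pow 2))).mul hu.continuous
  have hs1 : ∀ x : V, ∑ i, (k x * ⟪b i, x⟫) * ⟪∇ u x, b i⟫ = k x * ⟪x, ∇ u x⟫ := by
    intro x
    have h := b.sum_inner_mul_inner x (∇ u x)
    rw [← h, Finset.mul_sum]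
    refine Finset.sum_congr rfl fun i _ => ?_
    rw [real_inner_comm (b i) x, real_inner_comm (∇ u x) (b i)]
    ring
  have hs2 : ∀ x : V, ∑ i, (k x - 3 * k5 x * ⟪b i, x⟫ ^ 2) * u x = 3 * ε ^ 2 * k5 x * u x := by
    intro x
    rw [← Finset.sum_mul, Finset.sum_sub_distrib, ← Finset.mul_sum]
    have h1 : ∑ i, ⟪b i, x⟫ ^ 2 = ‖x‖ ^ 2 := by
      have h := b.sum_inner_mul_inner x x
      rw [real_inner_self_eq_norm_sq] at h
      rw [← h]
      refine Finset.sum_congr rfl fun i _ => ?_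
      rw [real_inner_comm (b i) x]; ring
    rw [h1]
    have hcard : (Fintype.card (Fin (Module.finrank ℝ V)) : ℝ) = 3 := by
      rw [Fintype.card_fin, hd.out]; norm_num
    simp only [Finset.sum_const, Finset.card_univ, nsmul_eq_mul, hcard]
    have hs : 0 < √(‖x‖ ^ 2 + ε ^ 2) := Real.sqrt_pos.mpr (by positivity)
    have hs2 : √(‖x‖ ^ 2 + ε ^ 2) ^ 2 = ‖x‖ ^ 2 + ε ^ 2 := Real.sq_sqrt (by positivity)
    have e1 : k x = k5 x * (‖x‖ ^ 2 + ε ^ 2) := by
      simp only [hk, hk5]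
      nth_rewrite 3 [← hs2]
      generalize √(‖x‖ ^ 2 + ε ^ 2) = s at hs
      field_simp
    rw [e1]; ring
  calc ∫ x, k x * ⟪x, ∇ u x⟫ = ∫ x, ∑ i, (k x * ⟪b i, x⟫) * ⟪∇ u x, b i⟫ := by
        refine integral_congr_ae (Eventually.of_forall fun x => ?_)
        simp only
        rw [hs1]
    _ = ∑ i, ∫ x, (k x * ⟪b i, x⟫) * ⟪∇ u x, b i⟫ := integral_finsetSum _ hint1
    _ = ∑ i, -∫ x, (k x - 3 * k5 x * ⟪b i, x⟫ ^ 2) * u x := Finset.sum_congr rfl fun i _ => hi i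
    _ = -∫ x, ∑ i, (k x - 3 * k5 x * ⟪b i, x⟫ ^ 2) * u x := by
        rw [Finset.sum_neg_distrib, integral_finsetSum _ hint2]
    _ = _ := by
        congr 1
        refine integral_congr_ae (Eventually.of_forall fun x => ?_)
        simp only
        rw [hs2]

variable (V) in
theorem vol_ball1 : volume.real (ball (0 : V) 1) = 4 / 3 * Real.pi := by
  haveI := nontriv (V := V)
  have h := InnerProductSpace.volume_ball_of_dim_odd (E := V) (k := 1) (by rw [hd.out]) 0 1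
  rw [Measure.real, h, hd.out]
  rw [ENNReal.toReal_mul, ENNReal.toReal_pow, ENNReal.toReal_ofReal zero_le_one,
    ENNReal.toReal_ofReal (by positivity)]
  norm_num [Nat.doubleFactorial]
  ring

theorem k5_radial : IntegrableOn (fun r : ℝ => r ^ 2 * (3 * (√(r ^ 2 + 1) ^ 5)⁻¹)) (Ioi 0) ∧
    ∫ r in Ioi (0 : ℝ), r ^ 2 * (3 * (√(r ^ 2 + 1) ^ 5)⁻¹) = 1 := by
  set F : ℝ → ℝ := fun r => (r * (√(r ^ 2 + 1))⁻¹) ^ 3 with hF
  have hpos : ∀ r : ℝ, 0 < √(r ^ 2 + 1) := fun r => Real.sqrt_pos.mpr (by positivity)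
  have hsq : ∀ r : ℝ, √(r ^ 2 + 1) ^ 2 = r ^ 2 + 1 := fun r => Real.sq_sqrt (by positivity)
  have hder : ∀ r ∈ Ici (0 : ℝ), HasDerivAt F (r ^ 2 * (3 * (√(r ^ 2 + 1) ^ 5)⁻¹)) r := by
    intro r _
    have h1 : HasDerivAt (fun r : ℝ => r ^ 2 + 1) (2 * r) r := by
      have := (hasDerivAt_pow 2 r).add_const 1
      simpa using this
    have h2 : HasDerivAt (fun r : ℝ => √(r ^ 2 + 1)) ((2 * r) / (2 * √(r ^ 2 + 1))) r :=
      h1.sqrt (by positivity)
    have h3 := ((hasDerivAt_id r).fun_mul (h2.fun_inv (hpos r).ne')).fun_pow 3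
    refine h3.congr_deriv ?_
    have hp := hpos r
    have hs := hsq r
    have e1 : (1 : ℝ) * (√(r ^ 2 + 1))⁻¹ + id r * (-((2 * r) / (2 * √(r ^ 2 + 1))) / √(r ^ 2 + 1) ^ 2) =
        (√(r ^ 2 + 1) ^ 3)⁻¹ := by
      simp only [id]
      generalize √(r ^ 2 + 1) = s at hp hs
      field_simp
      rw [hs]; ring
    rw [e1]
    simp only [id]
    generalize √(r ^ 2 + 1) = s at hp hs
    field_simp
    norm_num
    field_simp
  have hnn : ∀ r ∈ Ioi (0 : ℝ), 0 ≤ r ^ 2 * (3 * (√(r ^ 2 + 1) ^ 5)⁻¹) := fun r _ => by positivity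
  have hlim : Tendsto F atTop (𝓝 1) := by
    have h1 : Tendsto (fun r : ℝ => r * (√(r ^ 2 + 1))⁻¹) atTop (𝓝 1) := by
      have h2 : ∀ᶠ r : ℝ in atTop, r * (√(r ^ 2 + 1))⁻¹ = (√(1 + (r ^ 2)⁻¹))⁻¹ := by
        filter_upwards [eventually_gt_atTop 0] with r hr
        have e1 : r ^ 2 + 1 = r ^ 2 * (1 + (r ^ 2)⁻¹) := by field_simp
        rw [e1, Real.sqrt_mul (by positivity), Real.sqrt_sq hr.le, mul_inv, ← mul_assoc,
          mul_inv_cancel₀ hr.ne', one_mul]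
      refine Tendsto.congr' (h2.mono fun r h => h.symm) ?_
      have h3 : Tendsto (fun r : ℝ => (r ^ 2)⁻¹) atTop (𝓝 0) :=
        (tendsto_pow_atTop two_ne_zero).inv_tendsto_atTop
      have h4 : Tendsto (fun r : ℝ => √(1 + (r ^ 2)⁻¹)) atTop (𝓝 √(1 + 0)) :=
        (Real.continuous_sqrt.tendsto _).comp (h3.const_add 1)
      have h5 := h4.inv₀ (by norm_num)
      simpa using h5
    have := h1.pow 3
    simpa using this
  refine ⟨integrableOn_Ioi_deriv_of_nonneg' hder hnn hlim, ?_⟩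
  rw [integral_Ioi_of_hasDerivAt_of_nonneg' hder hnn hlim]
  simp [hF]

variable (V) in
theorem k5_integrable : Integrable (fun w : V => 3 * (√(‖w‖ ^ 2 + 1) ^ 5)⁻¹) := by
  haveI := nontriv (V := V)
  rw [integrable_fun_norm_addHaar (volume : Measure V) (f := fun r : ℝ => 3 * (√(r ^ 2 + 1) ^ 5)⁻¹),
    hd.out]
  exact k5_radial.1

variable (V) in
theorem k5_integral : ∫ w : V, 3 * (√(‖w‖ ^ 2 + 1) ^ 5)⁻¹ = 4 * Real.pi := by
  haveI := nontriv (V := V)
  rw [integral_fun_norm_addHaar (volume : Measure V) (fun r : ℝ => 3 * (√(r ^ 2 + 1) ^ 5)⁻¹),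
    hd.out, vol_ball1]
  have := k5_radial.2
  simp only [smul_eq_mul, nsmul_eq_mul]
  have e : ∫ y in Ioi (0 : ℝ), y ^ (3 - 1) * (3 * (√(y ^ 2 + 1) ^ 5)⁻¹) = 1 := this
  rw [e]
  push_cast
  ring

theorem rhs_scale {ε : ℝ} (hε : 0 < ε) (u : V → ℝ) :
    ∫ x, 3 * ε ^ 2 * (√(‖x‖ ^ 2 + ε ^ 2) ^ 5)⁻¹ * u x =
      ∫ w, 3 * (√(‖w‖ ^ 2 + 1) ^ 5)⁻¹ * u (ε • w) := by
  have h := Measure.integral_comp_smul (volume : Measure V)
    (fun x => 3 * ε ^ 2 * (√(‖x‖ ^ 2 + ε ^ 2) ^ 5)⁻¹ * u x) ε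
  rw [hd.out, abs_of_pos (by positivity : (0 : ℝ) < (ε ^ 3)⁻¹)] at h
  have h2 : ∫ x, 3 * ε ^ 2 * (√(‖x‖ ^ 2 + ε ^ 2) ^ 5)⁻¹ * u x =
      ε ^ 3 * ∫ w, 3 * ε ^ 2 * (√(‖ε • w‖ ^ 2 + ε ^ 2) ^ 5)⁻¹ * u (ε • w) := by
    rw [h, smul_eq_mul, ← mul_assoc, mul_inv_cancel₀ (by positivity), one_mul]
  rw [h2, ← integral_const_mul]
  refine integral_congr_ae (Eventually.of_forall fun w => ?_)
  simp only
  have e1 : √(‖ε • w‖ ^ 2 + ε ^ 2) = ε * √(‖w‖ ^ 2 + 1) := by
    rw [norm_smul, Real.norm_of_nonneg hε.le, mul_pow]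
    rw [show ε ^ 2 * ‖w‖ ^ 2 + ε ^ 2 = ε ^ 2 * (‖w‖ ^ 2 + 1) by ring,
      Real.sqrt_mul (by positivity), Real.sqrt_sq hε.le]
  rw [e1]
  have hp : 0 < √(‖w‖ ^ 2 + 1) := Real.sqrt_pos.mpr (by positivity)
  generalize √(‖w‖ ^ 2 + 1) = s at hp
  field_simp

theorem kern_le {ε : ℝ} (x : V) (g : V) :
    |(√(‖x‖ ^ 2 + ε ^ 2) ^ 3)⁻¹ * ⟪x, g⟫| ≤ (‖x‖ ^ 2)⁻¹ * ‖g‖ := by
  by_cases hx : x = 0
  · subst hx; simp
  have hn : 0 < ‖x‖ := norm_pos_iff.mpr hx
  have h1 : ‖x‖ ≤ √(‖x‖ ^ 2 + ε ^ 2) := by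
    rw [← Real.sqrt_sq hn.le]
    refine Real.sqrt_le_sqrt ?_
    rw [Real.sqrt_sq hn.le]
    nlinarith [sq_nonneg ε]
  rw [abs_mul, abs_of_nonneg (by positivity)]
  calc (√(‖x‖ ^ 2 + ε ^ 2) ^ 3)⁻¹ * |⟪x, g⟫| ≤ (‖x‖ ^ 3)⁻¹ * (‖x‖ * ‖g‖) := by
        refine mul_le_mul ?_ (abs_real_inner_le_norm _ _) (abs_nonneg _) (by positivity)
        exact inv_anti₀ (by positivity) (pow_le_pow_left₀ hn.le h1 3)
    _ = _ := by field_simp

theorem rep_dom_integrable {u : V → ℝ} {C : ℝ≥0} (hu : LipschitzWith C u)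
    (hc : HasCompactSupport u) : Integrable (fun x => (‖x‖ ^ 2)⁻¹ * ‖∇ u x‖) := by
  obtain ⟨R, hR0, hR⟩ := exists_radius hc
  have h1 : Integrable ((ball (0 : V) R).indicator fun x => (‖x‖ ^ 2)⁻¹ * (C : ℝ)) := by
    rw [integrable_indicator_iff measurableSet_ball]
    exact (integrableOn_inv_sq R).mul_const _
  refine h1.mono' ?_ (Eventually.of_forall fun x => ?_)
  · exact ((measurable_norm.pow_const 2).inv.mul (measurable_gradient u).norm).aestronglyMeasurable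
  · rw [Real.norm_of_nonneg (by positivity)]
    by_cases hx : x ∈ tsupport u
    · rw [indicator_of_mem (hR hx)]
      exact mul_le_mul_of_nonneg_left (gradient_bound hu x) (by positivity)
    · rw [gradient_zero_of_notMem hx, norm_zero, mul_zero]
      exact indicator_nonneg (fun _ _ => by positivity) _

theorem inner_meas (u : V → ℝ) (ε : ℝ) :
    Measurable (fun x : V => (√(‖x‖ ^ 2 + ε ^ 2) ^ 3)⁻¹ * ⟪x, ∇ u x⟫) := by
  have h1 : Measurable (fun x : V => (√(‖x‖ ^ 2 + ε ^ 2) ^ 3)⁻¹) := by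
    have : Continuous (fun x : V => √(‖x‖ ^ 2 + ε ^ 2) ^ 3) := by fun_prop
    exact this.measurable.inv
  exact h1.mul (measurable_id.inner (measurable_gradient u))

theorem rep_zero {u : V → ℝ} {C : ℝ≥0} (hu : LipschitzWith C u)
    (hc : HasCompactSupport u) :
    ∫ x, (‖x‖ ^ 3)⁻¹ * ⟪x, ∇ u x⟫ = -(4 * Real.pi * u 0) := by
  haveI := nontriv (V := V)
  set e : ℕ → ℝ := fun n => 1 / ((n : ℝ) + 1) with he
  have he0 : ∀ n, 0 < e n := fun n => by positivity
  have hel : Tendsto e atTop (𝓝 0) := tendsto_one_div_add_atTop_nhds_zero_nat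
  have hL : Tendsto (fun n => ∫ x, (√(‖x‖ ^ 2 + e n ^ 2) ^ 3)⁻¹ * ⟪x, ∇ u x⟫) atTop
      (𝓝 (∫ x, (‖x‖ ^ 3)⁻¹ * ⟪x, ∇ u x⟫)) := by
    refine tendsto_integral_of_dominated_convergence (fun x => (‖x‖ ^ 2)⁻¹ * ‖∇ u x‖)
      (fun n => (inner_meas u (e n)).aestronglyMeasurable) (rep_dom_integrable hu hc)
      (fun n => Eventually.of_forall fun x => ?_) ?_
    · exact kern_le x _
    · have hne : ∀ᵐ x : V, x ≠ 0 := by rw [ae_iff]; simp
      filter_upwards [hne] with x hx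
      have hn : 0 < ‖x‖ := norm_pos_iff.mpr hx
      refine Tendsto.mul_const _ ?_
      have h1 : Tendsto (fun n => √(‖x‖ ^ 2 + e n ^ 2) ^ 3) atTop (𝓝 (√(‖x‖ ^ 2 + 0 ^ 2) ^ 3)) :=
        (((Real.continuous_sqrt.tendsto _).comp ((hel.pow 2).const_add _))).pow 3
      have e1 : √(‖x‖ ^ 2 + 0 ^ 2) = ‖x‖ := by
        rw [zero_pow two_ne_zero, add_zero, Real.sqrt_sq hn.le]
      rw [e1] at h1
      exact h1.inv₀ (by positivity)
  have hR : Tendsto (fun n => ∫ w : V, 3 * (√(‖w‖ ^ 2 + 1) ^ 5)⁻¹ * u (e n • w)) atTop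
      (𝓝 (∫ w : V, 3 * (√(‖w‖ ^ 2 + 1) ^ 5)⁻¹ * u 0)) := by
    obtain ⟨M, hM⟩ := hc.exists_bound_of_continuous hu.continuous
    refine tendsto_integral_of_dominated_convergence
      (fun w => 3 * (√(‖w‖ ^ 2 + 1) ^ 5)⁻¹ * M) (fun n => ?_)
      ((k5_integrable V).mul_const M) (fun n => Eventually.of_forall fun w => ?_)
      (Eventually.of_forall fun w => ?_)
    · have h1 : Measurable (fun w : V => 3 * (√(‖w‖ ^ 2 + 1) ^ 5)⁻¹) := by
        have : Continuous (fun x : V => √(‖x‖ ^ 2 + 1) ^ 5) := by fun_prop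
        exact measurable_const.mul this.measurable.inv
      exact (h1.mul (hu.continuous.comp (continuous_const_smul (e n))).measurable).aestronglyMeasurable
    · rw [norm_mul, Real.norm_of_nonneg (by positivity)]
      exact mul_le_mul_of_nonneg_left (hM _) (by positivity)
    · refine Tendsto.const_mul _ ?_
      have h1 : Tendsto (fun n => e n • w) atTop (𝓝 ((0 : ℝ) • w)) := hel.smul_const w
      rw [zero_smul] at h1
      exact (hu.continuous.tendsto 0).comp h1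
  have hR2 := hR.neg
  have heq : ∀ n, ∫ x, (√(‖x‖ ^ 2 + e n ^ 2) ^ 3)⁻¹ * ⟪x, ∇ u x⟫ =
      -∫ w : V, 3 * (√(‖w‖ ^ 2 + 1) ^ 5)⁻¹ * u (e n • w) := fun n => by
    rw [div_rep (he0 n) hu hc, rhs_scale (he0 n)]
  simp_rw [heq] at hL
  rw [tendsto_nhds_unique hL hR2, integral_mul_const, k5_integral]

/-- the representation formula -/
theorem rep {u : V → ℝ} {C : ℝ≥0} (hu : LipschitzWith C u) (hc : HasCompactSupport u) (y : V) :
    ∫ x, (‖x - y‖ ^ 3)⁻¹ * ⟪x - y, ∇ u x⟫ = -(4 * Real.pi * u y) := by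
  set v : V → ℝ := fun x => u (x + y) with hv
  have hvl : LipschitzWith C v := by
    have h2 : LipschitzWith 1 (fun x : V => x + y) := (isometry_add_right y).lipschitz
    have := hu.comp h2
    rwa [mul_one] at this
  have hvc : HasCompactSupport v := hc.comp_homeomorph (Homeomorph.addRight y)
  have h := rep_zero hvl hvc
  have hg : ∀ x, ∇ v x = ∇ u (x + y) := by
    intro x
    unfold gradient
    rw [hv, fderiv_comp_add_right]
  simp_rw [hg] at h
  rw [← integral_add_right_eq_self (fun x => (‖x - y‖ ^ 3)⁻¹ * ⟪x - y, ∇ u x⟫) y]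
  simp only [add_sub_cancel_right]
  rw [h, hv]
  simp

end dim3

end Pool.Agent.TF
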