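import Pool.Agent.Lib.MP_9cf0c9_mp.Radial
import Pool.Agent.Lib.MP_9cf0c9_mp.WeakRep

/-! Passage to the limit in a flux inequality: cut-offs at the nuclei and at infinity.
A vector field `J` and an integrable function `F` with `0 ≤ ∫ ζ F + ∫ ⟪J, ∇ζ⟫` for every test
function `ζ ≥ 0` vanishing near the nuclei satisfy `0 ≤ ∫ F + ∑ c i`, where `c i` bounds the
flux of `J` out of the nucleus `i`, if the flux at infinity is not negative. -/

set_option autoImplicit false
set_option linter.unusedSectionVars false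
set_option linter.unusedVariables false
set_option linter.style.haveILetI false

namespace Pool.Agent.TF.Flux
open MeasureTheory Set Metric Filter Topology
open scoped ENNReal NNReal RealInnerProductSpace Gradient

variable {V : Type*} [NormedAddCommGroup V] [InnerProductSpace ℝ V] [FiniteDimensional ℝ V]
  [MeasurableSpace V] [BorelSpace V]
variable {ι : Type*} [Fintype ι]

/-- one for `t ≤ ε`, zero for `t ≥ 2 ε` -/
noncomputable def cut (ε t : ℝ) : ℝ := max 0 (min 1 (2 - t / ε))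

theorem cut_nonneg (ε t : ℝ) : 0 ≤ cut ε t := le_max_left _ _

theorem cut_le_one (ε t : ℝ) : cut ε t ≤ 1 := max_le zero_le_one (min_le_left _ _)

theorem cut_one {ε t : ℝ} (hε : 0 < ε) (h : t ≤ ε) : cut ε t = 1 := by
  have : t / ε ≤ 1 := (div_le_one hε).2 h
  unfold cut
  rw [min_eq_left (by linarith), max_eq_right zero_le_one]

theorem cut_zero {ε t : ℝ} (hε : 0 < ε) (h : 2 * ε ≤ t) : cut ε t = 0 := by
  have : 2 ≤ t / ε := (le_div_iff₀ hε).2 h
  unfold cut
  rw [max_eq_left]
  exact (min_le_right _ _).trans (by linarith)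

theorem cut_mid {ε t : ℝ} (hε : 0 < ε) (h1 : ε ≤ t) (h2 : t ≤ 2 * ε) : cut ε t = 2 - t / ε := by
  have h3 : 1 ≤ t / ε := (le_div_iff₀ hε).2 (by linarith)
  have h4 : t / ε ≤ 2 := (div_le_iff₀ hε).2 (by linarith)
  unfold cut
  rw [min_eq_right (by linarith), max_eq_right (by linarith)]

theorem cut_lip {ε : ℝ} (hε : 0 < ε) : LipschitzWith ⟨ε⁻¹, by positivity⟩ (cut ε) := by
  have h1 : LipschitzWith ⟨ε⁻¹, by positivity⟩ (fun t : ℝ => 2 - t / ε) := by
    refine LipschitzWith.of_dist_le_mul fun s t => ?_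
    rw [Real.dist_eq, Real.dist_eq, show 2 - s / ε - (2 - t / ε) = -(ε⁻¹ * (s - t)) by
      field_simp; ring, abs_neg, abs_mul, abs_of_pos (inv_pos.2 hε)]
    rfl
  exact (h1.const_min 1).const_max 0

/-- gradient of the cut-off, off two spheres -/
noncomputable def gcut (ε : ℝ) (y : V) : V :=
  (Ioo ε (2 * ε)).indicator (fun _ => -ε⁻¹) ‖y‖ • (‖y‖⁻¹ • y)

theorem hasGradient_norm {y : V} (hy : y ≠ 0) :
    HasGradientAt (fun y : V => ‖y‖) (‖y‖⁻¹ • y) y := by
  have h := (hasStrictFDerivAt_norm_sq y).hasFDerivAt.sqrt (by positivity)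
  have e : (fun y : V => √(‖y‖ ^ 2)) = fun y => ‖y‖ := by
    funext z; exact Real.sqrt_sq (norm_nonneg z)
  rw [e] at h
  rw [hasGradientAt_iff_hasFDerivAt]
  refine h.congr_fderiv ?_
  ext v
  simp only [_root_.smul_apply, innerSL_apply_apply, InnerProductSpace.toDual_apply_apply,
    inner_smul_left, Real.sqrt_sq (norm_nonneg y), smul_eq_mul]
  simp
  field_simp

theorem hasGradient_cut {ε : ℝ} (hε : 0 < ε) {y : V} (h1 : ‖y‖ ≠ ε) (h2 : ‖y‖ ≠ 2 * ε) :
    HasGradientAt (fun y : V => cut ε ‖y‖) (gcut ε y) y := by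
  have hc : Continuous fun y : V => ‖y‖ := continuous_norm
  rcases lt_or_gt_of_ne h1 with h | h
  · have e : (fun y : V => cut ε ‖y‖) =ᶠ[𝓝 y] fun _ => 1 := by
      filter_upwards [(isOpen_lt hc continuous_const).mem_nhds h] with z hz
      exact cut_one hε (le_of_lt hz)
    have e2 : gcut ε y = 0 := by
      unfold gcut
      rw [indicator_of_notMem (by intro hh; exact absurd hh.1 (not_lt.2 h.le)), zero_smul]
    rw [e2]
    exact (hasGradientAt_const y (1 : ℝ)).congr_of_eventuallyEq e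
  · rcases lt_or_gt_of_ne h2 with h' | h'
    · have e : (fun y : V => cut ε ‖y‖) =ᶠ[𝓝 y] fun z => 2 - ‖z‖ / ε := by
        filter_upwards [(isOpen_lt hc continuous_const).mem_nhds h',
          (isOpen_lt continuous_const hc).mem_nhds h] with z hz hz'
        exact cut_mid hε (le_of_lt hz') (le_of_lt hz)
      have e2 : gcut ε y = (-ε⁻¹) • (‖y‖⁻¹ • y) := by
        unfold gcut
        rw [indicator_of_mem (show ‖y‖ ∈ Ioo ε (2 * ε) from ⟨h, h'⟩)]
      have hy : y ≠ 0 := by
        intro h0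
        rw [h0, norm_zero] at h
        exact absurd h (not_lt.2 hε.le)
      rw [e2]
      refine HasGradientAt.congr_of_eventuallyEq ?_ e
      have h3 := hasGradient_norm hy
      rw [hasGradientAt_iff_hasFDerivAt] at h3 ⊢
      have h4 := (h3.const_mul ε⁻¹).const_sub 2
      have e3 : (fun z : V => 2 - ‖z‖ / ε) = fun z => 2 - ε⁻¹ * ‖z‖ := by
        funext z; rw [div_eq_inv_mul]
      rw [e3]
      refine h4.congr_fderiv ?_
      rw [neg_smul, map_neg, map_smul, map_smul, map_smul]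
    · have e : (fun y : V => cut ε ‖y‖) =ᶠ[𝓝 y] fun _ => 0 := by
        filter_upwards [(isOpen_lt continuous_const hc).mem_nhds h'] with z hz
        exact cut_zero hε (le_of_lt hz)
      have e2 : gcut ε y = 0 := by
        unfold gcut
        rw [indicator_of_notMem (by intro hh; exact absurd hh.2 (not_lt.2 h'.le)), zero_smul]
      rw [e2]
      exact (hasGradientAt_const y (0 : ℝ)).congr_of_eventuallyEq e

/-- test functions: Lipschitz, compact support, nonnegative, zero near the nuclei -/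
structure TestFn (R : ι → V) (ζ : V → ℝ) : Prop where
  lip : ∃ C : ℝ≥0, LipschitzWith C ζ
  supp : HasCompactSupport ζ
  nonneg : ∀ x, 0 ≤ ζ x
  off : ∀ i, ∀ᶠ x in 𝓝 (R i), ζ x = 0

/-- the standard cut-off -/
noncomputable def zet (R : ι → V) (ε N : ℝ) (x : V) : ℝ := cut N ‖x‖ - ∑ i, cut ε ‖x - R i‖

/-- its gradient -/
noncomputable def gzet (R : ι → V) (ε N : ℝ) (x : V) : V := gcut N x - ∑ i, gcut ε (x - R i)

/-- the cut-off parameters are small, respectively large, enough -/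
structure Fine (R : ι → V) (ε N : ℝ) : Prop where
  pos : 0 < ε
  Npos : 0 < N
  sep : ∀ i j, i ≠ j → 4 * ε ≤ ‖R i - R j‖
  big : ∀ i, ‖R i‖ + 2 * ε ≤ N

theorem zet_eq {R : ι → V} {ε N : ℝ} (h : Fine R ε N) {x : V} {i : ι} (hi : ‖x - R i‖ ≤ 2 * ε) :
    zet R ε N x = 1 - cut ε ‖x - R i‖ := by
  classical
  unfold zet
  rw [cut_one h.Npos, Finset.sum_eq_single i]
  · intro j _ hj
    refine cut_zero h.pos ?_
    have h1 := h.sep i j (Ne.symm hj)
    have h2 : ‖R i - R j‖ ≤ ‖x - R i‖ + ‖x - R j‖ := by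
      rw [show R i - R j = (x - R j) - (x - R i) by abel]
      exact (norm_sub_le _ _).trans (by rw [add_comm])
    linarith
  · intro hh; exact absurd (Finset.mem_univ i) hh
  · have h2 : ‖x‖ ≤ ‖x - R i‖ + ‖R i‖ := by
      have := norm_add_le (x - R i) (R i)
      rwa [sub_add_cancel] at this
    linarith [h.big i]

theorem zet_eq' {R : ι → V} {ε N : ℝ} (h : Fine R ε N) {x : V} (hi : ∀ i, 2 * ε ≤ ‖x - R i‖) :
    zet R ε N x = cut N ‖x‖ := by
  unfold zet
  rw [Finset.sum_eq_zero fun i _ => cut_zero h.pos (hi i), sub_zero]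

theorem zet_nonneg {R : ι → V} {ε N : ℝ} (h : Fine R ε N) (x : V) : 0 ≤ zet R ε N x := by
  by_cases hx : ∃ i, ‖x - R i‖ ≤ 2 * ε
  · obtain ⟨i, hi⟩ := hx
    rw [zet_eq h hi]
    linarith [cut_le_one ε ‖x - R i‖]
  · push Not at hx
    rw [zet_eq' h fun i => (hx i).le]
    exact cut_nonneg _ _

theorem zet_le_one {R : ι → V} {ε N : ℝ} (h : Fine R ε N) (x : V) : zet R ε N x ≤ 1 := by
  unfold zet
  have : 0 ≤ ∑ i, cut ε ‖x - R i‖ := Finset.sum_nonneg fun i _ => cut_nonneg _ _
  linarith [cut_le_one N ‖x‖]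

theorem zet_lip {R : ι → V} {ε N : ℝ} (h : Fine R ε N) :
    ∃ C : ℝ≥0, LipschitzWith C (zet R ε N) := by
  classical
  have h1 : LipschitzWith _ (fun x : V => cut N ‖x‖) := (cut_lip h.Npos).comp lipschitzWith_one_norm
  have h2 : ∀ i, LipschitzWith _ (fun x : V => cut ε ‖x - R i‖) := fun i =>
    (cut_lip h.pos).comp (lipschitzWith_one_norm.comp (LipschitzWith.id.sub (LipschitzWith.const (R i))))
  have h3 : ∀ s : Finset ι, ∃ C : ℝ≥0, LipschitzWith C (fun x : V => ∑ i ∈ s, cut ε ‖x - R i‖) := by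
    intro s
    induction s using Finset.induction_on with
    | empty => exact ⟨0, by simp⟩
    | insert a s ha ih =>
      obtain ⟨C, hC⟩ := ih
      simp only [Finset.sum_insert ha]
      exact ⟨_, (h2 a).add hC⟩
  obtain ⟨C, hC⟩ := h3 Finset.univ
  exact ⟨_, h1.sub hC⟩

theorem zet_test {R : ι → V} {ε N : ℝ} (h : Fine R ε N) : TestFn R (zet R ε N) := by
  refine ⟨zet_lip h, ?_, zet_nonneg h, ?_⟩
  · refine HasCompactSupport.intro (isCompact_closedBall (0 : V) (2 * N)) fun x hx => ?_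
    rw [mem_closedBall_zero_iff, not_le] at hx
    have h1 : ∀ i, 2 * ε ≤ ‖x - R i‖ := by
      intro i
      have h2 : ‖x‖ ≤ ‖x - R i‖ + ‖R i‖ := by
        have := norm_add_le (x - R i) (R i)
        rwa [sub_add_cancel] at this
      linarith [h.big i, h.Npos, h.pos]
    rw [zet_eq' h h1, cut_zero h.Npos hx.le]
  · intro i
    have hc : Continuous fun x : V => ‖x - R i‖ := by fun_prop
    have h0 : ‖R i - R i‖ < ε := by simpa using h.pos
    filter_upwards [(isOpen_lt hc continuous_const).mem_nhds h0] with x hx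
    have hx' : ‖x - R i‖ < ε := hx
    rw [zet_eq h (i := i) (by linarith [h.pos]), cut_one h.pos hx'.le, sub_self]

theorem sphere_ae [Nontrivial V] (a : V) {r : ℝ} : ∀ᵐ x : V, ‖x - a‖ ≠ r := by
  have h : volume (sphere a r) = 0 := Measure.addHaar_sphere _ a r
  rw [← compl_mem_ae_iff] at h
  filter_upwards [h] with x hx
  rw [mem_compl_iff, mem_sphere_iff_norm] at hx
  exact hx

theorem zet_grad [Nontrivial V] {R : ι → V} {ε N : ℝ} (h : Fine R ε N) :
    ∀ᵐ x : V, ∇ (zet R ε N) x = gzet R ε N x := by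
  have h1 : ∀ᵐ x : V, ∀ i, ‖x - R i‖ ≠ ε ∧ ‖x - R i‖ ≠ 2 * ε := by
    rw [ae_all_iff]
    intro i
    filter_upwards [sphere_ae (R i) (r := ε), sphere_ae (R i) (r := 2 * ε)] with x a b
    exact ⟨a, b⟩
  filter_upwards [h1, sphere_ae (0 : V) (r := N), sphere_ae (0 : V) (r := 2 * N)] with x hx a b
  rw [sub_zero] at a b
  refine HasGradientAt.gradient ?_
  unfold zet gzet
  have h2 : ∀ i, HasGradientAt (fun x : V => cut ε ‖x - R i‖) (gcut ε (x - R i)) x := by
    intro i
    have h3 := hasGradient_cut (y := x - R i) h.pos (hx i).1 (hx i).2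
    rw [hasGradientAt_iff_hasFDerivAt] at h3 ⊢
    have h4 := h3.comp x ((hasFDerivAt_id x).sub_const (R i))
    exact h4
  have h5 := hasGradient_cut (y := x) h.Npos a b
  rw [hasGradientAt_iff_hasFDerivAt] at h5 ⊢
  have h6 : HasFDerivAt (fun x : V => ∑ i, cut ε ‖x - R i‖)
      (∑ i, (InnerProductSpace.toDual ℝ V) (gcut ε (x - R i))) x :=
    HasFDerivAt.fun_sum fun i _ => (hasGradientAt_iff_hasFDerivAt.1 (h2 i))
  refine (h5.sub h6).congr_fderiv ?_
  rw [map_sub, map_sum]

theorem gcut_meas (ε : ℝ) : Measurable (gcut (V := V) ε) := by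
  unfold gcut
  have h1 : Measurable fun y : V => (Ioo ε (2 * ε)).indicator (fun _ => -ε⁻¹) ‖y‖ :=
    (measurable_const.indicator measurableSet_Ioo).comp measurable_norm
  exact h1.smul (by fun_prop)

theorem norm_gcut_le {ε : ℝ} (hε : 0 < ε) (y : V) : ‖gcut ε y‖ ≤ ε⁻¹ := by
  unfold gcut
  rw [norm_smul, norm_smul, norm_inv, norm_norm]
  have h1 : ‖(Ioo ε (2 * ε)).indicator (fun _ => -ε⁻¹) ‖y‖‖ ≤ ε⁻¹ := by
    refine (norm_indicator_le_norm_self _ _).trans (le_of_eq ?_)
    rw [norm_neg, norm_inv, Real.norm_of_nonneg hε.le]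
  have h2 : ‖y‖⁻¹ * ‖y‖ ≤ 1 := inv_mul_le_one
  calc ‖(Ioo ε (2 * ε)).indicator (fun _ => -ε⁻¹) ‖y‖‖ * (‖y‖⁻¹ * ‖y‖)
      ≤ ε⁻¹ * 1 := mul_le_mul h1 h2 (by positivity) (by positivity)
    _ = ε⁻¹ := mul_one _

theorem inner_gcut_integrable {J : V → V} {a : V} {ε : ℝ} (hε : 0 < ε)
    (hJ : IntegrableOn J (closedBall a (2 * ε) \ ball a ε)) :
    Integrable fun x => ⟪J x, gcut ε (x - a)⟫ := by
  set S : Set V := closedBall a (2 * ε) \ ball a ε with hS
  have hSm : MeasurableSet S := measurableSet_closedBall.diff measurableSet_ball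
  have hg : Measurable fun x : V => gcut ε (x - a) := (gcut_meas ε).comp (by fun_prop)
  have h0 : (fun x => ⟪J x, gcut ε (x - a)⟫) = S.indicator fun x => ⟪J x, gcut ε (x - a)⟫ := by
    funext x
    by_cases hx : x ∈ S
    · rw [indicator_of_mem hx]
    · rw [indicator_of_notMem hx]
      have : ‖x - a‖ ∉ Ioo ε (2 * ε) := by
        intro hh
        refine hx ⟨?_, ?_⟩
        · rw [mem_closedBall, dist_eq_norm]; exact hh.2.le
        · rw [mem_ball, dist_eq_norm, not_lt]; exact hh.1.le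
      unfold gcut
      rw [indicator_of_notMem this, zero_smul, inner_zero_right]
  rw [h0, integrable_indicator_iff hSm]
  refine Integrable.mono' (hJ.norm.const_mul ε⁻¹) (hJ.1.inner hg.aestronglyMeasurable)
    (Eventually.of_forall fun x => ?_)
  calc ‖⟪J x, gcut ε (x - a)⟫‖ ≤ ‖J x‖ * ‖gcut ε (x - a)‖ := norm_inner_le_norm _ _
    _ ≤ ‖J x‖ * ε⁻¹ := mul_le_mul_of_nonneg_left (norm_gcut_le hε _) (norm_nonneg _)
    _ = ε⁻¹ * ‖J x‖ := mul_comm _ _

variable [hd : Fact (Module.finrank ℝ V = 3)]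

/-- the radial weight of a shell has integral one -/
theorem shell_weight (a : V) {ε : ℝ} (hε : 0 < ε) (c : ℝ) :
    Integrable (fun x : V => (Ioo ε (2 * ε)).indicator (fun s => ε⁻¹ * (c / (4 * Real.pi * s ^ 2)))
      ‖x - a‖) ∧
    ∫ x : V, (Ioo ε (2 * ε)).indicator (fun s => ε⁻¹ * (c / (4 * Real.pi * s ^ 2))) ‖x - a‖ = c := by
  set F : ℝ → ℝ := (Ioo ε (2 * ε)).indicator (fun s => ε⁻¹ * (c / (4 * Real.pi * s ^ 2))) with hF
  have h1 : (fun s => 4 * Real.pi * s ^ 2 * F s) = (Ioo ε (2 * ε)).indicator fun _ => ε⁻¹ * c := by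
    funext s
    by_cases hs : s ∈ Ioo ε (2 * ε)
    · have : s ≠ 0 := (hε.trans hs.1).ne'
      rw [hF, indicator_of_mem hs, indicator_of_mem hs]
      field_simp
    · rw [hF, indicator_of_notMem hs, indicator_of_notMem hs, mul_zero]
  have h3 : Integrable ((Ioo ε (2 * ε)).indicator fun _ : ℝ => ε⁻¹ * c) := by
    rw [integrable_indicator_iff measurableSet_Ioo]
    exact integrableOn_const (by rw [Real.volume_Ioo]; exact ENNReal.ofReal_ne_top)
  have h2 : Integrable (fun y : V => F ‖y‖) := by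
    rw [integrable_radial_iff, h1]
    exact h3.integrableOn
  refine ⟨h2.comp_sub_right a, ?_⟩
  rw [integral_sub_right_eq_self (fun y : V => F ‖y‖) a, integral_radial, h1,
    setIntegral_indicator measurableSet_Ioo]
  have h4 : Ioi (0 : ℝ) ∩ Ioo ε (2 * ε) = Ioo ε (2 * ε) := by
    rw [inter_eq_right]
    intro s hs
    exact hε.trans hs.1
  rw [h4, setIntegral_const, Measure.real, Real.volume_Ioo, ENNReal.toReal_ofReal (by linarith),
    smul_eq_mul]
  field_simp
  ring

/-- the flux of a vector field through a shell -/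
theorem shell_le {J : V → V} {a : V} {ε c : ℝ} (hε : 0 < ε)
    (hJ : IntegrableOn J (closedBall a (2 * ε) \ ball a ε))
    (h : ∀ᵐ x : V, ε < ‖x - a‖ → ‖x - a‖ < 2 * ε →
      4 * Real.pi * ‖x - a‖ ^ 2 * ⟪J x, ‖x - a‖⁻¹ • (x - a)⟫ ≤ c) :
    ∫ x, -⟪J x, gcut ε (x - a)⟫ ≤ c := by
  obtain ⟨h1, h2⟩ := shell_weight (V := V) a hε c
  rw [← h2]
  refine integral_mono_ae (inner_gcut_integrable hε hJ).neg h1 ?_
  filter_upwards [h] with x hx
  unfold gcut
  by_cases hs : ‖x - a‖ ∈ Ioo ε (2 * ε)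
  · rw [indicator_of_mem hs, indicator_of_mem hs, inner_smul_right]
    have h3 := hx hs.1 hs.2
    have h4 : 0 < ‖x - a‖ := hε.trans hs.1
    have h5 : ⟪J x, ‖x - a‖⁻¹ • (x - a)⟫ ≤ c / (4 * Real.pi * ‖x - a‖ ^ 2) := by
      rw [le_div_iff₀ (by positivity), mul_comm]
      exact h3
    have h6 := mul_le_mul_of_nonneg_left h5 (inv_pos.2 hε).le
    linarith
  · rw [indicator_of_notMem hs, indicator_of_notMem hs, zero_smul, inner_zero_right, neg_zero]

/-- passage to the limit in a flux inequality -/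
theorem flux_limit {R : ι → V} (hR : Function.Injective R) {J : V → V} {F : V → ℝ} {c : ι → ℝ}
    (hF : Integrable F)
    (hJ : ∀ K, IsCompact K → (∀ i, R i ∉ K) → IntegrableOn J K)
    (hflux : ∀ ζ, TestFn R ζ → 0 ≤ (∫ x, ζ x * F x) + ∫ x, ⟪J x, ∇ ζ x⟫)
    (hnuc : ∀ i, ∀ δ : ℝ, 0 < δ → ∃ η : ℝ, 0 < η ∧ ∀ᵐ x : V, ‖x - R i‖ < η →
      4 * Real.pi * ‖x - R i‖ ^ 2 * ⟪J x, ‖x - R i‖⁻¹ • (x - R i)⟫ ≤ c i + δ)
    (hinf : ∀ δ : ℝ, 0 < δ → ∃ N : ℝ, ∀ᵐ x : V, N < ‖x‖ →
      -δ ≤ 4 * Real.pi * ‖x‖ ^ 2 * ⟪J x, ‖x‖⁻¹ • x⟫) :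
    0 ≤ (∫ x, F x) + ∑ i, c i := by
  haveI := nontriv (V := V)
  -- it is enough to have the inequality up to `δ`
  have key : ∀ δ : ℝ, 0 < δ → 0 ≤ (∫ x, F x) + ∑ i, (c i + δ) + δ := by
    intro δ hδ
    choose η hη0 hη using fun i => hnuc i δ hδ
    obtain ⟨N₀, hN₀⟩ := hinf δ hδ
    set ε : ℕ → ℝ := fun n => ((n : ℝ) + 1)⁻¹ with hε
    set N : ℕ → ℝ := fun n => (n : ℝ) + 1 with hN
    have hεt : Tendsto ε atTop (𝓝 0) := by
      have := tendsto_one_div_add_atTop_nhds_zero_nat (𝕜 := ℝ)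
      simpa [hε, one_div] using this
    have hNt : Tendsto N atTop atTop :=
      tendsto_atTop_add_const_right _ _ tendsto_natCast_atTop_atTop
    have hε0 : ∀ n, 0 < ε n := fun n => by positivity
    have hN0 : ∀ n, 0 < N n := fun n => by positivity
    have e1 : ∀ᶠ n in atTop, ∀ i j, i ≠ j → 4 * ε n ≤ ‖R i - R j‖ := by
      rw [eventually_all]; intro i
      rw [eventually_all]; intro j
      by_cases hij : i = j
      · exact Eventually.of_forall fun n h => absurd hij h
      · have hpos : 0 < ‖R i - R j‖ := norm_pos_iff.2 (sub_ne_zero.2 fun h => hij (hR h))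
        filter_upwards [(hεt.const_mul 4).eventually (gt_mem_nhds
          (show 4 * (0 : ℝ) < ‖R i - R j‖ by simpa using hpos))] with n hn _
        exact le_of_lt hn
    have e2 : ∀ᶠ n in atTop, ∀ i, ‖R i‖ + 2 * ε n ≤ N n := by
      rw [eventually_all]; intro i
      filter_upwards [hNt.eventually_ge_atTop (‖R i‖ + 2), hεt.eventually
        (gt_mem_nhds (show (0 : ℝ) < 1 by norm_num))] with n h1 h2
      linarith
    have e3 : ∀ᶠ n in atTop, ∀ i, 2 * ε n ≤ η i := by
      rw [eventually_all]; intro i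
      filter_upwards [(hεt.const_mul 2).eventually (gt_mem_nhds
          (show 2 * (0 : ℝ) < η i by simpa using hη0 i))] with n hn
      exact le_of_lt hn
    have e4 : ∀ᶠ n in atTop, N₀ ≤ N n := hNt.eventually_ge_atTop _
    have hfine : ∀ᶠ n in atTop, Fine R (ε n) (N n) := by
      filter_upwards [e1, e2] with n h1 h2
      exact ⟨hε0 n, hN0 n, h1, h2⟩
    -- the inequality at the level `n`
    have hn : ∀ᶠ n in atTop, 0 ≤ (∫ x, zet R (ε n) (N n) x * F x) + (∑ i, (c i + δ) + δ) := by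
      filter_upwards [hfine, e3, e4] with n hf h3 h4
      have h5 := hflux _ (zet_test hf)
      have hJi : ∀ i, IntegrableOn J (closedBall (R i) (2 * ε n) \ ball (R i) (ε n)) := by
        intro i
        refine hJ _ ((isCompact_closedBall _ _).diff isOpen_ball) fun j hj => ?_
        rcases eq_or_ne j i with h | h
        · rw [h] at hj
          exact hj.2 (mem_ball_self (hε0 n))
        · have := hf.sep j i h
          have h6 := hj.1
          rw [mem_closedBall, dist_eq_norm] at h6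
          linarith [hε0 n]
      have hJN : IntegrableOn J (closedBall (0 : V) (2 * N n) \ ball 0 (N n)) := by
        refine hJ _ ((isCompact_closedBall _ _).diff isOpen_ball) fun j hj => ?_
        refine hj.2 ?_
        rw [mem_ball_zero_iff]
        linarith [hf.big j, hε0 n]
      have h6 : ∫ x, ⟪J x, ∇ (zet R (ε n) (N n)) x⟫ =
          (∫ x, ⟪J x, gcut (N n) x⟫) - ∑ i, ∫ x, ⟪J x, gcut (ε n) (x - R i)⟫ := by
        have h7 : ∀ᵐ x : V, ⟪J x, ∇ (zet R (ε n) (N n)) x⟫ =
            ⟪J x, gcut (N n) (x - 0)⟫ - ∑ i, ⟪J x, gcut (ε n) (x - R i)⟫ := by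
          filter_upwards [zet_grad hf] with x hx
          rw [hx, gzet, inner_sub_right, inner_sum, sub_zero]
        rw [integral_congr_ae h7, integral_sub (inner_gcut_integrable (hN0 n) hJN)
          (integrable_finsetSum _ fun i _ => inner_gcut_integrable (hε0 n) (hJi i)),
          integral_finsetSum _ fun i _ => inner_gcut_integrable (hε0 n) (hJi i)]
        simp only [sub_zero]
      have h8 : ∀ i, -∫ x, ⟪J x, gcut (ε n) (x - R i)⟫ ≤ c i + δ := by
        intro i
        rw [← integral_neg]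
        refine shell_le (hε0 n) (hJi i) ?_
        filter_upwards [hη i] with x hx _ hx2
        exact hx (lt_of_lt_of_le hx2 (h3 i))
      have h9 : ∫ x, ⟪J x, gcut (N n) x⟫ ≤ δ := by
        have h10 : ∫ x, -⟪-J x, gcut (N n) (x - 0)⟫ ≤ δ := by
          refine shell_le (J := fun x => -J x) (hN0 n) hJN.neg ?_
          filter_upwards [hN₀] with x hx h1 _
          rw [sub_zero] at h1 ⊢
          have := hx (lt_of_le_of_lt h4 h1)
          rw [inner_neg_left]
          linarith
        simpa [inner_neg_left] using h10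
      rw [h6] at h5
      have h11 : -∑ i, ∫ x, ⟪J x, gcut (ε n) (x - R i)⟫ ≤ ∑ i, (c i + δ) := by
        rw [← Finset.sum_neg_distrib]
        exact Finset.sum_le_sum fun i _ => h8 i
      linarith
    -- the limit
    have hlim : Tendsto (fun n => ∫ x, zet R (ε n) (N n) x * F x) atTop (𝓝 (∫ x, F x)) := by
      refine tendsto_integral_filter_of_dominated_convergence (fun x => ‖F x‖) ?_ ?_ hF.norm ?_
      · filter_upwards [hfine] with n hf
        obtain ⟨C, hC⟩ := zet_lip hf
        exact hC.continuous.aestronglyMeasurable.mul hF.1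
      · filter_upwards [hfine] with n hf
        refine Eventually.of_forall fun x => ?_
        rw [norm_mul, Real.norm_of_nonneg (zet_nonneg hf x)]
        exact mul_le_of_le_one_left (norm_nonneg _) (zet_le_one hf x)
      · have hne : ∀ᵐ x : V, ∀ i, x ≠ R i := by
          rw [ae_all_iff]
          intro i
          rw [ae_iff]
          simp
        filter_upwards [hne] with x hx
        refine tendsto_const_nhds.congr' ?_
        have e5 : ∀ᶠ n in atTop, ∀ i, 2 * ε n ≤ ‖x - R i‖ := by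
          rw [eventually_all]; intro i
          have hpos : 0 < ‖x - R i‖ := norm_pos_iff.2 (sub_ne_zero.2 (hx i))
          filter_upwards [(hεt.const_mul 2).eventually (gt_mem_nhds
            (show 2 * (0 : ℝ) < ‖x - R i‖ by simpa using hpos))] with n hn
          exact le_of_lt hn
        filter_upwards [hfine, e5, hNt.eventually_ge_atTop ‖x‖] with n hf h5 h6
        rw [zet_eq' hf h5, cut_one (hN0 n) h6, one_mul]
    have := ge_of_tendsto (hlim.add_const (∑ i, (c i + δ) + δ)) hn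
    linarith
  -- let `δ` tend to zero
  have hc : Tendsto (fun δ : ℝ => (∫ x, F x) + ∑ i, (c i + δ) + δ) (𝓝[>] 0)
      (𝓝 ((∫ x, F x) + ∑ i, (c i + 0) + 0)) := by
    refine Tendsto.mono_left (Continuous.tendsto ?_ 0) nhdsWithin_le_nhds
    fun_prop
  have h := ge_of_tendsto hc (by
    filter_upwards [self_mem_nhdsWithin] with δ hδ
    exact key δ hδ)
  simpa using h

end Pool.Agent.TF.Flux
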