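import Pool.Agent.Lib.MP_9cf0c9_mp.Col83
import Pool.Agent.Lib.MP_9cf0c9_mp.Col58Id
import Pool.Agent.Lib.MP_9cf0c9_mp.FluxLimit

/-! Fluxes through small shells about a point of the axis: the radial weight, its second moments,
and the comparison lemma for fields which are singular at the axis. -/

set_option autoImplicit false
set_option linter.unusedSectionVars false
set_option linter.unusedVariables false
set_option linter.style.haveILetI false

namespace Pool.Agent.TF.Col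
open MeasureTheory Set Metric Filter Topology
open scoped ENNReal NNReal RealInnerProductSpace Gradient
open Pool.Agent.TF.Grd

/-- the weight of the shell -/
noncomputable def shW (ε : ℝ) (y : X) : ℝ :=
  (Ioo ε (2 * ε)).indicator (fun t => ε⁻¹ * (t ^ 2)⁻¹) ‖y‖

theorem shW_nonneg {ε : ℝ} (hε : 0 < ε) (y : X) : 0 ≤ shW ε y :=
  indicator_nonneg (fun t _ => by positivity) _

theorem shW_out {ε : ℝ} {y : X} (h : ‖y‖ ∉ Ioo ε (2 * ε)) : shW ε y = 0 :=
  indicator_of_notMem h _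

theorem shW_in {ε : ℝ} {y : X} (h : ‖y‖ ∈ Ioo ε (2 * ε)) : shW ε y = ε⁻¹ * (‖y‖ ^ 2)⁻¹ :=
  indicator_of_mem h _

theorem shW_int (a : X) {ε : ℝ} (hε : 0 < ε) :
    Integrable (fun x : X => shW ε (x - a)) ∧ ∫ x : X, shW ε (x - a) = 4 * Real.pi := by
  have h := Flux.shell_weight (V := X) a hε (4 * Real.pi)
  have e : (fun x : X => (Ioo ε (2 * ε)).indicator
      (fun s => ε⁻¹ * (4 * Real.pi / (4 * Real.pi * s ^ 2))) ‖x - a‖) =
      fun x => shW ε (x - a) := by
    funext x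
    unfold shW
    congr 1
    funext s
    have := Real.pi_pos
    by_cases hs : s = 0
    · rw [hs]; simp
    · field_simp
  rw [e] at h
  exact h

/-- the flux integrand in terms of the weight -/
theorem inner_gcut_eq (J : X → X) {ε : ℝ} (hε : 0 < ε) (x a : X) :
    -⟪J x, Flux.gcut ε (x - a)⟫ =
      shW ε (x - a) * (‖x - a‖ ^ 2 * ⟪J x, ‖x - a‖⁻¹ • (x - a)⟫) := by
  unfold Flux.gcut
  by_cases h : ‖x - a‖ ∈ Ioo ε (2 * ε)
  · have h0 : 0 < ‖x - a‖ := hε.trans h.1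
    rw [indicator_of_mem h, shW_in h, real_inner_smul_right]
    field_simp
  · rw [indicator_of_notMem h, shW_out h, zero_smul, inner_zero_right, neg_zero, zero_mul]

/-! ### second moments of the weight -/

theorem isotropic (F : ℝ → ℝ) {v w : X} (hv : ‖v‖ = 1) (hw : ‖w‖ = 1) :
    ∫ y : X, F ‖y‖ * ⟪y, v⟫ ^ 2 = ∫ y : X, F ‖y‖ * ⟪y, w⟫ ^ 2 := by
  set L : X ≃ₗᵢ[ℝ] X := (ℝ ∙ (v - w))ᗮ.reflection with hL
  have hLv : L v = w := Submodule.reflection_sub (by rw [hv, hw])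
  have h1 := (L.measurePreserving).integral_comp L.toMeasurableEquiv.measurableEmbedding
    (fun y : X => F ‖y‖ * ⟪y, w⟫ ^ 2)
  rw [← h1]
  refine integral_congr_ae (Eventually.of_forall fun y => ?_)
  simp only
  rw [LinearIsometryEquiv.norm_map, ← hLv, LinearIsometryEquiv.inner_map_map]

theorem shW_moment (a : X) {ε : ℝ} (hε : 0 < ε) {e : X} (he : ‖e‖ = 1) :
    Integrable (fun x : X => shW ε (x - a) * ((‖x - a‖ ^ 2)⁻¹ * ⟪x - a, e⟫ ^ 2)) ∧
    ∫ x : X, shW ε (x - a) * ((‖x - a‖ ^ 2)⁻¹ * ⟪x - a, e⟫ ^ 2) = 4 * Real.pi / 3 := by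
  obtain ⟨hi, hv⟩ := shW_int a hε
  set F : ℝ → ℝ := fun t => (Ioo ε (2 * ε)).indicator (fun t => ε⁻¹ * (t ^ 2)⁻¹) t *
    (t ^ 2)⁻¹ with hF
  have hFe : ∀ e y : X, shW ε y * ((‖y‖ ^ 2)⁻¹ * ⟪y, e⟫ ^ 2) = F ‖y‖ * ⟪y, e⟫ ^ 2 := by
    intro e y
    rw [hF]
    unfold shW
    ring
  have hint : ∀ e : X, ‖e‖ = 1 →
      Integrable (fun x : X => shW ε (x - a) * ((‖x - a‖ ^ 2)⁻¹ * ⟪x - a, e⟫ ^ 2)) := by
    intro e he
    have hm : Measurable fun x : X => (‖x - a‖ ^ 2)⁻¹ * ⟪x - a, e⟫ ^ 2 := by fun_prop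
    refine hi.mul_bdd (c := 1) hm.aestronglyMeasurable (Eventually.of_forall fun x => ?_)
    rw [Real.norm_of_nonneg (by positivity)]
    by_cases h0 : x - a = 0
    · rw [h0]; simp
    · have h1 : 0 < ‖x - a‖ := norm_pos_iff.mpr h0
      have h2 := abs_real_inner_le_norm (x - a) e
      rw [he, mul_one] at h2
      have h3 : ⟪x - a, e⟫ ^ 2 ≤ ‖x - a‖ ^ 2 := by
        rw [← sq_abs]
        exact pow_le_pow_left₀ (abs_nonneg _) h2 2
      rw [inv_mul_le_iff₀ (by positivity)]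
      linarith
  refine ⟨hint e he, ?_⟩
  have hshift : ∀ e : X, ∫ x : X, shW ε (x - a) * ((‖x - a‖ ^ 2)⁻¹ * ⟪x - a, e⟫ ^ 2) =
      ∫ y : X, F ‖y‖ * ⟪y, e⟫ ^ 2 := by
    intro e
    rw [integral_sub_right_eq_self (fun y : X => shW ε y * ((‖y‖ ^ 2)⁻¹ * ⟪y, e⟫ ^ 2)) a]
    exact integral_congr_ae (Eventually.of_forall fun y => hFe e y)
  have hall : ∀ j : Fin (Module.finrank ℝ X),
      ∫ x : X, shW ε (x - a) * ((‖x - a‖ ^ 2)⁻¹ * ⟪x - a, stdOrthonormalBasis ℝ X j⟫ ^ 2) =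
      ∫ x : X, shW ε (x - a) * ((‖x - a‖ ^ 2)⁻¹ * ⟪x - a, e⟫ ^ 2) := by
    intro j
    rw [hshift, hshift]
    exact isotropic F ((stdOrthonormalBasis ℝ X).norm_eq_one j) he
  have hsum : ∑ j : Fin (Module.finrank ℝ X),
      ∫ x : X, shW ε (x - a) * ((‖x - a‖ ^ 2)⁻¹ * ⟪x - a, stdOrthonormalBasis ℝ X j⟫ ^ 2) =
      4 * Real.pi := by
    rw [← integral_finsetSum _ fun j _ => hint _ ((stdOrthonormalBasis ℝ X).norm_eq_one j), ← hv]
    refine integral_congr_ae (Eventually.of_forall fun x => ?_)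
    simp only
    rw [← Finset.mul_sum, ← Finset.mul_sum]
    have h1 : ∑ j : Fin (Module.finrank ℝ X), ⟪x - a, stdOrthonormalBasis ℝ X j⟫ ^ 2 =
        ‖x - a‖ ^ 2 := by
      have h2 := sum_inner_mul' (x - a) (x - a)
      rw [real_inner_self_eq_norm_sq] at h2
      rw [← h2]
      exact Finset.sum_congr rfl fun j _ => by ring
    rw [h1]
    by_cases h : ‖x - a‖ ∈ Ioo ε (2 * ε)
    · have h0 : 0 < ‖x - a‖ := hε.trans h.1
      rw [inv_mul_cancel₀ (by positivity), mul_one]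
    · rw [shW_out h, zero_mul]
  simp_rw [hall] at hsum
  rw [Finset.sum_const, Finset.card_univ, Fintype.card_fin, nsmul_eq_mul] at hsum
  have h3 : Module.finrank ℝ X = 3 := Fact.out
  rw [h3] at hsum
  push_cast at hsum
  linarith

theorem snd_sub_ax {a : X} (ha : a ∈ ax) (x : X) : (x - a).snd = x.snd := by
  rw [WithLp.sub_snd, mem_ax.mp ha, sub_zero]

theorem ht_sub_ax {a : X} (ha : a ∈ ax) (x : X) : ht (x - a) = ht x := by
  unfold ht
  rw [snd_sub_ax ha]

theorem perp_sub_ax {a : X} (ha : a ∈ ax) (x : X) : perp (x - a) = perp x := by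
  unfold perp
  rw [snd_sub_ax ha]

theorem norm_sq_ht (y : X) : ‖y‖ ^ 2 = ⟪y, e1⟫ ^ 2 + ht y ^ 2 := by
  have h1 := norm_mk_sq y.fst y.snd
  rw [mk_eta] at h1
  rw [h1, inner_e1]
  rfl

/-- the second moment of the distance to the axis -/
theorem shW_ht {a : X} (ha : a ∈ ax) {ε : ℝ} (hε : 0 < ε) :
    Integrable (fun x : X => shW ε (x - a) * (ht x ^ 2 * (‖x - a‖ ^ 2)⁻¹)) ∧
    ∫ x : X, shW ε (x - a) * (ht x ^ 2 * (‖x - a‖ ^ 2)⁻¹) = 8 * Real.pi / 3 := by
  obtain ⟨hi, hv⟩ := shW_int a hε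
  obtain ⟨hi2, hv2⟩ := shW_moment a hε norm_e1
  have e : (fun x : X => shW ε (x - a) * (ht x ^ 2 * (‖x - a‖ ^ 2)⁻¹)) = fun x =>
      shW ε (x - a) - shW ε (x - a) * ((‖x - a‖ ^ 2)⁻¹ * ⟪x - a, e1⟫ ^ 2) := by
    funext x
    by_cases h : ‖x - a‖ ∈ Ioo ε (2 * ε)
    · have h0 : 0 < ‖x - a‖ := hε.trans h.1
      have h1 := norm_sq_ht (x - a)
      rw [ht_sub_ax ha] at h1
      have h2 : ht x ^ 2 = ‖x - a‖ ^ 2 - ⟪x - a, e1⟫ ^ 2 := by linarith
      rw [h2]
      field_simp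
    · rw [shW_out h, zero_mul, zero_mul, sub_zero]
  rw [e]
  refine ⟨hi.sub hi2, ?_⟩
  rw [integral_sub hi hi2, hv, hv2]
  ring

/-! ### the inverse of the distance to the axis -/

/-- the integral of the inverse distance to the axis over the unit ball -/
noncomputable def htI : ℝ := ∫ x in ball (0 : X) 1, (ht x)⁻¹

theorem htI_nonneg : 0 ≤ htI := integral_nonneg fun x => inv_nonneg.mpr (ht_nonneg x)

theorem ht_smul (c : ℝ) (x : X) : ht (c • x) = |c| * ht x := by
  unfold ht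
  rw [WithLp.smul_snd, norm_smul, Real.norm_eq_abs]

theorem inv_ht_ball {a : X} (ha : a ∈ ax) {r : ℝ} (hr : 0 < r) :
    IntegrableOn (fun x : X => (ht x)⁻¹) (ball a r) ∧
    ∫ x in ball a r, (ht x)⁻¹ = r ^ 2 * htI := by
  have h0 : IntegrableOn (fun x : X => (ht x)⁻¹) (ball a r) := by
    refine (inv_ht_integrableOn (‖a‖ + r)).mono_set fun x hx => ?_
    rw [mem_ball_zero_iff]
    rw [mem_ball, dist_eq_norm] at hx
    have := norm_add_le (x - a) a
    rw [sub_add_cancel] at this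
    linarith
  refine ⟨h0, ?_⟩
  -- shift
  have h1 : ∫ x in ball a r, (ht x)⁻¹ = ∫ x, (ball (0 : X) r).indicator (fun x => (ht x)⁻¹) x := by
    rw [← integral_indicator measurableSet_ball,
      ← integral_sub_right_eq_self (fun y : X => (ball (0 : X) r).indicator
        (fun x => (ht x)⁻¹) y) a]
    refine integral_congr_ae (Eventually.of_forall fun x => ?_)
    simp only
    by_cases hx : x ∈ ball a r
    · rw [indicator_of_mem hx, indicator_of_mem (by
        rw [mem_ball_zero_iff, ← dist_eq_norm]; exact hx), ht_sub_ax ha]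
    · rw [indicator_of_notMem hx, indicator_of_notMem (by
        rw [mem_ball_zero_iff, ← dist_eq_norm]; exact hx)]
  have h2 := Measure.integral_comp_smul (volume : Measure X)
    (fun x => (ball (0 : X) r).indicator (fun x => (ht x)⁻¹) x) r
  have h3 : (fun x : X => (ball (0 : X) r).indicator (fun x => (ht x)⁻¹) (r • x)) =
      fun x => r⁻¹ * (ball (0 : X) 1).indicator (fun x => (ht x)⁻¹) x := by
    funext x
    by_cases hx : ‖x‖ < 1
    · rw [indicator_of_mem (by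
        rw [mem_ball_zero_iff, norm_smul, Real.norm_of_nonneg hr.le]
        nlinarith), indicator_of_mem (by rw [mem_ball_zero_iff]; exact hx), ht_smul,
        abs_of_pos hr, mul_inv]
    · rw [indicator_of_notMem (by
        rw [mem_ball_zero_iff, norm_smul, Real.norm_of_nonneg hr.le]
        nlinarith), indicator_of_notMem (by rw [mem_ball_zero_iff]; exact hx), mul_zero]
  have h4 : Module.finrank ℝ X = 3 := Fact.out
  simp only [h3, h4] at h2
  rw [integral_const_mul, integral_indicator measurableSet_ball] at h2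
  change r⁻¹ * htI = _ at h2
  rw [abs_of_pos (by positivity), smul_eq_mul, ← h1] at h2
  generalize (∫ x in ball a r, (ht x)⁻¹) = I at h2 ⊢
  field_simp at h2
  linarith

/-- the weight against `r² / √ht` -/
theorem shW_sqrt {a : X} (ha : a ∈ ax) {ε : ℝ} (hε : 0 < ε) :
    Integrable (fun x : X => shW ε (x - a) * (‖x - a‖ ^ 2 * (√(ht x))⁻¹)) ∧
    ∫ x : X, shW ε (x - a) * (‖x - a‖ ^ 2 * (√(ht x))⁻¹) ≤
      4 * htI * (ε * √(2 * ε)) := by
  obtain ⟨hb, hv⟩ := inv_ht_ball ha (r := 2 * ε) (by positivity)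
  set G : X → ℝ := fun x => (ball a (2 * ε)).indicator
    (fun x => (ε⁻¹ * √(2 * ε)) * (ht x)⁻¹) x with hG
  have hGi : Integrable G := by
    rw [hG, integrable_indicator_iff measurableSet_ball]
    exact hb.const_mul _
  have hm : AEStronglyMeasurable
      (fun x : X => shW ε (x - a) * (‖x - a‖ ^ 2 * (√(ht x))⁻¹)) volume := by
    refine (shW_int a hε).1.aestronglyMeasurable.mul ?_
    have h1 : Measurable fun x : X => (√(ht x))⁻¹ :=
      (ht_continuous.measurable.sqrt).inv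
    have h2 : Measurable fun x : X => ‖x - a‖ ^ 2 := by fun_prop
    exact (h2.mul h1).aestronglyMeasurable
  have hle : ∀ x : X, shW ε (x - a) * (‖x - a‖ ^ 2 * (√(ht x))⁻¹) ≤ G x := by
    intro x
    by_cases h : ‖x - a‖ ∈ Ioo ε (2 * ε)
    · have h0 : 0 < ‖x - a‖ := hε.trans h.1
      simp only [hG]
      rw [indicator_of_mem (by rw [mem_ball, dist_eq_norm]; exact h.2), shW_in h]
      have h1 : ε⁻¹ * (‖x - a‖ ^ 2)⁻¹ * (‖x - a‖ ^ 2 * (√(ht x))⁻¹) = ε⁻¹ * (√(ht x))⁻¹ := by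
        field_simp
      rw [h1, mul_assoc]
      refine mul_le_mul_of_nonneg_left ?_ (by positivity)
      by_cases hx : ht x = 0
      · rw [hx]; simp
      · have h2 : 0 < ht x := lt_of_le_of_ne (ht_nonneg x) (Ne.symm hx)
        have h3 : ht x ≤ 2 * ε := by
          have h4 := norm_sq_ht (x - a)
          rw [ht_sub_ax ha] at h4
          have h5 : ht x ≤ ‖x - a‖ := by
            refine le_of_sq_le_sq ?_ h0.le
            nlinarith [sq_nonneg ⟪x - a, e1⟫]
          linarith [h.2]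
        have h4 : √(ht x) ≤ √(2 * ε) := Real.sqrt_le_sqrt h3
        have h5 : 0 < √(ht x) := Real.sqrt_pos.mpr h2
        have h6 : (ht x)⁻¹ = (√(ht x))⁻¹ * (√(ht x))⁻¹ := by
          rw [← mul_inv, Real.mul_self_sqrt h2.le]
        rw [h6, ← mul_assoc]
        refine le_mul_of_one_le_left (by positivity) ?_
        rw [← div_eq_mul_inv, le_div_iff₀ h5, one_mul]
        exact h4
    · rw [shW_out h, zero_mul]
      exact indicator_nonneg (fun y _ => mul_nonneg (by positivity)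
        (inv_nonneg.mpr (ht_nonneg y))) _
  have hi : Integrable (fun x : X => shW ε (x - a) * (‖x - a‖ ^ 2 * (√(ht x))⁻¹)) := by
    refine hGi.mono' hm (Eventually.of_forall fun x => ?_)
    rw [Real.norm_of_nonneg (mul_nonneg (shW_nonneg hε _) (by positivity))]
    exact hle x
  refine ⟨hi, (integral_mono hi hGi hle).trans (le_of_eq ?_)⟩
  simp only [hG]
  rw [integral_indicator measurableSet_ball, integral_const_mul, hv]
  field_simp
  ring

/-! ### the comparison lemma -/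

/-- the flux of a field whose radial component is known up to a small error and up to
`r² / √ht` -/
theorem near_flux {a : X} (ha : a ∈ ax) {J : X → X} (hJ : ContinuousOn J axᶜ) {m : X → ℝ}
    {I : ℝ} (hm : ∀ ε : ℝ, 0 < ε → Integrable (fun x : X => shW ε (x - a) * m x) ∧
      ∫ x : X, shW ε (x - a) * m x = I) {K : ℝ}
    (h : ∀ η : ℝ, 0 < η → ∃ δ : ℝ, 0 < δ ∧ ∀ x ∈ ball a δ, x ∉ ax →
      |‖x - a‖ ^ 2 * ⟪J x, ‖x - a‖⁻¹ • (x - a)⟫ - m x| ≤
        η + K * (‖x - a‖ ^ 2 * (√(ht x))⁻¹)) :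
    ∀ η : ℝ, 0 < η → ∀ᶠ ε in 𝓝[>] (0 : ℝ),
      |-(∫ x, ⟪J x, Flux.gcut ε (x - a)⟫) - I| ≤ η := by
  intro η hη
  have hpi := Real.pi_pos
  obtain ⟨δ, hδ, hδ'⟩ := h (η / (8 * Real.pi)) (by positivity)
  have hlim : Tendsto (fun ε : ℝ => |K| * (4 * htI * (ε * √(2 * ε)))) (𝓝[>] 0) (𝓝 0) := by
    have h1 : ContinuousAt (fun ε : ℝ => |K| * (4 * htI * (ε * √(2 * ε)))) 0 := by fun_prop
    have h2 := h1.tendsto
    simp only [mul_zero, Real.sqrt_zero] at h2
    exact h2.mono_left nhdsWithin_le_nhds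
  filter_upwards [self_mem_nhdsWithin, hlim.eventually (gt_mem_nhds
    (show (0 : ℝ) < η / 2 by positivity)), nhdsWithin_le_nhds (gt_mem_nhds
    (show (0 : ℝ) < δ / 2 by positivity))] with ε hε hK hεδ
  have hε0 : 0 < ε := hε
  obtain ⟨hmi, hmv⟩ := hm ε hε0
  obtain ⟨hwi, hwv⟩ := shW_int a hε0
  obtain ⟨hsi, hsv⟩ := shW_sqrt ha hε0
  -- pointwise
  have hpt : ∀ᵐ x : X, |-⟪J x, Flux.gcut ε (x - a)⟫ - shW ε (x - a) * m x| ≤
      η / (8 * Real.pi) * shW ε (x - a) +
        |K| * (shW ε (x - a) * (‖x - a‖ ^ 2 * (√(ht x))⁻¹)) := by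
    filter_upwards [ae_off_ax] with x hx
    rw [inner_gcut_eq J hε0]
    by_cases hr : ‖x - a‖ ∈ Ioo ε (2 * ε)
    · have h1 := hδ' x (by rw [mem_ball, dist_eq_norm]; linarith [hr.2]) hx
      have h0 := shW_nonneg hε0 (x - a)
      rw [← mul_sub, abs_mul, abs_of_nonneg h0]
      have h2 : K * (‖x - a‖ ^ 2 * (√(ht x))⁻¹) ≤ |K| * (‖x - a‖ ^ 2 * (√(ht x))⁻¹) :=
        mul_le_mul_of_nonneg_right (le_abs_self K) (by positivity)
      calc shW ε (x - a) * |‖x - a‖ ^ 2 * ⟪J x, ‖x - a‖⁻¹ • (x - a)⟫ - m x| ≤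
          shW ε (x - a) * (η / (8 * Real.pi) + |K| * (‖x - a‖ ^ 2 * (√(ht x))⁻¹)) :=
            mul_le_mul_of_nonneg_left (h1.trans (by linarith)) h0
        _ = _ := by ring
    · rw [shW_out hr]
      simp
  have hB : Integrable fun x => η / (8 * Real.pi) * shW ε (x - a) +
        |K| * (shW ε (x - a) * (‖x - a‖ ^ 2 * (√(ht x))⁻¹)) :=
    (hwi.const_mul _).add (hsi.const_mul _)
  have hJm : AEStronglyMeasurable (fun x => -⟪J x, Flux.gcut ε (x - a)⟫) volume :=
    ((off_ax_meas hJ).inner (((Flux.gcut_meas ε).comp (by fun_prop : Measurable fun x : X =>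
      x - a)).aestronglyMeasurable)).neg
  have hdi : Integrable fun x => -⟪J x, Flux.gcut ε (x - a)⟫ - shW ε (x - a) * m x :=
    hB.mono' (hJm.sub hmi.aestronglyMeasurable) (by
      filter_upwards [hpt] with x hx
      rw [Real.norm_eq_abs]
      exact hx)
  have hJi : Integrable fun x => -⟪J x, Flux.gcut ε (x - a)⟫ := by
    refine (hdi.add hmi).congr (Eventually.of_forall fun x => ?_)
    simp only [Pi.add_apply]
    ring
  rw [← integral_neg, ← hmv, ← integral_sub hJi hmi]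
  refine (abs_integral_le_integral_abs).trans ((integral_mono_ae hdi.abs hB hpt).trans ?_)
  rw [integral_add (hwi.const_mul _) (hsi.const_mul _), integral_const_mul, integral_const_mul,
    hwv]
  have h5 := mul_le_mul_of_nonneg_left hsv (abs_nonneg K)
  have h6 : η / (8 * Real.pi) * (4 * Real.pi) = η / 2 := by field_simp; ring
  rw [h6]
  linarith

end Pool.Agent.TF.Col
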