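import Pool.Agent.Lib.MP_9cf0c9_mp.ColNuc61
import Pool.Agent.Lib.MP_9cf0c9_mp.ShellNuc33

/-! Collinear nuclei: the fluxes of the currents `Jt` and `NH` out of a nucleus. -/

set_option autoImplicit false
set_option linter.unusedSectionVars false
set_option linter.unusedVariables false

namespace Pool.Agent.TF.Col
open MeasureTheory Set Metric Filter Topology
open scoped ENNReal NNReal RealInnerProductSpace Gradient
open Pool.Agent.TF.Grd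

variable {ι : Type*} [Fintype ι]
variable {φ₀ : ℝ} {z : ι → ℝ} {R : ι → X} {ρ : X → ℝ} {H : X → X →L[ℝ] X} {lo hi : ℝ}

/-! ### elementary estimates -/

theorem st_sub (u' v' : X → X) (x : X) : ‖st u' x - st v' x‖ ≤
    3 * ht x * (‖v' x‖ + ‖u' x - v' x‖) * ‖u' x - v' x‖ := by
  set u := u' x
  set v := v' x
  set w := u - v with hw
  set q := perp x
  have hq : ‖q‖ = ht x := norm_perp x
  have hs := ht_nonneg x
  have e : st u' x - st v' x = ⟪w, q⟫ • u + ⟪v, q⟫ • w - (1 / 2 * (‖u‖ ^ 2 - ‖v‖ ^ 2)) • q := by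
    unfold st
    rw [hw, inner_sub_left]
    module
  rw [e]
  have hu : ‖u‖ ≤ ‖v‖ + ‖w‖ := by
    have : u = v + w := by rw [hw]; abel
    rw [this]
    exact norm_add_le _ _
  have h1 : ‖⟪w, q⟫ • u‖ ≤ ‖w‖ * ht x * (‖v‖ + ‖w‖) := by
    rw [norm_smul, Real.norm_eq_abs]
    have := abs_real_inner_le_norm w q
    rw [hq] at this
    exact mul_le_mul this hu (norm_nonneg _) (by positivity)
  have h2 : ‖⟪v, q⟫ • w‖ ≤ ‖v‖ * ht x * ‖w‖ := by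
    rw [norm_smul, Real.norm_eq_abs]
    have := abs_real_inner_le_norm v q
    rw [hq] at this
    exact mul_le_mul_of_nonneg_right this (norm_nonneg _)
  have h3 : |‖u‖ ^ 2 - ‖v‖ ^ 2| ≤ ‖w‖ * (2 * ‖v‖ + ‖w‖) := by
    have h4 : ‖u‖ ^ 2 - ‖v‖ ^ 2 = (‖u‖ - ‖v‖) * (‖u‖ + ‖v‖) := by ring
    rw [h4, abs_mul, abs_of_nonneg (by positivity : 0 ≤ ‖u‖ + ‖v‖)]
    exact mul_le_mul (abs_norm_sub_norm_le u v) (by linarith) (by positivity) (norm_nonneg _)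
  have h5 : ‖(1 / 2 * (‖u‖ ^ 2 - ‖v‖ ^ 2)) • q‖ ≤ 1 / 2 * (‖w‖ * (2 * ‖v‖ + ‖w‖)) * ht x := by
    rw [norm_smul, Real.norm_eq_abs, abs_mul, hq, abs_of_pos (by norm_num : (0 : ℝ) < 1 / 2)]
    exact mul_le_mul_of_nonneg_right (mul_le_mul_of_nonneg_left h3 (by norm_num)) hs
  refine (norm_sub_le _ _).trans ((add_le_add (norm_add_le _ _) le_rfl).trans ?_)
  have h6 : 0 ≤ ht x * (‖w‖ * ‖w‖) := by positivity
  nlinarith

/-- square roots of the distances -/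
structure Sq (r s a b : ℝ) : Prop where
  b0 : 0 < b
  ab : b ≤ a
  a1 : a ≤ 1
  ra : r = a ^ 2
  sb : s = b ^ 2
  sr : √r = a
  ss : √s = b

theorem Sq.mk' {r s : ℝ} (hs : 0 < s) (hsr : s ≤ r) (hr : r ≤ 1) : Sq r s (√r) (√s) :=
  ⟨Real.sqrt_pos.mpr hs, Real.sqrt_le_sqrt hsr, Real.sqrt_le_one.mpr hr,
    (Real.sq_sqrt (hs.le.trans hsr)).symm, (Real.sq_sqrt hs.le).symm, rfl, rfl⟩

theorem Sq.a0 {r s a b : ℝ} (h : Sq r s a b) : 0 < a := h.b0.trans_le h.ab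

section num
variable {a b K L M : ℝ}

theorem num_a (hb : 0 < b) (hab : b ≤ a) (ha : a ≤ 1) (hK : 0 ≤ K) (hL : 0 ≤ L) :
    (a ^ 2) ^ 2 * (3 * b ^ 2 * (K * ((a ^ 2) ^ 2)⁻¹ + L * b⁻¹) * (L * b⁻¹)) ≤
      3 * L * (K + L) * a := by
  have ha0 : 0 < a := hb.trans_le hab
  have e : (a ^ 2) ^ 2 * (3 * b ^ 2 * (K * ((a ^ 2) ^ 2)⁻¹ + L * b⁻¹) * (L * b⁻¹)) =
      3 * L * (K * b + L * a ^ 4) := by
    field_simp
  rw [e]
  have h1 : a ^ 4 ≤ a := pow_le_of_le_one ha0.le ha (by norm_num)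
  have h2 : K * b + L * a ^ 4 ≤ (K + L) * a := by
    have := mul_le_mul_of_nonneg_left hab hK
    have := mul_le_mul_of_nonneg_left h1 hL
    linarith
  have h3 := mul_le_mul_of_nonneg_left h2 (by positivity : 0 ≤ 3 * L)
  linarith

theorem num_d (hb : 0 < b) (hab : b ≤ a) (ha : a ≤ 1) (hK : 0 ≤ K) :
    (a ^ 2) ^ 2 * (K * (a ^ 2 * a)⁻¹) ≤ K * a := by
  have ha0 : 0 < a := hb.trans_le hab
  have e : (a ^ 2) ^ 2 * (K * (a ^ 2 * a)⁻¹) = K * a := by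
    field_simp
  rw [e]

end num

/-! ### the current `NH` -/

/-- the additional bounds for two nuclei -/
structure NucY (φ₀ : ℝ) (z : ι → ℝ) (R : ι → X) (ρ : X → ℝ) (H : X → X →L[ℝ] X) (a b : ℝ) (i : ι)
    (C : ℝ) (x : X) : Prop where
  Y : |YY z R ρ a b x| ≤ C * ‖x - R i‖⁻¹
  f : |ff z R ρ a b x| ≤ C
  f' : ‖ff' z R ρ H a b x‖ ≤ C * (√(ht x))⁻¹
  Y' : ‖YY' z R ρ H a b x - psi' z R ρ x‖ ≤ C * (√(ht x))⁻¹

theorem NucB.psi_le {i : ι} {C Q : ℝ} {x : X} (hn : NucB φ₀ z R ρ H i C Q x) (hC : 0 ≤ C)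
    (hz : 0 < z i) (hr : ‖x - R i‖ ≤ 1) :
    ‖psi' z R ρ x‖ ≤ (z i + C) * (‖x - R i‖ ^ 2)⁻¹ := by
  set r := ‖x - R i‖ with hrdef
  have h0 : 0 < r := hn.r_pos
  have h1 := hn.P
  rw [← hrdef] at h1
  have h2 : (r⁻¹) ^ (3 / 4 : ℝ) ≤ (r ^ 2)⁻¹ := by
    have h3 : 1 ≤ r⁻¹ := (one_le_inv₀ h0).mpr hr
    calc (r⁻¹) ^ (3 / 4 : ℝ) ≤ (r⁻¹) ^ (2 : ℝ) :=
          Real.rpow_le_rpow_of_exponent_le h3 (by norm_num)
      _ = (r ^ 2)⁻¹ := by
          rw [show (2 : ℝ) = ((2 : ℕ) : ℝ) by norm_num, Real.rpow_natCast, inv_pow]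
  have h4 : ‖(z i * (r ^ 3)⁻¹) • (x - R i)‖ = z i * (r ^ 2)⁻¹ := by
    rw [norm_smul, ← hrdef, Real.norm_of_nonneg (by positivity)]
    field_simp
  have h5 : psi' z R ρ x = (psi' z R ρ x + (z i * (r ^ 3)⁻¹) • (x - R i)) -
      (z i * (r ^ 3)⁻¹) • (x - R i) := by abel
  rw [h5]
  refine (norm_sub_le _ _).trans ?_
  rw [h4]
  have h6 := mul_le_mul_of_nonneg_left h2 hC
  linarith

theorem NucB.zt_le {i : ι} {C Q : ℝ} {x : X} (hn : NucB φ₀ z R ρ H i C Q x) (hC : 0 ≤ C)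
    (hr : ‖x - R i‖ ≤ 1) (hR : R i ∈ ax) : |zt z R ρ x| ≤ (1 + C) * ‖x - R i‖ := by
  set r := ‖x - R i‖ with hrdef
  have h0 : 0 < r := hn.r_pos
  have h1 := hn.c
  rw [← hrdef] at h1
  have h2 : |x.fst - (R i).fst| ≤ r := by
    have h3 := abs_real_inner_le_norm (x - R i) e1
    rw [norm_e1, mul_one, inner_e1, WithLp.sub_fst] at h3
    exact h3
  have h3 : r ^ 3 ≤ r := pow_le_of_le_one h0.le hr (by norm_num)
  have h4 := mul_le_mul_of_nonneg_left h3 hC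
  have h5 : Col.zt z R ρ x = (x.fst - (R i).fst) - (cf z R ρ x - (R i).fst) := by
    unfold Col.zt
    ring
  rw [h5]
  refine (abs_sub _ _).trans ?_
  linarith

/-- the current of the transverse form near a nucleus -/
theorem NH_near {i : ι} {C₀ C Q a b β : ℝ} {x : X} (hx : x ∉ ax)
    (hn : NucB φ₀ z R ρ H i C₀ Q x) (hy : NucY φ₀ z R ρ H a b i C x) (hC₀ : 0 ≤ C₀)
    (hCC : C₀ ≤ C)
    (hz : 0 < z i) (hr : ‖x - R i‖ ≤ 1) (hR : R i ∈ ax) (hβ : a + b - 2 * (R i).fst = β) :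
    ‖x - R i‖ ^ 2 * ‖NH φ₀ z R ρ H a b x - ((a + b - 2 * cf z R ρ x) *
      (3 * z i * Q * ht x ^ 2 * (‖x - R i‖ ^ 5)⁻¹)) • (x - R i)‖ ≤
      (3 * C * ((z i + C) + C) + (C * (z i + C) + C ^ 2 + 2 * C ^ 2 + C * (z i + C) +
        (|β| + 2 * C) * C + C * (2 * C * z i * (1 + C) * (2 + C)))) * √‖x - R i‖ := by
  have hC : 0 ≤ C := hC₀.trans hCC
  have up : ∀ {A B : ℝ}, 0 ≤ B → A ≤ C₀ * B → A ≤ C * B := fun h0 h =>
    h.trans (mul_le_mul_of_nonneg_right hCC h0)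
  have hq := Sq.mk' (ht_pos hx) hn.ht_le hr
  set r := ‖x - R i‖ with hrdef
  set s := ht x with hsdef
  set u := √r with hu
  set v := √s with hv
  have hr0 : 0 < r := hn.r_pos
  have hs0 : 0 < s := ht_pos hx
  have hsr : s ≤ r := hn.ht_le
  have hu0 : 0 < u := hq.a0
  have hv0 : 0 < v := hq.b0
  have hK : 0 ≤ z i + C := by linarith
  set K := z i + C with hKdef
  have hP : ‖psi' z R ρ x‖ ≤ K * (r ^ 2)⁻¹ := (hn.psi_le hC₀ hz hr).trans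
    (mul_le_mul_of_nonneg_right (by linarith) (by positivity))
  have hzt : |zt z R ρ x| ≤ (1 + C) * r := (hn.zt_le hC₀ hr hR).trans
    (mul_le_mul_of_nonneg_right (by linarith) (by positivity))
  have hR0 : 0 ≤ 4 * Real.pi * ρ x := mul_nonneg (by positivity) hn.rho0
  have hRr : 4 * Real.pi * ρ x ≤ C * (r * u)⁻¹ := up (by positivity) hn.rho
  have hf' : ‖ff' z R ρ H a b x‖ ≤ C * v⁻¹ := hy.f'
  have hY' : ‖YY' z R ρ H a b x - psi' z R ρ x‖ ≤ C * v⁻¹ := hy.Y'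
  have hYn : ‖YY' z R ρ H a b x‖ ≤ K * (r ^ 2)⁻¹ + C * v⁻¹ := by
    have e : YY' z R ρ H a b x = psi' z R ρ x + (YY' z R ρ H a b x - psi' z R ρ x) := by abel
    rw [e]
    exact (norm_add_le _ _).trans (add_le_add hP hY')
  have hY0 : |YY z R ρ a b x| ≤ C * r⁻¹ := hy.Y
  have hone : 1 ≤ r⁻¹ := (one_le_inv₀ hr0).mpr hr
  -- the terms
  have h1 : r ^ 2 * ‖st (YY' z R ρ H a b) x - st (Grd.psi' z R ρ) x‖ ≤ 3 * C * (K + C) * u := by
    have h := num_a hq.b0 hq.ab hq.a1 hK hC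
    rw [← hq.ra, ← hq.sb] at h
    refine le_trans (mul_le_mul_of_nonneg_left ((st_sub _ _ x).trans ?_) (by positivity)) h
    rw [← hsdef]
    gcongr
  have h2 : ‖(1 / 2 * (s ^ 2 * (4 * Real.pi * ρ x))) •
      (YY' z R ρ H a b x + ff' z R ρ H a b x)‖ ≤ (C * K + C ^ 2) * (r * u)⁻¹ := by
    rw [norm_smul, Real.norm_of_nonneg (by positivity)]
    have h3 : ‖YY' z R ρ H a b x + ff' z R ρ H a b x‖ ≤ K * (r ^ 2)⁻¹ + 2 * C * v⁻¹ :=
      (norm_add_le _ _).trans ((add_le_add hYn hf').trans (le_of_eq (by ring)))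
    have h4 : s ^ 2 * (K * (r ^ 2)⁻¹ + 2 * C * v⁻¹) ≤ K + 2 * C := by
      have h5 : s ^ 2 * (r ^ 2)⁻¹ ≤ 1 := by
        rw [← div_eq_mul_inv, div_le_one (by positivity)]
        exact pow_le_pow_left₀ hs0.le hsr 2
      have h6 : s ^ 2 * v⁻¹ ≤ 1 := by
        rw [← div_eq_mul_inv, div_le_one hv0, hq.sb, ← pow_mul]
        exact pow_le_of_le_one hv0.le (hq.ab.trans hq.a1) (by norm_num)
      have h7 := mul_le_mul_of_nonneg_left h5 hK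
      have h8 := mul_le_mul_of_nonneg_left h6 (by positivity : 0 ≤ 2 * C)
      calc s ^ 2 * (K * (r ^ 2)⁻¹ + 2 * C * v⁻¹) = K * (s ^ 2 * (r ^ 2)⁻¹) +
          2 * C * (s ^ 2 * v⁻¹) := by ring
        _ ≤ K * 1 + 2 * C * 1 := add_le_add h7 h8
        _ = _ := by ring
    calc 1 / 2 * (s ^ 2 * (4 * Real.pi * ρ x)) * ‖YY' z R ρ H a b x + ff' z R ρ H a b x‖
        ≤ 1 / 2 * (s ^ 2 * (C * (r * u)⁻¹)) * (K * (r ^ 2)⁻¹ + 2 * C * v⁻¹) := by gcongr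
      _ = 1 / 2 * (C * (r * u)⁻¹) * (s ^ 2 * (K * (r ^ 2)⁻¹ + 2 * C * v⁻¹)) := by ring
      _ ≤ 1 / 2 * (C * (r * u)⁻¹) * (K + 2 * C) := by gcongr
      _ = (C * K / 2 + C ^ 2) * (r * u)⁻¹ := by ring
      _ ≤ (C * K + C ^ 2) * (r * u)⁻¹ := by
          have : 0 ≤ C * K := by positivity
          gcongr
          linarith
  have h3 : ‖(2 * (4 * Real.pi * ρ x * YY z R ρ a b x)) • perp x‖ ≤ 2 * C ^ 2 * (r * u)⁻¹ := by
    rw [norm_smul, norm_perp, Real.norm_eq_abs, abs_mul, abs_mul, abs_of_nonneg hR0,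
      abs_of_pos (by norm_num : (0 : ℝ) < 2), ← hsdef]
    calc 2 * (4 * Real.pi * ρ x * |YY z R ρ a b x|) * s ≤
        2 * (C * (r * u)⁻¹ * (C * r⁻¹)) * r := by gcongr
      _ = 2 * C ^ 2 * (r * u)⁻¹ := by field_simp
  have h4 : ‖(s ^ 2 * (4 * Real.pi * ρ x)) • psi' z R ρ x‖ ≤ C * K * (r * u)⁻¹ := by
    rw [norm_smul, Real.norm_of_nonneg (by positivity)]
    calc s ^ 2 * (4 * Real.pi * ρ x) * ‖psi' z R ρ x‖ ≤
        r ^ 2 * (C * (r * u)⁻¹) * (K * (r ^ 2)⁻¹) := by gcongr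
      _ = C * K * (r * u)⁻¹ := by field_simp
  have h5 : ‖(s ^ 2 * (pf z R ρ x * pf z R ρ x) * (a + b - 2 * cf z R ρ x)) • cf' z R ρ H x -
      ((a + b - 2 * cf z R ρ x) * (3 * z i * Q * s ^ 2 * (r ^ 5)⁻¹)) • (x - R i)‖ ≤
      (|β| + 2 * C) * C * (r * u)⁻¹ := by
    have e : (s ^ 2 * (pf z R ρ x * pf z R ρ x) * (a + b - 2 * cf z R ρ x)) • cf' z R ρ H x -
        ((a + b - 2 * cf z R ρ x) * (3 * z i * Q * s ^ 2 * (r ^ 5)⁻¹)) • (x - R i) =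
        (a + b - 2 * cf z R ρ x) • ((s ^ 2 * pf z R ρ x ^ 2) • cf' z R ρ H x -
          (3 * z i * Q * s ^ 2 * (r ^ 5)⁻¹) • (x - R i)) := by module
    rw [e, norm_smul, Real.norm_eq_abs]
    have h6 : |a + b - 2 * cf z R ρ x| ≤ |β| + 2 * C := by
      have e2 : a + b - 2 * cf z R ρ x = β - 2 * (cf z R ρ x - (R i).fst) := by
        rw [← hβ]; ring
      rw [e2]
      refine (abs_sub _ _).trans ?_
      rw [abs_mul, abs_of_pos (by norm_num : (0 : ℝ) < 2)]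
      have h7 : |cf z R ρ x - (R i).fst| ≤ C * r ^ 3 := up (by positivity) hn.c
      have h8 : C * r ^ 3 ≤ C := mul_le_of_le_one_right hC (pow_le_one₀ hr0.le hr)
      linarith
    have h7 := up (by positivity) hn.s2c'
    rw [← hrdef, ← hsdef, ← hu] at h7
    calc |a + b - 2 * cf z R ρ x| * ‖(s ^ 2 * pf z R ρ x ^ 2) • cf' z R ρ H x -
          (3 * z i * Q * s ^ 2 * (r ^ 5)⁻¹) • (x - R i)‖ ≤
        (|β| + 2 * C) * (C * (r * u)⁻¹) := by gcongr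
      _ = _ := by ring
  have h6 : ‖gam (psi φ₀ z R ρ x) • ((4 * Real.pi) • TT z R ρ a b x)‖ ≤
      C * (2 * C * z i * (1 + C) * (2 + C)) * (r * u)⁻¹ := by
    have hg0 : 0 ≤ gam (psi φ₀ z R ρ x) := by unfold gam; positivity
    have hg : 4 * Real.pi * gam (psi φ₀ z R ρ x) ≤ C * u⁻¹ := up (by positivity) hn.gam
    have hp0 : 0 ≤ pf z R ρ x := le_trans (by positivity) hn.p_lo
    have hp : pf z R ρ x ≤ 2 * z i * (r ^ 3)⁻¹ := hn.p_hi
    have hw : |wT z R ρ a b x| ≤ 2 * C * z i * (1 + C) * (r ^ 3)⁻¹ := by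
      unfold wT
      rw [abs_mul, abs_mul, abs_mul, abs_of_pos (by norm_num : (0 : ℝ) < 1 / 2),
        abs_of_nonneg hp0]
      have h7 : |YY z R ρ a b x + ff z R ρ a b x| ≤ 2 * C * r⁻¹ := by
        refine (abs_add_le _ _).trans ?_
        have h8 : |ff z R ρ a b x| ≤ C := hy.f
        have h9 : C ≤ C * r⁻¹ := le_mul_of_one_le_right hC hone
        linarith
      calc 1 / 2 * (|YY z R ρ a b x + ff z R ρ a b x| * (pf z R ρ x * |zt z R ρ x|)) ≤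
          1 / 2 * (2 * C * r⁻¹ * (2 * z i * (r ^ 3)⁻¹ * ((1 + C) * r))) := by gcongr
        _ = 2 * C * z i * (1 + C) * (r ^ 3)⁻¹ := by field_simp
    have hT : ‖ht x ^ 2 • e1 - zt z R ρ x • perp x‖ ≤ (2 + C) * r ^ 2 := by
      refine (norm_sub_le _ _).trans ?_
      rw [norm_smul, norm_smul, norm_e1, norm_perp, ← hsdef, Real.norm_of_nonneg (by positivity),
        Real.norm_eq_abs, mul_one]
      calc s ^ 2 + |zt z R ρ x| * s ≤ r ^ 2 + (1 + C) * r * r := by gcongr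
        _ = _ := by ring
    unfold TT
    rw [norm_smul, norm_smul, norm_smul, Real.norm_of_nonneg hg0,
      Real.norm_of_nonneg (by positivity : 0 ≤ 4 * Real.pi), Real.norm_eq_abs]
    calc gam (psi φ₀ z R ρ x) * (4 * Real.pi * (|wT z R ρ a b x| *
          ‖ht x ^ 2 • e1 - zt z R ρ x • perp x‖)) =
        (4 * Real.pi * gam (psi φ₀ z R ρ x)) * (|wT z R ρ a b x| *
          ‖ht x ^ 2 • e1 - zt z R ρ x • perp x‖) := by ring
      _ ≤ (C * u⁻¹) * ((2 * C * z i * (1 + C) * (r ^ 3)⁻¹) * ((2 + C) * r ^ 2)) := by gcongr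
      _ = _ := by field_simp
  have hd : ∀ k : ℝ, 0 ≤ k → r ^ 2 * (k * (r * u)⁻¹) ≤ k * u := fun k hk => by
    have h := num_d hq.b0 hq.ab hq.a1 hk
    rwa [← hq.ra] at h
  have hNH : NH φ₀ z R ρ H a b x - ((a + b - 2 * cf z R ρ x) *
      (3 * z i * Q * s ^ 2 * (r ^ 5)⁻¹)) • (x - R i) =
      (st (YY' z R ρ H a b) x - st (Grd.psi' z R ρ) x) +
      ((1 / 2 * (s ^ 2 * (4 * Real.pi * ρ x))) • (YY' z R ρ H a b x + ff' z R ρ H a b x) +
      (2 * (4 * Real.pi * ρ x * YY z R ρ a b x)) • perp x +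
      (s ^ 2 * (4 * Real.pi * ρ x)) • psi' z R ρ x +
      ((s ^ 2 * (pf z R ρ x * pf z R ρ x) * (a + b - 2 * cf z R ρ x)) • cf' z R ρ H x -
        ((a + b - 2 * cf z R ρ x) * (3 * z i * Q * s ^ 2 * (r ^ 5)⁻¹)) • (x - R i)) +
      gam (psi φ₀ z R ρ x) • ((4 * Real.pi) • TT z R ρ a b x)) := by
    unfold NH
    rw [← hsdef]
    abel
  rw [hNH]
  set T1 := st (YY' z R ρ H a b) x - st (Grd.psi' z R ρ) x
  have h7 : ∀ A B : X, ∀ k : ℝ, 0 ≤ k → ‖B‖ ≤ k * (r * u)⁻¹ → r ^ 2 * ‖A‖ ≤ 3 * C * (K + C) * u →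
      r ^ 2 * ‖A + B‖ ≤ (3 * C * (K + C) + k) * u := by
    intro A B k hk hB hA
    have h8 := hd k hk
    have h9 := mul_le_mul_of_nonneg_left hB (by positivity : 0 ≤ r ^ 2)
    have h10 := mul_le_mul_of_nonneg_left (norm_add_le A B) (by positivity : 0 ≤ r ^ 2)
    linarith
  refine h7 _ _ _ (by positivity) ?_ h1
  refine (norm_add_le _ _).trans ((add_le_add ((norm_add_le _ _).trans (add_le_add
    ((norm_add_le _ _).trans (add_le_add ((norm_add_le _ _).trans (add_le_add h2 h3)) h4))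
      h5)) h6).trans (le_of_eq ?_))
  ring

/-- the bounds for two nuclei -/
theorem NucB.toY {i : ι} {C Q a b β : ℝ} {x : X} (hx : x ∉ ax)
    (hn : NucB φ₀ z R ρ H i C Q x) (hC : 0 ≤ C)
    (hz : 0 < z i) (hr : ‖x - R i‖ ≤ 1) (hβ : a + b - 2 * (R i).fst = β)
    (hab : (a - (R i).fst) * (b - (R i).fst) = 0) :
    NucY φ₀ z R ρ H a b i (z i + C + 4 * (C * (|β| + C) + 2 * C ^ 2 + 2 * C)) x := by
  have hq := Sq.mk' (ht_pos hx) hn.ht_le hr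
  set r := ‖x - R i‖ with hrdef
  set s := ht x with hsdef
  set u := √r with hu
  set v := √s with hv
  set t := (R i).fst with ht
  set κ := cf z R ρ x - t with hκ
  have hr0 : 0 < r := hn.r_pos
  have hs0 : 0 < s := ht_pos hx
  have hu0 : 0 < u := hq.a0
  have hv0 : 0 < v := hq.b0
  have hone : 1 ≤ r⁻¹ := (one_le_inv₀ hr0).mpr hr
  have hu1 : 1 ≤ u⁻¹ := (one_le_inv₀ hu0).mpr hq.a1
  have huv : u⁻¹ ≤ v⁻¹ := inv_anti₀ hv0 hq.ab
  have hv1 : 1 ≤ v⁻¹ := hu1.trans huv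
  have htq : tq z R ρ a b x = κ * (β - κ) := by
    unfold tq
    rw [hκ, ← hβ]
    linear_combination -hab
  have hκ1 : |κ| ≤ C := by
    have h1 : |κ| ≤ C * r ^ 3 := hn.c
    exact h1.trans (mul_le_of_le_one_right hC (pow_le_one₀ hr0.le hr))
  have hβκ : |β - κ| ≤ |β| + C := (abs_sub _ _).trans (by linarith)
  have hff : |ff z R ρ a b x| ≤ C * (|β| + C) := by
    have e : ff z R ρ a b x = qf z R ρ t x * (β - κ) := by
      unfold ff qf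
      rw [htq, ← hκ]
      ring
    rw [e, abs_mul]
    exact mul_le_mul hn.q_le hβκ (abs_nonneg _) hC
  have hff' : ‖ff' z R ρ H a b x‖ ≤ (C * (|β| + C) + 2 * C ^ 2) * v⁻¹ := by
    have e : ff' z R ρ H a b x = (β - κ) • qf' z R ρ H t x - qf z R ρ t x • cf' z R ρ H x := by
      unfold ff' qf' qf tq'
      rw [htq, ← hκ]
      have e2 : a + b - 2 * cf z R ρ x = β - 2 * κ := by
        rw [hκ, ← hβ]; ring
      rw [e2]
      module
    rw [e]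
    refine (norm_sub_le _ _).trans ?_
    rw [norm_smul, norm_smul, Real.norm_eq_abs, Real.norm_eq_abs]
    have h1 : ‖qf' z R ρ H t x‖ ≤ C * v⁻¹ := hn.q'
    have h2 : ‖cf' z R ρ H x‖ ≤ C * (2 * v⁻¹) := by
      refine hn.c'.trans (mul_le_mul_of_nonneg_left ?_ hC)
      have h3 : r ^ 2 ≤ 1 := pow_le_one₀ hr0.le hr
      have h4 : r ^ 3 * v⁻¹ ≤ v⁻¹ :=
        mul_le_of_le_one_left (by positivity) (pow_le_one₀ hr0.le hr)
      rw [← hrdef, ← hsdef, ← hv]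
      linarith
    have h3 : |qf z R ρ t x| ≤ C := hn.q_le
    calc |β - κ| * ‖qf' z R ρ H t x‖ + |qf z R ρ t x| * ‖cf' z R ρ H x‖ ≤
        (|β| + C) * (C * v⁻¹) + C * (C * (2 * v⁻¹)) := by gcongr
      _ = _ := by ring
  have hβ0 := abs_nonneg β
  have k1 : 0 ≤ C * (|β| + C) := by positivity
  have k2 : 0 ≤ C ^ 2 := by positivity
  refine ⟨?_, ?_, ?_, ?_⟩
  · have h1 := hn.Y (tq z R ρ a b)
    have h2 : r ^ (1 / 4 : ℝ) ≤ 1 := Real.rpow_le_one hr0.le hr (by norm_num)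
    have e : YY z R ρ a b x = (Yt z R ρ (tq z R ρ a b) x - z i * r⁻¹ -
        pf z R ρ x * tq z R ρ a b x) + z i * r⁻¹ + ff z R ρ a b x := by
      unfold YY ff
      ring
    rw [e]
    refine (abs_add_le _ _).trans ((add_le_add ((abs_add_le _ _).trans (add_le_add h1 le_rfl))
      hff).trans ?_)
    rw [abs_of_nonneg (by positivity : 0 ≤ z i * r⁻¹)]
    have h3 : C * r ^ (1 / 4 : ℝ) ≤ C := mul_le_of_le_one_right hC h2
    have h4 : C ≤ C * r⁻¹ := le_mul_of_one_le_right hC hone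
    have h5 : C * (|β| + C) ≤ C * (|β| + C) * r⁻¹ := le_mul_of_one_le_right k1 hone
    have h6 : 0 ≤ (2 * C ^ 2 + 2 * C) * r⁻¹ := by positivity
    have h7 : 0 ≤ C * (|β| + C) * r⁻¹ := by positivity
    rw [← hrdef]
    nlinarith
  · nlinarith
  · refine hff'.trans (mul_le_mul_of_nonneg_right ?_ (by positivity))
    nlinarith
  · have h1 := hn.Y' (tq z R ρ a b) (tq' z R ρ H a b)
    have e : YY' z R ρ H a b x - psi' z R ρ x = (Yt' z R ρ H (tq z R ρ a b) (tq' z R ρ H a b) x -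
        psi' z R ρ x - (pf z R ρ x • tq' z R ρ H a b x + tq z R ρ a b x • pf' z R ρ H x)) +
        ff' z R ρ H a b x := by
      unfold YY' ff'
      abel
    rw [e]
    refine (norm_add_le _ _).trans ((add_le_add h1 hff').trans ?_)
    have h3 : (√‖x - R i‖)⁻¹ + ‖x - R i‖ * (√(Col.ht x))⁻¹ ≤ 2 * v⁻¹ := by
      rw [← hrdef, ← hsdef, ← hu, ← hv]
      have h4 : r * v⁻¹ ≤ v⁻¹ := mul_le_of_le_one_left (by positivity) hr
      linarith
    have h4 := mul_le_mul_of_nonneg_left h3 hC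
    have h5 : C * (2 * v⁻¹) + (C * (|β| + C) + 2 * C ^ 2) * v⁻¹ =
        (2 * C + C * (|β| + C) + 2 * C ^ 2) * v⁻¹ := by ring
    refine (add_le_add h4 le_rfl).trans (h5.le.trans (mul_le_mul_of_nonneg_right ?_
      (by positivity)))
    nlinarith

theorem Dat.cont_NH (D : Dat φ₀ z R ρ H lo hi) (a b : ℝ) :
    ContinuousOn (NH φ₀ z R ρ H a b) Col.axᶜ := by
  have hperp : ContinuousOn perp Col.axᶜ := perp_continuous.continuousOn
  have hht : ContinuousOn ht Col.axᶜ := ht_continuous.continuousOn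
  have hρ : ContinuousOn ρ Col.axᶜ := D.c1_rho.cont0
  have hst : ∀ {u' : X → X}, ContinuousOn u' Col.axᶜ → ContinuousOn (st u') Col.axᶜ := by
    intro u' h
    have h1 : ContinuousOn (fun x => ⟪u' x, perp x⟫) Col.axᶜ := h.inner hperp
    unfold st
    exact (h1.smul h).sub ((continuousOn_const.mul (h.norm.pow 2)).smul hperp)
  unfold NH
  refine (((((hst (D.c1_YY a b).cont).sub (hst D.contP)).add ?_).add ?_).add ?_).add ?_ |>.add ?_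
  · exact (continuousOn_const.mul ((hht.pow 2).mul (continuousOn_const.mul hρ))).smul
      ((D.c1_YY a b).cont.add (D.c1_f a b).cont)
  · exact (continuousOn_const.mul ((continuousOn_const.mul hρ).mul (D.c1_YY a b).cont0)).smul hperp
  · exact ((hht.pow 2).mul (continuousOn_const.mul hρ)).smul D.contP
  · exact (((hht.pow 2).mul (D.c1_p.cont0.mul D.c1_p.cont0)).mul
      (continuousOn_const.sub (continuousOn_const.mul D.c1_c.cont0))).smul D.c1_c.cont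
  · exact D.cont_gam.smul ((D.wd_TT a b).contA.const_smul (4 * Real.pi))

/-- **the flux of the current of the transverse form out of a nucleus** -/
theorem Dat.NH_flux (D : Dat φ₀ z R ρ H lo hi) {i : ι} {δ C Q : ℝ} (hδ : 0 < δ) (hδ1 : δ ≤ 1)
    (hC : 0 ≤ C) (hz : 0 < z i)
    (hN : ∀ x ∈ ball (R i) δ, x ∉ Col.ax → NucB φ₀ z R ρ H i C Q x) {a b β : ℝ}
    (hβ : a + b - 2 * (R i).fst = β) (hab : (a - (R i).fst) * (b - (R i).fst) = 0) :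
    ∀ η : ℝ, 0 < η → ∀ᶠ ε in 𝓝[>] (0 : ℝ),
      |-(∫ x, ⟪NH φ₀ z R ρ H a b x, Flux.gcut ε (x - R i)⟫) - 8 * Real.pi * z i * (Q * β)| ≤ η := by
  have hRi : R i ∈ Col.ax := D.ax.on_axis i
  set M : ℝ := z i + C + 4 * (C * (|β| + C) + 2 * C ^ 2 + 2 * C) with hM
  have hM0 : 0 ≤ M := by positivity
  have hCM : C ≤ M := by
    have : 0 ≤ 4 * (C * (|β| + C) + 2 * C ^ 2 + 2 * C) := by positivity
    linarith
  set K : ℝ := 3 * M * ((z i + M) + M) + (M * (z i + M) + M ^ 2 + 2 * M ^ 2 + M * (z i + M) +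
        (|β| + 2 * M) * M + M * (2 * M * z i * (1 + M) * (2 + M))) + 6 * z i * |Q| * C with hK
  have hK0 : 0 ≤ K := by positivity
  have key : ∀ x ∈ ball (R i) δ, x ∉ Col.ax →
      |‖x - R i‖ ^ 2 * ⟪NH φ₀ z R ρ H a b x, ‖x - R i‖⁻¹ • (x - R i)⟫ -
        3 * z i * Q * β * (ht x ^ 2 * (‖x - R i‖ ^ 2)⁻¹)| ≤ K * √‖x - R i‖ := by
    intro x hxb hx
    have hn := hN x hxb hx
    have hr0 : 0 < ‖x - R i‖ := hn.r_pos
    rw [mem_ball, dist_eq_norm] at hxb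
    have hr : ‖x - R i‖ ≤ 1 := by linarith
    have hq := Sq.mk' (ht_pos hx) hn.ht_le hr
    have h1 := NH_near hx hn (hn.toY hx hC hz hr hβ hab) hC hCM hz hr hRi hβ
    set r := ‖x - R i‖ with hrdef
    set W := NH φ₀ z R ρ H a b x - ((a + b - 2 * cf z R ρ x) *
      (3 * z i * Q * ht x ^ 2 * (r ^ 5)⁻¹)) • (x - R i) with hW
    have e1 : NH φ₀ z R ρ H a b x = W + ((a + b - 2 * cf z R ρ x) *
      (3 * z i * Q * ht x ^ 2 * (r ^ 5)⁻¹)) • (x - R i) := by rw [hW]; abel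
    have e2 : r ^ 2 * ⟪NH φ₀ z R ρ H a b x, r⁻¹ • (x - R i)⟫ -
        3 * z i * Q * β * (ht x ^ 2 * (r ^ 2)⁻¹) =
        r ^ 2 * ⟪W, r⁻¹ • (x - R i)⟫ -
        6 * z i * Q * ((cf z R ρ x - (R i).fst) * (ht x ^ 2 * (r ^ 2)⁻¹)) := by
      rw [e1, inner_add_left, real_inner_smul_left, real_inner_smul_right (x - R i),
        real_inner_self_eq_norm_sq, ← hrdef, ← hβ]
      field_simp
      ring
    rw [e2]
    refine (abs_sub _ _).trans ?_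
    have h2 : |r ^ 2 * ⟪W, r⁻¹ • (x - R i)⟫| ≤ r ^ 2 * ‖W‖ := by
      rw [abs_mul, abs_of_nonneg (by positivity : 0 ≤ r ^ 2)]
      refine mul_le_mul_of_nonneg_left ((abs_real_inner_le_norm _ _).trans ?_) (by positivity)
      rw [norm_smul, norm_inv, norm_norm, ← hrdef, inv_mul_cancel₀ hr0.ne', mul_one]
    have h3 : |6 * z i * Q * ((cf z R ρ x - (R i).fst) * (ht x ^ 2 * (r ^ 2)⁻¹))| ≤
        6 * z i * |Q| * C * √r := by
      have h4 : ht x ^ 2 * (r ^ 2)⁻¹ ≤ 1 := by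
        rw [← div_eq_mul_inv, div_le_one (by positivity)]
        exact pow_le_pow_left₀ (ht_nonneg x) hn.ht_le 2
      have h5 : |cf z R ρ x - (R i).fst| ≤ C * √r := by
        refine hn.c.trans (mul_le_mul_of_nonneg_left ?_ hC)
        rw [← hrdef]
        calc r ^ 3 ≤ r := pow_le_of_le_one hr0.le hr (by norm_num)
          _ = √r * √r := (Real.mul_self_sqrt hr0.le).symm
          _ ≤ √r * 1 := mul_le_mul_of_nonneg_left hq.a1 hq.a0.le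
          _ = √r := mul_one _
      rw [abs_mul, abs_mul, abs_mul, abs_mul, abs_of_pos hz, abs_of_pos (by norm_num : (0 : ℝ) < 6),
        abs_of_nonneg (mul_nonneg (by positivity) (by positivity) :
          0 ≤ ht x ^ 2 * (r ^ 2)⁻¹)]
      calc 6 * z i * |Q| * (|cf z R ρ x - (R i).fst| * (ht x ^ 2 * (r ^ 2)⁻¹)) ≤
          6 * z i * |Q| * ((C * √r) * 1) := by
            refine mul_le_mul_of_nonneg_left ?_ (by positivity)
            exact mul_le_mul h5 h4 (mul_nonneg (by positivity) (by positivity)) (by positivity)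
        _ = _ := by ring
    calc |r ^ 2 * ⟪W, r⁻¹ • (x - R i)⟫| +
          |6 * z i * Q * ((cf z R ρ x - (R i).fst) * (ht x ^ 2 * (r ^ 2)⁻¹))| ≤
        (3 * M * ((z i + M) + M) + (M * (z i + M) + M ^ 2 + 2 * M ^ 2 + M * (z i + M) +
        (|β| + 2 * M) * M + M * (2 * M * z i * (1 + M) * (2 + M)))) * √r +
          6 * z i * |Q| * C * √r := add_le_add (h2.trans h1) h3
      _ = K * √r := by rw [hK]; ring
  have hm : ∀ ε : ℝ, 0 < ε → Integrable (fun x : X => shW ε (x - R i) *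
      (3 * z i * Q * β * (ht x ^ 2 * (‖x - R i‖ ^ 2)⁻¹))) ∧
      ∫ x : X, shW ε (x - R i) * (3 * z i * Q * β * (ht x ^ 2 * (‖x - R i‖ ^ 2)⁻¹)) =
        8 * Real.pi * z i * (Q * β) := by
    intro ε hε
    obtain ⟨h1, h2⟩ := shW_ht hRi hε
    have e : (fun x : X => shW ε (x - R i) *
        (3 * z i * Q * β * (ht x ^ 2 * (‖x - R i‖ ^ 2)⁻¹))) = fun x =>
        (3 * z i * Q * β) * (shW ε (x - R i) * (ht x ^ 2 * (‖x - R i‖ ^ 2)⁻¹)) := by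
      funext x
      ring
    rw [e]
    refine ⟨h1.const_mul _, ?_⟩
    rw [integral_const_mul, h2]
    ring
  refine near_flux hRi (D.cont_NH a b) hm (K := 0) fun η hη => ?_
  refine ⟨min δ ((η / (K + 1)) ^ 2), by positivity, fun x hx hxa => ?_⟩
  rw [mem_ball, lt_min_iff] at hx
  have h1 := key x (mem_ball.mpr hx.1) hxa
  rw [zero_mul, add_zero]
  refine h1.trans ?_
  have h2 : √‖x - R i‖ ≤ η / (K + 1) := by
    rw [Real.sqrt_le_left (by positivity), ← dist_eq_norm]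
    exact hx.2.le
  calc K * √‖x - R i‖ ≤ K * (η / (K + 1)) := mul_le_mul_of_nonneg_left h2 hK0
    _ ≤ (K + 1) * (η / (K + 1)) := mul_le_mul_of_nonneg_right (by linarith) (by positivity)
    _ = η := by field_simp

/-- smallness of the square root of the distance -/
theorem sqrt_small {a : X} {e : ℝ} (he : 0 < e) :
    ∀ᶠ x in 𝓝[axᶜ] a, √‖x - a‖ ≤ e := by
  have h1 : ball a (e ^ 2) ∈ 𝓝[axᶜ] a := mem_nhdsWithin_of_mem_nhds (ball_mem_nhds _ (by positivity))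
  filter_upwards [h1] with x hx
  rw [mem_ball, dist_eq_norm] at hx
  rw [Real.sqrt_le_left he.le]
  exact hx.le

/-- from the punctured filter to a ball -/
theorem ball_of_off {a : X} {P : X → Prop} (h : ∀ᶠ x in 𝓝[axᶜ] a, P x) :
    ∃ δ : ℝ, 0 < δ ∧ ∀ x ∈ ball a δ, x ∉ ax → P x := by
  rw [eventually_nhdsWithin_iff, Metric.eventually_nhds_iff_ball] at h
  obtain ⟨δ, hδ, h⟩ := h
  exact ⟨δ, hδ, fun x hx hxa => h x hx hxa⟩

theorem off_of_ball {a : X} {P : X → Prop} {δ : ℝ} (hδ : 0 < δ)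
    (h : ∀ x ∈ ball a δ, x ∉ ax → P x) : ∀ᶠ x in 𝓝[axᶜ] a, P x := by
  rw [eventually_nhdsWithin_iff, Metric.eventually_nhds_iff_ball]
  exact ⟨δ, hδ, h⟩

/-- `r² ⟪J, y / r⟫` for a field close to a radial one -/
theorem radial_split {a x : X} (h0 : 0 < ‖x - a‖) (J : X) (k : ℝ) :
    |‖x - a‖ ^ 2 * ⟪J, ‖x - a‖⁻¹ • (x - a)⟫ - k * ‖x - a‖ ^ 3| ≤
      ‖x - a‖ ^ 2 * ‖J - k • (x - a)‖ := by
  have e1 : ‖x - a‖ ^ 2 * ⟪J, ‖x - a‖⁻¹ • (x - a)⟫ - k * ‖x - a‖ ^ 3 =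
      ‖x - a‖ ^ 2 * ⟪J - k • (x - a), ‖x - a‖⁻¹ • (x - a)⟫ := by
    rw [inner_sub_left, real_inner_smul_left, real_inner_smul_right (x - a),
      real_inner_self_eq_norm_sq]
    field_simp
  rw [e1, abs_mul, abs_of_nonneg (by positivity : 0 ≤ ‖x - a‖ ^ 2)]
  refine mul_le_mul_of_nonneg_left ((abs_real_inner_le_norm _ _).trans ?_) (by positivity)
  rw [norm_smul, norm_inv, norm_norm, inv_mul_cancel₀ h0.ne', mul_one]

/-- the flux of `s² p² Φ ∇c` out of a nucleus -/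
theorem Dat.phi_flux (D : Dat φ₀ z R ρ H lo hi) {i : ι} {δ C Q : ℝ} (hδ : 0 < δ) (hδ1 : δ ≤ 1)
    (hC : 0 ≤ C) (hz : 0 < z i)
    (hN : ∀ x ∈ ball (R i) δ, x ∉ Col.ax → NucB φ₀ z R ρ H i C Q x) {Φ : X → ℝ}
    (hΦc : ContinuousOn Φ Col.axᶜ) {Φ₀ : ℝ} (hΦ : Tendsto Φ (𝓝[Col.axᶜ] (R i)) (𝓝 Φ₀)) :
    ∀ η : ℝ, 0 < η → ∀ᶠ ε in 𝓝[>] (0 : ℝ),
      |-(∫ x, ⟪(ht x ^ 2 * pf z R ρ x ^ 2 * Φ x) • cf' z R ρ H x, Flux.gcut ε (x - R i)⟫) -
        8 * Real.pi * z i * (Q * Φ₀)| ≤ η := by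
  have hRi : R i ∈ Col.ax := D.ax.on_axis i
  have hcont : ContinuousOn (fun x => (ht x ^ 2 * pf z R ρ x ^ 2 * Φ x) • cf' z R ρ H x)
      Col.axᶜ :=
    (((ht_continuous.continuousOn.pow 2).mul (D.c1_p.cont0.pow 2)).mul hΦc).smul D.c1_c.cont
  have hm : ∀ ε : ℝ, 0 < ε → Integrable (fun x : X => shW ε (x - R i) *
      (3 * z i * Q * Φ₀ * (ht x ^ 2 * (‖x - R i‖ ^ 2)⁻¹))) ∧
      ∫ x : X, shW ε (x - R i) * (3 * z i * Q * Φ₀ * (ht x ^ 2 * (‖x - R i‖ ^ 2)⁻¹)) =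
        8 * Real.pi * z i * (Q * Φ₀) := by
    intro ε hε
    obtain ⟨h1, h2⟩ := shW_ht hRi hε
    have e : (fun x : X => shW ε (x - R i) *
        (3 * z i * Q * Φ₀ * (ht x ^ 2 * (‖x - R i‖ ^ 2)⁻¹))) = fun x =>
        (3 * z i * Q * Φ₀) * (shW ε (x - R i) * (ht x ^ 2 * (‖x - R i‖ ^ 2)⁻¹)) := by
      funext x
      ring
    rw [e]
    refine ⟨h1.const_mul _, ?_⟩
    rw [integral_const_mul, h2]
    ring
  refine near_flux hRi hcont hm (K := 0) fun η hη => ball_of_off ?_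
  have h1 : ∀ᶠ x in 𝓝[Col.axᶜ] (R i), |Φ x - Φ₀| ≤ min 1 (η / (2 * (3 * z i * |Q| + 1))) := by
    have h2 := (tendsto_iff_norm_sub_tendsto_zero.mp hΦ).eventually (gt_mem_nhds
      (show (0 : ℝ) < min 1 (η / (2 * (3 * z i * |Q| + 1))) by positivity))
    filter_upwards [h2] with x hx
    exact hx.le
  have h2 := sqrt_small (a := R i) (e := η / (2 * ((|Φ₀| + 1) * C + 1))) (by positivity)
  filter_upwards [h1, h2, off_of_ball hδ hN, self_mem_nhdsWithin, mem_nhdsWithin_of_mem_nhds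
    (ball_mem_nhds (R i) hδ)] with x hΦx hsx hn hx hxb
  rw [mem_ball, dist_eq_norm] at hxb
  have hr : ‖x - R i‖ ≤ 1 := by linarith
  have hr0 : 0 < ‖x - R i‖ := hn.r_pos
  have hq := Sq.mk' (ht_pos hx) hn.ht_le hr
  rw [zero_mul, add_zero]
  have hΦ1 : |Φ x| ≤ |Φ₀| + 1 := by
    have h3 := abs_sub_abs_le_abs_sub (Φ x) Φ₀
    have h4 := hΦx.trans (min_le_left _ _)
    linarith
  have h3 := radial_split hr0 ((ht x ^ 2 * pf z R ρ x ^ 2 * Φ x) • cf' z R ρ H x)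
    (Φ x * (3 * z i * Q * ht x ^ 2 * (‖x - R i‖ ^ 5)⁻¹))
  have e1 : (ht x ^ 2 * pf z R ρ x ^ 2 * Φ x) • cf' z R ρ H x -
      (Φ x * (3 * z i * Q * ht x ^ 2 * (‖x - R i‖ ^ 5)⁻¹)) • (x - R i) =
      Φ x • ((ht x ^ 2 * pf z R ρ x ^ 2) • cf' z R ρ H x -
        (3 * z i * Q * ht x ^ 2 * (‖x - R i‖ ^ 5)⁻¹) • (x - R i)) := by module
  rw [e1, norm_smul, Real.norm_eq_abs] at h3
  set r := ‖x - R i‖ with hrdef
  have h4 : r ^ 2 * (|Φ x| * ‖(ht x ^ 2 * pf z R ρ x ^ 2) • cf' z R ρ H x -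
        (3 * z i * Q * ht x ^ 2 * (r ^ 5)⁻¹) • (x - R i)‖) ≤ (|Φ₀| + 1) * C * √r := by
    have h5 := hn.s2c'
    rw [← hrdef] at h5
    have h6 := num_d hq.b0 hq.ab hq.a1 (K := (|Φ₀| + 1) * C) (by positivity)
    rw [← hq.ra] at h6
    calc r ^ 2 * (|Φ x| * ‖(ht x ^ 2 * pf z R ρ x ^ 2) • cf' z R ρ H x -
        (3 * z i * Q * ht x ^ 2 * (r ^ 5)⁻¹) • (x - R i)‖) ≤
        r ^ 2 * ((|Φ₀| + 1) * (C * (r * √r)⁻¹)) := by gcongr
      _ = r ^ 2 * ((|Φ₀| + 1) * C * (r * √r)⁻¹) := by ring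
      _ ≤ _ := h6
  have h5 : |Φ x * (3 * z i * Q * ht x ^ 2 * (r ^ 5)⁻¹) * r ^ 3 -
      3 * z i * Q * Φ₀ * (ht x ^ 2 * (r ^ 2)⁻¹)| ≤ 3 * z i * |Q| * |Φ x - Φ₀| := by
    have e2 : Φ x * (3 * z i * Q * ht x ^ 2 * (r ^ 5)⁻¹) * r ^ 3 -
        3 * z i * Q * Φ₀ * (ht x ^ 2 * (r ^ 2)⁻¹) =
        3 * z i * Q * (Φ x - Φ₀) * (ht x ^ 2 * (r ^ 2)⁻¹) := by
      field_simp
    have h6 : ht x ^ 2 * (r ^ 2)⁻¹ ≤ 1 := by
      rw [← div_eq_mul_inv, div_le_one (by positivity)]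
      exact pow_le_pow_left₀ (ht_nonneg x) hn.ht_le 2
    rw [e2, abs_mul, abs_mul, abs_mul, abs_mul, abs_of_pos hz,
      abs_of_pos (by norm_num : (0 : ℝ) < 3), abs_of_nonneg (mul_nonneg (by positivity)
        (by positivity) : 0 ≤ ht x ^ 2 * (r ^ 2)⁻¹)]
    exact mul_le_of_le_one_right (by positivity) h6
  have h6 : |r ^ 2 * ⟪(ht x ^ 2 * pf z R ρ x ^ 2 * Φ x) • cf' z R ρ H x, r⁻¹ • (x - R i)⟫ -
      3 * z i * Q * Φ₀ * (ht x ^ 2 * (r ^ 2)⁻¹)| ≤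
      (|Φ₀| + 1) * C * √r + 3 * z i * |Q| * |Φ x - Φ₀| := by
    refine (abs_sub_le _ (Φ x * (3 * z i * Q * ht x ^ 2 * (r ^ 5)⁻¹) * r ^ 3) _).trans ?_
    exact add_le_add (h3.trans h4) h5
  refine h6.trans ?_
  have h7 : (|Φ₀| + 1) * C * √r ≤ η / 2 := by
    calc (|Φ₀| + 1) * C * √r ≤ ((|Φ₀| + 1) * C + 1) * (η / (2 * ((|Φ₀| + 1) * C + 1))) :=
          mul_le_mul (by linarith) hsx (Real.sqrt_nonneg _) (by positivity)
      _ = η / 2 := by field_simp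
  have h8 : 3 * z i * |Q| * |Φ x - Φ₀| ≤ η / 2 := by
    calc 3 * z i * |Q| * |Φ x - Φ₀| ≤ (3 * z i * |Q| + 1) * (η / (2 * (3 * z i * |Q| + 1))) :=
          mul_le_mul (by linarith) (hΦx.trans (min_le_right _ _)) (abs_nonneg _) (by positivity)
      _ = η / 2 := by field_simp
  linarith

/-! ### the current `Jt` -/

/-- algebra of the current `Jt` in the frame of a nucleus -/
theorem Jt_frame (z : ι → ℝ) (R : ι → X) (ρ : X → ℝ) (H : X → X →L[ℝ] X) (τ : X → ℝ) {i : ι}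
    (hR : R i ∈ ax) {x : X} (h0 : 0 < ‖x - R i‖) :
    Jt z R ρ H τ x - (2 * pf z R ρ x ^ 2 * τ x) • (x - R i) =
      (-(pf z R ρ x * (r2 z R ρ x + τ x) ^ 2)) • (pf' z R ρ H x +
        (3 * pf z R ρ x * (‖x - R i‖ ^ 2)⁻¹) • (x - R i)) +
      (pf z R ρ x ^ 2 * (3 * ((r2 z R ρ x - ‖x - R i‖ ^ 2) +
        (r2 z R ρ x - ‖x - R i‖ ^ 2 + τ x) ^ 2 * (‖x - R i‖ ^ 2)⁻¹))) • (x - R i) +
      (pf z R ρ x ^ 2 * (3 * r2 z R ρ x + 4 * τ x) * (cf z R ρ x - (R i).fst)) • e1 +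
      (pf z R ρ x ^ 2 * zt z R ρ x * (r2 z R ρ x + 4 * τ x)) • cf' z R ρ H x := by
  have hRe : R i = (R i).fst • e1 := by
    have h1 := perp_eq (R i)
    have h2 : perp (R i) = 0 := by
      rw [← norm_eq_zero, norm_perp]
      unfold ht
      rw [mem_ax.mp hR, norm_zero]
    rw [h2] at h1
    exact (sub_eq_zero.mp h1.symm)
  have hV : Vf z R ρ x = (x - R i) - (cf z R ρ x - (R i).fst) • e1 := by
    unfold Vf
    nth_rewrite 1 [hRe]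
    module
  unfold Jt
  rw [hV]
  set r := ‖x - R i‖
  have e : pf z R ρ x ^ 2 * (3 * ((r2 z R ρ x - r ^ 2) +
      (r2 z R ρ x - r ^ 2 + τ x) ^ 2 * (r ^ 2)⁻¹)) =
      pf z R ρ x * (r2 z R ρ x + τ x) ^ 2 * (3 * pf z R ρ x * (r ^ 2)⁻¹) -
        pf z R ρ x ^ 2 * (3 * r2 z R ρ x + 4 * τ x) - 2 * pf z R ρ x ^ 2 * τ x := by
    field_simp
    ring
  rw [e]
  module

theorem Jt_near {i : ι} {C Q T G : ℝ} {x : X} (hx : x ∉ ax)
    (hn : NucB φ₀ z R ρ H i C Q x) (hC : 0 ≤ C) (hz : 0 < z i) (hr : ‖x - R i‖ ≤ 1)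
    (hR : R i ∈ ax) {τ : X → ℝ} (hT0 : 0 ≤ T) (hτ : |τ x| ≤ T * ‖x - R i‖ ^ 3)
    (hG : G = 3 * (1 + 2 * C + C ^ 2) + 4 * T) :
    ‖x - R i‖ ^ 2 * ‖Jt z R ρ H τ x - (2 * pf z R ρ x ^ 2 * τ x) • (x - R i)‖ ≤
      (2 * z i * G ^ 2 * (3 * C) + 12 * z i ^ 2 * (G + G ^ 2) + 4 * z i ^ 2 * G * C +
        4 * z i ^ 2 * (1 + C) * G * C) * (√‖x - R i‖ + ‖x - R i‖ ^ 2 * (√(ht x))⁻¹) := by
  have hq := Sq.mk' (ht_pos hx) hn.ht_le hr
  set r := ‖x - R i‖ with hrdef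
  set s := ht x with hsdef
  set u := √r with hu
  set v := √s with hv
  have hr0 : 0 < r := hn.r_pos
  have hs0 : 0 < s := ht_pos hx
  have hu0 : 0 < u := hq.a0
  have hv0 : 0 < v := hq.b0
  set κ := cf z R ρ x - (R i).fst with hκ
  have hκ1 : |κ| ≤ C * r ^ 3 := hn.c
  have hzt : |zt z R ρ x| ≤ (1 + C) * r := hn.zt_le hC hr hR
  have hp0 : 0 ≤ pf z R ρ x := le_trans (by positivity) hn.p_lo
  have hp : pf z R ρ x ≤ 2 * z i * (r ^ 3)⁻¹ := hn.p_hi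
  have hG1 : 1 ≤ G := by
    rw [hG]
    nlinarith [sq_nonneg C]
  have hG0 : 0 ≤ G := by linarith
  have r1 : r ^ 2 ≤ r := pow_le_of_le_one hr0.le hr (by norm_num)
  have r3 : r ^ 3 ≤ 1 := pow_le_one₀ hr0.le hr
  have r31 : r ^ 3 ≤ r ^ 2 := pow_le_pow_of_le_one hr0.le hr (by norm_num)
  have r42 : r ^ 4 ≤ r ^ 2 := pow_le_pow_of_le_one hr0.le hr (by norm_num)
  have r43 : r ^ 4 ≤ r ^ 3 := pow_le_pow_of_le_one hr0.le hr (by norm_num)
  have ru : r ≤ u := by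
    have : r = u * u := (Real.mul_self_sqrt hr0.le).symm
    rw [this]
    exact mul_le_of_le_one_left hu0.le hq.a1
  -- the square of the distance to the foot
  have hu1 : |x.fst - (R i).fst| ≤ r := by
    have h3 := abs_real_inner_le_norm (x - R i) e1
    rw [norm_e1, mul_one, inner_e1, WithLp.sub_fst] at h3
    exact h3
  have hr2 : r2 z R ρ x - r ^ 2 = -2 * κ * (x.fst - (R i).fst) + κ ^ 2 := by
    have h1 := norm_sq_ht (x - R i)
    rw [ht_sub_ax hR, inner_e1, WithLp.sub_fst, ← hrdef] at h1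
    unfold r2 Col.zt
    rw [h1, hκ]
    ring
  have hh0 : |r2 z R ρ x - r ^ 2| ≤ (2 * C + C ^ 2) * r ^ 4 := by
    rw [hr2]
    refine (abs_add_le _ _).trans ?_
    rw [abs_mul, abs_mul, abs_neg, abs_of_pos (by norm_num : (0 : ℝ) < 2), abs_pow]
    have h1 : 2 * |κ| * |x.fst - (R i).fst| ≤ 2 * (C * r ^ 3) * r := by gcongr
    have h2 : |κ| ^ 2 ≤ (C * r ^ 3) ^ 2 := pow_le_pow_left₀ (abs_nonneg _) hκ1 2
    have h3 : (C * r ^ 3) ^ 2 ≤ C ^ 2 * r ^ 4 := by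
      rw [mul_pow, ← pow_mul]
      exact mul_le_mul_of_nonneg_left (pow_le_pow_of_le_one hr0.le hr (by norm_num))
        (by positivity)
    nlinarith
  have hh : |r2 z R ρ x - r ^ 2| ≤ G * r ^ 4 := by
    refine hh0.trans (mul_le_mul_of_nonneg_right ?_ (by positivity))
    rw [hG]; nlinarith [sq_nonneg C]
  have hr2b : |r2 z R ρ x| ≤ (1 + 2 * C + C ^ 2) * r ^ 2 := by
    have h1 : r2 z R ρ x = (r2 z R ρ x - r ^ 2) + r ^ 2 := by ring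
    rw [h1]
    refine (abs_add_le _ _).trans ?_
    rw [abs_of_nonneg (by positivity : 0 ≤ r ^ 2)]
    have h2 := mul_le_mul_of_nonneg_left r42 (by positivity : 0 ≤ 2 * C + C ^ 2)
    linarith
  have hτ2 : |τ x| ≤ T * r ^ 2 := hτ.trans (mul_le_mul_of_nonneg_left r31 hT0)
  have hg : |r2 z R ρ x + τ x| ≤ G * r ^ 2 := by
    refine (abs_add_le _ _).trans ((add_le_add hr2b hτ2).trans ?_)
    rw [hG]
    have h1 : 0 ≤ (2 * (1 + 2 * C + C ^ 2) + 3 * T) * r ^ 2 := by positivity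
    linarith
  have hg4 : |r2 z R ρ x + 4 * τ x| ≤ G * r ^ 2 := by
    refine (abs_add_le _ _).trans ?_
    rw [abs_mul, abs_of_pos (by norm_num : (0 : ℝ) < 4), hG]
    have h1 : 0 ≤ (2 * (1 + 2 * C + C ^ 2)) * r ^ 2 := by positivity
    linarith
  have hg3 : |3 * r2 z R ρ x + 4 * τ x| ≤ G * r ^ 2 := by
    refine (abs_add_le _ _).trans ?_
    rw [abs_mul, abs_mul, abs_of_pos (by norm_num : (0 : ℝ) < 4),
      abs_of_pos (by norm_num : (0 : ℝ) < 3), hG]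
    linarith
  have hhτ : |r2 z R ρ x - r ^ 2 + τ x| ≤ G * r ^ 3 := by
    refine (abs_add_le _ _).trans ?_
    have h1 := mul_le_mul_of_nonneg_left r43 (by positivity : 0 ≤ 2 * C + C ^ 2)
    rw [hG]
    have h2 : 0 ≤ (3 * (1 + 2 * C + C ^ 2) - (2 * C + C ^ 2) + 3 * T) * r ^ 3 := by
      have h3 : 0 ≤ 3 * (1 + 2 * C + C ^ 2) - (2 * C + C ^ 2) + 3 * T := by nlinarith [sq_nonneg C]
      positivity
    linarith
  -- the four terms
  have hE : ‖pf' z R ρ H x + (3 * pf z R ρ x * (r ^ 2)⁻¹) • (x - R i)‖ ≤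
      3 * C * ((r * u)⁻¹ + v⁻¹) * r⁻¹ := by
    refine hn.p'.trans (mul_le_mul_of_nonneg_right ?_ (by positivity))
    have h1 : 4 * Real.pi * ρ x ≤ C * (r * u)⁻¹ := hn.rho
    have h2 : ‖qf' z R ρ H (R i).fst x‖ ≤ C * v⁻¹ := hn.q'
    have h3 : 0 ≤ C * (r * u)⁻¹ := by positivity
    linarith
  have h1 : r ^ 2 * ‖(-(pf z R ρ x * (r2 z R ρ x + τ x) ^ 2)) • (pf' z R ρ H x +
      (3 * pf z R ρ x * (r ^ 2)⁻¹) • (x - R i))‖ ≤
      2 * z i * G ^ 2 * (3 * C) * (u + r ^ 2 * v⁻¹) := by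
    rw [norm_smul, norm_neg, Real.norm_eq_abs, abs_mul, abs_of_nonneg hp0, abs_pow]
    calc r ^ 2 * (pf z R ρ x * |r2 z R ρ x + τ x| ^ 2 * ‖pf' z R ρ H x +
          (3 * pf z R ρ x * (r ^ 2)⁻¹) • (x - R i)‖) ≤
        r ^ 2 * ((2 * z i * (r ^ 3)⁻¹) * (G * r ^ 2) ^ 2 *
          (3 * C * ((r * u)⁻¹ + v⁻¹) * r⁻¹)) := by gcongr
      _ = 2 * z i * G ^ 2 * (3 * C) * (r * u⁻¹ + r ^ 2 * v⁻¹) := by
          field_simp
      _ = 2 * z i * G ^ 2 * (3 * C) * (u + r ^ 2 * v⁻¹) := by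
          have : r * u⁻¹ = u := by
            rw [hq.ra]
            field_simp
          rw [this]
  have h2 : r ^ 2 * ‖(pf z R ρ x ^ 2 * (3 * ((r2 z R ρ x - r ^ 2) +
      (r2 z R ρ x - r ^ 2 + τ x) ^ 2 * (r ^ 2)⁻¹))) • (x - R i)‖ ≤
      12 * z i ^ 2 * (G + G ^ 2) * (u + r ^ 2 * v⁻¹) := by
    rw [norm_smul, Real.norm_eq_abs, abs_mul, abs_mul, abs_of_nonneg (by positivity :
      0 ≤ pf z R ρ x ^ 2), abs_of_pos (by norm_num : (0 : ℝ) < 3), ← hrdef]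
    have h3 : |(r2 z R ρ x - r ^ 2) + (r2 z R ρ x - r ^ 2 + τ x) ^ 2 * (r ^ 2)⁻¹| ≤
        (G + G ^ 2) * r ^ 4 := by
      refine (abs_add_le _ _).trans ?_
      rw [abs_mul, abs_pow, abs_of_nonneg (by positivity : 0 ≤ (r ^ 2)⁻¹)]
      have h4 : |r2 z R ρ x - r ^ 2 + τ x| ^ 2 * (r ^ 2)⁻¹ ≤ (G * r ^ 3) ^ 2 * (r ^ 2)⁻¹ := by
        gcongr
      have h5 : (G * r ^ 3) ^ 2 * (r ^ 2)⁻¹ = G ^ 2 * r ^ 4 := by field_simp
      linarith
    calc r ^ 2 * (pf z R ρ x ^ 2 * (3 * |(r2 z R ρ x - r ^ 2) +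
          (r2 z R ρ x - r ^ 2 + τ x) ^ 2 * (r ^ 2)⁻¹|) * r) ≤
        r ^ 2 * ((2 * z i * (r ^ 3)⁻¹) ^ 2 * (3 * ((G + G ^ 2) * r ^ 4)) * r) := by gcongr
      _ = 12 * z i ^ 2 * (G + G ^ 2) * r := by field_simp; ring
      _ ≤ 12 * z i ^ 2 * (G + G ^ 2) * (u + r ^ 2 * v⁻¹) := by
          refine mul_le_mul_of_nonneg_left ?_ (by positivity)
          have : 0 ≤ r ^ 2 * v⁻¹ := by positivity
          linarith
  have h3 : r ^ 2 * ‖(pf z R ρ x ^ 2 * (3 * r2 z R ρ x + 4 * τ x) * κ) • e1‖ ≤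
      4 * z i ^ 2 * G * C * (u + r ^ 2 * v⁻¹) := by
    rw [norm_smul, Real.norm_eq_abs, abs_mul, abs_mul, abs_of_nonneg (by positivity :
      0 ≤ pf z R ρ x ^ 2), norm_e1, mul_one]
    calc r ^ 2 * (pf z R ρ x ^ 2 * |3 * r2 z R ρ x + 4 * τ x| * |κ|) ≤
        r ^ 2 * ((2 * z i * (r ^ 3)⁻¹) ^ 2 * (G * r ^ 2) * (C * r ^ 3)) := by gcongr
      _ = 4 * z i ^ 2 * G * C * r := by field_simp; ring
      _ ≤ 4 * z i ^ 2 * G * C * (u + r ^ 2 * v⁻¹) := by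
          refine mul_le_mul_of_nonneg_left ?_ (by positivity)
          have : 0 ≤ r ^ 2 * v⁻¹ := by positivity
          linarith
  have h4 : r ^ 2 * ‖(pf z R ρ x ^ 2 * zt z R ρ x * (r2 z R ρ x + 4 * τ x)) • cf' z R ρ H x‖ ≤
      4 * z i ^ 2 * (1 + C) * G * C * (u + r ^ 2 * v⁻¹) := by
    have hc' : ‖cf' z R ρ H x‖ ≤ C * (r ^ 2 + r ^ 3 * v⁻¹) := hn.c'
    rw [norm_smul, Real.norm_eq_abs, abs_mul, abs_mul, abs_of_nonneg (by positivity :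
      0 ≤ pf z R ρ x ^ 2)]
    calc r ^ 2 * (pf z R ρ x ^ 2 * |zt z R ρ x| * |r2 z R ρ x + 4 * τ x| *
          ‖cf' z R ρ H x‖) ≤
        r ^ 2 * ((2 * z i * (r ^ 3)⁻¹) ^ 2 * ((1 + C) * r) * (G * r ^ 2) *
          (C * (r ^ 2 + r ^ 3 * v⁻¹))) := by gcongr
      _ = 4 * z i ^ 2 * (1 + C) * G * C * (r + r ^ 2 * v⁻¹) := by field_simp; ring
      _ ≤ 4 * z i ^ 2 * (1 + C) * G * C * (u + r ^ 2 * v⁻¹) := by gcongr
  rw [Jt_frame z R ρ H τ hR hr0]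
  have h5 : ∀ A B E F : X, r ^ 2 * ‖A + B + E + F‖ ≤
      r ^ 2 * ‖A‖ + r ^ 2 * ‖B‖ + r ^ 2 * ‖E‖ + r ^ 2 * ‖F‖ := by
    intro A B E F
    have h6 : ‖A + B + E + F‖ ≤ ‖A‖ + ‖B‖ + ‖E‖ + ‖F‖ :=
      (norm_add_le _ _).trans (add_le_add ((norm_add_le _ _).trans
        (add_le_add (norm_add_le _ _) le_rfl)) le_rfl)
    have h7 := mul_le_mul_of_nonneg_left h6 (by positivity : 0 ≤ r ^ 2)
    linarith
  refine (h5 _ _ _ _).trans ?_
  linarith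

/-- **the flux of the current `Jt` out of a nucleus** -/
theorem Dat.Jt_flux (D : Dat φ₀ z R ρ H lo hi) {i : ι} {δ C Q : ℝ} (hδ : 0 < δ) (hδ1 : δ ≤ 1)
    (hC : 0 ≤ C) (hz : 0 < z i)
    (hN : ∀ x ∈ ball (R i) δ, x ∉ Col.ax → NucB φ₀ z R ρ H i C Q x) {τ : X → ℝ}
    (hτc : ContinuousOn τ Col.axᶜ) {L : ℝ}
    (hL : Tendsto (fun x => pf z R ρ x * τ x) (𝓝[Col.axᶜ] (R i)) (𝓝 L)) :
    ∀ η : ℝ, 0 < η → ∀ᶠ ε in 𝓝[>] (0 : ℝ),
      |-(∫ x, ⟪Jt z R ρ H τ x, Flux.gcut ε (x - R i)⟫) - 8 * Real.pi * z i * L| ≤ η := by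
  have hRi : R i ∈ Col.ax := D.ax.on_axis i
  have hcont : ContinuousOn (Jt z R ρ H τ) Col.axᶜ := by
    have hp := D.c1_p.cont0
    have hr := D.c1_r2.cont0
    have hV : ContinuousOn (Vf z R ρ) Col.axᶜ := D.wd_V.contA
    unfold Jt
    exact (((hp.mul ((hr.add hτc).pow 2)).neg.smul D.c1_p.cont).add
      (((hp.pow 2).mul ((continuousOn_const.mul hr).add (continuousOn_const.mul hτc))).neg.smul
        hV)).add ((((hp.pow 2).mul D.c1_zt.cont0).mul (hr.add (continuousOn_const.mul hτc))).smul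
          D.c1_c.cont)
  have hm : ∀ ε : ℝ, 0 < ε → Integrable (fun x : X => shW ε (x - R i) * (2 * z i * L)) ∧
      ∫ x : X, shW ε (x - R i) * (2 * z i * L) = 8 * Real.pi * z i * L := by
    intro ε hε
    obtain ⟨h1, h2⟩ := shW_int (R i) hε
    refine ⟨h1.mul_const _, ?_⟩
    rw [integral_mul_const, h2]
    ring
  set T : ℝ := (|L| + 1) * (2 / z i) with hT
  set G : ℝ := 3 * (1 + 2 * C + C ^ 2) + 4 * T with hG
  set K : ℝ := 2 * z i * G ^ 2 * (3 * C) + 12 * z i ^ 2 * (G + G ^ 2) + 4 * z i ^ 2 * G * C +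
        4 * z i ^ 2 * (1 + C) * G * C with hK
  have hT0 : 0 ≤ T := by positivity
  have hG0 : 0 ≤ G := by positivity
  have hK0 : 0 ≤ K := by positivity
  set K2 : ℝ := K + 2 * (C * (|L| + 1)) + 1 with hK2
  have hK20 : 0 < K2 := by positivity
  refine near_flux hRi hcont hm (K := K) fun η hη => ball_of_off ?_
  have h1 : ∀ᶠ x in 𝓝[Col.axᶜ] (R i), |pf z R ρ x * τ x - L| ≤ min 1 (η / (4 * z i)) := by
    have h2 := (tendsto_iff_norm_sub_tendsto_zero.mp hL).eventually (gt_mem_nhds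
      (show (0 : ℝ) < min 1 (η / (4 * z i)) by positivity))
    filter_upwards [h2] with x hx
    exact hx.le
  have h2 := sqrt_small (a := R i) (e := η / (2 * K2)) (by positivity)
  filter_upwards [h1, h2, off_of_ball hδ hN, self_mem_nhdsWithin, mem_nhdsWithin_of_mem_nhds
    (ball_mem_nhds (R i) hδ)] with x hLx hsx hn hx hxb
  rw [mem_ball, dist_eq_norm] at hxb
  have hr : ‖x - R i‖ ≤ 1 := by linarith
  have hr0 : 0 < ‖x - R i‖ := hn.r_pos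
  have hq := Sq.mk' (ht_pos hx) hn.ht_le hr
  have hL1 : |pf z R ρ x * τ x| ≤ |L| + 1 := by
    have h3 := abs_sub_abs_le_abs_sub (pf z R ρ x * τ x) L
    have h4 := hLx.trans (min_le_left _ _)
    linarith
  have hp : 0 < pf z R ρ x := D.ax.pos x hx
  have hτ : |τ x| ≤ T * ‖x - R i‖ ^ 3 := by
    rw [abs_mul, abs_of_pos hp] at hL1
    have h3 := mul_le_mul_of_nonneg_right hn.p_lo (abs_nonneg (τ x))
    have h4 : z i / 2 * (‖x - R i‖ ^ 3)⁻¹ * |τ x| ≤ |L| + 1 := h3.trans hL1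
    have h5 : |τ x| = (z i / 2 * (‖x - R i‖ ^ 3)⁻¹ * |τ x|) * ((2 / z i) * ‖x - R i‖ ^ 3) := by
      field_simp
    rw [h5]
    calc (z i / 2 * (‖x - R i‖ ^ 3)⁻¹ * |τ x|) * ((2 / z i) * ‖x - R i‖ ^ 3) ≤
        (|L| + 1) * ((2 / z i) * ‖x - R i‖ ^ 3) :=
          mul_le_mul_of_nonneg_right h4 (by positivity)
      _ = T * ‖x - R i‖ ^ 3 := by rw [hT]; ring
  have h3 := Jt_near hx hn hC hz hr hRi hT0 hτ hG
  rw [← hK] at h3
  have h4 := radial_split hr0 (Jt z R ρ H τ x) (2 * pf z R ρ x ^ 2 * τ x)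
  set r := ‖x - R i‖ with hrdef
  have h5 : |2 * pf z R ρ x ^ 2 * τ x * r ^ 3 - 2 * z i * L| ≤
      2 * (C * (|L| + 1)) * √r + η / 2 := by
    have e1 : 2 * pf z R ρ x ^ 2 * τ x * r ^ 3 - 2 * z i * L =
        2 * ((r ^ 3 * pf z R ρ x - z i) * (pf z R ρ x * τ x)) +
          2 * z i * (pf z R ρ x * τ x - L) := by ring
    rw [e1]
    refine (abs_add_le _ _).trans ?_
    have e3 : ∀ A B : ℝ, |2 * (A * B)| = 2 * (|A| * |B|) := fun A B => by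
      rw [abs_mul, abs_mul, abs_of_pos (by norm_num : (0 : ℝ) < 2)]
    have e4 : ∀ A : ℝ, |2 * z i * A| = 2 * z i * |A| := fun A => by
      rw [abs_mul, abs_of_pos (by positivity : 0 < 2 * z i)]
    rw [e3, e4]
    have h6 : |r ^ 3 * pf z R ρ x - z i| ≤ C * √r := by
      have h7 := hn.p
      rw [← hrdef] at h7
      have e2 : r ^ 3 * pf z R ρ x - z i = r ^ 3 * (pf z R ρ x - z i * (r ^ 3)⁻¹) := by
        field_simp
      rw [e2, abs_mul, abs_of_pos (by positivity : 0 < r ^ 3)]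
      have h8 : r ^ 3 * (r⁻¹) ^ (7 / 4 : ℝ) ≤ √r := by
        have h9 : (r⁻¹) ^ (7 / 4 : ℝ) ≤ (r⁻¹) ^ (2 : ℝ) :=
          Real.rpow_le_rpow_of_exponent_le ((one_le_inv₀ hr0).mpr hr) (by norm_num)
        have h10 : (r⁻¹) ^ (2 : ℝ) = (r ^ 2)⁻¹ := by
          rw [show (2 : ℝ) = ((2 : ℕ) : ℝ) by norm_num, Real.rpow_natCast, inv_pow]
        rw [h10] at h9
        calc r ^ 3 * (r⁻¹) ^ (7 / 4 : ℝ) ≤ r ^ 3 * (r ^ 2)⁻¹ :=
              mul_le_mul_of_nonneg_left h9 (by positivity)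
          _ = r := by field_simp
          _ = √r * √r := (Real.mul_self_sqrt hr0.le).symm
          _ ≤ √r * 1 := mul_le_mul_of_nonneg_left hq.a1 hq.a0.le
          _ = √r := mul_one _
      calc r ^ 3 * |pf z R ρ x - z i * (r ^ 3)⁻¹| ≤
          r ^ 3 * (C * (r⁻¹) ^ (7 / 4 : ℝ)) := mul_le_mul_of_nonneg_left h7 (by positivity)
        _ = C * (r ^ 3 * (r⁻¹) ^ (7 / 4 : ℝ)) := by ring
        _ ≤ C * √r := mul_le_mul_of_nonneg_left h8 hC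
    have h7 : |r ^ 3 * pf z R ρ x - z i| * |pf z R ρ x * τ x| ≤ (C * √r) * (|L| + 1) :=
      mul_le_mul h6 hL1 (abs_nonneg _) (by positivity)
    have h8 : 2 * z i * |pf z R ρ x * τ x - L| ≤ η / 2 := by
      calc 2 * z i * |pf z R ρ x * τ x - L| ≤ 2 * z i * (η / (4 * z i)) :=
            mul_le_mul_of_nonneg_left (hLx.trans (min_le_right _ _)) (by positivity)
        _ = η / 2 := by field_simp; ring
    linarith
  have h6 : |r ^ 2 * ⟪Jt z R ρ H τ x, r⁻¹ • (x - R i)⟫ - 2 * z i * L| ≤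
      K * (√r + r ^ 2 * (√(Col.ht x))⁻¹) + (2 * (C * (|L| + 1)) * √r + η / 2) := by
    refine (abs_sub_le _ (2 * pf z R ρ x ^ 2 * τ x * r ^ 3) _).trans ?_
    exact add_le_add (h4.trans h3) h5
  refine h6.trans ?_
  have h7 : (K + 2 * (C * (|L| + 1))) * √r ≤ η / 2 := by
    calc (K + 2 * (C * (|L| + 1))) * √r ≤ K2 * (η / (2 * K2)) :=
          mul_le_mul (by linarith) hsx (Real.sqrt_nonneg _) hK20.le
      _ = η / 2 := by field_simp
  nlinarith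

/-! ### final forms -/

theorem off_neBot (a : X) : (𝓝[axᶜ] a).NeBot := by
  rw [← mem_closure_iff_nhdsWithin_neBot]
  have h : Dense (axᶜ : Set X) := by
    rw [← interior_eq_empty_iff_dense_compl]
    have h1 : (volume : Measure X) (interior (ax : Set X)) = 0 :=
      measure_mono_null interior_subset ax_null
    exact isOpen_interior.measure_eq_zero_iff (volume : Measure X) |>.mp h1
  exact h a

/-- the flux of `Jt`, `L` the limit of `p τ` -/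
theorem Dat.Jt_flux' (D : Dat φ₀ z R ρ H lo hi) (hz : ∀ i, 0 < z i)
    (hR : Function.Injective R) (i : ι) {τ : X → ℝ} (hτc : ContinuousOn τ Col.axᶜ) {L : ℝ}
    (hL : Tendsto (fun x => pf z R ρ x * τ x) (𝓝[Col.axᶜ] (R i)) (𝓝 L)) :
    ∀ η : ℝ, 0 < η → ∀ᶠ ε in 𝓝[>] (0 : ℝ),
      |-(∫ x, ⟪Jt z R ρ H τ x, Flux.gcut ε (x - R i)⟫) - 8 * Real.pi * z i * L| ≤ η := by
  obtain ⟨δ, C, Q, hδ, hδ1, hC, h⟩ := D.nuc_bounds hz hR i
  exact D.Jt_flux hδ hδ1 hC (hz i) h hτc hL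

/-- limit of `f = p (c - a) (b - c)` at one of the two nuclei -/
theorem Dat.ff_tendsto (D : Dat φ₀ z R ρ H lo hi) {i : ι} {δ C Q : ℝ} (hδ : 0 < δ) (hδ1 : δ ≤ 1)
    (hC : 0 ≤ C) (hN : ∀ x ∈ ball (R i) δ, x ∉ Col.ax → NucB φ₀ z R ρ H i C Q x) {a b β : ℝ}
    (hβ : a + b - 2 * (R i).fst = β) (hab : (a - (R i).fst) * (b - (R i).fst) = 0) :
    Tendsto (ff z R ρ a b) (𝓝[Col.axᶜ] (R i)) (𝓝 (Q * β)) := by
  have h1 := qf_tendsto hδ hN
  have h2 : Tendsto (fun x => cf z R ρ x - (R i).fst) (𝓝[Col.axᶜ] (R i)) (𝓝 0) := by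
    rw [tendsto_zero_iff_abs_tendsto_zero]
    have h3 : Tendsto (fun x : X => C * ‖x - R i‖ ^ 3) (𝓝[Col.axᶜ] R i) (𝓝 0) := by
      have h2 : Continuous fun x : X => C * ‖x - R i‖ ^ 3 := by fun_prop
      have h3 := (h2.tendsto (R i)).mono_left (nhdsWithin_le_nhds (s := Col.axᶜ))
      simpa using h3
    refine squeeze_zero' (Eventually.of_forall fun x => abs_nonneg _) ?_ h3
    filter_upwards [off_of_ball hδ hN] with x hn
    exact hn.c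
  have h3 := h1.mul (h2.const_sub β)
  rw [sub_zero] at h3
  refine h3.congr fun x => ?_
  unfold ff qf tq
  rw [← hβ]
  linear_combination (pf z R ρ x) * hab

/-- the flux of `NH`, `L` the limit of `f = p (c - a) (b - c)` -/
theorem Dat.NH_flux' (D : Dat φ₀ z R ρ H lo hi) (hz : ∀ i, 0 < z i)
    (hR : Function.Injective R) (i : ι) {a b : ℝ} (hab : (R i).fst = a ∨ (R i).fst = b) {L : ℝ}
    (hL : Tendsto (ff z R ρ a b) (𝓝[Col.axᶜ] (R i)) (𝓝 L)) :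
    ∀ η : ℝ, 0 < η → ∀ᶠ ε in 𝓝[>] (0 : ℝ),
      |-(∫ x, ⟪NH φ₀ z R ρ H a b x, Flux.gcut ε (x - R i)⟫) - 8 * Real.pi * z i * L| ≤ η := by
  obtain ⟨δ, C, Q, hδ, hδ1, hC, h⟩ := D.nuc_bounds hz hR i
  have hab' : (a - (R i).fst) * (b - (R i).fst) = 0 := by
    rcases hab with h | h
    · rw [h, sub_self, zero_mul]
    · rw [h, sub_self, mul_zero]
  have hL2 := D.ff_tendsto hδ hδ1 hC h rfl hab'
  have := off_neBot (R i)
  rw [tendsto_nhds_unique hL hL2]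
  exact D.NH_flux hδ hδ1 hC (hz i) h rfl hab'

/-- the flux of `s² p² Φ ∇c`, `Q` the limit of `p (c - t)` -/
theorem Dat.phi_flux' (D : Dat φ₀ z R ρ H lo hi) (hz : ∀ i, 0 < z i)
    (hR : Function.Injective R) (i : ι) {Φ : X → ℝ} (hΦc : ContinuousOn Φ Col.axᶜ) {Φ₀ Q : ℝ}
    (hΦ : Tendsto Φ (𝓝[Col.axᶜ] (R i)) (𝓝 Φ₀))
    (hQ : Tendsto (qf z R ρ (R i).fst) (𝓝[Col.axᶜ] (R i)) (𝓝 Q)) :
    ∀ η : ℝ, 0 < η → ∀ᶠ ε in 𝓝[>] (0 : ℝ),
      |-(∫ x, ⟪(ht x ^ 2 * pf z R ρ x ^ 2 * Φ x) • cf' z R ρ H x, Flux.gcut ε (x - R i)⟫) -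
        8 * Real.pi * z i * (Q * Φ₀)| ≤ η := by
  obtain ⟨δ, C, Q', hδ, hδ1, hC, h⟩ := D.nuc_bounds hz hR i
  have := off_neBot (R i)
  rw [tendsto_nhds_unique hQ (qf_tendsto hδ h)]
  exact D.phi_flux hδ hδ1 hC (hz i) h hΦc hΦ

end Pool.Agent.TF.Col
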