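import Pool.Agent.Lib.MP_9cf0c9_mp.ColAxb36
import Pool.Agent.Lib.MP_9cf0c9_mp.ColTang36
import Pool.Agent.Lib.MP_9cf0c9_mp.FluxNuc33
import Pool.Agent.Lib.MP_9cf0c9_mp.Far74

/-! Two nuclei: the trials `p (r² + κ (c - a) (b - c))` with constant `κ`; from a certificate for the
mixed density to a certificate for the trial. -/

set_option autoImplicit false
set_option linter.unusedSectionVars false
set_option linter.unusedVariables false

namespace Pool.Agent.TF.Col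
open MeasureTheory Set Metric Filter Topology
open scoped ENNReal NNReal RealInnerProductSpace Gradient
open Pool.Agent.TF.Grd

variable {ι : Type*} [Fintype ι]
variable {φ₀ : ℝ} {z : ι → ℝ} {R : ι → X} {ρ : X → ℝ} {H : X → X →L[ℝ] X} {lo hi : ℝ}

/-- the trial with the constant `κ` -/
noncomputable def Yk (z : ι → ℝ) (R : ι → X) (ρ : X → ℝ) (a b κ : ℝ) : X → ℝ :=
  Yt z R ρ fun x => κ * tq z R ρ a b x

noncomputable def Yk' (z : ι → ℝ) (R : ι → X) (ρ : X → ℝ) (H : X → X →L[ℝ] X) (a b κ : ℝ) :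
    X → X :=
  Yt' z R ρ H (fun x => κ * tq z R ρ a b x) fun x => κ • tq' z R ρ H a b x

/-- the density for the constant `κ` -/
noncomputable def QK (φ₀ : ℝ) (z : ι → ℝ) (R : ι → X) (ρ : X → ℝ) (H : X → X →L[ℝ] X)
    (a b κ : ℝ) (x : X) : ℝ :=
  (1 - κ) * (pf z R ρ x ^ 2 * ((ht x ^ 2 - zt z R ρ x ^ 2) *
    (cx z R ρ H x ^ 2 + cs z R ρ H x ^ 2))) + κ * QH φ₀ z R ρ H a b x +
  κ * (1 - κ) * (‖ff' z R ρ H a b x‖ ^ 2 +
    4 * Real.pi * gam (psi φ₀ z R ρ x) * ff z R ρ a b x ^ 2)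

theorem Yk_eq (z : ι → ℝ) (R : ι → X) (ρ : X → ℝ) (a b κ : ℝ) (x : X) :
    Yk z R ρ a b κ x = Yt z R ρ (fun _ => 0) x + κ * ff z R ρ a b x := by
  unfold Yk Yt ff
  ring

theorem Yk'_eq (z : ι → ℝ) (R : ι → X) (ρ : X → ℝ) (H : X → X →L[ℝ] X) (a b κ : ℝ) (x : X) :
    Yk' z R ρ H a b κ x = Yt' z R ρ H (fun _ => 0) (fun _ => 0) x + κ • ff' z R ρ H a b x := by
  unfold Yk' Yt' ff'
  module

theorem YY_eq (z : ι → ℝ) (R : ι → X) (ρ : X → ℝ) (a b : ℝ) (x : X) :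
    YY z R ρ a b x = Yt z R ρ (fun _ => 0) x + ff z R ρ a b x := by
  unfold YY Yt ff
  ring

theorem YY'_eq (z : ι → ℝ) (R : ι → X) (ρ : X → ℝ) (H : X → X →L[ℝ] X) (a b : ℝ) (x : X) :
    YY' z R ρ H a b x = Yt' z R ρ H (fun _ => 0) (fun _ => 0) x + ff' z R ρ H a b x := by
  unfold YY' Yt' ff'
  module

/-- the density `Fd` along a line of trials -/
theorem Fd_line (φ₀ : ℝ) (z : ι → ℝ) (R : ι → X) (ρ : X → ℝ) (H : X → X →L[ℝ] X) (a b κ : ℝ)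
    (x : X) :
    Fd φ₀ z R ρ (Yk z R ρ a b κ) (Yk' z R ρ H a b κ) x =
      (1 - κ) * Fd φ₀ z R ρ (Yt z R ρ fun _ => 0) (Yt' z R ρ H (fun _ => 0) fun _ => 0) x +
      κ * Fd φ₀ z R ρ (YY z R ρ a b) (YY' z R ρ H a b) x +
      κ * (1 - κ) * (‖ff' z R ρ H a b x‖ ^ 2 +
        4 * Real.pi * gam (psi φ₀ z R ρ x) * ff z R ρ a b x ^ 2) := by
  unfold Fd
  rw [Yk_eq, Yk'_eq, YY_eq, YY'_eq]
  have h1 : ∀ t : ℝ, ‖Yt' z R ρ H (fun _ => 0) (fun _ => 0) x + t • ff' z R ρ H a b x‖ ^ 2 =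
      ‖Yt' z R ρ H (fun _ => 0) (fun _ => 0) x‖ ^ 2 +
        2 * t * ⟪Yt' z R ρ H (fun _ => 0) (fun _ => 0) x, ff' z R ρ H a b x⟫ +
        t ^ 2 * ‖ff' z R ρ H a b x‖ ^ 2 := by
    intro t
    rw [norm_add_sq_real, real_inner_smul_right, norm_smul, mul_pow, Real.norm_eq_abs, sq_abs]
    ring
  have h2 := h1 1
  rw [one_smul] at h2
  rw [h1 κ, h2]
  ring

/-- a certificate for the mixed density, up to the error `η` -/
structure CertK (φ₀ : ℝ) (z : ι → ℝ) (R : ι → X) (ρ : X → ℝ) (H : X → X →L[ℝ] X) (a b κ : ℝ)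
    (η : ℝ) (J : X → X) (d e : X → ℝ) : Prop where
  wd : WD J d
  int : Integrable e
  int_le : ∫ x, e x ≤ η
  axb : AxB R J
  dens : ∀ x, x ∉ ax → d x ≤ QK φ₀ z R ρ H a b κ x + e x
  nuc : ∀ i, ∀ᶠ ε in 𝓝[>] (0 : ℝ), -∫ x, ⟪J x, Flux.gcut ε (x - R i)⟫ ≤ η
  inf : ∀ δ : ℝ, 0 < δ → ∀ᶠ N in atTop, ∫ x, ⟪J x, Flux.gcut N x⟫ ≤ δ

/-- the limit of `f` at the nuclei -/
theorem Dat.ff_lim (D : Dat φ₀ z R ρ H lo hi) (hz : ∀ i, 0 < z i) (hR : Function.Injective R)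
    {a b : ℝ} (hab : ∀ i, (R i).fst = a ∨ (R i).fst = b) :
    ∃ L : ι → ℝ, ∀ i, Tendsto (ff z R ρ a b) (𝓝[Col.axᶜ] (R i)) (𝓝 (L i)) := by
  have h : ∀ i, ∃ l, Tendsto (ff z R ρ a b) (𝓝[Col.axᶜ] (R i)) (𝓝 l) := by
    intro i
    obtain ⟨δ, C, Q, hδ, hδ1, hC, hN⟩ := D.nuc_bounds hz hR i
    have hab' : (a - (R i).fst) * (b - (R i).fst) = 0 := by
      rcases hab i with h | h
      · rw [h, sub_self, zero_mul]
      · rw [h, sub_self, mul_zero]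
    exact ⟨_, D.ff_tendsto hδ hδ1 hC hN rfl hab'⟩
  choose L hL using h
  exact ⟨L, hL⟩

/-- the current of the mixed form -/
noncomputable def JK (φ₀ : ℝ) (z : ι → ℝ) (R : ι → X) (ρ : X → ℝ) (H : X → X →L[ℝ] X)
    (a b κ : ℝ) (x : X) : X :=
  (1 - κ) • Jt z R ρ H (fun _ => 0) x + κ • NH φ₀ z R ρ H a b x

theorem Dat.wd_JK (D : Dat φ₀ z R ρ H lo hi) (a b κ : ℝ) :
    WD (JK φ₀ z R ρ H a b κ) fun x =>
      Fd φ₀ z R ρ (Yk z R ρ a b κ) (Yk' z R ρ H a b κ) x - QK φ₀ z R ρ H a b κ x := by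
  have h1 := (D.wd_J (C1O.const 0)).const_smul (1 - κ)
  have h2 := (D.wd_NH a b).const_smul κ
  refine (h1.add h2).congr (fun x _ => rfl) fun x hx => ?_
  rw [Fd_line]
  have h3 := D.id51 (fun _ => 0) (fun _ => 0) hx
  have h4 : Fd φ₀ z R ρ (Yt z R ρ fun _ => 0) (Yt' z R ρ H (fun _ => 0) fun _ => 0) x =
      dJt φ₀ z R ρ H (fun _ => 0) (fun _ => 0) x + Qt z R ρ H (fun _ => 0) (fun _ => 0) x := h3
  have h5 : Qt z R ρ H (fun _ => 0) (fun _ => 0) x = pf z R ρ x ^ 2 *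
      ((ht x ^ 2 - zt z R ρ x ^ 2) * (cx z R ρ H x ^ 2 + cs z R ρ H x ^ 2)) := by
    unfold Qt
    rw [norm_zero]
    ring
  rw [h4, h5]
  unfold QK
  ring

theorem Dat.axb_JK (D : Dat φ₀ z R ρ H lo hi) (a b κ : ℝ) : AxB R (JK φ₀ z R ρ H a b κ) := by
  have h1 : AxB R (Jt z R ρ H fun _ => 0) := D.axb_Jt fun x₀ _ _ =>
    ⟨0, 1, one_pos, fun x _ _ => by simp⟩
  exact (h1.smul (1 - κ)).add ((D.axb_NH a b).smul κ)

/-- fluxes of a linear combination at a nucleus -/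
theorem flux_lin {J₁ J₂ : X → X} {s t : ℝ} {G : X → X}
    (h1 : Integrable fun x => ⟪J₁ x, G x⟫) (h2 : Integrable fun x => ⟪J₂ x, G x⟫) :
    ∫ x, ⟪s • J₁ x + t • J₂ x, G x⟫ = s * (∫ x, ⟪J₁ x, G x⟫) + t * ∫ x, ⟪J₂ x, G x⟫ := by
  rw [← integral_const_mul, ← integral_const_mul,
    ← integral_add (h1.const_mul s) (h2.const_mul t)]
  simp_rw [inner_add_left, real_inner_smul_left]

theorem Dat.flux_JK (D : Dat φ₀ z R ρ H lo hi) (hz : ∀ i, 0 < z i) (hR : Function.Injective R)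
    {a b : ℝ} (hab : ∀ i, (R i).fst = a ∨ (R i).fst = b) (κ : ℝ) {L : ι → ℝ}
    (hL : ∀ i, Tendsto (ff z R ρ a b) (𝓝[Col.axᶜ] (R i)) (𝓝 (L i))) (i : ι) :
    ∀ η : ℝ, 0 < η → ∀ᶠ ε in 𝓝[>] (0 : ℝ),
      |-(∫ x, ⟪JK φ₀ z R ρ H a b κ x, Flux.gcut ε (x - R i)⟫) - 8 * Real.pi * z i * (κ * L i)| ≤
        η := by
  intro η hη
  set s := |1 - κ| + |κ| + 1 with hs
  have hs0 : 0 < s := by positivity
  have h0 : AxB R (Jt z R ρ H fun _ => 0) := D.axb_Jt fun x₀ _ _ =>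
    ⟨0, 1, one_pos, fun x _ _ => by simp⟩
  have h1 := D.Jt_flux' hz hR i (τ := fun _ => 0) continuousOn_const (L := 0)
    (by simp only [mul_zero]; exact tendsto_const_nhds) (η / s) (by positivity)
  have h2 := D.NH_flux' hz hR i (hab i) (hL i) (η / s) (by positivity)
  have i1 := flux_integrable_nuc (D.wd_J (C1O.const (0 : ℝ))).contA h0 i
  have i2 := flux_integrable_nuc (D.cont_NH a b) (D.axb_NH a b) i
  filter_upwards [h1, h2, i1, i2] with ε h1 h2 i1 i2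
  unfold JK
  rw [flux_lin i1 i2]
  have e : -((1 - κ) * (∫ x, ⟪Jt z R ρ H (fun _ => 0) x, Flux.gcut ε (x - R i)⟫) +
      κ * ∫ x, ⟪NH φ₀ z R ρ H a b x, Flux.gcut ε (x - R i)⟫) - 8 * Real.pi * z i * (κ * L i) =
      (1 - κ) * (-(∫ x, ⟪Jt z R ρ H (fun _ => 0) x, Flux.gcut ε (x - R i)⟫) -
        8 * Real.pi * z i * 0) +
      κ * (-(∫ x, ⟪NH φ₀ z R ρ H a b x, Flux.gcut ε (x - R i)⟫) - 8 * Real.pi * z i * L i) := by
    ring
  rw [e]
  refine (abs_add_le _ _).trans ?_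
  rw [abs_mul, abs_mul]
  have h3 := mul_le_mul_of_nonneg_left h1 (abs_nonneg (1 - κ))
  have h4 := mul_le_mul_of_nonneg_left h2 (abs_nonneg κ)
  have h5 : (|1 - κ| + |κ|) * (η / s) ≤ η := by
    rw [mul_div_assoc', div_le_iff₀ hs0, hs]
    nlinarith
  linarith

theorem Dat.flux_JK_inf (D : Dat φ₀ z R ρ H lo hi) (a b κ : ℝ) :
    Tendsto (fun M : ℝ => ∫ x, ⟪JK φ₀ z R ρ H a b κ x, Flux.gcut M x⟫) atTop (𝓝 0) := by
  obtain ⟨C, N, F⟩ := D.farB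
  have h0 : AxB R (Jt z R ρ H fun _ => 0) := D.axb_Jt fun x₀ _ _ =>
    ⟨0, 1, one_pos, fun x _ _ => by simp⟩
  have h1 := F.flux_Jt D (τ := fun _ => 0) (T := 0) fun x _ _ => by simp
  have h2 := F.flux_NH D a b
  have i1 := flux_integrable_inf (R := R) (D.wd_J (C1O.const (0 : ℝ))).contA h0
  have i2 := flux_integrable_inf (R := R) (D.cont_NH a b) (D.axb_NH a b)
  have h3 := (h1.const_mul (1 - κ)).add (h2.const_mul κ)
  rw [mul_zero, mul_zero, add_zero] at h3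
  refine h3.congr' ?_
  filter_upwards [i1, i2] with M i1 i2
  unfold JK
  rw [flux_lin i1 i2]

/-- **from the mixed form to the trial** -/
theorem Dat.certJ_of_certK (D : Dat φ₀ z R ρ H lo hi) (hz : ∀ i, 0 < z i)
    (hR : Function.Injective R) {a b : ℝ} (hab : ∀ i, (R i).fst = a ∨ (R i).fst = b) {κ η : ℝ}
    (hη : 0 < η) {L : ι → ℝ} (hL : ∀ i, Tendsto (ff z R ρ a b) (𝓝[Col.axᶜ] (R i)) (𝓝 (L i)))
    {J : X → X} {d e : X → ℝ} (h : CertK φ₀ z R ρ H a b κ (η / 2) J d e) :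
    CertJ φ₀ z R ρ (Yk z R ρ a b κ) (Yk' z R ρ H a b κ) (fun i => κ * L i) η
      (fun x => JK φ₀ z R ρ H a b κ x + J x)
      (fun x => Fd φ₀ z R ρ (Yk z R ρ a b κ) (Yk' z R ρ H a b κ) x - QK φ₀ z R ρ H a b κ x + d x)
      e where
  wd := (D.wd_JK a b κ).add h.wd
  int := h.int
  int_le := h.int_le.trans (by linarith)
  axb := (D.axb_JK a b κ).add h.axb
  dens := fun x hx => by linarith [h.dens x hx]
  nuc := fun i => by
    have h1 := D.flux_JK hz hR hab κ hL i (η / 2) (by positivity)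
    have i1 := flux_integrable_nuc (D.wd_JK a b κ).contA (D.axb_JK a b κ) i
    have i2 := flux_integrable_nuc h.wd.contA h.axb i
    filter_upwards [h1, h.nuc i, i1, i2] with ε h1 h2 i1 i2
    have h3 := flux_lin (s := 1) (t := 1) i1 i2
    simp only [one_smul, one_mul] at h3
    rw [h3]
    have h4 := (abs_le.mp h1).2
    linarith
  inf := fun δ hδ => by
    have h1 := flux_inf_le (D.flux_JK_inf a b κ) (δ / 2) (by positivity)
    have i1 := flux_integrable_inf (R := R) (D.wd_JK a b κ).contA (D.axb_JK a b κ)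
    have i2 := flux_integrable_inf (R := R) h.wd.contA h.axb
    filter_upwards [h1, h.inf (δ / 2) (by positivity), i1, i2] with N h1 h2 i1 i2
    have h3 := flux_lin (s := 1) (t := 1) i1 i2
    simp only [one_smul, one_mul] at h3
    rw [h3]
    linarith

end Pool.Agent.TF.Col

namespace Pool.Agent.Lib.MP_9cf0c9_mp
open MeasureTheory Set Filter Topology Pool.Agent

/-- **the end theorem for the trials with constant `κ`** (which may depend on the solution), from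
the trial functions and certificates for the mixed density -/
theorem two_of_certK_of
    (hTr : ∀ φ₀ : ℝ, 0 < φ₀ → ∀ z : Fin 2 → ℝ, (∀ i, 0 < z i) → ∀ R : Fin 2 → TF.X,
      (∀ i, R i ∈ TF.Col.ax) → (R 0).fst < (R 1).fst →
      ∀ ρ : TF.X → ℝ, ∀ Hs : TF.X → TF.X →L[ℝ] TF.X,
      TF.Col.Dat φ₀ z R ρ Hs (R 0).fst (R 1).fst → ∀ κ : ℝ, ∀ L : Fin 2 → ℝ,
      (∀ i, Tendsto (TF.Col.ff z R ρ (R 0).fst (R 1).fst) (𝓝[TF.Col.axᶜ] (R i)) (𝓝 (L i))) →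
      ∃ (K : TF.X → ℝ) (K' : TF.X → TF.X), TF.Col.TrY z R
        (TF.Col.Yk z R ρ (R 0).fst (R 1).fst κ) (TF.Col.Yk' z R ρ Hs (R 0).fst (R 1).fst κ)
        (fun i => κ * L i) K K')
    (H : ∀ φ₀ : ℝ, 0 < φ₀ → ∀ z : Fin 2 → ℝ, (∀ i, 0 < z i) → ∀ R : Fin 2 → TF.X,
      (∀ i, R i ∈ TF.Col.ax) → (R 0).fst < (R 1).fst →
      ∀ ρ : TF.X → ℝ, ∀ Hs : TF.X → TF.X →L[ℝ] TF.X,
      TF.Col.Dat φ₀ z R ρ Hs (R 0).fst (R 1).fst → ∀ η : ℝ, 0 < η →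
      ∃ (κ : ℝ) (J : TF.X → TF.X) (d e : TF.X → ℝ),
        TF.Col.CertK φ₀ z R ρ Hs (R 0).fst (R 1).fst κ η J d e)
    (z : Fin 2 → ℝ) (hz : ∀ j, 0 ≤ z j) (R : Fin 2 → E3) (hR : Function.Injective R)
    (lam : ℝ) (hlam : 0 ≤ lam) : Target z R lam := by
  refine two_of_trial (fun φ₀ hφ z hzp R hax hlt ρ Hs D η hη => ?_) z hz R hR lam hlam
  have hRi : Function.Injective R := by
    intro i j hij
    fin_cases i <;> fin_cases j
    · rfl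
    · have := congrArg (fun v : TF.X => v.fst) hij
      exact absurd this hlt.ne
    · have := congrArg (fun v : TF.X => v.fst) hij
      exact absurd this hlt.ne'
    · rfl
  have hab : ∀ i, (R i).fst = (R 0).fst ∨ (R i).fst = (R 1).fst := fun i => by
    fin_cases i
    · exact Or.inl rfl
    · exact Or.inr rfl
  obtain ⟨κ, J, d, e, hJ⟩ := H φ₀ hφ z hzp R hax hlt ρ Hs D (η / 2) (by positivity)
  obtain ⟨L, hL⟩ := D.ff_lim hzp hRi hab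
  obtain ⟨K, K', hK⟩ := hTr φ₀ hφ z hzp R hax hlt ρ Hs D κ L hL
  exact ⟨_, _, _, K, K', _, _, e, hK, D.certJ_of_certK hzp hRi hab hη hL hJ⟩

end Pool.Agent.Lib.MP_9cf0c9_mp
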