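import Pool.Agent.Lib.MP_9cf0c9_mp.ColTrial36
import Pool.Agent.Lib.MP_9cf0c9_mp.ColGlue83
import Pool.Agent.Lib.MP_9cf0c9_mp.Col58H2
import Pool.Agent.Lib.MP_9cf0c9_mp.Axis39
import Pool.Agent.Lib.MP_9cf0c9_mp.ColAxis36

/-! Two nuclei: the end theorem, with a certificate as hypothesis. -/

set_option autoImplicit false
set_option linter.unusedSectionVars false
set_option linter.unusedVariables false
set_option linter.style.haveILetI false

namespace Pool.Agent.TF.Col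
open MeasureTheory Set Metric Filter Topology
open scoped ENNReal NNReal RealInnerProductSpace Gradient
open Pool.Agent.TF.Grd

variable {ι : Type*} [Fintype ι]
variable {φ₀ : ℝ} {z : ι → ℝ} {R : ι → X} {ρ : X → ℝ}

/-- moderate singularity at the axis off the nuclei -/
def AxB (R : ι → X) (J : X → X) : Prop :=
  ∀ x₀ ∈ ax, (∀ i, x₀ ≠ R i) → ∃ C δ : ℝ, 0 < δ ∧ ∀ x ∈ ball x₀ δ, x ∉ ax →
    ‖J x‖ ^ 2 ≤ C * (ht x)⁻¹

theorem AxB.add {J K : X → X} (hJ : AxB R J) (hK : AxB R K) : AxB R fun x => J x + K x := by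
  intro x₀ h0 hR
  obtain ⟨C, δ, hδ, h1⟩ := hJ x₀ h0 hR
  obtain ⟨C', δ', hδ', h2⟩ := hK x₀ h0 hR
  refine ⟨2 * (C + C'), min δ δ', lt_min hδ hδ', fun x hx hxa => ?_⟩
  have a1 := h1 x (ball_subset_ball (min_le_left _ _) hx) hxa
  have a2 := h2 x (ball_subset_ball (min_le_right _ _) hx) hxa
  have a3 : ‖J x + K x‖ ^ 2 ≤ 2 * ‖J x‖ ^ 2 + 2 * ‖K x‖ ^ 2 := by
    have := norm_add_le (J x) (K x)
    have h0 := norm_nonneg (J x + K x)
    nlinarith [sq_nonneg (‖J x‖ - ‖K x‖), norm_nonneg (J x), norm_nonneg (K x)]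
  calc ‖J x + K x‖ ^ 2 ≤ 2 * ‖J x‖ ^ 2 + 2 * ‖K x‖ ^ 2 := a3
    _ ≤ 2 * (C * (ht x)⁻¹) + 2 * (C' * (ht x)⁻¹) := by linarith
    _ = 2 * (C + C') * (ht x)⁻¹ := by ring

theorem AxB.smul {J : X → X} (hJ : AxB R J) (c : ℝ) : AxB R fun x => c • J x := by
  intro x₀ h0 hR
  obtain ⟨C, δ, hδ, h1⟩ := hJ x₀ h0 hR
  refine ⟨c ^ 2 * C, δ, hδ, fun x hx hxa => ?_⟩
  rw [norm_smul, mul_pow, Real.norm_eq_abs, sq_abs, mul_assoc]
  exact mul_le_mul_of_nonneg_left (h1 x hx hxa) (sq_nonneg c)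

/-- the flux integrals exist on shells without nuclei -/
theorem flux_integrable {J : X → X} (hJ : ContinuousOn J axᶜ) (hax : AxB R J) {c : X} {ε : ℝ}
    (hε : 0 < ε) (hR : ∀ i, ‖R i - c‖ < ε ∨ 2 * ε < ‖R i - c‖) :
    Integrable fun x => ⟪J x, Flux.gcut ε (x - c)⟫ := by
  set K : Set X := closedBall c (2 * ε) \ ball c ε with hK
  have hKc : IsCompact K := (isCompact_closedBall c (2 * ε)).diff isOpen_ball
  have hKR : ∀ i, R i ∉ K := by
    intro i hi
    have h1 := hi.1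
    have h2 := hi.2
    rw [mem_closedBall, dist_eq_norm] at h1
    rw [mem_ball, dist_eq_norm] at h2
    rcases hR i with h | h
    · exact h2 h
    · linarith
  have h1 := locInt_sq hJ hax K hKc hKR
  have hm := off_ax_meas hJ
  have h2 : IntegrableOn (fun x => ‖J x‖) K := by
    refine ((integrableOn_const hKc.measure_lt_top.ne (C := (1 : ℝ))).add h1).mono'
      hm.norm.restrict (Eventually.of_forall fun x => ?_)
    rw [norm_norm, Pi.add_apply]
    nlinarith [sq_nonneg (‖J x‖ - 1), norm_nonneg (J x)]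
  have h3 : Integrable (K.indicator fun x => ε⁻¹ * ‖J x‖) :=
    (integrable_indicator_iff hKc.isClosed.measurableSet).2 (h2.const_mul _)
  refine h3.mono' (hm.inner ((Flux.gcut_meas ε).comp (measurable_id.sub_const c)).aestronglyMeasurable)
    (Eventually.of_forall fun x => ?_)
  by_cases hx : x ∈ K
  · rw [indicator_of_mem hx]
    refine (norm_inner_le_norm _ _).trans ?_
    rw [mul_comm]
    exact mul_le_mul_of_nonneg_right (Flux.norm_gcut_le hε _) (norm_nonneg _)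
  · have e : Flux.gcut ε (x - c) = 0 := by
      unfold Flux.gcut
      rw [indicator_of_notMem, zero_smul]
      intro h
      apply hx
      refine ⟨?_, ?_⟩
      · rw [mem_closedBall, dist_eq_norm]; exact h.2.le
      · rw [mem_ball, dist_eq_norm]; exact not_lt.mpr h.1.le
    rw [e, inner_zero_right, norm_zero]
    exact indicator_nonneg (fun _ _ => by positivity) x

theorem flux_integrable_nuc {J : X → X} (hJ : ContinuousOn J axᶜ) (hax : AxB R J) (i : ι) :
    ∀ᶠ ε in 𝓝[>] (0 : ℝ), Integrable fun x => ⟪J x, Flux.gcut ε (x - R i)⟫ := by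
  have h1 : ∀ᶠ ε in 𝓝[>] (0 : ℝ), ∀ j, ‖R j - R i‖ < ε ∨ 2 * ε < ‖R j - R i‖ := by
    refine eventually_all.mpr fun j => ?_
    by_cases h : R j = R i
    · filter_upwards [self_mem_nhdsWithin] with ε hε
      left
      rw [h, sub_self, norm_zero]
      exact hε
    · have h2 : 0 < ‖R j - R i‖ := norm_pos_iff.mpr (sub_ne_zero.mpr h)
      filter_upwards [mem_nhdsWithin_of_mem_nhds (Iio_mem_nhds (half_pos h2))] with ε hε
      right
      have : ε < ‖R j - R i‖ / 2 := hε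
      linarith
  filter_upwards [h1, self_mem_nhdsWithin] with ε h2 hε
  exact flux_integrable hJ hax hε h2

theorem flux_integrable_inf {J : X → X} (hJ : ContinuousOn J axᶜ) (hax : AxB R J) :
    ∀ᶠ N in atTop, Integrable fun x => ⟪J x, Flux.gcut N x⟫ := by
  have h1 : ∀ᶠ N : ℝ in atTop, ∀ j, ‖R j - 0‖ < N ∨ 2 * N < ‖R j - 0‖ := by
    refine eventually_all.mpr fun j => ?_
    filter_upwards [eventually_gt_atTop ‖R j - 0‖] with N hN
    exact Or.inl hN
  filter_upwards [h1, eventually_gt_atTop 0] with N h2 hN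
  have := flux_integrable hJ hax hN h2
  simpa using this

/-- a certificate for the trial `Y` with the values `L` at the nuclei, up to the error `η` -/
structure CertJ (φ₀ : ℝ) (z : ι → ℝ) (R : ι → X) (ρ : X → ℝ) (Y : X → ℝ) (Y' : X → X)
    (L : ι → ℝ) (η : ℝ) (J : X → X) (d e : X → ℝ) : Prop where
  wd : WD J d
  int : Integrable e
  int_le : ∫ x, e x ≤ η
  axb : AxB R J
  dens : ∀ x, x ∉ ax → d x ≤ Fd φ₀ z R ρ Y Y' x + e x
  nuc : ∀ i, ∀ᶠ ε in 𝓝[>] (0 : ℝ),
    -∫ x, ⟪J x, Flux.gcut ε (x - R i)⟫ ≤ 8 * Real.pi * (z i * L i) + η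
  inf : ∀ δ : ℝ, 0 < δ → ∀ᶠ N in atTop, ∫ x, ⟪J x, Flux.gcut N x⟫ ≤ δ

/-- the trial function `K = Y - V` -/
structure TrY (z : ι → ℝ) (R : ι → X) (Y : X → ℝ) (Y' : X → X) (L : ι → ℝ) (K : X → ℝ)
    (K' : X → X) : Prop where
  tr : TrialK ax K K'
  hI : ∀ i, Integrable fun x => (‖x - R i‖ ^ 2)⁻¹ * ‖K' x‖
  val : ∀ x, x ∉ ax → Vpt z R x + K x = Y x
  grad : ∀ x, x ∉ ax → gVpt z R x + K' x = Y' x
  pole : ∀ i, Vpt z R (R i) + K (R i) = L i

/-- **a certificate gives a lower bound of the second variation** -/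
theorem Vtr_ge_cert (hz : ∀ i, 0 ≤ z i) (hR : Function.Injective R) (hφ : 0 < φ₀)
    (hρ : TC ρ) (heq : ∀ x, ρ x = tf (Vpt z R x - pot ρ x - φ₀))
    {Y : X → ℝ} {Y' : X → X} {L : ι → ℝ} {K : X → ℝ} {K' : X → X} (hK : TrY z R Y Y' L K K')
    {η : ℝ} {J : X → X} {d e : X → ℝ} (hJ : CertJ φ₀ z R ρ Y Y' L η J d e) :
    -((4 * Real.pi)⁻¹ * ((1 + Fintype.card ι) * η)) ≤
      Vtr φ₀ z R ρ K ((8 * Real.pi)⁻¹ * ∫ x, ‖K' x‖ ^ 2) := by
  have hpi := Real.pi_pos
  set m : ℝ := (4 * Real.pi)⁻¹ with hm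
  have hm0 : 0 < m := by positivity
  have hmm : m * (4 * Real.pi) = 1 := by rw [hm]; field_simp
  have hflux : ∀ (G : X → X), ∫ x, ⟪m • J x, G x⟫ = m * ∫ x, ⟪J x, G x⟫ := by
    intro G
    rw [← integral_const_mul]
    simp_rw [real_inner_smul_left]
  have h := Vtr_ge_col (J := fun x => m • J x) (d := fun x => m * d x) (e := fun x => m * e x)
    (c := fun _ => m * η) hz hR hφ hρ heq hK.tr hK.hI (hJ.wd.const_smul m)
    (hJ.int.const_mul m) (hJ.axb.smul m) ?_ ?_ ?_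
  · refine le_trans ?_ h
    rw [integral_const_mul, Finset.sum_const, Finset.card_univ, nsmul_eq_mul]
    have h1 := mul_le_mul_of_nonneg_left hJ.int_le hm0.le
    nlinarith
  · filter_upwards [ae_off_ax] with x hx
    have h1 := mul_le_mul_of_nonneg_left (hJ.dens x hx) hm0.le
    refine h1.trans (le_of_eq ?_)
    unfold Fd Fcal psi'
    rw [hK.val x hx, hK.grad x hx]
    have e1 : psi φ₀ z R ρ x = Vpt z R x - pot ρ x - φ₀ := rfl
    rw [e1, ← hm]
    linear_combination (4 * ρ x * Y x - gam (Vpt z R x - pot ρ x - φ₀) * Y x ^ 2) * hmm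
  · intro i δ hδ
    filter_upwards [hJ.nuc i] with ε hε
    rw [hflux]
    have h1 := mul_le_mul_of_nonneg_left hε hm0.le
    rw [hK.pole i]
    have e2 : m * (8 * Real.pi * (z i * L i)) = 2 * z i * L i := by
      linear_combination (2 * z i * L i) * hmm
    rw [mul_add, e2] at h1
    linarith
  · intro δ hδ
    have h1 := hJ.inf (4 * Real.pi * δ) (by positivity)
    filter_upwards [h1] with N hN
    rw [hflux]
    have h2 := mul_le_mul_of_nonneg_left hN hm0.le
    refine h2.trans (le_of_eq ?_)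
    linear_combination δ * hmm

end Pool.Agent.TF.Col

namespace Pool.Agent.Lib.MP_9cf0c9_mp
open MeasureTheory Set Filter Topology Pool.Agent

/-! ### nuclei without charge -/

/-- the energy does not see the position of a nucleus without charge -/
theorem energy_congr {k : ℕ} {z : Fin k → ℝ} {R R' : Fin k → E3}
    (h : ∀ j, z j = 0 ∨ R j = R' j) (lam : ℝ) : energy z R lam = energy z R' lam := by
  have h1 : ∀ x, V z R x = V z R' x := fun x => by
    unfold V
    refine Finset.sum_congr rfl fun j _ => ?_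
    rcases h j with h | h
    · rw [h, zero_div, zero_div]
    · rw [h]
  have h2 : U z R = U z R' := by
    unfold U
    refine Finset.sum_congr rfl fun i _ => Finset.sum_congr rfl fun j _ => ?_
    split_ifs
    · rcases h i with hi | hi
      · rw [hi, zero_mul, zero_div, zero_div]
      · rcases h j with hj | hj
        · rw [hj, mul_zero, zero_div, zero_div]
        · rw [hi, hj]
    · rfl
  unfold energy xi
  simp_rw [h1, h2]

/-- if only one nucleus carries a charge the energy does not depend on the scale -/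
theorem dilated_one {k : ℕ} {z : Fin k → ℝ} {R : Fin k → E3} {i : Fin k}
    (h : ∀ j, j ≠ i → z j = 0) (lam l : ℝ) : dilated z R lam l = energy z R lam := by
  unfold dilated
  have h1 : energy z (fun j => l • R j) lam = energy z (fun j => R j + (l - 1) • R i) lam := by
    refine energy_congr (fun j => ?_) lam
    by_cases hj : j = i
    · right
      rw [hj]
      module
    · exact Or.inl (h j hj)
  rw [h1, energy_eq, energy_eq, TF.eTF_translate]

theorem Target.of_one {k : ℕ} {z : Fin k → ℝ} {R : Fin k → E3} {i : Fin k}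
    (h : ∀ j, j ≠ i → z j = 0) (lam : ℝ) : Target z R lam := by
  have h1 : dilated z R lam = fun _ => energy z R lam := funext fun l => dilated_one h lam l
  have h2 : pressure z R lam = fun _ => 0 := by
    funext l
    unfold pressure
    rw [h1]
    simp
  unfold Target
  rw [h1, h2]
  refine ⟨convexOn_const _ (convex_Ioi _), fun l _ => differentiableAt_const _,
    fun x _ y _ _ => le_rfl, fun l _ _ => ?_⟩
  simp

/-! ### the end theorem -/

theorem Vtr_swap (z : Fin 2 → ℝ) (R : Fin 2 → TF.X) (φ₀ : ℝ) (ρ k : TF.X → ℝ) (E : ℝ) :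
    TF.Vtr φ₀ (fun i => z (Equiv.swap 0 1 i)) (fun i => R (Equiv.swap 0 1 i)) ρ k E =
      TF.Vtr φ₀ z R ρ k E := by
  have h1 : TF.Vpt (fun i => z (Equiv.swap 0 1 i)) (fun i => R (Equiv.swap 0 1 i)) =
      TF.Vpt z R := by
    funext x
    exact Equiv.sum_comp (Equiv.swap (0 : Fin 2) 1) fun i => z i * ‖x - R i‖⁻¹
  have h2 : TF.Unuc (fun i => z (Equiv.swap 0 1 i)) (fun i => R (Equiv.swap 0 1 i)) =
      TF.Unuc z R := by
    unfold TF.Unuc
    congr 1
    rw [← Equiv.sum_comp (Equiv.swap (0 : Fin 2) 1) fun i => ∑ j, z i * z j * ‖R i - R j‖⁻¹]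
    refine Finset.sum_congr rfl fun i _ => ?_
    exact Equiv.sum_comp (Equiv.swap (0 : Fin 2) 1) fun j =>
      z (Equiv.swap 0 1 i) * z j * ‖R (Equiv.swap 0 1 i) - R j‖⁻¹
  have h3 : ∑ i, z (Equiv.swap 0 1 i) * TF.pot ρ (R (Equiv.swap 0 1 i)) =
      ∑ i, z i * TF.pot ρ (R i) :=
    Equiv.sum_comp (Equiv.swap (0 : Fin 2) 1) fun i => z i * TF.pot ρ (R i)
  unfold TF.Vtr
  rw [h1, h2, h3]

/-- **the end theorem**: certificates for the trial `Y` for every solution with two nuclei on the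
axis give the target statement -/
theorem two_of_trial
    (H : ∀ φ₀ : ℝ, 0 < φ₀ → ∀ z : Fin 2 → ℝ, (∀ i, 0 < z i) → ∀ R : Fin 2 → TF.X,
      (∀ i, R i ∈ TF.Col.ax) → (R 0).fst < (R 1).fst →
      ∀ ρ : TF.X → ℝ, ∀ Hs : TF.X → TF.X →L[ℝ] TF.X,
      TF.Col.Dat φ₀ z R ρ Hs (R 0).fst (R 1).fst → ∀ η : ℝ, 0 < η →
      ∃ (Y : TF.X → ℝ) (Y' : TF.X → TF.X) (L : Fin 2 → ℝ) (K : TF.X → ℝ) (K' : TF.X → TF.X)
        (J : TF.X → TF.X) (d e : TF.X → ℝ), TF.Col.TrY z R Y Y' L K K' ∧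
        TF.Col.CertJ φ₀ z R ρ Y Y' L η J d e)
    (z : Fin 2 → ℝ) (hz : ∀ j, 0 ≤ z j) (R : Fin 2 → E3) (hR : Function.Injective R)
    (lam : ℝ) (hlam : 0 ≤ lam) : Target z R lam := by
  by_cases h0 : z 0 = 0
  · refine Target.of_one (i := 1) (fun j hj => ?_) lam
    fin_cases j
    · exact h0
    · exact absurd rfl hj
  by_cases h1 : z 1 = 0
  · refine Target.of_one (i := 0) (fun j hj => ?_) lam
    fin_cases j
    · exact absurd rfl hj
    · exact h1
  have hzp : ∀ i, 0 < z i := by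
    intro i
    fin_cases i
    · exact lt_of_le_of_ne (hz 0) (Ne.symm h0)
    · exact lt_of_le_of_ne (hz 1) (Ne.symm h1)
  refine target_of_two z hz R hR (fun φ₀ hφ R' hR' hax ρ hρ heq η hη => ?_) lam hlam
  -- ordered nuclei
  have key : ∀ z : Fin 2 → ℝ, (∀ i, 0 < z i) → ∀ R' : Fin 2 → TF.X, Function.Injective R' →
      (∀ i, R' i ∈ TF.Col.ax) → (R' 0).fst < (R' 1).fst →
      (∀ x, ρ x = TF.tf (TF.Vpt z R' x - TF.pot ρ x - φ₀)) →
      ∃ (k : TF.X → ℝ) (k' : TF.X → TF.X), TF.TrialK TF.Col.ax k k' ∧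
        -η ≤ TF.Vtr φ₀ z R' ρ k ((8 * Real.pi)⁻¹ * ∫ x, ‖k' x‖ ^ 2) := by
    intro z hzp R' hR' hax hlt heq
    obtain ⟨Hs, hHs⟩ := TF.Grd.exists_hessSol (fun i => (hzp i).le) R' hφ hρ heq
    have hAx : TF.Col.Axial z R' ρ (R' 0).fst (R' 1).fst := by
      refine TF.Col.axial hzp hax hφ hρ heq (fun i => ?_) fun i => ?_
      · fin_cases i
        · exact le_rfl
        · exact hlt.le
      · fin_cases i
        · exact hlt.le
        · exact le_rfl
    have D : TF.Col.Dat φ₀ z R' ρ Hs (R' 0).fst (R' 1).fst :=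
      ⟨fun i => (hzp i).le, hφ, hρ, heq, hHs, hAx⟩
    obtain ⟨Y, Y', L, K, K', J, d, e, hK, hJ⟩ := H φ₀ hφ z hzp R' hax hlt ρ Hs D η hη
    refine ⟨K, K', hK.tr, ?_⟩
    refine le_trans ?_ (TF.Col.Vtr_ge_cert (fun i => (hzp i).le) hR' hφ hρ heq hK hJ)
    rw [neg_le_neg_iff, Fintype.card_fin]
    have h3 : (4 * Real.pi)⁻¹ * (1 + ((2 : ℕ) : ℝ)) ≤ 1 := by
      have := Real.pi_gt_three
      rw [inv_mul_le_iff₀ (by positivity)]
      push_cast
      linarith
    calc (4 * Real.pi)⁻¹ * ((1 + ((2 : ℕ) : ℝ)) * η)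
        = (4 * Real.pi)⁻¹ * (1 + ((2 : ℕ) : ℝ)) * η := by ring
      _ ≤ 1 * η := mul_le_mul_of_nonneg_right h3 hη.le
      _ = η := one_mul η
  have hne : (R' 0).fst ≠ (R' 1).fst := by
    intro h
    have e0 := TF.Col.fst_smul_of_ax (hax 0)
    have e1 := TF.Col.fst_smul_of_ax (hax 1)
    rw [h, e1] at e0
    exact absurd (hR' e0.symm) (by decide)
  rcases lt_or_gt_of_ne hne with h | h
  · exact key z hzp R' hR' hax h heq
  · have hVp : TF.Vpt (fun i => z (Equiv.swap 0 1 i)) (fun i => R' (Equiv.swap 0 1 i)) =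
        TF.Vpt z R' := by
      funext x
      exact Equiv.sum_comp (Equiv.swap (0 : Fin 2) 1) fun i => z i * ‖x - R' i‖⁻¹
    obtain ⟨k, k', hk, hV⟩ := key (fun i => z (Equiv.swap 0 1 i)) (fun i => hzp _)
      (fun i => R' (Equiv.swap 0 1 i)) (hR'.comp (Equiv.swap 0 1).injective)
      (fun i => hax _) (by simpa using h) (by rw [hVp]; exact heq)
    rw [Vtr_swap] at hV
    exact ⟨k, k', hk, hV⟩

end Pool.Agent.Lib.MP_9cf0c9_mp
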