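import Pool.Agent.Lib.MP_9cf0c9_mp.ColEnd36
import Pool.Agent.Lib.MP_9cf0c9_mp.Col58E

/-! Two nuclei: certificates whose current has only a locally integrable divergence, and the
current `JE` near the axis. -/

set_option autoImplicit false
set_option linter.unusedSectionVars false
set_option linter.unusedVariables false
set_option linter.style.haveILetI false

namespace Pool.Agent.TF.Col
open MeasureTheory Set Metric Filter Topology
open scoped ENNReal NNReal RealInnerProductSpace Gradient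
open Pool.Agent.TF.Grd

variable {ι : Type*} [Fintype ι]
variable {φ₀ : ℝ} {z : ι → ℝ} {R : ι → X} {ρ : X → ℝ} {H : X → X →L[ℝ] X} {lo hi : ℝ}

/-- a certificate for the trial `Y` with the values `L` at the nuclei, up to the error `η`; the
divergence of the current is only locally integrable -/
structure CertL (φ₀ : ℝ) (z : ι → ℝ) (R : ι → X) (ρ : X → ℝ) (Y : X → ℝ) (Y' : X → X)
    (L : ι → ℝ) (η : ℝ) (J : X → X) (d e : X → ℝ) : Prop where
  wdl : WDL J d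
  int : Integrable e
  int_le : ∫ x, e x ≤ η
  axb : AxB R J
  dens : ∀ᵐ x : X, d x ≤ Fd φ₀ z R ρ Y Y' x + e x
  nuc : ∀ i, ∀ᶠ ε in 𝓝[>] (0 : ℝ),
    -∫ x, ⟪J x, Flux.gcut ε (x - R i)⟫ ≤ 8 * Real.pi * (z i * L i) + η
  inf : ∀ δ : ℝ, 0 < δ → ∀ᶠ N in atTop, ∫ x, ⟪J x, Flux.gcut N x⟫ ≤ δ

/-- the trial function `K = Y - V`, almost everywhere -/
structure TrYL (z : ι → ℝ) (R : ι → X) (Y : X → ℝ) (Y' : X → X) (L : ι → ℝ) (K : X → ℝ)
    (K' : X → X) : Prop where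
  tr : TrialK ax K K'
  hI : ∀ i, Integrable fun x => (‖x - R i‖ ^ 2)⁻¹ * ‖K' x‖
  val : ∀ᵐ x : X, Vpt z R x + K x = Y x
  grad : ∀ᵐ x : X, gVpt z R x + K' x = Y' x
  pole : ∀ i, Vpt z R (R i) + K (R i) = L i

theorem CertJ.toL {Y : X → ℝ} {Y' : X → X} {L : ι → ℝ} {η : ℝ} {J : X → X} {d e : X → ℝ}
    (h : CertJ φ₀ z R ρ Y Y' L η J d e) : CertL φ₀ z R ρ Y Y' L η J d e :=
  ⟨h.wd.toL, h.int, h.int_le, h.axb, by
    filter_upwards [ae_off_ax] with x hx
    exact h.dens x hx, h.nuc, h.inf⟩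

theorem TrY.toL {Y : X → ℝ} {Y' : X → X} {L : ι → ℝ} {K : X → ℝ} {K' : X → X}
    (h : TrY z R Y Y' L K K') : TrYL z R Y Y' L K K' :=
  ⟨h.tr, h.hI, by
    filter_upwards [ae_off_ax] with x hx
    exact h.val x hx, by
    filter_upwards [ae_off_ax] with x hx
    exact h.grad x hx, h.pole⟩

/-- **a certificate gives a lower bound of the second variation** -/
theorem Vtr_ge_certL (hz : ∀ i, 0 ≤ z i) (hR : Function.Injective R) (hφ : 0 < φ₀)
    (hρ : TC ρ) (heq : ∀ x, ρ x = tf (Vpt z R x - pot ρ x - φ₀))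
    {Y : X → ℝ} {Y' : X → X} {L : ι → ℝ} {K : X → ℝ} {K' : X → X} (hK : TrYL z R Y Y' L K K')
    {η : ℝ} {J : X → X} {d e : X → ℝ} (hJ : CertL φ₀ z R ρ Y Y' L η J d e) :
    -((4 * Real.pi)⁻¹ * ((1 + Fintype.card ι) * η)) ≤
      Vtr φ₀ z R ρ K ((8 * Real.pi)⁻¹ * ∫ x, ‖K' x‖ ^ 2) := by
  have hpi := Real.pi_pos
  set m : ℝ := (4 * Real.pi)⁻¹ with hm
  have hm0 : 0 < m := by positivity
  have hmm : m * (4 * Real.pi) = 1 := by rw [hm]; field_simp
  have hflux : ∀ (G : X → X), ∫ x, ⟪m • J x, G x⟫ = m * ∫ x, ⟪J x, G x⟫ := by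
    intro G
    rw [← integral_const_mul]
    simp_rw [real_inner_smul_left]
  have h := Vtr_ge_WDL (J := fun x => m • J x) (d := fun x => m * d x) (e := fun x => m * e x)
    (c := fun _ => m * η) hz hR hφ hρ heq hK.tr hK.hI (hJ.wdl.const_smul m)
    (hJ.int.const_mul m) (hJ.axb.smul m) ?_ ?_ ?_
  · refine le_trans ?_ h
    rw [integral_const_mul, Finset.sum_const, Finset.card_univ, nsmul_eq_mul]
    have h1 := mul_le_mul_of_nonneg_left hJ.int_le hm0.le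
    nlinarith
  · filter_upwards [hJ.dens, hK.val, hK.grad] with x hx hv hg
    have h1 := mul_le_mul_of_nonneg_left hx hm0.le
    refine h1.trans (le_of_eq ?_)
    unfold Fd Fcal psi'
    rw [hv, hg]
    have e1 : psi φ₀ z R ρ x = Vpt z R x - pot ρ x - φ₀ := rfl
    rw [e1, ← hm]
    linear_combination (4 * ρ x * Y x - gam (Vpt z R x - pot ρ x - φ₀) * Y x ^ 2) * hmm
  · intro i δ hδ
    filter_upwards [hJ.nuc i] with ε hε
    rw [hflux]
    have h1 := mul_le_mul_of_nonneg_left hε hm0.le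
    rw [hK.pole i]
    have e2 : m * (8 * Real.pi * (z i * L i)) = 2 * z i * L i := by
      linear_combination (2 * z i * L i) * hmm
    rw [mul_add, e2] at h1
    linarith
  · intro δ hδ
    have h1 := hJ.inf (4 * Real.pi * δ) (by positivity)
    filter_upwards [h1] with N hN
    rw [hflux]
    have h2 := mul_le_mul_of_nonneg_left hN hm0.le
    refine h2.trans (le_of_eq ?_)
    linear_combination δ * hmm

/-! ### fields bounded near the axis off the nuclei -/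

/-- bounded near the points of the axis off the nuclei -/
def BdN {E : Type*} [NormedAddCommGroup E] (R : ι → X) (f : X → E) : Prop :=
  ∀ x₀ ∈ ax, (∀ i, x₀ ≠ R i) → ∃ C δ : ℝ, 0 < δ ∧ ∀ x ∈ ball x₀ δ, x ∉ ax → ‖f x‖ ≤ C

theorem BdN.of_cont {E : Type*} [NormedAddCommGroup E] {f : X → E}
    (hf : ∀ x₀ : X, (∀ i, x₀ ≠ R i) → ContinuousAt f x₀) : BdN R f := by
  intro x₀ h0 hR
  obtain ⟨B, δ, hδ, hB, h⟩ := bdd_nhds (hf x₀ hR)
  exact ⟨B, δ, hδ, fun x hx _ => h x hx⟩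

theorem BdN.add {E : Type*} [NormedAddCommGroup E] {f g : X → E} (hf : BdN R f)
    (hg : BdN R g) : BdN R fun x => f x + g x := by
  intro x₀ h0 hR
  obtain ⟨C, δ, hδ, h⟩ := hf x₀ h0 hR
  obtain ⟨C', δ', hδ', h'⟩ := hg x₀ h0 hR
  exact ⟨C + C', min δ δ', lt_min hδ hδ', fun x hx hxa => (norm_add_le _ _).trans
    (add_le_add (h x (ball_subset_ball (min_le_left _ _) hx) hxa)
      (h' x (ball_subset_ball (min_le_right _ _) hx) hxa))⟩

theorem BdN.neg {E : Type*} [NormedAddCommGroup E] {f : X → E} (hf : BdN R f) :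
    BdN R fun x => -f x := by
  intro x₀ h0 hR
  obtain ⟨C, δ, hδ, h⟩ := hf x₀ h0 hR
  exact ⟨C, δ, hδ, fun x hx hxa => by
    simp only [norm_neg]
    exact h x hx hxa⟩

theorem BdN.sub {E : Type*} [NormedAddCommGroup E] {f g : X → E} (hf : BdN R f)
    (hg : BdN R g) : BdN R fun x => f x - g x := by
  have h := hf.add hg.neg
  simp only [← sub_eq_add_neg] at h
  exact h

theorem BdN.smul {E : Type*} [NormedAddCommGroup E] [NormedSpace ℝ E] {c : X → ℝ} {f : X → E}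
    (hc : BdN R c) (hf : BdN R f) : BdN R fun x => c x • f x := by
  intro x₀ h0 hR
  obtain ⟨C, δ, hδ, h⟩ := hc x₀ h0 hR
  obtain ⟨C', δ', hδ', h'⟩ := hf x₀ h0 hR
  refine ⟨C * C', min δ δ', lt_min hδ hδ', fun x hx hxa => ?_⟩
  have h1 := h x (ball_subset_ball (min_le_left _ _) hx) hxa
  have h2 := h' x (ball_subset_ball (min_le_right _ _) hx) hxa
  rw [norm_smul]
  exact mul_le_mul h1 h2 (norm_nonneg _) ((norm_nonneg _).trans h1)

theorem BdN.const {E : Type*} [NormedAddCommGroup E] (v : E) : BdN R fun _ : X => v :=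
  fun x₀ _ _ => ⟨‖v‖, 1, one_pos, fun _ _ _ => le_rfl⟩

/-- bounded fields have a moderate singularity -/
theorem BdN.axb {J : X → X} (hJ : BdN R J) : AxB R J := by
  intro x₀ h0 hR
  obtain ⟨C, δ, hδ, h⟩ := hJ x₀ h0 hR
  refine ⟨C ^ 2, min δ 1, lt_min hδ one_pos, fun x hx hxa => ?_⟩
  have h1 := h x (ball_subset_ball (min_le_left _ _) hx) hxa
  have h2 : ht x ≤ 1 := by
    have h3 := ht_le_dist x h0
    have h4 := ball_subset_ball (min_le_right δ 1) hx
    rw [mem_ball, dist_eq_norm] at h4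
    linarith
  have h5 : 1 ≤ (ht x)⁻¹ := (one_le_inv₀ (ht_pos hxa)).mpr h2
  calc ‖J x‖ ^ 2 ≤ C ^ 2 := pow_le_pow_left₀ (norm_nonneg _) h1 2
    _ = C ^ 2 * 1 := (mul_one _).symm
    _ ≤ C ^ 2 * (ht x)⁻¹ := mul_le_mul_of_nonneg_left h5 (sq_nonneg C)

theorem AxB.bsmul {c : X → ℝ} {J : X → X} (hc : BdN R c) (hJ : AxB R J) :
    AxB R fun x => c x • J x := by
  intro x₀ h0 hR
  obtain ⟨C, δ, hδ, h⟩ := hc x₀ h0 hR
  obtain ⟨C', δ', hδ', h'⟩ := hJ x₀ h0 hR
  refine ⟨C ^ 2 * C', min δ δ', lt_min hδ hδ', fun x hx hxa => ?_⟩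
  have h1 := h x (ball_subset_ball (min_le_left _ _) hx) hxa
  have h2 := h' x (ball_subset_ball (min_le_right _ _) hx) hxa
  have h3 : ‖c x‖ ^ 2 ≤ C ^ 2 := pow_le_pow_left₀ (norm_nonneg _) h1 2
  rw [norm_smul, mul_pow]
  calc ‖c x‖ ^ 2 * ‖J x‖ ^ 2 ≤ C ^ 2 * (C' * (ht x)⁻¹) :=
        mul_le_mul h3 h2 (sq_nonneg _) (sq_nonneg _)
    _ = C ^ 2 * C' * (ht x)⁻¹ := by ring

theorem AxB.neg {J : X → X} (hJ : AxB R J) : AxB R fun x => -J x := by
  intro x₀ h0 hR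
  obtain ⟨C, δ, hδ, h⟩ := hJ x₀ h0 hR
  exact ⟨C, δ, hδ, fun x hx hxa => by
    simp only [norm_neg]
    exact h x hx hxa⟩

theorem AxB.sub {J K : X → X} (hJ : AxB R J) (hK : AxB R K) : AxB R fun x => J x - K x := by
  have h := hJ.add hK.neg
  simp only [← sub_eq_add_neg] at h
  exact h

theorem Dat.cont_psi'_off (D : Dat φ₀ z R ρ H lo hi) {x₀ : X} (h0R : ∀ i, x₀ ≠ R i) :
    ContinuousAt (psi' z R ρ) x₀ := (D.hs.deriv x₀ h0R).continuousAt

theorem Dat.bdN_psi' (D : Dat φ₀ z R ρ H lo hi) : BdN R (psi' z R ρ) :=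
  BdN.of_cont fun _ h => D.cont_psi'_off h

theorem Dat.bdN_Xa (D : Dat φ₀ z R ρ H lo hi) (a : X) : BdN R (Xa z R ρ a) :=
  BdN.of_cont fun x₀ h => by
    have h1 := D.cont_psi'_off h
    have h2 : ContinuousAt (fun x : X => x - a) x₀ := continuousAt_id.sub continuousAt_const
    have h3 : ContinuousAt (fun x : X => ⟪psi' z R ρ x, x - a⟫) x₀ := ContinuousAt.inner h1 h2
    exact h3.neg

theorem Dat.bdN_Xa' (D : Dat φ₀ z R ρ H lo hi) (a : X) : BdN R (Xa' z R ρ H a) :=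
  BdN.of_cont fun x₀ h => ((D.cont_psi'_off h).add ((D.hs.contAt h).clm_apply
    (continuousAt_id.sub continuousAt_const))).neg

theorem Dat.bdN_sta (D : Dat φ₀ z R ρ H lo hi) (a : X) : BdN R (sta z R ρ a) :=
  BdN.of_cont fun x₀ h => by
    have h1 := D.cont_psi'_off h
    have h2 : ContinuousAt (fun x : X => x - a) x₀ := continuousAt_id.sub continuousAt_const
    have h3 : ContinuousAt (fun x : X => ⟪psi' z R ρ x, x - a⟫) x₀ := ContinuousAt.inner h1 h2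
    exact (h3.smul h1).sub ((continuousAt_const.mul (h1.norm.pow 2)).smul h2)

/-- the current of the trial `X - D e` near the axis -/
theorem Dat.axb_JE (D : Dat φ₀ z R ρ H lo hi) (a : X) (d : ℝ) {e : X → ℝ} {e' : X → X}
    (he : BdN R e) (he' : AxB R e') : AxB R (JE z R ρ H a d e e') := by
  have h1 : AxB R fun x => (2 * d) • (e x • Xa' z R ρ H a x) :=
    (BdN.smul (BdN.const (2 * d)) (he.smul (D.bdN_Xa' a))).axb
  have h2 : AxB R fun x => Xa z R ρ a x • Xa' z R ρ H a x :=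
    ((D.bdN_Xa a).smul (D.bdN_Xa' a)).axb
  have h3 : AxB R fun x => (2 : ℝ) • sta z R ρ a x :=
    (BdN.smul (BdN.const (2 : ℝ)) (D.bdN_sta a)).axb
  have h4 : AxB R fun x => d ^ 2 • (e x • e' x) := (he'.bsmul he).smul (d ^ 2)
  exact ((h1.sub h2).sub h3).sub h4

theorem Dat.axb_Xa' (D : Dat φ₀ z R ρ H lo hi) (a : X) : AxB R (Xa' z R ρ H a) :=
  (D.bdN_Xa' a).axb

/-! ### currents which are only locally integrable near nothing: the fluxes exist -/

theorem CertL.mono {Y : X → ℝ} {Y' : X → X} {L : ι → ℝ} {η η' : ℝ} {J : X → X} {d e : X → ℝ}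
    (h : CertL φ₀ z R ρ Y Y' L η J d e) (hη : η ≤ η') : CertL φ₀ z R ρ Y Y' L η' J d e :=
  ⟨h.wdl, h.int, h.int_le.trans hη, h.axb, h.dens, fun i => by
    filter_upwards [h.nuc i] with ε hε
    linarith, h.inf⟩

end Pool.Agent.TF.Col

namespace Pool.Agent.Lib.MP_9cf0c9_mp
open MeasureTheory Set Filter Topology Pool.Agent

/-- **the end theorem**, with certificates whose currents have locally integrable divergences -/
theorem two_of_trialL
    (H : ∀ φ₀ : ℝ, 0 < φ₀ → ∀ z : Fin 2 → ℝ, (∀ i, 0 < z i) → ∀ R : Fin 2 → TF.X,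
      (∀ i, R i ∈ TF.Col.ax) → (R 0).fst < (R 1).fst →
      ∀ ρ : TF.X → ℝ, ∀ Hs : TF.X → TF.X →L[ℝ] TF.X,
      TF.Col.Dat φ₀ z R ρ Hs (R 0).fst (R 1).fst → ∀ η : ℝ, 0 < η →
      ∃ (Y : TF.X → ℝ) (Y' : TF.X → TF.X) (L : Fin 2 → ℝ) (K : TF.X → ℝ) (K' : TF.X → TF.X)
        (J : TF.X → TF.X) (d e : TF.X → ℝ), TF.Col.TrYL z R Y Y' L K K' ∧
        TF.Col.CertL φ₀ z R ρ Y Y' L η J d e)
    (z : Fin 2 → ℝ) (hz : ∀ j, 0 ≤ z j) (R : Fin 2 → E3) (hR : Function.Injective R)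
    (lam : ℝ) (hlam : 0 ≤ lam) : Target z R lam := by
  by_cases h0 : z 0 = 0
  · refine Target.of_one (i := 1) (fun j hj => ?_) lam
    fin_cases j
    · exact h0
    · exact absurd rfl hj
  by_cases h1 : z 1 = 0
  · refine Target.of_one (i := 0) (fun j hj => ?_) lam
    fin_cases j
    · exact absurd rfl hj
    · exact h1
  have hzp : ∀ i, 0 < z i := by
    intro i
    fin_cases i
    · exact lt_of_le_of_ne (hz 0) (Ne.symm h0)
    · exact lt_of_le_of_ne (hz 1) (Ne.symm h1)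
  refine target_of_two z hz R hR (fun φ₀ hφ R' hR' hax ρ hρ heq η hη => ?_) lam hlam
  -- ordered nuclei
  have key : ∀ z : Fin 2 → ℝ, (∀ i, 0 < z i) → ∀ R' : Fin 2 → TF.X, Function.Injective R' →
      (∀ i, R' i ∈ TF.Col.ax) → (R' 0).fst < (R' 1).fst →
      (∀ x, ρ x = TF.tf (TF.Vpt z R' x - TF.pot ρ x - φ₀)) →
      ∃ (k : TF.X → ℝ) (k' : TF.X → TF.X), TF.TrialK TF.Col.ax k k' ∧
        -η ≤ TF.Vtr φ₀ z R' ρ k ((8 * Real.pi)⁻¹ * ∫ x, ‖k' x‖ ^ 2) := by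
    intro z hzp R' hR' hax hlt heq
    obtain ⟨Hs, hHs⟩ := TF.Grd.exists_hessSol (fun i => (hzp i).le) R' hφ hρ heq
    have hAx : TF.Col.Axial z R' ρ (R' 0).fst (R' 1).fst := by
      refine TF.Col.axial hzp hax hφ hρ heq (fun i => ?_) fun i => ?_
      · fin_cases i
        · exact le_rfl
        · exact hlt.le
      · fin_cases i
        · exact hlt.le
        · exact le_rfl
    have D : TF.Col.Dat φ₀ z R' ρ Hs (R' 0).fst (R' 1).fst :=
      ⟨fun i => (hzp i).le, hφ, hρ, heq, hHs, hAx⟩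
    obtain ⟨Y, Y', L, K, K', J, d, e, hK, hJ⟩ := H φ₀ hφ z hzp R' hax hlt ρ Hs D η hη
    refine ⟨K, K', hK.tr, ?_⟩
    refine le_trans ?_ (TF.Col.Vtr_ge_certL (fun i => (hzp i).le) hR' hφ hρ heq hK hJ)
    rw [neg_le_neg_iff, Fintype.card_fin]
    have h3 : (4 * Real.pi)⁻¹ * (1 + ((2 : ℕ) : ℝ)) ≤ 1 := by
      have := Real.pi_gt_three
      rw [inv_mul_le_iff₀ (by positivity)]
      push_cast
      linarith
    calc (4 * Real.pi)⁻¹ * ((1 + ((2 : ℕ) : ℝ)) * η)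
        = (4 * Real.pi)⁻¹ * (1 + ((2 : ℕ) : ℝ)) * η := by ring
      _ ≤ 1 * η := mul_le_mul_of_nonneg_right h3 hη.le
      _ = η := one_mul η
  have hne : (R' 0).fst ≠ (R' 1).fst := by
    intro h
    have e0 := TF.Col.fst_smul_of_ax (hax 0)
    have e1 := TF.Col.fst_smul_of_ax (hax 1)
    rw [h, e1] at e0
    exact absurd (hR' e0.symm) (by decide)
  rcases lt_or_gt_of_ne hne with h | h
  · exact key z hzp R' hR' hax h heq
  · have hVp : TF.Vpt (fun i => z (Equiv.swap 0 1 i)) (fun i => R' (Equiv.swap 0 1 i)) =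
        TF.Vpt z R' := by
      funext x
      exact Equiv.sum_comp (Equiv.swap (0 : Fin 2) 1) fun i => z i * ‖x - R' i‖⁻¹
    obtain ⟨k, k', hk, hV⟩ := key (fun i => z (Equiv.swap 0 1 i)) (fun i => hzp _)
      (fun i => R' (Equiv.swap 0 1 i)) (hR'.comp (Equiv.swap 0 1).injective)
      (fun i => hax _) (by simpa using h) (by rw [hVp]; exact heq)
    rw [Vtr_swap] at hV
    exact ⟨k, k', hk, hV⟩

end Pool.Agent.Lib.MP_9cf0c9_mp
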