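import Pool.Agent.Lib.MP_9cf0c9_mp.FarLip23

/-! Collinear nuclei, module M5: decay at infinity of `∇ψ`, of the second derivative and of its
Lipschitz constant. -/

set_option autoImplicit false
set_option linter.unusedSectionVars false
set_option linter.unusedVariables false
set_option linter.style.haveILetI false

namespace Pool.Agent.TF.Col
open MeasureTheory Set Metric Filter Topology
open scoped ENNReal NNReal RealInnerProductSpace Gradient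
open Pool.Agent.TF.Grd Pool.Agent.TF.Rot23

variable {ι : Type*} [Fintype ι]

/-- a point of norm at most `|x| / 8` is at distance at least `7 |x| / 8` from `x` -/
theorem far_dist {x c : X} (hc : 8 * ‖c‖ ≤ ‖x‖) : 7 / 8 * ‖x‖ ≤ ‖x - c‖ := by
  have := norm_sub_norm_le x c
  linarith

theorem inv_pow_far {t m : ℝ} (ht : 0 < t) (hm : 7 / 8 * t ≤ m) :
    (m ^ 3)⁻¹ ≤ 2 * (t ^ 3)⁻¹ ∧ (m ^ 4)⁻¹ ≤ 2 * (t ^ 4)⁻¹ := by
  have h0 : 0 < 7 / 8 * t := by positivity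
  have h3 := inv_anti₀ (by positivity) (pow_le_pow_left₀ h0.le hm 3)
  have h4 := inv_anti₀ (by positivity) (pow_le_pow_left₀ h0.le hm 4)
  rw [mul_pow, mul_inv] at h3 h4
  have p3 : 0 ≤ (t ^ 3)⁻¹ := by positivity
  have p4 : 0 ≤ (t ^ 4)⁻¹ := by positivity
  have e3 : ((7 / 8 : ℝ) ^ 3)⁻¹ ≤ 2 := by norm_num
  have e4 : ((7 / 8 : ℝ) ^ 4)⁻¹ ≤ 2 := by norm_num
  exact ⟨h3.trans (mul_le_mul_of_nonneg_right e3 p3), h4.trans (mul_le_mul_of_nonneg_right e4 p4)⟩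

/-- pointwise bounds for one source point -/
theorem d2_far {x x' c : X} (hx : 0 < ‖x‖) (hc : 8 * ‖c‖ ≤ ‖x‖) :
    ‖d2 c x‖ ≤ 8 * (‖x‖ ^ 3)⁻¹ ∧
      (4 * ‖x - x'‖ ≤ ‖x‖ → ‖d2 c x - d2 c x'‖ ≤ 160 * ‖x - x'‖ * (‖x‖ ^ 4)⁻¹) := by
  have h1 := far_dist hc
  obtain ⟨h3, h4⟩ := inv_pow_far hx h1
  refine ⟨(d2_norm c x).trans (by linarith), fun h => ?_⟩
  refine (d2_lip (by linarith) (by linarith)).trans ?_
  calc 80 * ‖x - x'‖ * (‖x - c‖ ^ 4)⁻¹ ≤ 80 * ‖x - x'‖ * (2 * (‖x‖ ^ 4)⁻¹) := by gcongr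
    _ = 160 * ‖x - x'‖ * (‖x‖ ^ 4)⁻¹ := by ring

/-- the cloud -/
theorem hF_far {ρ : X → ℝ} (hm : Measurable ρ) (hf : Integrable ρ) {r : ℝ} (hr0 : 0 < r)
    (hr : ∀ y, r ≤ ‖y‖ → ρ y = 0) {x : X} (hx : 8 * r ≤ ‖x‖) :
    Integrable (fun y => ρ y • d2 y x) ∧ HasFDerivAt (gradV ρ) (hF ρ x) x ∧
      ‖hF ρ x‖ ≤ 8 * (∫ y, |ρ y|) * (‖x‖ ^ 3)⁻¹ := by
  have hx0 : 0 < ‖x‖ := by linarith
  have hz : ∀ y ∈ ball x (2 * (‖x‖ / 4)), ρ y = 0 := by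
    intro y hy
    rw [mem_ball, dist_eq_norm] at hy
    refine hr y ?_
    have h1 := norm_sub_norm_le x y
    rw [norm_sub_rev] at h1
    linarith
  obtain ⟨h1, h2, -⟩ := Pool.Agent.TF.far_hess hm hf (by positivity : 0 < ‖x‖ / 4) hz x
    (mem_ball_self (by positivity))
  refine ⟨h1, h2, ?_⟩
  have h3 : ‖hF ρ x‖ ≤ ∫ y, (8 * (‖x‖ ^ 3)⁻¹) * |ρ y| := by
    unfold hF
    refine (norm_integral_le_integral_norm _).trans ?_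
    refine integral_mono_of_nonneg (Eventually.of_forall fun y => norm_nonneg _)
      (hf.abs.const_mul _) (Eventually.of_forall fun y => ?_)
    simp only
    rw [norm_smul, Real.norm_eq_abs, mul_comm]
    by_cases hy : r ≤ ‖y‖
    · rw [hr y hy]; simp
    · exact mul_le_mul_of_nonneg_right (d2_far (x' := x) hx0 (by linarith)).1 (abs_nonneg _)
  rw [integral_const_mul] at h3
  refine h3.trans (le_of_eq (by ring))

theorem hF_far_lip {ρ : X → ℝ} (hm : Measurable ρ) (hf : Integrable ρ) {r : ℝ} (hr0 : 0 < r)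
    (hr : ∀ y, r ≤ ‖y‖ → ρ y = 0) {x x' : X} (hx : 8 * r ≤ ‖x‖) (hx' : 8 * r ≤ ‖x'‖)
    (h : 4 * ‖x - x'‖ ≤ ‖x‖) :
    ‖hF ρ x - hF ρ x'‖ ≤ 160 * (∫ y, |ρ y|) * ‖x - x'‖ * (‖x‖ ^ 4)⁻¹ := by
  have hx0 : 0 < ‖x‖ := by linarith
  have h3 : ‖hF ρ x - hF ρ x'‖ ≤ ∫ y, (160 * ‖x - x'‖ * (‖x‖ ^ 4)⁻¹) * |ρ y| := by
    unfold hF
    rw [← integral_sub (hF_far hm hf hr0 hr hx).1 (hF_far hm hf hr0 hr hx').1]
    refine (norm_integral_le_integral_norm _).trans ?_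
    refine integral_mono_of_nonneg (Eventually.of_forall fun y => norm_nonneg _)
      (hf.abs.const_mul _) (Eventually.of_forall fun y => ?_)
    simp only
    rw [← smul_sub, norm_smul, Real.norm_eq_abs, mul_comm]
    by_cases hy : r ≤ ‖y‖
    · rw [hr y hy]; simp
    · exact mul_le_mul_of_nonneg_right ((d2_far hx0 (by linarith)).2 h) (abs_nonneg _)
  rw [integral_const_mul] at h3
  refine h3.trans (le_of_eq (by ring))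

/-- the nuclei -/
theorem hVpt_far {z : ι → ℝ} (hz : ∀ i, 0 ≤ z i) (R : ι → X) {x x' : X} (hx : 0 < ‖x‖)
    (hR : ∀ i, 8 * ‖R i‖ ≤ ‖x‖) :
    ‖hVpt z R x‖ ≤ 8 * (∑ i, z i) * (‖x‖ ^ 3)⁻¹ ∧
      (4 * ‖x - x'‖ ≤ ‖x‖ →
        ‖hVpt z R x - hVpt z R x'‖ ≤ 160 * (∑ i, z i) * ‖x - x'‖ * (‖x‖ ^ 4)⁻¹) := by
  constructor
  · unfold hVpt
    refine (norm_sum_le _ _).trans ?_
    rw [Finset.mul_sum, Finset.sum_mul]
    refine Finset.sum_le_sum fun i _ => ?_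
    rw [norm_smul, Real.norm_of_nonneg (hz i), Grd.hP_eq]
    calc z i * ‖d2 (R i) x‖ ≤ z i * (8 * (‖x‖ ^ 3)⁻¹) :=
          mul_le_mul_of_nonneg_left (d2_far (x' := x) hx (hR i)).1 (hz i)
      _ = _ := by ring
  · intro h
    unfold hVpt
    rw [← Finset.sum_sub_distrib]
    refine (norm_sum_le _ _).trans ?_
    rw [Finset.mul_sum, Finset.sum_mul, Finset.sum_mul]
    refine Finset.sum_le_sum fun i _ => ?_
    have e : z i • hP (R i) x - z i • hP (R i) x' = z i • (d2 (R i) x - d2 (R i) x') :=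
      (smul_sub (z i) (d2 (R i) x) (d2 (R i) x')).symm
    rw [e, norm_smul, Real.norm_of_nonneg (hz i)]
    calc z i * ‖d2 (R i) x - d2 (R i) x'‖ ≤ z i * (160 * ‖x - x'‖ * (‖x‖ ^ 4)⁻¹) :=
          mul_le_mul_of_nonneg_left ((d2_far hx (hR i)).2 h) (hz i)
      _ = _ := by ring

/-- **(M5)** decay at infinity -/
theorem col_inf {z : ι → ℝ} (hz : ∀ i, 0 ≤ z i) (R : ι → X) {φ₀ : ℝ} (hφ : 0 < φ₀)
    {ρ : X → ℝ} (hρ : TC ρ) (heq : ∀ x, ρ x = tf (Vpt z R x - pot ρ x - φ₀))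
    {H : X → X →L[ℝ] X} (h : HessSol z R ρ H) :
    ∃ C N : ℝ, 0 ≤ C ∧ 0 < N ∧ (∀ i, ‖R i‖ < N) ∧ (∀ x, N ≤ ‖x‖ → ρ x = 0) ∧
      ∀ x, N ≤ ‖x‖ → ‖psi' z R ρ x‖ ≤ C * (‖x‖ ^ 2)⁻¹ ∧ ‖H x‖ ≤ C * (‖x‖ ^ 3)⁻¹ ∧
        ∀ y, ‖y - x‖ ≤ ‖x‖ / 2 → (∀ i, y ≠ R i) ∧ ‖psi' z R ρ y‖ ≤ 4 * C * (‖x‖ ^ 2)⁻¹ ∧
          ‖H y‖ ≤ 8 * C * (‖x‖ ^ 3)⁻¹ ∧ ‖H x - H y‖ ≤ C * ‖x - y‖ * (‖x‖ ^ 4)⁻¹ := by
  obtain ⟨r, hr0, hr⟩ := sol_supp hz R hφ hρ heq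
  obtain ⟨C₁, N₁, hC₁, hN₁, h1⟩ := psi_grad_inf hz R hφ hρ heq
  set M : ℝ := ∑ i, ‖R i‖ with hM
  have hM0 : 0 ≤ M := Finset.sum_nonneg fun i _ => norm_nonneg _
  have hMi : ∀ i, ‖R i‖ ≤ M := fun i =>
    Finset.single_le_sum (f := fun i => ‖R i‖) (fun i _ => norm_nonneg _) (Finset.mem_univ i)
  set Z : ℝ := ∑ i, z i with hZ
  have hZ0 : 0 ≤ Z := Finset.sum_nonneg fun i _ => hz i
  set m : ℝ := ∫ y, |ρ y| with hmdef
  have hm0 : 0 ≤ m := integral_nonneg fun y => abs_nonneg _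
  -- far from the origin
  set N₀ : ℝ := 8 * r + 8 * M + N₁ with hN₀
  have hN₀0 : 0 < N₀ := by positivity
  have key : ∀ x, N₀ ≤ ‖x‖ → (∀ i, x ≠ R i) ∧ H x = hVpt z R x - hF ρ x ∧
      ‖psi' z R ρ x‖ ≤ C₁ * (‖x‖ ^ 2)⁻¹ ∧ ‖H x‖ ≤ 8 * (Z + m) * (‖x‖ ^ 3)⁻¹ := by
    intro x hx
    have hx0 : 0 < ‖x‖ := by linarith
    have hne : ∀ i, x ≠ R i := by
      rintro i rfl
      have := hMi i
      linarith
    have hF1 := hF_far hρ.meas hρ.int hr0 hr (x := x) (by linarith)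
    have hV1 := hVpt_far hz R (x := x) (x' := x) hx0 fun i => by have := hMi i; linarith
    have e : H x = hVpt z R x - hF ρ x :=
      (h.deriv x hne).unique ((hasFDerivAt_gVpt z hne).sub hF1.2.1)
    refine ⟨hne, e, h1 x (by linarith), ?_⟩
    rw [e]
    refine (norm_sub_le _ _).trans ((add_le_add hV1.1 hF1.2.2).trans (le_of_eq (by ring)))
  set C : ℝ := C₁ + 324 * (Z + m) with hC
  have hC0 : 0 ≤ C := by positivity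
  refine ⟨C, 2 * N₀, hC0, by positivity, fun i => ?_, fun x hx => hr x (by linarith), fun x hx => ?_⟩
  · have := hMi i
    linarith
  have hx0 : 0 < ‖x‖ := by linarith
  obtain ⟨hne, e, k1, k2⟩ := key x (by linarith)
  have p2 : 0 ≤ (‖x‖ ^ 2)⁻¹ := by positivity
  have p3 : 0 ≤ (‖x‖ ^ 3)⁻¹ := by positivity
  have p4 : 0 ≤ (‖x‖ ^ 4)⁻¹ := by positivity
  have hZm : 0 ≤ Z + m := add_nonneg hZ0 hm0
  refine ⟨k1.trans (mul_le_mul_of_nonneg_right (by linarith) p2),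
    k2.trans (mul_le_mul_of_nonneg_right (by linarith) p3), fun y hy => ?_⟩
  have hyn : ‖x‖ / 2 ≤ ‖y‖ := by
    have h2 := norm_sub_norm_le x y
    rw [norm_sub_rev] at h2
    linarith
  have hy0 : 0 < ‖y‖ := by linarith
  obtain ⟨hne', e', k1', k2'⟩ := key y (by linarith)
  have q2 : (‖y‖ ^ 2)⁻¹ ≤ 4 * (‖x‖ ^ 2)⁻¹ := by
    calc (‖y‖ ^ 2)⁻¹ ≤ ((‖x‖ / 2) ^ 2)⁻¹ :=
          inv_anti₀ (by positivity) (pow_le_pow_left₀ (by positivity) hyn 2)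
      _ = _ := by rw [div_pow, inv_div]; ring
  have q3 : (‖y‖ ^ 3)⁻¹ ≤ 8 * (‖x‖ ^ 3)⁻¹ := by
    calc (‖y‖ ^ 3)⁻¹ ≤ ((‖x‖ / 2) ^ 3)⁻¹ :=
          inv_anti₀ (by positivity) (pow_le_pow_left₀ (by positivity) hyn 3)
      _ = _ := by rw [div_pow, inv_div]; ring
  have k3 : ‖H y‖ ≤ 64 * (Z + m) * (‖x‖ ^ 3)⁻¹ := by
    refine k2'.trans ?_
    calc 8 * (Z + m) * (‖y‖ ^ 3)⁻¹ ≤ 8 * (Z + m) * (8 * (‖x‖ ^ 3)⁻¹) := by gcongr
      _ = _ := by ring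
  refine ⟨hne', ?_, ?_, ?_⟩
  · refine k1'.trans ?_
    calc C₁ * (‖y‖ ^ 2)⁻¹ ≤ C₁ * (4 * (‖x‖ ^ 2)⁻¹) := mul_le_mul_of_nonneg_left q2 hC₁
      _ = 4 * C₁ * (‖x‖ ^ 2)⁻¹ := by ring
      _ ≤ 4 * C * (‖x‖ ^ 2)⁻¹ := mul_le_mul_of_nonneg_right (by linarith) p2
  · exact k3.trans (mul_le_mul_of_nonneg_right (by linarith) p3)
  · by_cases hxy : 4 * ‖x - y‖ ≤ ‖x‖
    · rw [e, e']
      have hV := (hVpt_far hz R (x := x) (x' := y) hx0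
        fun i => by have := hMi i; linarith).2 hxy
      have hFf := hF_far_lip hρ.meas hρ.int hr0 hr (x := x) (x' := y) (by linarith)
        (by linarith) hxy
      have e3 : hVpt z R x - hF ρ x - (hVpt z R y - hF ρ y) =
          (hVpt z R x - hVpt z R y) - (hF ρ x - hF ρ y) := by abel
      rw [e3]
      refine (norm_sub_le _ _).trans ((add_le_add hV hFf).trans ?_)
      calc 160 * Z * ‖x - y‖ * (‖x‖ ^ 4)⁻¹ + 160 * m * ‖x - y‖ * (‖x‖ ^ 4)⁻¹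
          = 160 * (Z + m) * (‖x - y‖ * (‖x‖ ^ 4)⁻¹) := by ring
        _ ≤ C * (‖x - y‖ * (‖x‖ ^ 4)⁻¹) :=
          mul_le_mul_of_nonneg_right (by linarith) (by positivity)
        _ = _ := by ring
    · have h5 : ‖x‖ ≤ 4 * ‖x - y‖ := (not_le.mp hxy).le
      refine (norm_sub_le _ _).trans ((add_le_add k2 k3).trans ?_)
      have h6 : (‖x‖ ^ 3)⁻¹ = ‖x‖ * (‖x‖ ^ 4)⁻¹ := by field_simp
      calc 8 * (Z + m) * (‖x‖ ^ 3)⁻¹ + 64 * (Z + m) * (‖x‖ ^ 3)⁻¹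
          = 72 * (Z + m) * (‖x‖ * (‖x‖ ^ 4)⁻¹) := by rw [h6]; ring
        _ ≤ 72 * (Z + m) * (4 * ‖x - y‖ * (‖x‖ ^ 4)⁻¹) := by gcongr
        _ = 288 * (Z + m) * (‖x - y‖ * (‖x‖ ^ 4)⁻¹) := by ring
        _ ≤ C * (‖x - y‖ * (‖x‖ ^ 4)⁻¹) :=
          mul_le_mul_of_nonneg_right (by linarith) (by positivity)
        _ = _ := by ring

end Pool.Agent.TF.Col
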