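import Pool.Agent.Lib.MP_9cf0c9_mp.TrialOK61
import Pool.Agent.Lib.MP_9cf0c9_mp.CalibErr
import Pool.Agent.Lib.MP_9cf0c9_mp.C2Weak

/-! The solution near the nuclei, arbitrary charges. -/

set_option linter.unusedSectionVars false
set_option linter.unusedVariables false
set_option linter.style.haveILetI false

namespace Pool.Agent.TF.Dis
open MeasureTheory Set Metric Filter Topology Pool.Agent.TF.Grd
open scoped ENNReal NNReal RealInnerProductSpace Gradient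

variable {ι : Type*} [Fintype ι]
variable {z : ι → ℝ} {R : ι → X} {φ₀ : ℝ} {ρ : X → ℝ} {H : X → X →L[ℝ] X}

/-- **data near a nucleus** -/
theorem near_data (hz : ∀ i, 0 < z i) (hR : Function.Injective R) (hφ : 0 < φ₀)
    (hρ : TC ρ) (heq : ∀ x, ρ x = tf (Vpt z R x - pot ρ x - φ₀)) (h : HessSol z R ρ H) (i : ι) :
    ∃ B η : ℝ, 0 ≤ B ∧ 0 < η ∧ η ≤ 1 ∧ ∀ x, 0 < ‖x - R i‖ → ‖x - R i‖ < η →
      (∀ j, x ≠ R j) ∧
      NearD (z i) B (‖x - R i‖ ^ (1 / 4 : ℝ)) (x - R i) (psi' z R ρ x) (H x) ∧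
      ‖gVpt z R x + (z i * (‖x - R i‖ ^ 3)⁻¹) • (x - R i)‖ ≤ B := by
  classical
  have hz0 : ∀ i, 0 ≤ z i := fun i => (hz i).le
  obtain ⟨-, ⟨D, hD0, hD⟩, -⟩ := sol_facts hz0 R hφ hρ heq
  obtain ⟨C, hC0, hC⟩ := h.near
  obtain ⟨d, hd0, hd1, hd⟩ := exists_sep hR i
  set Z : ℝ := ∑ j, z j with hZ
  have hZj : ∀ j, z j ≤ Z := fun j =>
    Finset.single_le_sum (f := z) (fun j _ => hz0 j) (Finset.mem_univ j)
  have hZ0 : 0 ≤ Z := (hz0 i).trans (hZj i)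
  set n : ℝ := ((Fintype.card ι : ℕ) : ℝ) with hn
  have hn0 : 0 ≤ n := Nat.cast_nonneg _
  set b3 : ℝ := (d⁻¹) ^ (3 / 4 : ℝ) with hb3
  set b7 : ℝ := (d⁻¹) ^ (7 / 4 : ℝ) with hb7
  have hb30 : 0 ≤ b3 := by positivity
  have hb70 : 0 ≤ b7 := by positivity
  set K1 : ℝ := n * (Z * (d ^ 2)⁻¹) with hK1
  set K2 : ℝ := n * (Z * (4 * (d ^ 3)⁻¹)) with hK2
  have hK10 : 0 ≤ K1 := by positivity
  have hK20 : 0 ≤ K2 := by positivity
  refine ⟨K1 + D * (2 + n * b3) + (C * (2 + n * b7) + K2), d, by positivity, hd0, hd1,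
    fun x hx0 hxd => ?_⟩
  set r : ℝ := ‖x - R i‖ with hr
  have hoff := hd x hxd
  have hr1 : r ≤ 1 := hxd.le.trans hd1
  have hne : ∀ j, x ≠ R j := by
    intro j hj
    by_cases hji : j = i
    · rw [hr, hj, hji, sub_self, norm_zero] at hx0
      exact lt_irrefl _ hx0
    · have := hoff j hji
      rw [hj, sub_self, norm_zero] at this
      linarith
  obtain ⟨q4, q3, q7⟩ := quarter_pow hx0
  have hone : ∀ a : ℝ, 0 ≤ a → 1 ≤ (r⁻¹) ^ a := fun a ha =>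
    Real.one_le_rpow ((one_le_inv₀ hx0).mpr hr1) ha
  -- the potential part
  have h1 : gVpt z R x + (z i * (r ^ 3)⁻¹) • (x - R i) =
      ∑ j ∈ Finset.univ.erase i, z j • gradP (R j) x := by
    have e1 : gVpt z R x = z i • gradP (R i) x +
        ∑ j ∈ Finset.univ.erase i, z j • gradP (R j) x := by
      unfold gVpt
      rw [← Finset.add_sum_erase _ _ (Finset.mem_univ i)]
    have e2 : z i • gradP (R i) x = -((z i * (r ^ 3)⁻¹) • (x - R i)) := by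
      unfold gradP
      rw [smul_neg, smul_smul]
    rw [e1, e2]
    abel
  have h2 : ‖∑ j ∈ Finset.univ.erase i, z j • gradP (R j) x‖ ≤ K1 := by
    refine (norm_sum_le _ _).trans ?_
    have h3 : ∀ j ∈ Finset.univ.erase i, ‖z j • gradP (R j) x‖ ≤ Z * (d ^ 2)⁻¹ := by
      intro j hj
      rw [norm_smul, Real.norm_of_nonneg (hz0 j), gradP_norm]
      refine mul_le_mul (hZj j) ?_ (by positivity) hZ0
      exact inv_anti₀ (by positivity)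
        (pow_le_pow_left₀ hd0.le (hoff j (Finset.ne_of_mem_erase hj)) 2)
    refine (Finset.sum_le_sum h3).trans ?_
    rw [Finset.sum_const, nsmul_eq_mul]
    refine mul_le_mul_of_nonneg_right ?_ (by positivity)
    rw [hn]
    exact_mod_cast (Finset.card_erase_le).trans (by rw [Finset.card_univ])
  have h4 : ‖gradV ρ x‖ ≤ D * ((2 + n * b3) * (r⁻¹) ^ (3 / 4 : ℝ)) := by
    refine (hD x hne).trans (mul_le_mul_of_nonneg_left ?_ hD0)
    have h5 := sum_rpow_near (R := R) hd0 hoff (a := 3 / 4) (by norm_num)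
    have h6 := hone (3 / 4) (by norm_num)
    have h7 : n * b3 ≤ n * b3 * (r⁻¹) ^ (3 / 4 : ℝ) := le_mul_of_one_le_right (by positivity) h6
    rw [add_mul]
    rw [← hn, ← hb3] at h5
    linarith
  -- the Hessian part
  have h8 : H x - z i • hP 0 (x - R i) = (H x - hVpt z R x) +
      ∑ j ∈ Finset.univ.erase i, z j • hP (R j) x := by
    have e1 : hVpt z R x = z i • hP (R i) x + ∑ j ∈ Finset.univ.erase i, z j • hP (R j) x := by
      unfold hVpt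
      rw [← Finset.add_sum_erase _ _ (Finset.mem_univ i)]
    rw [hP_shift, e1]
    abel
  have h9 : ‖∑ j ∈ Finset.univ.erase i, z j • hP (R j) x‖ ≤ K2 := by
    refine (norm_sum_le _ _).trans ?_
    have h3 : ∀ j ∈ Finset.univ.erase i, ‖z j • hP (R j) x‖ ≤ Z * (4 * (d ^ 3)⁻¹) := by
      intro j hj
      rw [norm_smul, Real.norm_of_nonneg (hz0 j)]
      refine mul_le_mul (hZj j) ((hP_norm _ _).trans ?_) (norm_nonneg _) hZ0
      refine mul_le_mul_of_nonneg_left ?_ (by norm_num)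
      exact inv_anti₀ (by positivity)
        (pow_le_pow_left₀ hd0.le (hoff j (Finset.ne_of_mem_erase hj)) 3)
    refine (Finset.sum_le_sum h3).trans ?_
    rw [Finset.sum_const, nsmul_eq_mul]
    refine mul_le_mul_of_nonneg_right ?_ (by positivity)
    rw [hn]
    exact_mod_cast (Finset.card_erase_le).trans (by rw [Finset.card_univ])
  have h10 : ‖H x - hVpt z R x‖ ≤ C * ((2 + n * b7) * (r⁻¹) ^ (7 / 4 : ℝ)) := by
    refine (hC x hne).trans (mul_le_mul_of_nonneg_left ?_ hC0)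
    have h5 := sum_rpow_near (R := R) hd0 hoff (a := 7 / 4) (by norm_num)
    have h6 := hone (7 / 4) (by norm_num)
    have h7 : n * b7 ≤ n * b7 * (r⁻¹) ^ (7 / 4 : ℝ) := le_mul_of_one_le_right (by positivity) h6
    rw [add_mul]
    rw [← hn, ← hb7] at h5
    linarith
  have hP1 : 0 ≤ D * (2 + n * b3) := by positivity
  have hP2 : 0 ≤ C * (2 + n * b7) := by positivity
  refine ⟨hne, ⟨by positivity, Real.rpow_le_one hx0.le hr1 (by norm_num), q4.symm, ?_, ?_⟩, ?_⟩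
  · rw [q3, ← hr]
    have e1 : psi' z R ρ x + (z i * (r ^ 3)⁻¹) • (x - R i) =
        (gVpt z R x + (z i * (r ^ 3)⁻¹) • (x - R i)) - gradV ρ x := by
      unfold psi'
      abel
    rw [e1, h1]
    refine (norm_sub_le _ _).trans ((add_le_add h2 h4).trans ?_)
    have h6 := hone (3 / 4) (by norm_num)
    have h7 : K1 ≤ K1 * (r⁻¹) ^ (3 / 4 : ℝ) := le_mul_of_one_le_right hK10 h6
    have h11 : 0 ≤ (C * (2 + n * b7) + K2) * (r⁻¹) ^ (3 / 4 : ℝ) := by positivity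
    nlinarith
  · intro u
    rw [q7]
    have e1 : H x u - z i • hP 0 (x - R i) u = (H x - z i • hP 0 (x - R i)) u := by
      rw [sub_apply, smul_apply]
    rw [e1]
    refine (ContinuousLinearMap.le_opNorm _ _).trans (mul_le_mul_of_nonneg_right ?_ (norm_nonneg _))
    rw [h8]
    refine (norm_add_le _ _).trans ((add_le_add h10 h9).trans ?_)
    have h6 := hone (7 / 4) (by norm_num)
    have h7 : K2 ≤ K2 * (r⁻¹) ^ (7 / 4 : ℝ) := le_mul_of_one_le_right hK20 h6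
    have h11 : 0 ≤ (K1 + D * (2 + n * b3)) * (r⁻¹) ^ (7 / 4 : ℝ) := by positivity
    nlinarith
  · rw [h1]
    refine h2.trans ?_
    have : 0 ≤ C * (2 + n * b7) + K2 := by positivity
    linarith

/-- the own frame near its nucleus: value, gradient, flux -/
theorem own_near {q B b : ℝ} {n v g : X} {T : X →L[ℝ] X} (h : NearD q B b n v T) (hq : 0 < q)
    (hB : 0 ≤ B) (hg : ‖g + (q * (‖n‖ ^ 3)⁻¹) • n‖ ≤ B) :
    |⟪n, v⟫ + q * ‖n‖⁻¹| ≤ B * b ∧ ‖g + v + T n‖ ≤ 3 * B * (b ^ 3)⁻¹ ∧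
      |-(2 * ‖n‖ * ⟪n, v⟫ ^ 2) - ‖n‖ ^ 3 * ⟪T v, n⟫| ≤ (9 * q * B + 3 * B ^ 2) * b := by
  obtain ⟨m, hm1, hnm, hW, hS⟩ := h.scaled hq hB
  obtain ⟨b0, b1, hn, hv, hT⟩ := h
  have hn0 : 0 < ‖n‖ := by rw [hn]; positivity
  refine ⟨?_, ?_, ?_⟩
  · have e1 : ⟪n, v⟫ + q * ‖n‖⁻¹ = ⟪n, v + (q * (‖n‖ ^ 3)⁻¹) • n⟫ := by
      rw [inner_add_right, real_inner_smul_right, real_inner_self_eq_norm_sq]
      field_simp
    rw [e1]
    calc |⟪n, v + (q * (‖n‖ ^ 3)⁻¹) • n⟫| ≤ ‖n‖ * ‖v + (q * (‖n‖ ^ 3)⁻¹) • n‖ :=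
          abs_real_inner_le_norm _ _
      _ ≤ b ^ 4 * (B * (b ^ 3)⁻¹) := by
          rw [← hn]
          exact mul_le_mul_of_nonneg_left hv hn0.le
      _ = B * b := by field_simp
  · have e1 : hP 0 n n = (2 * (‖n‖ ^ 3)⁻¹) • n := by
      rw [hP_apply, sub_zero, real_inner_self_eq_norm_sq, ← sub_smul]
      congr 1
      field_simp
      norm_num
    have e2 : g + v + T n = (g + (q * (‖n‖ ^ 3)⁻¹) • n) + (v + (q * (‖n‖ ^ 3)⁻¹) • n) +
        (T n - q • hP 0 n n) := by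
      rw [e1]
      module
    rw [e2]
    have h1 : ‖T n - q • hP 0 n n‖ ≤ B * (b ^ 3)⁻¹ := by
      refine (hT n).trans (le_of_eq ?_)
      rw [hn]
      field_simp
    have h2 : B ≤ B * (b ^ 3)⁻¹ := by
      refine le_mul_of_one_le_right hB ?_
      exact (one_le_inv₀ (by positivity)).mpr (pow_le_one₀ b0.le b1)
    refine (norm_add₃_le).trans ?_
    linarith
  · obtain ⟨W, hWd⟩ : ∃ W : X, W = b ^ 8 • v + q • m := ⟨_, rfl⟩
    obtain ⟨S, hSd⟩ : ∃ S : X, S = b ^ 20 • T v + (2 * q ^ 2) • m := ⟨_, rfl⟩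
    rw [← hWd] at hW
    rw [← hSd] at hS
    have a1 : b ^ 8 * ⟪m, v⟫ = -q + ⟪m, W⟫ := by
      rw [hWd, inner_add_right, real_inner_smul_right, real_inner_smul_right,
        real_inner_self_eq_norm_sq, hm1]
      ring
    have a2 : b ^ 20 * ⟪T v, m⟫ = -(2 * q ^ 2) + ⟪S, m⟫ := by
      rw [hSd, inner_add_left, real_inner_smul_left, real_inner_smul_left,
        real_inner_self_eq_norm_sq, hm1]
      ring
    have a3 : ⟪n, v⟫ = b ^ 4 * ⟪m, v⟫ := by rw [hnm, real_inner_smul_left]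
    have a4 : ⟪T v, n⟫ = b ^ 4 * ⟪T v, m⟫ := by rw [hnm, real_inner_smul_right]
    have hI : |⟪m, W⟫| ≤ B * b ^ 5 := by
      refine (abs_real_inner_le_norm _ _).trans ?_
      rw [hm1, one_mul]
      exact hW
    have hJ : |⟪S, m⟫| ≤ (5 * q * B + B ^ 2) * b ^ 5 := by
      refine (abs_real_inner_le_norm _ _).trans ?_
      rw [hm1, mul_one]
      exact hS
    have e3 : b ^ 4 * (-(2 * ‖n‖ * ⟪n, v⟫ ^ 2) - ‖n‖ ^ 3 * ⟪T v, n⟫) =
        4 * q * ⟪m, W⟫ - 2 * ⟪m, W⟫ ^ 2 - ⟪S, m⟫ := by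
      have e4 : b ^ 4 * (-(2 * ‖n‖ * ⟪n, v⟫ ^ 2) - ‖n‖ ^ 3 * ⟪T v, n⟫) =
          -(2 * (b ^ 8 * ⟪m, v⟫) ^ 2) - b ^ 20 * ⟪T v, m⟫ := by
        rw [a3, a4, hn]
        ring
      rw [e4, a1, a2]
      ring
    have hb5 : b ^ 5 ≤ 1 := pow_le_one₀ b0.le b1
    have h3 : ⟪m, W⟫ ^ 2 ≤ B ^ 2 * b ^ 5 := by
      calc ⟪m, W⟫ ^ 2 = |⟪m, W⟫| ^ 2 := (sq_abs _).symm
        _ ≤ (B * b ^ 5) ^ 2 := pow_le_pow_left₀ (abs_nonneg _) hI 2
        _ = B ^ 2 * b ^ 5 * b ^ 5 := by ring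
        _ ≤ B ^ 2 * b ^ 5 * 1 := mul_le_mul_of_nonneg_left hb5 (by positivity)
        _ = B ^ 2 * b ^ 5 := mul_one _
    have h4 : |4 * q * ⟪m, W⟫ - 2 * ⟪m, W⟫ ^ 2 - ⟪S, m⟫| ≤
        4 * q * (B * b ^ 5) + 2 * (B ^ 2 * b ^ 5) + (5 * q * B + B ^ 2) * b ^ 5 := by
      have g1 := abs_le.mp hI
      have g2 := abs_le.mp hJ
      have g3 : 0 ≤ ⟪m, W⟫ ^ 2 := sq_nonneg _
      have g4 : 0 ≤ B ^ 2 * b ^ 5 := by positivity
      rw [abs_le]
      constructor <;> nlinarith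
    rw [← e3, abs_mul, abs_of_pos (by positivity : 0 < b ^ 4)] at h4
    have h5 : b ^ 4 * |-(2 * ‖n‖ * ⟪n, v⟫ ^ 2) - ‖n‖ ^ 3 * ⟪T v, n⟫| ≤
        b ^ 4 * ((9 * q * B + 3 * B ^ 2) * b) := by
      refine h4.trans (le_of_eq ?_)
      ring
    exact le_of_mul_le_mul_left h5 (by positivity)

/-- the own frame near its nucleus, with powers of the distance -/
theorem own_facts (hz : ∀ i, 0 < z i) (hR : Function.Injective R) (hφ : 0 < φ₀)
    (hρ : TC ρ) (heq : ∀ x, ρ x = tf (Vpt z R x - pot ρ x - φ₀)) (h : HessSol z R ρ H) (i : ι) :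
    ∃ C η : ℝ, 0 ≤ C ∧ 0 < η ∧ η ≤ 1 ∧ ∀ x, 0 < ‖x - R i‖ → ‖x - R i‖ < η →
      (∀ j, x ≠ R j) ∧
      |⟪x - R i, psi' z R ρ x⟫ + z i * ‖x - R i‖⁻¹| ≤ C * ‖x - R i‖ ^ (1 / 4 : ℝ) ∧
      ‖gVpt z R x + psi' z R ρ x + H x (x - R i)‖ ≤ C * (‖x - R i‖⁻¹) ^ (3 / 4 : ℝ) ∧
      |-(2 * ‖x - R i‖ * ⟪x - R i, psi' z R ρ x⟫ ^ 2) -
        ‖x - R i‖ ^ 3 * ⟪H x (psi' z R ρ x), x - R i⟫| ≤ C * ‖x - R i‖ ^ (1 / 4 : ℝ) := by
  obtain ⟨B, η, hB, hη, hη1, hnd⟩ := near_data hz hR hφ hρ heq h i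
  have hzi := hz i
  refine ⟨3 * B + (9 * z i * B + 3 * B ^ 2), η, by positivity, hη, hη1, fun x hx0 hxη => ?_⟩
  obtain ⟨hne, hN, hgV⟩ := hnd x hx0 hxη
  obtain ⟨h1, h2, h3⟩ := own_near hN hzi hB hgV
  obtain ⟨q4, q3, q7⟩ := quarter_pow hx0
  have hp : 0 ≤ ‖x - R i‖ ^ (1 / 4 : ℝ) := by positivity
  have hp3 : 0 ≤ (‖x - R i‖⁻¹) ^ (3 / 4 : ℝ) := by positivity
  have hzB : 0 ≤ 9 * z i * B + 3 * B ^ 2 := by positivity
  refine ⟨hne, h1.trans ?_, ?_, h3.trans ?_⟩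
  · refine mul_le_mul_of_nonneg_right ?_ hp
    linarith
  · rw [q3] at h2
    refine h2.trans (mul_le_mul_of_nonneg_right ?_ hp3)
    linarith
  · refine mul_le_mul_of_nonneg_right ?_ hp
    linarith

end Pool.Agent.TF.Dis
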