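import Pool.Agent.Lib.MP_9cf0c9_mp.WeakRep

/-! The gradient of a Newtonian potential and the weak Poisson equation. -/

set_option linter.unusedSectionVars false
set_option linter.unusedVariables false
set_option linter.style.haveILetI false

namespace Pool.Agent.TF
open MeasureTheory Set Metric Filter Topology
open scoped ENNReal NNReal RealInnerProductSpace Gradient

variable {V : Type*} [NormedAddCommGroup V] [InnerProductSpace ℝ V] [FiniteDimensional ℝ V]
  [MeasurableSpace V] [BorelSpace V]

/-- the gradient of the potential as a vector -/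
noncomputable def gradV (f : V → ℝ) (x : V) : V := -∫ y, f y • ((‖x - y‖ ^ 3)⁻¹ • (x - y))

theorem norm_kv (v : V) : ‖(‖v‖ ^ 3)⁻¹ • v‖ = (‖v‖ ^ 2)⁻¹ := by
  rw [norm_smul, norm_inv, norm_pow, norm_norm]
  by_cases hv : ‖v‖ = 0
  · simp [hv]
  · field_simp

theorem measurable_kv : Measurable (fun v : V => (‖v‖ ^ 3)⁻¹ • v) :=
  (measurable_norm.pow_const 3).inv.smul measurable_id

/-- the integrand of `gradV` is integrable at `x` -/
def GI (f : V → ℝ) (x : V) : Prop := Integrable (fun y => f y • ((‖x - y‖ ^ 3)⁻¹ • (x - y)))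

theorem GI_iff {f : V → ℝ} (hf : Measurable f) (x : V) :
    GI f x ↔ Integrable (fun y => (‖x - y‖ ^ 2)⁻¹ * |f y|) := by
  have hm : Measurable (fun y => f y • ((‖x - y‖ ^ 3)⁻¹ • (x - y))) :=
    hf.smul (measurable_kv.comp (measurable_const.sub measurable_id))
  unfold GI
  rw [← integrable_norm_iff hm.aestronglyMeasurable]
  refine integrable_congr (Eventually.of_forall fun y => ?_)
  simp only
  rw [norm_smul, norm_kv, Real.norm_eq_abs, mul_comm]

theorem inner_gradV {f : V → ℝ} {x : V} (h : GI f x) (e : V) : ⟪gradV f x, e⟫ = grad e f x := by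
  unfold gradV grad
  rw [inner_neg_left, real_inner_comm, ← integral_inner h, ← integral_neg]
  refine integral_congr_ae (Eventually.of_forall fun y => ?_)
  simp only
  rw [inner_smul_right, inner_smul_right, real_inner_comm]
  ring

theorem gradV_norm_le {f : V → ℝ} (x : V) : ‖gradV f x‖ ≤ ∫ y, (‖x - y‖ ^ 2)⁻¹ * |f y| := by
  unfold gradV
  rw [norm_neg]
  refine (norm_integral_le_integral_norm _).trans (le_of_eq ?_)
  refine integral_congr_ae (Eventually.of_forall fun y => ?_)
  simp only
  rw [norm_smul, norm_kv, Real.norm_eq_abs, mul_comm]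

theorem gradV_add {f g : V → ℝ} {x : V} (hf : GI f x) (hg : GI g x) :
    gradV (fun y => f y + g y) x = gradV f x + gradV g x := by
  unfold gradV
  rw [← neg_add, ← integral_add hf hg]
  congr 1
  refine integral_congr_ae (Eventually.of_forall fun y => ?_)
  simp only
  rw [add_smul]

theorem gradV_smul (c : ℝ) (f : V → ℝ) (x : V) :
    gradV (fun y => c * f y) x = c • gradV f x := by
  unfold gradV
  rw [smul_neg, ← integral_smul]
  congr 1
  refine integral_congr_ae (Eventually.of_forall fun y => ?_)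
  simp only
  rw [smul_smul, smul_smul, smul_smul, mul_assoc]

theorem gradV_sub {f g : V → ℝ} {x : V} (hf : GI f x) (hg : GI g x) :
    gradV (fun y => f y - g y) x = gradV f x - gradV g x := by
  unfold gradV
  rw [← neg_sub_neg, neg_neg, neg_neg, ← neg_sub, neg_inj, ← integral_sub hf hg]
  refine integral_congr_ae (Eventually.of_forall fun y => ?_)
  simp only
  rw [sub_smul]

theorem ker_sq : Ker (fun v : V => (‖v‖ ^ 2)⁻¹) where
  meas := (measurable_norm.pow_const 2).inv
  cont v hv := by
    have : ‖v‖ ^ 2 ≠ 0 := pow_ne_zero _ (norm_ne_zero_iff.mpr hv)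
    fun_prop (disch := assumption)
  bd := by
    refine ⟨1, zero_le_one, fun v => ?_⟩
    rw [abs_of_nonneg (by positivity)]
    linarith

/-- a function with continuous line derivatives near a point is differentiable there -/
theorem hasGradientAt_of_line {g : V → ℝ} {G : V → V} {x₀ : V} {δ : ℝ} (hδ : 0 < δ)
    (hl : ∀ x ∈ ball x₀ δ, ∀ e : V, HasDerivAt (fun t : ℝ => g (x + t • e)) ⟪G x, e⟫ 0)
    (hc : ContinuousAt G x₀) : HasGradientAt g (G x₀) x₀ := by
  rw [hasGradientAt_iff_isLittleO, Asymptotics.isLittleO_iff]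
  intro ε hε
  have h1 : ∀ᶠ x in 𝓝 x₀, ‖G x - G x₀‖ < ε := by
    have := hc.eventually (ball_mem_nhds (G x₀) hε)
    filter_upwards [this] with x hx
    rwa [dist_eq_norm] at hx
  obtain ⟨r, hr, hr'⟩ := Metric.eventually_nhds_iff_ball.mp h1
  filter_upwards [ball_mem_nhds x₀ (lt_min hr hδ)] with x hx
  have hxr : ‖x - x₀‖ < r := by
    rw [mem_ball, dist_eq_norm] at hx; exact hx.trans_le (min_le_left _ _)
  have hxδ : ‖x - x₀‖ < δ := by
    rw [mem_ball, dist_eq_norm] at hx; exact hx.trans_le (min_le_right _ _)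
  set v := x - x₀ with hv
  set F : ℝ → ℝ := fun t => g (x₀ + t • v) - t * ⟪G x₀, v⟫ with hF
  have hmem : ∀ t ∈ Icc (0 : ℝ) 1, ‖(x₀ + t • v) - x₀‖ ≤ ‖v‖ := by
    intro t ht
    rw [add_sub_cancel_left, norm_smul, Real.norm_of_nonneg ht.1]
    exact mul_le_of_le_one_left (norm_nonneg _) ht.2
  have hder : ∀ t ∈ Icc (0 : ℝ) 1, HasDerivWithinAt F (⟪G (x₀ + t • v), v⟫ - ⟪G x₀, v⟫)
      (Icc 0 1) t := by
    intro t ht
    have hb : x₀ + t • v ∈ ball x₀ δ := by
      rw [mem_ball, dist_eq_norm]
      exact (hmem t ht).trans_lt hxδ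
    have h2 := hl _ hb v
    have h3 : HasDerivAt (fun s : ℝ => g (x₀ + s • v)) ⟪G (x₀ + t • v), v⟫ t := by
      have h5 : HasDerivAt (fun s : ℝ => g (x₀ + t • v + s • v)) ⟪G (x₀ + t • v), v⟫ (t - t) := by
        rwa [sub_self]
      have h6 := HasDerivAt.comp_sub_const t t h5
      refine h6.congr_of_eventuallyEq (Eventually.of_forall fun s => ?_)
      simp only
      congr 1
      rw [add_assoc, ← add_smul]
      congr 2
      ring
    have h7 : HasDerivAt (fun s : ℝ => s * ⟪G x₀, v⟫) ⟪G x₀, v⟫ t := by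
      simpa using (hasDerivAt_id t).mul_const ⟪G x₀, v⟫
    exact (h3.sub h7).hasDerivWithinAt
  have hbd : ∀ t ∈ Ico (0 : ℝ) 1, ‖⟪G (x₀ + t • v), v⟫ - ⟪G x₀, v⟫‖ ≤ ε * ‖v‖ := by
    intro t ht
    rw [← inner_sub_left, Real.norm_eq_abs]
    refine (abs_real_inner_le_norm _ _).trans (mul_le_mul_of_nonneg_right ?_ (norm_nonneg _))
    refine (hr' _ ?_).le
    rw [mem_ball, dist_eq_norm]
    exact (hmem t ⟨ht.1, ht.2.le⟩).trans_lt hxr
  have h8 := norm_image_sub_le_of_norm_deriv_le_segment_01' hder hbd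
  have h9 : F 1 - F 0 = g x - g x₀ - ⟪G x₀, v⟫ := by
    simp only [hF, one_smul, zero_smul, add_zero, one_mul, zero_mul, sub_zero, hv]
    rw [add_sub_cancel]
    ring
  rwa [h9] at h8

section dim3
variable [hd : Fact (Module.finrank ℝ V = 3)]

theorem BC.abs {f : V → ℝ} (hf : BC f) : BC (fun x => |f x|) := by
  obtain ⟨M, R, hM0, -, hM, hR⟩ := hf.bounds
  exact ⟨hf.meas.abs, ⟨M, fun x => by rw [abs_abs]; exact hM x⟩,
    ⟨R, fun x hx => by rw [hR x hx, abs_zero]⟩⟩

theorem BC.GI {f : V → ℝ} (hf : BC f) (x : V) : GI f x := by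
  rw [GI_iff hf.meas]
  exact ker_sq.integrable hf.abs x

theorem gradV_eq_sum {f : V → ℝ} {x : V} (h : GI f x) :
    gradV f x = ∑ i, grad (stdOrthonormalBasis ℝ V i) f x • stdOrthonormalBasis ℝ V i := by
  have h1 := (stdOrthonormalBasis ℝ V).sum_repr' (gradV f x)
  rw [← h1]
  refine Finset.sum_congr rfl fun i _ => ?_
  rw [real_inner_comm, inner_gradV h]

theorem gradV_continuous {f : V → ℝ} (hf : BC f) : Continuous (gradV f) := by
  have h1 : gradV f = fun x => ∑ i, grad (stdOrthonormalBasis ℝ V i) f x •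
      stdOrthonormalBasis ℝ V i := by
    funext x
    exact gradV_eq_sum (hf.GI x)
  rw [h1]
  exact continuous_finsetSum _ fun i _ => (grad_continuous hf _).smul continuous_const

theorem gradV_bound {f : V → ℝ} (hf : BC f) : ∃ B, ∀ x, ‖gradV f x‖ ≤ B := by
  obtain ⟨M, R, hM0, hR0, hM, hR⟩ := hf.abs.bounds
  obtain ⟨B, hB⟩ := ker_sq.bound hf.abs
  refine ⟨B, fun x => (gradV_norm_le x).trans ?_⟩
  have h1 := hB x
  rwa [abs_of_nonneg (integral_nonneg fun y => mul_nonneg (by positivity) (abs_nonneg _))] at h1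

theorem hasGradientAt_pot {f : V → ℝ} (hf : BC f) (x : V) : HasGradientAt (pot f) (gradV f x) x := by
  refine hasGradientAt_of_line zero_lt_one (fun y _ e => ?_) (gradV_continuous hf).continuousAt
  have h := hasDerivAt_pot hf y e 0
  rwa [zero_smul, add_zero, ← inner_gradV (hf.GI y)] at h

/-- integrable densities vanishing near a point -/
theorem far_part {f : V → ℝ} (hm : Measurable f) (hf : Integrable f) {x₀ : V} {δ : ℝ} (hδ : 0 < δ)
    (h0 : ∀ y ∈ ball x₀ (2 * δ), f y = 0) :
    (∀ x ∈ ball x₀ δ, GI f x ∧ Integrable (fun y => ‖x - y‖⁻¹ * f y)) ∧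
    HasGradientAt (pot f) (gradV f x₀) x₀ ∧ ContinuousAt (gradV f) x₀ := by
  have hfar : ∀ x ∈ ball x₀ δ, ∀ y, f y ≠ 0 → δ ≤ ‖x - y‖ := by
    intro x hx y hy
    have hy' : y ∉ ball x₀ (2 * δ) := fun h => hy (h0 y h)
    rw [mem_ball, dist_eq_norm] at hx
    rw [mem_ball, dist_eq_norm, not_lt] at hy'
    have h1 : ‖y - x₀‖ ≤ ‖x - y‖ + ‖x - x₀‖ := by
      have : y - x₀ = (x - x₀) - (x - y) := by abel
      rw [this]
      refine (norm_sub_le _ _).trans (le_of_eq (add_comm _ _))
    linarith
  have hkb : ∀ x ∈ ball x₀ δ, ∀ y, ‖f y • ((‖x - y‖ ^ 3)⁻¹ • (x - y))‖ ≤ (δ ^ 2)⁻¹ * |f y| := by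
    intro x hx y
    rw [norm_smul, norm_kv, Real.norm_eq_abs, mul_comm]
    by_cases hy : f y = 0
    · simp [hy]
    · refine mul_le_mul_of_nonneg_right ?_ (abs_nonneg _)
      exact inv_anti₀ (by positivity) (pow_le_pow_left₀ hδ.le (hfar x hx y hy) 2)
  have hGm : ∀ x, Measurable (fun y => f y • ((‖x - y‖ ^ 3)⁻¹ • (x - y))) := fun x =>
    hm.smul (measurable_kv.comp (measurable_const.sub measurable_id))
  have hGI : ∀ x ∈ ball x₀ δ, GI f x := fun x hx =>
    (hf.abs.const_mul _).mono' (hGm x).aestronglyMeasurable (Eventually.of_forall (hkb x hx))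
  have hPm : ∀ x, Measurable (fun y => ‖x - y‖⁻¹ * f y) := fun x => by
    have : Measurable (fun y : V => ‖x - y‖⁻¹) := by fun_prop
    exact this.mul hm
  have hPI : ∀ x ∈ ball x₀ δ, Integrable (fun y => ‖x - y‖⁻¹ * f y) := by
    intro x hx
    refine (hf.abs.const_mul δ⁻¹).mono' (hPm x).aestronglyMeasurable
      (Eventually.of_forall fun y => ?_)
    rw [norm_mul, Real.norm_of_nonneg (by positivity), Real.norm_eq_abs]
    by_cases hy : f y = 0
    · simp [hy]
    · exact mul_le_mul_of_nonneg_right (inv_anti₀ hδ (hfar x hx y hy)) (abs_nonneg _)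
  have hx₀ : x₀ ∈ ball x₀ δ := mem_ball_self hδ
  refine ⟨fun x hx => ⟨hGI x hx, hPI x hx⟩, ?_, ?_⟩
  · have hcont : ContinuousAt (gradV f) x₀ := by
      unfold gradV
      refine ContinuousAt.neg ?_
      refine continuousAt_of_dominated (bound := fun y => (δ ^ 2)⁻¹ * |f y|)
        (Eventually.of_forall fun x => (hGm x).aestronglyMeasurable) ?_ (hf.abs.const_mul _) ?_
      · filter_upwards [ball_mem_nhds x₀ hδ] with x hx
        exact Eventually.of_forall (hkb x hx)
      · refine Eventually.of_forall fun y => ?_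
        by_cases hy : f y = 0
        · simp only [hy, zero_smul]; exact continuousAt_const
        · have hne : ‖x₀ - y‖ ^ 3 ≠ 0 := by
            have := hfar x₀ hx₀ y hy
            have : 0 < ‖x₀ - y‖ := by linarith
            positivity
          refine continuousAt_const.smul (ContinuousAt.smul ?_ (by fun_prop))
          exact ContinuousAt.inv₀ (by fun_prop) hne
    refine hasGradientAt_of_line hδ (fun x hx e => ?_) hcont
    rw [inner_gradV (hGI x hx)]
    -- differentiate under the integral sign along the line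
    obtain ⟨η, hη, hη'⟩ : ∃ η > 0, ∀ t : ℝ, |t| < η → x + t • e ∈ ball x₀ δ := by
      have hc : ContinuousAt (fun t : ℝ => x + t • e) 0 := by fun_prop
      have h2 : ∀ᶠ t : ℝ in 𝓝 0, x + t • e ∈ ball x₀ δ :=
        hc.eventually (isOpen_ball.mem_nhds (by simpa using hx))
      obtain ⟨η, hη, h3⟩ := Metric.eventually_nhds_iff.mp h2
      exact ⟨η, hη, fun t ht => h3 (by rw [Real.dist_eq, sub_zero]; exact ht)⟩
    have h5 := hasDerivAt_integral_of_dominated_loc_of_deriv_le (μ := (volume : Measure V))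
      (F := fun (t : ℝ) (y : V) => ‖x + t • e - y‖⁻¹ * f y)
      (F' := fun (t : ℝ) (y : V) => -(⟪x + t • e - y, e⟫ * (‖x + t • e - y‖ ^ 3)⁻¹) * f y)
      (bound := fun y => (δ ^ 2)⁻¹ * |f y| * ‖e‖) (x₀ := (0 : ℝ)) (s := ball 0 η)
      (ball_mem_nhds 0 hη)
      (Eventually.of_forall fun t => (hPm _).aestronglyMeasurable)
      (by simpa using hPI x hx)
      (by
        have hmm : Measurable (fun y : V => -(⟪x + (0 : ℝ) • e - y, e⟫ *
            (‖x + (0 : ℝ) • e - y‖ ^ 3)⁻¹)) :=
          (ker_grad e).meas.comp (measurable_const.sub measurable_id)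
        exact (hmm.mul hm).aestronglyMeasurable)
      (by
        refine Eventually.of_forall fun y t ht => ?_
        have htb : x + t • e ∈ ball x₀ δ := hη' t (by
          rw [mem_ball, Real.dist_eq, sub_zero] at ht; exact ht)
        have h6 := hkb _ htb y
        have h7 : -(⟪x + t • e - y, e⟫ * (‖x + t • e - y‖ ^ 3)⁻¹) * f y =
            -⟪f y • ((‖x + t • e - y‖ ^ 3)⁻¹ • (x + t • e - y)), e⟫ := by
          rw [real_inner_smul_left, real_inner_smul_left]; ring
        rw [h7, norm_neg, Real.norm_eq_abs]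
        exact (abs_real_inner_le_norm _ _).trans (mul_le_mul_of_nonneg_right h6 (norm_nonneg _)))
      ((hf.abs.const_mul _).mul_const _)
      (by
        refine Eventually.of_forall fun y t ht => ?_
        have htb : x + t • e ∈ ball x₀ δ := hη' t (by
          rw [mem_ball, Real.dist_eq, sub_zero] at ht; exact ht)
        by_cases hy : f y = 0
        · simp only [hy, mul_zero]; exact hasDerivAt_const _ _
        · refine HasDerivAt.mul_const ?_ _
          have hne : x - y + t • e ≠ 0 := by
            have h8 := hfar _ htb y hy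
            have e1 : x - y + t • e = x + t • e - y := by abel
            rw [e1]
            exact norm_pos_iff.mp (hδ.trans_le h8)
          have h9 := hasDerivAt_inv_norm_line (x - y) e t hne
          have e2 : ∀ s : ℝ, x - y + s • e = x + s • e - y := fun s => by abel
          simp only [e2] at h9
          exact h9)
    have h10 := h5.2
    simp only [zero_smul, add_zero] at h10
    exact h10
  · unfold gradV
    refine ContinuousAt.neg ?_
    refine continuousAt_of_dominated (bound := fun y => (δ ^ 2)⁻¹ * |f y|)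
      (Eventually.of_forall fun x => (hGm x).aestronglyMeasurable) ?_ (hf.abs.const_mul _) ?_
    · filter_upwards [ball_mem_nhds x₀ hδ] with x hx
      exact Eventually.of_forall (hkb x hx)
    · refine Eventually.of_forall fun y => ?_
      by_cases hy : f y = 0
      · simp only [hy, zero_smul]; exact continuousAt_const
      · have hne : ‖x₀ - y‖ ^ 3 ≠ 0 := by
          have := hfar x₀ hx₀ y hy
          have : 0 < ‖x₀ - y‖ := by linarith
          positivity
        refine continuousAt_const.smul (ContinuousAt.smul ?_ (by fun_prop))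
        exact ContinuousAt.inv₀ (by fun_prop) hne

/-- the potential of an integrable density is continuously differentiable where the density is
locally bounded -/
theorem loc_grad {f : V → ℝ} (hm : Measurable f) (hf : Integrable f) {x₀ : V} {δ M : ℝ}
    (hδ : 0 < δ) (hb : ∀ y ∈ ball x₀ δ, |f y| ≤ M) :
    (∀ x ∈ ball x₀ (δ / 2), GI f x ∧ Integrable (fun y => ‖x - y‖⁻¹ * f y)) ∧
    HasGradientAt (pot f) (gradV f x₀) x₀ ∧ ContinuousAt (gradV f) x₀ := by
  set f1 : V → ℝ := (ball x₀ δ).indicator f with hf1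
  set f2 : V → ℝ := (ball x₀ δ)ᶜ.indicator f with hf2
  have hsum : ∀ y, f y = f1 y + f2 y := fun y => by
    simp only [hf1, hf2]
    by_cases hy : y ∈ ball x₀ δ
    · rw [indicator_of_mem hy, indicator_of_notMem (by simpa using hy), add_zero]
    · rw [indicator_of_notMem hy, indicator_of_mem (by simpa using hy), zero_add]
  have hM : 0 ≤ M := (abs_nonneg _).trans (hb x₀ (mem_ball_self hδ))
  have hbc : BC f1 := by
    refine ⟨hm.indicator measurableSet_ball, ⟨M, fun x => ?_⟩, ⟨‖x₀‖ + δ, fun x hx => ?_⟩⟩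
    · simp only [hf1]
      by_cases hx : x ∈ ball x₀ δ
      · rw [indicator_of_mem hx]; exact hb x hx
      · rw [indicator_of_notMem hx, abs_zero]; exact hM
    · refine indicator_of_notMem (fun h => ?_) _
      rw [mem_ball, dist_eq_norm] at h
      have := norm_sub_norm_le x x₀
      linarith
  have h2m : Measurable f2 := hm.indicator measurableSet_ball.compl
  have h2i : Integrable f2 := hf.indicator measurableSet_ball.compl
  have h20 : ∀ y ∈ ball x₀ (2 * (δ / 2)), f2 y = 0 := by
    intro y hy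
    rw [mul_div_cancel₀ δ two_ne_zero] at hy
    exact indicator_of_notMem (by simpa using hy) _
  obtain ⟨p1, p2, p3⟩ := far_part h2m h2i (half_pos hδ) h20
  have hfun : f = fun y => f1 y + f2 y := funext hsum
  have hx₀ : x₀ ∈ ball x₀ (δ / 2) := mem_ball_self (half_pos hδ)
  have hG : ∀ x ∈ ball x₀ (δ / 2), gradV f x = gradV f1 x + gradV f2 x := fun x hx => by
    rw [hfun]; exact gradV_add (hbc.GI x) (p1 x hx).1
  have hP : ∀ x ∈ ball x₀ (δ / 2), pot f x = pot f1 x + pot f2 x := fun x hx => by
    rw [hfun]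
    unfold pot
    rw [← integral_add (pot_integrable hbc x) (p1 x hx).2]
    exact integral_congr_ae (Eventually.of_forall fun y => by ring)
  refine ⟨fun x hx => ⟨?_, ?_⟩, ?_, ?_⟩
  · have h := (hbc.GI x).add (p1 x hx).1
    unfold GI
    refine h.congr (Eventually.of_forall fun y => ?_)
    simp only [Pi.add_apply]
    rw [← add_smul, ← hsum]
  · have h := (pot_integrable hbc x).add (p1 x hx).2
    refine h.congr (Eventually.of_forall fun y => ?_)
    simp only [Pi.add_apply]
    rw [← mul_add, ← hsum]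
  · have h1 := (hasGradientAt_pot hbc x₀).hasFDerivAt.add p2.hasFDerivAt
    rw [← map_add, ← hG x₀ hx₀] at h1
    have h2 : HasGradientAt (fun x => pot f1 x + pot f2 x) (gradV f x₀) x₀ := h1
    refine HasGradientAt.congr_of_eventuallyEq h2 ?_
    filter_upwards [ball_mem_nhds x₀ (half_pos hδ)] with x hx
    exact hP x hx
  · have h1 : ContinuousAt (fun x => gradV f1 x + gradV f2 x) x₀ :=
      (gradV_continuous hbc).continuousAt.add p3
    refine h1.congr ?_
    filter_upwards [ball_mem_nhds x₀ (half_pos hδ)] with x hx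
    exact (hG x hx).symm

/-- product integrability -/
theorem prod_inv_sq {f g : V → ℝ} (hf : Integrable f) (hfm : Measurable f) (hg : BC g) :
    Integrable (fun p : V × V => |g p.1| * ((‖p.1 - p.2‖ ^ 2)⁻¹ * |f p.2|))
      (volume.prod volume) := by
  obtain ⟨M, R, hM0, hR0, hM, hR⟩ := hg.bounds
  have hm : Measurable (fun p : V × V => |g p.1| * ((‖p.1 - p.2‖ ^ 2)⁻¹ * |f p.2|)) := by
    have h1 : Measurable (fun p : V × V => (‖p.1 - p.2‖ ^ 2)⁻¹) := by fun_prop
    exact (hg.meas.comp measurable_fst).abs.mul (h1.mul (hfm.comp measurable_snd).abs)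
  rw [integrable_prod_iff' hm.aestronglyMeasurable]
  have hsl : ∀ y : V, Integrable (fun x => (‖x - y‖ ^ 2)⁻¹ * |g x|) := by
    intro y
    have h := ker_sq.integrable hg.abs y
    refine h.congr (Eventually.of_forall fun x => ?_)
    simp only
    rw [norm_sub_rev]
  have hbd : ∀ y : V, ∫ x, (‖x - y‖ ^ 2)⁻¹ * |g x| ≤ 1 * M * cdom V R := by
    intro y
    have h := ker_int_abs_le (K := fun v : V => (‖v‖ ^ 2)⁻¹) (f := fun x => |g x|) (M := M)
      (R := R) ker_sq.meas zero_le_one
      (fun v => by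
        rw [abs_of_nonneg (by positivity)]
        linarith) hg.abs.meas (fun x => by rw [abs_abs]; exact hM x)
      (fun x hx => by simp only [hR x hx, abs_zero]) y
    refine le_trans (le_of_eq ?_) h
    refine integral_congr_ae (Eventually.of_forall fun x => ?_)
    simp only
    rw [abs_of_nonneg (by positivity : (0 : ℝ) ≤ (‖y - x‖ ^ 2)⁻¹ * |g x|), norm_sub_rev]
  refine ⟨Eventually.of_forall fun y => ?_, ?_⟩
  · refine ((hsl y).mul_const |f y|).congr (Eventually.of_forall fun x => ?_)
    simp only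
    ring
  · refine (hf.abs.mul_const (1 * M * cdom V R)).mono' ?_ (Eventually.of_forall fun y => ?_)
    · exact (hm.norm.stronglyMeasurable.integral_prod_left'
        (μ := (volume : Measure V))).aestronglyMeasurable
    · rw [Real.norm_of_nonneg (integral_nonneg fun x => norm_nonneg _)]
      have h1 : ∫ x, ‖|g x| * ((‖x - y‖ ^ 2)⁻¹ * |f y|)‖ =
          |f y| * ∫ x, (‖x - y‖ ^ 2)⁻¹ * |g x| := by
        rw [← integral_const_mul]
        refine integral_congr_ae (Eventually.of_forall fun x => ?_)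
        simp only
        rw [Real.norm_of_nonneg (by positivity)]
        ring
      rw [h1]
      exact mul_le_mul_of_nonneg_left (hbd y) (abs_nonneg _)

theorem ae_GI {f : V → ℝ} (hf : Integrable f) (hfm : Measurable f) : ∀ᵐ x, GI f x := by
  have h1 : ∀ n : ℕ, ∀ᵐ x : V, x ∈ ball (0 : V) n → GI f x := by
    intro n
    have hB : BC ((ball (0 : V) n).indicator fun _ => (1 : ℝ)) := by
      refine ⟨measurable_const.indicator measurableSet_ball, ⟨1, fun x => ?_⟩,
        ⟨n, fun x hx => indicator_of_notMem (by simpa using hx) _⟩⟩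
      rw [abs_of_nonneg (indicator_nonneg (fun _ _ => zero_le_one) _)]
      exact indicator_le_self' (fun _ _ => zero_le_one) _
    have h2 := (prod_inv_sq hf hfm hB).prod_right_ae
    filter_upwards [h2] with x hx hxn
    rw [GI_iff hfm]
    rw [indicator_of_mem hxn] at hx
    refine hx.congr (Eventually.of_forall fun y => ?_)
    simp
  rw [← ae_all_iff] at h1
  filter_upwards [h1] with x hx
  obtain ⟨n, hn⟩ := exists_nat_gt ‖x‖
  exact hx n (by simpa using hn)

theorem gradV_meas {f : V → ℝ} (hfm : Measurable f) : AEStronglyMeasurable (gradV f) volume := by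
  unfold gradV
  refine AEStronglyMeasurable.neg ?_
  have hm : Measurable (fun p : V × V => f p.2 • ((‖p.1 - p.2‖ ^ 3)⁻¹ • (p.1 - p.2))) :=
    (hfm.comp measurable_snd).smul (measurable_kv.comp (measurable_fst.sub measurable_snd))
  exact (hm.stronglyMeasurable.integral_prod_right' (ν := (volume : Measure V))).aestronglyMeasurable

/-- the weak Poisson equation for integrable densities and Lipschitz test functions -/
theorem weak_poisson {f : V → ℝ} (hf : Integrable f) (hfm : Measurable f) {u : V → ℝ} {C : ℝ≥0}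
    (hu : LipschitzWith C u) (hc : HasCompactSupport u) :
    Integrable (fun x => ⟪gradV f x, ∇ u x⟫) ∧
      ∫ x, ⟪gradV f x, ∇ u x⟫ = 4 * Real.pi * ∫ x, f x * u x := by
  set g : V → ℝ := fun x => ‖∇ u x‖ with hg
  obtain ⟨R, hR0, hR⟩ := exists_radius hc
  have hgBC : BC g := by
    refine ⟨(measurable_gradient u).norm, ⟨C, fun x => ?_⟩, ⟨R, fun x hx => ?_⟩⟩
    · rw [abs_of_nonneg (norm_nonneg _)]; exact gradient_bound hu x
    · have hx' : x ∉ tsupport u := fun h => by
        have := hR h
        rw [mem_ball_zero_iff] at this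
        linarith
      simp only [hg]
      rw [gradient_zero_of_notMem hx', norm_zero]
  set F : V × V → ℝ := fun p => -(f p.2 * ((‖p.1 - p.2‖ ^ 3)⁻¹ * ⟪p.1 - p.2, ∇ u p.1⟫)) with hF
  have hFm : Measurable F := by
    have h1 : Measurable (fun p : V × V => (‖p.1 - p.2‖ ^ 3)⁻¹) := by fun_prop
    have h2 : Measurable (fun p : V × V => ⟪p.1 - p.2, ∇ u p.1⟫) :=
      (measurable_fst.sub measurable_snd).inner ((measurable_gradient u).comp measurable_fst)
    exact ((hfm.comp measurable_snd).mul (h1.mul h2)).neg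
  have hFi : Integrable F (volume.prod volume) := by
    refine (prod_inv_sq hf hfm hgBC).mono' hFm.aestronglyMeasurable
      (Eventually.of_forall fun p => ?_)
    simp only [hF, hg]
    rw [norm_neg, norm_mul, Real.norm_eq_abs, Real.norm_eq_abs, abs_of_nonneg (norm_nonneg _)]
    have h1 : |(‖p.1 - p.2‖ ^ 3)⁻¹ * ⟪p.1 - p.2, ∇ u p.1⟫| ≤ (‖p.1 - p.2‖ ^ 2)⁻¹ * ‖∇ u p.1‖ := by
      rw [← real_inner_smul_left]
      refine (abs_real_inner_le_norm _ _).trans ?_
      rw [norm_kv]
    calc |f p.2| * |(‖p.1 - p.2‖ ^ 3)⁻¹ * ⟪p.1 - p.2, ∇ u p.1⟫|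
        ≤ |f p.2| * ((‖p.1 - p.2‖ ^ 2)⁻¹ * ‖∇ u p.1‖) :=
          mul_le_mul_of_nonneg_left h1 (abs_nonneg _)
      _ = _ := by ring
  have hin : ∀ᵐ x : V, ∫ y, F (x, y) = ⟪gradV f x, ∇ u x⟫ := by
    filter_upwards [ae_GI hf hfm] with x hx
    rw [inner_gradV hx]
    unfold grad
    refine integral_congr_ae (Eventually.of_forall fun y => ?_)
    simp only [hF]
    ring
  refine ⟨hFi.integral_prod_left.congr hin, ?_⟩
  rw [← integral_congr_ae hin]
  have hsw : ∫ x, ∫ y, F (x, y) = ∫ y, ∫ x, F (x, y) := integral_integral_swap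
    (f := fun x y => F (x, y)) hFi
  rw [hsw, ← integral_const_mul]
  refine integral_congr_ae (Eventually.of_forall fun y => ?_)
  simp only [hF]
  rw [integral_neg, integral_const_mul, rep hu hc]
  ring

end dim3

end Pool.Agent.TF
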