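import Pool.Agent.Lib.MP_9cf0c9_mp.TC
import Pool.Agent.Lib.MP_9cf0c9_mp.Weak

/-! Hoelder continuity (exponent `1/2`) of the gradient of the Newtonian potential of a bounded
density with bounded support. -/

set_option autoImplicit false
set_option linter.unusedSectionVars false
set_option linter.unusedVariables false
set_option linter.style.haveILetI false

namespace Pool.Agent.TF
open MeasureTheory Set Metric Filter Topology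
open scoped ENNReal NNReal RealInnerProductSpace Gradient

variable {V : Type*} [NormedAddCommGroup V] [InnerProductSpace ℝ V] [FiniteDimensional ℝ V]
  [MeasurableSpace V] [BorelSpace V]

theorem kv_sub_aux {u v : V} (hu : 0 < ‖u‖) (huv : ‖u‖ ≤ ‖v‖) :
    ‖(‖u‖ ^ 3)⁻¹ • u - (‖v‖ ^ 3)⁻¹ • v‖ ≤ 4 * ‖u - v‖ * (‖u‖⁻¹) ^ 3 := by
  have hv : 0 < ‖v‖ := hu.trans_le huv
  have e1 : (‖u‖ ^ 3)⁻¹ • u - (‖v‖ ^ 3)⁻¹ • v =
      (‖u‖ ^ 3)⁻¹ • (u - v) + ((‖u‖ ^ 3)⁻¹ - (‖v‖ ^ 3)⁻¹) • v := by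
    rw [smul_sub, sub_smul]; abel
  rw [e1]
  refine (norm_add_le _ _).trans ?_
  rw [norm_smul, norm_smul, norm_inv, norm_pow, norm_norm]
  have h1 : (‖v‖ ^ 3)⁻¹ ≤ (‖u‖ ^ 3)⁻¹ := inv_anti₀ (by positivity) (pow_le_pow_left₀ hu.le huv 3)
  rw [Real.norm_of_nonneg (by linarith : (0 : ℝ) ≤ (‖u‖ ^ 3)⁻¹ - (‖v‖ ^ 3)⁻¹)]
  have h2 : ‖v‖ - ‖u‖ ≤ ‖u - v‖ := by
    have := norm_sub_norm_le v u
    rwa [norm_sub_rev] at this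
  have h3 : ((‖u‖ ^ 3)⁻¹ - (‖v‖ ^ 3)⁻¹) * ‖v‖ ≤ 3 * ‖u - v‖ * (‖u‖⁻¹) ^ 3 := by
    have h4 : ((‖u‖ ^ 3)⁻¹ - (‖v‖ ^ 3)⁻¹) * ‖v‖ =
        (‖v‖ - ‖u‖) * ((‖v‖ ^ 2 + ‖v‖ * ‖u‖ + ‖u‖ ^ 2) / ‖v‖ ^ 2) * (‖u‖⁻¹) ^ 3 := by
      field_simp
      ring
    rw [h4]
    refine mul_le_mul_of_nonneg_right ?_ (by positivity)
    have h5 : (‖v‖ ^ 2 + ‖v‖ * ‖u‖ + ‖u‖ ^ 2) / ‖v‖ ^ 2 ≤ 3 := by
      rw [div_le_iff₀ (by positivity)]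
      nlinarith
    calc (‖v‖ - ‖u‖) * ((‖v‖ ^ 2 + ‖v‖ * ‖u‖ + ‖u‖ ^ 2) / ‖v‖ ^ 2)
        ≤ ‖u - v‖ * 3 := mul_le_mul h2 h5 (by positivity) (norm_nonneg _)
      _ = 3 * ‖u - v‖ := by ring
  have h6 : (‖u‖ ^ 3)⁻¹ * ‖u - v‖ = ‖u - v‖ * (‖u‖⁻¹) ^ 3 := by
    rw [inv_pow, mul_comm]
  rw [h6]
  linarith

theorem kv_hol_aux {u v : V} (hu : 0 < ‖u‖) (huv : ‖u‖ ≤ ‖v‖) :
    ‖(‖u‖ ^ 3)⁻¹ • u - (‖v‖ ^ 3)⁻¹ • v‖ ≤
      3 * ‖u - v‖ ^ (1 / 2 : ℝ) * (‖u‖⁻¹) ^ (5 / 2 : ℝ) := by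
  have hv : 0 < ‖v‖ := hu.trans_le huv
  have h1 := kv_sub_aux hu huv
  have h2 : ‖(‖u‖ ^ 3)⁻¹ • u - (‖v‖ ^ 3)⁻¹ • v‖ ≤ 2 * (‖u‖⁻¹) ^ 2 := by
    refine (norm_sub_le _ _).trans ?_
    rw [norm_kv, norm_kv]
    have h3 : (‖v‖ ^ 2)⁻¹ ≤ (‖u‖ ^ 2)⁻¹ :=
      inv_anti₀ (by positivity) (pow_le_pow_left₀ hu.le huv 2)
    rw [inv_pow]
    linarith
  set N := ‖(‖u‖ ^ 3)⁻¹ • u - (‖v‖ ^ 3)⁻¹ • v‖ with hN
  have hN0 : 0 ≤ N := norm_nonneg _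
  have h3 : N ^ 2 ≤ 8 * ‖u - v‖ * (‖u‖⁻¹) ^ 5 := by
    calc N ^ 2 = N * N := by ring
      _ ≤ (4 * ‖u - v‖ * (‖u‖⁻¹) ^ 3) * (2 * (‖u‖⁻¹) ^ 2) := mul_le_mul h1 h2 hN0 (by positivity)
      _ = _ := by ring
  have h4 : (3 * ‖u - v‖ ^ (1 / 2 : ℝ) * (‖u‖⁻¹) ^ (5 / 2 : ℝ)) ^ 2 =
      9 * ‖u - v‖ * (‖u‖⁻¹) ^ 5 := by
    have e1 : (‖u - v‖ ^ (1 / 2 : ℝ)) ^ 2 = ‖u - v‖ := by
      rw [← Real.rpow_natCast, ← Real.rpow_mul (norm_nonneg _)]; norm_num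
    have e2 : ((‖u‖⁻¹) ^ (5 / 2 : ℝ)) ^ 2 = (‖u‖⁻¹) ^ 5 := by
      rw [← Real.rpow_natCast, ← Real.rpow_mul (by positivity), ← Real.rpow_natCast]; norm_num
    rw [mul_pow, mul_pow, e1, e2]; norm_num
  refine le_of_sq_le_sq ?_ (by positivity)
  rw [h4]
  refine h3.trans ?_
  have h5 : 0 ≤ ‖u - v‖ * (‖u‖⁻¹) ^ 5 := by positivity
  linarith

/-- kernel inequality -/
theorem kv_hol (u v : V) : ‖(‖u‖ ^ 3)⁻¹ • u - (‖v‖ ^ 3)⁻¹ • v‖ ≤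
    3 * ‖u - v‖ ^ (1 / 2 : ℝ) * ((‖u‖⁻¹) ^ (5 / 2 : ℝ) + (‖v‖⁻¹) ^ (5 / 2 : ℝ)) := by
  have hpos : ∀ w : V, 0 ≤ (‖w‖⁻¹) ^ (5 / 2 : ℝ) := fun w => by positivity
  have hd : 0 ≤ 3 * ‖u - v‖ ^ (1 / 2 : ℝ) := by positivity
  -- the case of a zero vector
  have hz : ∀ w : V, ‖(‖w‖ ^ 3)⁻¹ • w‖ ≤ 3 * ‖w‖ ^ (1 / 2 : ℝ) * (‖w‖⁻¹) ^ (5 / 2 : ℝ) := by
    intro w
    rw [norm_kv]
    rcases (norm_nonneg w).eq_or_lt with hw | hw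
    · rw [← hw]
      norm_num
    · have h1 : ‖w‖ ^ (1 / 2 : ℝ) * (‖w‖⁻¹) ^ (5 / 2 : ℝ) = (‖w‖ ^ 2)⁻¹ := by
        rw [Real.inv_rpow hw.le, ← Real.rpow_neg hw.le, ← Real.rpow_add hw,
          ← Real.rpow_natCast, ← Real.rpow_neg hw.le]
        norm_num
      have h2 : 0 ≤ (‖w‖ ^ 2)⁻¹ := by positivity
      rw [mul_assoc, h1]
      linarith
  by_cases hu : ‖u‖ = 0
  · have hu0 : u = 0 := norm_eq_zero.mp hu
    rw [hu0, smul_zero, zero_sub, zero_sub, norm_neg, norm_neg]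
    refine (hz v).trans ?_
    rw [mul_add]
    have := hpos (0 : V)
    have h3 : 0 ≤ 3 * ‖v‖ ^ (1 / 2 : ℝ) * (‖(0 : V)‖⁻¹) ^ (5 / 2 : ℝ) := by positivity
    linarith
  by_cases hv : ‖v‖ = 0
  · have hv0 : v = 0 := norm_eq_zero.mp hv
    rw [hv0, smul_zero, sub_zero, sub_zero]
    refine (hz u).trans ?_
    rw [mul_add]
    have h3 : 0 ≤ 3 * ‖u‖ ^ (1 / 2 : ℝ) * (‖(0 : V)‖⁻¹) ^ (5 / 2 : ℝ) := by positivity
    linarith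
  have hu' : 0 < ‖u‖ := lt_of_le_of_ne (norm_nonneg _) (Ne.symm hu)
  have hv' : 0 < ‖v‖ := lt_of_le_of_ne (norm_nonneg _) (Ne.symm hv)
  rw [mul_add]
  rcases le_total ‖u‖ ‖v‖ with h | h
  · have h1 := kv_hol_aux hu' h
    have h2 : 0 ≤ 3 * ‖u - v‖ ^ (1 / 2 : ℝ) * (‖v‖⁻¹) ^ (5 / 2 : ℝ) := by positivity
    linarith
  · have h1 := kv_hol_aux hv' h
    rw [norm_sub_rev, norm_sub_rev v u] at h1
    have h2 : 0 ≤ 3 * ‖u - v‖ ^ (1 / 2 : ℝ) * (‖u‖⁻¹) ^ (5 / 2 : ℝ) := by positivity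
    linarith

section dim3
variable [hd : Fact (Module.finrank ℝ V = 3)]

theorem rpow52_le (v : V) : (‖v‖⁻¹) ^ (5 / 2 : ℝ) ≤ wt v + 1 := by
  by_cases hv : v ∈ ball (0 : V) 1
  · have h1 : wt v = (‖v‖⁻¹) ^ (5 / 2 : ℝ) := indicator_of_mem hv _
    rw [h1]; linarith
  · have h1 : wt v = 0 := indicator_of_notMem hv _
    have h2 : 1 ≤ ‖v‖ := by simpa using hv
    have h3 : ‖v‖⁻¹ ≤ 1 := inv_le_one_of_one_le₀ h2
    rw [h1, zero_add]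
    exact Real.rpow_le_one (by positivity) h3 (by norm_num)

/-- uniform bound of `∫ |f y| |x - y|^{-5/2}` -/
theorem BC.conv52 {f : V → ℝ} (hf : BC f) : ∃ B : ℝ, 0 ≤ B ∧ ∀ x : V,
    Integrable (fun y => |f y| * (‖x - y‖⁻¹) ^ (5 / 2 : ℝ)) ∧
    ∫ y, |f y| * (‖x - y‖⁻¹) ^ (5 / 2 : ℝ) ≤ B := by
  obtain ⟨M, r, hM0, hr0, hM, hr⟩ := hf.bounds
  have hfi : Integrable (fun y => |f y|) := hf.abs.integrable
  refine ⟨M * (∫ v, wt (v : V)) + ∫ y, |f y|, add_nonneg (mul_nonneg hM0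
    (integral_nonneg fun v => wt_nonneg v)) (integral_nonneg fun y => abs_nonneg _), fun x => ?_⟩
  have hw : Integrable (fun y : V => wt (x - y)) := wt_integrable.comp_sub_left x
  have hdom : Integrable (fun y : V => M * wt (x - y) + |f y|) := (hw.const_mul M).add hfi
  have hle : ∀ y, |f y| * (‖x - y‖⁻¹) ^ (5 / 2 : ℝ) ≤ M * wt (x - y) + |f y| := by
    intro y
    calc |f y| * (‖x - y‖⁻¹) ^ (5 / 2 : ℝ) ≤ |f y| * (wt (x - y) + 1) :=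
          mul_le_mul_of_nonneg_left (rpow52_le _) (abs_nonneg _)
      _ = |f y| * wt (x - y) + |f y| := by ring
      _ ≤ _ := by
          have := mul_le_mul_of_nonneg_right (hM y) (wt_nonneg (x - y))
          linarith
  have hm : AEStronglyMeasurable (fun y => |f y| * (‖x - y‖⁻¹) ^ (5 / 2 : ℝ)) := by
    have h1 : Measurable (fun y : V => (‖x - y‖⁻¹) ^ (5 / 2 : ℝ)) := by
      have : Measurable (fun y : V => ‖x - y‖) := (measurable_const.sub measurable_id).norm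
      exact this.inv.pow_const _
    exact (hf.meas.abs.mul h1).aestronglyMeasurable
  have hint : Integrable (fun y => |f y| * (‖x - y‖⁻¹) ^ (5 / 2 : ℝ)) := by
    refine hdom.mono' hm (Eventually.of_forall fun y => ?_)
    rw [Real.norm_of_nonneg (by positivity)]
    exact hle y
  refine ⟨hint, (integral_mono hint hdom hle).trans (le_of_eq ?_)⟩
  rw [integral_add (hw.const_mul M) hfi, integral_const_mul,
    integral_sub_left_eq_self (fun v : V => wt v) volume x]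

/-- **Hoelder continuity of the gradient of the potential** -/
theorem gradV_holder {f : V → ℝ} (hf : BC f) : ∃ C : ℝ, 0 ≤ C ∧ ∀ x y : V,
    ‖gradV f x - gradV f y‖ ≤ C * ‖x - y‖ ^ (1 / 2 : ℝ) := by
  obtain ⟨B, hB0, hB⟩ := hf.conv52
  refine ⟨3 * (B + B), by positivity, fun x y => ?_⟩
  have hx := hf.GI x
  have hy := hf.GI y
  unfold GI at hx hy
  have e1 : gradV f x - gradV f y = -∫ w, (f w • ((‖x - w‖ ^ 3)⁻¹ • (x - w)) -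
      f w • ((‖y - w‖ ^ 3)⁻¹ • (y - w))) := by
    rw [integral_sub hx hy]
    unfold gradV
    abel
  rw [e1, norm_neg]
  have hi : Integrable (fun w => 3 * ‖x - y‖ ^ (1 / 2 : ℝ) *
      (|f w| * (‖x - w‖⁻¹) ^ (5 / 2 : ℝ) + |f w| * (‖y - w‖⁻¹) ^ (5 / 2 : ℝ))) :=
    ((hB x).1.add (hB y).1).const_mul _
  refine (norm_integral_le_integral_norm _).trans ?_
  refine (integral_mono (hx.sub hy).norm hi fun w => ?_).trans ?_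
  · rw [Pi.sub_apply, ← smul_sub, norm_smul, Real.norm_eq_abs]
    have h1 := kv_hol (x - w) (y - w)
    have h2 : (x - w) - (y - w) = x - y := by abel
    rw [h2] at h1
    have h3 := mul_le_mul_of_nonneg_left h1 (abs_nonneg (f w))
    refine h3.trans (le_of_eq (by ring))
  · rw [integral_const_mul, integral_add (hB x).1 (hB y).1]
    have h1 := (hB x).2
    have h2 := (hB y).2
    have h3 : 0 ≤ ‖x - y‖ ^ (1 / 2 : ℝ) := by positivity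
    calc 3 * ‖x - y‖ ^ (1 / 2 : ℝ) * ((∫ w, |f w| * (‖x - w‖⁻¹) ^ (5 / 2 : ℝ)) +
          ∫ w, |f w| * (‖y - w‖⁻¹) ^ (5 / 2 : ℝ))
        ≤ 3 * ‖x - y‖ ^ (1 / 2 : ℝ) * (B + B) :=
          mul_le_mul_of_nonneg_left (add_le_add h1 h2) (by positivity)
      _ = _ := by ring

/-- the form with a bound and a support radius -/
theorem gradV_holder' {f : V → ℝ} (hm : Measurable f) {M r : ℝ} (hM : ∀ x, |f x| ≤ M)
    (hr : ∀ x, x ∉ ball (0 : V) r → f x = 0) : ∃ C : ℝ, 0 ≤ C ∧ ∀ x y : V,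
    ‖gradV f x - gradV f y‖ ≤ C * ‖x - y‖ ^ (1 / 2 : ℝ) :=
  gradV_holder ⟨hm, ⟨M, hM⟩, ⟨r, fun x hx => hr x (by rw [mem_ball_zero_iff]; exact not_lt.mpr hx)⟩⟩

end dim3

end Pool.Agent.TF
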