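import Pool.Agent.Lib.MP_9cf0c9_mp.Flow
import Pool.Agent.Lib.MP_9cf0c9_mp.Compare
import Pool.Agent.Lib.MP_9cf0c9_mp.PointSol

/-! The isolated ion as a function of its charge and chemical potential, and comparison of the
potential of a molecule with its ions. -/

set_option autoImplicit false
set_option linter.unusedSectionVars false
set_option linter.unusedVariables false
set_option linter.style.haveILetI false

namespace Pool.Agent.TF
open MeasureTheory Set Metric Filter Topology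

theorem exists_ionρ {z φ₀ : ℝ} (hz : 0 ≤ z) (hφ : 0 < φ₀) :
    ∃ ρ : X → ℝ, TC ρ ∧ ∀ x, ρ x = tf (z * ‖x‖⁻¹ - pot ρ x - φ₀) := by
  obtain ⟨ρ, hρ, -, heq, -⟩ := exists_point_min (ι := Unit) (z := fun _ => z) (fun _ => hz)
    (fun _ => (0 : X)) hφ
  refine ⟨ρ, hρ, fun x => ?_⟩
  have h := heq x
  unfold Vpt at h
  simpa using h

/-- the density of the isolated ion -/
noncomputable def ionρ (z φ₀ : ℝ) : X → ℝ :=
  open Classical in
  if h : 0 ≤ z ∧ 0 < φ₀ then (exists_ionρ h.1 h.2).choose else fun _ => 0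

theorem ionρ_spec {z φ₀ : ℝ} (hz : 0 ≤ z) (hφ : 0 < φ₀) :
    TC (ionρ z φ₀) ∧ ∀ x, ionρ z φ₀ x = tf (z * ‖x‖⁻¹ - pot (ionρ z φ₀) x - φ₀) := by
  have h : 0 ≤ z ∧ 0 < φ₀ := ⟨hz, hφ⟩
  have e : ionρ z φ₀ = (exists_ionρ h.1 h.2).choose := by
    unfold ionρ
    rw [dif_pos h]
  rw [e]
  exact (exists_ionρ h.1 h.2).choose_spec

theorem exists_profile {z φ₀ : ℝ} (hz : 0 ≤ z) (hφ : 0 < φ₀) :
    ∃ p : (ℝ → ℝ) × (ℝ → ℝ), Ion z φ₀ p.1 p.2 ∧
      (∀ x : X, x ≠ 0 → z * ‖x‖⁻¹ - pot (ionρ z φ₀) x - φ₀ = p.1 ‖x‖) ∧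
      (∀ x : X, x ≠ 0 → ionρ z φ₀ x = tf (p.1 ‖x‖)) ∧
      (∀ r, 0 ≤ r → p.2 r = z - ∫ x in ball (0 : X) r, ionρ z φ₀ x) ∧
      Tendsto p.2 atTop (𝓝 (z - ∫ x, ionρ z φ₀ x)) := by
  obtain ⟨h1, h2⟩ := ionρ_spec hz hφ
  obtain ⟨ψ, q, h⟩ := exists_ion h1 fun x _ => h2 x
  exact ⟨(ψ, q), h⟩

/-- the profile (potential minus chemical potential) of the isolated ion -/
noncomputable def ionψ (z φ₀ : ℝ) : ℝ → ℝ :=
  open Classical in
  if h : 0 ≤ z ∧ 0 < φ₀ then (exists_profile h.1 h.2).choose.1 else fun _ => 0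

/-- the enclosed charge of the isolated ion -/
noncomputable def ionq (z φ₀ : ℝ) : ℝ → ℝ :=
  open Classical in
  if h : 0 ≤ z ∧ 0 < φ₀ then (exists_profile h.1 h.2).choose.2 else fun _ => 0

theorem ion_all {z φ₀ : ℝ} (hz : 0 ≤ z) (hφ : 0 < φ₀) :
    Ion z φ₀ (ionψ z φ₀) (ionq z φ₀) ∧
      (∀ x : X, x ≠ 0 → z * ‖x‖⁻¹ - pot (ionρ z φ₀) x - φ₀ = ionψ z φ₀ ‖x‖) ∧
      (∀ x : X, x ≠ 0 → ionρ z φ₀ x = tf (ionψ z φ₀ ‖x‖)) ∧
      (∀ r, 0 ≤ r → ionq z φ₀ r = z - ∫ x in ball (0 : X) r, ionρ z φ₀ x) ∧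
      Tendsto (ionq z φ₀) atTop (𝓝 (z - ∫ x, ionρ z φ₀ x)) := by
  have h : 0 ≤ z ∧ 0 < φ₀ := ⟨hz, hφ⟩
  have e1 : ionψ z φ₀ = (exists_profile h.1 h.2).choose.1 := by
    unfold ionψ
    rw [dif_pos h]
  have e2 : ionq z φ₀ = (exists_profile h.1 h.2).choose.2 := by
    unfold ionq
    rw [dif_pos h]
  rw [e1, e2]
  exact (exists_profile h.1 h.2).choose_spec

theorem ion_ion {z φ₀ : ℝ} (hz : 0 ≤ z) (hφ : 0 < φ₀) : Ion z φ₀ (ionψ z φ₀) (ionq z φ₀) :=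
  (ion_all hz hφ).1

theorem norm_e1' : ‖e1‖ = 1 := by
  have h : ‖e1‖ ^ 2 = 1 := by
    unfold e1; rw [norm_mk_sq]; simp
  nlinarith [norm_nonneg e1]

variable {ι : Type*} [Fintype ι]

/-- the isolated ion at the position of the nucleus `j`, as a solution in the family -/
theorem ion_sol {z φ₀ : ℝ} (hz : 0 ≤ z) (hφ : 0 < φ₀) [DecidableEq ι] (R : ι → X) (j : ι) :
    Sol φ₀ (Pi.single j z) R (fun x => ionρ z φ₀ (x - R j)) ∧
      ∀ x, x ≠ R j → psi φ₀ (Pi.single j z) R (fun x => ionρ z φ₀ (x - R j)) x =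
        ionψ z φ₀ ‖x - R j‖ := by
  obtain ⟨h1, h2⟩ := ionρ_spec hz hφ
  have hpot : ∀ x, pot (fun x => ionρ z φ₀ (x - R j)) x = pot (ionρ z φ₀) (x - R j) := by
    intro x
    have := pot_translateV (ionρ z φ₀) (R j) (x - R j)
    rwa [sub_add_cancel] at this
  have hV : ∀ x, Vn (Pi.single j z) R x = z * ‖x - R j‖⁻¹ := by
    intro x
    unfold Vn
    rw [Finset.sum_eq_single j]
    · rw [Pi.single_eq_same]
    · intro i _ hi
      rw [Pi.single_eq_of_ne hi, zero_mul]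
    · intro h
      exact absurd (Finset.mem_univ j) h
  refine ⟨⟨h1.translate (R j), fun x _ => ?_⟩, fun x hx => ?_⟩
  · rw [hV, hpot]
    exact h2 _
  · unfold psi
    rw [hV, hpot]
    exact (ion_all hz hφ).2.1 _ (sub_ne_zero.mpr hx)

/-- the potential of a molecule is at least the potential of each of its ions -/
theorem ion_le {z φ φ₀ : ℝ} (hz : 0 ≤ z) (hφ : 0 < φ₀) (hφφ : φ ≤ φ₀) {z' : ι → ℝ}
    (hz' : ∀ i, 0 ≤ z' i) {R : ι → X} {ρ : X → ℝ} (h : Sol φ z' R ρ) (j : ι) (hj : z ≤ z' j)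
    {x : X} (hx : ∀ i, x ≠ R i) : ionψ z φ₀ ‖x - R j‖ ≤ psi φ z' R ρ x := by
  classical
  obtain ⟨h1, h2⟩ := ion_sol hz hφ R j
  rw [← h2 x (hx j)]
  refine compare (fun i => ?_) hφφ h1 h x hx
  by_cases hi : i = j
  · subst hi
    rw [Pi.single_eq_same]
    exact hj
  · rw [Pi.single_eq_of_ne hi]
    exact hz' i

/-- monotonicity of the profile in the charge and in the chemical potential -/
theorem ionψ_mono {z z' φ φ' : ℝ} (hz : 0 ≤ z) (hzz : z ≤ z') (hφ' : 0 < φ') (hφ : φ' ≤ φ)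
    {r : ℝ} (hr : 0 < r) : ionψ z φ r ≤ ionψ z' φ' r := by
  have hφ0 : 0 < φ := lt_of_lt_of_le hφ' hφ
  obtain ⟨h1, h2⟩ := ion_sol (ι := Unit) (hz.trans hzz) hφ' (fun _ => (0 : X)) ()
  have hre : r • e1 ≠ (0 : X) := by
    rw [← norm_ne_zero_iff, norm_smul, norm_e1', mul_one, Real.norm_of_nonneg hr.le]
    exact hr.ne'
  have h3 := ion_le (ι := Unit) hz hφ0 hφ (z' := Pi.single () z') (fun i => by
    rw [show i = () from rfl, Pi.single_eq_same]; exact hz.trans hzz) h1 ()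
    (by rw [Pi.single_eq_same]; exact hzz) (x := r • e1) (fun _ => hre)
  rw [h2 _ hre, sub_zero, norm_smul, norm_e1', mul_one, Real.norm_of_nonneg hr.le] at h3
  exact h3

end Pool.Agent.TF
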