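import Pool.Agent.Lib.MP_9cf0c9_mp.SecVar

/-! Trial functions which are potentials of signed densities: the Thomson inequality without
gradients, and convexity in the volume. -/

set_option linter.unusedSectionVars false
set_option linter.unusedVariables false
set_option linter.style.haveILetI false

namespace Pool.Agent.TF
open MeasureTheory Set Metric Filter Topology

section dim3
variable {V : Type*} [NormedAddCommGroup V] [InnerProductSpace ℝ V] [FiniteDimensional ℝ V]
  [MeasurableSpace V] [BorelSpace V] [hd : Fact (Module.finrank ℝ V = 3)]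

theorem TC.lin {f g : V → ℝ} (hf : TC f) (hg : TC g) {a b : ℝ} (ha : 0 ≤ a) (hb : 0 ≤ b) :
    TC (fun x => a * f x + b * g x) := by
  have h := ((hf.cmul (c := 2 * a) (by positivity)).comb (hg.cmul (c := 2 * b) (by positivity))
    (a := 1 / 2) (b := 1 / 2) (by norm_num) (by norm_num) (by norm_num)).1
  have e : (fun x => 1 / 2 * (2 * a * f x) + 1 / 2 * (2 * b * g x)) =
      fun x => a * f x + b * g x := by
    funext x
    ring
  rwa [e] at h

theorem TC.En_lin {f g p q : V → ℝ} (hf : TC f) (hg : TC g) (hp : TC p) (hq : TC q)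
    (a b c d : ℝ) :
    En (fun x => a * f x + b * g x) (fun x => c * p x + d * q x) =
      a * c * En f p + a * d * En f q + b * c * En g p + b * d * En g q := by
  have e1 : ∀ x, (a * f x + b * g x) * pot (fun x => c * p x + d * q x) x =
      a * c * (f x * pot p x) + a * d * (f x * pot q x) + b * c * (g x * pot p x) +
        b * d * (g x * pot q x) := by
    intro x
    rw [hp.pot_comb hq]
    ring
  have i1 := (hf.En_integrable hp).const_mul (a * c)
  have i2 := (hf.En_integrable hq).const_mul (a * d)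
  have i3 := (hg.En_integrable hp).const_mul (b * c)
  have i4 := (hg.En_integrable hq).const_mul (b * d)
  have i12 : Integrable (fun x => a * c * (f x * pot p x) + a * d * (f x * pot q x)) := i1.add i2
  have i123 : Integrable (fun x => a * c * (f x * pot p x) + a * d * (f x * pot q x) +
    b * c * (g x * pot p x)) := i12.add i3
  unfold En
  simp_rw [e1]
  rw [integral_add i123 i4, integral_add i12 i3, integral_add i1 i2, integral_const_mul,
    integral_const_mul, integral_const_mul, integral_const_mul]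

/-- the energy of the signed density `f - h` -/
noncomputable def En2 (f h : V → ℝ) : ℝ := En f f - 2 * En f h + En h h

theorem En2_symm {f h : V → ℝ} (hf : TC f) (hh : TC h) : En2 f h = En2 h f := by
  unfold En2
  rw [hf.En_symm hh]
  ring

theorem En2_nonneg {f h : V → ℝ} (hf : TC f) (hh : TC h) : 0 ≤ En2 f h := by
  have := hf.psd hh
  unfold En2
  linarith

theorem thomson_pot_aux {f h σ τ : V → ℝ} (hf : TC f) (hh : TC h) (hσ : TC σ) (hτ : TC τ) {c : ℝ}
    (hc : 0 ≤ c) :
    c * (En σ h - En σ f - En τ h + En τ f) ≤ c ^ 2 * (1 / 2 * En2 f h) +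
      1 / 2 * (En σ σ - 2 * En σ τ + En τ τ) := by
  have h1 := (hσ.lin hf zero_le_one hc).psd (hτ.lin hh zero_le_one hc)
  rw [hσ.En_lin hf hτ hh, hσ.En_lin hf hσ hf, hτ.En_lin hh hτ hh, hf.En_symm hσ, hh.En_symm hτ,
    hf.En_symm hτ] at h1
  unfold En2
  nlinarith

theorem integral_diff_pot {f h σ τ : V → ℝ} (hf : TC f) (hh : TC h) (hσ : TC σ) (hτ : TC τ) :
    ∫ x, (σ x - τ x) * (pot h x - pot f x) = En σ h - En σ f - En τ h + En τ f := by
  have e1 : ∀ x, (σ x - τ x) * (pot h x - pot f x) =
      σ x * pot h x - σ x * pot f x - τ x * pot h x + τ x * pot f x := fun x => by ring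
  simp_rw [e1]
  exact integral_ssa (hσ.En_integrable hh) (hσ.En_integrable hf) (hτ.En_integrable hh)
    (hτ.En_integrable hf)

/-- the Thomson inequality for the potential of a signed density -/
theorem thomson_pot {f h : V → ℝ} (hf : TC f) (hh : TC h) {σ τ : V → ℝ} (hσ : TC σ) (hτ : TC τ)
    (c : ℝ) :
    c * (∫ x, (σ x - τ x) * (pot h x - pot f x)) ≤ c ^ 2 * (1 / 2 * En2 f h) +
      1 / 2 * (En σ σ - 2 * En σ τ + En τ τ) := by
  rw [integral_diff_pot hf hh hσ hτ]
  rcases le_or_gt 0 c with hc | hc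
  · exact thomson_pot_aux hf hh hσ hτ hc
  · have h1 := thomson_pot_aux hh hf hσ hτ (c := -c) (by linarith)
    rw [En2_symm hh hf] at h1
    nlinarith

theorem pot_diff_bound {f h : V → ℝ} (hf : TC f) (hh : TC h) (x : V) :
    |pot h x - pot f x| ≤ tcB h + tcB f := by
  have h1 := hf.pot_le x
  have h2 := hh.pot_le x
  have h3 := pot_nonneg hf.nonneg x
  have h4 := pot_nonneg hh.nonneg x
  rw [abs_le]
  constructor <;> linarith

end dim3

variable {ι : Type*} [Fintype ι]

/-- Convexity in the volume from trial functions `k = pot h - pot f` at every scale. -/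
theorem GTF_convex_of_pot_trial {z : ι → ℝ} (hz : ∀ i, 0 ≤ z i) (R : ι → X) {φ₀ : ℝ} (hφ : 0 < φ₀)
    (h : ∀ c : ℝ, 0 < c → ∀ ρ : X → ℝ, TC ρ →
      (∀ x, ρ x = tf (Vpt z (fun i => c • R i) x - pot ρ x - φ₀)) →
      ∃ f g : X → ℝ, TC f ∧ TC g ∧
        0 ≤ Vtr φ₀ z (fun i => c • R i) ρ (fun x => pot g x - pot f x) (1 / 2 * En2 f g)) :
    ConvexOn ℝ (Ioi 0) fun v : ℝ => GTF φ₀ z fun i => v ^ (1 / 3 : ℝ) • R i := by
  refine GTF_convex_of_Vtr hz R hφ fun c hc ρ hρ heq => ?_
  obtain ⟨f, g, hf, hg, hV⟩ := h c hc ρ hρ heq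
  refine ⟨fun x => pot g x - pot f x, tcB g + tcB f, 1 / 2 * En2 f g, ?_, ?_, ?_, hV⟩
  · exact (hg.pot_continuous.sub hf.pot_continuous).measurable
  · exact fun x => pot_diff_bound hf hg x
  · exact fun σ τ hσ hτ c => thomson_pot hf hg hσ hτ c

end Pool.Agent.TF
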