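import Pool.Agent.Lib.MP_9cf0c9_mp.FanC1

/-! Existence of the radius function with a start radius. -/

set_option autoImplicit false
set_option linter.unusedSectionVars false
set_option linter.unusedVariables false
set_option linter.style.haveILetI false

namespace Pool.Agent.TF.Rad
open MeasureTheory Set Metric Filter Topology
open scoped ENNReal NNReal

/-! ### the nonlinearity -/

theorem hasDerivAt_tf_gam (x : ℝ) : HasDerivAt tf (gam x) x := by
  rcases lt_trichotomy x 0 with hx | hx | hx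
  · rw [gam_of_nonpos hx.le]
    have h1 : tf =ᶠ[𝓝 x] fun _ => (0 : ℝ) := by
      filter_upwards [gt_mem_nhds hx] with y hy
      exact tf_of_nonpos hy.le
    exact (hasDerivAt_const x (0 : ℝ)).congr_of_eventuallyEq h1
  · subst hx
    rw [gam_of_nonpos le_rfl]
    refine hasDerivAt_of_est (C := 1) fun y => ?_
    rw [tf_of_nonpos (le_refl (0 : ℝ)), mul_zero, sub_zero, sub_zero, sub_zero, one_mul]
    rcases le_total y 0 with hy | hy
    · rw [tf_of_nonpos hy, abs_zero]
      positivity
    · unfold tf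
      rw [max_eq_left hy, abs_of_nonneg hy, abs_of_nonneg (by positivity)]
      exact le_of_eq (by ring)
  · have h1 : tf =ᶠ[𝓝 x] fun v => v * √v := by
      filter_upwards [lt_mem_nhds hx] with y hy
      unfold tf
      rw [max_eq_left hy.le]
    have h2 : HasDerivAt (fun v : ℝ => v * √v) (1 * √x + x * (1 / (2 * √x))) x :=
      (hasDerivAt_id x).mul (Real.hasDerivAt_sqrt hx.ne')
    refine (h2.congr_of_eventuallyEq h1).congr_deriv ?_
    unfold gam
    rw [max_eq_left hx.le]
    have h3 : 0 < √x := Real.sqrt_pos.mpr hx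
    have h4 : √x * √x = x := Real.mul_self_sqrt hx.le
    field_simp
    nlinarith

theorem tf_mul {r : ℝ} (hr : 0 ≤ r) (p : ℝ) : tf (r * p) = r * √r * tf p := by
  unfold tf
  have h1 : max (r * p) 0 = r * max p 0 := by
    rw [mul_max_of_nonneg _ _ hr, mul_zero]
  rw [h1, Real.sqrt_mul hr]
  ring

/-- the truncated nonlinearity -/
noncomputable def hh (B x : ℝ) : ℝ := ∫ t in (0 : ℝ)..x, gam (min t B)

theorem gam_min_cont (B : ℝ) : Continuous fun t => gam (min t B) :=
  gam_continuous.comp (continuous_id.min continuous_const)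

theorem hasDerivAt_hh (B x : ℝ) : HasDerivAt (hh B) (gam (min x B)) x :=
  ((gam_min_cont B).integral_hasStrictDerivAt 0 x).hasDerivAt

theorem int_gam (x : ℝ) : ∫ t in (0 : ℝ)..x, gam t = tf x := by
  rw [intervalIntegral.integral_eq_sub_of_hasDerivAt (fun t _ => hasDerivAt_tf_gam t)
    (gam_continuous.intervalIntegrable _ _), tf_of_nonpos (le_refl (0 : ℝ)), sub_zero]

theorem hh_eq {B x : ℝ} (hB : 0 ≤ B) (hx : x ≤ B) : hh B x = tf x := by
  rw [← int_gam x]
  unfold hh
  refine intervalIntegral.integral_congr fun t ht => ?_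
  have h1 : t ≤ B := by
    have := ht.2
    exact this.trans (max_le hB hx)
  simp only [min_eq_left h1]

theorem gam_mono {x y : ℝ} (h : x ≤ y) : gam x ≤ gam y := by
  unfold gam
  have := Real.sqrt_le_sqrt (max_le_max h (le_refl (0 : ℝ)))
  linarith

theorem hh_nonneg {B : ℝ} (hB : 0 ≤ B) (x : ℝ) : 0 ≤ hh B x := by
  rcases le_total x 0 with hx | hx
  · rw [hh_eq hB (hx.trans hB)]
    exact tf_nonneg x
  · exact intervalIntegral.integral_nonneg hx fun t _ => gam_nonneg _

theorem hh_le {B : ℝ} (hB : 0 ≤ B) (x : ℝ) : hh B x ≤ tf x := by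
  rcases le_total x 0 with hx | hx
  · rw [hh_eq hB (hx.trans hB)]
  · rw [← int_gam x]
    exact intervalIntegral.integral_mono_on hx ((gam_min_cont B).intervalIntegrable _ _)
      (gam_continuous.intervalIntegrable _ _) fun t _ => gam_mono (min_le_left _ _)

theorem sqrt_sub_le {u v : ℝ} (hu : 0 ≤ u) (hv : 0 ≤ v) : |√u - √v| ≤ √|u - v| := by
  have key : ∀ a b : ℝ, 0 ≤ b → b ≤ a → √a - √b ≤ √(a - b) := by
    intro a b hb hab
    have h1 : √a ≤ √(a - b) + √b := by
      rw [Real.sqrt_le_left (by positivity)]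
      have h2 : √(a - b) ^ 2 = a - b := Real.sq_sqrt (by linarith)
      have h3 : √b ^ 2 = b := Real.sq_sqrt hb
      nlinarith [mul_nonneg (Real.sqrt_nonneg (a - b)) (Real.sqrt_nonneg b)]
    linarith
  rcases le_total v u with h | h
  · rw [abs_of_nonneg (sub_nonneg.mpr (Real.sqrt_le_sqrt h)), abs_of_nonneg (sub_nonneg.mpr h)]
    exact key u v hv h
  · rw [abs_sub_comm, abs_sub_comm u v, abs_of_nonneg (sub_nonneg.mpr (Real.sqrt_le_sqrt h)),
      abs_of_nonneg (sub_nonneg.mpr h)]
    exact key v u hu h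

theorem gam_min_holder (B x y : ℝ) : |gam (min x B) - gam (min y B)| ≤ 3 / 2 * √|x - y| := by
  unfold gam
  rw [← mul_sub, abs_mul, abs_of_pos (by norm_num : (0 : ℝ) < 3 / 2)]
  refine mul_le_mul_of_nonneg_left ?_ (by norm_num)
  refine (sqrt_sub_le (le_max_right _ _) (le_max_right _ _)).trans (Real.sqrt_le_sqrt ?_)
  refine (abs_max_sub_max_le_abs _ _ _).trans ?_
  refine (abs_min_sub_min_le_max _ _ _ _).trans ?_
  rw [sub_self, abs_zero, max_eq_left (abs_nonneg _)]

/-- the weight -/
noncomputable def wt (r₁ t : ℝ) : ℝ := max 0 (min 1 ((t - r₁) / r₁)) / √(max t r₁)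

theorem wt_cont {r₁ : ℝ} (hr : 0 < r₁) : Continuous (wt r₁) := by
  unfold wt
  refine Continuous.div (by fun_prop) (by fun_prop) fun t => ?_
  exact (Real.sqrt_pos.mpr (hr.trans_le (le_max_right _ _))).ne'

theorem wt_nonneg (r₁ t : ℝ) : 0 ≤ wt r₁ t := div_nonneg (le_max_left _ _) (Real.sqrt_nonneg _)

theorem wt_zero {r₁ t : ℝ} (hr : 0 < r₁) (ht : t ≤ r₁) : wt r₁ t = 0 := by
  unfold wt
  have h1 : (t - r₁) / r₁ ≤ 0 := div_nonpos_of_nonpos_of_nonneg (by linarith) hr.le
  rw [max_eq_left ((min_le_right _ _).trans h1), zero_div]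

theorem wt_le {r₁ t : ℝ} (hr : 0 < r₁) (ht : 0 < t) : wt r₁ t ≤ 1 / √t := by
  rcases le_total t r₁ with h | h
  · rw [wt_zero hr h]
    positivity
  · unfold wt
    rw [max_eq_left h]
    refine div_le_div_of_nonneg_right ?_ (Real.sqrt_nonneg _)
    exact max_le zero_le_one (min_le_left _ _)

theorem wt_eq {r₁ t : ℝ} (hr : 0 < r₁) (ht : 2 * r₁ ≤ t) : wt r₁ t = 1 / √t := by
  unfold wt
  have h1 : 1 ≤ (t - r₁) / r₁ := by
    rw [le_div_iff₀ hr]
    linarith
  rw [max_eq_left (by linarith : r₁ ≤ t), min_eq_left h1, max_eq_right zero_le_one]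

theorem fanData {r₁ B : ℝ} (hr : 0 < r₁) (hB : 0 ≤ B) :
    FanData (wt r₁) (fun _ => 1) (fun x => 4 * Real.pi * hh B x)
      (fun x => 4 * Real.pi * gam (min x B)) (6 * Real.pi * (1 + √B)) := by
  have hpi := Real.pi_pos
  have hs0 : 0 ≤ √B := Real.sqrt_nonneg _
  refine ⟨wt_cont hr, continuous_const, fun t _ => wt_nonneg _ _, fun t _ => zero_le_one,
    fun x => (hasDerivAt_hh B x).const_mul _, fun x => ?_, fun x => ?_, fun x => ?_,
    fun x y => ?_⟩
  · have := hh_nonneg hB x
    positivity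
  · have := gam_nonneg (min x B)
    positivity
  · have h1 : gam (min x B) ≤ gam B := gam_mono (min_le_right _ _)
    have h2 : gam B = 3 / 2 * √B := by
      unfold gam
      rw [max_eq_left hB]
    rw [h2] at h1
    nlinarith
  · rw [← mul_sub, abs_mul, abs_of_pos (by positivity : 0 < 4 * Real.pi)]
    have h1 := gam_min_holder B x y
    have h2 : 0 ≤ √|x - y| := Real.sqrt_nonneg _
    calc 4 * Real.pi * |gam (min x B) - gam (min y B)| ≤ 4 * Real.pi * (3 / 2 * √|x - y|) :=
          mul_le_mul_of_nonneg_left h1 (by positivity)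
      _ = 6 * Real.pi * √|x - y| := by ring
      _ ≤ _ := by
          have : 0 ≤ 6 * Real.pi * (√B * √|x - y|) := by positivity
          nlinarith

/-- **the radius function with start radius `r₁`, exact where `s p ≤ A`** -/
theorem exists_radFn {q A r₁ : ℝ} (hq : 0 < q) (hA : 0 ≤ A) (hr : 0 < r₁) :
    ∃ (s s₁ s₂ e : ℝ → ℝ → ℝ), RadFn q (q / r₁ ^ 2) s s₁ s₂ e ∧
      (∀ p G, 0 ≤ e p G ∨ G ≤ 0) ∧
      ∀ p G, 0 < G → s p G * p ≤ A → e p G ≤ eRad r₁ s p G := by
  have hpi := Real.pi_pos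
  have hd := fanData hr hA
  obtain ⟨F, F₁, W, W₁, f⟩ := exists_fan_sol hd q
  have hfan := f.fan hd (fun t ht => wt_zero hr ht) (fun t => wt_nonneg _ _) hr
  obtain ⟨s, sp, sG, hinv⟩ := hfan.exists_radInv hq hr
  set Rt : ℝ → ℝ → ℝ := fun r p => if 0 < r then wt r₁ r * (4 * Real.pi * hh A (r * p)) / r else 0
    with hRt
  refine ⟨s, sp, sG, fun P G => |4 * Real.pi * tf P - Rt (s P G) P| * (s P G / (2 * G)),
    hinv.radFn fun P G _ => le_rfl, fun P G => ?_, fun P G hG hsP => ?_⟩
  · rcases le_or_gt G 0 with h | h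
    · exact Or.inr h
    · refine Or.inl (mul_nonneg (abs_nonneg _) ?_)
      have := hinv.pos P G h
      positivity
  · have hs := hinv.pos P G hG
    set r := s P G with hr'
    have hsq : 0 < √r := Real.sqrt_pos.mpr hs
    have hval : Rt r P = wt r₁ r * √r * (4 * Real.pi * tf P) := by
      simp only [hRt]
      rw [if_pos hs, hh_eq hA hsP, tf_mul hs.le]
      field_simp
    have htf := tf_nonneg P
    unfold eRad
    by_cases h2 : r ≤ 2 * r₁
    · rw [if_pos h2]
      have h3 : 0 ≤ wt r₁ r * √r := mul_nonneg (wt_nonneg _ _) hsq.le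
      have h4 : wt r₁ r * √r ≤ 1 := by
        have := wt_le hr hs
        rwa [le_div_iff₀ hsq] at this
      have h5 : |4 * Real.pi * tf P - Rt r P| ≤ 4 * Real.pi * tf P := by
        rw [hval, abs_le]
        have h6 : 0 ≤ 4 * Real.pi * tf P := by positivity
        constructor <;> nlinarith
      calc |4 * Real.pi * tf P - Rt r P| * (r / (2 * G))
          ≤ (4 * Real.pi * tf P) * (r / (2 * G)) :=
            mul_le_mul_of_nonneg_right h5 (by positivity)
        _ = r * (4 * Real.pi * tf P) / (2 * G) := by ring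
    · rw [if_neg h2]
      push Not at h2
      have h3 : wt r₁ r * √r = 1 := by
        rw [wt_eq hr h2.le]
        field_simp
      show |4 * Real.pi * tf P - Rt r P| * (r / (2 * G)) ≤ 0
      rw [hval, h3, one_mul, sub_self, abs_zero, zero_mul]

end Pool.Agent.TF.Rad
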