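import Pool.Agent.Lib.MP_9cf0c9_mp.ColAxis36
import Pool.Agent.Lib.MP_9cf0c9_mp.Col58H
import Pool.Agent.Lib.MP_9cf0c9_mp.RotFin33
import Pool.Agent.Lib.MP_9cf0c9_mp.DisNear

/-! Collinear nuclei: behaviour of `p`, `c` and the trial near a nucleus.  With `t` the position
of the nucleus on the axis and `q = p (c - t)` the field is `E = p (x - t e₁) - q e₁`; `q` is
Hölder continuous up to the nucleus, with `∇q = O(s^(-1/2))`, `s` the distance to the axis. -/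

set_option autoImplicit false
set_option linter.unusedSectionVars false
set_option linter.unusedVariables false

namespace Pool.Agent.TF.Col
open MeasureTheory Set Metric Filter Topology
open scoped ENNReal NNReal RealInnerProductSpace Gradient
open Pool.Agent.TF.Grd

variable {ι : Type*} [Fintype ι]
variable {φ₀ : ℝ} {z : ι → ℝ} {R : ι → X} {ρ : X → ℝ} {H : X → X →L[ℝ] X} {lo hi : ℝ}

/-! ### the frame of a point of the axis -/

/-- the moment about the point `t` of the axis -/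
noncomputable def qf (z : ι → ℝ) (R : ι → X) (ρ : X → ℝ) (t : ℝ) (x : X) : ℝ :=
  pf z R ρ x * (cf z R ρ x - t)

/-- its gradient -/
noncomputable def qf' (z : ι → ℝ) (R : ι → X) (ρ : X → ℝ) (H : X → X →L[ℝ] X) (t : ℝ)
    (x : X) : X :=
  pf z R ρ x • cf' z R ρ H x + (cf z R ρ x - t) • pf' z R ρ H x

theorem Dat.c1_q (D : Dat φ₀ z R ρ H lo hi) (t : ℝ) :
    C1O (qf z R ρ t) (qf' z R ρ H t) := by
  refine (D.c1_p.mul (D.c1_c.sub (C1O.const t))).congr (fun x hx => rfl) fun x hx => ?_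
  unfold qf'
  rw [sub_zero]

theorem norm_sub_e1_sq (t : ℝ) (x : X) : ‖x - t • e1‖ ^ 2 = (x.fst - t) ^ 2 + ht x ^ 2 := by
  have hX : x - t • e1 = (x.fst - t) • e1 + perp x := by
    rw [perp_eq]
    module
  rw [← real_inner_self_eq_norm_sq, hX]
  simp only [inner_add_left, inner_add_right, real_inner_smul_left, real_inner_smul_right,
    inner_e1_self, inner_perp_e1, inner_e1_perp]
  rw [real_inner_self_eq_norm_sq, norm_perp]
  ring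

/-- the field in the frame of `t` -/
theorem Dat.psi'_q (D : Dat φ₀ z R ρ H lo hi) (t : ℝ) {x : X} (hx : x ∉ Col.ax) :
    psi' z R ρ x = qf z R ρ t x • e1 - pf z R ρ x • (x - t • e1) := by
  rw [D.ax.form x hx]
  unfold qf
  module

/-- `p² ∇c = p ∇q - q ∇p` -/
theorem p2c' (z : ι → ℝ) (R : ι → X) (ρ : X → ℝ) (H : X → X →L[ℝ] X) (t : ℝ) (x : X) :
    pf z R ρ x ^ 2 • cf' z R ρ H x =
      pf z R ρ x • qf' z R ρ H t x - qf z R ρ t x • pf' z R ρ H x := by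
  unfold qf' qf
  module

/-- `∇p` through `∇q` -/
theorem Dat.r2p' (D : Dat φ₀ z R ρ H lo hi) (t : ℝ) {x : X} (hx : x ∉ Col.ax) :
    ‖x - t • e1‖ ^ 2 • pf' z R ρ H x + (3 * pf z R ρ x) • (x - t • e1) =
      (x.fst - t) • qf' z R ρ H t x +
      (⟪qf' z R ρ H t x, e1⟫ - 4 * Real.pi * ρ x) • (x - t • e1) -
      ⟪qf' z R ρ H t x, x - t • e1⟫ • e1 := by
  have hs := ht_pos hx
  have hX : x - t • e1 = (x.fst - t) • e1 + ht x • es x := by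
    rw [← perp_es hx, perp_eq]
    module
  have r1 := D.curl hx
  have r3 := D.divr hx
  rw [norm_sub_e1_sq]
  have hq : qf' z R ρ H t x = (pf z R ρ x * cx z R ρ H x + (cf z R ρ x - t) * px z R ρ H x) • e1 +
      (pf z R ρ x * cs z R ρ H x + (cf z R ρ x - t) * ps z R ρ H x) • es x := by
    unfold qf'
    rw [D.p'_eq hx, D.c'_eq hx]
    module
  rw [hX, hq, D.p'_eq hx]
  unfold zt at r1 r3
  simp only [inner_add_left, inner_add_right, real_inner_smul_left, real_inner_smul_right,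
      inner_e1_self, inner_es_self hx, inner_es_e1, inner_e1_es]
  have c1 : ((x.fst - t) ^ 2 + ht x ^ 2) * px z R ρ H x + 3 * pf z R ρ x * (x.fst - t) =
      (x.fst - t) * (pf z R ρ x * cx z R ρ H x + (cf z R ρ x - t) * px z R ρ H x) +
      ((pf z R ρ x * cx z R ρ H x + (cf z R ρ x - t) * px z R ρ H x) - 4 * Real.pi * ρ x) *
        (x.fst - t) -
      ((x.fst - t) * (pf z R ρ x * cx z R ρ H x + (cf z R ρ x - t) * px z R ρ H x) +
        ht x * (pf z R ρ x * cs z R ρ H x + (cf z R ρ x - t) * ps z R ρ H x)) := by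
    linear_combination (x.fst - t) * r3 - ht x * r1
  have c2 : ((x.fst - t) ^ 2 + ht x ^ 2) * ps z R ρ H x + 3 * pf z R ρ x * ht x =
      (x.fst - t) * (pf z R ρ x * cs z R ρ H x + (cf z R ρ x - t) * ps z R ρ H x) +
      ((pf z R ρ x * cx z R ρ H x + (cf z R ρ x - t) * px z R ρ H x) - 4 * Real.pi * ρ x) *
        ht x := by
    linear_combination (x.fst - t) * r1 + ht x * r3
  have e : ∀ A1 B1 A2 B2 : ℝ, A1 = A2 → B1 = B2 → A1 • e1 + B1 • es x = A2 • e1 + B2 • es x :=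
    fun A1 B1 A2 B2 h1 h2 => by rw [h1, h2]
  have h := e _ _ _ _ c1 c2
  refine Eq.trans ?_ (h.trans ?_)
  · module
  · module

/-- the trial in the frame of `t` -/
theorem Yt_q (z : ι → ℝ) (R : ι → X) (ρ : X → ℝ) (τ : X → ℝ) (t : ℝ) (x : X) :
    Yt z R ρ τ x = pf z R ρ x * ‖x - t • e1‖ ^ 2 - 2 * (x.fst - t) * qf z R ρ t x +
      qf z R ρ t x * (cf z R ρ x - t) + pf z R ρ x * τ x := by
  have hn : ‖x - t • e1‖ ^ 2 = (x.fst - t) ^ 2 + ht x ^ 2 := by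
    have hX : x - t • e1 = (x.fst - t) • e1 + perp x := by
      rw [perp_eq]
      module
    rw [← real_inner_self_eq_norm_sq, hX]
    simp only [inner_add_left, inner_add_right, real_inner_smul_left, real_inner_smul_right,
      inner_e1_self, inner_perp_e1, inner_e1_perp]
    rw [real_inner_self_eq_norm_sq, norm_perp]
    ring
  rw [hn]
  unfold Yt r2 zt qf
  ring

/-- the gradient of the trial in the frame of `t` -/
theorem Dat.Yt'_q (D : Dat φ₀ z R ρ H lo hi) (τ : X → ℝ) (τ' : X → X) (t : ℝ) {x : X}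
    (hx : x ∉ Col.ax) :
    Yt' z R ρ H τ τ' x - psi' z R ρ x =
      (pf z R ρ x • τ' x + τ x • pf' z R ρ H x) + qf z R ρ t x • cf' z R ρ H x +
      (cf z R ρ x - t) • qf' z R ρ H t x - (x.fst - t) • qf' z R ρ H t x +
      (⟪qf' z R ρ H t x, e1⟫ - 4 * Real.pi * ρ x) • (x - t • e1) -
      ⟪qf' z R ρ H t x, x - t • e1⟫ • e1 - (3 * qf z R ρ t x) • e1 := by
  have h := D.r2p' t hx
  have h1 := D.psi'_q t hx
  have hr : r2 z R ρ x = ‖x - t • e1‖ ^ 2 - 2 * (x.fst - t) * (cf z R ρ x - t) +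
      (cf z R ρ x - t) ^ 2 := by
    rw [norm_sub_e1_sq]
    unfold r2 zt
    ring
  have h2 : (x.fst - t) • qf' z R ρ H t x +
      (⟪qf' z R ρ H t x, e1⟫ - 4 * Real.pi * ρ x) • (x - t • e1) -
      ⟪qf' z R ρ H t x, x - t • e1⟫ • e1 =
      ‖x - t • e1‖ ^ 2 • pf' z R ρ H x + (3 * pf z R ρ x) • (x - t • e1) := h.symm
  have h3 : (⟪qf' z R ρ H t x, e1⟫ - 4 * Real.pi * ρ x) • (x - t • e1) -
      ⟪qf' z R ρ H t x, x - t • e1⟫ • e1 =
      ‖x - t • e1‖ ^ 2 • pf' z R ρ H x + (3 * pf z R ρ x) • (x - t • e1) -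
      (x.fst - t) • qf' z R ρ H t x := by
    rw [← h2]
    abel
  rw [h1]
  unfold Yt'
  rw [hr]
  have h4 : (pf z R ρ x • τ' x + τ x • pf' z R ρ H x) + qf z R ρ t x • cf' z R ρ H x +
      (cf z R ρ x - t) • qf' z R ρ H t x - (x.fst - t) • qf' z R ρ H t x +
      (⟪qf' z R ρ H t x, e1⟫ - 4 * Real.pi * ρ x) • (x - t • e1) -
      ⟪qf' z R ρ H t x, x - t • e1⟫ • e1 - (3 * qf z R ρ t x) • e1 =
      (pf z R ρ x • τ' x + τ x • pf' z R ρ H x) + qf z R ρ t x • cf' z R ρ H x +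
      (cf z R ρ x - t) • qf' z R ρ H t x - (x.fst - t) • qf' z R ρ H t x +
      (‖x - t • e1‖ ^ 2 • pf' z R ρ H x + (3 * pf z R ρ x) • (x - t • e1) -
      (x.fst - t) • qf' z R ρ H t x) - (3 * qf z R ρ t x) • e1 := by
    rw [← h3]
    abel
  rw [h4]
  unfold qf' qf Vf zt
  module

/-! ### isotropy on the axis -/

theorem iso_alg {u0 u1 : X} (h : ∀ b : X, ‖b‖ = 1 → ⟪e1, b⟫ = 0 →
    ∃ m : ℝ, ⟪b, eb 0⟫ • u0 + ⟪b, eb 1⟫ • u1 = m • b) :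
    ∃ m : ℝ, u0 = m • eb 0 ∧ u1 = m • eb 1 := by
  have h10 : ⟪eb 1, eb 0⟫ = 0 := by rw [real_inner_comm]; exact inner_eb01
  obtain ⟨m0, h0⟩ := h (eb 0) (norm_eb 0) (inner_e1_eb 0)
  obtain ⟨m1, h1⟩ := h (eb 1) (norm_eb 1) (inner_e1_eb 1)
  rw [inner_eb_self, inner_eb01, one_smul, zero_smul, add_zero] at h0
  rw [inner_eb_self, h10, one_smul, zero_smul, zero_add] at h1
  have h2 : 0 < ‖eb 0 + eb 1‖ := by
    rw [norm_pos_iff]
    intro h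
    have : ⟪eb 0 + eb 1, eb 0⟫ = 1 := by
      rw [inner_add_left, inner_eb_self, h10, add_zero]
    rw [h, inner_zero_left] at this
    exact zero_ne_one this
  obtain ⟨m, hm⟩ := h (‖eb 0 + eb 1‖⁻¹ • (eb 0 + eb 1))
    (by rw [norm_smul, norm_inv, norm_norm, inv_mul_cancel₀ h2.ne'])
    (by rw [real_inner_smul_right, inner_add_right, inner_e1_eb, inner_e1_eb]; ring)
  simp only [real_inner_smul_left, inner_add_left, inner_eb_self, inner_eb01, h10, add_zero,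
    zero_add, mul_one] at hm
  have h3 : m0 • eb 0 + m1 • eb 1 = m • (eb 0 + eb 1) := by
    have h4 := congrArg (fun v => ‖eb 0 + eb 1‖ • v) hm
    simp only [smul_add, smul_smul, mul_inv_cancel₀ h2.ne', one_smul] at h4
    rw [h0, h1] at h4
    rw [h4, smul_add]
    congr 2 <;> field_simp
  have e0 : m0 = m := by
    have := congrArg (fun v => ⟪v, eb 0⟫) h3
    simpa only [inner_add_left, real_inner_smul_left, inner_eb_self, h10, mul_zero, add_zero,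
      mul_one] using this
  have e1' : m1 = m := by
    have := congrArg (fun v => ⟪v, eb 1⟫) h3
    simpa only [inner_add_left, real_inner_smul_left, inner_eb_self, inner_eb01, mul_zero,
      zero_add, mul_one] using this
  exact ⟨m, by rw [h0, e0], by rw [h1, e1']⟩

/-- a transverse unit vector has coordinates of modulus at most one -/
theorem abs_inner_eb_le {b : X} (hb : ‖b‖ = 1) (j : Fin 2) : |⟪b, eb j⟫| ≤ 1 := by
  refine (abs_real_inner_le_norm _ _).trans ?_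
  rw [hb, norm_eb, mul_one]

theorem inner_ax_orth {y b : X} (hy : y ∈ ax) (hb : ⟪e1, b⟫ = 0) : ⟪y, b⟫ = 0 := by
  rw [← fst_smul_of_ax hy, real_inner_smul_left, hb, mul_zero]

theorem inner_self_es {x : X} (hx : x ∉ ax) : ⟪x, es x⟫ = ht x := by
  have := ht_pos hx
  unfold es
  rw [real_inner_smul_right, inner_self_perp]
  field_simp

/-! ### the rotation field -/

/-- the derivatives of the two rotation fields about the nucleus `i` -/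
theorem Dat.rot_data (D : Dat φ₀ z R ρ H lo hi) (i : ι) :
    ∃ (δ C : ℝ) (w : Fin 2 → X → X), 0 < δ ∧ 0 ≤ C ∧
      (∀ x ∈ ball (R i) δ, x ∉ Col.ax → ∀ j, w j x =
        -(qf z R ρ (R i).fst x • eb j + ⟪x, eb j⟫ • qf' z R ρ H (R i).fst x)) ∧
      ∀ x ∈ ball (R i) δ, ∀ y ∈ ball (R i) δ, ∀ j, ‖w j x - w j y‖ ≤ C * √‖x - y‖ := by
  have h := fun j => Rot33.rot_nuc D.hz D.hφ D.hρ D.heq i norm_e1 (norm_eb j) (inner_e1_eb j)
  obtain ⟨δ0, hδ0, C0, w0, g0, b0⟩ := h 0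
  obtain ⟨δ1, hδ1, C1, w1, g1, b1⟩ := h 1
  have hi0 := D.ax.on_axis i
  refine ⟨min δ0 δ1, max (max C0 C1) 0, ![w0, w1], lt_min hδ0 hδ1, le_max_right _ _, ?_, ?_⟩
  · intro x hx hxa
    have key : ∀ (j : Fin 2) (w' : X), HasGradientAt (fun x => ⟪x - R i, e1⟫ *
        ⟪psi' z R ρ x, eb j⟫ - ⟪x - R i, eb j⟫ * ⟪psi' z R ρ x, e1⟫) w' x →
        w' = -(qf z R ρ (R i).fst x • eb j + ⟪x, eb j⟫ • qf' z R ρ H (R i).fst x) := by
      intro j w' hw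
      have h1 := ((D.c1_q (R i).fst).mul (C1O.inner_const' (eb j))).neg.grad x hxa
      have h2 : HasGradientAt (fun x => ⟪x - R i, e1⟫ *
        ⟪psi' z R ρ x, eb j⟫ - ⟪x - R i, eb j⟫ * ⟪psi' z R ρ x, e1⟫)
          (-(qf z R ρ (R i).fst x • eb j + ⟪x, eb j⟫ • qf' z R ρ H (R i).fst x)) x := by
        refine h1.congr_of_eventuallyEq ?_
        filter_upwards [nhds_off hxa] with y hy
        rw [D.psi'_q (R i).fst hy, fst_smul_of_ax hi0]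
        simp only [inner_sub_left, real_inner_smul_left, inner_e1_self, inner_e1_eb,
          inner_ax_orth hi0 (inner_e1_eb j)]
        ring
      rw [← hw.gradient, ← h2.gradient]
    have hx0 : x ∈ ball (R i) δ0 := ball_subset_ball (min_le_left _ _) hx
    have hx1 : x ∈ ball (R i) δ1 := ball_subset_ball (min_le_right _ _) hx
    have hne : x ≠ R i := D.off hxa i
    intro j
    fin_cases j
    · exact key 0 _ (g0 x hx0 hne)
    · exact key 1 _ (g1 x hx1 hne)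
  · intro x hx y hy j
    have hx0 : x ∈ ball (R i) δ0 := ball_subset_ball (min_le_left _ _) hx
    have hx1 : x ∈ ball (R i) δ1 := ball_subset_ball (min_le_right _ _) hx
    have hy0 : y ∈ ball (R i) δ0 := ball_subset_ball (min_le_left _ _) hy
    have hy1 : y ∈ ball (R i) δ1 := ball_subset_ball (min_le_right _ _) hy
    fin_cases j
    · refine (b0 x hx0 y hy0).trans ?_
      rw [← Real.sqrt_eq_rpow]
      exact mul_le_mul_of_nonneg_right ((le_max_left _ _).trans (le_max_left _ _))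
        (Real.sqrt_nonneg _)
    · refine (b1 x hx1 y hy1).trans ?_
      rw [← Real.sqrt_eq_rpow]
      exact mul_le_mul_of_nonneg_right ((le_max_right _ _).trans (le_max_left _ _))
        (Real.sqrt_nonneg _)

/-- **Hölder continuity of `q` and the bound for its gradient at the nucleus `i`** -/
theorem Dat.nuc_hol (D : Dat φ₀ z R ρ H lo hi) (i : ι) :
    ∃ δ C Q : ℝ, 0 < δ ∧ 0 ≤ C ∧ ∀ x ∈ ball (R i) δ, x ∉ Col.ax →
      |qf z R ρ (R i).fst x - Q| ≤ C * √‖x - R i‖ ∧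
      ‖qf' z R ρ H (R i).fst x‖ ≤ C * (√(ht x))⁻¹ := by
  obtain ⟨δ, C, w, hδ, hC, hw, hb⟩ := D.rot_data i
  have hi0 := D.ax.on_axis i
  set t := (R i).fst with ht0
  -- continuity
  have hcont : ∀ y ∈ ball (R i) δ, ∀ j, ContinuousAt (w j) y := by
    intro y hy j
    rw [ContinuousAt, tendsto_iff_norm_sub_tendsto_zero]
    have h1 : Tendsto (fun x : X => C * √‖x - y‖) (𝓝 y) (𝓝 0) := by
      have h2 : Continuous fun x : X => C * √‖x - y‖ := by fun_prop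
      have h3 := h2.tendsto y
      simpa using h3
    refine squeeze_zero' (Eventually.of_forall fun x => norm_nonneg _) ?_ h1
    filter_upwards [isOpen_ball.mem_nhds hy] with x hx
    exact hb x hx y hy j
  -- transverse combination off the axis
  have hcomb : ∀ x ∈ ball (R i) δ, x ∉ Col.ax → ∀ b : X, ⟪e1, b⟫ = 0 →
      ⟪b, eb 0⟫ • w 0 x + ⟪b, eb 1⟫ • w 1 x =
        -(qf z R ρ t x • b + ⟪x, b⟫ • qf' z R ρ H t x) := by
    intro x hx hxa b hb1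
    rw [hw x hx hxa 0, hw x hx hxa 1]
    have h1 := orth_eq hb1
    have h2 : ⟪x, b⟫ = ⟪b, eb 0⟫ * ⟪x, eb 0⟫ + ⟪b, eb 1⟫ * ⟪x, eb 1⟫ := by
      conv_lhs => rw [h1]
      rw [inner_add_right, real_inner_smul_right, real_inner_smul_right]
    have h4 : -(qf z R ρ t x • b + ⟪x, b⟫ • qf' z R ρ H t x) =
        -(qf z R ρ t x • (⟪b, eb 0⟫ • eb 0 + ⟪b, eb 1⟫ • eb 1) +
          ⟪x, b⟫ • qf' z R ρ H t x) := by rw [← h1]
    rw [h4, h2]
    module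
  -- isotropy
  have hiso : ∀ y ∈ ball (R i) δ, y ∈ Col.ax → ∃ m : ℝ, ∀ b : X, ⟪e1, b⟫ = 0 →
      ⟪b, eb 0⟫ • w 0 y + ⟪b, eb 1⟫ • w 1 y = m • b := by
    intro y hy hya
    have h1 : ∀ b : X, ‖b‖ = 1 → ⟪e1, b⟫ = 0 →
        ∃ m : ℝ, ⟪b, eb 0⟫ • w 0 y + ⟪b, eb 1⟫ • w 1 y = m • b := by
      intro b hbn hb1
      obtain ⟨u, hu, hu1, hu2⟩ := exists_unit_orth e1 b
      have hc : Tendsto (fun s : ℝ => y + s • u) (𝓝[>] 0) (𝓝 y) := by
        have : Tendsto (fun s : ℝ => y + s • u) (𝓝 0) (𝓝 (y + (0 : ℝ) • u)) :=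
          (by fun_prop : Continuous fun s : ℝ => y + s • u).tendsto 0
        rw [zero_smul, add_zero] at this
        exact this.mono_left nhdsWithin_le_nhds
      have hW : Tendsto (fun s : ℝ => ⟪b, eb 0⟫ • w 0 (y + s • u) + ⟪b, eb 1⟫ • w 1 (y + s • u))
          (𝓝[>] 0) (𝓝 (⟪b, eb 0⟫ • w 0 y + ⟪b, eb 1⟫ • w 1 y)) :=
        (((hcont y hy 0).tendsto.comp hc).const_smul _).add
          (((hcont y hy 1).tendsto.comp hc).const_smul _)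
      have hbb : ⟪b, b⟫ = 1 := by rw [real_inner_self_eq_norm_sq, hbn, one_pow]
      have hev : ∀ᶠ s : ℝ in 𝓝[>] 0, ⟪b, eb 0⟫ • w 0 (y + s • u) +
          ⟪b, eb 1⟫ • w 1 (y + s • u) = -(qf z R ρ t (y + s • u) • b) := by
        filter_upwards [self_mem_nhdsWithin, hc.eventually (isOpen_ball.mem_nhds hy)] with s hs hsb
        obtain ⟨g1, g2, g3⟩ := es_unit_orth hu hu1 hya hs
        rw [hcomb _ hsb g1 b hb1, inner_add_left, inner_ax_orth hya hb1, real_inner_smul_left,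
          real_inner_comm b u, hu2, mul_zero, add_zero, zero_smul, add_zero]
      refine ⟨⟪⟪b, eb 0⟫ • w 0 y + ⟪b, eb 1⟫ • w 1 y, b⟫, ?_⟩
      have h2 : Tendsto (fun s : ℝ => ⟪⟪b, eb 0⟫ • w 0 (y + s • u) +
          ⟪b, eb 1⟫ • w 1 (y + s • u), b⟫ • b) (𝓝[>] 0)
          (𝓝 (⟪⟪b, eb 0⟫ • w 0 y + ⟪b, eb 1⟫ • w 1 y, b⟫ • b)) :=
        (hW.inner tendsto_const_nhds).smul_const b
      refine tendsto_nhds_unique hW (h2.congr' ?_)
      filter_upwards [hev] with s hs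
      rw [hs, inner_neg_left, real_inner_smul_left, hbb, mul_one, neg_smul]
    obtain ⟨m, h0, h1'⟩ := iso_alg h1
    refine ⟨m, fun b hb1 => ?_⟩
    rw [h0, h1']
    conv_rhs => rw [orth_eq hb1]
    module
  -- estimate of combinations
  have hest : ∀ x ∈ ball (R i) δ, ∀ y ∈ ball (R i) δ, ∀ b : X, ‖b‖ = 1 →
      ‖(⟪b, eb 0⟫ • w 0 x + ⟪b, eb 1⟫ • w 1 x) - (⟪b, eb 0⟫ • w 0 y + ⟪b, eb 1⟫ • w 1 y)‖ ≤
        2 * C * √‖x - y‖ := by
    intro x hx y hy b hbn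
    have e : (⟪b, eb 0⟫ • w 0 x + ⟪b, eb 1⟫ • w 1 x) - (⟪b, eb 0⟫ • w 0 y + ⟪b, eb 1⟫ • w 1 y) =
        ⟪b, eb 0⟫ • (w 0 x - w 0 y) + ⟪b, eb 1⟫ • (w 1 x - w 1 y) := by module
    rw [e]
    refine (norm_add_le _ _).trans ?_
    have h1 : ∀ j, ‖⟪b, eb j⟫ • (w j x - w j y)‖ ≤ C * √‖x - y‖ := by
      intro j
      rw [norm_smul, Real.norm_eq_abs]
      have g1 := abs_inner_eb_le hbn j
      have g2 := hb x hx y hy j
      calc |⟪b, eb j⟫| * ‖w j x - w j y‖ ≤ 1 * (C * √‖x - y‖) :=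
            mul_le_mul g1 g2 (norm_nonneg _) zero_le_one
        _ = C * √‖x - y‖ := one_mul _
    have g0 := h1 0
    have g1 := h1 1
    linarith
  obtain ⟨m, hm⟩ := hiso (R i) (mem_ball_self hδ) hi0
  -- `q` at off-axis points compared with axis points
  have hq : ∀ x ∈ ball (R i) δ, x ∉ Col.ax → ∀ y ∈ ball (R i) δ, ∀ m : ℝ,
      (∀ b : X, ⟪e1, b⟫ = 0 → ⟪b, eb 0⟫ • w 0 y + ⟪b, eb 1⟫ • w 1 y = m • b) →
      |qf z R ρ t x + m| ≤ 2 * C * √‖x - y‖ := by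
    intro x hx hxa y hy m hm
    obtain ⟨b, hbn, hb1, hb2⟩ := exists_unit_orth e1 (es x)
    have h1 := hest x hx y hy b hbn
    have hxb : ⟪x, b⟫ = 0 := by
      have h2 : x = x.fst • e1 + ht x • es x := by
        rw [← perp_es hxa, perp_eq]
        abel
      rw [h2, inner_add_left, real_inner_smul_left, real_inner_smul_left, hb1, hb2]
      ring
    rw [hcomb x hx hxa b hb1, hm b hb1, hxb, zero_smul, add_zero] at h1
    have e : -(qf z R ρ t x • b) - m • b = -((qf z R ρ t x + m) • b) := by module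
    rw [e, norm_neg, norm_smul, hbn, mul_one, Real.norm_eq_abs] at h1
    exact h1
  refine ⟨δ, 4 * C, -m, hδ, by positivity, fun x hx hxa => ⟨?_, ?_⟩⟩
  · have h1 := hq x hx hxa (R i) (mem_ball_self hδ) m hm
    rw [sub_neg_eq_add]
    refine h1.trans (mul_le_mul_of_nonneg_right (by linarith) (Real.sqrt_nonneg _))
  · have hs := ht_pos hxa
    have hss : 0 < √(ht x) := Real.sqrt_pos.mpr hs
    have hyb : foot x ∈ ball (R i) δ := by
      rw [mem_ball_iff_norm] at hx ⊢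
      exact (norm_foot_sub x hi0).trans_lt hx
    obtain ⟨m', hm'⟩ := hiso (foot x) hyb (foot_mem x)
    have h1 := hq x hx hxa (foot x) hyb m' hm'
    have h2 := hest x hx (foot x) hyb (es x) (norm_es hxa)
    rw [norm_sub_foot] at h1 h2
    have he : ⟪e1, es x⟫ = 0 := inner_e1_es x
    rw [hcomb x hx hxa (es x) he, hm' (es x) he, inner_self_es hxa] at h2
    have e : ht x • qf' z R ρ H t x = -(-(qf z R ρ t x • es x + ht x • qf' z R ρ H t x) -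
        m' • es x) - (qf z R ρ t x + m') • es x := by module
    have h3 : ht x * ‖qf' z R ρ H t x‖ ≤ 4 * C * √(ht x) := by
      calc ht x * ‖qf' z R ρ H t x‖ = ‖ht x • qf' z R ρ H t x‖ := by
            rw [norm_smul, Real.norm_of_nonneg hs.le]
        _ ≤ 2 * C * √(ht x) + 2 * C * √(ht x) := by
            rw [e]
            refine (norm_sub_le _ _).trans (add_le_add ?_ ?_)
            · rw [norm_neg]
              exact h2
            · rw [norm_smul, norm_es hxa, mul_one, Real.norm_eq_abs]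
              exact h1
        _ = 4 * C * √(ht x) := by ring
    have h4 : √(ht x) * √(ht x) = ht x := Real.mul_self_sqrt hs.le
    rw [← div_eq_mul_inv, le_div_iff₀ hss]
    have h5 : √(ht x) * (‖qf' z R ρ H t x‖ * √(ht x)) ≤ √(ht x) * (4 * C) := by
      calc √(ht x) * (‖qf' z R ρ H t x‖ * √(ht x)) = ht x * ‖qf' z R ρ H t x‖ := by
            nth_rewrite 3 [← h4]
            ring
        _ ≤ 4 * C * √(ht x) := h3
        _ = √(ht x) * (4 * C) := by ring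
    exact le_of_mul_le_mul_left h5 hss

/-- bounds at the point `x` near the nucleus `i` -/
structure NucB (φ₀ : ℝ) (z : ι → ℝ) (R : ι → X) (ρ : X → ℝ) (H : X → X →L[ℝ] X) (i : ι)
    (C Q : ℝ) (x : X) : Prop where
  /-- distances -/
  r_pos : 0 < ‖x - R i‖
  ht_le : ht x ≤ ‖x - R i‖
  /-- `p` -/
  p : |pf z R ρ x - z i * (‖x - R i‖ ^ 3)⁻¹| ≤ C * (‖x - R i‖⁻¹) ^ (7 / 4 : ℝ)
  p_lo : z i / 2 * (‖x - R i‖ ^ 3)⁻¹ ≤ pf z R ρ x
  p_hi : pf z R ρ x ≤ 2 * z i * (‖x - R i‖ ^ 3)⁻¹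
  /-- `q` -/
  q : |qf z R ρ (R i).fst x - Q| ≤ C * √‖x - R i‖
  q_le : |qf z R ρ (R i).fst x| ≤ C
  q' : ‖qf' z R ρ H (R i).fst x‖ ≤ C * (√(ht x))⁻¹
  /-- density and response -/
  rho0 : 0 ≤ ρ x
  rho : 4 * Real.pi * ρ x ≤ C * (‖x - R i‖ * √‖x - R i‖)⁻¹
  gam : 4 * Real.pi * gam (psi φ₀ z R ρ x) ≤ C * (√‖x - R i‖)⁻¹
  /-- the gradients -/
  p' : ‖pf' z R ρ H x + (3 * pf z R ρ x * (‖x - R i‖ ^ 2)⁻¹) • (x - R i)‖ ≤
    (4 * Real.pi * ρ x + 3 * ‖qf' z R ρ H (R i).fst x‖) * ‖x - R i‖⁻¹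
  p'_le : ‖pf' z R ρ H x‖ ≤ C * ((‖x - R i‖ ^ 4)⁻¹ + ‖x - R i‖⁻¹ * (√(ht x))⁻¹)
  c : |cf z R ρ x - (R i).fst| ≤ C * ‖x - R i‖ ^ 3
  c' : ‖cf' z R ρ H x‖ ≤ C * (‖x - R i‖ ^ 2 + ‖x - R i‖ ^ 3 * (√(ht x))⁻¹)
  /-- the only part of the currents with a flux -/
  s2c' : ‖(ht x ^ 2 * pf z R ρ x ^ 2) • cf' z R ρ H x -
    (3 * z i * Q * ht x ^ 2 * (‖x - R i‖ ^ 5)⁻¹) • (x - R i)‖ ≤ C * (‖x - R i‖ * √‖x - R i‖)⁻¹
  /-- the field and the potential -/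
  P : ‖psi' z R ρ x + (z i * (‖x - R i‖ ^ 3)⁻¹) • (x - R i)‖ ≤ C * (‖x - R i‖⁻¹) ^ (3 / 4 : ℝ)
  gV : ‖gVpt z R x + (z i * (‖x - R i‖ ^ 3)⁻¹) • (x - R i)‖ ≤ C
  /-- the trial -/
  Y : ∀ τ : X → ℝ, |Yt z R ρ τ x - z i * ‖x - R i‖⁻¹ - pf z R ρ x * τ x| ≤
    C * ‖x - R i‖ ^ (1 / 4 : ℝ)
  Y' : ∀ (τ : X → ℝ) (τ' : X → X), ‖Yt' z R ρ H τ τ' x - psi' z R ρ x -
    (pf z R ρ x • τ' x + τ x • pf' z R ρ H x)‖ ≤
    C * ((√‖x - R i‖)⁻¹ + ‖x - R i‖ * (√(ht x))⁻¹)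

/-- elementary bounds for the density and the response near a nucleus -/
theorem Dat.rho_near (D : Dat φ₀ z R ρ H lo hi) (hR : Function.Injective R) (i : ι) :
    ∃ δ C : ℝ, 0 < δ ∧ δ ≤ 1 ∧ 0 ≤ C ∧ ∀ x ∈ ball (R i) δ, x ≠ R i →
      4 * Real.pi * ρ x ≤ C * (‖x - R i‖ * √‖x - R i‖)⁻¹ ∧
      4 * Real.pi * gam (psi φ₀ z R ρ x) ≤ C * (√‖x - R i‖)⁻¹ := by
  classical
  obtain ⟨d, hd0, hd1, hd⟩ := exists_sep hR i
  set Z : ℝ := ∑ j, z j with hZ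
  have hZ0 : 0 ≤ Z := Finset.sum_nonneg fun j _ => D.hz j
  set A : ℝ := Z * d⁻¹ with hA
  have hA0 : 0 ≤ A := by positivity
  have hpi := Real.pi_pos
  refine ⟨d, 4 * Real.pi * (A * √A) + 4 * Real.pi * (3 / 2 * √A), hd0, hd1, by positivity,
    fun x hx hxi => ?_⟩
  have hr0 : 0 < ‖x - R i‖ := norm_pos_iff.mpr (sub_ne_zero.mpr hxi)
  rw [mem_ball_iff_norm] at hx
  set r : ℝ := ‖x - R i‖ with hr
  have hsr : 0 < √r := Real.sqrt_pos.mpr hr0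
  have hpsi : psi φ₀ z R ρ x ≤ A * r⁻¹ := by
    have h1 : psi φ₀ z R ρ x ≤ Vpt z R x := by
      have := pot_nonneg D.hρ.nonneg x
      have h2 := D.hφ
      change Vpt z R x - pot ρ x - φ₀ ≤ Vpt z R x
      linarith
    refine h1.trans ?_
    have h2 : ∀ j ∈ Finset.univ, z j * ‖x - R j‖⁻¹ ≤ z j * (d⁻¹ * r⁻¹) := by
      intro j _
      refine mul_le_mul_of_nonneg_left ?_ (D.hz j)
      by_cases hji : j = i
      · rw [hji, ← hr]
        exact le_mul_of_one_le_left (by positivity) ((one_le_inv₀ hd0).mpr hd1)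
      · have h3 := hd x hx j hji
        have h4 : ‖x - R j‖⁻¹ ≤ d⁻¹ := inv_anti₀ hd0 h3
        exact h4.trans (le_mul_of_one_le_right (by positivity)
          ((one_le_inv₀ hr0).mpr (hx.le.trans hd1)))
    have h3 := Finset.sum_le_sum h2
    rw [← Finset.sum_mul] at h3
    have h4 : Vpt z R x = ∑ j, z j * ‖x - R j‖⁻¹ := by
      unfold Vpt
      rfl
    rw [h4]
    refine h3.trans (le_of_eq ?_)
    rw [hA]
    ring
  have hm : max (psi φ₀ z R ρ x) 0 ≤ A * r⁻¹ := max_le hpsi (by positivity)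
  have hsm : √(max (psi φ₀ z R ρ x) 0) ≤ √A * (√r)⁻¹ := by
    rw [← Real.sqrt_inv, ← Real.sqrt_mul hA0]
    exact Real.sqrt_le_sqrt hm
  constructor
  · have h1 : ρ x ≤ (A * √A) * (r * √r)⁻¹ := by
      rw [D.heq x]
      have h2 : tf (Vpt z R x - pot ρ x - φ₀) =
          max (psi φ₀ z R ρ x) 0 * √(max (psi φ₀ z R ρ x) 0) := rfl
      rw [h2]
      calc max (psi φ₀ z R ρ x) 0 * √(max (psi φ₀ z R ρ x) 0) ≤ (A * r⁻¹) * (√A * (√r)⁻¹) :=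
            mul_le_mul hm hsm (Real.sqrt_nonneg _) (by positivity)
        _ = (A * √A) * (r * √r)⁻¹ := by
            rw [mul_inv]
            ring
    have h3 : 0 ≤ 4 * Real.pi * (3 / 2 * √A) * (r * √r)⁻¹ := by positivity
    calc 4 * Real.pi * ρ x ≤ 4 * Real.pi * ((A * √A) * (r * √r)⁻¹) :=
          mul_le_mul_of_nonneg_left h1 (by positivity)
      _ ≤ (4 * Real.pi * (A * √A) + 4 * Real.pi * (3 / 2 * √A)) * (r * √r)⁻¹ := by
          linarith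
  · have h1 : gam (psi φ₀ z R ρ x) ≤ 3 / 2 * (√A * (√r)⁻¹) := by
      unfold gam
      linarith
    have h3 : 0 ≤ 4 * Real.pi * (A * √A) * (√r)⁻¹ := by positivity
    calc 4 * Real.pi * gam (psi φ₀ z R ρ x) ≤ 4 * Real.pi * (3 / 2 * (√A * (√r)⁻¹)) :=
          mul_le_mul_of_nonneg_left h1 (by positivity)
      _ ≤ (4 * Real.pi * (A * √A) + 4 * Real.pi * (3 / 2 * √A)) * (√r)⁻¹ := by
          linarith

/-- `p` near a nucleus -/
theorem Dat.p_near (D : Dat φ₀ z R ρ H lo hi) (hz : ∀ i, 0 < z i) (hR : Function.Injective R)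
    (i : ι) : ∃ δ C : ℝ, 0 < δ ∧ δ ≤ 1 ∧ 0 ≤ C ∧ ∀ x ∈ ball (R i) δ, x ∉ Col.ax →
      |pf z R ρ x - z i * (‖x - R i‖ ^ 3)⁻¹| ≤ C * (‖x - R i‖⁻¹) ^ (7 / 4 : ℝ) ∧
      z i / 2 * (‖x - R i‖ ^ 3)⁻¹ ≤ pf z R ρ x ∧
      pf z R ρ x ≤ 2 * z i * (‖x - R i‖ ^ 3)⁻¹ ∧
      ‖psi' z R ρ x + (z i * (‖x - R i‖ ^ 3)⁻¹) • (x - R i)‖ ≤ C * (‖x - R i‖⁻¹) ^ (3 / 4 : ℝ) ∧
      ‖gVpt z R x + (z i * (‖x - R i‖ ^ 3)⁻¹) • (x - R i)‖ ≤ C := by
  obtain ⟨B, η, hB, hη, hη1, hn⟩ := Dis.near_data hz hR D.hφ D.hρ D.heq D.hs i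
  have hi0 := D.ax.on_axis i
  have hzi := hz i
  -- a radius such that `B r^(5/4) ≤ z i / 2`
  obtain ⟨δ1, hδ1, hδ1'⟩ : ∃ δ1 : ℝ, 0 < δ1 ∧ B * δ1 ≤ z i / 2 := by
    refine ⟨z i / (2 * (B + 1)), by positivity, ?_⟩
    rw [← mul_div_assoc, div_le_div_iff₀ (by positivity) (by norm_num)]
    nlinarith
  refine ⟨min η δ1, B, lt_min hη hδ1, (min_le_left _ _).trans hη1, hB, fun x hx hxa => ?_⟩
  have hxi : x ≠ R i := D.off hxa i
  have hr0 : 0 < ‖x - R i‖ := norm_pos_iff.mpr (sub_ne_zero.mpr hxi)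
  rw [mem_ball_iff_norm] at hx
  have hxη : ‖x - R i‖ < η := hx.trans_le (min_le_left _ _)
  have hxδ : ‖x - R i‖ < δ1 := hx.trans_le (min_le_right _ _)
  have hr1 : ‖x - R i‖ ≤ 1 := hxη.le.trans hη1
  obtain ⟨hoff, hN, hg⟩ := hn x hr0 hxη
  obtain ⟨q4, q3, q7⟩ := quarter_pow hr0
  obtain ⟨b, hbn, hb1, hb2⟩ := exists_unit_orth e1 (es x)
  have hxb : ⟪x - R i, b⟫ = 0 := by
    have h2 : x = x.fst • e1 + ht x • es x := by
      rw [← perp_es hxa, perp_eq]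
      abel
    rw [inner_sub_left, inner_ax_orth hi0 hb1, h2, inner_add_left, real_inner_smul_left,
      real_inner_smul_left, hb1, hb2]
    ring
  have h1 := hN.hT b
  rw [D.H_phi hxa hb1 hb2, hP_apply, sub_zero, hxb, mul_zero, zero_smul, zero_sub, hbn, mul_one,
    q7] at h1
  have e : -(pf z R ρ x • b) - z i • -((‖x - R i‖ ^ 3)⁻¹ • b) =
      -((pf z R ρ x - z i * (‖x - R i‖ ^ 3)⁻¹) • b) := by module
  rw [e, norm_neg, norm_smul, hbn, mul_one, Real.norm_eq_abs] at h1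
  have h2 : B * (‖x - R i‖⁻¹) ^ (7 / 4 : ℝ) ≤ z i / 2 * (‖x - R i‖ ^ 3)⁻¹ := by
    have h3 : (‖x - R i‖⁻¹) ^ (7 / 4 : ℝ) ≤ (‖x - R i‖⁻¹) ^ (2 : ℝ) :=
      Real.rpow_le_rpow_of_exponent_le ((one_le_inv₀ hr0).mpr hr1) (by norm_num)
    rw [Real.rpow_two] at h3
    calc B * (‖x - R i‖⁻¹) ^ (7 / 4 : ℝ) ≤ B * (‖x - R i‖⁻¹) ^ 2 :=
          mul_le_mul_of_nonneg_left h3 hB
      _ = (B * ‖x - R i‖) * (‖x - R i‖ ^ 3)⁻¹ := by field_simp
      _ ≤ z i / 2 * (‖x - R i‖ ^ 3)⁻¹ := by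
          refine mul_le_mul_of_nonneg_right ?_ (by positivity)
          exact (mul_le_mul_of_nonneg_left hxδ.le hB).trans hδ1'
  have h3 := abs_le.mp (h1.trans h2)
  have h4 : 0 ≤ z i / 2 * (‖x - R i‖ ^ 3)⁻¹ := by positivity
  refine ⟨h1, ?_, ?_, ?_, hg⟩
  · linarith
  · linarith
  · have := hN.hv
    rwa [q3] at this

/-- the bound for `∇p` in the frame of the nucleus -/
theorem Dat.p'_frame (D : Dat φ₀ z R ρ H lo hi) (i : ι) {x : X} (hx : x ∉ Col.ax) :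
    ‖pf' z R ρ H x + (3 * pf z R ρ x * (‖x - R i‖ ^ 2)⁻¹) • (x - R i)‖ ≤
      (4 * Real.pi * ρ x + 3 * ‖qf' z R ρ H (R i).fst x‖) * ‖x - R i‖⁻¹ ∧
    ‖(x.fst - (R i).fst) • qf' z R ρ H (R i).fst x‖ ≤
      ‖x - R i‖ * ‖qf' z R ρ H (R i).fst x‖ ∧
    ‖(⟪qf' z R ρ H (R i).fst x, e1⟫ - 4 * Real.pi * ρ x) • (x - R i)‖ ≤
      ‖x - R i‖ * ‖qf' z R ρ H (R i).fst x‖ + 4 * Real.pi * ρ x * ‖x - R i‖ ∧
    ‖⟪qf' z R ρ H (R i).fst x, x - R i⟫ • e1‖ ≤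
      ‖x - R i‖ * ‖qf' z R ρ H (R i).fst x‖ := by
  have hi0 := D.ax.on_axis i
  have hRi : (R i).fst • e1 = R i := fst_smul_of_ax hi0
  have hpi := Real.pi_pos
  have hρ0 : 0 ≤ ρ x := D.hρ.nonneg x
  have hr0 : 0 < ‖x - R i‖ := norm_pos_iff.mpr (sub_ne_zero.mpr (D.off hx i))
  have h := D.r2p' (R i).fst hx
  rw [hRi] at h
  set w := qf' z R ρ H (R i).fst x with hw
  set n := x - R i with hn
  have g1 : ‖(x.fst - (R i).fst) • w‖ ≤ ‖n‖ * ‖w‖ := by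
    rw [norm_smul]
    refine mul_le_mul_of_nonneg_right ?_ (norm_nonneg _)
    have e : x.fst - (R i).fst = n.fst := by rw [hn]; simp
    rw [e, Real.norm_eq_abs, ← inner_e1]
    refine (abs_real_inner_le_norm _ _).trans ?_
    rw [norm_e1, mul_one]
  have g2 : ‖(⟪w, e1⟫ - 4 * Real.pi * ρ x) • n‖ ≤ ‖n‖ * ‖w‖ + 4 * Real.pi * ρ x * ‖n‖ := by
    rw [norm_smul, Real.norm_eq_abs]
    have h1 : |⟪w, e1⟫| ≤ ‖w‖ := by
      refine (abs_real_inner_le_norm _ _).trans ?_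
      rw [norm_e1, mul_one]
    have h2 : |⟪w, e1⟫ - 4 * Real.pi * ρ x| ≤ ‖w‖ + 4 * Real.pi * ρ x := by
      refine (abs_sub _ _).trans ?_
      rw [abs_of_nonneg (show (0 : ℝ) ≤ 4 * Real.pi * ρ x by positivity)]
      linarith
    calc |⟪w, e1⟫ - 4 * Real.pi * ρ x| * ‖n‖ ≤ (‖w‖ + 4 * Real.pi * ρ x) * ‖n‖ :=
          mul_le_mul_of_nonneg_right h2 (norm_nonneg _)
      _ = ‖n‖ * ‖w‖ + 4 * Real.pi * ρ x * ‖n‖ := by ring
  have g3 : ‖⟪w, n⟫ • e1‖ ≤ ‖n‖ * ‖w‖ := by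
    rw [norm_smul, norm_e1, mul_one, Real.norm_eq_abs]
    refine (abs_real_inner_le_norm _ _).trans ?_
    rw [mul_comm]
  refine ⟨?_, g1, g2, g3⟩
  have e : pf' z R ρ H x + (3 * pf z R ρ x * (‖n‖ ^ 2)⁻¹) • n =
      (‖n‖ ^ 2)⁻¹ • ((x.fst - (R i).fst) • w + (⟪w, e1⟫ - 4 * Real.pi * ρ x) • n -
        ⟪w, n⟫ • e1) := by
    rw [← h, smul_add, smul_smul, smul_smul, inv_mul_cancel₀ (by positivity), one_smul]
    congr 2
    ring
  rw [e, norm_smul, norm_inv, Real.norm_of_nonneg (by positivity : (0 : ℝ) ≤ ‖n‖ ^ 2)]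
  have h1 : ‖(x.fst - (R i).fst) • w + (⟪w, e1⟫ - 4 * Real.pi * ρ x) • n - ⟪w, n⟫ • e1‖ ≤
      (4 * Real.pi * ρ x + 3 * ‖w‖) * ‖n‖ := by
    refine (norm_sub_le _ _).trans ((add_le_add (norm_add_le _ _) le_rfl).trans ?_)
    linarith
  calc (‖n‖ ^ 2)⁻¹ * ‖(x.fst - (R i).fst) • w + (⟪w, e1⟫ - 4 * Real.pi * ρ x) • n -
        ⟪w, n⟫ • e1‖ ≤ (‖n‖ ^ 2)⁻¹ * ((4 * Real.pi * ρ x + 3 * ‖w‖) * ‖n‖) :=
        mul_le_mul_of_nonneg_left h1 (by positivity)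
    _ = (4 * Real.pi * ρ x + 3 * ‖w‖) * ‖n‖⁻¹ := by field_simp

/-- **bounds near a nucleus** -/
theorem Dat.nuc_bounds (D : Dat φ₀ z R ρ H lo hi) (hz : ∀ i, 0 < z i)
    (hR : Function.Injective R) (i : ι) :
    ∃ δ C Q : ℝ, 0 < δ ∧ δ ≤ 1 ∧ 0 ≤ C ∧ ∀ x ∈ ball (R i) δ, x ∉ Col.ax →
      NucB φ₀ z R ρ H i C Q x := by
  obtain ⟨δ1, C1, Q, hδ1, hC1, h1⟩ := D.nuc_hol i
  obtain ⟨δ2, C2, hδ2, hδ21, hC2, h2⟩ := D.rho_near hR i
  obtain ⟨δ3, C3, hδ3, hδ31, hC3, h3⟩ := D.p_near hz hR i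
  have hi0 := D.ax.on_axis i
  have hRi : (R i).fst • e1 = R i := fst_smul_of_ax hi0
  have hpi := Real.pi_pos
  obtain ⟨Z, hZ⟩ : ∃ Z : ℝ, Z = z i := ⟨_, rfl⟩
  have hZ0 : 0 < Z := hZ ▸ hz i
  obtain ⟨M, hM⟩ : ∃ M : ℝ, M = |Q| + C1 := ⟨_, rfl⟩
  have hM0 : 0 ≤ M := by rw [hM]; positivity
  obtain ⟨K, hK⟩ : ∃ K : ℝ, K = 6 * Z + C2 + 3 * C1 := ⟨_, rfl⟩
  have hK0 : 0 ≤ K := by rw [hK]; positivity
  obtain ⟨Kq, hKq⟩ : ∃ K : ℝ, K = 2 * M / Z := ⟨_, rfl⟩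
  have hKq0 : 0 ≤ Kq := by rw [hKq]; positivity
  obtain ⟨Kc, hKc⟩ : ∃ Kc : ℝ, Kc = 2 * C1 / Z + 4 * M * K / Z ^ 2 := ⟨_, rfl⟩
  have hKc0 : 0 ≤ Kc := by rw [hKc]; positivity
  obtain ⟨Ks, hKs⟩ : ∃ K : ℝ, K = 2 * Z * C1 + M * (C2 + 3 * C1) + 3 * (C3 * M + Z * C1) :=
    ⟨_, rfl⟩
  have hKs0 : 0 ≤ Ks := by rw [hKs]; positivity
  obtain ⟨Ky, hKy⟩ : ∃ K : ℝ, K = C3 + 2 * M + M * Kq := ⟨_, rfl⟩
  have hKy0 : 0 ≤ Ky := by rw [hKy]; positivity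
  obtain ⟨Kg, hKg⟩ : ∃ K : ℝ, K = M * Kc + Kq * C1 + 3 * C1 + C2 + 3 * M := ⟨_, rfl⟩
  have hKg0 : 0 ≤ Kg := by rw [hKg]; positivity
  obtain ⟨C, hC⟩ : ∃ C : ℝ, C = C1 + C2 + C3 + M + K + Kq + Kc + Ks + Ky + Kg := ⟨_, rfl⟩
  have hC0 : 0 ≤ C := by rw [hC]; positivity
  have l1 : C1 ≤ C := by linarith
  have l2 : C2 ≤ C := by linarith
  have l3 : C3 ≤ C := by linarith
  have l4 : M ≤ C := by linarith
  have l5 : K ≤ C := by linarith
  have l6 : Kq ≤ C := by linarith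
  have l7 : Kc ≤ C := by linarith
  have l8 : Ks ≤ C := by linarith
  have l9 : Ky ≤ C := by linarith
  have l10 : Kg ≤ C := by linarith
  refine ⟨min δ1 (min δ2 δ3), C, Q, lt_min hδ1 (lt_min hδ2 hδ3),
    (min_le_right _ _).trans ((min_le_left _ _).trans hδ21), hC0, fun x hx hxa => ?_⟩
  have hx1 : x ∈ ball (R i) δ1 := ball_subset_ball (min_le_left _ _) hx
  have hx2 : x ∈ ball (R i) δ2 :=
    ball_subset_ball ((min_le_right _ _).trans (min_le_left _ _)) hx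
  have hx3 : x ∈ ball (R i) δ3 :=
    ball_subset_ball ((min_le_right _ _).trans (min_le_right _ _)) hx
  have hxi : x ≠ R i := D.off hxa i
  have hrl : ‖x - R i‖ ≤ 1 := (mem_ball_iff_norm.mp hx2).le.trans hδ21
  obtain ⟨a1, a2⟩ := h1 x hx1 hxa
  obtain ⟨a3, a4⟩ := h2 x hx2 hxi
  obtain ⟨a5, a6, a7, a8, a9⟩ := h3 x hx3 hxa
  obtain ⟨f1, f2, f3, f4⟩ := D.p'_frame i hxa
  have hr0 : 0 < ‖x - R i‖ := norm_pos_iff.mpr (sub_ne_zero.mpr hxi)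
  have hs0 := ht_pos hxa
  have hsr : ht x ≤ ‖x - R i‖ := ht_le_dist x hi0
  have hp0 := D.ax.pos x hxa
  have hρ0 := D.hρ.nonneg x
  rw [← hZ] at a5 a6 a7 a8 a9
  have hY := fun τ : X → ℝ => Yt_q z R ρ τ (R i).fst x
  have hY' := fun (τ : X → ℝ) (τ' : X → X) => D.Yt'_q τ τ' (R i).fst hxa
  rw [hRi] at hY hY'
  have hp2c := p2c' z R ρ H (R i).fst x
  have hfst : |x.fst - (R i).fst| ≤ ‖x - R i‖ := by
    have e : x.fst - (R i).fst = (x - R i).fst := by simp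
    rw [e, ← inner_e1]
    refine (abs_real_inner_le_norm _ _).trans ?_
    rw [norm_e1, mul_one]
  -- abbreviations
  set n := x - R i with hn
  set r := ‖n‖ with hr
  set s := ht x with hs
  set w := qf' z R ρ H (R i).fst x with hw
  set q := qf z R ρ (R i).fst x with hq
  set p := pf z R ρ x with hp
  set ζ := cf z R ρ x - (R i).fst with hζ
  obtain ⟨u, hu⟩ : ∃ u : ℝ, u = √r := ⟨_, rfl⟩
  obtain ⟨v, hv⟩ : ∃ v : ℝ, v = √s := ⟨_, rfl⟩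
  have hu0 : 0 < u := hu ▸ Real.sqrt_pos.mpr hr0
  have hv0 : 0 < v := hv ▸ Real.sqrt_pos.mpr hs0
  have huu : u * u = r := by rw [hu]; exact Real.mul_self_sqrt hr0.le
  have hvv : v * v = s := by rw [hv]; exact Real.mul_self_sqrt hs0.le
  have hvu : v ≤ u := by rw [hu, hv]; exact Real.sqrt_le_sqrt hsr
  have hu1 : u ≤ 1 := by
    rw [hu, ← Real.sqrt_one]
    exact Real.sqrt_le_sqrt hrl
  rw [← hu] at a1 a3 a4
  rw [← hv] at a2
  have hru : r ≤ u := by rw [← huu]; exact mul_le_of_le_one_right hu0.le hu1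
  -- comparison of powers
  have i_u : 1 ≤ u⁻¹ := (one_le_inv₀ hu0).mpr hu1
  have i_r : 1 ≤ r⁻¹ := (one_le_inv₀ hr0).mpr hrl
  have h34 : (r⁻¹) ^ (3 / 4 : ℝ) ≤ r⁻¹ := by
    calc (r⁻¹) ^ (3 / 4 : ℝ) ≤ (r⁻¹) ^ (1 : ℝ) :=
          Real.rpow_le_rpow_of_exponent_le i_r (by norm_num)
      _ = r⁻¹ := Real.rpow_one _
  have h74 : (r⁻¹) ^ (7 / 4 : ℝ) ≤ (r ^ 2)⁻¹ := by
    calc (r⁻¹) ^ (7 / 4 : ℝ) ≤ (r⁻¹) ^ (2 : ℝ) :=
          Real.rpow_le_rpow_of_exponent_le i_r (by norm_num)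
      _ = (r ^ 2)⁻¹ := by rw [Real.rpow_two, inv_pow]
  have hq_le : |q| ≤ M := by
    have g1 : |q| ≤ |q - Q| + |Q| := by
      have := abs_add_le (q - Q) Q
      rwa [sub_add_cancel] at this
    have g2 : C1 * u ≤ C1 := mul_le_of_le_one_right hC1 hu1
    rw [hM]
    linarith
  -- `∇p`
  have hp' : ‖pf' z R ρ H x‖ ≤ K * ((r ^ 4)⁻¹ + r⁻¹ * v⁻¹) := by
    have g1 : ‖(3 * p * (r ^ 2)⁻¹) • n‖ ≤ 6 * Z * (r ^ 4)⁻¹ := by
      rw [norm_smul, Real.norm_of_nonneg (by positivity)]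
      calc 3 * p * (r ^ 2)⁻¹ * r ≤ 3 * (2 * Z * (r ^ 3)⁻¹) * (r ^ 2)⁻¹ * r := by gcongr
        _ = 6 * Z * (r ^ 4)⁻¹ := by field_simp; ring
    have g2 : (4 * Real.pi * ρ x + 3 * ‖w‖) * r⁻¹ ≤ C2 * (r ^ 4)⁻¹ + 3 * C1 * (r⁻¹ * v⁻¹) := by
      have g3 : 4 * Real.pi * ρ x * r⁻¹ ≤ C2 * (r ^ 4)⁻¹ := by
        calc 4 * Real.pi * ρ x * r⁻¹ ≤ C2 * (r * u)⁻¹ * r⁻¹ := by gcongr
          _ ≤ C2 * (r * r)⁻¹ * (r * r)⁻¹ := by
              have g4 : (r * u)⁻¹ ≤ (r * r)⁻¹ := by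
                apply inv_anti₀ (by positivity)
                exact mul_le_mul_of_nonneg_left hru hr0.le
              have g5 : r⁻¹ ≤ (r * r)⁻¹ := by
                apply inv_anti₀ (by positivity)
                exact mul_le_of_le_one_right hr0.le hrl
              gcongr
          _ = C2 * (r ^ 4)⁻¹ := by
              field_simp
      calc (4 * Real.pi * ρ x + 3 * ‖w‖) * r⁻¹ = 4 * Real.pi * ρ x * r⁻¹ + 3 * ‖w‖ * r⁻¹ := by
            ring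
        _ ≤ C2 * (r ^ 4)⁻¹ + 3 * (C1 * v⁻¹) * r⁻¹ := by gcongr
        _ = C2 * (r ^ 4)⁻¹ + 3 * C1 * (r⁻¹ * v⁻¹) := by ring
    have g6 : ‖pf' z R ρ H x‖ ≤ ‖pf' z R ρ H x + (3 * p * (r ^ 2)⁻¹) • n‖ +
        ‖(3 * p * (r ^ 2)⁻¹) • n‖ := by
      have := norm_sub_le (pf' z R ρ H x + (3 * p * (r ^ 2)⁻¹) • n) ((3 * p * (r ^ 2)⁻¹) • n)
      rwa [add_sub_cancel_right] at this
    have g7 : 0 ≤ 6 * Z * (r⁻¹ * v⁻¹) := by positivity
    have g8 : 0 ≤ C2 * (r⁻¹ * v⁻¹) := by positivity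
    have g9 : 0 ≤ 3 * C1 * (r ^ 4)⁻¹ := by positivity
    rw [hK]
    linarith
  -- `c`
  have hc : |ζ| ≤ Kq * r ^ 3 := by
    have g1 : |ζ| * p = |q| := by
      rw [hq, hζ]
      unfold qf
      rw [abs_mul, abs_of_pos hp0, mul_comm]
    have g2 : |ζ| * (Z / 2 * (r ^ 3)⁻¹) ≤ M := by
      calc |ζ| * (Z / 2 * (r ^ 3)⁻¹) ≤ |ζ| * p := by gcongr
        _ = |q| := g1
        _ ≤ M := hq_le
    calc |ζ| = |ζ| * (Z / 2 * (r ^ 3)⁻¹) * (2 / Z * r ^ 3) := by field_simp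
      _ ≤ M * (2 / Z * r ^ 3) := by gcongr
      _ = Kq * r ^ 3 := by rw [hKq]; ring
  -- `∇c`
  have hc' : ‖cf' z R ρ H x‖ ≤ Kc * (r ^ 2 + r ^ 3 * v⁻¹) := by
    have g1 : p ^ 2 * ‖cf' z R ρ H x‖ ≤ p * (C1 * v⁻¹) + M * (K * ((r ^ 4)⁻¹ + r⁻¹ * v⁻¹)) := by
      calc p ^ 2 * ‖cf' z R ρ H x‖ = ‖p ^ 2 • cf' z R ρ H x‖ := by
            rw [norm_smul, Real.norm_of_nonneg (by positivity)]
        _ ≤ ‖p • w‖ + ‖q • pf' z R ρ H x‖ := by
            rw [hp2c]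
            exact norm_sub_le _ _
        _ ≤ p * (C1 * v⁻¹) + M * (K * ((r ^ 4)⁻¹ + r⁻¹ * v⁻¹)) := by
            rw [norm_smul, norm_smul, Real.norm_of_nonneg hp0.le, Real.norm_eq_abs]
            gcongr
    have hpi1 : p⁻¹ ≤ 2 / Z * r ^ 3 := by
      calc p⁻¹ ≤ (Z / 2 * (r ^ 3)⁻¹)⁻¹ := inv_anti₀ (by positivity) a6
        _ = 2 / Z * r ^ 3 := by field_simp
    have g2 : ‖cf' z R ρ H x‖ ≤ p⁻¹ * (C1 * v⁻¹) +
        p⁻¹ ^ 2 * (M * (K * ((r ^ 4)⁻¹ + r⁻¹ * v⁻¹))) := by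
      have g3 := mul_le_mul_of_nonneg_left g1 (show 0 ≤ p⁻¹ ^ 2 by positivity)
      have g4 : p⁻¹ ^ 2 * (p ^ 2 * ‖cf' z R ρ H x‖) = ‖cf' z R ρ H x‖ := by field_simp
      have g5 : p⁻¹ ^ 2 * (p * (C1 * v⁻¹) + M * (K * ((r ^ 4)⁻¹ + r⁻¹ * v⁻¹))) =
          p⁻¹ * (C1 * v⁻¹) + p⁻¹ ^ 2 * (M * (K * ((r ^ 4)⁻¹ + r⁻¹ * v⁻¹))) := by field_simp
      rw [g4, g5] at g3
      exact g3
    have g6 : p⁻¹ * (C1 * v⁻¹) ≤ 2 / Z * r ^ 3 * (C1 * v⁻¹) := by gcongr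
    have g7 : p⁻¹ ^ 2 * (M * (K * ((r ^ 4)⁻¹ + r⁻¹ * v⁻¹))) ≤
        (2 / Z * r ^ 3) ^ 2 * (M * (K * ((r ^ 4)⁻¹ + r⁻¹ * v⁻¹))) := by
      have : 0 < p⁻¹ := inv_pos.mpr hp0
      gcongr
    have g8 : (2 / Z * r ^ 3) ^ 2 * (M * (K * ((r ^ 4)⁻¹ + r⁻¹ * v⁻¹))) =
        4 * M * K / Z ^ 2 * (r ^ 2 + r ^ 5 * v⁻¹) := by
      field_simp
      ring
    have g9 : r ^ 5 * v⁻¹ ≤ r ^ 3 * v⁻¹ := by
      have : r ^ 5 ≤ r ^ 3 := pow_le_pow_of_le_one hr0.le hrl (by norm_num)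
      gcongr
    have g10 : 4 * M * K / Z ^ 2 * (r ^ 2 + r ^ 5 * v⁻¹) ≤
        4 * M * K / Z ^ 2 * (r ^ 2 + r ^ 3 * v⁻¹) := by gcongr
    have g11 : 2 / Z * r ^ 3 * (C1 * v⁻¹) ≤ 2 * C1 / Z * (r ^ 2 + r ^ 3 * v⁻¹) := by
      have : 2 / Z * r ^ 3 * (C1 * v⁻¹) = 2 * C1 / Z * (r ^ 3 * v⁻¹) := by ring
      rw [this]
      have : 0 ≤ r ^ 2 := by positivity
      gcongr
      linarith
    rw [hKc, add_mul]
    linarith
  have hrho_r : 4 * Real.pi * ρ x * r ≤ C2 * u⁻¹ := by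
    calc 4 * Real.pi * ρ x * r ≤ C2 * (r * u)⁻¹ * r := by gcongr
      _ = C2 * u⁻¹ := by field_simp
  refine ⟨hr0, hsr, ?_, ?_, ?_, ?_, hq_le.trans l4, ?_, hρ0, ?_, ?_, f1, ?_, ?_, ?_, ?_, ?_,
    ?_, ?_, ?_⟩
  · rw [← hZ]
    exact a5.trans (mul_le_mul_of_nonneg_right l3 (by positivity))
  · rw [← hZ]; exact a6
  · rw [← hZ]; exact a7
  · rw [← hu]
    exact a1.trans (mul_le_mul_of_nonneg_right l1 hu0.le)
  · rw [← hv]
    exact a2.trans (mul_le_mul_of_nonneg_right l1 (by positivity))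
  · rw [← hu]
    exact a3.trans (mul_le_mul_of_nonneg_right l2 (by positivity))
  · rw [← hu]
    exact a4.trans (mul_le_mul_of_nonneg_right l2 (by positivity))
  · rw [← hv]
    exact hp'.trans (mul_le_mul_of_nonneg_right l5 (by positivity))
  · exact hc.trans (mul_le_mul_of_nonneg_right l6 (by positivity))
  · rw [← hv]
    exact hc'.trans (mul_le_mul_of_nonneg_right l7 (by positivity))
  · -- the current
    rw [← hu, ← hZ]
    refine le_trans ?_ (mul_le_mul_of_nonneg_right l8 (by positivity))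
    have e : (s ^ 2 * p ^ 2) • cf' z R ρ H x - (3 * Z * Q * s ^ 2 * (r ^ 5)⁻¹) • n =
        (s ^ 2 * p) • w - (s ^ 2 * q) • (pf' z R ρ H x + (3 * p * (r ^ 2)⁻¹) • n) +
        (3 * s ^ 2 * (r ^ 2)⁻¹ * (p * q - Z * Q * (r ^ 3)⁻¹)) • n := by
      rw [mul_smul, hp2c]
      have e2 : 3 * Z * Q * s ^ 2 * (r ^ 5)⁻¹ = 3 * s ^ 2 * (r ^ 2)⁻¹ * (Z * Q * (r ^ 3)⁻¹) := by
        field_simp
      rw [e2]
      module
    rw [e]
    have hsr2 : s ^ 2 ≤ r ^ 2 := by gcongr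
    have g1 : ‖(s ^ 2 * p) • w‖ ≤ 2 * Z * C1 * (r * u)⁻¹ := by
      rw [norm_smul, Real.norm_of_nonneg (by positivity)]
      calc s ^ 2 * p * ‖w‖ ≤ s ^ 2 * (2 * Z * (r ^ 3)⁻¹) * (C1 * v⁻¹) := by gcongr
        _ = 2 * Z * C1 * (r ^ 3)⁻¹ * (s * v) := by
            rw [← hvv]
            field_simp
        _ ≤ 2 * Z * C1 * (r ^ 3)⁻¹ * (r * u) := by gcongr
        _ = 2 * Z * C1 * (r * u)⁻¹ := by
            rw [← huu]
            field_simp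
    have g2 : ‖(s ^ 2 * q) • (pf' z R ρ H x + (3 * p * (r ^ 2)⁻¹) • n)‖ ≤
        M * (C2 + 3 * C1) * (r * u)⁻¹ := by
      rw [norm_smul, Real.norm_eq_abs, abs_mul, abs_of_nonneg (by positivity : (0 : ℝ) ≤ s ^ 2)]
      have g3 : s ^ 2 * ((4 * Real.pi * ρ x + 3 * ‖w‖) * r⁻¹) ≤ (C2 + 3 * C1) * (r * u)⁻¹ := by
        have g4 : s ^ 2 * (4 * Real.pi * ρ x) * r⁻¹ ≤ C2 * (r * u)⁻¹ := by
          calc s ^ 2 * (4 * Real.pi * ρ x) * r⁻¹ ≤ r ^ 2 * (C2 * (r * u)⁻¹) * r⁻¹ := by gcongr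
            _ = r * (C2 * (r * u)⁻¹) := by field_simp
            _ ≤ 1 * (C2 * (r * u)⁻¹) := by gcongr
            _ = C2 * (r * u)⁻¹ := one_mul _
        have g5 : s ^ 2 * (3 * ‖w‖) * r⁻¹ ≤ 3 * C1 * (r * u)⁻¹ := by
          calc s ^ 2 * (3 * ‖w‖) * r⁻¹ ≤ s ^ 2 * (3 * (C1 * v⁻¹)) * r⁻¹ := by gcongr
            _ = 3 * C1 * (s * v) * r⁻¹ := by
                rw [← hvv]
                field_simp
            _ ≤ 3 * C1 * (1 * 1) * r⁻¹ := by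
                have : s ≤ 1 := hsr.trans hrl
                have : v ≤ 1 := hvu.trans hu1
                gcongr
            _ ≤ 3 * C1 * (1 * 1) * (r * u)⁻¹ := by
                have : r⁻¹ ≤ (r * u)⁻¹ := by
                  apply inv_anti₀ (by positivity)
                  exact mul_le_of_le_one_right hr0.le hu1
                gcongr
            _ = 3 * C1 * (r * u)⁻¹ := by ring
        calc s ^ 2 * ((4 * Real.pi * ρ x + 3 * ‖w‖) * r⁻¹) =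
            s ^ 2 * (4 * Real.pi * ρ x) * r⁻¹ + s ^ 2 * (3 * ‖w‖) * r⁻¹ := by ring
          _ ≤ C2 * (r * u)⁻¹ + 3 * C1 * (r * u)⁻¹ := add_le_add g4 g5
          _ = (C2 + 3 * C1) * (r * u)⁻¹ := by ring
      calc s ^ 2 * |q| * ‖pf' z R ρ H x + (3 * p * (r ^ 2)⁻¹) • n‖ ≤
          s ^ 2 * M * ((4 * Real.pi * ρ x + 3 * ‖w‖) * r⁻¹) := by gcongr
        _ = M * (s ^ 2 * ((4 * Real.pi * ρ x + 3 * ‖w‖) * r⁻¹)) := by ring
        _ ≤ M * ((C2 + 3 * C1) * (r * u)⁻¹) := by gcongr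
        _ = M * (C2 + 3 * C1) * (r * u)⁻¹ := by ring
    have g6 : ‖(3 * s ^ 2 * (r ^ 2)⁻¹ * (p * q - Z * Q * (r ^ 3)⁻¹)) • n‖ ≤
        3 * (C3 * M + Z * C1) * (r * u)⁻¹ := by
      rw [norm_smul, Real.norm_eq_abs, abs_mul,
        abs_of_nonneg (by positivity : (0 : ℝ) ≤ 3 * s ^ 2 * (r ^ 2)⁻¹)]
      have g7 : |p * q - Z * Q * (r ^ 3)⁻¹| ≤ C3 * (r ^ 2)⁻¹ * M + Z * (r ^ 3)⁻¹ * (C1 * u) := by
        have e3 : p * q - Z * Q * (r ^ 3)⁻¹ = (p - Z * (r ^ 3)⁻¹) * q +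
            Z * (r ^ 3)⁻¹ * (q - Q) := by ring
        rw [e3]
        refine (abs_add_le _ _).trans (add_le_add ?_ ?_)
        · rw [abs_mul]
          have : |p - Z * (r ^ 3)⁻¹| ≤ C3 * (r ^ 2)⁻¹ := by
            refine a5.trans ?_
            gcongr
          gcongr
        · rw [abs_mul, abs_of_nonneg (by positivity : (0 : ℝ) ≤ Z * (r ^ 3)⁻¹)]
          gcongr
      calc 3 * s ^ 2 * (r ^ 2)⁻¹ * |p * q - Z * Q * (r ^ 3)⁻¹| * r ≤
          3 * r ^ 2 * (r ^ 2)⁻¹ * (C3 * (r ^ 2)⁻¹ * M + Z * (r ^ 3)⁻¹ * (C1 * u)) * r := by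
            gcongr
        _ = 3 * C3 * M * r⁻¹ + 3 * (Z * C1) * (r * u)⁻¹ := by
            rw [← huu]
            field_simp
        _ ≤ 3 * C3 * M * (r * u)⁻¹ + 3 * (Z * C1) * (r * u)⁻¹ := by
            have : r⁻¹ ≤ (r * u)⁻¹ := by
              apply inv_anti₀ (by positivity)
              exact mul_le_of_le_one_right hr0.le hu1
            gcongr
        _ = 3 * (C3 * M + Z * C1) * (r * u)⁻¹ := by ring
    refine (norm_add_le _ _).trans ((add_le_add (norm_sub_le _ _) le_rfl).trans ?_)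
    rw [hKs]
    linarith
  · rw [← hZ]
    exact a8.trans (mul_le_mul_of_nonneg_right l3 (by positivity))
  · rw [← hZ]
    exact a9.trans l3
  · -- the trial
    intro τ
    rw [← hZ]
    refine le_trans ?_ (mul_le_mul_of_nonneg_right l9 (by positivity))
    have e : Yt z R ρ τ x - Z * r⁻¹ - p * τ x = (p - Z * (r ^ 3)⁻¹) * r ^ 2 +
        (-(2 * (x.fst - (R i).fst) * q) + q * ζ) := by
      rw [hY τ]
      field_simp
      ring
    rw [e]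
    have hr14 : r ≤ r ^ (1 / 4 : ℝ) := by
      calc r = r ^ (1 : ℝ) := (Real.rpow_one _).symm
        _ ≤ r ^ (1 / 4 : ℝ) := Real.rpow_le_rpow_of_exponent_ge hr0 hrl (by norm_num)
    have g1 : |(p - Z * (r ^ 3)⁻¹) * r ^ 2| ≤ C3 * r ^ (1 / 4 : ℝ) := by
      rw [abs_mul, abs_of_nonneg (by positivity : (0 : ℝ) ≤ r ^ 2)]
      calc |p - Z * (r ^ 3)⁻¹| * r ^ 2 ≤ C3 * (r⁻¹) ^ (7 / 4 : ℝ) * r ^ 2 := by gcongr
        _ = C3 * r ^ (1 / 4 : ℝ) := by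
            rw [mul_assoc, Real.inv_rpow hr0.le, ← Real.rpow_neg hr0.le, ← Real.rpow_natCast r 2,
              ← Real.rpow_add hr0]
            norm_num
    have g2 : |2 * (x.fst - (R i).fst) * q| ≤ 2 * M * r ^ (1 / 4 : ℝ) := by
      rw [abs_mul, abs_mul, abs_of_pos (by norm_num : (0 : ℝ) < 2)]
      calc 2 * |x.fst - (R i).fst| * |q| ≤ 2 * r * M := by gcongr
        _ ≤ 2 * r ^ (1 / 4 : ℝ) * M := by gcongr
        _ = 2 * M * r ^ (1 / 4 : ℝ) := by ring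
    have g3 : |q * ζ| ≤ M * Kq * r ^ (1 / 4 : ℝ) := by
      rw [abs_mul]
      have g4 : r ^ 3 ≤ r := by
        calc r ^ 3 ≤ r ^ 1 := pow_le_pow_of_le_one hr0.le hrl (by norm_num)
          _ = r := pow_one r
      calc |q| * |ζ| ≤ M * (Kq * r ^ 3) := by gcongr
        _ ≤ M * (Kq * r ^ (1 / 4 : ℝ)) := by
            have := g4.trans hr14
            gcongr
        _ = M * Kq * r ^ (1 / 4 : ℝ) := by ring
    have g5 := abs_add_le ((p - Z * (r ^ 3)⁻¹) * r ^ 2) (-(2 * (x.fst - (R i).fst) * q) + q * ζ)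
    have g6 := abs_add_le (-(2 * (x.fst - (R i).fst) * q)) (q * ζ)
    rw [abs_neg] at g6
    rw [hKy]
    linarith
  · -- the gradient of the trial
    intro τ τ'
    rw [← hu, ← hv]
    refine le_trans ?_ (mul_le_mul_of_nonneg_right l10 (by positivity))
    have e : Yt' z R ρ H τ τ' x - psi' z R ρ x - (p • τ' x + τ x • pf' z R ρ H x) =
        q • cf' z R ρ H x + ζ • w - (x.fst - (R i).fst) • w +
        (⟪w, e1⟫ - 4 * Real.pi * ρ x) • n - ⟪w, n⟫ • e1 - (3 * q) • e1 := by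
      rw [hY' τ τ']
      abel
    rw [e]
    have hrr : r ≤ 1 := hrl
    have b1 : ‖q • cf' z R ρ H x‖ ≤ M * Kc * (u⁻¹ + r * v⁻¹) := by
      rw [norm_smul, Real.norm_eq_abs]
      have g1 : r ^ 2 ≤ u⁻¹ := by
        calc r ^ 2 ≤ 1 := pow_le_one₀ hr0.le hrl
          _ ≤ u⁻¹ := i_u
      have g2 : r ^ 3 * v⁻¹ ≤ r * v⁻¹ := by
        have g4 : r ^ 3 ≤ r := by
          calc r ^ 3 ≤ r ^ 1 := pow_le_pow_of_le_one hr0.le hrl (by norm_num)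
            _ = r := pow_one r
        gcongr
      calc |q| * ‖cf' z R ρ H x‖ ≤ M * (Kc * (r ^ 2 + r ^ 3 * v⁻¹)) := by gcongr
        _ ≤ M * (Kc * (u⁻¹ + r * v⁻¹)) := by gcongr
        _ = M * Kc * (u⁻¹ + r * v⁻¹) := by ring
    have b2 : ‖ζ • w‖ ≤ Kq * C1 * (r * v⁻¹) := by
      rw [norm_smul, Real.norm_eq_abs]
      have g4 : r ^ 3 ≤ r := by
        calc r ^ 3 ≤ r ^ 1 := pow_le_pow_of_le_one hr0.le hrl (by norm_num)
          _ = r := pow_one r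
      calc |ζ| * ‖w‖ ≤ (Kq * r ^ 3) * (C1 * v⁻¹) := by gcongr
        _ ≤ (Kq * r) * (C1 * v⁻¹) := by gcongr
        _ = Kq * C1 * (r * v⁻¹) := by ring
    have hrw : r * ‖w‖ ≤ C1 * (r * v⁻¹) := by
      calc r * ‖w‖ ≤ r * (C1 * v⁻¹) := by gcongr
        _ = C1 * (r * v⁻¹) := by ring
    have b5 : ‖(3 * q) • e1‖ ≤ 3 * M * u⁻¹ := by
      rw [norm_smul, norm_e1, mul_one, Real.norm_eq_abs, abs_mul,
        abs_of_pos (by norm_num : (0 : ℝ) < 3)]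
      calc 3 * |q| ≤ 3 * M := by gcongr
        _ ≤ 3 * M * u⁻¹ := le_mul_of_one_le_right (by positivity) i_u
    have n1 := norm_sub_le (q • cf' z R ρ H x + ζ • w - (x.fst - (R i).fst) • w +
        (⟪w, e1⟫ - 4 * Real.pi * ρ x) • n - ⟪w, n⟫ • e1) ((3 * q) • e1)
    have n2 := norm_sub_le (q • cf' z R ρ H x + ζ • w - (x.fst - (R i).fst) • w +
        (⟪w, e1⟫ - 4 * Real.pi * ρ x) • n) (⟪w, n⟫ • e1)
    have n3 := norm_add_le (q • cf' z R ρ H x + ζ • w - (x.fst - (R i).fst) • w)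
        ((⟪w, e1⟫ - 4 * Real.pi * ρ x) • n)
    have n4 := norm_sub_le (q • cf' z R ρ H x + ζ • w) ((x.fst - (R i).fst) • w)
    have n5 := norm_add_le (q • cf' z R ρ H x) (ζ • w)
    have o1 : 0 ≤ Kq * C1 * u⁻¹ := by positivity
    have o2 : 0 ≤ 3 * C1 * u⁻¹ := by positivity
    have o3 : 0 ≤ C2 * (r * v⁻¹) := by positivity
    have o4 : 0 ≤ 3 * M * (r * v⁻¹) := by positivity
    rw [hKg]
    linarith

theorem NucB.mono {i : ι} {C C' Q : ℝ} {x : X} (h : NucB φ₀ z R ρ H i C Q x) (hC : C ≤ C') :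
    NucB φ₀ z R ρ H i C' Q x := by
  have hr := h.r_pos
  refine ⟨h.r_pos, h.ht_le, h.p.trans ?_, h.p_lo, h.p_hi, h.q.trans ?_, h.q_le.trans hC,
    h.q'.trans ?_, h.rho0, h.rho.trans ?_, h.gam.trans ?_, h.p', h.p'_le.trans ?_, h.c.trans ?_,
    h.c'.trans ?_, h.s2c'.trans ?_, h.P.trans ?_, h.gV.trans hC, fun τ => (h.Y τ).trans ?_,
    fun τ τ' => (h.Y' τ τ').trans ?_⟩ <;>
  exact mul_le_mul_of_nonneg_right hC (by have := ht_nonneg x; positivity)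

/-- `q` has a limit at the nucleus -/
theorem qf_tendsto {i : ι} {δ C Q : ℝ} (hδ : 0 < δ)
    (h : ∀ x ∈ ball (R i) δ, x ∉ Col.ax → NucB φ₀ z R ρ H i C Q x) :
    Tendsto (qf z R ρ (R i).fst) (𝓝[Col.axᶜ] R i) (𝓝 Q) := by
  rw [tendsto_iff_norm_sub_tendsto_zero]
  have h1 : Tendsto (fun x : X => C * √‖x - R i‖) (𝓝[Col.axᶜ] R i) (𝓝 0) := by
    have h2 : Continuous fun x : X => C * √‖x - R i‖ := by fun_prop
    have h3 := (h2.tendsto (R i)).mono_left (nhdsWithin_le_nhds (s := Col.axᶜ))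
    simpa using h3
  refine squeeze_zero' (Eventually.of_forall fun x => norm_nonneg _) ?_ h1
  filter_upwards [mem_nhdsWithin_of_mem_nhds (ball_mem_nhds (R i) hδ), self_mem_nhdsWithin]
    with x hx hxa
  rw [Real.norm_eq_abs]
  exact (h x hx hxa).q

/-- `f = p (c - a)(b - c)` in the frame of one of the two points -/
theorem ff_a (z : ι → ℝ) (R : ι → X) (ρ : X → ℝ) (a b : ℝ) (x : X) :
    ff z R ρ a b x = qf z R ρ a x * (b - a) - qf z R ρ a x * (cf z R ρ x - a) := by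
  unfold ff tq qf
  ring

theorem ff_b (z : ι → ℝ) (R : ι → X) (ρ : X → ℝ) (a b : ℝ) (x : X) :
    ff z R ρ a b x = -(qf z R ρ b x * (b - a)) - qf z R ρ b x * (cf z R ρ x - b) := by
  unfold ff tq qf
  ring

theorem ff'_a (z : ι → ℝ) (R : ι → X) (ρ : X → ℝ) (H : X → X →L[ℝ] X) (a b : ℝ) (x : X) :
    ff' z R ρ H a b x = (b - a) • qf' z R ρ H a x - (cf z R ρ x - a) • qf' z R ρ H a x -
      qf z R ρ a x • cf' z R ρ H x := by
  unfold ff' tq' tq qf' qf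
  module

theorem ff'_b (z : ι → ℝ) (R : ι → X) (ρ : X → ℝ) (H : X → X →L[ℝ] X) (a b : ℝ) (x : X) :
    ff' z R ρ H a b x = -((b - a) • qf' z R ρ H b x) - (cf z R ρ x - b) • qf' z R ρ H b x -
      qf z R ρ b x • cf' z R ρ H x := by
  unfold ff' tq' tq qf' qf
  module

/-- bounds for two nuclei at the point `x` near the nucleus `i`; `L` is the limit of `f` -/
structure NucT (φ₀ : ℝ) (z : ι → ℝ) (R : ι → X) (ρ : X → ℝ) (H : X → X →L[ℝ] X) (i : ι)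
    (a b C Q L : ℝ) (x : X) : Prop extends NucB φ₀ z R ρ H i C Q x where
  f : |ff z R ρ a b x - L| ≤ C * √‖x - R i‖
  f' : ‖ff' z R ρ H a b x‖ ≤ C * (√(ht x))⁻¹
  YY : |YY z R ρ a b x - z i * ‖x - R i‖⁻¹ - L| ≤ C * ‖x - R i‖ ^ (1 / 4 : ℝ)
  YY' : ‖YY' z R ρ H a b x - psi' z R ρ x‖ ≤ C * ((√‖x - R i‖)⁻¹ + (√(ht x))⁻¹)

/-- **bounds near one of two nuclei** -/
theorem Dat.nuc_two (D : Dat φ₀ z R ρ H lo hi) (hz : ∀ i, 0 < z i)
    (hR : Function.Injective R) (i : ι) (a b : ℝ) :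
    ∃ δ C Q : ℝ, 0 < δ ∧ δ ≤ 1 ∧ 0 ≤ C ∧ ∀ x ∈ ball (R i) δ, x ∉ Col.ax →
      ((R i).fst = a → NucT φ₀ z R ρ H i a b C Q (Q * (b - a)) x) ∧
      ((R i).fst = b → NucT φ₀ z R ρ H i a b C Q (-(Q * (b - a))) x) := by
  obtain ⟨δ, C, Q, hδ, hδ1, hC, h⟩ := D.nuc_bounds hz hR i
  obtain ⟨d, hd⟩ : ∃ d : ℝ, d = |b - a| := ⟨_, rfl⟩
  have hd0 : 0 ≤ d := hd ▸ abs_nonneg _
  obtain ⟨K, hK⟩ : ∃ K : ℝ, K = 2 * C + C * d + 3 * C ^ 2 := ⟨_, rfl⟩
  have hK0 : 0 ≤ K := by rw [hK]; positivity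
  have hCK : C ≤ K := by rw [hK]; nlinarith [mul_nonneg hC hd0, sq_nonneg C]
  refine ⟨δ, K, Q, hδ, hδ1, hK0, fun x hx hxa => ?_⟩
  have hb := h x hx hxa
  have hr0 := hb.r_pos
  have hs0 := ht_pos hxa
  have hsr := hb.ht_le
  have hrl : ‖x - R i‖ ≤ 1 := (mem_ball_iff_norm.mp hx).le.trans hδ1
  have hq := hb.q
  have hql := hb.q_le
  have hq' := hb.q'
  have hc := hb.c
  have hc' := hb.c'
  have hYb := hb.Y (tq z R ρ a b)
  have hYb' := hb.Y' (tq z R ρ a b) (tq' z R ρ H a b)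
  set r := ‖x - R i‖ with hr
  set s := ht x with hs
  set t := (R i).fst with ht0
  obtain ⟨u, hu⟩ : ∃ u : ℝ, u = √r := ⟨_, rfl⟩
  obtain ⟨v, hv⟩ : ∃ v : ℝ, v = √s := ⟨_, rfl⟩
  have hu0 : 0 < u := hu ▸ Real.sqrt_pos.mpr hr0
  have hv0 : 0 < v := hv ▸ Real.sqrt_pos.mpr hs0
  have hvu : v ≤ u := by rw [hu, hv]; exact Real.sqrt_le_sqrt hsr
  have huu : u * u = r := by rw [hu]; exact Real.mul_self_sqrt hr0.le
  have hu1 : u ≤ 1 := by
    rw [hu, ← Real.sqrt_one]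
    exact Real.sqrt_le_sqrt hrl
  rw [← hu] at hq hYb'
  rw [← hv] at hq' hc' hYb'
  have i_v : 1 ≤ v⁻¹ := (one_le_inv₀ hv0).mpr (hvu.trans hu1)
  have hru : r ≤ u := by rw [← huu]; exact mul_le_of_le_one_right hu0.le hu1
  have hr3 : r ^ 3 ≤ 1 := pow_le_one₀ hr0.le hrl
  have hr2 : r ^ 2 ≤ 1 := pow_le_one₀ hr0.le hrl
  have hr3r : r ^ 3 ≤ r := by
    calc r ^ 3 ≤ r ^ 1 := pow_le_pow_of_le_one hr0.le hrl (by norm_num)
      _ = r := pow_one r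
  have hqc : |qf z R ρ t x * (cf z R ρ x - t)| ≤ C ^ 2 * u := by
    rw [abs_mul]
    calc |qf z R ρ t x| * |cf z R ρ x - t| ≤ C * (C * r ^ 3) := by gcongr
      _ ≤ C * (C * u) := by
          have := hr3r.trans hru
          gcongr
      _ = C ^ 2 * u := by ring
  have hqd : |(qf z R ρ t x - Q) * (b - a)| ≤ C * d * u := by
    rw [abs_mul, ← hd]
    calc |qf z R ρ t x - Q| * d ≤ C * u * d := by gcongr
      _ = C * d * u := by ring
  have n1 : ‖(b - a) • qf' z R ρ H t x‖ ≤ C * d * v⁻¹ := by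
    rw [norm_smul, Real.norm_eq_abs, ← hd]
    calc d * ‖qf' z R ρ H t x‖ ≤ d * (C * v⁻¹) := by gcongr
      _ = C * d * v⁻¹ := by ring
  have n2 : ‖(cf z R ρ x - t) • qf' z R ρ H t x‖ ≤ C ^ 2 * v⁻¹ := by
    rw [norm_smul, Real.norm_eq_abs]
    calc |cf z R ρ x - t| * ‖qf' z R ρ H t x‖ ≤ (C * r ^ 3) * (C * v⁻¹) := by gcongr
      _ ≤ (C * 1) * (C * v⁻¹) := by gcongr
      _ = C ^ 2 * v⁻¹ := by ring
  have n3 : ‖qf z R ρ t x • cf' z R ρ H x‖ ≤ 2 * C ^ 2 * v⁻¹ := by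
    rw [norm_smul, Real.norm_eq_abs]
    calc |qf z R ρ t x| * ‖cf' z R ρ H x‖ ≤ C * (C * (r ^ 2 + r ^ 3 * v⁻¹)) := by gcongr
      _ ≤ C * (C * (v⁻¹ + 1 * v⁻¹)) := by
          have := hr2.trans i_v
          gcongr
      _ = 2 * C ^ 2 * v⁻¹ := by ring
  have n4 : C * d * v⁻¹ + C ^ 2 * v⁻¹ + 2 * C ^ 2 * v⁻¹ ≤ (C * d + 3 * C ^ 2) * v⁻¹ := by
    linarith
  have n5 : 0 ≤ 2 * C * v⁻¹ := by positivity
  have n6 : 0 ≤ 2 * C ^ 2 * u := by positivity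
  have n7 : 0 ≤ 2 * C * u := by positivity
  have hu14 : u ≤ r ^ (1 / 4 : ℝ) := by
    rw [hu, Real.sqrt_eq_rpow]
    exact Real.rpow_le_rpow_of_exponent_ge hr0 hrl (by norm_num)
  -- the common conclusion
  have key : ∀ L : ℝ, |ff z R ρ a b x - L| ≤ (C * d + C ^ 2) * u →
      ‖ff' z R ρ H a b x‖ ≤ (C * d + 3 * C ^ 2) * v⁻¹ →
      NucT φ₀ z R ρ H i a b K Q L x := by
    intro L g1 g2
    refine ⟨hb.mono hCK, ?_, ?_, ?_, ?_⟩
    · rw [← hr, ← hu]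
      refine g1.trans ?_
      rw [hK]
      linarith
    · rw [← hs, ← hv]
      refine g2.trans ?_
      rw [hK]
      linarith
    · rw [← hr]
      have e : Col.YY z R ρ a b x - z i * r⁻¹ - L =
          (Yt z R ρ (tq z R ρ a b) x - z i * r⁻¹ - pf z R ρ x * tq z R ρ a b x) +
          (ff z R ρ a b x - L) := by
        unfold Col.YY ff
        ring
      rw [e]
      refine (abs_add_le _ _).trans ((add_le_add hYb g1).trans ?_)
      have g3 : (C * d + C ^ 2) * u ≤ (C * d + C ^ 2) * r ^ (1 / 4 : ℝ) := by gcongr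
      have g4 : 0 ≤ (C + 2 * C ^ 2) * r ^ (1 / 4 : ℝ) := by positivity
      rw [hK]
      linarith
    · rw [← hr, ← hs, ← hu, ← hv]
      have e : Col.YY' z R ρ H a b x - psi' z R ρ x =
          (Yt' z R ρ H (tq z R ρ a b) (tq' z R ρ H a b) x - psi' z R ρ x -
          (pf z R ρ x • tq' z R ρ H a b x + tq z R ρ a b x • pf' z R ρ H x)) +
          ff' z R ρ H a b x := by
        unfold Col.YY' ff'
        abel
      rw [e]
      refine (norm_add_le _ _).trans ((add_le_add hYb' g2).trans ?_)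
      have g3 : C * (u⁻¹ + r * v⁻¹) ≤ C * (u⁻¹ + 1 * v⁻¹) := by gcongr
      have g4 : 0 ≤ (C + C * d + 3 * C ^ 2) * u⁻¹ := by positivity
      have g5 : 0 ≤ C * v⁻¹ := by positivity
      rw [hK]
      linarith
  constructor
  · intro hta
    rw [← hta]
    rw [← hta] at key hqd n1
    refine key _ ?_ ?_
    · have e : ff z R ρ t b x - Q * (b - t) = (qf z R ρ t x - Q) * (b - t) -
          qf z R ρ t x * (cf z R ρ x - t) := by
        rw [ff_a]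
        ring
      rw [e]
      refine (abs_sub _ _).trans ((add_le_add hqd hqc).trans ?_)
      linarith
    · rw [ff'_a]
      refine (norm_sub_le _ _).trans ((add_le_add ((norm_sub_le _ _).trans
        (add_le_add n1 n2)) n3).trans n4)
  · intro htb
    rw [← htb]
    rw [← htb] at key hqd n1
    refine key _ ?_ ?_
    · have e : ff z R ρ a t x - -(Q * (t - a)) = -((qf z R ρ t x - Q) * (t - a)) -
          qf z R ρ t x * (cf z R ρ x - t) := by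
        rw [ff_b]
        ring
      rw [e]
      refine (abs_sub _ _).trans ?_
      rw [abs_neg]
      refine (add_le_add hqd hqc).trans ?_
      linarith
    · rw [ff'_b]
      refine (norm_sub_le _ _).trans ((add_le_add ((norm_sub_le _ _).trans
        (add_le_add ?_ n2)) n3).trans n4)
      rw [norm_neg]
      exact n1

end Pool.Agent.TF.Col
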