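import Pool.Agent.Lib.MP_9cf0c9_mp.Rellich

/-! Two groups of nuclei separated by a plane repel each other. -/

set_option linter.unusedSectionVars false
set_option linter.unusedVariables false
set_option linter.style.haveILetI false

namespace Pool.Agent.TF
open MeasureTheory Set Metric Filter Topology
open scoped ENNReal NNReal RealInnerProductSpace

theorem grad_congr_ae {f g : X → ℝ} (h : f =ᵐ[volume] g) (e : X) : grad e f = grad e g := by
  funext x
  unfold grad
  refine integral_congr_ae ?_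
  filter_upwards [h] with y hy
  rw [hy]

theorem plane_null (c : ℝ) : ∀ᵐ x : X, x.fst ≠ c := by
  rw [ae_iff]
  simp only [not_not]
  have hms : MeasurableSet {x : X | x.fst = c} :=
    fst_continuous.measurable (measurableSet_singleton c)
  have h1 : volume {x : X | x.fst = c} =
      (volume : Measure (ℝ × E2)) ((fun p : ℝ × E2 => mk p.1 p.2) ⁻¹' {x : X | x.fst = c}) :=
    (mk_measurePreserving.measure_preimage hms.nullMeasurableSet).symm
  have h2 : (fun p : ℝ × E2 => mk p.1 p.2) ⁻¹' {x : X | x.fst = c} = ({c} : Set ℝ) ×ˢ univ := by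
    ext p
    simp [mk_fst]
  rw [h1, h2, Measure.volume_eq_prod, Measure.prod_prod]
  simp

theorem Fo_th_symm {f g : X → ℝ} (hf : BC f) (hg : BC g) :
    Fo e1 f (fun x => g (th x)) = Fo e1 g (fun x => f (th x)) := by
  have h := Fo_comp_isom th e1 (fun x => f (th x)) g
  simp only [th_th] at h
  rw [h, th_e1, Fo_neg_dir, Fo_antisymm (hf.comp_isom th) hg]
  ring

/-- The force on the nuclei to the right of the plane `x₁ = 0` is nonnegative. -/
theorem force_nonpos {mA mB ρ : X → ℝ} (hA : BC mA) (hB : BC mB) (hρ : BC ρ)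
    (hA0 : ∀ x, 0 ≤ mA x) (hB0 : ∀ x, 0 ≤ mB x)
    (hAs : ∀ x, ¬ 0 < x.fst → mA x = 0) (hBs : ∀ x, ¬ x.fst < 0 → mB x = 0)
    {φ₀ : ℝ} (hφ : 0 < φ₀)
    (heq : ∀ x, ρ x = tf (pot (fun y => mA y + mB y - ρ y) x - φ₀)) :
    Fo e1 mA (fun y => mB y - ρ y) ≤ 0 := by
  set μ : X → ℝ := fun y => mA y + mB y - ρ y with hμ
  have hμB : BC μ := (hA.add hB).sub hρ
  set fR : X → ℝ := Om.indicator μ with hfR
  set fL : X → ℝ := Om.indicator (fun x => μ (th x)) with hfL
  have hfRB : BC fR := hμB.indicator Om_meas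
  have hfLB : BC fL := (hμB.comp_isom th).indicator Om_meas
  have hfRO : ∀ x, x ∉ Om → fR x = 0 := fun x hx => indicator_of_notMem hx _
  have hfLO : ∀ x, x ∉ Om → fL x = 0 := fun x hx => indicator_of_notMem hx _
  set ρR : X → ℝ := Om.indicator ρ with hρR
  have hρRB : BC ρR := hρ.indicator Om_meas
  have hAρ : mA = fun x => fR x + ρR x := by
    funext x
    by_cases hx : x ∈ Om
    · rw [hfR, hρR, indicator_of_mem hx, indicator_of_mem hx, hμ]
      have : mB x = 0 := hBs x (by
        have h0 : 0 < x.fst := hx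
        linarith)
      simp only [this]; ring
    · rw [hfR, hρR, indicator_of_notMem hx, indicator_of_notMem hx, hAs x hx]; ring
  -- decomposition of μ
  have hdec : μ =ᵐ[volume] fun x => fR x + fL (th x) := by
    filter_upwards [plane_null 0] with x hx
    rcases lt_or_gt_of_ne hx with h | h
    · have h1 : x ∉ Om := not_lt.mpr h.le
      have h2 : th x ∈ Om := by
        change 0 < (th x).fst
        rw [th_fst]; linarith
      rw [hfR, hfL, indicator_of_notMem h1, indicator_of_mem h2, th_th, zero_add]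
    · have h1 : x ∈ Om := h
      have h2 : th x ∉ Om := by
        intro h'
        have h'' : 0 < (th x).fst := h'
        rw [th_fst] at h''
        linarith
      rw [hfR, hfL, indicator_of_mem h1, indicator_of_notMem h2, add_zero]
  have hfRt := hfRB.comp_isom th
  have hfLt := hfLB.comp_isom th
  have hpotμ : pot μ = pot (fun x => fR x + fL (th x)) := pot_congr_ae hdec
  have hgradμ : grad e1 μ = grad e1 (fun x => fR x + fL (th x)) := grad_congr_ae hdec e1
  -- the half space solution
  have hhB : BC (fun x => fR (th x) + fL (th x)) := hfRt.add hfLt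
  obtain ⟨ρu, hρuB, hρu0, hρuO, hρu⟩ := exists_half hhB hφ
  have hρut := hρuB.comp_isom th
  set hu : X → ℝ := fun y => (fR (th y) + fL (th y)) - ρu y + ρu (th y) with hhu
  have huB : BC hu := (hhB.sub hρuB).add hρut
  -- potentials in terms of the pieces
  have pμ : ∀ x, pot μ x = pot fR x + pot fL (th x) := by
    intro x
    rw [hpotμ, pot_add hfRB hfLt, pot_comp_isom]
  have pu : ∀ x, pot hu x = pot fR (th x) + pot fL (th x) - pot ρu x + pot ρu (th x) := by
    intro x
    rw [hhu, pot_add (hhB.sub hρuB) hρut, pot_sub hhB hρuB, pot_add hfRt hfLt, pot_comp_isom,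
      pot_comp_isom, pot_comp_isom]
  have hw1 : ∀ x, pot (odd (fun y => fR y + ρu y)) x = pot μ x - pot hu x := by
    intro x
    unfold odd
    rw [pot_sub (hfRB.add hρuB) ((hfRB.add hρuB).comp_isom th), pot_comp_isom th
      (fun y => fR y + ρu y), pot_add hfRB hρuB, pot_add hfRB hρuB, pμ, pu]
    ring
  have hw2 : ∀ x, pot (odd (fun y => fL y + ρu y)) x = pot μ (th x) - pot hu x := by
    intro x
    unfold odd
    rw [pot_sub (hfLB.add hρuB) ((hfLB.add hρuB).comp_isom th), pot_comp_isom th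
      (fun y => fL y + ρu y), pot_add hfLB hρuB, pot_add hfLB hρuB, pμ, pu, th_th]
    ring
  have hOR : ∀ x, x ∉ Om → fR x + ρu x = 0 := fun x hx => by rw [hfRO x hx, hρuO x hx, add_zero]
  have hOL : ∀ x, x ∉ Om → fL x + ρu x = 0 := fun x hx => by rw [hfLO x hx, hρuO x hx, add_zero]
  have hthA : ∀ x, x ∈ Om → mA (th x) = 0 := fun x hx => hAs _ (by
    have h0 : 0 < x.fst := hx
    rw [th_fst]; linarith)
  have hmin1 := min_principle (hfRB.add hρuB) hOR (by
    intro x hx hneg
    rw [hw1] at hneg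
    have h1 : ρ x ≤ ρu x := by
      rw [heq x, hρu x hx]
      exact tf_mono (by linarith)
    have h2 : fR x = mA x + mB x - ρ x := by rw [hfR, indicator_of_mem hx]
    rw [h2]
    have := hA0 x
    have := hB0 x
    linarith)
  have hmin2 := min_principle (hfLB.add hρuB) hOL (by
    intro x hx hneg
    rw [hw2] at hneg
    have h1 : ρ (th x) ≤ ρu x := by
      rw [heq (th x), hρu x hx]
      exact tf_mono (by linarith)
    have h2 : fL x = mA (th x) + mB (th x) - ρ (th x) := by rw [hfL, indicator_of_mem hx]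
    rw [h2]
    have := hA0 (th x)
    have := hB0 (th x)
    linarith)
  have hrel := rellich (hfRB.add hρuB) (hfLB.add hρuB) hOR hOL hmin1 hmin2
  -- expand
  have e1' : Fo e1 (fun y => fR y + ρu y) (fun x => fL (th x) + ρu (th x)) =
      Fo e1 fR (fun x => fL (th x)) + Fo e1 fR (fun x => ρu (th x)) +
      (Fo e1 ρu (fun x => fL (th x)) + Fo e1 ρu (fun x => ρu (th x))) := by
    rw [Fo_add_left hfRB hρuB (hfLt.add hρut), Fo_add_right hfRB hfLt hρut,
      Fo_add_right hρuB hfLt hρut]
  rw [e1', Fo_th_symm hfRB hρuB] at hrel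
  -- FTC identities
  have hftc1 := ftc hμB hφ
  have hftc2 := ftc huB hφ
  have hρR' : (Om.indicator fun x => tf (pot μ x - φ₀)) = ρR := by
    rw [hρR]
    congr 1
    funext x
    exact (heq x).symm
  have hρu' : (Om.indicator fun x => tf (pot hu x - φ₀)) = ρu := by
    funext x
    by_cases hx : x ∈ Om
    · rw [indicator_of_mem hx, hρu x hx]
    · rw [indicator_of_notMem hx, hρuO x hx]
  rw [hρR'] at hftc1
  rw [hρu'] at hftc2
  have htrace : Pr hu φ₀ = Pr μ φ₀ := by
    unfold Pr
    refine integral_congr_ae (Eventually.of_forall fun z => ?_)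
    simp only
    rw [pμ, pu, th_mk, neg_zero]
    congr 1
    ring
  rw [htrace] at hftc2
  have k1 : Fo e1 ρR μ = -Pr μ φ₀ := hftc1
  have k2 : Fo e1 ρu hu = -Pr μ φ₀ := hftc2
  have k3 : Fo e1 ρu hu = Fo e1 ρu (fun x => fR (th x)) + Fo e1 ρu (fun x => fL (th x)) +
      Fo e1 ρu (fun x => ρu (th x)) := by
    rw [hhu, Fo_add_right hρuB (hhB.sub hρuB) hρut, Fo_sub_right hρuB hhB hρuB,
      Fo_add_right hρuB hfRt hfLt, Fo_self hρuB]
    ring
  have k4 : Fo e1 mA (fun y => mB y - ρ y) = Fo e1 mA μ := by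
    have : μ = fun y => mA y + (mB y - ρ y) := by funext y; rw [hμ]; ring
    rw [this, Fo_add_right hA hA (hB.sub hρ), Fo_self hA]
    ring
  have k5 : Fo e1 mA μ = Fo e1 fR μ + Fo e1 ρR μ := by
    nth_rewrite 1 [hAρ]
    rw [Fo_add_left hfRB hρRB hμB]
  have k6 : Fo e1 fR μ = Fo e1 fR (fun x => fL (th x)) := by
    have : Fo e1 fR μ = Fo e1 fR (fun x => fR x + fL (th x)) := by
      unfold Fo
      rw [hgradμ]
    rw [this, Fo_add_right hfRB hfRB hfLt, Fo_self hfRB]
    ring
  rw [k4, k5, k6, k1]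
  linarith

theorem Fo_translate (e v : X) (f g : X → ℝ) :
    Fo e (fun x => f (x + v)) (fun x => g (x + v)) = Fo e f g := by
  unfold Fo
  rw [← integral_add_right_eq_self (fun x => f x * grad e g x) v]
  refine integral_congr_ae (Eventually.of_forall fun x => ?_)
  simp only
  rw [grad_translate]

/-- The same with a plane `x₁ = c`. -/
theorem force_nonpos' {mA mB ρ : X → ℝ} (hA : BC mA) (hB : BC mB) (hρ : BC ρ)
    (hA0 : ∀ x, 0 ≤ mA x) (hB0 : ∀ x, 0 ≤ mB x) (c : ℝ)
    (hAs : ∀ x, ¬ c < x.fst → mA x = 0) (hBs : ∀ x, ¬ x.fst < c → mB x = 0)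
    {φ₀ : ℝ} (hφ : 0 < φ₀)
    (heq : ∀ x, ρ x = tf (pot (fun y => mA y + mB y - ρ y) x - φ₀)) :
    Fo e1 mA (fun y => mB y - ρ y) ≤ 0 := by
  have hfst : ∀ x : X, (x + c • e1).fst = x.fst + c := fun x => by
    change x.fst + c * 1 = _
    ring
  have h := force_nonpos (mA := fun x => mA (x + c • e1)) (mB := fun x => mB (x + c • e1))
    (ρ := fun x => ρ (x + c • e1)) (hA.translate _) (hB.translate _) (hρ.translate _)
    (fun x => hA0 _) (fun x => hB0 _)
    (fun x hx => hAs _ (by rw [hfst]; intro h; apply hx; linarith))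
    (fun x hx => hBs _ (by rw [hfst]; intro h; apply hx; linarith)) hφ (fun x => ?_)
  · rwa [Fo_translate e1 (c • e1) mA (fun y => mB y - ρ y)] at h
  · rw [heq, pot_translate (fun y => mA y + mB y - ρ y)]

end Pool.Agent.TF
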