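import Pool.Agent.Lib.MP_9cf0c9_mp.RP
import Pool.Agent.Lib.MP_9cf0c9_mp.Force

/-! Convexity of the energy of a homonuclear diatomic molecule. -/

set_option linter.unusedSectionVars false
set_option linter.unusedVariables false
set_option linter.style.haveILetI false

namespace Pool.Agent.TF
open MeasureTheory Set Metric Filter Topology
open scoped ENNReal NNReal RealInnerProductSpace

/-! ### invariance of the energy -/
section inv
variable {V : Type*} [NormedAddCommGroup V] [InnerProductSpace ℝ V] [FiniteDimensional ℝ V]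
  [MeasurableSpace V] [BorelSpace V]
variable {W : Type*} [NormedAddCommGroup W] [InnerProductSpace ℝ W] [FiniteDimensional ℝ W]
  [MeasurableSpace W] [BorelSpace W]
variable {ι : Type*} [Fintype ι]

theorem eTF_push (L : V ≃ₗᵢ[ℝ] W) (z : ι → ℝ) (R : ι → V) (lam : ℝ) :
    eTF z (fun i => L (R i)) lam = eTF z R lam := by
  unfold eTF
  congr 1
  ext t
  constructor
  · rintro ⟨σ, hσ, hm, ht⟩
    have h1 : TC (fun x => σ (L x)) := by
      have := hσ.push L.symm
      simpa using this
    refine ⟨fun x => σ (L x), h1, ?_, ?_⟩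
    · have h2 := integral_push L (fun x => σ (L x))
      simp only [L.apply_symm_apply] at h2
      rw [← h2, hm]
    · have h2 := Ept_push L 0 z R (fun x => σ (L x))
      simp only [L.apply_symm_apply] at h2
      rw [← h2, ht]
  · rintro ⟨σ, hσ, hm, ht⟩
    refine ⟨fun y => σ (L.symm y), hσ.push L, ?_, ?_⟩
    · rw [integral_push L σ, hm]
    · rw [Ept_push, ht]

theorem eTF_translate (z : ι → ℝ) (R : ι → V) (v : V) (lam : ℝ) :
    eTF z (fun i => R i + v) lam = eTF z R lam := by
  unfold eTF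
  congr 1
  ext t
  constructor
  · rintro ⟨σ, hσ, hm, ht⟩
    refine ⟨fun x => σ (x + v), ?_, ?_, ?_⟩
    · have := hσ.translate (-v)
      simpa using this
    · rw [integral_add_right_eq_self, hm]
    · have h2 := Ept_translate 0 z R (fun x => σ (x + v)) v
      simp only [sub_add_cancel] at h2
      rw [← h2, ht]
  · rintro ⟨σ, hσ, hm, ht⟩
    refine ⟨fun y => σ (y - v), hσ.translate v, ?_, ?_⟩
    · rw [integral_sub_right_eq_self, hm]
    · rw [Ept_translate, ht]

theorem Ept_congr [hd : Fact (Module.finrank ℝ V = 3)] {φ₀ : ℝ} {z : ι → ℝ} {R : ι → V} {σ τ : V → ℝ} (h : σ =ᵐ[volume] τ) :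
    Ept φ₀ z R σ = Ept φ₀ z R τ := by
  have h1 : pot σ = pot τ := pot_congr_ae h
  have h2 : ∫ x, σ x ^ (5 / 3 : ℝ) = ∫ x, τ x ^ (5 / 3 : ℝ) := by
    refine integral_congr_ae ?_
    filter_upwards [h] with x hx
    rw [hx]
  have h3 : En σ σ = En τ τ := by
    unfold En
    rw [h1]
    refine integral_congr_ae ?_
    filter_upwards [h] with x hx
    rw [hx]
  unfold Ept
  rw [h1, h2, h3, integral_congr_ae h]

end inv

/-! ### two equal nuclei -/

theorem Ept_two {V : Type*} [NormedAddCommGroup V] [InnerProductSpace ℝ V] [FiniteDimensional ℝ V]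
    [MeasurableSpace V] [BorelSpace V] (z : ℝ) (p q : V) (σ : V → ℝ) :
    Ept 0 (fun _ : Fin 2 => z) ![p, q] σ = 3 / 5 * (∫ x, σ x ^ (5 / 3 : ℝ)) -
      z * (pot σ p + pot σ q) + 1 / 2 * En σ σ + z ^ 2 * ‖p - q‖⁻¹ := by
  unfold Ept Unuc
  simp only [Fin.sum_univ_two, Matrix.cons_val_zero, Matrix.cons_val_one, sub_self, norm_zero,
    inv_zero, mul_zero, zero_mul, add_zero, zero_add]
  rw [norm_sub_rev q p]
  ring

/-- gluing two right half densities -/
noncomputable def glue (A B : X → ℝ) (x : X) : ℝ := A x + B (th x)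

/-- one sided part of the energy -/
noncomputable def S1 (z a : ℝ) (A : X → ℝ) : ℝ :=
  3 / 5 * (∫ x, A x ^ (5 / 3 : ℝ)) - z * pot A (a • e1) + 1 / 2 * En A A

/-- cross part of the energy -/
noncomputable def c1 (z a b : ℝ) (A B : X → ℝ) : ℝ :=
  z ^ 2 * ‖a • e1 - th (b • e1)‖⁻¹ - z * pot B (th (a • e1)) - z * pot A (th (b • e1)) +
    En A (fun x => B (th x))

theorem th_notMem {x : X} (hx : x ∈ Om) : th x ∉ Om := by
  have h0 : 0 < x.fst := hx
  intro h
  have h1 : 0 < (th x).fst := h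
  rw [th_fst] at h1
  linarith

theorem glue_TC {A B : X → ℝ} (hA : TC A) (hB : TC B) (hAO : ∀ x, x ∉ Om → A x = 0)
    (hBO : ∀ x, x ∉ Om → B x = 0) :
    TC (glue A B) ∧ ∫ x, glue A B x ^ (5 / 3 : ℝ) =
      (∫ x, A x ^ (5 / 3 : ℝ)) + ∫ x, B x ^ (5 / 3 : ℝ) := by
  have hB' := th_TC hB
  have hpt : ∀ x, glue A B x ^ (5 / 3 : ℝ) = A x ^ (5 / 3 : ℝ) + B (th x) ^ (5 / 3 : ℝ) := by
    intro x
    unfold glue
    by_cases hx : x ∈ Om
    · rw [hBO _ (th_notMem hx), add_zero, Real.zero_rpow (by norm_num), add_zero]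
    · rw [hAO x hx, zero_add, Real.zero_rpow (by norm_num), zero_add]
  refine ⟨⟨hA.meas.add hB'.meas, fun x => add_nonneg (hA.nonneg x) (hB'.nonneg x),
    hA.int.add hB'.int, ?_⟩, ?_⟩
  · have h := hA.int53.add hB'.int53
    refine h.congr (Eventually.of_forall fun x => ?_)
    simp only [Pi.add_apply]
    rw [hpt]
  · simp_rw [hpt]
    rw [integral_add hA.int53 hB'.int53]
    congr 1
    exact th.measurePreserving.integral_comp th.toMeasurableEquiv.measurableEmbedding
      (fun x => B x ^ (5 / 3 : ℝ))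

theorem pot_glue {A B : X → ℝ} (hA : TC A) (hB : TC B) (x : X) :
    pot (glue A B) x = pot A x + pot B (th x) := by
  have h := hA.pot_comb (th_TC hB) 1 1 x
  simp only [one_mul] at h
  rw [pot_comp_isom] at h
  exact h

theorem En_glue {A B : X → ℝ} (hA : TC A) (hB : TC B) :
    En (glue A B) (glue A B) = En A A + 2 * En A (fun x => B (th x)) + En B B := by
  have hB' := th_TC hB
  have e1 : ∀ x, glue A B x * pot (glue A B) x =
      (A x * pot A x + A x * pot (fun x => B (th x)) x) +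
        (B (th x) * pot A x + B (th x) * pot (fun x => B (th x)) x) := by
    intro x
    rw [pot_glue hA hB, pot_comp_isom]
    unfold glue
    ring
  have i1 : Integrable (fun x => A x * pot A x) := hA.En_integrable hA
  have i2 : Integrable (fun x => A x * pot (fun x => B (th x)) x) := hA.En_integrable hB'
  have i3 : Integrable (fun x => B (th x) * pot A x) := hB'.En_integrable hA
  have i4 : Integrable (fun x => B (th x) * pot (fun x => B (th x)) x) := hB'.En_integrable hB'
  have i12 : Integrable (fun x => A x * pot A x + A x * pot (fun x => B (th x)) x) := i1.add i2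
  have i34 : Integrable (fun x => B (th x) * pot A x + B (th x) * pot (fun x => B (th x)) x) :=
    i3.add i4
  have h1 : En (glue A B) (glue A B) = (En A A + En A (fun x => B (th x))) +
      (En (fun x => B (th x)) A + En (fun x => B (th x)) (fun x => B (th x))) := by
    unfold En
    simp_rw [e1]
    rw [integral_add i12 i34, integral_add i1 i2, integral_add i3 i4]
  rw [h1, hB'.En_symm hA, En_comp_isom th B B]
  ring

theorem Ept_glue {z a b : ℝ} {A B : X → ℝ} (hA : TC A) (hB : TC B)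
    (hAO : ∀ x, x ∉ Om → A x = 0) (hBO : ∀ x, x ∉ Om → B x = 0) :
    Ept 0 (fun _ : Fin 2 => z) ![a • e1, th (b • e1)] (glue A B) =
      S1 z a A + S1 z b B + c1 z a b A B := by
  rw [Ept_two, (glue_TC hA hB hAO hBO).2, pot_glue hA hB, pot_glue hA hB, En_glue hA hB, th_th]
  unfold S1 c1
  ring

theorem c1_rp {z a b : ℝ} (hz : 0 ≤ z) (ha : 0 < a) (hb : 0 < b) {A B : X → ℝ} (hA : TC A)
    (hB : TC B) (hAO : ∀ x, x ∉ Om → A x = 0) (hBO : ∀ x, x ∉ Om → B x = 0) :
    2 * c1 z a b A B ≤ c1 z a a A A + c1 z b b B B := by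
  have hfst : ∀ t : ℝ, (t • e1 : X).fst = t := by
    intro t
    simp [e1]
  have h := rp hz (p := a • e1) (q := b • e1) (by rw [hfst]; exact ha) (by rw [hfst]; exact hb)
    hB hA hBO hAO
  have hs : En B (fun x => A (th x)) = En A (fun x => B (th x)) := by
    rw [← En_comp_isom th B (fun x => A (th x))]
    simp only [th_th]
    exact (th_TC hB).En_symm hA
  unfold IR at h
  unfold c1
  rw [hs] at h
  linarith

/-- half of the symmetrized density -/
noncomputable def hs (σ : X → ℝ) (x : X) : ℝ :=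
  Om.indicator (fun x => 1 / 2 * σ x + 1 / 2 * σ (th x)) x

theorem hs_out (σ : X → ℝ) (x : X) (hx : x ∉ Om) : hs σ x = 0 := indicator_of_notMem hx _

theorem hs_TC {σ : X → ℝ} (hσ : TC σ) : TC (hs σ) := by
  have h := (hσ.comb (th_TC hσ) (a := 1 / 2) (b := 1 / 2) (by norm_num) (by norm_num)
    (by norm_num)).1
  refine ⟨h.meas.indicator Om_meas, fun x => indicator_nonneg (fun y _ => h.nonneg y) x,
    h.int.indicator Om_meas, ?_⟩
  refine (h.int53.indicator Om_meas).congr (Eventually.of_forall fun x => ?_)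
  simp only [hs]
  by_cases hx : x ∈ Om
  · rw [indicator_of_mem hx, indicator_of_mem hx]
  · rw [indicator_of_notMem hx, indicator_of_notMem hx, Real.zero_rpow (by norm_num)]

theorem glue_hs (σ : X → ℝ) :
    glue (hs σ) (hs σ) =ᵐ[volume] fun x => 1 / 2 * σ x + 1 / 2 * σ (th x) := by
  filter_upwards [plane_null 0] with x hx
  unfold glue hs
  rcases lt_or_gt_of_ne hx with h | h
  · have h1 : x ∉ Om := fun h' => by
      have : 0 < x.fst := h'
      linarith
    have h2 : th x ∈ Om := by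
      change 0 < (th x).fst
      rw [th_fst]; linarith
    rw [indicator_of_notMem h1, indicator_of_mem h2, th_th]
    ring
  · have h1 : x ∈ Om := h
    rw [indicator_of_mem h1, indicator_of_notMem (th_notMem h1)]
    ring

theorem hs_energy {z a : ℝ} {σ : X → ℝ} (hσ : TC σ) :
    Ept 0 (fun _ : Fin 2 => z) ![a • e1, th (a • e1)] (glue (hs σ) (hs σ)) ≤
      Ept 0 (fun _ : Fin 2 => z) ![a • e1, th (a • e1)] σ := by
  rw [Ept_congr (glue_hs σ)]
  have h := Ept_comb (fun _ : Fin 2 => z) ![a • e1, th (a • e1)] hσ (th_TC hσ) (a := 1 / 2)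
    (b := 1 / 2) (by norm_num) (by norm_num) (by norm_num)
  have h2 : Ept 0 (fun _ : Fin 2 => z) ![a • e1, th (a • e1)] (fun x => σ (th x)) =
      Ept 0 (fun _ : Fin 2 => z) ![a • e1, th (a • e1)] σ := by
    rw [Ept_two, Ept_two, En_comp_isom th σ σ, pot_comp_isom, pot_comp_isom, th_th]
    have h3 : ∫ x, σ (th x) ^ (5 / 3 : ℝ) = ∫ x, σ x ^ (5 / 3 : ℝ) :=
      th.measurePreserving.integral_comp th.toMeasurableEquiv.measurableEmbedding
        (fun x => σ x ^ (5 / 3 : ℝ))
    rw [h3]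
    ring
  rw [h2] at h
  linarith

theorem hs_mass {σ : X → ℝ} (hσ : TC σ) : ∫ x, hs σ x = 1 / 2 * ∫ x, σ x := by
  have h1 : ∫ x, glue (hs σ) (hs σ) x = 2 * ∫ x, hs σ x := by
    unfold glue
    rw [integral_add (hs_TC hσ).int (th_TC (hs_TC hσ)).int]
    have h3 : ∫ x, hs σ (th x) = ∫ x, hs σ x :=
      th.measurePreserving.integral_comp th.toMeasurableEquiv.measurableEmbedding (hs σ)
    rw [h3]
    ring
  have h2 : ∫ x, glue (hs σ) (hs σ) x = ∫ x, σ x := by
    rw [integral_congr_ae (glue_hs σ), integral_add (hσ.int.const_mul _)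
      ((th_TC hσ).int.const_mul _), integral_const_mul, integral_const_mul]
    have h3 : ∫ x, σ (th x) = ∫ x, σ x :=
      th.measurePreserving.integral_comp th.toMeasurableEquiv.measurableEmbedding σ
    rw [h3]
    ring
  linarith

/-- the energy of two equal nuclei, cut at distance `a` and `b` from the plane -/
theorem two_mid {z a b lam : ℝ} (hz : 0 ≤ z) (ha : 0 < a) (hb : 0 < b) (hl : 0 ≤ lam) :
    eTF (fun _ : Fin 2 => z) ![a • e1, th (b • e1)] lam ≤
      1 / 2 * eTF (fun _ : Fin 2 => z) ![a • e1, th (a • e1)] lam +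
        1 / 2 * eTF (fun _ : Fin 2 => z) ![b • e1, th (b • e1)] lam := by
  have hz' : ∀ i : Fin 2, 0 ≤ (fun _ : Fin 2 => z) i := fun _ => hz
  refine le_of_forall_pos_le_add fun η hη => ?_
  obtain ⟨σ, hσ, hm, h1⟩ := exists_near hz' ![a • e1, th (a • e1)] hl hη
  obtain ⟨τ, hτ, hm', h2⟩ := exists_near hz' ![b • e1, th (b • e1)] hl hη
  have hA := hs_TC hσ
  have hB := hs_TC hτ
  have hG := glue_TC hA hB (hs_out σ) (hs_out τ)
  have h3 := eTF_le hz' ![a • e1, th (b • e1)] hG.1
  have hmass : ∫ x, glue (hs σ) (hs τ) x = lam := by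
    unfold glue
    rw [integral_add hA.int (th_TC hB).int]
    have h4 : ∫ x, hs τ (th x) = ∫ x, hs τ x :=
      th.measurePreserving.integral_comp th.toMeasurableEquiv.measurableEmbedding (hs τ)
    rw [h4, hs_mass hσ, hs_mass hτ, hm, hm']
    ring
  rw [hmass, Ept_glue hA hB (hs_out σ) (hs_out τ)] at h3
  have h4 := hs_energy (z := z) (a := a) hσ
  have h5 := hs_energy (z := z) (a := b) hτ
  rw [Ept_glue hA hA (hs_out σ) (hs_out σ)] at h4
  rw [Ept_glue hB hB (hs_out τ) (hs_out τ)] at h5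
  have h6 := c1_rp hz ha hb hA hB (hs_out σ) (hs_out τ)
  linarith

/-- the energy of two equal nuclei at distance `d` -/
noncomputable def fD (z lam d : ℝ) : ℝ :=
  eTF (fun _ : Fin 2 => z) ![(d / 2) • e1, th ((d / 2) • e1)] lam

theorem th_smul_e1 (t : ℝ) : th (t • e1) = (-t) • e1 := by
  rw [map_smul, th_e1, smul_neg, neg_smul]

theorem eTF_two {V : Type*} [NormedAddCommGroup V] [InnerProductSpace ℝ V] [FiniteDimensional ℝ V]
    [MeasurableSpace V] [BorelSpace V] [hd : Fact (Module.finrank ℝ V = 3)]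
    {z lam : ℝ} {R : Fin 2 → V} (hR : R 0 ≠ R 1) :
    eTF (fun _ : Fin 2 => z) R lam = fD z lam ‖R 0 - R 1‖ := by
  set d := ‖R 0 - R 1‖ with hdd
  have hd0 : 0 < d := norm_pos_iff.mpr (sub_ne_zero.mpr hR)
  have hu : ‖d⁻¹ • (R 0 - R 1)‖ = 1 := by
    rw [norm_smul, Real.norm_of_nonneg (inv_nonneg.mpr hd0.le), ← hdd, inv_mul_cancel₀ hd0.ne']
  obtain ⟨L, hL⟩ := exists_isom_X hu
  have h1 : L (R 0) - L (R 1) = d • e1 := by
    rw [← hL, map_smul, smul_smul, mul_inv_cancel₀ hd0.ne', one_smul, map_sub]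
  unfold fD
  rw [← eTF_push L, ← eTF_translate _ (fun i => L (R i)) ((-(d / 2)) • e1 - L (R 1))]
  congr 1
  funext i
  fin_cases i
  · simp only [Fin.zero_eta, Matrix.cons_val_zero]
    have h2 : L (R 0) = L (R 1) + d • e1 := by rw [← h1]; abel
    rw [h2]
    have h3 : L (R 1) + d • e1 + ((-(d / 2)) • e1 - L (R 1)) = d • e1 + (-(d / 2)) • e1 := by abel
    change L (R 1) + d • e1 + ((-(d / 2)) • e1 - L (R 1)) = _
    rw [h3, ← add_smul]
    congr 1
    ring
  · simp only [Fin.mk_one, Matrix.cons_val_one]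
    rw [th_smul_e1]
    change L (R 1) + ((-(d / 2)) • e1 - L (R 1)) = _
    abel

theorem norm_e1 : ‖e1‖ = 1 := by
  have h : ‖e1‖ ^ 2 = 1 := by
    unfold e1; rw [norm_mk_sq]; simp
  nlinarith [norm_nonneg e1]

theorem fD_mid {z lam : ℝ} (hz : 0 ≤ z) (hl : 0 ≤ lam) {x y : ℝ} (hx : 0 < x) (hy : 0 < y) :
    fD z lam ((x + y) / 2) ≤ 1 / 2 * fD z lam x + 1 / 2 * fD z lam y := by
  have h := two_mid (z := z) (a := x / 2) (b := y / 2) hz (half_pos hx) (half_pos hy) hl
  have hne : (![(x / 2) • e1, th ((y / 2) • e1)] : Fin 2 → X) 0 ≠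
      (![(x / 2) • e1, th ((y / 2) • e1)] : Fin 2 → X) 1 := by
    intro h0
    have h1 : (x / 2) • e1 = (-(y / 2)) • e1 := by
      rw [← th_smul_e1]
      exact h0
    have h2 : (x / 2 - -(y / 2)) • e1 = 0 := by rw [sub_smul, h1, sub_self]
    rcases smul_eq_zero.mp h2 with h3 | h3
    · linarith
    · have := norm_e1
      rw [h3, norm_zero] at this
      norm_num at this
  rw [eTF_two hne] at h
  have hn : ‖(![(x / 2) • e1, th ((y / 2) • e1)] : Fin 2 → X) 0 -
      (![(x / 2) • e1, th ((y / 2) • e1)] : Fin 2 → X) 1‖ = (x + y) / 2 := by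
    change ‖(x / 2) • e1 - th ((y / 2) • e1)‖ = _
    rw [th_smul_e1, ← sub_smul, norm_smul, norm_e1, mul_one, Real.norm_of_nonneg (by linarith)]
    ring
  rw [hn] at h
  exact h

theorem fD_anti {z lam : ℝ} (hz : 0 ≤ z) (hl : 0 ≤ lam) : AntitoneOn (fD z lam) (Ioi 0) := by
  intro x hx y hy hxy
  have hx0 : 0 < x := hx
  have hinj : Function.Injective (![(x / 2) • e1, th ((x / 2) • e1)] : Fin 2 → X) := by
    have hne : (x / 2) • e1 ≠ th ((x / 2) • e1) := by
      intro h0
      rw [th_smul_e1] at h0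
      have h2 : (x / 2 - -(x / 2)) • e1 = 0 := by rw [sub_smul, h0, sub_self]
      rcases smul_eq_zero.mp h2 with h3 | h3
      · linarith
      · have := norm_e1
        rw [h3, norm_zero] at this
        norm_num at this
    intro i j hij
    fin_cases i <;> fin_cases j
    · rfl
    · exact absurd hij hne
    · exact absurd hij.symm hne
    · rfl
  have h := eTF_dilate (z := fun _ : Fin 2 => z) (fun _ => hz) hinj (θ := y / x)
    (by rwa [one_le_div hx0]) hl
  have e : (fun i => (y / x) • (![(x / 2) • e1, th ((x / 2) • e1)] : Fin 2 → X) i) =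
      ![(y / 2) • e1, th ((y / 2) • e1)] := by
    funext i
    fin_cases i
    · change (y / x) • (x / 2) • e1 = (y / 2) • e1
      rw [smul_smul]
      congr 1
      field_simp
    · change (y / x) • th ((x / 2) • e1) = th ((y / 2) • e1)
      rw [th_smul_e1, th_smul_e1, smul_smul]
      congr 1
      field_simp
  rw [e] at h
  exact h

/-! ### from midpoints to convexity -/

theorem seg_pos {x y t : ℝ} (hx : 0 < x) (hy : 0 < y) (h0 : 0 ≤ t) (h1 : t ≤ 1) :
    0 < x + t * (y - x) := by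
  have h : x + t * (y - x) = (1 - t) * x + t * y := by ring
  rw [h]
  rcases h0.eq_or_lt with h2 | h2
  · rw [← h2]; linarith
  · have h3 : 0 < t * y := mul_pos h2 hy
    have h4 : 0 ≤ (1 - t) * x := mul_nonneg (by linarith) hx.le
    linarith

theorem dyadic {f : ℝ → ℝ} (hmid : ∀ x y : ℝ, 0 < x → 0 < y →
    f ((x + y) / 2) ≤ 1 / 2 * f x + 1 / 2 * f y) {x y : ℝ} (hx : 0 < x) (hy : 0 < y) (n : ℕ) :
    ∀ k : ℕ, k ≤ 2 ^ n → f (x + (k / 2 ^ n : ℝ) * (y - x)) ≤
      f x + (k / 2 ^ n : ℝ) * (f y - f x) := by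
  induction n with
  | zero =>
    intro k hk
    rw [pow_zero] at hk
    interval_cases k <;> simp
  | succ n ih =>
    intro k hk
    have hpos : ∀ j : ℕ, j ≤ 2 ^ n → 0 < x + (j / 2 ^ n : ℝ) * (y - x) := by
      intro j hj
      have h1 : (j : ℝ) / 2 ^ n ≤ 1 := by
        rw [div_le_one (by positivity)]
        exact_mod_cast hj
      have h0 : 0 ≤ (j : ℝ) / 2 ^ n := by positivity
      exact seg_pos hx hy h0 h1
    rcases Nat.even_or_odd' k with ⟨j, rfl | rfl⟩
    · have hj : j ≤ 2 ^ n := by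
        rw [pow_succ] at hk; omega
      have h := ih j hj
      have e : ((2 * j : ℕ) : ℝ) / 2 ^ (n + 1) = (j : ℝ) / 2 ^ n := by
        push_cast
        rw [pow_succ]
        field_simp
      rw [e]
      exact h
    · have hj : j ≤ 2 ^ n := by
        rw [pow_succ] at hk; omega
      have hj' : j + 1 ≤ 2 ^ n := by
        rw [pow_succ] at hk; omega
      have h1 := ih j hj
      have h2 := ih (j + 1) hj'
      have h3 := hmid _ _ (hpos j hj) (hpos (j + 1) hj')
      have e : ((2 * j + 1 : ℕ) : ℝ) / 2 ^ (n + 1) =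
          ((j : ℝ) / 2 ^ n + ((j + 1 : ℕ) : ℝ) / 2 ^ n) / 2 := by
        push_cast
        rw [pow_succ]
        field_simp
        ring
      have e2 : x + ((2 * j + 1 : ℕ) : ℝ) / 2 ^ (n + 1) * (y - x) =
          (x + (j : ℝ) / 2 ^ n * (y - x) + (x + ((j + 1 : ℕ) : ℝ) / 2 ^ n * (y - x))) / 2 := by
        rw [e]; ring
      rw [e2, e]
      linarith

/-- a nonincreasing midpoint convex function is convex -/
theorem convexOn_of_mid {f : ℝ → ℝ} (hanti : AntitoneOn f (Ioi 0))
    (hmid : ∀ x y : ℝ, 0 < x → 0 < y → f ((x + y) / 2) ≤ 1 / 2 * f x + 1 / 2 * f y) :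
    ConvexOn ℝ (Ioi 0) f := by
  -- it is enough to treat `x ≤ y`
  have key : ∀ x y t : ℝ, 0 < x → x ≤ y → 0 ≤ t → t ≤ 1 →
      f (x + t * (y - x)) ≤ f x + t * (f y - f x) := by
    intro x y t hx hxy ht0 ht1
    have hy : 0 < y := by linarith
    -- dyadic approximations from below
    have hfl : ∀ n : ℕ, (⌊t * 2 ^ n⌋₊ : ℝ) / 2 ^ n ≤ t ∧ t - 1 / 2 ^ n ≤ (⌊t * 2 ^ n⌋₊ : ℝ) / 2 ^ n := by
      intro n
      have h2 : (0 : ℝ) < 2 ^ n := by positivity
      constructor
      · rw [div_le_iff₀ h2]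
        exact Nat.floor_le (by positivity)
      · rw [le_div_iff₀ h2, sub_mul]
        have h3 := Nat.lt_floor_add_one (t * 2 ^ n)
        have h4 : 1 / 2 ^ n * (2 : ℝ) ^ n = 1 := by field_simp
        linarith
    have hk : ∀ n : ℕ, ⌊t * 2 ^ n⌋₊ ≤ 2 ^ n := by
      intro n
      have h2 : (0 : ℝ) < 2 ^ n := by positivity
      have h3 := (hfl n).1
      rw [div_le_iff₀ h2] at h3
      have h4 : (⌊t * 2 ^ n⌋₊ : ℝ) ≤ ((2 ^ n : ℕ) : ℝ) := by
        push_cast
        nlinarith
      exact_mod_cast h4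
    have hstep : ∀ n : ℕ, f (x + t * (y - x)) ≤
        f x + ((⌊t * 2 ^ n⌋₊ : ℝ) / 2 ^ n) * (f y - f x) := by
      intro n
      have h1 := dyadic hmid hx hy n _ (hk n)
      refine le_trans ?_ h1
      have h0 : 0 ≤ (⌊t * 2 ^ n⌋₊ : ℝ) / 2 ^ n := by positivity
      refine hanti ?_ ?_ ?_
      · exact seg_pos hx hy h0 ((hfl n).1.trans ht1)
      · exact seg_pos hx hy ht0 ht1
      · have := (hfl n).1
        nlinarith
    have hlim : Tendsto (fun n : ℕ => (⌊t * 2 ^ n⌋₊ : ℝ) / 2 ^ n) atTop (𝓝 t) := by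
      have h1 : Tendsto (fun n : ℕ => t - 1 / (2 : ℝ) ^ n) atTop (𝓝 (t - 0)) := by
        refine tendsto_const_nhds.sub ?_
        have := tendsto_pow_atTop_nhds_zero_of_lt_one (r := (1 / 2 : ℝ)) (by norm_num) (by norm_num)
        refine this.congr fun n => ?_
        rw [one_div, one_div, inv_pow]
      rw [sub_zero] at h1
      exact tendsto_of_tendsto_of_tendsto_of_le_of_le h1 tendsto_const_nhds
        (fun n => (hfl n).2) (fun n => (hfl n).1)
    have hlim2 := (hlim.mul_const (f y - f x)).const_add (f x)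
    exact ge_of_tendsto' hlim2 hstep
  refine ⟨convex_Ioi 0, fun x hx y hy a b ha hb hab => ?_⟩
  have hx0 : 0 < x := hx
  have hy0 : 0 < y := hy
  simp only [smul_eq_mul]
  rcases le_total x y with h | h
  · have h1 := key x y b hx0 h hb (by linarith)
    have e1 : x + b * (y - x) = a * x + b * y := by
      have : a = 1 - b := by linarith
      rw [this]; ring
    have e2 : f x + b * (f y - f x) = a * f x + b * f y := by
      have : a = 1 - b := by linarith
      rw [this]; ring
    rwa [e1, e2] at h1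
  · have h1 := key y x a hy0 h ha (by linarith)
    have e1 : y + a * (x - y) = a * x + b * y := by
      have : b = 1 - a := by linarith
      rw [this]; ring
    have e2 : f y + a * (f x - f y) = a * f x + b * f y := by
      have : b = 1 - a := by linarith
      rw [this]; ring
    rwa [e1, e2] at h1

theorem fD_convex {z lam : ℝ} (hz : 0 ≤ z) (hl : 0 ≤ lam) : ConvexOn ℝ (Ioi 0) (fD z lam) :=
  convexOn_of_mid (fD_anti hz hl) fun x y hx hy => fD_mid hz hl hx hy

end Pool.Agent.TF
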