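import Pool.Agent.Lib.MP_9cf0c9_mp.ConvexCrit

/-! From the second order support inequality in the model space `X` to the target statement. -/

set_option autoImplicit false
set_option linter.unusedSectionVars false
set_option linter.unusedVariables false

namespace Pool.Agent.TF
open MeasureTheory Set Metric Filter Topology

section push
variable {V : Type*} [NormedAddCommGroup V] [InnerProductSpace ℝ V] [FiniteDimensional ℝ V]
  [MeasurableSpace V] [BorelSpace V]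
variable {W : Type*} [NormedAddCommGroup W] [InnerProductSpace ℝ W] [FiniteDimensional ℝ W]
  [MeasurableSpace W] [BorelSpace W]
variable {ι : Type*} [Fintype ι]

theorem GTF_push (L : V ≃ₗᵢ[ℝ] W) (φ₀ : ℝ) (z : ι → ℝ) (R : ι → V) :
    GTF φ₀ z (fun i => L (R i)) = GTF φ₀ z R := by
  unfold GTF
  congr 1
  ext t
  constructor
  · rintro ⟨σ, hσ, rfl⟩
    refine ⟨fun y => σ (L y), ?_, ?_⟩
    · have := hσ.push L.symm
      simpa using this
    · have h := Ept_push L.symm φ₀ z (fun i => L (R i)) σ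
      simpa using h
  · rintro ⟨σ, hσ, rfl⟩
    exact ⟨fun y => σ (L.symm y), hσ.push L, Ept_push L φ₀ z R σ⟩

end push

/-! ### units: the chemical potential can be scaled to one -/

section dim3
variable {V : Type*} [NormedAddCommGroup V] [InnerProductSpace ℝ V] [FiniteDimensional ℝ V]
  [MeasurableSpace V] [BorelSpace V]
variable {ι : Type*} [Fintype ι]
variable [hd : Fact (Module.finrank ℝ V = 3)]

theorem TC.const_mul {h : V → ℝ} (hh : TC h) {c : ℝ} (hc : 0 ≤ c) : TC fun x => c * h x := by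
  refine ⟨hh.meas.const_mul c, fun x => mul_nonneg hc (hh.nonneg x), hh.int.const_mul c, ?_⟩
  refine (hh.int53.const_mul (c ^ (5 / 3 : ℝ))).congr (Eventually.of_forall fun x => ?_)
  simp only
  rw [Real.mul_rpow hc (hh.nonneg x)]

theorem Ept_units (z : ι → ℝ) (R : ι → V) {β : ℝ} (hβ : 0 < β) {h : V → ℝ} (hh : TC h) :
    Ept (β ^ 4) (fun i => β ^ 3 * z i) (fun i => β⁻¹ • R i) (fun x => β ^ 3 * scl β h x) =
      β ^ 7 * Ept 1 z R h := by
  have h0 := Ept_scl_dilate 0 z R hβ hh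
  have hs := hh.scl hβ
  have e1 : ∫ x, (β ^ 3 * scl β h x) ^ (5 / 3 : ℝ) = β ^ 5 * ∫ x, scl β h x ^ (5 / 3 : ℝ) := by
    rw [← integral_const_mul]
    refine integral_congr_ae (Eventually.of_forall fun x => ?_)
    simp only
    rw [Real.mul_rpow (by positivity) (hs.nonneg x), rpow_35 hβ]
  have e1' : ∫ x, scl β h x ^ (5 / 3 : ℝ) = β ^ 2 * ∫ x, h x ^ (5 / 3 : ℝ) := by
    have e : ∀ x, scl β h x ^ (5 / 3 : ℝ) = β ^ 5 * (fun x => h x ^ (5 / 3 : ℝ)) (β • x) := by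
      intro x
      simp only [scl]
      rw [Real.mul_rpow (by positivity) (hh.nonneg _), rpow_35 hβ]
    simp_rw [e]
    rw [integral_const_mul, integral_smul3 hβ (fun x => h x ^ (5 / 3 : ℝ))]
    field_simp
  have e2 : ∀ x, pot (fun x => β ^ 3 * scl β h x) x = β ^ 3 * (β * pot h (β • x)) := by
    intro x
    rw [pot_const_mul, pot_scl hβ]
  have e3 : En (fun x => β ^ 3 * scl β h x) (fun x => β ^ 3 * scl β h x) = β ^ 7 * En h h := by
    unfold En
    have e : ∀ x, β ^ 3 * scl β h x * pot (fun x => β ^ 3 * scl β h x) x =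
        β ^ 10 * (fun x => h x * pot h x) (β • x) := by
      intro x
      rw [e2]
      simp only [scl]
      ring
    simp_rw [e]
    rw [integral_const_mul, integral_smul3 hβ (fun x => h x * pot h x)]
    field_simp
  have e4 : ∫ x, β ^ 3 * scl β h x = β ^ 3 * ∫ x, h x := by
    rw [integral_const_mul, scl_mass hβ]
  have e5 : ∑ i, β ^ 3 * z i * pot (fun x => β ^ 3 * scl β h x) (β⁻¹ • R i) =
      β ^ 7 * ∑ i, z i * pot h (R i) := by
    rw [Finset.mul_sum]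
    refine Finset.sum_congr rfl fun i _ => ?_
    rw [e2, smul_smul, mul_inv_cancel₀ hβ.ne', one_smul]
    ring
  have e6 : Unuc (fun i => β ^ 3 * z i) (fun i => β⁻¹ • R i) = β ^ 7 * Unuc z R := by
    rw [Unuc_smul R (inv_pos.mpr hβ), inv_inv]
    unfold Unuc
    rw [Finset.mul_sum]
    simp_rw [Finset.mul_sum]
    refine Finset.sum_congr rfl fun i _ => ?_
    refine Finset.sum_congr rfl fun j _ => ?_
    ring
  unfold Ept
  rw [e1, e1', e3, e4, e5, e6]
  ring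

theorem GTF_units (z : ι → ℝ) (R : ι → V) {β : ℝ} (hβ : 0 < β) :
    GTF (β ^ 4) (fun i => β ^ 3 * z i) (fun i => β⁻¹ • R i) = β ^ 7 * GTF 1 z R := by
  have hset : {t | ∃ σ : V → ℝ, TC σ ∧
      Ept (β ^ 4) (fun i => β ^ 3 * z i) (fun i => β⁻¹ • R i) σ = t} =
      (fun t => β ^ 7 * t) '' {t | ∃ σ : V → ℝ, TC σ ∧ Ept 1 z R σ = t} := by
    ext t
    constructor
    · rintro ⟨σ, hσ, rfl⟩
      have h1 : TC fun x => (β ^ 3)⁻¹ * scl β⁻¹ σ x :=
        (hσ.scl (inv_pos.mpr hβ)).const_mul (by positivity)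
      refine ⟨_, ⟨_, h1, rfl⟩, ?_⟩
      simp only
      rw [← Ept_units z R hβ h1]
      congr 1
      funext x
      simp only [scl]
      rw [smul_smul, inv_mul_cancel₀ hβ.ne', one_smul]
      field_simp
    · rintro ⟨_, ⟨σ, hσ, rfl⟩, rfl⟩
      exact ⟨_, (hσ.scl hβ).const_mul (by positivity), Ept_units z R hβ hσ⟩
  unfold GTF
  rw [hset, ← smul_eq_mul (a := β ^ 7)]
  have := Real.sInf_smul_of_nonneg (a := β ^ 7) (by positivity)
    {t | ∃ σ : V → ℝ, TC σ ∧ Ept 1 z R σ = t}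
  rw [← this]
  rfl

end dim3

end Pool.Agent.TF

namespace Pool.Agent.Lib.MP_9cf0c9_mp
open MeasureTheory Set Filter Topology Pool.Agent

/-- the target, from second order supports in the model space -/
theorem target_of_support {k : ℕ} (z : Fin k → ℝ) (hz : ∀ j, 0 ≤ z j) (R : Fin k → E3)
    (hR : Function.Injective R)
    (h : ∀ φ₀ : ℝ, 0 < φ₀ → ∀ R' : Fin k → TF.X, Function.Injective R' →
      ∃ a : ℝ, ∀ ε : ℝ, 0 < ε → ∀ᶠ δ in 𝓝 (0 : ℝ), ∀ σ : TF.X → ℝ, TF.TC σ →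
        TF.GTF φ₀ z R' + a * δ - ε * δ ^ 2 ≤
          TF.Ept φ₀ z (fun i => (1 + δ) ^ (1 / 3 : ℝ) • R' i) σ)
    (lam : ℝ) (hlam : 0 ≤ lam) :
    ConvexOn ℝ (Ioi 0) (fun v : ℝ => dilated z R lam (v ^ (1 / 3 : ℝ))) ∧
      ∀ l : ℝ, 0 < l → (∀ᶠ s in 𝓝 l, DifferentiableAt ℝ (dilated z R lam) s) →
        DifferentiableAt ℝ (pressure z R lam) l → 0 ≤ -(l / 3) * deriv (pressure z R lam) l := by
  -- an isometry to the model space
  obtain ⟨e, he⟩ : ∃ e : E3, ‖e‖ = 1 := exists_norm_eq E3 zero_le_one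
  obtain ⟨L, -⟩ := TF.exists_isom_X (V := E3) he
  refine target_of_GTF z hz R (fun φ₀ hφ => ?_) lam hlam
  refine TF.GTF_convex_of_support hφ hz R fun c hc ε hε => ?_
  have hinj : Function.Injective fun i => L (c • R i) := by
    intro i j hij
    exact hR (smul_right_injective E3 hc.ne' (L.injective hij))
  obtain ⟨a, ha⟩ := h φ₀ hφ (fun i => L (c • R i)) hinj
  obtain ⟨δ, hδ, hball⟩ := Metric.eventually_nhds_iff_ball.mp (ha ε hε)
  refine ⟨a, δ, hδ, fun t ht => ?_⟩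
  have h1 := hball t (by rwa [Metric.mem_ball, dist_zero_right])
  have h2 : (fun i => (1 + t) ^ (1 / 3 : ℝ) • L (c • R i)) =
      fun i => L ((1 + t) ^ (1 / 3 : ℝ) • c • R i) := by
    funext i
    simp only [map_smul]
  rw [h2] at h1
  rw [← TF.GTF_push L φ₀ z (fun i => c • R i),
    ← TF.GTF_push L φ₀ z (fun i => (1 + t) ^ (1 / 3 : ℝ) • c • R i)]
  exact TF.le_GTF _ h1

/-- the same with the chemical potential scaled to one -/
theorem target_of_support_one {k : ℕ} (z : Fin k → ℝ) (hz : ∀ j, 0 ≤ z j) (R : Fin k → E3)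
    (hR : Function.Injective R)
    (h : ∀ t : ℝ, 0 < t → ∀ R' : Fin k → TF.X, Function.Injective R' →
      ∃ a : ℝ, ∀ ε : ℝ, 0 < ε → ∀ᶠ δ in 𝓝 (0 : ℝ), ∀ σ : TF.X → ℝ, TF.TC σ →
        TF.GTF 1 (fun j => t * z j) R' + a * δ - ε * δ ^ 2 ≤
          TF.Ept 1 (fun j => t * z j) (fun i => (1 + δ) ^ (1 / 3 : ℝ) • R' i) σ)
    (lam : ℝ) (hlam : 0 ≤ lam) :
    ConvexOn ℝ (Ioi 0) (fun v : ℝ => dilated z R lam (v ^ (1 / 3 : ℝ))) ∧
      ∀ l : ℝ, 0 < l → (∀ᶠ s in 𝓝 l, DifferentiableAt ℝ (dilated z R lam) s) →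
        DifferentiableAt ℝ (pressure z R lam) l → 0 ≤ -(l / 3) * deriv (pressure z R lam) l := by
  refine target_of_support z hz R hR (fun φ₀ hφ R' hR' => ?_) lam hlam
  set β : ℝ := φ₀ ^ (1 / 4 : ℝ) with hβ
  have hβ0 : 0 < β := Real.rpow_pos_of_pos hφ _
  have hβ4 : β ^ 4 = φ₀ := by
    rw [hβ, ← Real.rpow_natCast, ← Real.rpow_mul hφ.le]
    norm_num
  have hinj : Function.Injective fun i => β • R' i := fun i j hij =>
    hR' (smul_right_injective TF.X hβ0.ne' hij)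
  obtain ⟨a, ha⟩ := h (β ^ 3)⁻¹ (by positivity) (fun i => β • R' i) hinj
  have ez : (fun j => β ^ 3 * ((β ^ 3)⁻¹ * z j)) = z := by
    funext j
    field_simp
  refine ⟨β ^ 7 * a, fun ε hε => ?_⟩
  filter_upwards [ha (ε / β ^ 7) (by positivity)] with δ hδ σ hσ
  have h1 : TF.TC fun x => (β ^ 3)⁻¹ * TF.scl β⁻¹ σ x :=
    (hσ.scl (inv_pos.mpr hβ0)).const_mul (by positivity)
  have h2 := hδ _ h1
  have h3 := TF.GTF_units (fun j => (β ^ 3)⁻¹ * z j) (fun i => β • R' i) hβ0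
  have h4 := TF.Ept_units (fun j => (β ^ 3)⁻¹ * z j)
    (fun i => (1 + δ) ^ (1 / 3 : ℝ) • β • R' i) hβ0 h1
  have eR : ∀ i, β⁻¹ • β • R' i = R' i := fun i => by
    rw [smul_smul, inv_mul_cancel₀ hβ0.ne', one_smul]
  have eR2 : (fun i => β⁻¹ • (1 + δ) ^ (1 / 3 : ℝ) • β • R' i) =
      fun i => (1 + δ) ^ (1 / 3 : ℝ) • R' i := by
    funext i
    rw [smul_comm, eR]
  have eσ : (fun x => β ^ 3 * TF.scl β (fun x => (β ^ 3)⁻¹ * TF.scl β⁻¹ σ x) x) = σ := by
    funext x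
    simp only [TF.scl]
    rw [smul_smul, inv_mul_cancel₀ hβ0.ne', one_smul]
    field_simp
  simp only [eR] at h3
  rw [ez, hβ4] at h3
  rw [ez, hβ4, eR2, eσ] at h4
  rw [h3, h4]
  have h5 := mul_le_mul_of_nonneg_left h2 (by positivity : 0 ≤ β ^ 7)
  refine le_trans (le_of_eq ?_) h5
  field_simp

end Pool.Agent.Lib.MP_9cf0c9_mp
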