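import Pool.Agent.Lib.MP_9cf0c9_mp.Glue

/-! The energy as a function of the dilation parameter: `l * e(l)` is concave in `1 / l` and convex
in `l ^ (3/2)`; differentiability; the two sided bound of the reciprocal compressibility. -/

set_option autoImplicit false
set_option linter.unusedSectionVars false
set_option linter.unusedVariables false

namespace Pool.Agent.TF
open MeasureTheory Set Metric Filter Topology

section dim3
variable {V : Type*} [NormedAddCommGroup V] [InnerProductSpace ℝ V] [FiniteDimensional ℝ V]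
  [MeasurableSpace V] [BorelSpace V]
variable {ι : Type*} [Fintype ι]
variable [hd : Fact (Module.finrank ℝ V = 3)]

/-- kinetic energy -/
noncomputable def Kin (σ : V → ℝ) : ℝ := 3 / 5 * ∫ x, σ x ^ (5 / 3 : ℝ)

/-- Coulomb energy -/
noncomputable def Cou (z : ι → ℝ) (R : ι → V) (σ : V → ℝ) : ℝ :=
  -(∑ i, z i * pot σ (R i)) + 1 / 2 * En σ σ + Unuc z R

/-- `t⁻¹ * e(t⁻¹)` -/
noncomputable def gT (z : ι → ℝ) (R : ι → V) (lam t : ℝ) : ℝ :=
  t⁻¹ * eTF z (fun i => t⁻¹ • R i) lam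

theorem gT_le {z : ι → ℝ} (hz : ∀ i, 0 ≤ z i) (R : ι → V) {t : ℝ} (ht : 0 < t) {σ : V → ℝ}
    (hσ : TC σ) : gT z R (∫ x, σ x) t ≤ t * Kin σ + Cou z R σ := by
  have h1 := eTF_le hz (fun i => t⁻¹ • R i) (hσ.scl ht)
  rw [scl_mass ht, Ept_scl_dilate 0 z R ht hσ] at h1
  unfold gT Kin Cou
  have h2 := mul_le_mul_of_nonneg_left h1 (inv_pos.mpr ht).le
  refine h2.trans (le_of_eq ?_)
  field_simp
  ring

theorem exists_gT_near {z : ι → ℝ} (hz : ∀ i, 0 ≤ z i) (R : ι → V) {lam : ℝ} (hl : 0 ≤ lam)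
    {t : ℝ} (ht : 0 < t) {η : ℝ} (hη : 0 < η) :
    ∃ σ : V → ℝ, TC σ ∧ ∫ x, σ x = lam ∧ t * Kin σ + Cou z R σ < gT z R lam t + η := by
  obtain ⟨τ, hτ, hm, h1⟩ := exists_near hz (fun i => t⁻¹ • R i) hl (mul_pos ht hη)
  refine ⟨scl t⁻¹ τ, hτ.scl (inv_pos.mpr ht), (scl_mass (inv_pos.mpr ht) τ).trans hm, ?_⟩
  have h2 := Ept_scl_dilate 0 z R ht (hτ.scl (inv_pos.mpr ht))
  rw [scl_scl_inv ht] at h2
  rw [h2] at h1
  unfold gT Kin Cou
  have h3 := mul_lt_mul_of_pos_left h1 (inv_pos.mpr ht)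
  have e1 : t⁻¹ * (eTF z (fun i => t⁻¹ • R i) lam + t * η) =
      t⁻¹ * eTF z (fun i => t⁻¹ • R i) lam + η := by field_simp
  rw [e1] at h3
  refine lt_of_eq_of_lt ?_ h3
  field_simp
  ring

/-- `l * e(l)` is concave in `1 / l` -/
theorem gT_concave {z : ι → ℝ} (hz : ∀ i, 0 ≤ z i) (R : ι → V) {lam : ℝ} (hl : 0 ≤ lam) :
    ConcaveOn ℝ (Ioi 0) (gT z R lam) := by
  refine ⟨convex_Ioi 0, fun x hx y hy a b ha hb hab => ?_⟩
  have hx0 : 0 < x := hx
  have hy0 : 0 < y := hy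
  have hxy : 0 < a • x + b • y := (convex_Ioi (0 : ℝ)) hx hy ha hb hab
  simp only [smul_eq_mul] at hxy ⊢
  refine le_of_forall_pos_le_add fun η hη => ?_
  obtain ⟨σ, hσ, hm, h1⟩ := exists_gT_near hz R hl hxy hη
  have h2 := gT_le hz R hx0 hσ
  have h3 := gT_le hz R hy0 hσ
  rw [hm] at h2 h3
  have h4 := mul_le_mul_of_nonneg_left h2 ha
  have h5 := mul_le_mul_of_nonneg_left h3 hb
  have e : a * (x * Kin σ + Cou z R σ) + b * (y * Kin σ + Cou z R σ) =
      (a * x + b * y) * Kin σ + (a + b) * Cou z R σ := by ring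
  rw [hab, one_mul] at e
  linarith

/-- joint convexity of the kinetic energy in `(l ^ (3/2), ρ)` -/
theorem Kin_persp {σ τ : V → ℝ} (hσ : TC σ) (hτ : TC τ) {a b x y : ℝ} (ha : 0 ≤ a) (hb : 0 ≤ b)
    (hx : 0 < x) (hy : 0 < y) (hs : 0 < a * x + b * y) :
    (a * x + b * y) ^ (-(2 / 3) : ℝ) * Kin (fun v => a * σ v + b * τ v) ≤
      a * (x ^ (-(2 / 3) : ℝ) * Kin σ) + b * (y ^ (-(2 / 3) : ℝ) * Kin τ) := by
  set s : ℝ := a * x + b * y with hsdef
  have hσ' := hσ.const_mul (inv_pos.mpr hx).le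
  have hτ' := hτ.const_mul (inv_pos.mpr hy).le
  have hab : a * x / s + b * y / s = 1 := by
    rw [← add_div, ← hsdef, div_self hs.ne']
  have h1 := (hσ'.comb hτ' (a := a * x / s) (b := b * y / s) (by positivity) (by positivity) hab).2
  have e1 : ∀ v, (a * x / s * (x⁻¹ * σ v) + b * y / s * (y⁻¹ * τ v)) ^ (5 / 3 : ℝ) =
      s⁻¹ ^ (5 / 3 : ℝ) * (a * σ v + b * τ v) ^ (5 / 3 : ℝ) := by
    intro v
    have h0 : 0 ≤ a * σ v + b * τ v :=
      add_nonneg (mul_nonneg ha (hσ.nonneg v)) (mul_nonneg hb (hτ.nonneg v))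
    rw [← Real.mul_rpow (inv_pos.mpr hs).le h0]
    congr 1
    field_simp
  have e2 : ∀ v, (x⁻¹ * σ v) ^ (5 / 3 : ℝ) = x⁻¹ ^ (5 / 3 : ℝ) * σ v ^ (5 / 3 : ℝ) := fun v =>
    Real.mul_rpow (inv_pos.mpr hx).le (hσ.nonneg v)
  have e3 : ∀ v, (y⁻¹ * τ v) ^ (5 / 3 : ℝ) = y⁻¹ ^ (5 / 3 : ℝ) * τ v ^ (5 / 3 : ℝ) := fun v =>
    Real.mul_rpow (inv_pos.mpr hy).le (hτ.nonneg v)
  simp_rw [e1, e2, e3] at h1
  rw [integral_const_mul, integral_const_mul, integral_const_mul] at h1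
  have hp : ∀ w : ℝ, 0 < w → w ^ (-(2 / 3) : ℝ) = w * w⁻¹ ^ (5 / 3 : ℝ) := by
    intro w hw
    rw [Real.inv_rpow hw.le, ← Real.rpow_neg hw.le]
    nth_rw 2 [← Real.rpow_one w]
    rw [← Real.rpow_add hw]
    norm_num
  rw [hp s hs, hp x hx, hp y hy]
  unfold Kin
  have h2 := mul_le_mul_of_nonneg_left h1 (by positivity : 0 ≤ s * (3 / 5))
  calc s * s⁻¹ ^ (5 / 3 : ℝ) * (3 / 5 * ∫ v, (a * σ v + b * τ v) ^ (5 / 3 : ℝ))
      = s * (3 / 5) * (s⁻¹ ^ (5 / 3 : ℝ) * ∫ v, (a * σ v + b * τ v) ^ (5 / 3 : ℝ)) := by ring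
    _ ≤ s * (3 / 5) * (a * x / s * (x⁻¹ ^ (5 / 3 : ℝ) * ∫ v, σ v ^ (5 / 3 : ℝ)) +
        b * y / s * (y⁻¹ ^ (5 / 3 : ℝ) * ∫ v, τ v ^ (5 / 3 : ℝ))) := h2
    _ = _ := by field_simp

theorem Cou_comb (z : ι → ℝ) (R : ι → V) {σ τ : V → ℝ} (hσ : TC σ) (hτ : TC τ) {a b : ℝ}
    (ha : 0 ≤ a) (hb : 0 ≤ b) (hab : a + b = 1) :
    Cou z R (fun x => a * σ x + b * τ x) ≤ a * Cou z R σ + b * Cou z R τ := by
  have h2 := hσ.En_comb hτ ha hb hab
  have h3 : ∑ i, z i * pot (fun x => a * σ x + b * τ x) (R i) =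
      a * (∑ i, z i * pot σ (R i)) + b * (∑ i, z i * pot τ (R i)) := by
    rw [Finset.mul_sum, Finset.mul_sum, ← Finset.sum_add_distrib]
    refine Finset.sum_congr rfl fun i _ => ?_
    rw [hσ.pot_comb hτ]
    ring
  have hU : Unuc z R = a * Unuc z R + b * Unuc z R := by rw [← add_mul, hab, one_mul]
  unfold Cou
  rw [h3]
  linarith

/-- `l * e(l)` as a function of `s = l ^ (3/2)` -/
noncomputable def fS (z : ι → ℝ) (R : ι → V) (lam s : ℝ) : ℝ := gT z R lam (s ^ (-(2 / 3) : ℝ))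

/-- `l * e(l)` is convex in `l ^ (3/2)` -/
theorem fS_convex {z : ι → ℝ} (hz : ∀ i, 0 ≤ z i) (R : ι → V) {lam : ℝ} (hl : 0 ≤ lam) :
    ConvexOn ℝ (Ioi 0) (fS z R lam) := by
  refine ⟨convex_Ioi 0, fun x hx y hy a b ha hb hab => ?_⟩
  have hx0 : 0 < x := hx
  have hy0 : 0 < y := hy
  have hxy : 0 < a • x + b • y := (convex_Ioi (0 : ℝ)) hx hy ha hb hab
  simp only [smul_eq_mul] at hxy ⊢
  refine le_of_forall_pos_le_add fun η hη => ?_
  obtain ⟨σ, hσ, hm, h1⟩ := exists_gT_near hz R hl (Real.rpow_pos_of_pos hx0 (-(2 / 3))) hη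
  obtain ⟨τ, hτ, hm', h2⟩ := exists_gT_near hz R hl (Real.rpow_pos_of_pos hy0 (-(2 / 3))) hη
  have h3 := gT_le hz R (Real.rpow_pos_of_pos hxy (-(2 / 3))) (hσ.comb hτ ha hb hab).1
  have h4 : ∫ v, (a * σ v + b * τ v) = lam := by
    rw [integral_add (hσ.int.const_mul a) (hτ.int.const_mul b), integral_const_mul,
      integral_const_mul, hm, hm', ← add_mul, hab, one_mul]
  rw [h4] at h3
  have h5 := Kin_persp hσ hτ ha hb hx0 hy0 hxy
  have h6 := Cou_comb z R hσ hτ ha hb hab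
  have h7 := mul_le_mul_of_nonneg_left h1.le ha
  have h8 := mul_le_mul_of_nonneg_left h2.le hb
  unfold fS
  have e : η = a * η + b * η := by rw [← add_mul, hab, one_mul]
  linarith

end dim3

/-! ### one variable calculus -/

/-- a function between two differentiable functions which touch is differentiable -/
theorem hasDerivAt_squeeze {f u w : ℝ → ℝ} {x du dw : ℝ} (hu : HasDerivAt u du x)
    (hw : HasDerivAt w dw x) (hux : u x = f x) (hwx : w x = f x)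
    (h1 : ∀ᶠ y in 𝓝 x, u y ≤ f y) (h2 : ∀ᶠ y in 𝓝 x, f y ≤ w y) :
    du = dw ∧ HasDerivAt f du x := by
  have hd : du = dw := by
    have h3 : HasDerivAt (fun y => w y - u y) (dw - du) x := hw.sub hu
    have h4 : IsLocalMin (fun y => w y - u y) x := by
      filter_upwards [h1, h2] with y h5 h6
      rw [hux, hwx, sub_self]
      linarith
    have := h4.hasDerivAt_eq_zero h3
    linarith
  refine ⟨hd, ?_⟩
  subst hd
  rw [hasDerivAt_iff_isLittleO] at hu hw ⊢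
  refine Asymptotics.isLittleO_iff.mpr fun c hc => ?_
  have h5 := Asymptotics.isLittleO_iff.mp hu hc
  have h6 := Asymptotics.isLittleO_iff.mp hw hc
  filter_upwards [h1, h2, h5, h6] with y a1 a2 a3 a4
  rw [Real.norm_eq_abs] at a3 a4 ⊢
  rw [hux] at a3
  rw [hwx] at a4
  rw [abs_le] at a3 a4 ⊢
  constructor
  · linarith [a3.1]
  · linarith [a4.2]

/-- supporting line of a convex function on `(0, ∞)` -/
theorem exists_support {f : ℝ → ℝ} (hf : ConvexOn ℝ (Ioi 0) f) {x : ℝ} (hx : 0 < x) :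
    ∃ p : ℝ, ∀ y, 0 < y → f x + p * (y - x) ≤ f y := by
  refine ⟨derivWithin f (Ioi x) x, fun y hy => ?_⟩
  have hxi : x ∈ interior (Ioi (0 : ℝ)) := by simpa using hx
  rcases lt_trichotomy x y with h | h | h
  · have h1 := hf.rightDeriv_le_slope_of_mem_interior hxi (mem_Ioi.mpr hy) h
    rw [slope_def_field, le_div_iff₀ (by linarith)] at h1
    linarith
  · subst h; simp
  · have h1 := hf.slope_le_leftDeriv_of_mem_interior (mem_Ioi.mpr hy) hxi h
    have h2 := hf.leftDeriv_le_rightDeriv_of_mem_interior hxi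
    have h3 := h1.trans h2
    rw [slope_def_field, div_le_iff₀ (by linarith)] at h3
    linarith

/-- local quadratic support from the second derivative -/
theorem local_support {h h' : ℝ → ℝ} {x d : ℝ} (hd : 0 ≤ d)
    (h1 : ∀ᶠ y in 𝓝 x, HasDerivAt h (h' y) y) (h2 : HasDerivAt h' d x) {ε : ℝ} (hε : 0 < ε) :
    ∃ δ, 0 < δ ∧ ∀ t, |t| < δ → h x + h' x * t - ε * t ^ 2 ≤ h (x + t) := by
  rw [hasDerivAt_iff_isLittleO] at h2
  have h3 := Asymptotics.isLittleO_iff.mp h2 hε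
  obtain ⟨δ, hδ, hb⟩ := Metric.eventually_nhds_iff_ball.mp (h1.and h3)
  refine ⟨δ, hδ, fun t ht => ?_⟩
  have hmem : ∀ y, |y - x| ≤ |t| → y ∈ ball x δ := by
    intro y hy
    rw [mem_ball, Real.dist_eq]
    exact lt_of_le_of_lt hy ht
  rcases lt_trichotomy t 0 with h0 | h0 | h0
  · have hlt : x + t < x := by linarith
    have hin : ∀ y, y ∈ Icc (x + t) x → y ∈ ball x δ := by
      intro y hy
      refine hmem y ?_
      rw [abs_of_neg h0, abs_of_nonpos (by linarith [hy.2])]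
      linarith [hy.1]
    obtain ⟨c, hc, hc2⟩ := exists_hasDerivAt_eq_slope h h' hlt
      (fun y hy => ((hb y (hin y hy)).1).continuousAt.continuousWithinAt)
      (fun y hy => (hb y (hin y (Ioo_subset_Icc_self hy))).1)
    have h5 := (hb c (hin c (Ioo_subset_Icc_self hc))).2
    rw [Real.norm_eq_abs, Real.norm_eq_abs, abs_le, smul_eq_mul,
      abs_of_neg (by linarith [hc.2] : c - x < 0)] at h5
    have h6 : h x - h (x + t) = h' c * (x - (x + t)) := by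
      rw [hc2, div_mul_cancel₀ _ (by linarith)]
    have h7 : h' c ≤ h' x + ε * (x - c) := by nlinarith [h5.2, hc.2, mul_nonneg hd (by linarith [hc.2] : 0 ≤ x - c)]
    have h8 : h' c ≤ h' x - ε * t := by nlinarith [hc.1]
    nlinarith
  · subst h0; simp
  · have hlt : x < x + t := by linarith
    have hin : ∀ y, y ∈ Icc x (x + t) → y ∈ ball x δ := by
      intro y hy
      refine hmem y ?_
      rw [abs_of_pos h0, abs_of_nonneg (by linarith [hy.1])]
      linarith [hy.2]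
    obtain ⟨c, hc, hc2⟩ := exists_hasDerivAt_eq_slope h h' hlt
      (fun y hy => ((hb y (hin y hy)).1).continuousAt.continuousWithinAt)
      (fun y hy => (hb y (hin y (Ioo_subset_Icc_self hy))).1)
    have h5 := (hb c (hin c (Ioo_subset_Icc_self hc))).2
    rw [Real.norm_eq_abs, Real.norm_eq_abs, abs_le, smul_eq_mul,
      abs_of_pos (by linarith [hc.1] : 0 < c - x)] at h5
    have h6 : h (x + t) - h x = h' c * (x + t - x) := by
      rw [hc2, div_mul_cancel₀ _ (by linarith)]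
    have h7 : h' x - ε * (c - x) ≤ h' c := by nlinarith [h5.1, hc.1, mul_nonneg hd (by linarith [hc.1] : 0 ≤ c - x)]
    have h8 : h' x - ε * t ≤ h' c := by nlinarith [hc.2]
    nlinarith

/-- convexity on an interval from local quadratic supports -/
theorem convexOn_of_support_Ioo {f : ℝ → ℝ} {B : ℝ} (hcont : ContinuousOn f (Ioo 0 B))
    (h : ∀ x, 0 < x → x < B → ∀ ε, 0 < ε → ∃ a δ, 0 < δ ∧ ∀ t, |t| < δ →
      f x + a * t - ε * t ^ 2 ≤ f (x + t)) :
    ConvexOn ℝ (Ioo 0 B) f := by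
  refine LinearOrder.convexOn_of_lt (convex_Ioo 0 B) fun x hx y hy hxy a b ha hb hab => ?_
  simp only [smul_eq_mul]
  by_contra hcon
  push Not at hcon
  have hx0 : 0 < x := hx.1
  have hL : 0 < y - x := by linarith
  set m : ℝ := a * x + b * y with hm
  have hmx : x < m := by
    have : m - x = b * (y - x) := by rw [hm]; have : a = 1 - b := by linarith
                                     subst this; ring
    have h2 : 0 < b * (y - x) := mul_pos hb hL
    linarith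
  have hmy : m < y := by
    have : y - m = a * (y - x) := by rw [hm]; have : b = 1 - a := by linarith
                                     subst this; ring
    have h2 : 0 < a * (y - x) := mul_pos ha hL
    linarith
  set q : ℝ := (f y - f x) / (y - x) with hq
  have hqy : q * (y - x) = f y - f x := by rw [hq]; field_simp
  have hlm : f x + q * (m - x) = a * f x + b * f y := by
    have e : m - x = b * (y - x) := by rw [hm]; have : a = 1 - b := by linarith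
                                       subst this; ring
    rw [e]
    have : q * (b * (y - x)) = b * (f y - f x) := by rw [← hqy]; ring
    rw [this]
    have : a = 1 - b := by linarith
    subst this; ring
  set d : ℝ := f m - (f x + q * (m - x)) with hd
  have hd0 : 0 < d := by rw [hd, hlm]; linarith
  set c : ℝ := d / (2 * (y - x) ^ 2) with hc
  have hc0 : 0 < c := by positivity
  set g : ℝ → ℝ := fun t => f t + (-(f x + q * (t - x)) - c * ((t - x) * (y - t))) with hg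
  have hsub : Icc x y ⊆ Ioo 0 B := fun t ht =>
    ⟨lt_of_lt_of_le hx0 ht.1, lt_of_le_of_lt ht.2 hy.2⟩
  have hcg : ContinuousOn g (Icc x y) := by
    refine ContinuousOn.add (hcont.mono hsub) ?_
    exact (by fun_prop : Continuous fun t : ℝ =>
      -(f x + q * (t - x)) - c * ((t - x) * (y - t))).continuousOn
  obtain ⟨t0, ht0, hmax⟩ := isCompact_Icc.exists_isMaxOn (nonempty_Icc.mpr hxy.le) hcg
  have hgm : 0 < g m := by
    have h1 : (m - x) * (y - m) ≤ (y - x) ^ 2 := by nlinarith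
    have h2 : c * ((m - x) * (y - m)) ≤ c * (y - x) ^ 2 := mul_le_mul_of_nonneg_left h1 hc0.le
    have h3 : c * (y - x) ^ 2 = d / 2 := by rw [hc]; field_simp
    simp only [hg]
    linarith
  have hgt0 : 0 < g t0 := lt_of_lt_of_le hgm (hmax ⟨hmx.le, hmy.le⟩)
  have hgx : g x = 0 := by simp only [hg]; ring
  have hgy : g y = 0 := by simp only [hg]; rw [hqy]; ring
  have htx : x < t0 := lt_of_le_of_ne ht0.1 fun e => by rw [← e, hgx] at hgt0; exact lt_irrefl _ hgt0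
  have hty : t0 < y := lt_of_le_of_ne ht0.2 fun e => by rw [e, hgy] at hgt0; exact lt_irrefl _ hgt0
  obtain ⟨p, δ, hδ, hsup⟩ := h t0 (hx0.trans htx) (hty.trans hy.2) (c / 2) (by positivity)
  set r : ℝ := min (δ / 2) (min (t0 - x) (y - t0)) with hr
  have hr0 : 0 < r := lt_min (by linarith) (lt_min (by linarith) (by linarith))
  have hr1 : r < δ := lt_of_le_of_lt (min_le_left _ _) (by linarith)
  have hr2 : r ≤ t0 - x := (min_le_right _ _).trans (min_le_left _ _)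
  have hr3 : r ≤ y - t0 := (min_le_right _ _).trans (min_le_right _ _)
  have hup := hsup r (by rw [abs_of_pos hr0]; exact hr1)
  have hdn := hsup (-r) (by rw [abs_neg, abs_of_pos hr0]; exact hr1)
  have h1 : g (t0 + r) ≤ g t0 := hmax ⟨by linarith, by linarith⟩
  have h2 : g (t0 + -r) ≤ g t0 := hmax ⟨by linarith, by linarith⟩
  simp only [hg] at h1 h2
  have h3 : 0 < c * r ^ 2 := by positivity
  nlinarith

/-! ### the two sided estimate, abstractly -/

section abs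
variable {e : ℝ → ℝ}

/-- `e` is differentiable, with upper and lower bounds -/
theorem diff_of_two (hG : ConcaveOn ℝ (Ioi 0) fun t => t⁻¹ * e t⁻¹)
    (hF : ConvexOn ℝ (Ioi 0) fun s => s ^ (2 / 3 : ℝ) * e (s ^ (2 / 3 : ℝ))) {l : ℝ}
    (hl : 0 < l) : ∃ K : ℝ, HasDerivAt e (-(K + e l) / l) l ∧
      (∀ x, 0 < x → l * e l - 2 / 3 * K * l ^ (-(1 / 2) : ℝ) *
        (x ^ (3 / 2 : ℝ) - l ^ (3 / 2 : ℝ)) ≤ x * e x) ∧
      (∀ x, 0 < x → x * e x ≤ l * e l + l ^ 2 * K * (x⁻¹ - l⁻¹)) := by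
  have hs0 : 0 < l ^ (3 / 2 : ℝ) := Real.rpow_pos_of_pos hl _
  obtain ⟨p, hp⟩ := exists_support hF hs0
  obtain ⟨q, hq⟩ := exists_support hG.neg (inv_pos.mpr hl)
  have hpow : ∀ x : ℝ, 0 < x → (x ^ (3 / 2 : ℝ)) ^ (2 / 3 : ℝ) = x := by
    intro x hx
    rw [← Real.rpow_mul hx.le]
    norm_num
  have hlow : ∀ x, 0 < x → l * e l + p * (x ^ (3 / 2 : ℝ) - l ^ (3 / 2 : ℝ)) ≤ x * e x := by
    intro x hx
    have h1 := hp (x ^ (3 / 2 : ℝ)) (Real.rpow_pos_of_pos hx _)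
    beta_reduce at h1
    rw [hpow x hx, hpow l hl] at h1
    exact h1
  have hupp : ∀ x, 0 < x → x * e x ≤ l * e l - q * (x⁻¹ - l⁻¹) := by
    intro x hx
    have h1 := hq x⁻¹ (inv_pos.mpr hx)
    simp only [Pi.neg_apply, inv_inv] at h1
    linarith
  -- squeeze
  have hdu : HasDerivAt (fun x : ℝ => l * e l + p * (x ^ (3 / 2 : ℝ) - l ^ (3 / 2 : ℝ)))
      (p * (3 / 2 * l ^ ((3 / 2 : ℝ) - 1))) l := by
    have h1 : HasDerivAt (fun x : ℝ => x ^ (3 / 2 : ℝ)) (3 / 2 * l ^ ((3 / 2 : ℝ) - 1)) l :=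
      Real.hasDerivAt_rpow_const (Or.inl hl.ne')
    exact ((h1.sub_const (l ^ (3 / 2 : ℝ))).const_mul p).const_add (l * e l)
  have hdw : HasDerivAt (fun x : ℝ => l * e l - q * (x⁻¹ - l⁻¹)) (q * (l ^ 2)⁻¹) l := by
    have h1 : HasDerivAt (fun x : ℝ => x⁻¹) (-(l ^ 2)⁻¹) l := hasDerivAt_inv hl.ne'
    have h2 := ((h1.sub_const l⁻¹).const_mul q).const_sub (l * e l)
    refine h2.congr_deriv ?_
    ring
  have hsq := hasDerivAt_squeeze (f := fun x => x * e x) hdu hdw (by ring) (by ring)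
    (by filter_upwards [Ioi_mem_nhds hl] with x hx using hlow x hx)
    (by filter_upwards [Ioi_mem_nhds hl] with x hx using hupp x hx)
  have hq2 : q = l ^ 2 * (p * (3 / 2 * l ^ ((3 / 2 : ℝ) - 1))) := by
    rw [hsq.1]; field_simp
  set d : ℝ := p * (3 / 2 * l ^ ((3 / 2 : ℝ) - 1)) with hd
  have hlh : l ^ ((3 / 2 : ℝ) - 1) * l ^ (-(1 / 2) : ℝ) = 1 := by
    rw [← Real.rpow_add hl]; norm_num
  have hpd : p = 2 / 3 * d * l ^ (-(1 / 2) : ℝ) := by
    rw [hd]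
    calc p = p * (l ^ ((3 / 2 : ℝ) - 1) * l ^ (-(1 / 2) : ℝ)) := by rw [hlh, mul_one]
      _ = _ := by ring
  refine ⟨-d, ?_, fun x hx => ?_, fun x hx => ?_⟩
  · have h1 : HasDerivAt (fun x : ℝ => x⁻¹) (-(l ^ 2)⁻¹) l := hasDerivAt_inv hl.ne'
    have h2 := h1.mul hsq.2
    have h3 : (fun x : ℝ => x⁻¹) * (fun x => x * e x) =ᶠ[𝓝 l] e := by
      filter_upwards [Ioi_mem_nhds hl] with x hx
      have hx0 : (0 : ℝ) < x := hx
      simp only [Pi.mul_apply]
      field_simp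
    refine (h2.congr_of_eventuallyEq h3.symm).congr_deriv ?_
    field_simp
    ring
  · have h1 := hlow x hx
    rw [hpd] at h1
    linarith
  · have h1 := hupp x hx
    rw [hq2] at h1
    linarith

end abs

/-- the `K` of `diff_of_two` in terms of the derivative -/
theorem K_eq_of_hasDeriv {e : ℝ → ℝ} {l K : ℝ} (hl : 0 < l)
    (h : HasDerivAt e (-(K + e l) / l) l) : K = -(l * deriv e l + e l) := by
  rw [h.deriv]
  field_simp
  ring

section abs2
variable {e : ℝ → ℝ} (hG : ConcaveOn ℝ (Ioi 0) fun t => t⁻¹ * e t⁻¹)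
  (hF : ConvexOn ℝ (Ioi 0) fun s => s ^ (2 / 3 : ℝ) * e (s ^ (2 / 3 : ℝ)))
include hG hF

theorem two_diff {l : ℝ} (hl : 0 < l) : DifferentiableAt ℝ e l := by
  obtain ⟨K, hK, -, -⟩ := diff_of_two hG hF hl
  exact hK.differentiableAt

/-- lower support -/
theorem two_low {l x : ℝ} (hl : 0 < l) (hx : 0 < x) :
    l * e l - 2 / 3 * (-(l * deriv e l + e l)) * l ^ (-(1 / 2) : ℝ) *
      (x ^ (3 / 2 : ℝ) - l ^ (3 / 2 : ℝ)) ≤ x * e x := by
  obtain ⟨K, hK, h1, -⟩ := diff_of_two hG hF hl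
  rw [← K_eq_of_hasDeriv hl hK]
  exact h1 x hx

/-- upper support -/
theorem two_upp {l x : ℝ} (hl : 0 < l) (hx : 0 < x) :
    x * e x ≤ l * e l + l ^ 2 * (-(l * deriv e l + e l)) * (x⁻¹ - l⁻¹) := by
  obtain ⟨K, hK, -, h1⟩ := diff_of_two hG hF hl
  rw [← K_eq_of_hasDeriv hl hK]
  exact h1 x hx

/-- the kinetic energy divided by `√l` is nonincreasing -/
theorem two_anti : AntitoneOn (fun l : ℝ => l ^ (-(1 / 2) : ℝ) * (-(l * deriv e l + e l)))
    (Ioi 0) := by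
  intro x hx y hy hxy
  rcases hxy.eq_or_lt with h | h
  · rw [h]
  have hx0 : 0 < x := hx
  have hy0 : 0 < y := hy
  have h1 := two_low hG hF hx0 hy0
  have h2 := two_low hG hF hy0 hx0
  have h3 : x ^ (3 / 2 : ℝ) < y ^ (3 / 2 : ℝ) := Real.rpow_lt_rpow hx0.le h (by norm_num)
  beta_reduce
  set Kx := -(x * deriv e x + e x) with hKx
  set Ky := -(y * deriv e y + e y) with hKy
  set a := x ^ (-(1 / 2) : ℝ) with ha
  set b := y ^ (-(1 / 2) : ℝ) with hb
  by_contra hcon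
  push Not at hcon
  have h4 : 0 < (b * Ky - a * Kx) * (y ^ (3 / 2 : ℝ) - x ^ (3 / 2 : ℝ)) :=
    mul_pos (by linarith) (by linarith)
  nlinarith

/-- `l ^ 2` times the kinetic energy is nondecreasing -/
theorem two_mono : MonotoneOn (fun l : ℝ => l ^ 2 * (-(l * deriv e l + e l))) (Ioi 0) := by
  intro x hx y hy hxy
  rcases hxy.eq_or_lt with h | h
  · rw [h]
  have hx0 : 0 < x := hx
  have hy0 : 0 < y := hy
  have h1 := two_upp hG hF hx0 hy0
  have h2 := two_upp hG hF hy0 hx0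
  have h3 : y⁻¹ < x⁻¹ := inv_strictAnti₀ hx0 h
  beta_reduce
  set Kx := -(x * deriv e x + e x) with hKx
  set Ky := -(y * deriv e y + e y) with hKy
  by_contra hcon
  push Not at hcon
  have h4 : 0 < (x ^ 2 * Kx - y ^ 2 * Ky) * (x⁻¹ - y⁻¹) := mul_pos (by linarith) (by linarith)
  nlinarith

/-- an upper bound of the energy at a smaller scale -/
theorem two_scale {l : ℝ} (hl : 0 < l) :
    64 / 15 * e (8 / 15 * l) ≤ e l - 7 * (l * deriv e l) := by
  have h1 := two_upp hG hF hl (by positivity : 0 < 8 / 15 * l)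
  have h2 : l ^ 2 * (-(l * deriv e l + e l)) * ((8 / 15 * l)⁻¹ - l⁻¹) =
      7 / 8 * l * (-(l * deriv e l + e l)) := by
    field_simp
    ring
  rw [h2] at h1
  have h3 : 8 / 15 * l * e (8 / 15 * l) = l * (8 / 15 * e (8 / 15 * l)) := by ring
  have h4 : l * e l + 7 / 8 * l * (-(l * deriv e l + e l)) =
      l * (1 / 8 * e l - 7 / 8 * (l * deriv e l)) := by ring
  rw [h3, h4] at h1
  have h5 := le_of_mul_le_mul_left h1 hl
  linarith

/-- two sided bounds of the derivative of `P = -e' / (3 l ^ 2)` -/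
theorem two_sided {P : ℝ → ℝ} (hP : ∀ l, 0 < l → P l = -(1 / (3 * l ^ 2)) * deriv e l) {l d : ℝ}
    (hl : 0 < l) (hd : HasDerivAt P d l) :
    7 / 6 * P l + e l / (18 * l ^ 3) ≤ -(l / 3) * d ∧
      -(l / 3) * d ≤ 2 * P l - 2 * e l / (9 * l ^ 3) := by
  have hde : HasDerivAt e (-(3 * l ^ 2) * P l) l := by
    refine (two_diff hG hF hl).hasDerivAt.congr_deriv ?_
    rw [hP l hl]
    field_simp
  have hK : HasDerivAt (fun x : ℝ => 3 * x ^ 3 * P x - e x)
      (9 * l ^ 2 * P l + 3 * l ^ 3 * d - -(3 * l ^ 2) * P l) l := by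
    have h1 : HasDerivAt (fun x : ℝ => 3 * x ^ 3) (3 * (3 * l ^ 2)) l := by
      have := (hasDerivAt_pow 3 l).const_mul 3
      simpa using this
    refine ((h1.mul hd).sub hde).congr_deriv ?_
    ring
  have hKeq : ∀ x : ℝ, 0 < x → 3 * x ^ 3 * P x - e x = -(x * deriv e x + e x) := by
    intro x hx
    rw [hP x hx]
    field_simp
    ring
  constructor
  · have h1 : HasDerivAt (fun x : ℝ => x ^ (-(1 / 2) : ℝ)) (-(1 / 2) * l ^ ((-(1 / 2) : ℝ) - 1)) l :=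
      Real.hasDerivAt_rpow_const (Or.inl hl.ne')
    have h2 := h1.mul hK
    have h3 : AntitoneOn ((fun x : ℝ => x ^ (-(1 / 2) : ℝ)) * fun x : ℝ => 3 * x ^ 3 * P x - e x)
        (Ioi 0) := by
      refine (two_anti hG hF).congr fun x hx => ?_
      simp only [Pi.mul_apply]
      rw [hKeq x hx]
    have h4 := Pool.Agent.Lib.MP_9cf0c9_mp.nonpos_of_anti (Ioi_mem_nhds hl) h3 h2
    have h5 : l ^ ((-(1 / 2) : ℝ) - 1) * l = l ^ (-(1 / 2) : ℝ) := by
      nth_rw 2 [← Real.rpow_one l]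
      rw [← Real.rpow_add hl]
      norm_num
    have hpos : 0 < l ^ ((-(1 / 2) : ℝ) - 1) := Real.rpow_pos_of_pos hl _
    rw [← h5] at h4
    have h6 : -(1 / 2) * l ^ ((-(1 / 2) : ℝ) - 1) * (3 * l ^ 3 * P l - e l) +
        l ^ ((-(1 / 2) : ℝ) - 1) * l * (9 * l ^ 2 * P l + 3 * l ^ 3 * d - -(3 * l ^ 2) * P l) =
        l ^ ((-(1 / 2) : ℝ) - 1) * (1 / 2 * e l + 21 / 2 * l ^ 3 * P l + 3 * l ^ 4 * d) := by ring
    rw [h6] at h4
    have h7 : 1 / 2 * e l + 21 / 2 * l ^ 3 * P l + 3 * l ^ 4 * d ≤ 0 := by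
      by_contra hcon
      push Not at hcon
      exact absurd h4 (not_le.mpr (mul_pos hpos hcon))
    have h8 : -(l / 3) * d - (7 / 6 * P l + e l / (18 * l ^ 3)) =
        -(1 / 2 * e l + 21 / 2 * l ^ 3 * P l + 3 * l ^ 4 * d) / (9 * l ^ 3) := by
      field_simp
      ring
    have h9 : 0 ≤ -(1 / 2 * e l + 21 / 2 * l ^ 3 * P l + 3 * l ^ 4 * d) / (9 * l ^ 3) :=
      div_nonneg (by linarith) (by positivity)
    linarith
  · have h1 : HasDerivAt (fun x : ℝ => x ^ 2) (2 * l) l := by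
      simpa using hasDerivAt_pow 2 l
    have h2 := (h1.mul hK).neg
    have h3 : AntitoneOn (-((fun x : ℝ => x ^ 2) * fun x : ℝ => 3 * x ^ 3 * P x - e x)) (Ioi 0) := by
      refine ((two_mono hG hF).congr fun x hx => ?_).neg
      simp only [Pi.mul_apply]
      rw [hKeq x hx]
    have h4 := Pool.Agent.Lib.MP_9cf0c9_mp.nonpos_of_anti (Ioi_mem_nhds hl) h3 h2
    have h8 : 2 * P l - 2 * e l / (9 * l ^ 3) - -(l / 3) * d =
        (2 * l * (3 * l ^ 3 * P l - e l) +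
          l ^ 2 * (9 * l ^ 2 * P l + 3 * l ^ 3 * d - -(3 * l ^ 2) * P l)) / (9 * l ^ 4) := by
      field_simp
      ring
    have h9 : 0 ≤ (2 * l * (3 * l ^ 3 * P l - e l) +
          l ^ 2 * (9 * l ^ 2 * P l + 3 * l ^ 3 * d - -(3 * l ^ 2) * P l)) / (9 * l ^ 4) :=
      div_nonneg (by linarith) (by positivity)
    linarith

/-- convexity in the volume in the compressed regime -/
theorem two_convex {L : ℝ} (hL : 0 < L)
    (hpos : ∀ l, 0 < l → l < L → 0 ≤ e l - 7 * (l * deriv e l)) :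
    ConvexOn ℝ (Ioo 0 (L ^ 3)) fun v : ℝ => e (v ^ (1 / 3 : ℝ)) := by
  have hroot : ∀ v : ℝ, 0 < v → 0 < v ^ (1 / 3 : ℝ) := fun v hv => Real.rpow_pos_of_pos hv _
  have hlt : ∀ v : ℝ, 0 < v → v < L ^ 3 → v ^ (1 / 3 : ℝ) < L := by
    intro v hv hvL
    have h1 : v ^ (1 / 3 : ℝ) < (L ^ 3) ^ (1 / 3 : ℝ) := Real.rpow_lt_rpow hv.le hvL (by norm_num)
    have h2 : (L ^ 3) ^ (1 / 3 : ℝ) = L := by
      rw [← Real.rpow_natCast, ← Real.rpow_mul hL.le]
      norm_num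
    rwa [h2] at h1
  refine convexOn_of_support_Ioo ?_ ?_
  · intro v hv
    have h1 : ContinuousAt e (v ^ (1 / 3 : ℝ)) := (two_diff hG hF (hroot v hv.1)).continuousAt
    have h2 : ContinuousAt (fun v : ℝ => v ^ (1 / 3 : ℝ)) v :=
      Real.continuousAt_rpow_const _ _ (Or.inl hv.1.ne')
    exact (ContinuousAt.comp (f := fun v : ℝ => v ^ (1 / 3 : ℝ)) h1 h2).continuousWithinAt
  · intro v hv hvL ε hε
    set l : ℝ := v ^ (1 / 3 : ℝ) with hl
    have hl0 : 0 < l := hroot v hv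
    set K : ℝ := -(l * deriv e l + e l) with hK
    have hcond := hpos l hl0 (hlt v hv hvL)
    have hcond' : 0 ≤ 8 * e l + 7 * K := by rw [hK]; linarith
    set A : ℝ := l * e l + 2 / 3 * K * l with hA
    set B : ℝ := 2 / 3 * K * l ^ (-(1 / 2) : ℝ) with hB
    have hvl : v ^ (1 / 2 : ℝ) = l ^ (3 / 2 : ℝ) := by
      rw [hl, ← Real.rpow_mul hv.le]; norm_num
    have hl32 : l ^ (-(1 / 2) : ℝ) * l ^ (3 / 2 : ℝ) = l := by
      rw [← Real.rpow_add hl0]; norm_num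
    -- the smooth support
    set h : ℝ → ℝ := fun x => A * x ^ (-(1 / 3) : ℝ) - B * x ^ (1 / 6 : ℝ) with hh
    set h' : ℝ → ℝ := fun x => A * (-(1 / 3) * x ^ ((-(1 / 3) : ℝ) - 1)) -
      B * (1 / 6 * x ^ ((1 / 6 : ℝ) - 1)) with hh'
    have hsup : ∀ x : ℝ, 0 < x → h x ≤ e (x ^ (1 / 3 : ℝ)) := by
      intro x hx
      have h1 := two_low hG hF hl0 (hroot x hx)
      rw [← hK, ← hB] at h1
      have h2 : (x ^ (1 / 3 : ℝ)) ^ (3 / 2 : ℝ) = x ^ (1 / 2 : ℝ) := by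
        rw [← Real.rpow_mul hx.le]; norm_num
      rw [h2] at h1
      have h3 : l * e l - B * (x ^ (1 / 2 : ℝ) - l ^ (3 / 2 : ℝ)) = A - B * x ^ (1 / 2 : ℝ) := by
        rw [hA, hB]
        have : 2 / 3 * K * l ^ (-(1 / 2) : ℝ) * l ^ (3 / 2 : ℝ) = 2 / 3 * K * l := by
          rw [mul_assoc, hl32]
        linarith
      rw [h3] at h1
      have h4 : x ^ (-(1 / 3) : ℝ) * x ^ (1 / 3 : ℝ) = 1 := by
        rw [← Real.rpow_add hx]; norm_num
      have h5 : x ^ (-(1 / 3) : ℝ) * x ^ (1 / 2 : ℝ) = x ^ (1 / 6 : ℝ) := by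
        rw [← Real.rpow_add hx]; norm_num
      have h6 := mul_le_mul_of_nonneg_left h1 (Real.rpow_pos_of_pos hx (-(1 / 3))).le
      calc h x = x ^ (-(1 / 3) : ℝ) * (A - B * x ^ (1 / 2 : ℝ)) := by
            simp only [hh]; rw [← h5]; ring
        _ ≤ x ^ (-(1 / 3) : ℝ) * (x ^ (1 / 3 : ℝ) * e (x ^ (1 / 3 : ℝ))) := h6
        _ = e (x ^ (1 / 3 : ℝ)) := by rw [← mul_assoc, h4, one_mul]
    have hval : h v = e l := by
      have h4 : v ^ (-(1 / 3) : ℝ) = l⁻¹ := by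
        rw [hl, ← Real.rpow_neg hv.le]
      have h5 : v ^ (1 / 6 : ℝ) = l ^ (1 / 2 : ℝ) := by
        rw [hl, ← Real.rpow_mul hv.le]; norm_num
      have h6 : l ^ (-(1 / 2) : ℝ) * l ^ (1 / 2 : ℝ) = 1 := by
        rw [← Real.rpow_add hl0]; norm_num
      simp only [hh]
      rw [h4, h5, hA, hB]
      have h7 : 2 / 3 * K * l ^ (-(1 / 2) : ℝ) * l ^ (1 / 2 : ℝ) = 2 / 3 * K := by
        rw [mul_assoc, h6, mul_one]
      rw [h7]
      field_simp
      ring
    have hd1 : ∀ x : ℝ, 0 < x → HasDerivAt h (h' x) x := by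
      intro x hx
      have h1 : HasDerivAt (fun x : ℝ => x ^ (-(1 / 3) : ℝ)) (-(1 / 3) * x ^ ((-(1 / 3) : ℝ) - 1)) x :=
        Real.hasDerivAt_rpow_const (Or.inl hx.ne')
      have h2 : HasDerivAt (fun x : ℝ => x ^ (1 / 6 : ℝ)) (1 / 6 * x ^ ((1 / 6 : ℝ) - 1)) x :=
        Real.hasDerivAt_rpow_const (Or.inl hx.ne')
      exact (h1.const_mul A).sub (h2.const_mul B)
    have hd2 : HasDerivAt h' (A * (-(1 / 3) * (((-(1 / 3) : ℝ) - 1) * v ^ ((-(1 / 3) : ℝ) - 1 - 1))) -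
        B * (1 / 6 * (((1 / 6 : ℝ) - 1) * v ^ ((1 / 6 : ℝ) - 1 - 1)))) v := by
      have h1 : HasDerivAt (fun x : ℝ => x ^ ((-(1 / 3) : ℝ) - 1))
          (((-(1 / 3) : ℝ) - 1) * v ^ ((-(1 / 3) : ℝ) - 1 - 1)) v :=
        Real.hasDerivAt_rpow_const (Or.inl hv.ne')
      have h2 : HasDerivAt (fun x : ℝ => x ^ ((1 / 6 : ℝ) - 1))
          (((1 / 6 : ℝ) - 1) * v ^ ((1 / 6 : ℝ) - 1 - 1)) v :=
        Real.hasDerivAt_rpow_const (Or.inl hv.ne')
      exact ((h1.const_mul (-(1 / 3))).const_mul A).sub ((h2.const_mul (1 / 6)).const_mul B)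
    have hd2nn : 0 ≤ A * (-(1 / 3) * (((-(1 / 3) : ℝ) - 1) * v ^ ((-(1 / 3) : ℝ) - 1 - 1))) -
        B * (1 / 6 * (((1 / 6 : ℝ) - 1) * v ^ ((1 / 6 : ℝ) - 1 - 1))) := by
      have h1 : v ^ ((-(1 / 3) : ℝ) - 1 - 1) = l⁻¹ * (v ^ 2)⁻¹ := by
        rw [hl, ← Real.rpow_natCast, ← Real.rpow_neg hv.le, ← Real.rpow_neg hv.le,
          ← Real.rpow_add hv]
        norm_num
      have h2 : v ^ ((1 / 6 : ℝ) - 1 - 1) = l ^ (1 / 2 : ℝ) * (v ^ 2)⁻¹ := by
        rw [hl, ← Real.rpow_mul hv.le, ← Real.rpow_natCast, ← Real.rpow_neg hv.le,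
          ← Real.rpow_add hv]
        norm_num
      have h6 : l ^ (-(1 / 2) : ℝ) * l ^ (1 / 2 : ℝ) = 1 := by
        rw [← Real.rpow_add hl0]; norm_num
      rw [h1, h2, hA, hB]
      have e1 : (l * e l + 2 / 3 * K * l) *
          (-(1 / 3) * ((-(1 / 3) - 1) * (l⁻¹ * (v ^ 2)⁻¹))) -
          2 / 3 * K * l ^ (-(1 / 2) : ℝ) * (1 / 6 * ((1 / 6 - 1) * (l ^ (1 / 2 : ℝ) * (v ^ 2)⁻¹))) =
          (v ^ 2)⁻¹ * ((e l + 2 / 3 * K) * (4 / 9) * (l * l⁻¹) +
            5 / 54 * K * (l ^ (-(1 / 2) : ℝ) * l ^ (1 / 2 : ℝ))) := by ring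
      rw [e1, h6, mul_inv_cancel₀ hl0.ne']
      refine mul_nonneg (by positivity) ?_
      linarith
    obtain ⟨δ, hδ, hb⟩ := local_support (h := h) (h' := h') (x := v) hd2nn
      (by filter_upwards [Ioi_mem_nhds hv] with y hy using hd1 y hy) hd2 hε
    refine ⟨h' v, min δ v, lt_min hδ hv, fun t ht => ?_⟩
    have h1 := hb t (lt_of_lt_of_le ht (min_le_left _ _))
    have h2 : 0 < v + t := by
      have h3 := lt_of_lt_of_le ht (min_le_right _ _)
      have := neg_abs_le t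
      linarith
    rw [hval] at h1
    exact h1.trans (hsup _ h2)

/-- the pressure is nonincreasing in the compressed regime -/
theorem two_anti_P {P : ℝ → ℝ} (hP : ∀ l, 0 < l → P l = -(1 / (3 * l ^ 2)) * deriv e l) {L : ℝ}
    (hL : 0 < L) (hpos : ∀ l, 0 < l → l < L → 0 ≤ e l - 7 * (l * deriv e l)) :
    AntitoneOn P (Ioo 0 L) := by
  have hconv := two_convex hG hF hL hpos
  have hroot : ∀ x : ℝ, 0 < x → (x ^ 3) ^ (1 / 3 : ℝ) = x := by
    intro x hx
    rw [← Real.rpow_natCast, ← Real.rpow_mul hx.le]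
    norm_num
  have hder : ∀ x : ℝ, 0 < x → HasDerivAt (fun v : ℝ => e (v ^ (1 / 3 : ℝ))) (-P x) (x ^ 3) := by
    intro x hx0
    have h1 : HasDerivAt (fun v : ℝ => v ^ (1 / 3 : ℝ)) (1 / 3 * (x ^ 3) ^ ((1 / 3 : ℝ) - 1)) (x ^ 3) :=
      Real.hasDerivAt_rpow_const (Or.inl (by positivity))
    have h2 : (x ^ 3) ^ ((1 / 3 : ℝ) - 1) = (x ^ 2)⁻¹ := by
      rw [← Real.rpow_natCast, ← Real.rpow_mul hx0.le, ← Real.rpow_natCast, ← Real.rpow_neg hx0.le]
      norm_num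
    rw [h2] at h1
    have h3 : HasDerivAt e (deriv e x) ((x ^ 3) ^ (1 / 3 : ℝ)) := by
      rw [hroot x hx0]
      exact (two_diff hG hF hx0).hasDerivAt
    have h4 := HasDerivAt.comp (x ^ 3) h3 h1
    refine h4.congr_deriv ?_
    rw [hP x hx0]
    field_simp
  intro x hx y hy hxy
  rcases hxy.eq_or_lt with h | h
  · rw [h]
  have hx0 : 0 < x := hx.1
  have hy0 : 0 < y := hy.1
  have h3 : x ^ 3 < y ^ 3 := pow_lt_pow_left₀ h hx0.le (by norm_num)
  have hx3 : x ^ 3 ∈ Ioo (0 : ℝ) (L ^ 3) :=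
    ⟨pow_pos hx0 3, pow_lt_pow_left₀ hx.2 hx0.le (by norm_num)⟩
  have hy3 : y ^ 3 ∈ Ioo (0 : ℝ) (L ^ 3) :=
    ⟨pow_pos hy0 3, pow_lt_pow_left₀ hy.2 hy0.le (by norm_num)⟩
  have h1 := hconv.deriv_le_slope hx3 hy3 h3 (hder x hx0).differentiableAt
  have h2 := hconv.slope_le_deriv hx3 hy3 h3 (hder y hy0).differentiableAt
  have h4 := h1.trans h2
  rw [(hder x hx0).deriv, (hder y hy0).deriv] at h4
  linarith

end abs2

end Pool.Agent.TF
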