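import Pool.Agent.Lib.MP_9cf0c9_mp.CalibErr
import Pool.Agent.Lib.MP_9cf0c9_mp.Glue
import Pool.Agent.Lib.MP_9cf0c9_mp.Persp

/-! The target statement from trial functions with small errors in the model space `X`. -/

set_option linter.unusedSectionVars false
set_option linter.unusedVariables false
set_option linter.style.haveILetI false

namespace Pool.Agent.Lib.MP_9cf0c9_mp
open MeasureTheory Set Filter Topology Pool.Agent

/-- convexity of the energy in the volume at fixed mass from trial functions with small errors -/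
theorem convex_of_trial_err {k : ℕ} (z : Fin k → ℝ) (hz : ∀ j, 0 ≤ z j) (R : Fin k → E3)
    (hR : Function.Injective R)
    (h : ∀ φ₀ : ℝ, 0 < φ₀ → ∀ R' : Fin k → TF.X, Function.Injective R' →
      ∀ ρ : TF.X → ℝ, TF.TC ρ → (∀ x, ρ x = TF.tf (TF.Vpt z R' x - TF.pot ρ x - φ₀)) →
      ∀ η : ℝ, 0 < η →
      ∃ (S : Set TF.X) (k : TF.X → ℝ) (k' : TF.X → TF.X), S.Finite ∧ TF.TrialK S k k' ∧
        -η ≤ TF.Vtr φ₀ z R' ρ k ((8 * Real.pi)⁻¹ * ∫ x, ‖k' x‖ ^ 2))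
    (lam : ℝ) (hlam : 0 ≤ lam) :
    ConvexOn ℝ (Ioi 0) (fun v : ℝ => dilated z R lam (v ^ (1 / 3 : ℝ))) ∧
      ∀ l : ℝ, 0 < l → (∀ᶠ s in 𝓝 l, DifferentiableAt ℝ (dilated z R lam) s) →
        DifferentiableAt ℝ (pressure z R lam) l → 0 ≤ -(l / 3) * deriv (pressure z R lam) l := by
  obtain ⟨e, he⟩ : ∃ e : E3, ‖e‖ = 1 := exists_norm_eq E3 zero_le_one
  obtain ⟨L, -⟩ := TF.exists_isom_X (V := E3) he
  refine target_of_GTF z hz R (fun φ₀ hφ => ?_) lam hlam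
  have h1 := TF.GTF_convex_of_calib_err hz (fun i => L (R i)) (fun i j hij => hR (L.injective hij))
    hφ (h φ₀ hφ)
  refine h1.congr fun v _ => ?_
  have h2 : (fun i => v ^ (1 / 3 : ℝ) • L (R i)) = fun i => L (v ^ (1 / 3 : ℝ) • R i) := by
    funext i
    rw [map_smul]
  beta_reduce
  rw [h2, TF.GTF_push L φ₀ z (fun i => v ^ (1 / 3 : ℝ) • R i)]

/-- the energy is differentiable in `l` -/
theorem dilated_differentiable {k : ℕ} {z : Fin k → ℝ} (hz : ∀ j, 0 ≤ z j) (R : Fin k → E3)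
    {lam : ℝ} (hlam : 0 ≤ lam) {l : ℝ} (hl : 0 < l) : DifferentiableAt ℝ (dilated z R lam) l := by
  have he : ∀ l : ℝ, dilated z R lam l = TF.eTF z (fun j => l • R j) lam := by
    intro l
    unfold dilated
    rw [energy_eq]
  have hG : ConcaveOn ℝ (Ioi 0) fun t : ℝ => t⁻¹ * dilated z R lam t⁻¹ := by
    refine (TF.gT_concave hz R hlam).congr fun t _ => ?_
    unfold TF.gT
    rw [he]
  have hF : ConvexOn ℝ (Ioi 0) fun s : ℝ =>
      s ^ (2 / 3 : ℝ) * dilated z R lam (s ^ (2 / 3 : ℝ)) := by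
    refine (TF.fS_convex hz R hlam).congr fun s hs => ?_
    have hs0 : 0 < s := hs
    have h1 : (s ^ (-(2 / 3) : ℝ))⁻¹ = s ^ (2 / 3 : ℝ) := by
      rw [Real.rpow_neg hs0.le, inv_inv]
    unfold TF.fS TF.gT
    rw [he, h1]
  exact TF.two_diff hG hF hl

/-- convexity in the volume gives a nonincreasing pressure -/
theorem pressure_anti {k : ℕ} {z : Fin k → ℝ} (hz : ∀ j, 0 ≤ z j) (R : Fin k → E3)
    {lam : ℝ} (hlam : 0 ≤ lam)
    (hconv : ConvexOn ℝ (Ioi 0) fun v : ℝ => dilated z R lam (v ^ (1 / 3 : ℝ))) :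
    AntitoneOn (pressure z R lam) (Ioi 0) := by
  have hroot : ∀ x : ℝ, 0 < x → (x ^ 3) ^ (1 / 3 : ℝ) = x := by
    intro x hx
    rw [← Real.rpow_natCast, ← Real.rpow_mul hx.le]
    norm_num
  have hder : ∀ x : ℝ, 0 < x → HasDerivAt (fun v : ℝ => dilated z R lam (v ^ (1 / 3 : ℝ)))
      (-pressure z R lam x) (x ^ 3) := by
    intro x hx0
    have h1 : HasDerivAt (fun v : ℝ => v ^ (1 / 3 : ℝ)) (1 / 3 * (x ^ 3) ^ ((1 / 3 : ℝ) - 1)) (x ^ 3) :=
      Real.hasDerivAt_rpow_const (Or.inl (by positivity))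
    have h2 : (x ^ 3) ^ ((1 / 3 : ℝ) - 1) = (x ^ 2)⁻¹ := by
      rw [← Real.rpow_natCast, ← Real.rpow_mul hx0.le, ← Real.rpow_natCast, ← Real.rpow_neg hx0.le]
      norm_num
    rw [h2] at h1
    have h3 : HasDerivAt (dilated z R lam) (deriv (dilated z R lam) x) ((x ^ 3) ^ (1 / 3 : ℝ)) := by
      rw [hroot x hx0]
      exact (dilated_differentiable hz R hlam hx0).hasDerivAt
    have h4 := HasDerivAt.comp (x ^ 3) h3 h1
    refine h4.congr_deriv ?_
    unfold pressure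
    field_simp
  intro x hx y hy hxy
  rcases hxy.eq_or_lt with h | h
  · rw [h]
  have hx0 : 0 < x := hx
  have hy0 : 0 < y := hy
  have h3 : x ^ 3 < y ^ 3 := pow_lt_pow_left₀ h hx0.le (by norm_num)
  have hx3 : x ^ 3 ∈ Ioi (0 : ℝ) := by simpa using pow_pos hx0 3
  have hy3 : y ^ 3 ∈ Ioi (0 : ℝ) := by simpa using pow_pos hy0 3
  have h1 := hconv.deriv_le_slope hx3 hy3 h3 (hder x hx0).differentiableAt
  have h2 := hconv.slope_le_deriv hx3 hy3 h3 (hder y hy0).differentiableAt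
  have h4 := h1.trans h2
  rw [(hder x hx0).deriv, (hder y hy0).deriv] at h4
  linarith

/-- **the target**: differentiable energy, nonincreasing pressure, nonnegative compressibility -/
theorem target_of_trial_err {k : ℕ} (z : Fin k → ℝ) (hz : ∀ j, 0 ≤ z j) (R : Fin k → E3)
    (hR : Function.Injective R)
    (h : ∀ φ₀ : ℝ, 0 < φ₀ → ∀ R' : Fin k → TF.X, Function.Injective R' →
      ∀ ρ : TF.X → ℝ, TF.TC ρ → (∀ x, ρ x = TF.tf (TF.Vpt z R' x - TF.pot ρ x - φ₀)) →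
      ∀ η : ℝ, 0 < η →
      ∃ (S : Set TF.X) (k : TF.X → ℝ) (k' : TF.X → TF.X), S.Finite ∧ TF.TrialK S k k' ∧
        -η ≤ TF.Vtr φ₀ z R' ρ k ((8 * Real.pi)⁻¹ * ∫ x, ‖k' x‖ ^ 2))
    (lam : ℝ) (hlam : 0 ≤ lam) :
    (∀ l : ℝ, 0 < l → DifferentiableAt ℝ (dilated z R lam) l) ∧
      AntitoneOn (pressure z R lam) (Ioi 0) ∧
      ∀ l : ℝ, 0 < l → DifferentiableAt ℝ (pressure z R lam) l →
        0 ≤ -(l / 3) * deriv (pressure z R lam) l := by
  obtain ⟨h1, h2⟩ := convex_of_trial_err z hz R hR h lam hlam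
  refine ⟨fun l hl => dilated_differentiable hz R hlam hl, pressure_anti hz R hlam h1,
    fun l hl hp => h2 l hl ?_ hp⟩
  filter_upwards [Ioi_mem_nhds hl] with s hs
  exact dilated_differentiable hz R hlam hs

end Pool.Agent.Lib.MP_9cf0c9_mp
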