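import Pool.Agent.Lib.MP_9cf0c9_mp.ThinWeak36
import Pool.Agent.Lib.MP_9cf0c9_mp.TargetErr
import Pool.Agent.Lib.MP_9cf0c9_mp.Diatomic

/-! The target statement for collinear nuclei from trial functions which are locally Lipschitz off
the axis. -/

set_option linter.unusedSectionVars false
set_option linter.unusedVariables false
set_option linter.style.haveILetI false

namespace Pool.Agent.TF
open MeasureTheory Set Metric Filter Topology
open scoped ENNReal NNReal RealInnerProductSpace Gradient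

variable {ι : Type*} [Fintype ι]

/-- Convexity in the volume from trial functions which are locally Lipschitz off thin sets. -/
theorem GTF_convex_of_thin {z : ι → ℝ} (hz : ∀ i, 0 ≤ z i) (R : ι → X) {φ₀ : ℝ} (hφ : 0 < φ₀)
    (h : ∀ c : ℝ, 0 < c → ∀ ρ : X → ℝ, TC ρ →
      (∀ x, ρ x = tf (Vpt z (fun i => c • R i) x - pot ρ x - φ₀)) → ∀ η : ℝ, 0 < η →
      ∃ (S : Set X) (k : X → ℝ) (k' : X → X), Thin S ∧ TrialK S k k' ∧
        -η ≤ Vtr φ₀ z (fun i => c • R i) ρ k ((8 * Real.pi)⁻¹ * ∫ x, ‖k' x‖ ^ 2)) :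
    ConvexOn ℝ (Ioi 0) fun v : ℝ => GTF φ₀ z fun i => v ^ (1 / 3 : ℝ) • R i := by
  refine GTF_convex_of_support hφ hz R fun c hc ε hε => ?_
  obtain ⟨ρ, hρ, -, heq⟩ := exists_point_sol hz (fun i => c • R i) hφ
  obtain ⟨S, k, k', hS, hk, hV⟩ := h c hc ρ hρ heq (ε / 2) (by positivity)
  obtain ⟨B, hB⟩ := hk.bdd
  obtain ⟨a, ha⟩ := support_of_Vtr_err hz (fun i => c • R i) hφ hρ heq hk.cont.measurable hB
    (fun σ τ hσ hτ c => hS.thomson_mul hk hσ hτ c) (by positivity) hV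
  obtain ⟨δ, hδ, hsup⟩ := ha ε (by linarith)
  exact ⟨a, δ, hδ, hsup⟩

end Pool.Agent.TF

namespace Pool.Agent.Lib.MP_9cf0c9_mp
open MeasureTheory Set Filter Topology Pool.Agent

/-- the dilated energy does not see a translation of the nuclei -/
theorem dilated_translate {k : ℕ} (z : Fin k → ℝ) (R : Fin k → E3) (a : E3) (lam : ℝ) :
    dilated z (fun j => a + R j) lam = dilated z R lam := by
  funext l
  unfold dilated
  rw [energy_eq, energy_eq]
  have h := TF.eTF_translate z (fun j => l • R j) (l • a) lam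
  rw [← h]
  congr 1
  funext j
  rw [smul_add, add_comm]

theorem pressure_translate {k : ℕ} (z : Fin k → ℝ) (R : Fin k → E3) (a : E3) (lam : ℝ) :
    pressure z (fun j => a + R j) lam = pressure z R lam := by
  funext l
  unfold pressure
  rw [dilated_translate]

/-- the target statement for one configuration -/
def Target {k : ℕ} (z : Fin k → ℝ) (R : Fin k → E3) (lam : ℝ) : Prop :=
  ConvexOn ℝ (Ioi 0) (fun v : ℝ => dilated z R lam (v ^ (1 / 3 : ℝ))) ∧
    (∀ l : ℝ, 0 < l → DifferentiableAt ℝ (dilated z R lam) l) ∧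
      AntitoneOn (pressure z R lam) (Ioi 0) ∧
      ∀ l : ℝ, 0 < l → DifferentiableAt ℝ (pressure z R lam) l →
        0 ≤ -(l / 3) * deriv (pressure z R lam) l

theorem Target.translate {k : ℕ} {z : Fin k → ℝ} {R : Fin k → E3} {lam : ℝ}
    (h : Target z R lam) (a : E3) : Target z (fun j => a + R j) lam := by
  unfold Target
  rw [dilated_translate, pressure_translate]
  exact h

/-- **the target for collinear nuclei** from trial functions, locally Lipschitz off the axis, with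
small errors in the model space `X`, for nuclei on the axis -/
theorem target_of_col {k : ℕ} (z : Fin k → ℝ) (hz : ∀ j, 0 ≤ z j) (R : Fin k → E3)
    (hR : Function.Injective R) {a u : E3} {t : Fin k → ℝ} (hcol : ∀ j, R j = a + t j • u)
    (h : ∀ φ₀ : ℝ, 0 < φ₀ → ∀ R' : Fin k → TF.X, Function.Injective R' →
      (∀ i, R' i ∈ TF.Col.ax) →
      ∀ ρ : TF.X → ℝ, TF.TC ρ → (∀ x, ρ x = TF.tf (TF.Vpt z R' x - TF.pot ρ x - φ₀)) →
      ∀ η : ℝ, 0 < η →
      ∃ (k : TF.X → ℝ) (k' : TF.X → TF.X), TF.TrialK TF.Col.ax k k' ∧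
        -η ≤ TF.Vtr φ₀ z R' ρ k ((8 * Real.pi)⁻¹ * ∫ x, ‖k' x‖ ^ 2))
    (lam : ℝ) (hlam : 0 ≤ lam) : Target z R lam := by
  -- a unit vector on the line
  obtain ⟨w, s, hw, hs⟩ : ∃ (w : E3) (s : Fin k → ℝ), ‖w‖ = 1 ∧ ∀ j, R j = a + s j • w := by
    by_cases hu : u = 0
    · obtain ⟨e, he⟩ : ∃ e : E3, ‖e‖ = 1 := exists_norm_eq E3 zero_le_one
      refine ⟨e, fun _ => 0, he, fun j => ?_⟩
      rw [hcol j, hu, smul_zero, zero_smul]
    · have hn : ‖u‖ ≠ 0 := norm_ne_zero_iff.mpr hu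
      refine ⟨‖u‖⁻¹ • u, fun j => t j * ‖u‖, ?_, fun j => ?_⟩
      · rw [norm_smul, norm_inv, norm_norm, inv_mul_cancel₀ hn]
      · rw [hcol j, smul_smul, mul_assoc, mul_inv_cancel₀ hn, mul_one]
  have hRe : R = fun j => a + (fun j => s j • w) j := funext hs
  have hinj : Function.Injective s := by
    intro i j hij
    apply hR
    rw [hs i, hs j, hij]
  rw [hRe]
  refine Target.translate ?_ a
  obtain ⟨L, hL⟩ := TF.exists_isom_X (V := E3) hw
  have hRX : ∀ c : ℝ, 0 < c → Function.Injective (fun i : Fin k => c • (s i • TF.e1)) := by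
    intro c hc i j hij
    apply hinj
    have h1 : (c * s i - c * s j) • TF.e1 = 0 := by
      rw [sub_smul, ← smul_smul, ← smul_smul, sub_eq_zero]
      exact hij
    have h2 : TF.e1 ≠ 0 := by
      rw [← norm_ne_zero_iff, TF.Col.norm_e1]
      norm_num
    have h3 := (smul_eq_zero.mp h1).resolve_right h2
    have h4 : c * (s i - s j) = 0 := by linarith
    have h5 := (mul_eq_zero.mp h4).resolve_left hc.ne'
    linarith
  have hG : ∀ φ₀ : ℝ, 0 < φ₀ →
      ConvexOn ℝ (Ioi 0) fun v : ℝ => TF.GTF φ₀ z fun i => v ^ (1 / 3 : ℝ) • s i • w := by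
    intro φ₀ hφ
    have h1 := TF.GTF_convex_of_thin hz (fun i => s i • TF.e1) hφ fun c hc ρ hρ heq η hη => by
      obtain ⟨k, k', hk, hV⟩ := h φ₀ hφ (fun i => c • (s i • TF.e1)) (hRX c hc)
        (fun i => by rw [TF.Col.mem_ax]; simp [TF.e1, TF.mk]) ρ hρ heq η hη
      exact ⟨TF.Col.ax, k, k', TF.thin_ax, hk, hV⟩
    refine h1.congr fun v _ => ?_
    have h2 : (fun i => v ^ (1 / 3 : ℝ) • s i • TF.e1) =
        fun i => L (v ^ (1 / 3 : ℝ) • s i • w) := by
      funext i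
      rw [map_smul, map_smul, hL]
    beta_reduce
    rw [h2, TF.GTF_push L φ₀ z (fun i => v ^ (1 / 3 : ℝ) • s i • w)]
  obtain ⟨h1, h2⟩ := target_of_GTF z hz (fun i => s i • w) hG lam hlam
  refine ⟨h1, fun l hl => dilated_differentiable hz _ hlam hl, pressure_anti hz _ hlam h1,
    fun l hl hp => h2 l hl ?_ hp⟩
  filter_upwards [Ioi_mem_nhds hl] with s hs
  exact dilated_differentiable hz _ hlam hs

/-- two nuclei are collinear -/
theorem target_of_two (z : Fin 2 → ℝ) (hz : ∀ j, 0 ≤ z j) (R : Fin 2 → E3)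
    (hR : Function.Injective R)
    (h : ∀ φ₀ : ℝ, 0 < φ₀ → ∀ R' : Fin 2 → TF.X, Function.Injective R' →
      (∀ i, R' i ∈ TF.Col.ax) →
      ∀ ρ : TF.X → ℝ, TF.TC ρ → (∀ x, ρ x = TF.tf (TF.Vpt z R' x - TF.pot ρ x - φ₀)) →
      ∀ η : ℝ, 0 < η →
      ∃ (k : TF.X → ℝ) (k' : TF.X → TF.X), TF.TrialK TF.Col.ax k k' ∧
        -η ≤ TF.Vtr φ₀ z R' ρ k ((8 * Real.pi)⁻¹ * ∫ x, ‖k' x‖ ^ 2))
    (lam : ℝ) (hlam : 0 ≤ lam) : Target z R lam := by
  refine target_of_col z hz R hR (a := R 0) (u := R 1 - R 0) (t := ![0, 1]) (fun j => ?_) h lam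
    hlam
  fin_cases j
  · simp
  · simp

end Pool.Agent.Lib.MP_9cf0c9_mp
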