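import Pool.Agent.Lib.MP_9cf0c9_mp.Mirror39
import Pool.Agent.Lib.MP_9cf0c9_mp.Chain

/-! The direction of the gradient of a Thomas-Fermi potential: half space conditions by moving
planes, and the box for two nuclei. -/

set_option autoImplicit false
set_option linter.unusedSectionVars false
set_option linter.unusedVariables false
set_option linter.style.haveILetI false

namespace Pool.Agent.TF
open MeasureTheory Set Metric Filter Topology
open scoped ENNReal NNReal RealInnerProductSpace Gradient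

variable {ι : Type*} [Fintype ι]

theorem ev_off {R : ι → X} {x e : X} (hx : ∀ i, x ≠ R i) :
    ∀ᶠ y in 𝓝 x, (∀ i, y ≠ R i) ∧ ∀ i, mir x e y ≠ R i := by
  have h0 : ∀ᶠ y in 𝓝 x, ∀ i, y ≠ R i := by
    rw [Filter.eventually_all]
    exact fun i => isOpen_ne.mem_nhds (hx i)
  have h1 : Tendsto (mir x e) (𝓝 x) (𝓝 x) := by
    have h2 : mir x e x = x := mir_fix (by unfold hgt; rw [sub_self, inner_zero_left])
    have h3 := (mir_continuous x e).tendsto x
    rwa [h2] at h3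
  exact h0.and (h1.eventually h0)

theorem hgt_self (x e : X) : hgt x e x = 0 := by
  unfold hgt
  rw [sub_self, inner_zero_left]

/-- reduction to unit vectors -/
theorem unit_red {x e g : X} {Q : X → Prop} (hQ : ∀ c : ℝ, 0 < c → Q e → Q (c • e))
    (h : ∀ e : X, ‖e‖ = 1 → Q e → 0 ≤ ⟪g, e⟫) (he : Q e) : 0 ≤ ⟪g, e⟫ := by
  rcases eq_or_ne e 0 with h0 | h0
  · rw [h0, inner_zero_right]
  · have hn : 0 < ‖e‖ := norm_pos_iff.mpr h0
    have h1 := h (‖e‖⁻¹ • e) (by rw [norm_smul, norm_inv, norm_norm, inv_mul_cancel₀ hn.ne'])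
      (hQ _ (inv_pos.mpr hn) he)
    rw [real_inner_smul_right] at h1
    exact nonneg_of_mul_nonneg_right h1 (inv_pos.mpr hn)

/-- the gradient points to the side where all nuclei are -/
theorem grad_side {z : ι → ℝ} (hz : ∀ i, 0 ≤ z i) {R : ι → X} {φ : ℝ} {ρ : X → ℝ}
    (h : Sol φ z R ρ) {x : X} (hx : ∀ i, x ≠ R i) {g : X}
    (hg : HasGradientAt (psi φ z R ρ) g x) {e : X}
    (he : ∀ i, 0 < z i → 0 ≤ ⟪R i - x, e⟫) : 0 ≤ ⟪g, e⟫ := by
  refine unit_red (x := x) (Q := fun e => ∀ i, 0 < z i → 0 ≤ ⟪R i - x, e⟫) ?_ ?_ he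
  · intro c hc h1 i hi
    rw [real_inner_smul_right]
    exact mul_nonneg hc.le (h1 i hi)
  · intro e he1 he
    refine inner_grad_nonneg_of_mir (o := x) he1 (hgt_self x e) hg ?_
    filter_upwards [ev_off (e := e) hx] with y hy hy0
    exact psi_mir_le_side he1 hz h he hy0 hy.1 hy.2

/-- comparison of gradients: the nuclei of the smaller potential are in front, the extra charges
are behind -/
theorem grad_split {z z' : ι → ℝ} (hz : ∀ i, 0 ≤ z i) (hzz : ∀ i, z i ≤ z' i)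
    {R : ι → X} {φ φ' : ℝ} (hφ : φ' ≤ φ) {ρ ρ' : X → ℝ}
    (h : Sol φ z R ρ) (h' : Sol φ' z' R ρ') {x : X} (hx : ∀ i, x ≠ R i) {g g' : X}
    (hg : HasGradientAt (psi φ z R ρ) g x) (hg' : HasGradientAt (psi φ' z' R ρ') g' x) {e : X}
    (he : ∀ i, 0 < z i → 0 ≤ ⟪R i - x, e⟫) (he' : ∀ i, z i < z' i → ⟪R i - x, e⟫ ≤ 0) :
    ⟪g', e⟫ ≤ ⟪g, e⟫ := by
  have key : 0 ≤ ⟪g - g', e⟫ := by
    refine unit_red (x := x) (Q := fun e => (∀ i, 0 < z i → 0 ≤ ⟪R i - x, e⟫) ∧
      ∀ i, z i < z' i → ⟪R i - x, e⟫ ≤ 0) ?_ ?_ ⟨he, he'⟩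
    · rintro c hc ⟨h1, h2⟩
      refine ⟨fun i hi => ?_, fun i hi => ?_⟩
      · rw [real_inner_smul_right]
        exact mul_nonneg hc.le (h1 i hi)
      · rw [real_inner_smul_right]
        exact mul_nonpos_of_nonneg_of_nonpos hc.le (h2 i hi)
    · rintro e he1 ⟨h1, h2⟩
      refine inner_grad_nonneg_of_mir (o := x) he1 (hgt_self x e) (hg_sub hg hg') ?_
      filter_upwards [ev_off (e := e) hx] with y hy hy0
      have h3 := psi_diff_mir_le_side he1 hz hzz hφ h h' h1 h2 hy0 hy.2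
      linarith
  rw [inner_sub_left] at key
  linarith

/-- the field of an isolated ion -/
theorem ion_hasGradientAt {z φ : ℝ} (hz : 0 ≤ z) (hφ : 0 < φ) {P x : X} (hx : x ≠ P) :
    HasGradientAt (fun y => ionψ z φ ‖y - P‖)
      (-(ionq z φ ‖x - P‖ / ‖x - P‖ ^ 2) • (‖x - P‖⁻¹ • (x - P))) x := by
  have hn : 0 < ‖x - P‖ := norm_pos_iff.mpr (sub_ne_zero.mpr hx)
  have h1 := (ion_ion hz hφ).dψ ‖x - P‖ hn
  have h2 := hg_comp (u := fun y => ‖y - P‖) h1 (hg_dist P hx)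
  rwa [neg_div] at h2

/-- the nucleus `j` is in front, all other nuclei are behind -/
theorem grad_ion {z : ι → ℝ} (hz : ∀ i, 0 ≤ z i) {R : ι → X} {φ : ℝ} (hφ : 0 < φ) {ρ : X → ℝ}
    (h : Sol φ z R ρ) {x : X} (hx : ∀ i, x ≠ R i) {g : X}
    (hg : HasGradientAt (psi φ z R ρ) g x) (j : ι) {e : X}
    (he : 0 ≤ ⟪R j - x, e⟫) (he' : ∀ i, i ≠ j → ⟪R i - x, e⟫ ≤ 0) :
    ⟪g, e⟫ ≤ -(ionq (z j) φ ‖x - R j‖ / ‖x - R j‖ ^ 2) * ⟪‖x - R j‖⁻¹ • (x - R j), e⟫ := by
  classical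
  have hG := ion_hasGradientAt (hz j) hφ (hx j)
  have key : 0 ≤ ⟪-(ionq (z j) φ ‖x - R j‖ / ‖x - R j‖ ^ 2) • (‖x - R j‖⁻¹ • (x - R j)) - g,
      e⟫ := by
    refine unit_red (x := x) (Q := fun e => 0 ≤ ⟪R j - x, e⟫ ∧
      ∀ i, i ≠ j → ⟪R i - x, e⟫ ≤ 0) ?_ ?_ ⟨he, he'⟩
    · rintro c hc ⟨h1, h2⟩
      refine ⟨?_, fun i hi => ?_⟩
      · rw [real_inner_smul_right]
        exact mul_nonneg hc.le h1
      · rw [real_inner_smul_right]
        exact mul_nonpos_of_nonneg_of_nonpos hc.le (h2 i hi)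
    · rintro e he1 ⟨h1, h2⟩
      refine inner_grad_nonneg_of_mir (o := x) he1 (hgt_self x e) (hg_sub hG hg) ?_
      filter_upwards [ev_off (e := e) hx] with y hy hy0
      have h3 := ion_mir_le he1 hz hφ h j h1 h2 hy0 hy.1 hy.2
      linarith
  rw [inner_sub_left, real_inner_smul_left] at key
  linarith

/-! ### the box for two nuclei -/

theorem box_alg {u v G : X} {p q : ℝ} (hu : ‖u‖ = 1) (hv : ‖v‖ = 1) (hc : ⟪u, v⟫ ^ 2 < 1)
    (h1 : ∀ e : X, 0 ≤ ⟪u, e⟫ → 0 ≤ ⟪v, e⟫ → 0 ≤ ⟪G, e⟫)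
    (h2 : ∀ e : X, 0 ≤ ⟪u, e⟫ → ⟪v, e⟫ ≤ 0 → ⟪G, e⟫ ≤ p * ⟪u, e⟫)
    (h3 : ∀ e : X, ⟪u, e⟫ ≤ 0 → 0 ≤ ⟪v, e⟫ → ⟪G, e⟫ ≤ q * ⟪v, e⟫) :
    ∃ α β : ℝ, G = α • u + β • v ∧ 0 ≤ α ∧ α ≤ p ∧ 0 ≤ β ∧ β ≤ q := by
  obtain ⟨c, hcdef⟩ : ∃ c : ℝ, c = ⟪u, v⟫ := ⟨_, rfl⟩
  rw [← hcdef] at hc
  have huu : ⟪u, u⟫ = 1 := by rw [real_inner_self_eq_norm_sq, hu]; norm_num
  have hvv : ⟪v, v⟫ = 1 := by rw [real_inner_self_eq_norm_sq, hv]; norm_num
  have hvu : ⟪v, u⟫ = c := by rw [hcdef]; exact real_inner_comm u v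
  obtain ⟨s, hs⟩ : ∃ s : ℝ, s = (1 - c ^ 2)⁻¹ := ⟨_, rfl⟩
  have hs0 : 0 < 1 - c ^ 2 := by linarith
  have hss : s * (1 - c ^ 2) = 1 := by rw [hs]; exact inv_mul_cancel₀ hs0.ne'
  obtain ⟨U, hU⟩ : ∃ U : X, U = s • (u - c • v) := ⟨_, rfl⟩
  obtain ⟨W, hW⟩ : ∃ W : X, W = s • (v - c • u) := ⟨_, rfl⟩
  have uU : ⟪u, U⟫ = 1 := by
    rw [hU, real_inner_smul_right, inner_sub_right, real_inner_smul_right, huu, ← hcdef]
    nlinarith
  have vU : ⟪v, U⟫ = 0 := by
    rw [hU, real_inner_smul_right, inner_sub_right, real_inner_smul_right, hvu, hvv]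
    ring
  have uW : ⟪u, W⟫ = 0 := by
    rw [hW, real_inner_smul_right, inner_sub_right, real_inner_smul_right, huu, ← hcdef]
    ring
  have vW : ⟪v, W⟫ = 1 := by
    rw [hW, real_inner_smul_right, inner_sub_right, real_inner_smul_right, hvu, hvv]
    nlinarith
  refine ⟨⟪G, U⟫, ⟪G, W⟫, ?_, ?_, ?_, ?_, ?_⟩
  · obtain ⟨D, hD⟩ : ∃ D : X, D = G - (⟪G, U⟫ • u + ⟪G, W⟫ • v) := ⟨_, rfl⟩
    have uD : ⟪D, U⟫ = 0 := by
      rw [hD, inner_sub_left, inner_add_left, real_inner_smul_left, real_inner_smul_left, uU, vU]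
      ring
    have wD : ⟪D, W⟫ = 0 := by
      rw [hD, inner_sub_left, inner_add_left, real_inner_smul_left, real_inner_smul_left, uW, vW]
      ring
    -- `u = U + c W`, `v = W + c U`
    have eu : U + c • W = u := by
      calc U + c • W = (s * (1 - c ^ 2)) • u := by rw [hU, hW]; module
        _ = u := by rw [hss, one_smul]
    have ev : W + c • U = v := by
      calc W + c • U = (s * (1 - c ^ 2)) • v := by rw [hU, hW]; module
        _ = v := by rw [hss, one_smul]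
    have Du : ⟪D, u⟫ = 0 := by
      rw [← eu, inner_add_right, real_inner_smul_right, uD, wD]
      ring
    have Dv : ⟪D, v⟫ = 0 := by
      rw [← ev, inner_add_right, real_inner_smul_right, uD, wD]
      ring
    have uD' : ⟪u, D⟫ = 0 := by rw [real_inner_comm]; exact Du
    have vD' : ⟪v, D⟫ = 0 := by rw [real_inner_comm]; exact Dv
    have g1 := h1 (-D) (by rw [inner_neg_right, uD', neg_zero])
      (by rw [inner_neg_right, vD', neg_zero])
    rw [inner_neg_right] at g1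
    have e1 : ⟪G, D⟫ = ⟪D, D⟫ := by
      have : G = D + (⟪G, U⟫ • u + ⟪G, W⟫ • v) := by
        rw [hD]
        abel
      conv_lhs => rw [this]
      rw [inner_add_left, inner_add_left, real_inner_smul_left, real_inner_smul_left, uD', vD']
      ring
    have e2 : ⟪D, D⟫ ≤ 0 := by linarith
    have e3 : D = 0 := by
      rw [real_inner_self_eq_norm_sq] at e2
      have : ‖D‖ = 0 := by
        have := norm_nonneg D
        nlinarith
      exact norm_eq_zero.mp this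
    rw [hD] at e3
    exact sub_eq_zero.mp e3
  · exact h1 U (by rw [uU]; norm_num) (by rw [vU])
  · have := h2 U (by rw [uU]; norm_num) (by rw [vU])
    rwa [uU, mul_one] at this
  · exact h1 W (by rw [uW]) (by rw [vW]; norm_num)
  · have := h3 W (by rw [uW]) (by rw [vW]; norm_num)
    rwa [vW, mul_one] at this

/-- the unit vector from `P` to `x` -/
noncomputable def nv (P x : X) : X := ‖x - P‖⁻¹ • (x - P)

theorem norm_nv {P x : X} (hx : x ≠ P) : ‖nv P x‖ = 1 := by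
  have hn : 0 < ‖x - P‖ := norm_pos_iff.mpr (sub_ne_zero.mpr hx)
  unfold nv
  rw [norm_smul, norm_inv, norm_norm, inv_mul_cancel₀ hn.ne']

theorem inner_nv {P x e : X} : ⟪nv P x, e⟫ = -(‖x - P‖⁻¹ * ⟪P - x, e⟫) := by
  unfold nv
  rw [real_inner_smul_left, ← neg_sub P x, inner_neg_left]
  ring

theorem nv_nonneg_iff {P x e : X} (hx : x ≠ P) : 0 ≤ ⟪nv P x, e⟫ ↔ ⟪P - x, e⟫ ≤ 0 := by
  have hn : 0 < ‖x - P‖⁻¹ := inv_pos.mpr (norm_pos_iff.mpr (sub_ne_zero.mpr hx))
  rw [inner_nv]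
  constructor
  · intro h
    by_contra h1
    push Not at h1
    have := mul_pos hn h1
    linarith
  · intro h
    have := mul_nonpos_of_nonneg_of_nonpos hn.le h
    linarith

theorem nv_nonpos_iff {P x e : X} (hx : x ≠ P) : ⟪nv P x, e⟫ ≤ 0 ↔ 0 ≤ ⟪P - x, e⟫ := by
  have h := nv_nonneg_iff (e := -e) hx
  rw [inner_neg_right, inner_neg_right] at h
  constructor
  · intro h1
    have := h.mp (by linarith)
    linarith
  · intro h1
    have := h.mpr (by linarith)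
    linarith

/-- the field strength of the isolated ion -/
noncomputable def ionE (z φ r : ℝ) : ℝ := ionq z φ r / r ^ 2

/-- two nuclei: minus the gradient is a combination of the two radial directions with
coefficients between zero and the field strengths of the isolated ions -/
theorem grad_box {z : Fin 2 → ℝ} (hz : ∀ i, 0 ≤ z i) {R : Fin 2 → X} {φ : ℝ} (hφ : 0 < φ)
    {ρ : X → ℝ} (h : Sol φ z R ρ) {x : X} (hx : ∀ i, x ≠ R i)
    (hc : ⟪nv (R 0) x, nv (R 1) x⟫ ^ 2 < 1) {g : X} (hg : HasGradientAt (psi φ z R ρ) g x) :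
    ∃ α β : ℝ, -g = α • nv (R 0) x + β • nv (R 1) x ∧ 0 ≤ α ∧ α ≤ ionE (z 0) φ ‖x - R 0‖ ∧
      0 ≤ β ∧ β ≤ ionE (z 1) φ ‖x - R 1‖ := by
  have h01 : (0 : Fin 2) ≠ 1 := by decide
  refine box_alg (norm_nv (hx 0)) (norm_nv (hx 1)) hc ?_ ?_ ?_
  · intro e h1 h2
    rw [nv_nonneg_iff (hx 0)] at h1
    rw [nv_nonneg_iff (hx 1)] at h2
    have := grad_side hz h hx hg (e := -e) (fun i _ => by
      rw [inner_neg_right]
      fin_cases i
      · simp only [Fin.zero_eta]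
        linarith
      · simp only [Fin.mk_one]
        linarith)
    rw [inner_neg_right] at this
    rwa [inner_neg_left]
  · intro e h1 h2
    have h1' := h1
    rw [nv_nonneg_iff (hx 0)] at h1
    rw [nv_nonpos_iff (hx 1)] at h2
    have := grad_ion hz hφ h hx hg 0 (e := -e) (by rw [inner_neg_right]; linarith) (fun i hi => by
      rw [inner_neg_right]
      fin_cases i
      · exact absurd rfl hi
      · simp only [Fin.mk_one]
        linarith)
    rw [inner_neg_right, inner_neg_right] at this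
    rw [inner_neg_left]
    unfold ionE nv
    linarith
  · intro e h1 h2
    rw [nv_nonpos_iff (hx 0)] at h1
    rw [nv_nonneg_iff (hx 1)] at h2
    have := grad_ion hz hφ h hx hg 1 (e := -e) (by rw [inner_neg_right]; linarith) (fun i hi => by
      rw [inner_neg_right]
      fin_cases i
      · simp only [Fin.zero_eta]
        linarith
      · exact absurd rfl hi)
    rw [inner_neg_right, inner_neg_right] at this
    rw [inner_neg_left]
    unfold ionE nv
    linarith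

/-- almost every point is off the axis through two points -/
theorem ae_offaxis {a b : X} (hab : a ≠ b) : ∀ᵐ x : X, ⟪nv a x, nv b x⟫ ^ 2 < 1 := by
  set s : AffineSubspace ℝ X := AffineSubspace.mk' a (ℝ ∙ (b - a)) with hs
  have hba : b - a ≠ 0 := sub_ne_zero.mpr hab.symm
  have hne : s ≠ ⊤ := by
    intro h
    have h1 : s.direction = ⊤ := by rw [h, AffineSubspace.direction_top]
    rw [hs, AffineSubspace.direction_mk'] at h1
    have h2 : Module.finrank ℝ (ℝ ∙ (b - a)) = 1 := finrank_span_singleton hba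
    rw [h1, finrank_top] at h2
    have h3 : Module.finrank ℝ X = 3 := Fact.out
    omega
  have h0 : volume (s : Set X) = 0 := Measure.addHaar_affineSubspace volume s hne
  haveI := nontriv (V := X)
  have hna : ∀ᵐ x : X, x ≠ a := by rw [ae_iff]; simp
  have hnb : ∀ᵐ x : X, x ≠ b := by rw [ae_iff]; simp
  have hns : ∀ᵐ x : X, x ∉ (s : Set X) := by
    rw [ae_iff]
    simpa using h0
  filter_upwards [hna, hnb, hns] with x hxa hxb hxs
  by_contra hcon
  push Not at hcon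
  apply hxs
  have ha : 0 < ‖x - a‖ := norm_pos_iff.mpr (sub_ne_zero.mpr hxa)
  have hb : 0 < ‖x - b‖ := norm_pos_iff.mpr (sub_ne_zero.mpr hxb)
  have nu : ‖nv a x‖ = 1 := norm_nv hxa
  have nw : ‖nv b x‖ = 1 := norm_nv hxb
  have ea : x - a = ‖x - a‖ • nv a x := by
    unfold nv
    rw [smul_smul, mul_inv_cancel₀ ha.ne', one_smul]
  have eb : x - b = ‖x - b‖ • nv b x := by
    unfold nv
    rw [smul_smul, mul_inv_cancel₀ hb.ne', one_smul]
  -- the two unit vectors are parallel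
  have hpar : ∃ σ : ℝ, nv b x = σ • nv a x := by
    have q1 : ‖nv b x - nv a x‖ ^ 2 = 2 - 2 * ⟪nv a x, nv b x⟫ := by
      rw [@norm_sub_sq_real, nu, nw, real_inner_comm]
      ring
    have q2 : ‖nv b x + nv a x‖ ^ 2 = 2 + 2 * ⟪nv a x, nv b x⟫ := by
      rw [@norm_add_sq_real, nu, nw, real_inner_comm]
      ring
    have n1 := norm_nonneg (nv b x - nv a x)
    have n2 := norm_nonneg (nv b x + nv a x)
    rcases le_total 0 ⟪nv a x, nv b x⟫ with h | h
    · refine ⟨1, ?_⟩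
      have h1 : (1 : ℝ) ≤ ⟪nv a x, nv b x⟫ := by nlinarith
      have h2 : ‖nv b x - nv a x‖ = 0 := by nlinarith
      rw [one_smul]
      exact sub_eq_zero.mp (norm_eq_zero.mp h2)
    · refine ⟨-1, ?_⟩
      have h1 : ⟪nv a x, nv b x⟫ ≤ -1 := by nlinarith
      have h2 : ‖nv b x + nv a x‖ = 0 := by nlinarith
      rw [neg_one_smul]
      exact eq_neg_of_add_eq_zero_left (norm_eq_zero.mp h2)
  obtain ⟨σ, hσ⟩ := hpar
  have h1 : b - a = (‖x - a‖ - ‖x - b‖ * σ) • nv a x := by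
    have : b - a = (x - a) - (x - b) := by abel
    rw [this, sub_smul, mul_smul, ← hσ, ← ea, ← eb]
  have hc : ‖x - a‖ - ‖x - b‖ * σ ≠ 0 := by
    intro h
    rw [h, zero_smul] at h1
    exact hba h1
  have h2 : x - a = (‖x - a‖ * (‖x - a‖ - ‖x - b‖ * σ)⁻¹) • (b - a) := by
    rw [h1, smul_smul, mul_assoc, inv_mul_cancel₀ hc, mul_one]
    exact ea
  change x ∈ s
  rw [hs, AffineSubspace.mem_mk', vsub_eq_sub, h2]
  exact Submodule.smul_mem _ _ (Submodule.mem_span_singleton_self _)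

end Pool.Agent.TF
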