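import Pool.Agent.Lib.MP_9cf0c9_mp.Cone39
import Pool.Agent.Lib.MP_9cf0c9_mp.C2

/-! The cone lemma in the letters of the calibration files. -/

set_option autoImplicit false
set_option linter.unusedSectionVars false
set_option linter.unusedVariables false

namespace Pool.Agent.TF.Grd
open MeasureTheory Set Metric Filter Topology
open scoped ENNReal NNReal RealInnerProductSpace Gradient

variable {ι : Type*} [Fintype ι] {z : ι → ℝ} (hz : ∀ i, 0 ≤ z i) (R : ι → X) {φ₀ : ℝ}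
  (hφ : 0 < φ₀) {ρ : X → ℝ} (hρ : TC ρ) (heq : ∀ x, ρ x = tf (Vpt z R x - pot ρ x - φ₀))
include hz hφ hρ heq

theorem psi'_side {x : X} (hx : ∀ i, x ≠ R i) {e : X}
    (he : ∀ i, 0 < z i → 0 ≤ ⟪R i - x, e⟫) : 0 ≤ ⟪psi' z R ρ x, e⟫ :=
  grad_side hz ⟨hρ, fun x _ => heq x⟩ hx (hasGradientAt_psi hz R hφ hρ heq hx) he

theorem psi'_ion {x : X} (hx : ∀ i, x ≠ R i) (j : ι) {e : X}
    (he : 0 ≤ ⟪R j - x, e⟫) (he' : ∀ i, i ≠ j → ⟪R i - x, e⟫ ≤ 0) :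
    ⟪psi' z R ρ x, e⟫ ≤ -ionE (z j) φ₀ ‖x - R j‖ * ⟪nv (R j) x, e⟫ :=
  grad_ion hz hφ ⟨hρ, fun x _ => heq x⟩ hx (hasGradientAt_psi hz R hφ hρ heq hx) j he he'

end Pool.Agent.TF.Grd

namespace Pool.Agent.TF.Grd
open MeasureTheory Set Metric Filter Topology
open scoped ENNReal NNReal RealInnerProductSpace Gradient

/-- two nuclei: the box for the field of the solution, off the axis -/
theorem psi'_box {z : Fin 2 → ℝ} (hz : ∀ i, 0 ≤ z i) (R : Fin 2 → X) {φ₀ : ℝ} (hφ : 0 < φ₀)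
    {ρ : X → ℝ} (hρ : TC ρ) (heq : ∀ x, ρ x = tf (Vpt z R x - pot ρ x - φ₀)) {x : X}
    (hx : ∀ i, x ≠ R i) (hc : ⟪nv (R 0) x, nv (R 1) x⟫ ^ 2 < 1) :
    ∃ α β : ℝ, -psi' z R ρ x = α • nv (R 0) x + β • nv (R 1) x ∧ 0 ≤ α ∧
      α ≤ ionE (z 0) φ₀ ‖x - R 0‖ ∧ 0 ≤ β ∧ β ≤ ionE (z 1) φ₀ ‖x - R 1‖ :=
  grad_box hz hφ ⟨hρ, fun x _ => heq x⟩ hx hc (hasGradientAt_psi hz R hφ hρ heq hx)

/-- two nuclei: the box for the field of the solution, almost everywhere -/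
theorem psi'_box_ae {z : Fin 2 → ℝ} (hz : ∀ i, 0 ≤ z i) (R : Fin 2 → X) (hR : R 0 ≠ R 1)
    {φ₀ : ℝ} (hφ : 0 < φ₀) {ρ : X → ℝ} (hρ : TC ρ)
    (heq : ∀ x, ρ x = tf (Vpt z R x - pot ρ x - φ₀)) :
    ∀ᵐ x : X, ∃ α β : ℝ, -psi' z R ρ x = α • nv (R 0) x + β • nv (R 1) x ∧ 0 ≤ α ∧
      α ≤ ionE (z 0) φ₀ ‖x - R 0‖ ∧ 0 ≤ β ∧ β ≤ ionE (z 1) φ₀ ‖x - R 1‖ := by
  filter_upwards [ae_off R, ae_offaxis hR] with x hx hc
  exact psi'_box hz R hφ hρ heq hx hc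

end Pool.Agent.TF.Grd
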