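import Pool.Agent.Lib.MP_9cf0c9_mp.Ion

/-! The isolated Thomas-Fermi ion: signs, edge, vacuum formula and the Sommerfeld bound. -/

set_option autoImplicit false
set_option linter.unusedSectionVars false
set_option linter.unusedVariables false

namespace Pool.Agent.TF
open MeasureTheory Set Metric Filter Topology

namespace Ion
variable {z φ₀ : ℝ} {ψ q : ℝ → ℝ}

theorem contψ (h : Ion z φ₀ ψ q) : ContinuousOn ψ (Ioi 0) := fun r hr =>
  (h.dψ r hr).continuousAt.continuousWithinAt

theorem contq (h : Ion z φ₀ ψ q) : ContinuousOn q (Ioi 0) := fun r hr =>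
  (h.dq r hr).continuousAt.continuousWithinAt

theorem q_anti (h : Ion z φ₀ ψ q) : AntitoneOn q (Ioi 0) := by
  refine antitoneOn_of_deriv_nonpos (convex_Ioi 0) h.contq
    (fun r hr => ((h.dq r (by simpa using hr)).differentiableAt).differentiableWithinAt)
    fun r hr => ?_
  rw [(h.dq r (by simpa using hr)).deriv]
  have := tf_nonneg (ψ r)
  have h2 : 0 ≤ 4 * Real.pi * r ^ 2 * tf (ψ r) := by positivity
  linarith

theorem q_le (h : Ion z φ₀ ψ q) {r : ℝ} (hr : 0 < r) : q r ≤ z := by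
  refine ge_of_tendsto h.q0 ?_
  filter_upwards [Ioo_mem_nhdsGT hr] with s hs
  exact h.q_anti hs.1 hr hs.2.le

/-- the enclosed charge is positive -/
theorem q_pos (h : Ion z φ₀ ψ q) (hz : 0 < z) (hφ : 0 < φ₀) {r : ℝ} (hr : 0 < r) : 0 < q r := by
  by_contra hcon
  push Not at hcon
  -- beyond `r` the potential increases to `-φ₀`
  have hq : ∀ s, r ≤ s → q s ≤ 0 := fun s hs =>
    (h.q_anti hr (lt_of_lt_of_le hr hs) hs).trans hcon
  have hmono : MonotoneOn ψ (Ici r) := by
    refine monotoneOn_of_deriv_nonneg (convex_Ici r)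
      (h.contψ.mono fun s hs => lt_of_lt_of_le hr hs)
      (fun s hs => ?_) fun s hs => ?_
    · rw [interior_Ici, mem_Ioi] at hs
      exact (h.dψ s (hr.trans hs)).differentiableAt.differentiableWithinAt
    · rw [interior_Ici, mem_Ioi] at hs
      rw [(h.dψ s (hr.trans hs)).deriv]
      exact div_nonneg (by linarith [hq s hs.le]) (by positivity)
  have hneg : ψ r ≤ -φ₀ := by
    refine ge_of_tendsto h.lim ?_
    filter_upwards [eventually_ge_atTop r] with s hs
    exact hmono self_mem_Ici hs hs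
  -- a point with nonnegative potential
  obtain ⟨B, hB⟩ := h.low
  set s : ℝ := min (r / 2) (z / (|B| + 1)) with hs
  have hs0 : 0 < s := lt_min (by linarith) (by positivity)
  have hsr : s < r := lt_of_le_of_lt (min_le_left _ _) (by linarith)
  have hψs : 0 ≤ ψ s := by
    have h1 := hB s hs0
    have h2 : s ≤ z / (|B| + 1) := min_le_right _ _
    have h3 : |B| + 1 ≤ z / s := by
      rw [le_div_iff₀ hs0]
      rw [le_div_iff₀ (by positivity)] at h2
      linarith
    have h4 := le_abs_self B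
    linarith
  set S : Set ℝ := {t | t ∈ Icc s r ∧ 0 ≤ ψ t} with hS
  have hcIcc : ContinuousOn ψ (Icc s r) := h.contψ.mono fun t ht => lt_of_lt_of_le hs0 ht.1
  have hSc : IsCompact S := by
    have h1 : IsClosed (Icc s r ∩ ψ ⁻¹' Ici 0) := hcIcc.preimage_isClosed_of_isClosed
      isClosed_Icc isClosed_Ici
    exact isCompact_Icc.of_isClosed_subset h1 inter_subset_left
  obtain ⟨t, htS, htmax⟩ := hSc.exists_isGreatest ⟨s, ⟨le_rfl, hsr.le⟩, hψs⟩
  have ht0 : 0 < t := lt_of_lt_of_le hs0 htS.1.1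
  have htr : t < r := lt_of_le_of_ne htS.1.2 fun e => by
    have := htS.2
    rw [e] at this
    linarith
  have hlt : ∀ u, t < u → u ≤ r → ψ u < 0 := by
    intro u htu hur
    by_contra hc
    push Not at hc
    exact absurd (htmax ⟨⟨htS.1.1.trans htu.le, hur⟩, hc⟩) (not_le.mpr htu)
  have hqc : ∀ u, t < u → u ≤ r → q u ≤ 0 := by
    intro u htu hur
    have hmq : MonotoneOn q (Icc u r) := by
      refine monotoneOn_of_deriv_nonneg (convex_Icc u r)
        (h.contq.mono fun w hw => lt_of_lt_of_le (ht0.trans htu) hw.1)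
        (fun w hw => ?_) fun w hw => ?_
      · rw [interior_Icc] at hw
        exact (h.dq w ((ht0.trans htu).trans hw.1)).differentiableAt.differentiableWithinAt
      · rw [interior_Icc] at hw
        rw [(h.dq w ((ht0.trans htu).trans hw.1)).deriv,
          tf_of_nonpos (hlt w (htu.trans hw.1) hw.2.le).le]
        simp
    exact (hmq ⟨le_rfl, hur⟩ ⟨hur, le_rfl⟩ hur).trans hcon
  have hψm : MonotoneOn ψ (Icc t r) := by
    refine monotoneOn_of_deriv_nonneg (convex_Icc t r)
      (h.contψ.mono fun w hw => lt_of_lt_of_le ht0 hw.1)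
      (fun w hw => ?_) fun w hw => ?_
    · rw [interior_Icc] at hw
      exact (h.dψ w (ht0.trans hw.1)).differentiableAt.differentiableWithinAt
    · rw [interior_Icc] at hw
      rw [(h.dψ w (ht0.trans hw.1)).deriv]
      exact div_nonneg (by linarith [hqc w hw.1 hw.2.le]) (by positivity)
  have h1 := hψm ⟨le_rfl, htr.le⟩ ⟨htr.le, le_rfl⟩ htr.le
  have h2 := htS.2
  linarith

theorem ψ_anti (h : Ion z φ₀ ψ q) (hz : 0 < z) (hφ : 0 < φ₀) : StrictAntiOn ψ (Ioi 0) := by
  refine strictAntiOn_of_deriv_neg (convex_Ioi 0) h.contψ fun r hr => ?_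
  have hr0 : 0 < r := by simpa using hr
  rw [(h.dψ r hr0).deriv]
  have := h.q_pos hz hφ hr0
  exact div_neg_of_neg_of_pos (by linarith) (by positivity)

/-- the edge of the ion -/
theorem exists_edge (h : Ion z φ₀ ψ q) (hz : 0 < z) (hφ : 0 < φ₀) :
    ∃ r₀, 0 < r₀ ∧ ψ r₀ = 0 ∧ (∀ r, 0 < r → r < r₀ → 0 < ψ r) ∧ ∀ r, r₀ < r → ψ r < 0 := by
  obtain ⟨B, hB⟩ := h.low
  set s : ℝ := z / (|B| + 1) with hs
  have hs0 : 0 < s := by positivity
  have hψs : 0 ≤ ψ s := by
    have h1 := hB s hs0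
    have h3 : z / s = |B| + 1 := by rw [hs]; field_simp
    have h4 := le_abs_self B
    linarith
  have hev : ∀ᶠ t in atTop, ψ t < 0 := h.lim.eventually_lt_const (by linarith)
  obtain ⟨T, hT1, hT2⟩ := (hev.and (eventually_gt_atTop s)).exists
  obtain ⟨r₀, hr, hr0⟩ := intermediate_value_Icc' hT2.le
    (h.contψ.mono fun t ht => lt_of_lt_of_le hs0 ht.1) ⟨hT1.le, hψs⟩
  have hr00 : 0 < r₀ := lt_of_lt_of_le hs0 hr.1
  refine ⟨r₀, hr00, hr0, fun r h1 h2 => ?_, fun r h1 => ?_⟩
  · have := h.ψ_anti hz hφ h1 hr00 h2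
    linarith
  · have := h.ψ_anti hz hφ hr00 (hr00.trans h1) h1
    linarith

/-- the difference between `X = q / r` and `ψ + φ₀` -/
theorem dD (h : Ion z φ₀ ψ q) {r : ℝ} (hr : 0 < r) :
    HasDerivAt (fun r => q r / r - ψ r - φ₀) (-(4 * Real.pi * r * tf (ψ r))) r := by
  have h1 := (((h.dq r hr).div (hasDerivAt_id r) hr.ne').sub (h.dψ r hr)).sub_const φ₀
  refine h1.congr_deriv ?_
  simp only [id]
  field_simp
  ring

theorem D_lim (h : Ion z φ₀ ψ q) (hz : 0 < z) (hφ : 0 < φ₀) :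
    Tendsto (fun r => q r / r - ψ r - φ₀) atTop (𝓝 0) := by
  have h1 : Tendsto (fun r => q r / r) atTop (𝓝 0) := by
    have h2 : Tendsto (fun r : ℝ => z / r) atTop (𝓝 0) := tendsto_const_nhds.div_atTop tendsto_id
    refine tendsto_of_tendsto_of_tendsto_of_le_of_le' tendsto_const_nhds h2 ?_ ?_
    · filter_upwards [eventually_gt_atTop (0 : ℝ)] with r hr
      exact div_nonneg (h.q_pos hz hφ hr).le hr.le
    · filter_upwards [eventually_gt_atTop (0 : ℝ)] with r hr
      exact div_le_div_of_nonneg_right (h.q_le hr) hr.le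
  have h3 := (h1.sub h.lim).sub_const φ₀
  simpa using h3

theorem D_anti (h : Ion z φ₀ ψ q) : AntitoneOn (fun r => q r / r - ψ r - φ₀) (Ioi 0) := by
  refine antitoneOn_of_deriv_nonpos (convex_Ioi 0)
    (fun r hr => (h.dD hr).continuousAt.continuousWithinAt)
    (fun r hr => (h.dD (by simpa using hr)).differentiableAt.differentiableWithinAt)
    fun r hr => ?_
  have hr0 : 0 < r := by simpa using hr
  rw [(h.dD hr0).deriv]
  have := tf_nonneg (ψ r)
  have h2 : 0 ≤ 4 * Real.pi * r * tf (ψ r) := by positivity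
  linarith

/-- `ψ + φ₀ ≤ X` -/
theorem le_X (h : Ion z φ₀ ψ q) (hz : 0 < z) (hφ : 0 < φ₀) {r : ℝ} (hr : 0 < r) :
    ψ r + φ₀ ≤ q r / r := by
  have h1 : 0 ≤ q r / r - ψ r - φ₀ := by
    refine le_of_tendsto (h.D_lim hz hφ) ?_
    filter_upwards [eventually_ge_atTop r] with s hs
    exact h.D_anti hr (lt_of_lt_of_le hr hs) hs
  linarith

/-- the vacuum formulas outside the edge -/
theorem vacuum (h : Ion z φ₀ ψ q) (hz : 0 < z) (hφ : 0 < φ₀) {r₀ : ℝ} (hr₀ : 0 < r₀)
    (he : ψ r₀ = 0) {r : ℝ} (hr : r₀ ≤ r) :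
    q r = q r₀ ∧ q r₀ = φ₀ * r₀ ∧ ψ r = q r₀ / r - φ₀ := by
  have hneg : ∀ s, r₀ ≤ s → ψ s ≤ 0 := by
    intro s hs
    have := h.ψ_anti hz hφ |>.antitoneOn hr₀ (lt_of_lt_of_le hr₀ hs) hs
    linarith
  have hq : ∀ s, r₀ ≤ s → q s = q r₀ := by
    intro s hs
    have hmq : MonotoneOn q (Icc r₀ s) := by
      refine monotoneOn_of_deriv_nonneg (convex_Icc r₀ s)
        (h.contq.mono fun w hw => lt_of_lt_of_le hr₀ hw.1)
        (fun w hw => ?_) fun w hw => ?_
      · rw [interior_Icc] at hw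
        exact (h.dq w (hr₀.trans hw.1)).differentiableAt.differentiableWithinAt
      · rw [interior_Icc] at hw
        rw [(h.dq w (hr₀.trans hw.1)).deriv, tf_of_nonpos (hneg w hw.1.le)]
        simp
    exact le_antisymm (h.q_anti hr₀ (lt_of_lt_of_le hr₀ hs) hs)
      (hmq ⟨le_rfl, hs⟩ ⟨hs, le_rfl⟩ hs)
  have hD : ∀ s, r₀ ≤ s → q s / s - ψ s - φ₀ = 0 := by
    intro s hs
    have hs0 : 0 < s := lt_of_lt_of_le hr₀ hs
    have hmD : MonotoneOn (fun r => q r / r - ψ r - φ₀) (Ici s) := by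
      refine monotoneOn_of_deriv_nonneg (convex_Ici s)
        (fun w hw => (h.dD (lt_of_lt_of_le hs0 hw)).continuousAt.continuousWithinAt)
        (fun w hw => ?_) fun w hw => ?_
      · rw [interior_Ici] at hw
        exact (h.dD (hs0.trans hw)).differentiableAt.differentiableWithinAt
      · rw [interior_Ici] at hw
        rw [(h.dD (hs0.trans hw)).deriv, tf_of_nonpos (hneg w (hs.trans (le_of_lt hw)))]
        simp
    have h1 : q s / s - ψ s - φ₀ ≤ 0 := by
      refine ge_of_tendsto (h.D_lim hz hφ) ?_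
      filter_upwards [eventually_ge_atTop s] with w hw
      exact hmD self_mem_Ici hw hw
    have h2 := h.le_X hz hφ hs0
    linarith
  refine ⟨hq r hr, ?_, ?_⟩
  · have h1 := hD r₀ le_rfl
    rw [he] at h1
    field_simp at h1
    linarith
  · have h1 := hD r hr
    rw [hq r hr] at h1
    linarith

/-- the Sommerfeld bound -/
theorem sommerfeld (h : Ion z φ₀ ψ q) (hz : 0 ≤ z) (hφ : 0 ≤ φ₀) {r : ℝ} (hr : 0 < r) :
    ψ r ≤ 9 / Real.pi ^ 2 / r ^ 4 := by
  set A : ℝ := 9 / Real.pi ^ 2 with hA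
  have hA0 : 0 < A := by positivity
  set E : ℝ → ℝ := fun r => ψ r - A / r ^ 4 with hE
  by_contra hcon
  push Not at hcon
  have hEr : 0 < E r := by simp only [hE]; linarith
  have hdE : ∀ s, 0 < s → HasDerivAt E ((4 * A / s ^ 3 - q s) / s ^ 2) s := by
    intro s hs
    have h1 : HasDerivAt (fun s : ℝ => A / s ^ 4) (-(4 * A) / s ^ 5) s := by
      have := (hasDerivAt_const s A).div (hasDerivAt_pow 4 s) (by positivity)
      refine this.congr_deriv ?_
      field_simp
      ring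
    refine ((h.dψ s hs).sub h1).congr_deriv ?_
    field_simp
    ring
  have hEc : ContinuousOn E (Ioi 0) := fun s hs => (hdE s hs).continuousAt.continuousWithinAt
  -- left end
  set s : ℝ := min (r / 2) (min 1 (A / (z + 1))) with hs
  have hs0 : 0 < s := lt_min (by linarith) (lt_min one_pos (by positivity))
  have hsr : s < r := lt_of_le_of_lt (min_le_left _ _) (by linarith)
  have hs1 : s ≤ 1 := (min_le_right _ _).trans (min_le_left _ _)
  have hsA : s ≤ A / (z + 1) := (min_le_right _ _).trans (min_le_right _ _)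
  have hEs : E s ≤ 0 := by
    have h1 := h.up s hs0
    have h2 : s * (z + 1) ≤ A := by
      rwa [le_div_iff₀ (by linarith)] at hsA
    have h3 : s ^ 3 ≤ s := by
      have : s ^ 2 ≤ 1 := pow_le_one₀ hs0.le hs1
      nlinarith
    have h4 : z * s ^ 3 ≤ A := by nlinarith
    have h5 : z / s ≤ A / s ^ 4 := by
      rw [div_le_div_iff₀ hs0 (by positivity)]
      nlinarith
    simp only [hE]
    linarith
  -- right end
  have hev : ∀ᶠ t in atTop, ψ t < E r := h.lim.eventually_lt_const (by linarith)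
  obtain ⟨T, hT1, hT2⟩ := (hev.and (eventually_gt_atTop r)).exists
  have hT0 : 0 < T := hr.trans hT2
  have hET : E T < E r := by
    have : 0 < A / T ^ 4 := by positivity
    simp only [hE] at hT1 ⊢
    linarith
  obtain ⟨t, ht, hmax⟩ := isCompact_Icc.exists_isMaxOn (nonempty_Icc.mpr (hsr.trans hT2).le)
    (hEc.mono fun w (hw : w ∈ Icc s T) => lt_of_lt_of_le hs0 hw.1)
  have hEt : E r ≤ E t := hmax ⟨hsr.le, hT2.le⟩
  have hst : s < t := lt_of_le_of_ne ht.1 fun e => by rw [← e] at hEt; linarith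
  have htT : t < T := lt_of_le_of_ne ht.2 fun e => by rw [e] at hEt; linarith
  have ht0 : 0 < t := hs0.trans hst
  have hloc : IsLocalMax E t := by
    filter_upwards [Icc_mem_nhds hst htT] with w hw
    exact hmax hw
  have hd0 := hloc.hasDerivAt_eq_zero (hdE t ht0)
  set g : ℝ → ℝ := fun w => 4 * A / w ^ 3 - q w with hg
  have hgt : g t = 0 := by
    have : (4 * A / t ^ 3 - q t) / t ^ 2 = 0 := hd0
    rcases div_eq_zero_iff.mp this with h1 | h1
    · exact h1
    · exact absurd h1 (by positivity)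
  have hψt : A / t ^ 4 < ψ t := by
    have : 0 < E t := lt_of_lt_of_le hEr hEt
    simp only [hE] at this
    linarith
  have hψt0 : 0 < ψ t := lt_trans (by positivity) hψt
  have hsq : 3 / Real.pi / t ^ 2 < √(ψ t) := by
    rw [Real.lt_sqrt (by positivity)]
    have : (3 / Real.pi / t ^ 2) ^ 2 = A / t ^ 4 := by rw [hA]; field_simp; ring
    rw [this]
    exact hψt
  have hdg : HasDerivAt g (-(12 * A) / t ^ 4 + 4 * Real.pi * t ^ 2 * tf (ψ t)) t := by
    have h1 : HasDerivAt (fun s : ℝ => 4 * A / s ^ 3) (-(12 * A) / t ^ 4) t := by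
      have := (hasDerivAt_const t (4 * A)).div (hasDerivAt_pow 3 t) (by positivity)
      refine this.congr_deriv ?_
      field_simp
      ring
    refine (h1.sub (h.dq t ht0)).congr_deriv ?_
    ring
  have hpos : 0 < -(12 * A) / t ^ 4 + 4 * Real.pi * t ^ 2 * tf (ψ t) := by
    have h1 : tf (ψ t) = ψ t * √(ψ t) := by
      unfold tf
      rw [max_eq_left hψt0.le]
    have h2 : A / t ^ 4 * (3 / Real.pi / t ^ 2) < ψ t * √(ψ t) :=
      mul_lt_mul'' hψt hsq (by positivity) (by positivity)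
    have h3 : 4 * Real.pi * t ^ 2 * (A / t ^ 4 * (3 / Real.pi / t ^ 2)) = 12 * A / t ^ 4 := by
      field_simp
      ring
    have h4 : 4 * Real.pi * t ^ 2 * (A / t ^ 4 * (3 / Real.pi / t ^ 2)) <
        4 * Real.pi * t ^ 2 * (ψ t * √(ψ t)) := mul_lt_mul_of_pos_left h2 (by positivity)
    rw [h1]
    rw [h3] at h4
    have h5 : -(12 * A) / t ^ 4 = -(12 * A / t ^ 4) := by ring
    rw [h5]
    linarith
  -- `g` is positive to the right of `t`
  have hright : ∀ᶠ w in 𝓝[>] t, 0 < g w := by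
    have h1 := hdg.hasDerivWithinAt (s := Ioi t)
    have h2 : ∀ᶠ w in 𝓝[>] t, 0 < slope g t w :=
      ((hasDerivWithinAt_iff_tendsto_slope' (by simp)).mp h1).eventually_const_lt hpos
    filter_upwards [h2, self_mem_nhdsWithin] with w hw hwt
    rw [slope_def_field, hgt, sub_zero] at hw
    have hwt' : 0 < w - t := sub_pos.mpr hwt
    exact (div_pos_iff_of_pos_right hwt').mp hw
  obtain ⟨u, hu, hsub⟩ := mem_nhdsGT_iff_exists_Ioo_subset.mp hright
  set v : ℝ := min ((t + u) / 2) T with hv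
  have htu : t < u := hu
  have htv : t < v := lt_min (by linarith) htT
  have hvu : v < u := lt_of_le_of_lt (min_le_left _ _) (by linarith)
  have hvT : v ≤ T := min_le_right _ _
  have hmono : StrictMonoOn E (Icc t v) := by
    refine strictMonoOn_of_deriv_pos (convex_Icc t v)
      (hEc.mono fun w hw => lt_of_lt_of_le ht0 hw.1) fun w hw => ?_
    rw [interior_Icc] at hw
    have hw0 : 0 < w := ht0.trans hw.1
    rw [(hdE w hw0).deriv]
    have : 0 < g w := hsub ⟨hw.1, hw.2.trans hvu⟩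
    exact div_pos this (by positivity)
  have h1 := hmono ⟨le_rfl, htv.le⟩ ⟨htv.le, le_rfl⟩ htv
  have h2 : E v ≤ E t := hmax ⟨hst.le.trans htv.le, hvT⟩
  linarith

/-- `4 π r² √ψ ≤ 12` -/
theorem u_le (h : Ion z φ₀ ψ q) (hz : 0 ≤ z) (hφ : 0 ≤ φ₀) {r : ℝ} (hr : 0 < r) :
    4 * Real.pi * r ^ 2 * √(ψ r) ≤ 12 := by
  have h1 := h.sommerfeld hz hφ hr
  have h2 : √(ψ r) ≤ 3 / Real.pi / r ^ 2 := by
    rw [Real.sqrt_le_left (by positivity)]
    refine h1.trans (le_of_eq ?_)
    field_simp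
    ring
  have h3 : 4 * Real.pi * r ^ 2 * √(ψ r) ≤ 4 * Real.pi * r ^ 2 * (3 / Real.pi / r ^ 2) :=
    mul_le_mul_of_nonneg_left h2 (by positivity)
  refine h3.trans (le_of_eq ?_)
  field_simp
  ring

end Ion

end Pool.Agent.TF
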