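import Pool.Agent.Lib.MP_9cf0c9_mp.ConeSol39
import Pool.Agent.Lib.MP_9cf0c9_mp.Flow
import Mathlib.Analysis.LocallyConvex.Separation

/-! The zonotope lemma: minus the gradient of a Thomas-Fermi potential is a combination of the
radial directions with coefficients between zero and the fields of the isolated ions. -/

set_option autoImplicit false
set_option linter.unusedSectionVars false
set_option linter.unusedVariables false
set_option linter.style.haveILetI false

namespace Pool.Agent.TF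
open MeasureTheory Set Metric Filter Topology
open scoped ENNReal NNReal RealInnerProductSpace Gradient

/-! ### sums of densities -/

theorem tc_zero39 : TC (fun _ : X => (0 : ℝ)) := BC.zero.toTC fun _ => le_rfl

theorem tc_sum39 {κ : Type*} (s : Finset κ) {F : κ → X → ℝ} (h : ∀ i ∈ s, TC (F i)) :
    TC (fun x => ∑ i ∈ s, F i x) := by
  classical
  induction s using Finset.induction_on with
  | empty => simpa using tc_zero39
  | insert a s ha ih =>
    have h1 := (h a (Finset.mem_insert_self a s)).lin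
      (ih fun i hi => h i (Finset.mem_insert_of_mem hi)) (a := 1) (b := 1) (by norm_num)
      (by norm_num)
    have e : (fun x => ∑ i ∈ insert a s, F i x) = fun x => 1 * F a x + 1 * ∑ i ∈ s, F i x := by
      funext x
      rw [Finset.sum_insert ha, one_mul, one_mul]
    rw [e]
    exact h1

theorem pot_sum39 {κ : Type*} (s : Finset κ) {F : κ → X → ℝ} (h : ∀ i ∈ s, TC (F i)) (x : X) :
    pot (fun y => ∑ i ∈ s, F i y) x = ∑ i ∈ s, pot (F i) x := by
  unfold pot
  rw [← integral_finsetSum s fun i hi => (h i hi).pot_integrable x]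
  refine integral_congr_ae (Eventually.of_forall fun y => ?_)
  simp only
  rw [Finset.mul_sum]

/-! ### increments are superadditive -/

theorem tf_incr_sum {κ : Type*} (s : Finset κ) {a : ℝ} {b d : κ → ℝ} (hb : ∀ m ∈ s, b m ≤ a)
    (hd : ∀ m ∈ s, 0 ≤ d m) :
    ∑ m ∈ s, (tf (b m + d m) - tf (b m)) ≤ tf (a + ∑ m ∈ s, d m) - tf a := by
  classical
  induction s using Finset.induction_on with
  | empty => simp
  | insert m s hm ih =>
    rw [Finset.sum_insert hm, Finset.sum_insert hm]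
    have h1 := ih (fun i hi => hb i (Finset.mem_insert_of_mem hi))
      (fun i hi => hd i (Finset.mem_insert_of_mem hi))
    have h0 : 0 ≤ ∑ i ∈ s, d i :=
      Finset.sum_nonneg fun i hi => hd i (Finset.mem_insert_of_mem hi)
    have h2 := tf_incr (a := b m) (b := a + ∑ i ∈ s, d i) (s := d m) (t := d m)
      (by have := hb m (Finset.mem_insert_self m s); linarith) (hd m (Finset.mem_insert_self m s))
      le_rfl
    have e : a + (d m + ∑ i ∈ s, d i) = a + ∑ i ∈ s, d i + d m := by ring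
    rw [e]
    linarith

variable {ι κ : Type*} [Fintype ι]

/-! ### the molecule and its parts -/

/-- a family of sub-molecules `zm m ≤ z`, with larger chemical potentials, with all their charges
in front of the plane, such that in front of the plane the charges of the family add up to at
least the charges of the molecule: the asymmetry of the molecule is at most the sum of the
asymmetries of the parts -/
theorem psi_mir_le_fam {o e : X} (he : ‖e‖ = 1) {z : ι → ℝ} (hz : ∀ i, 0 ≤ z i) {R : ι → X}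
    {φ : ℝ} {ρ : X → ℝ} (h : Sol φ z R ρ) (T : Finset κ) {zm : κ → ι → ℝ} {φm : κ → ℝ}
    {ρm : κ → X → ℝ} (hm : ∀ m ∈ T, Sol (φm m) (zm m) R (ρm m)) (hφ : ∀ m ∈ T, φ ≤ φm m)
    (hz0 : ∀ m ∈ T, ∀ i, 0 ≤ zm m i) (hzm : ∀ m ∈ T, ∀ i, zm m i ≤ z i)
    (hf : ∀ m ∈ T, ∀ i, 0 < zm m i → 0 ≤ hgt o e (R i))
    (hs : ∀ i, 0 < hgt o e (R i) → z i ≤ ∑ m ∈ T, zm m i)
    {x : X} (hx : 0 < hgt o e x) (hxR : ∀ i, x ≠ R i) (hxR' : ∀ i, mir o e x ≠ R i) :
    psi φ z R ρ x - psi φ z R ρ (mir o e x) ≤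
      ∑ m ∈ T, (psi (φm m) (zm m) R (ρm m) x - psi (φm m) (zm m) R (ρm m) (mir o e x)) := by
  classical
  -- the charges in the odd comparison: `zp` in front, `zn` behind
  have hTC : ∀ m ∈ T, TC (ρm m) := fun m hmT => (hm m hmT).tc
  have hTC' : ∀ m ∈ T, TC (fun y => ρm m (mir o e y)) := fun m hmT => (hTC m hmT).mir he
  have t1 : TC fun y => 1 * ρ y + 1 * ∑ m ∈ T, ρm m (mir o e y) :=
    h.tc.lin (tc_sum39 T hTC') zero_le_one zero_le_one
  have t2 : TC fun y => 1 * ρ (mir o e y) + 1 * ∑ m ∈ T, ρm m y :=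
    (h.tc.mir he).lin (tc_sum39 T hTC) zero_le_one zero_le_one
  have p1 : ∀ y, pot (fun y => 1 * ρ y + 1 * ∑ m ∈ T, ρm m (mir o e y)) y =
      pot ρ y + ∑ m ∈ T, pot (ρm m) (mir o e y) := by
    intro y
    rw [h.tc.pot_comb (tc_sum39 T hTC'), pot_sum39 T hTC', one_mul, one_mul]
    congr 1
    exact Finset.sum_congr rfl fun m _ => pot_mir he (ρm m) y
  have p2 : ∀ y, pot (fun y => 1 * ρ (mir o e y) + 1 * ∑ m ∈ T, ρm m y) y =
      pot ρ (mir o e y) + ∑ m ∈ T, pot (ρm m) y := by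
    intro y
    rw [(h.tc.mir he).pot_comb (tc_sum39 T hTC), pot_sum39 T hTC, pot_mir he, one_mul, one_mul]
  -- the odd sum of charges
  set C : ι → ℝ := fun i => if 0 < hgt o e (R i) then (∑ m ∈ T, zm m i) - z i else 0 with hC
  set B : ι → ℝ := fun i => if hgt o e (R i) < 0 then z i else 0 with hB
  set P : ι ⊕ ι → X := fun s => Sum.elim R (fun i => mir o e (R i)) s with hP
  set c : ι ⊕ ι → ℝ := fun s => Sum.elim C B s with hc
  have hC0 : ∀ i, 0 ≤ C i := by
    intro i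
    simp only [hC]
    split_ifs with h1
    · exact sub_nonneg.mpr (hs i h1)
    · exact le_rfl
  have hB0 : ∀ i, 0 ≤ B i := by
    intro i
    simp only [hB]
    split_ifs
    · exact hz i
    · exact le_rfl
  have hdm : ∀ i y, dip o e (mir o e (R i)) y = -dip o e (R i) y := by
    intro i y
    unfold dip
    rw [mir_mir he]
    ring
  have hnuc : ∀ y, ∑ s, c s * dip o e (P s) y =
      (∑ m ∈ T, ∑ i, zm m i * dip o e (R i) y) - ∑ i, z i * dip o e (R i) y := by
    intro y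
    rw [Fintype.sum_sum_type, Finset.sum_comm, ← Finset.sum_sub_distrib, ← Finset.sum_add_distrib]
    refine Finset.sum_congr rfl fun i _ => ?_
    rw [← Finset.sum_mul]
    show C i * dip o e (R i) y + B i * dip o e (mir o e (R i)) y = _
    rw [hdm]
    rcases lt_trichotomy (hgt o e (R i)) 0 with h1 | h1 | h1
    · have e1 : C i = 0 := by simp only [hC]; rw [if_neg h1.not_gt]
      have e2 : B i = z i := by simp only [hB]; rw [if_pos h1]
      have e3 : ∑ m ∈ T, zm m i = 0 := by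
        refine Finset.sum_eq_zero fun m hmT => ?_
        by_contra h2
        have h3 : 0 < zm m i := lt_of_le_of_ne (hz0 m hmT i) (Ne.symm h2)
        exact absurd (hf m hmT i h3) (not_le.mpr h1)
      rw [e1, e2, e3]
      ring
    · rw [dip_plane h1]
      ring
    · have e1 : C i = (∑ m ∈ T, zm m i) - z i := by simp only [hC]; rw [if_pos h1]
      have e2 : B i = 0 := by simp only [hB]; rw [if_neg h1.not_gt]
      rw [e1, e2]
      ring
  have hu : ∀ y, ∑ s, c s * dip o e (P s) y +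
      (pot (fun y => 1 * ρ y + 1 * ∑ m ∈ T, ρm m (mir o e y)) y -
        pot (fun y => 1 * ρ (mir o e y) + 1 * ∑ m ∈ T, ρm m y) y) =
      (∑ m ∈ T, (psi (φm m) (zm m) R (ρm m) y - psi (φm m) (zm m) R (ρm m) (mir o e y))) -
        (psi φ z R ρ y - psi φ z R ρ (mir o e y)) := by
    intro y
    rw [hnuc, p1, p2, ← Vn_sub_mir he z R y]
    have e1 : ∑ m ∈ T, ∑ i, zm m i * dip o e (R i) y =
        ∑ m ∈ T, (Vn (zm m) R y - Vn (zm m) R (mir o e y)) :=
      Finset.sum_congr rfl fun m _ => (Vn_sub_mir he (zm m) R y).symm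
    rw [e1]
    unfold psi
    have e2 : ∀ m, Vn (zm m) R y - pot (ρm m) y - φm m -
        (Vn (zm m) R (mir o e y) - pot (ρm m) (mir o e y) - φm m) =
        (Vn (zm m) R y - Vn (zm m) R (mir o e y)) + (pot (ρm m) (mir o e y) - pot (ρm m) y) :=
      fun m => by ring
    simp only [e2, Finset.sum_add_distrib, Finset.sum_sub_distrib]
    ring
  have key := half_min he (c := c) (fun s => ?_) (P := P) (fun s hs' => ?_) t1 t2
    (fun y hy => ?_) ?_ hx (fun s hs' => ?_)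
  · rw [hu] at key
    linarith
  · rcases s with i | i
    · exact hC0 i
    · exact hB0 i
  · rcases s with i | i
    · have h1 : 0 < C i := hs'
      simp only [hC] at h1
      split_ifs at h1 with h2
      · exact h2.le
      · exact absurd h1 (lt_irrefl _)
    · have h1 : 0 < B i := hs'
      simp only [hB] at h1
      split_ifs at h1 with h2
      · show 0 ≤ hgt o e (mir o e (R i))
        rw [hgt_mir he]
        linarith
      · exact absurd h1 (lt_irrefl _)
  · rw [p1, p2, mir_fix hy]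
  · -- monotonicity
    filter_upwards [ae_off R, ae_off_mir he (o := o) R] with y hy hy' hy0 hlt
    rw [hu] at hlt
    have hD : ∀ m ∈ T, psi (φm m) (zm m) R (ρm m) (mir o e y) ≤ psi (φm m) (zm m) R (ρm m) y :=
      fun m hmT => psi_mir_le_side he (hz0 m hmT) (hm m hmT) (hf m hmT) hy0 hy hy'
    have hbase : ∀ m ∈ T, psi (φm m) (zm m) R (ρm m) (mir o e y) ≤ psi φ z R ρ (mir o e y) :=
      fun m hmT => compare (hzm m hmT) (hφ m hmT) (hm m hmT) h _ hy'
    have h1 := tf_incr_sum T (a := psi φ z R ρ (mir o e y))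
      (b := fun m => psi (φm m) (zm m) R (ρm m) (mir o e y))
      (d := fun m => psi (φm m) (zm m) R (ρm m) y - psi (φm m) (zm m) R (ρm m) (mir o e y))
      hbase (fun m hmT => sub_nonneg.mpr (hD m hmT))
    have h2 : tf (psi φ z R ρ (mir o e y) + ∑ m ∈ T, (psi (φm m) (zm m) R (ρm m) y -
        psi (φm m) (zm m) R (ρm m) (mir o e y))) ≤ tf (psi φ z R ρ y) := by
      refine tf_mono ?_
      linarith
    have h3 : ∀ m ∈ T, tf (psi (φm m) (zm m) R (ρm m) (mir o e y) +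
        (psi (φm m) (zm m) R (ρm m) y - psi (φm m) (zm m) R (ρm m) (mir o e y))) -
        tf (psi (φm m) (zm m) R (ρm m) (mir o e y)) = ρm m y - ρm m (mir o e y) := by
      intro m hmT
      rw [add_sub_cancel, (hm m hmT).eq y hy, (hm m hmT).eq _ hy']
      rfl
    have h4 : ∑ m ∈ T, (ρm m y - ρm m (mir o e y)) ≤ ρ y - ρ (mir o e y) := by
      rw [← Finset.sum_congr rfl h3, h.eq y hy, h.eq _ hy']
      exact h1.trans (sub_le_sub_right h2 _)
    rw [Finset.sum_sub_distrib] at h4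
    linarith
  · rcases s with i | i
    · exact hxR i
    · intro h1
      have h2 : x = mir o e (R i) := h1
      exact hxR' i (by rw [h2, mir_mir he])

/-- the family of isolated ions -/
theorem psi_mir_le_ions {o e : X} (he : ‖e‖ = 1) {z : ι → ℝ} (hz : ∀ i, 0 ≤ z i) {R : ι → X}
    {φ : ℝ} (hφ : 0 < φ) {ρ : X → ℝ} (h : Sol φ z R ρ) (S : Finset ι)
    (hS : ∀ i ∈ S, 0 ≤ hgt o e (R i)) (hS' : ∀ i, i ∉ S → hgt o e (R i) ≤ 0)
    {x : X} (hx : 0 < hgt o e x) (hxR : ∀ i, x ≠ R i) (hxR' : ∀ i, mir o e x ≠ R i) :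
    psi φ z R ρ x - psi φ z R ρ (mir o e x) ≤
      ∑ j ∈ S, (ionψ (z j) φ ‖x - R j‖ - ionψ (z j) φ ‖mir o e x - R j‖) := by
  classical
  have hs : ∀ j i, (Pi.single j (z j) : ι → ℝ) i = if i = j then z j else 0 := by
    intro j i
    by_cases hi : i = j
    · subst hi
      rw [Pi.single_eq_same, if_pos rfl]
    · rw [Pi.single_eq_of_ne hi, if_neg hi]
  have hion := fun j => ion_sol (hz j) hφ R j
  have key := psi_mir_le_fam he hz h S (zm := fun j => Pi.single j (z j)) (φm := fun _ => φ)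
    (ρm := fun j x => ionρ (z j) φ (x - R j)) (fun j _ => (hion j).1) (fun _ _ => le_rfl)
    (fun j _ i => ?_) (fun j _ i => ?_) (fun j hj i hi => ?_) (fun i hi => ?_) hx hxR hxR'
  · refine key.trans (le_of_eq (Finset.sum_congr rfl fun j _ => ?_))
    rw [(hion j).2 x (hxR j), (hion j).2 _ (hxR' j)]
  · rw [hs]
    split_ifs
    · exact hz j
    · exact le_rfl
  · rw [hs]
    split_ifs with h3
    · rw [h3]
    · exact hz i
  · rw [hs] at hi
    split_ifs at hi with h3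
    · rw [h3]
      exact hS j hj
    · exact absurd hi (lt_irrefl _)
  · have hiS : i ∈ S := by
      by_contra h1
      exact absurd (hS' i h1) (not_le.mpr hi)
    refine (le_of_eq ?_).trans (Finset.single_le_sum
      (f := fun j => (Pi.single j (z j) : ι → ℝ) i) (fun j _ => ?_) hiS)
    · rw [Pi.single_eq_same]
    · show 0 ≤ (Pi.single j (z j) : ι → ℝ) i
      rw [hs]
      split_ifs
      · exact hz j
      · exact le_rfl

/-! ### gradients -/

theorem hg_sum {T : Finset κ} {u : κ → X → ℝ} {g : κ → X} {x : X}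
    (h : ∀ m ∈ T, HasGradientAt (u m) (g m) x) :
    HasGradientAt (fun y => ∑ m ∈ T, u m y) (∑ m ∈ T, g m) x := by
  rw [hasGradientAt_iff_hasFDerivAt, map_sum]
  exact HasFDerivAt.fun_sum fun m hm => (h m hm).hasFDerivAt

/-- groups: the field of the molecule against the fields of its parts -/
theorem grad_fam {z : ι → ℝ} (hz : ∀ i, 0 ≤ z i) {R : ι → X} {φ : ℝ} {ρ : X → ℝ}
    (h : Sol φ z R ρ) (T : Finset κ) {zm : κ → ι → ℝ} {φm : κ → ℝ}
    {ρm : κ → X → ℝ} (hm : ∀ m ∈ T, Sol (φm m) (zm m) R (ρm m)) (hφ : ∀ m ∈ T, φ ≤ φm m)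
    (hz0 : ∀ m ∈ T, ∀ i, 0 ≤ zm m i) (hzm : ∀ m ∈ T, ∀ i, zm m i ≤ z i)
    {x : X} (hx : ∀ i, x ≠ R i) {g : X} (hg : HasGradientAt (psi φ z R ρ) g x) {gm : κ → X}
    (hgm : ∀ m ∈ T, HasGradientAt (psi (φm m) (zm m) R (ρm m)) (gm m) x) {e : X}
    (hf : ∀ m ∈ T, ∀ i, 0 < zm m i → 0 ≤ ⟪R i - x, e⟫)
    (hs : ∀ i, 0 < ⟪R i - x, e⟫ → z i ≤ ∑ m ∈ T, zm m i) :
    ⟪g, e⟫ ≤ ∑ m ∈ T, ⟪gm m, e⟫ := by
  have key : 0 ≤ ⟪(∑ m ∈ T, gm m) - g, e⟫ := by
    refine unit_red (x := x) (Q := fun e => (∀ m ∈ T, ∀ i, 0 < zm m i → 0 ≤ ⟪R i - x, e⟫) ∧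
      ∀ i, 0 < ⟪R i - x, e⟫ → z i ≤ ∑ m ∈ T, zm m i) ?_ ?_ ⟨hf, hs⟩
    · rintro c hc ⟨h1, h2⟩
      refine ⟨fun m hmT i hi => ?_, fun i hi => h2 i ?_⟩
      · rw [real_inner_smul_right]
        exact mul_nonneg hc.le (h1 m hmT i hi)
      · rw [real_inner_smul_right] at hi
        exact (mul_pos_iff_of_pos_left hc).mp hi
    · rintro e he1 ⟨h1, h2⟩
      refine inner_grad_nonneg_of_mir (o := x) he1 (hgt_self x e) (hg_sub (hg_sum hgm) hg) ?_
      filter_upwards [ev_off (e := e) hx] with y hy hy0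
      have h3 := psi_mir_le_fam he1 hz h T hm hφ hz0 hzm h1 h2 hy0 hy.1 hy.2
      rw [Finset.sum_sub_distrib] at h3
      linarith
  rw [inner_sub_left, sum_inner] at key
  linarith

/-- the support function inequality -/
theorem grad_ions {z : ι → ℝ} (hz : ∀ i, 0 ≤ z i) {R : ι → X} {φ : ℝ} (hφ : 0 < φ) {ρ : X → ℝ}
    (h : Sol φ z R ρ) {x : X} (hx : ∀ i, x ≠ R i) {g : X}
    (hg : HasGradientAt (psi φ z R ρ) g x) (S : Finset ι) {e : X}
    (he : ∀ i ∈ S, 0 ≤ ⟪R i - x, e⟫) (he' : ∀ i, i ∉ S → ⟪R i - x, e⟫ ≤ 0) :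
    ⟪g, e⟫ ≤ ∑ j ∈ S, -ionE (z j) φ ‖x - R j‖ * ⟪nv (R j) x, e⟫ := by
  have hG := fun j => ion_hasGradientAt (hz j) hφ (hx j)
  have key : 0 ≤ ⟪(∑ j ∈ S, -(ionq (z j) φ ‖x - R j‖ / ‖x - R j‖ ^ 2) •
      (‖x - R j‖⁻¹ • (x - R j))) - g, e⟫ := by
    refine unit_red (x := x) (Q := fun e => (∀ i ∈ S, 0 ≤ ⟪R i - x, e⟫) ∧
      ∀ i, i ∉ S → ⟪R i - x, e⟫ ≤ 0) ?_ ?_ ⟨he, he'⟩
    · rintro c hc ⟨h1, h2⟩
      refine ⟨fun i hi => ?_, fun i hi => ?_⟩
      · rw [real_inner_smul_right]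
        exact mul_nonneg hc.le (h1 i hi)
      · rw [real_inner_smul_right]
        exact mul_nonpos_of_nonneg_of_nonpos hc.le (h2 i hi)
    · rintro e he1 ⟨h1, h2⟩
      refine inner_grad_nonneg_of_mir (o := x) he1 (hgt_self x e)
        (hg_sub (hg_sum fun j _ => hG j) hg) ?_
      filter_upwards [ev_off (e := e) hx] with y hy hy0
      have h3 := psi_mir_le_ions he1 hz hφ h S h1 h2 hy0 hy.1 hy.2
      rw [Finset.sum_sub_distrib] at h3
      linarith
  rw [inner_sub_left, sum_inner] at key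
  simp only [real_inner_smul_left] at key
  have e1 : ∀ j, -ionE (z j) φ ‖x - R j‖ * ⟪nv (R j) x, e⟫ =
      -(ionq (z j) φ ‖x - R j‖ / ‖x - R j‖ ^ 2) * (‖x - R j‖⁻¹ * ⟪x - R j, e⟫) := by
    intro j
    unfold ionE nv
    rw [real_inner_smul_left]
  simp only [e1]
  linarith

theorem ionE_nonneg {z φ r : ℝ} (hz : 0 ≤ z) (hφ : 0 < φ) (hr : 0 < r) : 0 ≤ ionE z φ r := by
  unfold ionE
  refine div_nonneg ?_ (by positivity)
  rcases hz.eq_or_lt with h | h
  · subst h
    have h1 := (ion_all (le_refl (0 : ℝ)) hφ).2.2.2.1 r hr.le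
    have h2 : ∀ x : X, x ≠ 0 → ionρ 0 φ x = 0 := by
      intro x hx
      rw [(ion_all (le_refl (0 : ℝ)) hφ).2.2.1 x hx]
      refine tf_of_nonpos ?_
      have := (ion_ion (le_refl (0 : ℝ)) hφ).up ‖x‖ (norm_pos_iff.mpr hx)
      rw [zero_div] at this
      linarith
    haveI := nontriv (V := X)
    have h3 : ∫ x in ball (0 : X) r, ionρ 0 φ x = 0 := by
      have h4 : ∀ᵐ x : X, x ≠ 0 := by rw [ae_iff]; simp
      rw [integral_eq_zero_of_ae]
      filter_upwards [ae_restrict_of_ae h4] with x hx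
      exact h2 x hx
    rw [h1, h3, sub_zero]
  · exact ((ion_ion h.le hφ).q_pos h hφ hr).le

/-- the support function inequality, with positive parts -/
theorem grad_support {z : ι → ℝ} (hz : ∀ i, 0 ≤ z i) {R : ι → X} {φ : ℝ} (hφ : 0 < φ)
    {ρ : X → ℝ} (h : Sol φ z R ρ) {x : X} (hx : ∀ i, x ≠ R i) {g : X}
    (hg : HasGradientAt (psi φ z R ρ) g x) (e : X) :
    ⟪-g, e⟫ ≤ ∑ j, ionE (z j) φ ‖x - R j‖ * max ⟪nv (R j) x, e⟫ 0 := by
  classical
  have hn : ∀ j, 0 ≤ ionE (z j) φ ‖x - R j‖ := fun j =>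
    ionE_nonneg (hz j) hφ (norm_pos_iff.mpr (sub_ne_zero.mpr (hx j)))
  set S : Finset ι := Finset.univ.filter fun j => ⟪R j - x, e⟫ ≤ 0 with hS
  have h1 := grad_ions hz hφ h hx hg S (e := -e) (fun i hi => by
    rw [inner_neg_right]
    have := (Finset.mem_filter.mp hi).2
    linarith) (fun i hi => by
    rw [inner_neg_right]
    have : ¬ ⟪R i - x, e⟫ ≤ 0 := fun h2 => hi (Finset.mem_filter.mpr ⟨Finset.mem_univ i, h2⟩)
    linarith)
  rw [inner_neg_right] at h1
  rw [inner_neg_left]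
  refine h1.trans ?_
  have h2 : ∑ j ∈ S, -ionE (z j) φ ‖x - R j‖ * ⟪nv (R j) x, -e⟫ ≤
      ∑ j ∈ S, ionE (z j) φ ‖x - R j‖ * max ⟪nv (R j) x, e⟫ 0 := by
    refine Finset.sum_le_sum fun j _ => ?_
    rw [inner_neg_right, neg_mul_neg]
    exact mul_le_mul_of_nonneg_left (le_max_left _ _) (hn j)
  refine h2.trans (Finset.sum_le_sum_of_subset_of_nonneg (Finset.subset_univ S) fun j _ _ => ?_)
  exact mul_nonneg (hn j) (le_max_right _ _)

/-! ### the zonotope -/

theorem zonotope {n : ι → X} {b : ι → ℝ} (hb : ∀ j, 0 ≤ b j) {G : X}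
    (h : ∀ e : X, ⟪G, e⟫ ≤ ∑ j, b j * max ⟪n j, e⟫ 0) :
    ∃ α : ι → ℝ, (∀ j, 0 ≤ α j ∧ α j ≤ b j) ∧ G = ∑ j, α j • n j := by
  classical
  set L : (ι → ℝ) →ₗ[ℝ] X := ∑ j, (LinearMap.proj j : (ι → ℝ) →ₗ[ℝ] ℝ).smulRight (n j) with hL
  have hLa : ∀ α, L α = ∑ j, α j • n j := by
    intro α
    simp [hL]
  set K : Set X := L '' (Set.Icc 0 b) with hK
  have hKc : IsCompact K := isCompact_Icc.image (LinearMap.continuous_of_finiteDimensional L)
  have hKv : Convex ℝ K := (convex_Icc 0 b).linear_image L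
  by_cases hG : G ∈ K
  · obtain ⟨α, hα, rfl⟩ := hG
    exact ⟨α, fun j => ⟨hα.1 j, hα.2 j⟩, hLa α⟩
  · exfalso
    obtain ⟨f, u, hf1, hf2⟩ := geometric_hahn_banach_closed_point hKv hKc.isClosed hG
    obtain ⟨e, he⟩ : ∃ e : X, ∀ v, f v = ⟪v, e⟫ := by
      refine ⟨(InnerProductSpace.toDual ℝ X).symm f, fun v => ?_⟩
      rw [real_inner_comm, InnerProductSpace.toDual_symm_apply]
    set α : ι → ℝ := fun j => if 0 ≤ ⟪n j, e⟫ then b j else 0 with hα
    have hαK : L α ∈ K := by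
      refine ⟨α, ⟨fun j => ?_, fun j => ?_⟩, rfl⟩
      · simp only [hα, Pi.zero_apply]
        split_ifs
        · exact hb j
        · exact le_rfl
      · simp only [hα]
        split_ifs
        · exact le_rfl
        · exact hb j
    have h1 := hf1 _ hαK
    rw [he, hLa, sum_inner] at h1
    rw [he] at hf2
    have h2 : ∑ j, ⟪α j • n j, e⟫ = ∑ j, b j * max ⟪n j, e⟫ 0 := by
      refine Finset.sum_congr rfl fun j _ => ?_
      rw [real_inner_smul_left]
      simp only [hα]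
      split_ifs with h3
      · rw [max_eq_left h3]
      · push Not at h3
        rw [max_eq_right h3.le]
        ring
    have := h e
    linarith

/-- the zonotope lemma -/
theorem grad_zonotope {z : ι → ℝ} (hz : ∀ i, 0 ≤ z i) {R : ι → X} {φ : ℝ} (hφ : 0 < φ)
    {ρ : X → ℝ} (h : Sol φ z R ρ) {x : X} (hx : ∀ i, x ≠ R i) {g : X}
    (hg : HasGradientAt (psi φ z R ρ) g x) :
    ∃ α : ι → ℝ, (∀ j, 0 ≤ α j ∧ α j ≤ ionE (z j) φ ‖x - R j‖) ∧
      -g = ∑ j, α j • nv (R j) x :=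
  zonotope (fun j => ionE_nonneg (hz j) hφ (norm_pos_iff.mpr (sub_ne_zero.mpr (hx j))))
    (grad_support hz hφ h hx hg)

/-- the zonotope lemma in the letters of the calibration files -/
theorem Grd.psi'_zonotope {z : ι → ℝ} (hz : ∀ i, 0 ≤ z i) (R : ι → X) {φ₀ : ℝ} (hφ : 0 < φ₀)
    {ρ : X → ℝ} (hρ : TC ρ) (heq : ∀ x, ρ x = tf (Vpt z R x - pot ρ x - φ₀)) {x : X}
    (hx : ∀ i, x ≠ R i) :
    ∃ α : ι → ℝ, (∀ j, 0 ≤ α j ∧ α j ≤ ionE (z j) φ₀ ‖x - R j‖) ∧
      -Grd.psi' z R ρ x = ∑ j, α j • nv (R j) x :=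
  grad_zonotope hz hφ ⟨hρ, fun x _ => heq x⟩ hx (Grd.hasGradientAt_psi hz R hφ hρ heq hx)

end Pool.Agent.TF
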