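import Pool.Agent.Lib.MP_9cf0c9_mp.ColFinalL36
import Pool.Agent.Lib.MP_9cf0c9_mp.Zon39

/-! Two nuclei `a e₁`, `b e₁`: the weights.  Off the axis `-ψ' = P_a (x - a e₁) + P_b (x - b e₁)`
with `P_a = p (b - c)/(b - a)`, `P_b = p (c - a)/(b - a)`; both solve the five dimensional
linearised equation, both are nonnegative and at most the weight of the isolated ion. -/

set_option autoImplicit false
set_option linter.unusedSectionVars false
set_option linter.unusedVariables false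

namespace Pool.Agent.TF.Col
open MeasureTheory Set Metric Filter Topology
open scoped ENNReal NNReal RealInnerProductSpace Gradient
open Pool.Agent.TF.Grd

variable {ι : Type*} [Fintype ι]
variable {φ₀ : ℝ} {z : ι → ℝ} {R : ι → X} {ρ : X → ℝ} {H : X → X →L[ℝ] X} {lo hi : ℝ}

/-- the weight of the nucleus at `a`, the other nucleus being at `b` -/
noncomputable def wt (z : ι → ℝ) (R : ι → X) (ρ : X → ℝ) (a b : ℝ) (x : X) : ℝ :=
  (b - a)⁻¹ * (pf z R ρ x * (b - cf z R ρ x))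

/-- its gradient -/
noncomputable def wt' (z : ι → ℝ) (R : ι → X) (ρ : X → ℝ) (H : X → X →L[ℝ] X) (a b : ℝ)
    (x : X) : X :=
  (b - a)⁻¹ • ((b - cf z R ρ x) • pf' z R ρ H x - pf z R ρ x • cf' z R ρ H x)

theorem wt_q (z : ι → ℝ) (R : ι → X) (ρ : X → ℝ) (a b : ℝ) (x : X) :
    wt z R ρ a b x = -((b - a)⁻¹ * qf z R ρ b x) := by
  unfold wt qf
  ring

theorem wt'_q (z : ι → ℝ) (R : ι → X) (ρ : X → ℝ) (H : X → X →L[ℝ] X) (a b : ℝ) (x : X) :
    wt' z R ρ H a b x = -((b - a)⁻¹ • qf' z R ρ H b x) := by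
  unfold wt' qf'
  module

/-- the two weights add up to `p` -/
theorem wt_add {a b : ℝ} (hab : a ≠ b) (z : ι → ℝ) (R : ι → X) (ρ : X → ℝ) (x : X) :
    wt z R ρ a b x + wt z R ρ b a x = pf z R ρ x := by
  have h1 : b - a ≠ 0 := sub_ne_zero.mpr hab.symm
  have h2 : a - b ≠ 0 := sub_ne_zero.mpr hab
  unfold wt
  field_simp
  ring

/-- the first moment of the weights -/
theorem wt_mom {a b : ℝ} (hab : a ≠ b) (z : ι → ℝ) (R : ι → X) (ρ : X → ℝ) (x : X) :
    a * wt z R ρ a b x + b * wt z R ρ b a x = pf z R ρ x * cf z R ρ x := by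
  have h1 : b - a ≠ 0 := sub_ne_zero.mpr hab.symm
  have h2 : a - b ≠ 0 := sub_ne_zero.mpr hab
  unfold wt
  field_simp
  ring

theorem wt'_add {a b : ℝ} (hab : a ≠ b) (z : ι → ℝ) (R : ι → X) (ρ : X → ℝ)
    (H : X → X →L[ℝ] X) (x : X) :
    wt' z R ρ H a b x + wt' z R ρ H b a x = pf' z R ρ H x := by
  have h1 : b - a ≠ 0 := sub_ne_zero.mpr hab.symm
  have h2 : a - b ≠ 0 := sub_ne_zero.mpr hab
  have h3 : (a - b)⁻¹ = -(b - a)⁻¹ := by
    rw [← inv_neg, neg_sub]
  unfold wt'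
  rw [h3]
  have h4 : (b - a)⁻¹ • ((b - cf z R ρ x) • pf' z R ρ H x - pf z R ρ x • cf' z R ρ H x) +
      -(b - a)⁻¹ • ((a - cf z R ρ x) • pf' z R ρ H x - pf z R ρ x • cf' z R ρ H x) =
      ((b - a)⁻¹ * (b - a)) • pf' z R ρ H x := by module
  rw [h4, inv_mul_cancel₀ h1, one_smul]

/-- the field in terms of the weights -/
theorem Dat.psi'_wt (D : Dat φ₀ z R ρ H lo hi) {a b : ℝ} (hab : a ≠ b) {x : X}
    (hx : x ∉ Col.ax) :
    psi' z R ρ x = -(wt z R ρ a b x • (x - a • e1) + wt z R ρ b a x • (x - b • e1)) := by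
  rw [D.ax.form x hx]
  have h1 := wt_add hab z R ρ x
  have h2 := wt_mom hab z R ρ x
  have h3 : wt z R ρ a b x • (x - a • e1) + wt z R ρ b a x • (x - b • e1) =
      (wt z R ρ a b x + wt z R ρ b a x) • x -
        (a * wt z R ρ a b x + b * wt z R ρ b a x) • e1 := by module
  rw [h3, h1, h2]
  module

/-- the axial field -/
theorem Dat.E1_wt (D : Dat φ₀ z R ρ H lo hi) {a b : ℝ} (hab : a ≠ b) {x : X}
    (hx : x ∉ Col.ax) :
    -⟪psi' z R ρ x, e1⟫ = wt z R ρ a b x * (x.fst - a) + wt z R ρ b a x * (x.fst - b) := by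
  rw [D.psi'_wt hab hx, inner_neg_left, neg_neg, inner_add_left, real_inner_smul_left,
    real_inner_smul_left, inner_sub_left, inner_sub_left, real_inner_smul_left,
    real_inner_smul_left, inner_e1_self, inner_e1, mul_one, mul_one]

/-- the dilation derivative about `a` -/
theorem Dat.Xa_wt (D : Dat φ₀ z R ρ H lo hi) {a b : ℝ} (hab : a ≠ b) {x : X}
    (hx : x ∉ Col.ax) :
    Xa z R ρ (a • e1) x = ‖x - a • e1‖ ^ 2 * wt z R ρ a b x +
      ⟪x - a • e1, x - b • e1⟫ * wt z R ρ b a x := by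
  unfold Xa
  rw [D.psi'_wt hab hx, inner_neg_left, neg_neg, inner_add_left, real_inner_smul_left,
    real_inner_smul_left, real_inner_self_eq_norm_sq, real_inner_comm (x - a • e1)]
  ring

theorem Dat.c1_wt (D : Dat φ₀ z R ρ H lo hi) (a b : ℝ) :
    C1O (wt z R ρ a b) (wt' z R ρ H a b) := by
  refine ((D.c1_q b).const_mul (-(b - a)⁻¹)).congr (fun x hx => ?_) fun x hx => ?_
  · rw [wt_q]; ring
  · rw [wt'_q, neg_smul]

theorem Dat.wt_nonneg (D : Dat φ₀ z R ρ H lo hi) {a b : ℝ} (hab : a < b) (hhi : hi ≤ b) {x : X}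
    (hx : x ∉ Col.ax) : 0 ≤ wt z R ρ a b x := by
  have h1 := D.ax.le_hi x hx
  have h2 := D.ax.pos x hx
  have h3 : 0 < b - a := by linarith
  unfold wt
  have h4 : 0 ≤ b - cf z R ρ x := by linarith
  positivity

theorem Dat.wt_nonneg' (D : Dat φ₀ z R ρ H lo hi) {a b : ℝ} (hab : a < b) (hlo : a ≤ lo) {x : X}
    (hx : x ∉ Col.ax) : 0 ≤ wt z R ρ b a x := by
  have h1 := D.ax.lo_le x hx
  have h2 := D.ax.pos x hx
  have h3 : 0 < b - a := by linarith
  have h5 : wt z R ρ b a x = (b - a)⁻¹ * (pf z R ρ x * (cf z R ρ x - a)) := by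
    unfold wt
    have h6 : (a - b)⁻¹ = -(b - a)⁻¹ := by rw [← inv_neg, neg_sub]
    rw [h6]
    ring
  rw [h5]
  have h4 : 0 ≤ cf z R ρ x - a := by linarith
  positivity

/-- the gradient lies in the meridian plane -/
theorem Dat.wt'_eq (D : Dat φ₀ z R ρ H lo hi) (a b : ℝ) {x : X} (hx : x ∉ Col.ax) :
    wt' z R ρ H a b x = ⟪wt' z R ρ H a b x, e1⟫ • e1 + ⟪wt' z R ρ H a b x, es x⟫ • es x := by
  have h1 : wt' z R ρ H a b x = ((b - a)⁻¹ * ((b - cf z R ρ x) * px z R ρ H x -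
      pf z R ρ x * cx z R ρ H x)) • e1 + ((b - a)⁻¹ * ((b - cf z R ρ x) * ps z R ρ H x -
      pf z R ρ x * cs z R ρ H x)) • es x := by
    unfold wt'
    rw [D.p'_eq hx, D.c'_eq hx]
    module
  rw [h1]
  simp only [inner_add_left, real_inner_smul_left, inner_e1_self, inner_es_self hx, inner_es_e1,
    inner_e1_es, mul_one, mul_zero, add_zero, zero_add]

/-! ### the equations -/

/-- the equation of the moment `q = p (c - t)` -/
theorem Dat.wd_q (D : Dat φ₀ z R ρ H lo hi) (t : ℝ) :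
    WD (qf' z R ρ H t) fun x => 4 * Real.pi * gam (psi φ₀ z R ρ x) * qf z R ρ t x -
      2 / ht x * ⟪qf' z R ρ H t x, es x⟫ := by
  have hm : C1O (fun x => cf z R ρ x - t) (cf' z R ρ H) :=
    (D.c1_c.sub (C1O.const t)).congr' fun x _ => by rw [sub_zero]
  have h1 := D.wd_c.mul D.c1_p
  have h2 := D.wd_p.mul hm
  refine (h1.add h2).congr (fun x hx => rfl) fun x hx => ?_
  have hs := ht_pos hx
  have hp := D.ax.pos x hx
  unfold qf' qf
  rw [D.p'_eq hx, D.c'_eq hx]
  simp only [inner_add_left, inner_add_right, real_inner_smul_left,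
    real_inner_smul_right, inner_e1_self, inner_es_self hx, inner_es_e1, inner_e1_es]
  field_simp
  ring

/-- **the equation of the weight** (five dimensional) -/
theorem Dat.wd_wt (D : Dat φ₀ z R ρ H lo hi) (a b : ℝ) :
    WD (wt' z R ρ H a b) fun x => 4 * Real.pi * gam (psi φ₀ z R ρ x) * wt z R ρ a b x -
      2 / ht x * ⟪wt' z R ρ H a b x, es x⟫ := by
  refine ((D.wd_q b).const_smul (-(b - a)⁻¹)).congr (fun x hx => ?_) fun x hx => ?_
  · rw [wt'_q, neg_smul]
  · rw [wt'_q, wt_q, inner_neg_left, real_inner_smul_left]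
    ring

/-- the weighted form -/
theorem Dat.wd_s2wt (D : Dat φ₀ z R ρ H lo hi) (a b : ℝ) :
    WD (fun x => ht x ^ 2 • wt' z R ρ H a b x) fun x =>
      ht x ^ 2 * (4 * Real.pi * gam (psi φ₀ z R ρ x) * wt z R ρ a b x) := by
  refine ((D.wd_wt a b).mul C1O.ht_sq).congr (fun x hx => rfl) fun x hx => ?_
  have hs := ht_pos hx
  rw [perp_es hx, real_inner_smul_left, real_inner_smul_left, real_inner_comm (es x)]
  field_simp
  ring

/-- a function whose gradient lies in the meridian plane, multiplied by a transverse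
coordinate -/
theorem inner_eb_es {v : X} {x : X} (hx : x ∉ Col.ax) (hv : v = ⟪v, e1⟫ • e1 + ⟪v, es x⟫ • es x)
    (j : Fin 2) : ⟪eb j, v⟫ = ⟪x, eb j⟫ / ht x * ⟪v, es x⟫ := by
  have hs := ht_pos hx
  have h1 : ⟪eb j, es x⟫ = ⟪x, eb j⟫ / ht x := by
    unfold es
    rw [real_inner_smul_right, perp_eq, inner_sub_right, real_inner_smul_right,
      real_inner_comm e1 (eb j), inner_e1_eb, real_inner_comm x (eb j)]
    field_simp
    ring
  conv_lhs => rw [hv]
  rw [inner_add_right, real_inner_smul_right, real_inner_smul_right, h1,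
    real_inner_comm e1 (eb j), inner_e1_eb]
  ring

/-- the three dimensional solution `⟨x, e_j⟩ P` -/
theorem Dat.c1_ewt (D : Dat φ₀ z R ρ H lo hi) (a b : ℝ) (j : Fin 2) :
    C1O (fun x => ⟪x, eb j⟫ * wt z R ρ a b x)
      fun x => ⟪x, eb j⟫ • wt' z R ρ H a b x + wt z R ρ a b x • eb j :=
  (C1O.inner_const' (eb j)).mul (D.c1_wt a b)

/-- **the rotation derivative about the other nucleus solves the linearised equation** -/
theorem Dat.wd_ewt (D : Dat φ₀ z R ρ H lo hi) (a b : ℝ) (j : Fin 2) :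
    WD (fun x => ⟪x, eb j⟫ • wt' z R ρ H a b x + wt z R ρ a b x • eb j) fun x =>
      4 * Real.pi * gam (psi φ₀ z R ρ x) * (⟪x, eb j⟫ * wt z R ρ a b x) := by
  have h1 := (D.wd_wt a b).mul (C1O.inner_const' (eb j))
  have h2 := (WD.const (eb j)).mul (D.c1_wt a b)
  refine (h1.add h2).congr (fun x hx => rfl) fun x hx => ?_
  have hs := ht_pos hx
  have h3 := inner_eb_es hx (D.wt'_eq a b hx) j
  rw [real_inner_comm (eb j) (wt' z R ρ H a b x), h3]
  field_simp
  ring

/-- the rotation derivative `x_t ∂_s - s ∂₁` about the point `t` of the axis -/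
noncomputable def rot (t : ℝ) (v : X) (x : X) : ℝ := (x.fst - t) * ⟪v, es x⟫ - ht x * ⟪v, e1⟫

theorem C1O.fst_sub (t : ℝ) : C1O (fun x : X => x.fst - t) fun _ => e1 :=
  (C1O.fst.sub (C1O.const t)).congr' fun x _ => by rw [sub_zero]

theorem Dat.c1_xwt (D : Dat φ₀ z R ρ H lo hi) (t a b : ℝ) :
    C1O (fun x => (x.fst - t) * wt z R ρ a b x)
      fun x => (x.fst - t) • wt' z R ρ H a b x + wt z R ρ a b x • e1 :=
  (C1O.fst_sub t).mul (D.c1_wt a b)

/-- **the parts of the axial field**: `Δ(x_t P) = Γ x_t P - (2/s) rot_t P` -/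
theorem Dat.wd_xwt (D : Dat φ₀ z R ρ H lo hi) (t a b : ℝ) :
    WD (fun x => (x.fst - t) • wt' z R ρ H a b x + wt z R ρ a b x • e1) fun x =>
      4 * Real.pi * gam (psi φ₀ z R ρ x) * ((x.fst - t) * wt z R ρ a b x) -
        2 / ht x * rot t (wt' z R ρ H a b x) x := by
  have h1 := (D.wd_wt a b).mul (C1O.fst_sub t)
  have h2 := (WD.const e1).mul (D.c1_wt a b)
  refine (h1.add h2).congr (fun x hx => rfl) fun x hx => ?_
  have hs := ht_pos hx
  unfold rot
  rw [real_inner_comm e1 (wt' z R ρ H a b x)]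
  field_simp
  ring

/-- the curl relation for the weights -/
theorem Dat.rot_wt (D : Dat φ₀ z R ρ H lo hi) {a b : ℝ} (hab : a ≠ b) {x : X}
    (hx : x ∉ Col.ax) :
    rot a (wt' z R ρ H a b x) x + rot b (wt' z R ρ H b a x) x = 0 := by
  have h1 : b - a ≠ 0 := sub_ne_zero.mpr hab.symm
  have hc := D.curl hx
  have h6 : (a - b)⁻¹ = -(b - a)⁻¹ := by rw [← inv_neg, neg_sub]
  have e0 : (b - a)⁻¹ * (b - a) = 1 := inv_mul_cancel₀ h1
  unfold rot wt'
  rw [D.p'_eq hx, D.c'_eq hx, h6]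
  simp only [inner_sub_left, inner_add_left, real_inner_smul_left, inner_e1_self,
    inner_es_self hx, inner_es_e1, inner_e1_es]
  unfold zt at hc
  linear_combination ((b - a)⁻¹ * (b - a)) * hc

/-- the weight of the first nucleus is a rotation derivative -/
theorem Dat.wt_rot (D : Dat φ₀ z R ρ H lo hi) {a b : ℝ} (hab : a ≠ b) {x : X}
    (hx : x ∉ Col.ax) :
    (b - a) * (ht x * wt z R ρ a b x) = rot b (psi' z R ρ x) x := by
  have h1 : b - a ≠ 0 := sub_ne_zero.mpr hab.symm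
  have hs := ht_pos hx
  unfold rot
  rw [D.inner_psi' hx, D.inner_psi' hx, D.inner_V_es hx, D.inner_V_e1 hx]
  unfold wt zt
  field_simp
  ring

/-! ### near the axis -/

theorem Dat.bdN_c (D : Dat φ₀ z R ρ H lo hi) : ∀ x, x ∉ Col.ax → |cf z R ρ x| ≤ |lo| + |hi| := by
  intro x hx
  have h1 := D.ax.lo_le x hx
  have h2 := D.ax.le_hi x hx
  rw [abs_le]
  constructor
  · have := neg_abs_le lo
    have := abs_nonneg hi
    linarith
  · have := le_abs_self hi
    have := abs_nonneg lo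
    linarith

end Pool.Agent.TF.Col
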