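import Pool.Agent.Lib.MP_9cf0c9_mp.Dual

/-! Thomas-Fermi molecules: the definitions of the problem. -/

set_option autoImplicit false

namespace Pool.Agent.Lib.MP_9cf0c9_mp

open MeasureTheory Set
open Pool.Agent

/-- three dimensional Euclidean space -/
abbrev E3 : Type := EuclideanSpace ℝ (Fin 3)

/-- admissible densities: measurable, nonnegative, with finite integrals of `ρ` and `ρ ^ (5/3)` -/
structure IsDensity (ρ : E3 → ℝ) : Prop where
  meas : Measurable ρ
  nonneg : ∀ x, 0 ≤ ρ x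
  integrable : Integrable ρ
  integrable53 : Integrable (fun x => ρ x ^ (5 / 3 : ℝ))

/-- the nuclear potential `V` -/
noncomputable def V {k : ℕ} (z : Fin k → ℝ) (R : Fin k → E3) (x : E3) : ℝ :=
  ∑ j, z j / ‖x - R j‖

/-- the nuclear repulsion `U` -/
noncomputable def U {k : ℕ} (z : Fin k → ℝ) (R : Fin k → E3) : ℝ :=
  ∑ i, ∑ j, if i < j then z i * z j / ‖R i - R j‖ else 0

/-- the Thomas-Fermi functional `ξ` -/
noncomputable def xi {k : ℕ} (z : Fin k → ℝ) (R : Fin k → E3) (ρ : E3 → ℝ) : ℝ :=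
  3 / 5 * (∫ x, ρ x ^ (5 / 3 : ℝ)) - (∫ x, V z R x * ρ x) +
    1 / 2 * (∫ x, ∫ y, ρ x * ρ y / ‖x - y‖) + U z R

/-- the energy `e` with `lam` electrons -/
noncomputable def energy {k : ℕ} (z : Fin k → ℝ) (R : Fin k → E3) (lam : ℝ) : ℝ :=
  sInf {t | ∃ ρ : E3 → ℝ, IsDensity ρ ∧ ∫ x, ρ x = lam ∧ xi z R ρ = t}

/-- the energy `e(lam, l)` of the dilated molecule -/
noncomputable def dilated {k : ℕ} (z : Fin k → ℝ) (R : Fin k → E3) (lam l : ℝ) : ℝ :=
  energy z (fun j => l • R j) lam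

/-- the pressure `P = -(3 l^2)⁻¹ ∂e/∂l` -/
noncomputable def pressure {k : ℕ} (z : Fin k → ℝ) (R : Fin k → E3) (lam l : ℝ) : ℝ :=
  -(1 / (3 * l ^ 2)) * deriv (dilated z R lam) l

instance : Fact (Module.finrank ℝ E3 = 3) := ⟨by simp⟩

theorem isDensity_iff (ρ : E3 → ℝ) : IsDensity ρ ↔ TF.TC ρ :=
  ⟨fun h => ⟨h.meas, h.nonneg, h.integrable, h.integrable53⟩,
    fun h => ⟨h.meas, h.nonneg, h.int, h.int53⟩⟩

theorem U_eq {k : ℕ} (z : Fin k → ℝ) (R : Fin k → E3) : U z R = TF.Unuc z R := by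
  set F : Fin k → Fin k → ℝ := fun i j => z i * z j / ‖R i - R j‖ with hF
  have hsym : ∀ i j, F i j = F j i := by
    intro i j
    simp only [hF]
    rw [norm_sub_rev, mul_comm (z i)]
  have hdiag : ∀ i, F i i = 0 := by
    intro i
    simp [hF]
  have h1 : ∀ i j, F i j = (if i < j then F i j else 0) + (if j < i then F j i else 0) := by
    intro i j
    rcases lt_trichotomy i j with h | h | h
    · rw [if_pos h, if_neg h.not_gt, add_zero]
    · subst h
      rw [if_neg (lt_irrefl _), hdiag, add_zero]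
    · rw [if_neg h.not_gt, if_pos h, zero_add, hsym]
  have h2 : ∑ i, ∑ j, F i j = 2 * ∑ i, ∑ j, (if i < j then F i j else 0) := by
    have h3 : ∑ i, ∑ j, F i j = (∑ i, ∑ j, (if i < j then F i j else 0)) +
        ∑ i, ∑ j, (if j < i then F j i else 0) := by
      rw [← Finset.sum_add_distrib]
      refine Finset.sum_congr rfl fun i _ => ?_
      rw [← Finset.sum_add_distrib]
      exact Finset.sum_congr rfl fun j _ => h1 i j
    rw [h3, Finset.sum_comm (f := fun i j => if j < i then F j i else 0)]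
    ring
  have h4 : TF.Unuc z R = 1 / 2 * ∑ i, ∑ j, F i j := by
    unfold TF.Unuc
    simp only [hF, div_eq_mul_inv]
  rw [h4, h2]
  unfold U
  ring

theorem xi_eq {k : ℕ} (z : Fin k → ℝ) (R : Fin k → E3) {ρ : E3 → ℝ} (hρ : TF.TC ρ) :
    xi z R ρ = TF.Ept 0 z R ρ := by
  have h1 : ∫ x, V z R x * ρ x = ∑ i, z i * TF.pot ρ (R i) := by
    have e1 : ∀ x, V z R x * ρ x = ∑ i, z i * (‖R i - x‖⁻¹ * ρ x) := by
      intro x
      unfold V
      rw [Finset.sum_mul]
      refine Finset.sum_congr rfl fun i _ => ?_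
      rw [norm_sub_rev, div_eq_mul_inv, mul_assoc]
    simp_rw [e1]
    rw [integral_finsetSum _ fun i _ => (hρ.pot_integrable (R i)).const_mul (z i)]
    refine Finset.sum_congr rfl fun i _ => ?_
    rw [integral_const_mul]
    rfl
  have h2 : ∫ x, ∫ y, ρ x * ρ y / ‖x - y‖ = TF.En ρ ρ := by
    unfold TF.En TF.pot
    refine integral_congr_ae (Filter.Eventually.of_forall fun x => ?_)
    simp only
    rw [← integral_const_mul]
    refine integral_congr_ae (Filter.Eventually.of_forall fun y => ?_)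
    simp only
    rw [div_eq_mul_inv]
    ring
  unfold xi TF.Ept
  rw [h1, h2, U_eq]
  ring

theorem energy_eq {k : ℕ} (z : Fin k → ℝ) (R : Fin k → E3) (lam : ℝ) :
    energy z R lam = TF.eTF z R lam := by
  unfold energy TF.eTF TF.SS
  congr 1
  ext t
  constructor
  · rintro ⟨ρ, h, hm, ht⟩
    have h' := (isDensity_iff ρ).mp h
    exact ⟨ρ, h', hm, by rw [← xi_eq z R h', ht]⟩
  · rintro ⟨ρ, h, hm, ht⟩
    exact ⟨ρ, (isDensity_iff ρ).mpr h, hm, by rw [xi_eq z R h, ht]⟩

theorem dilated_anti {k : ℕ} {z : Fin k → ℝ} (hz : ∀ j, 0 ≤ z j) {R : Fin k → E3}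
    (hR : Function.Injective R) {lam : ℝ} (hlam : 0 ≤ lam) {l₁ l₂ : ℝ} (h1 : 0 < l₁)
    (h2 : l₁ ≤ l₂) : dilated z R lam l₂ ≤ dilated z R lam l₁ := by
  unfold dilated
  rw [energy_eq, energy_eq]
  have hinj : Function.Injective fun j => l₁ • R j := fun i j hij =>
    hR (smul_right_injective E3 h1.ne' hij)
  have h := TF.eTF_dilate hz hinj (θ := l₂ / l₁) (by rwa [one_le_div h1]) hlam
  have e : (fun j => (l₂ / l₁) • l₁ • R j) = fun j => l₂ • R j := by
    funext j
    rw [smul_smul, div_mul_cancel₀ _ h1.ne']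
  rwa [e] at h

/-- a function which is nonincreasing near a point has nonpositive derivative there -/
theorem nonpos_of_anti {f : ℝ → ℝ} {s : Set ℝ} {l d : ℝ} (hs : s ∈ nhds l) (hf : AntitoneOn f s)
    (hd : HasDerivAt f d l) : d ≤ 0 := by
  have hacc : AccPt l (Filter.principal s) := by
    rw [accPt_principal_iff_nhdsWithin]
    have h1 : nhdsWithin l (s \ {l}) = nhdsWithin l {l}ᶜ := by
      rw [sdiff_eq, inter_comm]
      exact nhdsWithin_inter_of_mem' (mem_nhdsWithin_of_mem_nhds hs)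
    rw [h1]
    infer_instance
  exact hd.hasDerivWithinAt.nonpos_of_antitoneOn hacc hf

end Pool.Agent.Lib.MP_9cf0c9_mp
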