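import Pool.Agent.Lib.MP_9cf0c9_mp.Point

/-! Transfer to a general three dimensional space and dilations. -/

set_option linter.unusedSectionVars false
set_option linter.unusedVariables false
set_option linter.style.haveILetI false

namespace Pool.Agent.TF
open MeasureTheory Set Metric Filter Topology
open scoped ENNReal NNReal RealInnerProductSpace

variable {V : Type*} [NormedAddCommGroup V] [InnerProductSpace ℝ V] [FiniteDimensional ℝ V]
  [MeasurableSpace V] [BorelSpace V]
variable {W : Type*} [NormedAddCommGroup W] [InnerProductSpace ℝ W] [FiniteDimensional ℝ W]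
  [MeasurableSpace W] [BorelSpace W]
variable {ι : Type*} [Fintype ι]

/-! ### invariance -/

theorem pot_push (L : V ≃ₗᵢ[ℝ] W) (σ : V → ℝ) (x : V) :
    pot (fun y => σ (L.symm y)) (L x) = pot σ x := by
  unfold pot
  rw [← L.measurePreserving.integral_comp L.toMeasurableEquiv.measurableEmbedding
    (fun y => ‖L x - y‖⁻¹ * σ (L.symm y))]
  refine integral_congr_ae (Eventually.of_forall fun y => ?_)
  simp only
  rw [← map_sub, L.norm_map, L.symm_apply_apply]

theorem integral_push (L : V ≃ₗᵢ[ℝ] W) (F : V → ℝ) : ∫ y, F (L.symm y) = ∫ x, F x := by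
  rw [← L.measurePreserving.integral_comp L.toMeasurableEquiv.measurableEmbedding
    (fun y => F (L.symm y))]
  simp only [L.symm_apply_apply]

theorem En_push (L : V ≃ₗᵢ[ℝ] W) (σ τ : V → ℝ) :
    En (fun y => σ (L.symm y)) (fun y => τ (L.symm y)) = En σ τ := by
  unfold En
  rw [← L.measurePreserving.integral_comp L.toMeasurableEquiv.measurableEmbedding
    (fun y => σ (L.symm y) * pot (fun y => τ (L.symm y)) y)]
  simp only [L.symm_apply_apply, pot_push]

theorem Ept_push (L : V ≃ₗᵢ[ℝ] W) (φ₀ : ℝ) (z : ι → ℝ) (R : ι → V) (σ : V → ℝ) :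
    Ept φ₀ z (fun i => L (R i)) (fun y => σ (L.symm y)) = Ept φ₀ z R σ := by
  unfold Ept Unuc
  rw [En_push, integral_push L (fun x => σ x ^ (5 / 3 : ℝ)), integral_push L σ]
  simp only [pot_push, ← map_sub, L.norm_map]

theorem TC.push (L : V ≃ₗᵢ[ℝ] W) {σ : V → ℝ} (hσ : TC σ) : TC (fun y => σ (L.symm y)) := by
  refine ⟨hσ.meas.comp L.symm.continuous.measurable, fun y => hσ.nonneg _, ?_, ?_⟩
  · exact L.symm.measurePreserving.integrable_comp_of_integrable hσ.int
  · exact L.symm.measurePreserving.integrable_comp_of_integrable hσ.int53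

theorem pot_translateV (σ : V → ℝ) (v x : V) :
    pot (fun y => σ (y - v)) (x + v) = pot σ x := by
  unfold pot
  rw [← integral_sub_right_eq_self (fun y => ‖x - y‖⁻¹ * σ y) v]
  refine integral_congr_ae (Eventually.of_forall fun y => ?_)
  simp only
  congr 3
  abel

theorem Ept_translate (φ₀ : ℝ) (z : ι → ℝ) (R : ι → V) (σ : V → ℝ) (v : V) :
    Ept φ₀ z (fun i => R i + v) (fun y => σ (y - v)) = Ept φ₀ z R σ := by
  have hE : En (fun y => σ (y - v)) (fun y => σ (y - v)) = En σ σ := by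
    unfold En
    rw [← integral_sub_right_eq_self (fun x => σ x * pot σ x) v]
    refine integral_congr_ae (Eventually.of_forall fun y => ?_)
    simp only
    have := pot_translateV σ v (y - v)
    rw [sub_add_cancel] at this
    rw [this]
  unfold Ept Unuc
  rw [hE, integral_sub_right_eq_self (fun x => σ x ^ (5 / 3 : ℝ)) v,
    integral_sub_right_eq_self (fun x => σ x) v]
  simp only [pot_translateV, add_sub_add_right_eq_sub]

theorem TC.translate {σ : V → ℝ} (hσ : TC σ) (v : V) : TC (fun y => σ (y - v)) :=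
  ⟨hσ.meas.comp (measurable_id.sub_const v), fun y => hσ.nonneg _, hσ.int.comp_sub_right v,
    hσ.int53.comp_sub_right v⟩

section dim3
variable [hd : Fact (Module.finrank ℝ V = 3)]

theorem exists_isom_X {u : V} (hu : ‖u‖ = 1) : ∃ L : V ≃ₗᵢ[ℝ] X, L u = e1 := by
  have hX : Module.finrank ℝ X = 3 := Fact.out
  have hV : Module.finrank ℝ V = 3 := hd.out
  have b1 : OrthonormalBasis (Fin 3) ℝ V := (stdOrthonormalBasis ℝ V).reindex (finCongr hV)
  have b2 : OrthonormalBasis (Fin 3) ℝ X := (stdOrthonormalBasis ℝ X).reindex (finCongr hX)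
  have L0 : V ≃ₗᵢ[ℝ] X := b1.repr.trans b2.repr.symm
  have he : ‖e1‖ = 1 := by
    have h : ‖e1‖ ^ 2 = 1 := by
      unfold e1; rw [norm_mk_sq]; simp
    nlinarith [norm_nonneg e1]
  obtain ⟨M, hM⟩ := exists_isom (v := L0 u) (w := e1) (by rw [L0.norm_map, hu, he])
  exact ⟨L0.trans M, hM⟩

/-- stretching along a unit vector -/
theorem stretchV {z : ι → ℝ} (hz : ∀ i, 0 ≤ z i) {R : ι → V} (hR : Function.Injective R)
    {u : V} (hu : ‖u‖ = 1) {b : ι → ℝ}
    (hmono : ∀ i j, ⟪R i, u⟫ ≤ ⟪R j, u⟫ → b i ≤ b j)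
    {φ₀ : ℝ} (hφ : 0 < φ₀) {σ : V → ℝ} (hσ : TC σ) {η : ℝ} (hη : 0 < η) :
    ∃ σ' : V → ℝ, TC σ' ∧ Ept φ₀ z (fun i => R i + b i • u) σ' ≤ Ept φ₀ z R σ + η := by
  by_cases hne : Nonempty ι
  · obtain ⟨i0, -, hi0⟩ := Finset.exists_min_image (Finset.univ : Finset ι) b Finset.univ_nonempty
    obtain ⟨L, hL⟩ := exists_isom_X hu
    have hfst : ∀ x : V, (L x).fst = ⟪x, u⟫ := by
      intro x
      rw [← inner_e1, ← hL, L.inner_map_map]
    obtain ⟨σ1, hσ1, h1⟩ := stretch hz (R := fun i => L (R i))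
      (fun i j hij => hR (L.injective hij)) (b := fun i => b i - b i0)
      (fun i => sub_nonneg.mpr (hi0 i (Finset.mem_univ i)))
      (fun i j hij => by
        rw [hfst, hfst] at hij
        have := hmono i j hij
        linarith) hφ (hσ.push L) hη
    rw [Ept_push] at h1
    have h2 : (fun i => L (R i) + (b i - b i0) • e1) = fun i => L (R i + (b i - b i0) • u) := by
      funext i
      rw [map_add, map_smul, hL]
    have hσ2 : TC (fun x => σ1 (L x)) := by
      have := hσ1.push L.symm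
      simpa using this
    have h3 : Ept φ₀ z (fun i => L (R i + (b i - b i0) • u)) σ1 =
        Ept φ₀ z (fun i => R i + (b i - b i0) • u) (fun x => σ1 (L x)) := by
      have h := Ept_push L φ₀ z (fun i => R i + (b i - b i0) • u) (fun x => σ1 (L x))
      simp only [L.apply_symm_apply] at h
      exact h
    rw [h2, h3] at h1
    refine ⟨fun y => σ1 (L (y - (b i0) • u)), hσ2.translate _, ?_⟩
    have h4 := Ept_translate φ₀ z (fun i => R i + (b i - b i0) • u) (fun x => σ1 (L x)) (b i0 • u)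
    have h5 : (fun i => R i + (b i - b i0) • u + b i0 • u) = fun i => R i + b i • u := by
      funext i
      rw [add_assoc, ← add_smul, sub_add_cancel]
    rw [h5] at h4
    rw [h4]
    exact h1
  · rw [not_nonempty_iff] at hne
    refine ⟨σ, hσ, ?_⟩
    have : (fun i => R i + b i • u) = R := by funext i; exact (hne.false i).elim
    rw [this]
    linarith

/-- stretching along the axes of an orthonormal basis -/
theorem stretch_basis {z : ι → ℝ} (hz : ∀ i, 0 ≤ z i) {R : ι → V} (hR : Function.Injective R)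
    {κ : Type*} [Fintype κ] (v : OrthonormalBasis κ ℝ V) {c : κ → ℝ} (hc : ∀ k, 0 ≤ c k)
    {φ₀ : ℝ} (hφ : 0 < φ₀) {σ : V → ℝ} (hσ : TC σ) {η : ℝ} (hη : 0 < η) (s : Finset κ) :
    ∃ σ' : V → ℝ, TC σ' ∧ Ept φ₀ z (fun i => R i + ∑ k ∈ s, (c k * ⟪R i, v k⟫) • v k) σ' ≤
      Ept φ₀ z R σ + η := by
  classical
  induction s using Finset.induction_on generalizing η with
  | empty =>
    refine ⟨σ, hσ, ?_⟩
    simp only [Finset.sum_empty, add_zero]
    linarith
  | insert a s ha ih =>
    obtain ⟨σ1, hσ1, h1⟩ := ih (half_pos hη)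
    set R1 : ι → V := fun i => R i + ∑ k ∈ s, (c k * ⟪R i, v k⟫) • v k with hR1
    have hin : ∀ i l, ⟪R1 i, v l⟫ = ⟪R i, v l⟫ + (if l ∈ s then c l * ⟪R i, v l⟫ else 0) := by
      intro i l
      simp only [hR1]
      rw [inner_add_left, sum_inner]
      congr 1
      have : ∀ k ∈ s, ⟪(c k * ⟪R i, v k⟫) • v k, v l⟫ =
          if k = l then c l * ⟪R i, v l⟫ else 0 := by
        intro k _
        rw [real_inner_smul_left, v.inner_eq_ite]
        split_ifs with h
        · rw [h, mul_one]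
        · rw [mul_zero]
      rw [Finset.sum_congr rfl this, Finset.sum_ite_eq' s l]
    have hR1inj : Function.Injective R1 := by
      intro i j hij
      refine hR ?_
      refine v.repr.injective ?_
      ext l
      rw [v.repr_apply_apply, v.repr_apply_apply, real_inner_comm, real_inner_comm (R j)]
      have h2 : ⟪R1 i, v l⟫ = ⟪R1 j, v l⟫ := by rw [hij]
      rw [hin, hin] at h2
      split_ifs at h2 with h
      · have h3 : (1 + c l) * ⟪R i, v l⟫ = (1 + c l) * ⟪R j, v l⟫ := by linarith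
        exact mul_left_cancel₀ (by have := hc l; positivity) h3
      · linarith
    obtain ⟨σ2, hσ2, h2⟩ := stretchV hz hR1inj (u := v a) (v.norm_eq_one a)
      (b := fun i => c a * ⟪R i, v a⟫) (fun i j hij => by
        rw [hin, hin, if_neg ha, if_neg ha, add_zero, add_zero] at hij
        exact mul_le_mul_of_nonneg_left hij (hc a)) hφ hσ1 (half_pos hη)
    refine ⟨σ2, hσ2, ?_⟩
    have h3 : (fun i => R i + ∑ k ∈ insert a s, (c k * ⟪R i, v k⟫) • v k) =
        fun i => R1 i + (c a * ⟪R i, v a⟫) • v a := by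
      funext i
      simp only [hR1]
      rw [Finset.sum_insert ha]
      abel
    rw [h3]
    linarith

/-- dilation -/
theorem dilate {z : ι → ℝ} (hz : ∀ i, 0 ≤ z i) {R : ι → V} (hR : Function.Injective R)
    {θ : ℝ} (hθ : 1 ≤ θ)
    {φ₀ : ℝ} (hφ : 0 < φ₀) {σ : V → ℝ} (hσ : TC σ) {η : ℝ} (hη : 0 < η) :
    ∃ σ' : V → ℝ, TC σ' ∧ Ept φ₀ z (fun i => θ • R i) σ' ≤ Ept φ₀ z R σ + η := by
  obtain ⟨σ', hσ', h⟩ := stretch_basis hz hR (stdOrthonormalBasis ℝ V) (c := fun _ => θ - 1)
    (fun _ => by linarith) hφ hσ hη Finset.univ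
  refine ⟨σ', hσ', ?_⟩
  have h1 : (fun i => R i + ∑ k, ((θ - 1) * ⟪R i, stdOrthonormalBasis ℝ V k⟫) •
      stdOrthonormalBasis ℝ V k) = fun i => θ • R i := by
    funext i
    have h2 := (stdOrthonormalBasis ℝ V).sum_repr' (R i)
    have h3 : ∑ k, ((θ - 1) * ⟪R i, stdOrthonormalBasis ℝ V k⟫) • stdOrthonormalBasis ℝ V k =
        (θ - 1) • R i := by
      nth_rewrite 2 [← h2]
      rw [Finset.smul_sum]
      refine Finset.sum_congr rfl fun k _ => ?_
      rw [smul_smul, real_inner_comm]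
    rw [h3, sub_smul, one_smul]
    abel
  rw [h1] at h
  exact h

end dim3

end Pool.Agent.TF
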