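import Pool.Agent.Lib.MP_9cf0c9_mp.DisTrial

/-! Nearly isolated ions: the calibration. -/

set_option linter.unusedSectionVars false
set_option linter.unusedVariables false
set_option linter.style.haveILetI false

namespace Pool.Agent.TF.Dis
open MeasureTheory Set Metric Filter Topology Pool.Agent.TF.Grd
open scoped ENNReal NNReal RealInnerProductSpace Gradient

variable {ι : Type*} [Fintype ι]
variable {z : ι → ℝ} {R : ι → X} {φ₀ : ℝ} {ρ : X → ℝ} {H : X → X →L[ℝ] X} {b : ℝ}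

/-- the multiplier -/
noncomputable def Hm (b : ℝ) (z : ι → ℝ) (R : ι → X) (ρ : X → ℝ) (x : X) : ℝ :=
  -(2 * Real.pi)⁻¹ * ∑ i, ch b R i x * rv z R ρ (R i) x

noncomputable def Hm' (b : ℝ) (z : ι → ℝ) (R : ι → X) (ρ : X → ℝ) (H : X → X →L[ℝ] X) (x : X) : X :=
  (-(2 * Real.pi)⁻¹) • ∑ i, (ch b R i x • rv' z R ρ H (R i) x +
    rv z R ρ (R i) x • Flux.gcut b (x - R i))

/-- the weight of the second field -/
noncomputable def be (b : ℝ) (R : ι → X) (x : X) : ℝ := ∑ i, ch b R i x * ‖x - R i‖ ^ 2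

noncomputable def be' (b : ℝ) (R : ι → X) (x : X) : X :=
  ∑ i, (ch b R i x • ((2 : ℝ) • (x - R i)) + ‖x - R i‖ ^ 2 • Flux.gcut b (x - R i))

noncomputable def Af (b : ℝ) (z : ι → ℝ) (R : ι → X) (ρ : X → ℝ) (H : X → X →L[ℝ] X) (x : X) : X :=
  (-(4 * Real.pi)⁻¹ * be b R x) • H x (psi' z R ρ x)

noncomputable def Df (b φ₀ : ℝ) (z : ι → ℝ) (R : ι → X) (ρ : X → ℝ) (H : X → X →L[ℝ] X) (x : X) : ℝ :=
  -(4 * Real.pi)⁻¹ * (⟪be' b R x, H x (psi' z R ρ x)⟫ + be b R x * (hs (H x) +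
    4 * Real.pi * gam (Grd.psi φ₀ z R ρ x) * ‖psi' z R ρ x‖ ^ 2))

theorem be_lip (hb : 0 < b) (R : ι → X) (x : X) : LipAt (be b R) x := by
  refine LipAt_sum fun i _ => (ch_lip hb R i x).mul ?_
  have h1 : ∀ y : X, HasGradientAt (fun y => ‖y - R i‖ ^ 2) ((2 : ℝ) • (y - R i)) y := by
    intro y
    have h2 := ((hasStrictFDerivAt_norm_sq (y - R i)).hasFDerivAt.comp y
      ((hasFDerivAt_id y).sub_const (R i)))
    rw [hasGradientAt_iff_hasFDerivAt]
    refine h2.congr_fderiv ?_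
    ext a
    simp [inner_smul_left]
  exact lipAt_of_gradient one_pos (fun y _ => h1 y) (by fun_prop)

theorem be_grad (hb : 0 < b) (R : ι → X) {x : X}
    (hs : ∀ i, ‖x - R i‖ ≠ b ∧ ‖x - R i‖ ≠ 2 * b) : HasGradientAt (be b R) (be' b R x) x := by
  have h2 : ∀ i, HasFDerivAt (fun y => ch b R i y * ‖y - R i‖ ^ 2)
      ((InnerProductSpace.toDual ℝ X) (ch b R i x • ((2 : ℝ) • (x - R i)) +
        ‖x - R i‖ ^ 2 • Flux.gcut b (x - R i))) x := by
    intro i
    have h1 : HasFDerivAt (fun y => ‖y - R i‖ ^ 2)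
        ((InnerProductSpace.toDual ℝ X) ((2 : ℝ) • (x - R i))) x := by
      have h2 := ((hasStrictFDerivAt_norm_sq (x - R i)).hasFDerivAt.comp x
        ((hasFDerivAt_id x).sub_const (R i)))
      refine h2.congr_fderiv ?_
      ext a
      simp [inner_smul_left]
    have h3 := (ch_grad hb R i (hs i).1 (hs i).2).hasFDerivAt.mul h1
    refine h3.congr_fderiv ?_
    simp only [map_add, map_smul]
  rw [hasGradientAt_iff_hasFDerivAt, be', map_sum]
  exact HasFDerivAt.fun_sum fun i _ => h2 i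

section sol
variable (hz : ∀ i, 0 ≤ z i) (hφ : 0 < φ₀) (hρ : TC ρ)
    (heq : ∀ x, ρ x = tf (Vpt z R x - pot ρ x - φ₀)) (h : HessSol z R ρ H)
include hz hφ hρ heq h

theorem Hm_lip (hb : 0 < b) : ∀ x, (∀ i, x ≠ R i) → LipAt (Hm b z R ρ) x := by
  intro x hx
  exact (LipAt.const _ x).mul
    (LipAt_sum fun i _ => (ch_lip hb R i x).mul (rv_lip hz hφ hρ heq h (R i) x hx))

theorem Hm_grad (hb : 0 < b) {x : X} (hx : ∀ i, x ≠ R i)
    (hs : ∀ i, ‖x - R i‖ ≠ b ∧ ‖x - R i‖ ≠ 2 * b) :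
    HasGradientAt (Hm b z R ρ) (Hm' b z R ρ H x) x := by
  have h2 : ∀ i, HasFDerivAt (fun y => ch b R i y * rv z R ρ (R i) y)
      ((InnerProductSpace.toDual ℝ X) (ch b R i x • rv' z R ρ H (R i) x +
        rv z R ρ (R i) x • Flux.gcut b (x - R i))) x := by
    intro i
    have h3 := (ch_grad hb R i (hs i).1 (hs i).2).hasFDerivAt.mul
      (rv_grad hz hφ hρ heq h (R i) hx).hasFDerivAt
    refine h3.congr_fderiv ?_
    rw [map_add, map_smul, map_smul]
  have h4 : HasFDerivAt (fun y => ∑ i, ch b R i y * rv z R ρ (R i) y)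
      (∑ i, (InnerProductSpace.toDual ℝ X) (ch b R i x • rv' z R ρ H (R i) x +
        rv z R ρ (R i) x • Flux.gcut b (x - R i))) x := HasFDerivAt.fun_sum fun i _ => h2 i
  rw [hasGradientAt_iff_hasFDerivAt]
  refine (h4.const_mul (-(2 * Real.pi)⁻¹)).congr_fderiv ?_
  rw [Hm', map_smul, map_sum]

theorem gampsi_cont {x : X} (hx : ∀ i, x ≠ R i) :
    ContinuousAt (fun y => gam (Grd.psi φ₀ z R ρ y)) x :=
  gam_continuous.continuousAt.comp (psi_cont hz hφ hρ heq hx)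

theorem Af_locInt (hb : 0 < b) : Flux.LocInt R (Af b z R ρ H) := by
  refine locInt_off fun x hx => ?_
  have h1 : ContinuousAt (be b R) x := (be_lip hb R x).continuousAt
  have h2 : ContinuousAt (fun y => H y (psi' z R ρ y)) x := (h.contAt hx).clm_apply (h.cont' hx)
  exact (continuousAt_const.mul h1).smul h2

theorem Df_locInt (hb : 0 < b) : Flux.LocInt R (Df b φ₀ z R ρ H) := by
  have hbl : Flux.LocLip R (be b R) := locLip_of_lipAt fun x _ => be_lip hb R x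
  have h1 : Flux.LocInt R (fun y => H y (psi' z R ρ y)) :=
    locInt_off fun x hx => (h.contAt hx).clm_apply (h.cont' hx)
  have h2 : Flux.LocInt R fun x => ⟪be' b R x, H x (psi' z R ρ x)⟫ := by
    refine hbl.grad_inner_locInt ?_ h1
    filter_upwards [ae_good R b] with x hx
    exact be_grad hb R hx.2
  have h3 : Flux.LocInt R fun x => (hs (H x) +
      4 * Real.pi * gam (Grd.psi φ₀ z R ρ x) * ‖psi' z R ρ x‖ ^ 2) * be b R x := by
    refine hbl.mul_locInt (locInt_off fun x hx => ?_)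
    have h4 := gampsi_cont hz hφ hρ heq h hx
    exact (hs_continuous.continuousAt.comp (h.contAt hx)).add
      ((continuousAt_const.mul h4).mul ((h.cont' hx).norm.pow 2))
  intro K hK hRK
  have h5 := ((h2 K hK hRK).add (h3 K hK hRK)).const_mul (-(4 * Real.pi)⁻¹)
  refine h5.congr (Eventually.of_forall fun x => ?_)
  simp only [Df, Pi.add_apply]
  ring

/-- the weak divergence of the second field -/
theorem flux_eq (hb : 0 < b) {ζ : X → ℝ} (hζ : Flux.TestFn R ζ) :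
    -∫ x, ⟪Af b z R ρ H x, ∇ ζ x⟫ ≤ ∫ x, ζ x * Df b φ₀ z R ρ H x := by
  obtain ⟨C, hC⟩ := hζ.lip
  have hoff : ∀ i, R i ∉ tsupport ζ := fun i hi =>
    absurd (notMem_tsupport_iff_eventuallyEq.mpr (hζ.off i)) (not_not.mpr hi)
  obtain ⟨e, he⟩ := exists_basis
  have hbl : Flux.LocLip R (be b R) := locLip_of_lipAt fun x _ => be_lip hb R x
  have key := Flux.boch (R := R) (P := psi' z R ρ) (T := H)
    (Gam := fun x => 4 * Real.pi * gam (Grd.psi φ₀ z R ρ x)) (β := be b R) (β' := be' b R) e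
    (fun x hx => h.deriv x hx) (fun x hx => h.contAt hx) (fun x hx => h.symm x hx)
    (fun x hx => continuousAt_const.mul (gampsi_cont hz hφ hρ heq h hx))
    (fun j η C hη hc ho => by
      rw [weak_hess hz R hφ hρ heq h (e j) hη hc ho])
    hbl (by
      filter_upwards [ae_good R b] with x hx
      exact be_grad hb R hx.2) hC hζ.supp hoff
  have e1 : ∫ x, ⟪Af b z R ρ H x, ∇ ζ x⟫ =
      -(4 * Real.pi)⁻¹ * ∫ x, ⟪be b R x • H x (psi' z R ρ x), ∇ ζ x⟫ := by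
    rw [← integral_const_mul]
    refine integral_congr_ae (Eventually.of_forall fun x => ?_)
    simp only [Af]
    rw [mul_smul, real_inner_smul_left]
  have e2 : ∫ x, ζ x * Df b φ₀ z R ρ H x = -(4 * Real.pi)⁻¹ *
      ∫ x, ζ x * (⟪be' b R x, H x (psi' z R ρ x)⟫ + be b R x * ((∑ j, ‖H x (e j)‖ ^ 2) +
        4 * Real.pi * gam (Grd.psi φ₀ z R ρ x) * ‖psi' z R ρ x‖ ^ 2)) := by
    rw [← integral_const_mul]
    refine integral_congr_ae (Eventually.of_forall fun x => ?_)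
    simp only [Df]
    rw [(he (H x)).1]
    ring
  rw [e1, e2, key]
  linarith

end sol

/-! ### the regions -/

theorem Hm_in (hS : Sep b R ρ) {x : X} {i : ι} (hx : ‖x - R i‖ ≤ 2 * b) :
    Hm b z R ρ x = -(2 * Real.pi)⁻¹ * (ch b R i x * rv z R ρ (R i) x) := by
  unfold Hm
  rw [hS.sum_in hx fun j hj => by rw [ch_zero hS.pos hj, zero_mul]]

theorem Hm_out (hS : Sep b R ρ) {x : X} (hx : ∀ i, 2 * b ≤ ‖x - R i‖) : Hm b z R ρ x = 0 := by
  unfold Hm
  rw [sum_out hx fun j hj => by rw [ch_zero hS.pos hj, zero_mul], mul_zero]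

theorem Hm'_in (hS : Sep b R ρ) {x : X} {i : ι} (hx : ‖x - R i‖ ≤ 2 * b) :
    Hm' b z R ρ H x = (-(2 * Real.pi)⁻¹) • (ch b R i x • rv' z R ρ H (R i) x +
      rv z R ρ (R i) x • Flux.gcut b (x - R i)) := by
  unfold Hm'
  rw [hS.sum_in hx fun j hj => by rw [ch_zero hS.pos hj, gcut_far hj, zero_smul, smul_zero,
    add_zero]]

theorem Hm'_out (hS : Sep b R ρ) {x : X} (hx : ∀ i, 2 * b ≤ ‖x - R i‖) :
    Hm' b z R ρ H x = 0 := by
  unfold Hm'
  rw [sum_out hx fun j hj => by rw [ch_zero hS.pos hj, gcut_far hj, zero_smul, smul_zero,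
    add_zero], smul_zero]

theorem be_in (hS : Sep b R ρ) {x : X} {i : ι} (hx : ‖x - R i‖ ≤ 2 * b) :
    be b R x = ch b R i x * ‖x - R i‖ ^ 2 := by
  unfold be
  rw [hS.sum_in hx fun j hj => by rw [ch_zero hS.pos hj, zero_mul]]

theorem be_out (hS : Sep b R ρ) {x : X} (hx : ∀ i, 2 * b ≤ ‖x - R i‖) : be b R x = 0 := by
  unfold be
  rw [sum_out hx fun j hj => by rw [ch_zero hS.pos hj, zero_mul]]

theorem be'_in (hS : Sep b R ρ) {x : X} {i : ι} (hx : ‖x - R i‖ ≤ 2 * b) :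
    be' b R x = ch b R i x • ((2 : ℝ) • (x - R i)) + ‖x - R i‖ ^ 2 • Flux.gcut b (x - R i) := by
  unfold be'
  rw [hS.sum_in hx fun j hj => by rw [ch_zero hS.pos hj, gcut_far hj, zero_smul, smul_zero,
    add_zero]]

theorem be'_out (hS : Sep b R ρ) {x : X} (hx : ∀ i, 2 * b ≤ ‖x - R i‖) : be' b R x = 0 := by
  unfold be'
  rw [sum_out hx fun j hj => by rw [ch_zero hS.pos hj, gcut_far hj, zero_smul, smul_zero,
    add_zero]]

/-- the shell density at the nucleus `i` -/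
noncomputable def shD (b : ℝ) (z : ι → ℝ) (R : ι → X) (ρ : X → ℝ) (H : X → X →L[ℝ] X) (i : ι)
    (x : X) : ℝ :=
  ‖psi' z R ρ x‖ ^ 2 - ‖psi' z R ρ x - (wf z R ρ (R i) x • Flux.gcut b (x - R i) +
    ch b R i x • wf' z R ρ H (R i) x)‖ ^ 2 -
    2 * ⟪ch b R i x • (-psi' z R ρ x - H x (x - R i)) +
      (-⟪x - R i, psi' z R ρ x⟫) • Flux.gcut b (x - R i), psi' z R ρ x⟫ +
    ⟪(‖x - R i‖ ^ 2) • Flux.gcut b (x - R i) + (2 * ch b R i x) • (x - R i),
      H x (psi' z R ρ x)⟫ + ch b R i x * ‖x - R i‖ ^ 2 * hs (H x)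

/-- the density in the own region -/
noncomputable def owD (φ₀ : ℝ) (z : ι → ℝ) (R : ι → X) (ρ : X → ℝ) (H : X → X →L[ℝ] X) (i : ι)
    (x : X) : ℝ :=
  2 * ‖psi' z R ρ x‖ ^ 2 + 2 * ⟪x - R i, H x (psi' z R ρ x)⟫ - ‖H x (x - R i)‖ ^ 2 +
    ‖x - R i‖ ^ 2 * hs (H x) - 2 * (4 * Real.pi * ρ x) * ⟪x - R i, psi' z R ρ x⟫ +
    4 * Real.pi * gam (Grd.psi φ₀ z R ρ x) * (‖x - R i‖ ^ 2 * ‖psi' z R ρ x‖ ^ 2 -
      ⟪x - R i, psi' z R ρ x⟫ ^ 2)

/-- the pointwise density of the calibration -/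
noncomputable def den (b φ₀ : ℝ) (z : ι → ℝ) (R : ι → X) (ρ : X → ℝ) (H : X → X →L[ℝ] X)
    (x : X) : ℝ :=
  Fcal φ₀ z R ρ (kD b z R ρ) (kD' b z R ρ H) x -
    ⟪Hm' b z R ρ H x, gVpt z R x - gradV ρ x⟫ - 4 * Real.pi * (ρ x * Hm b z R ρ x) -
    Df b φ₀ z R ρ H x

theorem den_own (hS : Sep b R ρ) {x : X} {i : ι} (hx : ‖x - R i‖ ≤ b)
    (hsym : ∀ u v, ⟪H x u, v⟫ = ⟪u, H x v⟫) :
    4 * Real.pi * den b φ₀ z R ρ H x = owD φ₀ z R ρ H i x := by
  have hpi := Real.pi_pos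
  have h2 : ‖x - R i‖ ≤ 2 * b := by linarith [hS.pos]
  unfold den
  obtain ⟨v, hv⟩ : ∃ v, v = psi' z R ρ x := ⟨_, rfl⟩
  have hv' : gVpt z R x - gradV ρ x = v := hv.symm
  have hY : Vpt z R x + kD b z R ρ x = -⟪x - R i, v⟫ := by
    rw [kD_own hS hx, rv, hv]
    ring
  have hY' : gVpt z R x + kD' b z R ρ H x = -(v + H x (x - R i)) := by
    rw [kD'_own hS hx, rv', hv]
    abel
  have hg : gam (Vpt z R x - pot ρ x - φ₀) = gam (Grd.psi φ₀ z R ρ x) := rfl
  rw [Fcal, hY, hY', hv', norm_neg, hg, Hm'_in hS h2, Hm_in hS h2, Df, be_in hS h2, be'_in hS h2,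
    ch_one hS.pos hx, gcut_in hx, rv', rv, owD, ← hv]
  simp only [one_smul, smul_zero, add_zero, one_mul, real_inner_smul_left, inner_add_left]
  obtain ⟨y, hy⟩ : ∃ y, y = x - R i := ⟨_, rfl⟩
  rw [← hy]
  have e1 : ‖v + H x y‖ ^ 2 = ‖v‖ ^ 2 + 2 * ⟪H x y, v⟫ + ‖H x y‖ ^ 2 := by
    rw [norm_add_sq_real, real_inner_comm]
  rw [e1, real_inner_self_eq_norm_sq, ← hsym y v]
  field_simp
  ring

theorem den_out (hS : Sep b R ρ) {x : X} (hx : ∀ i, 2 * b ≤ ‖x - R i‖) (hρ0 : ρ x = 0)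
    (hg0 : gam (Grd.psi φ₀ z R ρ x) = 0) : den b φ₀ z R ρ H x = 0 := by
  have hg : gam (Vpt z R x - pot ρ x - φ₀) = 0 := hg0
  have hY' : gVpt z R x + kD' b z R ρ H x = gVpt z R x - gradV ρ x := by
    rw [kD'_out hS hx]
    abel
  rw [den, Fcal, hY', hg, hρ0, Hm'_out hS hx, Hm_out hS hx, Df, be_out hS hx, be'_out hS hx]
  simp

theorem den_shell (hS : Sep b R ρ) {x : X} {i : ι} (hx : ‖x - R i‖ ≤ 2 * b) (hρ0 : ρ x = 0)
    (hg0 : gam (Grd.psi φ₀ z R ρ x) = 0) :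
    4 * Real.pi * den b φ₀ z R ρ H x = shD b z R ρ H i x := by
  have hpi := Real.pi_pos
  have hg : gam (Vpt z R x - pot ρ x - φ₀) = 0 := hg0
  unfold den
  obtain ⟨v, hv⟩ : ∃ v, v = psi' z R ρ x := ⟨_, rfl⟩
  have hv' : gVpt z R x - gradV ρ x = v := hv.symm
  have hY' : gVpt z R x + kD' b z R ρ H x = v - (wf z R ρ (R i) x • Flux.gcut b (x - R i) +
      ch b R i x • wf' z R ρ H (R i) x) := by
    rw [kD'_in hS hx, ← hv']
    abel
  rw [Fcal, hY', hv', hg, hρ0, Hm'_in hS hx, Hm_in hS hx, Df, be_in hS hx, be'_in hS hx, hg0,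
    shD, ← hv, rv', rv, ← hv]
  simp only [inner_smul_left, inner_add_left, smul_smul, inner_sub_left, inner_neg_left,
    RCLike.conj_to_real]
  field_simp
  ring

/-- **the second variation of the trial** -/
theorem VtrD (hz : ∀ i, 0 < z i) (hφ : 0 < φ₀) (hρ : TC ρ)
    (heq : ∀ x, ρ x = tf (Vpt z R x - pot ρ x - φ₀)) (h : HessSol z R ρ H) (hS : Sep b R ρ)
    (hown : ∀ i x, (∀ j, x ≠ R j) → 0 ≤ owD φ₀ z R ρ H i x)
    (hsh : ∀ i x, b < ‖x - R i‖ → ‖x - R i‖ < 2 * b → 0 ≤ shD b z R ρ H i x) :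
    0 ≤ Vtr φ₀ z R ρ (kD b z R ρ) ((8 * Real.pi)⁻¹ * ∫ x, ‖kD' b z R ρ H x‖ ^ 2) := by
  have hpi := Real.pi_pos
  have hz0 : ∀ i, 0 ≤ z i := fun i => (hz i).le
  have hR := hS.inj
  have hb := hS.pos
  obtain ⟨hT, C, hC⟩ := trialD hz hφ hρ heq h hS
  obtain ⟨N0, hN0, hfar⟩ := far_out R b
  have hzero : ∀ x, (∀ i, b ≤ ‖x - R i‖) → ρ x = 0 ∧ gam (Grd.psi φ₀ z R ρ x) = 0 := by
    intro x hx
    have h1 := hS.off x hx
    refine ⟨h1, gam_of_nonpos ?_⟩
    by_contra h2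
    push Not at h2
    have h3 := heq x
    rw [h1] at h3
    have h4 : 0 < tf (Vpt z R x - pot ρ x - φ₀) := by
      have h5 : 0 < Vpt z R x - pot ρ x - φ₀ := h2
      unfold tf
      rw [max_eq_left h5.le]
      positivity
    linarith
  have key := Vtr_ge_of_calib hz0 hR hφ hρ heq (finite_range R) hT hC
    (H := Hm b z R ρ) (D := Df b φ₀ z R ρ H) (e := fun _ => 0) (H' := Hm' b z R ρ H)
    (A := Af b z R ρ H) (integrable_zero _ _ _) (d := fun _ => 0)
    (locLip_of_lipAt (Hm_lip hz0 hφ hρ heq h hb))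
    (by
      filter_upwards [ae_good R b] with x hx
      exact Hm_grad hz0 hφ hρ heq h hb hx.1 hx.2)
    (Af_locInt hz0 hφ hρ heq h hb) (Df_locInt hz0 hφ hρ heq h hb)
    (fun ζ hζ => flux_eq hz0 hφ hρ heq h hb hζ)
    (by
      filter_upwards [ae_good R b] with x hx
      have e0 : -(0 : ℝ) ≤ den b φ₀ z R ρ H x := by
        rw [neg_zero]
        rcases regions b R x with ⟨i, hi⟩ | ⟨i, hi, hi2, hall⟩ | hall
        · have h1 := den_own (φ₀ := φ₀) (z := z) hS hi (h.symm x hx.1)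
          have h2 := hown i x hx.1
          rw [← h1] at h2
          exact nonneg_of_mul_nonneg_right h2 (by positivity)
        · obtain ⟨g1, g2⟩ := hzero x fun j => (hall j).le
          have h1 := den_shell (H := H) hS hi2 g1 g2
          have h2 := hsh i x hi (lt_of_le_of_ne hi2 (hx.2 i).2)
          rw [← h1] at h2
          exact nonneg_of_mul_nonneg_right h2 (by positivity)
        · obtain ⟨g1, g2⟩ := hzero x fun j => (hall j).2.le
          exact (den_out hS (fun j => (hall j).1.le) g1 g2).ge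
      exact e0)
    (by
      intro i δ hδ
      obtain ⟨C, η, hC, hη, hη1, hx⟩ := own_facts hz hR hφ hρ heq h i
      refine ⟨min (min η b) ((δ / (C + 1)) ^ 4), lt_min (lt_min hη hb) (by positivity), ?_⟩
      filter_upwards [off_ae R] with x hxo hxη
      have hx0 : 0 < ‖x - R i‖ := norm_pos_iff.mpr (sub_ne_zero.mpr (hxo i))
      have hxb : ‖x - R i‖ ≤ b :=
        (hxη.trans_le ((min_le_left _ _).trans (min_le_right _ _))).le
      obtain ⟨-, -, -, h4⟩ := hx x hx0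
        (hxη.trans_le ((min_le_left _ _).trans (min_le_left _ _)))
      have h5 : ‖x - R i‖ ^ (1 / 4 : ℝ) ≤ δ / (C + 1) := by
        have h6 : ‖x - R i‖ ^ (1 / 4 : ℝ) ≤ ((δ / (C + 1)) ^ 4) ^ (1 / 4 : ℝ) :=
          Real.rpow_le_rpow hx0.le (hxη.le.trans (min_le_right _ _)) (by norm_num)
        have h7 : ((δ / (C + 1)) ^ 4) ^ (1 / 4 : ℝ) = δ / (C + 1) := by
          rw [← Real.rpow_natCast, ← Real.rpow_mul (by positivity)]
          norm_num
        rwa [h7] at h6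
      have h8 : C * ‖x - R i‖ ^ (1 / 4 : ℝ) ≤ δ := by
        calc C * ‖x - R i‖ ^ (1 / 4 : ℝ) ≤ (C + 1) * (δ / (C + 1)) := by
              refine mul_le_mul (by linarith) h5 (by positivity) (by positivity)
          _ = δ := by field_simp
      have h9 := (abs_le.mp h4).2
      have h10 : ‖x - R i‖ ≤ 2 * b := by linarith
      rw [kD_nuc hS i, mul_zero, zero_add, zero_add]
      have hv' : gVpt z R x - gradV ρ x = psi' z R ρ x := rfl
      have e1 : 4 * Real.pi * ‖x - R i‖ ^ 2 * ⟪Hm b z R ρ x • (gVpt z R x - gradV ρ x) +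
          Af b z R ρ H x, ‖x - R i‖⁻¹ • (x - R i)⟫ =
          -(2 * ‖x - R i‖ * ⟪x - R i, psi' z R ρ x⟫ ^ 2) -
            ‖x - R i‖ ^ 3 * ⟪H x (psi' z R ρ x), x - R i⟫ := by
        rw [hv', Hm_in hS h10, Af, be_in hS h10, ch_one hb hxb, one_mul, one_mul, rv,
          inner_add_left, real_inner_smul_left, real_inner_smul_left, real_inner_smul_right,
          real_inner_smul_right, real_inner_comm (x - R i) (psi' z R ρ x)]
        field_simp
        ring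
      rw [e1]
      linarith)
    (by
      intro δ hδ
      refine ⟨N0, Eventually.of_forall fun x hx => ?_⟩
      have h1 : ∀ i, 2 * b ≤ ‖x - R i‖ := fun i => (hfar x hx.le i).le
      rw [Hm_out hS h1, Af, be_out hS h1, mul_zero, zero_smul, zero_smul, add_zero,
        inner_zero_left, mul_zero]
      linarith)
  simpa using key

end Pool.Agent.TF.Dis
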