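import Pool.Agent.Lib.MP_9cf0c9_mp.Hess1

/-! Second derivatives of Newtonian potentials of densities which are `C¹` near a point: the far
part and the local theorem. -/

set_option linter.unusedSectionVars false
set_option linter.unusedVariables false
set_option linter.style.haveILetI false

namespace Pool.Agent.TF
open MeasureTheory Set Metric Filter Topology
open scoped ENNReal NNReal RealInnerProductSpace Gradient

variable {V : Type*} [NormedAddCommGroup V] [InnerProductSpace ℝ V] [FiniteDimensional ℝ V]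
  [MeasurableSpace V] [BorelSpace V]

section dim3
variable [hd : Fact (Module.finrank ℝ V = 3)]

theorem d2_aesm (x : V) : AEStronglyMeasurable (fun y => d2 y x) (volume : Measure V) := by
  unfold d2
  have h1 : Continuous fun y : V => (innerSL ℝ (x - y)).smulRight (x - y) := by
    rw [continuous_clm_apply]
    intro a
    simp only [ContinuousLinearMap.smulRight_apply, innerSL_apply_apply]
    fun_prop
  have h5 : Measurable fun y : V => 3 * (‖x - y‖ ^ 5)⁻¹ := by fun_prop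
  have h3 : Measurable fun y : V => (‖x - y‖ ^ 3)⁻¹ := by fun_prop
  exact (h5.aestronglyMeasurable.smul h1.aestronglyMeasurable).sub
    (h3.aestronglyMeasurable.smul aestronglyMeasurable_const)

theorem d2_continuousAt {c x : V} (hx : x ≠ c) : ContinuousAt (d2 c) x := by
  have h0 : 0 < ‖x - c‖ := norm_pos_iff.mpr (sub_ne_zero.mpr hx)
  unfold d2
  have h1 : Continuous fun y : V => (innerSL ℝ (y - c)).smulRight (y - c) := by
    rw [continuous_clm_apply]
    intro a
    simp only [ContinuousLinearMap.smulRight_apply, innerSL_apply_apply]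
    fun_prop
  have h5 : ContinuousAt (fun y : V => 3 * (‖y - c‖ ^ 5)⁻¹) x := by
    refine continuousAt_const.mul (ContinuousAt.inv₀ (by fun_prop) (by positivity))
  have h3 : ContinuousAt (fun y : V => (‖y - c‖ ^ 3)⁻¹) x :=
    ContinuousAt.inv₀ (by fun_prop) (by positivity)
  exact (h5.smul h1.continuousAt).sub (h3.smul continuousAt_const)

/-- the second derivative of the potential of the far part -/
noncomputable def hF (f : V → ℝ) (x : V) : V →L[ℝ] V := ∫ y, f y • d2 y x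

theorem far_hess {f : V → ℝ} (hm : Measurable f) (hf : Integrable f) {x₀ : V} {δ : ℝ} (hδ : 0 < δ)
    (h0 : ∀ y ∈ ball x₀ (2 * δ), f y = 0) :
    ∀ x ∈ ball x₀ δ, Integrable (fun y => f y • d2 y x) ∧ HasFDerivAt (gradV f) (hF f x) x ∧
      ContinuousAt (hF f) x := by
  have hfar : ∀ x ∈ ball x₀ δ, ∀ y, f y ≠ 0 → δ ≤ ‖x - y‖ := by
    intro x hx y hy
    have hy' : y ∉ ball x₀ (2 * δ) := fun h => hy (h0 y h)
    rw [mem_ball, dist_eq_norm] at hx
    rw [mem_ball, dist_eq_norm, not_lt] at hy'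
    have h1 : ‖y - x₀‖ ≤ ‖x - y‖ + ‖x - x₀‖ := by
      have : y - x₀ = (x - x₀) - (x - y) := by abel
      rw [this]
      refine (norm_sub_le _ _).trans (le_of_eq (add_comm _ _))
    linarith
  have hkb : ∀ x ∈ ball x₀ δ, ∀ y, ‖f y • d2 y x‖ ≤ (4 * (δ ^ 3)⁻¹) * |f y| := by
    intro x hx y
    rw [norm_smul, Real.norm_eq_abs, mul_comm]
    by_cases hy : f y = 0
    · simp [hy]
    · refine mul_le_mul_of_nonneg_right ((d2_norm y x).trans ?_) (abs_nonneg _)
      have := inv_anti₀ (by positivity) (pow_le_pow_left₀ hδ.le (hfar x hx y hy) 3)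
      linarith
  have hkm : ∀ x, AEStronglyMeasurable (fun y => f y • d2 y x) volume := fun x =>
    hm.aestronglyMeasurable.smul (d2_aesm x)
  have hkI : ∀ x ∈ ball x₀ δ, Integrable fun y => f y • d2 y x := fun x hx =>
    (hf.abs.const_mul _).mono' (hkm x) (Eventually.of_forall (hkb x hx))
  have hGI := (far_part hm hf hδ h0).1
  intro x hx
  have hnb : ball x₀ δ ∈ 𝓝 x := isOpen_ball.mem_nhds hx
  have hfd : ∀ y, ∀ x' ∈ ball x₀ δ, HasFDerivAt (fun x' => f y • gradP y x') (f y • d2 y x') x' := by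
    intro y x' hx'
    by_cases hy : f y = 0
    · simp only [hy, zero_smul]; exact hasFDerivAt_const _ _
    · have hne : x' ≠ y := by
        have h1 := hfar x' hx' y hy
        intro h
        rw [h, sub_self, norm_zero] at h1
        linarith
      exact (hasFDerivAt_gradP hne).fun_const_smul (f y)
  have hgr : ∀ x', gradV f x' = ∫ y, f y • gradP y x' := by
    intro x'
    unfold gradV gradP
    rw [← integral_neg]
    refine integral_congr_ae (Eventually.of_forall fun y => ?_)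
    simp only
    rw [smul_neg]
  have hgI : ∀ x' ∈ ball x₀ δ, Integrable fun y => f y • gradP y x' := by
    intro x' hx'
    refine ((hGI x' hx').1.neg).congr (Eventually.of_forall fun y => ?_)
    unfold gradP
    simp only [Pi.neg_apply, smul_neg]
  have hgm : ∀ x', AEStronglyMeasurable (fun y => f y • gradP y x') volume := by
    intro x'
    unfold gradP
    exact (hm.smul (measurable_kv.comp (measurable_const.sub measurable_id)).neg).aestronglyMeasurable
  refine ⟨hkI x hx, ?_, ?_⟩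
  · have h1 := hasFDerivAt_integral_of_dominated_of_fderiv_le (𝕜 := ℝ) (μ := (volume : Measure V))
      (F := fun x' y => f y • gradP y x') (F' := fun x' y => f y • d2 y x')
      (bound := fun y => (4 * (δ ^ 3)⁻¹) * |f y|) (x₀ := x) (s := ball x₀ δ) hnb
      (Eventually.of_forall hgm) (hgI x hx) (hkm x)
      (Eventually.of_forall fun y x' hx' => hkb x' hx' y) (hf.abs.const_mul _)
      (Eventually.of_forall fun y x' hx' => hfd y x' hx')
    have h2 : gradV f = fun x' => ∫ y, f y • gradP y x' := funext hgr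
    rw [h2]
    exact h1
  · unfold hF
    refine continuousAt_of_dominated (bound := fun y => (4 * (δ ^ 3)⁻¹) * |f y|)
      (Eventually.of_forall hkm) ?_ (hf.abs.const_mul _) ?_
    · filter_upwards [hnb] with x' hx'
      exact Eventually.of_forall (hkb x' hx')
    · refine Eventually.of_forall fun y => ?_
      by_cases hy : f y = 0
      · simp only [hy, zero_smul]; exact continuousAt_const
      · have hne : x ≠ y := by
          have h1 := hfar x hx y hy
          intro h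
          rw [h, sub_self, norm_zero] at h1
          linarith
        exact (d2_continuousAt hne).const_smul (f y)

theorem hF_trace {f : V → ℝ} {x : V} (h : Integrable fun y => f y • d2 y x) :
    ∑ i, ⟪hF f x (stdOrthonormalBasis ℝ V i), stdOrthonormalBasis ℝ V i⟫ = 0 := by
  have h1 : ∀ i, Integrable fun y => (f y • d2 y x) (stdOrthonormalBasis ℝ V i) := fun i =>
    h.apply_continuousLinearMap _
  have e1 : ∀ i, ⟪hF f x (stdOrthonormalBasis ℝ V i), stdOrthonormalBasis ℝ V i⟫ =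
      ∫ y, ⟪stdOrthonormalBasis ℝ V i, (f y • d2 y x) (stdOrthonormalBasis ℝ V i)⟫ := by
    intro i
    unfold hF
    rw [ContinuousLinearMap.integral_apply h, integral_inner (h1 i), real_inner_comm]
  simp_rw [e1]
  rw [← integral_finsetSum _ fun i _ => (h1 i).const_inner _]
  have e2 : ∀ y, ∑ i, ⟪stdOrthonormalBasis ℝ V i, (f y • d2 y x) (stdOrthonormalBasis ℝ V i)⟫ = 0 := by
    intro y
    have h2 := d2_trace (c := y) (x := x)
    have e3 : ∀ i, ⟪stdOrthonormalBasis ℝ V i, (f y • d2 y x) (stdOrthonormalBasis ℝ V i)⟫ =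
        f y * ⟪d2 y x (stdOrthonormalBasis ℝ V i), stdOrthonormalBasis ℝ V i⟫ := fun i => by
      rw [smul_apply, real_inner_smul_right, real_inner_comm]
    simp_rw [e3]
    rw [← Finset.mul_sum, h2, mul_zero]
  simp_rw [e2]
  rw [integral_zero]

/-- the integral of the kernel over a ball -/
theorem integral_ball_inv_sq (x₀ : V) {δ : ℝ} (hδ : 0 < δ) :
    Integrable ((ball x₀ δ).indicator fun y => (‖x₀ - y‖ ^ 2)⁻¹) ∧
    ∫ y, (ball x₀ δ).indicator (fun y => (‖x₀ - y‖ ^ 2)⁻¹) y = δ * c2 V := by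
  set g : V → ℝ := (ball (0 : V) 1).indicator fun v => (‖v‖ ^ 2)⁻¹ with hg
  have hgi : Integrable g := integrable_ind_inv_sq
  have e1 : ∀ y, (ball x₀ δ).indicator (fun y => (‖x₀ - y‖ ^ 2)⁻¹) y =
      (δ ^ 2)⁻¹ * g (δ⁻¹ • (y - x₀)) := by
    intro y
    have hn : ‖δ⁻¹ • (y - x₀)‖ = δ⁻¹ * ‖x₀ - y‖ := by
      rw [norm_smul, Real.norm_of_nonneg (by positivity : (0:ℝ) ≤ δ⁻¹), norm_sub_rev]
    by_cases hy : y ∈ ball x₀ δ
    · have hy' : δ⁻¹ • (y - x₀) ∈ ball (0 : V) 1 := by
        rw [mem_ball, dist_zero_right, hn, inv_mul_lt_iff₀ hδ, mul_one, norm_sub_rev]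
        rwa [mem_ball, dist_eq_norm] at hy
      rw [indicator_of_mem hy, hg, indicator_of_mem hy', hn]
      rw [mul_pow, mul_inv, inv_pow, inv_inv, ← mul_assoc, inv_mul_cancel₀ (by positivity), one_mul]
    · have hy' : δ⁻¹ • (y - x₀) ∉ ball (0 : V) 1 := by
        rw [mem_ball, dist_zero_right, hn, inv_mul_lt_iff₀ hδ, mul_one, norm_sub_rev]
        rwa [mem_ball, dist_eq_norm] at hy
      rw [indicator_of_notMem hy, hg, indicator_of_notMem hy', mul_zero]
  have h1 : Integrable fun y : V => g (δ⁻¹ • (y - x₀)) :=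
    (hgi.comp_smul (R := δ⁻¹) (by positivity)).comp_sub_right x₀
  constructor
  · exact (h1.const_mul _).congr (Eventually.of_forall fun y => (e1 y).symm)
  · simp_rw [e1]
    rw [integral_const_mul, integral_sub_right_eq_self (fun v : V => g (δ⁻¹ • v)) x₀,
      Measure.integral_comp_smul, hd.out]
    have h2 : ∫ v, g v = c2 V := by
      rw [hg, integral_indicator measurableSet_ball]
      rfl
    rw [h2, smul_eq_mul, abs_of_nonneg (by positivity)]
    field_simp

theorem hF_bound_aux {f g : V → ℝ} {x₀ : V} {δ : ℝ} (hδ : 0 < δ) (hgle : ∀ x, |g x| ≤ |f x|)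
    (hg0 : ∀ y, ‖y - x₀‖ ≤ δ / 2 → g y = 0)
    (hGIf : Integrable fun y => (‖x₀ - y‖ ^ 2)⁻¹ * |f y|) :
    ‖hF g x₀‖ ≤ 8 * δ⁻¹ * ∫ y, (‖x₀ - y‖ ^ 2)⁻¹ * |f y| := by
  unfold hF
  refine (norm_integral_le_integral_norm _).trans ?_
  rw [← integral_const_mul]
  refine integral_mono_of_nonneg (Eventually.of_forall fun y => norm_nonneg _)
    (hGIf.const_mul _) (Eventually.of_forall fun y => ?_)
  simp only
  rw [norm_smul, Real.norm_eq_abs]
  by_cases hy : ‖y - x₀‖ ≤ δ / 2
  · rw [hg0 y hy, abs_zero, zero_mul]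
    positivity
  · push Not at hy
    have hy' : δ / 2 < ‖x₀ - y‖ := by rwa [norm_sub_rev]
    have hpos : 0 < ‖x₀ - y‖ := by linarith
    have h3 : 4 * (‖x₀ - y‖ ^ 3)⁻¹ ≤ 8 * δ⁻¹ * (‖x₀ - y‖ ^ 2)⁻¹ := by
      have h4 : ‖x₀ - y‖⁻¹ ≤ 2 * δ⁻¹ := by
        have := inv_anti₀ (by positivity : 0 < δ / 2) hy'.le
        rw [inv_div] at this
        calc ‖x₀ - y‖⁻¹ ≤ 2 / δ := this
          _ = _ := by ring
      calc 4 * (‖x₀ - y‖ ^ 3)⁻¹ = 4 * ‖x₀ - y‖⁻¹ * (‖x₀ - y‖ ^ 2)⁻¹ := by
            field_simp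
        _ ≤ 4 * (2 * δ⁻¹) * (‖x₀ - y‖ ^ 2)⁻¹ := by gcongr
        _ = _ := by ring
    calc |g y| * ‖d2 y x₀‖ ≤ |f y| * (4 * (‖x₀ - y‖ ^ 3)⁻¹) :=
          mul_le_mul (hgle y) (d2_norm y x₀) (norm_nonneg _) (abs_nonneg _)
      _ ≤ |f y| * (8 * δ⁻¹ * (‖x₀ - y‖ ^ 2)⁻¹) :=
          mul_le_mul_of_nonneg_left h3 (abs_nonneg _)
      _ = _ := by ring

theorem loc_hess_arith {c B M I a : ℝ} (hc : 0 ≤ c) (hB : 0 ≤ B) (hM : 0 ≤ M) (hI : 0 ≤ I)
    (ha : 0 ≤ a) :
    3 * c * a + 3 * c * B * M + 8 * I ≤ (3 * c * (1 + B) + 8) * (a + M + I) := by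
  have k1 := mul_nonneg (mul_nonneg hc hB) ha
  have k2 := mul_nonneg hc hM
  have k3 := mul_nonneg hc hI
  have k4 := mul_nonneg (mul_nonneg hc hB) hI
  linarith only [k1, k2, k3, k4, hM, ha]

/-- **the second derivative of the potential of a density which is `C¹` near a point** -/
theorem loc_hess : ∃ C : ℝ, 0 ≤ C ∧ ∀ {f : V → ℝ} {f' : V → V} (hm : Measurable f)
    (hf : Integrable f) {x₀ : V} {δ : ℝ} (hδ : 0 < δ)
    (hg : ∀ x ∈ ball x₀ δ, HasGradientAt f (f' x) x) (hc : ContinuousOn f' (ball x₀ δ))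
    {M₀ M₁ : ℝ} (h0 : ∀ x ∈ ball x₀ δ, |f x| ≤ M₀) (h1 : ∀ x ∈ ball x₀ δ, ‖f' x‖ ≤ M₁),
    ∃ H : V → V →L[ℝ] V, (∀ x ∈ ball x₀ (δ / 4), HasFDerivAt (gradV f) (H x) x) ∧
      (∀ x ∈ ball x₀ (δ / 4), ContinuousAt H x) ∧
      (∀ a b, ⟪H x₀ a, b⟫ = ⟪a, H x₀ b⟫) ∧
      ∑ i, ⟪H x₀ (stdOrthonormalBasis ℝ V i), stdOrthonormalBasis ℝ V i⟫ =
        -(4 * Real.pi * f x₀) ∧
      ‖H x₀‖ ≤ C * (δ * M₁ + M₀ + δ⁻¹ * ∫ y, (‖x₀ - y‖ ^ 2)⁻¹ * |f y|) := by
  -- a fixed cut-off
  let φ : ContDiffBump (0 : V) := ⟨1 / 2, 3 / 4, by norm_num, by norm_num⟩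
  obtain ⟨B, hB⟩ : ∃ B, ∀ x, ‖fderiv ℝ φ x‖ ≤ B := by
    have h1 : HasCompactSupport (fderiv ℝ φ) := φ.hasCompactSupport.fderiv (𝕜 := ℝ)
    have h2 : Continuous (fderiv ℝ φ) := (φ.contDiff (n := 1)).continuous_fderiv (by norm_num)
    exact h1.exists_bound_of_continuous h2
  have hB0 : 0 ≤ B := (norm_nonneg _).trans (hB 0)
  have hc20 : 0 ≤ c2 V := by
    unfold c2
    exact integral_nonneg fun v => by positivity
  refine ⟨3 * c2 V * (1 + B) + 8, by positivity, ?_⟩
  intro f f' hm hf x₀ δ hδ hg hc M₀ M₁ h0 h1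
  have hx₀ : x₀ ∈ ball x₀ δ := mem_ball_self hδ
  have hM₀ : 0 ≤ M₀ := (abs_nonneg _).trans (h0 x₀ hx₀)
  have hM₁ : 0 ≤ M₁ := (norm_nonneg _).trans (h1 x₀ hx₀)
  set χ : V → ℝ := fun x => φ (δ⁻¹ • (x - x₀)) with hχ
  set χ' : V → V := fun x => δ⁻¹ • ∇ (φ : V → ℝ) (δ⁻¹ • (x - x₀)) with hχ'
  have hφd : ∀ x, DifferentiableAt ℝ (φ : V → ℝ) x := fun x =>
    (φ.contDiff (n := 1)).differentiable (by norm_num) x
  have hφg : Continuous (fun x => ∇ (φ : V → ℝ) x) := by
    unfold gradient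
    exact (InnerProductSpace.toDual ℝ V).symm.continuous.comp
      ((φ.contDiff (n := 1)).continuous_fderiv (by norm_num))
  have hφn : ∀ x, ‖∇ (φ : V → ℝ) x‖ ≤ B := fun x => by
    unfold gradient
    rw [LinearIsometryEquiv.norm_map]
    exact hB x
  have hχg : ∀ x, HasGradientAt χ (χ' x) x := by
    intro x
    have h2 : HasFDerivAt (fun x : V => δ⁻¹ • (x - x₀)) (δ⁻¹ • ContinuousLinearMap.id ℝ V) x :=
      ((hasFDerivAt_id x).sub_const x₀).fun_const_smul δ⁻¹
    have h3 := ((hφd (δ⁻¹ • (x - x₀))).hasGradientAt.hasFDerivAt).comp x h2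
    rw [hasGradientAt_iff_hasFDerivAt]
    refine h3.congr_fderiv ?_
    ext a
    simp [hχ']
  have hχc : Continuous χ := φ.continuous.comp (by fun_prop)
  have hχ'c : Continuous χ' := (hφg.comp (by fun_prop : Continuous fun x : V => δ⁻¹ • (x - x₀))).const_smul _
  have hχ'n : ∀ x, ‖χ' x‖ ≤ δ⁻¹ * B := fun x => by
    simp only [hχ']
    rw [norm_smul, Real.norm_of_nonneg (by positivity : (0:ℝ) ≤ δ⁻¹)]
    exact mul_le_mul_of_nonneg_left (hφn _) (by positivity)
  have hχ0 : ∀ x, 0 ≤ χ x := fun x => φ.nonneg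
  have hχ1 : ∀ x, χ x ≤ 1 := fun x => φ.le_one
  have hnorm : ∀ x : V, ‖δ⁻¹ • (x - x₀)‖ = δ⁻¹ * ‖x - x₀‖ := fun x => by
    rw [norm_smul, Real.norm_of_nonneg (by positivity : (0:ℝ) ≤ δ⁻¹)]
  have hχone : ∀ x, ‖x - x₀‖ ≤ δ / 2 → χ x = 1 := by
    intro x hx
    refine φ.one_of_mem_closedBall ?_
    rw [mem_closedBall, dist_zero_right, hnorm]
    show δ⁻¹ * ‖x - x₀‖ ≤ 1 / 2
    rw [inv_mul_le_iff₀ hδ]
    linarith
  have hχz : ∀ x, 3 / 4 * δ ≤ ‖x - x₀‖ → χ x = 0 := by
    intro x hx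
    refine φ.zero_of_le_dist ?_
    rw [dist_zero_right, hnorm]
    show 3 / 4 ≤ δ⁻¹ * ‖x - x₀‖
    rw [le_inv_mul_iff₀ hδ]
    linarith
  have hχz' : ∀ x, 3 / 4 * δ < ‖x - x₀‖ → χ' x = 0 ∧ χ =ᶠ[𝓝 x] fun _ => 0 := by
    intro x hx
    have h2 : ∀ᶠ y in 𝓝 x, 3 / 4 * δ < ‖y - x₀‖ := by
      have : ContinuousAt (fun y : V => ‖y - x₀‖) x := by fun_prop
      exact this.eventually (lt_mem_nhds hx)
    have h3 : χ =ᶠ[𝓝 x] fun _ => 0 := by
      filter_upwards [h2] with y hy
      exact hχz y hy.le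
    refine ⟨?_, h3⟩
    have h4 := (hχg x).congr_of_eventuallyEq h3.symm
    exact h4.unique (hasGradientAt_const x 0)
  -- the near part
  set c : V → ℝ := fun x => χ x * f x with hcdef
  set c' : V → V := fun x => χ x • f' x + f x • χ' x with hc'def
  have hcb : ∀ x, |c x| ≤ M₀ := by
    intro x
    simp only [hcdef]
    rw [abs_mul, abs_of_nonneg (hχ0 x)]
    by_cases hx : x ∈ ball x₀ δ
    · calc χ x * |f x| ≤ 1 * M₀ := mul_le_mul (hχ1 x) (h0 x hx) (abs_nonneg _) zero_le_one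
        _ = M₀ := one_mul _
    · rw [mem_ball, dist_eq_norm, not_lt] at hx
      rw [hχz x (by linarith), zero_mul]
      exact hM₀
  have hc'out : ∀ x, 3 / 4 * δ < ‖x - x₀‖ → c' x = 0 := by
    intro x hx
    simp only [hc'def]
    rw [hχz x hx.le, (hχz' x hx).1, zero_smul, smul_zero, add_zero]
  have hout : ∀ x, ‖x₀‖ + δ ≤ ‖x‖ → 3 / 4 * δ < ‖x - x₀‖ := by
    intro x hx
    have := norm_sub_norm_le x x₀
    linarith
  have hC1 : C1c c c' := by
    refine ⟨⟨hχc.measurable.mul hm, ⟨M₀, hcb⟩, ⟨‖x₀‖ + δ, fun x hx => ?_⟩⟩, ?_, ?_,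
      ⟨‖x₀‖ + δ, fun x hx => hc'out x (hout x hx)⟩⟩
    · simp only [hcdef]
      rw [hχz x (hout x hx).le, zero_mul]
    · intro x
      by_cases hx : x ∈ ball x₀ δ
      · have h2 := (hχg x).hasFDerivAt.mul (hg x hx).hasFDerivAt
        rw [hasGradientAt_iff_hasFDerivAt]
        refine h2.congr_fderiv ?_
        ext a
        simp [hc'def]
      · rw [mem_ball, dist_eq_norm, not_lt] at hx
        have hx' : 3 / 4 * δ < ‖x - x₀‖ := by linarith
        rw [hc'out x hx']
        refine (hasGradientAt_const x (0 : ℝ)).congr_of_eventuallyEq ?_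
        filter_upwards [(hχz' x hx').2] with y hy
        simp only [hcdef]
        rw [hy, zero_mul]
    · rw [continuous_iff_continuousAt]
      intro x
      by_cases hx : x ∈ ball x₀ δ
      · have hn := isOpen_ball.mem_nhds hx
        have h2 : ContinuousAt f' x := hc.continuousAt hn
        have h3 : ContinuousAt f x := (hg x hx).hasFDerivAt.continuousAt
        exact (hχc.continuousAt.smul h2).add (h3.smul hχ'c.continuousAt)
      · rw [mem_ball, dist_eq_norm, not_lt] at hx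
        have hx' : 3 / 4 * δ < ‖x - x₀‖ := by linarith
        have h2 : ∀ᶠ y in 𝓝 x, 3 / 4 * δ < ‖y - x₀‖ := by
          have : ContinuousAt (fun y : V => ‖y - x₀‖) x := by fun_prop
          exact this.eventually (lt_mem_nhds hx')
        refine (continuousAt_const (y := (0 : V))).congr ?_
        filter_upwards [h2] with y hy
        exact (hc'out y hy).symm
  have hc'n : ∀ x, ‖c' x‖ ≤ (ball x₀ δ).indicator (fun _ => M₁ + δ⁻¹ * B * M₀) x := by
    intro x
    by_cases hx : x ∈ ball x₀ δ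
    · rw [indicator_of_mem hx]
      simp only [hc'def]
      refine (norm_add_le _ _).trans (add_le_add ?_ ?_)
      · rw [norm_smul, Real.norm_of_nonneg (hχ0 x)]
        calc χ x * ‖f' x‖ ≤ 1 * M₁ := mul_le_mul (hχ1 x) (h1 x hx) (norm_nonneg _) zero_le_one
          _ = M₁ := one_mul _
      · rw [norm_smul, Real.norm_eq_abs, mul_comm]
        exact mul_le_mul (hχ'n x) (h0 x hx) (abs_nonneg _) (by positivity)
    · rw [indicator_of_notMem hx]
      rw [mem_ball, dist_eq_norm, not_lt] at hx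
      rw [hc'out x (by linarith), norm_zero]
  -- the far part
  set g : V → ℝ := fun x => (1 - χ x) * f x with hgdef
  have hgm : Measurable g := (measurable_const.sub hχc.measurable).mul hm
  have hgle : ∀ x, |g x| ≤ |f x| := by
    intro x
    simp only [hgdef]
    rw [abs_mul, abs_of_nonneg (by have := hχ1 x; linarith)]
    refine mul_le_of_le_one_left (abs_nonneg _) ?_
    have := hχ0 x; linarith
  have hgi : Integrable g := hf.abs.mono' hgm.aestronglyMeasurable
    (Eventually.of_forall fun x => by rw [Real.norm_eq_abs]; exact hgle x)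
  have hg0 : ∀ y, ‖y - x₀‖ ≤ δ / 2 → g y = 0 := by
    intro y hy
    simp only [hgdef]
    rw [hχone y hy, sub_self, zero_mul]
  have hg0' : ∀ y ∈ ball x₀ (2 * (δ / 4)), g y = 0 := by
    intro y hy
    rw [mem_ball, dist_eq_norm] at hy
    exact hg0 y (by linarith)
  have hfar := far_hess hgm hgi (by positivity : 0 < δ / 4) hg0'
  have hfp := (far_part hgm hgi (by positivity : 0 < δ / 4) hg0').1
  have hsum : ∀ x ∈ ball x₀ (δ / 4), gradV f x = gradV c x + gradV g x := by
    intro x hx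
    rw [← gradV_add (hC1.bc.GI x) (hfp x hx).1]
    congr 1
    funext y
    simp only [hcdef, hgdef]
    ring
  have hx₄ : x₀ ∈ ball x₀ (δ / 4) := mem_ball_self (by positivity)
  have hder : ∀ x ∈ ball x₀ (δ / 4), HasFDerivAt (gradV f) (hN c' x + hF g x) x := by
    intro x hx
    refine ((hC1.hasFDerivAt x).add (hfar x hx).2.1).congr_of_eventuallyEq ?_
    filter_upwards [isOpen_ball.mem_nhds hx] with y hy
    exact hsum y hy
  refine ⟨fun x => hN c' x + hF g x, hder, fun x hx =>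
    hC1.hN_continuous.continuousAt.add (hfar x hx).2.2, ?_, ?_, ?_⟩
  · -- symmetry
    let J : V →L[ℝ] (V →L[ℝ] ℝ) := LinearMap.toContinuousLinearMap
      { toFun := fun v => innerSL ℝ v
        map_add' := fun v w => map_add _ v w
        map_smul' := fun r v => by ext w; simp }
    have hJ : ∀ v w, J v w = ⟪v, w⟫ := fun v w => rfl
    have h2 : ∀ᶠ y in 𝓝 x₀, HasFDerivAt (pot f) (J (gradV f y)) y := by
      filter_upwards [ball_mem_nhds x₀ (by positivity : 0 < δ / 2)] with y hy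
      have hsub : ∀ w ∈ ball y (δ / 2), |f w| ≤ M₀ := by
        intro w hw
        refine h0 w ?_
        rw [mem_ball, dist_eq_norm] at hy hw ⊢
        have e : w - x₀ = (w - y) + (y - x₀) := by abel
        rw [e]
        have := norm_add_le (w - y) (y - x₀)
        linarith
      have h3 := (loc_grad hm hf (by positivity : 0 < δ / 2) hsub).2.1.hasFDerivAt
      refine h3.congr_fderiv ?_
      ext w
      rw [hJ, InnerProductSpace.toDual_apply_apply]
    have h3 : HasFDerivAt (fun y => J (gradV f y)) (J.comp (hN c' x₀ + hF g x₀)) x₀ :=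
      J.hasFDerivAt.comp x₀ (hder x₀ hx₄)
    intro a b
    have h4 := second_derivative_symmetric_of_eventually h2 h3 a b
    rw [ContinuousLinearMap.comp_apply, ContinuousLinearMap.comp_apply, hJ, hJ] at h4
    rw [h4, real_inner_comm]
  · -- trace
    have e1 : ∀ i, ⟪(hN c' x₀ + hF g x₀) (stdOrthonormalBasis ℝ V i), stdOrthonormalBasis ℝ V i⟫ =
        ⟪hN c' x₀ (stdOrthonormalBasis ℝ V i), stdOrthonormalBasis ℝ V i⟫ +
        ⟪hF g x₀ (stdOrthonormalBasis ℝ V i), stdOrthonormalBasis ℝ V i⟫ := fun i => by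
      rw [add_apply, inner_add_left]
    simp_rw [e1]
    rw [Finset.sum_add_distrib, hC1.trace, hF_trace (hfar x₀ hx₄).1, add_zero]
    simp only [hcdef]
    rw [hχone x₀ (by rw [sub_self, norm_zero]; positivity), one_mul]
  · -- bound
    have hGIf : Integrable fun y => (‖x₀ - y‖ ^ 2)⁻¹ * |f y| := by
      rw [← GI_iff hm]
      exact ((loc_grad hm hf hδ h0).1 x₀ (mem_ball_self (by positivity))).1
    obtain ⟨i1, i2⟩ := integral_ball_inv_sq x₀ hδ
    have hn1 : ‖hN c' x₀‖ ≤ 3 * ((M₁ + δ⁻¹ * B * M₀) * (δ * c2 V)) := by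
      refine (hN_norm c' x₀).trans ?_
      have h2 : ∀ i, ∫ y, (‖x₀ - y‖ ^ 2)⁻¹ * |⟪c' y, stdOrthonormalBasis ℝ V i⟫| ≤
          (M₁ + δ⁻¹ * B * M₀) * (δ * c2 V) := by
        intro i
        rw [← i2, ← integral_const_mul]
        refine integral_mono_of_nonneg (Eventually.of_forall fun y => by positivity)
          (i1.const_mul _) (Eventually.of_forall fun y => ?_)
        simp only
        have h3 := abs_real_inner_le_norm (c' y) (stdOrthonormalBasis ℝ V i)
        rw [(stdOrthonormalBasis ℝ V).norm_eq_one, mul_one] at h3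
        have h4 := h3.trans (hc'n y)
        by_cases hy : y ∈ ball x₀ δ
        · rw [indicator_of_mem hy] at h4 ⊢
          rw [mul_comm]
          exact mul_le_mul_of_nonneg_right h4 (by positivity)
        · rw [indicator_of_notMem hy] at h4 ⊢
          rw [mul_zero]
          have h5 : |⟪c' y, stdOrthonormalBasis ℝ V i⟫| = 0 := le_antisymm h4 (abs_nonneg _)
          rw [h5, mul_zero]
      refine (Finset.sum_le_sum fun i _ => h2 i).trans ?_
      rw [Finset.sum_const, Finset.card_univ, Fintype.card_fin, hd.out, nsmul_eq_mul]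
      norm_num
    have hn2 := hF_bound_aux hδ hgle hg0 hGIf
    have hI0 : 0 ≤ δ⁻¹ * ∫ y, (‖x₀ - y‖ ^ 2)⁻¹ * |f y| :=
      mul_nonneg (by positivity) (integral_nonneg fun y => by positivity)
    have e3 : 3 * ((M₁ + δ⁻¹ * B * M₀) * (δ * c2 V)) = 3 * c2 V * (δ * M₁) + 3 * c2 V * B * M₀ := by
      linear_combination (3 * B * M₀ * c2 V) * inv_mul_cancel₀ hδ.ne'
    set I := δ⁻¹ * ∫ y, (‖x₀ - y‖ ^ 2)⁻¹ * |f y| with hI
    have hn2' : ‖hF g x₀‖ ≤ 8 * I := by rw [hI]; linarith [hn2]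
    refine (norm_add_le _ _).trans ((add_le_add hn1 hn2').trans ?_)
    rw [e3]
    exact loc_hess_arith hc20 hB0 hM₀ hI0 (mul_nonneg hδ.le hM₁)

end dim3

end Pool.Agent.TF
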