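import Pool.Agent.Lib.MP_9cf0c9_mp.GradBase
import Pool.Agent.Lib.MP_9cf0c9_mp.Hess2

/-! Far field of a compactly supported density: potential, gradient and second derivatives. -/

set_option linter.unusedSectionVars false
set_option linter.unusedVariables false
set_option linter.style.haveILetI false

namespace Pool.Agent.TF.Dis
open MeasureTheory Set Metric Filter Topology
open scoped ENNReal NNReal RealInnerProductSpace Gradient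

variable {V : Type*} [NormedAddCommGroup V] [InnerProductSpace ℝ V] [FiniteDimensional ℝ V]
  [MeasurableSpace V] [BorelSpace V]

/-! ### pointwise kernel estimates -/

/-- real numbers: `n = |x - c|`, `m = |x - y|`, `|n - m| ≤ a`, `2 a ≤ n`. -/
theorem inv_diff {n m a : ℝ} (hn : 0 < n) (hm : 0 < m) (h1 : |n - m| ≤ a) :
    |m⁻¹ - n⁻¹| ≤ a * (m⁻¹ * n⁻¹) := by
  have e : m⁻¹ - n⁻¹ = (n - m) * (m⁻¹ * n⁻¹) := by field_simp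
  rw [e, abs_mul, abs_of_pos (by positivity : 0 < m⁻¹ * n⁻¹)]
  exact mul_le_mul_of_nonneg_right h1 (by positivity)

theorem half_inv {n m a : ℝ} (hn : 0 < n) (h1 : |n - m| ≤ a) (h2 : 2 * a ≤ n) :
    0 < m ∧ m⁻¹ ≤ 2 * n⁻¹ := by
  have h3 := abs_le.mp h1
  have hm : n / 2 ≤ m := by linarith [h3.2]
  have hm0 : 0 < m := by linarith
  refine ⟨hm0, ?_⟩
  have := inv_anti₀ (by positivity : 0 < n / 2) hm
  rwa [inv_div, div_eq_mul_inv] at this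

/-- the geometry of one source point -/
theorem geo {x y c : V} {a : ℝ} (hy : ‖y - c‖ ≤ a) : |‖x - c‖ - ‖x - y‖| ≤ a := by
  refine (abs_norm_sub_norm_le _ _).trans ?_
  have : x - c - (x - y) = y - c := by abel
  rwa [this]

theorem ker0 {x y c : V} {a : ℝ} (hx0 : 0 < ‖x - c‖) (hx : 2 * a ≤ ‖x - c‖) (hy : ‖y - c‖ ≤ a) :
    |‖x - y‖⁻¹ - ‖x - c‖⁻¹| ≤ 2 * a * (‖x - c‖ ^ 2)⁻¹ := by
  have h1 := geo (x := x) hy
  obtain ⟨h2, h3⟩ := half_inv hx0 h1 hx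
  have ha : 0 ≤ a := (norm_nonneg _).trans hy
  refine (inv_diff hx0 h2 h1).trans ?_
  calc a * (‖x - y‖⁻¹ * ‖x - c‖⁻¹) ≤ a * ((2 * ‖x - c‖⁻¹) * ‖x - c‖⁻¹) := by gcongr
    _ = 2 * a * (‖x - c‖ ^ 2)⁻¹ := by rw [← inv_pow]; ring

/-- inversion: `|u/|u|² - w/|w|²| = |u - w|/(|u||w|)` -/
theorem inversion_norm {u w : V} (hu : 0 < ‖u‖) (hw : 0 < ‖w‖) :
    ‖(‖u‖ ^ 2)⁻¹ • u - (‖w‖ ^ 2)⁻¹ • w‖ = ‖u - w‖ * (‖u‖⁻¹ * ‖w‖⁻¹) := by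
  have h1 : ‖(‖u‖ ^ 2)⁻¹ • u - (‖w‖ ^ 2)⁻¹ • w‖ ^ 2 = (‖u - w‖ * (‖u‖⁻¹ * ‖w‖⁻¹)) ^ 2 := by
    rw [norm_sub_sq_real, norm_smul, norm_smul, real_inner_smul_left, real_inner_smul_right,
      mul_pow ‖u - w‖, norm_sub_sq_real, Real.norm_of_nonneg (by positivity : 0 ≤ (‖u‖ ^ 2)⁻¹),
      Real.norm_of_nonneg (by positivity : 0 ≤ (‖w‖ ^ 2)⁻¹)]
    field_simp
    ring
  exact (sq_eq_sq₀ (norm_nonneg _) (by positivity)).mp h1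

theorem ker1 {x y c : V} {a : ℝ} (hx0 : 0 < ‖x - c‖) (hx : 2 * a ≤ ‖x - c‖) (hy : ‖y - c‖ ≤ a) :
    ‖gradP y x - gradP c x‖ ≤ 6 * a * (‖x - c‖ ^ 3)⁻¹ := by
  have h1 := geo (x := x) hy
  obtain ⟨h2, h3⟩ := half_inv hx0 h1 hx
  have ha : 0 ≤ a := (norm_nonneg _).trans hy
  have huw' : ‖(x - y) - (x - c)‖ ≤ a := by
    have : (x - y) - (x - c) = -(y - c) := by abel
    rw [this, norm_neg]; exact hy
  unfold gradP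
  generalize x - y = u at *
  generalize x - c = w at *
  have huw : ‖u - w‖ ≤ a := huw'
  have e : -((‖u‖ ^ 3)⁻¹ • u) - -((‖w‖ ^ 3)⁻¹ • w) =
      -(‖u‖⁻¹ • ((‖u‖ ^ 2)⁻¹ • u - (‖w‖ ^ 2)⁻¹ • w) + ((‖u‖⁻¹ - ‖w‖⁻¹) * (‖w‖ ^ 2)⁻¹) • w) := by
    rw [smul_sub, smul_smul, smul_smul, sub_mul, sub_smul]
    have e1 : ‖u‖⁻¹ * (‖u‖ ^ 2)⁻¹ = (‖u‖ ^ 3)⁻¹ := by rw [← mul_inv]; ring_nf
    have e2 : ‖w‖⁻¹ * (‖w‖ ^ 2)⁻¹ = (‖w‖ ^ 3)⁻¹ := by rw [← mul_inv]; ring_nf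
    rw [e1, e2]
    abel
  rw [e, norm_neg]
  refine (norm_add_le _ _).trans ?_
  rw [norm_smul, inversion_norm h2 hx0, norm_smul, norm_inv, norm_norm, norm_mul,
    Real.norm_eq_abs, Real.norm_of_nonneg (by positivity : 0 ≤ (‖w‖ ^ 2)⁻¹)]
  have h4 := inv_diff hx0 h2 h1
  have h5 : 0 ≤ ‖w‖⁻¹ := by positivity
  have h6 : 0 ≤ ‖u‖⁻¹ := by positivity
  calc ‖u‖⁻¹ * (‖u - w‖ * (‖u‖⁻¹ * ‖w‖⁻¹)) + |‖u‖⁻¹ - ‖w‖⁻¹| * (‖w‖ ^ 2)⁻¹ * ‖w‖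
      ≤ (2 * ‖w‖⁻¹) * (a * ((2 * ‖w‖⁻¹) * ‖w‖⁻¹)) +
        (a * ((2 * ‖w‖⁻¹) * ‖w‖⁻¹)) * (‖w‖ ^ 2)⁻¹ * ‖w‖ := by
        gcongr
        exact h4.trans (by gcongr)
    _ = 6 * a * (‖w‖ ^ 3)⁻¹ := by field_simp; ring

/-- real algebra behind the second derivative estimate -/
theorem pow_diff {n m a : ℝ} (hn : 0 < n) (hm : 0 < m) (h1 : |n - m| ≤ a) (h3 : m⁻¹ ≤ 2 * n⁻¹)
    (ha : 0 ≤ a) (hmn : m ≤ 3 / 2 * n) :
    |(m ^ 3)⁻¹ - (n ^ 3)⁻¹| ≤ 14 * a * (n ^ 4)⁻¹ ∧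
      |(m ^ 5)⁻¹ - (n ^ 5)⁻¹| * m ^ 2 ≤ 17 * a * (n ^ 4)⁻¹ := by
  set p := m⁻¹ with hp
  set q := n⁻¹ with hq
  have hp0 : 0 < p := by positivity
  have hq0 : 0 < q := by positivity
  have hd : |p - q| ≤ a * (p * q) := inv_diff hn hm h1
  have e3 : (m ^ 3)⁻¹ = p ^ 3 := by rw [hp, inv_pow]
  have e3' : (n ^ 3)⁻¹ = q ^ 3 := by rw [hq, inv_pow]
  have e5 : (m ^ 5)⁻¹ = p ^ 5 := by rw [hp, inv_pow]
  have e5' : (n ^ 5)⁻¹ = q ^ 5 := by rw [hq, inv_pow]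
  have e4 : (n ^ 4)⁻¹ = q ^ 4 := by rw [hq, inv_pow]
  have hmp : m * p = 1 := mul_inv_cancel₀ hm.ne'
  have hmq : m * q ≤ 3 / 2 := by
    calc m * q ≤ 3 / 2 * n * q := by gcongr
      _ = 3 / 2 := by rw [mul_assoc, hq, mul_inv_cancel₀ hn.ne', mul_one]
  rw [e3, e3', e5, e5', e4]
  constructor
  · have f : p ^ 3 - q ^ 3 = (p - q) * (p ^ 2 + p * q + q ^ 2) := by ring
    rw [f, abs_mul, abs_of_pos (by positivity : 0 < p ^ 2 + p * q + q ^ 2)]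
    calc |p - q| * (p ^ 2 + p * q + q ^ 2) ≤ (a * (p * q)) * (p ^ 2 + p * q + q ^ 2) := by gcongr
      _ ≤ (a * ((2 * q) * q)) * ((2 * q) ^ 2 + (2 * q) * q + q ^ 2) := by gcongr
      _ = 14 * a * q ^ 4 := by ring
  · have f : p ^ 5 - q ^ 5 = (p - q) * (p ^ 4 + p ^ 3 * q + p ^ 2 * q ^ 2 + p * q ^ 3 + q ^ 4) := by
      ring
    rw [f, abs_mul, abs_of_pos (by positivity : 0 < p ^ 4 + p ^ 3 * q + p ^ 2 * q ^ 2 + p * q ^ 3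
      + q ^ 4)]
    calc |p - q| * (p ^ 4 + p ^ 3 * q + p ^ 2 * q ^ 2 + p * q ^ 3 + q ^ 4) * m ^ 2
        ≤ (a * (p * q)) * (p ^ 4 + p ^ 3 * q + p ^ 2 * q ^ 2 + p * q ^ 3 + q ^ 4) * m ^ 2 := by
          gcongr
      _ = a * q * ((m * p) ^ 2 * p ^ 3 + (m * p) ^ 2 * p ^ 2 * q + (m * p) ^ 2 * p * q ^ 2 +
            (m * p) ^ 2 * q ^ 3 + (m * p) * (m * q) * q ^ 3) := by ring
      _ = a * q * (p ^ 3 + p ^ 2 * q + p * q ^ 2 + q ^ 3 + (m * q) * q ^ 3) := by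
          rw [hmp]; ring
      _ ≤ a * q * ((2 * q) ^ 3 + (2 * q) ^ 2 * q + (2 * q) * q ^ 2 + q ^ 3 + (3 / 2) * q ^ 3) := by
          gcongr
      _ = 33 / 2 * (a * q ^ 4) := by ring
      _ ≤ 17 * a * q ^ 4 := by
          have : 0 ≤ a * q ^ 4 := by positivity
          linarith

theorem ker2 {x y c : V} {a : ℝ} (hx0 : 0 < ‖x - c‖) (hx : 2 * a ≤ ‖x - c‖) (hy : ‖y - c‖ ≤ a) :
    ‖d2 y x - d2 c x‖ ≤ 80 * a * (‖x - c‖ ^ 4)⁻¹ := by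
  have h1 := geo (x := x) hy
  obtain ⟨h2, h3⟩ := half_inv hx0 h1 hx
  have ha : 0 ≤ a := (norm_nonneg _).trans hy
  have huw' : ‖(x - y) - (x - c)‖ ≤ a := by
    have : (x - y) - (x - c) = -(y - c) := by abel
    rw [this, norm_neg]; exact hy
  refine ContinuousLinearMap.opNorm_le_bound _ (by positivity) fun v => ?_
  rw [sub_apply, d2_apply, d2_apply]
  generalize x - y = u at *
  generalize x - c = w at *
  have huw : ‖u - w‖ ≤ a := huw'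
  have hmn : ‖u‖ ≤ 3 / 2 * ‖w‖ := by
    have := (abs_le.mp h1).1
    linarith
  obtain ⟨h4, h5⟩ := pow_diff hx0 h2 h1 h3 ha hmn
  have e : (3 * (‖u‖ ^ 5)⁻¹ * ⟪u, v⟫) • u - (‖u‖ ^ 3)⁻¹ • v -
      ((3 * (‖w‖ ^ 5)⁻¹ * ⟪w, v⟫) • w - (‖w‖ ^ 3)⁻¹ • v) =
      (3 * ((‖u‖ ^ 5)⁻¹ - (‖w‖ ^ 5)⁻¹) * ⟪u, v⟫) • u + (3 * (‖w‖ ^ 5)⁻¹ * ⟪u - w, v⟫) • u +
        (3 * (‖w‖ ^ 5)⁻¹ * ⟪w, v⟫) • (u - w) - ((‖u‖ ^ 3)⁻¹ - (‖w‖ ^ 3)⁻¹) • v := by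
    rw [inner_sub_left]
    module
  rw [e]
  have b1 : ‖(3 * ((‖u‖ ^ 5)⁻¹ - (‖w‖ ^ 5)⁻¹) * ⟪u, v⟫) • u‖ ≤ 51 * a * (‖w‖ ^ 4)⁻¹ * ‖v‖ := by
    rw [norm_smul, Real.norm_eq_abs, abs_mul, abs_mul, abs_of_pos (by norm_num : (0 : ℝ) < 3)]
    calc 3 * |(‖u‖ ^ 5)⁻¹ - (‖w‖ ^ 5)⁻¹| * |⟪u, v⟫| * ‖u‖
        ≤ 3 * |(‖u‖ ^ 5)⁻¹ - (‖w‖ ^ 5)⁻¹| * (‖u‖ * ‖v‖) * ‖u‖ := by
          gcongr; exact abs_real_inner_le_norm _ _
      _ = 3 * (|(‖u‖ ^ 5)⁻¹ - (‖w‖ ^ 5)⁻¹| * ‖u‖ ^ 2) * ‖v‖ := by ring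
      _ ≤ 3 * (17 * a * (‖w‖ ^ 4)⁻¹) * ‖v‖ := by gcongr
      _ = 51 * a * (‖w‖ ^ 4)⁻¹ * ‖v‖ := by ring
  have b2 : ‖(3 * (‖w‖ ^ 5)⁻¹ * ⟪u - w, v⟫) • u‖ ≤ 9 / 2 * a * (‖w‖ ^ 4)⁻¹ * ‖v‖ := by
    rw [norm_smul, Real.norm_eq_abs, abs_mul, abs_of_pos (by positivity : 0 < 3 * (‖w‖ ^ 5)⁻¹)]
    calc 3 * (‖w‖ ^ 5)⁻¹ * |⟪u - w, v⟫| * ‖u‖
        ≤ 3 * (‖w‖ ^ 5)⁻¹ * (‖u - w‖ * ‖v‖) * (3 / 2 * ‖w‖) := by
          gcongr; exact abs_real_inner_le_norm _ _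
      _ ≤ 3 * (‖w‖ ^ 5)⁻¹ * (a * ‖v‖) * (3 / 2 * ‖w‖) := by gcongr
      _ = 9 / 2 * a * (‖w‖ ^ 4)⁻¹ * ‖v‖ := by field_simp; ring
  have b3 : ‖(3 * (‖w‖ ^ 5)⁻¹ * ⟪w, v⟫) • (u - w)‖ ≤ 3 * a * (‖w‖ ^ 4)⁻¹ * ‖v‖ := by
    rw [norm_smul, Real.norm_eq_abs, abs_mul, abs_of_pos (by positivity : 0 < 3 * (‖w‖ ^ 5)⁻¹)]
    calc 3 * (‖w‖ ^ 5)⁻¹ * |⟪w, v⟫| * ‖u - w‖
        ≤ 3 * (‖w‖ ^ 5)⁻¹ * (‖w‖ * ‖v‖) * a := by
          gcongr; exact abs_real_inner_le_norm _ _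
      _ = 3 * a * (‖w‖ ^ 4)⁻¹ * ‖v‖ := by field_simp
  have b4 : ‖((‖u‖ ^ 3)⁻¹ - (‖w‖ ^ 3)⁻¹) • v‖ ≤ 14 * a * (‖w‖ ^ 4)⁻¹ * ‖v‖ := by
    rw [norm_smul, Real.norm_eq_abs]
    gcongr
  have hpos : 0 ≤ a * (‖w‖ ^ 4)⁻¹ * ‖v‖ := by positivity
  refine (norm_sub_le _ _).trans ?_
  refine (add_le_add_left ((norm_add_le _ _).trans (add_le_add_left (norm_add_le _ _) _)) _).trans ?_
  linarith

section dim3
variable [hd : Fact (Module.finrank ℝ V = 3)]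
variable {s : V → ℝ} {c x : V} {a : ℝ}

/-- potential of a density supported in `B(c, a)` at distance `≥ 2a` -/
theorem far_pot (hs : TC s) (ha : 0 < a) (h0 : ∀ y, a < ‖y - c‖ → s y = 0) (hx : 2 * a ≤ ‖x - c‖) :
    |pot s x - (∫ y, s y) * ‖x - c‖⁻¹| ≤ 2 * a * (∫ y, s y) * (‖x - c‖ ^ 2)⁻¹ := by
  have hx0 : 0 < ‖x - c‖ := by linarith
  have e : pot s x - (∫ y, s y) * ‖x - c‖⁻¹ = ∫ y, (‖x - y‖⁻¹ - ‖x - c‖⁻¹) * s y := by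
    unfold pot
    rw [mul_comm, ← integral_const_mul, ← integral_sub (hs.pot_integrable x) (hs.int.const_mul _)]
    refine integral_congr_ae (Eventually.of_forall fun y => ?_)
    simp only
    ring
  rw [e, ← Real.norm_eq_abs]
  have e2 : 2 * a * (∫ y, s y) * (‖x - c‖ ^ 2)⁻¹ = ∫ y, (2 * a * (‖x - c‖ ^ 2)⁻¹) * s y := by
    rw [integral_const_mul]; ring
  rw [e2]
  refine norm_integral_le_of_norm_le (hs.int.const_mul _) (Eventually.of_forall fun y => ?_)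
  rw [Real.norm_eq_abs, abs_mul, abs_of_nonneg (hs.nonneg y)]
  by_cases hy : a < ‖y - c‖
  · rw [h0 y hy]; simp
  · exact mul_le_mul_of_nonneg_right (ker0 hx0 hx (not_lt.mp hy)) (hs.nonneg y)

/-- the density vanishes near the point -/
theorem far_ball (ha : 0 < a) (h0 : ∀ y, a < ‖y - c‖ → s y = 0) (hx : 2 * a ≤ ‖x - c‖) :
    ∀ y ∈ ball x (2 * (a / 2)), s y = 0 := by
  intro y hy
  rw [mem_ball, dist_eq_norm] at hy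
  refine h0 y ?_
  have h1 : ‖x - c‖ ≤ ‖y - c‖ + ‖y - x‖ := by
    have : x - c = (y - c) - (y - x) := by abel
    rw [this]
    exact norm_sub_le _ _
  linarith

theorem gradV_eq (f : V → ℝ) (x' : V) : gradV f x' = ∫ y, f y • gradP y x' := by
  unfold gradV gradP
  rw [← integral_neg]
  refine integral_congr_ae (Eventually.of_forall fun y => ?_)
  simp only
  rw [smul_neg]

/-- the gradient of the potential of a density supported in `B(c, a)` at distance `≥ 2a` -/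
theorem far_grad (hs : TC s) (ha : 0 < a) (h0 : ∀ y, a < ‖y - c‖ → s y = 0)
    (hx : 2 * a ≤ ‖x - c‖) :
    ‖gradV s x - (∫ y, s y) • gradP c x‖ ≤ 6 * a * (∫ y, s y) * (‖x - c‖ ^ 3)⁻¹ := by
  have hx0 : 0 < ‖x - c‖ := by linarith
  have hI : Integrable fun y => s y • gradP y x := by
    have h1 := (far_part hs.meas hs.int (half_pos ha) (far_ball ha h0 hx)).1 x
      (mem_ball_self (half_pos ha))
    refine (h1.1.neg).congr (Eventually.of_forall fun y => ?_)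
    unfold gradP
    simp only [Pi.neg_apply, smul_neg]
  have e : gradV s x - (∫ y, s y) • gradP c x = ∫ y, s y • (gradP y x - gradP c x) := by
    rw [gradV_eq, ← integral_smul_const, ← integral_sub hI (hs.int.smul_const _)]
    refine integral_congr_ae (Eventually.of_forall fun y => ?_)
    simp only
    rw [smul_sub]
  rw [e]
  have e2 : 6 * a * (∫ y, s y) * (‖x - c‖ ^ 3)⁻¹ = ∫ y, (6 * a * (‖x - c‖ ^ 3)⁻¹) * s y := by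
    rw [integral_const_mul]; ring
  rw [e2]
  refine norm_integral_le_of_norm_le (hs.int.const_mul _) (Eventually.of_forall fun y => ?_)
  rw [norm_smul, Real.norm_of_nonneg (hs.nonneg y), mul_comm]
  by_cases hy : a < ‖y - c‖
  · rw [h0 y hy]; simp
  · exact mul_le_mul_of_nonneg_right (ker1 hx0 hx (not_lt.mp hy)) (hs.nonneg y)

/-- the second derivatives of the potential of a density supported in `B(c, a)` at distance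
`≥ 2a` -/
theorem far_hess2 (hs : TC s) (ha : 0 < a) (h0 : ∀ y, a < ‖y - c‖ → s y = 0)
    (hx : 2 * a ≤ ‖x - c‖) :
    HasFDerivAt (gradV s) (hF s x) x ∧
      ‖hF s x - (∫ y, s y) • d2 c x‖ ≤ 80 * a * (∫ y, s y) * (‖x - c‖ ^ 4)⁻¹ := by
  have hx0 : 0 < ‖x - c‖ := by linarith
  obtain ⟨hI, h1, -⟩ := Pool.Agent.TF.far_hess hs.meas hs.int (half_pos ha) (far_ball ha h0 hx) x
    (mem_ball_self (half_pos ha))
  refine ⟨h1, ?_⟩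
  have e : hF s x - (∫ y, s y) • d2 c x = ∫ y, s y • (d2 y x - d2 c x) := by
    have e0 : ∫ y, s y • d2 c x = (∫ y, s y) • d2 c x :=
      integral_smul_const (𝕜 := ℝ) s (d2 c x)
    unfold hF
    rw [← e0, ← integral_sub hI (hs.int.smul_const _)]
    refine integral_congr_ae (Eventually.of_forall fun y => ?_)
    simp only
    rw [smul_sub]
  rw [e]
  have e2 : 80 * a * (∫ y, s y) * (‖x - c‖ ^ 4)⁻¹ = ∫ y, (80 * a * (‖x - c‖ ^ 4)⁻¹) * s y := by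
    rw [integral_const_mul]; ring
  rw [e2]
  refine norm_integral_le_of_norm_le (hs.int.const_mul _) (Eventually.of_forall fun y => ?_)
  rw [norm_smul, Real.norm_of_nonneg (hs.nonneg y), mul_comm]
  by_cases hy : a < ‖y - c‖
  · rw [h0 y hy]; simp
  · exact mul_le_mul_of_nonneg_right (ker2 hx0 hx (not_lt.mp hy)) (hs.nonneg y)

end dim3

open Pool.Agent.TF.Grd

theorem hP_eq (c x : X) : hP c x = d2 c x := rfl

theorem hP_norm (c x : X) : ‖hP c x‖ ≤ 4 * (‖x - c‖ ^ 3)⁻¹ := d2_norm c x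

theorem far_hess {s : X → ℝ} (hs : TC s) {c : X} {a : ℝ} (ha : 0 < a)
    (h0 : ∀ y, a < ‖y - c‖ → s y = 0) {x : X} (hx : 2 * a ≤ ‖x - c‖) :
    ∃ T : X →L[ℝ] X, HasFDerivAt (gradV s) T x ∧
      ‖T - (∫ y, s y) • hP c x‖ ≤ 80 * a * (∫ y, s y) * (‖x - c‖ ^ 4)⁻¹ :=
  ⟨hF s x, far_hess2 hs ha h0 hx⟩

end Pool.Agent.TF.Dis
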