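import Pool.Agent.Lib.MP_9cf0c9_mp.IonCompare

/-! The isolated ion: lower bound of its charge, upper bound of its charge for a small chemical
potential, and the mass of a molecule whose ions do not overlap. -/

set_option linter.unusedSectionVars false
set_option linter.unusedVariables false
set_option linter.style.haveILetI false

namespace Pool.Agent.TF.Dis
open MeasureTheory Set Metric Filter Topology

theorem tf_pos_eq {v : ℝ} (hv : 0 ≤ v) : tf v = v * √v := by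
  unfold tf
  rw [max_eq_left hv]

/-- the enclosed charge near the nucleus -/
theorem q_low {z φ₀ : ℝ} {ψ q : ℝ → ℝ} (h : Ion z φ₀ ψ q) (hz : 0 < z) (hφ : 0 < φ₀) {r : ℝ}
    (hr : 0 < r) : z - 8 * Real.pi / 3 * (z * √z) * (r * √r) ≤ q r := by
  have hpi := Real.pi_pos
  set g : ℝ → ℝ := fun r => q r + 8 * Real.pi / 3 * (z * √z) * (r * √r) with hg
  have hd : ∀ s, 0 < s → HasDerivAt g (-(4 * Real.pi * s ^ 2 * tf (ψ s)) +
      8 * Real.pi / 3 * (z * √z) * (1 * √s + s * (1 / (2 * √s)))) s := by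
    intro s hs
    have h1 : HasDerivAt (fun r : ℝ => r * √r) (1 * √s + s * (1 / (2 * √s))) s :=
      (hasDerivAt_id s).mul (Real.hasDerivAt_sqrt hs.ne')
    exact (h.dq s hs).add (h1.const_mul _)
  have hmono : MonotoneOn g (Ioi 0) := by
    refine monotoneOn_of_deriv_nonneg (convex_Ioi 0)
      (fun s hs => (hd s hs).continuousAt.continuousWithinAt)
      (fun s hs => (hd s (by simpa using hs)).differentiableAt.differentiableWithinAt)
      fun s hs => ?_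
    have hs0 : 0 < s := by simpa using hs
    rw [(hd s hs0).deriv]
    have h1 : tf (ψ s) ≤ z / s * √(z / s) := by
      rw [← tf_pos_eq (by positivity)]
      refine tf_mono ?_
      have := h.up s hs0
      linarith
    have hss : √s * √s = s := Real.mul_self_sqrt hs0.le
    have hs1 : 0 < √s := Real.sqrt_pos.mpr hs0
    have h2 : s ^ 2 * (z / s * √(z / s)) = z * √z * √s := by
      rw [Real.sqrt_div hz.le]
      field_simp
      rw [pow_two, hss]
    have h3 : 1 * √s + s * (1 / (2 * √s)) = 3 / 2 * √s := by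
      field_simp
      nlinarith
    rw [h3]
    have h4 : s ^ 2 * tf (ψ s) ≤ z * √z * √s := by
      rw [← h2]
      exact mul_le_mul_of_nonneg_left h1 (by positivity)
    nlinarith
  have hlim : Tendsto g (𝓝[>] 0) (𝓝 (z + 8 * Real.pi / 3 * (z * √z) * (0 * √0))) := by
    refine h.q0.add ?_
    have h1 : Continuous fun r : ℝ => 8 * Real.pi / 3 * (z * √z) * (r * √r) := by fun_prop
    exact (h1.tendsto 0).mono_left nhdsWithin_le_nhds
  have h5 : z + 8 * Real.pi / 3 * (z * √z) * (0 * √0) ≤ g r := by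
    refine le_of_tendsto hlim ?_
    filter_upwards [Ioo_mem_nhdsGT hr] with s hs
    exact hmono hs.1 hr hs.2.le
  rw [zero_mul, mul_zero, add_zero] at h5
  simp only [hg] at h5
  linarith

/-- facts at the edge -/
theorem edge {z φ₀ : ℝ} (hz : 0 < z) (hφ : 0 < φ₀) : ∃ r₀ : ℝ, 0 < r₀ ∧ r₀ ≤ z / φ₀ ∧
    ionψ z φ₀ r₀ = 0 ∧ ionq z φ₀ r₀ = φ₀ * r₀ ∧
    (∀ r, r₀ ≤ r → ionψ z φ₀ r = φ₀ * r₀ / r - φ₀) ∧
    z - ∫ x, ionρ z φ₀ x = φ₀ * r₀ := by
  obtain ⟨hI, h1, h2, h3, h4⟩ := ion_all hz.le hφ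
  obtain ⟨r₀, hr₀, he, hpos, hneg⟩ := hI.exists_edge hz hφ
  have h5 := hI.up r₀ hr₀
  rw [he] at h5
  have h6 : r₀ ≤ z / φ₀ := by
    rw [le_div_iff₀ hφ]
    have : φ₀ ≤ z / r₀ := by linarith
    rw [le_div_iff₀ hr₀] at this
    linarith
  have h7 := (hI.vacuum hz hφ hr₀ he le_rfl).2.1
  refine ⟨r₀, hr₀, h6, he, h7, fun r hr => ?_, ?_⟩
  · rw [(hI.vacuum hz hφ hr₀ he hr).2.2, h7]
  · refine tendsto_nhds_unique h4 ?_
    refine tendsto_const_nhds.congr' ?_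
    filter_upwards [eventually_ge_atTop r₀] with r hr
    rw [(hI.vacuum hz hφ hr₀ he hr).1, h7]

/-- **lower bound of the potential of the isolated ion outside its cloud** -/
theorem ion_low {z φ₀ : ℝ} (hz : 0 < z) (hφ : 0 < φ₀) {r : ℝ} (hr : z / φ₀ ≤ r) :
    min (z / 2) (φ₀ * (3 / (16 * Real.pi * √z)) ^ (2 / 3 : ℝ)) / r ≤ ionψ z φ₀ r + φ₀ := by
  have hpi := Real.pi_pos
  obtain ⟨r₀, hr₀, hle, he, hq, hv, -⟩ := edge hz hφ
  have hr0 : 0 < r := lt_of_lt_of_le (by positivity) hr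
  rw [hv r (hle.trans hr), sub_add_cancel]
  refine div_le_div_of_nonneg_right ?_ hr0.le
  have hsz : 0 < √z := Real.sqrt_pos.mpr hz
  set a : ℝ := 3 / (16 * Real.pi * √z) with ha
  have ha0 : 0 < a := by positivity
  set r₁ : ℝ := a ^ (2 / 3 : ℝ) with hr₁
  have hr₁0 : 0 < r₁ := Real.rpow_pos_of_pos ha0 _
  rcases le_or_gt r₁ r₀ with h | h
  · exact (min_le_right _ _).trans (mul_le_mul_of_nonneg_left h hφ.le)
  · refine (min_le_left _ _).trans ?_
    have hI := ion_ion hz.le hφ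
    have h1 := q_low hI hz hφ hr₁0
    have h2 : r₁ * √r₁ = a := by
      have e1 : √r₁ = r₁ ^ (1 / 2 : ℝ) := Real.sqrt_eq_rpow r₁
      have e2 : r₁ * √r₁ = r₁ ^ (3 / 2 : ℝ) := by
        rw [e1]
        nth_rewrite 1 [← Real.rpow_one r₁]
        rw [← Real.rpow_add hr₁0]
        norm_num
      rw [e2, hr₁, ← Real.rpow_mul ha0.le]
      norm_num
    have h3 : 8 * Real.pi / 3 * (z * √z) * a = z / 2 := by
      rw [ha]
      field_simp
      norm_num
    rw [h2, h3] at h1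
    have h4 := hI.q_anti hr₀ hr₁0 h.le
    rw [hq] at h4
    linarith

/-- the cloud of the isolated ion -/
theorem ion_zero {z φ₀ : ℝ} (hz : 0 < z) (hφ : 0 < φ₀) {x : X} (hx : z / φ₀ < ‖x‖) :
    ionρ z φ₀ x = 0 := by
  obtain ⟨h1, h2⟩ := ionρ_spec hz.le hφ
  rw [h2 x]
  refine tf_of_nonpos ?_
  have h3 := pot_nonneg h1.nonneg x
  have hx0 : 0 < ‖x‖ := lt_of_le_of_lt (by positivity) hx
  have h4 : z * ‖x‖⁻¹ ≤ φ₀ := by
    rw [← div_eq_mul_inv, div_le_iff₀ hx0]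
    rw [div_lt_iff₀ hφ] at hx
    linarith
  linarith

/-- the charge of the isolated ion is small for a small chemical potential -/
theorem ion_charge {z φ₀ : ℝ} (hz : 0 < z) (hφ : 0 < φ₀) :
    (z - ∫ x, ionρ z φ₀ x) ^ 3 ≤ 6 / Real.pi * z * (φ₀ * √φ₀) ∧ 0 ≤ z - ∫ x, ionρ z φ₀ x := by
  have hpi := Real.pi_pos
  obtain ⟨r₀, hr₀, hle, he, hq, hv, hm⟩ := edge hz hφ
  rw [hm]
  refine ⟨?_, by positivity⟩
  have hI := ion_ion hz.le hφ
  have hs := Real.sqrt_pos.mpr hφ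
  -- lower bound of the potential inside the cloud
  have hψ : ∀ r, 0 < r → r ≤ r₀ / 2 → φ₀ ≤ ionψ z φ₀ r := by
    intro r hr hr2
    have hanti : AntitoneOn (fun s => ionψ z φ₀ s - φ₀ * r₀ / s) (Ioc 0 r₀) := by
      have hd : ∀ s, 0 < s → HasDerivAt (fun s => ionψ z φ₀ s - φ₀ * r₀ / s)
          (-(ionq z φ₀ s) / s ^ 2 - (0 * s - φ₀ * r₀ * 1) / s ^ 2) s := fun s hs =>
        (hI.dψ s hs).sub ((hasDerivAt_const s (φ₀ * r₀)).div (hasDerivAt_id s) hs.ne')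
      refine antitoneOn_of_deriv_nonpos (convex_Ioc 0 r₀)
        (fun s hs => (hd s hs.1).continuousAt.continuousWithinAt)
        (fun s hs => (hd s (by rw [interior_Ioc] at hs; exact hs.1)).differentiableAt.differentiableWithinAt)
        fun s hs => ?_
      rw [interior_Ioc] at hs
      rw [(hd s hs.1).deriv]
      have h1 := hI.q_anti hs.1 hr₀ hs.2.le
      rw [hq] at h1
      rw [← sub_div]
      refine div_nonpos_of_nonpos_of_nonneg ?_ (by positivity)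
      linarith
    have h2 := hanti ⟨hr, by linarith⟩ (right_mem_Ioc.mpr hr₀) (by linarith : r ≤ r₀)
    simp only [he] at h2
    have h3 : φ₀ * r₀ / r₀ = φ₀ := by field_simp
    have h4 : 2 * φ₀ ≤ φ₀ * r₀ / r := by
      rw [le_div_iff₀ hr]
      nlinarith
    linarith
  -- the enclosed charge
  set g : ℝ → ℝ := fun r => ionq z φ₀ r + 4 * Real.pi / 3 * (φ₀ * √φ₀) * r ^ 3 with hg
  have hd : ∀ s, 0 < s → HasDerivAt g (-(4 * Real.pi * s ^ 2 * tf (ionψ z φ₀ s)) +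
      4 * Real.pi / 3 * (φ₀ * √φ₀) * ((3 : ℕ) * s ^ (3 - 1))) s := fun s hs =>
    (hI.dq s hs).add ((hasDerivAt_pow 3 s).const_mul _)
  have hanti : AntitoneOn g (Ioc 0 (r₀ / 2)) := by
    refine antitoneOn_of_deriv_nonpos (convex_Ioc 0 _)
      (fun s hs => (hd s hs.1).continuousAt.continuousWithinAt)
      (fun s hs => (hd s (by rw [interior_Ioc] at hs; exact hs.1)).differentiableAt.differentiableWithinAt)
      fun s hs => ?_
    rw [interior_Ioc] at hs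
    rw [(hd s hs.1).deriv]
    have h1 : φ₀ * √φ₀ ≤ tf (ionψ z φ₀ s) := by
      rw [← tf_pos_eq hφ.le]
      exact tf_mono (hψ s hs.1 hs.2.le)
    have h2 : s ^ 2 * (φ₀ * √φ₀) ≤ s ^ 2 * tf (ionψ z φ₀ s) :=
      mul_le_mul_of_nonneg_left h1 (by positivity)
    norm_num
    nlinarith
  have hlim : Tendsto g (𝓝[>] 0) (𝓝 (z + 4 * Real.pi / 3 * (φ₀ * √φ₀) * 0 ^ 3)) := by
    refine hI.q0.add ?_
    have h1 : Continuous fun r : ℝ => 4 * Real.pi / 3 * (φ₀ * √φ₀) * r ^ 3 := by fun_prop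
    exact (h1.tendsto 0).mono_left nhdsWithin_le_nhds
  have h5 : g (r₀ / 2) ≤ z + 4 * Real.pi / 3 * (φ₀ * √φ₀) * 0 ^ 3 := by
    refine ge_of_tendsto hlim ?_
    filter_upwards [Ioo_mem_nhdsGT (half_pos hr₀)] with s hs
    exact hanti ⟨hs.1, hs.2.le⟩ (right_mem_Ioc.mpr (half_pos hr₀)) hs.2.le
  have h6 : 0 ≤ ionq z φ₀ (r₀ / 2) := (hI.q_pos hz hφ (half_pos hr₀)).le
  simp only [hg] at h5
  have h7 : 4 * Real.pi / 3 * (φ₀ * √φ₀) * (r₀ / 2) ^ 3 ≤ z := by
    norm_num at h5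
    linarith
  have hss : √φ₀ * √φ₀ = φ₀ := Real.mul_self_sqrt hφ.le
  have h8 : (φ₀ * r₀) ^ 3 = 6 / Real.pi * (4 * Real.pi / 3 * (φ₀ * √φ₀) * (r₀ / 2) ^ 3) *
      (φ₀ * √φ₀) := by
    have e1 : 6 / Real.pi * (4 * Real.pi / 3 * (φ₀ * √φ₀) * (r₀ / 2) ^ 3) * (φ₀ * √φ₀) =
        φ₀ ^ 2 * (√φ₀ * √φ₀) * r₀ ^ 3 := by
      field_simp
      ring
    rw [e1, hss]
    ring
  rw [h8]
  refine mul_le_mul_of_nonneg_right ?_ (by positivity)
  exact mul_le_mul_of_nonneg_left h7 (by positivity)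

theorem ion_mass_up {z e : ℝ} (hz : 0 < z) (he : 0 < e) : ∃ φ₁ : ℝ, 0 < φ₁ ∧
    ∀ φ₀, 0 < φ₀ → φ₀ ≤ φ₁ → z - e ≤ ∫ x, ionρ z φ₀ x := by
  have hpi := Real.pi_pos
  refine ⟨min 1 (e ^ 3 * Real.pi / (6 * z)), lt_min one_pos (by positivity), fun φ₀ hφ hle => ?_⟩
  obtain ⟨h1, h2⟩ := ion_charge hz hφ
  have h3 : √φ₀ ≤ 1 := by
    have := Real.sqrt_le_sqrt (hle.trans (min_le_left _ _))
    rwa [Real.sqrt_one] at this
  have h4 : φ₀ * √φ₀ ≤ e ^ 3 * Real.pi / (6 * z) := by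
    calc φ₀ * √φ₀ ≤ φ₀ * 1 := mul_le_mul_of_nonneg_left h3 hφ.le
      _ = φ₀ := mul_one _
      _ ≤ _ := hle.trans (min_le_right _ _)
  have h5 : 6 / Real.pi * z * (φ₀ * √φ₀) ≤ e ^ 3 := by
    calc 6 / Real.pi * z * (φ₀ * √φ₀) ≤ 6 / Real.pi * z * (e ^ 3 * Real.pi / (6 * z)) :=
          mul_le_mul_of_nonneg_left h4 (by positivity)
      _ = e ^ 3 := by field_simp
  have h6 : z - ∫ x, ionρ z φ₀ x ≤ e := le_of_pow_le_pow_left₀ (by norm_num) he.le (h1.trans h5)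
  linarith

variable {ι : Type*} [Fintype ι]

theorem Vn_eq (z : ι → ℝ) (R : ι → X) (x : X) : Vn z R x = Vpt z R x := rfl

theorem sol_of {z : ι → ℝ} {R : ι → X} {φ₀ : ℝ} {ρ : X → ℝ} (hρ : TC ρ)
    (heq : ∀ x, ρ x = tf (Vpt z R x - pot ρ x - φ₀)) : Sol φ₀ z R ρ :=
  ⟨hρ, fun x _ => heq x⟩

/-- **the mass of a molecule whose ions do not overlap** -/
theorem mass_sum {z : ι → ℝ} (hz : ∀ i, 0 < z i) {R : ι → X} {φ₀ : ℝ} (hφ : 0 < φ₀) {ρ : X → ℝ}
    (hρ : TC ρ) (heq : ∀ x, ρ x = tf (Vpt z R x - pot ρ x - φ₀))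
    (hsep : ∀ i j, i ≠ j → z i / φ₀ + z j / φ₀ < ‖R i - R j‖) :
    ∑ i, ∫ x, ionρ (z i) φ₀ x ≤ ∫ x, ρ x := by
  classical
  have hS := sol_of hρ heq
  have hz0 : ∀ i, 0 ≤ z i := fun i => (hz i).le
  have hI : ∀ i, Integrable fun x => ionρ (z i) φ₀ (x - R i) := fun i =>
    ((ionρ_spec (hz0 i) hφ).1.int).comp_sub_right (R i)
  have e1 : ∑ i, ∫ x, ionρ (z i) φ₀ x = ∫ x, ∑ i, ionρ (z i) φ₀ (x - R i) := by
    rw [integral_finsetSum _ fun i _ => hI i]
    refine Finset.sum_congr rfl fun i _ => ?_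
    exact (integral_sub_right_eq_self (fun x => ionρ (z i) φ₀ x) (R i)).symm
  rw [e1]
  refine integral_mono_ae (integrable_finsetSum _ fun i _ => hI i) hρ.int ?_
  have hne : ∀ᵐ x : X, ∀ i, x ≠ R i := by
    have := nontriv (V := X)
    rw [ae_all_iff]
    intro i
    rw [ae_iff]
    simp
  filter_upwards [hne] with x hx
  by_cases hall : ∀ i, ionρ (z i) φ₀ (x - R i) = 0
  · simp only [hall, Finset.sum_const_zero]
    exact hρ.nonneg x
  · push Not at hall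
    obtain ⟨i, hi⟩ := hall
    have hxi : ‖x - R i‖ ≤ z i / φ₀ := by
      by_contra hc
      push Not at hc
      exact hi (ion_zero (hz i) hφ hc)
    have h1 : ∑ j, ionρ (z j) φ₀ (x - R j) = ionρ (z i) φ₀ (x - R i) := by
      refine Finset.sum_eq_single i (fun j _ hj => ?_) fun h => absurd (Finset.mem_univ i) h
      refine ion_zero (hz j) hφ ?_
      have h2 := hsep i j (Ne.symm hj)
      have h3 : ‖R i - R j‖ ≤ ‖x - R j‖ + ‖x - R i‖ := by
        have := norm_sub_le (x - R j) (x - R i)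
        rw [show x - R j - (x - R i) = R i - R j by abel] at this
        exact this
      linarith
    rw [h1]
    obtain ⟨h4, -⟩ := ion_sol (hz0 i) hφ R i
    refine compare_rho (fun j => ?_) le_rfl h4 hS x hx
    by_cases hj : j = i
    · subst hj
      rw [Pi.single_eq_same]
    · rw [Pi.single_eq_of_ne hj]
      exact hz0 j

end Pool.Agent.TF.Dis
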