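import Pool.Agent.Lib.MP_9cf0c9_mp.DisCalib
import Pool.Agent.Lib.MP_9cf0c9_mp.DisFar
import Pool.Agent.Lib.MP_9cf0c9_mp.DisIon

/-! Nearly isolated ions: the clouds, their net charges, and the field in the shells. -/

set_option linter.unusedSectionVars false
set_option linter.unusedVariables false
set_option linter.style.haveILetI false

namespace Pool.Agent.TF.Dis
open MeasureTheory Set Metric Filter Topology Pool.Agent.TF.Grd
open scoped ENNReal NNReal RealInnerProductSpace Gradient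

variable {ι : Type*} [Fintype ι]
variable {z : ι → ℝ} {R : ι → X} {φ₀ : ℝ} {ρ : X → ℝ} {H : X → X →L[ℝ] X} {a b : ℝ}

/-! ### the clouds -/

/-- the part of the density in the ball of radius `a` at the nucleus `i` -/
noncomputable def cl (a : ℝ) (R : ι → X) (ρ : X → ℝ) (i : ι) : X → ℝ :=
  (closedBall (R i) a).indicator ρ

theorem cl_TC (hρ : TC ρ) (a : ℝ) (R : ι → X) (i : ι) : TC (cl a R ρ i) := by
  refine ⟨hρ.meas.indicator measurableSet_closedBall,
    fun x => indicator_nonneg (fun x _ => hρ.nonneg x) x,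
    hρ.int.indicator measurableSet_closedBall, ?_⟩
  refine (hρ.int53.indicator (measurableSet_closedBall (x := R i) (ε := a))).congr
    (Eventually.of_forall fun x => ?_)
  simp only [cl]
  by_cases hx : x ∈ closedBall (R i) a
  · rw [indicator_of_mem hx, indicator_of_mem hx]
  · rw [indicator_of_notMem hx, indicator_of_notMem hx, Real.zero_rpow (by norm_num)]

theorem cl_zero {i : ι} {y : X} (hy : a < ‖y - R i‖) : cl a R ρ i y = 0 := by
  refine indicator_of_notMem ?_ _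
  rw [mem_closedBall, dist_eq_norm]
  exact not_le.mpr hy

theorem cl_sum (hs : ∀ x, (∀ i, a < ‖x - R i‖) → ρ x = 0)
    (hd : ∀ i j, i ≠ j → 2 * a < ‖R i - R j‖) (x : X) : ρ x = ∑ i, cl a R ρ i x := by
  classical
  by_cases h : ∀ i, a < ‖x - R i‖
  · rw [hs x h, Finset.sum_eq_zero fun i _ => cl_zero (h i)]
  · push Not at h
    obtain ⟨i, hi⟩ := h
    rw [Finset.sum_eq_single i]
    · unfold cl
      rw [indicator_of_mem]
      rw [mem_closedBall, dist_eq_norm]
      exact hi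
    · intro j _ hj
      refine cl_zero ?_
      have h1 := hd i j (Ne.symm hj)
      have h2 : ‖R i - R j‖ ≤ ‖x - R j‖ + ‖x - R i‖ := by
        have := norm_sub_le (x - R j) (x - R i)
        rwa [show x - R j - (x - R i) = R i - R j by abel] at this
      linarith
    · intro hi
      exact absurd (Finset.mem_univ i) hi

section sums
variable (hρ : TC ρ) (hs : ∀ x, (∀ i, a < ‖x - R i‖) → ρ x = 0)
    (hd : ∀ i j, i ≠ j → 2 * a < ‖R i - R j‖)
include hρ hs hd

theorem mass_cl : ∫ x, ρ x = ∑ i, ∫ x, cl a R ρ i x := by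
  rw [← integral_finsetSum _ fun i _ => (cl_TC hρ a R i).int]
  exact integral_congr_ae (Eventually.of_forall fun x => cl_sum hs hd x)

theorem pot_cl (x : X) : pot ρ x = ∑ i, pot (cl a R ρ i) x := by
  unfold pot
  rw [← integral_finsetSum _ fun i _ => (cl_TC hρ a R i).pot_integrable x]
  refine integral_congr_ae (Eventually.of_forall fun y => ?_)
  simp only
  rw [← Finset.mul_sum, ← cl_sum hs hd y]

theorem gradV_cl (ha : 0 < a) {x : X} (hx : ∀ i, 2 * a ≤ ‖x - R i‖) :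
    gradV ρ x = ∑ i, gradV (cl a R ρ i) x := by
  have hI : ∀ i, GI (cl a R ρ i) x := fun i =>
    ((far_part (cl_TC hρ a R i).meas (cl_TC hρ a R i).int (half_pos ha)
      (far_ball ha (fun y hy => cl_zero hy) (hx i))).1 x (mem_ball_self (half_pos ha))).1
  unfold gradV
  rw [Finset.sum_neg_distrib, ← integral_finsetSum _ fun i _ => hI i]
  congr 1
  refine integral_congr_ae (Eventually.of_forall fun y => ?_)
  simp only
  rw [← Finset.sum_smul, ← cl_sum hs hd y]

theorem hF_cl (ha : 0 < a) {x : X} (hx : ∀ i, 2 * a ≤ ‖x - R i‖) :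
    hF ρ x = ∑ i, hF (cl a R ρ i) x := by
  have hI : ∀ i, Integrable fun y => cl a R ρ i y • d2 y x := fun i =>
    (Pool.Agent.TF.far_hess (cl_TC hρ a R i).meas (cl_TC hρ a R i).int (half_pos ha)
      (far_ball ha (fun y hy => cl_zero hy) (hx i)) x (mem_ball_self (half_pos ha))).1
  unfold hF
  rw [← integral_finsetSum _ fun i _ => hI i]
  refine integral_congr_ae (Eventually.of_forall fun y => ?_)
  simp only
  rw [← Finset.sum_smul, ← cl_sum hs hd y]

/-- second derivatives of the solution away from the clouds -/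
theorem H_eq (h : HessSol z R ρ H) (ha : 0 < a) {x : X} (hx : ∀ i, 2 * a ≤ ‖x - R i‖) :
    H x = ∑ i, (z i • hP (R i) x - hF (cl a R ρ i) x) := by
  have hoff : ∀ i, x ≠ R i := fun i hi => by
    have := hx i
    rw [hi, sub_self, norm_zero] at this
    linarith
  have h0 : ∀ y ∈ ball x (2 * (a / 2)), ρ y = 0 := by
    intro y hy
    refine hs y fun i => ?_
    rw [mem_ball, dist_eq_norm] at hy
    have h1 : ‖x - R i‖ ≤ ‖y - R i‖ + ‖y - x‖ := by
      have : x - R i = (y - R i) - (y - x) := by abel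
      rw [this]
      exact norm_sub_le _ _
    have := hx i
    linarith
  have h1 := (Pool.Agent.TF.far_hess hρ.meas hρ.int (half_pos ha) h0 x
    (mem_ball_self (half_pos ha))).2.1
  have h2 : HasFDerivAt (gVpt z R) (hVpt z R x) x := by
    unfold gVpt hVpt
    exact HasFDerivAt.fun_sum fun i _ => (hasFDerivAt_gradP (hoff i)).fun_const_smul (z i)
  have h3 : HasFDerivAt (psi' z R ρ) (hVpt z R x - hF ρ x) x := h2.sub h1
  rw [(h.deriv x hoff).unique h3, hF_cl hρ hs hd ha hx, hVpt, ← Finset.sum_sub_distrib]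

end sums

/-! ### multipole expansion -/

section expand
variable (hρ : TC ρ) (ha : 0 < a) (hs : ∀ x, (∀ i, a < ‖x - R i‖) → ρ x = 0)
    (hd : ∀ i j, i ≠ j → 2 * a < ‖R i - R j‖) (hb : 2 * a ≤ b)
include hρ ha hs hd hb

theorem sum_err {E : Type*} [NormedAddCommGroup E] {e : ι → E} {x : X} {C : ℝ} (hC : 0 ≤ C)
    {n : ℕ} (hx : ∀ i, b ≤ ‖x - R i‖)
    (he : ∀ i, ‖e i‖ ≤ C * (∫ y, cl a R ρ i y) * (‖x - R i‖ ^ n)⁻¹) :
    ‖∑ i, e i‖ ≤ C * (∫ y, ρ y) * (b ^ n)⁻¹ := by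
  have hb0 : 0 < b := by linarith
  have hN : ∀ i, 0 ≤ ∫ y, cl a R ρ i y := fun i => integral_nonneg (cl_TC hρ a R i).nonneg
  calc ‖∑ i, e i‖ ≤ ∑ i, ‖e i‖ := norm_sum_le _ _
    _ ≤ ∑ i, C * (∫ y, cl a R ρ i y) * (b ^ n)⁻¹ := by
        refine Finset.sum_le_sum fun i _ => (he i).trans ?_
        refine mul_le_mul_of_nonneg_left ?_ (mul_nonneg hC (hN i))
        exact inv_anti₀ (by positivity) (pow_le_pow_left₀ hb0.le (hx i) n)
    _ = C * (∫ y, ρ y) * (b ^ n)⁻¹ := by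
        rw [mass_cl hρ hs hd, ← Finset.sum_mul, Finset.mul_sum]

theorem exp_pot {x : X} (hx : ∀ i, b ≤ ‖x - R i‖) :
    |Vpt z R x - pot ρ x - ∑ i, (z i - ∫ y, cl a R ρ i y) * ‖x - R i‖⁻¹| ≤
      2 * a * (∫ y, ρ y) * (b ^ 2)⁻¹ := by
  have e1 : Vpt z R x - pot ρ x - ∑ i, (z i - ∫ y, cl a R ρ i y) * ‖x - R i‖⁻¹ =
      ∑ i, -(pot (cl a R ρ i) x - (∫ y, cl a R ρ i y) * ‖x - R i‖⁻¹) := by
    rw [pot_cl hρ hs hd, Vpt, ← Finset.sum_sub_distrib, ← Finset.sum_sub_distrib]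
    exact Finset.sum_congr rfl fun i _ => by ring
  rw [e1, ← Real.norm_eq_abs]
  refine sum_err hρ ha hs hd hb (by positivity) hx fun i => ?_
  rw [norm_neg, Real.norm_eq_abs]
  exact far_pot (cl_TC hρ a R i) ha (fun y hy => cl_zero hy) (hb.trans (hx i))

theorem exp_grad {x : X} (hx : ∀ i, b ≤ ‖x - R i‖) :
    ‖psi' z R ρ x - ∑ i, (z i - ∫ y, cl a R ρ i y) • gradP (R i) x‖ ≤
      6 * a * (∫ y, ρ y) * (b ^ 3)⁻¹ := by
  have e1 : psi' z R ρ x - ∑ i, (z i - ∫ y, cl a R ρ i y) • gradP (R i) x =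
      ∑ i, -(gradV (cl a R ρ i) x - (∫ y, cl a R ρ i y) • gradP (R i) x) := by
    rw [psi', gradV_cl hρ hs hd ha (fun i => hb.trans (hx i)), gVpt, ← Finset.sum_sub_distrib,
      ← Finset.sum_sub_distrib]
    refine Finset.sum_congr rfl fun i _ => ?_
    rw [sub_smul]
    abel
  rw [e1]
  refine sum_err hρ ha hs hd hb (by positivity) hx fun i => ?_
  rw [norm_neg]
  exact far_grad (cl_TC hρ a R i) ha (fun y hy => cl_zero hy) (hb.trans (hx i))

theorem exp_hess (h : HessSol z R ρ H) {x : X} (hx : ∀ i, b ≤ ‖x - R i‖) :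
    ‖H x - ∑ i, (z i - ∫ y, cl a R ρ i y) • hP (R i) x‖ ≤
      80 * a * (∫ y, ρ y) * (b ^ 4)⁻¹ := by
  have e1 : H x - ∑ i, (z i - ∫ y, cl a R ρ i y) • hP (R i) x =
      ∑ i, -(hF (cl a R ρ i) x - (∫ y, cl a R ρ i y) • d2 (R i) x) := by
    rw [H_eq hρ hs hd h ha (fun i => hb.trans (hx i)), ← Finset.sum_sub_distrib]
    refine Finset.sum_congr rfl fun i _ => ?_
    have e2 : (z i - ∫ y, cl a R ρ i y) • hP (R i) x =
        z i • hP (R i) x - (∫ y, cl a R ρ i y) • d2 (R i) x := sub_smul _ _ (hP (R i) x)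
    rw [e2]
    abel
  rw [e1]
  refine sum_err hρ ha hs hd hb (by positivity) hx fun i => ?_
  rw [norm_neg]
  exact (far_hess2 (cl_TC hρ a R i) ha (fun y hy => cl_zero hy) (hb.trans (hx i))).2

end expand

/-! ### the support of the density and its mass -/

theorem supp_ball (hz : ∀ i, 0 < z i) (hφ : 0 < φ₀) (hρ : TC ρ)
    (heq : ∀ x, ρ x = tf (Vpt z R x - pot ρ x - φ₀)) [Nonempty ι] (x : X)
    (hx : ∀ i, (∑ j, z j) / φ₀ < ‖x - R i‖) : ρ x = 0 := by
  have hZ : 0 < ∑ j, z j := Finset.sum_pos (fun j _ => hz j) Finset.univ_nonempty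
  have h1 : Vpt z R x ≤ φ₀ := by
    unfold Vpt
    calc ∑ i, z i * ‖x - R i‖⁻¹ ≤ ∑ i, z i * (φ₀ / ∑ j, z j) := by
          refine Finset.sum_le_sum fun i _ => mul_le_mul_of_nonneg_left ?_ (hz i).le
          have := inv_anti₀ (by positivity) (hx i).le
          rwa [inv_div] at this
      _ = φ₀ := by rw [← Finset.sum_mul]; field_simp
  rw [heq x]
  refine tf_of_nonpos ?_
  have := pot_nonneg hρ.nonneg x
  linarith

theorem mass_le (hz : ∀ i, 0 < z i) (hφ : 0 < φ₀) (hρ : TC ρ)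
    (heq : ∀ x, ρ x = tf (Vpt z R x - pot ρ x - φ₀)) [Nonempty ι] :
    ∫ x, ρ x ≤ ∑ i, z i := by
  have hsol : Sol φ₀ z R ρ := ⟨hρ, fun x _ => heq x⟩
  obtain ⟨i₀⟩ := ‹Nonempty ι›
  haveI : Nonempty ι := ⟨i₀⟩
  set Z : ℝ := ∑ i, z i with hZ
  have hZ0 : 0 < Z := Finset.sum_pos (fun j _ => hz j) Finset.univ_nonempty
  set N : ℝ := ∫ x, ρ x with hN
  have hN0 : 0 ≤ N := integral_nonneg hρ.nonneg
  set D : ℝ := ∑ i, ‖R i - R i₀‖ with hD
  have hDi : ∀ i, ‖R i - R i₀‖ ≤ D := fun i =>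
    Finset.single_le_sum (f := fun i => ‖R i - R i₀‖) (fun j _ => norm_nonneg _)
      (Finset.mem_univ i)
  have hD0 : 0 ≤ D := (norm_nonneg _).trans (hDi i₀)
  set A : ℝ := D + Z / φ₀ with hA
  have hA0 : 0 < A := by positivity
  have h0 : ∀ y, A < ‖y - R i₀‖ → ρ y = 0 := by
    intro y hy
    refine supp_ball hz hφ hρ heq y fun i => ?_
    have h1 : ‖y - R i₀‖ ≤ ‖y - R i‖ + ‖R i - R i₀‖ := by
      have := norm_add_le (y - R i) (R i - R i₀)
      rwa [show y - R i + (R i - R i₀) = y - R i₀ by abel] at this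
    have := hDi i
    rw [← hZ]
    linarith
  have key : ∀ r : ℝ, 2 * A < r → N ≤ Z * (1 - D * r⁻¹)⁻¹ + 2 * A * N * r⁻¹ := by
    intro r hr
    have hr0 : 0 < r := by linarith
    set x : X := R i₀ + r • e1 with hx
    have hxn : ‖x - R i₀‖ = r := by
      rw [hx, add_sub_cancel_left, norm_smul, norm_e1', mul_one, Real.norm_of_nonneg hr0.le]
    have hxi : ∀ i, r - D ≤ ‖x - R i‖ := by
      intro i
      have h1 : ‖x - R i₀‖ ≤ ‖x - R i‖ + ‖R i - R i₀‖ := by
        have := norm_add_le (x - R i) (R i - R i₀)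
        rwa [show x - R i + (R i - R i₀) = x - R i₀ by abel] at this
      have := hDi i
      linarith
    have hrD : 0 < r - D := by
      have : 0 < Z / φ₀ := by positivity
      linarith
    have hne : ∀ i, x ≠ R i := fun i hi => by
      have := hxi i
      rw [hi, sub_self, norm_zero] at this
      linarith
    have h1 := pot_le_Vn (fun i => (hz i).le) hφ.le hsol x hne
    have h2 := far_pot hρ hA0 h0 (x := x) (by rw [hxn]; linarith)
    rw [hxn] at h2
    have h3 := (abs_le.mp h2).1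
    have h4 : Vn z R x ≤ Z * (r - D)⁻¹ := by
      unfold Vn
      rw [hZ, Finset.sum_mul]
      refine Finset.sum_le_sum fun i _ => mul_le_mul_of_nonneg_left ?_ (hz i).le
      exact inv_anti₀ hrD (hxi i)
    have h5 : N * r⁻¹ ≤ Z * (r - D)⁻¹ + 2 * A * N * (r ^ 2)⁻¹ := by
      rw [← hN] at h3
      linarith
    have h6 := mul_le_mul_of_nonneg_right h5 hr0.le
    have e1 : N * r⁻¹ * r = N := by field_simp
    have e2 : (Z * (r - D)⁻¹ + 2 * A * N * (r ^ 2)⁻¹) * r =
        Z * (1 - D * r⁻¹)⁻¹ + 2 * A * N * r⁻¹ := by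
      have e3 : 1 - D * r⁻¹ = (r - D) / r := by field_simp
      rw [e3, inv_div]
      field_simp
    rwa [e1, e2] at h6
  have hlim : Tendsto (fun r : ℝ => Z * (1 - D * r⁻¹)⁻¹ + 2 * A * N * r⁻¹) atTop
      (𝓝 (Z * (1 - D * 0)⁻¹ + 2 * A * N * 0)) := by
    have h1 : Tendsto (fun r : ℝ => r⁻¹) atTop (𝓝 0) := tendsto_inv_atTop_zero
    have h2 : Tendsto (fun r : ℝ => (1 - D * r⁻¹)⁻¹) atTop (𝓝 (1 - D * 0)⁻¹) :=
      (tendsto_const_nhds.sub (h1.const_mul D)).inv₀ (by norm_num)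
    exact (h2.const_mul Z).add (h1.const_mul (2 * A * N))
  have h1 : N ≤ Z * (1 - D * 0)⁻¹ + 2 * A * N * 0 :=
    ge_of_tendsto hlim ((eventually_gt_atTop (2 * A)).mono fun r hr => key r hr)
  simpa using h1

end Pool.Agent.TF.Dis
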