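import Pool.Agent.Lib.MP_9cf0c9_mp.DisCloud

/-! Nearly isolated ions: lower bound of the net charges, the field in the shells. -/

set_option linter.unusedSectionVars false
set_option linter.unusedVariables false
set_option linter.style.haveILetI false

namespace Pool.Agent.TF.Dis
open MeasureTheory Set Metric Filter Topology Pool.Agent.TF.Grd
open scoped ENNReal NNReal RealInnerProductSpace Gradient

variable {ι : Type*} [Fintype ι]
variable {z : ι → ℝ} {R : ι → X} {φ₀ : ℝ} {ρ : X → ℝ} {H : X → X →L[ℝ] X} {b : ℝ}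

/-- the net charge of every cloud is at least half of the net charge of the isolated ion -/
theorem net_low (hz : ∀ i, 0 < z i) (hφ : 0 < φ₀) (hρ : TC ρ)
    (heq : ∀ x, ρ x = tf (Vpt z R x - pot ρ x - φ₀)) {Z d qs : ℝ} (hZ : ∑ i, z i = Z)
    (hd0 : 0 < d) (hd : ∀ i j, i ≠ j → d ≤ ‖R i - R j‖) (hqs : 0 < qs)
    (hq : ∀ i, 2 * qs ≤ min (z i / 2) (φ₀ * (3 / (16 * Real.pi * √(z i))) ^ (2 / 3 : ℝ)))
    (h4 : 4 * (Z / φ₀) < d) (h1 : 16 * Z ^ 2 * (Z / φ₀) ≤ qs ^ 2 * d) (i : ι) :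
    qs ≤ z i - ∫ y, cl (Z / φ₀) R ρ i y := by
  classical
  haveI : Nonempty ι := ⟨i⟩
  have hZ0 : 0 < Z := by
    rw [← hZ]
    exact Finset.sum_pos (fun j _ => hz j) Finset.univ_nonempty
  obtain ⟨a, ha⟩ : ∃ a, a = Z / φ₀ := ⟨_, rfl⟩
  rw [← ha] at h4 h1 ⊢
  have ha0 : 0 < a := by rw [ha]; positivity
  have hsupp : ∀ x, (∀ i, a < ‖x - R i‖) → ρ x = 0 := fun x hx =>
    supp_ball hz hφ hρ heq x (by rwa [hZ, ← ha])
  have hsep : ∀ i j, i ≠ j → 2 * a < ‖R i - R j‖ := fun i j hij => by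
    have := hd i j hij
    linarith
  have hN : ∀ j, 0 ≤ ∫ y, cl a R ρ j y := fun j => integral_nonneg (cl_TC hρ a R j).nonneg
  have hNi : ∫ y, cl a R ρ i y ≤ Z := by
    have e1 := mass_cl hρ hsupp hsep
    have e2 := mass_le hz hφ hρ heq
    have e3 := Finset.single_le_sum (f := fun j => ∫ y, cl a R ρ j y) (fun j _ => hN j)
      (Finset.mem_univ i)
    rw [hZ] at e2
    linarith
  set N : ℝ := ∫ y, cl a R ρ i y with hNdef
  obtain ⟨r, hr⟩ : ∃ r, r = √(a * d) := ⟨_, rfl⟩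
  have hr2 : r ^ 2 = a * d := by rw [hr]; exact Real.sq_sqrt (by positivity)
  have hr0 : 0 < r := by rw [hr]; positivity
  have hra : 2 * a ≤ r := by
    apply le_of_sq_le_sq _ hr0.le
    rw [hr2]
    have := mul_le_mul_of_nonneg_left h4.le ha0.le
    linarith only [this]
  have hrd : r ≤ d / 2 := by
    apply le_of_sq_le_sq _ (by positivity)
    rw [hr2]
    have := mul_le_mul_of_nonneg_right h4.le hd0.le
    linarith only [this]
  set x : X := R i + r • e1 with hx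
  have hxn : ‖x - R i‖ = r := by
    rw [hx, add_sub_cancel_left, norm_smul, norm_e1', mul_one, Real.norm_of_nonneg hr0.le]
  have hxj : ∀ j, j ≠ i → d / 2 ≤ ‖x - R j‖ := by
    intro j hj
    have e1 := hd i j (Ne.symm hj)
    have e2 : ‖R i - R j‖ ≤ ‖x - R j‖ + ‖x - R i‖ := by
      have := norm_sub_le (x - R j) (x - R i)
      rwa [show x - R j - (x - R i) = R i - R j by abel] at this
    linarith
  have hne : ∀ j, x ≠ R j := by
    intro j hj
    by_cases hji : j = i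
    · rw [hj, hji, sub_self, norm_zero] at hxn
      linarith
    · have := hxj j hji
      rw [hj, sub_self, norm_zero] at this
      linarith
  have hsol : Sol φ₀ z R ρ := ⟨hρ, fun x _ => heq x⟩
  have k1 := ion_le (hz i).le hφ le_rfl (fun j => (hz j).le) hsol i le_rfl hne
  rw [hxn] at k1
  have hzr : z i / φ₀ ≤ r := by
    have e1 : z i ≤ Z := by
      rw [← hZ]
      exact Finset.single_le_sum (f := z) (fun j _ => (hz j).le) (Finset.mem_univ i)
    have e2 : z i / φ₀ ≤ a := by rw [ha]; exact div_le_div_of_nonneg_right e1 hφ.le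
    linarith
  have k2 := ion_low (hz i) hφ hzr
  have k3 : 2 * qs / r ≤ Vn z R x - pot ρ x := by
    have e1 : 2 * qs / r ≤ min (z i / 2) (φ₀ * (3 / (16 * Real.pi * √(z i))) ^ (2 / 3 : ℝ)) / r :=
      div_le_div_of_nonneg_right (hq i) hr0.le
    unfold Pool.Agent.TF.psi at k1
    linarith
  have k4 : Vn z R x ≤ z i / r + 2 * Z / d := by
    unfold Vn
    rw [← Finset.add_sum_erase _ _ (Finset.mem_univ i), hxn, ← div_eq_mul_inv]
    have e1 : ∑ j ∈ Finset.univ.erase i, z j * ‖x - R j‖⁻¹ ≤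
        ∑ j ∈ Finset.univ.erase i, z j * (2 / d) := by
      refine Finset.sum_le_sum fun j hj => mul_le_mul_of_nonneg_left ?_ (hz j).le
      have := inv_anti₀ (by positivity) (hxj j (Finset.ne_of_mem_erase hj))
      rwa [inv_div] at this
    have e2 : ∑ j ∈ Finset.univ.erase i, z j ≤ Z := by
      rw [← hZ]
      exact Finset.sum_le_sum_of_subset_of_nonneg (Finset.erase_subset _ _)
        fun j _ _ => (hz j).le
    rw [← Finset.sum_mul] at e1
    have e3 : (∑ j ∈ Finset.univ.erase i, z j) * (2 / d) ≤ Z * (2 / d) :=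
      mul_le_mul_of_nonneg_right e2 (by positivity)
    have e4 : Z * (2 / d) = 2 * Z / d := by ring
    linarith
  have k5 : N * r⁻¹ - 2 * a * N * (r ^ 2)⁻¹ ≤ pot ρ x := by
    have e1 := far_pot (cl_TC hρ a R i) ha0 (fun y hy => cl_zero hy) (x := x)
      (by rw [hxn]; exact hra)
    rw [hxn, ← hNdef] at e1
    have e2 := (abs_le.mp e1).1
    have e3 : pot (cl a R ρ i) x ≤ pot ρ x := by
      rw [pot_cl hρ hsupp hsep x]
      exact Finset.single_le_sum (f := fun j => pot (cl a R ρ j) x)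
        (fun j _ => pot_nonneg (cl_TC hρ a R j).nonneg x) (Finset.mem_univ i)
    linarith
  have k6 : 2 * qs ≤ z i - N + 4 * Z * (r / d) := by
    have e1 : 2 * qs / r ≤ z i / r + 2 * Z / d - (N * r⁻¹ - 2 * a * N * (r ^ 2)⁻¹) := by linarith
    have e2 := mul_le_mul_of_nonneg_right e1 hr0.le
    have e3 : 2 * qs / r * r = 2 * qs := by field_simp
    have e4 : (z i / r + 2 * Z / d - (N * r⁻¹ - 2 * a * N * (r ^ 2)⁻¹)) * r =
        z i - N + 2 * Z * (r / d) + 2 * N * (a / r) := by field_simp; ring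
    have e5 : a / r = r / d := by
      rw [div_eq_div_iff hr0.ne' hd0.ne', ← hr2, pow_two]
    rw [e3, e4, e5] at e2
    have e6 : 2 * N * (r / d) ≤ 2 * Z * (r / d) := by gcongr
    linarith
  have k7 : 4 * Z * (r / d) ≤ qs := by
    apply le_of_sq_le_sq _ hqs.le
    have e1 : (4 * Z * (r / d)) ^ 2 = 16 * Z ^ 2 * a / d := by
      rw [mul_pow, div_pow, hr2]
      field_simp
      ring
    rw [e1, div_le_iff₀ hd0]
    exact h1
  linarith

/-- real estimates in the shell -/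
theorem shell_real {b D r : ℝ} (hb : 0 < b) (hD : 600 * b ≤ D) (h : |r - D| ≤ 2 * b) :
    0 < r ∧ |r⁻¹ - D⁻¹| ≤ 1 / 299 * D⁻¹ ∧ (r ^ 2)⁻¹ ≤ 1 / (590 * b) * D⁻¹ ∧
      4 * (r ^ 3)⁻¹ ≤ 1 / (80000 * b ^ 2) * D⁻¹ := by
  have hD0 : 0 < D := by linarith
  have h1 := abs_le.mp h
  have hr : 299 / 300 * D ≤ r := by linarith
  have hr0 : 0 < r := by linarith
  have hri : r⁻¹ ≤ 300 / 299 * D⁻¹ := by
    have := inv_anti₀ (by positivity) hr
    rwa [mul_inv, inv_div] at this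
  have hDi : D⁻¹ ≤ 1 / 600 * b⁻¹ := by
    have := inv_anti₀ (by positivity) hD
    rwa [mul_inv, ← one_div (600 : ℝ)] at this
  have hp : 0 < r⁻¹ := by positivity
  have hq : 0 < D⁻¹ := by positivity
  have hbi : 0 < b⁻¹ := by positivity
  refine ⟨hr0, ?_, ?_, ?_⟩
  · have e : r⁻¹ - D⁻¹ = (D - r) * (r⁻¹ * D⁻¹) := by field_simp
    rw [e, abs_mul, abs_of_pos (by positivity : 0 < r⁻¹ * D⁻¹), abs_sub_comm]
    have e1 : |r - D| * D⁻¹ ≤ 1 / 300 := by
      calc |r - D| * D⁻¹ ≤ (2 * b) * (1 / 600 * b⁻¹) := by gcongr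
        _ = 1 / 300 := by field_simp; norm_num
    calc |r - D| * (r⁻¹ * D⁻¹) = (|r - D| * D⁻¹) * r⁻¹ := by ring
      _ ≤ 1 / 300 * (300 / 299 * D⁻¹) := by gcongr
      _ = 1 / 299 * D⁻¹ := by ring
  · rw [← inv_pow]
    calc r⁻¹ ^ 2 ≤ (300 / 299 * D⁻¹) ^ 2 := by gcongr
      _ = (300 / 299) ^ 2 * D⁻¹ * D⁻¹ := by ring
      _ ≤ (300 / 299) ^ 2 * (1 / 600 * b⁻¹) * D⁻¹ := by gcongr
      _ ≤ 1 / (590 * b) * D⁻¹ := by
          refine mul_le_mul_of_nonneg_right ?_ hq.le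
          have e : 1 / (590 * b) = 1 / 590 * b⁻¹ := by field_simp
          rw [e]
          linarith only [hbi]
  · rw [← inv_pow]
    calc 4 * r⁻¹ ^ 3 ≤ 4 * (300 / 299 * D⁻¹) ^ 3 := by gcongr
      _ = 4 * (300 / 299) ^ 3 * (D⁻¹ * D⁻¹) * D⁻¹ := by ring
      _ ≤ 4 * (300 / 299) ^ 3 * ((1 / 600 * b⁻¹) * (1 / 600 * b⁻¹)) * D⁻¹ := by gcongr
      _ ≤ 1 / (80000 * b ^ 2) * D⁻¹ := by
          refine mul_le_mul_of_nonneg_right ?_ hq.le
          have e : 1 / (80000 * b ^ 2) = 1 / 80000 * b⁻¹ ^ 2 := by field_simp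
          rw [e]
          linarith only [pow_pos hbi 2]

/-- **the field in the shells** -/
theorem shell_data (hz : ∀ i, 0 < z i) (hφ : 0 < φ₀) (hρ : TC ρ)
    (heq : ∀ x, ρ x = tf (Vpt z R x - pot ρ x - φ₀)) (h : HessSol z R ρ H)
    (hcard : ∃ i j : ι, i ≠ j) {Z d Dm qs b : ℝ} (hZ : ∑ i, z i = Z) (hd0 : 0 < d)
    (hd : ∀ i j, i ≠ j → d ≤ ‖R i - R j‖) (hD : ∀ i j, ‖R i - R j‖ ≤ Dm) (hqs : 0 < qs)
    (hq : ∀ i, 2 * qs ≤ min (z i / 2) (φ₀ * (3 / (16 * Real.pi * √(z i))) ^ (2 / 3 : ℝ)))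
    (hb0 : 0 < b) (hb1 : 600 * b ≤ d) (hb2 : 100 * Z * b ≤ qs * d) (hb3 : 2 * (Z / φ₀) ≤ b)
    (h1 : 16 * Z ^ 2 * (Z / φ₀) ≤ qs ^ 2 * d) (h2 : 80000 * (Z / φ₀) * Z * Dm ≤ b ^ 2 * qs)
    {i : ι} {x : X} (hx1 : b < ‖x - R i‖) (hx2 : ‖x - R i‖ < 2 * b) :
    ∃ q E : ℝ, 0 < E ∧ 100 * b * E ≤ q ∧ ∃ v1 t1 : X,
      psi' z R ρ x = (-(q / ‖x - R i‖ ^ 2)) • (‖x - R i‖⁻¹ • (x - R i)) + v1 ∧
      H x (‖x - R i‖⁻¹ • (x - R i)) =
        (2 * q / ‖x - R i‖ ^ 3) • (‖x - R i‖⁻¹ • (x - R i)) + t1 ∧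
      ‖v1‖ ≤ E / (100 * b) ∧ ‖t1‖ ≤ E / (100 * b ^ 2) ∧
      |Vpt z R x - pot ρ x - q / ‖x - R i‖ - E| ≤ E / 100 := by
  classical
  haveI : Nonempty ι := ⟨i⟩
  have hZ0 : 0 < Z := by
    rw [← hZ]
    exact Finset.sum_pos (fun j _ => hz j) Finset.univ_nonempty
  have h4 : 4 * (Z / φ₀) < d := by
    have : 0 < Z / φ₀ := by positivity
    linarith
  have hnet := net_low hz hφ hρ heq hZ hd0 hd hqs hq h4 h1
  obtain ⟨a, ha⟩ : ∃ a, a = Z / φ₀ := ⟨_, rfl⟩
  rw [← ha] at h4 h1 h2 hb3 hnet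
  have ha0 : 0 < a := by rw [ha]; positivity
  have hsupp : ∀ x, (∀ i, a < ‖x - R i‖) → ρ x = 0 := fun x hx =>
    supp_ball hz hφ hρ heq x (by rwa [hZ, ← ha])
  have hsep : ∀ i j, i ≠ j → 2 * a < ‖R i - R j‖ := fun i j hij => by
    have := hd i j hij
    linarith
  have hN0 : ∀ j, 0 ≤ ∫ y, cl a R ρ j y := fun j => integral_nonneg (cl_TC hρ a R j).nonneg
  set M : ℝ := ∫ y, ρ y with hM
  have hM0 : 0 ≤ M := integral_nonneg hρ.nonneg
  have hMZ : M ≤ Z := by rw [hM, ← hZ]; exact mass_le hz hφ hρ heq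
  obtain ⟨Q, hQ⟩ : ∃ Q : ι → ℝ, ∀ j, Q j = z j - ∫ y, cl a R ρ j y := ⟨_, fun _ => rfl⟩
  have hQs : ∀ j, qs ≤ Q j := fun j => by rw [hQ]; exact hnet j
  have hQ0 : ∀ j, 0 < Q j := fun j => hqs.trans_le (hQs j)
  have hQz : ∀ j, Q j ≤ z j := fun j => by
    have := hN0 j
    rw [hQ]
    linarith
  set r : ℝ := ‖x - R i‖ with hr
  have hr0 : 0 < r := hb0.trans hx1
  -- the other nuclei
  have hrj : ∀ j, |‖x - R j‖ - ‖R i - R j‖| ≤ 2 * b := by
    intro j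
    refine (abs_norm_sub_norm_le _ _).trans ?_
    rw [show x - R j - (R i - R j) = x - R i by abel]
    exact hx2.le
  have hsh : ∀ j, j ≠ i → 0 < ‖x - R j‖ ∧
      |‖x - R j‖⁻¹ - ‖R i - R j‖⁻¹| ≤ 1 / 299 * ‖R i - R j‖⁻¹ ∧
      (‖x - R j‖ ^ 2)⁻¹ ≤ 1 / (590 * b) * ‖R i - R j‖⁻¹ ∧
      4 * (‖x - R j‖ ^ 3)⁻¹ ≤ 1 / (80000 * b ^ 2) * ‖R i - R j‖⁻¹ := fun j hj =>
    shell_real hb0 (hb1.trans (hd i j (Ne.symm hj))) (hrj j)
  have hxall : ∀ j, b ≤ ‖x - R j‖ := by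
    intro j
    by_cases hj : j = i
    · rw [hj]; exact hx1.le
    · have e1 := hd i j (Ne.symm hj)
      have e2 := (abs_le.mp (hrj j)).1
      linarith
  -- the field of the others
  set E : ℝ := ∑ j ∈ Finset.univ.erase i, Q j * ‖R i - R j‖⁻¹ with hE
  have hterm : ∀ j ∈ Finset.univ.erase i, 0 ≤ Q j * ‖R i - R j‖⁻¹ := fun j _ =>
    mul_nonneg (hQ0 j).le (by positivity)
  obtain ⟨j₀, hj₀⟩ : ∃ j, j ≠ i := by
    obtain ⟨k, l, hkl⟩ := hcard
    by_cases hk : k = i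
    · exact ⟨l, fun hl => hkl (hk.trans hl.symm)⟩
    · exact ⟨k, hk⟩
  have hDm : 0 < Dm := hd0.trans_le ((hd i j₀ (Ne.symm hj₀)).trans (hD i j₀))
  have hElow : qs / Dm ≤ E := by
    have e1 := Finset.single_le_sum (f := fun j => Q j * ‖R i - R j‖⁻¹) hterm
      (Finset.mem_erase.mpr ⟨hj₀, Finset.mem_univ j₀⟩)
    refine le_trans ?_ e1
    rw [div_eq_mul_inv]
    have e2 : 0 < ‖R i - R j₀‖ := hd0.trans_le (hd i j₀ (Ne.symm hj₀))
    exact mul_le_mul (hQs j₀) (inv_anti₀ e2 (hD i j₀)) (by positivity) (hQ0 j₀).le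
  have hE0 : 0 < E := lt_of_lt_of_le (by positivity) hElow
  have hEup : E ≤ Z / d := by
    calc E ≤ ∑ j ∈ Finset.univ.erase i, z j * d⁻¹ := by
          refine Finset.sum_le_sum fun j hj => ?_
          exact mul_le_mul (hQz j) (inv_anti₀ hd0 (hd i j (Ne.symm (Finset.ne_of_mem_erase hj))))
            (by positivity) (hz j).le
      _ ≤ ∑ j, z j * d⁻¹ := Finset.sum_le_sum_of_subset_of_nonneg (Finset.erase_subset _ _)
          fun j _ _ => mul_nonneg (hz j).le (by positivity)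
      _ = Z / d := by rw [← Finset.sum_mul, hZ, div_eq_mul_inv]
  have hEq : 100 * b * E ≤ Q i := by
    refine le_trans ?_ (hQs i)
    calc 100 * b * E ≤ 100 * b * (Z / d) := by gcongr
      _ = 100 * Z * b / d := by ring
      _ ≤ qs := by rw [div_le_iff₀ hd0]; exact hb2
  -- the small parameter
  have hsmall : a * M ≤ b ^ 2 * E / 80000 := by
    have e1 : 80000 * a * Z ≤ b ^ 2 * (qs / Dm) := by
      rw [mul_div_assoc', le_div_iff₀ hDm]
      exact h2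
    have e2 : b ^ 2 * (qs / Dm) ≤ b ^ 2 * E := by gcongr
    have e3 : a * M ≤ a * Z := by gcongr
    linarith
  have x1 := exp_pot (z := z) hρ ha0 hsupp hsep hb3 hxall
  have x2 := exp_grad (z := z) hρ ha0 hsupp hsep hb3 hxall
  have x3 := exp_hess hρ ha0 hsupp hsep hb3 h hxall
  simp only [← hQ] at x1 x2 x3
  rw [← hM] at x1 x2 x3
  have y1 : 2 * a * M * (b ^ 2)⁻¹ ≤ E / 40000 := by
    rw [← div_eq_mul_inv, div_le_iff₀ (by positivity)]
    linarith only [hsmall]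
  have y2 : 6 * a * M * (b ^ 3)⁻¹ ≤ E / (10000 * b) := by
    rw [← div_eq_mul_inv, div_le_div_iff₀ (by positivity) (by positivity)]
    have e1 : 6 * a * M * (10000 * b) = 60000 * b * (a * M) := by ring
    have e2 : E * b ^ 3 = 80000 * b * (b ^ 2 * E / 80000) := by ring
    have e3 : 0 ≤ b * (a * M) := by positivity
    have e4 := mul_le_mul_of_nonneg_left hsmall (by positivity : 0 ≤ 80000 * b)
    rw [e1, e2]
    linarith only [e3, e4]
  have y3 : 80 * a * M * (b ^ 4)⁻¹ ≤ E / (1000 * b ^ 2) := by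
    rw [← div_eq_mul_inv, div_le_div_iff₀ (by positivity) (by positivity)]
    have e1 : 80 * a * M * (1000 * b ^ 2) = 80000 * b ^ 2 * (a * M) := by ring
    have e2 : E * b ^ 4 = 80000 * b ^ 2 * (b ^ 2 * E / 80000) := by ring
    rw [e1, e2]
    exact mul_le_mul_of_nonneg_left hsmall (by positivity)
  refine ⟨Q i, E, hE0, hEq,
    (psi' z R ρ x - ∑ j, Q j • gradP (R j) x) + ∑ j ∈ Finset.univ.erase i, Q j • gradP (R j) x,
    (H x - ∑ j, Q j • hP (R j) x) (r⁻¹ • (x - R i)) +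
      ∑ j ∈ Finset.univ.erase i, Q j • hP (R j) x (r⁻¹ • (x - R i)), ?_, ?_, ?_, ?_, ?_⟩
  · have e1 : ∑ j, Q j • gradP (R j) x = Q i • gradP (R i) x +
        ∑ j ∈ Finset.univ.erase i, Q j • gradP (R j) x :=
      (Finset.add_sum_erase _ _ (Finset.mem_univ i)).symm
    have e2 : Q i • gradP (R i) x = (-(Q i / r ^ 2)) • (r⁻¹ • (x - R i)) := by
      unfold gradP
      rw [← hr, smul_neg, smul_smul, smul_smul, neg_mul, neg_smul]
      congr 2
      field_simp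
    rw [e1, e2]
    abel
  · have e1 : ∑ j, Q j • hP (R j) x = Q i • hP (R i) x +
        ∑ j ∈ Finset.univ.erase i, Q j • hP (R j) x :=
      (Finset.add_sum_erase _ _ (Finset.mem_univ i)).symm
    have e2 : (Q i • hP (R i) x) (r⁻¹ • (x - R i)) =
        (2 * Q i / r ^ 3) • (r⁻¹ • (x - R i)) := by
      rw [smul_apply, hP_apply, ← hr, real_inner_smul_right, real_inner_self_eq_norm_sq, ← hr,
        smul_smul, ← sub_smul, smul_smul, smul_smul]
      congr 1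
      field_simp
      ring
    have e3 : (∑ j ∈ Finset.univ.erase i, Q j • hP (R j) x) (r⁻¹ • (x - R i)) =
        ∑ j ∈ Finset.univ.erase i, Q j • hP (R j) x (r⁻¹ • (x - R i)) := by
      rw [ContinuousLinearMap.sum_apply]
      rfl
    rw [e1, sub_apply, add_apply, e2, e3]
    abel
  · refine (norm_add_le _ _).trans ?_
    have e1 : ‖∑ j ∈ Finset.univ.erase i, Q j • gradP (R j) x‖ ≤ 1 / (590 * b) * E := by
      refine (norm_sum_le _ _).trans ?_
      rw [hE, Finset.mul_sum]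
      refine Finset.sum_le_sum fun j hj => ?_
      rw [norm_smul, Real.norm_of_nonneg (hQ0 j).le, gradP_norm]
      have := (hsh j (Finset.ne_of_mem_erase hj)).2.2.1
      calc Q j * (‖x - R j‖ ^ 2)⁻¹ ≤ Q j * (1 / (590 * b) * ‖R i - R j‖⁻¹) :=
            mul_le_mul_of_nonneg_left this (hQ0 j).le
        _ = 1 / (590 * b) * (Q j * ‖R i - R j‖⁻¹) := by ring
    have e2 : E / (10000 * b) + 1 / (590 * b) * E ≤ E / (100 * b) := by
      have e3 : E / (100 * b) - (E / (10000 * b) + 1 / (590 * b) * E) =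
          (1 / 100 - 1 / 10000 - 1 / 590) * (E / b) := by field_simp; ring
      have e4 : 0 < E / b := by positivity
      linarith only [e3, e4]
    linarith
  · refine (norm_add_le _ _).trans ?_
    have hn : ‖r⁻¹ • (x - R i)‖ = 1 := by
      rw [norm_smul, norm_inv, Real.norm_of_nonneg hr0.le, ← hr, inv_mul_cancel₀ hr0.ne']
    have e0 : ‖(H x - ∑ j, Q j • hP (R j) x) (r⁻¹ • (x - R i))‖ ≤ E / (1000 * b ^ 2) := by
      refine (ContinuousLinearMap.le_opNorm _ _).trans ?_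
      rw [hn, mul_one]
      exact x3.trans y3
    have e1 : ‖∑ j ∈ Finset.univ.erase i, Q j • hP (R j) x (r⁻¹ • (x - R i))‖ ≤
        1 / (80000 * b ^ 2) * E := by
      refine (norm_sum_le _ _).trans ?_
      rw [hE, Finset.mul_sum]
      refine Finset.sum_le_sum fun j hj => ?_
      rw [norm_smul, Real.norm_of_nonneg (hQ0 j).le]
      have e2 : ‖hP (R j) x (r⁻¹ • (x - R i))‖ ≤ 4 * (‖x - R j‖ ^ 3)⁻¹ := by
        refine (ContinuousLinearMap.le_opNorm _ _).trans ?_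
        rw [hn, mul_one]
        exact d2_norm (R j) x
      have := (hsh j (Finset.ne_of_mem_erase hj)).2.2.2
      calc Q j * ‖hP (R j) x (r⁻¹ • (x - R i))‖ ≤ Q j * (1 / (80000 * b ^ 2) * ‖R i - R j‖⁻¹) :=
            mul_le_mul_of_nonneg_left (e2.trans this) (hQ0 j).le
        _ = 1 / (80000 * b ^ 2) * (Q j * ‖R i - R j‖⁻¹) := by ring
    have e2 : E / (1000 * b ^ 2) + 1 / (80000 * b ^ 2) * E ≤ E / (100 * b ^ 2) := by
      have e3 : E / (100 * b ^ 2) - (E / (1000 * b ^ 2) + 1 / (80000 * b ^ 2) * E) =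
          (1 / 100 - 1 / 1000 - 1 / 80000) * (E / b ^ 2) := by field_simp; ring
      have e4 : 0 < E / b ^ 2 := by positivity
      linarith only [e3, e4]
    linarith
  · have e1 : ∑ j, Q j * ‖x - R j‖⁻¹ = Q i / r +
        ∑ j ∈ Finset.univ.erase i, Q j * ‖x - R j‖⁻¹ := by
      rw [← Finset.add_sum_erase _ _ (Finset.mem_univ i), ← hr, div_eq_mul_inv]
    have e2 : |∑ j ∈ Finset.univ.erase i, Q j * ‖x - R j‖⁻¹ - E| ≤ 1 / 299 * E := by
      rw [hE, ← Finset.sum_sub_distrib, Finset.mul_sum]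
      refine (Finset.abs_sum_le_sum_abs _ _).trans (Finset.sum_le_sum fun j hj => ?_)
      have e3 : Q j * ‖x - R j‖⁻¹ - Q j * ‖R i - R j‖⁻¹ =
          Q j * (‖x - R j‖⁻¹ - ‖R i - R j‖⁻¹) := by ring
      rw [e3, abs_mul, abs_of_pos (hQ0 j)]
      have := (hsh j (Finset.ne_of_mem_erase hj)).2.1
      calc Q j * |‖x - R j‖⁻¹ - ‖R i - R j‖⁻¹| ≤ Q j * (1 / 299 * ‖R i - R j‖⁻¹) :=
            mul_le_mul_of_nonneg_left this (hQ0 j).le
        _ = 1 / 299 * (Q j * ‖R i - R j‖⁻¹) := by ring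
    have e4 := x1.trans y1
    rw [e1] at e4
    have f1 := abs_le.mp e4
    have f2 := abs_le.mp e2
    rw [abs_le]
    constructor <;> linarith

end Pool.Agent.TF.Dis
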