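import Pool.Agent.Lib.MP_9cf0c9_mp.DisNear
import Pool.Agent.Lib.MP_9cf0c9_mp.Boch23

/-! Nearly isolated ions: the trial potential, equal to the own dilation field
`-⟪x - R i, ∇φ⟫` in the ball of radius `b` at the nucleus `i`, to the potential `φ` of the
solution outside the balls of radius `2 b`, and interpolated between. -/

set_option linter.unusedSectionVars false
set_option linter.unusedVariables false
set_option linter.style.haveILetI false

namespace Pool.Agent.TF.Dis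
open MeasureTheory Set Metric Filter Topology Pool.Agent.TF.Grd
open scoped ENNReal NNReal RealInnerProductSpace Gradient

variable {ι : Type*} [Fintype ι]
variable {z : ι → ℝ} {R : ι → X} {φ₀ : ℝ} {ρ : X → ℝ} {H : X → X →L[ℝ] X} {b : ℝ}

/-- `⟪x - c, ∇φ⟫` -/
noncomputable def rv (z : ι → ℝ) (R : ι → X) (ρ : X → ℝ) (c x : X) : ℝ := ⟪x - c, psi' z R ρ x⟫

noncomputable def rv' (z : ι → ℝ) (R : ι → X) (ρ : X → ℝ) (H : X → X →L[ℝ] X) (c x : X) : X :=
  psi' z R ρ x + H x (x - c)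

/-- `φ + ⟪x - c, ∇φ⟫` -/
noncomputable def wf (z : ι → ℝ) (R : ι → X) (ρ : X → ℝ) (c x : X) : ℝ :=
  Vpt z R x - pot ρ x + rv z R ρ c x

noncomputable def wf' (z : ι → ℝ) (R : ι → X) (ρ : X → ℝ) (H : X → X →L[ℝ] X) (c x : X) : X :=
  psi' z R ρ x + rv' z R ρ H c x

/-- the cut-off at the nucleus `i` -/
noncomputable def ch (b : ℝ) (R : ι → X) (i : ι) (x : X) : ℝ := Flux.cut b ‖x - R i‖

/-- the trial potential minus the potential of the nuclei -/
noncomputable def kD (b : ℝ) (z : ι → ℝ) (R : ι → X) (ρ : X → ℝ) (x : X) : ℝ :=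
  -pot ρ x - ∑ i, ch b R i x * wf z R ρ (R i) x

noncomputable def kD' (b : ℝ) (z : ι → ℝ) (R : ι → X) (ρ : X → ℝ) (H : X → X →L[ℝ] X) (x : X) : X :=
  -gradV ρ x - ∑ i, (ch b R i x • wf' z R ρ H (R i) x + wf z R ρ (R i) x • Flux.gcut b (x - R i))

/-! ### smoothness off the nuclei -/

theorem LipAt_sum {s : Finset ι} {f : ι → X → ℝ} {x : X} (h : ∀ i ∈ s, LipAt (f i) x) :
    LipAt (fun y => ∑ i ∈ s, f i y) x := by
  classical
  induction s using Finset.induction_on with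
  | empty => simpa using LipAt.const (V := X) 0 x
  | insert a s ha ih =>
    simp only [Finset.sum_insert ha]
    exact (h a (Finset.mem_insert_self a s)).add
      (ih fun i hi => h i (Finset.mem_insert_of_mem hi))

theorem ch_lip (hb : 0 < b) (R : ι → X) (i : ι) (x : X) : LipAt (ch b R i) x := by
  have h : LipschitzWith _ (fun x : X => Flux.cut b ‖x - R i‖) := (Flux.cut_lip hb).comp
    (lipschitzWith_one_norm.comp (LipschitzWith.id.sub (LipschitzWith.const (R i))))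
  exact lipAt_of_lip h x

theorem ch_grad (hb : 0 < b) (R : ι → X) (i : ι) {x : X} (h1 : ‖x - R i‖ ≠ b)
    (h2 : ‖x - R i‖ ≠ 2 * b) : HasGradientAt (ch b R i) (Flux.gcut b (x - R i)) x := by
  have h3 := Flux.hasGradient_cut (y := x - R i) hb h1 h2
  rw [hasGradientAt_iff_hasFDerivAt] at h3 ⊢
  exact h3.comp x ((hasFDerivAt_id x).sub_const (R i))

theorem ae_good (R : ι → X) (b : ℝ) : ∀ᵐ x : X, (∀ i, x ≠ R i) ∧
    ∀ i, ‖x - R i‖ ≠ b ∧ ‖x - R i‖ ≠ 2 * b := by
  have := nontriv (V := X)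
  have h1 : ∀ᵐ x : X, ∀ i, ‖x - R i‖ ≠ b ∧ ‖x - R i‖ ≠ 2 * b := by
    rw [ae_all_iff]
    intro i
    filter_upwards [Flux.sphere_ae (R i) (r := b), Flux.sphere_ae (R i) (r := 2 * b)] with x h k
    exact ⟨h, k⟩
  filter_upwards [off_ae R, h1] with x h2 h3
  exact ⟨h2, h3⟩

section sol
variable (hz : ∀ i, 0 ≤ z i) (hφ : 0 < φ₀) (hρ : TC ρ)
    (heq : ∀ x, ρ x = tf (Vpt z R x - pot ρ x - φ₀)) (h : HessSol z R ρ H)
include hz hφ hρ heq h

theorem rv_grad (c : X) {x : X} (hx : ∀ i, x ≠ R i) :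
    HasGradientAt (rv z R ρ c) (rv' z R ρ H c x) x := by
  have h1 : HasFDerivAt (fun y : X => y - c) (ContinuousLinearMap.id ℝ X) x :=
    (hasFDerivAt_id x).sub_const c
  have h2 := h1.inner ℝ (h.deriv x hx)
  rw [hasGradientAt_iff_hasFDerivAt]
  refine h2.congr_fderiv ?_
  ext a
  simp only [ContinuousLinearMap.comp_apply, ContinuousLinearMap.prod_apply,
    fderivInnerCLM_apply, ContinuousLinearMap.id_apply, InnerProductSpace.toDual_apply_apply,
    rv', inner_add_left]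
  rw [h.symm x hx (x - c) a, real_inner_comm a]
  ring

theorem rv'_cont (c : X) {x : X} (hx : ∀ i, x ≠ R i) : ContinuousAt (rv' z R ρ H c) x := by
  unfold rv'
  exact (h.cont' hx).add ((h.contAt hx).clm_apply (continuousAt_id.sub continuousAt_const))

theorem phi_grad {x : X} (hx : ∀ i, x ≠ R i) :
    HasGradientAt (fun y => Vpt z R y - pot ρ y) (psi' z R ρ x) x := by
  have h1 := (hasGradientAt_Vpt z R hx).hasFDerivAt.sub
    (pot_grad hz hφ hρ heq hx).1.hasFDerivAt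
  rw [← map_sub] at h1
  exact h1

theorem wf_grad (c : X) {x : X} (hx : ∀ i, x ≠ R i) :
    HasGradientAt (wf z R ρ c) (wf' z R ρ H c x) x := by
  have h1 := (phi_grad hz hφ hρ heq h hx).hasFDerivAt.add
    (rv_grad hz hφ hρ heq h c hx).hasFDerivAt
  rw [← map_add] at h1
  exact h1

theorem wf'_cont (c : X) {x : X} (hx : ∀ i, x ≠ R i) : ContinuousAt (wf' z R ρ H c) x := by
  unfold wf'
  exact (h.cont' hx).add (rv'_cont hz hφ hρ heq h c hx)

theorem rv_lip (c : X) : ∀ x, (∀ i, x ≠ R i) → LipAt (rv z R ρ c) x :=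
  lipAt_off (fun x hx => rv_grad hz hφ hρ heq h c hx) fun x hx => rv'_cont hz hφ hρ heq h c hx

theorem wf_lip (c : X) : ∀ x, (∀ i, x ≠ R i) → LipAt (wf z R ρ c) x :=
  lipAt_off (fun x hx => wf_grad hz hφ hρ heq h c hx) fun x hx => wf'_cont hz hφ hρ heq h c hx

theorem kD_lip (hb : 0 < b) : ∀ x, (∀ i, x ≠ R i) → LipAt (kD b z R ρ) x := by
  intro x hx
  have h1 : LipAt (fun y => -pot ρ y) x := by
    refine lipAt_off (R := R) (k' := fun x => -gradV ρ x) (fun x hx => ?_) (fun x hx => ?_) x hx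
    · have := (pot_grad hz hφ hρ heq hx).1.hasFDerivAt.neg
      rw [← map_neg] at this
      exact this
    · exact (pot_grad hz hφ hρ heq hx).2.neg
  exact h1.sub (LipAt_sum fun i _ => (ch_lip hb R i x).mul (wf_lip hz hφ hρ heq h (R i) x hx))

theorem kD_grad (hb : 0 < b) {x : X} (hx : ∀ i, x ≠ R i)
    (hs : ∀ i, ‖x - R i‖ ≠ b ∧ ‖x - R i‖ ≠ 2 * b) :
    HasGradientAt (kD b z R ρ) (kD' b z R ρ H x) x := by
  have h1 := (pot_grad hz hφ hρ heq hx).1.hasFDerivAt.neg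
  have h2 : ∀ i, HasFDerivAt (fun y => ch b R i y * wf z R ρ (R i) y)
      ((InnerProductSpace.toDual ℝ X) (ch b R i x • wf' z R ρ H (R i) x +
        wf z R ρ (R i) x • Flux.gcut b (x - R i))) x := by
    intro i
    have h3 := (ch_grad hb R i (hs i).1 (hs i).2).hasFDerivAt.mul
      (wf_grad hz hφ hρ heq h (R i) hx).hasFDerivAt
    refine h3.congr_fderiv ?_
    rw [map_add, map_smul, map_smul]
  have h4 : HasFDerivAt (fun y => ∑ i, ch b R i y * wf z R ρ (R i) y)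
      (∑ i, (InnerProductSpace.toDual ℝ X) (ch b R i x • wf' z R ρ H (R i) x +
        wf z R ρ (R i) x • Flux.gcut b (x - R i))) x := HasFDerivAt.fun_sum fun i _ => h2 i
  rw [hasGradientAt_iff_hasFDerivAt]
  refine (h1.sub h4).congr_fderiv ?_
  rw [kD', map_sub, map_sum, map_neg]

end sol

/-! ### the regions -/

/-- the nuclei are far from each other, and the density is supported near them -/
structure Sep (b : ℝ) (R : ι → X) (ρ : X → ℝ) : Prop where
  pos : 0 < b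
  sep : ∀ i j, i ≠ j → 8 * b ≤ ‖R i - R j‖
  off : ∀ x, (∀ i, b ≤ ‖x - R i‖) → ρ x = 0

theorem Sep.other (hS : Sep b R ρ) {x : X} {i : ι} (hx : ‖x - R i‖ ≤ 2 * b) :
    ∀ j, j ≠ i → 2 * b ≤ ‖x - R j‖ := by
  intro j hj
  have h1 := hS.sep i j (Ne.symm hj)
  have h2 : ‖R i - R j‖ ≤ ‖x - R j‖ + ‖x - R i‖ := by
    have := norm_sub_le (x - R j) (x - R i)
    rw [show x - R j - (x - R i) = R i - R j by abel] at this
    exact this
  have := hS.pos
  linarith

theorem Sep.inj (hS : Sep b R ρ) : Function.Injective R := by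
  intro i j hij
  by_contra hne
  have h1 := hS.sep i j hne
  have := hS.pos
  rw [hij, sub_self, norm_zero] at h1
  linarith

theorem ch_zero (hb : 0 < b) {i : ι} {x : X} (hx : 2 * b ≤ ‖x - R i‖) : ch b R i x = 0 :=
  Flux.cut_zero hb hx

theorem ch_one (hb : 0 < b) {i : ι} {x : X} (hx : ‖x - R i‖ ≤ b) : ch b R i x = 1 :=
  Flux.cut_one hb hx

theorem gcut_far {y : X} (hy : 2 * b ≤ ‖y‖) : Flux.gcut b y = 0 := by
  unfold Flux.gcut
  rw [indicator_of_notMem (by intro hh; exact absurd hh.2 (not_lt.2 hy)), zero_smul]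

theorem gcut_in {y : X} (hy : ‖y‖ ≤ b) : Flux.gcut b y = 0 := by
  unfold Flux.gcut
  rw [indicator_of_notMem (by intro hh; exact absurd hh.1 (not_lt.2 hy)), zero_smul]

/-- sums over the nuclei of terms supported in the balls of radius `2 b` -/
theorem Sep.sum_in {E : Type*} [AddCommMonoid E] (hS : Sep b R ρ) {x : X} {i : ι}
    (hx : ‖x - R i‖ ≤ 2 * b) {f : ι → E} (hf : ∀ j, 2 * b ≤ ‖x - R j‖ → f j = 0) :
    ∑ j, f j = f i := by
  classical
  refine Finset.sum_eq_single i (fun j _ hj => hf j (hS.other hx j hj)) fun hi => ?_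
  exact absurd (Finset.mem_univ i) hi

theorem sum_out {E : Type*} [AddCommMonoid E] {x : X}
    (hx : ∀ i, 2 * b ≤ ‖x - R i‖) {f : ι → E} (hf : ∀ j, 2 * b ≤ ‖x - R j‖ → f j = 0) :
    ∑ j, f j = 0 := Finset.sum_eq_zero fun j _ => hf j (hx j)

theorem kD_in (hS : Sep b R ρ) {x : X} {i : ι} (hx : ‖x - R i‖ ≤ 2 * b) :
    kD b z R ρ x = -pot ρ x - ch b R i x * wf z R ρ (R i) x := by
  unfold kD
  rw [hS.sum_in hx fun j hj => by rw [ch_zero hS.pos hj, zero_mul]]

theorem kD_own (hS : Sep b R ρ) {x : X} {i : ι} (hx : ‖x - R i‖ ≤ b) :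
    kD b z R ρ x = -Vpt z R x - rv z R ρ (R i) x := by
  rw [kD_in hS (i := i) (by linarith [hS.pos]), ch_one hS.pos hx, one_mul, wf]
  ring

theorem kD_out (hS : Sep b R ρ) {x : X} (hx : ∀ i, 2 * b ≤ ‖x - R i‖) :
    kD b z R ρ x = -pot ρ x := by
  unfold kD
  rw [sum_out hx fun j hj => by rw [ch_zero hS.pos hj, zero_mul], sub_zero]

theorem kD'_in (hS : Sep b R ρ) {x : X} {i : ι} (hx : ‖x - R i‖ ≤ 2 * b) :
    kD' b z R ρ H x = -gradV ρ x - (ch b R i x • wf' z R ρ H (R i) x +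
      wf z R ρ (R i) x • Flux.gcut b (x - R i)) := by
  unfold kD'
  rw [hS.sum_in hx fun j hj => by rw [ch_zero hS.pos hj, gcut_far hj, zero_smul, smul_zero,
    add_zero]]

theorem kD'_own (hS : Sep b R ρ) {x : X} {i : ι} (hx : ‖x - R i‖ ≤ b) :
    kD' b z R ρ H x = -gVpt z R x - rv' z R ρ H (R i) x := by
  rw [kD'_in hS (i := i) (by linarith [hS.pos]), ch_one hS.pos hx, one_smul, gcut_in hx,
    smul_zero, add_zero, wf', psi']
  abel

theorem kD'_out (hS : Sep b R ρ) {x : X} (hx : ∀ i, 2 * b ≤ ‖x - R i‖) :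
    kD' b z R ρ H x = -gradV ρ x := by
  unfold kD'
  rw [sum_out hx fun j hj => by rw [ch_zero hS.pos hj, gcut_far hj, zero_smul, smul_zero,
    add_zero], sub_zero]

theorem kD_nuc (hS : Sep b R ρ) (i : ι) : Vpt z R (R i) + kD b z R ρ (R i) = 0 := by
  rw [kD_own hS (i := i) (by rw [sub_self, norm_zero]; exact hS.pos.le), rv, sub_self,
    inner_zero_left]
  ring

/-- the regions -/
theorem regions (b : ℝ) (R : ι → X) (x : X) : (∃ i, ‖x - R i‖ ≤ b) ∨
    (∃ i, b < ‖x - R i‖ ∧ ‖x - R i‖ ≤ 2 * b ∧ ∀ j, b < ‖x - R j‖) ∨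
    ∀ i, 2 * b < ‖x - R i‖ ∧ b < ‖x - R i‖ := by
  by_cases h1 : ∃ i, ‖x - R i‖ ≤ b
  · exact Or.inl h1
  · push Not at h1
    by_cases h2 : ∃ i, ‖x - R i‖ ≤ 2 * b
    · obtain ⟨i, hi⟩ := h2
      exact Or.inr (Or.inl ⟨i, h1 i, hi, h1⟩)
    · push Not at h2
      exact Or.inr (Or.inr fun i => ⟨h2 i, h1 i⟩)

/-- far away all cut-offs vanish -/
theorem far_out (R : ι → X) (b : ℝ) : ∃ N : ℝ, 0 < N ∧ ∀ x : X, N ≤ ‖x‖ →
    ∀ i, 2 * b < ‖x - R i‖ := by
  set ρ₀ : ℝ := ∑ i, ‖R i‖ with hρ₀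
  have h0 : 0 ≤ ρ₀ := Finset.sum_nonneg fun i _ => norm_nonneg _
  refine ⟨ρ₀ + 2 * |b| + 1, by positivity, fun x hx i => ?_⟩
  have h5 : ‖R i‖ ≤ ρ₀ := Finset.single_le_sum (f := fun i => ‖R i‖)
    (fun i _ => norm_nonneg _) (Finset.mem_univ i)
  have h6 := norm_sub_norm_le x (R i)
  have h7 := le_abs_self b
  linarith

/-- **the trial potential is admissible** -/
theorem trialD (hz : ∀ i, 0 < z i) (hφ : 0 < φ₀) (hρ : TC ρ)
    (heq : ∀ x, ρ x = tf (Vpt z R x - pot ρ x - φ₀)) (h : HessSol z R ρ H) (hS : Sep b R ρ) :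
    TrialK (range R) (kD b z R ρ) (kD' b z R ρ H) ∧
      ∃ C : ℝ, ∀ᵐ x : X, ‖kD' b z R ρ H x‖ ≤ C * (1 + ∑ i, (‖x - R i‖⁻¹) ^ (3 / 4 : ℝ)) := by
  have hz0 : ∀ i, 0 ≤ z i := fun i => (hz i).le
  have hR := hS.inj
  have hb := hS.pos
  obtain ⟨hTp, -, -⟩ := sol_facts hz0 R hφ hρ heq
  obtain ⟨N0, hN0, hfar⟩ := far_out R b
  have hlip := kD_lip hz0 hφ hρ heq h hb
  have hgr : ∀ x, (∀ i, x ≠ R i) → (∀ i, ‖x - R i‖ ≠ b ∧ ‖x - R i‖ ≠ 2 * b) →
      ∇ (kD b z R ρ) x = kD' b z R ρ H x := fun x hx hs =>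
    (kD_grad hz0 hφ hρ heq h hb hx hs).gradient
  -- continuity
  have hcont : Continuous (kD b z R ρ) := by
    rw [continuous_iff_continuousAt]
    intro x
    by_cases hx : ∀ i, x ≠ R i
    · exact (hlip x hx).continuousAt
    · push Not at hx
      obtain ⟨i, rfl⟩ := hx
      obtain ⟨C, η, hC, hη, hη1, hnuc⟩ := own_facts hz hR hφ hρ heq h i
      rw [continuousAt_iff_punctured_nhds]
      have hV := (calib_nuc (z := z) (R := R) hR (k := fun _ => (0 : ℝ)) continuous_const i).mono_left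
        (nhdsWithin_le_nhds (s := {R i}ᶜ))
      have h1 : Tendsto (fun x : X => ‖x - R i‖) (𝓝[≠] (R i)) (𝓝 0) := by
        have h2 : Continuous fun x : X => ‖x - R i‖ := by fun_prop
        have h3 := h2.tendsto (R i)
        rw [sub_self, norm_zero] at h3
        exact h3.mono_left nhdsWithin_le_nhds
      have hball : ∀ᶠ x in 𝓝[≠] (R i), 0 < ‖x - R i‖ ∧ ‖x - R i‖ < η ∧ ‖x - R i‖ < b := by
        have h2 : ∀ᶠ x in 𝓝[≠] (R i), ‖x - R i‖ < η := h1.eventually (gt_mem_nhds hη)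
        have h3 : ∀ᶠ x in 𝓝[≠] (R i), ‖x - R i‖ < b := h1.eventually (gt_mem_nhds hb)
        filter_upwards [h2, h3, self_mem_nhdsWithin] with x hx hx3 hx2
        exact ⟨norm_pos_iff.mpr (sub_ne_zero.mpr hx2), hx, hx3⟩
      have hE : Tendsto (fun x => rv z R ρ (R i) x + z i * ‖x - R i‖⁻¹) (𝓝[≠] (R i))
          (𝓝 0) := by
        have h2 : Tendsto (fun x : X => C * ‖x - R i‖ ^ (1 / 4 : ℝ)) (𝓝[≠] (R i)) (𝓝 (C * 0)) := by
          refine Tendsto.const_mul _ ?_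
          have h3 := (Real.continuousAt_rpow_const 0 (1 / 4 : ℝ) (Or.inr (by norm_num))).tendsto
          rw [Real.zero_rpow (by norm_num)] at h3
          exact h3.comp h1
        rw [mul_zero] at h2
        refine squeeze_zero_norm' ?_ h2
        filter_upwards [hball] with x hx
        rw [Real.norm_eq_abs]
        exact (hnuc x hx.1 hx.2.1).2.1
      have hfin := (hE.add hV).neg
      have e0 := kD_nuc (z := z) hS i
      have e1 : -(0 + (Vpt z R (R i) + 0)) = kD b z R ρ (R i) := by linarith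
      rw [e1] at hfin
      refine hfin.congr' ?_
      filter_upwards [hball] with x hx
      rw [kD_own hS (i := i) hx.2.2.le]
      ring
  -- decay
  have hdec : ∀ δ : ℝ, 0 < δ → ∃ r, ∀ x, r ≤ ‖x‖ → |kD b z R ρ x| < δ := by
    intro δ hδ
    obtain ⟨r, hr⟩ := hTp.decay δ hδ
    refine ⟨max r N0, fun x hx => ?_⟩
    rw [kD_out hS fun i => (hfar x ((le_max_right _ _).trans hx) i).le, abs_neg]
    exact hr x ((le_max_left _ _).trans hx)
  have hT := trialK_of R hcont hdec hlip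
    (fun i => by
      obtain ⟨C, η, hC, hη, hη1, hnuc⟩ := own_facts hz hR hφ hρ heq h i
      refine ⟨C, min η b, lt_min hη hb, ?_⟩
      filter_upwards [ae_good R b] with x hx hxη
      rw [hgr x hx.1 hx.2, kD'_own hS (i := i) (hxη.trans_le (min_le_right _ _)).le]
      have h1 := (hnuc x (norm_pos_iff.mpr (sub_ne_zero.mpr (hx.1 i)))
        (hxη.trans_le (min_le_left _ _))).2.2.1
      have e1 : -gVpt z R x - rv' z R ρ H (R i) x =
          -(gVpt z R x + psi' z R ρ x + H x (x - R i)) := by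
        unfold rv'
        abel
      rw [e1, norm_neg]
      exact h1)
    (by
      obtain ⟨r, hr0, hr⟩ := sol_supp hz0 R hφ hρ heq
      refine ⟨4 * ∫ y, |ρ y|, max N0 (2 * r), ?_⟩
      filter_upwards [ae_good R b] with x hx hxN
      rw [hgr x hx.1 hx.2, kD'_out hS fun i => (hfar x ((le_max_left _ _).trans hxN) i).le,
        norm_neg]
      exact gradV_decay hρ.int hρ.meas hr0 hr ((le_max_right _ _).trans hxN))
  obtain ⟨hT1, -, D, hD0, hD⟩ := hT
  have hae : (fun x => ∇ (kD b z R ρ) x) =ᵐ[volume] kD' b z R ρ H := by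
    filter_upwards [ae_good R b] with x hx
    exact hgr x hx.1 hx.2
  refine ⟨⟨hT1.bdd, hT1.decay, hT1.cont, hT1.lip, ?_, ?_⟩, D, ?_⟩
  · filter_upwards [ae_good R b] with x hx
    exact kD_grad hz0 hφ hρ heq h hb hx.1 hx.2
  · refine hT1.sq.congr ?_
    filter_upwards [hae] with x hx
    rw [hx]
  · filter_upwards [hae, hD] with x hx hx2
    rw [hx] at hx2
    refine hx2.trans (mul_le_mul_of_nonneg_left ?_ hD0)
    unfold Maj
    have h1 : ((1 + ‖x‖) ^ 2)⁻¹ ≤ 1 := by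
      refine inv_le_one_of_one_le₀ (one_le_pow₀ ?_)
      linarith [norm_nonneg x]
    have h2 : ∑ i, (ball (R i) 1).indicator (fun y => (‖y - R i‖⁻¹) ^ (3 / 4 : ℝ)) x ≤
        ∑ i, (‖x - R i‖⁻¹) ^ (3 / 4 : ℝ) := by
      refine Finset.sum_le_sum fun i _ => ?_
      exact indicator_le_self' (fun _ _ => by positivity) _
    linarith

end Pool.Agent.TF.Dis
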