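import Pool.Agent.Lib.MP_9cf0c9_mp.Dilate

/-! Energy at fixed mass: convexity, boundedness and monotonicity under dilation. -/

set_option linter.unusedSectionVars false
set_option linter.unusedVariables false
set_option linter.style.haveILetI false

namespace Pool.Agent.TF
open MeasureTheory Set Metric Filter Topology
open scoped ENNReal NNReal RealInnerProductSpace

/-! ### convex functions on the half line -/

theorem exists_slope {f : ℝ → ℝ} (hf : ConvexOn ℝ (Ici 0) f) {C : ℝ}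
    (hC : ∀ y, 0 ≤ y → f y ≤ C) {l : ℝ} (hl : 0 < l) :
    ∃ p, 0 ≤ p ∧ ∀ y, 0 ≤ y → f l - p * (y - l) ≤ f y := by
  set A : Set ℝ := {t | ∃ x, 0 ≤ x ∧ x < l ∧ t = (f l - f x) / (l - x)} with hA
  have hne : A.Nonempty := ⟨_, 0, le_rfl, hl, rfl⟩
  have hub : ∀ y, l < y → ∀ t ∈ A, t ≤ (f y - f l) / (y - l) := by
    rintro y hy t ⟨x, hx0, hxl, rfl⟩
    exact hf.slope_mono_adjacent hx0 (hl.le.trans hy.le) hxl hy
  have hbdd : BddAbove A := ⟨_, hub (l + 1) (by linarith)⟩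
  set m := sSup A with hm
  have h1 : ∀ y, l < y → f l + m * (y - l) ≤ f y := by
    intro y hy
    have h2 : m ≤ (f y - f l) / (y - l) := csSup_le hne (hub y hy)
    have h3 : 0 < y - l := by linarith
    rw [le_div_iff₀ h3] at h2
    linarith
  have h2 : ∀ x, 0 ≤ x → x < l → f l + m * (x - l) ≤ f x := by
    intro x hx hxl
    have h3 : (f l - f x) / (l - x) ≤ m := le_csSup hbdd ⟨x, hx, hxl, rfl⟩
    have h4 : 0 < l - x := by linarith
    rw [div_le_iff₀ h4] at h3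
    linarith
  have hm0 : m ≤ 0 := by
    by_contra hcon
    push Not at hcon
    have hCl := hC l hl.le
    have h3 := h1 (l + (C - f l + 1) / m) (by
      have : 0 < (C - f l + 1) / m := div_pos (by linarith) hcon
      linarith)
    have h4 := hC (l + (C - f l + 1) / m) (by
      have : 0 < (C - f l + 1) / m := div_pos (by linarith) hcon
      linarith)
    have h5 : m * (l + (C - f l + 1) / m - l) = C - f l + 1 := by
      field_simp
      ring
    linarith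
  refine ⟨-m, by linarith, fun y hy => ?_⟩
  rcases lt_trichotomy y l with h | h | h
  · have := h2 y hy h; linarith
  · subst h; simp
  · have := h1 y h; linarith

variable {V : Type*} [NormedAddCommGroup V] [InnerProductSpace ℝ V] [FiniteDimensional ℝ V]
  [MeasurableSpace V] [BorelSpace V]
variable {ι : Type*} [Fintype ι]

section dim3
variable [hd : Fact (Module.finrank ℝ V = 3)]

/-! ### a lower bound of the functional -/

theorem tc_pointwise' {a : ℝ} (ha : 0 < a) {s : ℝ} (hs : 0 ≤ s) (v : V) :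
    ‖v‖⁻¹ * s ≤ s + (3 / 5 * a ^ (5 / 3 : ℝ) * s ^ (5 / 3 : ℝ) +
      2 / 5 * (a ^ (5 / 2 : ℝ))⁻¹ * wt v) := by
  have h53 : 0 ≤ s ^ (5 / 3 : ℝ) := Real.rpow_nonneg hs _
  have ha53 : 0 ≤ a ^ (5 / 3 : ℝ) := Real.rpow_nonneg ha.le _
  by_cases hv : v ∈ ball (0 : V) 1
  · have h1 : wt v = (‖v‖⁻¹) ^ (5 / 2 : ℝ) := indicator_of_mem hv _
    have h2 := young_tf (‖v‖⁻¹ / a) (mul_nonneg ha.le hs)
    rw [Phi_eq_rpow (by positivity), Real.mul_rpow ha.le hs,
      Real.div_rpow (by positivity) ha.le] at h2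
    have h3 : ‖v‖⁻¹ / a * (a * s) = ‖v‖⁻¹ * s := by field_simp
    rw [h3] at h2
    rw [h1]
    have h4 : 2 / 5 * (a ^ (5 / 2 : ℝ))⁻¹ * ‖v‖⁻¹ ^ (5 / 2 : ℝ) =
        2 / 5 * (‖v‖⁻¹ ^ (5 / 2 : ℝ) / a ^ (5 / 2 : ℝ)) := by ring
    rw [h4]
    linarith
  · have h1 : wt v = 0 := indicator_of_notMem hv _
    have h2 : 1 ≤ ‖v‖ := by simpa using hv
    have h3 : ‖v‖⁻¹ ≤ 1 := inv_le_one_of_one_le₀ h2
    have h4 : ‖v‖⁻¹ * s ≤ 1 * s := mul_le_mul_of_nonneg_right h3 hs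
    rw [h1]
    have : 0 ≤ 3 / 5 * a ^ (5 / 3 : ℝ) * s ^ (5 / 3 : ℝ) := by positivity
    linarith

theorem TC.pot_le' {a : ℝ} (ha : 0 < a) {f : V → ℝ} (hf : TC f) (x : V) :
    pot f x ≤ (∫ y, f y) + (3 / 5 * a ^ (5 / 3 : ℝ) * (∫ y, f y ^ (5 / 3 : ℝ)) +
      2 / 5 * (a ^ (5 / 2 : ℝ))⁻¹ * ∫ v, wt (v : V)) := by
  unfold pot
  have hI : Integrable (fun y => f y + (3 / 5 * a ^ (5 / 3 : ℝ) * f y ^ (5 / 3 : ℝ) +
      2 / 5 * (a ^ (5 / 2 : ℝ))⁻¹ * wt (x - y))) :=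
    hf.int.add ((hf.int53.const_mul _).add ((wt_integrable.comp_sub_left x).const_mul _))
  have h1 : ∫ y, (f y + (3 / 5 * a ^ (5 / 3 : ℝ) * f y ^ (5 / 3 : ℝ) +
      2 / 5 * (a ^ (5 / 2 : ℝ))⁻¹ * wt (x - y))) =
      (∫ y, f y) + (3 / 5 * a ^ (5 / 3 : ℝ) * (∫ y, f y ^ (5 / 3 : ℝ)) +
        2 / 5 * (a ^ (5 / 2 : ℝ))⁻¹ * ∫ v, wt (v : V)) := by
    rw [integral_add2 hf.int (hf.int53.const_mul _)
      ((wt_integrable.comp_sub_left x).const_mul _), integral_const_mul, integral_const_mul,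
      integral_sub_left_eq_self (fun v : V => wt v) volume x]
  rw [← h1]
  refine integral_mono (hf.pot_integrable x) hI fun y => ?_
  exact tc_pointwise' ha (hf.nonneg y) (x - y)

theorem Unuc_nonneg {z : ι → ℝ} (hz : ∀ i, 0 ≤ z i) (R : ι → V) : 0 ≤ Unuc z R := by
  unfold Unuc
  have : 0 ≤ ∑ i, ∑ j, z i * z j * ‖R i - R j‖⁻¹ :=
    Finset.sum_nonneg fun i _ => Finset.sum_nonneg fun j _ =>
      mul_nonneg (mul_nonneg (hz i) (hz j)) (by positivity)
  linarith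

theorem TC.En_nonneg {f g : V → ℝ} (hf : TC f) (hg : TC g) : 0 ≤ En f g :=
  integral_nonneg fun x => mul_nonneg (hf.nonneg x) (pot_nonneg hg.nonneg x)

theorem Ept_lower {z : ι → ℝ} (hz : ∀ i, 0 ≤ z i) (R : ι → V) :
    ∃ C : ℝ, ∀ σ : V → ℝ, TC σ → -((∑ i, z i) * ∫ x, σ x) - C ≤ Ept 0 z R σ := by
  set Z : ℝ := ∑ i, z i with hZ
  have hZ0 : 0 ≤ Z := Finset.sum_nonneg fun i _ => hz i
  set a : ℝ := (1 / (Z + 1)) ^ (3 / 5 : ℝ) with ha
  have ha0 : 0 < a := Real.rpow_pos_of_pos (by positivity) _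
  have ha53 : a ^ (5 / 3 : ℝ) = 1 / (Z + 1) := by
    rw [ha, ← Real.rpow_mul (by positivity)]
    norm_num
  set B : ℝ := 2 / 5 * (a ^ (5 / 2 : ℝ))⁻¹ * ∫ v, wt (v : V) with hB
  refine ⟨Z * B, fun σ hσ => ?_⟩
  set T : ℝ := ∫ x, σ x ^ (5 / 3 : ℝ) with hT
  have hT0 : 0 ≤ T := integral_nonneg fun x => Real.rpow_nonneg (hσ.nonneg x) _
  have h1 : ∑ i, z i * pot σ (R i) ≤ ∑ i, z i * ((∫ y, σ y) + (3 / 5 * (1 / (Z + 1)) * T + B)) := by
    refine Finset.sum_le_sum fun i _ => mul_le_mul_of_nonneg_left ?_ (hz i)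
    have := hσ.pot_le' ha0 (R i)
    rw [ha53] at this
    exact this
  rw [← Finset.sum_mul, ← hZ] at h1
  have h2 : Z * (1 / (Z + 1)) ≤ 1 := by
    rw [mul_one_div, div_le_one (by linarith)]
    linarith
  have h3 : Z * (3 / 5 * (1 / (Z + 1)) * T) ≤ 3 / 5 * T := by
    have : Z * (3 / 5 * (1 / (Z + 1)) * T) = 3 / 5 * (Z * (1 / (Z + 1))) * T := by ring
    rw [this]
    have h4 : 3 / 5 * (Z * (1 / (Z + 1))) ≤ 3 / 5 := by linarith
    exact mul_le_mul_of_nonneg_right h4 hT0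
  have h5 := Unuc_nonneg hz R
  have h6 := hσ.En_nonneg hσ
  unfold Ept
  rw [← hT]
  have h7 : Z * ((∫ y, σ y) + (3 / 5 * (1 / (Z + 1)) * T + B)) =
      Z * (∫ y, σ y) + Z * (3 / 5 * (1 / (Z + 1)) * T) + Z * B := by ring
  rw [h7] at h1
  linarith

/-! ### convexity -/

theorem TC.comb {σ τ : V → ℝ} (hσ : TC σ) (hτ : TC τ) {a b : ℝ} (ha : 0 ≤ a) (hb : 0 ≤ b)
    (hab : a + b = 1) :
    TC (fun x => a * σ x + b * τ x) ∧
      ∫ x, (a * σ x + b * τ x) ^ (5 / 3 : ℝ) ≤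
        a * (∫ x, σ x ^ (5 / 3 : ℝ)) + b * (∫ x, τ x ^ (5 / 3 : ℝ)) := by
  have hconv := convexOn_rpow (p := 5 / 3) (by norm_num)
  have hpt : ∀ x, (a * σ x + b * τ x) ^ (5 / 3 : ℝ) ≤
      a * σ x ^ (5 / 3 : ℝ) + b * τ x ^ (5 / 3 : ℝ) := fun x =>
    hconv.2 (hσ.nonneg x) (hτ.nonneg x) ha hb hab
  have hI : Integrable (fun x => a * σ x ^ (5 / 3 : ℝ) + b * τ x ^ (5 / 3 : ℝ)) :=
    (hσ.int53.const_mul a).add (hτ.int53.const_mul b)
  have hm : Measurable (fun x => a * σ x + b * τ x) :=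
    (hσ.meas.const_mul a).add (hτ.meas.const_mul b)
  have hnn : ∀ x, 0 ≤ a * σ x + b * τ x := fun x =>
    add_nonneg (mul_nonneg ha (hσ.nonneg x)) (mul_nonneg hb (hτ.nonneg x))
  have hI2 : Integrable (fun x => (a * σ x + b * τ x) ^ (5 / 3 : ℝ)) := by
    refine hI.mono' (hm.pow_const _).aestronglyMeasurable (Eventually.of_forall fun x => ?_)
    rw [Real.norm_of_nonneg (Real.rpow_nonneg (hnn x) _)]
    exact hpt x
  refine ⟨⟨hm, hnn, (hσ.int.const_mul a).add (hτ.int.const_mul b), hI2⟩, ?_⟩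
  have h := integral_mono hI2 hI hpt
  rw [integral_add (hσ.int53.const_mul a) (hτ.int53.const_mul b), integral_const_mul,
    integral_const_mul] at h
  exact h

theorem TC.pot_comb {σ τ : V → ℝ} (hσ : TC σ) (hτ : TC τ) (a b : ℝ) (x : V) :
    pot (fun y => a * σ y + b * τ y) x = a * pot σ x + b * pot τ x := by
  unfold pot
  rw [← integral_const_mul, ← integral_const_mul, ← integral_add
    ((hσ.pot_integrable x).const_mul a) ((hτ.pot_integrable x).const_mul b)]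
  refine integral_congr_ae (Eventually.of_forall fun y => ?_)
  simp only
  ring

theorem TC.En_comb {σ τ : V → ℝ} (hσ : TC σ) (hτ : TC τ) {a b : ℝ} (ha : 0 ≤ a) (hb : 0 ≤ b)
    (hab : a + b = 1) :
    En (fun x => a * σ x + b * τ x) (fun x => a * σ x + b * τ x) ≤ a * En σ σ + b * En τ τ := by
  have h1 : En (fun x => a * σ x + b * τ x) (fun x => a * σ x + b * τ x) =
      a ^ 2 * En σ σ + 2 * (a * b) * En σ τ + b ^ 2 * En τ τ := by
    have e1 : ∀ x, (a * σ x + b * τ x) * pot (fun x => a * σ x + b * τ x) x =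
        a ^ 2 * (σ x * pot σ x) + a * b * (σ x * pot τ x) + a * b * (τ x * pot σ x) +
          b ^ 2 * (τ x * pot τ x) := by
      intro x
      rw [hσ.pot_comb hτ]
      ring
    have i1 := (hσ.En_integrable hσ).const_mul (a ^ 2)
    have i2 := (hσ.En_integrable hτ).const_mul (a * b)
    have i3 := (hτ.En_integrable hσ).const_mul (a * b)
    have i4 := (hτ.En_integrable hτ).const_mul (b ^ 2)
    have hs := hτ.En_symm hσ
    have i12 : Integrable (fun x => a ^ 2 * (σ x * pot σ x) + a * b * (σ x * pot τ x)) := i1.add i2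
    have i123 : Integrable (fun x => a ^ 2 * (σ x * pot σ x) + a * b * (σ x * pot τ x) +
      a * b * (τ x * pot σ x)) := i12.add i3
    unfold En
    simp_rw [e1]
    rw [integral_add i123 i4, integral_add i12 i3, integral_add i1 i2, integral_const_mul,
      integral_const_mul, integral_const_mul, integral_const_mul]
    unfold En at hs
    rw [hs]
    ring
  have h2 := hσ.psd hτ
  have h3 : a * b * (2 * En σ τ) ≤ a * b * (En σ σ + En τ τ) :=
    mul_le_mul_of_nonneg_left h2 (mul_nonneg ha hb)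
  rw [h1]
  have hb' : b = 1 - a := by linarith
  subst hb'
  nlinarith

theorem Ept_comb (z : ι → ℝ) (R : ι → V) {σ τ : V → ℝ} (hσ : TC σ) (hτ : TC τ) {a b : ℝ}
    (ha : 0 ≤ a) (hb : 0 ≤ b) (hab : a + b = 1) :
    Ept 0 z R (fun x => a * σ x + b * τ x) ≤ a * Ept 0 z R σ + b * Ept 0 z R τ := by
  have h1 := (hσ.comb hτ ha hb hab).2
  have h2 := hσ.En_comb hτ ha hb hab
  have h3 : ∑ i, z i * pot (fun x => a * σ x + b * τ x) (R i) =
      a * (∑ i, z i * pot σ (R i)) + b * (∑ i, z i * pot τ (R i)) := by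
    rw [Finset.mul_sum, Finset.mul_sum, ← Finset.sum_add_distrib]
    refine Finset.sum_congr rfl fun i _ => ?_
    rw [hσ.pot_comb hτ]
    ring
  unfold Ept
  rw [h3]
  have hU : Unuc z R = a * Unuc z R + b * Unuc z R := by rw [← add_mul, hab, one_mul]
  have e1 : a * (3 / 5 * (∫ x, σ x ^ (5 / 3 : ℝ)) + 0 * (∫ x, σ x) - (∑ i, z i * pot σ (R i)) +
      1 / 2 * En σ σ + Unuc z R) + b * (3 / 5 * (∫ x, τ x ^ (5 / 3 : ℝ)) + 0 * (∫ x, τ x) -
      (∑ i, z i * pot τ (R i)) + 1 / 2 * En τ τ + Unuc z R) =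
      3 / 5 * (a * (∫ x, σ x ^ (5 / 3 : ℝ)) + b * (∫ x, τ x ^ (5 / 3 : ℝ))) -
      (a * (∑ i, z i * pot σ (R i)) + b * (∑ i, z i * pot τ (R i))) +
      1 / 2 * (a * En σ σ + b * En τ τ) + (a * Unuc z R + b * Unuc z R) := by ring
  rw [e1, ← hU]
  linarith

/-! ### scaling and the upper bound -/

theorem integral_smul3 {s : ℝ} (hs : 0 < s) (F : V → ℝ) :
    ∫ x, F (s • x) = (s ^ 3)⁻¹ * ∫ x, F x := by
  have h := Measure.integral_comp_smul_of_nonneg (volume : Measure V) F s (hR := hs.le)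
  rw [hd.out] at h
  rw [h, smul_eq_mul]

/-- rescaled density -/
noncomputable def scl (s : ℝ) (h : V → ℝ) (x : V) : ℝ := s ^ 3 * h (s • x)

theorem pot_scl {s : ℝ} (hs : 0 < s) (h : V → ℝ) (x : V) :
    pot (scl s h) x = s * pot h (s • x) := by
  unfold pot scl
  have e1 : ∀ y, ‖x - y‖⁻¹ * (s ^ 3 * h (s • y)) =
      s ^ 4 * (fun y => ‖s • x - y‖⁻¹ * h y) (s • y) := by
    intro y
    simp only
    rw [← smul_sub, norm_smul, Real.norm_of_nonneg hs.le, mul_inv]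
    field_simp
  simp_rw [e1]
  rw [integral_const_mul, integral_smul3 hs (fun y => ‖s • x - y‖⁻¹ * h y)]
  field_simp

theorem TC.scl {s : ℝ} (hs : 0 < s) {h : V → ℝ} (hh : TC h) : TC (scl s h) := by
  refine ⟨(hh.meas.comp (measurable_const_smul s)).const_mul _,
    fun x => mul_nonneg (by positivity) (hh.nonneg _), ?_, ?_⟩
  · exact ((integrable_comp_smul_iff volume h hs.ne').mpr hh.int).const_mul _
  · have h1 := ((integrable_comp_smul_iff volume (fun x => h x ^ (5 / 3 : ℝ)) hs.ne').mpr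
      hh.int53).const_mul ((s ^ 3) ^ (5 / 3 : ℝ))
    refine h1.congr (Eventually.of_forall fun x => ?_)
    simp only [Pool.Agent.TF.scl]
    rw [Real.mul_rpow (by positivity) (hh.nonneg _)]

theorem rpow_35 {s : ℝ} (hs : 0 < s) : (s ^ 3) ^ (5 / 3 : ℝ) = s ^ 5 := by
  rw [← Real.rpow_natCast, ← Real.rpow_mul hs.le, ← Real.rpow_natCast]
  norm_num

theorem Ept_scl_le {z : ι → ℝ} (hz : ∀ i, 0 ≤ z i) (R : ι → V) {s : ℝ} (hs : 0 < s) (hs1 : s ≤ 1)
    {h : V → ℝ} (hh : TC h) :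
    Ept 0 z R (scl s h) ≤ Unuc z R + s * (3 / 5 * (∫ x, h x ^ (5 / 3 : ℝ)) + 1 / 2 * En h h) := by
  have h1 : ∫ x, scl s h x ^ (5 / 3 : ℝ) = s ^ 2 * ∫ x, h x ^ (5 / 3 : ℝ) := by
    have e1 : ∀ x, scl s h x ^ (5 / 3 : ℝ) = s ^ 5 * (fun x => h x ^ (5 / 3 : ℝ)) (s • x) := by
      intro x
      simp only [scl]
      rw [Real.mul_rpow (by positivity) (hh.nonneg _), rpow_35 hs]
    simp_rw [e1]
    rw [integral_const_mul, integral_smul3 hs (fun x => h x ^ (5 / 3 : ℝ))]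
    field_simp
  have h2 : En (scl s h) (scl s h) = s * En h h := by
    unfold En
    have e1 : ∀ x, scl s h x * pot (scl s h) x = s ^ 4 * (fun x => h x * pot h x) (s • x) := by
      intro x
      rw [pot_scl hs]
      simp only [scl]
      ring
    simp_rw [e1]
    rw [integral_const_mul, integral_smul3 hs (fun x => h x * pot h x)]
    field_simp
  have h3 : 0 ≤ ∑ i, z i * pot (scl s h) (R i) :=
    Finset.sum_nonneg fun i _ => mul_nonneg (hz i) (pot_nonneg (hh.scl hs).nonneg _)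
  unfold Ept
  rw [h1, h2]
  have hT0 : 0 ≤ ∫ x, h x ^ (5 / 3 : ℝ) := integral_nonneg fun x => Real.rpow_nonneg (hh.nonneg x) _
  have h4 : s ^ 2 * (∫ x, h x ^ (5 / 3 : ℝ)) ≤ s * ∫ x, h x ^ (5 / 3 : ℝ) := by
    refine mul_le_mul_of_nonneg_right ?_ hT0
    nlinarith
  linarith

theorem exists_mass {lam : ℝ} (hl : 0 ≤ lam) : ∃ h : V → ℝ, TC h ∧ ∫ x, h x = lam := by
  set b : V → ℝ := (ball (0 : V) 1).indicator fun _ => 1 with hb
  have hvol : 0 < volume.real (ball (0 : V) 1) := by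
    rw [Measure.real, ENNReal.toReal_pos_iff]
    exact ⟨measure_ball_pos _ _ one_pos, measure_ball_lt_top⟩
  have hbc : BC b := by
    refine ⟨measurable_const.indicator measurableSet_ball, ⟨1, fun x => ?_⟩, ⟨1, fun x hx => ?_⟩⟩
    · rw [hb]
      by_cases h : x ∈ ball (0 : V) 1
      · rw [indicator_of_mem h]; simp
      · rw [indicator_of_notMem h]; simp
    · rw [hb, indicator_of_notMem]
      simpa using hx
  have hint : ∫ x, b x = volume.real (ball (0 : V) 1) := by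
    rw [hb, integral_indicator measurableSet_ball]
    simp
  refine ⟨fun x => lam / volume.real (ball (0 : V) 1) * b x, (hbc.const_mul _).toTC fun x =>
    mul_nonneg (div_nonneg hl hvol.le) ?_, ?_⟩
  · exact indicator_nonneg (fun _ _ => zero_le_one) _
  · rw [integral_const_mul, hint]
    field_simp

theorem scl_mass {s : ℝ} (hs : 0 < s) (h : V → ℝ) : ∫ x, scl s h x = ∫ x, h x := by
  unfold scl
  rw [integral_const_mul, integral_smul3 hs h]
  field_simp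

theorem Ept_upper {z : ι → ℝ} (hz : ∀ i, 0 ≤ z i) (R : ι → V) {lam : ℝ} (hl : 0 ≤ lam) :
    ∃ σ : V → ℝ, TC σ ∧ ∫ x, σ x = lam ∧ Ept 0 z R σ ≤ Unuc z R + 1 := by
  obtain ⟨h, hh, hm⟩ := exists_mass (V := V) hl
  set A : ℝ := 3 / 5 * (∫ x, h x ^ (5 / 3 : ℝ)) + 1 / 2 * En h h with hA
  have hA0 : 0 ≤ A := by
    have h1 : 0 ≤ ∫ x, h x ^ (5 / 3 : ℝ) :=
      integral_nonneg fun x => Real.rpow_nonneg (hh.nonneg x) _
    have h2 := hh.En_nonneg hh
    rw [hA]; positivity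
  have hs : 0 < 1 / (1 + A) := by positivity
  have hs1 : 1 / (1 + A) ≤ 1 := by
    rw [div_le_one (by linarith)]; linarith
  refine ⟨scl (1 / (1 + A)) h, hh.scl hs, (scl_mass hs h).trans hm, ?_⟩
  refine (Ept_scl_le hz R hs hs1 hh).trans ?_
  rw [← hA]
  have : 1 / (1 + A) * A ≤ 1 := by
    rw [one_div, inv_mul_le_iff₀ (by linarith)]
    linarith
  linarith

/-! ### the energy at fixed mass -/

/-- values of the functional at mass `lam` -/
def SS (z : ι → ℝ) (R : ι → V) (lam : ℝ) : Set ℝ :=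
  {t | ∃ σ : V → ℝ, TC σ ∧ ∫ x, σ x = lam ∧ Ept 0 z R σ = t}

/-- energy at fixed mass -/
noncomputable def eTF (z : ι → ℝ) (R : ι → V) (lam : ℝ) : ℝ := sInf (SS z R lam)

theorem SS_bdd {z : ι → ℝ} (hz : ∀ i, 0 ≤ z i) (R : ι → V) (lam : ℝ) :
    BddBelow (SS z R lam) := by
  obtain ⟨C, hC⟩ := Ept_lower hz R
  refine ⟨-((∑ i, z i) * lam) - C, ?_⟩
  rintro t ⟨σ, hσ, hm, rfl⟩
  have := hC σ hσ
  rwa [hm] at this

theorem SS_nonempty {z : ι → ℝ} (hz : ∀ i, 0 ≤ z i) (R : ι → V) {lam : ℝ} (hl : 0 ≤ lam) :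
    (SS z R lam).Nonempty := by
  obtain ⟨σ, hσ, hm, -⟩ := Ept_upper hz R hl
  exact ⟨_, σ, hσ, hm, rfl⟩

theorem eTF_le {z : ι → ℝ} (hz : ∀ i, 0 ≤ z i) (R : ι → V) {σ : V → ℝ} (hσ : TC σ) :
    eTF z R (∫ x, σ x) ≤ Ept 0 z R σ := csInf_le (SS_bdd hz R _) ⟨σ, hσ, rfl, rfl⟩

theorem eTF_upper {z : ι → ℝ} (hz : ∀ i, 0 ≤ z i) (R : ι → V) {lam : ℝ} (hl : 0 ≤ lam) :
    eTF z R lam ≤ Unuc z R + 1 := by
  obtain ⟨σ, hσ, hm, h⟩ := Ept_upper hz R hl
  have := eTF_le hz R hσ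
  rw [hm] at this
  exact this.trans h

theorem exists_near {z : ι → ℝ} (hz : ∀ i, 0 ≤ z i) (R : ι → V) {lam : ℝ} (hl : 0 ≤ lam)
    {η : ℝ} (hη : 0 < η) : ∃ σ : V → ℝ, TC σ ∧ ∫ x, σ x = lam ∧ Ept 0 z R σ < eTF z R lam + η := by
  obtain ⟨t, ⟨σ, hσ, hm, rfl⟩, h⟩ := exists_lt_of_csInf_lt (SS_nonempty hz R hl)
    (lt_add_of_pos_right (sInf (SS z R lam)) hη)
  exact ⟨σ, hσ, hm, h⟩

theorem eTF_convex {z : ι → ℝ} (hz : ∀ i, 0 ≤ z i) (R : ι → V) :
    ConvexOn ℝ (Ici 0) (eTF z R) := by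
  refine ⟨convex_Ici 0, fun x hx y hy a b ha hb hab => ?_⟩
  simp only [smul_eq_mul]
  refine le_of_forall_pos_le_add fun η hη => ?_
  obtain ⟨σ, hσ, hm, h1⟩ := exists_near hz R (mem_Ici.mp hx) hη
  obtain ⟨τ, hτ, hm', h2⟩ := exists_near hz R (mem_Ici.mp hy) hη
  have h3 := eTF_le hz R (hσ.comb hτ ha hb hab).1
  rw [integral_add (hσ.int.const_mul a) (hτ.int.const_mul b), integral_const_mul,
    integral_const_mul, hm, hm'] at h3
  have h4 := Ept_comb z R hσ hτ ha hb hab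
  have h5 : a * Ept 0 z R σ + b * Ept 0 z R τ ≤ a * (eTF z R x + η) + b * (eTF z R y + η) :=
    add_le_add (mul_le_mul_of_nonneg_left h1.le ha) (mul_le_mul_of_nonneg_left h2.le hb)
  have h6 : a * (eTF z R x + η) + b * (eTF z R y + η) =
      a * eTF z R x + b * eTF z R y + (a + b) * η := by ring
  rw [h6, hab, one_mul] at h5
  linarith

theorem Ept_eq (φ₀ : ℝ) (z : ι → ℝ) (R : ι → V) (σ : V → ℝ) :
    Ept φ₀ z R σ = Ept 0 z R σ + φ₀ * ∫ x, σ x := by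
  unfold Ept; ring

theorem Unuc_smul {z : ι → ℝ} (R : ι → V) {θ : ℝ} (hθ : 0 < θ) :
    Unuc z (fun i => θ • R i) = θ⁻¹ * Unuc z R := by
  have h : ∀ i j, z i * z j * ‖θ • R i - θ • R j‖⁻¹ = θ⁻¹ * (z i * z j * ‖R i - R j‖⁻¹) := by
    intro i j
    rw [← smul_sub, norm_smul, Real.norm_of_nonneg hθ.le, mul_inv]
    ring
  unfold Unuc
  simp_rw [h, ← Finset.mul_sum]
  ring

theorem Ept_zero_mass (z : ι → ℝ) (R : ι → V) {σ : V → ℝ} (hσ : TC σ) (h0 : ∫ x, σ x = 0) :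
    Ept 0 z R σ = Unuc z R := by
  have h1 : σ =ᵐ[volume] 0 := (integral_eq_zero_iff_of_nonneg hσ.nonneg hσ.int).mp h0
  have h2 : pot σ = pot (0 : V → ℝ) := pot_congr_ae h1
  have h3 : ∀ x, pot σ x = 0 := fun x => by rw [h2]; simp [pot]
  have h4 : ∫ x, σ x ^ (5 / 3 : ℝ) = 0 := by
    have : (fun x => σ x ^ (5 / 3 : ℝ)) =ᵐ[volume] fun _ => 0 := by
      filter_upwards [h1] with x hx
      rw [hx]
      simp [Real.zero_rpow]
    rw [integral_congr_ae this, integral_zero]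
  unfold Ept En
  simp [h3, h4]

/-- the Thomas-Fermi energy does not increase when the nuclei are dilated -/
theorem eTF_dilate {z : ι → ℝ} (hz : ∀ i, 0 ≤ z i) {R : ι → V} (hR : Function.Injective R)
    {θ : ℝ} (hθ : 1 ≤ θ) {lam : ℝ} (hl : 0 ≤ lam) :
    eTF z (fun i => θ • R i) lam ≤ eTF z R lam := by
  have hθ0 : 0 < θ := by linarith
  refine le_csInf (SS_nonempty hz R hl) ?_
  rintro t ⟨σ, hσ, hm, rfl⟩
  rcases hl.eq_or_lt with h0 | h0
  · -- no electrons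
    subst h0
    obtain ⟨τ, hτ, hmτ⟩ := exists_mass (V := V) (le_refl (0 : ℝ))
    have h1 := eTF_le hz (fun i => θ • R i) hτ
    rw [hmτ, Ept_zero_mass z _ hτ hmτ, Unuc_smul R hθ0] at h1
    rw [Ept_zero_mass z R hσ hm]
    refine h1.trans ?_
    have h2 := Unuc_nonneg hz R
    have h3 : θ⁻¹ ≤ 1 := inv_le_one_of_one_le₀ hθ
    nlinarith
  · obtain ⟨p, hp, hslope⟩ := exists_slope (eTF_convex hz (fun i => θ • R i))
      (C := Unuc z (fun i => θ • R i) + 1) (fun y hy => eTF_upper hz _ hy) h0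
    refine le_of_forall_pos_le_add fun ε hε => ?_
    set η : ℝ := ε / (lam + 1) with hη
    have hη0 : 0 < η := div_pos hε (by linarith)
    obtain ⟨σ', hσ', h1⟩ := dilate hz hR hθ (φ₀ := p + η) (by linarith) hσ hη0
    rw [Ept_eq, Ept_eq (p + η) z R σ, hm] at h1
    have h2 := eTF_le hz (fun i => θ • R i) hσ'
    have hy0 : 0 ≤ ∫ x, σ' x := integral_nonneg hσ'.nonneg
    have h3 := hslope (∫ x, σ' x) hy0
    have h4 : η * (lam + 1) = ε := by
      rw [hη]; field_simp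
    have h5 : 0 ≤ η * ∫ x, σ' x := mul_nonneg hη0.le hy0
    nlinarith

end dim3

end Pool.Agent.TF
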