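import Pool.Agent.Lib.MP_9cf0c9_mp.Pieces
import Pool.Agent.Lib.MP_9cf0c9_mp.CalibEnds

/-! Equal charges: the radius function of the one-centre solutions (abstract properties). -/

set_option linter.unusedSectionVars false
set_option linter.unusedVariables false
set_option linter.style.haveILetI false

namespace Pool.Agent.TF
open MeasureTheory Set Metric Filter Topology
open scoped ENNReal NNReal RealInnerProductSpace Gradient

/-- the half plane `G > 0` -/
def HP : Set (ℝ × ℝ) := {q | 0 < q.2}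

theorem isOpen_HP : IsOpen HP := isOpen_lt continuous_const continuous_snd

/-- Properties of the radius `s p G` at which the one-centre solution of charge `z` with value `p`
has slope `-G`, up to the error `e`. -/
structure RadFn (z G₁ : ℝ) (s sp sG e : ℝ → ℝ → ℝ) : Prop where
  c1 : C1On HP s sp sG
  pos : ∀ p G, 0 < G → 0 < s p G
  mass : ∀ p G, 0 < G → s p G ^ 2 * G ≤ z
  sp_le : ∀ p G, 0 < G → sp p G ≤ 0
  sp_ge : ∀ p G, 0 < G → -1 ≤ G * sp p G
  sG_le : ∀ p G, 0 < G → sG p G ≤ 0
  sG_ge : ∀ p G, 0 < G → -(1 / 2) * s p G ≤ G * sG p G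
  near : ∀ p G, 0 < G → G₁ ≤ G → s p G = √(z / G)
  near_p : ∀ p G, 0 < G → G₁ ≤ G → sp p G = 0
  near_G : ∀ p G, 0 < G → G₁ ≤ G → G * sG p G = -(1 / 2) * s p G
  res : ∀ p G, 0 < G →
    |1 + G * sp p G + (2 * G / s p G + 4 * Real.pi * tf p) * sG p G| ≤ e p G

/-- the error function of the start radius `r₁` -/
noncomputable def eRad (r₁ : ℝ) (s : ℝ → ℝ → ℝ) (p G : ℝ) : ℝ :=
  if s p G ≤ 2 * r₁ then s p G * (4 * Real.pi * tf p) / (2 * G) else 0

end Pool.Agent.TF
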