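import Pool.Agent.Lib.MP_9cf0c9_mp.Riesz

/-! Existence for the Thomas-Fermi equation by a contraction argument. -/

set_option linter.unusedSectionVars false
set_option linter.unusedVariables false
set_option linter.style.haveILetI false

namespace Pool.Agent.TF
open MeasureTheory Set Metric Filter Topology
open scoped ENNReal NNReal RealInnerProductSpace

/-- `v ↦ v_+^{3/2}` -/
noncomputable def tf (v : ℝ) : ℝ := max v 0 * √(max v 0)

theorem tf_nonneg (v : ℝ) : 0 ≤ tf v := by unfold tf; positivity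

theorem tf_of_nonpos {v : ℝ} (hv : v ≤ 0) : tf v = 0 := by
  unfold tf; rw [max_eq_right hv]; simp

theorem tf_mono : Monotone tf := by
  intro a b hab
  unfold tf
  have h := max_le_max_right 0 hab
  have h2 := Real.sqrt_le_sqrt h
  exact mul_le_mul h h2 (Real.sqrt_nonneg _) (le_max_right _ _)

theorem tf_continuous : Continuous tf := by unfold tf; fun_prop

/-- truncated version -/
noncomputable def tfM (M v : ℝ) : ℝ := tf (min v M)

theorem tfM_continuous (M : ℝ) : Continuous (tfM M) := by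
  unfold tfM
  exact tf_continuous.comp (by fun_prop)

theorem tfM_nonneg (M v : ℝ) : 0 ≤ tfM M v := tf_nonneg _

theorem tfM_le (M v : ℝ) : tfM M v ≤ tf M := tf_mono (min_le_right _ _)

theorem tf_lip {M a b : ℝ} (hM : 0 ≤ M) (hab : a ≤ b) (hb : b ≤ M) :
    tf b - tf a ≤ 2 * √M * (b - a) := by
  unfold tf
  set s := max a 0 with hs
  set t := max b 0 with ht
  have hst : s ≤ t := max_le_max_right 0 hab
  have hs0 : 0 ≤ s := le_max_right _ _
  have ht0 : 0 ≤ t := le_max_right _ _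
  have htM : t ≤ M := max_le hb hM
  have hd : t - s ≤ b - a := by
    rw [ht, hs]
    rcases le_total b 0 with h | h
    · rw [max_eq_right h, max_eq_right (hab.trans h)]; linarith
    · rw [max_eq_left h]
      have := le_max_left a 0
      linarith
  have e1 : √s ≤ √t := Real.sqrt_le_sqrt hst
  have e2 : √t ≤ √M := Real.sqrt_le_sqrt htM
  have e3 : √s * √s = s := Real.mul_self_sqrt hs0
  have e4 : √t * √t = t := Real.mul_self_sqrt ht0
  have e5 : 0 ≤ √s := Real.sqrt_nonneg _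
  have e6 : 0 ≤ √M := Real.sqrt_nonneg _
  have h1 : (t - s) * √t ≤ (t - s) * √M := mul_le_mul_of_nonneg_left e2 (by linarith)
  have h2 : s * (√t - √s) ≤ √M * (t - s) := by
    have h3 : s * (√t - √s) = √s * (√s * (√t - √s)) := by rw [← mul_assoc, e3]
    have h4 : √s * (√t - √s) ≤ (√t + √s) * (√t - √s) := by
      refine mul_le_mul_of_nonneg_right ?_ (by linarith)
      have := Real.sqrt_nonneg t
      linarith
    have h5 : (√t + √s) * (√t - √s) = t - s := by linear_combination e4 - e3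
    calc s * (√t - √s) = √s * (√s * (√t - √s)) := h3
      _ ≤ √s * (t - s) := mul_le_mul_of_nonneg_left (by linarith) e5
      _ ≤ √M * (t - s) := mul_le_mul_of_nonneg_right (e1.trans e2) (by linarith)
  have h6 : t * √t - s * √s = (t - s) * √t + s * (√t - √s) := by ring
  rw [h6]
  have h7 : √M * (t - s) ≤ √M * (b - a) := mul_le_mul_of_nonneg_left hd e6
  linarith only [h1, h2, h7]

theorem tfM_coc {M : ℝ} (hM : 0 ≤ M) (a b : ℝ) :
    (tfM M a - tfM M b) ^ 2 ≤ 2 * √M * ((tfM M a - tfM M b) * (a - b)) := by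
  have key : ∀ a b : ℝ, a ≤ b →
      (tfM M b - tfM M a) ^ 2 ≤ 2 * √M * ((tfM M b - tfM M a) * (b - a)) := by
    intro a b hab
    have h0 : 0 ≤ tfM M b - tfM M a := sub_nonneg.mpr (tf_mono (min_le_min_right M hab))
    have h1 : tfM M b - tfM M a ≤ 2 * √M * (min b M - min a M) :=
      tf_lip hM (min_le_min_right M hab) (min_le_right _ _)
    have h2 : min b M - min a M ≤ b - a := by
      rcases le_total b M with h | h
      · rw [min_eq_left h, min_eq_left (hab.trans h)]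
      · rw [min_eq_right h]
        rcases le_total a M with h' | h'
        · rw [min_eq_left h']; linarith
        · rw [min_eq_right h']; linarith
    have h3 : tfM M b - tfM M a ≤ 2 * √M * (b - a) :=
      h1.trans (mul_le_mul_of_nonneg_left h2 (by positivity))
    linarith only [mul_le_mul_of_nonneg_left h3 h0]
  rcases le_total a b with h | h
  · have := key a b h
    linarith only [this]
  · exact key b a h

variable {V : Type*} [NormedAddCommGroup V] [InnerProductSpace ℝ V] [FiniteDimensional ℝ V]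
  [MeasurableSpace V] [BorelSpace V] [hd : Fact (Module.finrank ℝ V = 3)]

/-- the operator `f ↦ N f - a (N f) ∘ θ` -/
noncomputable def kop (a : ℝ) (θ : V ≃ₗᵢ[ℝ] V) (f : V → ℝ) (x : V) : ℝ :=
  pot f x - a * pot f (θ x)

/-- its quadratic form -/
noncomputable def Qf (a : ℝ) (θ : V ≃ₗᵢ[ℝ] V) (f g : V → ℝ) : ℝ := ∫ x, f x * kop a θ g x

theorem kop_continuous (a : ℝ) (θ : V ≃ₗᵢ[ℝ] V) {f : V → ℝ} (hf : BC f) :
    Continuous (kop a θ f) := by
  unfold kop
  exact (pot_continuous hf).sub (continuous_const.mul ((pot_continuous hf).comp θ.continuous))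

theorem Qf_eq (a : ℝ) (θ : V ≃ₗᵢ[ℝ] V) {f g : V → ℝ} (hf : BC f) (hg : BC g) :
    Qf a θ f g = En f g - a * En f (fun x => g (θ x)) := by
  unfold Qf kop En
  rw [← integral_const_mul, ← integral_sub (En_integrable hf hg)
    ((En_integrable hf (hg.comp_isom θ)).const_mul a)]
  refine integral_congr_ae (Eventually.of_forall fun x => ?_)
  simp only
  rw [pot_comp_isom]; ring

theorem kop_add (a : ℝ) (θ : V ≃ₗᵢ[ℝ] V) {f g : V → ℝ} (hf : BC f) (hg : BC g) (x : V) :
    kop a θ (fun y => f y + g y) x = kop a θ f x + kop a θ g x := by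
  unfold kop
  rw [pot_add hf hg, pot_add hf hg]; ring

theorem kop_sub (a : ℝ) (θ : V ≃ₗᵢ[ℝ] V) {f g : V → ℝ} (hf : BC f) (hg : BC g) (x : V) :
    kop a θ (fun y => f y - g y) x = kop a θ f x - kop a θ g x := by
  unfold kop
  rw [pot_sub hf hg, pot_sub hf hg]; ring

theorem kop_const_mul (a : ℝ) (θ : V ≃ₗᵢ[ℝ] V) (c : ℝ) (f : V → ℝ) (x : V) :
    kop a θ (fun y => c * f y) x = c * kop a θ f x := by
  unfold kop
  rw [pot_const_mul, pot_const_mul]; ring

theorem Qf_integrable (a : ℝ) (θ : V ≃ₗᵢ[ℝ] V) {f g : V → ℝ} (hf : BC f) (hg : BC g) :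
    Integrable (fun x => f x * kop a θ g x) := by
  have : (fun x => f x * kop a θ g x) =
      fun x => f x * pot g x - a * (f x * pot (fun y => g (θ y)) x) := by
    funext x
    unfold kop
    rw [pot_comp_isom]; ring
  rw [this]
  exact (En_integrable hf hg).sub ((En_integrable hf (hg.comp_isom θ)).const_mul a)

theorem En_theta (θ : V ≃ₗᵢ[ℝ] V) (hθ : ∀ x, θ (θ x) = x) {f g : V → ℝ} (hf : BC f) (hg : BC g) :
    En f (fun x => g (θ x)) = En g (fun x => f (θ x)) := by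
  rw [← En_comp_isom θ f (fun x => g (θ x))]
  simp only [hθ]
  exact En_symm (hf.comp_isom θ) hg

theorem Qf_symm (a : ℝ) (θ : V ≃ₗᵢ[ℝ] V) (hθ : ∀ x, θ (θ x) = x) {f g : V → ℝ}
    (hf : BC f) (hg : BC g) : Qf a θ f g = Qf a θ g f := by
  rw [Qf_eq a θ hf hg, Qf_eq a θ hg hf, En_symm hf hg, En_theta θ hθ hf hg]

theorem Qf_nonneg {a : ℝ} (ha0 : 0 ≤ a) (ha1 : a ≤ 1) (θ : V ≃ₗᵢ[ℝ] V) (hθ : ∀ x, θ (θ x) = x)
    {f : V → ℝ} (hf : BC f) : 0 ≤ Qf a θ f f := by
  rw [Qf_eq a θ hf hf]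
  have hft := hf.comp_isom θ
  have h1 : 0 ≤ En f f := En_nonneg hf
  have h2 : 0 ≤ En (fun x => f x - f (θ x)) (fun x => f x - f (θ x)) := En_nonneg (hf.sub hft)
  rw [En_sub_left hf hft (hf.sub hft), En_sub_right hf hf hft, En_sub_right hft hf hft,
    En_comp_isom θ f f, En_symm hft hf] at h2
  linarith only [mul_nonneg ha0 h2, mul_nonneg (sub_nonneg.2 ha1) h1]

/-- Schur bound -/
theorem En_schur {f g : V → ℝ} (hf : BC f) (hg : BC g) {R : ℝ}
    (hfR : ∀ x, R ≤ ‖x‖ → f x = 0) (hgR : ∀ x, R ≤ ‖x‖ → g x = 0) :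
    |En f g| ≤ cdom V R / 2 * ((∫ x, f x ^ 2) + ∫ x, g x ^ 2) := by
  set χ : V → ℝ := (ball (0 : V) R).indicator (fun _ => (1 : ℝ)) with hχ
  have hχ0 : ∀ x, 0 ≤ χ x := fun x => indicator_nonneg (fun _ _ => zero_le_one) _
  have hχ1 : ∀ x, |χ x| ≤ 1 := fun x => by
    rw [abs_of_nonneg (hχ0 x)]
    exact indicator_le_self' (fun _ _ => zero_le_one) _
  have hχs : ∀ x, R ≤ ‖x‖ → χ x = 0 := fun x hx => indicator_of_notMem (by simpa using hx) _
  have hχB : BC χ := ⟨measurable_const.indicator measurableSet_ball, ⟨1, hχ1⟩, ⟨R, hχs⟩⟩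
  have hsq : ∀ {h : V → ℝ}, BC h → BC (fun x => h x ^ 2) := by
    intro h hh
    obtain ⟨M, R', hM0, -, hM, hR'⟩ := hh.bounds
    refine ⟨hh.meas.pow_const 2, ⟨M ^ 2, fun x => ?_⟩, ⟨R', fun x hx => by rw [hR' x hx]; norm_num⟩⟩
    rw [abs_pow]
    exact pow_le_pow_left₀ (abs_nonneg _) (hM x) 2
  have hpχ : ∀ x, |pot χ x| ≤ cdom V R := by
    intro x
    refine (abs_integral_le_integral_abs).trans ?_
    have := ker_int_abs_le (V := V) (K := fun v => ‖v‖⁻¹) measurable_norm.inv (C := 1)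
      zero_le_one (fun v => by
        rw [abs_of_nonneg (by positivity), one_mul, ← inv_pow]
        nlinarith [sq_nonneg (‖v‖⁻¹ - 1)]) hχB.meas hχ1 hχs x
    simpa using this
  have hA : ∀ {h : V → ℝ}, BC h → En (fun x => h x ^ 2) χ ≤ cdom V R * ∫ x, h x ^ 2 := by
    intro h hh
    unfold En
    rw [← integral_const_mul]
    refine integral_mono (En_integrable (hsq hh) hχB) ((hsq hh).integrable.const_mul _) fun x => ?_
    simp only
    rw [mul_comm]
    exact mul_le_mul_of_nonneg_right ((le_abs_self _).trans (hpχ x)) (sq_nonneg _)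
  have hB : |En f g| ≤ 1 / 2 * (En (fun x => f x ^ 2) χ + En χ (fun x => g x ^ 2)) := by
    unfold En pot
    simp_rw [← integral_const_mul]
    rw [← integral_prod _ (ker_pot.integrable_prod hf hg),
      ← integral_prod _ (ker_pot.integrable_prod (hsq hf) hχB),
      ← integral_prod _ (ker_pot.integrable_prod hχB (hsq hg)),
      ← integral_add (ker_pot.integrable_prod (hsq hf) hχB)
        (ker_pot.integrable_prod hχB (hsq hg)), ← integral_const_mul]
    refine (abs_integral_le_integral_abs).trans ?_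
    refine integral_mono (ker_pot.integrable_prod hf hg).abs
      (((ker_pot.integrable_prod (hsq hf) hχB).add
        (ker_pot.integrable_prod hχB (hsq hg))).const_mul _) fun p => ?_
    simp only
    have hk : 0 ≤ ‖p.1 - p.2‖⁻¹ := by positivity
    rw [abs_mul, abs_mul, abs_of_nonneg hk]
    by_cases h1 : R ≤ ‖p.1‖
    · rw [hfR _ h1, abs_zero, zero_mul]
      have := hχ0 p.1
      have := hχ0 p.2
      positivity
    · by_cases h2 : R ≤ ‖p.2‖
      · rw [hgR _ h2, abs_zero, mul_zero, mul_zero]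
        have := hχ0 p.1
        have := hχ0 p.2
        positivity
      · have e1 : χ p.1 = 1 := indicator_of_mem (by simpa using h1) _
        have e2 : χ p.2 = 1 := indicator_of_mem (by simpa using h2) _
        rw [e1, e2, ← sq_abs (f p.1), ← sq_abs (g p.2)]
        linarith only [mul_nonneg hk (sq_nonneg (|f p.1| - |g p.2|))]
  have h1 := hA hf
  have h2 := hA hg
  rw [En_symm hχB (hsq hg)] at hB
  linarith

theorem Qf_schur {a : ℝ} (ha0 : 0 ≤ a) (ha1 : a ≤ 1) (θ : V ≃ₗᵢ[ℝ] V)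
    {f : V → ℝ} (hf : BC f) {R : ℝ}
    (hfR : ∀ x, R ≤ ‖x‖ → f x = 0) :
    Qf a θ f f ≤ 2 * cdom V R * ∫ x, f x ^ 2 := by
  rw [Qf_eq a θ hf hf]
  have h1 := En_schur hf hf hfR hfR
  have h2 := En_schur hf (hf.comp_isom θ) hfR (fun x hx => hfR _ (by rwa [θ.norm_map]))
  have h3 : ∫ x, (f (θ x)) ^ 2 = ∫ x, f x ^ 2 :=
    θ.measurePreserving.integral_comp θ.toMeasurableEquiv.measurableEmbedding (fun x => f x ^ 2)
  rw [h3] at h2
  have h4 := (abs_le.mp h1).2
  have h5 := (abs_le.mp h2).1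
  have h6 : 0 ≤ |En f (fun x => f (θ x))| := abs_nonneg _
  have h7 : 0 ≤ cdom V R / 2 * ((∫ x, f x ^ 2) + ∫ x, f x ^ 2) := h6.trans h2
  linarith only [h4, mul_le_mul_of_nonneg_left h5 ha0, mul_nonneg (sub_nonneg.2 ha1) h7, h7]

/-- the nonlinear map -/
noncomputable def Gop (a : ℝ) (θ : V ≃ₗᵢ[ℝ] V) (M : ℝ) (W : V → ℝ) (S : Set V) (f : V → ℝ) :
    V → ℝ := S.indicator (fun x => tfM M (W x - kop a θ f x))

theorem Gop_BC {a : ℝ} {θ : V ≃ₗᵢ[ℝ] V} {M : ℝ} {W : V → ℝ} (hW : Measurable W) {S : Set V}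
    (hS : MeasurableSet S) {R : ℝ} (hSR : S ⊆ ball 0 R) {f : V → ℝ} (hf : BC f) :
    BC (Gop a θ M W S f) := by
  refine ⟨?_, ⟨tf M, fun x => ?_⟩, ⟨R, fun x hx => ?_⟩⟩
  · exact ((tfM_continuous M).measurable.comp
      (hW.sub (kop_continuous a θ hf).measurable)).indicator hS
  · unfold Gop
    by_cases h : x ∈ S
    · rw [indicator_of_mem h, abs_of_nonneg (tfM_nonneg _ _)]; exact tfM_le _ _
    · rw [indicator_of_notMem h, abs_zero]; exact tf_nonneg _
  · unfold Gop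
    rw [indicator_of_notMem]
    intro h
    have := hSR h
    rw [mem_ball_zero_iff] at this
    linarith

theorem BC.sq {h : V → ℝ} (hh : BC h) : BC (fun x => h x ^ 2) := by
  obtain ⟨M, R', hM0, -, hM, hR'⟩ := hh.bounds
  refine ⟨hh.meas.pow_const 2, ⟨M ^ 2, fun x => ?_⟩, ⟨R', fun x hx => by rw [hR' x hx]; norm_num⟩⟩
  rw [abs_pow]
  exact pow_le_pow_left₀ (abs_nonneg _) (hM x) 2

theorem Qf_add_left (a : ℝ) (θ : V ≃ₗᵢ[ℝ] V) {f g h : V → ℝ} (hf : BC f) (hg : BC g)
    (hh : BC h) : Qf a θ (fun x => f x + g x) h = Qf a θ f h + Qf a θ g h := by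
  unfold Qf
  rw [← integral_add (Qf_integrable a θ hf hh) (Qf_integrable a θ hg hh)]
  exact integral_congr_ae (Eventually.of_forall fun y => by ring)

theorem Qf_mul_left (a : ℝ) (θ : V ≃ₗᵢ[ℝ] V) (c : ℝ) (f h : V → ℝ) :
    Qf a θ (fun x => c * f x) h = c * Qf a θ f h := by
  unfold Qf
  rw [← integral_const_mul]
  exact integral_congr_ae (Eventually.of_forall fun y => by ring)

/-- the contraction estimate -/
theorem contr {a : ℝ} (ha0 : 0 ≤ a) (ha1 : a ≤ 1) (θ : V ≃ₗᵢ[ℝ] V) (hθ : ∀ x, θ (θ x) = x)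
    {M : ℝ} {W : V → ℝ} (hW : Measurable W) {S : Set V}
    (hS : MeasurableSet S) {R : ℝ} (hSR : S ⊆ ball 0 R)
    {L : ℝ} (hL : 0 < L)
    (hcoc : ∀ u v, (tfM M u - tfM M v) ^ 2 ≤ L * ((tfM M u - tfM M v) * (u - v)))
    {τ : ℝ} (hτ0 : 0 < τ) (hτ1 : τ ≤ 1 / 2) (hτ2 : 2 * τ * (2 * cdom V R) * L ≤ 1)
    {f g : V → ℝ} (hf : BC f) (hg : BC g) {d' : V → ℝ}
    (hd' : ∀ x, d' x = (1 - τ) * (f x - g x) + τ * (Gop a θ M W S f x - Gop a θ M W S g x)) :
    (∫ x, d' x ^ 2) + 6 * L * Qf a θ d' d' ≤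
      (1 - τ) * ((∫ x, (f x - g x) ^ 2) +
        6 * L * Qf a θ (fun x => f x - g x) (fun x => f x - g x)) := by
  set F := Gop a θ M W S f with hF
  set G := Gop a θ M W S g with hG
  have hFB : BC F := Gop_BC hW hS hSR hf
  have hGB : BC G := Gop_BC hW hS hSR hg
  set d : V → ℝ := fun x => f x - g x with hd
  set e : V → ℝ := fun x => F x - G x with he
  have hdB : BC d := hf.sub hg
  have heB : BC e := hFB.sub hGB
  have heR : ∀ x, R ≤ ‖x‖ → e x = 0 := by
    intro x hx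
    have hx' : x ∉ S := fun h => by
      have := hSR h
      rw [mem_ball_zero_iff] at this
      linarith
    simp only [he, hF, hG, Gop, indicator_of_notMem hx', sub_self]
  have hd'e : d' = fun x => (1 - τ) * d x + τ * e x := by
    funext x; rw [hd']
  have hA : BC (fun x => (1 - τ) * d x) := hdB.const_mul _
  have hB : BC (fun x => τ * e x) := heB.const_mul _
  have hd'B : BC d' := by rw [hd'e]; exact hA.add hB
  -- (iii)
  have h3 : ∫ x, e x ^ 2 ≤ -(L * Qf a θ e d) := by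
    unfold Qf
    rw [← integral_const_mul, ← integral_neg]
    refine integral_mono heB.sq.integrable
      (((Qf_integrable a θ heB hdB).const_mul L).neg) fun x => ?_
    simp only
    by_cases hx : x ∈ S
    · have e1 : e x = tfM M (W x - kop a θ f x) - tfM M (W x - kop a θ g x) := by
        simp only [he, hF, hG, Gop, indicator_of_mem hx]
      have e2 := hcoc (W x - kop a θ f x) (W x - kop a θ g x)
      have e3 : kop a θ d x = kop a θ f x - kop a θ g x := kop_sub a θ hf hg x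
      rw [e3, e1]
      linarith
    · have e1 : e x = 0 := by simp only [he, hF, hG, Gop, indicator_of_notMem hx, sub_self]
      rw [e1]; simp
  -- (ii)
  have h2 : Qf a θ d' d' = (1 - τ) ^ 2 * Qf a θ d d + 2 * τ * (1 - τ) * Qf a θ e d +
      τ ^ 2 * Qf a θ e e := by
    have e1 : Qf a θ d' d' = (1 - τ) * Qf a θ d d' + τ * Qf a θ e d' := by
      nth_rewrite 1 [hd'e]
      rw [Qf_add_left a θ hA hB hd'B, Qf_mul_left, Qf_mul_left]
    have e2 : ∀ {h : V → ℝ}, BC h → Qf a θ h d' = (1 - τ) * Qf a θ d h + τ * Qf a θ e h := by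
      intro h hh
      rw [Qf_symm a θ hθ hh hd'B, hd'e, Qf_add_left a θ hA hB hh, Qf_mul_left, Qf_mul_left]
    rw [e1, e2 hdB, e2 heB, Qf_symm a θ hθ hdB heB]
    ring
  -- (i)
  have h1 : ∫ x, d' x ^ 2 ≤ (1 - τ) ^ 2 * (∫ x, d x ^ 2) + τ * (1 / 2 * (∫ x, d x ^ 2) +
      2 * ∫ x, e x ^ 2) + τ ^ 2 * ∫ x, e x ^ 2 := by
    have e1 : (1 - τ) ^ 2 * (∫ x, d x ^ 2) + τ * (1 / 2 * (∫ x, d x ^ 2) +
      2 * ∫ x, e x ^ 2) + τ ^ 2 * ∫ x, e x ^ 2 =
        ∫ x, (((1 - τ) ^ 2 + τ / 2) * d x ^ 2 + (2 * τ + τ ^ 2) * e x ^ 2) := by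
      rw [integral_add (hdB.sq.integrable.const_mul _) (heB.sq.integrable.const_mul _),
        integral_const_mul, integral_const_mul]
      ring
    rw [e1]
    refine integral_mono hd'B.sq.integrable
      ((hdB.sq.integrable.const_mul _).add (heB.sq.integrable.const_mul _)) fun x => ?_
    simp only [hd'e, Pi.add_apply]
    linarith only [mul_nonneg hτ0.le (sq_nonneg (d x - 2 * (1 - τ) * e x)),
      mul_nonneg (mul_nonneg hτ0.le hτ0.le) (sq_nonneg (e x)),
      mul_nonneg (mul_nonneg (mul_nonneg hτ0.le hτ0.le)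
        (by linarith only [hτ1] : (0 : ℝ) ≤ 1 - τ)) (sq_nonneg (e x))]
  have h4 : Qf a θ e e ≤ 2 * cdom V R * ∫ x, e x ^ 2 := Qf_schur ha0 ha1 θ heB heR
  have hE : 0 ≤ ∫ x, e x ^ 2 := integral_nonneg fun x => sq_nonneg _
  have hD : 0 ≤ ∫ x, d x ^ 2 := integral_nonneg fun x => sq_nonneg _
  have hQ : 0 ≤ Qf a θ d d := Qf_nonneg ha0 ha1 θ hθ hdB
  generalize (∫ x, e x ^ 2) = E2 at *
  generalize (∫ x, d x ^ 2) = D2 at *
  generalize Qf a θ e d = Qed at *
  generalize Qf a θ e e = Qee at *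
  generalize Qf a θ d d = Qdd at *
  rw [h2]
  have k1 : 0 ≤ τ * (1 - τ) := mul_nonneg hτ0.le (by linarith)
  have k2 : 12 * (τ * (1 - τ)) * (L * Qed) ≤ 12 * (τ * (1 - τ)) * (-E2) :=
    mul_le_mul_of_nonneg_left (by linarith) (by linarith)
  have k3 : 6 * L * (τ ^ 2 * Qee) ≤ 6 * L * (τ ^ 2 * (2 * cdom V R * E2)) := by
    have : 0 ≤ 6 * L * τ ^ 2 := by positivity
    linarith only [mul_le_mul_of_nonneg_left h4 this]
  have k4 : 6 * L * (τ ^ 2 * (2 * cdom V R * E2)) ≤ 3 * τ * E2 := by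
    have : 0 ≤ 3 * τ * E2 := by positivity
    linarith only [mul_le_mul_of_nonneg_right hτ2 this]
  have k0 : 0 ≤ τ * (1 / 2 - τ) := mul_nonneg hτ0.le (by linarith only [hτ1])
  have k5 : (1 - τ) ^ 2 + τ / 2 ≤ 1 - τ := by linarith only [k0]
  have k6 : 6 * τ * E2 ≤ 12 * (τ * (1 - τ)) * E2 := by
    have : 6 * τ ≤ 12 * (τ * (1 - τ)) := by linarith only [k0]
    exact mul_le_mul_of_nonneg_right this hE
  have k7 : τ ^ 2 * E2 ≤ τ / 2 * E2 := mul_le_mul_of_nonneg_right (by linarith only [k0]) hE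
  have k8 : ((1 - τ) ^ 2 + τ / 2) * D2 ≤ (1 - τ) * D2 := mul_le_mul_of_nonneg_right k5 hD
  have k9 : (1 - τ) ^ 2 * (6 * L * Qdd) ≤ (1 - τ) * (6 * L * Qdd) :=
    mul_le_mul_of_nonneg_right (by linarith only [k0, hτ0]) (by positivity)
  have k10 : 0 ≤ τ * E2 := by positivity
  linarith only [h1, k2, k3, k4, k6, k7, k8, k9, k10]

end Pool.Agent.TF
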