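import Pool.Agent.Lib.MP_9cf0c9_mp.EqDefs

/-! Inversion of a family of radial solutions.  `p l r` is the potential and `q l r` the charge
of the solution with label `l` at the radius `r`.  For every value `P` and every slope `G > 0`
exactly one solution passes through `P` with the slope `-G`; the radius `s P G` is a `C¹`
function which satisfies the equation of a first integral. -/

set_option autoImplicit false
set_option linter.unusedSectionVars false
set_option linter.unusedVariables false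
set_option linter.style.haveILetI false

namespace Pool.Agent.TF
open MeasureTheory Set Metric Filter Topology

/-- a family of radial solutions -/
structure Fan (z r₁ : ℝ) (p q u k Rt : ℝ → ℝ → ℝ) : Prop where
  cp : C1On HP p u (fun l r => -(q l r / r ^ 2))
  cq : C1On HP q k (fun l r => -(r ^ 2 * Rt r (p l r)))
  u1 : ∀ l r, 0 < r → 1 ≤ u l r
  k0 : ∀ l r, 0 < r → k l r ≤ 0
  R0 : ∀ r t, 0 ≤ Rt r t
  qz : ∀ l r, 0 < r → q l r ≤ z
  q1 : ∀ l r, 0 < r → r ≤ r₁ → q l r = z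
  k1 : ∀ l r, 0 < r → r ≤ r₁ → k l r = 0
  R1 : ∀ r t, r ≤ r₁ → Rt r t = 0

namespace Fan
variable {z r₁ : ℝ} {p q u k Rt : ℝ → ℝ → ℝ}

theorem p_mono (h : Fan z r₁ p q u k Rt) {r : ℝ} (hr : 0 < r) {l l' : ℝ} (hl : l ≤ l') :
    p l r + (l' - l) ≤ p l' r := by
  have hd : ∀ l, HasDerivAt (fun l => p l r - l) (u l r - 1) l := fun l =>
    (h.cp.d₁ l r hr).sub (hasDerivAt_id l)
  have hm : Monotone fun l => p l r - l := by
    refine monotone_of_deriv_nonneg (fun l => (hd l).differentiableAt) fun l => ?_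
    rw [(hd l).deriv]
    linarith [h.u1 l r hr]
  have := hm hl
  simp only at this
  linarith

theorem p_strict (h : Fan z r₁ p q u k Rt) {r : ℝ} (hr : 0 < r) : StrictMono fun l => p l r := by
  intro l l' hl
  have := h.p_mono hr hl.le
  simp only
  linarith

theorem p_surj (h : Fan z r₁ p q u k Rt) {r : ℝ} (hr : 0 < r) (P : ℝ) : ∃ l, p l r = P := by
  have hc : Continuous fun l => p l r :=
    continuous_iff_continuousAt.mpr fun l => (h.cp.d₁ l r hr).continuousAt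
  refine hc.surjective ?_ ?_ P
  · refine tendsto_atTop_mono' atTop ?_ (tendsto_atTop_add_const_left atTop (p 0 r) tendsto_id)
    filter_upwards [eventually_ge_atTop (0 : ℝ)] with l hl
    have := h.p_mono hr hl
    simp only [id]
    linarith
  · refine tendsto_atBot_mono' atBot ?_ (tendsto_atBot_add_const_left atBot (p 0 r) tendsto_id)
    filter_upwards [eventually_le_atBot (0 : ℝ)] with l hl
    have := h.p_mono hr hl
    simp only [id]
    linarith

theorem q_anti_l (h : Fan z r₁ p q u k Rt) {r : ℝ} (hr : 0 < r) : Antitone fun l => q l r := by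
  have hd : ∀ l, HasDerivAt (fun l => q l r) (k l r) l := fun l => h.cq.d₁ l r hr
  refine antitone_of_deriv_nonpos (fun l => (hd l).differentiableAt) fun l => ?_
  rw [(hd l).deriv]
  exact h.k0 l r hr

theorem q_anti_r (h : Fan z r₁ p q u k Rt) (l : ℝ) : AntitoneOn (fun r => q l r) (Ioi 0) := by
  have hd : ∀ r, 0 < r → HasDerivAt (fun r => q l r) (-(r ^ 2 * Rt r (p l r))) r :=
    fun r hr => h.cq.d₂ l r hr
  refine antitoneOn_of_deriv_nonpos (convex_Ioi 0)
    (fun r hr => (hd r hr).continuousAt.continuousWithinAt) ?_ ?_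
  · intro r hr
    rw [interior_Ioi] at hr
    exact (hd r hr).differentiableAt.differentiableWithinAt
  · intro r hr
    rw [interior_Ioi] at hr
    rw [(hd r hr).deriv]
    have := h.R0 r (p l r)
    have : 0 ≤ r ^ 2 * Rt r (p l r) := by positivity
    linarith

/-- where the charge is positive the potential decreases -/
theorem p_anti (h : Fan z r₁ p q u k Rt) {l a b : ℝ} (ha : 0 < a) (hab : a < b)
    (hq : 0 < q l b) : p l b < p l a := by
  have hd : ∀ r, 0 < r → HasDerivAt (fun r => p l r) (-(q l r / r ^ 2)) r :=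
    fun r hr => h.cp.d₂ l r hr
  have hs : StrictAntiOn (fun r => p l r) (Icc a b) := by
    refine strictAntiOn_of_deriv_neg (convex_Icc a b)
      (fun r hr => (hd r (ha.trans_le hr.1)).continuousAt.continuousWithinAt) ?_
    intro r hr
    rw [interior_Icc] at hr
    have hr0 : 0 < r := ha.trans hr.1
    rw [(hd r hr0).deriv]
    have h1 : q l b ≤ q l r := h.q_anti_r l (mem_Ioi.mpr hr0) (mem_Ioi.mpr (ha.trans hab)) hr.2.le
    have h2 : 0 < q l r := hq.trans_le h1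
    have : 0 < q l r / r ^ 2 := by positivity
    linarith
  exact hs ⟨le_rfl, hab.le⟩ ⟨hab.le, le_rfl⟩ hab

theorem uniq_aux (h : Fan z r₁ p q u k Rt) {G l l' r r' : ℝ} (hG : 0 < G) (hr : 0 < r)
    (hrr : r < r') (hp : p l r = p l' r') (hq : q l r = r ^ 2 * G)
    (hq' : q l' r' = r' ^ 2 * G) : False := by
  have hr' : 0 < r' := hr.trans hrr
  have h0 : 0 < q l' r' := by rw [hq']; positivity
  have h1 := h.p_anti hr hrr h0
  rw [← hp] at h1
  have h2 : l < l' := (h.p_strict hr).lt_iff_lt.mp h1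
  have h3 : q l' r ≤ q l r := h.q_anti_l hr h2.le
  have h4 : q l' r' ≤ q l' r := h.q_anti_r l' (mem_Ioi.mpr hr) (mem_Ioi.mpr hr') hrr.le
  have h5 : r ^ 2 * G < r' ^ 2 * G := by
    have : r ^ 2 < r' ^ 2 := by nlinarith
    exact mul_lt_mul_of_pos_right this hG
  linarith

theorem uniq (h : Fan z r₁ p q u k Rt) {G l l' r r' : ℝ} (hG : 0 < G) (hr : 0 < r)
    (hr' : 0 < r') (hp : p l r = p l' r') (hq : q l r = r ^ 2 * G)
    (hq' : q l' r' = r' ^ 2 * G) : l = l' ∧ r = r' := by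
  rcases lt_trichotomy r r' with hlt | heq | hgt
  · exact (h.uniq_aux hG hr hlt hp hq hq').elim
  · subst heq
    exact ⟨(h.p_strict hr).injective hp, rfl⟩
  · exact (h.uniq_aux hG hr' hgt hp.symm hq' hq).elim

theorem exi (h : Fan z r₁ p q u k Rt) (hz : 0 < z) (hr₁ : 0 < r₁) (P : ℝ) {G : ℝ} (hG : 0 < G) :
    ∃ l r, 0 < r ∧ p l r = P ∧ q l r = r ^ 2 * G := by
  choose L hL using fun r : {r : ℝ // 0 < r} => h.p_surj r.2 P
  -- continuity of the label
  have hLc : Continuous L := by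
    rw [continuous_iff_continuousAt]
    intro r₀
    refine tendsto_order.2 ⟨fun a ha => ?_, fun a ha => ?_⟩
    · have h1 : p a r₀ < P := by
        rw [← hL r₀]
        exact h.p_strict r₀.2 ha
      have h2 : ContinuousAt (fun r : ℝ => p a r) r₀ := (h.cp.d₂ a r₀ r₀.2).continuousAt
      have h3 : ∀ᶠ r : ℝ in 𝓝 (r₀ : ℝ), p a r < P := h2.eventually_lt_const h1
      have h4 : ∀ᶠ r : {r : ℝ // 0 < r} in 𝓝 r₀, p a r < P :=
        continuous_subtype_val.continuousAt.eventually h3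
      filter_upwards [h4] with r hr
      rw [← hL r] at hr
      exact (h.p_strict r.2).lt_iff_lt.mp hr
    · have h1 : P < p a r₀ := by
        rw [← hL r₀]
        exact h.p_strict r₀.2 ha
      have h2 : ContinuousAt (fun r : ℝ => p a r) r₀ := (h.cp.d₂ a r₀ r₀.2).continuousAt
      have h3 : ∀ᶠ r : ℝ in 𝓝 (r₀ : ℝ), P < p a r := h2.eventually_const_lt h1
      have h4 : ∀ᶠ r : {r : ℝ // 0 < r} in 𝓝 r₀, P < p a r :=
        continuous_subtype_val.continuousAt.eventually h3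
      filter_upwards [h4] with r hr
      rw [← hL r] at hr
      exact (h.p_strict r.2).lt_iff_lt.mp hr
  set b : ℝ := √(z / G) with hb
  have hb0 : 0 < b := by positivity
  have hb2 : b ^ 2 = z / G := Real.sq_sqrt (by positivity)
  set a : ℝ := min r₁ b with ha
  have ha0 : 0 < a := lt_min hr₁ hb0
  have hab : a ≤ b := min_le_right _ _
  have hpos : ∀ r : Icc a b, 0 < (r : ℝ) := fun r => ha0.trans_le r.2.1
  set f : Icc a b → ℝ := fun r => q (L ⟨r, hpos r⟩) r - r ^ 2 * G with hf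
  have hfc : Continuous f := by
    have h1 : Continuous fun r : Icc a b => L ⟨r, hpos r⟩ :=
      hLc.comp (continuous_subtype_val.subtype_mk _)
    have h2 : Continuous fun r : Icc a b => q (L ⟨r, hpos r⟩) r := by
      rw [continuous_iff_continuousAt]
      intro r
      have h3 : ContinuousAt (fun y : ℝ × ℝ => q y.1 y.2) (L ⟨r, hpos r⟩, (r : ℝ)) :=
        h.cq.continuousAt isOpen_HP (hpos r)
      exact h3.comp (f := fun r : Icc a b => (L ⟨r, hpos r⟩, (r : ℝ))) (x := r)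
        (h1.continuousAt.prodMk continuous_subtype_val.continuousAt)
    exact h2.sub ((continuous_subtype_val.pow 2).mul continuous_const)
  haveI : PreconnectedSpace (Icc a b) := Subtype.preconnectedSpace isPreconnected_Icc
  have hA : 0 ≤ f ⟨a, le_rfl, hab⟩ := by
    simp only [hf]
    rw [h.q1 _ _ ha0 (min_le_left _ _)]
    have h1 : a ^ 2 ≤ b ^ 2 := pow_le_pow_left₀ ha0.le hab 2
    rw [hb2] at h1
    have h2 : a ^ 2 * G ≤ z / G * G := mul_le_mul_of_nonneg_right h1 hG.le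
    rw [div_mul_cancel₀ _ hG.ne'] at h2
    linarith
  have hB : f ⟨b, hab, le_rfl⟩ ≤ 0 := by
    simp only [hf]
    have h1 := h.qz (L ⟨b, hb0⟩) b hb0
    rw [hb2, div_mul_cancel₀ _ hG.ne']
    linarith
  obtain ⟨r, hr⟩ := mem_range_of_exists_le_of_exists_ge hfc ⟨_, hB⟩ ⟨_, hA⟩
  refine ⟨L ⟨r, hpos r⟩, r, hpos r, hL _, ?_⟩
  simp only [hf] at hr
  linarith

end Fan

/-- the derivative of the map `(l, r) ↦ (p, q / r²)` -/
noncomputable def mat2 (a b c d : ℝ) : ℝ × ℝ →L[ℝ] ℝ × ℝ :=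
  (a • ContinuousLinearMap.fst ℝ ℝ ℝ + b • ContinuousLinearMap.snd ℝ ℝ ℝ).prod
    (c • ContinuousLinearMap.fst ℝ ℝ ℝ + d • ContinuousLinearMap.snd ℝ ℝ ℝ)

theorem mat2_apply (a b c d : ℝ) (v : ℝ × ℝ) :
    mat2 a b c d v = (a * v.1 + b * v.2, c * v.1 + d * v.2) := by
  simp [mat2]

/-- an invertible matrix -/
noncomputable def mat2Equiv (a b c d : ℝ) (h : a * d - b * c ≠ 0) : (ℝ × ℝ) ≃L[ℝ] ℝ × ℝ :=
  ContinuousLinearEquiv.equivOfInverse (mat2 a b c d)
    (mat2 (d / (a * d - b * c)) (-b / (a * d - b * c)) (-c / (a * d - b * c))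
      (a / (a * d - b * c)))
    (fun v => by
      rw [mat2_apply, mat2_apply]
      ext
      · simp only
        have e : d / (a * d - b * c) * (a * v.1 + b * v.2) +
            -b / (a * d - b * c) * (c * v.1 + d * v.2) =
            (a * d - b * c) / (a * d - b * c) * v.1 := by ring
        rw [e, div_self h, one_mul]
      · simp only
        have e : -c / (a * d - b * c) * (a * v.1 + b * v.2) +
            a / (a * d - b * c) * (c * v.1 + d * v.2) =
            (a * d - b * c) / (a * d - b * c) * v.2 := by ring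
        rw [e, div_self h, one_mul])
    (fun v => by
      rw [mat2_apply, mat2_apply]
      ext
      · simp only
        have e : a * (d / (a * d - b * c) * v.1 + -b / (a * d - b * c) * v.2) +
            b * (-c / (a * d - b * c) * v.1 + a / (a * d - b * c) * v.2) =
            (a * d - b * c) / (a * d - b * c) * v.1 := by ring
        rw [e, div_self h, one_mul]
      · simp only
        have e : c * (d / (a * d - b * c) * v.1 + -b / (a * d - b * c) * v.2) +
            d * (-c / (a * d - b * c) * v.1 + a / (a * d - b * c) * v.2) =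
            (a * d - b * c) / (a * d - b * c) * v.2 := by ring
        rw [e, div_self h, one_mul])

/-- the radius function of a family of radial solutions -/
structure RadInv (z r₁ : ℝ) (Rt s sp sG : ℝ → ℝ → ℝ) : Prop where
  c1 : C1On HP s sp sG
  pos : ∀ P G, 0 < G → 0 < s P G
  le : ∀ P G, 0 < G → s P G ^ 2 * G ≤ z
  sp_lo : ∀ P G, 0 < G → -1 ≤ G * sp P G
  sp_hi : ∀ P G, 0 < G → G * sp P G ≤ 0
  sG_lo : ∀ P G, 0 < G → -(1 / 2) * s P G ≤ G * sG P G
  sG_hi : ∀ P G, 0 < G → G * sG P G ≤ 0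
  pde : ∀ P G, 0 < G → 1 + G * sp P G + (2 * G / s P G + Rt (s P G) P) * sG P G = 0
  nuc : ∀ P G, 0 < G → z / r₁ ^ 2 ≤ G → s P G = √(z / G)
  nuc_p : ∀ P G, 0 < G → z / r₁ ^ 2 ≤ G → sp P G = 0
  nuc_G : ∀ P G, 0 < G → z / r₁ ^ 2 ≤ G → G * sG P G = -(1 / 2) * s P G

theorem Fan.exists_radInv {z r₁ : ℝ} {p q u k Rt : ℝ → ℝ → ℝ} (h : Fan z r₁ p q u k Rt)
    (hz : 0 < z) (hr₁ : 0 < r₁) : ∃ s sp sG, RadInv z r₁ Rt s sp sG := by
  classical
  have hex : ∀ y : ℝ × ℝ, ∃ v : ℝ × ℝ, 0 < y.2 →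
      0 < v.2 ∧ p v.1 v.2 = y.1 ∧ q v.1 v.2 = v.2 ^ 2 * y.2 := by
    intro y
    by_cases hy : 0 < y.2
    · obtain ⟨l, r, h1, h2, h3⟩ := h.exi hz hr₁ y.1 hy
      exact ⟨(l, r), fun _ => ⟨h1, h2, h3⟩⟩
    · exact ⟨0, fun h' => (hy h').elim⟩
  choose v hv using hex
  -- the inverse map
  set D : ℝ × ℝ → ℝ := fun y => u (v y).1 (v y).2 * (-Rt (v y).2 y.1 - 2 * y.2 / (v y).2) +
    y.2 * (k (v y).1 (v y).2 / (v y).2 ^ 2) with hD
  have hDneg : ∀ y : ℝ × ℝ, 0 < y.2 → D y ≤ -(u (v y).1 (v y).2 * (2 * y.2 / (v y).2)) ∧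
      D y ≤ y.2 * (k (v y).1 (v y).2 / (v y).2 ^ 2) ∧ D y < 0 := by
    intro y hy
    obtain ⟨h1, h2, h3⟩ := hv y hy
    have hu := h.u1 (v y).1 (v y).2 h1
    have hk := h.k0 (v y).1 (v y).2 h1
    have hR := h.R0 (v y).2 y.1
    have a1 : 0 < 2 * y.2 / (v y).2 := by positivity
    have a2 : y.2 * (k (v y).1 (v y).2 / (v y).2 ^ 2) ≤ 0 :=
      mul_nonpos_of_nonneg_of_nonpos hy.le (div_nonpos_of_nonpos_of_nonneg hk (by positivity))
    have a3 : 0 ≤ u (v y).1 (v y).2 * Rt (v y).2 y.1 := mul_nonneg (by linarith) hR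
    have a4 : 0 < u (v y).1 (v y).2 * (2 * y.2 / (v y).2) := mul_pos (by linarith) a1
    have e : D y = -(u (v y).1 (v y).2 * Rt (v y).2 y.1) -
        u (v y).1 (v y).2 * (2 * y.2 / (v y).2) +
        y.2 * (k (v y).1 (v y).2 / (v y).2 ^ 2) := by
      simp only [hD]
      ring
    refine ⟨?_, ?_, ?_⟩ <;> rw [e] <;> linarith
  have hst : ∀ y : ℝ × ℝ, 0 < y.2 → HasStrictFDerivAt v
      (mat2 ((-Rt (v y).2 y.1 - 2 * y.2 / (v y).2) / D y) (y.2 / D y)
        (-(k (v y).1 (v y).2 / (v y).2 ^ 2) / D y) (u (v y).1 (v y).2 / D y)) y := by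
    intro y hy
    obtain ⟨h1, h2, h3⟩ := hv y hy
    have hr0 : (v y).2 ≠ 0 := h1.ne'
    have hmem : v y ∈ HP := h1
    have s1 := h.cp.strict isOpen_HP hmem
    have s2 := h.cq.strict isOpen_HP hmem
    have s3 : HasStrictFDerivAt (fun w : ℝ × ℝ => (w.2 ^ 2)⁻¹)
        ((-(((v y).2 ^ 2) ^ 2)⁻¹ * (2 * (v y).2)) • ContinuousLinearMap.snd ℝ ℝ ℝ) (v y) := by
      have b1 : HasStrictDerivAt (fun r : ℝ => (r ^ 2)⁻¹)
          (-(((v y).2 ^ 2) ^ 2)⁻¹ * (2 * (v y).2)) (v y).2 := by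
        have b2 : HasStrictDerivAt (fun r : ℝ => r ^ 2) (2 * (v y).2) (v y).2 := by
          simpa using hasStrictDerivAt_pow 2 (v y).2
        have b3 : HasStrictDerivAt (fun t : ℝ => t⁻¹) (-(((v y).2 ^ 2) ^ 2)⁻¹) ((v y).2 ^ 2) :=
          hasStrictDerivAt_inv (pow_ne_zero 2 hr0)
        exact HasStrictDerivAt.comp (h := fun r : ℝ => r ^ 2) (h₂ := fun t : ℝ => t⁻¹) (v y).2
          b3 b2
      exact b1.comp_hasStrictFDerivAt (v y)
        (ContinuousLinearMap.snd ℝ ℝ ℝ).hasStrictFDerivAt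
    have s4 := s2.mul s3
    have s5 := s1.prodMk s4
    set a : ℝ := u (v y).1 (v y).2 with ha
    set b : ℝ := -y.2 with hb
    set c : ℝ := k (v y).1 (v y).2 / (v y).2 ^ 2 with hc
    set d : ℝ := -Rt (v y).2 y.1 - 2 * y.2 / (v y).2 with hd
    have hDe : a * d - b * c = D y := by
      simp only [hD, ha, hb, hc, hd]
      ring
    have hne : a * d - b * c ≠ 0 := by
      rw [hDe]
      exact (hDneg y hy).2.2.ne
    set Φ : ℝ × ℝ → ℝ × ℝ := fun w => (p w.1 w.2, q w.1 w.2 * (w.2 ^ 2)⁻¹) with hΦ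
    have s6 : HasStrictFDerivAt Φ ((mat2Equiv a b c d hne : (ℝ × ℝ) ≃L[ℝ] ℝ × ℝ) :
        ℝ × ℝ →L[ℝ] ℝ × ℝ) (v y) := by
      refine s5.congr_fderiv ?_
      have e : ((mat2Equiv a b c d hne : (ℝ × ℝ) ≃L[ℝ] ℝ × ℝ) :
        ℝ × ℝ →L[ℝ] ℝ × ℝ) = mat2 a b c d := rfl
      rw [e]
      refine ContinuousLinearMap.ext fun w => ?_
      rw [mat2_apply]
      simp only [ContinuousLinearMap.prod_apply, add_apply,
        smul_apply, ContinuousLinearMap.coe_fst',
        ContinuousLinearMap.coe_snd', smul_eq_mul]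
      rw [h3, h2]
      ext
      · simp only [ha, hb]
        field_simp
      · simp only [hc, hd]
        field_simp
        ring
    have hΦv : Φ (v y) = y := by
      simp only [hΦ]
      rw [h2, h3]
      ext
      · rfl
      · simp only
        field_simp
    obtain ⟨g, hg⟩ : ∃ g : ℝ × ℝ → ℝ × ℝ,
        g = HasStrictFDerivAt.localInverse Φ (mat2Equiv a b c d hne) (v y) s6 := ⟨_, rfl⟩
    have s7 : HasStrictFDerivAt g
        ((mat2Equiv a b c d hne).symm : ℝ × ℝ →L[ℝ] ℝ × ℝ) (Φ (v y)) := by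
      rw [hg]
      exact s6.to_localInverse
    have t1 : Tendsto g (𝓝 (Φ (v y))) (𝓝 (v y)) := by
      rw [hg]
      exact s6.localInverse_tendsto
    have t3 : ∀ᶠ w : ℝ × ℝ in 𝓝 (Φ (v y)), Φ (g w) = w := by
      rw [hg]
      exact s6.eventually_right_inverse
    rw [hΦv] at s7 t1 t3
    -- the local inverse is `v`
    have hloc : g =ᶠ[𝓝 y] v := by
      have t2 : ∀ᶠ w : ℝ × ℝ in 𝓝 y, g w ∈ HP := t1 (isOpen_HP.mem_nhds hmem)
      have t4 : ∀ᶠ w : ℝ × ℝ in 𝓝 y, w ∈ HP := isOpen_HP.mem_nhds hy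
      filter_upwards [t2, t3, t4] with w w2 w3 w4
      obtain ⟨g1, g2, g3⟩ := hv w w4
      have w2' : 0 < (g w).2 := w2
      have e1 : p (g w).1 (g w).2 = w.1 := congrArg Prod.fst w3
      have e2 : q (g w).1 (g w).2 * ((g w).2 ^ 2)⁻¹ = w.2 := congrArg Prod.snd w3
      have e3 : q (g w).1 (g w).2 = (g w).2 ^ 2 * w.2 := by
        rw [← e2]
        field_simp
      obtain ⟨f1, f2⟩ := h.uniq w4 w2' g1 (e1.trans g2.symm) e3 g3
      exact Prod.ext f1 f2
    have s8 : HasStrictFDerivAt v _ y := s7.congr_of_eventuallyEq hloc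
    refine s8.congr_fderiv ?_
    have e : ((mat2Equiv a b c d hne).symm : ℝ × ℝ →L[ℝ] ℝ × ℝ) =
      mat2 (d / (a * d - b * c)) (-b / (a * d - b * c)) (-c / (a * d - b * c))
      (a / (a * d - b * c)) := rfl
    rw [e, hDe, hb, neg_neg]
  have hvc : ∀ y : ℝ × ℝ, 0 < y.2 → ContinuousAt v y := fun y hy => (hst y hy).continuousAt
  -- continuity of the coefficients
  have cu : ∀ y : ℝ × ℝ, 0 < y.2 → ContinuousAt (fun y => u (v y).1 (v y).2) y := by
    intro y hy
    have h1 : ContinuousAt (fun w : ℝ × ℝ => u w.1 w.2) (v y) :=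
      h.cp.c₁.continuousAt (isOpen_HP.mem_nhds (hv y hy).1)
    exact h1.comp (f := v) (x := y) (hvc y hy)
  have ck : ∀ y : ℝ × ℝ, 0 < y.2 → ContinuousAt (fun y => k (v y).1 (v y).2) y := by
    intro y hy
    have h1 : ContinuousAt (fun w : ℝ × ℝ => k w.1 w.2) (v y) :=
      h.cq.c₁.continuousAt (isOpen_HP.mem_nhds (hv y hy).1)
    exact h1.comp (f := v) (x := y) (hvc y hy)
  have c2 : ∀ y : ℝ × ℝ, 0 < y.2 → ContinuousAt (fun y => (v y).2) y := fun y hy =>
    continuous_snd.continuousAt.comp (f := v) (x := y) (hvc y hy)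
  have cR : ∀ y : ℝ × ℝ, 0 < y.2 → ContinuousAt (fun y => Rt (v y).2 y.1) y := by
    intro y hy
    have h1 : ContinuousAt (fun w : ℝ × ℝ => -(w.2 ^ 2 * Rt w.2 (p w.1 w.2))) (v y) :=
      h.cq.c₂.continuousAt (isOpen_HP.mem_nhds (hv y hy).1)
    have h2 : ContinuousAt (fun y => -((v y).2 ^ 2 * Rt (v y).2 (p (v y).1 (v y).2))) y :=
      h1.comp (f := v) (x := y) (hvc y hy)
    have h3 : ContinuousAt (fun y => -(-((v y).2 ^ 2 * Rt (v y).2 (p (v y).1 (v y).2))) /
        (v y).2 ^ 2) y :=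
      h2.neg.div ((c2 y hy).pow 2) (pow_ne_zero 2 (hv y hy).1.ne')
    refine h3.congr ?_
    filter_upwards [isOpen_HP.mem_nhds hy] with w hw
    obtain ⟨g1, g2, g3⟩ := hv w hw
    rw [g2]
    have : (v w).2 ≠ 0 := g1.ne'
    field_simp
  have cD : ∀ y : ℝ × ℝ, 0 < y.2 → ContinuousAt D y := by
    intro y hy
    have h0 : (v y).2 ≠ 0 := (hv y hy).1.ne'
    have hy2 : ContinuousAt (fun y : ℝ × ℝ => y.2) y := continuous_snd.continuousAt
    exact ((cu y hy).mul ((cR y hy).neg.sub ((continuousAt_const.mul hy2).div (c2 y hy) h0))).add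
      (hy2.mul ((ck y hy).div ((c2 y hy).pow 2) (pow_ne_zero 2 h0)))
  have hne : ∀ y : ℝ × ℝ, 0 < y.2 → D y ≠ 0 := fun y hy => (hDneg y hy).2.2.ne
  refine ⟨fun P G => (v (P, G)).2,
    fun P G => -(k (v (P, G)).1 (v (P, G)).2 / (v (P, G)).2 ^ 2) / D (P, G),
    fun P G => u (v (P, G)).1 (v (P, G)).2 / D (P, G), ?_⟩
  have key1 : ∀ P G : ℝ, 0 < G → z / r₁ ^ 2 ≤ G → (v (P, G)).2 = √(z / G) := by
    intro P G hG hG1
    have hG' : 0 < ((P, G) : ℝ × ℝ).2 := hG
    obtain ⟨h1, h2, h3⟩ := hv (P, G) hG'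
    have hb0 : 0 < √(z / G) := by positivity
    have hb2 : √(z / G) ^ 2 = z / G := Real.sq_sqrt (by positivity)
    have hbr : √(z / G) ≤ r₁ := by
      rw [Real.sqrt_le_left hr₁.le, div_le_iff₀ hG]
      rw [div_le_iff₀ (by positivity)] at hG1
      linarith
    obtain ⟨l, hl⟩ := h.p_surj hb0 P
    have hq1 : q l √(z / G) = √(z / G) ^ 2 * G := by
      rw [h.q1 l _ hb0 hbr, hb2, div_mul_cancel₀ _ hG.ne']
    exact (h.uniq hG h1 hb0 (h2.trans hl.symm) h3 hq1).2
  have key2 : ∀ P G : ℝ, 0 < G → z / r₁ ^ 2 ≤ G → (v (P, G)).2 ≤ r₁ := by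
    intro P G hG hG1
    rw [key1 P G hG hG1, Real.sqrt_le_left hr₁.le, div_le_iff₀ hG]
    rw [div_le_iff₀ (by positivity)] at hG1
    linarith
  refine ⟨⟨?_, ?_, ?_, ?_⟩, ?_, ?_, ?_, ?_, ?_, ?_, ?_, key1, ?_, ?_⟩
  · intro P G hy
    have hG : 0 < ((P, G) : ℝ × ℝ).2 := hy
    have h1 := (hst (P, G) hG).hasFDerivAt
    have h2 : HasDerivAt (fun P : ℝ => (P, G)) ((1 : ℝ), (0 : ℝ)) P :=
      (hasDerivAt_id P).prodMk (hasDerivAt_const P G)
    have h3 := h1.comp_hasDerivAt P h2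
    have h4 := (ContinuousLinearMap.snd ℝ ℝ ℝ).hasFDerivAt.comp_hasDerivAt P h3
    refine h4.congr_deriv ?_
    rw [mat2_apply]
    simp
  · intro P G hy
    have hG : 0 < ((P, G) : ℝ × ℝ).2 := hy
    have h1 := (hst (P, G) hG).hasFDerivAt
    have h2 : HasDerivAt (fun G : ℝ => (P, G)) ((0 : ℝ), (1 : ℝ)) G :=
      (hasDerivAt_const G P).prodMk (hasDerivAt_id G)
    have h3 := h1.comp_hasDerivAt G h2
    have h4 := (ContinuousLinearMap.snd ℝ ℝ ℝ).hasFDerivAt.comp_hasDerivAt G h3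
    refine h4.congr_deriv ?_
    rw [mat2_apply]
    simp
  · intro y hy
    have h0 : (v y).2 ≠ 0 := (hv y hy).1.ne'
    exact ((((ck y hy).div ((c2 y hy).pow 2) (pow_ne_zero 2 h0)).neg).div (cD y hy)
      (hne y hy)).continuousWithinAt
  · intro y hy
    exact ((cu y hy).div (cD y hy) (hne y hy)).continuousWithinAt
  · intro P G hG
    exact (hv (P, G) hG).1
  · intro P G hG
    obtain ⟨h1, h2, h3⟩ := hv (P, G) hG
    have := h.qz (v (P, G)).1 (v (P, G)).2 h1
    simp only at h3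
    linarith
  · intro P G hG
    obtain ⟨h1, h2, h3⟩ := hDneg (P, G) hG
    simp only at h1 h2 h3 ⊢
    have e : G * (-(k (v (P, G)).1 (v (P, G)).2 / (v (P, G)).2 ^ 2) / D (P, G)) =
      -(G * (k (v (P, G)).1 (v (P, G)).2 / (v (P, G)).2 ^ 2) / D (P, G)) := by ring
    rw [e, neg_le_neg_iff, div_le_one_of_neg h3]
    exact h2
  · intro P G hG
    obtain ⟨h1, h2, h3⟩ := hDneg (P, G) hG
    have hk := h.k0 (v (P, G)).1 _ (hv (P, G) hG).1
    simp only at h1 h2 h3 hk ⊢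
    refine mul_nonpos_of_nonneg_of_nonpos hG.le ?_
    refine div_nonpos_of_nonneg_of_nonpos ?_ h3.le
    rw [Left.nonneg_neg_iff]
    exact div_nonpos_of_nonpos_of_nonneg hk (by positivity)
  · intro P G hG
    obtain ⟨h1, h2, h3⟩ := hDneg (P, G) hG
    have hs := (hv (P, G) hG).1
    have hu := h.u1 (v (P, G)).1 _ hs
    simp only at h1 h2 h3 hs hu ⊢
    rw [mul_div_assoc', le_div_iff_of_neg h3]
    have h4 : D (P, G) * (v (P, G)).2 ≤
        -(u (v (P, G)).1 (v (P, G)).2 * (2 * G / (v (P, G)).2)) * (v (P, G)).2 :=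
      mul_le_mul_of_nonneg_right h1 hs.le
    have h5 : -(u (v (P, G)).1 (v (P, G)).2 * (2 * G / (v (P, G)).2)) * (v (P, G)).2 =
        -(2 * (G * u (v (P, G)).1 (v (P, G)).2)) := by
      field_simp
    nlinarith
  · intro P G hG
    obtain ⟨h1, h2, h3⟩ := hDneg (P, G) hG
    have hu := h.u1 (v (P, G)).1 _ (hv (P, G) hG).1
    simp only at h1 h2 h3 hu ⊢
    exact mul_nonpos_of_nonneg_of_nonpos hG.le
      (div_nonpos_of_nonneg_of_nonpos (by linarith) h3.le)
  · intro P G hG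
    have h3 := hne (P, G) hG
    have e : D (P, G) = u (v (P, G)).1 (v (P, G)).2 *
        (-Rt (v (P, G)).2 P - 2 * G / (v (P, G)).2) +
        G * (k (v (P, G)).1 (v (P, G)).2 / (v (P, G)).2 ^ 2) := rfl
    set Dd := D (P, G) with hDd
    have e2 : 1 + G * (-(k (v (P, G)).1 (v (P, G)).2 / (v (P, G)).2 ^ 2) / Dd) +
        (2 * G / (v (P, G)).2 + Rt (v (P, G)).2 P) * (u (v (P, G)).1 (v (P, G)).2 / Dd) =
        1 - (u (v (P, G)).1 (v (P, G)).2 *
        (-Rt (v (P, G)).2 P - 2 * G / (v (P, G)).2) +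
        G * (k (v (P, G)).1 (v (P, G)).2 / (v (P, G)).2 ^ 2)) / Dd := by ring
    rw [e2, ← e, div_self h3, sub_self]
  · intro P G hG hG1
    have h1 := h.k1 (v (P, G)).1 _ (hv (P, G) hG).1 (key2 P G hG hG1)
    rw [h1]
    simp
  · intro P G hG hG1
    have hs := (hv (P, G) hG).1
    have h1 := h.k1 (v (P, G)).1 _ hs (key2 P G hG hG1)
    have h2 := h.R1 (v (P, G)).2 P (key2 P G hG hG1)
    have hu := h.u1 (v (P, G)).1 _ hs
    have e : D (P, G) = u (v (P, G)).1 (v (P, G)).2 *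
        (-Rt (v (P, G)).2 P - 2 * G / (v (P, G)).2) +
        G * (k (v (P, G)).1 (v (P, G)).2 / (v (P, G)).2 ^ 2) := rfl
    rw [e, h1, h2]
    have hu' : u (v (P, G)).1 (v (P, G)).2 ≠ 0 := by linarith
    have hs' : (v (P, G)).2 ≠ 0 := hs.ne'
    field_simp
    ring

theorem RadInv.abs_sG_le {z r₁ : ℝ} {Rt s sp sG : ℝ → ℝ → ℝ} (h : RadInv z r₁ Rt s sp sG)
    {P G : ℝ} (hG : 0 < G) : |sG P G| ≤ s P G / (2 * G) := by
  have h1 := h.sG_lo P G hG
  have h2 := h.sG_hi P G hG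
  have h3 : sG P G ≤ 0 := by
    by_contra hc
    push Not at hc
    have : 0 < G * sG P G := mul_pos hG hc
    linarith
  rw [abs_of_nonpos h3, le_div_iff₀ (by positivity)]
  linarith

/-- the radius function with an error: `Rt` is compared with the exact source -/
theorem RadInv.radFn {z r₁ : ℝ} {Rt s sp sG : ℝ → ℝ → ℝ} (h : RadInv z r₁ Rt s sp sG)
    {e : ℝ → ℝ → ℝ}
    (he : ∀ P G, 0 < G → |4 * Real.pi * tf P - Rt (s P G) P| * (s P G / (2 * G)) ≤ e P G) :
    RadFn z (z / r₁ ^ 2) s sp sG e := by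
  have hpos : ∀ G : ℝ, 0 < G → ∀ t : ℝ, G * t ≤ 0 → t ≤ 0 := by
    intro G hG t ht
    by_contra hc
    push Not at hc
    have : 0 < G * t := mul_pos hG hc
    linarith
  refine ⟨h.c1, h.pos, h.le, fun P G hG => hpos G hG _ (h.sp_hi P G hG), h.sp_lo,
    fun P G hG => hpos G hG _ (h.sG_hi P G hG), h.sG_lo, h.nuc, h.nuc_p, h.nuc_G, ?_⟩
  intro P G hG
  have h1 := h.pde P G hG
  have e1 : 1 + G * sp P G + (2 * G / s P G + 4 * Real.pi * tf P) * sG P G =
      (4 * Real.pi * tf P - Rt (s P G) P) * sG P G := by linear_combination h1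
  rw [e1, abs_mul]
  exact (mul_le_mul_of_nonneg_left (h.abs_sG_le hG) (abs_nonneg _)).trans (he P G hG)

end Pool.Agent.TF
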