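import Pool.Agent.Lib.MP_9cf0c9_mp.FanOde
import Pool.Agent.Lib.MP_9cf0c9_mp.FanInv

/-! The fan of solutions of `F'' = a(r) φ(F)`, `F(0) = z`, `F'(0) = l` gives a family of radial
solutions in the sense of `FanInv`: potential `F / r`, charge `F - r F'`. -/

set_option autoImplicit false
set_option linter.unusedSectionVars false
set_option linter.unusedVariables false
set_option linter.style.haveILetI false

namespace Pool.Agent.TF.Rad
open MeasureTheory Set Metric Filter Topology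
open scoped ENNReal NNReal

/-! ### monotonicity on the half line -/

theorem zmem : (0 : ℝ) ∈ Ici (0 : ℝ) := le_refl (0 : ℝ)

theorem mono_Ici {f f' : ℝ → ℝ} (h : ∀ t, 0 ≤ t → HasDerivWithinAt f (f' t) (Ici 0) t)
    (h0 : ∀ t, 0 ≤ t → 0 ≤ f' t) : MonotoneOn f (Ici 0) := by
  refine monotoneOn_of_hasDerivWithinAt_nonneg (f' := f') (convex_Ici 0)
    (fun t ht => (h t ht).continuousWithinAt) (fun t ht => ?_) (fun t ht => ?_)
  · rw [interior_Ici] at ht ⊢
    exact (h t (le_of_lt ht)).mono Ioi_subset_Ici_self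
  · rw [interior_Ici] at ht
    exact h0 t (le_of_lt ht)

theorem const_Icc {f f' : ℝ → ℝ} {r₁ : ℝ}
    (h : ∀ t, 0 ≤ t → HasDerivWithinAt f (f' t) (Ici 0) t)
    (h0 : ∀ t ∈ Ico 0 r₁, f' t = 0) : ∀ t ∈ Icc 0 r₁, f t = f 0 := by
  refine constant_of_has_deriv_right_zero
    (fun t ht => ((h t ht.1).continuousWithinAt).mono fun s hs => hs.1) fun t ht => ?_
  have h1 := (h t ht.1).mono (s := Ici t) fun s hs => ht.1.trans hs
  rwa [h0 t ht] at h1

/-! ### joint continuity -/

theorem cont2 {f : ℝ → ℝ → ℝ} (hc : ∀ l t, 0 < t → ContinuousAt (f l) t)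
    (he : ∀ N : ℝ, ∃ C : ℝ, ∀ l l' t, t ∈ Icc 0 N →
      |f l' t - f l t| ≤ C * √|l' - l| + C * |l' - l|) :
    ContinuousOn (fun q : ℝ × ℝ => f q.1 q.2) HP := by
  rintro ⟨l, t⟩ ht
  have ht0 : 0 < t := ht
  refine ContinuousAt.continuousWithinAt ?_
  obtain ⟨C, hC⟩ := he (t + 1)
  rw [ContinuousAt, tendsto_iff_dist_tendsto_zero]
  have h1 : Tendsto (fun q : ℝ × ℝ => C * √|q.1 - l| + C * |q.1 - l|) (𝓝 (l, t))
      (𝓝 (C * √|l - l| + C * |l - l|)) :=
    (by fun_prop : Continuous fun q : ℝ × ℝ => C * √|q.1 - l| + C * |q.1 - l|).tendsto (l, t)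
  rw [sub_self, abs_zero, Real.sqrt_zero, mul_zero, add_zero] at h1
  have h2 : Tendsto (fun q : ℝ × ℝ => |f l q.2 - f l t|) (𝓝 (l, t)) (𝓝 0) := by
    have h3 : ContinuousAt (fun q : ℝ × ℝ => f l q.2) (l, t) :=
      (hc l t ht0).comp (f := fun q : ℝ × ℝ => q.2) (x := (l, t)) continuous_snd.continuousAt
    have h5 : Tendsto (fun q : ℝ × ℝ => |f l q.2 - f l t|) (𝓝 (l, t)) (𝓝 |f l t - f l t|) :=
      (h3.tendsto.sub_const (f l t)).abs
    rw [sub_self, abs_zero] at h5
    exact h5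
  have h3 := h1.add h2
  rw [add_zero] at h3
  refine squeeze_zero' (Eventually.of_forall fun _ => dist_nonneg) ?_ h3
  have h4 : ∀ᶠ q : ℝ × ℝ in 𝓝 (l, t), q.2 ∈ Icc 0 (t + 1) := by
    have h5 : Icc 0 (t + 1) ∈ 𝓝 t := Icc_mem_nhds ht0 (by linarith)
    exact continuous_snd.continuousAt.eventually h5
  filter_upwards [h4] with q hq
  rw [Real.dist_eq]
  have e : f q.1 q.2 - f l t = (f q.1 q.2 - f l q.2) + (f l q.2 - f l t) := by ring
  rw [e]
  exact (abs_add_le _ _).trans (add_le_add (hC l q.1 q.2 hq) le_rfl)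

theorem hasDerivAt_of_est {f : ℝ → ℝ} {f' C l : ℝ}
    (h : ∀ l', |f l' - f l - (l' - l) * f'| ≤ C * √|l' - l| * |l' - l|) : HasDerivAt f f' l := by
  rw [hasDerivAt_iff_isLittleO, Asymptotics.isLittleO_iff]
  intro c hc
  have h1 : Tendsto (fun l' => C * √|l' - l|) (𝓝 l) (𝓝 (C * √|l - l|)) :=
    (by fun_prop : Continuous fun l' => C * √|l' - l|).tendsto l
  rw [sub_self, abs_zero, Real.sqrt_zero, mul_zero] at h1
  filter_upwards [h1.eventually (gt_mem_nhds hc)] with l' hl'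
  rw [Real.norm_eq_abs, Real.norm_eq_abs, smul_eq_mul]
  exact (h l').trans (mul_le_mul_of_nonneg_right hl'.le (abs_nonneg _))

variable {a φ φ' : ℝ → ℝ} {K z r₁ : ℝ} {F F₁ W W₁ : ℝ → ℝ → ℝ}

theorem dAt {f f' : ℝ → ℝ} (h : ∀ t, 0 ≤ t → HasDerivWithinAt f (f' t) (Ici 0) t) {t : ℝ}
    (ht : 0 < t) : HasDerivAt f (f' t) t := (h t ht.le).hasDerivAt (Ici_mem_nhds ht)

theorem signs (h : FanData a (fun _ => 1) φ φ' K) (f : FanSol a (fun _ => 1) φ φ' z F F₁ W W₁)
    (l : ℝ) {t : ℝ} (ht : 0 ≤ t) : 1 ≤ W₁ l t ∧ t ≤ W l t ∧ W l t ≤ t * W₁ l t := by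
  have dW : ∀ t, 0 ≤ t → HasDerivWithinAt (W l) (W₁ l t) (Ici 0) t := fun t ht => by
    have := f.dW l t ht
    rwa [one_mul] at this
  have dW₁ := f.dW₁ l
  have hc0 : ∀ t, 0 ≤ t → 0 ≤ a t * φ' (F l t) := fun t ht => mul_nonneg (h.a0 t ht) (h.φ'0 _)
  -- the product is nonnegative
  have hm : ∀ t, 0 ≤ t → 0 ≤ W l t * W₁ l t := by
    have h1 : MonotoneOn (fun t => W l t * W₁ l t) (Ici 0) := by
      refine mono_Ici (fun t ht => (dW t ht).mul (dW₁ t ht)) fun t ht => ?_
      have e : W₁ l t * W₁ l t + W l t * (a t * φ' (F l t) * W l t) =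
          W₁ l t ^ 2 + (a t * φ' (F l t)) * W l t ^ 2 := by ring
      rw [e]
      have := hc0 t ht
      positivity
    intro t ht
    have h2 := h1 zmem ht ht
    simp only [f.W0, zero_mul] at h2
    exact h2
  have hsq : ∀ t, 0 ≤ t → 1 ≤ W₁ l t ^ 2 := by
    have h1 : MonotoneOn (fun t => W₁ l t ^ 2) (Ici 0) := by
      refine mono_Ici (fun t ht => (dW₁ t ht).pow 2) fun t ht => ?_
      have e : (2 : ℕ) * W₁ l t ^ (2 - 1) * (a t * φ' (F l t) * W l t) =
          2 * (a t * φ' (F l t)) * (W l t * W₁ l t) := by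
        push_cast
        ring
      rw [e]
      have h2 := hc0 t ht
      have h3 := hm t ht
      positivity
    intro t ht
    have h2 := h1 zmem ht ht
    simp only [f.W₁0, one_pow] at h2
    exact h2
  have hpos : ∀ t, 0 ≤ t → 0 < W₁ l t := by
    intro t ht
    by_contra hneg
    rw [not_lt] at hneg
    have hcont : ContinuousOn (W₁ l) (Icc 0 t) := fun s hs =>
      ((dW₁ s hs.1).continuousWithinAt).mono fun x hx => hx.1
    have h2 : (0 : ℝ) ∈ W₁ l '' Icc 0 t := by
      refine intermediate_value_Icc' ht hcont ⟨hneg, ?_⟩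
      rw [f.W₁0]
      exact zero_le_one
    obtain ⟨s, hs, hs0⟩ := h2
    have h3 := hsq s hs.1
    rw [hs0] at h3
    norm_num at h3
  have h1 : ∀ t, 0 ≤ t → 1 ≤ W₁ l t := fun t ht => by
    have := hsq t ht
    have := hpos t ht
    nlinarith
  have hWt : ∀ t, 0 ≤ t → t ≤ W l t := by
    have h2 : MonotoneOn (fun t => W l t - t) (Ici 0) := by
      refine mono_Ici (fun t ht => (dW t ht).sub (hasDerivWithinAt_id t _)) fun t ht => ?_
      have := h1 t ht
      linarith
    intro t ht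
    have h3 := h2 zmem ht ht
    simp only [f.W0, sub_zero] at h3
    linarith
  refine ⟨h1 t ht, hWt t ht, ?_⟩
  have h2 : MonotoneOn (fun t => t * W₁ l t - W l t) (Ici 0) := by
    refine mono_Ici (fun t ht => ((hasDerivWithinAt_id t _).mul (dW₁ t ht)).sub (dW t ht))
      fun t ht => ?_
    have e : 1 * W₁ l t + id t * (a t * φ' (F l t) * W l t) - W₁ l t =
        (t * W l t) * (a t * φ' (F l t)) := by
      simp only [id]
      ring
    rw [e]
    have h3 := hc0 t ht
    have h4 := hWt t ht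
    have h5 : 0 ≤ W l t := ht.trans h4
    positivity
  have h3 := h2 zmem ht ht
  simp only [f.W0, zero_mul, sub_zero] at h3
  linarith

/-- **the family of radial solutions of a fan** -/
theorem FanSol.fan (h : FanData a (fun _ => 1) φ φ' K)
    (f : FanSol a (fun _ => 1) φ φ' z F F₁ W W₁)
    (haz : ∀ t, t ≤ r₁ → a t = 0) (ha : ∀ t, 0 ≤ a t) (hr₁ : 0 < r₁) :
    Fan z r₁ (fun l r => F l r / r) (fun l r => F l r - r * F₁ l r) (fun l r => W l r / r)
      (fun l r => W l r - r * W₁ l r) (fun r p => if 0 < r then a r * φ (r * p) / r else 0) := by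
  have dF : ∀ l t, 0 ≤ t → HasDerivWithinAt (F l) (F₁ l t) (Ici 0) t := fun l t ht => by
    have := f.dF l t ht
    rwa [one_mul] at this
  have dW : ∀ l t, 0 ≤ t → HasDerivWithinAt (W l) (W₁ l t) (Ici 0) t := fun l t ht => by
    have := f.dW l t ht
    rwa [one_mul] at this
  choose C hC using f.est h
  have hmem : ∀ t : ℝ, 0 < t → t ∈ Icc 0 t := fun t ht => ⟨ht.le, le_rfl⟩
  have lF : ∀ l t, 0 < t → HasDerivAt (fun l => F l t) (W l t) l := fun l t ht =>
    hasDerivAt_of_est fun l' => (hC t).dF l l' t (hmem t ht)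
  have lF₁ : ∀ l t, 0 < t → HasDerivAt (fun l => F₁ l t) (W₁ l t) l := fun l t ht =>
    hasDerivAt_of_est fun l' => (hC t).dF₁ l l' t (hmem t ht)
  have cF : ContinuousOn (fun q : ℝ × ℝ => F q.1 q.2) HP := by
    refine cont2 (fun l t ht => (dAt (dF l) ht).continuousAt) fun N => ⟨C N, fun l l' t ht => ?_⟩
    have h1 := (hC N).lF l l' t ht
    have h2 : 0 ≤ C N * √|l' - l| := mul_nonneg (hC N).C0 (Real.sqrt_nonneg _)
    linarith
  have cF₁ : ContinuousOn (fun q : ℝ × ℝ => F₁ q.1 q.2) HP := by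
    refine cont2 (fun l t ht => (dAt (f.dF₁ l) ht).continuousAt) fun N =>
      ⟨C N, fun l l' t ht => ?_⟩
    have h1 := (hC N).lF₁ l l' t ht
    have h2 : 0 ≤ C N * √|l' - l| := mul_nonneg (hC N).C0 (Real.sqrt_nonneg _)
    linarith
  have cW : ContinuousOn (fun q : ℝ × ℝ => W q.1 q.2) HP := by
    refine cont2 (fun l t ht => (dAt (dW l) ht).continuousAt) fun N => ⟨C N, fun l l' t ht => ?_⟩
    have h1 := (hC N).lW l l' t ht
    have h2 : 0 ≤ C N * |l' - l| := mul_nonneg (hC N).C0 (abs_nonneg _)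
    linarith
  have cW₁ : ContinuousOn (fun q : ℝ × ℝ => W₁ q.1 q.2) HP := by
    refine cont2 (fun l t ht => (dAt (f.dW₁ l) ht).continuousAt) fun N =>
      ⟨C N, fun l l' t ht => ?_⟩
    have h1 := (hC N).lW₁ l l' t ht
    have h2 : 0 ≤ C N * |l' - l| := mul_nonneg (hC N).C0 (abs_nonneg _)
    linarith
  have c2 : ContinuousOn (fun q : ℝ × ℝ => q.2) HP := continuous_snd.continuousOn
  have hne : ∀ q ∈ HP, q.2 ≠ 0 := fun q hq => (show 0 < q.2 from hq).ne'
  have hne2 : ∀ q ∈ HP, q.2 ^ 2 ≠ 0 := fun q hq => pow_ne_zero 2 (hne q hq)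
  have hφc : Continuous φ := continuous_iff_continuousAt.mpr fun x => (h.dφ x).continuousAt
  have hRt : ∀ l r, 0 < r → (if 0 < r then a r * φ (r * (F l r / r)) / r else 0) =
      a r * φ (F l r) / r := fun l r hr => by
    rw [if_pos hr, mul_div_cancel₀ _ hr.ne']
  refine ⟨⟨?_, ?_, ?_, ?_⟩, ⟨?_, ?_, ?_, ?_⟩, ?_, ?_, ?_, ?_, ?_, ?_, ?_⟩
  · intro l r hr
    exact (lF l r hr).div_const r
  · intro l r hr
    have hr0 : 0 < r := hr
    have h1 := (dAt (dF l) hr0).div (hasDerivAt_id r) hr0.ne'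
    refine h1.congr_deriv ?_
    simp only [id, mul_one]
    field_simp
    ring
  · exact cW.div c2 hne
  · exact ((cF.sub (c2.mul cF₁)).div (c2.pow 2) hne2).neg
  · intro l r hr
    exact (lF l r hr).sub ((lF₁ l r hr).const_mul r)
  · intro l r hr
    have hr0 : 0 < r := hr
    have h1 := (dAt (dF l) hr0).sub ((hasDerivAt_id r).mul (dAt (f.dF₁ l) hr0))
    refine h1.congr_deriv ?_
    rw [hRt l r hr0]
    simp only [id]
    field_simp
    ring
  · exact cW.sub (c2.mul cW₁)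
  · have h1 : ContinuousOn (fun q : ℝ × ℝ => -(q.2 ^ 2 * (a q.2 * φ (F q.1 q.2) / q.2))) HP := by
      refine ((c2.pow 2).mul ?_).neg
      refine ContinuousOn.div ?_ c2 hne
      exact (h.ac.comp_continuousOn c2).mul (hφc.comp_continuousOn cF)
    refine h1.congr fun q hq => ?_
    simp only
    rw [hRt q.1 q.2 hq]
  · intro l r hr
    rw [le_div_iff₀ hr, one_mul]
    exact (signs h f l hr.le).2.1
  · intro l r hr
    have := (signs h f l hr.le).2.2
    linarith
  · intro r p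
    split_ifs with hr
    · exact div_nonneg (mul_nonneg (ha r) (h.φ0 _)) hr.le
    · exact le_rfl
  · intro l r hr
    have h2 : MonotoneOn (fun t => -(F l t - t * F₁ l t)) (Ici 0) := by
      refine mono_Ici (fun t ht => ((dF l t ht).sub
        ((hasDerivWithinAt_id t _).mul (f.dF₁ l t ht))).neg) fun t ht => ?_
      have e : -(F₁ l t - (1 * F₁ l t + id t * (a t * φ (F l t)))) = t * (a t * φ (F l t)) := by
        simp only [id]
        ring
      rw [e]
      exact mul_nonneg ht (mul_nonneg (ha t) (h.φ0 _))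
    have h3 := h2 zmem hr.le hr.le
    simp only [f.F0, zero_mul, sub_zero] at h3
    linarith
  · intro l r hr hr1
    have h2 := const_Icc (f := fun t => F l t - t * F₁ l t)
      (f' := fun t => F₁ l t - (1 * F₁ l t + id t * (a t * φ (F l t)))) (r₁ := r₁)
      (fun t ht => (dF l t ht).sub ((hasDerivWithinAt_id t _).mul (f.dF₁ l t ht)))
      (fun t ht => by
        rw [haz t ht.2.le]
        ring) r ⟨hr.le, hr1⟩
    simp only [f.F0, zero_mul, sub_zero] at h2
    exact h2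
  · intro l r hr hr1
    have h2 := const_Icc (f := fun t => W l t - t * W₁ l t)
      (f' := fun t => W₁ l t - (1 * W₁ l t + id t * (a t * φ' (F l t) * W l t))) (r₁ := r₁)
      (fun t ht => (dW l t ht).sub ((hasDerivWithinAt_id t _).mul (f.dW₁ l t ht)))
      (fun t ht => by
        rw [haz t ht.2.le]
        ring) r ⟨hr.le, hr1⟩
    simp only [f.W0, zero_mul, sub_zero] at h2
    exact h2
  · intro r t hr
    split_ifs with hr0
    · rw [haz r hr, zero_mul, zero_div]
    · rfl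

end Pool.Agent.TF.Rad
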