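import Pool.Agent.Lib.MP_9cf0c9_mp.Chain
import Pool.Agent.Lib.MP_9cf0c9_mp.Cells

/-! Functions `F (a x) (b x)`, where `F` is a continuous function of two real variables which is
`C¹` in pieces (finitely many relatively closed regions).  They are locally Lipschitz, and at
almost every point the chain rule holds with the partial derivatives of any active piece.
Special case: `a` is the distance to the nearest nucleus, or to one nucleus. -/

set_option autoImplicit false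
set_option linter.unusedSectionVars false
set_option linter.unusedVariables false

namespace Pool.Agent.TF
open MeasureTheory Set Metric Filter Topology
open scoped ENNReal NNReal RealInnerProductSpace Gradient

/-! ### two real variables -/

/-- `f` has the partial derivatives `f₁`, `f₂`, jointly continuous on `O` -/
structure C1On (O : Set (ℝ × ℝ)) (f f₁ f₂ : ℝ → ℝ → ℝ) : Prop where
  d₁ : ∀ r p, (r, p) ∈ O → HasDerivAt (fun r => f r p) (f₁ r p) r
  d₂ : ∀ r p, (r, p) ∈ O → HasDerivAt (fun p => f r p) (f₂ r p) p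
  c₁ : ContinuousOn (fun q : ℝ × ℝ => f₁ q.1 q.2) O
  c₂ : ContinuousOn (fun q : ℝ × ℝ => f₂ q.1 q.2) O

theorem C1On.strict {O : Set (ℝ × ℝ)} (hO : IsOpen O) {f f₁ f₂ : ℝ → ℝ → ℝ} (h : C1On O f f₁ f₂)
    {q : ℝ × ℝ} (hq : q ∈ O) :
    HasStrictFDerivAt (fun q : ℝ × ℝ => f q.1 q.2)
      (f₁ q.1 q.2 • ContinuousLinearMap.fst ℝ ℝ ℝ + f₂ q.1 q.2 • ContinuousLinearMap.snd ℝ ℝ ℝ)
      q := by
  have h1 := hasStrictFDerivAt_uncurry_coprod (𝕜 := ℝ) (u := q) (f := f)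
    (f₁ := fun r p => ContinuousLinearMap.toSpanSingleton ℝ (f₁ r p))
    (f₂ := fun r p => ContinuousLinearMap.toSpanSingleton ℝ (f₂ r p)) ?_ ?_ ?_ ?_
  · refine h1.congr_fderiv ?_
    ext <;> simp [Function.HasUncurry.uncurry]
  · filter_upwards [hO.mem_nhds hq] with v hv
    exact (h.d₁ v.1 v.2 hv).hasFDerivAt
  · filter_upwards [hO.mem_nhds hq] with v hv
    exact (h.d₂ v.1 v.2 hv).hasFDerivAt
  · have h2 : ContinuousAt (fun q : ℝ × ℝ => f₁ q.1 q.2) q := h.c₁.continuousAt (hO.mem_nhds hq)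
    exact ((ContinuousLinearMap.toSpanSingletonCLE (𝕜 := ℝ) (E := ℝ)).continuous.continuousAt.comp
      (f := fun q : ℝ × ℝ => f₁ q.1 q.2) (x := q) (by fun_prop) : _)
  · have h2 : ContinuousAt (fun q : ℝ × ℝ => f₂ q.1 q.2) q := h.c₂.continuousAt (hO.mem_nhds hq)
    exact ((ContinuousLinearMap.toSpanSingletonCLE (𝕜 := ℝ) (E := ℝ)).continuous.continuousAt.comp
      (f := fun q : ℝ × ℝ => f₂ q.1 q.2) (x := q) (by fun_prop) : _)

theorem C1On.continuousAt {O : Set (ℝ × ℝ)} (hO : IsOpen O) {f f₁ f₂ : ℝ → ℝ → ℝ}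
    (h : C1On O f f₁ f₂) {q : ℝ × ℝ} (hq : q ∈ O) :
    ContinuousAt (fun q : ℝ × ℝ => f q.1 q.2) q :=
  (h.strict hO hq).continuousAt

theorem C1On.lip {O : Set (ℝ × ℝ)} (hO : IsOpen O) {f f₁ f₂ : ℝ → ℝ → ℝ}
    (h : C1On O f f₁ f₂) {q : ℝ × ℝ} (hq : q ∈ O) :
    ∃ C : ℝ≥0, ∃ t ∈ 𝓝 q, LipschitzOnWith C (fun q : ℝ × ℝ => f q.1 q.2) t :=
  (h.strict hO hq).exists_lipschitzOnWith

theorem C1On.mono {O O' : Set (ℝ × ℝ)} {f f₁ f₂ : ℝ → ℝ → ℝ} (h : C1On O f f₁ f₂)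
    (hs : O' ⊆ O) : C1On O' f f₁ f₂ :=
  ⟨fun r p hq => h.d₁ r p (hs hq), fun r p hq => h.d₂ r p (hs hq), h.c₁.mono hs, h.c₂.mono hs⟩

/-- a function of two variables which is `C¹` in pieces: on `Ω ∩ A i` it is the `C¹` function
`f i` of the open set `O i` -/
structure Pieced {n : ℕ} (Ω : Set (ℝ × ℝ)) (F : ℝ → ℝ → ℝ) (A O : Fin n → Set (ℝ × ℝ))
    (f f₁ f₂ : Fin n → ℝ → ℝ → ℝ) : Prop where
  opn : IsOpen Ω
  clo : ∀ i, IsClosed (A i)
  oo : ∀ i, IsOpen (O i)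
  sub : ∀ i, ∀ q ∈ Ω, q ∈ A i → q ∈ O i
  cov : ∀ q ∈ Ω, ∃ i, q ∈ A i
  eq : ∀ i, ∀ q ∈ Ω, q ∈ A i → F q.1 q.2 = f i q.1 q.2
  c1 : ∀ i, C1On (O i) (f i) (f₁ i) (f₂ i)

/-- near a point only the active pieces occur -/
theorem Pieced.active {n : ℕ} {Ω : Set (ℝ × ℝ)} {F : ℝ → ℝ → ℝ} {A O : Fin n → Set (ℝ × ℝ)}
    {f f₁ f₂ : Fin n → ℝ → ℝ → ℝ} (h : Pieced Ω F A O f f₁ f₂) (q : ℝ × ℝ) :
    ∀ᶠ q' in 𝓝 q, ∀ i, q' ∈ A i → q ∈ A i := by
  rw [eventually_all]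
  intro i
  by_cases hi : q ∈ A i
  · exact Eventually.of_forall fun _ _ => hi
  · filter_upwards [(h.clo i).isOpen_compl.mem_nhds hi] with q' hq' hh
    exact absurd hh hq'

theorem Pieced.continuousAt {n : ℕ} {Ω : Set (ℝ × ℝ)} {F : ℝ → ℝ → ℝ}
    {A O : Fin n → Set (ℝ × ℝ)} {f f₁ f₂ : Fin n → ℝ → ℝ → ℝ} (h : Pieced Ω F A O f f₁ f₂)
    {q : ℝ × ℝ} (hq : q ∈ Ω) : ContinuousAt (fun q : ℝ × ℝ => F q.1 q.2) q := by
  rw [Metric.continuousAt_iff']
  intro ε hε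
  have h1 : ∀ᶠ q' in 𝓝 q, ∀ i, q ∈ A i → dist (f i q'.1 q'.2) (f i q.1 q.2) < ε := by
    rw [eventually_all]
    intro i
    by_cases hi : q ∈ A i
    · have h2 := (h.c1 i).continuousAt (h.oo i) (h.sub i q hq hi)
      filter_upwards [Metric.continuousAt_iff'.mp h2 ε hε] with q' hq' _
      exact hq'
    · exact Eventually.of_forall fun _ hh => absurd hh hi
  filter_upwards [h1, h.active q, h.opn.mem_nhds hq] with q' h2 h3 h4
  obtain ⟨i, hi⟩ := h.cov q' h4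
  have hiq := h3 i hi
  rw [h.eq i q' h4 hi, h.eq i q hq hiq]
  exact h2 i hiq

/-! ### composition with functions on the space -/

variable {V : Type*} [NormedAddCommGroup V] [InnerProductSpace ℝ V] [FiniteDimensional ℝ V]
  [MeasurableSpace V] [BorelSpace V]

theorem C1On.grad {O : Set (ℝ × ℝ)} (hO : IsOpen O) {f f₁ f₂ : ℝ → ℝ → ℝ}
    (h : C1On O f f₁ f₂) {a b : V → ℝ} {a' b' x : V} (hx : (a x, b x) ∈ O)
    (ha : HasGradientAt a a' x) (hb : HasGradientAt b b' x) :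
    HasGradientAt (fun y => f (a y) (b y)) (f₁ (a x) (b x) • a' + f₂ (a x) (b x) • b') x :=
  hg_comp2 (G := fun q : ℝ × ℝ => f q.1 q.2) (h.strict hO hx).hasFDerivAt ha hb

theorem C1On.lipAt {O : Set (ℝ × ℝ)} (hO : IsOpen O) {f f₁ f₂ : ℝ → ℝ → ℝ}
    (h : C1On O f f₁ f₂) {a b : V → ℝ} {x : V} (hx : (a x, b x) ∈ O)
    (ha : LipAt a x) (hb : LipAt b x) : LipAt (fun y => f (a y) (b y)) x :=
  ha.comp2 hb (F := fun q : ℝ × ℝ => f q.1 q.2) (h.lip hO hx)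

variable {n : ℕ} {Ω : Set (ℝ × ℝ)} {F : ℝ → ℝ → ℝ} {A O : Fin n → Set (ℝ × ℝ)}
  {f f₁ f₂ : Fin n → ℝ → ℝ → ℝ}

theorem Pieced.continuousAt_comp (h : Pieced Ω F A O f f₁ f₂) {a b : V → ℝ} {x : V}
    (hx : (a x, b x) ∈ Ω) (ha : ContinuousAt a x) (hb : ContinuousAt b x) :
    ContinuousAt (fun y => F (a y) (b y)) x :=
  ContinuousAt.comp (g := fun q : ℝ × ℝ => F q.1 q.2) (f := fun y => (a y, b y))
    (h.continuousAt hx) (ha.prodMk hb)

/-- **a piecewise `C¹` function of locally Lipschitz functions is locally Lipschitz** -/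
theorem Pieced.lipAt (h : Pieced Ω F A O f f₁ f₂) {a b : V → ℝ} {x : V}
    (hx : (a x, b x) ∈ Ω) (ha : LipAt a x) (hb : LipAt b x) :
    LipAt (fun y => F (a y) (b y)) x := by
  classical
  have hcont : ContinuousAt (fun y => (a y, b y)) x := ha.continuousAt.prodMk hb.continuousAt
  obtain ⟨i₀, hi₀⟩ := h.cov _ hx
  -- nearby points
  have hnear : ∀ᶠ y in 𝓝 x, (a y, b y) ∈ Ω := hcont.eventually (h.opn.mem_nhds hx)
  have hLa : ∀ᶠ y in 𝓝 x, ContinuousAt a y := by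
    obtain ⟨C, t, ht, hC⟩ := ha
    filter_upwards [eventually_mem_nhds_iff.mpr ht] with y hy
    exact hC.continuousOn.continuousAt hy
  have hLb : ∀ᶠ y in 𝓝 x, ContinuousAt b y := by
    obtain ⟨C, t, ht, hC⟩ := hb
    filter_upwards [eventually_mem_nhds_iff.mpr ht] with y hy
    exact hC.continuousOn.continuousAt hy
  refine lipAt_selection (n := n)
    (v := fun i y => if (a x, b x) ∈ A i then f i (a y) (b y) else f i₀ (a y) (b y)) ?_ ?_ ?_
  · filter_upwards [hnear, hLa, hLb] with y h1 h2 h3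
    exact h.continuousAt_comp h1 h2 h3
  · intro i
    by_cases hi : (a x, b x) ∈ A i
    · simp only [hi, if_true]
      exact (h.c1 i).lipAt (h.oo i) (h.sub i _ hx hi) ha hb
    · simp only [hi, if_false]
      exact (h.c1 i₀).lipAt (h.oo i₀) (h.sub i₀ _ hx hi₀) ha hb
  · filter_upwards [hnear, hcont.eventually (h.active (a x, b x))] with y h1 h2
    obtain ⟨i, hi⟩ := h.cov _ h1
    refine ⟨i, ?_⟩
    rw [if_pos (h2 i hi)]
    exact h.eq i _ h1 hi

/-- **the chain rule at almost every point**: `a` may be replaced by a differentiable function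
`c` which agrees with `a` at the point -/
theorem Pieced.ae_grad (h : Pieced Ω F A O f f₁ f₂) {a b c : V → ℝ} {b' c' : V → V} {U : Set V}
    (hU : IsOpen U) (ha : ∀ x ∈ U, LipAt a x) (hb : ∀ x ∈ U, LipAt b x)
    (hΩ : ∀ x ∈ U, (a x, b x) ∈ Ω) (hc : ∀ x ∈ U, HasGradientAt c (c' x) x)
    (hb' : ∀ x ∈ U, HasGradientAt b (b' x) x) :
    ∀ᵐ x : V, x ∈ U → a x = c x → ∀ i, (a x, b x) ∈ A i →
      HasGradientAt (fun y => F (a y) (b y))
        (f₁ i (a x) (b x) • c' x + f₂ i (a x) (b x) • b' x) x := by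
  have hcc : ContinuousOn c U := fun x hx => (hc x hx).continuousAt.continuousWithinAt
  have hbc : ContinuousOn b U := fun x hx => (hb x hx).continuousAt.continuousWithinAt
  have key : ∀ i, ∀ᵐ x : V, x ∈ U → a x = c x → (a x, b x) ∈ A i →
      HasGradientAt (fun y => F (a y) (b y))
        (f₁ i (a x) (b x) • c' x + f₂ i (a x) (b x) • b' x) x := by
    intro i
    set W : Set V := U ∩ (fun y => (c y, b y)) ⁻¹' (O i) with hW
    have hWo : IsOpen W := (hcc.prodMk hbc).isOpen_inter_preimage hU (h.oo i)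
    have h1 := ae_gradient_eq (u := fun y => F (a y) (b y)) (v := fun y => f i (c y) (b y)) hWo
      (fun x hx => h.lipAt (hΩ x hx.1) (ha x hx.1) (hb x hx.1))
      (fun x hx => ((((h.c1 i).grad (h.oo i) (a := c) (b := b) hx.2 (hc x hx.1)
        (hb' x hx.1))).continuousAt.continuousWithinAt))
    filter_upwards [h1] with x hx hxU hac hi
    have h2 : (a x, b x) ∈ O i := h.sub i _ (hΩ x hxU) hi
    have h3 : (c x, b x) ∈ O i := by rw [← hac]; exact h2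
    have h4 : F (a x) (b x) = f i (c x) (b x) := by
      rw [← hac]; exact h.eq i _ (hΩ x hxU) hi
    have h5 := (h.c1 i).grad (h.oo i) (a := c) (b := b) h3 (hc x hxU) (hb' x hxU)
    rw [hac]
    exact hx ⟨hxU, h3⟩ h4 _ h5
  filter_upwards [ae_all_iff.mpr key] with x hx hxU hac i hi
  exact hx i hxU hac hi

/-! ### the distance to the nearest nucleus -/

/-- distance to the nearest nucleus -/
noncomputable def rr {k : ℕ} (R : Fin k → V) (x : V) : ℝ := infDist x (range R)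

theorem rr_lip {k : ℕ} (R : Fin k → V) : LipschitzWith 1 (rr R) := lipschitz_infDist_pt _

theorem rr_cell {k : ℕ} {R : Fin k → V} {j : Fin k} {x : V} (hx : x ∈ cell R j) :
    rr R x = ‖x - R j‖ := by
  unfold rr
  refine le_antisymm ?_ ?_
  · rw [← dist_eq_norm]
    exact infDist_le_dist_of_mem ⟨j, rfl⟩
  · refine (le_infDist (s := range R) ⟨R j, j, rfl⟩).mpr ?_
    rintro _ ⟨i, rfl⟩
    rw [← dist_eq_norm]
    exact (hx i).1

theorem rr_pos {k : ℕ} {R : Fin k → V} (hk : 0 < k) {x : V} (hx : ∀ i, x ≠ R i) :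
    0 < rr R x := by
  have hne : (range R).Nonempty := ⟨R ⟨0, hk⟩, ⟨⟨0, hk⟩, rfl⟩⟩
  refine ((finite_range R).isClosed.notMem_iff_infDist_pos hne).mp ?_
  rintro ⟨i, hi⟩
  exact hx i hi.symm

theorem isOpen_off {k : ℕ} (R : Fin k → V) : IsOpen {x : V | ∀ i, x ≠ R i} := by
  have e : {x : V | ∀ i, x ≠ R i} = (range R)ᶜ := by
    ext x
    simp only [mem_ofPred_eq, mem_compl_iff, mem_range, not_exists]
    exact ⟨fun h i hi => h i hi.symm, fun h i hi => h i hi.symm⟩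
  rw [e]
  exact (finite_range R).isClosed.isOpen_compl

/-- `F (rr x) (psi x)` is locally Lipschitz off the nuclei -/
theorem Pieced.lipAt_rr (h : Pieced Ω F A O f f₁ f₂) {k : ℕ} {R : Fin k → V} {ψ : V → ℝ}
    {x : V} (hx : (rr R x, ψ x) ∈ Ω) (hψ : LipAt ψ x) :
    LipAt (fun y => F (rr R y) (ψ y)) x :=
  h.lipAt hx (lipAt_of_lip (rr_lip R) x) hψ

/-- `F |x - R j| (psi x)` is locally Lipschitz on the cell -/
theorem Pieced.lipAt_dist (h : Pieced Ω F A O f f₁ f₂) {P : V} {ψ : V → ℝ}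
    {x : V} (hx : (‖x - P‖, ψ x) ∈ Ω) (hψ : LipAt ψ x) :
    LipAt (fun y => F ‖y - P‖ (ψ y)) x := by
  have h1 : LipschitzWith 1 (fun y : V => ‖y - P‖) := by
    refine LipschitzWith.of_dist_le_mul fun y z => ?_
    rw [NNReal.coe_one, one_mul, Real.dist_eq, dist_eq_norm]
    have := abs_norm_sub_norm_le (y - P) (z - P)
    rwa [sub_sub_sub_cancel_right] at this
  exact h.lipAt (a := fun y : V => ‖y - P‖) hx (lipAt_of_lip h1 x) hψ

/-- **gradient of `F (rr x) (psi x)`** -/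
theorem Pieced.ae_grad_rr (h : Pieced Ω F A O f f₁ f₂) {k : ℕ} {R : Fin k → V} {ψ : V → ℝ}
    {ψ' : V → V} (hψ : ∀ x, (∀ i, x ≠ R i) → HasGradientAt ψ (ψ' x) x)
    (hψl : ∀ x, (∀ i, x ≠ R i) → LipAt ψ x)
    (hΩ : ∀ x, (∀ i, x ≠ R i) → (rr R x, ψ x) ∈ Ω) :
    ∀ᵐ x : V, (∀ i, x ≠ R i) → ∀ j, x ∈ cell R j → ∀ i, (‖x - R j‖, ψ x) ∈ A i →
      HasGradientAt (fun y => F (rr R y) (ψ y))
        (f₁ i ‖x - R j‖ (ψ x) • (‖x - R j‖⁻¹ • (x - R j)) + f₂ i ‖x - R j‖ (ψ x) • ψ' x) x := by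
  have key : ∀ j, ∀ᵐ x : V, (∀ i, x ≠ R i) → x ∈ cell R j → ∀ i, (‖x - R j‖, ψ x) ∈ A i →
      HasGradientAt (fun y => F (rr R y) (ψ y))
        (f₁ i ‖x - R j‖ (ψ x) • (‖x - R j‖⁻¹ • (x - R j)) + f₂ i ‖x - R j‖ (ψ x) • ψ' x) x := by
    intro j
    have h1 := h.ae_grad (a := rr R) (b := ψ) (c := fun y => ‖y - R j‖) (b' := ψ')
      (c' := fun y => ‖y - R j‖⁻¹ • (y - R j)) (isOpen_off R)
      (fun x _ => lipAt_of_lip (rr_lip R) x) (fun x hx => hψl x hx) (fun x hx => hΩ x hx)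
      (fun x hx => hg_dist (R j) (hx j)) (fun x hx => hψ x hx)
    filter_upwards [h1] with x hx hxo hxc i hi
    have e := rr_cell hxc
    have h2 := hx hxo e i (by rw [e]; exact hi)
    rwa [e] at h2
  filter_upwards [ae_all_iff.mpr key] with x hx hxo j hxc i hi
  exact hx j hxo hxc i hi

/-- **gradient of `F |x - P| (psi x)`** -/
theorem Pieced.ae_grad_dist (h : Pieced Ω F A O f f₁ f₂) {P : V} {ψ : V → ℝ}
    {ψ' : V → V} {U : Set V} (hU : IsOpen U) (hUP : ∀ x ∈ U, x ≠ P)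
    (hψ : ∀ x ∈ U, HasGradientAt ψ (ψ' x) x) (hψl : ∀ x ∈ U, LipAt ψ x) :
    ∀ᵐ x : V, x ∈ U → (‖x - P‖, ψ x) ∈ Ω → ∀ i, (‖x - P‖, ψ x) ∈ A i →
      HasGradientAt (fun y => F ‖y - P‖ (ψ y))
        (f₁ i ‖x - P‖ (ψ x) • (‖x - P‖⁻¹ • (x - P)) + f₂ i ‖x - P‖ (ψ x) • ψ' x) x := by
  have hψc : ContinuousOn ψ U := fun x hx => (hψ x hx).continuousAt.continuousWithinAt
  have hdl : LipschitzWith 1 (fun y : V => ‖y - P‖) := by
    refine LipschitzWith.of_dist_le_mul fun y z => ?_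
    rw [NNReal.coe_one, one_mul, Real.dist_eq, dist_eq_norm]
    have := abs_norm_sub_norm_le (y - P) (z - P)
    rwa [sub_sub_sub_cancel_right] at this
  set W : Set V := U ∩ (fun y => (‖y - P‖, ψ y)) ⁻¹' Ω with hW
  have hWo : IsOpen W :=
    ((hdl.continuous.continuousOn).prodMk hψc).isOpen_inter_preimage hU h.opn
  have h1 := h.ae_grad (a := fun y => ‖y - P‖) (b := ψ) (c := fun y => ‖y - P‖) (b' := ψ')
    (c' := fun y => ‖y - P‖⁻¹ • (y - P)) hWo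
    (fun x _ => lipAt_of_lip hdl x) (fun x hx => hψl x hx.1) (fun x hx => hx.2)
    (fun x hx => hg_dist P (hUP x hx.1)) (fun x hx => hψ x hx.1)
  filter_upwards [h1] with x hx hxU hxΩ i hi
  exact hx ⟨hxU, hxΩ⟩ rfl i hi

end Pool.Agent.TF
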