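import Pool.Agent.Lib.MP_9cf0c9_mp.RadOde
import Pool.Agent.Lib.MP_9cf0c9_mp.Pieces

/-! The fan of solutions of `F' = b F₁`, `F₁' = a φ(F)`, `F(0) = z`, `F₁(0) = l`: the
linearisation in the label `l`, estimates in the label, and signs of the label derivatives. -/

set_option autoImplicit false
set_option linter.unusedSectionVars false
set_option linter.unusedVariables false
set_option linter.style.haveILetI false

namespace Pool.Agent.TF.Rad
open MeasureTheory Set Metric Filter Topology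
open scoped ENNReal NNReal

/-- the data of a fan -/
structure FanData (a b φ φ' : ℝ → ℝ) (K : ℝ) : Prop where
  ac : Continuous a
  bc : Continuous b
  a0 : ∀ t, 0 ≤ t → 0 ≤ a t
  b0 : ∀ t, 0 ≤ t → 0 ≤ b t
  dφ : ∀ x, HasDerivAt φ (φ' x) x
  φ0 : ∀ x, 0 ≤ φ x
  φ'0 : ∀ x, 0 ≤ φ' x
  φ'K : ∀ x, φ' x ≤ K
  φ'H : ∀ x y, |φ' x - φ' y| ≤ K * √|x - y|

/-! ### Gronwall estimates -/

theorem gr {y y' : ℝ → ℝ × ℝ} {N K ε δ : ℝ} (hK : 1 ≤ K) (hε : 0 ≤ ε) (hδ : 0 ≤ δ)
    (hy : ∀ t, 0 ≤ t → HasDerivWithinAt y (y' t) (Ici 0) t) (h0 : ‖y 0‖ ≤ δ)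
    (hb : ∀ t ∈ Icc 0 N, ‖y' t‖ ≤ K * ‖y t‖ + ε) :
    ∀ t ∈ Icc 0 N, ‖y t‖ ≤ (δ + ε) * Real.exp (K * N) := by
  intro t ht
  have h1 := norm_le_gronwallBound_of_norm_deriv_right_le (f := y) (f' := y') (K := K) (ε := ε)
    (δ := δ) (a := 0) (b := N)
    (fun t ht => ((hy t ht.1).continuousWithinAt).mono fun s hs => hs.1)
    (fun t ht => (hy t ht.1).mono fun s hs => ht.1.trans hs) h0
    (fun t ht => hb t ⟨ht.1, ht.2.le⟩) t ht
  refine h1.trans ?_
  rw [sub_zero]
  refine (gronwallBound_mono hδ hε (by linarith) ht.2).trans ?_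
  rw [gronwallBound_of_K_ne_0 (by linarith)]
  have h2 : 1 ≤ Real.exp (K * N) := Real.one_le_exp (by nlinarith [ht.1, ht.2])
  have h3 : ε / K ≤ ε := div_le_self hε hK
  have h4 : ε / K * (Real.exp (K * N) - 1) ≤ ε * Real.exp (K * N) :=
    mul_le_mul h3 (by linarith) (by linarith) hε
  simp only
  linarith

variable {a b φ φ' : ℝ → ℝ} {K : ℝ}

theorem FanData.K0 (h : FanData a b φ φ' K) : 0 ≤ K := (h.φ'0 0).trans (h.φ'K 0)

theorem FanData.lip (h : FanData a b φ φ' K) (x y : ℝ) : |φ x - φ y| ≤ K * |x - y| := by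
  have h1 := Convex.norm_image_sub_le_of_norm_hasDerivWithin_le (f := φ) (f' := φ') (s := univ)
    (C := K) (fun x _ => (h.dφ x).hasDerivWithinAt) (fun x _ => by
      rw [Real.norm_eq_abs, abs_of_nonneg (h.φ'0 x)]; exact h.φ'K x) convex_univ
    (mem_univ y) (mem_univ x)
  simpa only [Real.norm_eq_abs] using h1

/-- Taylor expansion of the nonlinearity with the Hoelder rest -/
theorem FanData.taylor (h : FanData a b φ φ' K) (x y : ℝ) :
    |φ y - φ x - φ' x * (y - x)| ≤ K * √|y - x| * |y - x| := by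
  have h1 := Convex.norm_image_sub_le_of_norm_hasDerivWithin_le
    (f := fun t => φ t - φ' x * t) (f' := fun t => φ' t - φ' x) (s := uIcc x y)
    (C := K * √|y - x|) (fun t _ => by
      have h2 := (h.dφ t).sub ((hasDerivAt_id t).const_mul (φ' x))
      simp only [mul_one] at h2
      exact h2.hasDerivWithinAt) (fun t ht => by
      rw [Real.norm_eq_abs]
      refine (h.φ'H t x).trans (mul_le_mul_of_nonneg_left ?_ h.K0)
      refine Real.sqrt_le_sqrt ?_
      exact abs_sub_left_of_mem_uIcc ht) (convex_uIcc x y)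
    (left_mem_uIcc) (right_mem_uIcc)
  simp only [Real.norm_eq_abs] at h1
  have e : φ y - φ' x * y - (φ x - φ' x * x) = φ y - φ x - φ' x * (y - x) := by ring
  rwa [e] at h1

/-- bound for the weight -/
theorem FanData.abd (h : FanData a b φ φ' K) (N : ℝ) :
    ∃ A : ℝ, 1 ≤ A ∧ ∀ t ∈ Icc 0 N, a t ≤ A ∧ b t ≤ A := by
  obtain ⟨A, hA⟩ := isCompact_Icc.exists_bound_of_continuousOn (h.ac.continuousOn (s := Icc 0 N))
  obtain ⟨B, hB⟩ := isCompact_Icc.exists_bound_of_continuousOn (h.bc.continuousOn (s := Icc 0 N))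
  exact ⟨max (max A B) 1, le_max_right _ _, fun t ht =>
    ⟨(((le_abs_self _).trans (hA t ht)).trans (le_max_left _ _)).trans (le_max_left _ _),
      (((le_abs_self _).trans (hB t ht)).trans (le_max_right _ _)).trans (le_max_left _ _)⟩⟩

/-! ### the fan and its linearisation -/

/-- the fan -/
structure FanSol (a b φ φ' : ℝ → ℝ) (z : ℝ) (F F₁ W W₁ : ℝ → ℝ → ℝ) : Prop where
  F0 : ∀ l, F l 0 = z
  F₁0 : ∀ l, F₁ l 0 = l
  W0 : ∀ l, W l 0 = 0
  W₁0 : ∀ l, W₁ l 0 = 1
  dF : ∀ l t, 0 ≤ t → HasDerivWithinAt (F l) (b t * F₁ l t) (Ici 0) t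
  dF₁ : ∀ l t, 0 ≤ t → HasDerivWithinAt (F₁ l) (a t * φ (F l t)) (Ici 0) t
  dW : ∀ l t, 0 ≤ t → HasDerivWithinAt (W l) (b t * W₁ l t) (Ici 0) t
  dW₁ : ∀ l t, 0 ≤ t → HasDerivWithinAt (W₁ l) (a t * φ' (F l t) * W l t) (Ici 0) t

theorem FanData.cont' (h : FanData a b φ φ' K) : Continuous φ' := by
  rw [continuous_iff_continuousAt]
  intro x
  rw [ContinuousAt, tendsto_iff_dist_tendsto_zero]
  have h1 : Tendsto (fun y => K * √|y - x|) (𝓝 x) (𝓝 (K * √|x - x|)) :=
    (by fun_prop : Continuous fun y => K * √|y - x|).tendsto x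
  rw [sub_self, abs_zero, Real.sqrt_zero, mul_zero] at h1
  refine squeeze_zero (fun _ => dist_nonneg) (fun y => ?_) h1
  rw [Real.dist_eq]
  exact h.φ'H y x

theorem exists_fan_sol (h : FanData a b φ φ' K) (z : ℝ) :
    ∃ F F₁ W W₁ : ℝ → ℝ → ℝ, FanSol a b φ φ' z F F₁ W W₁ := by
  have hφc : Continuous φ := continuous_iff_continuousAt.mpr fun x => (h.dφ x).continuousAt
  have h1 : ∀ l : ℝ, ∃ y : ℝ → ℝ × ℝ, y 0 = (z, l) ∧ ∀ t : ℝ, 0 ≤ t →
      HasDerivWithinAt y (b t * (y t).2, a t * φ (y t).1) (Ici 0) t := by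
    intro l
    refine ode_Ici (fun t x => (b t * x.2, a t * φ x.1)) (fun N hN => ?_) (fun x => ?_) (z, l)
    · obtain ⟨A, hA1, hA⟩ := h.abd N
      have hA0 : 0 ≤ A := zero_le_one.trans hA1
      refine ⟨⟨max A (A * K), le_max_of_le_left hA0⟩, fun t ht => ?_⟩
      refine LipschitzWith.of_dist_le_mul fun x y => ?_
      rw [Prod.dist_eq]
      have e1 : dist x.2 y.2 ≤ dist x y := by rw [Prod.dist_eq]; exact le_max_right _ _
      have e2 : dist x.1 y.1 ≤ dist x y := by rw [Prod.dist_eq]; exact le_max_left _ _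
      have hd : 0 ≤ dist x y := dist_nonneg
      show max (dist (b t * x.2) (b t * y.2)) (dist (a t * φ x.1) (a t * φ y.1)) ≤
        max A (A * K) * dist x y
      refine max_le ?_ ?_
      · rw [Real.dist_eq, ← mul_sub, abs_mul, abs_of_nonneg (h.b0 t ht.1), ← Real.dist_eq]
        calc b t * dist x.2 y.2 ≤ A * dist x y := mul_le_mul (hA t ht).2 e1 dist_nonneg hA0
          _ ≤ _ := mul_le_mul_of_nonneg_right (le_max_left _ _) hd
      · rw [Real.dist_eq, ← mul_sub, abs_mul, abs_of_nonneg (h.a0 t ht.1)]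
        have h2 := h.lip x.1 y.1
        rw [← Real.dist_eq x.1 y.1] at h2
        calc a t * |φ x.1 - φ y.1| ≤ A * (K * dist x.1 y.1) :=
              mul_le_mul (hA t ht).1 h2 (abs_nonneg _) hA0
          _ ≤ A * (K * dist x y) :=
              mul_le_mul_of_nonneg_left (mul_le_mul_of_nonneg_left e2 h.K0) hA0
          _ = (A * K) * dist x y := by ring
          _ ≤ _ := mul_le_mul_of_nonneg_right (le_max_right _ _) hd
    · have := h.ac
      have := h.bc
      fun_prop
  choose Y hY0 hY using h1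
  have hYc : ∀ l, ContinuousOn (fun t => (Y l t).1) (Ici 0) := fun l =>
    continuous_fst.comp_continuousOn fun t ht => (hY l t ht).continuousWithinAt
  have h2 : ∀ l : ℝ, ∃ y : ℝ → ℝ × ℝ, y 0 = (0, 1) ∧ ∀ t : ℝ, 0 ≤ t →
      HasDerivWithinAt y (b t * (y t).2, a t * φ' (Y l t).1 * (y t).1) (Ici 0) t := by
    intro l
    refine ode_Ici (fun t x => (b t * x.2, a t * φ' (Y l t).1 * x.1)) (fun N hN => ?_) (fun x => ?_) (0, 1)
    · obtain ⟨A, hA1, hA⟩ := h.abd N
      have hA0 : 0 ≤ A := zero_le_one.trans hA1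
      refine ⟨⟨max A (A * K), le_max_of_le_left hA0⟩, fun t ht => ?_⟩
      refine LipschitzWith.of_dist_le_mul fun x y => ?_
      rw [Prod.dist_eq]
      have e1 : dist x.2 y.2 ≤ dist x y := by rw [Prod.dist_eq]; exact le_max_right _ _
      have e2 : dist x.1 y.1 ≤ dist x y := by rw [Prod.dist_eq]; exact le_max_left _ _
      have hd : 0 ≤ dist x y := dist_nonneg
      show max (dist (b t * x.2) (b t * y.2))
        (dist (a t * φ' (Y l t).1 * x.1) (a t * φ' (Y l t).1 * y.1)) ≤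
        max A (A * K) * dist x y
      refine max_le ?_ ?_
      · rw [Real.dist_eq, ← mul_sub, abs_mul, abs_of_nonneg (h.b0 t ht.1), ← Real.dist_eq]
        calc b t * dist x.2 y.2 ≤ A * dist x y := mul_le_mul (hA t ht).2 e1 dist_nonneg hA0
          _ ≤ _ := mul_le_mul_of_nonneg_right (le_max_left _ _) hd
      · have hc0 : 0 ≤ a t * φ' (Y l t).1 := mul_nonneg (h.a0 t ht.1) (h.φ'0 _)
        rw [Real.dist_eq, ← mul_sub, abs_mul, abs_of_nonneg hc0, ← Real.dist_eq]
        calc a t * φ' (Y l t).1 * dist x.1 y.1 ≤ A * K * dist x y :=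
              mul_le_mul (mul_le_mul (hA t ht).1 (h.φ'K _) (h.φ'0 _) hA0) e2 dist_nonneg
                (mul_nonneg hA0 h.K0)
          _ ≤ _ := mul_le_mul_of_nonneg_right (le_max_right _ _) hd
    · have h3 := h.ac
      have h4 : ContinuousOn (fun t => φ' (Y l t).1) (Ici 0) :=
        h.cont'.comp_continuousOn (hYc l)
      have h5 := h.bc
      exact (h5.continuousOn.mul continuousOn_const).prodMk
        ((h3.continuousOn.mul h4).mul continuousOn_const)
  choose U hU0 hU using h2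
  refine ⟨fun l t => (Y l t).1, fun l t => (Y l t).2, fun l t => (U l t).1, fun l t => (U l t).2,
    ⟨fun l => by simp only [hY0], fun l => by simp only [hY0], fun l => by simp only [hU0],
      fun l => by simp only [hU0], fun l t ht => ?_, fun l t ht => ?_, fun l t ht => ?_,
      fun l t ht => ?_⟩⟩
  · exact ((hasFDerivAt_fst.comp_hasDerivWithinAt t (hY l t ht)))
  · exact ((hasFDerivAt_snd.comp_hasDerivWithinAt t (hY l t ht)))
  · exact ((hasFDerivAt_fst.comp_hasDerivWithinAt t (hU l t ht)))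
  · exact ((hasFDerivAt_snd.comp_hasDerivWithinAt t (hU l t ht)))

/-! ### estimates in the label -/

/-- the estimates of the fan in the label, uniformly on bounded intervals -/
structure LabelEst (F F₁ W W₁ : ℝ → ℝ → ℝ) (N C : ℝ) : Prop where
  C0 : 0 ≤ C
  lF : ∀ l l' t, t ∈ Icc 0 N → |F l' t - F l t| ≤ C * |l' - l|
  lF₁ : ∀ l l' t, t ∈ Icc 0 N → |F₁ l' t - F₁ l t| ≤ C * |l' - l|
  dF : ∀ l l' t, t ∈ Icc 0 N → |F l' t - F l t - (l' - l) * W l t| ≤ C * √|l' - l| * |l' - l|
  dF₁ : ∀ l l' t, t ∈ Icc 0 N → |F₁ l' t - F₁ l t - (l' - l) * W₁ l t| ≤ C * √|l' - l| * |l' - l|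
  lW : ∀ l l' t, t ∈ Icc 0 N → |W l' t - W l t| ≤ C * √|l' - l|
  lW₁ : ∀ l l' t, t ∈ Icc 0 N → |W₁ l' t - W₁ l t| ≤ C * √|l' - l|

theorem FanSol.est (h : FanData a b φ φ' K) {z : ℝ} {F F₁ W W₁ : ℝ → ℝ → ℝ}
    (f : FanSol a b φ φ' z F F₁ W W₁) (N : ℝ) : ∃ C : ℝ, LabelEst F F₁ W W₁ N C := by
  obtain ⟨A, hA1, hA'⟩ := h.abd N
  have hA0 : 0 ≤ A := zero_le_one.trans hA1
  have hA : ∀ t ∈ Icc 0 N, a t ≤ A := fun t ht => (hA' t ht).1
  have hK0 := h.K0
  set B : ℝ := max A (A * K) with hB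
  have hBA : A ≤ B := le_max_left _ _
  have hB1 : 1 ≤ B := hA1.trans hBA
  have hbB : ∀ t ∈ Icc 0 N, ∀ y m : ℝ, |y| ≤ m → |b t * y| ≤ B * m := by
    intro t ht y m hm
    rw [abs_mul, abs_of_nonneg (h.b0 t ht.1)]
    exact mul_le_mul ((hA' t ht).2.trans hBA) hm (abs_nonneg _) (by linarith)
  have hB2 : A * K ≤ B := le_max_right _ _
  have hAK : 0 ≤ A * K := mul_nonneg hA0 hK0
  set E : ℝ := Real.exp (B * N) with hE
  have hE0 : 0 ≤ E := (Real.exp_pos _).le
  -- Lipschitz in the label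
  have e1 : ∀ l l' t, t ∈ Icc 0 N → ‖(F l' t - F l t, F₁ l' t - F₁ l t)‖ ≤ E * |l' - l| := by
    intro l l' t ht
    have h1 := gr (y := fun t => (F l' t - F l t, F₁ l' t - F₁ l t))
      (y' := fun t => (b t * F₁ l' t - b t * F₁ l t, a t * φ (F l' t) - a t * φ (F l t)))
      (N := N) (K := B) (ε := 0) (δ := |l' - l|) hB1 le_rfl (abs_nonneg _)
      (fun t ht => ((f.dF l' t ht).sub (f.dF l t ht)).prodMk
        ((f.dF₁ l' t ht).sub (f.dF₁ l t ht)))
      (by
        simp only [f.F0, f.F₁0, sub_self]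
        rw [Prod.norm_def]
        simp) (fun t ht => ?_) t ht
    · rw [add_zero] at h1
      linarith
    · rw [add_zero, Prod.norm_def, Prod.norm_def]
      simp only [Real.norm_eq_abs]
      set x := |F l' t - F l t|
      set y := |F₁ l' t - F₁ l t| with hy
      have hx0 : 0 ≤ x := abs_nonneg _
      have hm0 : 0 ≤ max x y := hx0.trans (le_max_left _ _)
      refine max_le ?_ ?_
      · rw [← mul_sub]
        exact hbB t ht _ _ (le_max_right _ _)
      · rw [← mul_sub, abs_mul, abs_of_nonneg (h.a0 t ht.1)]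
        calc a t * |φ (F l' t) - φ (F l t)| ≤ A * (K * x) :=
              mul_le_mul (hA t ht) (h.lip _ _) (abs_nonneg _) hA0
          _ = (A * K) * x := by ring
          _ ≤ B * max x y := mul_le_mul hB2 (le_max_left _ _) hx0 (by linarith)
  have e1a : ∀ l l' t, t ∈ Icc 0 N → |F l' t - F l t| ≤ E * |l' - l| := fun l l' t ht =>
    (norm_fst_le (F l' t - F l t, F₁ l' t - F₁ l t)).trans (e1 l l' t ht)
  have e1b : ∀ l l' t, t ∈ Icc 0 N → |F₁ l' t - F₁ l t| ≤ E * |l' - l| := fun l l' t ht =>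
    (norm_snd_le (F l' t - F l t, F₁ l' t - F₁ l t)).trans (e1 l l' t ht)
  -- bound of the linearisation
  have e2 : ∀ l t, t ∈ Icc 0 N → ‖(W l t, W₁ l t)‖ ≤ E := by
    intro l t ht
    have h1 := gr (y := fun t => (W l t, W₁ l t))
      (y' := fun t => (b t * W₁ l t, a t * φ' (F l t) * W l t))
      (N := N) (K := B) (ε := 0) (δ := 1) hB1 le_rfl zero_le_one
      (fun t ht => (f.dW l t ht).prodMk (f.dW₁ l t ht))
      (by
        simp only [f.W0, f.W₁0]
        rw [Prod.norm_def]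
        simp) (fun t ht => ?_) t ht
    · rw [add_zero, one_mul] at h1
      exact h1
    · rw [add_zero, Prod.norm_def, Prod.norm_def]
      simp only [Real.norm_eq_abs]
      set x := |W l t|
      set y := |W₁ l t| with hy
      have hx0 : 0 ≤ x := abs_nonneg _
      have hm0 : 0 ≤ max x y := hx0.trans (le_max_left _ _)
      refine max_le ?_ ?_
      · exact hbB t ht _ _ (le_max_right _ _)
      · have hc0 : 0 ≤ a t * φ' (F l t) := mul_nonneg (h.a0 t ht.1) (h.φ'0 _)
        rw [abs_mul, abs_of_nonneg hc0]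
        calc a t * φ' (F l t) * x ≤ (A * K) * max x y :=
              mul_le_mul (mul_le_mul (hA t ht) (h.φ'K _) (h.φ'0 _) hA0) (le_max_left _ _) hx0 hAK
          _ ≤ _ := mul_le_mul_of_nonneg_right hB2 hm0
  have e2a : ∀ l t, t ∈ Icc 0 N → |W l t| ≤ E := fun l t ht =>
    (norm_fst_le (W l t, W₁ l t)).trans (e2 l t ht)
  -- differentiability
  have hs0 : ∀ l l' : ℝ, 0 ≤ √|l' - l| := fun _ _ => Real.sqrt_nonneg _
  have hsF : ∀ l l' t, t ∈ Icc 0 N → √|F l' t - F l t| ≤ √E * √|l' - l| := by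
    intro l l' t ht
    rw [← Real.sqrt_mul hE0]
    exact Real.sqrt_le_sqrt (e1a l l' t ht)
  have e3 : ∀ l l' t, t ∈ Icc 0 N → ‖(F l' t - F l t - (l' - l) * W l t,
      F₁ l' t - F₁ l t - (l' - l) * W₁ l t)‖ ≤ (A * K * √E * E * E) * √|l' - l| * |l' - l| := by
    intro l l' t ht
    have hε0 : 0 ≤ A * K * (√E * √|l' - l|) * (E * |l' - l|) := by positivity
    have h1 := gr (y := fun t => (F l' t - F l t - (l' - l) * W l t,
        F₁ l' t - F₁ l t - (l' - l) * W₁ l t))
      (y' := fun t => (b t * F₁ l' t - b t * F₁ l t - (l' - l) * (b t * W₁ l t),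
        a t * φ (F l' t) - a t * φ (F l t) - (l' - l) * (a t * φ' (F l t) * W l t)))
      (N := N) (K := B) (ε := A * K * (√E * √|l' - l|) * (E * |l' - l|)) (δ := 0) hB1 hε0 le_rfl
      (fun t ht => (((f.dF l' t ht).sub (f.dF l t ht)).sub ((f.dW l t ht).const_mul _)).prodMk
        (((f.dF₁ l' t ht).sub (f.dF₁ l t ht)).sub ((f.dW₁ l t ht).const_mul _)))
      (by
        simp only [f.F0, f.F₁0, f.W0, f.W₁0, sub_self, mul_zero, mul_one]
        rw [Prod.norm_def]
        simp) (fun t ht => ?_) t ht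
    · rw [zero_add] at h1
      refine h1.trans (le_of_eq ?_)
      ring
    · rw [Prod.norm_def, Prod.norm_def]
      simp only [Real.norm_eq_abs]
      set x := |F l' t - F l t - (l' - l) * W l t|
      set y := |F₁ l' t - F₁ l t - (l' - l) * W₁ l t| with hy
      have hx0 : 0 ≤ x := abs_nonneg _
      have hm0 : 0 ≤ max x y := hx0.trans (le_max_left _ _)
      refine max_le ?_ ?_
      · have e0 : b t * F₁ l' t - b t * F₁ l t - (l' - l) * (b t * W₁ l t) =
            b t * (F₁ l' t - F₁ l t - (l' - l) * W₁ l t) := by ring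
        rw [e0]
        refine (hbB t ht _ _ (le_max_right x _)).trans ?_
        linarith
      · have e : a t * φ (F l' t) - a t * φ (F l t) - (l' - l) * (a t * φ' (F l t) * W l t) =
            a t * ((φ (F l' t) - φ (F l t) - φ' (F l t) * (F l' t - F l t)) +
              φ' (F l t) * (F l' t - F l t - (l' - l) * W l t)) := by ring
        rw [e, abs_mul, abs_of_nonneg (h.a0 t ht.1)]
        have h2 : |(φ (F l' t) - φ (F l t) - φ' (F l t) * (F l' t - F l t)) +
              φ' (F l t) * (F l' t - F l t - (l' - l) * W l t)| ≤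
            K * (√E * √|l' - l|) * (E * |l' - l|) + K * x := by
          refine (abs_add_le _ _).trans (add_le_add ?_ ?_)
          · refine (h.taylor (F l t) (F l' t)).trans ?_
            exact mul_le_mul (mul_le_mul_of_nonneg_left (hsF l l' t ht) hK0) (e1a l l' t ht)
              (abs_nonneg _) (by positivity)
          · rw [abs_mul, abs_of_nonneg (h.φ'0 _)]
            exact mul_le_mul_of_nonneg_right (h.φ'K _) hx0
        calc a t * _ ≤ A * (K * (√E * √|l' - l|) * (E * |l' - l|) + K * x) :=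
              mul_le_mul (hA t ht) h2 (abs_nonneg _) hA0
          _ = (A * K) * x + A * K * (√E * √|l' - l|) * (E * |l' - l|) := by ring
          _ ≤ B * max x y + A * K * (√E * √|l' - l|) * (E * |l' - l|) := by
              have := mul_le_mul hB2 (le_max_left x y) hx0 (by linarith : 0 ≤ B)
              linarith
  -- continuity of the linearisation
  have e4 : ∀ l l' t, t ∈ Icc 0 N → ‖(W l' t - W l t, W₁ l' t - W₁ l t)‖ ≤
      (A * K * √E * E * E) * √|l' - l| := by
    intro l l' t ht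
    have hε0 : 0 ≤ A * K * (√E * √|l' - l|) * E := by positivity
    have h1 := gr (y := fun t => (W l' t - W l t, W₁ l' t - W₁ l t))
      (y' := fun t => (b t * W₁ l' t - b t * W₁ l t,
        a t * φ' (F l' t) * W l' t - a t * φ' (F l t) * W l t))
      (N := N) (K := B) (ε := A * K * (√E * √|l' - l|) * E) (δ := 0) hB1 hε0 le_rfl
      (fun t ht => ((f.dW l' t ht).sub (f.dW l t ht)).prodMk
        ((f.dW₁ l' t ht).sub (f.dW₁ l t ht)))
      (by
        simp only [f.W0, f.W₁0, sub_self]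
        rw [Prod.norm_def]
        simp) (fun t ht => ?_) t ht
    · rw [zero_add] at h1
      refine h1.trans (le_of_eq ?_)
      ring
    · rw [Prod.norm_def, Prod.norm_def]
      simp only [Real.norm_eq_abs]
      set x := |W l' t - W l t|
      set y := |W₁ l' t - W₁ l t| with hy
      have hx0 : 0 ≤ x := abs_nonneg _
      have hm0 : 0 ≤ max x y := hx0.trans (le_max_left _ _)
      refine max_le ?_ ?_
      · rw [← mul_sub]
        refine (hbB t ht _ _ (le_max_right x _)).trans ?_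
        linarith
      · have e : a t * φ' (F l' t) * W l' t - a t * φ' (F l t) * W l t =
            a t * (φ' (F l' t) * (W l' t - W l t) + (φ' (F l' t) - φ' (F l t)) * W l t) := by ring
        rw [e, abs_mul, abs_of_nonneg (h.a0 t ht.1)]
        have h2 : |φ' (F l' t) * (W l' t - W l t) + (φ' (F l' t) - φ' (F l t)) * W l t| ≤
            K * x + K * (√E * √|l' - l|) * E := by
          refine (abs_add_le _ _).trans (add_le_add ?_ ?_)
          · rw [abs_mul, abs_of_nonneg (h.φ'0 _)]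
            exact mul_le_mul_of_nonneg_right (h.φ'K _) hx0
          · rw [abs_mul]
            refine mul_le_mul ((h.φ'H _ _).trans ?_) (e2a l t ht) (abs_nonneg _) (by positivity)
            exact mul_le_mul_of_nonneg_left (hsF l l' t ht) hK0
        calc a t * _ ≤ A * (K * x + K * (√E * √|l' - l|) * E) :=
              mul_le_mul (hA t ht) h2 (abs_nonneg _) hA0
          _ = (A * K) * x + A * K * (√E * √|l' - l|) * E := by ring
          _ ≤ B * max x y + A * K * (√E * √|l' - l|) * E := by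
              have := mul_le_mul hB2 (le_max_left x y) hx0 (by linarith : 0 ≤ B)
              linarith
  set C : ℝ := max E (A * K * √E * E * E) with hC
  have c1 : E ≤ C := le_max_left _ _
  have c2 : A * K * √E * E * E ≤ C := le_max_right _ _
  refine ⟨C, ⟨hE0.trans c1, fun l l' t ht => ?_, fun l l' t ht => ?_, fun l l' t ht => ?_,
    fun l l' t ht => ?_, fun l l' t ht => ?_, fun l l' t ht => ?_⟩⟩
  · exact (e1a l l' t ht).trans (mul_le_mul_of_nonneg_right c1 (abs_nonneg _))
  · exact (e1b l l' t ht).trans (mul_le_mul_of_nonneg_right c1 (abs_nonneg _))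
  · refine ((norm_fst_le _).trans (e3 l l' t ht)).trans ?_
    exact mul_le_mul_of_nonneg_right (mul_le_mul_of_nonneg_right c2 (hs0 _ _)) (abs_nonneg _)
  · refine ((norm_snd_le _).trans (e3 l l' t ht)).trans ?_
    exact mul_le_mul_of_nonneg_right (mul_le_mul_of_nonneg_right c2 (hs0 _ _)) (abs_nonneg _)
  · exact ((norm_fst_le _).trans (e4 l l' t ht)).trans (mul_le_mul_of_nonneg_right c2 (hs0 _ _))
  · exact ((norm_snd_le _).trans (e4 l l' t ht)).trans (mul_le_mul_of_nonneg_right c2 (hs0 _ _))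

end Pool.Agent.TF.Rad
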