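import Pool.Agent.Lib.MP_9cf0c9_mp.Col58H

/-! Collinear nuclei: the bounds far from the nuclei (a structure; the interface between the
pointwise bounds at infinity and the fluxes at infinity). -/

set_option autoImplicit false
set_option linter.unusedSectionVars false
set_option linter.unusedVariables false

namespace Pool.Agent.TF.Col
open MeasureTheory Set Metric Filter Topology
open scoped ENNReal NNReal RealInnerProductSpace Gradient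
open Pool.Agent.TF.Grd

variable {ι : Type*} [Fintype ι]

/-- bounds far from the nuclei -/
structure FarB (φ₀ : ℝ) (z : ι → ℝ) (R : ι → X) (ρ : X → ℝ) (H : X → X →L[ℝ] X)
    (C N : ℝ) : Prop where
  C0 : 0 ≤ C
  N0 : 1 ≤ N
  big : ∀ i, ‖R i‖ < N
  rho : ∀ x, N ≤ ‖x‖ → ρ x = 0
  E : ∀ x, N ≤ ‖x‖ → ‖psi' z R ρ x‖ ≤ C * (‖x‖ ^ 2)⁻¹
  Hb : ∀ x, N ≤ ‖x‖ → ‖H x‖ ≤ C * (‖x‖ ^ 3)⁻¹
  p : ∀ x, x ∉ Col.ax → N ≤ ‖x‖ → pf z R ρ x ≤ C * (‖x‖ ^ 3)⁻¹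
  p' : ∀ x, x ∉ Col.ax → N ≤ ‖x‖ → ‖pf' z R ρ H x‖ ≤ C * (‖x‖ ^ 4)⁻¹
  pc' : ∀ x, x ∉ Col.ax → N ≤ ‖x‖ →
    pf z R ρ x * ‖cf' z R ρ H x‖ ≤ C * (‖x‖ ^ 3)⁻¹

end Pool.Agent.TF.Col
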