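import Pool.Agent.Lib.MP_9cf0c9_mp.GradDefs

/-! First derivatives of the fields of the gradient trial: `ψ`, `G`, `s (ψ, G)`, `s G - c`. -/

set_option linter.unusedSectionVars false
set_option linter.unusedVariables false

namespace Pool.Agent.TF.Grd
open MeasureTheory Set Metric Filter Topology
open scoped ENNReal NNReal RealInnerProductSpace Gradient

variable {ι : Type*} [Fintype ι]

/-- off the nuclei -/
def Off (R : ι → X) (x : X) : Prop := ∀ i, x ≠ R i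

theorem off_nhds (R : ι → X) {x : X} (hx : ∀ i, x ≠ R i) :
    ∃ δ : ℝ, 0 < δ ∧ ∀ y ∈ ball x δ, ∀ i, y ≠ R i := by
  have h : IsOpen (range R)ᶜ := (finite_range R).isClosed.isOpen_compl
  obtain ⟨δ, hδ, h1⟩ := Metric.isOpen_iff.mp h x (by rintro ⟨i, hi⟩; exact hx i hi.symm)
  exact ⟨δ, hδ, fun y hy i hi => h1 hy ⟨i, hi.symm⟩⟩

theorem off_eventually (R : ι → X) {x : X} (hx : ∀ i, x ≠ R i) :
    ∀ᶠ y in 𝓝 x, ∀ i, y ≠ R i := by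
  obtain ⟨δ, hδ, h⟩ := off_nhds R hx
  filter_upwards [ball_mem_nhds x hδ] with y hy using h y hy

theorem off_ae (R : ι → X) : ∀ᵐ x : X, ∀ i, x ≠ R i := by
  have := nontriv (V := X)
  exact ae_off_range R

/-- continuous gradient off the nuclei implies locally Lipschitz there -/
theorem lipAt_off {R : ι → X} {k : X → ℝ} {k' : X → X}
    (h : ∀ x, (∀ i, x ≠ R i) → HasGradientAt k (k' x) x)
    (hc : ∀ x, (∀ i, x ≠ R i) → ContinuousAt k' x) :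
    ∀ x, (∀ i, x ≠ R i) → LipAt k x := by
  intro x hx
  obtain ⟨δ, hδ, h1⟩ := off_nhds R hx
  exact lipAt_of_gradient hδ (fun y hy => h y (h1 y hy)) (hc x hx)

theorem locLip_off {R : ι → X} {k : X → ℝ} {k' : X → X}
    (h : ∀ x, (∀ i, x ≠ R i) → HasGradientAt k (k' x) x)
    (hc : ∀ x, (∀ i, x ≠ R i) → ContinuousAt k' x) : Flux.LocLip R k :=
  locLip_of_lipAt (lipAt_off h hc)

theorem locInt_off {E : Type*} [NormedAddCommGroup E] {R : ι → X} {f : X → E}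
    (h : ∀ x, (∀ i, x ≠ R i) → ContinuousAt f x) : Flux.LocInt R f := by
  intro K hK hR
  refine ContinuousOn.integrableOn_compact hK fun x hx => (h x fun i hi => ?_).continuousWithinAt
  exact hR i (hi ▸ hx)

section sol
variable {z : ι → ℝ} {R : ι → X} {φ₀ : ℝ} {ρ : X → ℝ}

theorem pot_grad (hz : ∀ i, 0 ≤ z i) (hφ : 0 < φ₀) (hρ : TC ρ)
    (heq : ∀ x, ρ x = tf (Vpt z R x - pot ρ x - φ₀)) {x : X} (hx : ∀ i, x ≠ R i) :
    HasGradientAt (pot ρ) (gradV ρ x) x ∧ ContinuousAt (gradV ρ) x := by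
  have hp0 : ∀ x, 0 ≤ pot ρ x := pot_nonneg hρ.nonneg
  have hle : ∀ x, |ρ x| ≤ gdom φ₀ z R x := fun x => by
    rw [abs_of_nonneg (hρ.nonneg x), heq x]
    exact tf_mono (by have := hp0 x; linarith)
  have hc : ContinuousAt (gdom φ₀ z R) x :=
    tf_continuous.continuousAt.comp ((Vpt_continuousAt z R hx).sub continuousAt_const)
  obtain ⟨δ, hδ, M, hM⟩ := locbdd_of_continuousAt hle hc
  exact (loc_grad hρ.meas hρ.int hδ hM).2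

theorem psi_grad (hz : ∀ i, 0 ≤ z i) (hφ : 0 < φ₀) (hρ : TC ρ)
    (heq : ∀ x, ρ x = tf (Vpt z R x - pot ρ x - φ₀)) {x : X} (hx : ∀ i, x ≠ R i) :
    HasGradientAt (psi φ₀ z R ρ) (psi' z R ρ x) x := by
  have h1 := (hasGradientAt_Vpt z R hx).hasFDerivAt.sub
    (pot_grad hz hφ hρ heq hx).1.hasFDerivAt
  rw [← map_sub] at h1
  exact h1.sub_const φ₀

theorem psi_cont (hz : ∀ i, 0 ≤ z i) (hφ : 0 < φ₀) (hρ : TC ρ)
    (heq : ∀ x, ρ x = tf (Vpt z R x - pot ρ x - φ₀)) {x : X} (hx : ∀ i, x ≠ R i) :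
    ContinuousAt (psi φ₀ z R ρ) x :=
  (psi_grad hz hφ hρ heq hx).hasFDerivAt.continuousAt

variable {H : X → X →L[ℝ] X}

theorem HessSol.contAt (h : HessSol z R ρ H) {x : X} (hx : ∀ i, x ≠ R i) : ContinuousAt H x := by
  refine h.cont.continuousAt ?_
  exact (finite_range R).isClosed.isOpen_compl.mem_nhds (by rintro ⟨i, hi⟩; exact hx i hi.symm)

theorem HessSol.cont' (h : HessSol z R ρ H) {x : X} (hx : ∀ i, x ≠ R i) :
    ContinuousAt (psi' z R ρ) x := (h.deriv x hx).continuousAt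

variable {ε : ℝ}

theorem Gm_continuous (ε : ℝ) : Continuous (Gm ε) := by
  unfold Gm
  fun_prop

theorem le_Gm (ε : ℝ) (v : X) : ‖v‖ ≤ Gm ε v := by
  rw [← Real.sqrt_sq (norm_nonneg v)]
  exact Real.sqrt_le_sqrt (by nlinarith [sq_nonneg ε])

theorem eps_le_Gm {ε : ℝ} (hε : 0 ≤ ε) (v : X) : ε ≤ Gm ε v := by
  conv_lhs => rw [← Real.sqrt_sq hε]
  exact Real.sqrt_le_sqrt (by nlinarith [sq_nonneg ‖v‖])

theorem G_grad (h : HessSol z R ρ H) (hε : 0 < ε) {x : X} (hx : ∀ i, x ≠ R i) :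
    HasGradientAt (fun y => Gm ε (psi' z R ρ y)) (gG ε (psi' z R ρ x) (H x)) x := by
  set v : X := psi' z R ρ x with hv
  have hG := Gm_pos hε v
  have h1 : HasFDerivAt (fun y => ‖psi' z R ρ y‖ ^ 2 + ε ^ 2)
      ((2 • (innerSL ℝ v)).comp (H x)) x :=
    ((hasStrictFDerivAt_norm_sq v).hasFDerivAt.comp x (h.deriv x hx)).add_const _
  have h2 := h1.sqrt (by
    have : 0 < ‖psi' z R ρ x‖ ^ 2 + ε ^ 2 := by positivity
    exact this.ne')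
  rw [hasGradientAt_iff_hasFDerivAt]
  refine h2.congr_fderiv ?_
  ext a
  have e1 : ⟪v, (H x) a⟫ = ⟪(H x) v, a⟫ := (h.symm x hx v a).symm
  simp only [smul_apply, ContinuousLinearMap.comp_apply, innerSL_apply_apply, smul_eq_mul,
    InnerProductSpace.toDual_apply_apply, gG, map_smul, e1, nsmul_eq_mul]
  have e2 : √(‖psi' z R ρ x‖ ^ 2 + ε ^ 2) = Gm ε v := rfl
  rw [e2]
  field_simp
  push_cast
  ring

theorem G_grad_cont (h : HessSol z R ρ H) (hε : 0 < ε) {x : X} (hx : ∀ i, x ≠ R i) :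
    ContinuousAt (fun y => gG ε (psi' z R ρ y) (H y)) x := by
  have h1 := h.contAt hx
  have h2 := h.cont' hx
  have h3 : ContinuousAt (fun y => Gm ε (psi' z R ρ y)) x :=
    (Gm_continuous ε).continuousAt.comp h2
  exact h1.clm_apply ((h3.inv₀ (Gm_pos hε _).ne').smul h2)

/-- `s (ψ, G)` -/
noncomputable def Sf (ε φ₀ : ℝ) (s : ℝ → ℝ → ℝ) (z : ι → ℝ) (R : ι → X) (ρ : X → ℝ) (x : X) : ℝ :=
  s (psi φ₀ z R ρ x) (Gm ε (psi' z R ρ x))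

/-- the gradient of `s (ψ, G)` -/
noncomputable def Sf' (ε φ₀ : ℝ) (s₁ s₂ : ℝ → ℝ → ℝ) (z : ι → ℝ) (R : ι → X) (ρ : X → ℝ)
    (H : X → X →L[ℝ] X) (x : X) : X :=
  gs ε (Sf ε φ₀ s₁ z R ρ x) (Sf ε φ₀ s₂ z R ρ x) (psi' z R ρ x) (H x)

/-- the multiplier `s G - c` -/
noncomputable def Yf (ε φ₀ : ℝ) (s : ℝ → ℝ → ℝ) (c : ℝ) (z : ι → ℝ) (R : ι → X) (ρ : X → ℝ)
    (x : X) : ℝ := Sf ε φ₀ s z R ρ x * Gm ε (psi' z R ρ x) - c

noncomputable def Yf' (ε φ₀ : ℝ) (s s₁ s₂ : ℝ → ℝ → ℝ) (z : ι → ℝ) (R : ι → X) (ρ : X → ℝ)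
    (H : X → X →L[ℝ] X) (x : X) : X :=
  Gm ε (psi' z R ρ x) • Sf' ε φ₀ s₁ s₂ z R ρ H x +
    Sf ε φ₀ s z R ρ x • gG ε (psi' z R ρ x) (H x)

variable {q G₁ c : ℝ} {s s₁ s₂ e : ℝ → ℝ → ℝ}

theorem Sf_grad (hz : ∀ i, 0 ≤ z i) (hφ : 0 < φ₀) (hρ : TC ρ)
    (heq : ∀ x, ρ x = tf (Vpt z R x - pot ρ x - φ₀)) (h : HessSol z R ρ H) (hε : 0 < ε)
    (hs : RadFn q G₁ s s₁ s₂ e) {x : X} (hx : ∀ i, x ≠ R i) :
    HasGradientAt (Sf ε φ₀ s z R ρ) (Sf' ε φ₀ s₁ s₂ z R ρ H x) x := by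
  have h1 := psi_grad hz hφ hρ heq hx
  have h2 := G_grad h hε hx
  have h3 := rad_deriv hs (psi φ₀ z R ρ x) (Gm ε (psi' z R ρ x)) (Gm_pos hε _)
  have h4 := h3.comp x (h1.hasFDerivAt.prodMk h2.hasFDerivAt)
  rw [hasGradientAt_iff_hasFDerivAt]
  refine h4.congr_fderiv ?_
  ext a
  simp only [ContinuousLinearMap.comp_apply, add_apply, smul_apply,
    ContinuousLinearMap.prod_apply, ContinuousLinearMap.coe_fst', ContinuousLinearMap.coe_snd',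
    InnerProductSpace.toDual_apply_apply, Sf', gs, Sf, inner_add_left, real_inner_smul_left,
    smul_eq_mul]

theorem Sf_cont (hz : ∀ i, 0 ≤ z i) (hφ : 0 < φ₀) (hρ : TC ρ)
    (heq : ∀ x, ρ x = tf (Vpt z R x - pot ρ x - φ₀)) (h : HessSol z R ρ H) (hε : 0 < ε)
    {t : ℝ → ℝ → ℝ} (ht : ContinuousOn (fun q : ℝ × ℝ => t q.1 q.2) {q | 0 < q.2})
    {x : X} (hx : ∀ i, x ≠ R i) : ContinuousAt (Sf ε φ₀ t z R ρ) x := by
  have h1 := psi_cont hz hφ hρ heq hx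
  have h2 : ContinuousAt (fun y => Gm ε (psi' z R ρ y)) x :=
    (Gm_continuous ε).continuousAt.comp (h.cont' hx)
  have h3 : ContinuousAt (fun q : ℝ × ℝ => t q.1 q.2)
      (psi φ₀ z R ρ x, Gm ε (psi' z R ρ x)) :=
    ht.continuousAt ((isOpen_lt continuous_const continuous_snd).mem_nhds (Gm_pos hε _))
  exact ContinuousAt.comp (f := fun y => (psi φ₀ z R ρ y, Gm ε (psi' z R ρ y))) h3
    (h1.prodMk h2)

theorem Sf'_cont (hz : ∀ i, 0 ≤ z i) (hφ : 0 < φ₀) (hρ : TC ρ)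
    (heq : ∀ x, ρ x = tf (Vpt z R x - pot ρ x - φ₀)) (h : HessSol z R ρ H) (hε : 0 < ε)
    (hs : RadFn q G₁ s s₁ s₂ e) {x : X} (hx : ∀ i, x ≠ R i) :
    ContinuousAt (Sf' ε φ₀ s₁ s₂ z R ρ H) x := by
  have h1 := Sf_cont hz hφ hρ heq h hε (rad_cont₁ hs) hx
  have h2 := Sf_cont hz hφ hρ heq h hε (rad_cont₂ hs) hx
  exact (h1.smul (h.cont' hx)).add (h2.smul (G_grad_cont h hε hx))

theorem Yf_grad (hz : ∀ i, 0 ≤ z i) (hφ : 0 < φ₀) (hρ : TC ρ)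
    (heq : ∀ x, ρ x = tf (Vpt z R x - pot ρ x - φ₀)) (h : HessSol z R ρ H) (hε : 0 < ε)
    (hs : RadFn q G₁ s s₁ s₂ e) (c : ℝ) {x : X} (hx : ∀ i, x ≠ R i) :
    HasGradientAt (Yf ε φ₀ s c z R ρ) (Yf' ε φ₀ s s₁ s₂ z R ρ H x) x := by
  have h1 := (Sf_grad hz hφ hρ heq h hε hs hx).hasFDerivAt
  have h2 := (G_grad h hε hx).hasFDerivAt
  rw [hasGradientAt_iff_hasFDerivAt]
  refine ((h1.mul h2).sub_const c).congr_fderiv ?_
  rw [Yf', map_add, map_smul, map_smul]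
  exact add_comm _ _

theorem Yf'_cont (hz : ∀ i, 0 ≤ z i) (hφ : 0 < φ₀) (hρ : TC ρ)
    (heq : ∀ x, ρ x = tf (Vpt z R x - pot ρ x - φ₀)) (h : HessSol z R ρ H) (hε : 0 < ε)
    (hs : RadFn q G₁ s s₁ s₂ e) {x : X} (hx : ∀ i, x ≠ R i) :
    ContinuousAt (Yf' ε φ₀ s s₁ s₂ z R ρ H) x := by
  have h1 := Sf'_cont hz hφ hρ heq h hε hs hx
  have h2 := Sf_cont hz hφ hρ heq h hε (rad_cont hs) hx
  have h3 : ContinuousAt (fun y => Gm ε (psi' z R ρ y)) x :=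
    (Gm_continuous ε).continuousAt.comp (h.cont' hx)
  exact (h3.smul h1).add (h2.smul (G_grad_cont h hε hx))

theorem Yf_lip (hz : ∀ i, 0 ≤ z i) (hφ : 0 < φ₀) (hρ : TC ρ)
    (heq : ∀ x, ρ x = tf (Vpt z R x - pot ρ x - φ₀)) (h : HessSol z R ρ H) (hε : 0 < ε)
    (hs : RadFn q G₁ s s₁ s₂ e) (c : ℝ) :
    Flux.LocLip R (Yf ε φ₀ s c z R ρ) ∧ ∀ x, (∀ i, x ≠ R i) → LipAt (Yf ε φ₀ s c z R ρ) x :=
  ⟨locLip_off (fun _ => Yf_grad hz hφ hρ heq h hε hs c)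
    (fun _ => Yf'_cont hz hφ hρ heq h hε hs),
   lipAt_off (fun _ => Yf_grad hz hφ hρ heq h hε hs c)
    (fun _ => Yf'_cont hz hφ hρ heq h hε hs)⟩

/-- the square of `s (ψ, G)` -/
theorem Sq_grad (hz : ∀ i, 0 ≤ z i) (hφ : 0 < φ₀) (hρ : TC ρ)
    (heq : ∀ x, ρ x = tf (Vpt z R x - pot ρ x - φ₀)) (h : HessSol z R ρ H) (hε : 0 < ε)
    (hs : RadFn q G₁ s s₁ s₂ e) {x : X} (hx : ∀ i, x ≠ R i) :
    HasGradientAt (fun y => Sf ε φ₀ s z R ρ y ^ 2)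
      ((2 * Sf ε φ₀ s z R ρ x) • Sf' ε φ₀ s₁ s₂ z R ρ H x) x := by
  have h1 := (Sf_grad hz hφ hρ heq h hε hs hx).hasFDerivAt
  rw [hasGradientAt_iff_hasFDerivAt]
  refine (h1.pow 2).congr_fderiv ?_
  rw [map_smul]
  simp

theorem Sq_cont (hz : ∀ i, 0 ≤ z i) (hφ : 0 < φ₀) (hρ : TC ρ)
    (heq : ∀ x, ρ x = tf (Vpt z R x - pot ρ x - φ₀)) (h : HessSol z R ρ H) (hε : 0 < ε)
    (hs : RadFn q G₁ s s₁ s₂ e) {x : X} (hx : ∀ i, x ≠ R i) :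
    ContinuousAt (fun y => (2 * Sf ε φ₀ s z R ρ y) • Sf' ε φ₀ s₁ s₂ z R ρ H y) x := by
  have h2 := Sf_cont hz hφ hρ heq h hε (rad_cont hs) hx
  exact (continuousAt_const.mul h2).smul (Sf'_cont hz hφ hρ heq h hε hs hx)

theorem Sq_lip (hz : ∀ i, 0 ≤ z i) (hφ : 0 < φ₀) (hρ : TC ρ)
    (heq : ∀ x, ρ x = tf (Vpt z R x - pot ρ x - φ₀)) (h : HessSol z R ρ H) (hε : 0 < ε)
    (hs : RadFn q G₁ s s₁ s₂ e) : Flux.LocLip R (fun y => Sf ε φ₀ s z R ρ y ^ 2) :=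
  locLip_off (fun _ => Sq_grad hz hφ hρ heq h hε hs) (fun _ => Sq_cont hz hφ hρ heq h hε hs)

/-! ### bounds -/

theorem rad_q_nonneg (hs : RadFn q G₁ s s₁ s₂ e) : 0 ≤ q :=
  le_trans (by have := hs.pos 0 1 one_pos; positivity) (hs.mass 0 1 one_pos)

theorem rad_le_sqrt (hs : RadFn q G₁ s s₁ s₂ e) (p : ℝ) {g : ℝ} (hg : 0 < g) :
    s p g ≤ √(q / g) := by
  apply Real.le_sqrt_of_sq_le
  rw [le_div_iff₀ hg]
  exact hs.mass p g hg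

theorem rad_sq_mul_sq (hs : RadFn q G₁ s s₁ s₂ e) (p : ℝ) {g : ℝ} (hε : 0 < ε) (hg : ε ≤ g) :
    s p g ^ 2 * ε ^ 2 ≤ q * ε := by
  have h1 := hs.mass p g (hε.trans_le hg)
  have h2 : s p g ^ 2 * ε ≤ s p g ^ 2 * g := mul_le_mul_of_nonneg_left hg (sq_nonneg _)
  nlinarith

theorem rad_mul_le (hs : RadFn q G₁ s s₁ s₂ e) (p : ℝ) {g : ℝ} (hg : 0 < g) :
    s p g * g ≤ √(q * g) := by
  apply Real.le_sqrt_of_sq_le
  have h1 := hs.mass p g hg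
  nlinarith

theorem Sf_pos (hε : 0 < ε) (hs : RadFn q G₁ s s₁ s₂ e) (x : X) : 0 < Sf ε φ₀ s z R ρ x :=
  hs.pos _ _ (Gm_pos hε _)

theorem Sf_flux (hε : 0 < ε) (hs : RadFn q G₁ s s₁ s₂ e) (x : X) :
    Sf ε φ₀ s z R ρ x ^ 2 * Gm ε (psi' z R ρ x) ≤ q := hs.mass _ _ (Gm_pos hε _)

theorem Sf_sq_eps (hε : 0 < ε) (hs : RadFn q G₁ s s₁ s₂ e) (x : X) :
    Sf ε φ₀ s z R ρ x ^ 2 * ε ^ 2 ≤ q * ε := rad_sq_mul_sq hs _ hε (eps_le_Gm hε.le _)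

theorem Sf_sq_le (hε : 0 < ε) (hs : RadFn q G₁ s s₁ s₂ e) (x : X) :
    Sf ε φ₀ s z R ρ x ^ 2 ≤ q / ε := by
  rw [le_div_iff₀ hε]
  have := Sf_sq_eps (φ₀ := φ₀) (z := z) (R := R) (ρ := ρ) hε hs x
  have h2 : (Sf ε φ₀ s z R ρ x ^ 2 * ε) * ε ≤ q * ε := by rw [mul_assoc, ← sq]; exact this
  exact le_of_mul_le_mul_right h2 hε

/-- the limit constant -/
theorem rad_const_bound (hs : RadFn q G₁ s s₁ s₂ e) (p : ℝ) (hε : 0 < ε) :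
    0 < s p ε * ε ∧ s p ε * ε ≤ √(q * ε) := ⟨mul_pos (hs.pos p ε hε) hε, rad_mul_le hs p hε⟩

end sol

end Pool.Agent.TF.Grd
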