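import Pool.Agent.Lib.MP_9cf0c9_mp.GradErr
import Pool.Agent.Lib.MP_9cf0c9_mp.PtwEps23

/-! Assembly of the calibration for the gradient trial. -/

set_option linter.unusedSectionVars false
set_option linter.unusedVariables false

namespace Pool.Agent.TF.Grd
open MeasureTheory Set Metric Filter Topology
open scoped ENNReal NNReal RealInnerProductSpace Gradient

variable {ι : Type*} [Fintype ι]

/-- a variant of the condition at infinity -/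
theorem hinf_of' {z : ι → ℝ} (hz : ∀ i, 0 ≤ z i) (R : ι → X) {φ₀ : ℝ} (hφ : 0 < φ₀)
    {ρ : X → ℝ} (hρ : TC ρ) (heq : ∀ x, ρ x = tf (Vpt z R x - pot ρ x - φ₀))
    {H : X → ℝ} {A : X → X}
    (hH : ∀ ε : ℝ, 0 < ε → ∃ N : ℝ, ∀ᵐ x : X, N < ‖x‖ → |H x| ≤ ε)
    (hA : ∃ B N : ℝ, 0 ≤ B ∧ 0 < N ∧ ∀ᵐ x : X, N < ‖x‖ → ‖A x‖ ≤ B * (‖x‖ ^ 3)⁻¹) :
    ∀ δ : ℝ, 0 < δ → ∃ N : ℝ, ∀ᵐ x : X, N < ‖x‖ →
      -δ ≤ 4 * Real.pi * ‖x‖ ^ 2 * ⟪H x • (gVpt z R x - gradV ρ x) + A x, ‖x‖⁻¹ • x⟫ := by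
  intro δ hδ
  have hpi := Real.pi_pos
  obtain ⟨N1, hN1⟩ := hinf_of (A := fun _ => (0 : X)) hz R hφ hρ heq hH
    ⟨0, Eventually.of_forall fun x _ => by rw [inner_zero_left]⟩ (δ / 2) (by positivity)
  obtain ⟨B, N2, hB, hN2, hN2'⟩ := hA
  refine ⟨max N1 (max N2 (8 * Real.pi * B / δ)), ?_⟩
  filter_upwards [hN1, hN2'] with x h1 h2 hx
  have hx1 : N1 < ‖x‖ := (le_max_left _ _).trans_lt hx
  have hx2 : N2 < ‖x‖ := ((le_max_left _ _).trans (le_max_right _ _)).trans_lt hx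
  have hx3 : 8 * Real.pi * B / δ < ‖x‖ := ((le_max_right _ _).trans (le_max_right _ _)).trans_lt hx
  have hn : 0 < ‖x‖ := hN2.trans hx2
  have g1 := h1 hx1
  have g2 := h2 hx2
  rw [add_zero] at g1
  rw [inner_add_left, mul_add]
  have hu : ‖‖x‖⁻¹ • x‖ = 1 := by
    rw [norm_smul, norm_inv, norm_norm, inv_mul_cancel₀ hn.ne']
  have p1 : |⟪A x, ‖x‖⁻¹ • x⟫| ≤ B * (‖x‖ ^ 3)⁻¹ := by
    refine (abs_real_inner_le_norm _ _).trans ?_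
    rw [hu, mul_one]
    exact g2
  have p2 : -(δ / 2) ≤ 4 * Real.pi * ‖x‖ ^ 2 * ⟪A x, ‖x‖⁻¹ • x⟫ := by
    have q1 := (abs_le.mp p1).1
    have q2 : 4 * Real.pi * ‖x‖ ^ 2 * -(B * (‖x‖ ^ 3)⁻¹) ≤
        4 * Real.pi * ‖x‖ ^ 2 * ⟪A x, ‖x‖⁻¹ • x⟫ :=
      mul_le_mul_of_nonneg_left q1 (by positivity)
    refine le_trans ?_ q2
    have e : 4 * Real.pi * ‖x‖ ^ 2 * -(B * (‖x‖ ^ 3)⁻¹) = -(4 * Real.pi * B / ‖x‖) := by
      field_simp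
    rw [e, neg_le_neg_iff, div_le_div_iff₀ hn two_pos]
    rw [div_lt_iff₀ hδ] at hx3
    linarith
  linarith

section main
variable {z : ι → ℝ} {R : ι → X} {φ₀ : ℝ} {ρ : X → ℝ} {H : X → X →L[ℝ] X}
variable {ε q G₁ r₁ c : ℝ} {s s₁ s₂ e : ℝ → ℝ → ℝ}

/-- the error density -/
noncomputable def errf (ε φ₀ q c r₁ : ℝ) (z : ι → ℝ) (R : ι → X) (ρ : X → ℝ) (x : X) : ℝ :=
  gam (psi φ₀ z R ρ x) * (q * ε) + 2 * (ρ x * c) + gam (psi φ₀ z R ρ x) * c ^ 2 +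
    4 * Real.pi * r₁ * (√(q / Gm ε (psi' z R ρ x)) * ρ x ^ 2)

/-- the vector field -/
noncomputable def Af (ε φ₀ : ℝ) (s : ℝ → ℝ → ℝ) (z : ι → ℝ) (R : ι → X) (ρ : X → ℝ)
    (H : X → X →L[ℝ] X) (x : X) : X :=
  (-(4 * Real.pi)⁻¹ * Sf ε φ₀ s z R ρ x ^ 2) • H x (psi' z R ρ x)

/-- its divergence -/
noncomputable def Df (ε φ₀ : ℝ) (s s₁ s₂ : ℝ → ℝ → ℝ) (z : ι → ℝ) (R : ι → X) (ρ : X → ℝ)
    (H : X → X →L[ℝ] X) (x : X) : ℝ :=
  -(4 * Real.pi)⁻¹ * (Sf ε φ₀ s z R ρ x ^ 2 * hs (H x) +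
    ⟪(2 * Sf ε φ₀ s z R ρ x) • Sf' ε φ₀ s₁ s₂ z R ρ H x, H x (psi' z R ρ x)⟫ +
    4 * Real.pi * gam (psi φ₀ z R ρ x) * Sf ε φ₀ s z R ρ x ^ 2 * ‖psi' z R ρ x‖ ^ 2)

theorem gG_smul (hε : 0 < ε) (v : X) (H : X →L[ℝ] X) : H v = Gm ε v • gG ε v H := by
  rw [gG, map_smul, smul_smul, mul_inv_cancel₀ (Gm_pos hε v).ne', one_smul]

/-- the Hilbert-Schmidt norm and the trace in an orthonormal basis indexed by `Fin 3` -/
theorem exists_basis : ∃ b : OrthonormalBasis (Fin 3) ℝ X, ∀ T : X →L[ℝ] X,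
    ∑ j, ‖T (b j)‖ ^ 2 = hs T ∧ ∑ j, ⟪T (b j), b j⟫ = tr T := by
  have h3 : Module.finrank ℝ X = 3 := Fact.out
  refine ⟨(stdOrthonormalBasis ℝ X).reindex (finCongr h3), fun T => ⟨?_, ?_⟩⟩
  · simp only [OrthonormalBasis.reindex_apply]
    exact Equiv.sum_comp (finCongr h3).symm (fun i => ‖T (stdOrthonormalBasis ℝ X i)‖ ^ 2)
  · simp only [OrthonormalBasis.reindex_apply]
    exact Equiv.sum_comp (finCongr h3).symm
      (fun i => ⟪T (stdOrthonormalBasis ℝ X i), stdOrthonormalBasis ℝ X i⟫)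

theorem cocompact_of_norm {f : X → ℝ} {a : ℝ} (h : Tendsto f (cocompact X) (𝓝 a)) :
    ∀ δ : ℝ, 0 < δ → ∃ N : ℝ, ∀ᵐ x : X, N < ‖x‖ → |f x - a| ≤ δ := by
  intro δ hδ
  have h1 := (Metric.tendsto_nhds.mp h) δ hδ
  rw [Filter.eventually_iff, Metric.mem_cocompact_iff_closedBall_compl_subset (0 : X)] at h1
  obtain ⟨r, hr⟩ := h1
  refine ⟨r, Eventually.of_forall fun x hx => ?_⟩
  have := hr (show x ∈ (closedBall (0 : X) r)ᶜ by
    rw [mem_compl_iff, mem_closedBall_zero_iff, not_le]; exact hx)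
  rw [mem_ofPred_eq, Real.dist_eq] at this
  exact this.le

theorem psi_inf (hz : ∀ i, 0 ≤ z i) (hφ : 0 < φ₀) (hρ : TC ρ)
    (heq : ∀ x, ρ x = tf (Vpt z R x - pot ρ x - φ₀)) :
    Tendsto (psi φ₀ z R ρ) (cocompact X) (𝓝 (-φ₀)) := by
  obtain ⟨hT, -, -⟩ := sol_facts hz R hφ hρ heq
  have h1 : Tendsto (pot ρ) (cocompact X) (𝓝 0) := by
    rw [Metric.tendsto_nhds]
    intro δ hδ
    obtain ⟨r, hr⟩ := hT.decay δ hδ
    rw [Filter.eventually_iff, Metric.mem_cocompact_iff_closedBall_compl_subset (0 : X)]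
    refine ⟨r, fun x hx => ?_⟩
    rw [mem_compl_iff, mem_closedBall_zero_iff, not_le] at hx
    rw [mem_ofPred_eq, Real.dist_eq, sub_zero]
    exact hr x hx.le
  have h2 : Tendsto (Vpt z R) (cocompact X) (𝓝 0) := by
    have h3 : ∀ i, Tendsto (fun x : X => z i * ‖x - R i‖⁻¹) (cocompact X) (𝓝 (z i * 0)) := by
      intro i
      refine tendsto_const_nhds.mul ?_
      have h4 : Tendsto (fun x : X => ‖x - R i‖) (cocompact X) atTop := by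
        refine tendsto_norm_cocompact_atTop.comp ?_
        exact (Homeomorph.subRight (R i)).isClosedEmbedding.tendsto_cocompact
      exact tendsto_inv_atTop_zero.comp h4
    have h5 := tendsto_finsetSum (s := (Finset.univ : Finset ι)) (fun i _ => h3 i)
    simp only [mul_zero, Finset.sum_const_zero] at h5
    exact h5
  have h6 := (h2.sub h1).sub_const φ₀
  simp only [sub_zero, zero_sub] at h6
  exact h6

theorem psi'_inf (hz : ∀ i, 0 ≤ z i) (hφ : 0 < φ₀) (hρ : TC ρ)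
    (heq : ∀ x, ρ x = tf (Vpt z R x - pot ρ x - φ₀)) :
    Tendsto (psi' z R ρ) (cocompact X) (𝓝 0) := by
  obtain ⟨C, N, hC, hN, h⟩ := psi_grad_inf hz R hφ hρ heq
  rw [tendsto_zero_iff_norm_tendsto_zero]
  have h1 : Tendsto (fun x : X => C * (‖x‖ ^ 2)⁻¹) (cocompact X) (𝓝 (C * 0)) := by
    refine tendsto_const_nhds.mul ?_
    refine tendsto_inv_atTop_zero.comp ?_
    exact (tendsto_pow_atTop two_ne_zero).comp tendsto_norm_cocompact_atTop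
  rw [mul_zero] at h1
  refine squeeze_zero' (Eventually.of_forall fun x => norm_nonneg _) ?_ h1
  rw [Filter.eventually_iff, Metric.mem_cocompact_iff_closedBall_compl_subset (0 : X)]
  refine ⟨N, fun x hx => ?_⟩
  rw [mem_compl_iff, mem_closedBall_zero_iff, not_le] at hx
  exact h x hx.le

theorem Yf_inf (hz : ∀ i, 0 ≤ z i) (hφ : 0 < φ₀) (hρ : TC ρ)
    (heq : ∀ x, ρ x = tf (Vpt z R x - pot ρ x - φ₀)) (hε : 0 < ε)
    (hs : RadFn q G₁ s s₁ s₂ e) :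
    Tendsto (Yf ε φ₀ s (s (-φ₀) ε * ε) z R ρ) (cocompact X) (𝓝 0) := by
  have h1 := psi_inf hz hφ hρ heq
  have h2 := psi'_inf hz hφ hρ heq
  have h3 : Tendsto (fun x => Gm ε (psi' z R ρ x)) (cocompact X) (𝓝 (Gm ε 0)) :=
    (Gm_continuous ε).continuousAt.tendsto.comp h2
  have e : Gm ε (0 : X) = ε := by
    rw [Gm, norm_zero]
    simp only [ne_eq, OfNat.ofNat_ne_zero, not_false_eq_true, zero_pow, zero_add]
    exact Real.sqrt_sq hε.le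
  rw [e] at h3
  have h4 : ContinuousAt (fun p : ℝ × ℝ => s p.1 p.2) (-φ₀, ε) :=
    (rad_deriv hs (-φ₀) ε hε).continuousAt
  have h5 : Tendsto (Sf ε φ₀ s z R ρ) (cocompact X) (𝓝 (s (-φ₀) ε)) :=
    Tendsto.comp (f := fun x => (psi φ₀ z R ρ x, Gm ε (psi' z R ρ x))) h4
      (h1.prodMk_nhds h3)
  have h6 := (h5.mul h3).sub_const (s (-φ₀) ε * ε)
  rw [sub_self] at h6
  exact h6

/-- what is needed of the trial potential `k = s G - c - V` -/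
structure TrialOK (ε φ₀ q c : ℝ) (s s₁ s₂ : ℝ → ℝ → ℝ) (z : ι → ℝ) (R : ι → X) (ρ : X → ℝ)
    (H : X → X →L[ℝ] X) (k : X → ℝ) : Prop where
  trial : TrialK (range R) k (fun x => Yf' ε φ₀ s s₁ s₂ z R ρ H x - gVpt z R x)
  eq : ∀ x, (∀ i, x ≠ R i) → k x = Yf ε φ₀ s c z R ρ x - Vpt z R x
  nuc : ∀ i, Vpt z R (R i) + k (R i) = -c
  bound : ∃ C : ℝ, ∀ᵐ x : X, ‖Yf' ε φ₀ s s₁ s₂ z R ρ H x - gVpt z R x‖ ≤
    C * (1 + ∑ i, (‖x - R i‖⁻¹) ^ (3 / 4 : ℝ))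
  flux : ∀ i, ∀ δ : ℝ, 0 < δ → ∃ η : ℝ, 0 < η ∧ ∀ᵐ x : X, ‖x - R i‖ < η →
    4 * Real.pi * ‖x - R i‖ ^ 2 * ⟪((2 * Real.pi)⁻¹ * Yf ε φ₀ s c z R ρ x) • psi' z R ρ x +
      Af ε φ₀ s z R ρ H x, ‖x - R i‖⁻¹ • (x - R i)⟫ ≤ 2 * c * q + δ

/-- the weak Bochner identity -/
def BochOK (ε φ₀ : ℝ) (s s₁ s₂ : ℝ → ℝ → ℝ) (z : ι → ℝ) (R : ι → X) (ρ : X → ℝ)
    (H : X → X →L[ℝ] X) : Prop :=
  ∀ ζ, Flux.TestFn R ζ →
    ∫ x, ⟪(Sf ε φ₀ s z R ρ x ^ 2) • H x (psi' z R ρ x), ∇ ζ x⟫ =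
      -∫ x, ζ x * (Sf ε φ₀ s z R ρ x ^ 2 * hs (H x) +
        ⟪(2 * Sf ε φ₀ s z R ρ x) • Sf' ε φ₀ s₁ s₂ z R ρ H x, H x (psi' z R ρ x)⟫ +
        4 * Real.pi * gam (psi φ₀ z R ρ x) * Sf ε φ₀ s z R ρ x ^ 2 * ‖psi' z R ρ x‖ ^ 2)

theorem hs_continuous : Continuous (hs : (X →L[ℝ] X) → ℝ) := by
  unfold hs
  fun_prop

theorem Af_locInt (hz : ∀ i, 0 ≤ z i) (hφ : 0 < φ₀) (hρ : TC ρ)
    (heq : ∀ x, ρ x = tf (Vpt z R x - pot ρ x - φ₀)) (h : HessSol z R ρ H) (hε : 0 < ε)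
    (hs : RadFn q G₁ s s₁ s₂ e) : Flux.LocInt R (Af ε φ₀ s z R ρ H) := by
  refine locInt_off fun x hx => ?_
  have h1 := Sf_cont hz hφ hρ heq h hε (rad_cont hs) hx
  have h2 : ContinuousAt (fun y => H y (psi' z R ρ y)) x := (h.contAt hx).clm_apply (h.cont' hx)
  exact (continuousAt_const.mul (h1.pow 2)).smul h2

theorem Df_locInt (hz : ∀ i, 0 ≤ z i) (hφ : 0 < φ₀) (hρ : TC ρ)
    (heq : ∀ x, ρ x = tf (Vpt z R x - pot ρ x - φ₀)) (h : HessSol z R ρ H) (hε : 0 < ε)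
    (hs' : RadFn q G₁ s s₁ s₂ e) : Flux.LocInt R (Df ε φ₀ s s₁ s₂ z R ρ H) := by
  refine locInt_off fun x hx => ?_
  have h1 := Sf_cont hz hφ hρ heq h hε (rad_cont hs') hx
  have h2 : ContinuousAt (fun y => H y (psi' z R ρ y)) x := (h.contAt hx).clm_apply (h.cont' hx)
  have h3 : ContinuousAt (fun y => hs (H y)) x := hs_continuous.continuousAt.comp (h.contAt hx)
  have h4 : ContinuousAt (fun y => gam (psi φ₀ z R ρ y)) x :=
    gam_continuous.continuousAt.comp (psi_cont hz hφ hρ heq hx)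
  have h5 := Sq_cont hz hφ hρ heq h hε hs' hx
  exact continuousAt_const.mul ((((h1.pow 2).mul h3).add (ContinuousAt.inner (𝕜 := ℝ) h5 h2)).add
    (((continuousAt_const.mul h4).mul (h1.pow 2)).mul ((h.cont' hx).norm.pow 2)))

theorem gam_int (hz : ∀ i, 0 ≤ z i) (hφ : 0 < φ₀) (hρ : TC ρ) :
    Integrable (fun x => gam (psi φ₀ z R ρ x)) := by
  have := gam_integrable hz R hφ hρ (B := 1) zero_le_one (b := fun _ => 1) measurable_const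
    (fun x => by
      have := Vpt_nonneg hz R x
      rw [abs_one]
      nlinarith)
  simp only [mul_one] at this
  exact this

theorem errf_int (hz : ∀ i, z i = q) (hq : 0 < q) (hR : Function.Injective R) (hφ : 0 < φ₀)
    (hρ : TC ρ) (heq : ∀ x, ρ x = tf (Vpt z R x - pot ρ x - φ₀)) (hε : 0 < ε) :
    Integrable (errf ε φ₀ q c r₁ z R ρ) ∧ ∫ x, errf ε φ₀ q c r₁ z R ρ x =
      (q * ε + c ^ 2) * (∫ x, gam (psi φ₀ z R ρ x)) + 2 * c * (∫ x, ρ x) +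
        4 * Real.pi * r₁ * ∫ x, √(q / Gm ε (psi' z R ρ x)) * ρ x ^ 2 := by
  have hz0 : ∀ i, 0 ≤ z i := fun i => (hz i).symm ▸ hq.le
  have h1 := gam_int (R := R) hz0 hφ hρ
  have h2 := hρ.int
  have i1 := h1.mul_const (q * ε)
  have i2 := (h2.mul_const c).const_mul 2
  have i3 := h1.mul_const (c ^ 2)
  have i4 := (err_int hz hq hR hφ hρ heq hε).const_mul (4 * Real.pi * r₁)
  have i12 : Integrable (fun x => gam (psi φ₀ z R ρ x) * (q * ε) + 2 * (ρ x * c)) := i1.add i2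
  have i123 : Integrable (fun x => gam (psi φ₀ z R ρ x) * (q * ε) + 2 * (ρ x * c) +
    gam (psi φ₀ z R ρ x) * c ^ 2) := i12.add i3
  refine ⟨i123.add i4, ?_⟩
  have e1 : ∫ x, errf ε φ₀ q c r₁ z R ρ x = ∫ x, (gam (psi φ₀ z R ρ x) * (q * ε) +
    2 * (ρ x * c) + gam (psi φ₀ z R ρ x) * c ^ 2 +
    4 * Real.pi * r₁ * (√(q / Gm ε (psi' z R ρ x)) * ρ x ^ 2)) := rfl
  rw [e1, integral_add i123 i4, integral_add i12 i3, integral_add i1 i2, integral_mul_const,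
    integral_const_mul, integral_mul_const, integral_mul_const, integral_const_mul]
  ring

/-- the error of the start radius -/
theorem eRad_sq_le {p G v : ℝ} (hr : 0 < r₁) (hG : 0 < G) (hv : 0 ≤ v) (hvG : v ≤ G)
    (hs : 0 < s p G) : 2 * eRad r₁ s p G ^ 2 * v ^ 2 ≤ 16 * Real.pi ^ 2 * r₁ * (s p G * tf p ^ 2) := by
  have hpi := Real.pi_pos
  have ht := tf_nonneg p
  unfold eRad
  split_ifs with h
  · have e1 : 2 * (s p G * (4 * Real.pi * tf p) / (2 * G)) ^ 2 * v ^ 2 =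
        8 * Real.pi ^ 2 * tf p ^ 2 * (s p G * s p G) * (v ^ 2 / G ^ 2) := by
      field_simp
      ring
    have h1 : v ^ 2 / G ^ 2 ≤ 1 :=
      (div_le_one (by positivity)).mpr (pow_le_pow_left₀ hv hvG 2)
    have h2 : s p G * s p G ≤ s p G * (2 * r₁) := mul_le_mul_of_nonneg_left h hs.le
    rw [e1]
    calc 8 * Real.pi ^ 2 * tf p ^ 2 * (s p G * s p G) * (v ^ 2 / G ^ 2)
        ≤ 8 * Real.pi ^ 2 * tf p ^ 2 * (s p G * (2 * r₁)) * 1 := by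
          refine mul_le_mul ?_ h1 (by positivity) (by positivity)
          exact mul_le_mul_of_nonneg_left h2 (by positivity)
      _ = _ := by ring
  · simp only [ne_eq, OfNat.ofNat_ne_zero, not_false_eq_true, zero_pow, mul_zero, zero_mul]
    positivity

/-- **the second variation of the gradient trial** -/
theorem Vtr_ge (hz : ∀ i, z i = q) (hq : 0 < q) (hR : Function.Injective R) (hφ : 0 < φ₀)
    (hρ : TC ρ) (heq : ∀ x, ρ x = tf (Vpt z R x - pot ρ x - φ₀)) (h : HessSol z R ρ H)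
    (hε : 0 < ε) (hr₁ : 0 < r₁) (hs' : RadFn q G₁ s s₁ s₂ e)
    (he : ∀ x, (∀ i, x ≠ R i) → e (psi φ₀ z R ρ x) (Gm ε (psi' z R ρ x)) ≤
      eRad r₁ s (psi φ₀ z R ρ x) (Gm ε (psi' z R ρ x))) (hc : c = s (-φ₀) ε * ε)
    (hB : BochOK ε φ₀ s s₁ s₂ z R ρ H) {k : X → ℝ}
    (hk : TrialOK ε φ₀ q c s s₁ s₂ z R ρ H k) :
    -((q * ε + c ^ 2) * (∫ x, gam (psi φ₀ z R ρ x)) + 2 * c * (∫ x, ρ x) +
      4 * Real.pi * r₁ * (∫ x, √(q / Gm ε (psi' z R ρ x)) * ρ x ^ 2) +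
      4 * c * q * Fintype.card ι) ≤
      Vtr φ₀ z R ρ k ((8 * Real.pi)⁻¹ *
        ∫ x, ‖Yf' ε φ₀ s s₁ s₂ z R ρ H x - gVpt z R x‖ ^ 2) := by
  have hpi := Real.pi_pos
  have hz0 : ∀ i, 0 ≤ z i := fun i => (hz i).symm ▸ hq.le
  have hc0 : 0 < c := hc ▸ (rad_const_bound hs' (-φ₀) hε).1
  obtain ⟨C, hC⟩ := hk.bound
  obtain ⟨hF, hV⟩ := calib_alg hz0 R hφ hρ heq (finite_range R) hk.trial hC
  obtain ⟨hE, hE'⟩ := errf_int (c := c) (r₁ := r₁) hz hq hR hφ hρ heq hε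
  have hYl := Yf_lip hz0 hφ hρ heq h hε hs' c
  -- decay of `A`
  have hAinf : ∃ B N : ℝ, 0 ≤ B ∧ 0 < N ∧ ∀ᵐ x : X, N < ‖x‖ →
      ‖Af ε φ₀ s z R ρ H x‖ ≤ B * (‖x‖ ^ 3)⁻¹ := by
    obtain ⟨C1, N1, hC1, hN1, h1⟩ := psi_grad_inf hz0 R hφ hρ heq
    obtain ⟨C2, N2, hC2, hN2, h2⟩ := h.far
    refine ⟨(4 * Real.pi)⁻¹ * (q / ε) * (C2 * C1), max 1 (max N1 N2), by positivity,
      by positivity, Eventually.of_forall fun x hx => ?_⟩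
    have g0 : 1 < ‖x‖ := (le_max_left _ _).trans_lt hx
    have g1 := h1 x (((le_max_left _ _).trans (le_max_right _ _)).trans hx.le)
    have g2 := h2 x (((le_max_right _ _).trans (le_max_right _ _)).trans hx.le)
    have g3 : ‖H x (psi' z R ρ x)‖ ≤ C2 * (‖x‖ ^ 2)⁻¹ * (C1 * (‖x‖ ^ 2)⁻¹) :=
      ((H x).le_opNorm _).trans (mul_le_mul g2 g1 (norm_nonneg _) (by positivity))
    have g4 := Sf_sq_le (φ₀ := φ₀) (z := z) (R := R) (ρ := ρ) hε hs' x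
    have g5 : (‖x‖ ^ 2)⁻¹ * (‖x‖ ^ 2)⁻¹ ≤ (‖x‖ ^ 3)⁻¹ := by
      rw [← mul_inv, ← pow_add]
      exact inv_anti₀ (by positivity) (pow_le_pow_right₀ g0.le (by norm_num))
    rw [Af, norm_smul, norm_mul, norm_neg, Real.norm_of_nonneg (by positivity :
      (0 : ℝ) ≤ (4 * Real.pi)⁻¹), Real.norm_of_nonneg (by positivity :
      (0 : ℝ) ≤ Sf ε φ₀ s z R ρ x ^ 2)]
    calc (4 * Real.pi)⁻¹ * Sf ε φ₀ s z R ρ x ^ 2 * ‖H x (psi' z R ρ x)‖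
        ≤ (4 * Real.pi)⁻¹ * (q / ε) * (C2 * (‖x‖ ^ 2)⁻¹ * (C1 * (‖x‖ ^ 2)⁻¹)) := by
          refine mul_le_mul ?_ g3 (norm_nonneg _) (by positivity)
          exact mul_le_mul_of_nonneg_left g4 (by positivity)
      _ = (4 * Real.pi)⁻¹ * (q / ε) * (C2 * C1) * ((‖x‖ ^ 2)⁻¹ * (‖x‖ ^ 2)⁻¹) := by ring
      _ ≤ _ := mul_le_mul_of_nonneg_left g5 (by positivity)
  have hYinf : ∀ δ : ℝ, 0 < δ → ∃ N : ℝ, ∀ᵐ x : X, N < ‖x‖ →
      |(2 * Real.pi)⁻¹ * Yf ε φ₀ s c z R ρ x| ≤ δ := by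
    intro δ hδ
    have h1 := Yf_inf hz0 hφ hρ heq hε hs'
    rw [← hc] at h1
    obtain ⟨N, hN⟩ := cocompact_of_norm h1 (2 * Real.pi * δ) (by positivity)
    refine ⟨N, ?_⟩
    filter_upwards [hN] with x hx hx'
    have h2 := hx hx'
    rw [sub_zero] at h2
    rw [abs_mul, abs_of_pos (by positivity : (0 : ℝ) < (2 * Real.pi)⁻¹)]
    rw [inv_mul_le_iff₀ (by positivity)]
    exact h2
  have key := Flux.calib_int hR (ρ := ρ) (H := fun x => (2 * Real.pi)⁻¹ * Yf ε φ₀ s c z R ρ x)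
    (D := Df ε φ₀ s s₁ s₂ z R ρ H)
    (F := fun x => Fcal φ₀ z R ρ k (fun x => Yf' ε φ₀ s s₁ s₂ z R ρ H x - gVpt z R x) x +
      errf ε φ₀ q c r₁ z R ρ x)
    (ψ' := fun x => gVpt z R x - gradV ρ x)
    (H' := fun x => (2 * Real.pi)⁻¹ • Yf' ε φ₀ s s₁ s₂ z R ρ H x)
    (A := Af ε φ₀ s z R ρ H) (c := fun _ => 2 * c * q)
    (locInt_of_integrable R hρ.int)
    (fun K hK h => (gVpt_locInt z R K hK h).sub (gradV_locInt hz0 R hφ hρ heq K hK h))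
    ?_ ?_ ?_ (Af_locInt hz0 hφ hρ heq h hε hs') (Df_locInt hz0 hφ hρ heq h hε hs')
    (hF.add hE) ?_ ?_ hk.flux (hinf_of' hz0 R hφ hρ heq hYinf hAinf)
  · rw [integral_add hF hE, hE'] at key
    rw [hV]
    have e1 : ∑ i, 2 * z i * (Vpt z R (R i) + k (R i)) = -(2 * c * q * Fintype.card ι) := by
      simp only [hk.nuc, hz, Finset.sum_const, Finset.card_univ, nsmul_eq_mul]
      ring
    have e2 : ∑ i : ι, 2 * c * q = 2 * c * q * Fintype.card ι := by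
      rw [Finset.sum_const, Finset.card_univ, nsmul_eq_mul]
      ring
    rw [e2] at key
    rw [e1]
    linarith
  · intro u C' hu hcu hoff
    rw [(weak_sol z R hρ hu hcu).2]
    have h0 : ∀ i, u (R i) = 0 := fun i => (hoff i).self_of_nhds
    simp only [h0, mul_zero, Finset.sum_const_zero, zero_sub]
    ring
  · intro K hK hRK
    obtain ⟨L, hL⟩ := hYl.1 K hK hRK
    refine ⟨‖(2 * Real.pi)⁻¹‖₊ * L, ?_⟩
    exact LipschitzOnWith.of_dist_le_mul fun x hx y hy => by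
      have := hL.dist_le_mul x hx y hy
      rw [Real.dist_eq, ← mul_sub, abs_mul, ← Real.dist_eq]
      push_cast
      rw [mul_assoc]
      exact mul_le_mul_of_nonneg_left this (abs_nonneg _)
  · filter_upwards [off_ae R] with x hx
    have h1 := (Yf_grad hz0 hφ hρ heq h hε hs' c hx).hasFDerivAt.const_mul (2 * Real.pi)⁻¹
    rw [hasGradientAt_iff_hasFDerivAt, map_smul]
    exact h1
  · intro ζ hζ
    have h1 := hB ζ hζ
    have e1 : ∫ x, ⟪Af ε φ₀ s z R ρ H x, ∇ ζ x⟫ = -(4 * Real.pi)⁻¹ *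
        ∫ x, ⟪(Sf ε φ₀ s z R ρ x ^ 2) • H x (psi' z R ρ x), ∇ ζ x⟫ := by
      rw [← integral_const_mul]
      refine integral_congr_ae (Eventually.of_forall fun x => ?_)
      simp only [Af, real_inner_smul_left]
      ring
    have e2 : ∫ x, ζ x * Df ε φ₀ s s₁ s₂ z R ρ H x = -(4 * Real.pi)⁻¹ *
        ∫ x, ζ x * (Sf ε φ₀ s z R ρ x ^ 2 * hs (H x) +
        ⟪(2 * Sf ε φ₀ s z R ρ x) • Sf' ε φ₀ s₁ s₂ z R ρ H x, H x (psi' z R ρ x)⟫ +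
        4 * Real.pi * gam (psi φ₀ z R ρ x) * Sf ε φ₀ s z R ρ x ^ 2 * ‖psi' z R ρ x‖ ^ 2) := by
      rw [← integral_const_mul]
      refine integral_congr_ae (Eventually.of_forall fun x => ?_)
      simp only [Df]
      ring
    rw [e1, e2, h1]
    linarith
  · filter_upwards [off_ae R] with x hx
    obtain ⟨b, hb⟩ := exists_basis
    have hGp := Gm_pos hε (psi' z R ρ x)
    have hSp := Sf_pos (φ₀ := φ₀) (z := z) (R := R) (ρ := ρ) hε hs' x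
    have hrn := hρ.nonneg x
    have h1 := Ptw.ptw_eps b (H x) (h.symm x hx) (R := 4 * Real.pi * ρ x)
      (by rw [(hb (H x)).2]; exact h.trace x hx) (by positivity) (v := psi' z R ρ x)
      (gs := Sf' ε φ₀ s₁ s₂ z R ρ H x) (gY := Yf' ε φ₀ s s₁ s₂ z R ρ H x)
      (G := Gm ε (psi' z R ρ x)) (s := Sf ε φ₀ s z R ρ x) (sp := Sf ε φ₀ s₁ z R ρ x)
      (sG := Sf ε φ₀ s₂ z R ρ x)
      (κ := Gm ε (psi' z R ρ x) * Sf ε φ₀ s₂ z R ρ x / Sf ε φ₀ s z R ρ x) hGp (le_Gm ε _) hSp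
      (by
        rw [abs_le, le_div_iff₀ hSp, div_le_iff₀ hSp]
        have g1 := hs'.sG_ge (psi φ₀ z R ρ x) _ hGp
        have g2 := mul_nonpos_of_nonneg_of_nonpos hGp.le (hs'.sG_le (psi φ₀ z R ρ x) _ hGp)
        have e1 : Sf ε φ₀ s₂ z R ρ x = s₂ (psi φ₀ z R ρ x) (Gm ε (psi' z R ρ x)) := rfl
        have e2 : Sf ε φ₀ s z R ρ x = s (psi φ₀ z R ρ x) (Gm ε (psi' z R ρ x)) := rfl
        rw [← e1, ← e2] at g1
        rw [← e1] at g2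
        constructor <;> linarith)
      (by field_simp) rfl
      (by
        unfold Sf' gs gG
        rw [map_smul, smul_smul, div_eq_mul_inv])
      (by
        unfold Yf' gG
        rw [map_smul, smul_smul, div_eq_mul_inv, add_comm])
    rw [(hb (H x)).1] at h1
    -- the residual
    have h2 : |1 + Gm ε (psi' z R ρ x) * Sf ε φ₀ s₁ z R ρ x +
        (2 * Gm ε (psi' z R ρ x) / Sf ε φ₀ s z R ρ x + 4 * Real.pi * ρ x) *
          Sf ε φ₀ s₂ z R ρ x| ≤ eRad r₁ s (psi φ₀ z R ρ x) (Gm ε (psi' z R ρ x)) := by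
      refine le_trans ?_ (he x hx)
      have := hs'.res (psi φ₀ z R ρ x) _ hGp
      have e1 : tf (psi φ₀ z R ρ x) = ρ x := (heq x).symm
      rw [e1] at this
      exact this
    set dl : ℝ := 1 + Gm ε (psi' z R ρ x) * Sf ε φ₀ s₁ z R ρ x +
        (2 * Gm ε (psi' z R ρ x) / Sf ε φ₀ s z R ρ x + 4 * Real.pi * ρ x) *
          Sf ε φ₀ s₂ z R ρ x with hdl
    have h3 : dl ^ 2 ≤ eRad r₁ s (psi φ₀ z R ρ x) (Gm ε (psi' z R ρ x)) ^ 2 := by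
      rw [← sq_abs dl]
      exact pow_le_pow_left₀ (abs_nonneg _) h2 2
    have h4 : 2 * dl ^ 2 * ‖psi' z R ρ x‖ ^ 2 ≤
        16 * Real.pi ^ 2 * r₁ * (√(q / Gm ε (psi' z R ρ x)) * ρ x ^ 2) := by
      have g1 := eRad_sq_le (p := psi φ₀ z R ρ x) hr₁ hGp (norm_nonneg (psi' z R ρ x))
        (le_Gm ε _) (hs'.pos (psi φ₀ z R ρ x) _ hGp)
      have e1 : tf (psi φ₀ z R ρ x) = ρ x := (heq x).symm
      rw [e1] at g1
      have g2 : 2 * dl ^ 2 * ‖psi' z R ρ x‖ ^ 2 ≤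
          2 * eRad r₁ s (psi φ₀ z R ρ x) (Gm ε (psi' z R ρ x)) ^ 2 * ‖psi' z R ρ x‖ ^ 2 := by
        gcongr
      refine g2.trans (g1.trans ?_)
      have g3 := rad_le_sqrt hs' (psi φ₀ z R ρ x) hGp
      gcongr
    have h5 := Sf_sq_eps (φ₀ := φ₀) (z := z) (R := R) (ρ := ρ) hε hs' x
    have hg := gam_nonneg (psi φ₀ z R ρ x)
    have h6 : gam (psi φ₀ z R ρ x) * (Sf ε φ₀ s z R ρ x ^ 2 * ε ^ 2) ≤
        gam (psi φ₀ z R ρ x) * (q * ε) := mul_le_mul_of_nonneg_left h5 hg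
    have h7 : 0 ≤ gam (psi φ₀ z R ρ x) * c * (Sf ε φ₀ s z R ρ x * Gm ε (psi' z R ρ x)) := by
      positivity
    have e0 : Vpt z R x + k x = Sf ε φ₀ s z R ρ x * Gm ε (psi' z R ρ x) - c := by
      rw [hk.eq x hx, Yf]
      ring
    have e1 : gVpt z R x + (Yf' ε φ₀ s s₁ s₂ z R ρ H x - gVpt z R x) =
        Yf' ε φ₀ s s₁ s₂ z R ρ H x := by abel
    have e2 : ⟪(2 * Real.pi)⁻¹ • Yf' ε φ₀ s s₁ s₂ z R ρ H x, gVpt z R x - gradV ρ x⟫ =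
        (2 * Real.pi)⁻¹ * ⟪Yf' ε φ₀ s s₁ s₂ z R ρ H x, psi' z R ρ x⟫ :=
      real_inner_smul_left _ _ _
    have e3 : gVpt z R x - gradV ρ x = psi' z R ρ x := rfl
    have e4 : Vpt z R x - pot ρ x - φ₀ = psi φ₀ z R ρ x := rfl
    have e5 : ⟪(2 * Sf ε φ₀ s z R ρ x) • Sf' ε φ₀ s₁ s₂ z R ρ H x, H x (psi' z R ρ x)⟫ =
        2 * Sf ε φ₀ s z R ρ x * ⟪Sf' ε φ₀ s₁ s₂ z R ρ H x, H x (psi' z R ρ x)⟫ :=
      real_inner_smul_left _ _ _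
    have e6 := Gm_sq ε (psi' z R ρ x)
    rw [e2, Fcal, e1, e0, e3, e4, errf, Df, Yf, e5]
    set a1 := ‖psi' z R ρ x‖ ^ 2
    set a2 := ‖Yf' ε φ₀ s s₁ s₂ z R ρ H x‖ ^ 2
    set a3 := ⟪Yf' ε φ₀ s s₁ s₂ z R ρ H x, psi' z R ρ x⟫
    set a4 := ⟪Sf' ε φ₀ s₁ s₂ z R ρ H x, H x (psi' z R ρ x)⟫
    set S := Sf ε φ₀ s z R ρ x
    set G := Gm ε (psi' z R ρ x)
    set g := gam (psi φ₀ z R ρ x)
    set r := ρ x
    set w := √(q / G) * r ^ 2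
    have h8 : 0 ≤ 4 * Real.pi * ((4 * (r * (S * G - c)) - g * (S * G - c) ^ 2 +
        (4 * Real.pi)⁻¹ * (a1 - a2) + (g * (q * ε) + 2 * (r * c) + g * c ^ 2 +
          4 * Real.pi * r₁ * w)) -
        (2 * Real.pi)⁻¹ * a3 - 4 * Real.pi * (r * ((2 * Real.pi)⁻¹ * (S * G - c))) -
        -(4 * Real.pi)⁻¹ * (S ^ 2 * hs (H x) + 2 * S * a4 + 4 * Real.pi * g * S ^ 2 * a1)) := by
      have e7 : 4 * Real.pi * ((4 * (r * (S * G - c)) - g * (S * G - c) ^ 2 +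
          (4 * Real.pi)⁻¹ * (a1 - a2) + (g * (q * ε) + 2 * (r * c) + g * c ^ 2 +
            4 * Real.pi * r₁ * w)) -
          (2 * Real.pi)⁻¹ * a3 - 4 * Real.pi * (r * ((2 * Real.pi)⁻¹ * (S * G - c))) -
          -(4 * Real.pi)⁻¹ * (S ^ 2 * hs (H x) + 2 * S * a4 + 4 * Real.pi * g * S ^ 2 * a1)) =
          (a1 - a2 + 2 * (4 * Real.pi * r) * (S * G) - 2 * a3 + 2 * S * a4 +
            S ^ 2 * hs (H x)) + 16 * Real.pi ^ 2 * r₁ * w +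
          4 * Real.pi * (g * (q * ε) - g * (S ^ 2 * (G ^ 2 - a1)) + 2 * (g * c * (S * G))) := by
        field_simp
        ring
      rw [e7]
      have e8 : G ^ 2 - a1 = ε ^ 2 := by rw [e6]; ring
      rw [e8]
      have h9 : 0 ≤ 4 * Real.pi *
          (g * (q * ε) - g * (S ^ 2 * ε ^ 2) + 2 * (g * c * (S * G))) := by
        refine mul_nonneg (by positivity) ?_
        linarith
      linarith
    exact nonneg_of_mul_nonneg_right h8 (by positivity)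

/-- choice of the regularisation -/
theorem exists_eps {q Γ M n : ℝ} (hq : 0 < q) (hΓ : 0 ≤ Γ) (hM : 0 ≤ M) (hn : 0 ≤ n)
    {δ : ℝ} (hδ : 0 < δ) : ∃ ε : ℝ, 0 < ε ∧ ∀ c, 0 ≤ c → c ≤ √(q * ε) →
      (q * ε + c ^ 2) * Γ + 2 * c * M + 4 * c * q * n ≤ δ := by
  set K : ℝ := 2 * Γ + 2 * M + 4 * q * n with hK
  have hK0 : 0 ≤ K := by positivity
  set t : ℝ := min 1 (δ / (K + 1)) with ht
  have ht0 : 0 < t := lt_min one_pos (by positivity)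
  have ht1 : t ≤ 1 := min_le_left _ _
  have ht2 : t * (K + 1) ≤ δ := by
    have := min_le_right 1 (δ / (K + 1))
    rwa [← ht, le_div_iff₀ (by positivity)] at this
  refine ⟨t ^ 2 / q, by positivity, fun c hc0 hc => ?_⟩
  have e : q * (t ^ 2 / q) = t ^ 2 := by field_simp
  rw [e, Real.sqrt_sq ht0.le] at hc
  rw [e]
  have h1 : c ^ 2 ≤ t := by nlinarith
  have h2 : t ^ 2 ≤ t := by nlinarith
  have h3 : (t ^ 2 + c ^ 2) * Γ ≤ 2 * t * Γ := mul_le_mul_of_nonneg_right (by linarith) hΓ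
  have h4 : 2 * c * M ≤ 2 * t * M := by gcongr
  have h5 : 4 * c * q * n ≤ 4 * t * q * n := by gcongr
  have h6 : t * K ≤ t * (K + 1) := by gcongr; linarith
  calc (t ^ 2 + c ^ 2) * Γ + 2 * c * M + 4 * c * q * n ≤ 2 * t * Γ + 2 * t * M + 4 * t * q * n := by
        linarith
    _ = t * K := by rw [hK]; ring
    _ ≤ δ := h6.trans ht2

/-- **trial fields with second variation at least `-δ`** -/
theorem exists_trial_of (hz : ∀ i, z i = q) (hq : 0 < q) (hR : Function.Injective R) (hφ : 0 < φ₀)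
    (hρ : TC ρ) (heq : ∀ x, ρ x = tf (Vpt z R x - pot ρ x - φ₀)) (h : HessSol z R ρ H)
    (hs' : ∀ A r₁ : ℝ, q ≤ A → 0 < r₁ → ∃ (G₁ : ℝ) (s s₁ s₂ e : ℝ → ℝ → ℝ),
      RadFn q G₁ s s₁ s₂ e ∧ ∀ p G, 0 < G → s p G * p ≤ A → e p G ≤ eRad r₁ s p G)
    (hB : ∀ (ε G₁ : ℝ) (s s₁ s₂ e : ℝ → ℝ → ℝ), 0 < ε → RadFn q G₁ s s₁ s₂ e →
      BochOK ε φ₀ s s₁ s₂ z R ρ H)
    (hk : ∀ (ε G₁ c : ℝ) (s s₁ s₂ e : ℝ → ℝ → ℝ), 0 < ε → RadFn q G₁ s s₁ s₂ e →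
      c = s (-φ₀) ε * ε → ∃ k, TrialOK ε φ₀ q c s s₁ s₂ z R ρ H k) {δ : ℝ} (hδ : 0 < δ) :
    ∃ (S : Set X) (k : X → ℝ) (k' : X → X), S.Finite ∧ TrialK S k k' ∧
      -δ ≤ Vtr φ₀ z R ρ k ((8 * Real.pi)⁻¹ * ∫ x, ‖k' x‖ ^ 2) := by
  have hpi := Real.pi_pos
  have hz0 : ∀ i, 0 ≤ z i := fun i => (hz i).symm ▸ hq.le
  obtain ⟨ε, hε, hε'⟩ := exists_eps (Γ := ∫ x, gam (psi φ₀ z R ρ x)) (M := ∫ x, ρ x)
    (n := Fintype.card ι) hq (integral_nonneg fun x => gam_nonneg _)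
    (integral_nonneg hρ.nonneg) (Nat.cast_nonneg _) (half_pos hδ)
  obtain ⟨A, hA1, hA2⟩ := exists_A hz hq hR hφ hρ heq hε
  set I : ℝ := ∫ x, √(q / Gm ε (psi' z R ρ x)) * ρ x ^ 2 with hI
  have hI0 : 0 ≤ I := integral_nonneg fun x => by positivity
  set r₁ : ℝ := δ / 2 / (4 * Real.pi * (I + 1)) with hr₁
  have hr0 : 0 < r₁ := by positivity
  have hr2 : 4 * Real.pi * r₁ * I ≤ δ / 2 := by
    have e : 4 * Real.pi * r₁ * I = δ / 2 * (I / (I + 1)) := by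
      rw [hr₁]
      field_simp
    rw [e]
    refine mul_le_of_le_one_right (by positivity) ?_
    rw [div_le_one (by positivity)]
    linarith
  obtain ⟨G₁, s, s₁, s₂, e, hs, he⟩ := hs' A r₁ hA1 hr0
  have hA3 : ∀ x, (∀ i, x ≠ R i) → e (psi φ₀ z R ρ x) (Gm ε (psi' z R ρ x)) ≤
      eRad r₁ s (psi φ₀ z R ρ x) (Gm ε (psi' z R ρ x)) := by
    intro x hx
    refine he _ _ (Gm_pos hε _) ?_
    rcases le_total 0 (psi φ₀ z R ρ x) with h1 | h1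
    · exact (mul_le_mul_of_nonneg_right (rad_le_sqrt hs _ (Gm_pos hε _)) h1).trans (hA2 x hx)
    · have h2 := (hs.pos (psi φ₀ z R ρ x) _ (Gm_pos hε (psi' z R ρ x))).le
      have h3 := mul_nonpos_of_nonneg_of_nonpos h2 h1
      linarith
  obtain ⟨c1, c2⟩ := rad_const_bound hs (-φ₀) hε
  obtain ⟨k, hk'⟩ := hk ε G₁ (s (-φ₀) ε * ε) s s₁ s₂ e hε hs rfl
  have h1 := Vtr_ge hz hq hR hφ hρ heq h hε hr0 hs hA3 rfl (hB ε G₁ s s₁ s₂ e hε hs) hk'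
  have h2 := hε' _ c1.le c2
  rw [← hI] at h1
  exact ⟨range R, k, _, finite_range R, hk'.trial, le_trans (by linarith) h1⟩

end main

end Pool.Agent.TF.Grd
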