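import Pool.Agent.Lib.MP_9cf0c9_mp.Solve

/-! The model space `ℝ × ℝ²`, the half space and its reflection. -/

set_option linter.unusedSectionVars false
set_option linter.unusedVariables false
set_option linter.style.haveILetI false

namespace Pool.Agent.TF
open MeasureTheory Set Metric Filter Topology
open scoped ENNReal NNReal RealInnerProductSpace

/-! ### whole space solutions -/
section whole
variable {V : Type*} [NormedAddCommGroup V] [InnerProductSpace ℝ V] [FiniteDimensional ℝ V]
  [MeasurableSpace V] [BorelSpace V] [hd : Fact (Module.finrank ℝ V = 3)]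

/-- whole space Thomas-Fermi equation with bounded nuclear density -/
theorem exists_tf {m : V → ℝ} (hm : BC m) {φ₀ : ℝ} (hφ : 0 < φ₀) :
    ∃ ρ : V → ℝ, BC ρ ∧ (∀ x, 0 ≤ ρ x) ∧ ∀ x, ρ x = tf (pot (fun y => m y - ρ y) x - φ₀) := by
  obtain ⟨R, hR⟩ := pot_decay hm hφ
  obtain ⟨M, hM⟩ := pot_bound hm
  have hM0 : 0 ≤ M := (abs_nonneg _).trans (hM 0)
  set S : Set V := {x | φ₀ ≤ pot m x} with hS
  have hSm : MeasurableSet S := measurableSet_le measurable_const (pot_continuous hm).measurable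
  have hSR : S ⊆ ball 0 R := by
    intro x hx
    rw [mem_ball_zero_iff]
    by_contra h
    push Not at h
    have h1 := hR x h
    have h2 : φ₀ ≤ pot m x := hx
    have h3 := (abs_lt.mp h1).2
    linarith
  obtain ⟨ρ, hρB, hρ0, hρS, hρ⟩ := exists_sol (V := V) (a := 0) le_rfl zero_le_one
    (LinearIsometryEquiv.refl ℝ V) (fun x => rfl) hM0
    (W := fun x => pot m x - φ₀) ((pot_continuous hm).measurable.sub measurable_const) hSm hSR
  refine ⟨ρ, hρB, hρ0, fun x => ?_⟩
  have hk : kop 0 (LinearIsometryEquiv.refl ℝ V) ρ x = pot ρ x := by unfold kop; ring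
  have hpos : 0 ≤ pot ρ x := pot_nonneg hρ0 x
  rw [pot_sub hm hρB]
  by_cases hx : x ∈ S
  · rw [hρ x hx, hk]
    unfold tfM
    rw [min_eq_left]
    · congr 1; ring
    · have := (abs_le.mp (hM x)).2
      linarith
  · rw [hρS x hx, tf_of_nonpos]
    have : pot m x < φ₀ := by simpa [hS] using hx
    linarith

end whole

/-! ### the model space -/

/-- the plane -/
abbrev E2 := EuclideanSpace ℝ (Fin 2)

/-- the model of three space -/
abbrev X := WithLp 2 (ℝ × E2)

instance : Fact (Module.finrank ℝ X = 3) := ⟨by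
  have : Module.finrank ℝ X = Module.finrank ℝ (ℝ × E2) :=
    LinearEquiv.finrank_eq (WithLp.linearEquiv 2 ℝ (ℝ × E2))
  rw [this]; simp⟩

/-- coordinates -/
noncomputable def mk (s : ℝ) (z : E2) : X := WithLp.toLp 2 (s, z)

@[simp] theorem mk_fst (s : ℝ) (z : E2) : (mk s z).fst = s := rfl
@[simp] theorem mk_snd (s : ℝ) (z : E2) : (mk s z).snd = z := rfl

theorem mk_eta (x : X) : mk x.fst x.snd = x := rfl

/-- first unit vector -/
noncomputable def e1 : X := mk 1 0

/-- the reflection -/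
noncomputable def th : X ≃ₗᵢ[ℝ] X :=
  LinearIsometryEquiv.withLpProdCongr 2 (LinearIsometryEquiv.neg ℝ) (LinearIsometryEquiv.refl ℝ E2)

@[simp] theorem th_mk (s : ℝ) (z : E2) : th (mk s z) = mk (-s) z := rfl

@[simp] theorem th_fst (x : X) : (th x).fst = -x.fst := rfl
@[simp] theorem th_snd (x : X) : (th x).snd = x.snd := rfl

theorem th_th (x : X) : th (th x) = x := by
  rw [← mk_eta x, th_mk, th_mk, neg_neg]

theorem norm_sq_eq (x : X) : ‖x‖ ^ 2 = x.fst ^ 2 + ‖x.snd‖ ^ 2 := by
  rw [WithLp.prod_norm_sq_eq_of_L2, Real.norm_eq_abs, sq_abs]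

theorem norm_mk_sq (s : ℝ) (z : E2) : ‖mk s z‖ ^ 2 = s ^ 2 + ‖z‖ ^ 2 := norm_sq_eq _

theorem inner_e1 (x : X) : ⟪x, e1⟫ = x.fst := by
  rw [WithLp.prod_inner_apply]
  simp [e1, mk]

theorem th_e1 : th e1 = -e1 := by
  unfold e1
  rw [th_mk]
  unfold mk
  rw [← WithLp.toLp_neg]
  simp

theorem mk_add_smul (s t : ℝ) (z : E2) : mk s z + t • e1 = mk (s + t) z := by
  unfold mk e1 mk
  rw [← WithLp.toLp_smul, ← WithLp.toLp_add]
  simp

theorem fst_continuous : Continuous (fun x : X => x.fst) := by fun_prop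

theorem mk_continuous : Continuous (fun p : ℝ × E2 => mk p.1 p.2) := by
  unfold mk; fun_prop

/-- the right half space -/
def Om : Set X := {x | 0 < x.fst}

theorem Om_meas : MeasurableSet Om := measurableSet_lt measurable_const fst_continuous.measurable

theorem abs_fst_le (x : X) : |x.fst| ≤ ‖x‖ := by
  refine abs_le_of_sq_le_sq ?_ (norm_nonneg _)
  rw [norm_sq_eq]
  nlinarith [sq_nonneg ‖x.snd‖]

theorem dist_th_le {x y : X} (hx : 0 ≤ x.fst) (hy : 0 ≤ y.fst) : ‖x - y‖ ≤ ‖th x - y‖ := by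
  refine le_of_sq_le_sq ?_ (norm_nonneg _)
  rw [norm_sq_eq, norm_sq_eq]
  have e1 : (x - y).fst = x.fst - y.fst := rfl
  have e2 : (th x - y).fst = -x.fst - y.fst := rfl
  have e3 : (th x - y).snd = (x - y).snd := rfl
  rw [e1, e2, e3]
  nlinarith [mul_nonneg hx hy]

/-- half space solution with prescribed harmonic part -/
theorem exists_half {h : X → ℝ} (hh : BC h) {φ₀ : ℝ} (hφ : 0 < φ₀) :
    ∃ ρ : X → ℝ, BC ρ ∧ (∀ x, 0 ≤ ρ x) ∧ (∀ x, x ∉ Om → ρ x = 0) ∧
      ∀ x, x ∈ Om → ρ x = tf (pot (fun y => h y - ρ y + ρ (th y)) x - φ₀) := by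
  obtain ⟨R, hR⟩ := pot_decay hh hφ
  obtain ⟨M, hM⟩ := pot_bound hh
  have hM0 : 0 ≤ M := (abs_nonneg _).trans (hM 0)
  set S : Set X := Om ∩ {x | φ₀ ≤ pot h x} with hS
  have hSm : MeasurableSet S :=
    Om_meas.inter (measurableSet_le measurable_const (pot_continuous hh).measurable)
  have hSR : S ⊆ ball 0 R := by
    intro x hx
    rw [mem_ball_zero_iff]
    by_contra h
    push Not at h
    have h1 := hR x h
    have h2 : φ₀ ≤ pot _ x := hx.2
    have h3 := (abs_lt.mp h1).2
    linarith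
  obtain ⟨ρ, hρB, hρ0, hρS, hρ⟩ := exists_sol (V := X) (a := 1) zero_le_one le_rfl
    th th_th hM0
    (W := fun x => pot h x - φ₀) ((pot_continuous hh).measurable.sub measurable_const) hSm hSR
  have hOm : ∀ x, x ∉ Om → ρ x = 0 := fun x hx => hρS x fun h => hx h.1
  refine ⟨ρ, hρB, hρ0, hOm, fun x hx => ?_⟩
  have hk : kop 1 th ρ x = pot ρ x - pot ρ (th x) := by unfold kop; ring
  have hpos : 0 ≤ pot ρ x - pot ρ (th x) := by
    unfold pot
    rw [← integral_sub (pot_integrable hρB x) (pot_integrable hρB (th x))]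
    haveI := nontriv (V := X)
    have hne : ∀ᵐ y : X, y ≠ x := by rw [ae_iff]; simp
    refine integral_nonneg_of_ae ?_
    filter_upwards [hne] with y hyx
    simp only [Pi.zero_apply]
    by_cases hy : y ∈ Om
    · rw [← sub_mul]
      refine mul_nonneg ?_ (hρ0 y)
      rw [sub_nonneg]
      exact inv_anti₀ (norm_pos_iff.mpr (sub_ne_zero.mpr (Ne.symm hyx)))
          (dist_th_le (le_of_lt hx) (le_of_lt hy))
    · rw [hOm y hy]; simp
  have hρt : BC (fun y => ρ (th y)) := hρB.comp_isom th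
  rw [pot_add (hh.sub hρB) hρt, pot_sub hh hρB, pot_comp_isom]
  by_cases hxS : x ∈ S
  · rw [hρ x hxS, hk]
    unfold tfM
    rw [min_eq_left]
    · congr 1; ring
    · have := (abs_le.mp (hM x)).2
      linarith
  · rw [hρS x hxS, tf_of_nonpos]
    have : pot h x < φ₀ := by
      by_contra h'
      push Not at h'
      exact hxS ⟨hx, h'⟩
    linarith

/-! ### integration in coordinates -/

theorem mk_measurePreserving : MeasurePreserving (fun p : ℝ × E2 => mk p.1 p.2) volume volume :=
  WithLp.volume_preserving_toLp ℝ E2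

theorem mk_embedding : MeasurableEmbedding (fun p : ℝ × E2 => mk p.1 p.2) :=
  (MeasurableEquiv.toLp 2 (ℝ × E2)).measurableEmbedding

theorem integral_X (f : X → ℝ) : ∫ x, f x = ∫ p : ℝ × E2, f (mk p.1 p.2) :=
  (mk_measurePreserving.integral_comp mk_embedding f).symm

theorem integrable_X {f : X → ℝ} (hf : Integrable f) :
    Integrable (fun p : ℝ × E2 => f (mk p.1 p.2)) :=
  (mk_measurePreserving.integrable_comp_emb mk_embedding).mpr hf

theorem integral_X_swap {f : X → ℝ} (hf : Integrable f) :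
    ∫ x, f x = ∫ z : E2, ∫ s : ℝ, f (mk s z) := by
  rw [integral_X]
  have h := integrable_X hf
  rw [Measure.volume_eq_prod] at h ⊢
  rw [integral_prod_symm _ h]

/-! ### the antiderivative of `tf` -/

/-- `v ↦ (2/5) v_+^{5/2}` -/
noncomputable def Phi (v : ℝ) : ℝ := 2 / 5 * (v * tf v)

theorem Phi_nonneg (v : ℝ) : 0 ≤ Phi v := by
  unfold Phi
  rcases le_total v 0 with h | h
  · rw [tf_of_nonpos h]; simp
  · have := tf_nonneg v
    positivity

theorem Phi_of_nonpos {v : ℝ} (h : v ≤ 0) : Phi v = 0 := by unfold Phi; rw [tf_of_nonpos h]; simp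

theorem hasDerivAt_Phi (v : ℝ) : HasDerivAt Phi (tf v) v := by
  rcases lt_trichotomy v 0 with h | h | h
  · rw [tf_of_nonpos h.le]
    have h1 : Phi =ᶠ[𝓝 v] fun _ => 0 := by
      filter_upwards [gt_mem_nhds h] with w hw
      exact Phi_of_nonpos hw.le
    exact (hasDerivAt_const v (0 : ℝ)).congr_of_eventuallyEq h1
  · subst h
    rw [hasDerivAt_iff_tendsto_slope]
    have h1 : slope Phi 0 =ᶠ[𝓝[≠] 0] fun w => 2 / 5 * tf w := by
      filter_upwards [self_mem_nhdsWithin] with w hw
      have hw' : w ≠ 0 := hw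
      rw [slope_def_field, Phi_of_nonpos le_rfl]
      unfold Phi
      field_simp
      ring
    refine Tendsto.congr' h1.symm ?_
    have h2 : tf 0 = 2 / 5 * tf 0 := by rw [tf_of_nonpos le_rfl]; simp
    rw [h2]
    exact ((tf_continuous.const_mul _).tendsto 0).mono_left nhdsWithin_le_nhds
  · have h1 : Phi =ᶠ[𝓝 v] fun w => 2 / 5 * (w * (w * √w)) := by
      filter_upwards [lt_mem_nhds h] with w hw
      unfold Phi tf
      rw [max_eq_left hw.le]
    have h2 : tf v = v * √v := by unfold tf; rw [max_eq_left h.le]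
    rw [h2]
    have h3 : HasDerivAt (fun w : ℝ => √w) (1 / (2 * √v)) v := Real.hasDerivAt_sqrt h.ne'
    have h4 := (((hasDerivAt_id v).mul ((hasDerivAt_id v).mul h3)).const_mul (2 / 5 : ℝ))
    have h5 : HasDerivAt (fun w => 2 / 5 * (w * (w * √w)))
        (2 / 5 * (1 * (v * √v) + v * (1 * √v + v * (1 / (2 * √v))))) v := h4
    refine (h5.congr_deriv ?_).congr_of_eventuallyEq h1
    have hs : √v ≠ 0 := (Real.sqrt_pos.mpr h).ne'
    have hs2 : √v * √v = v := Real.mul_self_sqrt h.le
    field_simp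
    have : √v ^ 2 = v := by rw [sq]; exact hs2
    rw [this]
    ring

theorem Phi_continuous : Continuous Phi := by
  unfold Phi
  exact continuous_const.mul (continuous_id.mul tf_continuous)

/-! ### force on the electrons in the half space -/

theorem tf_pot_BC {h : X → ℝ} (hh : BC h) {φ₀ : ℝ} (hφ : 0 < φ₀) :
    BC (fun x => tf (pot h x - φ₀)) := by
  obtain ⟨R, hR⟩ := pot_decay hh hφ
  obtain ⟨M, hM⟩ := pot_bound hh
  refine ⟨tf_continuous.measurable.comp ((pot_continuous hh).measurable.sub measurable_const),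
    ⟨tf M, fun x => ?_⟩, ⟨R, fun x hx => ?_⟩⟩
  · rw [abs_of_nonneg (tf_nonneg _)]
    refine tf_mono ?_
    have := (abs_le.mp (hM x)).2
    linarith
  · refine tf_of_nonpos ?_
    have := (abs_lt.mp (hR x hx)).2
    linarith

/-- electron pressure on the plane -/
noncomputable def Pr (h : X → ℝ) (φ₀ : ℝ) : ℝ := ∫ z : E2, Phi (pot h (mk 0 z) - φ₀)

theorem ftc {h : X → ℝ} (hh : BC h) {φ₀ : ℝ} (hφ : 0 < φ₀) :
    ∫ x, Om.indicator (fun x => tf (pot h x - φ₀)) x * grad e1 h x = -Pr h φ₀ := by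
  have hB := tf_pot_BC hh hφ
  have hI : Integrable (fun x => Om.indicator (fun x => tf (pot h x - φ₀)) x * grad e1 h x) := by
    obtain ⟨B, hB'⟩ := grad_bound hh e1
    exact (hB.indicator Om_meas).mul_bdd (grad_continuous hh e1).measurable hB'
  rw [integral_X_swap hI]
  unfold Pr
  rw [← integral_neg]
  refine integral_congr_ae (Eventually.of_forall fun z => ?_)
  simp only
  have hline : ∀ s : ℝ, mk s z = mk 0 z + s • e1 := fun s => by rw [mk_add_smul, zero_add]
  have hder : ∀ s : ℝ, HasDerivAt (fun s : ℝ => Phi (pot h (mk s z) - φ₀))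
      (tf (pot h (mk s z) - φ₀) * grad e1 h (mk s z)) s := by
    intro s
    have h1 : HasDerivAt (fun s : ℝ => pot h (mk s z) - φ₀) (grad e1 h (mk s z)) s := by
      have := (hasDerivAt_pot hh (mk 0 z) e1 s).sub_const φ₀
      simpa only [← hline] using this
    exact (hasDerivAt_Phi _).comp s h1
  obtain ⟨R, hR⟩ := pot_decay hh hφ
  have hzero : ∀ s : ℝ, R ≤ s → tf (pot h (mk s z) - φ₀) = 0 ∧ Phi (pot h (mk s z) - φ₀) = 0 := by
    intro s hs
    have h1 : R ≤ ‖mk s z‖ := hs.trans ((le_abs_self s).trans (abs_fst_le (mk s z)))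
    have h2 := (abs_lt.mp (hR _ h1)).2
    exact ⟨tf_of_nonpos (by linarith), Phi_of_nonpos (by linarith)⟩
  have hcont : Continuous (fun s : ℝ => tf (pot h (mk s z) - φ₀) * grad e1 h (mk s z)) := by
    have hmc : Continuous (fun s : ℝ => mk s z) := mk_continuous.comp (continuous_id.prodMk continuous_const)
    exact (tf_continuous.comp (((pot_continuous hh).comp hmc).sub continuous_const)).mul
      ((grad_continuous hh e1).comp hmc)
  have h1 : ∫ s : ℝ, Om.indicator (fun x => tf (pot h x - φ₀)) (mk s z) * grad e1 h (mk s z) =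
      ∫ s in Ioi (0 : ℝ), tf (pot h (mk s z) - φ₀) * grad e1 h (mk s z) := by
    rw [← integral_indicator measurableSet_Ioi]
    refine integral_congr_ae (Eventually.of_forall fun s => ?_)
    simp only
    by_cases hs : 0 < s
    · rw [indicator_of_mem (show mk s z ∈ Om from hs), indicator_of_mem (show s ∈ Ioi (0 : ℝ) from hs)]
    · rw [indicator_of_notMem (show mk s z ∉ Om from hs),
        indicator_of_notMem (show s ∉ Ioi (0 : ℝ) from hs), zero_mul]
  rw [h1]
  have h2 : IntegrableOn (fun s : ℝ => tf (pot h (mk s z) - φ₀) * grad e1 h (mk s z))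
      (Ioi 0) := by
    have h3 : IntegrableOn (fun s : ℝ => tf (pot h (mk s z) - φ₀) * grad e1 h (mk s z))
        (Icc 0 (max R 0)) := hcont.continuousOn.integrableOn_Icc
    have h4 : IntegrableOn (fun s : ℝ => tf (pot h (mk s z) - φ₀) * grad e1 h (mk s z))
        (Ioi (max R 0)) := by
      refine (integrableOn_zero).congr_fun (fun s hs => ?_) measurableSet_Ioi
      rw [(hzero s ((le_max_left _ _).trans (le_of_lt hs))).1, zero_mul]
    refine (h3.union h4).mono_set fun s hs => ?_
    rcases le_or_gt s (max R 0) with h | h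
    · exact Or.inl ⟨le_of_lt hs, h⟩
    · exact Or.inr h
  rw [integral_Ioi_of_hasDerivAt_of_tendsto' (fun s _ => hder s) h2 (m := 0)]
  · ring
  · refine tendsto_const_nhds.congr' ?_
    filter_upwards [eventually_ge_atTop R] with s hs
    exact (hzero s hs).2.symm

end Pool.Agent.TF
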