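import Pool.Agent.Lib.MP_9cf0c9_mp.CalibEnds

/-! Second derivatives of Newtonian potentials of densities which are `C¹` near a point. -/

set_option linter.unusedSectionVars false
set_option linter.unusedVariables false
set_option linter.style.haveILetI false

namespace Pool.Agent.TF
open MeasureTheory Set Metric Filter Topology
open scoped ENNReal NNReal RealInnerProductSpace Gradient

variable {V : Type*} [NormedAddCommGroup V] [InnerProductSpace ℝ V] [FiniteDimensional ℝ V]
  [MeasurableSpace V] [BorelSpace V]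

/-- continuously differentiable functions of compact support -/
structure C1c (c : V → ℝ) (c' : V → V) : Prop where
  bc : BC c
  grad : ∀ x, HasGradientAt c (c' x) x
  cont : Continuous c'
  supp : ∃ R, ∀ x, R ≤ ‖x‖ → c' x = 0

theorem C1c.norm_bound {c : V → ℝ} {c' : V → V} (h : C1c c c') : ∃ M, 0 ≤ M ∧ ∀ x, ‖c' x‖ ≤ M := by
  obtain ⟨R, hR⟩ := h.supp
  have hcs : HasCompactSupport c' := by
    refine HasCompactSupport.intro (isCompact_closedBall (0 : V) R) fun x hx => hR x ?_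
    rw [mem_closedBall, dist_zero_right, not_le] at hx
    exact hx.le
  obtain ⟨M, hM⟩ := hcs.exists_bound_of_continuous h.cont
  exact ⟨M, (norm_nonneg _).trans (hM 0), hM⟩

theorem C1c.bcd {c : V → ℝ} {c' : V → V} (h : C1c c c') (e : V) : BC (fun y => ⟪c' y, e⟫) := by
  obtain ⟨M, hM0, hM⟩ := h.norm_bound
  obtain ⟨R, hR⟩ := h.supp
  refine ⟨(h.cont.inner continuous_const).measurable, ⟨M * ‖e‖, fun x => ?_⟩,
    ⟨R, fun x hx => ?_⟩⟩
  · exact (abs_real_inner_le_norm _ _).trans (mul_le_mul_of_nonneg_right (hM x) (norm_nonneg _))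
  · simp only [hR x hx, inner_zero_left]

/-- second derivative of `|x - c|⁻¹` -/
noncomputable def d2 (c x : V) : V →L[ℝ] V :=
  (3 * (‖x - c‖ ^ 5)⁻¹) • (innerSL ℝ (x - c)).smulRight (x - c) -
    (‖x - c‖ ^ 3)⁻¹ • ContinuousLinearMap.id ℝ V

theorem d2_apply (c x a : V) : d2 c x a =
    (3 * (‖x - c‖ ^ 5)⁻¹ * ⟪x - c, a⟫) • (x - c) - (‖x - c‖ ^ 3)⁻¹ • a := by
  simp only [d2, sub_apply, smul_apply, ContinuousLinearMap.smulRight_apply,
    innerSL_apply_apply, ContinuousLinearMap.id_apply, smul_smul]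

theorem d2_norm (c x : V) : ‖d2 c x‖ ≤ 4 * (‖x - c‖ ^ 3)⁻¹ := by
  refine ContinuousLinearMap.opNorm_le_bound _ (by positivity) fun a => ?_
  rw [d2_apply]
  by_cases h0 : ‖x - c‖ = 0
  · simp [h0]
  have hn : 0 < ‖x - c‖ := lt_of_le_of_ne (norm_nonneg _) (Ne.symm h0)
  refine (norm_sub_le _ _).trans ?_
  rw [norm_smul, norm_smul, norm_mul, Real.norm_of_nonneg (by positivity : (0:ℝ) ≤ 3 * (‖x - c‖ ^ 5)⁻¹),
    Real.norm_of_nonneg (by positivity : (0:ℝ) ≤ (‖x - c‖ ^ 3)⁻¹), Real.norm_eq_abs]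
  have h1 := abs_real_inner_le_norm (x - c) a
  calc 3 * (‖x - c‖ ^ 5)⁻¹ * |⟪x - c, a⟫| * ‖x - c‖ + (‖x - c‖ ^ 3)⁻¹ * ‖a‖
      ≤ 3 * (‖x - c‖ ^ 5)⁻¹ * (‖x - c‖ * ‖a‖) * ‖x - c‖ + (‖x - c‖ ^ 3)⁻¹ * ‖a‖ := by gcongr
    _ = 4 * (‖x - c‖ ^ 3)⁻¹ * ‖a‖ := by field_simp; ring

section dim3
variable [hd : Fact (Module.finrank ℝ V = 3)]

theorem hasFDerivAt_gradP {c x : V} (hx : x ≠ c) : HasFDerivAt (gradP c) (d2 c x) x := by
  have h0 : 0 < ‖x - c‖ := norm_pos_iff.mpr (sub_ne_zero.mpr hx)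
  have h1 := (hasGradientAt_inv_norm hx).hasFDerivAt
  have h2 := h1.pow 3
  have h3 : HasFDerivAt (fun y : V => y - c) (ContinuousLinearMap.id ℝ V) x :=
    (hasFDerivAt_id x).sub_const c
  have h4 := (h2.smul h3).neg
  have h5 : gradP c =ᶠ[𝓝 x] (-((fun x : V => ‖x - c‖⁻¹ ^ 3) • fun y => y - c)) :=
    Eventually.of_forall fun y => by
      simp only [gradP, Pi.neg_apply, Pi.smul_apply', inv_pow]
  refine (h4.congr_of_eventuallyEq h5).congr_fderiv ?_
  ext1 a
  rw [d2_apply]
  simp only [neg_apply, add_apply, smul_apply, ContinuousLinearMap.smulRight_apply,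
    InnerProductSpace.toDual_apply_apply, ContinuousLinearMap.id_apply, smul_eq_mul,
    nsmul_eq_mul, Nat.cast_ofNat, Nat.reduceSub]
  unfold gradP
  rw [inner_neg_left, real_inner_smul_left]
  have e1 : 3 * ‖x - c‖⁻¹ ^ 2 * -((‖x - c‖ ^ 3)⁻¹ * ⟪x - c, a⟫) =
      -(3 * (‖x - c‖ ^ 5)⁻¹ * ⟪x - c, a⟫) := by field_simp
  rw [e1, neg_smul, inv_pow]
  abel

theorem sum_sq_inner (v : V) : ∑ i, ⟪v, stdOrthonormalBasis ℝ V i⟫ ^ 2 = ‖v‖ ^ 2 := by
  rw [← (stdOrthonormalBasis ℝ V).sum_sq_norm_inner_left v]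
  refine Finset.sum_congr rfl fun i _ => ?_
  rw [Real.norm_eq_abs, sq_abs]

theorem sum_inner_mul (v w : V) :
    ∑ i, ⟪v, stdOrthonormalBasis ℝ V i⟫ * ⟪w, stdOrthonormalBasis ℝ V i⟫ = ⟪v, w⟫ := by
  rw [← (stdOrthonormalBasis ℝ V).sum_inner_mul_inner v w]
  refine Finset.sum_congr rfl fun i _ => ?_
  rw [real_inner_comm w]

theorem d2_trace {c x : V} :
    ∑ i, ⟪d2 c x (stdOrthonormalBasis ℝ V i), stdOrthonormalBasis ℝ V i⟫ = 0 := by
  have e1 : ∀ i, ⟪d2 c x (stdOrthonormalBasis ℝ V i), stdOrthonormalBasis ℝ V i⟫ =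
      3 * (‖x - c‖ ^ 5)⁻¹ * ⟪x - c, stdOrthonormalBasis ℝ V i⟫ ^ 2 - (‖x - c‖ ^ 3)⁻¹ := by
    intro i
    have h1 : ⟪stdOrthonormalBasis ℝ V i, stdOrthonormalBasis ℝ V i⟫ = 1 := by
      rw [real_inner_self_eq_norm_sq, (stdOrthonormalBasis ℝ V).norm_eq_one]; norm_num
    rw [d2_apply, inner_sub_left, real_inner_smul_left, real_inner_smul_left, h1]
    ring
  simp_rw [e1]
  rw [Finset.sum_sub_distrib, ← Finset.mul_sum, sum_sq_inner]
  simp only [Finset.sum_const, Finset.card_univ, Fintype.card_fin, hd.out, nsmul_eq_mul]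
  by_cases h0 : ‖x - c‖ = 0
  · simp [h0]
  · field_simp
    norm_num

/-! ### compactly supported `C¹` densities -/

theorem C1c.inner_gradV {c : V → ℝ} {c' : V → V} (h : C1c c c') (x e : V) :
    ⟪gradV c x, e⟫ = pot (fun y => ⟪c' y, e⟫) x := by
  obtain ⟨M, hM0, hM⟩ := h.norm_bound
  obtain ⟨R, hR⟩ := h.supp
  have h1 := hasDerivAt_pot h.bc x e 0
  rw [zero_smul, add_zero, ← Pool.Agent.TF.inner_gradV (h.bc.GI x)] at h1
  set B : V → ℝ := (ball (0 : V) (R + ‖e‖)).indicator fun _ => M * ‖e‖ with hB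
  have hBbc : BC B := by
    refine ⟨measurable_const.indicator measurableSet_ball, ⟨M * ‖e‖, fun x => ?_⟩,
      ⟨R + ‖e‖, fun x hx => indicator_of_notMem (by simpa using hx) _⟩⟩
    have : 0 ≤ M * ‖e‖ := by positivity
    rw [abs_of_nonneg (indicator_nonneg (fun _ _ => this) _)]
    exact indicator_le_self' (fun _ _ => this) _
  have hbt : ∀ t : ℝ, BC (fun y => c (y + t • e)) := fun t => h.bc.translate _
  have h2 := hasDerivAt_integral_of_dominated_loc_of_deriv_le (μ := (volume : Measure V))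
      (F := fun (t : ℝ) (y : V) => ‖x - y‖⁻¹ * c (y + t • e))
      (F' := fun (t : ℝ) (y : V) => ‖x - y‖⁻¹ * ⟪c' (y + t • e), e⟫)
      (bound := fun y => ‖x - y‖⁻¹ * B y) (x₀ := (0 : ℝ)) (s := ball 0 1)
      (ball_mem_nhds 0 one_pos)
      (Eventually.of_forall fun t => (pot_integrable (hbt t) x).aestronglyMeasurable)
      (pot_integrable (hbt 0) x)
      (by
        have h3 := pot_integrable (h.bcd e) x
        simp only [zero_smul, add_zero]
        exact h3.aestronglyMeasurable)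
      (by
        refine Eventually.of_forall fun y t ht => ?_
        rw [mem_ball, Real.dist_eq, sub_zero] at ht
        rw [norm_mul, Real.norm_of_nonneg (by positivity : (0:ℝ) ≤ ‖x - y‖⁻¹), Real.norm_eq_abs]
        refine mul_le_mul_of_nonneg_left ?_ (by positivity)
        by_cases hy : y ∈ ball (0 : V) (R + ‖e‖)
        · rw [hB, indicator_of_mem hy]
          exact (abs_real_inner_le_norm _ _).trans
            (mul_le_mul_of_nonneg_right (hM _) (norm_nonneg _))
        · rw [hB, indicator_of_notMem hy]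
          rw [mem_ball, dist_zero_right, not_lt] at hy
          have h4 : R ≤ ‖y + t • e‖ := by
            have h5 : ‖y‖ ≤ ‖y + t • e‖ + ‖t • e‖ := by
              calc ‖y‖ = ‖(y + t • e) - t • e‖ := by rw [add_sub_cancel_right]
                _ ≤ _ := norm_sub_le _ _
            have h6 : ‖t • e‖ ≤ ‖e‖ := by
              rw [norm_smul, Real.norm_eq_abs]
              exact mul_le_of_le_one_left (norm_nonneg _) ht.le
            linarith
          rw [hR _ h4, inner_zero_left, abs_zero])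
      (pot_integrable hBbc x)
      (by
        refine Eventually.of_forall fun y t _ => ?_
        refine HasDerivAt.const_mul _ ?_
        have h5 : HasDerivAt (fun s : ℝ => y + s • e) e t := by
          simpa using ((hasDerivAt_id t).smul_const e).const_add y
        have h6 := (h.grad (y + t • e)).hasFDerivAt.comp_hasDerivAt t h5
        rwa [InnerProductSpace.toDual_apply_apply] at h6)
  have h3 := h2.2
  have h4 : (fun t : ℝ => ∫ y, ‖x - y‖⁻¹ * c (y + t • e)) = fun t => pot c (x + t • e) := by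
    funext t
    exact pot_translate c (t • e) x
  rw [h4] at h3
  rw [h1.unique h3]
  unfold pot
  simp only [zero_smul, add_zero]

/-- the second derivative of the potential of a `C¹` density with gradient `c'` -/
noncomputable def hN (c' : V → V) (x : V) : V →L[ℝ] V :=
  ∑ i, (innerSL ℝ (gradV (fun y => ⟪c' y, stdOrthonormalBasis ℝ V i⟫) x)).smulRight
    (stdOrthonormalBasis ℝ V i)

theorem hN_apply (c' : V → V) (x a : V) : hN c' x a =
    ∑ i, ⟪gradV (fun y => ⟪c' y, stdOrthonormalBasis ℝ V i⟫) x, a⟫ •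
      stdOrthonormalBasis ℝ V i := by
  unfold hN
  rw [sum_apply]
  rfl

theorem C1c.hasFDerivAt {c : V → ℝ} {c' : V → V} (h : C1c c c') (x : V) :
    HasFDerivAt (gradV c) (hN c' x) x := by
  have h1 : gradV c = fun x => ∑ i, pot (fun y => ⟪c' y, stdOrthonormalBasis ℝ V i⟫) x •
      stdOrthonormalBasis ℝ V i := by
    funext x
    have h2 := (stdOrthonormalBasis ℝ V).sum_repr' (gradV c x)
    rw [← h2]
    refine Finset.sum_congr rfl fun i _ => ?_
    rw [real_inner_comm, h.inner_gradV]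
  rw [h1]
  have h3 : ∀ i ∈ (Finset.univ : Finset (Fin (Module.finrank ℝ V))),
      HasFDerivAt (fun x => pot (fun y => ⟪c' y, stdOrthonormalBasis ℝ V i⟫) x •
      stdOrthonormalBasis ℝ V i) ((innerSL ℝ (gradV (fun y => ⟪c' y, stdOrthonormalBasis ℝ V i⟫)
        x)).smulRight (stdOrthonormalBasis ℝ V i)) x := fun i _ => by
    have h4 := (hasGradientAt_pot (h.bcd (stdOrthonormalBasis ℝ V i)) x).hasFDerivAt.smul_const
      (stdOrthonormalBasis ℝ V i)
    refine h4.congr_fderiv ?_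
    ext a
    simp
  exact HasFDerivAt.fun_sum h3

theorem C1c.hN_continuous {c : V → ℝ} {c' : V → V} (h : C1c c c') : Continuous (hN c') := by
  rw [continuous_clm_apply]
  intro a
  simp_rw [hN_apply]
  refine continuous_finsetSum _ fun i _ => Continuous.smul ?_ continuous_const
  exact (gradV_continuous (h.bcd _)).inner continuous_const

theorem hN_norm (c' : V → V) (x : V) :
    ‖hN c' x‖ ≤ ∑ i, ∫ y, (‖x - y‖ ^ 2)⁻¹ * |⟪c' y, stdOrthonormalBasis ℝ V i⟫| := by
  unfold hN
  refine (norm_sum_le _ _).trans (Finset.sum_le_sum fun i _ => ?_)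
  rw [ContinuousLinearMap.norm_smulRight_apply, (stdOrthonormalBasis ℝ V).norm_eq_one, mul_one,
    innerSL_apply_norm]
  exact gradV_norm_le x

theorem C1c.trialK {c : V → ℝ} {c' : V → V} (h : C1c c c') : TrialK ∅ c c' := by
  obtain ⟨M, R, hM0, hR0, hM, hR⟩ := h.bc.bounds
  obtain ⟨M1, hM1, hM1'⟩ := h.norm_bound
  obtain ⟨R1, hR1⟩ := h.supp
  refine ⟨⟨M, hM⟩, fun ε hε => ⟨R, fun x hx => by rw [hR x hx, abs_zero]; exact hε⟩,
    continuous_iff_continuousAt.mpr fun x => (h.grad x).hasFDerivAt.continuousAt, ?_,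
    Eventually.of_forall h.grad, ?_⟩
  · intro x _
    have hl : LipschitzWith M1.toNNReal c := by
      refine lipschitzWith_of_nnnorm_fderiv_le
        (fun x => (h.grad x).hasFDerivAt.differentiableAt) fun x => ?_
      rw [(h.grad x).hasFDerivAt.fderiv]
      rw [← NNReal.coe_le_coe, coe_nnnorm, Real.coe_toNNReal _ hM1]
      rw [LinearIsometryEquiv.norm_map]
      exact hM1' x
    exact lipAt_of_lip hl x
  · have hb : Integrable ((ball (0 : V) R1).indicator fun _ : V => M1 ^ 2) :=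
      (integrable_indicator_iff measurableSet_ball).mpr
        (integrableOn_const measure_ball_lt_top.ne)
    refine hb.mono' (h.cont.norm.pow 2).aestronglyMeasurable (Eventually.of_forall fun x => ?_)
    rw [Real.norm_of_nonneg (by positivity)]
    by_cases hx : x ∈ ball (0 : V) R1
    · rw [indicator_of_mem hx]
      exact pow_le_pow_left₀ (norm_nonneg _) (hM1' x) 2
    · rw [indicator_of_notMem hx, hR1 x (by simpa using hx)]
      simp

theorem C1c.trace {c : V → ℝ} {c' : V → V} (h : C1c c c') (x : V) :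
    ∑ i, ⟪hN c' x (stdOrthonormalBasis ℝ V i), stdOrthonormalBasis ℝ V i⟫ =
      -(4 * Real.pi * c x) := by
  obtain ⟨M1, hM1, hM1'⟩ := h.norm_bound
  obtain ⟨R1, hR1⟩ := h.supp
  have hbn : BC (fun y => ‖c' y‖) := by
    refine ⟨h.cont.norm.measurable, ⟨M1, fun x => ?_⟩, ⟨R1, fun x hx => ?_⟩⟩
    · rw [abs_of_nonneg (norm_nonneg _)]; exact hM1' x
    · simp only [hR1 x hx, norm_zero]
  have hI : Integrable fun y => (‖y - x‖ ^ 2)⁻¹ * ‖c' y‖ := by
    refine (ker_sq.integrable hbn x).congr (Eventually.of_forall fun y => ?_)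
    simp only
    rw [norm_sub_rev]
  obtain ⟨w1, w2⟩ := weak_point finite_empty h.trialK x hI
  have e1 : ∀ i, ⟪hN c' x (stdOrthonormalBasis ℝ V i), stdOrthonormalBasis ℝ V i⟫ =
      -∫ y, ⟪c' y, stdOrthonormalBasis ℝ V i⟫ * ⟪gradP x y, stdOrthonormalBasis ℝ V i⟫ := by
    intro i
    rw [hN_apply, sum_inner]
    have e2 : ∀ j, ⟪⟪gradV (fun y => ⟪c' y, stdOrthonormalBasis ℝ V j⟫) x,
        stdOrthonormalBasis ℝ V i⟫ • stdOrthonormalBasis ℝ V j, stdOrthonormalBasis ℝ V i⟫ =
        if j = i then ⟪gradV (fun y => ⟪c' y, stdOrthonormalBasis ℝ V j⟫) x,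
        stdOrthonormalBasis ℝ V i⟫ else 0 := by
      intro j
      rw [real_inner_smul_left, orthonormal_iff_ite.mp (stdOrthonormalBasis ℝ V).orthonormal j i]
      split_ifs <;> ring
    simp_rw [e2]
    rw [Finset.sum_ite_eq' Finset.univ i, if_pos (Finset.mem_univ i),
      Pool.Agent.TF.inner_gradV ((h.bcd _).GI x)]
    unfold Pool.Agent.TF.grad
    rw [← integral_neg]
    refine integral_congr_ae (Eventually.of_forall fun y => ?_)
    simp only
    unfold gradP
    rw [inner_neg_left, real_inner_smul_left, ← neg_sub x y, norm_neg, inner_neg_left]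
    ring
  have hi : ∀ i, Integrable fun y =>
      ⟪c' y, stdOrthonormalBasis ℝ V i⟫ * ⟪gradP x y, stdOrthonormalBasis ℝ V i⟫ := by
    intro i
    refine hI.mono' ((h.bcd _).meas.mul
      ((gradP_meas x).inner measurable_const)).aestronglyMeasurable
      (Eventually.of_forall fun y => ?_)
    rw [norm_mul, Real.norm_eq_abs, Real.norm_eq_abs, ← gradP_norm x y, mul_comm]
    have h1 := abs_real_inner_le_norm (c' y) (stdOrthonormalBasis ℝ V i)
    have h2 := abs_real_inner_le_norm (gradP x y) (stdOrthonormalBasis ℝ V i)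
    rw [(stdOrthonormalBasis ℝ V).norm_eq_one, mul_one] at h1 h2
    exact mul_le_mul h2 h1 (abs_nonneg _) (norm_nonneg _)
  simp_rw [e1]
  rw [Finset.sum_neg_distrib, ← integral_finsetSum _ fun i _ => hi i, ← w2]
  congr 1
  refine integral_congr_ae (Eventually.of_forall fun y => ?_)
  simp only
  rw [sum_inner_mul, real_inner_comm]

end dim3

end Pool.Agent.TF
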