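import Pool.Agent.Lib.MP_9cf0c9_mp.Radial

/-! One nucleus: uniqueness, radial symmetry and the radial profile of the Thomas-Fermi ion. -/

set_option autoImplicit false
set_option linter.unusedSectionVars false
set_option linter.unusedVariables false
set_option linter.style.haveILetI false

namespace Pool.Agent.TF
open MeasureTheory Set Metric Filter Topology
open scoped ENNReal NNReal RealInnerProductSpace

section dim3
variable {V : Type*} [NormedAddCommGroup V] [InnerProductSpace ℝ V] [FiniteDimensional ℝ V]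
  [MeasurableSpace V] [BorelSpace V]
variable [hd : Fact (Module.finrank ℝ V = 3)]

/-! ### uniqueness -/

/-- the Thomas-Fermi equation with a given outer potential has at most one solution -/
theorem sol_unique_ae {W ρ ρ' : V → ℝ} (hρ : TC ρ) (hρ' : TC ρ')
    (h : ∀ᵐ x, ρ x = tf (W x - pot ρ x)) (h' : ∀ᵐ x, ρ' x = tf (W x - pot ρ' x)) :
    ρ =ᵐ[volume] ρ' := by
  have hI : Integrable fun x => -((ρ x - ρ' x) * (pot ρ x - pot ρ' x)) := by
    have h1 := ((((hρ.En_integrable hρ).sub (hρ.En_integrable hρ')).sub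
      (hρ'.En_integrable hρ)).add (hρ'.En_integrable hρ')).neg
    refine h1.congr (Eventually.of_forall fun x => ?_)
    simp only [Pi.neg_apply, Pi.add_apply, Pi.sub_apply]
    ring
  have hval : ∫ x, (ρ x - ρ' x) * (pot ρ x - pot ρ' x) =
      En ρ ρ - En ρ ρ' - En ρ' ρ + En ρ' ρ' := by
    unfold En
    rw [← integral_ssa (hρ.En_integrable hρ) (hρ.En_integrable hρ') (hρ'.En_integrable hρ)
      (hρ'.En_integrable hρ')]
    refine integral_congr_ae (Eventually.of_forall fun x => ?_)
    simp only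
    ring
  have hpsd := hρ.psd hρ'
  have hsym := hρ'.En_symm hρ
  have hnn : 0 ≤ᵐ[volume] fun x => -((ρ x - ρ' x) * (pot ρ x - pot ρ' x)) := by
    filter_upwards [h, h'] with x hx hx'
    simp only [Pi.zero_apply]
    rcases le_total (pot ρ x) (pot ρ' x) with hle | hle
    · have h1 : ρ' x ≤ ρ x := by
        rw [hx, hx']; exact tf_mono (by linarith)
      nlinarith
    · have h1 : ρ x ≤ ρ' x := by
        rw [hx, hx']; exact tf_mono (by linarith)
      nlinarith
  have h0 : ∫ x, -((ρ x - ρ' x) * (pot ρ x - pot ρ' x)) ≤ 0 := by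
    rw [integral_neg, hval]
    linarith
  have h00 : ∫ x, -((ρ x - ρ' x) * (pot ρ x - pot ρ' x)) = 0 :=
    le_antisymm h0 (integral_nonneg_of_ae hnn)
  have hz := (integral_eq_zero_iff_of_nonneg_ae hnn hI).mp h00
  filter_upwards [hz, h, h'] with x hx h1 h2
  simp only [Pi.zero_apply, neg_eq_zero, mul_eq_zero] at hx
  rcases hx with hx | hx
  · linarith
  · rw [h1, h2]
    congr 1
    linarith

/-! ### radial symmetry -/

theorem ion_isom {z φ₀ : ℝ} {ρ : V → ℝ} (hρ : TC ρ)
    (heq : ∀ x, x ≠ 0 → ρ x = tf (z * ‖x‖⁻¹ - pot ρ x - φ₀)) (L : V ≃ₗᵢ[ℝ] V) :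
    (∀ x, pot ρ (L x) = pot ρ x) ∧ ∀ x, x ≠ 0 → ρ (L x) = ρ x := by
  haveI := nontriv (V := V)
  have hne : ∀ᵐ x : V, x ≠ 0 := by rw [ae_iff]; simp
  have hρL : TC fun x => ρ (L x) := by
    have := hρ.push L.symm
    simpa using this
  have e1 : ∀ᵐ x, ρ x = tf ((z * ‖x‖⁻¹ - φ₀) - pot ρ x) := by
    filter_upwards [hne] with x hx
    rw [heq x hx]
    congr 1
    ring
  have e2 : ∀ᵐ x, (fun x => ρ (L x)) x = tf ((z * ‖x‖⁻¹ - φ₀) - pot (fun x => ρ (L x)) x) := by
    filter_upwards [hne] with x hx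
    have hLx : L x ≠ 0 := by
      intro h
      rw [← norm_eq_zero, L.norm_map, norm_eq_zero] at h
      exact hx h
    rw [heq _ hLx, pot_comp_isom, L.norm_map]
    congr 1
    ring
  have h1 := sol_unique_ae hρL hρ e2 e1
  have h2 : pot (fun x => ρ (L x)) = pot ρ := pot_congr_ae h1
  have h3 : ∀ x, pot ρ (L x) = pot ρ x := by
    intro x
    rw [← pot_comp_isom, h2]
  refine ⟨h3, fun x hx => ?_⟩
  have hLx : L x ≠ 0 := by
    intro h
    rw [← norm_eq_zero, L.norm_map, norm_eq_zero] at h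
    exact hx h
  rw [heq _ hLx, heq _ hx, h3, L.norm_map]

/-! ### the radial profile -/

/-- the radial profile `ψ` (potential minus chemical potential) and the enclosed charge `q` of a
Thomas-Fermi ion with nuclear charge `z` -/
structure Ion (z φ₀ : ℝ) (ψ q : ℝ → ℝ) : Prop where
  dψ : ∀ r, 0 < r → HasDerivAt ψ (-(q r) / r ^ 2) r
  dq : ∀ r, 0 < r → HasDerivAt q (-(4 * Real.pi * r ^ 2 * tf (ψ r))) r
  q0 : Tendsto q (𝓝[>] 0) (𝓝 z)
  up : ∀ r, 0 < r → ψ r ≤ z / r - φ₀
  low : ∃ B, ∀ r, 0 < r → z / r - B ≤ ψ r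
  lim : Tendsto ψ atTop (𝓝 (-φ₀))

/-- the one-nucleus solution has a radial profile -/
theorem exists_ion {z φ₀ : ℝ} {ρ : V → ℝ} (hρ : TC ρ)
    (heq : ∀ x, x ≠ 0 → ρ x = tf (z * ‖x‖⁻¹ - pot ρ x - φ₀)) :
    ∃ ψ q : ℝ → ℝ, Ion z φ₀ ψ q ∧ (∀ x, x ≠ 0 → z * ‖x‖⁻¹ - pot ρ x - φ₀ = ψ ‖x‖) ∧
      (∀ x, x ≠ 0 → ρ x = tf (ψ ‖x‖)) ∧
      (∀ r, 0 ≤ r → q r = z - ∫ x in ball (0 : V) r, ρ x) ∧
      Tendsto q atTop (𝓝 (z - ∫ x, ρ x)) := by
  haveI := nontriv (V := V)
  obtain ⟨e, he⟩ := exists_norm_eq V (zero_le_one (α := ℝ))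
  have hne : ∀ᵐ x : V, x ≠ 0 := by rw [ae_iff]; simp
  -- radial functions
  have hPx : ∀ x : V, pot ρ x = pot ρ (‖x‖ • e) := by
    intro x
    obtain ⟨L, hL⟩ := exists_isom (v := x) (w := ‖x‖ • e) (by
      rw [norm_smul, he, mul_one, norm_norm])
    rw [← hL]
    exact ((ion_isom hρ heq L).1 x).symm
  have hρx : ∀ x : V, x ≠ 0 → ρ x = ρ (‖x‖ • e) := by
    intro x hx
    obtain ⟨L, hL⟩ := exists_isom (v := x) (w := ‖x‖ • e) (by
      rw [norm_smul, he, mul_one, norm_norm])
    rw [← hL]
    exact ((ion_isom hρ heq L).2 x hx).symm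
  set P : ℝ → ℝ := fun r => pot ρ (r • e) with hP
  set F : ℝ → ℝ := (Ioi (0 : ℝ)).indicator fun r => ρ (r • e) with hF
  have hFm : Measurable F :=
    (hρ.meas.comp (measurable_id.smul_const e)).indicator measurableSet_Ioi
  have hF0 : ∀ s, 0 ≤ F s := fun s => indicator_nonneg (fun t _ => hρ.nonneg _) s
  have hFρ : ∀ x : V, x ≠ 0 → ρ x = F ‖x‖ := by
    intro x hx
    rw [hF, indicator_of_mem (mem_Ioi.mpr (norm_pos_iff.mpr hx))]
    exact hρx x hx
  have hae : ρ =ᵐ[volume] fun y => F ‖y‖ := by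
    filter_upwards [hne] with x hx
    exact hFρ x hx
  set a : ℝ → ℝ := fun s => 4 * Real.pi * s ^ 2 * F s with ha
  set b : ℝ → ℝ := fun s => 4 * Real.pi * s * F s with hb
  have hzero : ∀ s, s ≤ 0 → F s = 0 := fun s hs => indicator_of_notMem (by simpa using hs) _
  have haI : Integrable a := by
    have h1 : Integrable fun y : V => F ‖y‖ := hρ.int.congr hae
    rw [integrable_radial_iff] at h1
    rw [← integrableOn_univ, ← Iic_union_Ioi (a := (0 : ℝ))]
    refine IntegrableOn.union ?_ h1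
    refine (integrableOn_congr_fun (fun s hs => ?_) measurableSet_Iic).mpr
      (integrableOn_zero : IntegrableOn (fun _ : ℝ => (0 : ℝ)) (Iic 0) volume)
    simp only [ha]
    rw [hzero s hs, mul_zero]
  have hbI : Integrable b := by
    have h1 : Integrable fun y : V => (fun s : ℝ => s⁻¹ * F s) ‖y‖ := by
      refine (hρ.pot_integrable 0).congr ?_
      filter_upwards [hae] with y hy
      simp only [zero_sub, norm_neg]
      rw [hy]
    have h2 := (integrable_radial_iff (V := V) (fun s : ℝ => s⁻¹ * F s)).mp h1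
    rw [← integrableOn_univ, ← Iic_union_Ioi (a := (0 : ℝ))]
    refine IntegrableOn.union ?_ (h2.congr_fun (fun s hs => ?_) measurableSet_Ioi)
    · refine (integrableOn_congr_fun (fun s hs => ?_) measurableSet_Iic).mpr
        (integrableOn_zero : IntegrableOn (fun _ : ℝ => (0 : ℝ)) (Iic 0) volume)
      simp only [hb]
      rw [hzero s hs, mul_zero]
    · have hs' : s ≠ 0 := (mem_Ioi.mp hs).ne'
      simp only [hb]
      field_simp
  set A : ℝ → ℝ := fun r => ∫ s in (0 : ℝ)..r, a s with hA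
  set B : ℝ → ℝ := fun r => ∫ s in (0 : ℝ)..r, b s with hB
  set T : ℝ := ∫ s in Ioi (0 : ℝ), b s with hT
  have hPr : ∀ r, 0 < r → P r = A r / r + T - B r := by
    intro r hr
    have hre : r • e ≠ 0 := by
      rw [← norm_ne_zero_iff, norm_smul, he, mul_one, Real.norm_of_nonneg hr.le]
      exact hr.ne'
    have hnr : ‖r • e‖ = r := by rw [norm_smul, he, mul_one, Real.norm_of_nonneg hr.le]
    have h1 : P r = ∫ s in Ioi (0 : ℝ), 4 * Real.pi * s ^ 2 / max s r * F s := by
      have h2 := pot_radial hFm hF0 hre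
      rw [hnr] at h2
      rw [← h2]
      simp only [hP]
      rw [pot_congr_ae hae]
    have hU : Ioi (0 : ℝ) = Ioc 0 r ∪ Ioi r := (Ioc_union_Ioi_eq_Ioi hr.le).symm
    have hdisj : Disjoint (Ioc (0 : ℝ) r) (Ioi r) := by
      rw [disjoint_left]
      intro s h3 h4
      exact absurd h3.2 (not_le.mpr h4)
    have ic1 : IntegrableOn (fun s => 4 * Real.pi * s ^ 2 / max s r * F s) (Ioc 0 r) := by
      have h2 : IntegrableOn (fun s => a s / r) (Ioc 0 r) :=
        (haI.integrableOn (s := Ioc 0 r)).div_const r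
      refine h2.congr_fun (fun s hs => ?_) measurableSet_Ioc
      simp only [ha]
      rw [max_eq_right hs.2]
      ring
    have ic2 : IntegrableOn (fun s => 4 * Real.pi * s ^ 2 / max s r * F s) (Ioi r) := by
      refine (hbI.integrableOn (s := Ioi r)).congr_fun (fun s hs => ?_) measurableSet_Ioi
      have hs0 : s ≠ 0 := (hr.trans (mem_Ioi.mp hs)).ne'
      simp only [hb]
      rw [max_eq_left (mem_Ioi.mp hs).le]
      field_simp
    have v1 : ∫ s in Ioc 0 r, 4 * Real.pi * s ^ 2 / max s r * F s = A r / r := by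
      simp only [hA]
      rw [intervalIntegral.integral_of_le hr.le, ← integral_div]
      refine setIntegral_congr_fun measurableSet_Ioc fun s hs => ?_
      simp only [ha]
      rw [max_eq_right hs.2]
      ring
    have v2 : ∫ s in Ioi r, 4 * Real.pi * s ^ 2 / max s r * F s = ∫ s in Ioi r, b s := by
      refine setIntegral_congr_fun measurableSet_Ioi fun s hs => ?_
      have hs0 : s ≠ 0 := (hr.trans (mem_Ioi.mp hs)).ne'
      simp only [hb]
      rw [max_eq_left (mem_Ioi.mp hs).le]
      field_simp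
    have v3 : T = B r + ∫ s in Ioi r, b s := by
      simp only [hT, hB]
      rw [intervalIntegral.integral_of_le hr.le, hU, setIntegral_union hdisj measurableSet_Ioi
        hbI.integrableOn hbI.integrableOn]
    rw [h1, hU, setIntegral_union hdisj measurableSet_Ioi ic1 ic2, v1, v2]
    linarith
  have hAc : Continuous A := intervalIntegral.continuous_primitive
    (fun _ _ => haI.intervalIntegrable) 0
  have hBc : Continuous B := intervalIntegral.continuous_primitive
    (fun _ _ => hbI.intervalIntegrable) 0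
  have hPc : ∀ r, 0 < r → ContinuousAt P r := by
    intro r hr
    have h1 : ContinuousAt (fun r => A r / r + T - B r) r :=
      ((hAc.continuousAt.div continuousAt_id hr.ne').add continuousAt_const).sub hBc.continuousAt
    refine h1.congr ?_
    filter_upwards [Ioi_mem_nhds hr] with s hs
    exact (hPr s hs).symm
  set ψ : ℝ → ℝ := fun r => z / r - P r - φ₀ with hψ
  have hFψ : ∀ r, 0 < r → F r = tf (ψ r) := by
    intro r hr
    have hre : r • e ≠ 0 := by
      rw [← norm_ne_zero_iff, norm_smul, he, mul_one, Real.norm_of_nonneg hr.le]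
      exact hr.ne'
    have hnr : ‖r • e‖ = r := by rw [norm_smul, he, mul_one, Real.norm_of_nonneg hr.le]
    have h1 := heq _ hre
    rw [hnr] at h1
    rw [hF, indicator_of_mem (mem_Ioi.mpr hr), h1]
    rfl
  have hψc : ∀ r, 0 < r → ContinuousAt ψ r := by
    intro r hr
    exact ((continuousAt_const.div continuousAt_id hr.ne').sub (hPc r hr)).sub continuousAt_const
  have hFc : ∀ r, 0 < r → ContinuousAt F r := by
    intro r hr
    have h1 : ContinuousAt (fun r => tf (ψ r)) r := tf_continuous.continuousAt.comp (hψc r hr)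
    refine h1.congr ?_
    filter_upwards [Ioi_mem_nhds hr] with s hs
    exact (hFψ s hs).symm
  have ham : Measurable a := ((by fun_prop : Measurable fun s : ℝ => 4 * Real.pi * s ^ 2)).mul hFm
  have hbm : Measurable b := ((by fun_prop : Measurable fun s : ℝ => 4 * Real.pi * s)).mul hFm
  have hdA : ∀ r, 0 < r → HasDerivAt A (a r) r := by
    intro r hr
    refine intervalIntegral.integral_hasDerivAt_right haI.intervalIntegrable
      ham.stronglyMeasurable.stronglyMeasurableAtFilter ?_
    exact (by fun_prop : ContinuousAt (fun s : ℝ => 4 * Real.pi * s ^ 2) r).mul (hFc r hr)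
  have hdB : ∀ r, 0 < r → HasDerivAt B (b r) r := by
    intro r hr
    refine intervalIntegral.integral_hasDerivAt_right hbI.intervalIntegrable
      hbm.stronglyMeasurable.stronglyMeasurableAtFilter ?_
    exact (by fun_prop : ContinuousAt (fun s : ℝ => 4 * Real.pi * s) r).mul (hFc r hr)
  have hdP : ∀ r, 0 < r → HasDerivAt P (-(A r) / r ^ 2) r := by
    intro r hr
    have h1 := (((hdA r hr).div (hasDerivAt_id r) hr.ne').add_const T).sub (hdB r hr)
    have h2 : HasDerivAt (fun r => A r / r + T - B r) (-(A r) / r ^ 2) r := by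
      refine h1.congr_deriv ?_
      simp only [ha, hb, id]
      field_simp
      ring
    refine h2.congr_of_eventuallyEq ?_
    filter_upwards [Ioi_mem_nhds hr] with s hs
    exact hPr s hs
  set q : ℝ → ℝ := fun r => z - A r with hq
  have hA0 : A 0 = 0 := by simp [hA]
  have hAball : ∀ r, 0 ≤ r → A r = ∫ x in ball (0 : V) r, ρ x := by
    intro r hr
    rw [show ∫ x in ball (0 : V) r, ρ x = ∫ x in ball (0 : V) r, F ‖x‖ from
      integral_congr_ae (ae_restrict_of_ae hae), integral_radial_ball F hr]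
  have hAtot : Tendsto A atTop (𝓝 (∫ x, ρ x)) := by
    have h1 : ∫ x, ρ x = ∫ s in Ioi (0 : ℝ), a s := by
      rw [integral_congr_ae hae, integral_radial]
    rw [h1]
    exact intervalIntegral_tendsto_integral_Ioi 0 haI.integrableOn tendsto_id
  refine ⟨ψ, q, ⟨?_, ?_, ?_, ?_, ?_, ?_⟩, ?_, ?_, ?_, ?_⟩
  · intro r hr
    have h1 : HasDerivAt (fun r : ℝ => z / r) (-z / r ^ 2) r := by
      have := (hasDerivAt_const r z).div (hasDerivAt_id r) hr.ne'
      refine this.congr_deriv ?_
      simp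
    have h2 := (h1.sub (hdP r hr)).sub_const φ₀
    refine h2.congr_deriv ?_
    simp only [hq]
    ring
  · intro r hr
    have h1 := (hdA r hr).const_sub z
    refine h1.congr_deriv ?_
    simp only [ha]
    rw [hFψ r hr]
  · have h1 : Tendsto q (𝓝 0) (𝓝 (z - A 0)) := (continuous_const.sub hAc).tendsto 0
    rw [hA0, sub_zero] at h1
    exact h1.mono_left nhdsWithin_le_nhds
  · intro r hr
    have h1 : 0 ≤ P r := pot_nonneg hρ.nonneg _
    simp only [hψ]
    linarith
  · refine ⟨tcB ρ + φ₀, fun r hr => ?_⟩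
    have h1 : P r ≤ tcB ρ := hρ.pot_le _
    simp only [hψ]
    linarith
  · have h1 : Tendsto (fun r : ℝ => A r / r) atTop (𝓝 0) := by
      exact hAtot.div_atTop tendsto_id
    have h2 : Tendsto B atTop (𝓝 T) :=
      intervalIntegral_tendsto_integral_Ioi 0 hbI.integrableOn tendsto_id
    have h3 : Tendsto (fun r : ℝ => z / r) atTop (𝓝 0) := tendsto_const_nhds.div_atTop tendsto_id
    have h4 : Tendsto (fun r => z / r - (A r / r + T - B r) - φ₀) atTop
        (𝓝 (0 - (0 + T - T) - φ₀)) := (h3.sub ((h1.add_const T).sub h2)).sub_const φ₀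
    have h5 : (0 : ℝ) - (0 + T - T) - φ₀ = -φ₀ := by ring
    rw [h5] at h4
    refine h4.congr' ?_
    filter_upwards [eventually_gt_atTop (0 : ℝ)] with r hr
    simp only [hψ]
    rw [hPr r hr]
  · intro x hx
    simp only [hψ]
    rw [hPx x, div_eq_mul_inv]
  · intro x hx
    rw [hFρ x hx, hFψ _ (norm_pos_iff.mpr hx)]
  · intro r hr
    simp only [hq]
    rw [hAball r hr]
  · exact tendsto_const_nhds.sub hAtot

end dim3

end Pool.Agent.TF
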