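import Mathlib

/-! Convolution of singular kernels with bounded, boundedly supported functions on a
three dimensional Euclidean space. -/

set_option linter.unusedSectionVars false
set_option linter.unusedVariables false
set_option linter.style.haveILetI false

namespace Pool.Agent.TF
open MeasureTheory Set Metric Filter Topology
open scoped ENNReal NNReal RealInnerProductSpace

variable {V : Type*} [NormedAddCommGroup V] [InnerProductSpace ℝ V] [FiniteDimensional ℝ V]
  [MeasurableSpace V] [BorelSpace V]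

/-- bounded measurable functions with bounded support -/
structure BC (f : V → ℝ) : Prop where
  meas : Measurable f
  bdd : ∃ M, ∀ x, |f x| ≤ M
  supp : ∃ R, ∀ x, R ≤ ‖x‖ → f x = 0

theorem BC.bounds {f : V → ℝ} (hf : BC f) : ∃ M R, 0 ≤ M ∧ 0 < R ∧ (∀ x, |f x| ≤ M) ∧
    (∀ x, R ≤ ‖x‖ → f x = 0) := by
  obtain ⟨M, hM⟩ := hf.bdd
  obtain ⟨R, hR⟩ := hf.supp
  refine ⟨M, max R 1, (abs_nonneg _).trans (hM 0), by positivity, hM, fun x hx => hR x ?_⟩
  exact (le_max_left _ _).trans hx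

theorem BC.add {f g : V → ℝ} (hf : BC f) (hg : BC g) : BC (fun x => f x + g x) := by
  obtain ⟨M, R, -, -, hM, hR⟩ := hf.bounds
  obtain ⟨M', R', -, -, hM', hR'⟩ := hg.bounds
  refine ⟨hf.meas.add hg.meas, ⟨M + M', fun x => (abs_add_le _ _).trans (add_le_add (hM x) (hM' x))⟩,
    ⟨max R R', fun x hx => ?_⟩⟩
  rw [hR x ((le_max_left _ _).trans hx), hR' x ((le_max_right _ _).trans hx), add_zero]

theorem BC.const_mul {f : V → ℝ} (hf : BC f) (c : ℝ) : BC (fun x => c * f x) := by
  obtain ⟨M, R, hM0, -, hM, hR⟩ := hf.bounds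
  refine ⟨hf.meas.const_mul c, ⟨|c| * M, fun x => ?_⟩, ⟨R, fun x hx => by rw [hR x hx, mul_zero]⟩⟩
  rw [abs_mul]
  exact mul_le_mul_of_nonneg_left (hM x) (abs_nonneg _)

theorem BC.neg {f : V → ℝ} (hf : BC f) : BC (fun x => -f x) := by
  simpa using hf.const_mul (-1)

theorem BC.sub {f g : V → ℝ} (hf : BC f) (hg : BC g) : BC (fun x => f x - g x) := by
  simpa [sub_eq_add_neg] using hf.add hg.neg

theorem BC.zero : BC (fun _ : V => (0 : ℝ)) :=
  ⟨measurable_const, ⟨0, fun _ => by simp⟩, ⟨0, fun _ _ => rfl⟩⟩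

theorem BC.sum {ι : Type*} (s : Finset ι) {f : ι → V → ℝ} (hf : ∀ i ∈ s, BC (f i)) :
    BC (fun x => ∑ i ∈ s, f i x) := by
  classical
  induction s using Finset.induction_on with
  | empty => simpa using BC.zero
  | insert a s ha ih =>
    have h1 := (hf a (Finset.mem_insert_self a s)).add
      (ih fun i hi => hf i (Finset.mem_insert_of_mem hi))
    refine ⟨?_, ?_, ?_⟩
    · simpa [Finset.sum_insert ha] using h1.meas
    · simpa [Finset.sum_insert ha] using h1.bdd
    · simpa [Finset.sum_insert ha] using h1.supp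

theorem BC.indicator {f : V → ℝ} (hf : BC f) {s : Set V} (hs : MeasurableSet s) :
    BC (s.indicator f) := by
  obtain ⟨M, R, hM0, -, hM, hR⟩ := hf.bounds
  refine ⟨hf.meas.indicator hs, ⟨M, fun x => ?_⟩, ⟨R, fun x hx => ?_⟩⟩
  · by_cases h : x ∈ s
    · simpa [h] using hM x
    · simpa [h] using hM0
  · by_cases h : x ∈ s
    · simpa [h] using hR x hx
    · simp [h]

theorem BC.comp_isom {f : V → ℝ} (hf : BC f) (L : V ≃ₗᵢ[ℝ] V) : BC (fun x => f (L x)) := by
  obtain ⟨M, R, hM0, -, hM, hR⟩ := hf.bounds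
  refine ⟨hf.meas.comp L.continuous.measurable, ⟨M, fun x => hM _⟩, ⟨R, fun x hx => hR _ ?_⟩⟩
  rwa [L.norm_map]

theorem BC.translate {f : V → ℝ} (hf : BC f) (c : V) : BC (fun x => f (x + c)) := by
  obtain ⟨M, R, hM0, -, hM, hR⟩ := hf.bounds
  refine ⟨hf.meas.comp (measurable_id.add_const c), ⟨M, fun x => hM _⟩,
    ⟨R + ‖c‖, fun x hx => hR _ ?_⟩⟩
  have h1 : ‖x‖ ≤ ‖x + c‖ + ‖c‖ := by
    calc ‖x‖ = ‖(x + c) - c‖ := by simp
      _ ≤ _ := norm_sub_le _ _
  linarith

theorem BC.integrable {f : V → ℝ} (hf : BC f) : Integrable f := by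
  obtain ⟨M, R, hM0, -, hM, hR⟩ := hf.bounds
  have h1 : Integrable ((ball (0 : V) R).indicator fun _ => M) := by
    rw [integrable_indicator_iff measurableSet_ball]
    exact integrableOn_const (by finiteness)
  refine h1.mono' hf.meas.aestronglyMeasurable (Eventually.of_forall fun x => ?_)
  by_cases h : x ∈ ball (0 : V) R
  · simpa [h] using hM x
  · have : f x = 0 := hR x (by simpa using h)
    simp [h, this]

theorem BC.mul_bdd {f g : V → ℝ} (hf : BC f) (hg : Measurable g) {B : ℝ} (hB : ∀ x, |g x| ≤ B) :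
    Integrable (fun x => f x * g x) := by
  refine (hf.integrable.norm.mul_const B).mono' (hf.meas.mul hg).aestronglyMeasurable
    (Eventually.of_forall fun x => ?_)
  rw [norm_mul]
  exact mul_le_mul_of_nonneg_left (hB x) (norm_nonneg _)

/-- admissible singular kernels -/
structure Ker (K : V → ℝ) : Prop where
  meas : Measurable K
  cont : ∀ v, v ≠ 0 → ContinuousAt K v
  bd : ∃ C, 0 ≤ C ∧ ∀ v, |K v| ≤ C * (1 + (‖v‖ ^ 2)⁻¹)

section dim3
variable [hd : Fact (Module.finrank ℝ V = 3)]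

include hd in
theorem nontriv : Nontrivial V :=
  Module.nontrivial_of_finrank_pos (R := ℝ) (by rw [hd.out]; norm_num)

include hd in
theorem integrableOn_inv_sq (r : ℝ) : IntegrableOn (fun v : V => (‖v‖ ^ 2)⁻¹) (ball 0 r) := by
  refine integrableOn_ball_of_norm_le_rpow (α := 2) (C := 1) ?_ ?_ ?_ ?_
  · rw [hd.out]; norm_num
  · rw [hd.out]; norm_num
  · refine Eventually.of_forall fun x => ?_
    rw [Real.norm_of_nonneg (by positivity), one_mul, Real.rpow_neg (norm_nonneg _)]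
    norm_num
  · exact (measurable_norm.pow_const 2).inv.aestronglyMeasurable

variable (V) in
/-- the constant `∫_{|v|<1} |v|^{-2}` -/
noncomputable def c2 : ℝ := ∫ v in ball (0 : V) 1, (‖v‖ ^ 2)⁻¹

/-- dominating function -/
noncomputable def dom (R : ℝ) (x y : V) : ℝ :=
  2 * (ball (0 : V) R).indicator (fun _ => (1 : ℝ)) y +
    (ball (0 : V) 1).indicator (fun v => (‖v‖ ^ 2)⁻¹) (x - y)

theorem dom_nonneg (R : ℝ) (x y : V) : 0 ≤ dom R x y := by
  unfold dom
  have h1 : 0 ≤ (ball (0 : V) R).indicator (fun _ => (1 : ℝ)) y :=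
    indicator_nonneg (fun _ _ => zero_le_one) _
  have h2 : 0 ≤ (ball (0 : V) 1).indicator (fun v => (‖v‖ ^ 2)⁻¹) (x - y) :=
    indicator_nonneg (fun _ _ => by positivity) _
  linarith

theorem le_dom {R : ℝ} {x y : V} (hy : y ∈ ball (0 : V) R) :
    1 + (‖x - y‖ ^ 2)⁻¹ ≤ dom R x y := by
  unfold dom
  rw [indicator_of_mem hy]
  by_cases h : x - y ∈ ball (0 : V) 1
  · rw [indicator_of_mem h]; linarith
  · rw [indicator_of_notMem h]
    have h1 : 1 ≤ ‖x - y‖ := by simpa using h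
    have h2 : (‖x - y‖ ^ 2)⁻¹ ≤ 1 := inv_le_one_of_one_le₀ (one_le_pow₀ h1)
    linarith

variable (V) in
/-- the total mass of the dominating function -/
noncomputable def cdom (R : ℝ) : ℝ := 2 * volume.real (ball (0 : V) R) + c2 V

include hd in
theorem integrable_ind_inv_sq : Integrable ((ball (0 : V) 1).indicator fun v => (‖v‖ ^ 2)⁻¹) :=
  (integrable_indicator_iff measurableSet_ball).mpr (integrableOn_inv_sq 1)

theorem integrable_dom (R : ℝ) (x : V) : Integrable (fun y => dom R x y) := by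
  unfold dom
  refine Integrable.add (Integrable.const_mul ?_ 2) ?_
  · rw [integrable_indicator_iff measurableSet_ball]
    exact integrableOn_const (by finiteness)
  · exact (integrable_ind_inv_sq (V := V)).comp_sub_left x

theorem integral_dom (R : ℝ) (x : V) : ∫ y, dom R x y = cdom V R := by
  unfold dom cdom c2
  rw [integral_add, integral_const_mul, integral_indicator measurableSet_ball,
    integral_sub_left_eq_self (fun v : V => (ball (0 : V) 1).indicator (fun v => (‖v‖ ^ 2)⁻¹) v)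
      volume x, integral_indicator measurableSet_ball]
  · simp
  · refine (Integrable.const_mul ?_ 2)
    rw [integrable_indicator_iff measurableSet_ball]
    exact integrableOn_const (by finiteness)
  · exact (integrable_ind_inv_sq (V := V)).comp_sub_left x

theorem ker_le_dom {K : V → ℝ} {C : ℝ} (hC : 0 ≤ C) (hb : ∀ v, |K v| ≤ C * (1 + (‖v‖ ^ 2)⁻¹))
    {f : V → ℝ} {M R : ℝ} (hM : ∀ x, |f x| ≤ M) (hR : ∀ x, R ≤ ‖x‖ → f x = 0) (x y : V) :
    |K (x - y) * f y| ≤ C * M * dom R x y := by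
  have hM0 : 0 ≤ M := (abs_nonneg _).trans (hM 0)
  by_cases hy : y ∈ ball (0 : V) R
  · rw [abs_mul]
    calc |K (x - y)| * |f y| ≤ (C * (1 + (‖x - y‖ ^ 2)⁻¹)) * M :=
          mul_le_mul (hb _) (hM _) (abs_nonneg _) (by positivity)
      _ ≤ (C * dom R x y) * M := by
          gcongr
          exact le_dom hy
      _ = _ := by ring
  · have : f y = 0 := hR y (by simpa using hy)
    rw [this, mul_zero, abs_zero]
    have := dom_nonneg R x y
    positivity

theorem Ker.integrable {K : V → ℝ} (hK : Ker K) {f : V → ℝ} (hf : BC f) (x : V) :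
    Integrable (fun y => K (x - y) * f y) := by
  obtain ⟨M, R, hM0, hR0, hM, hR⟩ := hf.bounds
  obtain ⟨C, hC, hb⟩ := hK.bd
  refine ((integrable_dom R x).const_mul (C * M)).mono' ?_ (Eventually.of_forall fun y => ?_)
  · exact ((hK.meas.comp (measurable_const.sub measurable_id)).mul hf.meas).aestronglyMeasurable
  · exact ker_le_dom hC hb hM hR x y

theorem ker_int_abs_le {K : V → ℝ} (hKm : Measurable K) {C : ℝ} (hC : 0 ≤ C)
    (hb : ∀ v, |K v| ≤ C * (1 + (‖v‖ ^ 2)⁻¹))
    {f : V → ℝ} {M R : ℝ} (hfm : Measurable f) (hM : ∀ x, |f x| ≤ M)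
    (hR : ∀ x, R ≤ ‖x‖ → f x = 0) (x : V) :
    ∫ y, |K (x - y) * f y| ≤ C * M * cdom V R := by
  rw [← integral_dom R x, ← integral_const_mul]
  refine integral_mono_of_nonneg (Eventually.of_forall fun y => abs_nonneg _)
    ((integrable_dom R x).const_mul (C * M)) (Eventually.of_forall fun y => ?_)
  exact ker_le_dom hC hb hM hR x y

theorem Ker.bound {K : V → ℝ} (hK : Ker K) {f : V → ℝ} (hf : BC f) :
    ∃ B, ∀ x, |∫ y, K (x - y) * f y| ≤ B := by
  obtain ⟨M, R, hM0, hR0, hM, hR⟩ := hf.bounds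
  obtain ⟨C, hC, hb⟩ := hK.bd
  refine ⟨C * M * cdom V R, fun x => ?_⟩
  refine (abs_integral_le_integral_abs).trans ?_
  exact ker_int_abs_le hK.meas hC hb hf.meas hM hR x

theorem Ker.integrable_prod {K : V → ℝ} (hK : Ker K) {f g : V → ℝ} (hf : BC f) (hg : BC g) :
    Integrable (fun p : V × V => f p.1 * (K (p.1 - p.2) * g p.2)) (volume.prod volume) := by
  obtain ⟨M, R, hM0, hR0, hM, hR⟩ := hg.bounds
  obtain ⟨C, hC, hb⟩ := hK.bd
  have hm : AEStronglyMeasurable (fun p : V × V => f p.1 * (K (p.1 - p.2) * g p.2))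
      (volume.prod volume) := by
    refine ((hf.meas.comp measurable_fst).mul ((hK.meas.comp
      (measurable_fst.sub measurable_snd)).mul (hg.meas.comp measurable_snd))).aestronglyMeasurable
  rw [integrable_prod_iff hm]
  refine ⟨Eventually.of_forall fun x => (hK.integrable hg x).const_mul (f x), ?_⟩
  have h2 : Integrable (fun x => |f x| * (C * M * cdom V R)) := hf.integrable.abs.mul_const _
  refine h2.mono' hm.norm.integral_prod_right' (Eventually.of_forall fun x => ?_)
  rw [Real.norm_of_nonneg (integral_nonneg fun y => norm_nonneg _)]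
  calc ∫ y, ‖f x * (K (x - y) * g y)‖ = |f x| * ∫ y, |K (x - y) * g y| := by
        rw [← integral_const_mul]
        refine integral_congr_ae (Eventually.of_forall fun y => ?_)
        simp only [Real.norm_eq_abs, abs_mul]
    _ ≤ _ := mul_le_mul_of_nonneg_left (ker_int_abs_le hK.meas hC hb hg.meas hM hR x)
        (abs_nonneg _)

/-- continuity of `x ↦ ∫ K (x - y) f y` -/
theorem Ker.continuous_conv {K : V → ℝ} (hK : Ker K) {f : V → ℝ} (hf : BC f) :
    Continuous (fun x => ∫ y, K (x - y) * f y) := by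
  obtain ⟨M, R, hM0, hR0, hM, hR⟩ := hf.bounds
  obtain ⟨C, hC, hb⟩ := hK.bd
  -- cut-off kernels
  set Kn : ℕ → V → ℝ := fun n v => K v * (min 1 (((n : ℝ) + 1) * ‖v‖)) ^ 3 with hKn
  have hcut0 : ∀ (n : ℕ) (v : V), 0 ≤ (min 1 (((n : ℝ) + 1) * ‖v‖)) ^ 3 := fun n v => by
    have : 0 ≤ min 1 (((n : ℝ) + 1) * ‖v‖) := le_min zero_le_one (by positivity)
    positivity
  have hcut1 : ∀ (n : ℕ) (v : V), (min 1 (((n : ℝ) + 1) * ‖v‖)) ^ 3 ≤ 1 := fun n v => by
    have : 0 ≤ min 1 (((n : ℝ) + 1) * ‖v‖) := le_min zero_le_one (by positivity)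
    exact pow_le_one₀ this (min_le_left _ _)
  have hKnb : ∀ (n : ℕ) (v : V), |Kn n v| ≤ |K v| := fun n v => by
    rw [hKn]
    simp only
    rw [abs_mul, abs_of_nonneg (hcut0 n v)]
    exact mul_le_of_le_one_right (abs_nonneg _) (hcut1 n v)
  -- bounded
  have hKnB : ∀ (n : ℕ) (v : V), |Kn n v| ≤ C * (((n : ℝ) + 1) ^ 2 * (1 + 1) ) := fun n v => by
    rw [hKn]
    simp only
    rw [abs_mul, abs_of_nonneg (hcut0 n v)]
    have hm0 : 0 ≤ min 1 (((n : ℝ) + 1) * ‖v‖) := le_min zero_le_one (by positivity)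
    have h1 : (min 1 (((n : ℝ) + 1) * ‖v‖)) ^ 3 ≤ (min 1 (((n : ℝ) + 1) * ‖v‖)) ^ 2 :=
      pow_le_pow_of_le_one hm0 (min_le_left _ _) (by norm_num)
    have h2 : (min 1 (((n : ℝ) + 1) * ‖v‖)) ^ 2 ≤ 1 := pow_le_one₀ hm0 (min_le_left _ _)
    have h3 : (min 1 (((n : ℝ) + 1) * ‖v‖)) ^ 2 ≤ ((n : ℝ) + 1) ^ 2 * ‖v‖ ^ 2 := by
      rw [← mul_pow]
      exact pow_le_pow_left₀ hm0 (min_le_right _ _) 2
    have h4 : (‖v‖ ^ 2)⁻¹ * (min 1 (((n : ℝ) + 1) * ‖v‖)) ^ 2 ≤ ((n : ℝ) + 1) ^ 2 := by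
      by_cases hv : ‖v‖ = 0
      · simp [hv]; positivity
      · have hv2 : 0 < ‖v‖ ^ 2 := by positivity
        rw [inv_mul_le_iff₀ hv2]
        linarith [h3, mul_comm (((n : ℝ) + 1) ^ 2) (‖v‖ ^ 2)]
    have h5 : (1 : ℝ) ≤ ((n : ℝ) + 1) ^ 2 := by
      have : (1 : ℝ) ≤ (n : ℝ) + 1 := by linarith [Nat.cast_nonneg (α := ℝ) n]
      exact one_le_pow₀ this
    calc |K v| * (min 1 (((n : ℝ) + 1) * ‖v‖)) ^ 3
        ≤ (C * (1 + (‖v‖ ^ 2)⁻¹)) * (min 1 (((n : ℝ) + 1) * ‖v‖)) ^ 2 :=
          mul_le_mul (hb v) h1 (hcut0 n v) (by positivity)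
      _ = C * ((min 1 (((n : ℝ) + 1) * ‖v‖)) ^ 2 +
            (‖v‖ ^ 2)⁻¹ * (min 1 (((n : ℝ) + 1) * ‖v‖)) ^ 2) := by ring
      _ ≤ C * (((n : ℝ) + 1) ^ 2 * (1 + 1)) := by
          gcongr
          linarith
  have hKnc : ∀ n, Continuous (Kn n) := by
    intro n
    rw [continuous_iff_continuousAt]
    intro v
    by_cases hv : v = 0
    · subst hv
      have h0 : Kn n 0 = 0 := by simp [hKn]
      rw [ContinuousAt, h0]
      have hlim : Tendsto (fun v : V => C * (((n : ℝ) + 1) ^ 2 * (‖v‖ ^ 1 * (((n : ℝ) + 1))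
          + (((n : ℝ) + 1)) * ‖v‖))) (𝓝 0) (𝓝 0) := by
        have hc : Continuous (fun v : V => C * (((n : ℝ) + 1) ^ 2 * (‖v‖ ^ 1 * (((n : ℝ) + 1))
          + (((n : ℝ) + 1)) * ‖v‖))) := by fun_prop
        have := hc.tendsto 0
        simpa using this
      refine squeeze_zero_norm (fun v => ?_) hlim
      rw [hKn]
      simp only
      rw [norm_mul, Real.norm_eq_abs, Real.norm_of_nonneg (hcut0 n v)]
      have hm0 : 0 ≤ min 1 (((n : ℝ) + 1) * ‖v‖) := le_min zero_le_one (by positivity)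
      set m := min 1 (((n : ℝ) + 1) * ‖v‖) with hm
      have hm1 : m ≤ 1 := min_le_left _ _
      have hm2 : m ≤ ((n : ℝ) + 1) * ‖v‖ := min_le_right _ _
      have h4 : (‖v‖ ^ 2)⁻¹ * m ^ 2 ≤ ((n : ℝ) + 1) ^ 2 := by
        by_cases hv : ‖v‖ = 0
        · simp [hv]; positivity
        · have hv2 : 0 < ‖v‖ ^ 2 := by positivity
          rw [inv_mul_le_iff₀ hv2]
          calc m ^ 2 ≤ (((n : ℝ) + 1) * ‖v‖) ^ 2 := pow_le_pow_left₀ hm0 hm2 2
            _ = _ := by ring
      have h5 : (1 : ℝ) ≤ ((n : ℝ) + 1) ^ 2 := by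
        have : (1 : ℝ) ≤ (n : ℝ) + 1 := by linarith [Nat.cast_nonneg (α := ℝ) n]
        exact one_le_pow₀ this
      have h6 : m ^ 2 ≤ 1 := pow_le_one₀ hm0 hm1
      calc |K v| * m ^ 3 ≤ (C * (1 + (‖v‖ ^ 2)⁻¹)) * m ^ 3 :=
            mul_le_mul_of_nonneg_right (hb v) (by positivity)
        _ = C * ((m ^ 2 + (‖v‖ ^ 2)⁻¹ * m ^ 2) * m) := by ring
        _ ≤ C * ((((n : ℝ) + 1) ^ 2 + ((n : ℝ) + 1) ^ 2) * (((n : ℝ) + 1) * ‖v‖)) := by
            gcongr
            linarith
        _ = _ := by ring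
    · rw [hKn]
      refine (hK.cont v hv).mul ?_
      exact Continuous.continuousAt (by fun_prop)
  -- uniform convergence
  have hsmall : Tendsto (fun n : ℕ => ∫ v in ball (0 : V) (1 / ((n : ℝ) + 1)),
      (1 + (‖v‖ ^ 2)⁻¹)) atTop (𝓝 0) := by
    have hanti : Antitone (fun n : ℕ => ball (0 : V) (1 / ((n : ℝ) + 1))) := by
      intro a b hab
      refine ball_subset_ball ?_
      exact one_div_le_one_div_of_le (by positivity) (by exact_mod_cast Nat.succ_le_succ hab)
    have h1 := tendsto_setIntegral_of_antitone (μ := (volume : Measure V))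
      (f := fun v : V => 1 + (‖v‖ ^ 2)⁻¹) (s := fun n : ℕ => ball (0 : V) (1 / ((n : ℝ) + 1)))
      (fun n => measurableSet_ball) hanti
      ⟨0, (integrableOn_const (by finiteness)).add (integrableOn_inv_sq _)⟩
    have h2 : (⋂ n : ℕ, ball (0 : V) (1 / ((n : ℝ) + 1))) ⊆ {0} := by
      intro v hv
      rw [mem_iInter] at hv
      by_contra hne
      have hpos : 0 < ‖v‖ := norm_pos_iff.mpr hne
      obtain ⟨n, hn⟩ := exists_nat_one_div_lt hpos
      have := hv n
      rw [mem_ball_zero_iff] at this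
      linarith
    have h3 : ∫ v in ⋂ n : ℕ, ball (0 : V) (1 / ((n : ℝ) + 1)), (1 + (‖v‖ ^ 2)⁻¹) = 0 := by
      refine setIntegral_measure_zero _ ?_
      haveI := nontriv (V := V)
      exact measure_mono_null h2 (measure_singleton _)
    rwa [h3] at h1
  have hunif : TendstoUniformly (fun (n : ℕ) (x : V) => ∫ y, Kn n (x - y) * f y)
      (fun x => ∫ y, K (x - y) * f y) atTop := by
    rw [Metric.tendstoUniformly_iff]
    intro ε hε
    have h1 : Tendsto (fun n : ℕ => M * C * ∫ v in ball (0 : V) (1 / ((n : ℝ) + 1)),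
        (1 + (‖v‖ ^ 2)⁻¹)) atTop (𝓝 0) := by
      simpa using hsmall.const_mul (M * C)
    filter_upwards [h1.eventually (gt_mem_nhds hε)] with n hn x
    refine lt_of_le_of_lt ?_ hn
    have hKnI : Integrable (fun y => Kn n (x - y) * f y) := by
      refine (hK.integrable hf x).mono ?_ (Eventually.of_forall fun y => ?_)
      · exact (((hKnc n).measurable.comp (measurable_const.sub measurable_id)).mul
          hf.meas).aestronglyMeasurable
      · have h8 : ‖Kn n (x - y)‖ * ‖f y‖ ≤ ‖K (x - y)‖ * ‖f y‖ :=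
          mul_le_mul_of_nonneg_right (hKnb n (x - y)) (norm_nonneg (f y))
        simpa only [norm_mul (Kn n (x - y)) (f y), norm_mul (K (x - y)) (f y)] using h8
    rw [Real.dist_eq, ← integral_sub (hK.integrable hf x) hKnI]
    refine (abs_integral_le_integral_abs).trans ?_
    have hI : Integrable (fun v : V => (ball (0 : V) (1 / ((n : ℝ) + 1))).indicator
        (fun v => 1 + (‖v‖ ^ 2)⁻¹) v) := by
      rw [integrable_indicator_iff measurableSet_ball]
      exact (integrableOn_const (by finiteness)).add (integrableOn_inv_sq _)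
    have h5 : ∫ v in ball (0 : V) (1 / ((n : ℝ) + 1)), (1 + (‖v‖ ^ 2)⁻¹) =
        ∫ y, (ball (0 : V) (1 / ((n : ℝ) + 1))).indicator
        (fun v => 1 + (‖v‖ ^ 2)⁻¹) (x - y) := by
      rw [integral_sub_left_eq_self (fun v : V => (ball (0 : V) (1 / ((n : ℝ) + 1))).indicator
        (fun v => 1 + (‖v‖ ^ 2)⁻¹) v) volume x, integral_indicator measurableSet_ball]
    rw [h5, ← integral_const_mul]
    refine integral_mono_of_nonneg (Eventually.of_forall fun y => abs_nonneg _)
      ((hI.comp_sub_left x).const_mul _) (Eventually.of_forall fun y => ?_)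
    simp only
    by_cases hy : x - y ∈ ball (0 : V) (1 / ((n : ℝ) + 1))
    · rw [indicator_of_mem hy]
      have e1 : K (x - y) * f y - Kn n (x - y) * f y =
          (K (x - y) * (1 - (min 1 (((n : ℝ) + 1) * ‖x - y‖)) ^ 3)) * f y := by
        rw [hKn]; ring
      rw [e1, abs_mul, abs_mul]
      have e2 : |1 - (min 1 (((n : ℝ) + 1) * ‖x - y‖)) ^ 3| ≤ 1 := by
        rw [abs_le]
        constructor <;> linarith [hcut0 n (x - y), hcut1 n (x - y)]
      calc |K (x - y)| * |1 - (min 1 (((n : ℝ) + 1) * ‖x - y‖)) ^ 3| * |f y|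
          ≤ (C * (1 + (‖x - y‖ ^ 2)⁻¹)) * 1 * M := by
            refine mul_le_mul (mul_le_mul (hb _) e2 (abs_nonneg _) (by positivity)) (hM _)
              (abs_nonneg _) (by positivity)
        _ = _ := by ring
    · rw [indicator_of_notMem hy, mul_zero]
      have h7 : 1 / ((n : ℝ) + 1) ≤ ‖x - y‖ := by simpa using hy
      have h8 : 1 ≤ ((n : ℝ) + 1) * ‖x - y‖ := by
        rw [div_le_iff₀ (by positivity)] at h7
        linarith [mul_comm ((n : ℝ) + 1) ‖x - y‖]
      have h9 : Kn n (x - y) = K (x - y) := by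
        rw [hKn]
        simp [min_eq_left h8]
      rw [h9, sub_self, abs_zero]
  refine hunif.continuous (Eventually.of_forall fun n => ?_).frequently
  have hbd : ∀ x, ∀ᵐ y : V, ‖Kn n (x - y) * f y‖ ≤ C * (((n : ℝ) + 1) ^ 2 * (1 + 1)) * |f y| :=
    fun x => Eventually.of_forall fun y => by
      rw [norm_mul]
      exact mul_le_mul_of_nonneg_right (hKnB n _) (abs_nonneg _)
  refine continuous_of_dominated (fun x => ?_) hbd (hf.integrable.abs.const_mul _)
    (Eventually.of_forall fun y => ?_)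
  · exact (((hKnc n).measurable.comp (measurable_const.sub measurable_id)).mul
          hf.meas).aestronglyMeasurable
  · exact ((hKnc n).comp (continuous_id.sub continuous_const)).mul continuous_const

end dim3

end Pool.Agent.TF
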