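import Pool.Agent.Lib.MP_9cf0c9_mp.LinSol
import Pool.Agent.Lib.MP_9cf0c9_mp.CalibAlg

/-! The weight `gam ψ` of a Thomas-Fermi solution is admissible, also against nuclear potentials;
the potential `om` of the grounded weight (`om = 1 - pot (g om)`): bounds, positivity, gradient. -/

set_option autoImplicit false
set_option linter.unusedSectionVars false
set_option linter.unusedVariables false
set_option linter.style.haveILetI false

namespace Pool.Agent.TF
open MeasureTheory Set Metric Filter Topology BoundedContinuousFunction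
open scoped ENNReal NNReal RealInnerProductSpace Gradient

variable {ι : Type*} [Fintype ι]

/-! ### the weight of a solution -/

/-- the weight of a solution -/
noncomputable def gw (φ₀ : ℝ) (z : ι → ℝ) (R : ι → X) (ρ : X → ℝ) (x : X) : ℝ :=
  gam (Vpt z R x - pot ρ x - φ₀)

theorem gw_nonneg (φ₀ : ℝ) (z : ι → ℝ) (R : ι → X) (ρ : X → ℝ) (x : X) : 0 ≤ gw φ₀ z R ρ x :=
  gam_nonneg _

theorem gw_meas (φ₀ : ℝ) (z : ι → ℝ) (R : ι → X) {ρ : X → ℝ} (hρ : TC ρ) :
    Measurable (gw φ₀ z R ρ) :=
  gam_continuous.measurable.comp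
    (((Vpt_meas z R).sub hρ.pot_continuous.measurable).sub measurable_const)

theorem sqrt_mul_le {a b : ℝ} (ha : 0 ≤ a) (hb : 0 ≤ b) : √a * b ≤ tf a + tf b := by
  unfold tf
  rw [max_eq_left ha, max_eq_left hb]
  rcases le_total a b with h | h
  · have h1 := mul_le_mul_of_nonneg_right (Real.sqrt_le_sqrt h) hb
    have h2 : 0 ≤ a * √a := by positivity
    linarith
  · have h1 := mul_le_mul_of_nonneg_left h (Real.sqrt_nonneg a)
    have h2 : 0 ≤ b * √b := by positivity
    linarith

theorem tf_le_tf_sub_one (v : ℝ) : tf v ≤ 3 * tf (v - 1) + 3 := by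
  rcases le_total v 2 with h | h
  · have h1 : tf v ≤ tf 2 := tf_mono h
    have h2 : tf 2 ≤ 3 := by
      unfold tf
      rw [max_eq_left (by norm_num)]
      have h3 : √(2 : ℝ) ≤ 3 / 2 := by
        rw [Real.sqrt_le_left (by norm_num)]
        norm_num
      linarith
    have h4 := tf_nonneg (v - 1)
    linarith
  · have h1 : tf v ≤ tf (2 * (v - 1)) := tf_mono (by linarith)
    have h2 : tf (2 * (v - 1)) ≤ 3 * tf (v - 1) := by
      unfold tf
      rw [max_eq_left (by linarith), max_eq_left (by linarith), Real.sqrt_mul (by norm_num)]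
      have h3 : √(2 : ℝ) ≤ 3 / 2 := by
        rw [Real.sqrt_le_left (by norm_num)]
        norm_num
      have h4 : 0 ≤ (v - 1) * √(v - 1) := mul_nonneg (by linarith) (Real.sqrt_nonneg _)
      have h5 := mul_le_mul_of_nonneg_right h3 h4
      have e : 2 * (v - 1) * (√2 * √(v - 1)) = 2 * (√2 * ((v - 1) * √(v - 1))) := by ring
      rw [e]
      linarith
    linarith

/-- the indicator of a ball -/
noncomputable def bl (r : ℝ) : X → ℝ := (ball (0 : X) r).indicator fun _ => (1 : ℝ)

theorem bl_TC (r : ℝ) : TC (bl r) := by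
  have h0 : ∀ x, 0 ≤ bl r x := fun x => indicator_nonneg (fun _ _ => zero_le_one) _
  refine BC.toTC ⟨measurable_const.indicator measurableSet_ball, ⟨1, fun x => ?_⟩,
    ⟨r, fun x hx => ?_⟩⟩ h0
  · rw [abs_of_nonneg (h0 x)]
    unfold bl
    by_cases hx : x ∈ ball (0 : X) r
    · rw [indicator_of_mem hx]
    · rw [indicator_of_notMem hx]
      exact zero_le_one
  · unfold bl
    rw [indicator_of_notMem]
    simpa using hx

section weight
variable {z : ι → ℝ} {R : ι → X} {φ₀ : ℝ} {ρ : X → ℝ}

theorem gw_mul_le (hz : ∀ i, 0 ≤ z i) (R : ι → X) (hφ : 0 < φ₀) (hρ : TC ρ) :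
    ∃ r, ∀ x b, 0 ≤ b → gw φ₀ z R ρ x * b ≤ 3 / 2 * (gdom φ₀ z R x + tf b * bl r x) := by
  obtain ⟨r, hr0, hr⟩ := Vpt_far hz R hφ
  refine ⟨r, fun x b hb => ?_⟩
  have hp0 : 0 ≤ pot ρ x := pot_nonneg hρ.nonneg x
  unfold gw
  by_cases hx : x ∈ ball (0 : X) r
  · have h1 : bl r x = 1 := indicator_of_mem hx _
    have h2 := sqrt_mul_le (le_max_right (Vpt z R x - pot ρ x - φ₀) 0) hb
    have h3 : tf (max (Vpt z R x - pot ρ x - φ₀) 0) ≤ gdom φ₀ z R x := by
      have h4 : tf (max (Vpt z R x - pot ρ x - φ₀) 0) = tf (Vpt z R x - pot ρ x - φ₀) := by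
        unfold tf
        rw [max_eq_left (le_max_right _ _)]
      rw [h4]
      exact tf_mono (by linarith)
    unfold gam
    rw [h1, mul_one, mul_assoc]
    linarith
  · have h1 : bl r x = 0 := indicator_of_notMem hx _
    have h2 := hr x (by simpa using hx)
    rw [gam_of_nonpos (by linarith), zero_mul, h1, mul_zero, add_zero]
    have := tf_nonneg (Vpt z R x - φ₀)
    unfold gdom
    positivity

theorem gw_TC (hz : ∀ i, 0 ≤ z i) (R : ι → X) (hφ : 0 < φ₀) (hρ : TC ρ) :
    TC (gw φ₀ z R ρ) := by
  obtain ⟨r, hr⟩ := gw_mul_le hz R hφ hρ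
  refine (((gdom_TC hz R hφ).add' (bl_TC r)).cmul (c := 3 / 2) (by norm_num)).below
    (gw_meas φ₀ z R hρ) (gw_nonneg φ₀ z R ρ) fun x => ?_
  have h1 := hr x 1 zero_le_one
  have h2 : tf 1 = 1 := by
    unfold tf
    rw [max_eq_left zero_le_one, Real.sqrt_one, mul_one]
  rw [mul_one, h2, one_mul] at h1
  exact h1

/-- the weight may be multiplied by nuclear potentials -/
theorem gw_Vn_WC (hz : ∀ i, 0 ≤ z i) (R : ι → X) (hφ : 0 < φ₀) (hρ : TC ρ) {κ : Type*}
    [Fintype κ] {z' : κ → ℝ} (hz' : ∀ i, 0 ≤ z' i) (R' : κ → X) :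
    WC (gw φ₀ z R ρ) (Vn z' R') := by
  obtain ⟨r, hr⟩ := gw_mul_le hz R hφ hρ
  refine WC.of_nonneg (Vn_measurable z' R') (Vn_nonneg hz' R') ?_
  refine ((((gdom_TC hz R hφ).add' (((gdom_TC hz' R' one_pos).add'
    (bl_TC r)).cmul (c := 3) (by norm_num)))).cmul (c := 3 / 2) (by norm_num)).below
    ((gw_meas φ₀ z R hρ).mul (Vn_measurable z' R'))
    (fun x => mul_nonneg (gw_nonneg φ₀ z R ρ x) (Vn_nonneg hz' R' x)) fun x => ?_
  have h1 := hr x _ (Vn_nonneg hz' R' x)
  have h2 := tf_le_tf_sub_one (Vn z' R' x)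
  have h3 : tf (Vn z' R' x - 1) = gdom 1 z' R' x := rfl
  have h4 : 0 ≤ gdom 1 z' R' x := tf_nonneg _
  rw [h3] at h2
  refine h1.trans ?_
  have h5 : tf (Vn z' R' x) * bl r x ≤ 3 * (gdom 1 z' R' x + bl r x) := by
    unfold bl
    by_cases hx : x ∈ ball (0 : X) r
    · rw [indicator_of_mem hx, mul_one]
      linarith
    · rw [indicator_of_notMem hx, mul_zero]
      positivity
  linarith

theorem gw_continuousAt (hρ : TC ρ) {x : X} (hx : ∀ i, x ≠ R i) :
    ContinuousAt (gw φ₀ z R ρ) x := by
  have h1 : ContinuousAt (fun x => Vpt z R x - pot ρ x - φ₀) x :=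
    ((Vpt_continuousAt z R hx).sub hρ.pot_continuous.continuousAt).sub continuousAt_const
  exact gam_continuous.continuousAt.comp h1

theorem gw_locbdd (hρ : TC ρ) {x : X} (hx : ∀ i, x ≠ R i) :
    ∃ δ > 0, ∃ M, ∀ y ∈ ball x δ, |gw φ₀ z R ρ y| ≤ M := by
  have h1 := gw_continuousAt (φ₀ := φ₀) (z := z) hρ hx
  have h2 : ∀ᶠ y in 𝓝 x, |gw φ₀ z R ρ y| < |gw φ₀ z R ρ x| + 1 :=
    h1.abs.eventually_lt_const (by linarith)
  obtain ⟨δ, hδ, hb⟩ := Metric.eventually_nhds_iff_ball.mp h2
  exact ⟨δ, hδ, _, fun y hy => (hb y hy).le⟩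

end weight

/-! ### gradients -/

section grad
variable {g u : X → ℝ}

/-- the potential of `g u` is continuously differentiable where `g u` is locally bounded -/
theorem WC.grad (h : WC g u) (hg : Measurable g) {x₀ : X} {δ M : ℝ} (hδ : 0 < δ)
    (hb : ∀ y ∈ ball x₀ δ, |g y * u y| ≤ M) :
    HasGradientAt (pw g u) (gradV (fun y => g y * u y) x₀) x₀ ∧
      ContinuousAt (gradV (fun y => g y * u y)) x₀ :=
  (loc_grad (hg.mul h.meas) h.int hδ hb).2

theorem WC.weak (h : WC g u) (hg : Measurable g) {η : X → ℝ} {C : ℝ≥0}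
    (hη : LipschitzWith C η) (hc : HasCompactSupport η) :
    Integrable (fun x => ⟪gradV (fun y => g y * u y) x, ∇ η x⟫) ∧
      ∫ x, ⟪gradV (fun y => g y * u y) x, ∇ η x⟫ =
        4 * Real.pi * ∫ x, (g x * u x) * η x :=
  weak_poisson h.int (hg.mul h.meas) hη hc

end grad

/-! ### the grounded potential `om` -/

section om
variable {g : X → ℝ}

/-- the solution of `-Δ u + 4π g u = 0` tending to one at infinity -/
noncomputable def om (hg : TC g) : X →ᵇ ℝ :=
  Classical.choose (exists_lin hg (BoundedContinuousFunction.const X 1))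

theorem om_eq (hg : TC g) (x : X) : om hg x = 1 - pw g (om hg) x :=
  Classical.choose_spec (exists_lin hg (BoundedContinuousFunction.const X 1)) x

theorem om_Lin (hg : TC g) : Lin g (fun _ => 1) (om hg) := ⟨bcf_WC hg _, om_eq hg⟩

theorem om_nonneg (hg : TC g) (x : X) : 0 ≤ om hg x := by
  refine (om_Lin hg).nonneg (ι := Fin 0) hg (z := fun _ => 0) (fun _ => le_rfl)
    (fun _ => (0 : X)) (c := 1) zero_le_one (f := fun _ => 0) (BC.zero.toTC fun _ => le_rfl)
    (fun x => ?_) x (fun i hi => absurd hi (lt_irrefl _))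
  unfold Vn pot
  simp

theorem om_mul_TC (hg : TC g) : TC (fun x => g x * om hg x) :=
  hg.mul_bdd (om hg).continuous.measurable (om_nonneg hg)
    (fun x => (le_abs_self _).trans (bcf_abs_le _ x))

theorem om_le_one (hg : TC g) (x : X) : om hg x ≤ 1 := by
  have h1 := om_eq hg x
  have h2 : 0 ≤ pw g (om hg) x := pot_nonneg (om_mul_TC hg).nonneg x
  linarith

theorem one_sub_om_le (hg : TC g) (x : X) : 1 - om hg x ≤ pot g x := by
  have h1 := om_eq hg x
  have h2 : pw g (om hg) x ≤ pot g x := by
    unfold pw pot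
    refine integral_mono ((om_mul_TC hg).pot_integrable x) (hg.pot_integrable x) fun y => ?_
    simp only
    have h3 := mul_le_mul_of_nonneg_left (om_le_one hg y) (hg.nonneg y)
    rw [mul_one] at h3
    exact mul_le_mul_of_nonneg_left h3 (by positivity)
  linarith

/-- a larger weight gives a smaller `om` -/
theorem om_anti {g' : X → ℝ} (hg : TC g) (hg' : TC g') (h : ∀ᵐ x : X, g x ≤ g' x) (x : X) :
    om hg' x ≤ om hg x := by
  refine (om_Lin hg).mono (ι := Fin 0) (om_Lin hg') hg.nonneg (z := fun _ => 0)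
    (fun _ => le_rfl) (fun _ => (0 : X)) (c := 0) le_rfl (f := fun _ => 0)
    (BC.zero.toTC fun _ => le_rfl) (fun x => ?_) h (Eventually.of_forall (om_nonneg hg')) x
    (fun i hi => absurd hi (lt_irrefl _))
  unfold Vn pot
  simp

/-- positivity: `exp (-pot g)` is a subsolution -/
theorem exp_le_om (hg : TC g) (x : X) : Real.exp (-pot g x) ≤ om hg x := by
  have hpc := hg.pot_continuous
  have key := min_princ (w := fun x => om hg x - Real.exp (-pot g x))
    ((om hg).continuous.sub (Real.continuous_exp.comp hpc.neg)) ?_ ?_ x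
  · linarith
  · intro ε hε
    obtain ⟨R', hR'⟩ := hg.pot_decay hε
    refine ⟨R', fun x hx => ?_⟩
    have h1 := hR' x hx
    have h2 := one_sub_om_le hg x
    have h3 : Real.exp (-pot g x) ≤ 1 := by
      rw [Real.exp_le_one_iff]
      have := pot_nonneg hg.nonneg x
      linarith
    linarith
  · intro x hx
    set E := Real.exp (-pot g x) with hE
    have hE0 : 0 < E := Real.exp_pos _
    have h1 : ∀ᶠ y in 𝓝 x, om hg y < E :=
      (om hg).continuous.continuousAt.eventually_lt_const (by simpa [hE] using hx)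
    obtain ⟨δ, hδ, hb⟩ := Metric.eventually_nhds_iff_ball.mp h1
    refine ⟨δ, hδ, fun r hr hrd => ?_⟩
    have hle : ∀ᵐ y : X, y ∈ ball x r → g y * om hg y ≤ E * g y := by
      refine Eventually.of_forall fun y hy => ?_
      have h2 := mul_le_mul_of_nonneg_left (hb y (ball_subset_ball hrd.le hy)).le (hg.nonneg y)
      linarith
    have h2 := (hg.cmul hE0.le).mean_sub_le (om_mul_TC hg) hr hle
    have hi : IntegrableOn (fun y => om hg y) (ball x r) :=
      ((om hg).continuous.continuousOn.integrableOn_compact (isCompact_closedBall x r)).mono_set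
        ball_subset_closedBall
    have hie : IntegrableOn (fun y => Real.exp (-pot g y)) (ball x r) :=
      ((Real.continuous_exp.comp hpc.neg).continuousOn.integrableOn_compact
        (isCompact_closedBall x r)).mono_set ball_subset_closedBall
    have hip : IntegrableOn (pot g) (ball x r) :=
      (hpc.continuousOn.integrableOn_compact (isCompact_closedBall x r)).mono_set
        ball_subset_closedBall
    have hic : ∀ c : ℝ, IntegrableOn (fun _ : X => c) (ball x r) := fun c =>
      integrableOn_const (by finiteness)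
    -- pointwise: exp (-p y) ≥ E (1 + p x - p y)
    have hpt : ∀ y, E * (1 + pot g x - pot g y) ≤ Real.exp (-pot g y) := by
      intro y
      have e : Real.exp (-pot g y) = E * Real.exp (pot g x - pot g y) := by
        rw [hE, ← Real.exp_add]
        congr 1
        ring
      rw [e]
      refine mul_le_mul_of_nonneg_left ?_ hE0.le
      have := Real.add_one_le_exp (pot g x - pot g y)
      linarith
    have h3 : ∫ y in ball x r, (om hg y - Real.exp (-pot g y)) ≤
        ∫ y in ball x r, (1 - E * (1 + pot g x) +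
          (pot (fun y => E * g y) y - pot (fun y => g y * om hg y) y)) := by
      refine integral_mono (hi.sub hie) ?_ fun y => ?_
      · refine (hic _).add ?_
        have hc2 : Continuous fun y => pot (fun y => E * g y) y -
            pot (fun y => g y * om hg y) y :=
          (hg.cmul hE0.le).pot_continuous.sub (om_mul_TC hg).pot_continuous
        exact (hc2.continuousOn.integrableOn_compact
          (isCompact_closedBall x r)).mono_set ball_subset_closedBall
      · simp only
        have h4 := hpt y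
        have h5 := om_eq hg y
        have h6 : pw g (om hg) y = pot (fun y => g y * om hg y) y := rfl
        rw [h6] at h5
        rw [pot_const_mul]
        linarith
    refine h3.trans ?_
    have hc2 : Continuous fun y => pot (fun y => E * g y) y -
        pot (fun y => g y * om hg y) y :=
      (hg.cmul hE0.le).pot_continuous.sub (om_mul_TC hg).pot_continuous
    rw [integral_add (hic _) ((hc2.continuousOn.integrableOn_compact
      (isCompact_closedBall x r)).mono_set ball_subset_closedBall), setIntegral_const,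
      smul_eq_mul, vol_ball x hr.le]
    have h5 := om_eq hg x
    have h6 : pw g (om hg) x = pot (fun y => g y * om hg y) x := rfl
    rw [h6] at h5
    rw [pot_const_mul] at h2
    have h7 : 4 / 3 * Real.pi * r ^ 3 * (om hg x - E) = 4 / 3 * Real.pi * r ^ 3 *
        (1 - E * (1 + pot g x)) + 4 / 3 * Real.pi * r ^ 3 *
        (E * pot g x - pot (fun y => g y * om hg y) x) := by
      rw [h5]
      ring
    rw [h7]
    linarith

theorem om_pos (hg : TC g) (x : X) : 0 < om hg x := (Real.exp_pos _).trans_le (exp_le_om hg x)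

/-- a uniform positive lower bound -/
theorem exp_tcB_le_om (hg : TC g) (x : X) : Real.exp (-tcB g) ≤ om hg x := by
  refine le_trans ?_ (exp_le_om hg x)
  exact Real.exp_le_exp.mpr (neg_le_neg (hg.pot_le x))

end om

end Pool.Agent.TF
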