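import Pool.Agent.Lib.MP_9cf0c9_mp.ConvexCrit

/-! Newton's theorem for radial densities. -/

set_option autoImplicit false
set_option linter.unusedSectionVars false
set_option linter.unusedVariables false
set_option linter.style.haveILetI false

namespace Pool.Agent.TF
open MeasureTheory Set Metric Filter Topology
open scoped ENNReal NNReal RealInnerProductSpace

/-! ### the potential of a uniform ball, inside -/

theorem abs_int {D r : ℝ} (hD : 0 < D) (hDr : D ≤ r) :
    ∫ s in (-r)..r, (|D - s| - (D - s)) = (r - D) ^ 2 := by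
  have hc : Continuous fun s : ℝ => |D - s| - (D - s) := by fun_prop
  rw [← intervalIntegral.integral_add_adjacent_intervals (b := D)
    (hc.intervalIntegrable _ _) (hc.intervalIntegrable _ _)]
  have h1 : ∫ s in (-r)..D, (|D - s| - (D - s)) = 0 := by
    rw [intervalIntegral.integral_congr (g := fun _ => (0 : ℝ))]
    · simp
    · intro s hs
      rw [uIcc_of_le (by linarith)] at hs
      change |D - s| - (D - s) = 0
      rw [abs_of_nonneg (by linarith [hs.2])]
      ring
  have h2 : ∫ s in D..r, (|D - s| - (D - s)) = ∫ s in D..r, 2 * (s - D) := by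
    refine intervalIntegral.integral_congr fun s hs => ?_
    rw [uIcc_of_le hDr] at hs
    rw [abs_of_nonpos (by linarith [hs.1])]
    ring
  rw [h1, h2]
  have h3 : ∀ s ∈ uIcc D r, HasDerivAt (fun s : ℝ => (s - D) ^ 2) (2 * (s - D)) s := by
    intro s _
    have h := (hasDerivAt_pow 2 (s - D)).comp s ((hasDerivAt_id s).sub_const D)
    exact h.congr_deriv (by simp)
  rw [intervalIntegral.integral_eq_sub_of_hasDerivAt h3
    ((by fun_prop : Continuous fun s : ℝ => 2 * (s - D)).intervalIntegrable _ _)]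
  ring

theorem newton_axis_in {D r : ℝ} (hD : 0 < D) (hDr : D ≤ r) :
    pot (chi r) (mk D 0) = 2 * Real.pi * r ^ 2 - 2 / 3 * Real.pi * D ^ 2 := by
  have hr : 0 < r := lt_of_lt_of_le hD hDr
  have hI := pot_integrable (chi_BC r) (mk D 0)
  have h1 : pot (chi r) (mk D 0) = ∫ s : ℝ, ∫ z : E2, ‖mk D 0 - mk s z‖⁻¹ * chi r (mk s z) := by
    unfold pot
    rw [integral_X]
    have h := integrable_X hI
    rw [Measure.volume_eq_prod] at h ⊢
    rw [integral_prod _ h]
  have h2 : ∀ s : ℝ, s ∉ Ioo (-r) r → ∫ z : E2, ‖mk D 0 - mk s z‖⁻¹ * chi r (mk s z) = 0 := by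
    intro s hs
    have : ∀ z : E2, chi r (mk s z) = 0 := by
      intro z
      refine indicator_of_notMem ?_ _
      rw [mem_ball_zero_iff]
      intro h
      have := lt_of_le_of_lt (abs_fst_le (mk s z)) h
      exact hs (abs_lt.mp this)
    simp [this]
  set F : ℝ → ℝ := fun s => 2 * Real.pi * (√((D - s) ^ 2 + (r ^ 2 - s ^ 2)) - |D - s|) with hF
  have h3 : pot (chi r) (mk D 0) = ∫ s in (-r)..r, F s := by
    rw [h1, intervalIntegral.integral_of_le (by linarith), ← integral_indicator measurableSet_Ioc]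
    refine integral_congr_ae ?_
    have hne : ∀ᵐ t : ℝ, t ≠ r := by rw [ae_iff]; simp
    filter_upwards [hne] with s hs
    by_cases h : s ∈ Ioo (-r) r
    · rw [indicator_of_mem (show s ∈ Ioc (-r) r from ⟨h.1, h.2.le⟩),
        slice D r s hr (abs_lt.mpr h)]
    · rw [h2 s h, indicator_of_notMem]
      intro h'
      exact h ⟨h'.1, lt_of_le_of_ne h'.2 hs⟩
  have hval : ∫ s in (-r)..r, 2 * Real.pi * (√(D ^ 2 + r ^ 2 - 2 * s * D) - (D - s)) =
      2 * Real.pi * (((D + r) ^ 3 - |D - r| ^ 3) / (3 * D) - 2 * D * r) := by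
    rw [intervalIntegral.integral_const_mul, outer D r hD hr]
  have habs : ∫ s in (-r)..r, 2 * Real.pi * (|D - s| - (D - s)) = 2 * Real.pi * (r - D) ^ 2 := by
    rw [intervalIntegral.integral_const_mul, abs_int hD hDr]
  have h4 : ∫ s in (-r)..r, F s =
      (∫ s in (-r)..r, 2 * Real.pi * (√(D ^ 2 + r ^ 2 - 2 * s * D) - (D - s))) -
        ∫ s in (-r)..r, 2 * Real.pi * (|D - s| - (D - s)) := by
    rw [← intervalIntegral.integral_sub
      ((by fun_prop : Continuous fun s : ℝ => 2 * Real.pi * (√(D ^ 2 + r ^ 2 - 2 * s * D) -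
        (D - s))).intervalIntegrable _ _)
      ((by fun_prop : Continuous fun s : ℝ => 2 * Real.pi * (|D - s| -
        (D - s))).intervalIntegrable _ _)]
    refine intervalIntegral.integral_congr fun s _ => ?_
    have e1 : (D - s) ^ 2 + (r ^ 2 - s ^ 2) = D ^ 2 + r ^ 2 - 2 * s * D := by ring
    simp only [hF, e1]
    ring
  rw [h3, h4, hval, habs, abs_of_nonpos (by linarith)]
  field_simp
  ring

theorem newton_in {r : ℝ} {v : X} (hv : v ≠ 0) (hvr : ‖v‖ ≤ r) :
    pot (chi r) v = 2 * Real.pi * r ^ 2 - 2 / 3 * Real.pi * ‖v‖ ^ 2 := by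
  have hn : 0 < ‖v‖ := norm_pos_iff.mpr hv
  have h1 : ‖v‖ = ‖mk ‖v‖ 0‖ := by
    have : ‖mk ‖v‖ 0‖ ^ 2 = ‖v‖ ^ 2 := by rw [norm_mk_sq]; simp
    exact ((sq_eq_sq₀ (norm_nonneg _) (norm_nonneg _)).mp this).symm
  obtain ⟨L, hL⟩ := exists_isom (v := v) (w := mk ‖v‖ 0) h1
  have h2 : pot (chi r) v = pot (chi r) (mk ‖v‖ 0) := by
    rw [← hL, ← pot_comp_isom]
    simp only [chi_isom]
  rw [h2]
  exact newton_axis_in hn hvr

section dim3
variable {V : Type*} [NormedAddCommGroup V] [InnerProductSpace ℝ V] [FiniteDimensional ℝ V]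
  [MeasurableSpace V] [BorelSpace V]
variable [hd : Fact (Module.finrank ℝ V = 3)]

/-- the potential of a ball, everywhere off the centre -/
theorem pot_ball {r : ℝ} (hr : 0 < r) {v : V} (hv : v ≠ 0) :
    pot ((ball (0 : V) r).indicator fun _ => (1 : ℝ)) v =
      if r ≤ ‖v‖ then 4 / 3 * Real.pi * r ^ 3 * ‖v‖⁻¹
      else 2 * Real.pi * r ^ 2 - 2 / 3 * Real.pi * ‖v‖ ^ 2 := by
  have hn : 0 < ‖v‖ := norm_pos_iff.mpr hv
  obtain ⟨L, hL⟩ := exists_isom_X (u := ‖v‖⁻¹ • v) (by
    rw [norm_smul, norm_inv, norm_norm, inv_mul_cancel₀ hn.ne'])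
  have h1 : pot ((ball (0 : V) r).indicator fun _ => (1 : ℝ)) v = pot (chi r) (L v) := by
    rw [← pot_push L]
    congr 1
    funext y
    unfold chi
    by_cases h : y ∈ ball (0 : X) r
    · have h' : L.symm y ∈ ball (0 : V) r := by
        rw [mem_ball_zero_iff] at h ⊢; rwa [L.symm.norm_map]
      rw [indicator_of_mem h, indicator_of_mem h']
    · have h' : L.symm y ∉ ball (0 : V) r := by
        rw [mem_ball_zero_iff] at h ⊢; rwa [L.symm.norm_map]
      rw [indicator_of_notMem h, indicator_of_notMem h']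
  have hLv : L v ≠ 0 := by
    intro h
    rw [← norm_eq_zero, L.norm_map, norm_eq_zero] at h
    exact hv h
  rw [h1]
  split_ifs with h
  · rw [(newton hr hLv).2 (by rw [L.norm_map]; exact h), L.norm_map]
  · rw [newton_in hLv (by rw [L.norm_map]; exact (not_le.mp h).le), L.norm_map]

/-! ### Newton's theorem for radial densities -/

theorem integral_max {d r : ℝ} (hd0 : 0 < d) (hr : 0 ≤ r) :
    ∫ s in (0 : ℝ)..r, 4 * Real.pi * s ^ 2 / max s d =
      if r ≤ d then 4 / 3 * Real.pi * r ^ 3 * d⁻¹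
      else 2 * Real.pi * r ^ 2 - 2 / 3 * Real.pi * d ^ 2 := by
  have hc : Continuous fun s : ℝ => 4 * Real.pi * s ^ 2 / max s d :=
    Continuous.div (by fun_prop) (by fun_prop) fun s => (lt_of_lt_of_le hd0 (le_max_right _ _)).ne'
  have key : ∀ t : ℝ, 0 ≤ t → t ≤ d → ∫ s in (0 : ℝ)..t, 4 * Real.pi * s ^ 2 / max s d =
      4 / 3 * Real.pi * t ^ 3 * d⁻¹ := by
    intro t ht htd
    have h1 : ∫ s in (0 : ℝ)..t, 4 * Real.pi * s ^ 2 / max s d =
        ∫ s in (0 : ℝ)..t, 4 * Real.pi / d * s ^ 2 := by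
      refine intervalIntegral.integral_congr fun s hs => ?_
      rw [uIcc_of_le ht] at hs
      rw [max_eq_right (hs.2.trans htd)]
      ring
    rw [h1, intervalIntegral.integral_const_mul, integral_pow]
    push_cast
    field_simp
    ring
  split_ifs with h
  · exact key r hr h
  · have hdr : d ≤ r := (not_le.mp h).le
    rw [← intervalIntegral.integral_add_adjacent_intervals (b := d)
      (hc.intervalIntegrable _ _) (hc.intervalIntegrable _ _), key d hd0.le le_rfl]
    have h2 : ∫ s in d..r, 4 * Real.pi * s ^ 2 / max s d = ∫ s in d..r, 4 * Real.pi * s := by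
      refine intervalIntegral.integral_congr fun s hs => ?_
      rw [uIcc_of_le hdr] at hs
      have hs0 : 0 < s := lt_of_lt_of_le hd0 hs.1
      rw [max_eq_left hs.1]
      field_simp
    rw [h2, intervalIntegral.integral_const_mul, integral_id]
    field_simp
    ring

/-- the radial measure of Newton's theorem -/
noncomputable def nu (d : ℝ) : Measure ℝ :=
  (volume.restrict (Ioi (0 : ℝ))).withDensity fun s => ENNReal.ofReal (4 * Real.pi * s ^ 2 / max s d)

theorem nu_dens_meas (d : ℝ) :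
    Measurable fun s : ℝ => ENNReal.ofReal (4 * Real.pi * s ^ 2 / max s d) := by
  refine Measurable.ennreal_ofReal ?_
  exact (by fun_prop : Measurable fun s : ℝ => 4 * Real.pi * s ^ 2).div (by fun_prop)

theorem nu_Iio {d : ℝ} (hd0 : 0 < d) {r : ℝ} (hr : 0 < r) :
    nu d (Iio r) = ENNReal.ofReal (if r ≤ d then 4 / 3 * Real.pi * r ^ 3 * d⁻¹
      else 2 * Real.pi * r ^ 2 - 2 / 3 * Real.pi * d ^ 2) := by
  have hc : Continuous fun s : ℝ => 4 * Real.pi * s ^ 2 / max s d :=
    Continuous.div (by fun_prop) (by fun_prop) fun s => (lt_of_lt_of_le hd0 (le_max_right _ _)).ne'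
  have h0 : ∀ s : ℝ, 0 ≤ 4 * Real.pi * s ^ 2 / max s d := fun s =>
    div_nonneg (by positivity) (hd0.le.trans (le_max_right _ _))
  unfold nu
  rw [withDensity_apply _ measurableSet_Iio, Measure.restrict_restrict measurableSet_Iio,
    inter_comm, Ioi_inter_Iio, ← ofReal_integral_eq_lintegral_ofReal
      ((hc.integrableOn_Icc (a := 0) (b := r)).mono_set Ioo_subset_Icc_self)
      (Eventually.of_forall h0), ← integral_Ioc_eq_integral_Ioo,
    ← intervalIntegral.integral_of_le hr.le, integral_max hd0 hr.le]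

/-- the image of the potential measure under the norm -/
theorem map_norm_eq {x : V} (hx : x ≠ 0) :
    (volume.withDensity fun y : V => ENNReal.ofReal ‖x - y‖⁻¹).map norm = nu ‖x‖ := by
  have hn : 0 < ‖x‖ := norm_pos_iff.mpr hx
  have hmeas : Measurable fun y : V => ENNReal.ofReal ‖x - y‖⁻¹ := by fun_prop
  have hL : ∀ r : ℝ, 0 < r →
      (volume.withDensity fun y : V => ENNReal.ofReal ‖x - y‖⁻¹).map norm (Iio r) =
        ENNReal.ofReal (if r ≤ ‖x‖ then 4 / 3 * Real.pi * r ^ 3 * ‖x‖⁻¹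
          else 2 * Real.pi * r ^ 2 - 2 / 3 * Real.pi * ‖x‖ ^ 2) := by
    intro r hr
    have hpre : norm ⁻¹' Iio r = ball (0 : V) r := by
      ext y; simp
    have hbc : BC ((ball (0 : V) r).indicator fun _ => (1 : ℝ)) := by
      refine ⟨measurable_const.indicator measurableSet_ball, ⟨1, fun y => ?_⟩,
        ⟨r, fun y hy => indicator_of_notMem (by simpa using hy) _⟩⟩
      rw [abs_of_nonneg (indicator_nonneg (fun _ _ => zero_le_one) _)]
      exact indicator_le_self' (fun _ _ => zero_le_one) _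
    have hI := pot_integrable hbc x
    have heq : (fun y : V => ‖x - y‖⁻¹ * (ball (0 : V) r).indicator (fun _ => (1 : ℝ)) y) =
        (ball (0 : V) r).indicator fun y => ‖x - y‖⁻¹ := by
      funext y
      by_cases hy : y ∈ ball (0 : V) r
      · rw [indicator_of_mem hy, indicator_of_mem hy, mul_one]
      · rw [indicator_of_notMem hy, indicator_of_notMem hy, mul_zero]
    rw [heq, integrable_indicator_iff measurableSet_ball] at hI
    rw [Measure.map_apply measurable_norm measurableSet_Iio, hpre,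
      withDensity_apply _ measurableSet_ball, ← ofReal_integral_eq_lintegral_ofReal hI
        (Eventually.of_forall fun y => by positivity)]
    congr 1
    rw [← integral_indicator measurableSet_ball, ← heq]
    exact pot_ball hr hx
  refine Measure.ext_of_generateFrom_of_iUnion (range Iio) (fun n : ℕ => Iio (n : ℝ))
    (BorelSpace.measurable_eq.trans (borel_eq_generateFrom_Iio ℝ)) isPiSystem_Iio ?_
    (fun n => ⟨(n : ℝ), rfl⟩) ?_ ?_
  · rw [eq_univ_iff_forall]
    intro t
    obtain ⟨n, hn'⟩ := exists_nat_gt t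
    exact mem_iUnion.mpr ⟨n, hn'⟩
  · intro n
    have h1 : (volume.withDensity fun y : V => ENNReal.ofReal ‖x - y‖⁻¹).map norm (Iio (n : ℝ)) ≤
        (volume.withDensity fun y : V => ENNReal.ofReal ‖x - y‖⁻¹).map norm
          (Iio ((n : ℝ) + 1)) := measure_mono (Iio_subset_Iio (by linarith))
    refine ne_top_of_le_ne_top ?_ h1
    rw [hL _ (by positivity)]
    exact ENNReal.ofReal_ne_top
  · rintro _ ⟨r, rfl⟩
    rcases lt_or_ge 0 r with hr | hr
    · rw [hL r hr, nu_Iio hn hr]
    · have h1 : norm ⁻¹' Iio r = (∅ : Set V) := by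
        ext y
        simp only [mem_preimage, mem_Iio, mem_empty_iff_false, iff_false, not_lt]
        exact hr.trans (norm_nonneg y)
      rw [Measure.map_apply measurable_norm measurableSet_Iio, h1, measure_empty]
      unfold nu
      rw [withDensity_apply _ measurableSet_Iio, Measure.restrict_restrict measurableSet_Iio]
      have h2 : Iio r ∩ Ioi (0 : ℝ) = ∅ := by
        ext s
        simp only [mem_inter_iff, mem_Iio, mem_Ioi, mem_empty_iff_false, iff_false, not_and,
          not_lt]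
        intro h
        linarith
      rw [h2]
      simp

theorem lintegral_radial {x : V} (hx : x ≠ 0) {Φ : ℝ → ℝ≥0∞} (hΦ : Measurable Φ) :
    ∫⁻ y : V, ENNReal.ofReal ‖x - y‖⁻¹ * Φ ‖y‖ =
      ∫⁻ s in Ioi (0 : ℝ), ENNReal.ofReal (4 * Real.pi * s ^ 2 / max s ‖x‖) * Φ s := by
  have hmeas : Measurable fun y : V => ENNReal.ofReal ‖x - y‖⁻¹ := by fun_prop
  have h1 : ∫⁻ y : V, ENNReal.ofReal ‖x - y‖⁻¹ * Φ ‖y‖ =
      ∫⁻ y, Φ ‖y‖ ∂(volume.withDensity fun y : V => ENNReal.ofReal ‖x - y‖⁻¹) :=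
    (lintegral_withDensity_eq_lintegral_mul _ hmeas (hΦ.comp measurable_norm)).symm
  have h2 : ∫⁻ s in Ioi (0 : ℝ), ENNReal.ofReal (4 * Real.pi * s ^ 2 / max s ‖x‖) * Φ s =
      ∫⁻ s, Φ s ∂(nu ‖x‖) :=
    (lintegral_withDensity_eq_lintegral_mul _ (nu_dens_meas ‖x‖) hΦ).symm
  rw [h1, h2, ← map_norm_eq hx, lintegral_map hΦ measurable_norm]

/-- Newton's theorem: the potential of a radial density -/
theorem pot_radial {F : ℝ → ℝ} (hF : Measurable F) (hF0 : ∀ s, 0 ≤ F s) {x : V} (hx : x ≠ 0) :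
    pot (fun y => F ‖y‖) x = ∫ s in Ioi (0 : ℝ), 4 * Real.pi * s ^ 2 / max s ‖x‖ * F s := by
  have hn : 0 < ‖x‖ := norm_pos_iff.mpr hx
  have hm1 : Measurable fun y : V => ‖x - y‖⁻¹ * F ‖y‖ :=
    (by fun_prop : Measurable fun y : V => ‖x - y‖⁻¹).mul (hF.comp measurable_norm)
  have hm2 : Measurable fun s : ℝ => 4 * Real.pi * s ^ 2 / max s ‖x‖ * F s :=
    ((by fun_prop : Measurable fun s : ℝ => 4 * Real.pi * s ^ 2).div (by fun_prop)).mul hF
  unfold pot
  rw [integral_eq_lintegral_of_nonneg_ae (Eventually.of_forall fun y =>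
      mul_nonneg (by positivity) (hF0 _)) hm1.aestronglyMeasurable,
    integral_eq_lintegral_of_nonneg_ae (Eventually.of_forall fun s =>
      mul_nonneg (div_nonneg (by positivity) (hn.le.trans (le_max_right _ _))) (hF0 _))
      hm2.aestronglyMeasurable]
  congr 1
  have h := lintegral_radial hx (Φ := fun s => ENNReal.ofReal (F s)) hF.ennreal_ofReal
  have e1 : ∀ y : V, ENNReal.ofReal (‖x - y‖⁻¹ * F ‖y‖) =
      ENNReal.ofReal ‖x - y‖⁻¹ * ENNReal.ofReal (F ‖y‖) := fun y =>
    ENNReal.ofReal_mul (by positivity)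
  have e2 : ∀ s : ℝ, ENNReal.ofReal (4 * Real.pi * s ^ 2 / max s ‖x‖ * F s) =
      ENNReal.ofReal (4 * Real.pi * s ^ 2 / max s ‖x‖) * ENNReal.ofReal (F s) := fun s =>
    ENNReal.ofReal_mul (div_nonneg (by positivity) (hn.le.trans (le_max_right _ _)))
  simp_rw [e1, e2]
  exact h

theorem vol_ballV (r : ℝ) (hr : 0 ≤ r) :
    volume.real (ball (0 : V) r) = 4 / 3 * Real.pi * r ^ 3 := by
  haveI := nontriv (V := V)
  have h := InnerProductSpace.volume_ball_of_dim_odd (E := V) (k := 1) (by rw [hd.out]) 0 r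
  rw [Measure.real, h, hd.out]
  rw [ENNReal.toReal_mul, ENNReal.toReal_pow, ENNReal.toReal_ofReal hr,
    ENNReal.toReal_ofReal (by positivity)]
  norm_num [Nat.doubleFactorial]
  ring

/-- polar coordinates for radial functions -/
theorem integral_radial (F : ℝ → ℝ) :
    ∫ y : V, F ‖y‖ = ∫ s in Ioi (0 : ℝ), 4 * Real.pi * s ^ 2 * F s := by
  haveI := nontriv (V := V)
  rw [integral_fun_norm_addHaar, hd.out, vol_ballV 1 zero_le_one]
  simp only [smul_eq_mul, nsmul_eq_mul]
  rw [← integral_const_mul, ← integral_const_mul]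
  refine integral_congr_ae (Eventually.of_forall fun s => ?_)
  simp only
  norm_num
  ring

theorem integrable_radial_iff (F : ℝ → ℝ) :
    Integrable (fun y : V => F ‖y‖) ↔ IntegrableOn (fun s => 4 * Real.pi * s ^ 2 * F s) (Ioi 0) := by
  haveI := nontriv (V := V)
  rw [integrable_fun_norm_addHaar, hd.out]
  simp only [smul_eq_mul]
  have e : (fun s => 4 * Real.pi * s ^ 2 * F s) = fun s => 4 * Real.pi * (s ^ (3 - 1) * F s) := by
    funext s
    norm_num
    ring
  rw [e]
  constructor
  · intro h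
    exact h.const_mul _
  · intro h
    have h2 := h.const_mul (4 * Real.pi)⁻¹
    refine h2.congr (Eventually.of_forall fun s => ?_)
    simp only
    field_simp

theorem integral_radial_ball (F : ℝ → ℝ) {r : ℝ} (hr : 0 ≤ r) :
    ∫ y in ball (0 : V) r, F ‖y‖ = ∫ s in (0 : ℝ)..r, 4 * Real.pi * s ^ 2 * F s := by
  have h1 : ∫ y in ball (0 : V) r, F ‖y‖ = ∫ y : V, (Iio r).indicator F ‖y‖ := by
    rw [← integral_indicator measurableSet_ball]
    refine integral_congr_ae (Eventually.of_forall fun y => ?_)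
    simp only
    by_cases hy : y ∈ ball (0 : V) r
    · rw [indicator_of_mem hy, indicator_of_mem (by simpa using hy : ‖y‖ ∈ Iio r)]
    · rw [indicator_of_notMem hy, indicator_of_notMem (by simpa using hy : ‖y‖ ∉ Iio r)]
  rw [h1, integral_radial, intervalIntegral.integral_of_le hr, integral_Ioc_eq_integral_Ioo,
    ← integral_indicator measurableSet_Ioi, ← integral_indicator measurableSet_Ioo]
  refine integral_congr_ae (Eventually.of_forall fun s => ?_)
  simp only [indicator_apply, mem_Ioi, mem_Iio, mem_Ioo]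
  by_cases h2 : 0 < s <;> by_cases h3 : s < r <;> simp [h2, h3]

end dim3

end Pool.Agent.TF
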