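import Pool.Agent.Lib.MP_9cf0c9_mp.Compare
import Pool.Agent.Lib.MP_9cf0c9_mp.Radial

/-! Second order expansions of ball means. -/

set_option autoImplicit false
set_option linter.unusedSectionVars false
set_option linter.unusedVariables false
set_option linter.style.haveILetI false

namespace Pool.Agent.TF
open MeasureTheory Set Metric Filter Topology
open scoped ENNReal NNReal RealInnerProductSpace

/-! ### moments of the ball -/

theorem ball_isom (L : X ≃ₗᵢ[ℝ] X) (f : X → ℝ) (r : ℝ) :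
    ∫ v in ball (0 : X) r, f (L v) = ∫ v in ball (0 : X) r, f v := by
  have h := L.measurePreserving.setIntegral_preimage_emb
    L.toMeasurableEquiv.measurableEmbedding f (ball (0 : X) r)
  have h2 : L ⁻¹' ball (0 : X) r = ball (0 : X) r := by
    ext v
    simp
  rw [h2] at h
  exact h

theorem mom_lin (a : X) (r : ℝ) : ∫ v in ball (0 : X) r, ⟪a, v⟫ = 0 := by
  have h := ball_isom (LinearIsometryEquiv.neg ℝ) (fun v => ⟪a, v⟫) r
  have h2 : ∫ v in ball (0 : X) r, ⟪a, (LinearIsometryEquiv.neg ℝ : X ≃ₗᵢ[ℝ] X) v⟫ =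
      -∫ v in ball (0 : X) r, ⟪a, v⟫ := by
    rw [← integral_neg]
    refine integral_congr_ae (Eventually.of_forall fun v => ?_)
    simp
  rw [h2] at h
  linarith

theorem mom_sq_isom {a b : X} (h : ‖a‖ = ‖b‖) (r : ℝ) :
    ∫ v in ball (0 : X) r, ⟪a, v⟫ ^ 2 = ∫ v in ball (0 : X) r, ⟪b, v⟫ ^ 2 := by
  obtain ⟨L, hL⟩ := exists_isom (v := a) (w := b) h
  rw [← ball_isom L (fun v => ⟪b, v⟫ ^ 2) r]
  refine integral_congr_ae (Eventually.of_forall fun v => ?_)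
  simp only
  rw [← hL, L.inner_map_map]

theorem int_ball {f : X → ℝ} (hf : Continuous f) (x : X) (r : ℝ) : IntegrableOn f (ball x r) :=
  (hf.continuousOn.integrableOn_compact (isCompact_closedBall x r)).mono_set
    ball_subset_closedBall

theorem mom_norm {r : ℝ} (hr : 0 ≤ r) :
    ∫ v in ball (0 : X) r, ‖v‖ ^ 2 = 4 / 5 * Real.pi * r ^ 5 := by
  have hf : Module.finrank ℝ X = 3 := Fact.out
  haveI := nontriv (V := X)
  have h1 : ∫ v in ball (0 : X) r, ‖v‖ ^ 2 =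
      ∫ v : X, (Iio r).indicator (fun s : ℝ => s ^ 2) ‖v‖ := by
    rw [← integral_indicator measurableSet_ball]
    refine integral_congr_ae (Eventually.of_forall fun v => ?_)
    by_cases hv : v ∈ ball (0 : X) r
    · have h2 : ‖v‖ ∈ Iio r := by simpa using hv
      simp only
      rw [indicator_of_mem hv, indicator_of_mem h2]
    · have h2 : ‖v‖ ∉ Iio r := by simpa using hv
      simp only
      rw [indicator_of_notMem hv, indicator_of_notMem h2]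
  rw [h1, integral_fun_norm_addHaar volume, hf]
  have h3 : ∫ y in Ioi (0 : ℝ), y ^ (3 - 1) • (Iio r).indicator (fun s : ℝ => s ^ 2) y =
      ∫ y in (0 : ℝ)..r, y ^ 4 := by
    rw [intervalIntegral.integral_of_le hr, integral_Ioc_eq_integral_Ioo,
      ← integral_indicator measurableSet_Ioi,
      ← integral_indicator measurableSet_Ioo]
    refine integral_congr_ae (Eventually.of_forall fun y => ?_)
    simp only [smul_eq_mul]
    by_cases h0 : 0 < y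
    · by_cases h5 : y < r
      · rw [indicator_of_mem (show y ∈ Ioi (0 : ℝ) from h0),
          indicator_of_mem (show y ∈ Iio r from h5),
          indicator_of_mem (show y ∈ Ioo (0 : ℝ) r from ⟨h0, h5⟩)]
        ring
      · rw [indicator_of_mem (show y ∈ Ioi (0 : ℝ) from h0),
          indicator_of_notMem (show y ∉ Iio r from h5),
          indicator_of_notMem (show y ∉ Ioo (0 : ℝ) r from fun h => h5 h.2), mul_zero]
    · rw [indicator_of_notMem (show y ∉ Ioi (0 : ℝ) from h0),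
        indicator_of_notMem (show y ∉ Ioo (0 : ℝ) r from fun h => h0 h.1)]
  rw [h3, integral_pow, vol_ball 0 zero_le_one]
  norm_num
  ring

theorem mom_sq (a : X) {r : ℝ} (hr : 0 ≤ r) :
    ∫ v in ball (0 : X) r, ⟪a, v⟫ ^ 2 = 4 / 15 * Real.pi * r ^ 5 * ‖a‖ ^ 2 := by
  have hf : Module.finrank ℝ X = 3 := Fact.out
  set b := stdOrthonormalBasis ℝ X with hb
  have h1 : ∀ i, ∫ v in ball (0 : X) r, ⟪a, v⟫ ^ 2 =
      ‖a‖ ^ 2 * ∫ v in ball (0 : X) r, ⟪b i, v⟫ ^ 2 := by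
    intro i
    rw [mom_sq_isom (b := ‖a‖ • b i) (by
      rw [norm_smul, b.norm_eq_one, mul_one, norm_norm]), ← integral_const_mul]
    refine integral_congr_ae (Eventually.of_forall fun v => ?_)
    simp only
    rw [real_inner_smul_left]
    ring
  have h2 : ∑ i, ∫ v in ball (0 : X) r, ⟪b i, v⟫ ^ 2 = ∫ v in ball (0 : X) r, ‖v‖ ^ 2 := by
    rw [← integral_finsetSum _ fun i _ => int_ball (by fun_prop) 0 r]
    refine integral_congr_ae (Eventually.of_forall fun v => ?_)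
    exact b.sum_sq_inner_right v
  have h3 : ∑ i : Fin (Module.finrank ℝ X), ∫ v in ball (0 : X) r, ⟪a, v⟫ ^ 2 =
      ‖a‖ ^ 2 * ∫ v in ball (0 : X) r, ‖v‖ ^ 2 := by
    rw [← h2, Finset.mul_sum]
    exact Finset.sum_congr rfl fun i _ => h1 i
  rw [Finset.sum_const, Finset.card_univ, Fintype.card_fin, hf, mom_norm hr] at h3
  have h4 : (3 : ℕ) • ∫ v in ball (0 : X) r, ⟪a, v⟫ ^ 2 =
      3 * ∫ v in ball (0 : X) r, ⟪a, v⟫ ^ 2 := by
    rw [nsmul_eq_mul]; norm_num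
  rw [h4] at h3
  linarith

/-- shifting a ball integral -/
theorem ball_shift (f : X → ℝ) (x₀ : X) (r : ℝ) :
    ∫ y in ball x₀ r, f y = ∫ v in ball (0 : X) r, f (x₀ + v) := by
  rw [← integral_indicator measurableSet_ball, ← integral_indicator measurableSet_ball,
    ← integral_add_left_eq_self (fun y => (ball x₀ r).indicator f y) x₀]
  refine integral_congr_ae (Eventually.of_forall fun v => ?_)
  simp only
  by_cases hv : v ∈ ball (0 : X) r
  · have h2 : x₀ + v ∈ ball x₀ r := by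
      rw [mem_ball, dist_eq_norm, add_sub_cancel_left]
      simpa using hv
    rw [indicator_of_mem hv, indicator_of_mem h2]
  · have h2 : x₀ + v ∉ ball x₀ r := by
      rw [mem_ball, dist_eq_norm, add_sub_cancel_left]
      simpa using hv
    rw [indicator_of_notMem hv, indicator_of_notMem h2]

/-! ### mean Laplacians -/

/-- the Laplacian of `U` at `x₀` is at most `L`, in the sense of ball means -/
def MLle (U : X → ℝ) (x₀ : X) (L : ℝ) : Prop :=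
  ∀ ε > 0, ∃ δ > 0, ∀ r, 0 < r → r < δ → IntegrableOn U (ball x₀ r) ∧
    ∫ y in ball x₀ r, U y ≤ 4 / 3 * Real.pi * r ^ 3 * (U x₀ + r ^ 2 / 10 * (L + ε))

/-- the Laplacian of `U` at `x₀` is at least `L`, in the sense of ball means -/
def MLge (U : X → ℝ) (x₀ : X) (L : ℝ) : Prop :=
  ∀ ε > 0, ∃ δ > 0, ∀ r, 0 < r → r < δ → IntegrableOn U (ball x₀ r) ∧
    4 / 3 * Real.pi * r ^ 3 * (U x₀ + r ^ 2 / 10 * (L - ε)) ≤ ∫ y in ball x₀ r, U y

theorem MLle.add {U U' : X → ℝ} {x₀ : X} {L L' : ℝ} (h : MLle U x₀ L) (h' : MLle U' x₀ L') :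
    MLle (fun x => U x + U' x) x₀ (L + L') := by
  intro ε hε
  obtain ⟨δ, hδ, h1⟩ := h (ε / 2) (half_pos hε)
  obtain ⟨δ', hδ', h2⟩ := h' (ε / 2) (half_pos hε)
  refine ⟨min δ δ', lt_min hδ hδ', fun r hr hrd => ?_⟩
  obtain ⟨i1, j1⟩ := h1 r hr (lt_of_lt_of_le hrd (min_le_left _ _))
  obtain ⟨i2, j2⟩ := h2 r hr (lt_of_lt_of_le hrd (min_le_right _ _))
  refine ⟨i1.add i2, ?_⟩
  rw [integral_add i1 i2]
  calc _ ≤ _ := add_le_add j1 j2
    _ = _ := by ring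

theorem MLge.neg {U : X → ℝ} {x₀ : X} {L : ℝ} (h : MLge U x₀ L) :
    MLle (fun x => -U x) x₀ (-L) := by
  intro ε hε
  obtain ⟨δ, hδ, h1⟩ := h ε hε
  refine ⟨δ, hδ, fun r hr hrd => ?_⟩
  obtain ⟨i1, j1⟩ := h1 r hr hrd
  refine ⟨i1.neg, ?_⟩
  rw [integral_neg]
  calc _ ≤ _ := neg_le_neg j1
    _ = _ := by ring

theorem MLle.neg {U : X → ℝ} {x₀ : X} {L : ℝ} (h : MLle U x₀ L) :
    MLge (fun x => -U x) x₀ (-L) := by
  intro ε hε
  obtain ⟨δ, hδ, h1⟩ := h ε hε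
  refine ⟨δ, hδ, fun r hr hrd => ?_⟩
  obtain ⟨i1, j1⟩ := h1 r hr hrd
  refine ⟨i1.neg, ?_⟩
  rw [integral_neg]
  calc _ = _ := by ring
    _ ≤ _ := neg_le_neg j1

theorem MLle.const_mul {U : X → ℝ} {x₀ : X} {L c : ℝ} (hc : 0 ≤ c) (h : MLle U x₀ L) :
    MLle (fun x => c * U x) x₀ (c * L) := by
  intro ε hε
  obtain ⟨δ, hδ, h1⟩ := h (ε / (c + 1)) (by positivity)
  refine ⟨δ, hδ, fun r hr hrd => ?_⟩
  obtain ⟨i1, j1⟩ := h1 r hr hrd
  refine ⟨i1.const_mul c, ?_⟩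
  rw [integral_const_mul]
  have h2 : c * (ε / (c + 1)) ≤ ε := by
    rw [mul_div_assoc', div_le_iff₀ (by linarith)]
    linarith
  have hp : 0 ≤ 4 / 3 * Real.pi * r ^ 3 := by positivity
  have hp2 : 0 ≤ r ^ 2 / 10 := by positivity
  calc _ ≤ _ := mul_le_mul_of_nonneg_left j1 hc
    _ = 4 / 3 * Real.pi * r ^ 3 * (c * U x₀ + r ^ 2 / 10 * (c * L + c * (ε / (c + 1)))) := by ring
    _ ≤ _ := by
      refine mul_le_mul_of_nonneg_left ?_ hp
      have := mul_le_mul_of_nonneg_left h2 hp2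
      linarith

theorem MLle.mono {U : X → ℝ} {x₀ : X} {L L' : ℝ} (h : MLle U x₀ L) (hL : L ≤ L') :
    MLle U x₀ L' := by
  intro ε hε
  obtain ⟨δ, hδ, h1⟩ := h ε hε
  refine ⟨δ, hδ, fun r hr hrd => ?_⟩
  obtain ⟨i1, j1⟩ := h1 r hr hrd
  refine ⟨i1, j1.trans ?_⟩
  have hp : 0 ≤ 4 / 3 * Real.pi * r ^ 3 := by positivity
  have hp2 : 0 ≤ r ^ 2 / 10 := by positivity
  refine mul_le_mul_of_nonneg_left ?_ hp
  have := mul_le_mul_of_nonneg_left hL hp2
  linarith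

/-- a strictly negative mean Laplacian gives the super mean value property -/
theorem MLle.super {U : X → ℝ} {x₀ : X} {L : ℝ} (h : MLle U x₀ L) (hL : L < 0) :
    ∃ δ > 0, ∀ r, 0 < r → r < δ →
      ∫ y in ball x₀ r, U y ≤ 4 / 3 * Real.pi * r ^ 3 * U x₀ := by
  obtain ⟨δ, hδ, h1⟩ := h (-L) (neg_pos.mpr hL)
  refine ⟨δ, hδ, fun r hr hrd => ?_⟩
  obtain ⟨i1, j1⟩ := h1 r hr hrd
  have h2 : L + -L = 0 := by ring
  rw [h2, mul_zero, add_zero] at j1
  exact j1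

/-! ### radial functions -/

/-- Taylor formula of second order -/
theorem taylor2 {q q' : ℝ → ℝ} {s₀ q2 : ℝ} (hq : ∀ᶠ s in 𝓝 s₀, HasDerivAt q (q' s) s)
    (hq' : HasDerivAt q' q2 s₀) {ε : ℝ} (hε : 0 < ε) :
    ∃ δ > 0, ∀ h, |h| < δ →
      |q (s₀ + h) - q s₀ - q' s₀ * h - q2 / 2 * h ^ 2| ≤ ε * h ^ 2 := by
  have h1 := (hasDerivAt_iff_isLittleO_nhds_zero.mp hq').def hε
  obtain ⟨δ1, hδ1, hb1⟩ := Metric.eventually_nhds_iff.mp h1
  obtain ⟨δ2, hδ2, hb2⟩ := Metric.eventually_nhds_iff.mp hq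
  refine ⟨min δ1 δ2, lt_min hδ1 hδ2, fun h hh => ?_⟩
  set g : ℝ → ℝ := fun t => q (s₀ + t * h) - q s₀ - q' s₀ * (t * h) - q2 / 2 * (t * h) ^ 2 with hg
  have hd : ∀ t ∈ Icc (0 : ℝ) 1, HasDerivWithinAt g
      (h * (q' (s₀ + t * h) - q' s₀ - (t * h) * q2)) (Icc 0 1) t := by
    intro t ht
    have hth : |t * h| < min δ1 δ2 := by
      rw [abs_mul, abs_of_nonneg ht.1]
      exact lt_of_le_of_lt (mul_le_of_le_one_left (abs_nonneg _) ht.2) hh
    have h2 : HasDerivAt q (q' (s₀ + t * h)) (s₀ + t * h) := by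
      refine hb2 ?_
      rw [Real.dist_eq, add_sub_cancel_left]
      exact lt_of_lt_of_le hth (min_le_right _ _)
    have h3 : HasDerivAt (fun t : ℝ => t * h) h t := by
      simpa using (hasDerivAt_id t).mul_const h
    have h3' : HasDerivAt (fun t : ℝ => s₀ + t * h) h t := h3.const_add s₀
    have h4 : HasDerivAt (fun t : ℝ => q (s₀ + t * h)) (q' (s₀ + t * h) * h) t :=
      HasDerivAt.comp t h2 h3'
    have h5 := (((h4.sub_const (q s₀)).sub (h3.const_mul (q' s₀))).sub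
      ((h3.pow 2).const_mul (q2 / 2)))
    refine (h5.congr_deriv ?_).hasDerivWithinAt
    push_cast
    ring
  have hbd : ∀ t ∈ Icc (0 : ℝ) 1,
      ‖h * (q' (s₀ + t * h) - q' s₀ - (t * h) * q2)‖ ≤ |h| * (ε * |h|) := by
    intro t ht
    rw [norm_mul, Real.norm_eq_abs]
    refine mul_le_mul_of_nonneg_left ?_ (abs_nonneg _)
    have hth : |t * h| ≤ |h| := by
      rw [abs_mul, abs_of_nonneg ht.1]
      exact mul_le_of_le_one_left (abs_nonneg _) ht.2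
    have h2 := hb1 (y := t * h) (by
      rw [Real.dist_eq, sub_zero]
      exact lt_of_le_of_lt hth (lt_of_lt_of_le hh (min_le_left _ _)))
    rw [Real.norm_eq_abs (t * h), smul_eq_mul] at h2
    exact h2.trans (mul_le_mul_of_nonneg_left hth hε.le)
  have h6 := (convex_Icc (0 : ℝ) 1).norm_image_sub_le_of_norm_hasDerivWithin_le hd hbd
    (left_mem_Icc.mpr zero_le_one) (right_mem_Icc.mpr zero_le_one)
  have h7 : g 1 - g 0 = q (s₀ + h) - q s₀ - q' s₀ * h - q2 / 2 * h ^ 2 := by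
    simp only [hg]
    simp
  rw [h7, sub_zero, norm_one, mul_one, Real.norm_eq_abs] at h6
  refine h6.trans (le_of_eq ?_)
  rw [← sq_abs h]
  ring

theorem ML_radial_le {q q' : ℝ → ℝ} {c x₀ : X} {q2 : ℝ}
    (hq : ∀ᶠ s in 𝓝 (‖x₀ - c‖ ^ 2), HasDerivAt q (q' s) s)
    (hq' : HasDerivAt q' q2 (‖x₀ - c‖ ^ 2)) :
    MLle (fun x => q (‖x - c‖ ^ 2)) x₀
      (6 * q' (‖x₀ - c‖ ^ 2) + 4 * ‖x₀ - c‖ ^ 2 * q2) := by
  set a : X := x₀ - c with ha
  set s₀ : ℝ := ‖a‖ ^ 2 with hs₀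
  have hA : 0 ≤ ‖a‖ := norm_nonneg a
  intro ε hε
  set ε1 : ℝ := ε / (12 * (2 * ‖a‖ + 1) ^ 2) with hε1
  have hε1p : 0 < ε1 := by positivity
  obtain ⟨δ1, hδ1, ht⟩ := taylor2 hq hq' hε1p
  obtain ⟨δ2, hδ2, hq2⟩ := Metric.eventually_nhds_iff.mp hq
  set δ : ℝ := min 1 (min (min δ1 δ2 / (2 * ‖a‖ + 1)) (ε / (6 * (|q2| + 1) * (4 * ‖a‖ + 1))))
    with hδ
  have hδp : 0 < δ := by
    refine lt_min one_pos (lt_min ?_ ?_)
    · have : 0 < min δ1 δ2 := lt_min hδ1 hδ2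
      positivity
    · positivity
  refine ⟨δ, hδp, fun r hr hrd => ?_⟩
  have hexp : ∀ v : X, ‖x₀ + v - c‖ ^ 2 = s₀ + (2 * ⟪a, v⟫ + ‖v‖ ^ 2) := by
    intro v
    have : x₀ + v - c = a + v := by rw [ha]; abel
    rw [this, @norm_add_sq_real]
    ring
  have hin : ∀ v : X, |⟪a, v⟫| ≤ ‖a‖ * ‖v‖ := fun v => abs_real_inner_le_norm a v
  have hh : ∀ v : X, ‖v‖ ≤ r → |2 * ⟪a, v⟫ + ‖v‖ ^ 2| ≤ (2 * ‖a‖ + 1) * ‖v‖ := by
    intro v hv
    have h1 : ‖v‖ ≤ 1 := hv.trans (hrd.le.trans (min_le_left _ _))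
    have h2 := hin v
    have h3 : ‖v‖ ^ 2 ≤ ‖v‖ := by
      have := norm_nonneg v
      rw [sq]
      exact mul_le_of_le_one_right this h1
    refine (abs_add_le _ _).trans ?_
    rw [abs_mul, abs_of_nonneg (by norm_num : (0 : ℝ) ≤ 2), abs_of_nonneg (sq_nonneg ‖v‖)]
    linarith
  have hhd : ∀ v : X, ‖v‖ ≤ r → |2 * ⟪a, v⟫ + ‖v‖ ^ 2| < min δ1 δ2 := by
    intro v hv
    refine (hh v hv).trans_lt ?_
    have h1 : r < min δ1 δ2 / (2 * ‖a‖ + 1) :=
      hrd.trans_le ((min_le_right _ _).trans (min_le_left _ _))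
    rw [lt_div_iff₀ (by positivity)] at h1
    have h2 : (2 * ‖a‖ + 1) * ‖v‖ ≤ (2 * ‖a‖ + 1) * r :=
      mul_le_mul_of_nonneg_left hv (by positivity)
    linarith
  have hcont : ContinuousOn (fun x : X => q (‖x - c‖ ^ 2)) (closedBall x₀ r) := by
    intro x hx
    have hx' : ‖x - x₀‖ ≤ r := by rwa [mem_closedBall, dist_eq_norm] at hx
    have h1 := hexp (x - x₀)
    have h2 : x₀ + (x - x₀) - c = x - c := by abel
    rw [h2] at h1
    have h3 : HasDerivAt q (q' (‖x - c‖ ^ 2)) (‖x - c‖ ^ 2) := by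
      refine hq2 ?_
      rw [Real.dist_eq, h1, add_sub_cancel_left]
      exact (hhd (x - x₀) hx').trans_le (min_le_right _ _)
    have h4 : ContinuousAt (fun x : X => ‖x - c‖ ^ 2) x := by fun_prop
    exact (ContinuousAt.comp (f := fun x : X => ‖x - c‖ ^ 2) h3.continuousAt h4).continuousWithinAt
  have hI : IntegrableOn (fun x : X => q (‖x - c‖ ^ 2)) (ball x₀ r) :=
    (hcont.integrableOn_compact (isCompact_closedBall x₀ r)).mono_set ball_subset_closedBall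
  refine ⟨hI, ?_⟩
  set q1 : ℝ := q' s₀ with hq1
  set E : ℝ := ε / 6 with hE
  have hpt : ∀ v ∈ ball (0 : X) r, q (‖x₀ + v - c‖ ^ 2) ≤
      q s₀ + 2 * q1 * ⟪a, v⟫ + (q1 + E) * ‖v‖ ^ 2 + 2 * q2 * ⟪a, v⟫ ^ 2 := by
    intro v hv
    have hv' : ‖v‖ ≤ r := by
      rw [mem_ball_zero_iff] at hv
      exact hv.le
    set h : ℝ := 2 * ⟪a, v⟫ + ‖v‖ ^ 2 with hhdef
    have h1 := ht h ((hhd v hv').trans_le (min_le_left _ _))
    have h2 := (abs_le.mp h1).2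
    have h3 : h ^ 2 ≤ (2 * ‖a‖ + 1) ^ 2 * ‖v‖ ^ 2 := by
      rw [← sq_abs h, ← mul_pow]
      exact pow_le_pow_left₀ (abs_nonneg _) (hh v hv') 2
    have h4 : ε1 * h ^ 2 ≤ ε / 12 * ‖v‖ ^ 2 := by
      have h5 := mul_le_mul_of_nonneg_left h3 hε1p.le
      have h6 : ε1 * ((2 * ‖a‖ + 1) ^ 2 * ‖v‖ ^ 2) = ε / 12 * ‖v‖ ^ 2 := by
        rw [hε1]; field_simp
      linarith
    have h7 : h ^ 2 = 4 * ⟪a, v⟫ ^ 2 + (4 * ⟪a, v⟫ * ‖v‖ ^ 2 + ‖v‖ ^ 4) := by
      rw [hhdef]; ring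
    have h8 : |4 * ⟪a, v⟫ * ‖v‖ ^ 2 + ‖v‖ ^ 4| ≤ (4 * ‖a‖ + 1) * r * ‖v‖ ^ 2 := by
      have hn := norm_nonneg v
      have h9 := hin v
      have hr1 : ‖v‖ ≤ 1 := hv'.trans (hrd.le.trans (min_le_left _ _))
      refine (abs_add_le _ _).trans ?_
      rw [abs_mul, abs_mul, abs_of_nonneg (by norm_num : (0 : ℝ) ≤ 4),
        abs_of_nonneg (sq_nonneg ‖v‖), abs_of_nonneg (by positivity : (0 : ℝ) ≤ ‖v‖ ^ 4)]
      have e1 : |⟪a, v⟫| ≤ ‖a‖ * r := h9.trans (mul_le_mul_of_nonneg_left hv' hA)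
      have e2 : ‖v‖ ^ 2 ≤ r := by
        rw [sq]
        exact (mul_le_of_le_one_right hn hr1).trans hv'
      have e3 : ‖v‖ ^ 4 = ‖v‖ ^ 2 * ‖v‖ ^ 2 := by ring
      rw [e3]
      have e4 : 4 * |⟪a, v⟫| * ‖v‖ ^ 2 ≤ 4 * (‖a‖ * r) * ‖v‖ ^ 2 := by
        refine mul_le_mul_of_nonneg_right ?_ (sq_nonneg _)
        linarith
      have e5 : ‖v‖ ^ 2 * ‖v‖ ^ 2 ≤ r * ‖v‖ ^ 2 := mul_le_mul_of_nonneg_right e2 (sq_nonneg _)
      linarith
    have h9 : q2 / 2 * (4 * ⟪a, v⟫ * ‖v‖ ^ 2 + ‖v‖ ^ 4) ≤ ε / 12 * ‖v‖ ^ 2 := by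
      have e1 : q2 / 2 * (4 * ⟪a, v⟫ * ‖v‖ ^ 2 + ‖v‖ ^ 4) ≤
          |q2| / 2 * ((4 * ‖a‖ + 1) * r * ‖v‖ ^ 2) := by
        refine (le_abs_self _).trans ?_
        rw [abs_mul, abs_div, abs_of_nonneg (by norm_num : (0 : ℝ) ≤ 2)]
        exact mul_le_mul_of_nonneg_left h8 (by positivity)
      have e2 : |q2| / 2 * ((4 * ‖a‖ + 1) * r) ≤ ε / 12 := by
        have e3 : r < ε / (6 * (|q2| + 1) * (4 * ‖a‖ + 1)) :=
          hrd.trans_le ((min_le_right _ _).trans (min_le_right _ _))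
        rw [lt_div_iff₀ (by positivity)] at e3
        have e4 : 0 ≤ r * (4 * ‖a‖ + 1) := by positivity
        have e5 : 0 ≤ |q2| := abs_nonneg _
        linarith
      have e6 := mul_le_mul_of_nonneg_right e2 (sq_nonneg ‖v‖)
      linarith
    rw [hexp v]
    have h10 : q2 / 2 * h ^ 2 = 2 * q2 * ⟪a, v⟫ ^ 2 +
        q2 / 2 * (4 * ⟪a, v⟫ * ‖v‖ ^ 2 + ‖v‖ ^ 4) := by
      rw [h7]; ring
    have h11 : q1 * h = 2 * q1 * ⟪a, v⟫ + q1 * ‖v‖ ^ 2 := by
      rw [hhdef]; ring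
    have h12 : (q1 + E) * ‖v‖ ^ 2 = q1 * ‖v‖ ^ 2 + ε / 12 * ‖v‖ ^ 2 + ε / 12 * ‖v‖ ^ 2 := by
      rw [hE]; ring
    rw [h12]
    linarith
  rw [ball_shift]
  have i1 : IntegrableOn (fun v : X => q s₀ + 2 * q1 * ⟪a, v⟫) (ball (0 : X) r) :=
    int_ball (by fun_prop) 0 r
  have i2 : IntegrableOn (fun v : X => (q1 + E) * ‖v‖ ^ 2) (ball (0 : X) r) :=
    int_ball (by fun_prop) 0 r
  have i3 : IntegrableOn (fun v : X => 2 * q2 * ⟪a, v⟫ ^ 2) (ball (0 : X) r) :=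
    int_ball (by fun_prop) 0 r
  have i12 : IntegrableOn (fun v : X => q s₀ + 2 * q1 * ⟪a, v⟫ + (q1 + E) * ‖v‖ ^ 2)
    (ball (0 : X) r) := i1.add i2
  have i123 : IntegrableOn (fun v : X => q s₀ + 2 * q1 * ⟪a, v⟫ + (q1 + E) * ‖v‖ ^ 2 +
    2 * q2 * ⟪a, v⟫ ^ 2) (ball (0 : X) r) := i12.add i3
  have i0 : IntegrableOn (fun _ : X => q s₀) (ball (0 : X) r) := int_ball (by fun_prop) 0 r
  have i0' : IntegrableOn (fun v : X => 2 * q1 * ⟪a, v⟫) (ball (0 : X) r) :=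
    int_ball (by fun_prop) 0 r
  have iU : IntegrableOn (fun v : X => q (‖x₀ + v - c‖ ^ 2)) (ball (0 : X) r) := by
    have hc2 : ContinuousOn (fun v : X => q (‖x₀ + v - c‖ ^ 2)) (closedBall (0 : X) r) := by
      refine hcont.comp (by fun_prop) fun v hv => ?_
      rw [mem_closedBall, dist_eq_norm, add_sub_cancel_left]
      simpa using hv
    exact (hc2.integrableOn_compact (isCompact_closedBall _ r)).mono_set ball_subset_closedBall
  have h1 := setIntegral_mono_on iU i123 measurableSet_ball hpt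
  rw [integral_add i12 i3, integral_add i1 i2, integral_add i0 i0', integral_const_mul,
    integral_const_mul, integral_const_mul, mom_lin, mom_norm hr.le, mom_sq a hr.le,
    setIntegral_const, smul_eq_mul, vol_ball 0 hr.le] at h1
  refine h1.trans (le_of_eq ?_)
  simp only [← ha, ← hs₀]
  rw [hE]
  ring

theorem ML_radial_ge {q q' : ℝ → ℝ} {c x₀ : X} {q2 : ℝ}
    (hq : ∀ᶠ s in 𝓝 (‖x₀ - c‖ ^ 2), HasDerivAt q (q' s) s)
    (hq' : HasDerivAt q' q2 (‖x₀ - c‖ ^ 2)) :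
    MLge (fun x => q (‖x - c‖ ^ 2)) x₀
      (6 * q' (‖x₀ - c‖ ^ 2) + 4 * ‖x₀ - c‖ ^ 2 * q2) := by
  have h1 := ML_radial_le (q := fun s => -q s) (q' := fun s => -q' s) (q2 := -q2) (c := c)
    (x₀ := x₀) (hq.mono fun s hs => hs.neg) hq'.neg
  have h2 := h1.neg
  simp only [neg_neg] at h2
  have h3 : -(6 * -q' (‖x₀ - c‖ ^ 2) + 4 * ‖x₀ - c‖ ^ 2 * -q2) =
      6 * q' (‖x₀ - c‖ ^ 2) + 4 * ‖x₀ - c‖ ^ 2 * q2 := by ring
  rw [h3] at h2
  exact h2

/-! ### densities -/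

/-- the kernel of the mean value formula -/
noncomputable def kerB (r : ℝ) (v : X) : ℝ :=
  4 / 3 * Real.pi * r ^ 3 * ‖v‖⁻¹ - pot (chi r) v

theorem kerB_out {r : ℝ} (hr : 0 < r) {v : X} (hv : r ≤ ‖v‖) : kerB r v = 0 := by
  have hv0 : v ≠ 0 := by
    intro h
    rw [h, norm_zero] at hv
    linarith
  unfold kerB
  rw [(newton hr hv0).2 hv, sub_self]

theorem kerB_in {r : ℝ} {v : X} (hv0 : v ≠ 0) (hv : ‖v‖ ≤ r) :
    kerB r v = 4 / 3 * Real.pi * r ^ 3 * ‖v‖⁻¹ - 2 * Real.pi * r ^ 2 +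
      2 / 3 * Real.pi * ‖v‖ ^ 2 := by
  unfold kerB
  rw [newton_in hv0 hv]
  ring

theorem kerB_nonneg {r : ℝ} (hr : 0 < r) {v : X} (hv0 : v ≠ 0) : 0 ≤ kerB r v := by
  unfold kerB
  exact sub_nonneg.mpr (newton hr hv0).1

/-- the radial profile of the kernel -/
noncomputable def prB (r s : ℝ) : ℝ :=
  4 / 3 * Real.pi * r ^ 3 * s⁻¹ - 2 * Real.pi * r ^ 2 + 2 / 3 * Real.pi * s ^ 2

theorem kerB_ae {r : ℝ} (hr : 0 < r) :
    ∀ᵐ v : X, kerB r v = (ball (0 : X) r).indicator (fun v => prB r ‖v‖) v := by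
  haveI := nontriv (V := X)
  have hne : ∀ᵐ v : X, v ≠ 0 := by rw [ae_iff]; simp
  filter_upwards [hne] with v hv
  by_cases hb : v ∈ ball (0 : X) r
  · rw [indicator_of_mem hb]
    have h1 : ‖v‖ ≤ r := by
      rw [mem_ball_zero_iff] at hb
      exact hb.le
    rw [kerB_in hv h1]
    rfl
  · rw [indicator_of_notMem hb]
    refine kerB_out hr ?_
    simpa using hb

theorem prB_int {r : ℝ} (hr : 0 < r) : IntegrableOn (fun v : X => prB r ‖v‖) (ball (0 : X) r) := by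
  have h1 : IntegrableOn (fun v : X => 4 / 3 * Real.pi * r ^ 3 * ‖v‖⁻¹) (ball (0 : X) r) := by
    refine Integrable.const_mul ?_ _
    have h2 := pot_integrable (chi_BC r) (0 : X)
    change IntegrableOn _ _ _
    rw [← integrable_indicator_iff measurableSet_ball]
    refine h2.congr (Eventually.of_forall fun v => ?_)
    simp only [zero_sub, norm_neg]
    unfold chi
    by_cases hv : v ∈ ball (0 : X) r
    · rw [indicator_of_mem hv, indicator_of_mem hv, mul_one]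
    · rw [indicator_of_notMem hv, indicator_of_notMem hv, mul_zero]
  have h2 : IntegrableOn (fun v : X => -(2 * Real.pi * r ^ 2) + 2 / 3 * Real.pi * ‖v‖ ^ 2)
      (ball (0 : X) r) := int_ball (by fun_prop) 0 r
  refine (h1.add h2).congr (Eventually.of_forall fun v => ?_)
  simp only [Pi.add_apply]
  unfold prB
  ring

theorem kerB_integrable {r : ℝ} (hr : 0 < r) : Integrable (kerB r : X → ℝ) := by
  have h1 := (integrable_indicator_iff measurableSet_ball).mpr (prB_int hr)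
  exact h1.congr ((kerB_ae hr).mono fun v hv => hv.symm)

theorem kerB_integral {r : ℝ} (hr : 0 < r) :
    ∫ v : X, kerB r v = 8 / 15 * Real.pi ^ 2 * r ^ 5 := by
  rw [integral_congr_ae (kerB_ae hr), integral_indicator measurableSet_ball,
    integral_radial_ball (V := X) (prB r) hr.le]
  have h1 : ∫ s in (0 : ℝ)..r, 4 * Real.pi * s ^ 2 * prB r s =
      ∫ s in (0 : ℝ)..r, (16 / 3 * Real.pi ^ 2 * r ^ 3 * s - 8 * Real.pi ^ 2 * r ^ 2 * s ^ 2 +
        8 / 3 * Real.pi ^ 2 * s ^ 4) := by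
    refine intervalIntegral.integral_congr fun s _ => ?_
    unfold prB
    by_cases hs : s = 0
    · subst hs; ring
    · field_simp
      ring
  have h2 : ∀ s ∈ uIcc (0 : ℝ) r, HasDerivAt (fun s : ℝ => 8 / 3 * Real.pi ^ 2 * r ^ 3 * s ^ 2 -
      8 / 3 * Real.pi ^ 2 * r ^ 2 * s ^ 3 + 8 / 15 * Real.pi ^ 2 * s ^ 5)
      (16 / 3 * Real.pi ^ 2 * r ^ 3 * s - 8 * Real.pi ^ 2 * r ^ 2 * s ^ 2 +
        8 / 3 * Real.pi ^ 2 * s ^ 4) s := by
    intro s _
    have d1 := (hasDerivAt_pow 2 s).const_mul (8 / 3 * Real.pi ^ 2 * r ^ 3)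
    have d2 := (hasDerivAt_pow 3 s).const_mul (8 / 3 * Real.pi ^ 2 * r ^ 2)
    have d3 := (hasDerivAt_pow 5 s).const_mul (8 / 15 * Real.pi ^ 2)
    refine ((d1.sub d2).add d3).congr_deriv ?_
    push_cast
    ring
  rw [h1, intervalIntegral.integral_eq_sub_of_hasDerivAt h2
    (Continuous.intervalIntegrable (by fun_prop) _ _)]
  ring

theorem TC.mean_id {ρ : X → ℝ} (hρ : TC ρ) (x₀ : X) {r : ℝ} (hr : 0 < r) :
    Integrable (fun y => ρ y * kerB r (y - x₀)) ∧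
    4 / 3 * Real.pi * r ^ 3 * pot ρ x₀ - ∫ x in ball x₀ r, pot ρ x =
      ∫ y, ρ y * kerB r (y - x₀) := by
  have hc : TC (chiAt x₀ r) := (chiAt_BC x₀ r).toTC fun x => chi_nonneg r _
  have hj : Integrable (fun y => ρ y * pot (chi r) (y - x₀)) := by
    refine (hρ.En_integrable hc).congr (Eventually.of_forall fun y => ?_)
    simp only
    rw [pot_chiAt]
  have hk : Integrable (fun y => 4 / 3 * Real.pi * r ^ 3 * (‖x₀ - y‖⁻¹ * ρ y)) :=
    (hρ.pot_integrable x₀).const_mul _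
  have he : ∀ y, ρ y * kerB r (y - x₀) = 4 / 3 * Real.pi * r ^ 3 * (‖x₀ - y‖⁻¹ * ρ y) -
      ρ y * pot (chi r) (y - x₀) := by
    intro y
    unfold kerB
    rw [norm_sub_rev y x₀]
    ring
  refine ⟨(hk.sub hj).congr (Eventually.of_forall fun y => (he y).symm), ?_⟩
  simp_rw [he]
  rw [integral_sub hk hj, hρ.mean x₀ hr, integral_const_mul]
  rfl

theorem ML_pot {ρ : X → ℝ} (hρ : TC ρ) {x₀ : X} (hc : ContinuousAt ρ x₀) :
    MLle (pot ρ) x₀ (-(4 * Real.pi * ρ x₀)) ∧ MLge (pot ρ) x₀ (-(4 * Real.pi * ρ x₀)) := by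
  have key : ∀ ε > 0, ∃ δ > 0, ∀ r, 0 < r → r < δ →
      |(∫ y, ρ y * kerB r (y - x₀)) - ρ x₀ * (8 / 15 * Real.pi ^ 2 * r ^ 5)| ≤
        ε / (4 * Real.pi) * (8 / 15 * Real.pi ^ 2 * r ^ 5) := by
    intro ε hε
    have hε' : 0 < ε / (4 * Real.pi) := by positivity
    obtain ⟨δ, hδ, hb⟩ := Metric.continuousAt_iff.mp hc _ hε'
    refine ⟨δ, hδ, fun r hr hrd => ?_⟩
    obtain ⟨i1, -⟩ := hρ.mean_id x₀ hr
    have i2 : Integrable (fun y : X => kerB r (y - x₀)) := (kerB_integrable hr).comp_sub_right x₀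
    have e2 : ∫ y : X, kerB r (y - x₀) = 8 / 15 * Real.pi ^ 2 * r ^ 5 := by
      rw [integral_sub_right_eq_self (fun y : X => kerB r y) x₀, kerB_integral hr]
    rw [← e2, ← integral_const_mul, ← integral_const_mul, ← integral_sub i1 (i2.const_mul _)]
    refine (abs_integral_le_integral_abs).trans ?_
    haveI := nontriv (V := X)
    have hne : ∀ᵐ y : X, y ≠ x₀ := by rw [ae_iff]; simp
    refine integral_mono_ae (i1.sub (i2.const_mul _)).abs (i2.const_mul _) ?_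
    filter_upwards [hne] with y hy
    have hk : 0 ≤ kerB r (y - x₀) := kerB_nonneg hr (sub_ne_zero.mpr hy)
    have e3 : ρ y * kerB r (y - x₀) - ρ x₀ * kerB r (y - x₀) =
        (ρ y - ρ x₀) * kerB r (y - x₀) := by ring
    simp only [e3]
    rw [abs_mul, abs_of_nonneg hk]
    by_cases hyb : ‖y - x₀‖ < r
    · have h1 := hb (x := y) (by rw [dist_eq_norm]; exact hyb.trans hrd)
      rw [Real.dist_eq] at h1
      exact mul_le_mul_of_nonneg_right h1.le hk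
    · push Not at hyb
      rw [kerB_out hr hyb, mul_zero, mul_zero]
  have hip : ∀ r : ℝ, IntegrableOn (pot ρ) (ball x₀ r) := fun r => int_ball hρ.pot_continuous x₀ r
  constructor
  · intro ε hε
    obtain ⟨δ, hδ, hk⟩ := key ε hε
    refine ⟨δ, hδ, fun r hr hrd => ⟨hip r, ?_⟩⟩
    have h1 := (abs_le.mp (hk r hr hrd)).1
    obtain ⟨-, h2⟩ := hρ.mean_id x₀ hr
    have e1 : ε / (4 * Real.pi) * (8 / 15 * Real.pi ^ 2 * r ^ 5) =
        2 / 15 * Real.pi * r ^ 5 * ε := by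
      have := Real.pi_pos
      field_simp
      ring
    rw [e1] at h1
    have e2 : 4 / 3 * Real.pi * r ^ 3 * (pot ρ x₀ + r ^ 2 / 10 * (-(4 * Real.pi * ρ x₀) + ε)) =
        4 / 3 * Real.pi * r ^ 3 * pot ρ x₀ - ρ x₀ * (8 / 15 * Real.pi ^ 2 * r ^ 5) +
          2 / 15 * Real.pi * r ^ 5 * ε := by ring
    rw [e2]
    linarith
  · intro ε hε
    obtain ⟨δ, hδ, hk⟩ := key ε hε
    refine ⟨δ, hδ, fun r hr hrd => ⟨hip r, ?_⟩⟩
    have h1 := (abs_le.mp (hk r hr hrd)).2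
    obtain ⟨-, h2⟩ := hρ.mean_id x₀ hr
    have e1 : ε / (4 * Real.pi) * (8 / 15 * Real.pi ^ 2 * r ^ 5) =
        2 / 15 * Real.pi * r ^ 5 * ε := by
      have := Real.pi_pos
      field_simp
      ring
    rw [e1] at h1
    have e2 : 4 / 3 * Real.pi * r ^ 3 * (pot ρ x₀ + r ^ 2 / 10 * (-(4 * Real.pi * ρ x₀) - ε)) =
        4 / 3 * Real.pi * r ^ 3 * pot ρ x₀ - ρ x₀ * (8 / 15 * Real.pi ^ 2 * r ^ 5) -
          2 / 15 * Real.pi * r ^ 5 * ε := by ring
    rw [e2]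
    linarith

section sol
variable {ι : Type*} [Fintype ι]

theorem off_open (R : ι → X) {x₀ : X} (hx : ∀ i, x₀ ≠ R i) : ∀ᶠ x in 𝓝 x₀, ∀ i, x ≠ R i := by
  rw [eventually_all]
  intro i
  exact (isOpen_ne.mem_nhds (hx i))

theorem Vn_continuousAt (z : ι → ℝ) {R : ι → X} {x₀ : X} (hx : ∀ i, x₀ ≠ R i) :
    ContinuousAt (Vn z R) x₀ := by
  unfold Vn
  refine tendsto_finsetSum _ fun i _ => ?_
  have h4 : ContinuousAt (fun x => z i * ‖x - R i‖⁻¹) x₀ := by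
    refine ContinuousAt.mul continuousAt_const (ContinuousAt.inv₀ (by fun_prop) ?_)
    exact norm_ne_zero_iff.mpr (sub_ne_zero.mpr (hx i))
  exact h4

theorem psi_continuousAt {φ : ℝ} {z : ι → ℝ} {R : ι → X} {ρ : X → ℝ} (hρ : TC ρ) {x₀ : X}
    (hx : ∀ i, x₀ ≠ R i) : ContinuousAt (psi φ z R ρ) x₀ :=
  ((Vn_continuousAt z hx).sub hρ.pot_continuous.continuousAt).sub continuousAt_const

theorem Sol.rho_continuousAt {φ : ℝ} {z : ι → ℝ} {R : ι → X} {ρ : X → ℝ} (h : Sol φ z R ρ)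
    {x₀ : X} (hx : ∀ i, x₀ ≠ R i) : ContinuousAt ρ x₀ := by
  have h1 : ContinuousAt (fun x => tf (psi φ z R ρ x)) x₀ :=
    ContinuousAt.comp tf_continuous.continuousAt (psi_continuousAt h.tc hx)
  refine h1.congr ?_
  filter_upwards [off_open R hx] with x hx'
  exact (h.eq x hx').symm

/-- the nuclear potential has exact ball means -/
theorem Vn_mean (z : ι → ℝ) {R : ι → X} {x₀ : X} (hx : ∀ i, x₀ ≠ R i) :
    ∃ δ > 0, ∀ r, 0 < r → r < δ → IntegrableOn (Vn z R) (ball x₀ r) ∧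
      ∫ y in ball x₀ r, Vn z R y = 4 / 3 * Real.pi * r ^ 3 * Vn z R x₀ := by
  have h1 : ∀ᶠ r in 𝓝 (0 : ℝ), ∀ i, r < ‖x₀ - R i‖ := by
    rw [eventually_all]
    intro i
    exact gt_mem_nhds (norm_pos_iff.mpr (sub_ne_zero.mpr (hx i)))
  obtain ⟨δ, hδ, hb⟩ := Metric.eventually_nhds_iff.mp h1
  refine ⟨δ, hδ, fun r hr hrd => ?_⟩
  have h2 : ∀ i, r < ‖x₀ - R i‖ := hb (by
    rw [Real.dist_eq, sub_zero, abs_of_pos hr]; exact hrd)
  have h3 : ∀ i, IntegrableOn (fun y => z i * ‖y - R i‖⁻¹) (ball x₀ r) := fun i =>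
    ((mean_inv (hx i).symm hr).1).const_mul _
  constructor
  · exact integrable_finsetSum _ fun i _ => h3 i
  · unfold Vn
    rw [integral_finsetSum _ fun i _ => h3 i, Finset.mul_sum]
    refine Finset.sum_congr rfl fun i _ => ?_
    rw [integral_const_mul, (mean_inv (hx i).symm hr).2.2 (h2 i).le]
    ring

theorem ML_psi {φ : ℝ} {z : ι → ℝ} {R : ι → X} {ρ : X → ℝ} (h : Sol φ z R ρ) {x₀ : X}
    (hx : ∀ i, x₀ ≠ R i) :
    MLle (psi φ z R ρ) x₀ (4 * Real.pi * ρ x₀) ∧ MLge (psi φ z R ρ) x₀ (4 * Real.pi * ρ x₀) := by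
  obtain ⟨δ1, hδ1, hV⟩ := Vn_mean z hx
  obtain ⟨hp1, hp2⟩ := ML_pot h.tc (h.rho_continuousAt hx)
  have hint : ∀ {r : ℝ}, 0 < r → r < δ1 → IntegrableOn (pot ρ) (ball x₀ r) →
      IntegrableOn (psi φ z R ρ) (ball x₀ r) ∧ ∫ y in ball x₀ r, psi φ z R ρ y =
        4 / 3 * Real.pi * r ^ 3 * (Vn z R x₀ - φ) - ∫ y in ball x₀ r, pot ρ y := by
    intro r hr hrd ip
    obtain ⟨i1, e1⟩ := hV r hr hrd
    have i2 : IntegrableOn (fun _ : X => φ) (ball x₀ r) := int_ball (by fun_prop) x₀ r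
    have i12 : IntegrableOn (fun y => Vn z R y - pot ρ y) (ball x₀ r) := i1.sub ip
    refine ⟨i12.sub i2, ?_⟩
    unfold psi
    rw [integral_sub i12 i2, integral_sub i1 ip, e1, setIntegral_const, smul_eq_mul,
      vol_ball x₀ hr.le]
    ring
  constructor
  · intro ε hε
    obtain ⟨δ, hδ, hk⟩ := hp2 ε hε
    refine ⟨min δ δ1, lt_min hδ hδ1, fun r hr hrd => ?_⟩
    obtain ⟨ip, e2⟩ := hk r hr (hrd.trans_le (min_le_left _ _))
    obtain ⟨i3, e3⟩ := hint hr (hrd.trans_le (min_le_right _ _)) ip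
    refine ⟨i3, ?_⟩
    rw [e3]
    unfold psi
    have e4 : 4 / 3 * Real.pi * r ^ 3 * (Vn z R x₀ - pot ρ x₀ - φ +
        r ^ 2 / 10 * (4 * Real.pi * ρ x₀ + ε)) = 4 / 3 * Real.pi * r ^ 3 * (Vn z R x₀ - φ) -
        4 / 3 * Real.pi * r ^ 3 * (pot ρ x₀ + r ^ 2 / 10 * (-(4 * Real.pi * ρ x₀) - ε)) := by ring
    rw [e4]
    linarith
  · intro ε hε
    obtain ⟨δ, hδ, hk⟩ := hp1 ε hε
    refine ⟨min δ δ1, lt_min hδ hδ1, fun r hr hrd => ?_⟩
    obtain ⟨ip, e2⟩ := hk r hr (hrd.trans_le (min_le_left _ _))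
    obtain ⟨i3, e3⟩ := hint hr (hrd.trans_le (min_le_right _ _)) ip
    refine ⟨i3, ?_⟩
    rw [e3]
    unfold psi
    have e4 : 4 / 3 * Real.pi * r ^ 3 * (Vn z R x₀ - pot ρ x₀ - φ +
        r ^ 2 / 10 * (4 * Real.pi * ρ x₀ - ε)) = 4 / 3 * Real.pi * r ^ 3 * (Vn z R x₀ - φ) -
        4 / 3 * Real.pi * r ^ 3 * (pot ρ x₀ + r ^ 2 / 10 * (-(4 * Real.pi * ρ x₀) + ε)) := by ring
    rw [e4]
    linarith

/-! ### comparison with explicit functions -/

theorem tf_strict {a b : ℝ} (ha : 0 ≤ a) (hab : a < b) : tf a < tf b := by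
  have hb : 0 < b := lt_of_le_of_lt ha hab
  unfold tf
  rw [max_eq_left ha, max_eq_left hb.le]
  have h1 : √a < √b := Real.sqrt_lt_sqrt ha hab
  have h2 : 0 ≤ √a := Real.sqrt_nonneg a
  nlinarith

/-- minimum principle on an open set, for a function given there -/
theorem min_princ_on {D : Set X} (hD : IsOpen D) {u : X → ℝ} (hc : ∀ x ∈ D, ContinuousAt u x)
    (hfr : ∀ p ∈ frontier D, ∀ᶠ x in 𝓝 p, x ∈ D → 0 ≤ u x)
    (hinf : ∀ ε > 0, ∃ R', ∀ x ∈ D, R' ≤ ‖x‖ → -ε < u x)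
    (hL : ∀ x ∈ D, u x < 0 → ∃ L < 0, MLle u x L) : ∀ x ∈ D, 0 ≤ u x := by
  classical
  set w : X → ℝ := fun x => if x ∈ D then min (u x) 0 else 0 with hw
  have hwc : Continuous w := by
    rw [continuous_iff_continuousAt]
    intro x
    by_cases hx : x ∈ D
    · have h1 : w =ᶠ[𝓝 x] fun y => min (u y) 0 := by
        filter_upwards [hD.mem_nhds hx] with y hy
        simp only [hw]
        rw [if_pos hy]
      exact ContinuousAt.congr ((hc x hx).min continuousAt_const) h1.symm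
    · have h1 : w =ᶠ[𝓝 x] fun _ => (0 : ℝ) := by
        by_cases hf : x ∈ frontier D
        · filter_upwards [hfr x hf] with y hy
          simp only [hw]
          split_ifs with h
          · exact min_eq_right (hy h)
          · rfl
        · have h2 : x ∉ closure D := by
            intro h
            refine hf ⟨h, ?_⟩
            rw [hD.interior_eq]
            exact hx
          filter_upwards [isClosed_closure.isOpen_compl.mem_nhds h2] with y hy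
          simp only [hw]
          rw [if_neg fun h => hy (subset_closure h)]
      exact h1.continuousAt
  have hkey := min_princ hwc ?_ ?_
  · intro x hx
    have h1 := hkey x
    simp only [hw] at h1
    rw [if_pos hx] at h1
    exact (le_min_iff.mp h1).1
  · intro ε hε
    obtain ⟨R', hR'⟩ := hinf ε hε
    refine ⟨R', fun x hx => ?_⟩
    simp only [hw]
    split_ifs with h
    · exact lt_min (hR' x h hx) (by linarith)
    · linarith
  · intro x hx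
    have hxD : x ∈ D := by
      by_contra h
      simp only [hw] at hx
      rw [if_neg h] at hx
      exact lt_irrefl _ hx
    have hopen : IsOpen {y : X | w y < 0} := isOpen_lt hwc continuous_const
    obtain ⟨δ1, hδ1, hb1⟩ := Metric.isOpen_iff.mp hopen x hx
    have hwu : ∀ y ∈ ball x δ1, u y < 0 ∧ w y = u y := by
      intro y hy
      have h1 : w y < 0 := hb1 hy
      have hyD : y ∈ D := by
        by_contra h
        simp only [hw] at h1
        rw [if_neg h] at h1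
        exact lt_irrefl _ h1
      simp only [hw] at h1 ⊢
      rw [if_pos hyD] at h1 ⊢
      rcases min_lt_iff.mp h1 with h | h
      · exact ⟨h, min_eq_left h.le⟩
      · exact absurd h (lt_irrefl _)
    obtain ⟨h2, h3⟩ := hwu x (mem_ball_self hδ1)
    obtain ⟨L, hL0, hLm⟩ := hL x hxD h2
    obtain ⟨δ, hδ, hm⟩ := hLm.super hL0
    refine ⟨min δ δ1, lt_min hδ hδ1, fun r hr hrd => ?_⟩
    have h4 := hm r hr (hrd.trans_le (min_le_left _ _))
    rw [h3]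
    refine le_trans (le_of_eq ?_) h4
    refine setIntegral_congr_fun measurableSet_ball fun y hy => ?_
    exact (hwu y (ball_subset_ball (hrd.le.trans (min_le_right _ _)) hy)).2

/-- comparison with a supersolution -/
theorem psi_le_super {φ : ℝ} {z : ι → ℝ} {R : ι → X} {ρ : X → ℝ} (h : Sol φ z R ρ)
    {D : Set X} (hD : IsOpen D) (hRD : ∀ i, R i ∉ D) {U : X → ℝ}
    (hUc : ∀ x ∈ D, ContinuousAt U x)
    (hfr : ∀ p ∈ frontier D, ∀ᶠ x in 𝓝 p, x ∈ D → psi φ z R ρ x ≤ U x)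
    (hinf : ∀ ε > 0, ∃ R', ∀ x ∈ D, R' ≤ ‖x‖ → psi φ z R ρ x < U x + ε)
    (hL : ∀ x ∈ D, U x < psi φ z R ρ x → ∃ L, MLle U x L ∧
      L < 4 * Real.pi * tf (psi φ z R ρ x)) :
    ∀ x ∈ D, psi φ z R ρ x ≤ U x := by
  have hoff : ∀ x ∈ D, ∀ i, x ≠ R i := fun x hx i h1 => hRD i (h1 ▸ hx)
  have key := min_princ_on hD (u := fun x => U x + -psi φ z R ρ x)
    (fun x hx => (hUc x hx).add (psi_continuousAt h.tc (hoff x hx)).neg) ?_ ?_ ?_
  · intro x hx
    have := key x hx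
    linarith
  · intro p hp
    filter_upwards [hfr p hp] with x hx hxD
    have := hx hxD
    linarith
  · intro ε hε
    obtain ⟨R', hR'⟩ := hinf ε hε
    refine ⟨R', fun x hx hxR => ?_⟩
    have := hR' x hx hxR
    linarith
  · intro x hx hu
    obtain ⟨L, h1, h2⟩ := hL x hx (by linarith)
    refine ⟨L + -(4 * Real.pi * ρ x), ?_, h1.add (ML_psi h (hoff x hx)).2.neg⟩
    rw [h.eq x (hoff x hx)]
    unfold psi at h2
    linarith

/-- comparison with a nonnegative classical supersolution -/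
theorem psi_le_super' {φ : ℝ} {z : ι → ℝ} {R : ι → X} {ρ : X → ℝ} (h : Sol φ z R ρ)
    {D : Set X} (hD : IsOpen D) (hRD : ∀ i, R i ∉ D) {U : X → ℝ}
    (hUc : ∀ x ∈ D, ContinuousAt U x)
    (hfr : ∀ p ∈ frontier D, ∀ᶠ x in 𝓝 p, x ∈ D → psi φ z R ρ x ≤ U x)
    (hinf : ∀ ε > 0, ∃ R', ∀ x ∈ D, R' ≤ ‖x‖ → psi φ z R ρ x < U x + ε)
    (hU0 : ∀ x ∈ D, 0 ≤ U x)
    (hL : ∀ x ∈ D, MLle U x (4 * Real.pi * tf (U x))) :
    ∀ x ∈ D, psi φ z R ρ x ≤ U x := by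
  refine psi_le_super h hD hRD hUc hfr hinf fun x hx hlt => ⟨_, hL x hx, ?_⟩
  have := tf_strict (hU0 x hx) hlt
  have h4 : (0 : ℝ) < 4 * Real.pi := by positivity
  linarith [mul_lt_mul_of_pos_left this h4]

/-- comparison with a subsolution -/
theorem sub_le_psi {φ : ℝ} {z : ι → ℝ} {R : ι → X} {ρ : X → ℝ} (h : Sol φ z R ρ)
    {D : Set X} (hD : IsOpen D) (hRD : ∀ i, R i ∉ D) {U : X → ℝ}
    (hUc : ∀ x ∈ D, ContinuousAt U x)
    (hfr : ∀ p ∈ frontier D, ∀ᶠ x in 𝓝 p, x ∈ D → U x ≤ psi φ z R ρ x)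
    (hinf : ∀ ε > 0, ∃ R', ∀ x ∈ D, R' ≤ ‖x‖ → U x < psi φ z R ρ x + ε)
    (hL : ∀ x ∈ D, psi φ z R ρ x < U x → ∃ L, MLge U x L ∧
      4 * Real.pi * tf (psi φ z R ρ x) < L) :
    ∀ x ∈ D, U x ≤ psi φ z R ρ x := by
  have hoff : ∀ x ∈ D, ∀ i, x ≠ R i := fun x hx i h1 => hRD i (h1 ▸ hx)
  have key := min_princ_on hD (u := fun x => psi φ z R ρ x + -U x)
    (fun x hx => (psi_continuousAt h.tc (hoff x hx)).add (hUc x hx).neg) ?_ ?_ ?_
  · intro x hx
    have := key x hx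
    linarith
  · intro p hp
    filter_upwards [hfr p hp] with x hx hxD
    have := hx hxD
    linarith
  · intro ε hε
    obtain ⟨R', hR'⟩ := hinf ε hε
    refine ⟨R', fun x hx hxR => ?_⟩
    have := hR' x hx hxR
    linarith
  · intro x hx hu
    obtain ⟨L, h1, h2⟩ := hL x hx (by linarith)
    refine ⟨4 * Real.pi * ρ x + -L, ?_, (ML_psi h (hoff x hx)).1.add h1.neg⟩
    rw [h.eq x (hoff x hx)]
    unfold psi at h2
    linarith

end sol

end Pool.Agent.TF
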