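import Pool.Agent.Lib.MP_9cf0c9_mp.SecVar
import Pool.Agent.Lib.MP_9cf0c9_mp.Super
import Mathlib.Topology.ContinuousMap.Bounded.Normed
import Mathlib.Analysis.Normed.Ring.Units

/-! Linear theory of `-Δ + 4π g` for an admissible nonnegative weight `g` (for instance
`g = gam ψ`): existence and uniqueness of `u = b - pot (g u)`, the minimum principle with poles,
comparison. -/

set_option autoImplicit false
set_option linter.unusedSectionVars false
set_option linter.unusedVariables false
set_option linter.style.haveILetI false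

namespace Pool.Agent.TF
open MeasureTheory Set Metric Filter Topology BoundedContinuousFunction
open scoped ENNReal NNReal RealInnerProductSpace

variable {ι : Type*} [Fintype ι]

/-! ### admissible densities: order and sums -/

theorem TC.below {f g : X → ℝ} (hf : TC f) (hg : Measurable g) (h0 : ∀ x, 0 ≤ g x)
    (hle : ∀ x, g x ≤ f x) : TC g := by
  refine ⟨hg, h0, ?_, ?_⟩
  · refine hf.int.mono' hg.aestronglyMeasurable (Eventually.of_forall fun x => ?_)
    rw [Real.norm_of_nonneg (h0 x)]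
    exact hle x
  · refine hf.int53.mono' (hg.pow_const _).aestronglyMeasurable
      (Eventually.of_forall fun x => ?_)
    rw [Real.norm_of_nonneg (Real.rpow_nonneg (h0 x) _)]
    exact Real.rpow_le_rpow (h0 x) (hle x) (by norm_num)

theorem TC.add' {f g : X → ℝ} (hf : TC f) (hg : TC g) : TC (fun x => f x + g x) := by
  have h := (hf.comb hg (a := 1 / 2) (b := 1 / 2) (by norm_num) (by norm_num) (by norm_num)).1
  have h2 := h.cmul (c := 2) (by norm_num)
  have e : (fun x => 2 * (1 / 2 * f x + 1 / 2 * g x)) = fun x => f x + g x := by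
    funext x
    ring
  rwa [e] at h2

theorem TC.pot_add' {f g : X → ℝ} (hf : TC f) (hg : TC g) (x : X) :
    pot (fun y => f y + g y) x = pot f x + pot g x := by
  unfold pot
  rw [← integral_add (hf.pot_integrable x) (hg.pot_integrable x)]
  refine integral_congr_ae (Eventually.of_forall fun y => ?_)
  simp only
  ring

theorem TC.mul_bdd {g u : X → ℝ} (hg : TC g) (hu : Measurable u) (h0 : ∀ x, 0 ≤ u x) {B : ℝ}
    (hB : ∀ x, u x ≤ B) : TC (fun x => g x * u x) := by
  have hB0 : 0 ≤ B := (h0 0).trans (hB 0)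
  refine (hg.cmul hB0).below (hg.meas.mul hu) (fun x => mul_nonneg (hg.nonneg x) (h0 x))
    fun x => ?_
  have := mul_le_mul_of_nonneg_left (hB x) (hg.nonneg x)
  linarith

/-! ### signed weights -/

/-- `g u` is a difference of admissible densities -/
structure WC (g u : X → ℝ) : Prop where
  meas : Measurable u
  pos : TC (fun x => g x * max (u x) 0)
  neg : TC (fun x => g x * max (-u x) 0)

theorem max_sub_max_neg (a : ℝ) : max a 0 - max (-a) 0 = a := by
  rcases le_total a 0 with h | h
  · rw [max_eq_right h, max_eq_left (by linarith)]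
    ring
  · rw [max_eq_left h, max_eq_right (by linarith)]
    ring

theorem wc_split (g u : X → ℝ) (x : X) :
    g x * u x = g x * max (u x) 0 - g x * max (-u x) 0 := by
  rw [← mul_sub, max_sub_max_neg]

theorem WC.of_nonneg {g u : X → ℝ} (hu : Measurable u) (h0 : ∀ x, 0 ≤ u x)
    (h : TC (fun x => g x * u x)) : WC g u := by
  have e1 : (fun x => g x * max (u x) 0) = fun x => g x * u x := by
    funext x
    rw [max_eq_left (h0 x)]
  have e2 : (fun x => g x * max (-u x) 0) = fun _ => 0 := by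
    funext x
    rw [max_eq_right (by have := h0 x; linarith), mul_zero]
  refine ⟨hu, ?_, ?_⟩
  · rw [e1]
    exact h
  · rw [e2]
    exact BC.zero.toTC fun _ => le_rfl

theorem WC.neg' {g u : X → ℝ} (h : WC g u) : WC g (fun x => -u x) := by
  refine ⟨h.meas.neg, h.neg, ?_⟩
  have e : (fun x => g x * max (- -u x) 0) = fun x => g x * max (u x) 0 := by
    funext x
    rw [neg_neg]
  rw [e]
  exact h.pos

theorem WC.add {g u v : X → ℝ} (hg : Measurable g) (hg0 : ∀ x, 0 ≤ g x) (h : WC g u)
    (h' : WC g v) : WC g (fun x => u x + v x) := by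
  have hm : Measurable fun x => u x + v x := h.meas.add h'.meas
  refine ⟨hm, ?_, ?_⟩
  · refine (h.pos.add' h'.pos).below (hg.mul (hm.max measurable_const))
      (fun x => mul_nonneg (hg0 x) (le_max_right _ _)) fun x => ?_
    have h1 : max (u x + v x) 0 ≤ max (u x) 0 + max (v x) 0 := by
      refine max_le (add_le_add (le_max_left _ _) (le_max_left _ _)) ?_
      exact add_nonneg (le_max_right _ _) (le_max_right _ _)
    have h2 := mul_le_mul_of_nonneg_left h1 (hg0 x)
    linarith
  · refine (h.neg.add' h'.neg).below (hg.mul (hm.neg.max measurable_const))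
      (fun x => mul_nonneg (hg0 x) (le_max_right _ _)) fun x => ?_
    have h1 : max (-(u x + v x)) 0 ≤ max (-u x) 0 + max (-v x) 0 := by
      refine max_le ?_ ?_
      · have e : -(u x + v x) = -u x + -v x := by ring
        rw [e]
        exact add_le_add (le_max_left _ _) (le_max_left _ _)
      · exact add_nonneg (le_max_right _ _) (le_max_right _ _)
    have h2 := mul_le_mul_of_nonneg_left h1 (hg0 x)
    linarith

theorem WC.smul_nonneg {g u : X → ℝ} (h : WC g u) {c : ℝ} (hc : 0 ≤ c) :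
    WC g (fun x => c * u x) := by
  have e1 : (fun x => g x * max (c * u x) 0) = fun x => c * (g x * max (u x) 0) := by
    funext x
    have : max (c * u x) 0 = c * max (u x) 0 := by
      rw [mul_max_of_nonneg _ _ hc, mul_zero]
    rw [this]
    ring
  have e2 : (fun x => g x * max (-(c * u x)) 0) = fun x => c * (g x * max (-u x) 0) := by
    funext x
    have : max (-(c * u x)) 0 = c * max (-u x) 0 := by
      rw [mul_max_of_nonneg _ _ hc, mul_zero]
      ring_nf
    rw [this]
    ring
  refine ⟨h.meas.const_mul c, ?_, ?_⟩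
  · rw [e1]
    exact h.pos.cmul hc
  · rw [e2]
    exact h.neg.cmul hc

theorem WC.smul {g u : X → ℝ} (h : WC g u) (c : ℝ) : WC g (fun x => c * u x) := by
  rcases le_total 0 c with hc | hc
  · exact h.smul_nonneg hc
  · have h1 := (h.smul_nonneg (c := -c) (by linarith)).neg'
    have e : (fun x => -(-c * u x)) = fun x => c * u x := by
      funext x
      ring
    rwa [e] at h1

theorem WC.sub {g u v : X → ℝ} (hg : Measurable g) (hg0 : ∀ x, 0 ≤ g x) (h : WC g u)
    (h' : WC g v) : WC g (fun x => u x - v x) := by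
  have h1 := h.add hg hg0 h'.neg'
  have e : (fun x => u x + -v x) = fun x => u x - v x := by
    funext x
    ring
  rwa [e] at h1

theorem WC.of_bdd {g u : X → ℝ} (hg : TC g) (hu : Measurable u) {B : ℝ} (hB : ∀ x, |u x| ≤ B) :
    WC g u := by
  have hB0 : 0 ≤ B := (abs_nonneg _).trans (hB 0)
  refine ⟨hu, hg.mul_bdd (hu.max measurable_const) (fun x => le_max_right _ _)
    (B := B) fun x => max_le ((le_abs_self _).trans (hB x)) hB0,
    hg.mul_bdd (hu.neg.max measurable_const) (fun x => le_max_right _ _)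
    (B := B) fun x => max_le ((neg_le_abs _).trans (hB x)) hB0⟩

theorem WC.int {g u : X → ℝ} (h : WC g u) : Integrable (fun x => g x * u x) := by
  simp_rw [wc_split g u]
  exact h.pos.int.sub h.neg.int

theorem WC.pot_int {g u : X → ℝ} (h : WC g u) (x : X) :
    Integrable (fun y => ‖x - y‖⁻¹ * (g y * u y)) := by
  have h1 := (h.pos.pot_integrable x).sub (h.neg.pot_integrable x)
  refine h1.congr (Eventually.of_forall fun y => ?_)
  simp only [Pi.sub_apply]
  rw [wc_split g u]
  ring

/-- the potential of `g u` -/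
noncomputable def pw (g u : X → ℝ) (x : X) : ℝ := pot (fun y => g y * u y) x

theorem WC.pw_eq {g u : X → ℝ} (h : WC g u) (x : X) :
    pw g u x = pot (fun y => g y * max (u y) 0) x - pot (fun y => g y * max (-u y) 0) x := by
  unfold pw pot
  rw [← integral_sub (h.pos.pot_integrable x) (h.neg.pot_integrable x)]
  refine integral_congr_ae (Eventually.of_forall fun y => ?_)
  simp only
  rw [wc_split g u]
  ring

theorem WC.pw_continuous {g u : X → ℝ} (h : WC g u) : Continuous (pw g u) := by
  have e : pw g u = fun x => pot (fun y => g y * max (u y) 0) x -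
      pot (fun y => g y * max (-u y) 0) x := funext h.pw_eq
  rw [e]
  exact h.pos.pot_continuous.sub h.neg.pot_continuous

theorem WC.pw_bdd {g u : X → ℝ} (h : WC g u) : ∃ B, ∀ x, |pw g u x| ≤ B := by
  refine ⟨tcB (fun y => g y * max (u y) 0) + tcB (fun y => g y * max (-u y) 0), fun x => ?_⟩
  rw [h.pw_eq]
  have h1 := h.pos.pot_le x
  have h2 := h.neg.pot_le x
  have h3 := pot_nonneg h.pos.nonneg x
  have h4 := pot_nonneg h.neg.nonneg x
  rw [abs_le]
  constructor <;> linarith

theorem WC.pw_decay {g u : X → ℝ} (h : WC g u) {ε : ℝ} (hε : 0 < ε) :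
    ∃ R', ∀ x, R' ≤ ‖x‖ → |pw g u x| < ε := by
  obtain ⟨R1, h1⟩ := h.pos.pot_decay hε
  obtain ⟨R2, h2⟩ := h.neg.pot_decay hε
  refine ⟨max R1 R2, fun x hx => ?_⟩
  have h3 := h1 x ((le_max_left _ _).trans hx)
  have h4 := h2 x ((le_max_right _ _).trans hx)
  have h5 := pot_nonneg h.pos.nonneg x
  have h6 := pot_nonneg h.neg.nonneg x
  rw [h.pw_eq, abs_lt]
  constructor <;> linarith

theorem WC.pw_add {g u v : X → ℝ} (h : WC g u) (h' : WC g v) (x : X) :
    pw g (fun y => u y + v y) x = pw g u x + pw g v x := by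
  unfold pw pot
  rw [← integral_add (h.pot_int x) (h'.pot_int x)]
  refine integral_congr_ae (Eventually.of_forall fun y => ?_)
  simp only
  ring

theorem WC.pw_sub {g u v : X → ℝ} (h : WC g u) (h' : WC g v) (x : X) :
    pw g (fun y => u y - v y) x = pw g u x - pw g v x := by
  unfold pw pot
  rw [← integral_sub (h.pot_int x) (h'.pot_int x)]
  refine integral_congr_ae (Eventually.of_forall fun y => ?_)
  simp only
  ring

theorem pw_smul (g u : X → ℝ) (c : ℝ) (x : X) : pw g (fun y => c * u y) x = c * pw g u x := by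
  unfold pw pot
  rw [← integral_const_mul]
  refine integral_congr_ae (Eventually.of_forall fun y => ?_)
  simp only
  ring

theorem pw_abs_le {g u : X → ℝ} (hg : TC g) (hu : Measurable u) {B : ℝ} (hB : ∀ x, |u x| ≤ B)
    (x : X) : |pw g u x| ≤ B * pot g x := by
  have h := WC.of_bdd hg hu hB
  unfold pw pot
  rw [← integral_const_mul, ← Real.norm_eq_abs]
  refine (norm_integral_le_integral_norm _).trans ?_
  refine integral_mono (h.pot_int x).norm ((hg.pot_integrable x).const_mul B) fun y => ?_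
  simp only
  have h1 : 0 ≤ ‖x - y‖⁻¹ := by positivity
  have h2 := hg.nonneg y
  rw [norm_mul, norm_mul, Real.norm_eq_abs (u y), Real.norm_of_nonneg h1, Real.norm_of_nonneg h2]
  have h3 := mul_le_mul_of_nonneg_left (hB y) (mul_nonneg h1 h2)
  linarith

/-! ### the minimum principle -/

/-- minimum principle: `w = c + (nuclear potential) + pot p - pot q` with `q ≤ p` where `w < 0` -/
theorem lin_min {z : ι → ℝ} (hz : ∀ i, 0 ≤ z i) (R : ι → X) {c : ℝ} (hc : 0 ≤ c) {p q : X → ℝ}
    (hp : TC p) (hq : TC q)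
    (hneg : ∀ᵐ x : X, c + Vn z R x + (pot p x - pot q x) < 0 → q x ≤ p x) :
    ∀ x, (∀ i, 0 < z i → x ≠ R i) → 0 ≤ c + Vn z R x + (pot p x - pot q x) := by
  classical
  intro x hx
  set S : Set X := {p | ∃ i, 0 < z i ∧ p = R i} with hSdef
  have hS : S.Finite := by
    refine (Set.finite_range R).subset ?_
    rintro p ⟨i, -, rfl⟩
    exact ⟨i, rfl⟩
  set u : X → ℝ := fun x => c + Vn z R x + (pot p x - pot q x) with hu
  have hpc : Continuous (fun x => pot p x - pot q x) := hp.pot_continuous.sub hq.pot_continuous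
  have hcont : ∀ x, x ∉ S → ContinuousAt u x := by
    intro x hx
    have h1 : ContinuousAt (fun x => ∑ i, z i * ‖x - R i‖⁻¹) x := by
      refine tendsto_finsetSum _ fun i _ => ?_
      rcases (hz i).lt_or_eq with h2 | h2
      · have h3 : x - R i ≠ 0 := by
          intro h4
          exact hx ⟨i, h2, sub_eq_zero.mp h4⟩
        have h4 : ContinuousAt (fun x => z i * ‖x - R i‖⁻¹) x := by
          refine ContinuousAt.mul continuousAt_const (ContinuousAt.inv₀ (by fun_prop) ?_)
          exact norm_ne_zero_iff.mpr h3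
        exact h4
      · rw [← h2]
        simp
    exact (continuousAt_const.add h1).add hpc.continuousAt
  have hpos : ∀ x : X, 0 ≤ Vn z R x := Vn_nonneg hz R
  have hxS : x ∉ S := by
    rintro ⟨i, hi, hi'⟩
    exact hx i hi hi'
  refine min_princ_poles hS hcont ?_ ?_ ?_ x hxS
  · rintro p' ⟨i, hi, rfl⟩
    have h1 : Tendsto (fun x : X => z i * ‖x - R i‖⁻¹) (𝓝[≠] (R i)) atTop := by
      refine Tendsto.const_mul_atTop hi ?_
      refine tendsto_inv_nhdsGT_zero.comp ?_
      rw [tendsto_nhdsWithin_iff]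
      constructor
      · have h2 : ContinuousAt (fun x : X => ‖x - R i‖) (R i) := by fun_prop
        have h3 : Tendsto (fun x : X => ‖x - R i‖) (𝓝 (R i)) (𝓝 ‖R i - R i‖) := h2
        rw [sub_self, norm_zero] at h3
        exact h3.mono_left nhdsWithin_le_nhds
      · filter_upwards [self_mem_nhdsWithin] with x hx
        exact norm_pos_iff.mpr (sub_ne_zero.mpr hx)
    have h2 : Tendsto (fun x : X => pot p x - pot q x) (𝓝[≠] (R i))
        (𝓝 (pot p (R i) - pot q (R i))) := (hpc.tendsto (R i)).mono_left nhdsWithin_le_nhds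
    have h3 := h1.atTop_add h2
    filter_upwards [h3.eventually_ge_atTop 0] with x hx
    simp only [hu]
    have h4 : z i * ‖x - R i‖⁻¹ ≤ Vn z R x :=
      Finset.single_le_sum (f := fun i => z i * ‖x - R i‖⁻¹)
        (fun j _ => mul_nonneg (hz j) (by positivity)) (Finset.mem_univ i)
    linarith
  · intro ε hε
    obtain ⟨R', hR'⟩ := hq.pot_decay hε
    refine ⟨R', fun x hx => ?_⟩
    have h1 := hR' x hx
    have h2 := hpos x
    have h3 : 0 ≤ pot p x := pot_nonneg hp.nonneg x
    simp only [hu]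
    linarith
  · rintro x hxS hux ⟨δ, hδ, hb⟩
    refine ⟨δ, hδ, fun r hr hrd => ?_⟩
    have hle : ∀ᵐ y : X, y ∈ ball x r → q y ≤ p y := by
      filter_upwards [hneg] with y hy hyb
      exact hy (hb y (ball_subset_ball hrd.le hyb)).2
    have h1 := hp.mean_sub_le hq hr hle
    have hm : ∀ i, IntegrableOn (fun y => z i * ‖y - R i‖⁻¹) (ball x r) ∧
        ∫ y in ball x r, z i * ‖y - R i‖⁻¹ ≤
          4 / 3 * Real.pi * r ^ 3 * (z i * ‖x - R i‖⁻¹) := by
      intro i
      rcases (hz i).lt_or_eq with h2 | h2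
      · have h3 : R i ≠ x := fun h4 => hxS ⟨i, h2, h4.symm⟩
        obtain ⟨m1, m2, -⟩ := mean_inv h3 hr
        refine ⟨m1.const_mul _, ?_⟩
        rw [integral_const_mul]
        have := mul_le_mul_of_nonneg_left m2 (hz i)
        linarith
      · rw [← h2]
        simp
    have hsum : ∫ y in ball x r, Vn z R y ≤ 4 / 3 * Real.pi * r ^ 3 * Vn z R x := by
      unfold Vn
      rw [integral_finsetSum _ fun i _ => (hm i).1, Finset.mul_sum]
      exact Finset.sum_le_sum fun i _ => (hm i).2
    have i1 : IntegrableOn (fun y => Vn z R y) (ball x r) :=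
      integrable_finsetSum _ fun i _ => (hm i).1
    have i2 : IntegrableOn (fun y => pot p y - pot q y) (ball x r) :=
      (hpc.continuousOn.integrableOn_compact (isCompact_closedBall x r)).mono_set
        ball_subset_closedBall
    have i3 : IntegrableOn (fun _ : X => c) (ball x r) := integrableOn_const (by finiteness)
    have e1 : ∫ y in ball x r, u y = (∫ y in ball x r, (fun _ => c) y) +
        (∫ y in ball x r, Vn z R y) + ∫ y in ball x r, (pot p y - pot q y) := by
      have i12 : IntegrableOn (fun y => c + Vn z R y) (ball x r) := i3.add i1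
      simp only [hu]
      rw [integral_add i12 i2, integral_add i3 i1]
    rw [e1]
    simp only
    rw [setIntegral_const, smul_eq_mul, vol_ball x hr.le]
    simp only [hu]
    nlinarith [h1, hsum]

/-- the same without poles, at every point -/
theorem lin_min0 {c : ℝ} (hc : 0 ≤ c) {p q : X → ℝ} (hp : TC p) (hq : TC q)
    (hneg : ∀ᵐ x : X, c + (pot p x - pot q x) < 0 → q x ≤ p x) (x : X) :
    0 ≤ c + (pot p x - pot q x) := by
  have h := lin_min (ι := Fin 0) (z := fun _ => (0 : ℝ)) (fun _ => le_rfl) (fun _ => (0 : X)) hc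
    hp hq ?_ x (fun i hi => absurd hi (lt_irrefl _))
  · simpa [Vn] using h
  · filter_upwards [hneg] with y hy hy2
    refine hy ?_
    simpa [Vn] using hy2

/-! ### the a priori bound -/

theorem lin_apriori_le {g : X → ℝ} (hg : TC g) {s : ℝ} (hs : 0 ≤ s) {u b : X → ℝ}
    (hu : Measurable u) {B B' : ℝ} (hB' : ∀ x, |u x| ≤ B') (hB : ∀ x, b x ≤ B) (hB0 : 0 ≤ B)
    (h : ∀ x, u x + s * pw g u x = b x) (x : X) : s * pw g u x ≤ B := by
  have hw := WC.of_bdd hg hu hB'
  have hp := hw.neg.cmul hs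
  have hq := hw.pos.cmul hs
  have e : ∀ x, pot (fun y => s * (g y * max (-u y) 0)) x -
      pot (fun y => s * (g y * max (u y) 0)) x = -(s * pw g u x) := by
    intro x
    rw [pot_const_mul, pot_const_mul, hw.pw_eq]
    ring
  have key := lin_min0 hB0 hp hq ?_ x
  · rw [e] at key
    linarith
  · refine Eventually.of_forall fun y hy => ?_
    rw [e] at hy
    have h1 := h y
    have h2 := hB y
    have h3 : u y ≤ 0 := by linarith
    have h4 : g y * max (u y) 0 = 0 := by rw [max_eq_right h3, mul_zero]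
    rw [h4, mul_zero]
    exact mul_nonneg hs (hw.neg.nonneg y)

theorem lin_apriori {g : X → ℝ} (hg : TC g) {s : ℝ} (hs : 0 ≤ s) {u b : X → ℝ}
    (hu : Measurable u) {B B' : ℝ} (hB' : ∀ x, |u x| ≤ B') (hB : ∀ x, |b x| ≤ B)
    (h : ∀ x, u x + s * pw g u x = b x) (x : X) : |u x| ≤ 2 * B := by
  have hB0 : 0 ≤ B := (abs_nonneg _).trans (hB 0)
  have h1 := lin_apriori_le hg hs hu hB' (fun x => (le_abs_self _).trans (hB x)) hB0 h x
  have h2 := lin_apriori_le hg hs (u := fun x => -1 * u x) (b := fun x => -b x)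
    (hu.const_mul (-1)) (B' := B') (fun x => by
      rw [abs_mul, abs_neg, abs_one, one_mul]
      exact hB' x)
    (fun x => (neg_le_abs _).trans (hB x)) hB0 (fun x => by
      rw [pw_smul]
      have := h x
      linarith) x
  rw [pw_smul] at h2
  have h3 := h x
  have h4 := abs_le.mp (hB x)
  rw [abs_le]
  constructor <;> linarith

/-! ### existence -/

theorem bcf_abs_le (u : X →ᵇ ℝ) (x : X) : |u x| ≤ ‖u‖ := by
  rw [← Real.norm_eq_abs]
  exact u.norm_coe_le_norm x

theorem bcf_WC {g : X → ℝ} (hg : TC g) (u : X →ᵇ ℝ) : WC g u :=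
  WC.of_bdd hg u.continuous.measurable (bcf_abs_le u)

theorem bcf_pw_le {g : X → ℝ} (hg : TC g) (u : X →ᵇ ℝ) (x : X) : |pw g u x| ≤ tcB g * ‖u‖ := by
  refine (pw_abs_le hg u.continuous.measurable (bcf_abs_le u) x).trans ?_
  have := mul_le_mul_of_nonneg_left (hg.pot_le x) (norm_nonneg u)
  linarith

theorem tcB_nonneg' {g : X → ℝ} (hg : TC g) : 0 ≤ tcB g :=
  (pot_nonneg hg.nonneg 0).trans (hg.pot_le 0)

/-- `u ↦ pot (g u)` as an operator on bounded continuous functions -/
noncomputable def linT {g : X → ℝ} (hg : TC g) : (X →ᵇ ℝ) →L[ℝ] (X →ᵇ ℝ) :=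
  LinearMap.mkContinuous
    { toFun := fun u => BoundedContinuousFunction.ofNormedAddCommGroup (pw g u)
        (bcf_WC hg u).pw_continuous (tcB g * ‖u‖) fun x => by
          rw [Real.norm_eq_abs]
          exact bcf_pw_le hg u x
      map_add' := fun u v => by
        ext x
        simp only [BoundedContinuousFunction.coe_ofNormedAddCommGroup,
          BoundedContinuousFunction.coe_add, Pi.add_apply]
        exact (bcf_WC hg u).pw_add (bcf_WC hg v) x
      map_smul' := fun c u => by
        ext x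
        simp only [BoundedContinuousFunction.coe_ofNormedAddCommGroup,
          BoundedContinuousFunction.coe_smul, RingHom.id_apply, smul_eq_mul]
        exact pw_smul g u c x }
    (tcB g) fun u => by
      refine (BoundedContinuousFunction.norm_le (mul_nonneg (tcB_nonneg' hg)
        (norm_nonneg _))).mpr fun x => ?_
      rw [Real.norm_eq_abs]
      exact bcf_pw_le hg u x

theorem linT_apply {g : X → ℝ} (hg : TC g) (u : X →ᵇ ℝ) (x : X) : linT hg u x = pw g u x := rfl

theorem cont_unit {A : Type*} [NormedRing A] [NormedAlgebra ℝ A] [CompleteSpace A] [Nontrivial A]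
    (T : A) (hap : ∀ s : ℝ, 0 ≤ s → ∀ U : Aˣ, (U : A) = 1 + s • T → ‖(U⁻¹ : Aˣ).val‖ ≤ 2)
    {δ : ℝ} (hδ : 0 ≤ δ) (hδ1 : 4 * (δ * ‖T‖) ≤ 1) (n : ℕ) : IsUnit (1 + (n * δ) • T) := by
  induction n with
  | zero =>
    have : (1 : A) + (((0 : ℕ) : ℝ) * δ) • T = 1 := by simp
    rw [this]
    exact isUnit_one
  | succ n ih =>
    obtain ⟨U, hU⟩ := ih
    have hbound := hap _ (by positivity) U hU
    have hne : (0 : ℝ) < ‖(U⁻¹ : Aˣ).val‖ := Units.norm_pos _
    have hlt : ‖(1 + (((n + 1 : ℕ) : ℝ) * δ) • T) - (U : A)‖ < ‖(U⁻¹ : Aˣ).val‖⁻¹ := by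
      have e : (1 + (((n + 1 : ℕ) : ℝ) * δ) • T) - (U : A) = δ • T := by
        rw [hU, add_sub_add_left_eq_sub, ← sub_smul]
        congr 1
        push_cast
        ring
      rw [e, norm_smul, Real.norm_of_nonneg hδ]
      have h4 : (2 : ℝ)⁻¹ ≤ ‖(U⁻¹ : Aˣ).val‖⁻¹ := inv_anti₀ hne hbound
      linarith
    exact ⟨Units.ofNearby U _ hlt, rfl⟩

/-- method of continuity: an a priori bound for all `s ≥ 0` gives solvability -/
theorem solve_of_apriori {E : Type*} [NormedAddCommGroup E] [NormedSpace ℝ E] [CompleteSpace E]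
    [Nontrivial E] (T : E →L[ℝ] E)
    (hap : ∀ s : ℝ, 0 ≤ s → ∀ u : E, ‖u‖ ≤ 2 * ‖u + s • T u‖) (b : E) : ∃ u, u + T u = b := by
  obtain ⟨N, hN⟩ := exists_nat_gt (4 * ‖T‖)
  have hN0 : (0 : ℝ) < N := lt_of_le_of_lt (by positivity) hN
  have h1 := cont_unit T (fun s hs U hU => by
    refine ContinuousLinearMap.opNorm_le_bound _ (by norm_num) fun b => ?_
    have h1 : (U : E →L[ℝ] E) ((U⁻¹ : (E →L[ℝ] E)ˣ).val b) = b := by
      rw [← mul_apply_eq_comp, Units.mul_inv, one_apply_eq_self]
    have h2 := hap s hs ((U⁻¹ : (E →L[ℝ] E)ˣ).val b)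
    have h3 : (U : E →L[ℝ] E) ((U⁻¹ : (E →L[ℝ] E)ˣ).val b) =
        (U⁻¹ : (E →L[ℝ] E)ˣ).val b + s • T ((U⁻¹ : (E →L[ℝ] E)ˣ).val b) := by
      rw [hU]
      rfl
    rw [h3] at h1
    rwa [h1] at h2) (δ := (N : ℝ)⁻¹) (by positivity) (by
    have h2 : 4 * ((N : ℝ)⁻¹ * ‖T‖) = 4 * ‖T‖ / N := by
      field_simp
    rw [h2, div_le_one hN0]
    exact hN.le) N
  rw [mul_inv_cancel₀ hN0.ne', one_smul] at h1
  obtain ⟨U, hU⟩ := h1
  refine ⟨(U⁻¹ : (E →L[ℝ] E)ˣ).val b, ?_⟩
  have h1 : (U : E →L[ℝ] E) ((U⁻¹ : (E →L[ℝ] E)ˣ).val b) = b := by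
    rw [← mul_apply_eq_comp, Units.mul_inv, one_apply_eq_self]
  have h3 : (U : E →L[ℝ] E) ((U⁻¹ : (E →L[ℝ] E)ˣ).val b) =
      (U⁻¹ : (E →L[ℝ] E)ˣ).val b + T ((U⁻¹ : (E →L[ℝ] E)ˣ).val b) := by
    rw [hU]
    rfl
  rw [← h3]
  exact h1

/-- the linear equation has a bounded continuous solution for bounded continuous data -/
theorem exists_lin {g : X → ℝ} (hg : TC g) (b : X →ᵇ ℝ) :
    ∃ u : X →ᵇ ℝ, ∀ x, u x = b x - pw g u x := by
  haveI : Nontrivial (X →ᵇ ℝ) := by
    refine ⟨0, BoundedContinuousFunction.const X 1, fun h => ?_⟩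
    have h1 : (0 : X →ᵇ ℝ) (0 : X) = BoundedContinuousFunction.const X (1 : ℝ) (0 : X) := by
      rw [h]
    have h2 : (0 : ℝ) = 1 := h1
    norm_num at h2
  obtain ⟨u, hu⟩ := solve_of_apriori (linT hg) (fun s hs u => by
    set b : X →ᵇ ℝ := u + s • linT hg u with hb
    refine (BoundedContinuousFunction.norm_le (by positivity)).mpr fun x => ?_
    rw [Real.norm_eq_abs]
    exact lin_apriori hg hs u.continuous.measurable (bcf_abs_le u) (bcf_abs_le b)
      (fun x => rfl) x) b
  refine ⟨u, fun x => ?_⟩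
  have h1 : u x + pw g u x = b x := by
    rw [← linT_apply hg, ← hu]
    rfl
  linarith

/-! ### solutions -/

/-- `u = b - pot (g u)` -/
structure Lin (g b u : X → ℝ) : Prop where
  wc : WC g u
  eq : ∀ x, u x = b x - pw g u x

/-- general existence: the data may be any `b₀ + b₁` with `b₀` bounded continuous and `g b₁` a
difference of admissible densities (for instance nuclear potentials) -/
theorem exists_Lin {g : X → ℝ} (hg : TC g) (b₀ : X →ᵇ ℝ) {b₁ : X → ℝ} (h₁ : WC g b₁) :
    ∃ u, Lin g (fun x => b₁ x + b₀ x) u ∧ ∃ v : X →ᵇ ℝ, ∀ x, u x = b₁ x + v x := by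
  obtain ⟨B, hB⟩ := h₁.pw_bdd
  set c : X →ᵇ ℝ := BoundedContinuousFunction.ofNormedAddCommGroup (fun x => b₀ x - pw g b₁ x)
    (b₀.continuous.sub h₁.pw_continuous) (‖b₀‖ + B) (fun x => by
      rw [Real.norm_eq_abs]
      exact (abs_sub _ _).trans (add_le_add (bcf_abs_le b₀ x) (hB x))) with hc
  obtain ⟨v, hv⟩ := exists_lin hg c
  have hw : WC g (fun x => b₁ x + v x) := h₁.add hg.meas hg.nonneg (bcf_WC hg v)
  refine ⟨fun x => b₁ x + v x, ⟨hw, fun x => ?_⟩, v, fun x => rfl⟩
  rw [h₁.pw_add (bcf_WC hg v), hv x]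
  change b₁ x + ((b₀ x - pw g b₁ x) - pw g v x) = _
  ring

section cmp
variable {g g' b b' u u' : X → ℝ}

theorem Lin.meas (h : Lin g b u) : Measurable u := h.wc.meas

theorem Lin.sub_eq (h : Lin g b u) (h' : Lin g' b' u') (x : X) :
    u x - u' x = (b x - b' x) + (pw g' u' x - pw g u x) := by
  rw [h.eq x, h'.eq x]
  ring

/-- comparison of two linear problems: larger data and a smaller weight give a larger solution,
if the smaller solution is nonnegative -/
theorem Lin.mono (h : Lin g b u) (h' : Lin g' b' u') (hg0 : ∀ x, 0 ≤ g x)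
    {z : ι → ℝ} (hz : ∀ i, 0 ≤ z i) (R : ι → X)
    {c : ℝ} (hc : 0 ≤ c) {f : X → ℝ} (hf : TC f)
    (hb : ∀ x, b x - b' x = c + Vn z R x + pot f x)
    (hgg : ∀ᵐ x : X, g x ≤ g' x) (hu' : ∀ᵐ x : X, 0 ≤ u' x) :
    ∀ x, (∀ i, 0 < z i → x ≠ R i) → u' x ≤ u x := by
  have hp : TC fun x => f x + (g' x * max (u' x) 0 + g x * max (-u x) 0) :=
    hf.add' (h'.wc.pos.add' h.wc.neg)
  have hq : TC fun x => g' x * max (-u' x) 0 + g x * max (u x) 0 := h'.wc.neg.add' h.wc.pos
  have e : ∀ x, c + Vn z R x + (pot (fun x => f x + (g' x * max (u' x) 0 + g x * max (-u x) 0)) x -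
      pot (fun x => g' x * max (-u' x) 0 + g x * max (u x) 0) x) = u x - u' x := by
    intro x
    rw [h.sub_eq h' x, hb x, h'.wc.pw_eq, h.wc.pw_eq, hf.pot_add' (h'.wc.pos.add' h.wc.neg),
      h'.wc.pos.pot_add' h.wc.neg, h'.wc.neg.pot_add' h.wc.pos]
    ring
  intro x hx
  have key := lin_min hz R hc hp hq ?_ x hx
  · rw [e] at key
    linarith
  · filter_upwards [hgg, hu'] with y hy1 hy2 hy3
    rw [e] at hy3
    have h1 : max (-u' y) 0 = 0 := max_eq_right (by linarith)
    have h2 : max (u' y) 0 = u' y := max_eq_left hy2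
    rw [h1, h2, mul_zero, zero_add]
    have h3 : g y * max (u y) 0 ≤ g' y * u' y := by
      rcases le_total (u y) 0 with h | h
      · rw [max_eq_right h, mul_zero]
        exact mul_nonneg ((hg0 y).trans hy1) hy2
      · rw [max_eq_left h]
        exact mul_le_mul hy1 (by linarith) h ((hg0 y).trans hy1)
    have h4 := hf.nonneg y
    have h5 := h.wc.neg.nonneg y
    linarith

/-- solutions with nonnegative superharmonic data are nonnegative -/
theorem Lin.nonneg (h : Lin g b u) (hg : TC g)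
    {z : ι → ℝ} (hz : ∀ i, 0 ≤ z i) (R : ι → X) {c : ℝ} (hc : 0 ≤ c) {f : X → ℝ} (hf : TC f)
    (hb : ∀ x, b x = c + Vn z R x + pot f x) :
    ∀ x, (∀ i, 0 < z i → x ≠ R i) → 0 ≤ u x := by
  have h0 : Lin g (fun _ => 0) (fun _ => 0) := by
    refine ⟨WC.of_nonneg measurable_const (fun _ => le_rfl) ?_, fun x => ?_⟩
    · simp only [mul_zero]
      exact BC.zero.toTC fun _ => le_rfl
    · unfold pw pot
      simp
  exact h.mono h0 hg.nonneg hz R hc hf (fun x => by rw [hb x, sub_zero])
    (Eventually.of_forall fun x => le_rfl) (Eventually.of_forall fun x => le_rfl)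

/-- uniqueness -/
theorem Lin.unique (h : Lin g b u) (h' : Lin g b u') (hg : TC g) : u = u' := by
  have hd : ∀ {u u' : X → ℝ}, Lin g b u → Lin g b u' → Lin g (fun _ => 0) (fun x => u x - u' x) := by
    intro u u' h h'
    refine ⟨h.wc.sub hg.meas hg.nonneg h'.wc, fun x => ?_⟩
    rw [h.wc.pw_sub h'.wc, h.eq x, h'.eq x]
    ring
  have hn : ∀ {u u' : X → ℝ}, Lin g b u → Lin g b u' → ∀ x, 0 ≤ u x - u' x := by
    intro u u' h h' x
    refine (hd h h').nonneg (ι := Fin 0) hg (z := fun _ => 0) (fun _ => le_rfl) (fun _ => (0 : X))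
      le_rfl (f := fun _ => 0) (BC.zero.toTC fun _ => le_rfl) (fun x => ?_) x
      (fun i hi => absurd hi (lt_irrefl _))
    unfold Vn pot
    simp
  funext x
  have h1 := hn h h' x
  have h2 := hn h' h x
  linarith

end cmp

end Pool.Agent.TF
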