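import Pool.Agent.Lib.MP_9cf0c9_mp.Newton

/-! Minimum principle in the half space. -/

set_option linter.unusedSectionVars false
set_option linter.unusedVariables false
set_option linter.style.haveILetI false

namespace Pool.Agent.TF
open MeasureTheory Set Metric Filter Topology
open scoped ENNReal NNReal RealInnerProductSpace

/-- the odd extension -/
noncomputable def odd (f : X → ℝ) (x : X) : ℝ := f x - f (th x)

theorem odd_BC {f : X → ℝ} (hf : BC f) : BC (odd f) := hf.sub (hf.comp_isom th)

theorem pot_odd_th {f : X → ℝ} (hf : BC f) (x : X) : pot (odd f) (th x) = -pot (odd f) x := by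
  unfold odd
  rw [pot_sub hf (hf.comp_isom th), pot_sub hf (hf.comp_isom th), pot_comp_isom, pot_comp_isom,
    th_th]
  ring

theorem pot_odd_zero {f : X → ℝ} (hf : BC f) (z : E2) : pot (odd f) (mk 0 z) = 0 := by
  have h := pot_odd_th hf (mk 0 z)
  rw [th_mk, neg_zero] at h
  linarith

theorem min_principle {f : X → ℝ} (hf : BC f) (hfO : ∀ x, x ∉ Om → f x = 0)
    (hneg : ∀ x, x ∈ Om → pot (odd f) x < 0 → 0 ≤ f x) :
    ∀ x, x ∈ Om → 0 ≤ pot (odd f) x := by
  intro xs hxs
  by_contra hcon
  push Not at hcon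
  have hB := odd_BC hf
  have hc := pot_continuous hB
  set w := pot (odd f) with hw
  obtain ⟨R, hR⟩ := pot_decay hB (neg_pos.mpr hcon)
  set K : Set X := closedBall 0 (max R ‖xs‖) ∩ {x | 0 ≤ x.fst} with hK
  have hKc : IsCompact K := (isCompact_closedBall _ _).inter_right
    (isClosed_le continuous_const fst_continuous)
  have hfst : ∀ {x : X}, x ∈ Om → 0 ≤ x.fst := fun {x} (hx : 0 < x.fst) => hx.le
  have hxsK : xs ∈ K := ⟨by rw [mem_closedBall_zero_iff]; exact le_max_right _ _, hfst hxs⟩
  obtain ⟨x1, hx1K, hx1⟩ := hKc.exists_isMinOn ⟨xs, hxsK⟩ hc.continuousOn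
  set c0 := w x1 with hc0
  have hc0s : c0 ≤ w xs := hx1 hxsK
  have hc0n : c0 < 0 := lt_of_le_of_lt hc0s hcon
  have hglob : ∀ x : X, 0 ≤ x.fst → c0 ≤ w x := by
    intro x hx
    by_cases h : ‖x‖ ≤ max R ‖xs‖
    · exact hx1 (show x ∈ K from ⟨by rwa [mem_closedBall_zero_iff], hx⟩)
    · push Not at h
      have h1 := hR x ((le_max_left _ _).trans h.le)
      have h2 := (abs_lt.mp h1).1
      linarith
  set Z : Set X := K ∩ {x | w x = c0} with hZ
  have hZc : IsCompact Z := hKc.inter_right (isClosed_eq hc continuous_const)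
  obtain ⟨x0, hx0Z, hx0⟩ := hZc.exists_isMinOn ⟨x1, hx1K, rfl⟩ fst_continuous.continuousOn
  have hx0w : w x0 = c0 := hx0Z.2
  have hx0pos : 0 < x0.fst := by
    have h1 : 0 ≤ x0.fst := hx0Z.1.2
    rcases h1.lt_or_eq with h | h
    · exact h
    · exfalso
      have h2 : w x0 = 0 := by
        rw [← mk_eta x0, ← h]
        exact pot_odd_zero hf _
      linarith
  -- a small ball
  have hopen : IsOpen {x : X | w x < 0} := isOpen_lt hc continuous_const
  have hx0o : x0 ∈ {x : X | w x < 0} := by
    change w x0 < 0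
    linarith
  obtain ⟨r1, hr1, hball⟩ := Metric.isOpen_iff.mp hopen x0 hx0o
  set r := min r1 x0.fst with hr
  have hr0 : 0 < r := lt_min hr1 hx0pos
  have hsub1 : ∀ x ∈ ball x0 r, w x < 0 := fun x hx =>
    hball (ball_subset_ball (min_le_left _ _) hx)
  have hsub2 : ∀ x ∈ ball x0 r, x ∈ Om := by
    intro x hx
    have h1 : |(x - x0).fst| < x0.fst :=
      lt_of_le_of_lt (abs_fst_le _) (by
        rw [mem_ball, dist_eq_norm] at hx
        exact lt_of_lt_of_le hx (min_le_right _ _))
    have h2 : (x - x0).fst = x.fst - x0.fst := rfl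
    rw [h2] at h1
    have := (abs_lt.mp h1).1
    change 0 < x.fst
    linarith
  have hpos : ∀ x ∈ ball x0 r, 0 ≤ odd f x := by
    intro x hx
    have h1 : th x ∉ Om := by
      intro h
      have h2 : 0 < (th x).fst := h
      rw [th_fst] at h2
      have h3 : 0 < x.fst := hsub2 x hx
      linarith
    unfold odd
    rw [hfO _ h1, sub_zero]
    exact hneg x (hsub2 x hx) (hsub1 x hx)
  have hmean := mean_le hB hr0 hpos
  rw [← hw, hx0w, ← vol_ball x0 hr0.le] at hmean
  have hint : IntegrableOn w (ball x0 r) :=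
    (hc.continuousOn.integrableOn_compact (isCompact_closedBall x0 r)).mono_set
      ball_subset_closedBall
  have hconst : IntegrableOn (fun _ : X => c0) (ball x0 r) := integrableOn_const (by finiteness)
  have h3 : ∫ x in ball x0 r, (w x - c0) ≤ 0 := by
    rw [integral_sub hint hconst, setIntegral_const, smul_eq_mul]
    linarith
  have h4 : 0 ≤ᵐ[volume.restrict (ball x0 r)] fun x => w x - c0 := by
    refine (ae_restrict_iff' measurableSet_ball).mpr (Eventually.of_forall fun x hx => ?_)
    have := hglob x (hfst (hsub2 x hx))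
    simp only [Pi.zero_apply]
    linarith
  have h5 : ∫ x in ball x0 r, (w x - c0) = 0 := le_antisymm h3 (integral_nonneg_of_ae h4)
  rw [setIntegral_eq_zero_iff_of_nonneg_ae h4 (hint.sub hconst)] at h5
  -- a point to the left
  set x' : X := x0 - (r / 2) • e1 with hx'
  have hx'b : x' ∈ ball x0 r := by
    rw [mem_ball, dist_eq_norm, hx', sub_sub_cancel_left, norm_neg, norm_smul]
    have : ‖e1‖ = 1 := by
      have h : ‖e1‖ ^ 2 = 1 := by
        unfold e1; rw [norm_mk_sq]; simp
      nlinarith [norm_nonneg e1]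
    rw [this, mul_one, Real.norm_of_nonneg (by positivity)]
    linarith
  have hx'f : x'.fst = x0.fst - r / 2 := by
    rw [hx']
    change x0.fst - (r / 2) * 1 = _
    ring
  have hx'w : c0 < w x' := by
    have h6 := hglob x' (hfst (hsub2 x' hx'b))
    rcases h6.lt_or_eq with h | h
    · exact h
    · exfalso
      have h7 : x' ∈ Z := by
        refine ⟨⟨?_, hfst (hsub2 x' hx'b)⟩, h.symm⟩
        rw [mem_closedBall_zero_iff]
        by_contra h8
        push Not at h8
        have h9 := hR x' ((le_max_left _ _).trans h8.le)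
        have h10 := (abs_lt.mp h9).1
        linarith
      have h8 : x0.fst ≤ x'.fst := hx0 h7
      rw [hx'f] at h8
      linarith
  have hU : IsOpen (ball x0 r ∩ {x | c0 < w x}) := isOpen_ball.inter (isOpen_lt continuous_const hc)
  have hUpos : 0 < volume (ball x0 r ∩ {x | c0 < w x}) := hU.measure_pos _ ⟨x', hx'b, hx'w⟩
  rw [Filter.EventuallyEq, ae_restrict_iff' measurableSet_ball, ae_iff] at h5
  have h6 : volume (ball x0 r ∩ {x | c0 < w x}) = 0 := by
    refine measure_mono_null ?_ h5
    intro x hx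
    rw [Set.mem_ofPred_eq, Classical.not_imp]
    refine ⟨hx.1, ?_⟩
    simp only [Pi.zero_apply]
    have : c0 < w x := hx.2
    intro h
    linarith
  rw [h6] at hUpos
  exact lt_irrefl _ hUpos

end Pool.Agent.TF
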