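import Pool.Agent.Lib.MP_9cf0c9_mp.Mirror39
import Pool.Agent.Lib.MP_9cf0c9_mp.LinGam

/-! Reflections in planes and the linear operator `-Δ + 4π g`. -/

set_option autoImplicit false
set_option linter.unusedSectionVars false
set_option linter.unusedVariables false
set_option linter.style.haveILetI false

namespace Pool.Agent.TF
open MeasureTheory Set Metric Filter Topology
open scoped ENNReal NNReal RealInnerProductSpace

theorem mir_mp {o e : X} (he : ‖e‖ = 1) : MeasurePreserving (mir o e) volume volume := by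
  have h1 : MeasurePreserving (fun x : X => x + -o) volume volume :=
    measurePreserving_add_right volume (-o)
  have h2 : MeasurePreserving (fun x : X => x + o) volume volume :=
    measurePreserving_add_right volume o
  have h3 := h2.comp ((mirL e).measurePreserving.comp h1)
  have h4 : mir o e = (fun x : X => x + o) ∘ (mirL e) ∘ fun x : X => x + -o := by
    funext x
    exact mir_eq_mirL he x
  rw [h4]
  exact h3

theorem ae_mir {o e : X} (he : ‖e‖ = 1) {Q : X → Prop} (h : ∀ᵐ y : X, Q y) :
    ∀ᵐ y : X, Q (mir o e y) :=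
  (mir_mp he).quasiMeasurePreserving.ae h

section lin
variable {κ : Type*} [Fintype κ] {g b u : X → ℝ}

/-- a nonnegative solution of a linear problem is larger on the side where the weight is smaller,
if this is so for the data -/
theorem Lin.mir_le {o e : X} (he : ‖e‖ = 1) (h : Lin g b u) (hg0 : ∀ x, 0 ≤ g x)
    {c : κ → ℝ} (hc : ∀ j, 0 ≤ c j) {P : κ → X} (hP : ∀ j, 0 < c j → 0 ≤ hgt o e (P j))
    {p q : X → ℝ} (hp : TC p) (hq : TC q)
    (hb : ∀ x, b (mir o e x) - b x = ∑ j, c j * dip o e (P j) x + (pot p x - pot q x))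
    (hpq0 : ∀ x, hgt o e x = 0 → pot q x ≤ pot p x)
    (hpq : ∀ᵐ y : X, 0 < hgt o e y → q y ≤ p y)
    (hgg : ∀ᵐ y : X, 0 < hgt o e y → g (mir o e y) ≤ g y) (hu : ∀ᵐ y : X, 0 ≤ u y)
    {x : X} (hx : 0 < hgt o e x) (hxP : ∀ j, 0 < c j → x ≠ P j) :
    u x ≤ u (mir o e x) := by
  have t1 := h.wc.pos
  have t2 := h.wc.neg
  have t3 : TC fun y => g (mir o e y) * max (u (mir o e y)) 0 := t1.mir he
  have t4 : TC fun y => g (mir o e y) * max (-u (mir o e y)) 0 := t2.mir he
  have hf : TC fun y => p y + (g y * max (u y) 0 + g (mir o e y) * max (-u (mir o e y)) 0) :=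
    hp.add' (t1.add' t4)
  have hgg' : TC fun y => q y + (g (mir o e y) * max (u (mir o e y)) 0 + g y * max (-u y) 0) :=
    hq.add' (t3.add' t2)
  have p3 : ∀ x, pot (fun y => g (mir o e y) * max (u (mir o e y)) 0) x =
      pot (fun y => g y * max (u y) 0) (mir o e x) := fun x =>
    pot_mir he (fun y => g y * max (u y) 0) x
  have p4 : ∀ x, pot (fun y => g (mir o e y) * max (-u (mir o e y)) 0) x =
      pot (fun y => g y * max (-u y) 0) (mir o e x) := fun x =>
    pot_mir he (fun y => g y * max (-u y) 0) x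
  have hE : ∀ x, ∑ j, c j * dip o e (P j) x +
      (pot (fun y => p y + (g y * max (u y) 0 + g (mir o e y) * max (-u (mir o e y)) 0)) x -
        pot (fun y => q y + (g (mir o e y) * max (u (mir o e y)) 0 + g y * max (-u y) 0)) x) =
      u (mir o e x) - u x := by
    intro x
    rw [hp.pot_add' (t1.add' t4), hq.pot_add' (t3.add' t2), t1.pot_add' t4, t3.pot_add' t2, p3, p4,
      h.eq (mir o e x), h.eq x, h.wc.pw_eq, h.wc.pw_eq]
    have := hb x
    linarith
  have key := half_min he hc hP hf hgg' (fun y hy => ?_) ?_ hx hxP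
  · rw [hE] at key
    linarith
  · have h1 := hE y
    rw [Finset.sum_eq_zero fun j _ => by rw [dip_on he hy, mul_zero], mir_fix hy, sub_self] at h1
    linarith
  · filter_upwards [hpq, hgg, hu, ae_mir he hu] with y h1 h2 h3 h4 hy hlt
    rw [hE] at hlt
    have h5 : max (-u y) 0 = 0 := max_eq_right (by linarith)
    have h6 : max (-u (mir o e y)) 0 = 0 := max_eq_right (by linarith)
    rw [h5, h6, max_eq_left h3, max_eq_left h4, mul_zero, mul_zero, add_zero, add_zero]
    have h7 : g (mir o e y) * u (mir o e y) ≤ g y * u y :=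
      mul_le_mul (h2 hy) (by linarith) h4 (hg0 y)
    have h8 := h1 hy
    linarith

end lin

/-- `om` is larger on the side of the smaller weight -/
theorem om_mir_le {g : X → ℝ} (hg : TC g) {o e : X} (he : ‖e‖ = 1)
    (hgg : ∀ᵐ y : X, 0 < hgt o e y → g (mir o e y) ≤ g y) {x : X} (hx : 0 ≤ hgt o e x) :
    om hg x ≤ om hg (mir o e x) := by
  rcases hx.eq_or_lt with h | h
  · rw [mir_fix h.symm]
  · have hz : TC fun _ : X => (0 : ℝ) := BC.zero.toTC fun _ => le_rfl
    exact (om_Lin hg).mir_le (κ := Fin 0) he hg.nonneg (c := fun _ => 0) (fun _ => le_rfl)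
      (P := fun _ => 0) (fun j hj => absurd hj (lt_irrefl _)) hz hz (fun x => by simp)
      (fun x _ => le_rfl) (Eventually.of_forall fun _ _ => le_rfl) hgg
      (Eventually.of_forall (om_nonneg hg)) h fun j hj => absurd hj (lt_irrefl _)

end Pool.Agent.TF
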