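import Pool.Agent.Lib.MP_9cf0c9_mp.Path

/-! The energy along the path. -/

set_option linter.unusedSectionVars false
set_option linter.unusedVariables false
set_option linter.style.haveILetI false

namespace Pool.Agent.TF
open MeasureTheory Set Metric Filter Topology
open scoped ENNReal NNReal RealInnerProductSpace

variable {ι : Type*} [Fintype ι]

/-- Lipschitz bound along lines -/
theorem pot_line_lip {f : X → ℝ} (hf : BC f) : ∃ B, 0 ≤ B ∧ ∀ (x : X) (u v : ℝ),
    |pot f (x + u • e1) - pot f (x + v • e1)| ≤ B * |u - v| := by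
  obtain ⟨B, hB⟩ := grad_bound hf e1
  refine ⟨B, (abs_nonneg _).trans (hB 0), fun x u v => ?_⟩
  rw [pot_sub_pot hf x e1 v u]
  have h := intervalIntegral.norm_integral_le_of_norm_le_const (a := v) (b := u)
    (f := fun s : ℝ => grad e1 f (x + s • e1)) (C := B) fun s _ => by
      rw [Real.norm_eq_abs]; exact hB _
  rwa [Real.norm_eq_abs] at h

/-- uniform bound of the masses along the path -/
theorem mass_bound {m : ι → X → ℝ} (hm : ∀ i, BC (m i)) {b : ι → ℝ}
    {φ₀ : ℝ} (hφ : 0 < φ₀) {T : ℝ} (hT : 0 ≤ T) :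
    ∃ C, 0 ≤ C ∧ ∀ t ∈ Icc 0 T, ∀ ρ : X → ℝ, BC ρ → (∀ x, 0 ≤ ρ x) →
      (∀ x, ρ x = tf (pot (fun y => MS m b t y - ρ y) x - φ₀)) → ∫ x, ρ x ≤ C := by
  choose B hB using fun i => pot_bound (hm i)
  have hcard : 0 < φ₀ / (Fintype.card ι + 1) := by positivity
  choose R hR using fun i => pot_decay (hm i) hcard
  set Bt : ℝ := ∑ i, B i with hBt
  set Rt : ℝ := ∑ i, (|R i| + T * |b i|) * ‖e1‖ + ∑ i, (|R i| + T * |b i| * ‖e1‖) with hRt
  refine ⟨∫ x in ball (0 : X) Rt, tf Bt, setIntegral_nonneg measurableSet_ball fun _ _ =>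
    tf_nonneg _, fun t ht ρ hρ hρ0 heq => ?_⟩
  have hpot : ∀ x, ρ x ≤ tf (pot (MS m b t) x - φ₀) := by
    intro x
    rw [heq x, pot_sub (MS_BC hm b t) hρ]
    refine tf_mono ?_
    have := pot_nonneg hρ0 x
    linarith
  have hle : ∀ x, ρ x ≤ tf Bt := by
    intro x
    refine (hpot x).trans (tf_mono ?_)
    rw [pot_MS hm]
    have : ∑ i, pot (m i) (x + (-(t * b i)) • e1) ≤ ∑ i, B i :=
      Finset.sum_le_sum fun i _ => (le_abs_self _).trans (hB i _)
    linarith
  have hzero : ∀ x, x ∉ ball (0 : X) Rt → ρ x = 0 := by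
    intro x hx
    rw [mem_ball_zero_iff] at hx
    push Not at hx
    refine le_antisymm ((hpot x).trans ?_) (hρ0 x)
    refine le_of_eq (tf_of_nonpos ?_)
    rw [pot_MS hm]
    have h1 : ∀ i ∈ (Finset.univ : Finset ι),
        pot (m i) (x + (-(t * b i)) • e1) ≤ φ₀ / (Fintype.card ι + 1) := by
      intro i _
      refine (le_abs_self _).trans (hR i _ ?_).le
      have h2 : ‖x‖ ≤ ‖x + (-(t * b i)) • e1‖ + ‖(-(t * b i)) • e1‖ := by
        have := norm_sub_le (x + (-(t * b i)) • e1) ((-(t * b i)) • e1)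
        simpa using this
      have h3 : ‖(-(t * b i)) • e1‖ ≤ T * |b i| * ‖e1‖ := by
        rw [norm_smul, norm_neg, Real.norm_eq_abs, abs_mul, abs_of_nonneg ht.1]
        have := ht.2
        gcongr
      have h4 : |R i| + T * |b i| * ‖e1‖ ≤ ∑ i, (|R i| + T * |b i| * ‖e1‖) :=
        Finset.single_le_sum (f := fun i => |R i| + T * |b i| * ‖e1‖)
          (fun i _ => by positivity) (Finset.mem_univ i)
      have h5 : 0 ≤ ∑ i, (|R i| + T * |b i|) * ‖e1‖ := by positivity
      have h6 := le_abs_self (R i)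
      linarith
    have h2 := Finset.sum_le_sum h1
    rw [Finset.sum_const, Finset.card_univ, nsmul_eq_mul] at h2
    have h3 : (Fintype.card ι : ℝ) * (φ₀ / (Fintype.card ι + 1)) ≤ φ₀ := by
      rw [mul_div_assoc', div_le_iff₀ (by positivity)]
      nlinarith [Nat.cast_nonneg (α := ℝ) (Fintype.card ι)]
    linarith
  have h1 : ∫ x, ρ x = ∫ x in ball (0 : X) Rt, ρ x := by
    rw [← integral_indicator measurableSet_ball]
    refine integral_congr_ae (Eventually.of_forall fun x => ?_)
    by_cases hx : x ∈ ball (0 : X) Rt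
    · rw [indicator_of_mem hx]
    · rw [indicator_of_notMem hx, hzero x hx]
  rw [h1]
  exact setIntegral_mono hρ.integrable.integrableOn (integrableOn_const (by finiteness)) hle

/-- the energy is nonincreasing along the path -/
theorem path_antitone {m : ι → X → ℝ} (hm : ∀ i, BC (m i)) (hm0 : ∀ i x, 0 ≤ m i x)
    {α : ι → ℝ} {ε : ℝ} (hsupp : ∀ i x, ε ≤ |x.fst - α i| → m i x = 0)
    {b : ι → ℝ} (hb0 : ∀ i, 0 ≤ b i) (hgap : ∀ i j, b i < b j → α i + 2 * ε ≤ α j)
    {φ₀ : ℝ} (hφ : 0 < φ₀) {T : ℝ} (hT : 0 ≤ T) :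
    ∃ ρ1 : X → ℝ, BC ρ1 ∧ (∀ x, 0 ≤ ρ1 x) ∧ ∀ σ : X → ℝ, TC σ →
      Ef φ₀ (MS m b T) ρ1 ≤ Ef φ₀ (MS m b 0) σ := by
  choose ρ hρB hρ0 hρ using fun t => exists_tf (MS_BC hm b t) hφ
  set E : ℝ → ℝ := fun t => Ef φ₀ (MS m b t) (ρ t) with hE
  set a : ℝ → ℝ := fun t => 1 / 2 * En (MS m b t) (MS m b t) with ha
  -- comparison
  have hcomp : ∀ s t, E t ≤ E s + (a t - a s) - ((∫ x, ρ s x * pot (MS m b t) x) -
      ∫ x, ρ s x * pot (MS m b s) x) := by
    intro s t
    have h1 := Ef_min (MS_BC hm b t) (hρB t) (hρ0 t) (hρ t) ((hρB s).toTC (hρ0 s))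
    simp only [hE, ha]
    unfold Ef at h1 ⊢
    linarith
  -- continuity of a
  have hac : Continuous a := by
    rw [continuous_iff_continuousAt]
    intro t
    have h1 := (deriv_total (m := fun i x => m i (x + (-(t * b i)) • e1))
      (fun i => (hm i).translate _) b (ρ := fun _ => 0) BC.zero).continuousAt
    simp only [zero_mul, integral_zero, sub_zero, ← MS_add] at h1
    have h2 : ContinuousAt (fun s : ℝ => s - t) t := (continuous_id.sub continuous_const).continuousAt
    have h4 := ContinuousAt.comp_of_eq (f := fun s : ℝ => s - t) (x := t) h1 h2 (sub_self t)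
    refine h4.congr (Eventually.of_forall fun s => ?_)
    simp only [ha, Function.comp, add_sub_cancel]
  -- Lipschitz bound of the potential
  choose L hL0 hL using fun i => pot_line_lip (hm i)
  set Lt : ℝ := ∑ i, L i * |b i| with hLt
  have hLt0 : 0 ≤ Lt := Finset.sum_nonneg fun i _ => mul_nonneg (hL0 i) (abs_nonneg _)
  have hLip : ∀ s t x, |pot (MS m b t) x - pot (MS m b s) x| ≤ Lt * |t - s| := by
    intro s t x
    rw [pot_MS hm, pot_MS hm, ← Finset.sum_sub_distrib]
    refine (Finset.abs_sum_le_sum_abs _ _).trans ?_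
    rw [hLt, Finset.sum_mul]
    refine Finset.sum_le_sum fun i _ => ?_
    refine (hL i x _ _).trans ?_
    have : |-(t * b i) - -(s * b i)| = |b i| * |t - s| := by
      rw [← abs_mul, ← abs_neg]; congr 1; ring
    rw [this]
    apply le_of_eq
    ring
  obtain ⟨C, hC0, hC⟩ := mass_bound hm (b := b) hφ hT
  have hmass : ∀ s ∈ Icc 0 T, ∫ x, ρ s x ≤ C := fun s hs => hC s hs (ρ s) (hρB s) (hρ0 s) (hρ s)
  have hdiff : ∀ s ∈ Icc 0 T, ∀ t, |(∫ x, ρ s x * pot (MS m b t) x) -
      ∫ x, ρ s x * pot (MS m b s) x| ≤ C * Lt * |t - s| := by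
    intro s hs t
    rw [← integral_sub (En_integrable (hρB s) (MS_BC hm b t))
      (En_integrable (hρB s) (MS_BC hm b s))]
    refine (abs_integral_le_integral_abs).trans ?_
    calc ∫ x, |ρ s x * pot (MS m b t) x - ρ s x * pot (MS m b s) x|
        ≤ ∫ x, ρ s x * (Lt * |t - s|) := by
          refine integral_mono_of_nonneg (Eventually.of_forall fun x => abs_nonneg _)
            ((hρB s).integrable.mul_const _) (Eventually.of_forall fun x => ?_)
          simp only
          rw [← mul_sub, abs_mul, abs_of_nonneg (hρ0 s x)]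
          exact mul_le_mul_of_nonneg_left (hLip s t x) (hρ0 s x)
      _ = (∫ x, ρ s x) * (Lt * |t - s|) := by rw [integral_mul_const]
      _ ≤ C * (Lt * |t - s|) := mul_le_mul_of_nonneg_right (hmass s hs) (by positivity)
      _ = _ := by ring
  have hEc : ContinuousOn E (Icc 0 T) := by
    intro t ht
    rw [ContinuousWithinAt, tendsto_iff_dist_tendsto_zero]
    have h1 : Tendsto (fun s => |a s - a t| + C * Lt * |s - t|) (𝓝[Icc 0 T] t) (𝓝 0) := by
      have h2 : Continuous (fun s => |a s - a t| + C * Lt * |s - t|) := by fun_prop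
      have h3 := h2.tendsto t
      simp only [sub_self, abs_zero, mul_zero, add_zero] at h3
      exact h3.mono_left nhdsWithin_le_nhds
    refine squeeze_zero' (Eventually.of_forall fun s => dist_nonneg) ?_ h1
    filter_upwards [self_mem_nhdsWithin] with s hs
    rw [Real.dist_eq, abs_le]
    have c1 := hcomp s t
    have c2 := hcomp t s
    have d1 := abs_le.mp (hdiff s hs t)
    have d2 := abs_le.mp (hdiff t ht s)
    have e1' := abs_le.mp (le_refl |a s - a t|)
    rw [abs_sub_comm t s] at d1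
    constructor <;> linarith [d1.1, d1.2, d2.1, d2.2, e1'.1, e1'.2]
  -- slopes
  have hslope : ∀ t ∈ Ico 0 T, ∀ r, (0 : ℝ) < r → ∃ᶠ z in 𝓝[>] t, slope E t z < r := by
    intro t ht r hr
    set mt : ι → X → ℝ := fun i x => m i (x + (-(t * b i)) • e1) with hmt
    have hmtB : ∀ i, BC (mt i) := fun i => (hm i).translate _
    have hder := deriv_total hmtB b (hρB t)
    have hMSt : ∀ x, ∑ i, mt i x = MS m b t x := fun x => rfl
    have hsgn : ∑ i, b i * Fo e1 (mt i) (fun x => (∑ j, mt j x) - ρ t x) ≤ 0 := by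
      refine sign_lemma hmtB (fun i x => hm0 i _) (α := fun i => α i + t * b i) (ε := ε) ?_ hb0 ?_
        hφ (hρB t) ?_
      · intro i x hx
        refine hsupp i _ ?_
        have : (x + (-(t * b i)) • e1).fst = x.fst - t * b i := by
          change x.fst + (-(t * b i)) * 1 = _
          ring
        rw [this]
        have e2 : x.fst - t * b i - α i = x.fst - (α i + t * b i) := by ring
        rw [e2]
        exact hx
      · intro i j hij
        have h1 := hgap i j hij
        have h2 : t * b i ≤ t * b j := mul_le_mul_of_nonneg_left hij.le ht.1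
        linarith
      · intro x
        rw [hρ t x]
        rfl
    set D : ℝ → ℝ := fun δ => 1 / 2 * En (MS mt b δ) (MS mt b δ) -
      ∫ x, ρ t x * pot (MS mt b δ) x with hD
    set d0 := ∑ i, b i * Fo e1 (mt i) (fun x => (∑ j, mt j x) - ρ t x) with hd0
    have h1 : Tendsto (slope D 0) (𝓝[>] 0) (𝓝 d0) :=
      (hasDerivAt_iff_tendsto_slope.mp hder).mono_left
        (nhdsWithin_mono _ fun s hs => ne_of_gt hs)
    have h2 : ∀ᶠ δ in 𝓝[>] (0 : ℝ), slope D 0 δ < r := h1.eventually (gt_mem_nhds (by linarith))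
    have h3 : Tendsto (fun z : ℝ => z - t) (𝓝[>] t) (𝓝[>] 0) := by
      refine tendsto_nhdsWithin_iff.mpr ⟨?_, ?_⟩
      · have : Tendsto (fun z : ℝ => z - t) (𝓝 t) (𝓝 (t - t)) :=
          (continuous_id.sub continuous_const).tendsto t
        rw [sub_self] at this
        exact this.mono_left nhdsWithin_le_nhds
      · filter_upwards [self_mem_nhdsWithin] with z hz
        exact sub_pos.mpr (show t < z from hz)
    have h4 := h3.eventually h2
    refine Eventually.frequently ?_
    filter_upwards [h4, self_mem_nhdsWithin] with z hz hzt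
    refine lt_of_le_of_lt ?_ hz
    have hzt' : 0 < z - t := sub_pos.mpr (show t < z from hzt)
    rw [slope_def_field, slope_def_field, sub_zero]
    refine div_le_div_of_nonneg_right ?_ hzt'.le
    have e3 : MS mt b (z - t) = MS m b z := by
      rw [hmt, ← MS_add]
      congr 1
      ring
    have e4 : MS mt b 0 = MS m b t := by
      rw [hmt, ← MS_add, add_zero]
    simp only [hD]
    rw [e3, e4]
    have := hcomp t z
    simp only [ha] at this
    linarith
  have hfin := image_le_of_liminf_slope_right_le_deriv_boundary (f := E) (a := 0) (b := T) hEc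
    (B := fun _ => E 0) (B' := fun _ => 0) le_rfl continuousOn_const
    (fun x _ => hasDerivWithinAt_const _ _ _) (fun x hx r hr => hslope x hx r hr)
    (x := T) ⟨hT, le_rfl⟩
  refine ⟨ρ T, hρB T, hρ0 T, fun σ hσ => ?_⟩
  have h0 := Ef_min (MS_BC hm b 0) (hρB 0) (hρ0 0) (hρ 0) hσ
  exact hfin.trans h0

end Pool.Agent.TF
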