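import Pool.Agent.Lib.MP_9cf0c9_mp.Half

/-! The potential of a uniform ball. -/

set_option linter.unusedSectionVars false
set_option linter.unusedVariables false
set_option linter.style.haveILetI false

namespace Pool.Agent.TF
open MeasureTheory Set Metric Filter Topology
open scoped ENNReal NNReal RealInnerProductSpace

/-- indicator of a centred ball -/
noncomputable def chi (r : ℝ) : X → ℝ := (ball (0 : X) r).indicator fun _ => (1 : ℝ)

theorem chi_nonneg (r : ℝ) (x : X) : 0 ≤ chi r x := indicator_nonneg (fun _ _ => zero_le_one) _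

theorem chi_BC (r : ℝ) : BC (chi r) := by
  refine ⟨measurable_const.indicator measurableSet_ball, ⟨1, fun x => ?_⟩,
    ⟨r, fun x hx => indicator_of_notMem (by simpa using hx) _⟩⟩
  rw [abs_of_nonneg (chi_nonneg r x)]
  exact indicator_le_self' (fun _ _ => zero_le_one) _

theorem chi_isom (r : ℝ) (L : X ≃ₗᵢ[ℝ] X) (x : X) : chi r (L x) = chi r x := by
  unfold chi
  by_cases h : x ∈ ball (0 : X) r
  · have h' : L x ∈ ball (0 : X) r := by
      rw [mem_ball_zero_iff] at h ⊢; rwa [L.norm_map]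
    rw [indicator_of_mem h, indicator_of_mem h']
  · have h' : L x ∉ ball (0 : X) r := by
      rw [mem_ball_zero_iff] at h ⊢; rwa [L.norm_map]
    rw [indicator_of_notMem h, indicator_of_notMem h']

theorem vol_ball (x : X) {r : ℝ} (hr : 0 ≤ r) :
    volume.real (ball x r) = 4 / 3 * Real.pi * r ^ 3 := by
  have hf : Module.finrank ℝ X = 3 := Fact.out
  haveI := nontriv (V := X)
  have h := InnerProductSpace.volume_ball_of_dim_odd (E := X) (k := 1) (by rw [hf]) x r
  rw [Measure.real, h, hf]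
  rw [ENNReal.toReal_mul, ENNReal.toReal_pow, ENNReal.toReal_ofReal hr,
    ENNReal.toReal_ofReal (by positivity)]
  norm_num [Nat.doubleFactorial]
  ring

/-- the inner radial integral -/
theorem inner_rad (a : ℝ) {ρ : ℝ} (hρ : 0 ≤ ρ) :
    ∫ t in (0 : ℝ)..ρ, t * (√(a ^ 2 + t ^ 2))⁻¹ = √(a ^ 2 + ρ ^ 2) - |a| := by
  have h1 : ContinuousOn (fun t : ℝ => √(a ^ 2 + t ^ 2)) (Icc 0 ρ) := by fun_prop
  have h2 : ∀ t ∈ Ioo (0 : ℝ) ρ, HasDerivAt (fun t : ℝ => √(a ^ 2 + t ^ 2))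
      (t * (√(a ^ 2 + t ^ 2))⁻¹) t := by
    intro t ht
    have hpos : 0 < a ^ 2 + t ^ 2 := by
      have := ht.1
      positivity
    have h3 : HasDerivAt (fun t : ℝ => a ^ 2 + t ^ 2) (2 * t) t := by
      simpa using (hasDerivAt_pow 2 t).const_add (a ^ 2)
    have h4 := h3.sqrt hpos.ne'
    refine h4.congr_deriv ?_
    have : √(a ^ 2 + t ^ 2) ≠ 0 := (Real.sqrt_pos.mpr hpos).ne'
    field_simp
  have hmeas : Measurable (fun t : ℝ => t * (√(a ^ 2 + t ^ 2))⁻¹) := by fun_prop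
  have h5 : IntervalIntegrable (fun t : ℝ => t * (√(a ^ 2 + t ^ 2))⁻¹) volume 0 ρ := by
    refine (intervalIntegrable_const (c := (1 : ℝ))).mono_fun' hmeas.aestronglyMeasurable
      (Eventually.of_forall fun t => ?_)
    change ‖t * (√(a ^ 2 + t ^ 2))⁻¹‖ ≤ 1
    rw [norm_mul, norm_inv, Real.norm_eq_abs, Real.norm_of_nonneg (Real.sqrt_nonneg _)]
    by_cases ht : √(a ^ 2 + t ^ 2) = 0
    · rw [ht]; simp
    · have hp : 0 < √(a ^ 2 + t ^ 2) := lt_of_le_of_ne (Real.sqrt_nonneg _) (Ne.symm ht)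
      rw [← div_eq_mul_inv, div_le_one hp]
      refine Real.abs_le_sqrt ?_
      nlinarith [sq_nonneg a]
  rw [intervalIntegral.integral_eq_sub_of_hasDerivAt_of_le hρ h1 h2 h5]
  congr 1
  rw [zero_pow two_ne_zero, add_zero, Real.sqrt_sq_eq_abs]

/-- the slice integral -/
theorem slice (D r s : ℝ) (hr : 0 < r) (hs : |s| < r) :
    ∫ z : E2, ‖mk D 0 - mk s z‖⁻¹ * chi r (mk s z) =
      2 * Real.pi * (√((D - s) ^ 2 + (r ^ 2 - s ^ 2)) - |D - s|) := by
  have hs2 : s ^ 2 < r ^ 2 := by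
    rw [← sq_abs s]; exact pow_lt_pow_left₀ hs (abs_nonneg _) two_ne_zero
  set ρ := √(r ^ 2 - s ^ 2) with hρ
  have hρ0 : 0 ≤ ρ := Real.sqrt_nonneg _
  have hρ2 : ρ ^ 2 = r ^ 2 - s ^ 2 := Real.sq_sqrt (by linarith)
  set g : ℝ → ℝ := (Iio ρ).indicator (fun t => (√((D - s) ^ 2 + t ^ 2))⁻¹) with hg
  have h1 : (fun z : E2 => ‖mk D 0 - mk s z‖⁻¹ * chi r (mk s z)) = fun z => g ‖z‖ := by
    funext z
    have e1 : ‖mk D 0 - mk s z‖ = √((D - s) ^ 2 + ‖z‖ ^ 2) := by
      rw [← Real.sqrt_sq (norm_nonneg (mk D 0 - mk s z)), norm_sq_eq]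
      congr 3
      change ‖(0 : E2) - z‖ = ‖z‖
      simp
    by_cases hz : ‖z‖ < ρ
    · have h2 : mk s z ∈ ball (0 : X) r := by
        rw [mem_ball_zero_iff]
        refine lt_of_pow_lt_pow_left₀ 2 hr.le ?_
        rw [norm_mk_sq]
        have : ‖z‖ ^ 2 < ρ ^ 2 := pow_lt_pow_left₀ hz (norm_nonneg _) two_ne_zero
        linarith
      have h3 : chi r (mk s z) = 1 := indicator_of_mem h2 _
      rw [h3, mul_one, hg, indicator_of_mem (show ‖z‖ ∈ Iio ρ from hz), e1]
    · have h2 : mk s z ∉ ball (0 : X) r := by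
        rw [mem_ball_zero_iff]
        intro h
        have h4 : ‖mk s z‖ ^ 2 < r ^ 2 := pow_lt_pow_left₀ h (norm_nonneg _) two_ne_zero
        rw [norm_mk_sq] at h4
        push Not at hz
        have : ρ ^ 2 ≤ ‖z‖ ^ 2 := pow_le_pow_left₀ hρ0 hz 2
        linarith
      have h3 : chi r (mk s z) = 0 := indicator_of_notMem h2 _
      rw [h3, mul_zero, hg, indicator_of_notMem (show ‖z‖ ∉ Iio ρ from hz)]
  rw [h1, integral_fun_norm_addHaar (volume : Measure E2) g]
  have h4 : volume.real (ball (0 : E2) 1) = Real.pi := by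
    rw [Measure.real, EuclideanSpace.volume_ball_fin_two]
    simp [Real.pi_nonneg]
  have h5 : Module.finrank ℝ E2 = 2 := by simp
  rw [h4, h5]
  have h6 : ∫ y in Ioi (0 : ℝ), y ^ (2 - 1) • g y = √((D - s) ^ 2 + ρ ^ 2) - |D - s| := by
    rw [← inner_rad (D - s) hρ0, intervalIntegral.integral_of_le hρ0,
      ← integral_indicator measurableSet_Ioi, ← integral_indicator measurableSet_Ioc]
    refine integral_congr_ae ?_
    have hne : ∀ᵐ t : ℝ, t ≠ ρ := by rw [ae_iff]; simp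
    filter_upwards [hne] with t ht
    by_cases h0 : 0 < t
    · rw [indicator_of_mem (show t ∈ Ioi (0 : ℝ) from h0), hg]
      by_cases h7 : t < ρ
      · rw [indicator_of_mem (show t ∈ Iio ρ from h7),
          indicator_of_mem (show t ∈ Ioc 0 ρ from ⟨h0, h7.le⟩)]
        simp
      · rw [indicator_of_notMem (show t ∉ Iio ρ from h7), indicator_of_notMem]
        · simp
        · intro h8
          exact h7 (lt_of_le_of_ne h8.2 ht)
    · rw [indicator_of_notMem (show t ∉ Ioi (0 : ℝ) from h0), indicator_of_notMem]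
      intro h8
      exact h0 h8.1
  rw [h6, hρ2]
  simp only [smul_eq_mul, nsmul_eq_mul]
  push_cast
  ring

/-- the outer integral -/
theorem outer (D r : ℝ) (hD : 0 < D) (hr : 0 < r) :
    ∫ s in (-r)..r, (√(D ^ 2 + r ^ 2 - 2 * s * D) - (D - s)) =
      ((D + r) ^ 3 - |D - r| ^ 3) / (3 * D) - 2 * D * r := by
  set A : ℝ → ℝ := fun s => -((D ^ 2 + r ^ 2 - 2 * s * D) * √(D ^ 2 + r ^ 2 - 2 * s * D)) / (3 * D)
    - (D * s - s ^ 2 / 2) with hA
  have h1 : ContinuousOn A (Icc (-r) r) := by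
    have : Continuous A := by rw [hA]; fun_prop
    exact this.continuousOn
  have h2 : ∀ s ∈ Ioo (-r) r, HasDerivAt A (√(D ^ 2 + r ^ 2 - 2 * s * D) - (D - s)) s := by
    intro s hs
    have hq : 0 < D ^ 2 + r ^ 2 - 2 * s * D := by
      nlinarith [sq_nonneg (D - r), mul_pos hD (sub_pos.mpr hs.2)]
    have h3 : HasDerivAt (fun s : ℝ => D ^ 2 + r ^ 2 - 2 * s * D) (-(2 * D)) s := by
      have := ((hasDerivAt_id s).const_mul 2).mul_const D |>.const_sub (D ^ 2 + r ^ 2)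
      simpa using this
    have h4 := h3.sqrt hq.ne'
    have h5 := ((h3.mul h4).neg.div_const (3 * D))
    have h6 : HasDerivAt (fun s : ℝ => D * s - s ^ 2 / 2) (D - s) s := by
      have := ((hasDerivAt_id s).const_mul D).sub ((hasDerivAt_pow 2 s).div_const 2)
      refine this.congr_deriv ?_
      simp
    have h7 := h5.sub h6
    refine h7.congr_deriv ?_
    have hs0 : √(D ^ 2 + r ^ 2 - 2 * s * D) ≠ 0 := (Real.sqrt_pos.mpr hq).ne'
    have hs2 : √(D ^ 2 + r ^ 2 - 2 * s * D) ^ 2 = D ^ 2 + r ^ 2 - 2 * s * D := Real.sq_sqrt hq.le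
    congr 1
    set q := √(D ^ 2 + r ^ 2 - 2 * s * D) with hqdef
    rw [← hs2]
    field_simp
    ring
  have h3 : IntervalIntegrable (fun s => √(D ^ 2 + r ^ 2 - 2 * s * D) - (D - s)) volume (-r) r :=
    (Continuous.intervalIntegrable (by fun_prop) _ _)
  rw [intervalIntegral.integral_eq_sub_of_hasDerivAt_of_le (by linarith) h1 h2 h3]
  have e1 : D ^ 2 + r ^ 2 - 2 * r * D = (D - r) ^ 2 := by ring
  have e2 : D ^ 2 + r ^ 2 - 2 * (-r) * D = (D + r) ^ 2 := by ring
  simp only [hA]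
  rw [e1, e2, Real.sqrt_sq_eq_abs, Real.sqrt_sq (by positivity : 0 ≤ D + r)]
  have e3 : (D - r) ^ 2 * |D - r| = |D - r| ^ 3 := by
    rw [← sq_abs (D - r)]; ring
  rw [e3]
  field_simp
  ring

theorem newton_axis (D r : ℝ) (hD : 0 < D) (hr : 0 < r) :
    pot (chi r) (mk D 0) ≤ 4 / 3 * Real.pi * r ^ 3 * D⁻¹ ∧
      (r ≤ D → pot (chi r) (mk D 0) = 4 / 3 * Real.pi * r ^ 3 * D⁻¹) := by
  have hI := pot_integrable (chi_BC r) (mk D 0)
  have h1 : pot (chi r) (mk D 0) = ∫ s : ℝ, ∫ z : E2, ‖mk D 0 - mk s z‖⁻¹ * chi r (mk s z) := by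
    unfold pot
    rw [integral_X]
    have h := integrable_X hI
    rw [Measure.volume_eq_prod] at h ⊢
    rw [integral_prod _ h]
  have h2 : ∀ s : ℝ, s ∉ Ioo (-r) r → ∫ z : E2, ‖mk D 0 - mk s z‖⁻¹ * chi r (mk s z) = 0 := by
    intro s hs
    have : ∀ z : E2, chi r (mk s z) = 0 := by
      intro z
      refine indicator_of_notMem ?_ _
      rw [mem_ball_zero_iff]
      intro h
      have := lt_of_le_of_lt (abs_fst_le (mk s z)) h
      exact hs (abs_lt.mp this)
    simp [this]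
  set F : ℝ → ℝ := fun s => 2 * Real.pi * (√((D - s) ^ 2 + (r ^ 2 - s ^ 2)) - |D - s|) with hF
  have h3 : pot (chi r) (mk D 0) = ∫ s in (-r)..r, F s := by
    rw [h1, intervalIntegral.integral_of_le (by linarith), ← integral_indicator measurableSet_Ioc]
    refine integral_congr_ae ?_
    have hne : ∀ᵐ t : ℝ, t ≠ r := by rw [ae_iff]; simp
    filter_upwards [hne] with s hs
    by_cases h : s ∈ Ioo (-r) r
    · rw [indicator_of_mem (show s ∈ Ioc (-r) r from ⟨h.1, h.2.le⟩),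
        slice D r s hr (abs_lt.mpr h)]
    · rw [h2 s h, indicator_of_notMem]
      intro h'
      exact h ⟨h'.1, lt_of_le_of_ne h'.2 hs⟩
  have hFc : Continuous F := by rw [hF]; fun_prop
  have hGc : Continuous (fun s : ℝ => 2 * Real.pi * (√(D ^ 2 + r ^ 2 - 2 * s * D) - (D - s))) := by
    fun_prop
  have hval : ∫ s in (-r)..r, 2 * Real.pi * (√(D ^ 2 + r ^ 2 - 2 * s * D) - (D - s)) =
      2 * Real.pi * (((D + r) ^ 3 - |D - r| ^ 3) / (3 * D) - 2 * D * r) := by
    rw [intervalIntegral.integral_const_mul, outer D r hD hr]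
  have hFG : ∀ s : ℝ, F s ≤ 2 * Real.pi * (√(D ^ 2 + r ^ 2 - 2 * s * D) - (D - s)) := by
    intro s
    rw [hF]
    have e1 : (D - s) ^ 2 + (r ^ 2 - s ^ 2) = D ^ 2 + r ^ 2 - 2 * s * D := by ring
    simp only [e1]
    have := le_abs_self (D - s)
    have hpi : 0 < 2 * Real.pi := by positivity
    exact mul_le_mul_of_nonneg_left (by linarith) hpi.le
  constructor
  · rw [h3]
    refine (intervalIntegral.integral_mono_on (by linarith) (hFc.intervalIntegrable _ _)
      (hGc.intervalIntegrable _ _) fun s _ => hFG s).trans ?_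
    rw [hval]
    have hpi : 0 < Real.pi := Real.pi_pos
    rcases le_total r D with h | h
    · rw [abs_of_nonneg (by linarith)]
      apply le_of_eq
      field_simp
      ring
    · rw [abs_of_nonpos (by linarith)]
      have e1 : 4 / 3 * Real.pi * r ^ 3 * D⁻¹ -
          2 * Real.pi * (((D + r) ^ 3 - (-(D - r)) ^ 3) / (3 * D) - 2 * D * r) =
          4 / 3 * Real.pi * (r - D) ^ 3 * D⁻¹ := by
        field_simp
        ring
      have e2 : 0 ≤ 4 / 3 * Real.pi * (r - D) ^ 3 * D⁻¹ := by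
        have : 0 ≤ r - D := by linarith
        positivity
      linarith
  · intro h
    have h4 : ∫ s in (-r)..r, F s =
        ∫ s in (-r)..r, 2 * Real.pi * (√(D ^ 2 + r ^ 2 - 2 * s * D) - (D - s)) := by
      refine intervalIntegral.integral_congr fun s hs => ?_
      rw [uIcc_of_le (by linarith)] at hs
      have e1 : (D - s) ^ 2 + (r ^ 2 - s ^ 2) = D ^ 2 + r ^ 2 - 2 * s * D := by ring
      simp only [hF, e1]
      rw [abs_of_nonneg (by linarith [hs.2])]
    rw [h3, h4, hval, abs_of_nonneg (by linarith)]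
    field_simp
    ring

/-- the potential of a uniform ball -/
theorem newton {r : ℝ} (hr : 0 < r) {v : X} (hv : v ≠ 0) :
    pot (chi r) v ≤ 4 / 3 * Real.pi * r ^ 3 * ‖v‖⁻¹ ∧
      (r ≤ ‖v‖ → pot (chi r) v = 4 / 3 * Real.pi * r ^ 3 * ‖v‖⁻¹) := by
  have hn : 0 < ‖v‖ := norm_pos_iff.mpr hv
  have h1 : ‖v‖ = ‖mk ‖v‖ 0‖ := by
    have : ‖mk ‖v‖ 0‖ ^ 2 = ‖v‖ ^ 2 := by rw [norm_mk_sq]; simp
    exact ((sq_eq_sq₀ (norm_nonneg _) (norm_nonneg _)).mp this).symm
  obtain ⟨L, hL⟩ := exists_isom (v := v) (w := mk ‖v‖ 0) h1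
  have h2 : pot (chi r) v = pot (chi r) (mk ‖v‖ 0) := by
    rw [← hL, ← pot_comp_isom]
    simp only [chi_isom]
  rw [h2]
  exact newton_axis ‖v‖ r hn hr

/-- translated ball indicator -/
noncomputable def chiAt (x₀ : X) (r : ℝ) (x : X) : ℝ := chi r (x - x₀)

theorem chiAt_fun (x₀ : X) (r : ℝ) : chiAt x₀ r = fun x => chi r (x + -x₀) := by
  funext x; simp only [chiAt, sub_eq_add_neg]

theorem chiAt_BC (x₀ : X) (r : ℝ) : BC (chiAt x₀ r) := by
  rw [chiAt_fun]
  exact (chi_BC r).translate (-x₀)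

theorem chiAt_eq (x₀ : X) (r : ℝ) : chiAt x₀ r = (ball x₀ r).indicator fun _ => (1 : ℝ) := by
  funext x
  unfold chiAt chi
  by_cases h : x ∈ ball x₀ r
  · rw [indicator_of_mem h, indicator_of_mem]
    rwa [mem_ball_zero_iff, ← dist_eq_norm]
  · rw [indicator_of_notMem h, indicator_of_notMem]
    rwa [mem_ball_zero_iff, ← dist_eq_norm]

theorem pot_chiAt (x₀ : X) (r : ℝ) (x : X) : pot (chiAt x₀ r) x = pot (chi r) (x - x₀) := by
  rw [chiAt_fun, pot_translate, sub_eq_add_neg]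

/-- super mean value property of potentials -/
theorem mean_le {h : X → ℝ} (hh : BC h) {x₀ : X} {r : ℝ} (hr : 0 < r)
    (hpos : ∀ x ∈ ball x₀ r, 0 ≤ h x) :
    ∫ x in ball x₀ r, pot h x ≤ 4 / 3 * Real.pi * r ^ 3 * pot h x₀ := by
  have h1 : ∫ x in ball x₀ r, pot h x = En (chiAt x₀ r) h := by
    unfold En
    rw [← integral_indicator measurableSet_ball, chiAt_eq]
    refine integral_congr_ae (Eventually.of_forall fun x => ?_)
    by_cases hx : x ∈ ball x₀ r
    · simp [hx]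
    · simp [hx]
  rw [h1, En_symm (chiAt_BC x₀ r) hh]
  have h2 : 4 / 3 * Real.pi * r ^ 3 * pot h x₀ =
      ∫ y, 4 / 3 * Real.pi * r ^ 3 * (‖x₀ - y‖⁻¹ * h y) := by
    unfold pot
    rw [integral_const_mul]
  rw [h2]
  haveI := nontriv (V := X)
  have hne : ∀ᵐ y : X, y ≠ x₀ := by rw [ae_iff]; simp
  unfold En
  refine integral_mono_ae (En_integrable hh (chiAt_BC x₀ r))
    ((pot_integrable hh x₀).const_mul _) ?_
  filter_upwards [hne] with y hy
  rw [pot_chiAt]
  have hv : y - x₀ ≠ 0 := sub_ne_zero.mpr hy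
  obtain ⟨n1, n2⟩ := newton hr hv
  by_cases hb : y ∈ ball x₀ r
  · have := mul_le_mul_of_nonneg_left n1 (hpos y hb)
    rw [norm_sub_rev x₀ y]
    linarith
  · have hb' : r ≤ ‖y - x₀‖ := by
      rw [mem_ball, dist_eq_norm] at hb
      linarith
    rw [n2 hb', norm_sub_rev x₀ y]
    apply le_of_eq
    ring

end Pool.Agent.TF
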