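import Pool.Agent.Lib.MP_9cf0c9_mp.TC
import Pool.Agent.Lib.MP_9cf0c9_mp.Force

/-! Monotonicity of the energy when groups of nuclei are moved apart in one direction. -/

set_option linter.unusedSectionVars false
set_option linter.unusedVariables false
set_option linter.style.haveILetI false

namespace Pool.Agent.TF
open MeasureTheory Set Metric Filter Topology
open scoped ENNReal NNReal RealInnerProductSpace

variable {ι : Type*} [Fintype ι]

/-! ### finite sums -/

theorem pot_sum {ι' : Type*} (s : Finset ι') {f : ι' → X → ℝ} (hf : ∀ i ∈ s, BC (f i)) (x : X) :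
    pot (fun y => ∑ i ∈ s, f i y) x = ∑ i ∈ s, pot (f i) x := by
  unfold pot
  rw [← integral_finsetSum s fun i hi => pot_integrable (hf i hi) x]
  refine integral_congr_ae (Eventually.of_forall fun y => ?_)
  simp only
  rw [Finset.mul_sum]

theorem Fo_sum_left {ι' : Type*} (s : Finset ι') {f : ι' → X → ℝ} (hf : ∀ i ∈ s, BC (f i))
    {g : X → ℝ} (hg : BC g) (e : X) :
    Fo e (fun y => ∑ i ∈ s, f i y) g = ∑ i ∈ s, Fo e (f i) g := by
  unfold Fo
  rw [← integral_finsetSum s fun i hi => Fo_integrable (hf i hi) hg e]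
  refine integral_congr_ae (Eventually.of_forall fun y => ?_)
  simp only
  rw [Finset.sum_mul]

theorem Fo_sum_right {ι' : Type*} (s : Finset ι') {f : ι' → X → ℝ} (hf : ∀ i ∈ s, BC (f i))
    {g : X → ℝ} (hg : BC g) (e : X) :
    Fo e g (fun y => ∑ i ∈ s, f i y) = ∑ i ∈ s, Fo e g (f i) := by
  rw [Fo_antisymm hg (BC.sum s hf), Fo_sum_left s hf hg, ← Finset.sum_neg_distrib]
  refine Finset.sum_congr rfl fun i hi => ?_
  rw [Fo_antisymm (hf i hi) hg, neg_neg]

theorem En_sum_left {ι' : Type*} (s : Finset ι') {f : ι' → X → ℝ} (hf : ∀ i ∈ s, BC (f i))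
    {g : X → ℝ} (hg : BC g) :
    En (fun y => ∑ i ∈ s, f i y) g = ∑ i ∈ s, En (f i) g := by
  unfold En
  rw [← integral_finsetSum s fun i hi => En_integrable (hf i hi) hg]
  refine integral_congr_ae (Eventually.of_forall fun y => ?_)
  simp only
  rw [Finset.sum_mul]

theorem En_sum_right {ι' : Type*} (s : Finset ι') {f : ι' → X → ℝ} (hf : ∀ i ∈ s, BC (f i))
    {g : X → ℝ} (hg : BC g) :
    En g (fun y => ∑ i ∈ s, f i y) = ∑ i ∈ s, En g (f i) := by
  rw [En_symm hg (BC.sum s hf), En_sum_left s hf hg]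
  refine Finset.sum_congr rfl fun i hi => ?_
  rw [En_symm (hf i hi) hg]

/-! ### the moving nuclei -/

/-- total nuclear density at time `t` -/
noncomputable def MS (m : ι → X → ℝ) (b : ι → ℝ) (t : ℝ) (x : X) : ℝ :=
  ∑ i, m i (x + (-(t * b i)) • e1)

theorem MS_BC {m : ι → X → ℝ} (hm : ∀ i, BC (m i)) (b : ι → ℝ) (t : ℝ) : BC (MS m b t) :=
  BC.sum Finset.univ fun i _ => (hm i).translate _

theorem MS_add (m : ι → X → ℝ) (b : ι → ℝ) (t δ : ℝ) :
    MS m b (t + δ) = MS (fun i x => m i (x + (-(t * b i)) • e1)) b δ := by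
  funext x
  unfold MS
  refine Finset.sum_congr rfl fun i _ => ?_
  congr 1
  rw [add_assoc, ← add_smul]
  congr 2
  ring

theorem MS_zero (m : ι → X → ℝ) (b : ι → ℝ) (x : X) : MS m b 0 x = ∑ i, m i x := by
  unfold MS
  simp

theorem pot_MS {m : ι → X → ℝ} (hm : ∀ i, BC (m i)) (b : ι → ℝ) (t : ℝ) (x : X) :
    pot (MS m b t) x = ∑ i, pot (m i) (x + (-(t * b i)) • e1) := by
  unfold MS
  rw [pot_sum Finset.univ fun i _ => (hm i).translate _]
  refine Finset.sum_congr rfl fun i _ => ?_
  rw [pot_translate]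

theorem hasDerivAt_shift_mul {f g : X → ℝ} (hf : BC f) (hg : BC g) (c : ℝ) :
    HasDerivAt (fun t : ℝ => ∫ x, f x * pot g (x + (t * c) • e1)) (c * Fo e1 f g) 0 := by
  have h1 : HasDerivAt (fun t : ℝ => t * c) c 0 := by
    simpa using (hasDerivAt_id (0 : ℝ)).mul_const c
  have h2 : HasDerivAt (fun t : ℝ => ∫ x, f x * pot g (x + t • e1)) (Fo e1 f g)
      ((fun t : ℝ => t * c) 0) := by
    simpa using hasDerivAt_shift hf hg e1
  have h3 := h2.comp (0 : ℝ) h1
  rw [mul_comm]
  exact h3

theorem En_shift {f g : X → ℝ} (u v : ℝ) :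
    En (fun x => f (x + u • e1)) (fun x => g (x + v • e1)) =
      ∫ x, f x * pot g (x + (v - u) • e1) := by
  unfold En
  rw [← integral_add_right_eq_self (fun x => f x * pot g (x + (v - u) • e1)) (u • e1)]
  refine integral_congr_ae (Eventually.of_forall fun x => ?_)
  simp only
  rw [pot_translate, add_assoc, ← add_smul]
  congr 3
  ring_nf

/-- derivative of the nuclear part of the energy -/
theorem deriv_total {m : ι → X → ℝ} (hm : ∀ i, BC (m i)) (b : ι → ℝ) {ρ : X → ℝ} (hρ : BC ρ) :
    HasDerivAt (fun δ : ℝ => 1 / 2 * En (MS m b δ) (MS m b δ) - ∫ x, ρ x * pot (MS m b δ) x)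
      (∑ i, b i * Fo e1 (m i) (fun x => (∑ j, m j x) - ρ x)) 0 := by
  have h1 : ∀ δ : ℝ, En (MS m b δ) (MS m b δ) =
      ∑ i, ∑ j, ∫ x, m i x * pot (m j) (x + (δ * (b i - b j)) • e1) := by
    intro δ
    unfold MS
    rw [En_sum_left Finset.univ (fun i _ => (hm i).translate _)
      (BC.sum Finset.univ fun i _ => (hm i).translate _)]
    refine Finset.sum_congr rfl fun i _ => ?_
    rw [En_sum_right Finset.univ (fun i _ => (hm i).translate _) ((hm i).translate _)]
    refine Finset.sum_congr rfl fun j _ => ?_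
    rw [En_shift]
    refine integral_congr_ae (Eventually.of_forall fun x => ?_)
    simp only
    congr 4
    ring
  have h2 : ∀ δ : ℝ, ∫ x, ρ x * pot (MS m b δ) x =
      ∑ i, ∫ x, ρ x * pot (m i) (x + (δ * (-b i)) • e1) := by
    intro δ
    rw [← integral_finsetSum]
    · refine integral_congr_ae (Eventually.of_forall fun x => ?_)
      simp only
      rw [pot_MS hm, Finset.mul_sum]
      refine Finset.sum_congr rfl fun i _ => ?_
      congr 4
      ring
    · intro i _
      have := En_integrable hρ ((hm i).translate ((δ * (-b i)) • e1))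
      refine this.congr (Eventually.of_forall fun x => ?_)
      simp only
      rw [pot_translate]
  simp_rw [h1, h2]
  have h3 : HasDerivAt (fun δ : ℝ => 1 / 2 * (∑ i, ∑ j, ∫ x, m i x *
      pot (m j) (x + (δ * (b i - b j)) • e1)) - ∑ i, ∫ x, ρ x * pot (m i) (x + (δ * (-b i)) • e1))
      (1 / 2 * (∑ i, ∑ j, (b i - b j) * Fo e1 (m i) (m j)) - ∑ i, (-b i) * Fo e1 ρ (m i)) 0 := by
    refine HasDerivAt.sub (HasDerivAt.const_mul _ ?_) ?_
    · refine HasDerivAt.fun_sum fun i _ => HasDerivAt.fun_sum fun j _ => ?_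
      exact hasDerivAt_shift_mul (hm i) (hm j) (b i - b j)
    · exact HasDerivAt.fun_sum fun i _ => hasDerivAt_shift_mul hρ (hm i) (-b i)
  refine h3.congr_deriv ?_
  have h4 : ∀ i, Fo e1 (m i) (fun x => (∑ j, m j x) - ρ x) =
      (∑ j, Fo e1 (m i) (m j)) - Fo e1 (m i) ρ := by
    intro i
    rw [Fo_sub_right (hm i) (BC.sum Finset.univ fun j _ => hm j) hρ,
      Fo_sum_right Finset.univ (fun j _ => hm j) (hm i)]
  have h5 : ∑ i, ∑ j, (b i - b j) * Fo e1 (m i) (m j) =
      2 * ∑ i, b i * ∑ j, Fo e1 (m i) (m j) := by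
    have e1' : ∑ i, ∑ j, b j * Fo e1 (m i) (m j) = -∑ i, ∑ j, b i * Fo e1 (m i) (m j) := by
      rw [Finset.sum_comm, ← Finset.sum_neg_distrib]
      refine Finset.sum_congr rfl fun i _ => ?_
      rw [← Finset.sum_neg_distrib]
      refine Finset.sum_congr rfl fun j _ => ?_
      rw [Fo_antisymm (hm j) (hm i)]
      ring
    have e2' : ∑ i, b i * ∑ j, Fo e1 (m i) (m j) = ∑ i, ∑ j, b i * Fo e1 (m i) (m j) :=
      Finset.sum_congr rfl fun i _ => by rw [Finset.mul_sum]
    simp_rw [sub_mul, Finset.sum_sub_distrib]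
    rw [e1', e2']
    ring
  rw [h5]
  simp_rw [h4, mul_sub, Finset.sum_sub_distrib]
  have h6 : ∑ i, -b i * Fo e1 ρ (m i) = ∑ i, b i * Fo e1 (m i) ρ := by
    refine Finset.sum_congr rfl fun i _ => ?_
    rw [Fo_antisymm hρ (hm i)]
    ring
  rw [h6]
  ring

/-! ### Abel summation -/

theorem abel_sum (n : ℕ) : ∀ (b F : ι → ℝ), (Finset.univ.filter fun i => 0 < b i).card = n →
    (∀ i, 0 ≤ b i) → (∀ β : ℝ, 0 ≤ β → ∑ i, (if β < b i then F i else 0) ≤ 0) →
    ∑ i, b i * F i ≤ 0 := by
  induction n using Nat.strong_induction_on with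
  | _ n ih =>
    intro b F hn hb0 hlev
    by_cases hne : (Finset.univ.filter fun i => 0 < b i).Nonempty
    · obtain ⟨i0, hi0, hmin⟩ := Finset.exists_min_image _ b hne
      rw [Finset.mem_filter] at hi0
      have hpos : 0 < b i0 := hi0.2
      have hmin' : ∀ i, 0 < b i → b i0 ≤ b i := fun i hi =>
        hmin i (Finset.mem_filter.mpr ⟨Finset.mem_univ _, hi⟩)
      set b' : ι → ℝ := fun i => if 0 < b i then b i - b i0 else 0 with hb'
      have hb'0 : ∀ i, 0 ≤ b' i := by
        intro i
        simp only [hb']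
        split_ifs with h
        · linarith [hmin' i h]
        · exact le_rfl
      have hcard : (Finset.univ.filter fun i => 0 < b' i).card < n := by
        rw [← hn]
        refine Finset.card_lt_card ?_
        rw [Finset.ssubset_iff_of_subset]
        · refine ⟨i0, Finset.mem_filter.mpr ⟨Finset.mem_univ _, hpos⟩, ?_⟩
          rw [Finset.mem_filter]
          intro h
          have := h.2
          simp only [hb', if_pos hpos, sub_self] at this
          exact lt_irrefl _ this
        · intro i hi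
          rw [Finset.mem_filter] at hi ⊢
          refine ⟨Finset.mem_univ _, ?_⟩
          by_contra h
          have := hi.2
          simp only [hb', if_neg h] at this
          exact lt_irrefl _ this
      have h1 := ih _ hcard b' F rfl hb'0 (by
        intro β hβ
        have h2 := hlev (β + b i0) (by linarith)
        refine le_of_eq_of_le ?_ h2
        refine Finset.sum_congr rfl fun i _ => ?_
        by_cases h : 0 < b i
        · simp only [hb', if_pos h]
          by_cases h3 : β < b i - b i0
          · rw [if_pos h3, if_pos (by linarith)]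
          · rw [if_neg h3, if_neg (by linarith)]
        · simp only [hb', if_neg h]
          rw [if_neg (by linarith), if_neg (by linarith)])
      have h2 := hlev 0 le_rfl
      have h3 : ∑ i, b i * F i = (∑ i, b' i * F i) + b i0 * ∑ i, (if 0 < b i then F i else 0) := by
        rw [Finset.mul_sum, ← Finset.sum_add_distrib]
        refine Finset.sum_congr rfl fun i _ => ?_
        by_cases h : 0 < b i
        · simp only [hb', if_pos h]; ring
        · have : b i = 0 := le_antisymm (not_lt.mp h) (hb0 i)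
          simp only [hb', if_neg h]
          rw [this]; ring
      rw [h3]
      have := mul_nonpos_of_nonneg_of_nonpos hpos.le h2
      linarith
    · rw [Finset.not_nonempty_iff_eq_empty, Finset.filter_eq_empty_iff] at hne
      have : ∀ i, b i = 0 := fun i => le_antisymm (not_lt.mp (hne (Finset.mem_univ i))) (hb0 i)
      simp [this]

/-- sign of the derivative -/
theorem sign_lemma {m : ι → X → ℝ} (hm : ∀ i, BC (m i)) (hm0 : ∀ i x, 0 ≤ m i x)
    {α : ι → ℝ} {ε : ℝ} (hsupp : ∀ i x, ε ≤ |x.fst - α i| → m i x = 0)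
    {b : ι → ℝ} (hb0 : ∀ i, 0 ≤ b i) (hgap : ∀ i j, b i < b j → α i + 2 * ε ≤ α j)
    {φ₀ : ℝ} (hφ : 0 < φ₀) {ρ : X → ℝ} (hρ : BC ρ)
    (heq : ∀ x, ρ x = tf (pot (fun y => (∑ i, m i y) - ρ y) x - φ₀)) :
    ∑ i, b i * Fo e1 (m i) (fun x => (∑ j, m j x) - ρ x) ≤ 0 := by
  classical
  refine abel_sum _ b _ rfl hb0 fun β hβ => ?_
  set mA : X → ℝ := fun x => ∑ i, (if β < b i then m i x else 0) with hmA
  set mB : X → ℝ := fun x => ∑ i, (if β < b i then 0 else m i x) with hmB
  have hAi : ∀ i ∈ (Finset.univ : Finset ι), BC (fun x => if β < b i then m i x else 0) := by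
    intro i _
    by_cases h : β < b i
    · simpa [h] using hm i
    · simpa [h] using BC.zero
  have hBi : ∀ i ∈ (Finset.univ : Finset ι), BC (fun x => if β < b i then 0 else m i x) := by
    intro i _
    by_cases h : β < b i
    · simpa [h] using BC.zero
    · simpa [h] using hm i
  have hA : BC mA := BC.sum Finset.univ hAi
  have hB : BC mB := BC.sum Finset.univ hBi
  have hsum : ∀ x, ∑ i, m i x = mA x + mB x := by
    intro x
    simp only [hmA, hmB]
    rw [← Finset.sum_add_distrib]
    refine Finset.sum_congr rfl fun i _ => ?_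
    split_ifs <;> ring
  have hM : BC (fun x => (∑ j, m j x) - ρ x) := (BC.sum Finset.univ fun i _ => hm i).sub hρ
  have h1 : ∑ i, (if β < b i then Fo e1 (m i) (fun x => (∑ j, m j x) - ρ x) else 0) =
      Fo e1 mA (fun x => (∑ j, m j x) - ρ x) := by
    simp only [hmA]
    rw [Fo_sum_left Finset.univ hAi hM]
    refine Finset.sum_congr rfl fun i _ => ?_
    by_cases h : β < b i
    · simp [h]
    · simp [h, Fo]
  rw [h1]
  have h2 : (fun x => (∑ j, m j x) - ρ x) = fun x => mA x + (mB x - ρ x) := by
    funext x; rw [hsum]; ring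
  rw [h2, Fo_add_right hA hA (hB.sub hρ), Fo_self hA, zero_add]
  by_cases hne : (Finset.univ.filter fun i => β < b i).Nonempty
  · obtain ⟨j0, hj0, hmin⟩ := Finset.exists_min_image _ α hne
    rw [Finset.mem_filter] at hj0
    refine force_nonpos' hA hB hρ ?_ ?_ (α j0 - ε) ?_ ?_ hφ ?_
    · intro x
      exact Finset.sum_nonneg fun i _ => by
        split_ifs
        · exact hm0 i x
        · exact le_rfl
    · intro x
      exact Finset.sum_nonneg fun i _ => by
        split_ifs
        · exact le_rfl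
        · exact hm0 i x
    · intro x hx
      refine Finset.sum_eq_zero fun i _ => ?_
      split_ifs with h
      · refine hsupp i x ?_
        have h3 := hmin i (Finset.mem_filter.mpr ⟨Finset.mem_univ _, h⟩)
        push Not at hx
        rw [abs_sub_comm]
        refine le_trans ?_ (le_abs_self _)
        linarith
      · rfl
    · intro x hx
      refine Finset.sum_eq_zero fun i _ => ?_
      split_ifs with h
      · rfl
      · refine hsupp i x ?_
        push Not at h hx
        have h3 := hgap i j0 (lt_of_le_of_lt h hj0.2)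
        refine le_trans ?_ (le_abs_self _)
        linarith
    · intro x
      rw [heq x]
      congr 3
      funext y
      rw [hsum]
  · rw [Finset.not_nonempty_iff_eq_empty, Finset.filter_eq_empty_iff] at hne
    have h3 : mA = fun _ => 0 := by
      funext x
      simp only [hmA]
      exact Finset.sum_eq_zero fun i hi => if_neg (hne hi)
    rw [h3]
    simp [Fo]

end Pool.Agent.TF
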