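import Pool.Agent.Lib.MP_9cf0c9_mp.Mono

/-! Point nuclei as limits of uniform balls. -/

set_option linter.unusedSectionVars false
set_option linter.unusedVariables false
set_option linter.style.haveILetI false

namespace Pool.Agent.TF
open MeasureTheory Set Metric Filter Topology
open scoped ENNReal NNReal RealInnerProductSpace

section defs
variable {V : Type*} [NormedAddCommGroup V] [InnerProductSpace ℝ V] [FiniteDimensional ℝ V]
  [MeasurableSpace V] [BorelSpace V] {ι : Type*} [Fintype ι]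

/-- nuclear repulsion (the diagonal terms vanish since `0⁻¹ = 0`) -/
noncomputable def Unuc (z : ι → ℝ) (R : ι → V) : ℝ :=
  1 / 2 * ∑ i, ∑ j, z i * z j * ‖R i - R j‖⁻¹

/-- the Thomas-Fermi functional with point nuclei at fixed chemical potential `-φ₀` -/
noncomputable def Ept (φ₀ : ℝ) (z : ι → ℝ) (R : ι → V) (σ : V → ℝ) : ℝ :=
  3 / 5 * (∫ x, σ x ^ (5 / 3 : ℝ)) + φ₀ * (∫ x, σ x) - (∑ i, z i * pot σ (R i)) +
    1 / 2 * En σ σ + Unuc z R

end defs

variable {ι : Type*} [Fintype ι]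

/-- normalization of the ball -/
noncomputable def kap (ε : ℝ) : ℝ := (4 / 3 * Real.pi * ε ^ 3)⁻¹

theorem kap_pos {ε : ℝ} (hε : 0 < ε) : 0 < kap ε := by
  unfold kap
  have := Real.pi_pos
  positivity

theorem kap_pot_le {ε : ℝ} (hε : 0 < ε) {v : X} (hv : v ≠ 0) : kap ε * pot (chi ε) v ≤ ‖v‖⁻¹ := by
  have h := (newton hε hv).1
  have h1 : kap ε * pot (chi ε) v ≤ kap ε * (4 / 3 * Real.pi * ε ^ 3 * ‖v‖⁻¹) :=
    mul_le_mul_of_nonneg_left h (kap_pos hε).le
  refine h1.trans (le_of_eq ?_)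
  unfold kap
  have := Real.pi_pos
  field_simp

theorem kap_pot_eq {ε : ℝ} (hε : 0 < ε) {v : X} (hv : ε ≤ ‖v‖) : kap ε * pot (chi ε) v = ‖v‖⁻¹ := by
  have hv0 : v ≠ 0 := by
    intro h
    rw [h, norm_zero] at hv
    linarith
  rw [(newton hε hv0).2 hv]
  unfold kap
  have := Real.pi_pos
  field_simp

/-- smeared unit charge -/
noncomputable def sm (ε : ℝ) (c : X) (x : X) : ℝ := kap ε * chiAt c ε x

theorem sm_BC (ε : ℝ) (c : X) : BC (sm ε c) := (chiAt_BC c ε).const_mul _

theorem sm_nonneg {ε : ℝ} (hε : 0 < ε) (c x : X) : 0 ≤ sm ε c x :=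
  mul_nonneg (kap_pos hε).le (chi_nonneg _ _)

theorem pot_sm (ε : ℝ) (c x : X) : pot (sm ε c) x = kap ε * pot (chi ε) (x - c) := by
  unfold sm
  rw [pot_const_mul, pot_chiAt]

/-- smeared nuclei -/
noncomputable def mpt (ε : ℝ) (z : ι → ℝ) (R : ι → X) (x : X) : ℝ := ∑ i, z i * sm ε (R i) x

theorem mpt_BC (ε : ℝ) (z : ι → ℝ) (R : ι → X) : BC (mpt ε z R) :=
  BC.sum Finset.univ fun i _ => (sm_BC ε (R i)).const_mul _

/-- self energy of a smeared unit charge -/
noncomputable def selfE (ε : ℝ) : ℝ := En (sm ε 0) (sm ε 0)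

theorem sm_translate (ε : ℝ) (c : X) : sm ε c = fun x => sm ε 0 (x + -c) := by
  funext x
  unfold sm chiAt
  rw [sub_zero, sub_eq_add_neg]

theorem En_translate (f g : X → ℝ) (v : X) :
    En (fun x => f (x + v)) (fun x => g (x + v)) = En f g := by
  unfold En
  rw [← integral_add_right_eq_self (fun x => f x * pot g x) v]
  refine integral_congr_ae (Eventually.of_forall fun x => ?_)
  simp only
  rw [pot_translate]

theorem En_sm_self (ε : ℝ) (c : X) : En (sm ε c) (sm ε c) = selfE ε := by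
  rw [sm_translate, En_translate (sm ε 0) (sm ε 0)]
  rfl

theorem En_sm_ne {ε : ℝ} (hε : 0 < ε) {c d : X} (h : 2 * ε ≤ ‖c - d‖) :
    En (sm ε c) (sm ε d) = ‖c - d‖⁻¹ := by
  have h1 : En (sm ε c) (sm ε d) = ∫ x, ‖d - x‖⁻¹ * sm ε c x := by
    unfold En
    refine integral_congr_ae (Eventually.of_forall fun x => ?_)
    simp only
    by_cases hx : x ∈ ball c ε
    · have h2 : ε ≤ ‖x - d‖ := by
        rw [mem_ball, dist_eq_norm] at hx
        have h3 : ‖c - d‖ ≤ ‖x - d‖ + ‖x - c‖ := by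
          have := norm_sub_le (x - d) (x - c)
          simpa using this
        linarith
      rw [pot_sm, kap_pot_eq hε h2, norm_sub_rev]
      ring
    · have h2 : sm ε c x = 0 := by
        unfold sm
        rw [chiAt_eq, indicator_of_notMem hx, mul_zero]
      rw [h2]
      ring
  rw [h1]
  change pot (sm ε c) d = _
  rw [pot_sm, kap_pot_eq hε, norm_sub_rev]
  rw [norm_sub_rev]
  linarith

theorem En_mpt {ε : ℝ} (hε : 0 < ε) (z : ι → ℝ) {R : ι → X}
    (hR : ∀ i j, i ≠ j → 2 * ε ≤ ‖R i - R j‖) :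
    1 / 2 * En (mpt ε z R) (mpt ε z R) = Unuc z R + 1 / 2 * ∑ i, z i ^ 2 * selfE ε := by
  classical
  have hb : ∀ i ∈ (Finset.univ : Finset ι), BC (fun x => z i * sm ε (R i) x) :=
    fun i _ => (sm_BC ε (R i)).const_mul _
  have h1 : En (mpt ε z R) (mpt ε z R) = ∑ i, ∑ j, z i * z j * En (sm ε (R i)) (sm ε (R j)) := by
    unfold mpt
    rw [En_sum_left Finset.univ hb (BC.sum Finset.univ hb)]
    refine Finset.sum_congr rfl fun i _ => ?_
    rw [En_sum_right Finset.univ hb ((sm_BC ε (R i)).const_mul _)]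
    refine Finset.sum_congr rfl fun j _ => ?_
    unfold En
    rw [← integral_const_mul]
    refine integral_congr_ae (Eventually.of_forall fun x => ?_)
    simp only
    rw [pot_const_mul]
    ring
  have h2 : ∀ i, ∑ j, z i * z j * En (sm ε (R i)) (sm ε (R j)) =
      (∑ j, z i * z j * ‖R i - R j‖⁻¹) + z i ^ 2 * selfE ε := by
    intro i
    have h3 : ∀ j, z i * z j * En (sm ε (R i)) (sm ε (R j)) =
        z i * z j * ‖R i - R j‖⁻¹ + (if j = i then z i ^ 2 * selfE ε else 0) := by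
      intro j
      by_cases hij : j = i
      · subst hij
        rw [En_sm_self, if_pos rfl, sub_self, norm_zero, inv_zero]
        ring
      · rw [En_sm_ne hε (hR i j (Ne.symm hij)), if_neg hij, add_zero]
    simp_rw [h3]
    rw [Finset.sum_add_distrib, Finset.sum_ite_eq' Finset.univ i]
    simp
  rw [h1]
  simp_rw [h2]
  rw [Finset.sum_add_distrib]
  unfold Unuc
  ring

/-- pairing of a density with a smeared nucleus -/
noncomputable def pairS (ε : ℝ) (σ : X → ℝ) (c : X) : ℝ := ∫ x, σ x * pot (sm ε c) x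

theorem pairS_int {ε : ℝ} {σ : X → ℝ} (hσ : TC σ) (c : X) :
    Integrable (fun x => σ x * pot (sm ε c) x) := by
  obtain ⟨B, hB⟩ := pot_bound (sm_BC ε c)
  have h1 : Integrable (fun x => pot (sm ε c) x * σ x) :=
    hσ.int.bdd_mul (pot_continuous (sm_BC ε c)).measurable.aestronglyMeasurable
      (Eventually.of_forall hB)
  exact h1.congr (Eventually.of_forall fun x => by ring)

theorem pairS_le {ε : ℝ} (hε : 0 < ε) {σ : X → ℝ} (hσ : TC σ) (c : X) :
    pairS ε σ c ≤ pot σ c := by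
  haveI := nontriv (V := X)
  have hne : ∀ᵐ x : X, x ≠ c := by rw [ae_iff]; simp
  unfold pairS
  change _ ≤ ∫ y, ‖c - y‖⁻¹ * σ y
  refine integral_mono_ae (pairS_int hσ c) (hσ.pot_integrable c) ?_
  filter_upwards [hne] with x hx
  rw [pot_sm, mul_comm, norm_sub_rev]
  exact mul_le_mul_of_nonneg_right (kap_pot_le hε (sub_ne_zero.mpr hx)) (hσ.nonneg x)

theorem pairS_tendsto {σ : X → ℝ} (hσ : TC σ) (c : X) :
    Tendsto (fun ε => pairS ε σ c) (𝓝[>] 0) (𝓝 (pot σ c)) := by
  haveI := nontriv (V := X)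
  have hne : ∀ᵐ x : X, x ≠ c := by rw [ae_iff]; simp
  unfold pairS
  change Tendsto _ _ (𝓝 (∫ y, ‖c - y‖⁻¹ * σ y))
  refine tendsto_integral_filter_of_dominated_convergence (fun x => ‖c - x‖⁻¹ * σ x)
    (Eventually.of_forall fun ε => (pairS_int hσ c).aestronglyMeasurable) ?_
    (hσ.pot_integrable c) ?_
  · filter_upwards [self_mem_nhdsWithin] with ε hε
    filter_upwards [hne] with x hx
    have hε' : 0 < ε := hε
    have h1 : 0 ≤ pot (sm ε c) x := pot_nonneg (sm_nonneg hε' c) x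
    rw [Real.norm_of_nonneg (mul_nonneg (hσ.nonneg x) h1), pot_sm, mul_comm, norm_sub_rev]
    exact mul_le_mul_of_nonneg_right (kap_pot_le hε' (sub_ne_zero.mpr hx)) (hσ.nonneg x)
  · filter_upwards [hne] with x hx
    have hx' : 0 < ‖x - c‖ := norm_pos_iff.mpr (sub_ne_zero.mpr hx)
    refine tendsto_const_nhds.congr' ?_
    have h1 : ∀ᶠ ε in 𝓝[>] (0 : ℝ), ε < ‖x - c‖ :=
      (gt_mem_nhds hx').filter_mono nhdsWithin_le_nhds
    filter_upwards [self_mem_nhdsWithin, h1] with ε hε h2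
    rw [pot_sm, kap_pot_eq hε h2.le, norm_sub_rev, mul_comm]

/-- relation between the smeared and the point functional -/
theorem Ef_mpt {ε : ℝ} (hε : 0 < ε) (z : ι → ℝ) {R : ι → X}
    (hR : ∀ i j, i ≠ j → 2 * ε ≤ ‖R i - R j‖) {σ : X → ℝ} (hσ : TC σ) (φ₀ : ℝ) :
    Ef φ₀ (mpt ε z R) σ = Ept φ₀ z R σ + 1 / 2 * (∑ i, z i ^ 2 * selfE ε) +
      ∑ i, z i * (pot σ (R i) - pairS ε σ (R i)) := by
  have h1 : ∫ x, σ x * pot (mpt ε z R) x = ∑ i, z i * pairS ε σ (R i) := by
    have h2 : ∀ x, σ x * pot (mpt ε z R) x = ∑ i, z i * (σ x * pot (sm ε (R i)) x) := by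
      intro x
      unfold mpt
      rw [pot_sum Finset.univ fun i _ => (sm_BC ε (R i)).const_mul _, Finset.mul_sum]
      refine Finset.sum_congr rfl fun i _ => ?_
      rw [pot_const_mul]
      ring
    simp_rw [h2]
    rw [integral_finsetSum _ fun i _ => (pairS_int hσ (R i)).const_mul _]
    refine Finset.sum_congr rfl fun i _ => ?_
    rw [integral_const_mul]
    rfl
  unfold Ef Ept
  rw [h1, En_mpt hε z hR]
  simp_rw [mul_sub, Finset.sum_sub_distrib]
  ring

/-- Stretching the nuclear configuration in the first direction does not increase the energy. -/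
theorem stretch {z : ι → ℝ} (hz : ∀ i, 0 ≤ z i) {R : ι → X} (hR : Function.Injective R)
    {b : ι → ℝ} (hb0 : ∀ i, 0 ≤ b i) (hmono : ∀ i j, (R i).fst ≤ (R j).fst → b i ≤ b j)
    {φ₀ : ℝ} (hφ : 0 < φ₀) {σ : X → ℝ} (hσ : TC σ) {η : ℝ} (hη : 0 < η) :
    ∃ σ' : X → ℝ, TC σ' ∧ Ept φ₀ z (fun i => R i + b i • e1) σ' ≤ Ept φ₀ z R σ + η := by
  classical
  set R' : ι → X := fun i => R i + b i • e1 with hR'def
  have hfst' : ∀ i, (R' i).fst = (R i).fst + b i := fun i => by
    change (R i).fst + b i * 1 = _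
    ring
  have hsnd' : ∀ i, (R' i).snd = (R i).snd := fun i => by
    change (R i).snd + b i • (0 : E2) = _
    simp
  have hR' : Function.Injective R' := by
    have key : ∀ i j, R' i = R' j → (R i).fst ≤ (R j).fst → i = j := by
      intro i j hij hle
      have h1 := hmono i j hle
      have h2 : (R' i).fst = (R' j).fst := by rw [hij]
      have h3 : (R' i).snd = (R' j).snd := by rw [hij]
      rw [hfst', hfst'] at h2
      rw [hsnd', hsnd'] at h3
      have h4 : (R i).fst = (R j).fst := by linarith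
      refine hR ?_
      rw [← mk_eta (R i), ← mk_eta (R j), h4, h3]
    intro i j hij
    rcases le_total (R i).fst (R j).fst with h | h
    · exact key i j hij h
    · exact (key j i hij.symm h).symm
  -- smallness conditions
  have c1 : ∀ᶠ ε in 𝓝[>] (0 : ℝ), ∀ i j, i ≠ j → 2 * ε ≤ ‖R i - R j‖ := by
    rw [eventually_all]; intro i
    rw [eventually_all]; intro j
    by_cases hij : i = j
    · exact Eventually.of_forall fun ε h => absurd hij h
    · have hpos : 0 < ‖R i - R j‖ / 2 := by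
        have : 0 < ‖R i - R j‖ := norm_pos_iff.mpr (sub_ne_zero.mpr fun h => hij (hR h))
        positivity
      filter_upwards [(gt_mem_nhds hpos).filter_mono nhdsWithin_le_nhds] with ε hε _
      linarith
  have c2 : ∀ᶠ ε in 𝓝[>] (0 : ℝ), ∀ i j, i ≠ j → 2 * ε ≤ ‖R' i - R' j‖ := by
    rw [eventually_all]; intro i
    rw [eventually_all]; intro j
    by_cases hij : i = j
    · exact Eventually.of_forall fun ε h => absurd hij h
    · have hpos : 0 < ‖R' i - R' j‖ / 2 := by
        have : 0 < ‖R' i - R' j‖ := norm_pos_iff.mpr (sub_ne_zero.mpr fun h => hij (hR' h))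
        positivity
      filter_upwards [(gt_mem_nhds hpos).filter_mono nhdsWithin_le_nhds] with ε hε _
      linarith
  have c3 : ∀ᶠ ε in 𝓝[>] (0 : ℝ), ∀ i j, b i < b j → (R i).fst + 2 * ε ≤ (R j).fst := by
    rw [eventually_all]; intro i
    rw [eventually_all]; intro j
    by_cases hij : b i < b j
    · have hlt : (R i).fst < (R j).fst := by
        by_contra h
        push Not at h
        have := hmono j i h
        linarith
      have hpos : 0 < ((R j).fst - (R i).fst) / 2 := by linarith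
      filter_upwards [(gt_mem_nhds hpos).filter_mono nhdsWithin_le_nhds] with ε hε _
      linarith
    · exact Eventually.of_forall fun ε h => absurd h hij
  have c4 : ∀ᶠ ε in 𝓝[>] (0 : ℝ), ∑ i, z i * (pot σ (R i) - pairS ε σ (R i)) < η := by
    have h1 : Tendsto (fun ε => ∑ i, z i * (pot σ (R i) - pairS ε σ (R i))) (𝓝[>] 0)
        (𝓝 (∑ i, z i * (pot σ (R i) - pot σ (R i)))) :=
      tendsto_finsetSum _ fun i _ => (tendsto_const_nhds.sub (pairS_tendsto hσ (R i))).const_mul _
    have h2 : ∑ i, z i * (pot σ (R i) - pot σ (R i)) = 0 := by simp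
    rw [h2] at h1
    exact h1.eventually (gt_mem_nhds hη)
  obtain ⟨ε, h1, h2, h3, h4, hε⟩ := (c1.and (c2.and (c3.and (c4.and self_mem_nhdsWithin)))).exists
  have hε' : 0 < ε := hε
  set m : ι → X → ℝ := fun i x => z i * sm ε (R i) x with hm
  have hmB : ∀ i, BC (m i) := fun i => (sm_BC ε (R i)).const_mul _
  have hm0 : ∀ i x, 0 ≤ m i x := fun i x => mul_nonneg (hz i) (sm_nonneg hε' _ _)
  have hsupp : ∀ i (x : X), ε ≤ |x.fst - (R i).fst| → m i x = 0 := by
    intro i x hx
    have h5 : x ∉ ball (R i) ε := by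
      rw [mem_ball, dist_eq_norm]
      have := abs_fst_le (x - R i)
      have h6 : (x - R i).fst = x.fst - (R i).fst := rfl
      rw [h6] at this
      linarith
    simp only [hm]
    unfold sm
    rw [chiAt_eq, indicator_of_notMem h5]
    ring
  obtain ⟨ρ1, hρB, hρ0, hρ⟩ := path_antitone hmB hm0 hsupp hb0 h3 hφ zero_le_one
  have e0 : MS m b 0 = mpt ε z R := by
    funext x
    rw [MS_zero]
    rfl
  have e1' : MS m b 1 = mpt ε z R' := by
    funext x
    unfold MS mpt
    refine Finset.sum_congr rfl fun i _ => ?_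
    simp only [hm]
    unfold sm chiAt
    congr 3
    rw [hR'def]
    simp only
    rw [one_mul, neg_smul]
    abel
  have h5 := hρ σ hσ
  rw [e0, e1', Ef_mpt hε' z h1 hσ, Ef_mpt hε' z h2 (hρB.toTC hρ0)] at h5
  refine ⟨ρ1, hρB.toTC hρ0, ?_⟩
  have h6 : 0 ≤ ∑ i, z i * (pot ρ1 (R' i) - pairS ε ρ1 (R' i)) :=
    Finset.sum_nonneg fun i _ => mul_nonneg (hz i)
      (sub_nonneg.mpr (pairS_le hε' (hρB.toTC hρ0) (R' i)))
  linarith

end Pool.Agent.TF
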