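import Pool.Agent.Lib.MP_9cf0c9_mp.MinPrin

/-! The semigroup identity for the Poisson kernel of the half space. -/

set_option linter.unusedSectionVars false
set_option linter.unusedVariables false
set_option linter.style.haveILetI false

namespace Pool.Agent.TF
open MeasureTheory Set Metric Filter Topology
open scoped ENNReal NNReal RealInnerProductSpace

/-- first one dimensional integral -/
theorem J1 {s t : ℝ} (hs : 0 < s) (ht : 0 < t) :
    IntegrableOn (fun v : ℝ => v ^ 2 / (s ^ 2 + t ^ 2 * v ^ 2) ^ 3) (Ioi 0) ∧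
    ∫ v in Ioi (0 : ℝ), v ^ 2 / (s ^ 2 + t ^ 2 * v ^ 2) ^ 3 = Real.pi / (16 * s ^ 3 * t ^ 3) := by
  set F : ℝ → ℝ := fun v => v * (t ^ 2 * v ^ 2 - s ^ 2) / (8 * s ^ 2 * t ^ 2 *
    (s ^ 2 + t ^ 2 * v ^ 2) ^ 2) + Real.arctan (v * t / s) / (8 * s ^ 3 * t ^ 3) with hF
  have hD : ∀ v : ℝ, 0 < s ^ 2 + t ^ 2 * v ^ 2 := fun v => by positivity
  have hder : ∀ v ∈ Ici (0 : ℝ), HasDerivAt F (v ^ 2 / (s ^ 2 + t ^ 2 * v ^ 2) ^ 3) v := by
    intro v _
    have h1 : HasDerivAt (fun v : ℝ => s ^ 2 + t ^ 2 * v ^ 2) (t ^ 2 * (2 * v)) v := by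
      have := ((hasDerivAt_pow 2 v).const_mul (t ^ 2)).const_add (s ^ 2)
      simpa using this
    have h2 : HasDerivAt (fun v : ℝ => v * (t ^ 2 * v ^ 2 - s ^ 2))
        (1 * (t ^ 2 * v ^ 2 - s ^ 2) + v * (t ^ 2 * (2 * v))) v := by
      have h3 : HasDerivAt (fun v : ℝ => t ^ 2 * v ^ 2 - s ^ 2) (t ^ 2 * (2 * v)) v := by
        have := ((hasDerivAt_pow 2 v).const_mul (t ^ 2)).sub_const (s ^ 2)
        simpa using this
      exact (hasDerivAt_id v).mul h3
    have h4 : HasDerivAt (fun v : ℝ => 8 * s ^ 2 * t ^ 2 * (s ^ 2 + t ^ 2 * v ^ 2) ^ 2)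
        (8 * s ^ 2 * t ^ 2 * (2 * (s ^ 2 + t ^ 2 * v ^ 2) * (t ^ 2 * (2 * v)))) v := by
      have := (h1.pow 2).const_mul (8 * s ^ 2 * t ^ 2)
      simpa using this
    have h5 := h2.div h4 (by positivity)
    have h6 : HasDerivAt (fun v : ℝ => Real.arctan (v * t / s))
        (1 / (1 + (v * t / s) ^ 2) * (1 * t / s)) v := by
      have h7 : HasDerivAt (fun v : ℝ => v * t / s) (1 * t / s) v :=
        ((hasDerivAt_id v).mul_const t).div_const s
      exact (Real.hasDerivAt_arctan (v * t / s)).comp v h7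
    have h8 := h5.add (h6.div_const (8 * s ^ 3 * t ^ 3))
    refine h8.congr_deriv ?_
    have hDv := hD v
    have e1 : 1 + (v * t / s) ^ 2 = (s ^ 2 + t ^ 2 * v ^ 2) / s ^ 2 := by
      field_simp; try ring
    rw [e1]
    field_simp
    ring
  have hpos : ∀ v ∈ Ioi (0 : ℝ), 0 ≤ v ^ 2 / (s ^ 2 + t ^ 2 * v ^ 2) ^ 3 := fun v _ => by
    have := hD v
    positivity
  have hlim : Tendsto F atTop (𝓝 (Real.pi / (16 * s ^ 3 * t ^ 3))) := by
    have h1 : Tendsto (fun v : ℝ => v * (t ^ 2 * v ^ 2 - s ^ 2) / (8 * s ^ 2 * t ^ 2 *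
        (s ^ 2 + t ^ 2 * v ^ 2) ^ 2)) atTop (𝓝 0) := by
      have h2 : Tendsto (fun v : ℝ => 1 / (8 * s ^ 2 * t ^ 4) * v⁻¹) atTop (𝓝 0) := by
        have h := (tendsto_inv_atTop_zero (𝕜 := ℝ)).const_mul (1 / (8 * s ^ 2 * t ^ 4))
        rwa [mul_zero] at h
      refine squeeze_zero_norm' ?_ h2
      filter_upwards [eventually_gt_atTop 0] with v hv
      have hDv := hD v
      rw [norm_div, norm_mul, Real.norm_of_nonneg hv.le,
        Real.norm_of_nonneg (by positivity : 0 ≤ 8 * s ^ 2 * t ^ 2 * (s ^ 2 + t ^ 2 * v ^ 2) ^ 2),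
        Real.norm_eq_abs, div_le_iff₀ (by positivity)]
      have h3 : |t ^ 2 * v ^ 2 - s ^ 2| ≤ s ^ 2 + t ^ 2 * v ^ 2 := by
        rw [abs_le]
        constructor <;> nlinarith [sq_nonneg s, sq_nonneg (t * v)]
      have h4 : v * |t ^ 2 * v ^ 2 - s ^ 2| ≤ v * (s ^ 2 + t ^ 2 * v ^ 2) :=
        mul_le_mul_of_nonneg_left h3 hv.le
      refine h4.trans ?_
      have h5 : 1 / (8 * s ^ 2 * t ^ 4) * v⁻¹ * (8 * s ^ 2 * t ^ 2 * (s ^ 2 + t ^ 2 * v ^ 2) ^ 2) =
          (s ^ 2 + t ^ 2 * v ^ 2) * ((s ^ 2 + t ^ 2 * v ^ 2) / (t ^ 2 * v)) := by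
        field_simp
      rw [h5]
      have h6 : v ≤ (s ^ 2 + t ^ 2 * v ^ 2) / (t ^ 2 * v) := by
        rw [le_div_iff₀ (by positivity)]
        nlinarith [sq_nonneg s]
      nlinarith [mul_le_mul_of_nonneg_left h6 hDv.le]
    have h2 : Tendsto (fun v : ℝ => Real.arctan (v * t / s) / (8 * s ^ 3 * t ^ 3)) atTop
        (𝓝 (Real.pi / 2 / (8 * s ^ 3 * t ^ 3))) := by
      have h3 : Tendsto (fun v : ℝ => v * t / s) atTop atTop :=
        (tendsto_id.atTop_mul_const ht).atTop_div_const hs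
      exact ((tendsto_nhds_of_tendsto_nhdsWithin Real.tendsto_arctan_atTop).comp h3).div_const _
    have h3 := h1.add h2
    have e : (0 : ℝ) + Real.pi / 2 / (8 * s ^ 3 * t ^ 3) = Real.pi / (16 * s ^ 3 * t ^ 3) := by
      field_simp; ring
    rwa [e] at h3
  refine ⟨integrableOn_Ioi_deriv_of_nonneg' hder hpos hlim, ?_⟩
  rw [integral_Ioi_of_hasDerivAt_of_nonneg' hder hpos hlim]
  simp [hF]

/-- second integral -/
theorem J2 {α Δ : ℝ} (hα : 0 < α) (hΔ : 0 < Δ) (z₀ : E2) :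
    ∫⁻ z : E2, ENNReal.ofReal (((α * ‖z - z₀‖ ^ 2 + Δ) ^ 3)⁻¹) =
      ENNReal.ofReal (Real.pi / (2 * α * Δ ^ 2)) := by
  set f : ℝ → ℝ := fun t => ((α * t ^ 2 + Δ) ^ 3)⁻¹ with hf
  set F : ℝ → ℝ := fun t => -(1 / (4 * α)) * ((α * t ^ 2 + Δ) ^ 2)⁻¹ with hF
  have hD : ∀ t : ℝ, 0 < α * t ^ 2 + Δ := fun t => by positivity
  have hder : ∀ t ∈ Ici (0 : ℝ), HasDerivAt F (t * f t) t := by
    intro t _
    have h1 : HasDerivAt (fun t : ℝ => α * t ^ 2 + Δ) (α * (2 * t)) t := by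
      have := ((hasDerivAt_pow 2 t).const_mul α).add_const Δ
      simpa using this
    have h2 : HasDerivAt (fun t : ℝ => (α * t ^ 2 + Δ) ^ 2)
        (2 * (α * t ^ 2 + Δ) * (α * (2 * t))) t := by
      have := h1.fun_pow 2
      simpa using this
    have h3 := (h2.inv (pow_pos (hD t) 2).ne').const_mul (-(1 / (4 * α)))
    refine h3.congr_deriv ?_
    have := hD t
    rw [hf]
    field_simp
    try ring
  have hpos : ∀ t ∈ Ioi (0 : ℝ), 0 ≤ t * f t := fun t ht => by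
    have := hD t
    have h0 : 0 < t := ht
    rw [hf]
    positivity
  have hlim : Tendsto F atTop (𝓝 0) := by
    have h1 : Tendsto (fun t : ℝ => (α * t ^ 2 + Δ) ^ 2) atTop atTop := by
      have h2 : Tendsto (fun t : ℝ => α * t ^ 2 + Δ) atTop atTop :=
        tendsto_atTop_add_const_right _ _ ((tendsto_pow_atTop two_ne_zero).const_mul_atTop hα)
      exact (tendsto_pow_atTop two_ne_zero).comp h2
    have h3 := h1.inv_tendsto_atTop.const_mul (-(1 / (4 * α)))
    rw [mul_zero] at h3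
    exact h3
  have hI1 : IntegrableOn (fun t => t * f t) (Ioi 0) := integrableOn_Ioi_deriv_of_nonneg' hder hpos hlim
  have hv : ∫ t in Ioi (0 : ℝ), t * f t = 1 / (4 * α * Δ ^ 2) := by
    rw [integral_Ioi_of_hasDerivAt_of_nonneg' hder hpos hlim]
    simp only [hF]
    have := hΔ
    field_simp
    simp
  have hfin : Module.finrank ℝ E2 = 2 := by simp
  have hI2 : Integrable (fun z : E2 => f ‖z‖) := by
    rw [integrable_fun_norm_addHaar (volume : Measure E2) (f := f), hfin]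
    refine hI1.congr_fun (fun t _ => ?_) measurableSet_Ioi
    simp
  have hv2 : ∫ z : E2, f ‖z‖ = Real.pi / (2 * α * Δ ^ 2) := by
    rw [integral_fun_norm_addHaar (volume : Measure E2) f, hfin]
    have h4 : volume.real (ball (0 : E2) 1) = Real.pi := by
      rw [Measure.real, EuclideanSpace.volume_ball_fin_two]
      simp [Real.pi_nonneg]
    rw [h4]
    have : ∫ y in Ioi (0 : ℝ), y ^ (2 - 1) • f y = ∫ t in Ioi (0 : ℝ), t * f t := by
      refine setIntegral_congr_fun measurableSet_Ioi fun t _ => ?_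
      simp
    rw [this, hv]
    simp only [smul_eq_mul, nsmul_eq_mul]
    push_cast
    field_simp
    norm_num
  have h5 : ∫⁻ z : E2, ENNReal.ofReal (((α * ‖z - z₀‖ ^ 2 + Δ) ^ 3)⁻¹) =
      ∫⁻ z : E2, ENNReal.ofReal (f ‖z‖) :=
    lintegral_sub_right_eq_self (fun z : E2 => ENNReal.ofReal (f ‖z‖)) z₀
  rw [h5, ← ofReal_integral_eq_lintegral_ofReal hI2, hv2]
  exact Eventually.of_forall fun z => by
    have := hD ‖z‖
    simp only [hf, Pi.zero_apply]
    positivity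

/-- third integral -/
theorem J3 {a b c : ℝ} (ha : 0 < a) (hb : 0 < b) (hc : 0 < c) :
    IntegrableOn (fun v : ℝ => (1 + (v ^ 2)⁻¹) * (((b * v - a / v) ^ 2 + c ^ 2) ^ 2)⁻¹) (Ioi 0) ∧
    ∫ v in Ioi (0 : ℝ), (1 + (v ^ 2)⁻¹) * (((b * v - a / v) ^ 2 + c ^ 2) ^ 2)⁻¹ =
      (1 / a + 1 / b) * (Real.pi / (4 * c ^ 3)) := by
  set H : ℝ → ℝ := fun q => q / (2 * c ^ 2 * (q ^ 2 + c ^ 2)) + Real.arctan (q / c) / (2 * c ^ 3)
    with hH
  set G : ℝ → ℝ := fun q => ((q ^ 2 + c ^ 2) ^ 2)⁻¹ with hG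
  have hGpos : ∀ q, 0 ≤ G q := fun q => by simp only [hG]; positivity
  have hHder : ∀ q, HasDerivAt H (G q) q := by
    intro q
    have h1 : HasDerivAt (fun q : ℝ => 2 * c ^ 2 * (q ^ 2 + c ^ 2)) (2 * c ^ 2 * (2 * q)) q := by
      have := (((hasDerivAt_pow 2 q).add_const (c ^ 2)).const_mul (2 * c ^ 2))
      simpa using this
    have h2 := (hasDerivAt_id q).div h1 (by positivity)
    have h3' : HasDerivAt (fun q : ℝ => q / c) (1 / c) q := (hasDerivAt_id q).div_const c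
    have h3 : HasDerivAt (fun q : ℝ => Real.arctan (q / c)) (1 / (1 + (q / c) ^ 2) * (1 / c)) q :=
      h3'.arctan
    have h4 := h2.add (h3.div_const (2 * c ^ 3))
    refine h4.congr_deriv ?_
    simp only [hG, id]
    have e1 : 1 + (q / c) ^ 2 = (q ^ 2 + c ^ 2) / c ^ 2 := by
      field_simp; try ring
    rw [e1]
    have : 0 < q ^ 2 + c ^ 2 := by positivity
    field_simp
    ring
  have hHtop : Tendsto H atTop (𝓝 (Real.pi / (4 * c ^ 3))) := by
    have h1 : Tendsto (fun q : ℝ => q / (2 * c ^ 2 * (q ^ 2 + c ^ 2))) atTop (𝓝 0) := by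
      have h2 : Tendsto (fun q : ℝ => 1 / (2 * c ^ 2) * q⁻¹) atTop (𝓝 0) := by
        have h := (tendsto_inv_atTop_zero (𝕜 := ℝ)).const_mul (1 / (2 * c ^ 2))
        rwa [mul_zero] at h
      refine squeeze_zero_norm' ?_ h2
      filter_upwards [eventually_gt_atTop 0] with q hq
      rw [Real.norm_of_nonneg (by positivity), div_le_iff₀ (by positivity)]
      have : 1 / (2 * c ^ 2) * q⁻¹ * (2 * c ^ 2 * (q ^ 2 + c ^ 2)) = q + c ^ 2 / q := by
        field_simp
      rw [this]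
      have : 0 < c ^ 2 / q := by positivity
      linarith
    have h3 : Tendsto (fun q : ℝ => Real.arctan (q / c) / (2 * c ^ 3)) atTop
        (𝓝 (Real.pi / 2 / (2 * c ^ 3))) :=
      ((tendsto_nhds_of_tendsto_nhdsWithin Real.tendsto_arctan_atTop).comp
        (tendsto_id.atTop_div_const hc)).div_const _
    have h4 := h1.add h3
    have e : (0 : ℝ) + Real.pi / 2 / (2 * c ^ 3) = Real.pi / (4 * c ^ 3) := by
      field_simp; ring
    rwa [e] at h4
  have hHodd : ∀ q, H (-q) = -H q := by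
    intro q
    simp only [hH]
    rw [neg_div c q, Real.arctan_neg]
    ring
  have hHbot : Tendsto H atBot (𝓝 (-(Real.pi / (4 * c ^ 3)))) := by
    have h1 : H = fun q => -H (-q) := by funext q; rw [hHodd]; ring
    rw [h1]
    exact (hHtop.comp tendsto_neg_atBot_atTop).neg
  set q : ℝ → ℝ := fun v => b * v - a / v with hq
  set F : ℝ → ℝ := fun v => if v ≤ 0 then -(Real.pi / (4 * c ^ 3)) else H (q v) with hF
  have hqder : ∀ v : ℝ, 0 < v → HasDerivAt q (b + a * (v ^ 2)⁻¹) v := by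
    intro v hv
    have h1 : HasDerivAt (fun v : ℝ => a / v) (-(a * (v ^ 2)⁻¹)) v := by
      have := (hasDerivAt_inv hv.ne').const_mul a
      simp only [div_eq_mul_inv]
      refine this.congr_deriv ?_
      ring
    have h2 := ((hasDerivAt_id v).const_mul b).sub h1
    refine h2.congr_deriv ?_
    ring
  have hFder : ∀ v ∈ Ioi (0 : ℝ), HasDerivAt F ((b + a * (v ^ 2)⁻¹) * G (q v)) v := by
    intro v hv
    have h1 : F =ᶠ[𝓝 v] fun v => H (q v) := by
      filter_upwards [lt_mem_nhds (show (0 : ℝ) < v from hv)] with w hw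
      simp only [hF, if_neg (not_le.mpr hw)]
    refine HasDerivAt.congr_of_eventuallyEq ?_ h1
    have h2 := (hHder (q v)).comp v (hqder v hv)
    refine h2.congr_deriv ?_
    ring
  have hFcont : ContinuousWithinAt F (Ici 0) 0 := by
    have h1 : ContinuousWithinAt F (Ioi 0) 0 := by
      have hF0 : F 0 = -(Real.pi / (4 * c ^ 3)) := by simp [hF]
      rw [ContinuousWithinAt, hF0]
      have h2 : Tendsto q (𝓝[>] 0) atBot := by
        have h3 : Tendsto (fun v : ℝ => a / v) (𝓝[>] 0) atTop := by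
          simp only [div_eq_mul_inv]
          exact tendsto_inv_nhdsGT_zero.const_mul_atTop ha
        have h4 : Tendsto (fun v : ℝ => b * v) (𝓝[>] 0) (𝓝 (b * 0)) :=
          ((continuous_const.mul continuous_id).tendsto 0).mono_left nhdsWithin_le_nhds
        simp only [hq, sub_eq_add_neg]
        exact h4.add_atBot (tendsto_neg_atTop_atBot.comp h3)
      refine (hHbot.comp h2).congr' ?_
      filter_upwards [self_mem_nhdsWithin] with v hv
      simp only [hF, if_neg (not_le.mpr (show (0 : ℝ) < v from hv)), Function.comp]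
    have h5 : ContinuousWithinAt F (insert 0 (Ioi 0)) 0 := continuousWithinAt_insert_self.mpr h1
    have h6 : insert (0 : ℝ) (Ioi 0) = Ici 0 := Ioi_insert
    rwa [h6] at h5
  have hpos : ∀ v ∈ Ioi (0 : ℝ), 0 ≤ (b + a * (v ^ 2)⁻¹) * G (q v) := fun v hv => by
    have := hGpos (q v)
    positivity
  have hFlim : Tendsto F atTop (𝓝 (Real.pi / (4 * c ^ 3))) := by
    have h2 : Tendsto q atTop atTop := by
      have h3 : Tendsto (fun v : ℝ => a / v) atTop (𝓝 0) := tendsto_const_nhds.div_atTop tendsto_id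
      have h4 : Tendsto (fun v : ℝ => b * v) atTop atTop := tendsto_id.const_mul_atTop hb
      simp only [hq, sub_eq_add_neg]
      exact h4.atTop_add h3.neg
    refine (hHtop.comp h2).congr' ?_
    filter_upwards [eventually_gt_atTop 0] with v hv
    simp only [hF, if_neg (not_le.mpr hv), Function.comp]
  have hI : IntegrableOn (fun v => (b + a * (v ^ 2)⁻¹) * G (q v)) (Ioi 0) :=
    integrableOn_Ioi_deriv_of_nonneg hFcont hFder hpos hFlim
  have hval : ∫ v in Ioi (0 : ℝ), (b + a * (v ^ 2)⁻¹) * G (q v) = Real.pi / (2 * c ^ 3) := by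
    rw [integral_Ioi_of_hasDerivAt_of_nonneg hFcont hFder hpos hFlim]
    have hF0 : F 0 = -(Real.pi / (4 * c ^ 3)) := by simp [hF]
    rw [hF0]
    field_simp
    norm_num
  have hqm : Measurable q := by
    simp only [hq]; fun_prop
  have hGm : Measurable G := by simp only [hG]; fun_prop
  have hGqm : Measurable (fun v => G (q v)) := hGm.comp hqm
  have hI1 : IntegrableOn (fun v => G (q v)) (Ioi 0) := by
    refine (hI.const_mul (1 / b)).mono' hGqm.aestronglyMeasurable ?_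
    refine (ae_restrict_iff' measurableSet_Ioi).mpr (Eventually.of_forall fun v hv => ?_)
    have h0 : 0 < v := hv
    rw [Real.norm_of_nonneg (hGpos _)]
    have e1 : 1 / b * ((b + a * (v ^ 2)⁻¹) * G (q v)) = G (q v) + a / b * (v ^ 2)⁻¹ * G (q v) := by
      field_simp
    rw [e1]
    have := hGpos (q v)
    have : 0 ≤ a / b * (v ^ 2)⁻¹ * G (q v) := by positivity
    linarith
  have hI2 : IntegrableOn (fun v => (v ^ 2)⁻¹ * G (q v)) (Ioi 0) := by
    refine (hI.const_mul (1 / a)).mono' (((measurable_id.pow_const 2).inv).mul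
      hGqm).aestronglyMeasurable ?_
    refine (ae_restrict_iff' measurableSet_Ioi).mpr (Eventually.of_forall fun v hv => ?_)
    have h0 : 0 < v := hv
    have h1 := hGpos (q v)
    rw [Real.norm_of_nonneg (by positivity)]
    have e1 : 1 / a * ((b + a * (v ^ 2)⁻¹) * G (q v)) =
        b / a * G (q v) + (v ^ 2)⁻¹ * G (q v) := by
      field_simp
    rw [e1]
    have : 0 ≤ b / a * G (q v) := by positivity
    linarith
  -- inversion
  have hinv : ∫ v in Ioi (0 : ℝ), G (q v) = a / b * ∫ v in Ioi (0 : ℝ), (v ^ 2)⁻¹ * G (q v) := by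
    have h1 : ∫ y in Ioi (0 : ℝ), G (q y) = (a / b) * ∫ y in Ioi (0 : ℝ), G (q (a / b * y)) := by
      have := integral_comp_mul_left_Ioi' (fun y => G (q y)) 0 (div_pos ha hb)
      simpa using this.symm
    have h2 := integral_comp_rpow_Ioi (fun y => G (q (a / b * y))) (p := -1) (by norm_num)
    rw [h1, ← h2]
    congr 1
    refine setIntegral_congr_fun measurableSet_Ioi fun v hv => ?_
    have h0 : 0 < v := hv
    simp only [smul_eq_mul]
    have e1 : |(-1 : ℝ)| * v ^ ((-1 : ℝ) - 1) = (v ^ 2)⁻¹ := by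
      rw [abs_neg, abs_one, one_mul, show ((-1 : ℝ) - 1) = -(2 : ℝ) by norm_num,
        Real.rpow_neg h0.le]
      norm_cast
    have e2 : v ^ (-1 : ℝ) = v⁻¹ := Real.rpow_neg_one v
    rw [e1, e2]
    congr 1
    have e3 : q (a / b * v⁻¹) = -q v := by
      simp only [hq]
      field_simp
      ring
    rw [e3]
    simp only [hG]
    rw [neg_sq]
  have hsum : ∫ v in Ioi (0 : ℝ), (b + a * (v ^ 2)⁻¹) * G (q v) =
      b * (∫ v in Ioi (0 : ℝ), G (q v)) + a * ∫ v in Ioi (0 : ℝ), (v ^ 2)⁻¹ * G (q v) := by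
    rw [← integral_const_mul, ← integral_const_mul, ← integral_add (hI1.const_mul b)
      (hI2.const_mul a)]
    refine setIntegral_congr_fun measurableSet_Ioi fun v hv => ?_
    ring
  have hsplit : (fun v : ℝ => (1 + (v ^ 2)⁻¹) * (((b * v - a / v) ^ 2 + c ^ 2) ^ 2)⁻¹) =
      fun v => G (q v) + (v ^ 2)⁻¹ * G (q v) := by
    funext v
    simp only [hG, hq]
    ring
  rw [hsplit]
  refine ⟨hI1.add hI2, ?_⟩
  rw [integral_add hI1 hI2]
  rw [hval] at hsum
  set I1 := ∫ v in Ioi (0 : ℝ), G (q v)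
  set I2 := ∫ v in Ioi (0 : ℝ), (v ^ 2)⁻¹ * G (q v)
  have h9 : I2 = Real.pi / (4 * c ^ 3) / a := by
    rw [hinv] at hsum
    have : b * (a / b * I2) + a * I2 = 2 * a * I2 := by field_simp; ring
    rw [this] at hsum
    field_simp at hsum ⊢
    linarith
  rw [hinv, h9]
  field_simp
  ring

/-- completing the square -/
theorem complete_sq (p q z : E2) (v : ℝ) :
    ‖p - z‖ ^ 2 + v ^ 2 * ‖q - z‖ ^ 2 =
      (1 + v ^ 2) * ‖z - (1 + v ^ 2)⁻¹ • (p + v ^ 2 • q)‖ ^ 2 +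
        v ^ 2 / (1 + v ^ 2) * ‖p - q‖ ^ 2 := by
  have hv : (1 + v ^ 2) ≠ 0 := by positivity
  have e1 : z - (1 + v ^ 2)⁻¹ • (p + v ^ 2 • q) =
      -((1 + v ^ 2)⁻¹ • ((p - z) + v ^ 2 • (q - z))) := by
    have : z = (1 + v ^ 2)⁻¹ • ((1 + v ^ 2) • z) := by rw [smul_smul, inv_mul_cancel₀ hv, one_smul]
    nth_rewrite 1 [this]
    rw [← smul_sub, ← smul_neg]
    congr 1
    rw [add_smul, one_smul, smul_sub]
    abel
  have e2 : p - q = (p - z) - (q - z) := by abel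
  rw [e1, e2, norm_neg, norm_smul, mul_pow, norm_sub_sq_real (p - z) (q - z),
    norm_add_sq_real (p - z) (v ^ 2 • (q - z)), norm_smul, inner_smul_right]
  simp only [norm_inv, Real.norm_eq_abs, abs_of_nonneg (by positivity : (0 : ℝ) ≤ 1 + v ^ 2),
    abs_of_nonneg (sq_nonneg v)]
  set P := ‖p - z‖
  set Q := ‖q - z‖
  set I := ⟪p - z, q - z⟫
  field_simp
  ring

/-- the semigroup identity -/
theorem poisson_semigroup {a b : ℝ} (ha : 0 < a) (hb : 0 < b) (p q : E2) :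
    ∫⁻ z : E2, ENNReal.ofReal ((√(a ^ 2 + ‖p - z‖ ^ 2) ^ 3)⁻¹ * (√(b ^ 2 + ‖q - z‖ ^ 2) ^ 3)⁻¹) =
      ENNReal.ofReal (2 * Real.pi * (a + b) / (a * b) *
        (√((a + b) ^ 2 + ‖p - q‖ ^ 2) ^ 3)⁻¹) := by
  set c : ℝ := √((a + b) ^ 2 + ‖p - q‖ ^ 2) with hc
  have hc0 : 0 < c := Real.sqrt_pos.mpr (by positivity)
  have hc2 : c ^ 2 = (a + b) ^ 2 + ‖p - q‖ ^ 2 := Real.sq_sqrt (by positivity)
  set K : E2 → ℝ → ℝ := fun z v =>
    v ^ 2 / (a ^ 2 + ‖p - z‖ ^ 2 + (b ^ 2 + ‖q - z‖ ^ 2) * v ^ 2) ^ 3 with hK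
  have hKm : Measurable (Function.uncurry K) := by
    have : Continuous (fun w : E2 × ℝ => a ^ 2 + ‖p - w.1‖ ^ 2 + (b ^ 2 + ‖q - w.1‖ ^ 2) * w.2 ^ 2) := by
      fun_prop
    exact (measurable_snd.pow_const 2).div (this.measurable.pow_const 3)
  have hK0 : ∀ z v, 0 ≤ K z v := fun z v => by simp only [hK]; positivity
  have h1 : ∀ z : E2, ENNReal.ofReal ((√(a ^ 2 + ‖p - z‖ ^ 2) ^ 3)⁻¹ *
      (√(b ^ 2 + ‖q - z‖ ^ 2) ^ 3)⁻¹) =
      ENNReal.ofReal (16 / Real.pi) * ∫⁻ v in Ioi (0 : ℝ), ENNReal.ofReal (K z v) := by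
    intro z
    have hs : 0 < √(a ^ 2 + ‖p - z‖ ^ 2) := Real.sqrt_pos.mpr (by positivity)
    have ht : 0 < √(b ^ 2 + ‖q - z‖ ^ 2) := Real.sqrt_pos.mpr (by positivity)
    obtain ⟨j1, j2⟩ := J1 hs ht
    have e1 : ∀ v : ℝ, v ^ 2 / (√(a ^ 2 + ‖p - z‖ ^ 2) ^ 2 + √(b ^ 2 + ‖q - z‖ ^ 2) ^ 2 * v ^ 2) ^ 3
        = K z v := by
      intro v
      rw [Real.sq_sqrt (by positivity), Real.sq_sqrt (by positivity)]
    simp_rw [e1] at j1 j2
    rw [← ofReal_integral_eq_lintegral_ofReal j1 (Eventually.of_forall fun v => hK0 z v), j2,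
      ← ENNReal.ofReal_mul (by positivity)]
    congr 1
    have := Real.pi_pos
    field_simp
  simp_rw [h1]
  have hKm' : Measurable (fun w : E2 × ℝ => ENNReal.ofReal (K w.1 w.2)) := hKm.ennreal_ofReal
  rw [lintegral_const_mul' _ _ ENNReal.ofReal_ne_top,
    lintegral_lintegral_swap (μ := (volume : Measure E2)) (ν := volume.restrict (Ioi (0 : ℝ)))
      (f := fun z v => ENNReal.ofReal (K z v)) hKm'.aemeasurable]
  have h2 : ∫⁻ v in Ioi (0 : ℝ), ∫⁻ z : E2, ENNReal.ofReal (K z v) =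
      ∫⁻ v in Ioi (0 : ℝ), ENNReal.ofReal (Real.pi / 2 *
        ((1 + (v ^ 2)⁻¹) * (((b * v - a / v) ^ 2 + c ^ 2) ^ 2)⁻¹)) := by
    refine setLIntegral_congr_fun measurableSet_Ioi fun v hv => ?_
    have hv0 : 0 < v := hv
    set Δ : ℝ := a ^ 2 + b ^ 2 * v ^ 2 + v ^ 2 / (1 + v ^ 2) * ‖p - q‖ ^ 2 with hΔ
    have hΔ0 : 0 < Δ := by positivity
    have e1 : ∀ z : E2, ENNReal.ofReal (K z v) = ENNReal.ofReal (v ^ 2) *
        ENNReal.ofReal ((((1 + v ^ 2) * ‖z - (1 + v ^ 2)⁻¹ • (p + v ^ 2 • q)‖ ^ 2 + Δ) ^ 3)⁻¹) := by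
      intro z
      rw [← ENNReal.ofReal_mul (by positivity)]
      congr 1
      simp only [hK]
      rw [div_eq_mul_inv]
      congr 3
      rw [hΔ]
      have := complete_sq p q z v
      linarith
    simp_rw [e1]
    rw [lintegral_const_mul' _ _ ENNReal.ofReal_ne_top, J2 (by positivity) hΔ0,
      ← ENNReal.ofReal_mul (by positivity)]
    congr 1
    have e2 : Δ * (1 + v ^ 2) = v ^ 2 * ((b * v - a / v) ^ 2 + c ^ 2) := by
      rw [hc2, hΔ]
      field_simp
      ring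
    have e3 : Δ = v ^ 2 * ((b * v - a / v) ^ 2 + c ^ 2) / (1 + v ^ 2) := by
      rw [← e2]; field_simp
    rw [e3]
    have e4 : 0 < (b * v - a / v) ^ 2 + c ^ 2 := by positivity
    set Y := (b * v - a / v) ^ 2 + c ^ 2 with hY
    field_simp
    ring
  rw [h2]
  obtain ⟨j1, j2⟩ := J3 ha hb hc0
  rw [← ofReal_integral_eq_lintegral_ofReal (j1.const_mul _)
    (Eventually.of_forall fun v => by simp only [Pi.zero_apply]; positivity), integral_const_mul, j2,
    ← ENNReal.ofReal_mul (by positivity)]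
  congr 1
  have := Real.pi_pos
  field_simp
  ring

end Pool.Agent.TF
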