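import Pool.Agent.Lib.MP_9cf0c9_mp.Kernel

/-! Newtonian potentials, their directional derivatives, energy and force forms. -/

set_option linter.unusedSectionVars false
set_option linter.unusedVariables false
set_option linter.style.haveILetI false

namespace Pool.Agent.TF
open MeasureTheory Set Metric Filter Topology
open scoped ENNReal NNReal RealInnerProductSpace

variable {V : Type*} [NormedAddCommGroup V] [InnerProductSpace ℝ V] [FiniteDimensional ℝ V]
  [MeasurableSpace V] [BorelSpace V]

/-- Newtonian potential of a density -/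
noncomputable def pot (f : V → ℝ) (x : V) : ℝ := ∫ y, ‖x - y‖⁻¹ * f y

/-- derivative of the potential in direction `e` -/
noncomputable def grad (e : V) (f : V → ℝ) (x : V) : ℝ :=
  ∫ y, -(⟪x - y, e⟫ * (‖x - y‖ ^ 3)⁻¹) * f y

/-- Coulomb energy form -/
noncomputable def En (f g : V → ℝ) : ℝ := ∫ x, f x * pot g x

/-- force form -/
noncomputable def Fo (e : V) (f g : V → ℝ) : ℝ := ∫ x, f x * grad e g x

theorem ker_pot : Ker (fun v : V => ‖v‖⁻¹) where
  meas := measurable_norm.inv
  cont v hv := by
    have : ‖v‖ ≠ 0 := norm_ne_zero_iff.mpr hv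
    fun_prop (disch := assumption)
  bd := by
    refine ⟨1, zero_le_one, fun v => ?_⟩
    rw [abs_of_nonneg (by positivity), one_mul, ← inv_pow]
    nlinarith [sq_nonneg (‖v‖⁻¹ - 1)]

theorem ker_grad (e : V) : Ker (fun v : V => -(⟪v, e⟫ * (‖v‖ ^ 3)⁻¹)) where
  meas := ((measurable_id.inner measurable_const).mul (measurable_norm.pow_const 3).inv).neg
  cont v hv := by
    have : ‖v‖ ^ 3 ≠ 0 := pow_ne_zero _ (norm_ne_zero_iff.mpr hv)
    fun_prop (disch := assumption)
  bd := by
    refine ⟨‖e‖, norm_nonneg _, fun v => ?_⟩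
    rw [abs_neg, abs_mul, abs_of_nonneg (by positivity : (0 : ℝ) ≤ (‖v‖ ^ 3)⁻¹)]
    have h1 : |⟪v, e⟫| ≤ ‖v‖ * ‖e‖ := abs_real_inner_le_norm v e
    by_cases hv : ‖v‖ = 0
    · simp [hv]
    · have hv2 : 0 < ‖v‖ := lt_of_le_of_ne (norm_nonneg _) (Ne.symm hv)
      calc |⟪v, e⟫| * (‖v‖ ^ 3)⁻¹ ≤ (‖v‖ * ‖e‖) * (‖v‖ ^ 3)⁻¹ :=
            mul_le_mul_of_nonneg_right h1 (by positivity)
        _ = ‖e‖ * (‖v‖ ^ 2)⁻¹ := by field_simp
        _ ≤ ‖e‖ * (1 + (‖v‖ ^ 2)⁻¹) := by
            gcongr
            linarith

section dim3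
variable [hd : Fact (Module.finrank ℝ V = 3)]

theorem pot_integrable {f : V → ℝ} (hf : BC f) (x : V) :
    Integrable (fun y => ‖x - y‖⁻¹ * f y) := ker_pot.integrable hf x

theorem grad_integrable {f : V → ℝ} (hf : BC f) (e x : V) :
    Integrable (fun y => -(⟪x - y, e⟫ * (‖x - y‖ ^ 3)⁻¹) * f y) := (ker_grad e).integrable hf x

theorem pot_continuous {f : V → ℝ} (hf : BC f) : Continuous (pot f) :=
  ker_pot.continuous_conv hf

theorem grad_continuous {f : V → ℝ} (hf : BC f) (e : V) : Continuous (grad e f) :=
  (ker_grad e).continuous_conv hf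

theorem pot_bound {f : V → ℝ} (hf : BC f) : ∃ B, ∀ x, |pot f x| ≤ B := ker_pot.bound hf

theorem grad_bound {f : V → ℝ} (hf : BC f) (e : V) : ∃ B, ∀ x, |grad e f x| ≤ B :=
  (ker_grad e).bound hf

/-! ### linearity -/

theorem pot_add {f g : V → ℝ} (hf : BC f) (hg : BC g) (x : V) :
    pot (fun y => f y + g y) x = pot f x + pot g x := by
  unfold pot
  rw [← integral_add (pot_integrable hf x) (pot_integrable hg x)]
  exact integral_congr_ae (Eventually.of_forall fun y => by ring)

theorem pot_const_mul (c : ℝ) (f : V → ℝ) (x : V) :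
    pot (fun y => c * f y) x = c * pot f x := by
  unfold pot
  rw [← integral_const_mul]
  exact integral_congr_ae (Eventually.of_forall fun y => by ring)

theorem pot_neg (f : V → ℝ) (x : V) : pot (fun y => -f y) x = -pot f x := by
  simpa using pot_const_mul (-1) f x

theorem pot_sub {f g : V → ℝ} (hf : BC f) (hg : BC g) (x : V) :
    pot (fun y => f y - g y) x = pot f x - pot g x := by
  unfold pot
  rw [← integral_sub (pot_integrable hf x) (pot_integrable hg x)]
  exact integral_congr_ae (Eventually.of_forall fun y => by ring)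

theorem grad_add {f g : V → ℝ} (hf : BC f) (hg : BC g) (e x : V) :
    grad e (fun y => f y + g y) x = grad e f x + grad e g x := by
  unfold grad
  rw [← integral_add (grad_integrable hf e x) (grad_integrable hg e x)]
  exact integral_congr_ae (Eventually.of_forall fun y => by ring)

theorem grad_sub {f g : V → ℝ} (hf : BC f) (hg : BC g) (e x : V) :
    grad e (fun y => f y - g y) x = grad e f x - grad e g x := by
  unfold grad
  rw [← integral_sub (grad_integrable hf e x) (grad_integrable hg e x)]
  exact integral_congr_ae (Eventually.of_forall fun y => by ring)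

theorem grad_const_mul (c : ℝ) (f : V → ℝ) (e x : V) :
    grad e (fun y => c * f y) x = c * grad e f x := by
  unfold grad
  rw [← integral_const_mul]
  exact integral_congr_ae (Eventually.of_forall fun y => by ring)

theorem pot_congr_ae {f g : V → ℝ} (h : f =ᵐ[volume] g) : pot f = pot g := by
  funext x
  unfold pot
  refine integral_congr_ae ?_
  filter_upwards [h] with y hy
  rw [hy]

theorem pot_nonneg {f : V → ℝ} (hf : ∀ x, 0 ≤ f x) (x : V) : 0 ≤ pot f x :=
  integral_nonneg fun y => mul_nonneg (by positivity) (hf y)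

/-! ### isometries and translations -/

theorem pot_comp_isom (L : V ≃ₗᵢ[ℝ] V) (f : V → ℝ) (x : V) :
    pot (fun y => f (L y)) x = pot f (L x) := by
  unfold pot
  rw [← L.measurePreserving.integral_comp L.toMeasurableEquiv.measurableEmbedding
    (fun y => ‖L x - y‖⁻¹ * f y)]
  refine integral_congr_ae (Eventually.of_forall fun y => ?_)
  simp only
  rw [← map_sub, L.norm_map]

theorem grad_comp_isom (L : V ≃ₗᵢ[ℝ] V) (e : V) (f : V → ℝ) (x : V) :
    grad e (fun y => f (L y)) x = grad (L e) f (L x) := by
  unfold grad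
  rw [← L.measurePreserving.integral_comp L.toMeasurableEquiv.measurableEmbedding
    (fun y => -(⟪L x - y, L e⟫ * (‖L x - y‖ ^ 3)⁻¹) * f y)]
  refine integral_congr_ae (Eventually.of_forall fun y => ?_)
  simp only
  rw [← map_sub, L.norm_map, L.inner_map_map]

theorem pot_translate (f : V → ℝ) (c x : V) :
    pot (fun y => f (y + c)) x = pot f (x + c) := by
  unfold pot
  rw [← integral_add_right_eq_self (fun y => ‖x + c - y‖⁻¹ * f y) c]
  refine integral_congr_ae (Eventually.of_forall fun y => ?_)
  simp only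
  rw [add_sub_add_right_eq_sub]

theorem grad_translate (e : V) (f : V → ℝ) (c x : V) :
    grad e (fun y => f (y + c)) x = grad e f (x + c) := by
  unfold grad
  rw [← integral_add_right_eq_self (fun y => -(⟪x + c - y, e⟫ * (‖x + c - y‖ ^ 3)⁻¹) * f y) c]
  refine integral_congr_ae (Eventually.of_forall fun y => ?_)
  simp only
  rw [add_sub_add_right_eq_sub]

/-! ### the line derivative -/

theorem hasDerivAt_inv_norm_line (v e : V) (s : ℝ) (h : v + s • e ≠ 0) :
    HasDerivAt (fun s : ℝ => ‖v + s • e‖⁻¹)
      (-(⟪v + s • e, e⟫ * (‖v + s • e‖ ^ 3)⁻¹)) s := by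
  have hn : 0 < ‖v + s • e‖ := norm_pos_iff.mpr h
  have h1 : HasDerivAt (fun s : ℝ => v + s • e) e s := by
    simpa using ((hasDerivAt_id s).smul_const e).const_add v
  have h2 : HasDerivAt (fun s : ℝ => ‖v + s • e‖ ^ 2) (2 * ⟪v + s • e, e⟫) s := h1.norm_sq
  have h3 : HasDerivAt (fun s : ℝ => √(‖v + s • e‖ ^ 2))
      (2 * ⟪v + s • e, e⟫ / (2 * √(‖v + s • e‖ ^ 2))) s := h2.sqrt (by positivity)
  have h4 : (fun s : ℝ => √(‖v + s • e‖ ^ 2)) = fun s : ℝ => ‖v + s • e‖ := by
    funext s; exact Real.sqrt_sq (norm_nonneg _)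
  rw [h4, Real.sqrt_sq (norm_nonneg _)] at h3
  have h5 := h3.inv hn.ne'
  refine h5.congr_deriv ?_
  field_simp

theorem line_null (x e : V) : volume {y : V | ∃ s : ℝ, x - y + s • e = 0} = 0 := by
  haveI := nontriv (V := V)
  set A : AffineSubspace ℝ V := AffineSubspace.mk' x (Submodule.span ℝ {e}) with hA
  have hne : A ≠ ⊤ := by
    intro h
    have h1 : A.direction = ⊤ := by rw [h]; exact AffineSubspace.direction_top ℝ V V
    rw [hA, AffineSubspace.direction_mk'] at h1
    have h2 : Module.finrank ℝ (Submodule.span ℝ {e} : Submodule ℝ V) ≤ 1 := by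
      have := finrank_span_le_card (R := ℝ) ({e} : Set V)
      simpa using this
    rw [h1, finrank_top, hd.out] at h2
    omega
  refine measure_mono_null ?_ (Measure.addHaar_affineSubspace volume A hne)
  rintro y ⟨s, hs⟩
  rw [SetLike.mem_coe, hA, AffineSubspace.mem_mk', Submodule.mem_span_singleton]
  refine ⟨s, ?_⟩
  rw [vsub_eq_sub]
  have : s • e = y - x := by
    have h := hs
    rw [sub_add_eq_add_sub, sub_eq_zero] at h
    rw [← h]; abel
  exact this

theorem pot_sub_pot_le {f : V → ℝ} (hf : BC f) (x e : V) {a b : ℝ} (hab : a ≤ b) :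
    pot f (x + b • e) - pot f (x + a • e) = ∫ s in Ioc a b, grad e f (x + s • e) := by
  obtain ⟨M, R, hM0, hR0, hM, hR⟩ := hf.bounds
  obtain ⟨C, hC, hb⟩ := (ker_grad e).bd
  have hmeas : Measurable (fun p : ℝ × V =>
      -(⟪x + p.1 • e - p.2, e⟫ * (‖x + p.1 • e - p.2‖ ^ 3)⁻¹) * f p.2) := by
    have h1 : Measurable (fun p : ℝ × V => x + p.1 • e - p.2) := by fun_prop
    exact ((ker_grad e).meas.comp h1).mul (hf.meas.comp measurable_snd)
  have hint : Integrable (fun p : ℝ × V =>
      -(⟪x + p.1 • e - p.2, e⟫ * (‖x + p.1 • e - p.2‖ ^ 3)⁻¹) * f p.2)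
      ((volume.restrict (Ioc a b)).prod volume) := by
    rw [integrable_prod_iff hmeas.aestronglyMeasurable]
    refine ⟨Eventually.of_forall fun s => grad_integrable hf e (x + s • e), ?_⟩
    have h2 : Integrable (fun _ : ℝ => C * M * cdom V R) (volume.restrict (Ioc a b)) :=
      integrableOn_const (by simp)
    refine h2.mono' hmeas.aestronglyMeasurable.norm.integral_prod_right'
      (Eventually.of_forall fun s => ?_)
    rw [Real.norm_of_nonneg (integral_nonneg fun y => norm_nonneg _)]
    exact ker_int_abs_le (ker_grad e).meas hC hb hf.meas hM hR (x + s • e)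
  unfold grad
  rw [integral_integral_swap hint]
  unfold pot
  rw [← integral_sub (pot_integrable hf _) (pot_integrable hf _)]
  refine integral_congr_ae ?_
  have hnull : ∀ᵐ y : V, ∀ s : ℝ, x - y + s • e ≠ 0 := by
    have := line_null x e
    rw [← compl_compl {y : V | ∃ s : ℝ, x - y + s • e = 0}, ← mem_ae_iff] at this
    filter_upwards [this] with y hy s hs
    exact hy ⟨s, hs⟩
  filter_upwards [hnull] with y hy
  have h3 : ∀ s : ℝ, x + s • e - y = x - y + s • e := fun s => by abel
  simp only [h3]
  rw [← sub_mul, integral_mul_const]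
  congr 1
  rw [← intervalIntegral.integral_of_le hab]
  rw [intervalIntegral.integral_eq_sub_of_hasDerivAt
    (fun s _ => hasDerivAt_inv_norm_line (x - y) e s (hy s))]
  refine Continuous.intervalIntegrable ?_ _ _
  rw [continuous_iff_continuousAt]
  intro s
  exact ((ker_grad e).cont _ (hy s)).comp (f := fun s : ℝ => x - y + s • e)
    (Continuous.continuousAt (by fun_prop))

theorem pot_sub_pot {f : V → ℝ} (hf : BC f) (x e : V) (a b : ℝ) :
    pot f (x + b • e) - pot f (x + a • e) = ∫ s in a..b, grad e f (x + s • e) := by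
  rcases le_total a b with h | h
  · rw [intervalIntegral.integral_of_le h, pot_sub_pot_le hf x e h]
  · rw [intervalIntegral.integral_of_ge h, ← pot_sub_pot_le hf x e h]; ring

theorem hasDerivAt_pot {f : V → ℝ} (hf : BC f) (x e : V) (t : ℝ) :
    HasDerivAt (fun t : ℝ => pot f (x + t • e)) (grad e f (x + t • e)) t := by
  have h1 : (fun t : ℝ => pot f (x + t • e)) =
      fun t : ℝ => pot f (x + (0 : ℝ) • e) + ∫ s in (0 : ℝ)..t, grad e f (x + s • e) := by
    funext t
    rw [← pot_sub_pot hf x e 0 t]; ring
  rw [h1]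
  refine HasDerivAt.const_add _ ?_
  have hc : Continuous (fun s : ℝ => grad e f (x + s • e)) :=
    (grad_continuous hf e).comp (by fun_prop)
  exact intervalIntegral.integral_hasDerivAt_right (hc.intervalIntegrable _ _)
    (hc.stronglyMeasurableAtFilter _ _) hc.continuousAt

/-! ### decay -/

theorem pot_decay {f : V → ℝ} (hf : BC f) {ε : ℝ} (hε : 0 < ε) :
    ∃ R', ∀ x, R' ≤ ‖x‖ → |pot f x| < ε := by
  obtain ⟨M, R, hM0, hR0, hM, hR⟩ := hf.bounds
  set I := ∫ y, |f y| with hI
  have hI0 : 0 ≤ I := integral_nonneg fun y => abs_nonneg _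
  refine ⟨R + (I + 1) / ε, fun x hx => ?_⟩
  have hpos : 0 < (I + 1) / ε := by positivity
  have hx1 : 0 < ‖x‖ - R := by linarith
  have h1 : |pot f x| ≤ ∫ y, (‖x‖ - R)⁻¹ * |f y| := by
    refine (abs_integral_le_integral_abs).trans ?_
    refine integral_mono_of_nonneg (Eventually.of_forall fun y => abs_nonneg _)
      (hf.integrable.abs.const_mul _) (Eventually.of_forall fun y => ?_)
    simp only
    rw [abs_mul, abs_of_nonneg (by positivity : (0 : ℝ) ≤ ‖x - y‖⁻¹)]
    by_cases hy : R ≤ ‖y‖
    · rw [hR y hy]; simp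
    · push Not at hy
      have h2 : ‖x‖ - R ≤ ‖x - y‖ := by
        have := norm_sub_norm_le x y
        linarith
      exact mul_le_mul_of_nonneg_right (inv_anti₀ hx1 h2) (abs_nonneg _)
  rw [integral_const_mul, ← hI] at h1
  refine h1.trans_lt ?_
  rw [inv_mul_lt_iff₀ hx1]
  have h3 : (I + 1) / ε ≤ ‖x‖ - R := by linarith
  rw [div_le_iff₀ hε] at h3
  linarith

/-! ### energy and force forms -/

theorem En_integrable {f g : V → ℝ} (hf : BC f) (hg : BC g) :
    Integrable (fun x => f x * pot g x) := by
  obtain ⟨B, hB⟩ := pot_bound hg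
  exact hf.mul_bdd (pot_continuous hg).measurable hB

theorem Fo_integrable {f g : V → ℝ} (hf : BC f) (hg : BC g) (e : V) :
    Integrable (fun x => f x * grad e g x) := by
  obtain ⟨B, hB⟩ := grad_bound hg e
  exact hf.mul_bdd (grad_continuous hg e).measurable hB

theorem En_symm {f g : V → ℝ} (hf : BC f) (hg : BC g) : En f g = En g f := by
  unfold En pot
  simp_rw [← integral_const_mul]
  rw [integral_integral_swap (ker_pot.integrable_prod hf hg)]
  refine integral_congr_ae (Eventually.of_forall fun x => ?_)
  refine integral_congr_ae (Eventually.of_forall fun y => ?_)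
  simp only
  rw [norm_sub_rev]; ring

theorem Fo_antisymm {f g : V → ℝ} (hf : BC f) (hg : BC g) (e : V) : Fo e f g = -Fo e g f := by
  unfold Fo grad
  simp_rw [← integral_const_mul]
  rw [integral_integral_swap ((ker_grad e).integrable_prod hf hg), ← integral_neg]
  refine integral_congr_ae (Eventually.of_forall fun x => ?_)
  simp only
  rw [← integral_neg]
  refine integral_congr_ae (Eventually.of_forall fun y => ?_)
  simp only
  rw [norm_sub_rev, ← neg_sub x y, inner_neg_left]; ring

theorem Fo_self {f : V → ℝ} (hf : BC f) (e : V) : Fo e f f = 0 := by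
  have := Fo_antisymm hf hf e
  linarith

theorem En_add_left {f g h : V → ℝ} (hf : BC f) (hg : BC g) (hh : BC h) :
    En (fun x => f x + g x) h = En f h + En g h := by
  unfold En
  rw [← integral_add (En_integrable hf hh) (En_integrable hg hh)]
  exact integral_congr_ae (Eventually.of_forall fun y => by ring)

theorem En_add_right {f g h : V → ℝ} (hf : BC f) (hg : BC g) (hh : BC h) :
    En f (fun x => g x + h x) = En f g + En f h := by
  unfold En
  rw [← integral_add (En_integrable hf hg) (En_integrable hf hh)]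
  refine integral_congr_ae (Eventually.of_forall fun y => ?_)
  simp only
  rw [pot_add hg hh]; ring

theorem En_sub_left {f g h : V → ℝ} (hf : BC f) (hg : BC g) (hh : BC h) :
    En (fun x => f x - g x) h = En f h - En g h := by
  unfold En
  rw [← integral_sub (En_integrable hf hh) (En_integrable hg hh)]
  exact integral_congr_ae (Eventually.of_forall fun y => by ring)

theorem En_sub_right {f g h : V → ℝ} (hf : BC f) (hg : BC g) (hh : BC h) :
    En f (fun x => g x - h x) = En f g - En f h := by
  unfold En
  rw [← integral_sub (En_integrable hf hg) (En_integrable hf hh)]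
  refine integral_congr_ae (Eventually.of_forall fun y => ?_)
  simp only
  rw [pot_sub hg hh]; ring

theorem Fo_add_left {f g h : V → ℝ} (hf : BC f) (hg : BC g) (hh : BC h) (e : V) :
    Fo e (fun x => f x + g x) h = Fo e f h + Fo e g h := by
  unfold Fo
  rw [← integral_add (Fo_integrable hf hh e) (Fo_integrable hg hh e)]
  exact integral_congr_ae (Eventually.of_forall fun y => by ring)

theorem Fo_add_right {f g h : V → ℝ} (hf : BC f) (hg : BC g) (hh : BC h) (e : V) :
    Fo e f (fun x => g x + h x) = Fo e f g + Fo e f h := by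
  unfold Fo
  rw [← integral_add (Fo_integrable hf hg e) (Fo_integrable hf hh e)]
  refine integral_congr_ae (Eventually.of_forall fun y => ?_)
  simp only
  rw [grad_add hg hh]; ring

theorem Fo_sub_left {f g h : V → ℝ} (hf : BC f) (hg : BC g) (hh : BC h) (e : V) :
    Fo e (fun x => f x - g x) h = Fo e f h - Fo e g h := by
  unfold Fo
  rw [← integral_sub (Fo_integrable hf hh e) (Fo_integrable hg hh e)]
  exact integral_congr_ae (Eventually.of_forall fun y => by ring)

theorem Fo_sub_right {f g h : V → ℝ} (hf : BC f) (hg : BC g) (hh : BC h) (e : V) :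
    Fo e f (fun x => g x - h x) = Fo e f g - Fo e f h := by
  unfold Fo
  rw [← integral_sub (Fo_integrable hf hg e) (Fo_integrable hf hh e)]
  refine integral_congr_ae (Eventually.of_forall fun y => ?_)
  simp only
  rw [grad_sub hg hh]; ring

theorem En_comp_isom (L : V ≃ₗᵢ[ℝ] V) (f g : V → ℝ) :
    En (fun x => f (L x)) (fun x => g (L x)) = En f g := by
  unfold En
  rw [← L.measurePreserving.integral_comp L.toMeasurableEquiv.measurableEmbedding
    (fun x => f x * pot g x)]
  refine integral_congr_ae (Eventually.of_forall fun y => ?_)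
  simp only
  rw [pot_comp_isom]

theorem Fo_comp_isom (L : V ≃ₗᵢ[ℝ] V) (e : V) (f g : V → ℝ) :
    Fo e (fun x => f (L x)) (fun x => g (L x)) = Fo (L e) f g := by
  unfold Fo
  rw [← L.measurePreserving.integral_comp L.toMeasurableEquiv.measurableEmbedding
    (fun x => f x * grad (L e) g x)]
  refine integral_congr_ae (Eventually.of_forall fun y => ?_)
  simp only
  rw [grad_comp_isom]

theorem Fo_neg_dir (e : V) (f g : V → ℝ) : Fo (-e) f g = -Fo e f g := by
  unfold Fo grad
  rw [← integral_neg]
  refine integral_congr_ae (Eventually.of_forall fun x => ?_)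
  simp only
  rw [← mul_neg, ← integral_neg]
  congr 1
  refine integral_congr_ae (Eventually.of_forall fun y => ?_)
  simp only
  rw [inner_neg_right]; ring

/-- derivative of the interaction energy under a rigid shift of the first density -/
theorem hasDerivAt_shift {f g : V → ℝ} (hf : BC f) (hg : BC g) (e : V) :
    HasDerivAt (fun t : ℝ => ∫ x, f x * pot g (x + t • e)) (Fo e f g) 0 := by
  obtain ⟨B, hB⟩ := grad_bound hg e
  obtain ⟨B', hB'⟩ := pot_bound hg
  have key := hasDerivAt_integral_of_dominated_loc_of_deriv_le (μ := (volume : Measure V))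
    (F := fun (t : ℝ) (x : V) => f x * pot g (x + t • e))
    (F' := fun (t : ℝ) (x : V) => f x * grad e g (x + t • e)) (x₀ := (0 : ℝ))
    (bound := fun x => |f x| * B) (s := univ) (Filter.univ_mem)
    (Eventually.of_forall fun t => ?_) ?_ ?_ ?_ ?_ ?_
  · simpa [Fo] using key.2
  · exact (hf.meas.mul ((pot_continuous hg).comp
      (continuous_id.add continuous_const)).measurable).aestronglyMeasurable
  · simpa using En_integrable hf hg
  · exact (hf.meas.mul ((grad_continuous hg e).comp
      (continuous_id.add continuous_const)).measurable).aestronglyMeasurable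
  · refine Eventually.of_forall fun x t _ => ?_
    rw [norm_mul]
    exact mul_le_mul_of_nonneg_left (hB _) (norm_nonneg _)
  · exact hf.integrable.abs.mul_const B
  · refine Eventually.of_forall fun x t _ => ?_
    exact (hasDerivAt_pot hg x e t).const_mul (f x)

end dim3

end Pool.Agent.TF
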