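import Mathlib

/-! The pointwise inequality of the radius function calibration.  `T` is the second derivative of
the potential `ψ` at a point (symmetric, trace `R`), `p` its gradient, `s` the radius, and `κ` the
logarithmic derivative of the radius in `g = ‖p‖`. -/

set_option autoImplicit false

namespace Pool.Agent.TF.Ptw
open scoped RealInnerProductSpace

variable {V : Type*} [NormedAddCommGroup V] [InnerProductSpace ℝ V]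

theorem sum_inner_sq {κ : Type*} [Fintype κ] (b : OrthonormalBasis κ ℝ V) (u v : V) :
    ∑ j, ⟪u, b j⟫ * ⟪v, b j⟫ = ⟪u, v⟫ := by
  have h := b.sum_inner_mul_inner u v
  rw [← h]
  exact Finset.sum_congr rfl fun j _ => by rw [real_inner_comm v (b j)]

theorem sum_inner_map {κ : Type*} [Fintype κ] (b : OrthonormalBasis κ ℝ V) (T : V →L[ℝ] V)
    (hT : ∀ u v, ⟪T u, v⟫ = ⟪u, T v⟫) (u v : V) :
    ∑ j, ⟪u, b j⟫ * ⟪T (b j), v⟫ = ⟪T u, v⟫ := by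
  have h : ∀ j, ⟪u, b j⟫ * ⟪T (b j), v⟫ = ⟪u, b j⟫ * ⟪T v, b j⟫ := by
    intro j
    rw [hT, real_inner_comm (T v) (b j)]
  simp_rw [h]
  rw [sum_inner_sq, hT]

/-- Cauchy-Schwarz: the Hilbert-Schmidt norm controls one row and the rest of the trace -/
theorem hs_ge (b : OrthonormalBasis (Fin 3) ℝ V) (T : V →L[ℝ] V)
    (hT : ∀ u v, ⟪T u, v⟫ = ⟪u, T v⟫) {R : ℝ} (hR : ∑ j, ⟪T (b j), b j⟫ = R) {n : V}
    (hn : ‖n‖ = 1) :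
    2 * ‖T n‖ ^ 2 - ⟪T n, n⟫ ^ 2 + (R - ⟪T n, n⟫) ^ 2 / 2 ≤ ∑ j, ‖T (b j)‖ ^ 2 := by
  set p : V := T n with hp
  set h : ℝ := ⟪p, n⟫ with hh
  set c : ℝ := (R - h) / 2 with hc
  have key : ∀ j, ‖T (b j) - (⟪n, b j⟫ • p + (⟪p, b j⟫ - h * ⟪n, b j⟫) • n) -
      c • (b j - ⟪n, b j⟫ • n)‖ ^ 2 =
      ‖T (b j)‖ ^ 2 - 2 * (⟪n, b j⟫ * ⟪T (b j), p⟫) -
        2 * (⟪p, b j⟫ * ⟪p, b j⟫ - h * (⟪n, b j⟫ * ⟪p, b j⟫)) -
        2 * c * (⟪T (b j), b j⟫ - ⟪n, b j⟫ * ⟪p, b j⟫) +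
        (⟪n, b j⟫ * ⟪n, b j⟫) * ‖p‖ ^ 2 +
        2 * h * (⟪n, b j⟫ * ⟪p, b j⟫ - h * (⟪n, b j⟫ * ⟪n, b j⟫)) +
        (⟪p, b j⟫ * ⟪p, b j⟫ - 2 * h * (⟪n, b j⟫ * ⟪p, b j⟫) +
          h ^ 2 * (⟪n, b j⟫ * ⟪n, b j⟫)) +
        2 * c * (⟪n, b j⟫ * ⟪p, b j⟫ - h * (⟪n, b j⟫ * ⟪n, b j⟫)) +
        c ^ 2 * (1 - ⟪n, b j⟫ * ⟪n, b j⟫) := by
    intro j
    have e1 : ⟪T (b j), n⟫ = ⟪p, b j⟫ := by rw [hT, real_inner_comm]
    have e2 : ⟪b j, n⟫ = ⟪n, b j⟫ := real_inner_comm _ _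
    have e3 : ⟪b j, p⟫ = ⟪p, b j⟫ := real_inner_comm _ _
    have e4 : ⟪n, p⟫ = h := real_inner_comm _ _
    have e5 : ⟪b j, T (b j)⟫ = ⟪T (b j), b j⟫ := real_inner_comm _ _
    have e6 : ⟪n, T (b j)⟫ = ⟪p, b j⟫ := by rw [real_inner_comm, e1]
    have e7 : ⟪p, T (b j)⟫ = ⟪T (b j), p⟫ := real_inner_comm _ _
    have e8 : ⟪b j, b j⟫ = 1 := by rw [real_inner_self_eq_norm_sq, b.norm_eq_one, one_pow]
    have e9 : ⟪n, n⟫ = 1 := by rw [real_inner_self_eq_norm_sq, hn, one_pow]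
    have e10 : ⟪p, p⟫ = ‖p‖ ^ 2 := real_inner_self_eq_norm_sq p
    have e11 : ⟪T (b j), T (b j)⟫ = ‖T (b j)‖ ^ 2 := real_inner_self_eq_norm_sq _
    rw [← real_inner_self_eq_norm_sq]
    simp only [inner_sub_left, inner_sub_right, inner_add_left, inner_add_right,
      real_inner_smul_left, real_inner_smul_right, e1, e2, e3, e4, e5, e6, e7, e8, e9, e10, e11,
      ← hh]
    ring
  have hsum : 0 ≤ ∑ j, ‖T (b j) - (⟪n, b j⟫ • p + (⟪p, b j⟫ - h * ⟪n, b j⟫) • n) -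
      c • (b j - ⟪n, b j⟫ • n)‖ ^ 2 := Finset.sum_nonneg fun j _ => sq_nonneg _
  have s1 : ∑ j, ⟪n, b j⟫ * ⟪n, b j⟫ = 1 := by
    rw [sum_inner_sq, real_inner_self_eq_norm_sq, hn, one_pow]
  have s2 : ∑ j, ⟪p, b j⟫ * ⟪p, b j⟫ = ‖p‖ ^ 2 := by
    rw [sum_inner_sq, real_inner_self_eq_norm_sq]
  have s3 : ∑ j, ⟪n, b j⟫ * ⟪p, b j⟫ = h := by
    rw [sum_inner_sq, real_inner_comm]
  have s4 : ∑ j, ⟪n, b j⟫ * ⟪T (b j), p⟫ = ‖p‖ ^ 2 := by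
    rw [sum_inner_map b T hT, ← hp, real_inner_self_eq_norm_sq]
  have s5 : ∑ _j : Fin 3, (1 : ℝ) = 3 := by simp
  simp_rw [key] at hsum
  simp only [Finset.sum_add_distrib, Finset.sum_sub_distrib, ← Finset.mul_sum,
    ← Finset.sum_mul, s1, s2, s3, s4, hR, s5] at hsum
  have e : c = (R - h) / 2 := rfl
  rw [e] at hsum
  nlinarith [hsum]

/-- **the pointwise inequality** -/
theorem ptw (b : OrthonormalBasis (Fin 3) ℝ V) (T : V →L[ℝ] V)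
    (hT : ∀ u v, ⟪T u, v⟫ = ⟪u, T v⟫) {R : ℝ} (hR : ∑ j, ⟪T (b j), b j⟫ = R) {n : V}
    (hn : ‖n‖ = 1) {g s κ sψ sg : ℝ} (hg : 0 < g) (hs : 0 < s) (h1 : g * sg = κ * s)
    (h2 : g * sψ = -1 - (2 * g / s + R) * sg) {Ds DY p : V} (hp : p = g • n)
    (hDs : Ds = sψ • p + sg • T n) (hDY : DY = g • Ds + s • T n) :
    (1 / 2 - κ ^ 2) * (s * (R - ⟪T n, n⟫) + 2 * g) ^ 2 +
        (1 - κ ^ 2) * s ^ 2 * (‖T n‖ ^ 2 - ⟪T n, n⟫ ^ 2) ≤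
      g ^ 2 + 2 * R * (s * g) - 2 * ⟪DY, p⟫ + s ^ 2 * ((∑ j, ‖T (b j)‖ ^ 2) - ‖T n‖ ^ 2) -
        g ^ 2 * ‖Ds‖ ^ 2 := by
  have hhs := hs_ge b T hT hR hn
  set h : ℝ := ⟪T n, n⟫ with hh
  set q : ℝ := ‖T n‖ ^ 2 with hq
  have e9 : ⟪n, n⟫ = 1 := by rw [real_inner_self_eq_norm_sq, hn, one_pow]
  have e4 : ⟪n, T n⟫ = h := real_inner_comm _ _
  have e10 : ⟪T n, T n⟫ = q := real_inner_self_eq_norm_sq _
  have i1 : ⟪DY, p⟫ = g * (g * (sψ * g + sg * h)) + g * (s * h) := by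
    rw [hDY, hDs, hp]
    simp only [inner_add_left, real_inner_smul_left, real_inner_smul_right, e9, ← hh]
    ring
  have i2 : ‖Ds‖ ^ 2 = (sψ * g) ^ 2 + 2 * (sψ * g) * sg * h + sg ^ 2 * q := by
    rw [← real_inner_self_eq_norm_sq, hDs, hp]
    simp only [inner_add_left, inner_add_right, real_inner_smul_left, real_inner_smul_right,
      e9, e4, e10, ← hh]
    ring
  have hA : sg = κ * s / g := by field_simp; linarith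
  have hB : sψ * g = -1 - (2 * g / s + R) * (κ * s / g) := by
    rw [mul_comm, h2, hA]
  have hC : g * (sψ * g) = -g - κ * (2 * g + R * s) := by
    rw [hB]
    field_simp
  have i3 : g ^ 2 * ‖Ds‖ ^ 2 = (g * (sψ * g)) ^ 2 + 2 * (g * (sψ * g)) * (g * sg) * h +
      (g * sg) ^ 2 * q := by
    rw [i2]; ring
  have i4 : ⟪DY, p⟫ = g * (g * (sψ * g)) + g * ((g * sg) * h) + g * (s * h) := by
    rw [i1]; ring
  have hm : s ^ 2 * (2 * q - h ^ 2 + (R - h) ^ 2 / 2) ≤ s ^ 2 * ∑ j, ‖T (b j)‖ ^ 2 :=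
    mul_le_mul_of_nonneg_left hhs (sq_nonneg s)
  rw [i3, i4, hC, h1]
  nlinarith [hm]

/-- the capped version: the radius is locally constant -/
theorem ptw_cap (b : OrthonormalBasis (Fin 3) ℝ V) (T : V →L[ℝ] V)
    (hT : ∀ u v, ⟪T u, v⟫ = ⟪u, T v⟫) {R : ℝ} (hR : ∑ j, ⟪T (b j), b j⟫ = R) {n : V}
    (hn : ‖n‖ = 1) {g s : ℝ} {DY p : V} (hp : p = g • n) (hDY : DY = s • T n) :
    -g ^ 2 ≤ g ^ 2 + 2 * R * (s * g) - 2 * ⟪DY, p⟫ +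
      s ^ 2 * ((∑ j, ‖T (b j)‖ ^ 2) - ‖T n‖ ^ 2) := by
  have hhs := hs_ge b T hT hR hn
  set h : ℝ := ⟪T n, n⟫ with hh
  set q : ℝ := ‖T n‖ ^ 2 with hq
  have hqh : h ^ 2 ≤ q := by
    have h0 : |h| ≤ ‖T n‖ * ‖n‖ := abs_real_inner_le_norm _ _
    rw [hn, mul_one] at h0
    rw [hq, ← sq_abs h]
    exact pow_le_pow_left₀ (abs_nonneg _) h0 2
  have i1 : ⟪DY, p⟫ = g * (s * h) := by
    rw [hDY, hp]
    simp only [real_inner_smul_left, real_inner_smul_right, ← hh]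
  have hm : s ^ 2 * (2 * q - h ^ 2 + (R - h) ^ 2 / 2) ≤ s ^ 2 * ∑ j, ‖T (b j)‖ ^ 2 :=
    mul_le_mul_of_nonneg_left hhs (sq_nonneg s)
  have hm2 : 0 ≤ s ^ 2 * (q - h ^ 2) := mul_nonneg (sq_nonneg s) (by linarith)
  rw [i1]
  nlinarith [hm, hm2, sq_nonneg (s * (R - h) + 2 * g)]

/-- at a critical point -/
theorem ptw_zero (b : OrthonormalBasis (Fin 3) ℝ V) (T : V →L[ℝ] V) (s : ℝ) :
    0 ≤ s ^ 2 * ∑ j, ‖T (b j)‖ ^ 2 :=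
  mul_nonneg (sq_nonneg s) (Finset.sum_nonneg fun _ _ => sq_nonneg _)

/-- the Hilbert-Schmidt norm controls the image of a unit vector -/
theorem norm_map_sq_le {κ : Type*} [Fintype κ] (b : OrthonormalBasis κ ℝ V) (T : V →L[ℝ] V)
    (hT : ∀ u v, ⟪T u, v⟫ = ⟪u, T v⟫) (u : V) :
    ‖T u‖ ^ 2 ≤ (∑ j, ‖T (b j)‖ ^ 2) * ‖u‖ ^ 2 := by
  have h1 : ‖T u‖ ^ 2 = ∑ j, ⟪T u, b j⟫ ^ 2 := by
    rw [← real_inner_self_eq_norm_sq, ← sum_inner_sq b]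
    exact Finset.sum_congr rfl fun j _ => by ring
  rw [h1, Finset.sum_mul]
  refine Finset.sum_le_sum fun j _ => ?_
  rw [hT, ← mul_pow, ← sq_abs, mul_comm]
  exact pow_le_pow_left₀ (abs_nonneg _) (abs_real_inner_le_norm _ _) 2

end Pool.Agent.TF.Ptw
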