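import Pool.Agent.Lib.MP_9cf0c9_mp.Dual

/-! Reflection positivity of the Coulomb kernel for measures with point charges. -/

set_option linter.unusedSectionVars false
set_option linter.unusedVariables false
set_option linter.style.haveILetI false

namespace Pool.Agent.TF
open MeasureTheory Set Metric Filter Topology
open scoped ENNReal NNReal RealInnerProductSpace

/-! ### abstract positivity -/

theorem ennreal_two_mul_le (a b : ℝ≥0∞) : 2 * (a * b) ≤ a * a + b * b := by
  wlog h : a ≤ b generalizing a b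
  · have := this b a (le_of_not_ge h)
    rwa [mul_comm b a, add_comm] at this
  obtain ⟨c, rfl⟩ := exists_add_of_le h
  calc 2 * (a * (a + c)) = a * a + (a * a + 2 * a * c) := by ring
    _ ≤ a * a + (a * a + 2 * a * c + c * c) := add_le_add le_rfl le_self_add
    _ = a * a + (a + c) * (a + c) := by ring

section abstract_pos
variable {α β : Type*} [MeasurableSpace α] [MeasurableSpace β]

theorem form_eq {p : α → β → ℝ≥0∞} (hp : Measurable (Function.uncurry p)) (μ ν : Measure α)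
    [SFinite μ] [SFinite ν] (κ : Measure β) [SFinite κ] :
    ∫⁻ x, ∫⁻ y, (∫⁻ w, p x w * p y w ∂κ) ∂ν ∂μ =
      ∫⁻ w, (∫⁻ x, p x w ∂μ) * (∫⁻ y, p y w ∂ν) ∂κ := by
  have hpx : ∀ x, Measurable (p x) := fun x => hp.comp measurable_prodMk_left
  have hpw : ∀ w, Measurable (fun x => p x w) := fun w => hp.comp measurable_prodMk_right
  have h1 : ∀ x, ∫⁻ y, (∫⁻ w, p x w * p y w ∂κ) ∂ν = ∫⁻ w, p x w * ∫⁻ y, p y w ∂ν ∂κ := by
    intro x
    rw [lintegral_lintegral_swap (f := fun y w => p x w * p y w)]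
    · refine lintegral_congr fun w => ?_
      rw [lintegral_const_mul _ (hpw w)]
    · exact ((((hpx x).comp measurable_snd)).mul hp).aemeasurable
  simp_rw [h1]
  rw [lintegral_lintegral_swap (f := fun x w => p x w * ∫⁻ y, p y w ∂ν)]
  · refine lintegral_congr fun w => ?_
    rw [lintegral_mul_const _ (hpw w)]
  · have h2 : Measurable (fun w => ∫⁻ y, p y w ∂ν) :=
      Measurable.lintegral_prod_left' (f := fun z : α × β => p z.1 z.2) hp
    exact (hp.mul (h2.comp measurable_snd)).aemeasurable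

theorem form_pos {p : α → β → ℝ≥0∞} (hp : Measurable (Function.uncurry p)) (μ ν : Measure α)
    [SFinite μ] [SFinite ν] (κ : Measure β) [SFinite κ] :
    2 * ∫⁻ x, ∫⁻ y, (∫⁻ w, p x w * p y w ∂κ) ∂ν ∂μ ≤
      (∫⁻ x, ∫⁻ y, (∫⁻ w, p x w * p y w ∂κ) ∂μ ∂μ) +
        ∫⁻ x, ∫⁻ y, (∫⁻ w, p x w * p y w ∂κ) ∂ν ∂ν := by
  rw [form_eq hp, form_eq hp, form_eq hp]
  have h1 : Measurable (fun w => ∫⁻ y, p y w ∂μ) :=
    Measurable.lintegral_prod_left' (f := fun z : α × β => p z.1 z.2) hp
  have h2 : Measurable (fun w => ∫⁻ y, p y w ∂ν) :=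
    Measurable.lintegral_prod_left' (f := fun z : α × β => p z.1 z.2) hp
  have e1 : ∫⁻ w, 2 * ((∫⁻ x, p x w ∂μ) * (∫⁻ y, p y w ∂ν)) ∂κ =
      2 * ∫⁻ w, (∫⁻ x, p x w ∂μ) * (∫⁻ y, p y w ∂ν) ∂κ := lintegral_const_mul 2 (h1.mul h2)
  have e2 : ∫⁻ w, ((∫⁻ x, p x w ∂μ) * (∫⁻ y, p y w ∂μ) +
      (∫⁻ x, p x w ∂ν) * (∫⁻ y, p y w ∂ν)) ∂κ =
      (∫⁻ w, (∫⁻ x, p x w ∂μ) * (∫⁻ y, p y w ∂μ) ∂κ) +
        ∫⁻ w, (∫⁻ x, p x w ∂ν) * (∫⁻ y, p y w ∂ν) ∂κ := lintegral_add_left (h1.mul h1) _
  rw [← e1, ← e2]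
  exact lintegral_mono fun w => ennreal_two_mul_le _ _

end abstract_pos

/-! ### the kernel -/

theorem J4 {T r : ℝ} (hT : 0 < T) :
    ∫⁻ s in Ioi (0 : ℝ), ENNReal.ofReal (2 * Real.pi * (T + 2 * s) *
      (√((T + 2 * s) ^ 2 + r ^ 2) ^ 3)⁻¹) = ENNReal.ofReal (Real.pi * (√(T ^ 2 + r ^ 2))⁻¹) := by
  set F : ℝ → ℝ := fun s => -(Real.pi * (√((T + 2 * s) ^ 2 + r ^ 2))⁻¹) with hF
  have hder : ∀ s ∈ Ici (0 : ℝ), HasDerivAt F (2 * Real.pi * (T + 2 * s) *
      (√((T + 2 * s) ^ 2 + r ^ 2) ^ 3)⁻¹) s := by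
    intro s hs
    have hs0 : (0 : ℝ) ≤ s := hs
    have hpos : 0 < (T + 2 * s) ^ 2 + r ^ 2 := by positivity
    have h1 : HasDerivAt (fun s : ℝ => (T + 2 * s) ^ 2 + r ^ 2) (2 * (T + 2 * s) * 2) s := by
      have h0 : HasDerivAt (fun s : ℝ => T + 2 * s) 2 s := by
        simpa using ((hasDerivAt_id s).const_mul 2).const_add T
      have := (h0.fun_pow 2).add_const (r ^ 2)
      simpa using this
    have h2 := ((h1.sqrt hpos.ne').inv (Real.sqrt_pos.mpr hpos).ne').const_mul Real.pi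
    have h3 := h2.neg
    refine h3.congr_deriv ?_
    have h4 : 0 < √((T + 2 * s) ^ 2 + r ^ 2) := Real.sqrt_pos.mpr hpos
    field_simp
    try ring
  have hpos : ∀ s ∈ Ioi (0 : ℝ), 0 ≤ 2 * Real.pi * (T + 2 * s) *
      (√((T + 2 * s) ^ 2 + r ^ 2) ^ 3)⁻¹ := fun s hs => by
    have h0 : (0 : ℝ) < s := hs
    have := Real.pi_pos
    positivity
  have hlim : Tendsto F atTop (𝓝 0) := by
    have h1 : Tendsto (fun s : ℝ => √((T + 2 * s) ^ 2 + r ^ 2)) atTop atTop := by
      refine Real.tendsto_sqrt_atTop.comp ?_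
      have h2 : Tendsto (fun s : ℝ => T + 2 * s) atTop atTop :=
        tendsto_atTop_add_const_left _ _ (tendsto_id.const_mul_atTop two_pos)
      exact tendsto_atTop_add_const_right _ _ ((tendsto_pow_atTop two_ne_zero).comp h2)
    have h3 := (h1.inv_tendsto_atTop.const_mul Real.pi).neg
    rw [mul_zero, neg_zero] at h3
    exact h3
  have hI := integrableOn_Ioi_deriv_of_nonneg' hder hpos hlim
  have hv := integral_Ioi_of_hasDerivAt_of_nonneg' hder hpos hlim
  rw [← ofReal_integral_eq_lintegral_ofReal hI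
    ((ae_restrict_iff' measurableSet_Ioi).mpr (Eventually.of_forall hpos)), hv]
  congr 1
  simp [hF]

/-- Poisson kernel at height `x.fst + s` -/
noncomputable def pq (x : X) (w : ℝ × E2) : ℝ≥0∞ :=
  ENNReal.ofReal ((x.fst + w.1) * (√((x.fst + w.1) ^ 2 + ‖x.snd - w.2‖ ^ 2) ^ 3)⁻¹)

theorem pq_meas : Measurable (Function.uncurry pq) := by
  unfold pq
  have hf : Measurable (fun p : X × (ℝ × E2) => p.1.fst + p.2.1) :=
    (fst_continuous.measurable.comp measurable_fst).add (measurable_fst.comp measurable_snd)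
  have hs : Measurable (fun p : X × (ℝ × E2) => ‖p.1.snd - p.2.2‖ ^ 2) := by
    have hc : Continuous (fun p : X × (ℝ × E2) => ‖p.1.snd - p.2.2‖ ^ 2) := by fun_prop
    exact hc.measurable
  exact (hf.mul (((hf.pow_const 2).add hs).sqrt.pow_const 3).inv).ennreal_ofReal

/-- the measure on the parameters -/
noncomputable def kap2 : Measure (ℝ × E2) := (volume.restrict (Ioi (0 : ℝ))).prod volume

instance : SFinite kap2 := by unfold kap2; infer_instance

/-- the positive definite kernel -/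
noncomputable def kk (x y : X) : ℝ≥0∞ := ∫⁻ w, pq x w * pq y w ∂kap2

theorem kk_symm (x y : X) : kk x y = kk y x := by
  unfold kk
  exact lintegral_congr fun w => mul_comm _ _

theorem norm_sub_th (x y : X) : ‖x - th y‖ = √((x.fst + y.fst) ^ 2 + ‖x.snd - y.snd‖ ^ 2) := by
  rw [← Real.sqrt_sq (norm_nonneg (x - th y)), norm_sq_eq]
  congr 2
  simp

theorem kk_eq {x y : X} (hx : 0 < x.fst) (hy : 0 < y.fst) :
    kk x y = ENNReal.ofReal (Real.pi * ‖x - th y‖⁻¹) := by
  unfold kk kap2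
  have hm : Measurable (fun w : ℝ × E2 => pq x w * pq y w) :=
    (pq_meas.comp measurable_prodMk_left).mul (pq_meas.comp measurable_prodMk_left)
  rw [lintegral_prod _ hm.aemeasurable]
  have h1 : ∀ s ∈ Ioi (0 : ℝ), ∫⁻ z, pq x (s, z) * pq y (s, z) =
      ENNReal.ofReal (2 * Real.pi * (x.fst + y.fst + 2 * s) *
        (√((x.fst + y.fst + 2 * s) ^ 2 + ‖x.snd - y.snd‖ ^ 2) ^ 3)⁻¹) := by
    intro s hs
    have hs0 : (0 : ℝ) < s := hs
    have ha : 0 < x.fst + s := by linarith
    have hb : 0 < y.fst + s := by linarith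
    have e1 : ∀ z : E2, pq x (s, z) * pq y (s, z) =
        ENNReal.ofReal ((x.fst + s) * (y.fst + s)) *
        ENNReal.ofReal ((√((x.fst + s) ^ 2 + ‖x.snd - z‖ ^ 2) ^ 3)⁻¹ *
          (√((y.fst + s) ^ 2 + ‖y.snd - z‖ ^ 2) ^ 3)⁻¹) := by
      intro z
      unfold pq
      rw [← ENNReal.ofReal_mul (by positivity), ← ENNReal.ofReal_mul (by positivity)]
      congr 1
      ring
    simp_rw [e1]
    rw [lintegral_const_mul' _ _ ENNReal.ofReal_ne_top, poisson_semigroup ha hb,
      ← ENNReal.ofReal_mul (by positivity)]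
    congr 1
    have e2 : x.fst + s + (y.fst + s) = x.fst + y.fst + 2 * s := by ring
    rw [e2]
    field_simp
  rw [setLIntegral_congr_fun measurableSet_Ioi h1, J4 (by linarith : 0 < x.fst + y.fst),
    norm_sub_th]

/-! ### measures with a point charge -/

/-- a point charge plus a density -/
noncomputable def mm (z : ℝ) (p : X) (f : X → ℝ) : Measure X :=
  ENNReal.ofReal z • Measure.dirac p + volume.withDensity fun x => ENNReal.ofReal (f x)

instance (z : ℝ) (p : X) (f : X → ℝ) : SFinite (mm z p f) := by unfold mm; infer_instance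

theorem lint_mm {z : ℝ} {p : X} {f : X → ℝ} (hf : Measurable f) {F : X → ℝ≥0∞}
    (hF : Measurable F) :
    ∫⁻ x, F x ∂(mm z p f) = ENNReal.ofReal z * F p + ∫⁻ x, ENNReal.ofReal (f x) * F x := by
  unfold mm
  rw [lintegral_add_measure, lintegral_smul_measure, lintegral_dirac' _ hF,
    lintegral_withDensity_eq_lintegral_mul _ hf.ennreal_ofReal hF]
  rfl

theorem kk_meas : Measurable (Function.uncurry kk) := by
  unfold kk
  have : Measurable (fun q : (X × X) × (ℝ × E2) => pq q.1.1 q.2 * pq q.1.2 q.2) :=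
    (pq_meas.comp ((measurable_fst.comp measurable_fst).prodMk measurable_snd)).mul
      (pq_meas.comp ((measurable_snd.comp measurable_fst).prodMk measurable_snd))
  exact Measurable.lintegral_prod_right' this

theorem kk_meas' (x : X) : Measurable (kk x) := kk_meas.comp measurable_prodMk_left

/-- density against the kernel -/
theorem lint_kk {g : X → ℝ} (hg : TC g) (hgO : ∀ x, x ∉ Om → g x = 0) {p : X} (hp : 0 < p.fst) :
    ∫⁻ y, ENNReal.ofReal (g y) * kk p y = ENNReal.ofReal (Real.pi * pot g (th p)) := by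
  have h1 : ∀ y, ENNReal.ofReal (g y) * kk p y =
      ENNReal.ofReal (Real.pi * (‖th p - y‖⁻¹ * g y)) := by
    intro y
    by_cases hy : y ∈ Om
    · rw [kk_eq hp hy, ← ENNReal.ofReal_mul (hg.nonneg y)]
      have : ‖p - th y‖ = ‖th p - y‖ := by
        rw [← th.norm_map (p - th y), map_sub, th_th]
      rw [this, mul_left_comm, mul_comm (g y)]
    · rw [hgO y hy]
      simp
  simp_rw [h1]
  rw [← ofReal_integral_eq_lintegral_ofReal ((hg.pot_integrable (th p)).const_mul Real.pi)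
    (Eventually.of_forall fun y => mul_nonneg Real.pi_pos.le
      (mul_nonneg (by positivity) (hg.nonneg y))), integral_const_mul]
  rfl

/-- the real interaction energy of two charge distributions across the plane -/
noncomputable def IR (z : ℝ) (p q : X) (f g : X → ℝ) : ℝ :=
  z ^ 2 * ‖p - th q‖⁻¹ + z * pot g (th p) + z * pot f (th q) + En f (fun x => g (th x))

theorem th_TC {g : X → ℝ} (hg : TC g) : TC (fun x => g (th x)) := by
  have h := hg.push th
  have : (fun y => g (th.symm y)) = fun y => g (th y) := by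
    funext y
    congr 1
  rwa [this] at h

theorem form_mm {z : ℝ} (hz : 0 ≤ z) {p q : X} (hp : 0 < p.fst) (hq : 0 < q.fst) {f g : X → ℝ}
    (hf : TC f) (hg : TC g) (hfO : ∀ x, x ∉ Om → f x = 0) (hgO : ∀ x, x ∉ Om → g x = 0) :
    ∫⁻ x, ∫⁻ y, kk x y ∂(mm z q g) ∂(mm z p f) = ENNReal.ofReal (Real.pi * IR z p q f g) := by
  have h1 : ∀ x, ∫⁻ y, kk x y ∂(mm z q g) =
      ENNReal.ofReal z * kk x q + ∫⁻ y, ENNReal.ofReal (g y) * kk x y := fun x =>
    lint_mm hg.meas (kk_meas' x)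
  simp_rw [h1]
  have hm1 : Measurable (fun x => kk x q) := kk_meas.comp measurable_prodMk_right
  have hm2 : Measurable (fun x => ∫⁻ y, ENNReal.ofReal (g y) * kk x y) := by
    have : Measurable (fun w : X × X => ENNReal.ofReal (g w.2) * kk w.1 w.2) :=
      ((hg.meas.comp measurable_snd).ennreal_ofReal).mul kk_meas
    exact this.lintegral_prod_right'
  have hm3 : Measurable (fun x => ENNReal.ofReal z * kk x q +
      ∫⁻ y, ENNReal.ofReal (g y) * kk x y) := (hm1.const_mul _).add hm2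
  rw [lint_mm hf.meas hm3]
  have h2 : ∫⁻ x, ENNReal.ofReal (f x) * (ENNReal.ofReal z * kk x q +
      ∫⁻ y, ENNReal.ofReal (g y) * kk x y) =
      ENNReal.ofReal z * (∫⁻ x, ENNReal.ofReal (f x) * kk q x) +
        ∫⁻ x, ENNReal.ofReal (Real.pi * (f x * pot (fun y => g (th y)) x)) := by
    have m1 : Measurable (fun x => ENNReal.ofReal (f x) * kk q x) :=
      hf.meas.ennreal_ofReal.mul (kk_meas' q)
    have m2 : Measurable (fun x => ENNReal.ofReal z * (ENNReal.ofReal (f x) * kk q x)) :=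
      m1.const_mul _
    rw [← lintegral_const_mul _ m1, ← lintegral_add_left m2]
    refine lintegral_congr fun x => ?_
    rw [mul_add]
    congr 1
    · rw [kk_symm q x]; ring
    · by_cases hx : x ∈ Om
      · rw [lint_kk hg hgO hx, ← ENNReal.ofReal_mul (hf.nonneg x), pot_comp_isom]
        congr 1
        ring
      · rw [hfO x hx]
        simp
  rw [h2, lint_kk hg hgO hp, lint_kk hf hfO hq, kk_eq hp hq]
  have hpg : 0 ≤ pot g (th p) := pot_nonneg hg.nonneg _
  have hpf : 0 ≤ pot f (th q) := pot_nonneg hf.nonneg _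
  have hEn : 0 ≤ En f (fun x => g (th x)) := hf.En_nonneg (th_TC hg)
  have hpi := Real.pi_pos
  rw [← ofReal_integral_eq_lintegral_ofReal ((hf.En_integrable (th_TC hg)).const_mul Real.pi)
    (Eventually.of_forall fun x => mul_nonneg hpi.le
      (mul_nonneg (hf.nonneg x) (pot_nonneg (th_TC hg).nonneg x))), integral_const_mul]
  have hEn' : (∫ x, f x * pot (fun y => g (th y)) x) = En f (fun x => g (th x)) := rfl
  rw [hEn']
  rw [← ENNReal.ofReal_mul hz, ← ENNReal.ofReal_add (by positivity) (by positivity),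
    ← ENNReal.ofReal_mul hz, ← ENNReal.ofReal_mul hz,
    ← ENNReal.ofReal_add (by positivity) (mul_nonneg hpi.le hEn),
    ← ENNReal.ofReal_add (by positivity)
      (add_nonneg (by positivity) (mul_nonneg hpi.le hEn))]
  congr 1
  unfold IR
  ring

/-- reflection positivity -/
theorem rp {z : ℝ} (hz : 0 ≤ z) {p q : X} (hp : 0 < p.fst) (hq : 0 < q.fst) {f g : X → ℝ}
    (hf : TC f) (hg : TC g) (hfO : ∀ x, x ∉ Om → f x = 0) (hgO : ∀ x, x ∉ Om → g x = 0) :
    2 * IR z p q f g ≤ IR z p p f f + IR z q q g g := by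
  have h := form_pos pq_meas (mm z p f) (mm z q g) kap2
  have e : ∀ x y, (∫⁻ w, pq x w * pq y w ∂kap2) = kk x y := fun x y => rfl
  simp only [e] at h
  rw [form_mm hz hp hq hf hg hfO hgO, form_mm hz hp hp hf hf hfO hfO,
    form_mm hz hq hq hg hg hgO hgO] at h
  have hpi := Real.pi_pos
  have hnn : ∀ {p q : X} {f g : X → ℝ}, TC f → TC g → 0 ≤ IR z p q f g := by
    intro p q f g hf hg
    have hpg : 0 ≤ pot g (th p) := pot_nonneg hg.nonneg _
    have hpf : 0 ≤ pot f (th q) := pot_nonneg hf.nonneg _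
    have hEn : 0 ≤ En f (fun x => g (th x)) := hf.En_nonneg (th_TC hg)
    unfold IR
    positivity
  have n1 : 0 ≤ IR z p q f g := hnn hf hg
  have n2 : 0 ≤ IR z p p f f := hnn hf hf
  have n3 : 0 ≤ IR z q q g g := hnn hg hg
  rw [← ENNReal.ofReal_ofNat 2, ← ENNReal.ofReal_mul (by norm_num),
    ← ENNReal.ofReal_add (by positivity) (by positivity),
    ENNReal.ofReal_le_ofReal_iff (by positivity)] at h
  have h2 : Real.pi * (2 * IR z p q f g) ≤ Real.pi * (IR z p p f f + IR z q q g g) := by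
    linarith
  exact le_of_mul_le_mul_left h2 hpi

end Pool.Agent.TF
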