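import Pool.Agent.Lib.MP_9cf0c9_mp.SecVar

/-! Global solutions of ordinary differential equations in the plane with a Lipschitz right side,
and the radial Thomas-Fermi equation `f'' = 4 π r ^ (-1/2) h(f)` in the variable `τ = √r`, with its
linearisation in the initial slope. -/

set_option autoImplicit false
set_option linter.unusedSectionVars false
set_option linter.unusedVariables false
set_option linter.style.haveILetI false

namespace Pool.Agent.TF.Rad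
open MeasureTheory Set Metric Filter Topology
open scoped ENNReal NNReal

/-! ### global solutions in the plane -/

/-- projection to a square -/
noncomputable def cl (M : ℝ) (x : ℝ × ℝ) : ℝ × ℝ :=
  (max (-M) (min x.1 M), max (-M) (min x.2 M))

theorem cl_lip (M : ℝ) : LipschitzWith 1 (cl M) := by
  have h1 : LipschitzWith 1 (fun r : ℝ => max (-M) (min r M)) :=
    (LipschitzWith.id.min_const _).const_max _
  have h2 := (h1.comp LipschitzWith.prod_fst).prodMk (h1.comp LipschitzWith.prod_snd)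
  have h3 : cl M = fun x : ℝ × ℝ => (max (-M) (min x.1 M), max (-M) (min x.2 M)) := rfl
  rw [h3]
  simpa using h2

theorem cl_norm {M : ℝ} (hM : 0 ≤ M) (x : ℝ × ℝ) : ‖cl M x‖ ≤ M := by
  have h1 : ∀ r : ℝ, ‖max (-M) (min r M)‖ ≤ M := fun r => by
    rw [Real.norm_eq_abs, abs_le]
    exact ⟨le_max_left _ _, max_le (by linarith) (min_le_right _ _)⟩
  rw [Prod.norm_def]
  exact max_le (h1 _) (h1 _)

theorem cl_eq {M : ℝ} {x : ℝ × ℝ} (hx : ‖x‖ ≤ M) : cl M x = x := by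
  have h1 : ∀ r : ℝ, ‖r‖ ≤ M → max (-M) (min r M) = r := fun r hr => by
    rw [Real.norm_eq_abs, abs_le] at hr
    rw [min_eq_left hr.2, max_eq_right hr.1]
  have h2 : ‖x.1‖ ≤ M := (norm_fst_le x).trans hx
  have h3 : ‖x.2‖ ≤ M := (norm_snd_le x).trans hx
  unfold cl
  rw [h1 _ h2, h1 _ h3]

theorem cl_norm_le {M : ℝ} (hM : 0 ≤ M) (x : ℝ × ℝ) : ‖cl M x‖ ≤ ‖x‖ := by
  have h := (cl_lip M).dist_le_mul x 0
  have h0 : cl M 0 = 0 := cl_eq (by simpa using hM)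
  rw [h0, NNReal.coe_one, one_mul, dist_zero_right, dist_zero_right] at h
  exact h

theorem deriv_Ici {N : ℝ} {y : ℝ → ℝ × ℝ} {y' : ℝ → ℝ × ℝ}
    (hy : ∀ t ∈ Icc 0 N, HasDerivWithinAt y (y' t) (Icc 0 N) t) :
    ∀ t ∈ Ico 0 N, HasDerivWithinAt y (y' t) (Ici t) t := by
  intro t ht
  refine (hy t ⟨ht.1, ht.2.le⟩).mono_of_mem_nhdsWithin ?_
  exact mem_of_superset (Icc_mem_nhdsGE ht.2) (Icc_subset_Icc_left ht.1)

theorem ode_Icc (v : ℝ → ℝ × ℝ → ℝ × ℝ) {N : ℝ} (hN : 0 ≤ N) {K : ℝ≥0}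
    (hK : ∀ t ∈ Icc 0 N, LipschitzWith K (v t)) (hc : ∀ x, ContinuousOn (fun t => v t x) (Icc 0 N))
    (x₀ : ℝ × ℝ) :
    ∃ y : ℝ → ℝ × ℝ, y 0 = x₀ ∧ ∀ t ∈ Icc 0 N, HasDerivWithinAt y (v t (y t)) (Icc 0 N) t := by
  obtain ⟨c, hc0⟩ := isCompact_Icc.exists_bound_of_continuousOn (hc 0)
  have hc1 : 0 ≤ c := (norm_nonneg _).trans (hc0 0 (left_mem_Icc.mpr hN))
  have hgr : ∀ t ∈ Icc 0 N, ∀ x, ‖v t x‖ ≤ K * ‖x‖ + c := by
    intro t ht x
    have h1 := (hK t ht).dist_le_mul x 0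
    rw [dist_zero_right, dist_eq_norm] at h1
    have h2 := hc0 t ht
    have h3 : ‖v t x‖ ≤ ‖v t x - v t 0‖ + ‖v t 0‖ := by
      have := norm_add_le (v t x - v t 0) (v t 0)
      rwa [sub_add_cancel] at this
    linarith
  set M : ℝ := gronwallBound ‖x₀‖ K c N with hM
  have hmono := gronwallBound_mono (norm_nonneg x₀) hc1 K.coe_nonneg
  have hM0 : 0 ≤ M := by
    have h1 : gronwallBound ‖x₀‖ K c 0 ≤ M := hmono hN
    rw [gronwallBound_x0] at h1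
    exact (norm_nonneg _).trans h1
  set B : ℝ≥0 := K * ⟨M, hM0⟩ + ⟨c, hc1⟩ with hB
  have hPL : IsPicardLindelof (fun t x => v t (cl M x))
      (⟨0, left_mem_Icc.2 hN⟩ : Icc (0 : ℝ) N) x₀ (B * Real.toNNReal N) 0 B (K * 1) := by
    refine ⟨?_, ?_, ?_, ?_⟩
    · intro t ht
      exact ((hK t ht).comp (cl_lip M)).lipschitzOnWith
    · intro x _
      exact hc _
    · intro t ht x _
      refine (hgr t ht _).trans ?_
      rw [hB]
      push_cast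
      have := cl_norm hM0 x
      have hK0 : (0 : ℝ) ≤ K := K.coe_nonneg
      show (K : ℝ) * ‖cl M x‖ + c ≤ K * M + c
      nlinarith
    · show (B : ℝ) * max (N - 0) (0 - 0) ≤ ((B * Real.toNNReal N : ℝ≥0) : ℝ) - ((0 : ℝ≥0) : ℝ)
      rw [sub_zero, sub_zero, max_eq_left hN, NNReal.coe_mul, Real.coe_toNNReal N hN,
        NNReal.coe_zero, sub_zero]
  obtain ⟨y, hy0, hy⟩ := hPL.exists_eq_forall_mem_Icc_hasDerivWithinAt₀
  have hb : ∀ t ∈ Icc 0 N, ‖y t‖ ≤ M := by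
    intro t ht
    have h1 := norm_le_gronwallBound_of_norm_deriv_right_le (K := (K : ℝ)) (ε := c)
      (δ := ‖x₀‖) (fun t ht => (hy t ht).continuousWithinAt) (deriv_Ici hy) (by
        show ‖y 0‖ ≤ ‖x₀‖
        rw [show y 0 = x₀ from hy0]) (fun s hs => by
        refine (hgr s ⟨hs.1, hs.2.le⟩ _).trans ?_
        have := cl_norm_le hM0 (y s)
        have hK0 : (0 : ℝ) ≤ K := K.coe_nonneg
        nlinarith) t ht
    rw [sub_zero] at h1
    exact h1.trans (hmono ht.2)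
  refine ⟨y, hy0, fun t ht => ?_⟩
  have h1 := hy t ht
  simp only [cl_eq (hb t ht)] at h1
  exact h1

theorem ode_unique (v : ℝ → ℝ × ℝ → ℝ × ℝ) {N : ℝ} {K : ℝ≥0}
    (hK : ∀ t ∈ Icc 0 N, LipschitzWith K (v t)) {y z : ℝ → ℝ × ℝ} (h0 : y 0 = z 0)
    (hy : ∀ t ∈ Icc 0 N, HasDerivWithinAt y (v t (y t)) (Icc 0 N) t)
    (hz : ∀ t ∈ Icc 0 N, HasDerivWithinAt z (v t (z t)) (Icc 0 N) t) :
    EqOn y z (Icc 0 N) := by
  refine ODE_solution_unique_of_mem_Icc_right (K := K) (s := fun _ => univ)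
    (v := v) (fun t ht => (hK t ⟨ht.1, ht.2.le⟩).lipschitzOnWith)
    (fun t ht => (hy t ht).continuousWithinAt) (deriv_Ici hy) (fun _ _ => mem_univ _)
    (fun t ht => (hz t ht).continuousWithinAt) (deriv_Ici hz) (fun _ _ => mem_univ _) h0

/-- global solutions on the half line -/
theorem ode_Ici (v : ℝ → ℝ × ℝ → ℝ × ℝ)
    (hK : ∀ N : ℝ, 0 ≤ N → ∃ K : ℝ≥0, ∀ t ∈ Icc 0 N, LipschitzWith K (v t))
    (hc : ∀ x, ContinuousOn (fun t => v t x) (Ici 0)) (x₀ : ℝ × ℝ) :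
    ∃ y : ℝ → ℝ × ℝ, y 0 = x₀ ∧ ∀ t : ℝ, 0 ≤ t → HasDerivWithinAt y (v t (y t)) (Ici 0) t := by
  have hex : ∀ N : ℕ, ∃ y : ℝ → ℝ × ℝ, y 0 = x₀ ∧ ∀ t ∈ Icc 0 (N : ℝ),
      HasDerivWithinAt y (v t (y t)) (Icc 0 (N : ℝ)) t := fun N => by
    obtain ⟨K, hK'⟩ := hK N (Nat.cast_nonneg N)
    exact ode_Icc v (Nat.cast_nonneg N) hK' (fun x => (hc x).mono fun t ht => ht.1) x₀
  choose Y hY0 hY using hex
  have hcomp : ∀ M N : ℕ, M ≤ N → ∀ t ∈ Icc 0 (M : ℝ), Y M t = Y N t := by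
    intro M N hMN t ht
    have hMN' : (M : ℝ) ≤ N := by exact_mod_cast hMN
    obtain ⟨K, hK'⟩ := hK M (Nat.cast_nonneg M)
    refine ode_unique v hK' (by rw [hY0, hY0]) (hY M) ?_ ht
    intro s hs
    exact (hY N s ⟨hs.1, hs.2.trans hMN'⟩).mono (Icc_subset_Icc_right hMN')
  set x : ℝ → ℝ × ℝ := fun t => Y (⌊t⌋₊ + 1) t with hx
  have hxY : ∀ (N : ℕ) (t : ℝ), 0 ≤ t → t < N → x t = Y N t := by
    intro N t ht htN
    have h1 : ⌊t⌋₊ + 1 ≤ N := (Nat.floor_lt ht).2 htN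
    exact hcomp _ _ h1 t ⟨ht, by
      have := Nat.lt_floor_add_one t
      push_cast
      exact this.le⟩
  refine ⟨x, ?_, ?_⟩
  · rw [hxY 1 0 le_rfl (by norm_num), hY0]
  · intro t ht
    set N : ℕ := ⌊t⌋₊ + 1 with hN
    have htN : t < N := by
      have := Nat.lt_floor_add_one t
      rw [hN]; push_cast; exact this
    have h1 := hY N t ⟨ht, htN.le⟩
    rw [← hxY N t ht htN] at h1
    have h2 : HasDerivWithinAt x (v t (x t)) (Icc 0 (N : ℝ)) t := by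
      refine h1.congr_of_eventuallyEq ?_ (hxY N t ht htN)
      have h3 : Iio (N : ℝ) ∈ 𝓝[Icc 0 (N : ℝ)] t := mem_nhdsWithin_of_mem_nhds (Iio_mem_nhds htN)
      filter_upwards [h3, self_mem_nhdsWithin] with s hs1 hs2
      exact hxY N s hs2.1 hs1
    refine h2.mono_of_mem_nhdsWithin ?_
    have h3 : Iio (N : ℝ) ∈ 𝓝[Ici 0] t := mem_nhdsWithin_of_mem_nhds (Iio_mem_nhds htN)
    filter_upwards [h3, self_mem_nhdsWithin] with s hs1 hs2
    exact ⟨hs2, hs1.le⟩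

end Pool.Agent.TF.Rad
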