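import Pool.Agent.Lib.MP_9cf0c9_mp.Poisson

/-! Force between two charges on opposite sides of a plane whose half space potentials are
nonnegative. -/

set_option linter.unusedSectionVars false
set_option linter.unusedVariables false
set_option linter.style.haveILetI false

namespace Pool.Agent.TF
open MeasureTheory Set Metric Filter Topology
open scoped ENNReal NNReal RealInnerProductSpace

theorem grad_neg_dir (e : X) (f : X → ℝ) (x : X) : grad (-e) f x = -grad e f x := by
  unfold grad
  rw [← integral_neg]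
  refine integral_congr_ae (Eventually.of_forall fun y => ?_)
  simp only
  rw [inner_neg_right]; ring

theorem grad_odd {f : X → ℝ} (hf : BC f) (z : E2) :
    grad e1 (odd f) (mk 0 z) = 2 * grad e1 f (mk 0 z) := by
  unfold odd
  rw [grad_sub hf (hf.comp_isom th), grad_comp_isom, th_e1, th_mk, neg_zero, grad_neg_dir]
  ring

/-- normal derivative on the plane -/
noncomputable def gP (f : X → ℝ) (z : E2) : ℝ := grad e1 f (mk 0 z)

theorem gP_nonneg {f : X → ℝ} (hf : BC f) (hw : ∀ x, x ∈ Om → 0 ≤ pot (odd f) x) (z : E2) :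
    0 ≤ gP f z := by
  have h1 := hasDerivAt_pot (odd_BC hf) (mk 0 z) e1 0
  rw [zero_smul, add_zero, grad_odd hf] at h1
  have h2 : Tendsto (slope (fun t : ℝ => pot (odd f) (mk 0 z + t • e1)) 0) (𝓝[>] 0)
      (𝓝 (2 * grad e1 f (mk 0 z))) :=
    (hasDerivAt_iff_tendsto_slope.mp h1).mono_left (nhdsWithin_mono _ fun t ht => ne_of_gt ht)
  have h3 : 0 ≤ 2 * grad e1 f (mk 0 z) := by
    refine ge_of_tendsto h2 ?_
    filter_upwards [self_mem_nhdsWithin] with t ht
    have ht0 : 0 < t := ht
    rw [slope_def_field, zero_smul, add_zero, pot_odd_zero hf, mk_add_smul, sub_zero, sub_zero,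
      zero_add]
    exact div_nonneg (hw _ ht0) ht0.le
  unfold gP
  linarith

theorem norm_sub_mk (x : X) (z : E2) : ‖x - mk 0 z‖ = √(x.fst ^ 2 + ‖x.snd - z‖ ^ 2) := by
  rw [← Real.sqrt_sq (norm_nonneg (x - mk 0 z)), norm_sq_eq]
  congr 3
  change (x.fst - 0) = _
  ring

/-- the plane kernel -/
noncomputable def pk (x : X) (z : E2) : ℝ := (‖x - mk 0 z‖ ^ 3)⁻¹

theorem pk_nonneg (x : X) (z : E2) : 0 ≤ pk x z := by unfold pk; positivity

theorem pk_meas : Measurable (fun p : X × E2 => pk p.1 p.2) := by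
  unfold pk
  have h : Continuous (fun p : X × E2 => p.1 - mk 0 p.2) :=
    continuous_fst.sub (mk_continuous.comp (continuous_const.prodMk continuous_snd))
  exact (h.norm.measurable.pow_const 3).inv

theorem pk_meas' (x : X) : Measurable (pk x) := by
  have h : Continuous (fun z : E2 => ‖x - mk 0 z‖ ^ 3) :=
    ((continuous_const.sub (mk_continuous.comp (continuous_const.prodMk continuous_id))).norm).pow 3
  exact h.measurable.inv

theorem pk_lint {x y : X} (hx : 0 < x.fst) (hy : y.fst < 0) :
    ∫⁻ z : E2, ENNReal.ofReal (pk x z * pk y z) =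
      ENNReal.ofReal (2 * Real.pi * (x.fst - y.fst) / (x.fst * -y.fst) * (‖x - y‖ ^ 3)⁻¹) := by
  have h := poisson_semigroup hx (neg_pos.mpr hy) x.snd y.snd
  have e1 : ∀ z : E2, pk x z * pk y z =
      (√(x.fst ^ 2 + ‖x.snd - z‖ ^ 2) ^ 3)⁻¹ * (√((-y.fst) ^ 2 + ‖y.snd - z‖ ^ 2) ^ 3)⁻¹ := by
    intro z
    unfold pk
    rw [norm_sub_mk, norm_sub_mk, neg_sq]
  simp_rw [e1]
  rw [h]
  congr 1
  have e2 : ‖x - y‖ = √((x.fst + -y.fst) ^ 2 + ‖x.snd - y.snd‖ ^ 2) := by
    rw [← Real.sqrt_sq (norm_nonneg (x - y)), norm_sq_eq]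
    congr 3
  rw [e2]
  ring

theorem grad_plane {f : X → ℝ} (z : E2) :
    grad e1 f (mk 0 z) = ∫ x, f x * (x.fst * pk x z) := by
  unfold grad
  refine integral_congr_ae (Eventually.of_forall fun y => ?_)
  simp only
  rw [inner_e1]
  have e1 : (mk 0 z - y).fst = -y.fst := by
    change 0 - y.fst = _
    ring
  rw [e1]
  unfold pk
  rw [norm_sub_rev]
  ring

theorem grad_plane_th {f : X → ℝ} (z : E2) :
    grad e1 f (mk 0 z) = ∫ x, f (th x) * (-x.fst * pk x z) := by
  rw [grad_plane, ← th.measurePreserving.integral_comp th.toMeasurableEquiv.measurableEmbedding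
    (fun x => f x * (x.fst * pk x z))]
  refine integral_congr_ae (Eventually.of_forall fun y => ?_)
  simp only
  have e1 : pk (th y) z = pk y z := by
    unfold pk
    have : th y - mk 0 z = th (y - mk 0 z) := by rw [map_sub, th_mk, neg_zero]
    rw [this, th.norm_map]
  rw [e1, th_fst]

theorem abs_aux1 {F G A B : ℝ} (hA : 0 ≤ A) (hB : 0 ≤ B) :
    |F * A * (G * B)| = |F| * |G| * (A * B) := by
  rw [abs_mul, abs_mul, abs_mul, abs_of_nonneg hA, abs_of_nonneg hB]; ring

theorem abs_aux2 {c F G K : ℝ} (hc : 0 ≤ c) (hK : 0 ≤ K) :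
    |c * (F * (-K * G))| = c * (|F| * |G| * K) := by
  rw [abs_mul, abs_mul, abs_mul, abs_neg, abs_of_nonneg hc, abs_of_nonneg hK]; ring

theorem rellich {f g : X → ℝ} (hf : BC f) (hg : BC g) (hfO : ∀ x, x ∉ Om → f x = 0)
    (hgO : ∀ x, x ∉ Om → g x = 0) (hwf : ∀ x, x ∈ Om → 0 ≤ pot (odd f) x)
    (hwg : ∀ x, x ∈ Om → 0 ≤ pot (odd g) x) : Fo e1 f (fun x => g (th x)) ≤ 0 := by
  set T : E2 → X × X → ℝ := fun z p =>
    (f p.1 * (p.1.fst * pk p.1 z)) * (g (th p.2) * (-p.2.fst * pk p.2 z)) with hT
  have hgt : BC (fun x => g (th x)) := hg.comp_isom th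
  have hTm : Measurable (Function.uncurry T) := by
    have m1 : Measurable (fun w : E2 × (X × X) => (w.2.1, w.1)) := by fun_prop
    have m2 : Measurable (fun w : E2 × (X × X) => (w.2.2, w.1)) := by fun_prop
    have m3 : Measurable (fun w : E2 × (X × X) => w.2.1) := by fun_prop
    have m4 : Measurable (fun w : E2 × (X × X) => w.2.2) := by fun_prop
    have n1 := pk_meas.comp m1
    have n2 := pk_meas.comp m2
    exact ((hf.meas.comp m3).mul ((fst_continuous.measurable.comp m3).mul n1)).mul
      ((hgt.meas.comp m4).mul ((fst_continuous.measurable.comp m4).neg.mul n2))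
  -- the integrated kernel
  set Kf : X × X → ℝ := fun p => f p.1 * (-(⟪p.1 - p.2, e1⟫ * (‖p.1 - p.2‖ ^ 3)⁻¹) * g (th p.2))
    with hKf
  have hKI0 := (ker_grad e1).integrable_prod hf hgt
  have hKI : Integrable Kf ((volume : Measure X).prod (volume : Measure X)) := by
    rw [hKf]
    exact hKI0
  have hgO' : ∀ y : X, ¬ y.fst < 0 → g (th y) = 0 := by
    intro y hy
    refine hgO _ fun h => hy ?_
    have h2 : 0 < (th y).fst := h
    rw [th_fst] at h2
    linarith
  have hlin : ∀ p : X × X, ∫⁻ z, ‖T z p‖ₑ = ‖(2 * Real.pi) * Kf p‖ₑ := by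
    intro p
    by_cases h1 : p.1 ∈ Om
    · by_cases h2 : p.2.fst < 0
      · have hx : 0 < p.1.fst := h1
        have e1' : ∀ z, ‖T z p‖ₑ = ENNReal.ofReal (|f p.1| * |g (th p.2)| * (p.1.fst * -p.2.fst)) *
            ENNReal.ofReal (pk p.1 z * pk p.2 z) := by
          intro z
          have hpk1 := pk_nonneg p.1 z
          have hpk2 := pk_nonneg p.2 z
          have hy : 0 < -p.2.fst := by linarith
          rw [← ENNReal.ofReal_mul (by positivity), ← ofReal_norm]
          congr 1
          simp only [hT]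
          rw [Real.norm_eq_abs, abs_aux1 (by positivity : 0 ≤ p.1.fst * pk p.1 z)
            (by positivity : 0 ≤ -p.2.fst * pk p.2 z)]
          ring
        simp_rw [e1']
        rw [lintegral_const_mul' _ _ ENNReal.ofReal_ne_top, pk_lint hx h2,
          ← ENNReal.ofReal_mul (by
            have hy : 0 < -p.2.fst := by linarith
            positivity), ← ofReal_norm]
        congr 1
        simp only [hKf]
        rw [inner_e1]
        have e2 : (p.1 - p.2).fst = p.1.fst - p.2.fst := rfl
        have hxy : 0 ≤ p.1.fst - p.2.fst := by linarith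
        rw [e2, Real.norm_eq_abs, abs_aux2 (by positivity : 0 ≤ 2 * Real.pi)
          (by positivity : 0 ≤ (p.1.fst - p.2.fst) * (‖p.1 - p.2‖ ^ 3)⁻¹)]
        have hx' : p.1.fst ≠ 0 := hx.ne'
        have hy' : p.2.fst ≠ 0 := h2.ne
        field_simp
      · have e1' : ∀ z, T z p = 0 := fun z => by simp only [hT]; rw [hgO' _ h2]; ring
        have e2 : Kf p = 0 := by simp only [hKf]; rw [hgO' _ h2]; ring
        simp [e1', e2]
    · have e1' : ∀ z, T z p = 0 := fun z => by simp only [hT]; rw [hfO _ h1]; ring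
      have e2 : Kf p = 0 := by simp only [hKf]; rw [hfO _ h1]; ring
      simp [e1', e2]
  have hTI : Integrable (Function.uncurry T) ((volume : Measure E2).prod (volume.prod volume)) := by
    refine ⟨hTm.aestronglyMeasurable, ?_⟩
    rw [HasFiniteIntegral, lintegral_prod_symm' _ hTm.enorm]
    change ∫⁻ p : X × X, ∫⁻ z, ‖T z p‖ₑ ∂volume ∂(volume.prod volume) < ∞
    simp_rw [hlin]
    exact (hKI.const_mul (2 * Real.pi)).2
  have hreal : ∀ p : X × X, ∫ z, T z p = -(2 * Real.pi) * Kf p := by
    intro p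
    by_cases h1 : p.1 ∈ Om
    · by_cases h2 : p.2.fst < 0
      · have hx : 0 < p.1.fst := h1
        have hy : 0 < -p.2.fst := by linarith
        have e1' : ∀ z, T z p = (f p.1 * g (th p.2) * (p.1.fst * -p.2.fst)) *
            (pk p.1 z * pk p.2 z) := by
          intro z
          simp only [hT]; ring
        simp_rw [e1']
        have hm : Measurable (fun z : E2 => pk p.1 z * pk p.2 z) :=
          (pk_meas' p.1).mul (pk_meas' p.2)
        rw [integral_const_mul, integral_eq_lintegral_of_nonneg_ae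
          (Eventually.of_forall fun z => mul_nonneg (pk_nonneg _ _) (pk_nonneg _ _))
          hm.aestronglyMeasurable, pk_lint hx h2, ENNReal.toReal_ofReal (by
            have : 0 < p.1.fst - p.2.fst := by linarith
            positivity)]
        simp only [hKf]
        rw [inner_e1]
        have e2 : (p.1 - p.2).fst = p.1.fst - p.2.fst := rfl
        rw [e2]
        have hx' : p.1.fst ≠ 0 := hx.ne'
        have hy' : p.2.fst ≠ 0 := h2.ne
        field_simp
      · have e1' : ∀ z, T z p = 0 := fun z => by simp only [hT]; rw [hgO' _ h2]; ring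
        have e2 : Kf p = 0 := by simp only [hKf]; rw [hgO' _ h2]; ring
        simp [e1', e2]
    · have e1' : ∀ z, T z p = 0 := fun z => by simp only [hT]; rw [hfO _ h1]; ring
      have e2 : Kf p = 0 := by simp only [hKf]; rw [hfO _ h1]; ring
      simp [e1', e2]
  have hprod : ∀ z : E2, ∫ p : X × X, T z p ∂((volume : Measure X).prod (volume : Measure X)) =
      gP f z * gP g z := by
    intro z
    simp only [hT]
    rw [integral_prod_mul (μ := (volume : Measure X)) (ν := (volume : Measure X))
      (fun x => f x * (x.fst * pk x z)) (fun y => g (th y) * (-y.fst * pk y z)), ← grad_plane,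
      ← grad_plane_th]
    rfl
  have hswap := integral_integral_swap hTI
  have h1 : 0 ≤ ∫ z : E2, ∫ p : X × X, T z p ∂((volume : Measure X).prod (volume : Measure X)) := by
    refine integral_nonneg fun z => ?_
    rw [hprod]
    exact mul_nonneg (gP_nonneg hf hwf z) (gP_nonneg hg hwg z)
  rw [hswap] at h1
  simp_rw [hreal] at h1
  rw [integral_const_mul] at h1
  have h2 : Fo e1 f (fun x => g (th x)) = ∫ p, Kf p ∂((volume : Measure X).prod (volume : Measure X)) := by
    rw [integral_prod _ hKI]
    unfold Fo grad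
    simp only [hKf]
    refine integral_congr_ae (Eventually.of_forall fun x => ?_)
    simp only
    rw [← integral_const_mul]
  rw [h2]
  have hpi := Real.pi_pos
  nlinarith

end Pool.Agent.TF
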