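import Pool.Agent.Lib.MP_9cf0c9_mp.Potential

/-! The Coulomb kernel is positive semidefinite, by the Riesz composition formula
`|x|^{-2} * |x|^{-2} = C / |x|` in dimension three. -/

set_option linter.unusedSectionVars false
set_option linter.unusedVariables false
set_option linter.style.haveILetI false

namespace Pool.Agent.TF
open MeasureTheory Set Metric Filter Topology
open scoped ENNReal NNReal RealInnerProductSpace

variable {V : Type*} [NormedAddCommGroup V] [InnerProductSpace ℝ V] [FiniteDimensional ℝ V]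
  [MeasurableSpace V] [BorelSpace V]

/-- `|v|^{-2}` as a real function -/
noncomputable def kq (v : V) : ℝ := (‖v‖ ^ 2)⁻¹

theorem kq_meas : Measurable (kq : V → ℝ) := (measurable_norm.pow_const 2).inv

theorem kq_nonneg (v : V) : 0 ≤ kq v := by unfold kq; positivity

/-- `|v|^{-2}` as an extended nonnegative function -/
noncomputable def qe (v : V) : ℝ≥0∞ := ENNReal.ofReal (kq v)

theorem qe_meas : Measurable (qe : V → ℝ≥0∞) := kq_meas.ennreal_ofReal

/-- the composition integral -/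
noncomputable def A0 (v : V) : ℝ≥0∞ := ∫⁻ w, qe w * qe (v + w)

theorem qe_smul {r : ℝ} (hr : 0 < r) (w : V) : qe (r • w) = ENNReal.ofReal (r ^ 2)⁻¹ * qe w := by
  unfold qe kq
  rw [← ENNReal.ofReal_mul (by positivity), norm_smul, Real.norm_of_nonneg hr.le, mul_pow, mul_inv]

theorem qe_isom (L : V ≃ₗᵢ[ℝ] V) (w : V) : qe (L w) = qe w := by
  unfold qe kq
  rw [L.norm_map]

section dim3
variable [hd : Fact (Module.finrank ℝ V = 3)]

theorem lintegral_smul_eq {r : ℝ} (hr : 0 < r) {F : V → ℝ≥0∞} (hF : Measurable F) :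
    ∫⁻ w, F w = ENNReal.ofReal (r ^ 3) * ∫⁻ w, F (r • w) := by
  have h1 : ∫⁻ w, F (r • w) = ∫⁻ w, F w ∂(Measure.map (fun x : V => r • x) volume) := by
    rw [lintegral_map hF (measurable_const_smul r)]
  rw [h1, Measure.map_addHaar_smul _ hr.ne', lintegral_smul_measure, smul_eq_mul, ← mul_assoc,
    hd.out, abs_of_nonneg (by positivity), ← ENNReal.ofReal_mul (by positivity),
    mul_inv_cancel₀ (by positivity), ENNReal.ofReal_one, one_mul]

theorem A0_smul {r : ℝ} (hr : 0 < r) (v : V) : A0 (r • v) = ENNReal.ofReal r⁻¹ * A0 v := by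
  unfold A0
  have hm : Measurable (fun w : V => qe w * qe (r • v + w)) :=
    qe_meas.mul (qe_meas.comp (measurable_const.add measurable_id))
  rw [lintegral_smul_eq hr hm]
  simp_rw [← smul_add, qe_smul hr]
  have : ∀ w : V, ENNReal.ofReal (r ^ 2)⁻¹ * qe w * (ENNReal.ofReal (r ^ 2)⁻¹ * qe (v + w)) =
      (ENNReal.ofReal (r ^ 2)⁻¹ * ENNReal.ofReal (r ^ 2)⁻¹) * (qe w * qe (v + w)) := fun w => by ring
  simp_rw [this]
  have hm2 : Measurable (fun w : V => qe w * qe (v + w)) :=
    qe_meas.mul (qe_meas.comp (measurable_const.add measurable_id))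
  rw [lintegral_const_mul _ hm2,
    ← mul_assoc, ← ENNReal.ofReal_mul (by positivity), ← ENNReal.ofReal_mul (by positivity)]
  congr 2
  field_simp

theorem A0_isom (L : V ≃ₗᵢ[ℝ] V) (v : V) : A0 (L v) = A0 v := by
  unfold A0
  have hm : Measurable (fun w : V => qe w * qe (L v + w)) :=
    qe_meas.mul (qe_meas.comp (measurable_const.add measurable_id))
  rw [← L.measurePreserving.lintegral_comp hm]
  refine lintegral_congr fun w => ?_
  rw [← map_add, qe_isom, qe_isom]

/-- any two vectors of equal norm are related by a linear isometry -/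
theorem exists_isom {W : Type*} [NormedAddCommGroup W] [InnerProductSpace ℝ W]
    {v w : W} (h : ‖v‖ = ‖w‖) : ∃ L : W ≃ₗᵢ[ℝ] W, L v = w :=
  ⟨(ℝ ∙ (v - w))ᗮ.reflection, Submodule.reflection_sub h⟩

theorem A0_eq {u v : V} (hu : ‖u‖ = 1) (hv : v ≠ 0) : A0 v = ENNReal.ofReal ‖v‖⁻¹ * A0 u := by
  have hv' : 0 < ‖v‖ := norm_pos_iff.mpr hv
  obtain ⟨L, hL⟩ := exists_isom (v := ‖v‖ • u) (w := v)
    (by rw [norm_smul, hu, mul_one, norm_norm])
  have h1 : A0 v = A0 (L (‖v‖ • u)) := by rw [hL]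
  rw [h1, A0_isom, A0_smul hv']

theorem kq_prod_le {u : V} (hu : ‖u‖ = 1) (w : V) :
    kq w * kq (u + w) ≤ 4 * (ball (0 : V) 1).indicator (fun v => (‖v‖ ^ 2)⁻¹) w +
      4 * (ball (0 : V) 1).indicator (fun v => (‖v‖ ^ 2)⁻¹) (u + w) +
      225 * (1 + ‖w‖) ^ (-(4 : ℝ)) := by
  have i1 : 0 ≤ (ball (0 : V) 1).indicator (fun v => (‖v‖ ^ 2)⁻¹) w :=
    indicator_nonneg (fun _ _ => by positivity) _
  have i2 : 0 ≤ (ball (0 : V) 1).indicator (fun v => (‖v‖ ^ 2)⁻¹) (u + w) :=
    indicator_nonneg (fun _ _ => by positivity) _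
  have i3 : 0 ≤ (1 + ‖w‖) ^ (-(4 : ℝ)) := by positivity
  have hn1 : 1 ≤ ‖u + w‖ + ‖w‖ := by
    calc (1 : ℝ) = ‖(u + w) - w‖ := by simp [hu]
      _ ≤ _ := norm_sub_le _ _
  have hn2 : ‖w‖ ≤ 1 + ‖u + w‖ := by
    calc ‖w‖ = ‖(u + w) - u‖ := by simp
      _ ≤ ‖u + w‖ + ‖u‖ := norm_sub_le _ _
      _ = _ := by rw [hu]; ring
  have hkey : ∀ {a : ℝ}, 1 / 2 ≤ a → (a ^ 2)⁻¹ ≤ 4 := by
    intro a ha
    rw [inv_le_comm₀ (by positivity) (by norm_num)]
    nlinarith
  by_cases h1 : ‖w‖ < 1 / 2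
  · have hm : w ∈ ball (0 : V) 1 := by rw [mem_ball_zero_iff]; linarith
    rw [indicator_of_mem hm]
    rw [indicator_of_mem hm] at i1
    have h3 : kq (u + w) ≤ 4 := hkey (by linarith)
    have h4 : kq w * kq (u + w) ≤ kq w * 4 := mul_le_mul_of_nonneg_left h3 (kq_nonneg _)
    have h5 : kq w = (‖w‖ ^ 2)⁻¹ := rfl
    nlinarith
  · by_cases h2 : ‖u + w‖ < 1 / 2
    · have hm : u + w ∈ ball (0 : V) 1 := by rw [mem_ball_zero_iff]; linarith
      rw [indicator_of_mem hm]
      rw [indicator_of_mem hm] at i2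
      have h3 : kq w ≤ 4 := hkey (by linarith)
      have h4 : kq w * kq (u + w) ≤ 4 * kq (u + w) := mul_le_mul_of_nonneg_right h3 (kq_nonneg _)
      have h5 : kq (u + w) = (‖u + w‖ ^ 2)⁻¹ := rfl
      nlinarith
    · push Not at h1 h2
      have hw : 0 < ‖w‖ := by linarith
      have huw : 0 < ‖u + w‖ := by linarith
      have h3 : kq w ≤ 9 * ((1 + ‖w‖) ^ 2)⁻¹ := by
        unfold kq
        rw [← div_eq_mul_inv, inv_eq_one_div, div_le_div_iff₀ (by positivity) (by positivity)]
        nlinarith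
      have h4 : kq (u + w) ≤ 25 * ((1 + ‖w‖) ^ 2)⁻¹ := by
        unfold kq
        rw [← div_eq_mul_inv, inv_eq_one_div, div_le_div_iff₀ (by positivity) (by positivity)]
        have : 1 + ‖w‖ ≤ 5 * ‖u + w‖ := by linarith
        have h6 : (1 + ‖w‖) ^ 2 ≤ (5 * ‖u + w‖) ^ 2 := by gcongr
        nlinarith
      have h5 : kq w * kq (u + w) ≤ (9 * ((1 + ‖w‖) ^ 2)⁻¹) * (25 * ((1 + ‖w‖) ^ 2)⁻¹) :=
        mul_le_mul h3 h4 (kq_nonneg _) (by positivity)
      have h6 : (9 * ((1 + ‖w‖) ^ 2)⁻¹) * (25 * ((1 + ‖w‖) ^ 2)⁻¹) =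
          225 * (1 + ‖w‖) ^ (-(4 : ℝ)) := by
        rw [Real.rpow_neg (by positivity)]
        have : (1 + ‖w‖) ^ (4 : ℝ) = (1 + ‖w‖) ^ 4 := by norm_cast
        rw [this]
        field_simp
        norm_num
      linarith

theorem A0_lt_top {u : V} (hu : ‖u‖ = 1) : A0 u < ∞ := by
  have hI : Integrable (fun w : V => 4 * (ball (0 : V) 1).indicator (fun v => (‖v‖ ^ 2)⁻¹) w +
      4 * (ball (0 : V) 1).indicator (fun v => (‖v‖ ^ 2)⁻¹) (u + w) +
      225 * (1 + ‖w‖) ^ (-(4 : ℝ))) := by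
    refine (((integrable_ind_inv_sq (V := V)).const_mul 4).add
      (((integrable_ind_inv_sq (V := V)).comp_add_left u).const_mul 4)).add ?_
    refine (integrable_one_add_norm ?_).const_mul 225
    rw [hd.out]; norm_num
  refine lt_of_le_of_lt ?_ hI.lintegral_lt_top
  unfold A0
  refine lintegral_mono fun w => ?_
  unfold qe
  rw [← ENNReal.ofReal_mul (kq_nonneg _)]
  exact ENNReal.ofReal_le_ofReal (kq_prod_le hu w)

theorem A0_pos {u : V} (hu : ‖u‖ = 1) : A0 u ≠ 0 := by
  haveI := nontriv (V := V)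
  intro h
  have hm2 : Measurable (fun w : V => qe w * qe (u + w)) :=
    qe_meas.mul (qe_meas.comp (measurable_const.add measurable_id))
  unfold A0 at h
  rw [lintegral_eq_zero_iff hm2] at h
  have h1 : ∀ᵐ w : V, w ≠ 0 := by
    rw [ae_iff]; simp
  have h2 : ∀ᵐ w : V, w ≠ -u := by
    rw [ae_iff]; simp
  have h3 : ∀ᵐ w : V, False := by
    filter_upwards [h, h1, h2] with w hw hw1 hw2
    have e1 : qe w ≠ 0 := by
      unfold qe kq
      have : 0 < ‖w‖ := norm_pos_iff.mpr hw1
      rw [ne_eq, ENNReal.ofReal_eq_zero, not_le]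
      positivity
    have e2 : qe (u + w) ≠ 0 := by
      unfold qe kq
      have : 0 < ‖u + w‖ := by
        refine norm_pos_iff.mpr fun h0 => hw2 ?_
        rw [add_comm] at h0
        exact eq_neg_of_add_eq_zero_left h0
      rw [ne_eq, ENNReal.ofReal_eq_zero, not_le]
      positivity
    simp only [Pi.zero_apply, mul_eq_zero] at hw
    tauto
  rw [ae_iff] at h3
  simp at h3

/-- the Riesz constant -/
theorem exists_riesz (V : Type*) [NormedAddCommGroup V] [InnerProductSpace ℝ V]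
    [FiniteDimensional ℝ V] [MeasurableSpace V] [BorelSpace V]
    [hd : Fact (Module.finrank ℝ V = 3)] :
    ∃ C : ℝ, 0 < C ∧ ∀ v : V, v ≠ 0 → A0 v = ENNReal.ofReal (C * ‖v‖⁻¹) := by
  haveI := nontriv (V := V)
  obtain ⟨u, hu⟩ := exists_norm_eq V (zero_le_one (α := ℝ))
  refine ⟨(A0 u).toReal, ENNReal.toReal_pos (A0_pos hu) (A0_lt_top hu).ne, fun v hv => ?_⟩
  rw [A0_eq hu hv, ENNReal.ofReal_mul ENNReal.toReal_nonneg, ENNReal.ofReal_toReal
    (A0_lt_top hu).ne, mul_comm]

theorem A_eq (x y : V) : ∫⁻ w, qe (x - w) * qe (y - w) = A0 (y - x) := by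
  unfold A0
  rw [← lintegral_sub_left_eq_self (fun w => qe w * qe (y - x + w)) x]
  refine lintegral_congr fun w => ?_
  congr 2
  abel

/-- positive semidefiniteness of the Coulomb form -/
theorem coulomb_psd {f : V → ℝ} (hf : Measurable f)
    (hI : Integrable (fun p : V × V => f p.1 * (‖p.1 - p.2‖⁻¹ * f p.2)) (volume.prod volume)) :
    0 ≤ ∫ x, ∫ y, f x * (‖x - y‖⁻¹ * f y) := by
  haveI := nontriv (V := V)
  obtain ⟨C, hC, hA⟩ := exists_riesz V
  set T : V → V × V → ℝ := fun w p => (f p.1 * kq (p.1 - w)) * (f p.2 * kq (p.2 - w)) with hT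
  have hTm : Measurable (Function.uncurry T) := by
    have m1 : Measurable (fun q : V × (V × V) => q.2.1 - q.1) := by fun_prop
    have m2 : Measurable (fun q : V × (V × V) => q.2.2 - q.1) := by fun_prop
    have m3 : Measurable (fun q : V × (V × V) => q.2.1) := by fun_prop
    have m4 : Measurable (fun q : V × (V × V) => q.2.2) := by fun_prop
    exact ((hf.comp m3).mul (kq_meas.comp m1)).mul ((hf.comp m4).mul (kq_meas.comp m2))
  have hne : ∀ x : V, ∀ᵐ y : V, y - x ≠ 0 := by
    intro x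
    have : ∀ᵐ y : V, y ≠ x := by rw [ae_iff]; simp
    filter_upwards [this] with y hy
    exact sub_ne_zero.mpr hy
  -- inner lintegral
  have hin : ∀ p : V × V, ∫⁻ w, ‖T w p‖ₑ = ‖f p.1‖ₑ * ‖f p.2‖ₑ * A0 (p.2 - p.1) := by
    intro p
    rw [← A_eq, ← lintegral_const_mul]
    · refine lintegral_congr fun w => ?_
      simp only [hT]
      rw [enorm_mul, enorm_mul, enorm_mul, Real.enorm_of_nonneg (kq_nonneg _),
        Real.enorm_of_nonneg (kq_nonneg _)]
      unfold qe
      ring
    · exact (qe_meas.comp (measurable_const.sub measurable_id)).mul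
        (qe_meas.comp (measurable_const.sub measurable_id))
  have hTI : Integrable (Function.uncurry T) ((volume : Measure V).prod (volume.prod volume)) := by
    refine ⟨hTm.aestronglyMeasurable, ?_⟩
    rw [HasFiniteIntegral, lintegral_prod_symm' _ hTm.enorm]
    change ∫⁻ p : V × V, ∫⁻ w, ‖T w p‖ₑ ∂volume ∂(volume.prod volume) < ∞
    simp_rw [hin]
    have hm3 : Measurable (fun p : V × V => ‖f p.1‖ₑ * ‖f p.2‖ₑ * A0 (p.2 - p.1)) := by
      have : (fun p : V × V => ‖f p.1‖ₑ * ‖f p.2‖ₑ * A0 (p.2 - p.1)) =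
          fun p => ∫⁻ w, ‖T w p‖ₑ := by funext p; rw [hin]
      rw [this]
      exact hTm.enorm.lintegral_prod_left'
    have hI2 : ∫⁻ p : V × V, ENNReal.ofReal C * ‖f p.1 * (‖p.1 - p.2‖⁻¹ * f p.2)‖ₑ
        ∂(volume.prod volume) < ∞ := by
      rw [lintegral_const_mul' _ _ ENNReal.ofReal_ne_top]
      exact ENNReal.mul_lt_top ENNReal.ofReal_lt_top hI.2
    refine lt_of_eq_of_lt ?_ hI2
    have hm4 : Measurable (fun p : V × V =>
        ENNReal.ofReal C * ‖f p.1 * (‖p.1 - p.2‖⁻¹ * f p.2)‖ₑ) := by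
      have m1 : Measurable (fun p : V × V => ‖p.1 - p.2‖⁻¹) := by fun_prop
      exact (((hf.comp measurable_fst).mul (m1.mul (hf.comp measurable_snd))).enorm).const_mul _
    rw [lintegral_prod _ hm3.aemeasurable, lintegral_prod _ hm4.aemeasurable]
    refine lintegral_congr fun x => ?_
    refine lintegral_congr_ae ?_
    filter_upwards [hne x] with y hy
    rw [hA _ hy, enorm_mul, enorm_mul, Real.enorm_of_nonneg (by positivity : 0 ≤ ‖x - y‖⁻¹),
      ENNReal.ofReal_mul hC.le, norm_sub_rev]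
    ring
  have hreal : ∀ x y : V, y - x ≠ 0 →
      ∫ w, T w (x, y) = C * (f x * (‖x - y‖⁻¹ * f y)) := by
    intro x y hxy
    have e1 : ∀ w, T w (x, y) = (f x * f y) * (kq (x - w) * kq (y - w)) := fun w => by
      simp only [hT]; ring
    simp_rw [e1]
    rw [integral_const_mul]
    have e2 : ∫ w, kq (x - w) * kq (y - w) = C * ‖x - y‖⁻¹ := by
      rw [integral_eq_lintegral_of_nonneg_ae]
      · have : ∫⁻ w, ENNReal.ofReal (kq (x - w) * kq (y - w)) = A0 (y - x) := by
          rw [← A_eq]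
          refine lintegral_congr fun w => ?_
          rw [ENNReal.ofReal_mul (kq_nonneg _)]; rfl
        rw [this, hA _ hxy, ENNReal.toReal_ofReal (by positivity), norm_sub_rev]
      · exact Eventually.of_forall fun w => mul_nonneg (kq_nonneg _) (kq_nonneg _)
      · exact ((kq_meas.comp (measurable_const.sub measurable_id)).mul
          (kq_meas.comp (measurable_const.sub measurable_id))).aestronglyMeasurable
    rw [e2]; ring
  have hsq : ∀ w : V, ∫ p : V × V, T w p ∂((volume : Measure V).prod (volume : Measure V)) =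
      (∫ x, f x * kq (x - w)) ^ 2 := by
    intro w
    simp only [hT]
    rw [integral_prod_mul (μ := (volume : Measure V)) (ν := (volume : Measure V))
      (fun x => f x * kq (x - w)) (fun y => f y * kq (y - w)), sq]
  have hswap := integral_integral_swap hTI
  have h1 : 0 ≤ ∫ w : V, ∫ p : V × V, T w p ∂((volume : Measure V).prod (volume : Measure V)) := by
    refine integral_nonneg fun w => ?_
    rw [hsq]; positivity
  rw [hswap] at h1
  have h2 : ∫ p : V × V, ∫ w, T w p ∂volume ∂((volume : Measure V).prod (volume : Measure V)) =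
      C * ∫ x, ∫ y, f x * (‖x - y‖⁻¹ * f y) := by
    have hTI2 : Integrable (fun p : V × V => ∫ w, T w p)
        ((volume : Measure V).prod (volume : Measure V)) := hTI.integral_prod_right
    rw [integral_prod _ hTI2, ← integral_const_mul]
    refine integral_congr_ae (Eventually.of_forall fun x => ?_)
    simp only
    rw [← integral_const_mul]
    refine integral_congr_ae ?_
    filter_upwards [hne x] with y hy
    exact hreal x y hy
  rw [h2] at h1
  exact nonneg_of_mul_nonneg_right h1 hC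

theorem En_nonneg {f : V → ℝ} (hf : BC f) : 0 ≤ En f f := by
  unfold En pot
  simp_rw [← integral_const_mul]
  exact coulomb_psd hf.meas (ker_pot.integrable_prod hf hf)

end dim3

end Pool.Agent.TF
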