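import Pool.Agent.Lib.MP_9cf0c9_mp.Dd36
import Pool.Agent.Lib.MP_9cf0c9_mp.MirrorLin39
import Pool.Agent.Lib.MP_9cf0c9_mp.Axis39

/-! Two nuclei on the axis: the weight of one nucleus increases under rotation about this nucleus
away from the other one.  Proof by reflection in the planes through the nucleus and a weak
minimum principle. -/

set_option autoImplicit false
set_option linter.unusedSectionVars false
set_option linter.unusedVariables false

namespace Pool.Agent.TF.Col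
open MeasureTheory Set Metric Filter Topology
open scoped ENNReal NNReal RealInnerProductSpace Gradient
open Pool.Agent.TF.Grd

/-! ### weak divergences in an open set -/

/-- `A` has the weak divergence `d` in the open set `U` -/
structure WDU (U : Set X) (A : X → X) (d : X → ℝ) : Prop where
  contA : ContinuousOn A U
  contd : ContinuousOn d U
  eq : ∀ (η : X → ℝ) (C : ℝ≥0), LipschitzWith C η → HasCompactSupport η →
    tsupport η ⊆ U → ∫ x, ⟪A x, ∇ η x⟫ = -∫ x, d x * η x

theorem WD.toU {A : X → X} {d : X → ℝ} (h : WD A d) {U : Set X} (hU : U ⊆ axᶜ) : WDU U A d :=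
  ⟨h.contA.mono hU, h.contd.mono hU, fun η C h1 h2 h3 => h.eq η C h1 h2
    (Set.disjoint_left.mpr fun x hx hxa => hU (h3 hx) hxa)⟩

theorem WDU.mono {A : X → X} {d : X → ℝ} {U V : Set X} (h : WDU U A d) (hV : V ⊆ U) : WDU V A d :=
  ⟨h.contA.mono hV, h.contd.mono hV, fun η C h1 h2 h3 => h.eq η C h1 h2 (h3.trans hV)⟩

theorem int_mul_of {U : Set X} {η d : X → ℝ} {C : ℝ≥0} (hC : LipschitzWith C η)
    (hc : HasCompactSupport η) (hs : tsupport η ⊆ U) (hd : ContinuousOn d U) :
    Integrable fun x => d x * η x := by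
  have h1 : (fun x => d x * η x) = (tsupport η).indicator fun x => d x * η x := by
    funext x
    by_cases hx : x ∈ tsupport η
    · rw [indicator_of_mem hx]
    · rw [indicator_of_notMem hx, image_eq_zero_of_notMem_tsupport hx, mul_zero]
  rw [h1, integrable_indicator_iff (isClosed_tsupport η).measurableSet]
  exact ((hd.mono hs).mul hC.continuous.continuousOn).integrableOn_compact hc

theorem int_inner_of {U : Set X} {η : X → ℝ} {A : X → X} {C : ℝ≥0} (hC : LipschitzWith C η)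
    (hc : HasCompactSupport η) (hs : tsupport η ⊆ U) (hA : ContinuousOn A U) :
    Integrable fun x => ⟪A x, ∇ η x⟫ := by
  have h1 : (fun x => ⟪A x, ∇ η x⟫) = (tsupport η).indicator fun x => ⟪A x, ∇ η x⟫ := by
    funext x
    by_cases hx : x ∈ tsupport η
    · rw [indicator_of_mem hx]
    · rw [indicator_of_notMem hx, gradient_zero_of_notMem hx, inner_zero_right]
  rw [h1, integrable_indicator_iff (isClosed_tsupport η).measurableSet]
  have h2 : IntegrableOn A (tsupport η) := (hA.mono hs).integrableOn_compact hc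
  refine Integrable.mono' (h2.norm.const_mul (C : ℝ))
    (h2.1.inner (measurable_gradient η).aestronglyMeasurable) (Eventually.of_forall fun x => ?_)
  calc ‖⟪A x, ∇ η x⟫‖ ≤ ‖A x‖ * ‖∇ η x‖ := norm_inner_le_norm _ _
    _ ≤ ‖A x‖ * C := mul_le_mul_of_nonneg_left (gradient_bound hC x) (norm_nonneg _)
    _ = C * ‖A x‖ := mul_comm _ _

theorem WDU.add {U : Set X} {A B : X → X} {d e : X → ℝ} (hA : WDU U A d) (hB : WDU U B e) :
    WDU U (fun x => A x + B x) fun x => d x + e x := by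
  refine ⟨hA.contA.add hB.contA, hA.contd.add hB.contd, fun η C h1 h2 h3 => ?_⟩
  simp_rw [inner_add_left, add_mul]
  rw [integral_add (int_inner_of h1 h2 h3 hA.contA) (int_inner_of h1 h2 h3 hB.contA),
    integral_add (int_mul_of h1 h2 h3 hA.contd) (int_mul_of h1 h2 h3 hB.contd),
    hA.eq η C h1 h2 h3, hB.eq η C h1 h2 h3]
  ring

theorem WDU.const_smul {U : Set X} {A : X → X} {d : X → ℝ} (hA : WDU U A d) (a : ℝ) :
    WDU U (fun x => a • A x) fun x => a * d x := by
  refine ⟨hA.contA.const_smul a, hA.contd.const_mul a, fun η C h1 h2 h3 => ?_⟩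
  simp_rw [real_inner_smul_left, mul_assoc]
  rw [integral_const_mul, integral_const_mul, hA.eq η C h1 h2 h3]
  ring

theorem WDU.congr {U : Set X} {A B : X → X} {d e : X → ℝ} (hA : WDU U A d)
    (h1 : ∀ x ∈ U, A x = B x) (h2 : ∀ x ∈ U, d x = e x) : WDU U B e := by
  refine ⟨hA.contA.congr fun x hx => (h1 x hx).symm, hA.contd.congr fun x hx => (h2 x hx).symm,
    fun η C k1 k2 k3 => ?_⟩
  have e1 : ∀ x, ⟪B x, ∇ η x⟫ = ⟪A x, ∇ η x⟫ := fun x => by
    by_cases hx : x ∈ tsupport η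
    · rw [h1 x (k3 hx)]
    · rw [gradient_zero_of_notMem hx, inner_zero_right, inner_zero_right]
  have e2 : ∀ x, e x * η x = d x * η x := fun x => by
    by_cases hx : x ∈ tsupport η
    · rw [h2 x (k3 hx)]
    · rw [image_eq_zero_of_notMem_tsupport hx, mul_zero, mul_zero]
  simp_rw [e1, e2]
  exact hA.eq η C k1 k2 k3

/-! ### the mirror image of a weak divergence -/

theorem mirL_symm_inner (e : X) (v w : X) : ⟪mirL e v, w⟫ = ⟪v, mirL e w⟫ := by
  have h : mirL e (mirL e w) = w := by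
    unfold mirL
    exact Submodule.reflection_reflection _ _
  conv_lhs => rw [← h]
  exact (mirL e).inner_map_map v (mirL e w)

theorem hasFDerivAt_mir {o e : X} (he : ‖e‖ = 1) (x : X) :
    HasFDerivAt (mir o e) ((mirL e).toContinuousLinearEquiv : X →L[ℝ] X) x := by
  have h0 : mir o e = fun x => (mirL e).toContinuousLinearEquiv (x + -o) + o := by
    funext y
    rw [mir_eq_mirL he]
    rfl
  rw [h0]
  have h1 : HasFDerivAt (fun x : X => x + -o) (ContinuousLinearMap.id ℝ X) x :=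
    (hasFDerivAt_id x).add_const _
  exact (((mirL e).toContinuousLinearEquiv.hasFDerivAt).comp x h1).add_const o

theorem grad_mir {o e : X} (he : ‖e‖ = 1) {u : X → ℝ} {g x : X}
    (h : HasGradientAt u g (mir o e x)) : HasGradientAt (fun y => u (mir o e y)) (mirL e g) x := by
  rw [hasGradientAt_iff_hasFDerivAt] at h ⊢
  refine (h.comp x (hasFDerivAt_mir he x)).congr_fderiv ?_
  ext v
  simp only [ContinuousLinearMap.comp_apply, InnerProductSpace.toDual_apply_apply]
  rw [mirL_symm_inner]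
  rfl

theorem WDU.mir {U : Set X} {A : X → X} {d : X → ℝ} (hA : WDU U A d) {o e : X} (he : ‖e‖ = 1) :
    WDU (TF.mir o e ⁻¹' U) (fun x => mirL e (A (TF.mir o e x))) fun x => d (TF.mir o e x) := by
  have hm : Continuous (TF.mir o e) := mir_continuous o e
  refine ⟨(mirL e).continuous.comp_continuousOn (hA.contA.comp hm.continuousOn fun x hx => hx),
    hA.contd.comp hm.continuousOn fun x hx => hx, fun η C h1 h2 h3 => ?_⟩
  have hmp := mir_mp he (o := o)
  have hiso : LipschitzWith 1 (TF.mir o e) := LipschitzWith.of_dist_le_mul fun x y => by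
    rw [dist_eq_norm, dist_eq_norm, norm_mir_mir he, NNReal.coe_one, one_mul]
  have k1 : LipschitzWith (C * 1) fun x => η (TF.mir o e x) := h1.comp hiso
  have hhom : ∃ T : X ≃ₜ X, (T : X → X) = TF.mir o e :=
    ⟨⟨⟨TF.mir o e, TF.mir o e, fun x => mir_mir he x, fun x => mir_mir he x⟩, hm, hm⟩, rfl⟩
  obtain ⟨T, hT⟩ := hhom
  have k2 : HasCompactSupport fun x => η (TF.mir o e x) := by
    have := h2.comp_homeomorph T
    rw [hT] at this
    exact this
  have k3 : tsupport (fun x => η (TF.mir o e x)) ⊆ U := by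
    have h4 : tsupport (fun x => η (TF.mir o e x)) ⊆ TF.mir o e ⁻¹' tsupport η :=
      closure_minimal (fun x hx => subset_tsupport η hx) ((isClosed_tsupport η).preimage hm)
    intro x hx
    have h5 := h3 (h4 hx)
    have h6 : TF.mir o e (TF.mir o e x) ∈ U := h5
    rwa [mir_mir he] at h6
  have key := hA.eq _ _ k1 k2 k3
  have hme : MeasurableEmbedding (TF.mir o e) := by
    rw [← hT]
    exact T.measurableEmbedding
  have e1 : ∫ x, ⟪mirL e (A (TF.mir o e x)), ∇ η x⟫ =
      ∫ x, ⟪A x, ∇ (fun y => η (TF.mir o e y)) x⟫ := by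
    rw [← hmp.integral_comp hme fun x => ⟪A x, ∇ (fun y => η (TF.mir o e y)) x⟫]
    refine integral_congr_ae ?_
    filter_upwards [h1.ae_differentiableAt (μ := (volume : Measure X))] with x hx
    have h5 : HasGradientAt η (∇ η x) (TF.mir o e (TF.mir o e x)) := by
      rw [mir_mir he]
      exact hx.hasGradientAt
    rw [(grad_mir he h5).gradient, mirL_symm_inner]
  have e2 : ∫ x, d x * η (TF.mir o e x) = ∫ x, d (TF.mir o e x) * η x := by
    rw [← hmp.integral_comp hme fun x => d x * η (TF.mir o e x)]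
    refine integral_congr_ae (Eventually.of_forall fun x => ?_)
    simp only
    rw [mir_mir he]
  rw [e1, key, e2]

/-! ### the weak minimum principle -/

/-- a Lipschitz function with compact support whose gradient vanishes is zero -/
theorem zero_of_grad {η : X → ℝ} {C : ℝ≥0} (h1 : LipschitzWith C η) (h2 : HasCompactSupport η)
    (h3 : ∀ᵐ x : X, ∇ η x = 0) (y : X) : η y = 0 := by
  have h := rep h1 h2 y
  have h4 : ∫ x, (‖x - y‖ ^ 3)⁻¹ * ⟪x - y, ∇ η x⟫ = 0 := by
    have h5 : (fun x => (‖x - y‖ ^ 3)⁻¹ * ⟪x - y, ∇ η x⟫) =ᵐ[volume] fun _ => (0 : ℝ) := by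
      filter_upwards [h3] with x hx
      rw [hx, inner_zero_right, mul_zero]
    rw [integral_congr_ae h5, integral_zero]
  rw [h4] at h
  have := Real.pi_pos
  nlinarith

theorem weak_min {U : Set X} (hU : IsOpen U) {Z : X → ℝ} {Z' : X → X} {d : X → ℝ}
    (hg : ∀ x ∈ U, HasGradientAt Z (Z' x) x) (hw : WDU U Z' d)
    (hd : ∀ x ∈ U, Z x < 0 → d x ≤ 0)
    (hb : ∀ x ∈ frontier U, ∀ δ > 0, ∀ᶠ y in 𝓝 x, y ∈ U → -δ < Z y)
    (hinf : ∀ δ > 0, ∃ N : ℝ, ∀ x ∈ U, N ≤ ‖x‖ → -δ < Z x) : ∀ x ∈ U, 0 ≤ Z x := by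
  classical
  intro x₀ hx₀
  by_contra hcon
  push Not at hcon
  obtain ⟨δ, hδ⟩ : ∃ δ, δ = -Z x₀ / 2 := ⟨_, rfl⟩
  have hδ0 : 0 < δ := by rw [hδ]; linarith
  obtain ⟨K, hK⟩ : ∃ K, K = {x | x ∈ U ∧ Z x ≤ -δ} := ⟨_, rfl⟩
  obtain ⟨η, hη⟩ : ∃ η : X → ℝ, η = fun x => if x ∈ U then max (-Z x - δ) 0 else 0 := ⟨_, rfl⟩
  have hcont : ∀ x ∈ U, ContinuousAt Z x := fun x hx => (hg x hx).hasFDerivAt.continuousAt
  have hKc : IsClosed K := by
    rw [← isOpen_compl_iff, isOpen_iff_mem_nhds]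
    intro x hx
    by_cases hxU : x ∈ U
    · have h1 : -δ < Z x := by
        by_contra h
        push Not at h
        exact hx (by rw [hK]; exact ⟨hxU, h⟩)
      filter_upwards [(hcont x hxU).eventually (lt_mem_nhds h1)] with y hy hyK
      rw [hK] at hyK
      exact absurd hyK.2 (not_le.mpr hy)
    · by_cases hf : x ∈ frontier U
      · filter_upwards [hb x hf δ hδ0] with y hy hyK
        rw [hK] at hyK
        exact absurd hyK.2 (not_le.mpr (hy hyK.1))
      · have h2 : x ∉ closure U := by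
          intro h
          refine hf ⟨h, ?_⟩
          rw [hU.interior_eq]
          exact hxU
        filter_upwards [isClosed_closure.isOpen_compl.mem_nhds h2] with y hy hyK
        rw [hK] at hyK
        exact hy (subset_closure hyK.1)
  obtain ⟨N, hN⟩ := hinf δ hδ0
  have hKN : ∀ x ∈ K, ‖x‖ < N := by
    intro x hx
    rw [hK] at hx
    by_contra h
    push Not at h
    exact absurd hx.2 (not_le.mpr (hN x hx.1 h))
  have hη0 : ∀ x, x ∉ K → η x = 0 := by
    intro x hx
    rw [hη]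
    simp only
    split_ifs with h
    · refine max_eq_right ?_
      have h1 : -δ < Z x := by
        by_contra h2
        push Not at h2
        exact hx (by rw [hK]; exact ⟨h, h2⟩)
      linarith
    · rfl
  have hηU : ∀ x ∈ U, η =ᶠ[𝓝 x] fun y => max (-Z y - δ) 0 := by
    intro x hx
    filter_upwards [hU.mem_nhds hx] with y hy
    rw [hη]
    simp only
    rw [if_pos hy]
  have hηn : ∀ x, 0 ≤ η x := by
    intro x
    rw [hη]
    simp only
    split_ifs
    · exact le_max_right _ _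
    · exact le_rfl
  have hlip : ∀ x, LipAt η x := by
    intro x
    by_cases hx : x ∈ U
    · obtain ⟨r, hr, hrU⟩ := Metric.isOpen_iff.mp hU x hx
      have h1 : LipAt Z x := lipAt_of_gradient hr (fun y hy => hg y (hrU hy))
        (hw.contA.continuousAt (hU.mem_nhds hx))
      have h2 : LipAt (fun y => max (-Z y - δ) 0) x := by
        have h3 := ((LipAt.const (-δ) x).sub h1).max (LipAt.const 0 x)
        refine h3.congr (Eventually.of_forall fun y => ?_)
        simp only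
        congr 1
        ring
      exact h2.congr (hηU x hx).symm
    · have hxK : x ∉ K := fun h => hx (by rw [hK] at h; exact h.1)
      have h2 : η =ᶠ[𝓝 x] fun _ => 0 := by
        filter_upwards [hKc.isOpen_compl.mem_nhds hxK] with y hy
        exact hη0 y hy
      exact (LipAt.const 0 x).congr h2.symm
  obtain ⟨⟨C, hC⟩, hcs⟩ := lipschitz_of_compact (u := η) hlip (R := max N 1) (by positivity)
    fun x hx => hη0 x fun h => by
      have := hKN x h
      have := le_max_left N 1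
      linarith
  have hts : tsupport η ⊆ K := by
    refine closure_minimal (fun x hx => ?_) hKc
    by_contra h
    exact hx (hη0 x h)
  have hKU : K ⊆ U := fun x hx => by rw [hK] at hx; exact hx.1
  have key := hw.eq η C hC hcs (hts.trans hKU)
  -- the gradient of the test function
  have hgr : ∀ᵐ x : X, ⟪Z' x, ∇ η x⟫ = -‖∇ η x‖ ^ 2 := by
    filter_upwards [ae_level hC.continuous.measurable 0] with x hx
    rcases (hηn x).eq_or_lt with h | h
    · have h1 : ∇ η x = 0 := by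
        by_cases hdx : DifferentiableAt ℝ η x
        · exact hx h.symm hdx
        · unfold gradient
          rw [fderiv_zero_of_not_differentiableAt hdx, map_zero]
      rw [h1, inner_zero_right, norm_zero]
      norm_num
    · have hxK : x ∈ K := by
        by_contra h1
        rw [hη0 x h1] at h
        exact absurd h (lt_irrefl _)
      have hxU := hKU hxK
      have h1 : η x = max (-Z x - δ) 0 := (hηU x hxU).self_of_nhds
      have h2 : 0 < -Z x - δ := by
        by_contra h3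
        push Not at h3
        rw [h1, max_eq_right h3] at h
        exact absurd h (lt_irrefl _)
      have h3 : η =ᶠ[𝓝 x] fun y => -Z y - δ := by
        have h4 : ContinuousAt (fun y => -Z y - δ) x := ((hcont x hxU).neg).sub continuousAt_const
        filter_upwards [hηU x hxU, h4.eventually (lt_mem_nhds h2)] with y hy hy2
        rw [hy]
        exact max_eq_left (le_of_lt hy2)
      have h5 : HasGradientAt (fun y => -Z y - δ) (-Z' x) x := by
        have h6 := hg x hxU
        rw [hasGradientAt_iff_hasFDerivAt] at h6 ⊢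
        rw [map_neg]
        exact (h6.neg).sub_const δ
      have h7 : HasGradientAt η (-Z' x) x := h5.congr_of_eventuallyEq h3
      rw [h7.gradient, inner_neg_right, real_inner_self_eq_norm_sq, norm_neg]
  have hI1 : Integrable fun x => ‖∇ η x‖ ^ 2 := by
    have h1 := int_inner_of hC hcs (hts.trans hKU) hw.contA
    refine h1.neg.congr ?_
    filter_upwards [hgr] with x hx
    simp only [Pi.neg_apply]
    rw [hx, neg_neg]
  have hle : ∫ x, ‖∇ η x‖ ^ 2 ≤ 0 := by
    have h1 : ∫ x, ⟪Z' x, ∇ η x⟫ = -∫ x, ‖∇ η x‖ ^ 2 := by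
      rw [← integral_neg]
      exact integral_congr_ae hgr
    have h2 : ∫ x, d x * η x ≤ 0 := by
      refine integral_nonpos fun x => ?_
      show d x * η x ≤ 0
      by_cases hx : x ∈ K
      · have h3 : Z x < 0 := by
          rw [hK] at hx
          linarith [hx.2]
        exact mul_nonpos_of_nonpos_of_nonneg (hd x (hKU hx) h3) (hηn x)
      · rw [hη0 x hx, mul_zero]
    linarith
  have hae : ∀ᵐ x : X, ∇ η x = 0 := by
    have h1 : ∫ x, ‖∇ η x‖ ^ 2 = 0 :=
      le_antisymm hle (integral_nonneg fun x => by positivity)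
    have h2 := (integral_eq_zero_iff_of_nonneg (fun x => by positivity) hI1).mp h1
    filter_upwards [h2] with x hx
    have h3 : ‖∇ η x‖ ^ 2 = 0 := hx
    exact norm_eq_zero.mp (pow_eq_zero_iff (two_ne_zero) |>.mp h3)
  have hz := zero_of_grad hC hcs hae x₀
  have h1 : η x₀ = max (-Z x₀ - δ) 0 := (hηU x₀ hx₀).self_of_nhds
  have h2 : 0 < -Z x₀ - δ := by rw [hδ]; linarith
  rw [h1, max_eq_left h2.le] at hz
  linarith

/-! ### the solution and the transverse multiples of the weight -/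

variable {ι : Type*} [Fintype ι]
variable {φ₀ : ℝ} {z : ι → ℝ} {R : ι → X} {ρ : X → ℝ} {H : X → X →L[ℝ] X} {lo hi : ℝ}

theorem Dat.sol (D : Dat φ₀ z R ρ H lo hi) : Sol φ₀ z R ρ := ⟨D.hρ, fun x _ => D.heq x⟩

/-- the potential is nonnegative -/
theorem Dat.psi_ge (D : Dat φ₀ z R ρ H lo hi) {x : X} (hx : ∀ i, x ≠ R i) :
    0 ≤ psi φ₀ z R ρ x + φ₀ := by
  have h0 : ∀ x : X, pot (fun _ : X => (0 : ℝ)) x = 0 := fun x => by simp [pot]
  have h1 : ∀ x : X, Vn (fun _ : ι => (0 : ℝ)) R x = 0 := fun x => by simp [Vn]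
  have hs : Sol φ₀ (fun _ : ι => (0 : ℝ)) R (fun _ : X => (0 : ℝ)) :=
    ⟨BC.zero.toTC fun _ => le_rfl, fun x _ => by
      rw [h0, h1, tf_of_nonpos]
      have := D.hφ
      linarith⟩
  have h := compare (fun i => D.hz i) le_rfl hs D.sol x hx
  have e1 : TF.psi φ₀ (fun _ : ι => (0 : ℝ)) R (fun _ : X => (0 : ℝ)) x = -φ₀ := by
    unfold TF.psi
    rw [h0, h1]
    ring
  rw [e1] at h
  have h2 : -φ₀ ≤ psi φ₀ z R ρ x := h
  linarith

theorem tf_le_gam {s φ : ℝ} (hφ : 0 ≤ φ) : tf s ≤ gam s * (s + φ) := by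
  have h0 := gam_nonneg' s
  rcases le_total s 0 with h | h
  · rw [tf_of_nonpos h]
    unfold gam
    rw [max_eq_right h, Real.sqrt_zero]
    simp
  · unfold tf gam
    rw [max_eq_left h]
    have h1 := Real.sqrt_nonneg s
    have h2 := mul_nonneg h h1
    have h3 := mul_nonneg hφ h1
    linarith

theorem Dat.rho_le_gam (D : Dat φ₀ z R ρ H lo hi) (x : X) :
    ρ x ≤ gam (psi φ₀ z R ρ x) * (psi φ₀ z R ρ x + φ₀) := by
  rw [D.heq x]
  exact tf_le_gam D.hφ.le

/-- a transverse component of a field in the meridian plane -/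
theorem inner_tr_es {v x τ : X} (hx : x ∉ Col.ax) (hτ : ⟪τ, e1⟫ = 0)
    (hv : v = ⟪v, e1⟫ • e1 + ⟪v, es x⟫ • es x) :
    ⟪τ, v⟫ = ⟪x, τ⟫ / ht x * ⟪v, es x⟫ := by
  have hs := ht_pos hx
  have h1 : ⟪τ, es x⟫ = ⟪x, τ⟫ / ht x := by
    unfold es
    rw [real_inner_smul_right, perp_eq, inner_sub_right, real_inner_smul_right, hτ,
      real_inner_comm x τ]
    field_simp
    ring
  conv_lhs => rw [hv]
  rw [inner_add_right, real_inner_smul_right, real_inner_smul_right, h1, hτ]
  ring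

theorem Dat.c1_twt (D : Dat φ₀ z R ρ H lo hi) (a b : ℝ) (τ : X) :
    C1O (fun x => ⟪x, τ⟫ * wt z R ρ a b x)
      fun x => ⟪x, τ⟫ • wt' z R ρ H a b x + wt z R ρ a b x • τ :=
  (C1O.inner_const' τ).mul (D.c1_wt a b)

theorem Dat.wd_twt (D : Dat φ₀ z R ρ H lo hi) (a b : ℝ) {τ : X} (hτ : ⟪τ, e1⟫ = 0) :
    WD (fun x => ⟪x, τ⟫ • wt' z R ρ H a b x + wt z R ρ a b x • τ) fun x =>
      4 * Real.pi * gam (psi φ₀ z R ρ x) * (⟪x, τ⟫ * wt z R ρ a b x) := by
  have h1 := (D.wd_wt a b).mul (C1O.inner_const' τ)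
  have h2 := (WD.const τ).mul (D.c1_wt a b)
  refine (h1.add h2).congr (fun x hx => rfl) fun x hx => ?_
  have hs := ht_pos hx
  have h3 := inner_tr_es hx hτ (D.wt'_eq a b hx)
  rw [real_inner_comm τ (wt' z R ρ H a b x), h3]
  field_simp
  ring

/-! ### the size of the weight -/

theorem wt_pf {a b : ℝ} (hab : a ≠ b) (z : ι → ℝ) (R : ι → X) (ρ : X → ℝ) (x : X) :
    wt z R ρ a b x = pf z R ρ x - (b - a)⁻¹ * qf z R ρ a x := by
  have h1 : b - a ≠ 0 := sub_ne_zero.mpr hab.symm
  unfold wt qf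
  field_simp
  ring

/-- near the nucleus of the weight -/
theorem Dat.wt_near (D : Dat φ₀ z R ρ H lo hi) (hz : ∀ i, 0 < z i) (hR : Function.Injective R)
    (i : ι) {b : ℝ} (hb : (R i).fst ≠ b) :
    ∃ δ C : ℝ, 0 < δ ∧ 0 ≤ C ∧ ∀ x ∈ ball (R i) δ, x ∉ Col.ax →
      |wt z R ρ (R i).fst b x - z i * (‖x - R i‖ ^ 3)⁻¹| ≤ C * ((‖x - R i‖⁻¹) ^ (7 / 4 : ℝ) + 1) := by
  obtain ⟨δ, C, Q, hδ, -, hC, h⟩ := D.nuc_bounds hz hR i
  refine ⟨δ, C + |(b - (R i).fst)⁻¹| * C, hδ, by positivity, fun x hx hxa => ?_⟩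
  have hN := h x hx hxa
  have h1 := hN.p
  have h2 := hN.q_le
  rw [wt_pf hb]
  have e1 : pf z R ρ x - (b - (R i).fst)⁻¹ * qf z R ρ (R i).fst x - z i * (‖x - R i‖ ^ 3)⁻¹ =
      (pf z R ρ x - z i * (‖x - R i‖ ^ 3)⁻¹) - (b - (R i).fst)⁻¹ * qf z R ρ (R i).fst x := by ring
  rw [e1]
  refine (abs_sub _ _).trans ?_
  rw [abs_mul]
  have h3 : 0 ≤ (‖x - R i‖⁻¹) ^ (7 / 4 : ℝ) := by positivity
  have h4 := mul_le_mul_of_nonneg_left h2 (abs_nonneg (b - (R i).fst)⁻¹)
  have h5 : 0 ≤ |(b - (R i).fst)⁻¹| * C := by positivity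
  linarith [mul_nonneg h5 h3]

/-- elsewhere the weight is locally bounded -/
theorem Dat.wt_loc (D : Dat φ₀ z R ρ H lo hi) (hz : ∀ i, 0 < z i) (hR : Function.Injective R)
    {a : ℝ} {j : ι} {y : X} (hy : y = R j ∨ ∀ k, y ≠ R k) :
    ∃ C : ℝ, 0 ≤ C ∧ ∀ᶠ x in 𝓝 y, x ∉ Col.ax → |wt z R ρ a (R j).fst x| ≤ C := by
  rcases hy with rfl | hy
  · obtain ⟨δ, C, Q, hδ, -, hC, h⟩ := D.nuc_bounds hz hR j
    refine ⟨|((R j).fst - a)⁻¹| * C, by positivity, ?_⟩
    filter_upwards [ball_mem_nhds (R j) hδ] with x hx hxa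
    rw [wt_q, abs_neg, abs_mul]
    exact mul_le_mul_of_nonneg_left (h x hx hxa).q_le (abs_nonneg _)
  · have h1 : ContinuousAt (fun x => ‖H x‖) y := (D.hs.contAt hy).norm
    refine ⟨|((R j).fst - a)⁻¹| * ((‖H y‖ + 1) * (|(R j).fst| + (|lo| + |hi|))), by positivity, ?_⟩
    filter_upwards [h1.eventually (gt_mem_nhds (show ‖H y‖ < ‖H y‖ + 1 by linarith))] with x hx hxa
    unfold wt
    rw [abs_mul, abs_mul, abs_of_pos (D.ax.pos x hxa)]
    refine mul_le_mul_of_nonneg_left ?_ (abs_nonneg _)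
    refine mul_le_mul ((D.ht_p'_le hxa).1.trans hx.le) ?_ (abs_nonneg _) (by positivity)
    exact (abs_sub _ _).trans (by linarith [D.bdN_c x hxa])

/-- far away -/
theorem Dat.wt_far (D : Dat φ₀ z R ρ H lo hi) (a b : ℝ) :
    ∃ C N : ℝ, 0 ≤ C ∧ 1 ≤ N ∧ ∀ x, x ∉ Col.ax → N ≤ ‖x‖ →
      |wt z R ρ a b x| ≤ C * (‖x‖ ^ 3)⁻¹ := by
  obtain ⟨C, N, hF⟩ := D.farB
  refine ⟨|(b - a)⁻¹| * (C * (|b| + (|lo| + |hi|))), N, ?_, hF.N0, fun x hx hN => ?_⟩
  · have := hF.C0
    positivity
  unfold wt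
  have hn : 0 ≤ (‖x‖ ^ 3)⁻¹ := by positivity
  rw [abs_mul, abs_mul, abs_of_pos (D.ax.pos x hx), mul_assoc]
  refine mul_le_mul_of_nonneg_left ?_ (abs_nonneg _)
  have h1 : |b - cf z R ρ x| ≤ |b| + (|lo| + |hi|) :=
    (abs_sub _ _).trans (by linarith [D.bdN_c x hx])
  calc pf z R ρ x * |b - cf z R ρ x| ≤ (C * (‖x‖ ^ 3)⁻¹) * (|b| + (|lo| + |hi|)) :=
        mul_le_mul (hF.p x hx hN) h1 (abs_nonneg _) (mul_nonneg hF.C0 hn)
    _ = _ := by ring

/-! ### reflection in a plane through the nucleus -/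

section refl
variable {ι : Type*} [Fintype ι]
variable {φ₀ : ℝ} {z : ι → ℝ} {R : ι → X} {ρ : X → ℝ} {H : X → X →L[ℝ] X} {lo hi : ℝ}

theorem inner_tr_mir {o n τ : X} (hτn : ⟪τ, n⟫ = 0) (x : X) : ⟪mir o n x, τ⟫ = ⟪x, τ⟫ := by
  unfold mir
  rw [inner_sub_left, real_inner_smul_left, real_inner_comm τ n, hτn]
  ring

theorem off_of_tr {τ x : X} (hτ : ⟪τ, e1⟫ = 0) (hx : 0 < ⟪x, τ⟫) : x ∉ Col.ax := by
  intro h
  have h1 : τ.fst = 0 := by rw [← inner_e1]; exact hτ
  have h2 : x.snd = 0 := h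
  rw [inner_X, h1, h2, mul_zero, inner_zero_left, add_zero] at hx
  exact absurd hx (lt_irrefl _)

theorem tr_of_ax {τ x : X} (hτ : ⟪τ, e1⟫ = 0) (hx : x ∈ Col.ax) : ⟪x, τ⟫ = 0 := by
  have h1 : τ.fst = 0 := by rw [← inner_e1]; exact hτ
  have h2 : x.snd = 0 := hx
  rw [inner_X, h1, h2, mul_zero, inner_zero_left, add_zero]

/-- the pole beats the correction of lower order -/
theorem pole_wins {A B C : ℝ} (hA : 0 < A) (hB : 0 ≤ B) (hC : 0 ≤ C) (P : X) :
    ∀ᶠ y in 𝓝 P, y ≠ P →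
      0 ≤ A * ‖y - P‖⁻¹ - B - ‖y - P‖ * (C * ((‖y - P‖⁻¹) ^ (7 / 4 : ℝ) + 1)) := by
  have hlim : Tendsto (fun r : ℝ => A - B * r - C * (r ^ (1 / 4 : ℝ) + r ^ 2)) (𝓝 0)
      (𝓝 (A - B * 0 - C * ((0 : ℝ) ^ (1 / 4 : ℝ) + 0 ^ 2))) := by
    have h1 : ContinuousAt (fun r : ℝ => r ^ (1 / 4 : ℝ)) 0 :=
      Real.continuousAt_rpow_const _ _ (Or.inr (by norm_num))
    have h2 : Tendsto (fun r : ℝ => r ^ (1 / 4 : ℝ)) (𝓝 0) (𝓝 ((0 : ℝ) ^ (1 / 4 : ℝ))) := h1
    have h3 : Tendsto (fun r : ℝ => r ^ 2) (𝓝 0) (𝓝 ((0 : ℝ) ^ 2)) :=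
      (continuous_pow 2).tendsto 0
    have h4 : Tendsto (fun r : ℝ => B * r) (𝓝 0) (𝓝 (B * 0)) :=
      (continuous_const.mul continuous_id).tendsto 0
    exact ((tendsto_const_nhds.sub h4).sub ((h2.add h3).const_mul C))
  have e0 : A - B * 0 - C * ((0 : ℝ) ^ (1 / 4 : ℝ) + 0 ^ 2) = A := by
    rw [Real.zero_rpow (by norm_num)]
    ring
  rw [e0] at hlim
  have hn : Tendsto (fun y : X => ‖y - P‖) (𝓝 P) (𝓝 0) := by
    have h : ContinuousAt (fun y : X => ‖y - P‖) P := by fun_prop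
    have h1 : Tendsto (fun y : X => ‖y - P‖) (𝓝 P) (𝓝 ‖P - P‖) := h
    rwa [sub_self, norm_zero] at h1
  filter_upwards [hn.eventually (hlim.eventually (lt_mem_nhds hA))] with y hy hne
  obtain ⟨r, hr⟩ : ∃ r, r = ‖y - P‖ := ⟨_, rfl⟩
  have hr0 : 0 < r := by rw [hr]; exact norm_pos_iff.mpr (sub_ne_zero.mpr hne)
  rw [← hr] at hy ⊢
  have e1 : r * (r * (r⁻¹) ^ (7 / 4 : ℝ)) = r ^ (1 / 4 : ℝ) := by
    rw [Real.inv_rpow hr0.le, ← Real.rpow_neg hr0.le]
    have h1 : r * (r * r ^ (-(7 / 4 : ℝ))) = r ^ (1 : ℝ) * (r ^ (1 : ℝ) * r ^ (-(7 / 4 : ℝ))) := by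
      rw [Real.rpow_one]
    rw [h1, ← Real.rpow_add hr0, ← Real.rpow_add hr0]
    norm_num
  have e2 : A * r⁻¹ - B - r * (C * ((r⁻¹) ^ (7 / 4 : ℝ) + 1)) =
      r⁻¹ * (A - B * r - C * (r * (r * (r⁻¹) ^ (7 / 4 : ℝ)) + r ^ 2)) := by
    field_simp
  rw [e2, e1]
  exact mul_nonneg (inv_nonneg.mpr hr0.le) hy.le

/-- **reflection in a plane through the nucleus `R i`**: the weight of this nucleus is smaller on
the side of the other nucleus -/
theorem Dat.wt_mir (D : Dat φ₀ z R ρ H lo hi) (hz : ∀ i, 0 < z i) (hR : Function.Injective R)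
    {i j : ι} (hij : i ≠ j) (hall : ∀ k, k = i ∨ k = j)
    (hw : ∀ x, x ∉ Col.ax → 0 ≤ wt z R ρ (R i).fst (R j).fst x)
    {τ n : X} (hn : ‖n‖ = 1) (hτ : ⟪τ, e1⟫ = 0) (hτn : ⟪τ, n⟫ = 0)
    (hside : 0 ≤ hgt (R i) n (R j)) {x : X} (hx : 0 < ⟪x, τ⟫) (hx' : 0 ≤ hgt (R i) n x) :
    wt z R ρ (R i).fst (R j).fst x ≤ wt z R ρ (R i).fst (R j).fst (mir (R i) n x) := by
  rcases hx'.eq_or_lt with h0 | hx'
  · rw [mir_fix h0.symm]
  obtain ⟨P, hP⟩ : ∃ P, P = R i := ⟨_, rfl⟩
  obtain ⟨a, ha⟩ : ∃ a, a = (R i).fst := ⟨_, rfl⟩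
  obtain ⟨b, hb⟩ : ∃ b, b = (R j).fst := ⟨_, rfl⟩
  have hPax : P ∈ Col.ax := hP ▸ D.ax.on_axis i
  have hab : a ≠ b := by
    intro h
    apply hij
    apply hR
    rw [← fst_smul_of_ax (D.ax.on_axis i), ← fst_smul_of_ax (D.ax.on_axis j), ← ha, ← hb, h]
  have hgP : hgt P n P = 0 := by unfold hgt; rw [sub_self, inner_zero_left]
  have hmP : mir P n P = P := mir_fix hgP
  rw [← ha, ← hb] at hw ⊢
  rw [← hP] at hside hx' ⊢
  -- the functions
  obtain ⟨f, hf⟩ : ∃ f : X → ℝ, f = fun x => ⟪x, τ⟫ * wt z R ρ a b x := ⟨_, rfl⟩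
  obtain ⟨f', hf'⟩ : ∃ f' : X → X,
    f' = fun x => ⟪x, τ⟫ • wt' z R ρ H a b x + wt z R ρ a b x • τ := ⟨_, rfl⟩
  obtain ⟨g, hg⟩ : ∃ g : X → ℝ, g = fun x => 4 * Real.pi * gam (psi φ₀ z R ρ x) := ⟨_, rfl⟩
  have hg0 : ∀ x, 0 ≤ g x := fun x => by
    rw [hg]
    have := gam_nonneg' (psi φ₀ z R ρ x)
    have := Real.pi_pos
    positivity
  have c1f : C1O f f' := by rw [hf, hf']; exact D.c1_twt a b τ
  have wdf : WD f' fun x => g x * f x := by
    rw [hf, hf', hg]; exact D.wd_twt a b hτ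
  obtain ⟨U, hU⟩ : ∃ U : Set X, U = {x | 0 < ⟪x, τ⟫ ∧ 0 < hgt P n x} := ⟨_, rfl⟩
  obtain ⟨W, hW⟩ : ∃ W : Set X, W = {x | 0 < ⟪x, τ⟫} := ⟨_, rfl⟩
  have hct : Continuous fun x : X => ⟪x, τ⟫ := by fun_prop
  have hUo : IsOpen U := by
    rw [hU]
    exact (isOpen_lt continuous_const hct).inter (isOpen_lt continuous_const (hgt_continuous P n))
  have hWax : W ⊆ Col.axᶜ := fun x hx => by rw [hW] at hx; exact off_of_tr hτ hx
  have hUW : U ⊆ W := fun x hx => by rw [hU] at hx; rw [hW]; exact hx.1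
  have hmW : ∀ x ∈ W, mir P n x ∈ W := fun x hx => by
    rw [hW] at hx ⊢
    show 0 < ⟪mir P n x, τ⟫
    rw [inner_tr_mir hτn]
    exact hx
  have hf0 : ∀ x ∈ W, 0 ≤ f x := fun x hx => by
    have h1 := hw x (hWax hx)
    rw [hW] at hx
    have h2 : 0 < ⟪x, τ⟫ := hx
    rw [hf]
    exact mul_nonneg h2.le h1
  have hsd : ∀ k, 0 < z k → 0 ≤ hgt P n (R k) := fun k _ => by
    rcases hall k with rfl | rfl
    · rw [← hP, hgP]
    · exact hside
  have hgg : ∀ x ∈ U, g (mir P n x) ≤ g x := fun x hx => by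
    have hxW := hUW hx
    rw [hU] at hx
    have h1 : psi φ₀ z R ρ (mir P n x) ≤ psi φ₀ z R ρ x :=
      psi_mir_le_side hn D.hz D.sol hsd hx.2 (D.off (hWax hxW)) (D.off (hWax (hmW x hxW)))
    rw [hg]
    exact mul_le_mul_of_nonneg_left (Rad.gam_mono h1) (by positivity)
  -- the claim with a small multiple of the potential
  have key : ∀ ε : ℝ, 0 < ε → ∀ x ∈ U,
      0 ≤ f (mir P n x) + (-1) * f x + ε * (psi φ₀ z R ρ x + φ₀) := by
    intro ε hε
    have hwd : WDU U (fun x => mirL n (f' (mir P n x)) + (-1 : ℝ) • f' x + ε • psi' z R ρ x)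
        fun x => g (mir P n x) * f (mir P n x) + (-1) * (g x * f x) +
          ε * (4 * Real.pi * ρ x) := by
      have h1 := (wdf.toU hWax).mir hn (o := P)
      have h2 : U ⊆ TF.mir P n ⁻¹' W := fun x hx => hmW x (hUW hx)
      exact ((h1.mono h2).add ((wdf.toU (hUW.trans hWax)).const_smul (-1))).add
        ((D.wd_psi'.toU (hUW.trans hWax)).const_smul ε)
    have hφ0 : ∀ x ∈ U, 0 ≤ psi φ₀ z R ρ x + φ₀ := fun x hx => D.psi_ge (D.off (hWax (hUW hx)))
    refine weak_min hUo (fun x hx => ?_) hwd (fun x hx hneg => ?_) (fun y hy δ hδ => ?_)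
      fun δ hδ => ?_
    · -- gradient
      have h1 := grad_mir (o := P) hn (c1f.grad _ (hWax (hmW x (hUW hx))))
      have h2 := c1f.grad x (hWax (hUW hx))
      have h3 := D.c1_psi.grad x (hWax (hUW hx))
      rw [hasGradientAt_iff_hasFDerivAt] at h1 h2 h3 ⊢
      rw [map_add, map_add, map_smul, map_smul]
      exact (h1.add (h2.const_mul (-1))).add ((h3.add_const φ₀).const_mul ε)
    · -- the sign of the source
      have h1 := hgg x hx
      have h2 := hf0 _ (hmW x (hUW hx))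
      have h3 := D.rho_le_gam x
      have h4 : 4 * Real.pi * ρ x ≤ g x * (psi φ₀ z R ρ x + φ₀) := by
        rw [hg]
        have := mul_le_mul_of_nonneg_left h3 (show (0 : ℝ) ≤ 4 * Real.pi by positivity)
        simp only
        linarith
      have h5 := mul_le_mul_of_nonneg_left h4 hε.le
      have h6 := mul_le_mul_of_nonneg_right h1 h2
      have h7 := mul_nonneg (hg0 x) (le_of_lt (neg_pos.mpr hneg))
      linarith
    · -- the boundary
      have hyc : y ∈ closure U := hy.1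
      have hyn : y ∉ U := by
        intro h
        have := hy.2
        rw [hUo.interior_eq] at this
        exact this h
      have hy1 : 0 ≤ ⟪y, τ⟫ := by
        have h1 : closure U ⊆ {x : X | 0 ≤ ⟪x, τ⟫} :=
          closure_minimal (fun x hx => by rw [hU] at hx; exact hx.1.le)
            (isClosed_le continuous_const hct)
        exact h1 hyc
      have hy2 : 0 ≤ hgt P n y := by
        have h1 : closure U ⊆ {x : X | 0 ≤ hgt P n x} :=
          closure_minimal (fun x hx => by rw [hU] at hx; exact hx.2.le)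
            (isClosed_le continuous_const (hgt_continuous P n))
        exact h1 hyc
      rcases hy1.eq_or_lt with hy0 | hy0
      · by_cases hyP : y = P
        · -- the nucleus on the plane
          obtain ⟨d, C, hd, hC, hnear⟩ := D.wt_near hz hR i (b := b) (by rw [← ha]; exact hab)
          rw [← ha, ← hP] at hnear
          have hpw := pole_wins (A := ε * z i) (B := ε * |tcB ρ|) (C := 2 * (‖τ‖ * C))
            (mul_pos hε (hz i)) (by positivity) (by positivity) P
          rw [hyP]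
          filter_upwards [hpw, ball_mem_nhds P hd] with x hx1 hx2 hxU
          have hxW := hUW hxU
          have hxa := hWax hxW
          have hxP : x ≠ P := fun h => hxa (h ▸ hPax)
          have hma := hWax (hmW x hxW)
          have hmn : ‖mir P n x - P‖ = ‖x - P‖ := by
            have := norm_mir_mir hn (o := P) x P
            rwa [hmP] at this
          have hmb : mir P n x ∈ ball P d := by
            rw [mem_ball, dist_eq_norm, hmn, ← dist_eq_norm]
            exact hx2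
          have h1 := abs_le.mp (hnear x hx2 hxa)
          have h2 := abs_le.mp (hnear _ hmb hma)
          rw [hmn] at h2
          have h3 := hx1 hxP
          obtain ⟨E, hE⟩ : ∃ E, E = C * ((‖x - P‖⁻¹) ^ (7 / 4 : ℝ) + 1) := ⟨_, rfl⟩
          have hE0 : 0 ≤ E := by rw [hE]; positivity
          rw [← hE] at h1 h2
          have h4 : ⟪x, τ⟫ ≤ ‖x - P‖ * ‖τ‖ := by
            have h5 : ⟪x, τ⟫ = ⟪x - P, τ⟫ := by
              rw [inner_sub_left, tr_of_ax hτ hPax, sub_zero]
            rw [h5]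
            exact real_inner_le_norm _ _
          have hxt : 0 < ⟪x, τ⟫ := by rw [hU] at hxU; exact hxU.1
          have h5 : -(‖x - P‖ * (2 * (‖τ‖ * C) * ((‖x - P‖⁻¹) ^ (7 / 4 : ℝ) + 1))) ≤
              f (mir P n x) + (-1) * f x := by
            rw [hf]
            simp only
            rw [inner_tr_mir hτn]
            have h6 : ⟪x, τ⟫ * (-(2 * E)) ≤ ⟪x, τ⟫ * (wt z R ρ a b (mir P n x) - wt z R ρ a b x) :=
              mul_le_mul_of_nonneg_left (by linarith [h1.2, h2.1]) hxt.le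
            have h7 : ⟪x, τ⟫ * (2 * E) ≤ (‖x - P‖ * ‖τ‖) * (2 * E) :=
              mul_le_mul_of_nonneg_right h4 (by positivity)
            have h8 : ‖x - P‖ * (2 * (‖τ‖ * C) * ((‖x - P‖⁻¹) ^ (7 / 4 : ℝ) + 1)) =
                (‖x - P‖ * ‖τ‖) * (2 * E) := by rw [hE]; ring
            rw [h8]
            linarith
          have h6 : z i * ‖x - P‖⁻¹ - |tcB ρ| ≤ psi φ₀ z R ρ x + φ₀ := by
            show z i * ‖x - P‖⁻¹ - |tcB ρ| ≤ Vpt z R x - pot ρ x - φ₀ + φ₀
            have h7 : z i * ‖x - P‖⁻¹ ≤ Vpt z R x := by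
              rw [hP]
              exact Finset.single_le_sum (f := fun k => z k * ‖x - R k‖⁻¹)
                (fun k _ => mul_nonneg (D.hz k) (inv_nonneg.mpr (norm_nonneg _)))
                (Finset.mem_univ i)
            have h8 := D.hρ.pot_le x
            have h9 := le_abs_self (tcB ρ)
            linarith
          have h7 := mul_le_mul_of_nonneg_left h6 hε.le
          linarith
        · -- the rest of the axial plane
          have hyk : y = R j ∨ ∀ k, y ≠ R k := by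
            by_cases h : y = R j
            · exact Or.inl h
            · refine Or.inr fun k hk => ?_
              rcases hall k with rfl | rfl
              · exact hyP (by rw [hk, hP])
              · exact h hk
          obtain ⟨C, hC, hbd⟩ := D.wt_loc hz hR (a := a) hyk
          rw [← hb] at hbd
          have hlim : Tendsto (fun x : X => ⟪x, τ⟫ * C) (𝓝 y) (𝓝 (⟪y, τ⟫ * C)) :=
            (hct.mul continuous_const).tendsto y
          rw [← hy0, zero_mul] at hlim
          filter_upwards [hbd, hlim.eventually (gt_mem_nhds hδ)] with x hx1 hx2 hxU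
          have hxW := hUW hxU
          have h1 := hx1 (hWax hxW)
          have hxt : 0 < ⟪x, τ⟫ := by rw [hU] at hxU; exact hxU.1
          have h2 : f x ≤ ⟪x, τ⟫ * C := by
            rw [hf]
            exact mul_le_mul_of_nonneg_left ((le_abs_self _).trans h1) hxt.le
          have h3 := hf0 _ (hmW x hxW)
          have h4 := mul_nonneg hε.le (hφ0 x hxU)
          linarith
      · -- the plane of reflection
        have hy3 : hgt P n y = 0 := by
          by_contra h
          exact hyn (by rw [hU]; exact ⟨hy0, lt_of_le_of_ne hy2 (Ne.symm h)⟩)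
        have hyW : y ∈ W := by rw [hW]; exact hy0
        have hcf : ContinuousAt f y := (c1f.grad y (hWax hyW)).hasFDerivAt.continuousAt
        have hmy : mir P n y = y := mir_fix hy3
        have hcm : ContinuousAt (fun x => f (mir P n x)) y := by
          have h1 : ContinuousAt f (mir P n y) := by rw [hmy]; exact hcf
          exact ContinuousAt.comp (g := f) (f := mir P n) h1 (mir_continuous P n).continuousAt
        have hc2 : ContinuousAt (fun x => f (mir P n x) + (-1) * f x) y :=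
          hcm.add (continuousAt_const.mul hcf)
        have h0 : f (mir P n y) + (-1) * f y = 0 := by rw [hmy]; ring
        have h1 : -δ < f (mir P n y) + (-1) * f y := by rw [h0]; linarith
        filter_upwards [hc2.eventually (lt_mem_nhds h1)] with x hx1 hxU
        have h4 := mul_nonneg hε.le (hφ0 x hxU)
        linarith
    · -- infinity
      obtain ⟨C, N, hC, hN, hfar⟩ := D.wt_far a b
      refine ⟨max N (‖τ‖ * C / δ + 1), fun x hxU hxN => ?_⟩
      have hxW := hUW hxU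
      have hxN1 := (le_max_left N _).trans hxN
      have hxN2 := (le_max_right N _).trans hxN
      have hx1 : 1 ≤ ‖x‖ := hN.trans hxN1
      have hx0 : 0 < ‖x‖ := by linarith
      have hxt : 0 < ⟪x, τ⟫ := by rw [hU] at hxU; exact hxU.1
      have h1 := hfar x (hWax hxW) hxN1
      have h2 : f x ≤ (‖x‖ * ‖τ‖) * (C * (‖x‖ ^ 3)⁻¹) := by
        rw [hf]
        exact mul_le_mul (real_inner_le_norm _ _) ((le_abs_self _).trans h1)
          (hw x (hWax hxW)) (by positivity)
      have h3 : (‖x‖ * ‖τ‖) * (C * (‖x‖ ^ 3)⁻¹) = (‖τ‖ * C) * (‖x‖ ^ 2)⁻¹ := by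
        field_simp
      have h4 : (‖τ‖ * C) * (‖x‖ ^ 2)⁻¹ ≤ (‖τ‖ * C) * ‖x‖⁻¹ := by
        refine mul_le_mul_of_nonneg_left (inv_anti₀ hx0 ?_) (by positivity)
        linarith [mul_le_mul_of_nonneg_left hx1 hx0.le]
      have h5 : (‖τ‖ * C) * ‖x‖⁻¹ < δ := by
        rw [← div_eq_mul_inv, div_lt_iff₀ hx0]
        have h6 : ‖τ‖ * C / δ < ‖x‖ := by linarith
        rw [div_lt_iff₀ hδ] at h6
        linarith
      have h6 := hf0 _ (hmW x hxW)
      have h7 := mul_nonneg hε.le (hφ0 x hxU)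
      linarith
  -- conclusion
  have hxU : x ∈ U := by rw [hU]; exact ⟨hx, hx'⟩
  have hφx := D.psi_ge (D.off (hWax (hUW hxU)))
  have hle : f x ≤ f (mir P n x) := by
    by_contra hcon
    push Not at hcon
    obtain ⟨s, hs⟩ : ∃ s, s = psi φ₀ z R ρ x + φ₀ := ⟨_, rfl⟩
    rw [← hs] at hφx
    have hd : 0 < f x - f (mir P n x) := by linarith
    have h1 := key ((f x - f (mir P n x)) / (2 * (s + 1))) (by positivity) x hxU
    rw [← hs] at h1
    have h2 : (f x - f (mir P n x)) / (2 * (s + 1)) * s ≤ (f x - f (mir P n x)) / 2 := by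
      rw [div_mul_eq_mul_div, div_le_div_iff₀ (by positivity) (by norm_num)]
      linarith
    linarith
  rw [hf] at hle
  simp only at hle
  rw [inner_tr_mir hτn] at hle
  exact le_of_mul_le_mul_left hle hx

end refl

/-! ### rotation about the nucleus -/

section rot
variable {ι : Type*} [Fintype ι]
variable {φ₀ : ℝ} {z : ι → ℝ} {R : ι → X} {ρ : X → ℝ} {H : X → X →L[ℝ] X} {lo hi : ℝ}

theorem Dat.fst_ne (D : Dat φ₀ z R ρ H lo hi) (hR : Function.Injective R) {i j : ι}
    (hij : i ≠ j) : (R i).fst ≠ (R j).fst := by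
  intro h
  apply hij
  apply hR
  rw [← fst_smul_of_ax (D.ax.on_axis i), ← fst_smul_of_ax (D.ax.on_axis j), h]

/-- two nuclei: both weights are nonnegative -/
theorem Dat.wt_nonneg2 (D : Dat φ₀ z R ρ H lo hi) (hz : ∀ i, 0 < z i)
    (hR : Function.Injective R) {i j : ι} (hij : i ≠ j) (hall : ∀ k, k = i ∨ k = j) {x : X}
    (hx : x ∉ Col.ax) : 0 ≤ wt z R ρ (R i).fst (R j).fst x := by
  have : Nonempty ι := ⟨i⟩
  have hne := D.fst_ne hR hij
  have hlo : ∀ k, min (R i).fst (R j).fst ≤ (R k).fst := fun k => by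
    rcases hall k with rfl | rfl
    · exact min_le_left _ _
    · exact min_le_right _ _
  have hhi : ∀ k, (R k).fst ≤ max (R i).fst (R j).fst := fun k => by
    rcases hall k with rfl | rfl
    · exact le_max_left _ _
    · exact le_max_right _ _
  have D' : Dat φ₀ z R ρ H (min (R i).fst (R j).fst) (max (R i).fst (R j).fst) :=
    ⟨D.hz, D.hφ, D.hρ, D.heq, D.hs, axial hz D.ax.on_axis D.hφ D.hρ D.heq hlo hhi⟩
  rcases lt_or_gt_of_ne hne with h | h
  · exact D'.wt_nonneg h (max_le h.le le_rfl) hx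
  · exact D'.wt_nonneg' h (le_min h.le le_rfl) hx

/-- **the weight of a nucleus grows under rotation about it away from the other nucleus** -/
theorem Dat.rot_wt_nonneg (D : Dat φ₀ z R ρ H lo hi) (hz : ∀ i, 0 < z i)
    (hR : Function.Injective R) {i j : ι} (hij : i ≠ j) (hall : ∀ k, k = i ∨ k = j) {x : X}
    (hx : x ∉ Col.ax) :
    0 ≤ ((R j).fst - (R i).fst) * rot (R i).fst (wt' z R ρ H (R i).fst (R j).fst x) x := by
  obtain ⟨a, ha⟩ : ∃ a, a = (R i).fst := ⟨_, rfl⟩
  obtain ⟨b, hb⟩ : ∃ b, b = (R j).fst := ⟨_, rfl⟩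
  have hab := D.fst_ne hR hij
  rw [← ha, ← hb] at hab ⊢
  have hPi : R i = a • e1 := by rw [ha, fst_smul_of_ax (D.ax.on_axis i)]
  have hPj : R j = b • e1 := by rw [hb, fst_smul_of_ax (D.ax.on_axis j)]
  have hs := ht_pos hx
  obtain ⟨s, hsd⟩ : ∃ s, s = ht x := ⟨_, rfl⟩
  rw [← hsd] at hs
  obtain ⟨v, hv, hv1, hv2⟩ := exists_unit_orth e1 (es x)
  have hvv : ⟪v, v⟫ = 1 := by rw [real_inner_self_eq_norm_sq, hv, one_pow]
  have hv1' : ⟪v, e1⟫ = 0 := by rw [real_inner_comm]; exact hv1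
  have hv2' : ⟪v, es x⟫ = 0 := by rw [real_inner_comm]; exact hv2
  have hee := inner_es_self hx
  have h11 := inner_e1_self
  have h1e := inner_e1_es x
  have he1 := inner_es_e1 x
  have hxe : x = x.fst • e1 + s • es x := by
    rw [hsd, ← perp_es hx, perp_eq]
    abel
  obtain ⟨t, ht⟩ : ∃ t, t = x.fst := ⟨_, rfl⟩
  rw [← ht] at hxe
  have hxin : ∀ u : X, ⟪x, u⟫ = t * ⟪e1, u⟫ + s * ⟪es x, u⟫ := fun u => by
    conv_lhs => rw [hxe]
    rw [inner_add_left, real_inner_smul_left, real_inner_smul_left]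
  obtain ⟨c, hc⟩ : ∃ c, c = b - a := ⟨_, rfl⟩
  have hc0 : c ≠ 0 := by rw [hc]; exact sub_ne_zero.mpr hab.symm
  have hca : 0 < |c| := abs_pos.mpr hc0
  obtain ⟨T, hT⟩ : ∃ T : X, T = (t - a) • (es x + v) - s • e1 := ⟨_, rfl⟩
  have hTe : ⟪T, e1⟫ = -s := by
    rw [hT, inner_sub_left, real_inner_smul_left, real_inner_smul_left, inner_add_left, he1, hv1',
      h11]
    ring
  have hT0 : 0 < ‖T‖ := by
    rw [norm_pos_iff]
    intro h
    rw [h, inner_zero_left] at hTe
    linarith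
  obtain ⟨n, hn⟩ : ∃ n : X, n = (-(c * |c|⁻¹ * ‖T‖⁻¹)) • T := ⟨_, rfl⟩
  have hn1 : ‖n‖ = 1 := by
    rw [hn, norm_smul, norm_neg, norm_mul, norm_mul, norm_inv, norm_inv, Real.norm_eq_abs,
      Real.norm_eq_abs, Real.norm_eq_abs, abs_abs, abs_norm]
    field_simp
  have hτ1 : ⟪es x - v, e1⟫ = 0 := by rw [inner_sub_left, he1, hv1', sub_zero]
  have hτn : ⟪es x - v, n⟫ = 0 := by
    rw [hn, real_inner_smul_right, hT]
    simp only [inner_sub_left, inner_sub_right, inner_add_right, real_inner_smul_right, hee, hvv,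
      hv2, hv2', he1, hv1']
    ring
  have hxτ : 0 < ⟪x, es x - v⟫ := by
    have h1 : ⟪x, es x - v⟫ = s := by
      rw [hxin, inner_sub_right, inner_sub_right, hee, hv2, hv1, h1e]
      ring
    rw [h1]
    exact hs
  have hgx : hgt (R i) n x = 0 := by
    unfold hgt
    rw [hPi, hn, real_inner_smul_right, hT]
    have h1 : ⟪x - a • e1, (t - a) • (es x + v) - s • e1⟫ = 0 := by
      rw [inner_sub_left, hxin]
      simp only [inner_sub_right, inner_add_right,
        real_inner_smul_left, real_inner_smul_right, hee, hv2, hv1, h1e, he1, h11]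
      ring
    rw [h1, mul_zero]
  have hgj : 0 ≤ hgt (R i) n (R j) := by
    unfold hgt
    rw [hPi, hPj, ← sub_smul, ← hc, real_inner_smul_left, hn, real_inner_smul_right,
      real_inner_comm, hTe]
    have h1 : c * (-(c * |c|⁻¹ * ‖T‖⁻¹) * -s) = c ^ 2 * (|c|⁻¹ * ‖T‖⁻¹ * s) := by ring
    rw [h1]
    positivity
  -- the derivative in the direction of the normal
  have hgrad : HasGradientAt (fun y => -wt z R ρ a b y) (-wt' z R ρ H a b x) x := by
    have h1 := (D.c1_wt a b).grad x hx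
    rw [hasGradientAt_iff_hasFDerivAt] at h1 ⊢
    rw [map_neg]
    exact h1.neg
  have hcτ : ContinuousAt (fun y : X => ⟪y, es x - v⟫) x := by fun_prop
  have key := inner_grad_nonneg_of_mir hn1 hgx hgrad (by
    filter_upwards [hcτ.eventually (lt_mem_nhds hxτ)] with y hy hy2
    have h1 := D.wt_mir hz hR hij hall (fun x hx => D.wt_nonneg2 hz hR hij hall hx) hn1 hτ1 hτn
      hgj hy hy2.le
    rw [← ha, ← hb] at h1
    linarith)
  rw [inner_neg_left, hn, real_inner_smul_right] at key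
  have hwT : ⟪wt' z R ρ H a b x, T⟫ = rot a (wt' z R ρ H a b x) x := by
    have hwv : ⟪wt' z R ρ H a b x, v⟫ = 0 := by
      rw [D.wt'_eq a b hx, inner_add_left, real_inner_smul_left, real_inner_smul_left, hv1, hv2]
      ring
    rw [hT, inner_sub_right, real_inner_smul_right, real_inner_smul_right, inner_add_right, hwv]
    unfold rot
    rw [← ht, ← hsd]
    ring
  rw [hwT] at key
  rw [← hc]
  have h2 : 0 ≤ (|c|⁻¹ * ‖T‖⁻¹) * (c * rot a (wt' z R ρ H a b x) x) := by
    have e : (|c|⁻¹ * ‖T‖⁻¹) * (c * rot a (wt' z R ρ H a b x) x) =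
        -(-(c * |c|⁻¹ * ‖T‖⁻¹) * rot a (wt' z R ρ H a b x) x) := by ring
    rw [e]
    exact key
  exact nonneg_of_mul_nonneg_right h2 (by positivity)

/-- the same for the moment `qf` about the other nucleus -/
theorem Dat.rot_qf_le (D : Dat φ₀ z R ρ H lo hi) (hz : ∀ i, 0 < z i)
    (hR : Function.Injective R) {i j : ι} (hij : i ≠ j) (hall : ∀ k, k = i ∨ k = j) {x : X}
    (hx : x ∉ Col.ax) :
    ⟪qf' z R ρ H (R j).fst x, (x.fst - (R i).fst) • es x - ht x • e1⟫ ≤ 0 := by
  have h := D.rot_wt_nonneg hz hR hij hall hx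
  have hab := sub_ne_zero.mpr (D.fst_ne hR hij).symm
  have e : ((R j).fst - (R i).fst) * rot (R i).fst (wt' z R ρ H (R i).fst (R j).fst x) x =
      -⟪qf' z R ρ H (R j).fst x, (x.fst - (R i).fst) • es x - ht x • e1⟫ := by
    unfold rot
    rw [wt'_q, inner_sub_right, real_inner_smul_right, real_inner_smul_right, inner_neg_left,
      inner_neg_left, real_inner_smul_left, real_inner_smul_left]
    field_simp
    ring
  rw [e] at h
  linarith

/-- the left nucleus at `a`, the right one at `b`: the signs of both rotation derivatives -/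
theorem Dat.rot_signs (D : Dat φ₀ z R ρ H lo hi) (hz : ∀ i, 0 < z i)
    (hR : Function.Injective R) {i j : ι} (hij : i ≠ j) (hall : ∀ k, k = i ∨ k = j)
    (hlt : (R i).fst < (R j).fst) {x : X} (hx : x ∉ Col.ax) :
    0 ≤ rot (R i).fst (wt' z R ρ H (R i).fst (R j).fst x) x ∧
      rot (R j).fst (wt' z R ρ H (R j).fst (R i).fst x) x ≤ 0 := by
  have h := D.rot_wt_nonneg hz hR hij hall hx
  have h1 : 0 ≤ rot (R i).fst (wt' z R ρ H (R i).fst (R j).fst x) x :=
    nonneg_of_mul_nonneg_right h (by linarith)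
  have h2 := D.rot_wt (D.fst_ne hR hij) hx
  exact ⟨h1, by linarith⟩

/-- **reflection in any plane through the nucleus `R i`**, no condition on the position -/
theorem Dat.wt_refl (D : Dat φ₀ z R ρ H lo hi) (hz : ∀ i, 0 < z i)
    (hR : Function.Injective R) {i j : ι} (hij : i ≠ j) (hall : ∀ k, k = i ∨ k = j)
    {n : X} (hn : ‖n‖ = 1) (hside : 0 ≤ ⟪R j - R i, n⟫) {x : X} (hx : x ∉ Col.ax)
    (hmx : mir (R i) n x ∉ Col.ax) (hx' : 0 ≤ ⟪x - R i, n⟫) :
    wt z R ρ (R i).fst (R j).fst x ≤ wt z R ρ (R i).fst (R j).fst (mir (R i) n x) := by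
  obtain ⟨τ, hτ, hτ1, hτ2⟩ := exists_unit_orth e1 n
  have hττ : ⟪τ, τ⟫ = 1 := by rw [real_inner_self_eq_norm_sq, hτ, one_pow]
  have hw := fun (x : X) (hx : x ∉ Col.ax) => D.wt_nonneg2 hz hR hij hall hx
  have h1 : ⟪τ, e1⟫ = 0 := by rw [real_inner_comm]; exact hτ1
  have h2 : ⟪τ, n⟫ = 0 := by rw [real_inner_comm]; exact hτ2
  rcases lt_trichotomy ⟪x, τ⟫ 0 with h | h | h
  · exact D.wt_mir hz hR hij hall hw hn (τ := -τ) (by rw [inner_neg_left, h1, neg_zero])
      (by rw [inner_neg_left, h2, neg_zero]) hside (by rw [inner_neg_right]; linarith) hx'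
  · -- the meridian plane, by continuity
    have hc : ∀ y : X, y ∉ Col.ax → Tendsto (fun t : ℝ => wt z R ρ (R i).fst (R j).fst (y + t • τ))
        (𝓝[>] 0) (𝓝 (wt z R ρ (R i).fst (R j).fst y)) := by
      intro y hy
      have k1 : ContinuousAt (wt z R ρ (R i).fst (R j).fst) (y + (0 : ℝ) • τ) := by
        rw [zero_smul, add_zero]
        exact ((D.c1_wt _ _).grad y hy).hasFDerivAt.continuousAt
      have k2 : ContinuousAt (fun t : ℝ => y + t • τ) 0 := by fun_prop
      have k3 : ContinuousAt (fun t : ℝ => wt z R ρ (R i).fst (R j).fst (y + t • τ)) 0 :=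
        ContinuousAt.comp (g := wt z R ρ (R i).fst (R j).fst) (f := fun t : ℝ => y + t • τ) k1 k2
      have k4 : Tendsto (fun t : ℝ => wt z R ρ (R i).fst (R j).fst (y + t • τ)) (𝓝 0)
          (𝓝 (wt z R ρ (R i).fst (R j).fst (y + (0 : ℝ) • τ))) := k3
      rw [zero_smul, add_zero] at k4
      exact k4.mono_left nhdsWithin_le_nhds
    refine le_of_tendsto_of_tendsto (hc x hx) (hc _ hmx) ?_
    filter_upwards [self_mem_nhdsWithin] with t ht
    have ht0 : (0 : ℝ) < t := ht
    have e1' : hgt (R i) n (x + t • τ) = hgt (R i) n x := by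
      unfold hgt
      rw [add_sub_right_comm, inner_add_left, real_inner_smul_left, h2, mul_zero, add_zero]
    have e2 : mir (R i) n x + t • τ = mir (R i) n (x + t • τ) := by
      unfold mir
      rw [e1']
      abel
    rw [e2]
    refine D.wt_mir hz hR hij hall hw hn h1 h2 hside ?_ ?_
    · rw [inner_add_left, h, real_inner_smul_left, hττ]
      linarith
    · rw [e1']
      exact hx'
  · exact D.wt_mir hz hR hij hall hw hn h1 h2 hside h hx'

theorem fin2_all {i j : Fin 2} (hij : i ≠ j) (k : Fin 2) : k = i ∨ k = j := by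
  revert i j k
  decide

end rot

end Pool.Agent.TF.Col
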