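import Pool.Agent.Lib.MP_9cf0c9_mp.FarLip23

/-! Bootstrap for the rotation field at a nucleus: Lipschitz bound of the potential of a density
with an integrable singularity, and the regularity of the solution of `w = S - pot (χ γ w)`. -/

set_option linter.unusedSectionVars false
set_option linter.unusedVariables false
set_option linter.style.haveILetI false

namespace Pool.Agent.TF
open MeasureTheory Set Metric Filter Topology
open scoped ENNReal NNReal RealInnerProductSpace Gradient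

namespace Rot23

variable {V : Type*} [NormedAddCommGroup V] [InnerProductSpace ℝ V] [FiniteDimensional ℝ V]
  [MeasurableSpace V] [BorelSpace V] [hd : Fact (Module.finrank ℝ V = 3)]

theorem young34 {a b : ℝ} (ha : 0 ≤ a) (hb : 0 ≤ b) :
    a ^ (3 / 4 : ℝ) * b ^ 2 ≤ a ^ (11 / 4 : ℝ) + b ^ (11 / 4 : ℝ) := by
  have e : ∀ t : ℝ, 0 ≤ t → t ^ (3 / 4 : ℝ) * t ^ 2 = t ^ (11 / 4 : ℝ) := by
    intro t ht
    rw [← Real.rpow_natCast, ← Real.rpow_add_of_nonneg ht (by norm_num) (by norm_num)]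
    norm_num
  have pa : 0 ≤ a ^ (11 / 4 : ℝ) := Real.rpow_nonneg ha _
  have pb : 0 ≤ b ^ (11 / 4 : ℝ) := Real.rpow_nonneg hb _
  rcases le_total a b with h | h
  · have h1 : a ^ (3 / 4 : ℝ) ≤ b ^ (3 / 4 : ℝ) := Real.rpow_le_rpow ha h (by norm_num)
    have h2 := mul_le_mul_of_nonneg_right h1 (sq_nonneg b)
    rw [e b hb] at h2
    linarith
  · have h1 : b ^ 2 ≤ a ^ 2 := pow_le_pow_left₀ hb h 2
    have h2 := mul_le_mul_of_nonneg_left h1 (Real.rpow_nonneg ha (3 / 4 : ℝ))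
    rw [e a ha] at h2
    linarith

/-- the dominating function -/
noncomputable def D34 (K : ℝ) (c : V) (d : ℝ) (x y : V) : ℝ :=
  K * (w114 (y - c) + w114 (x - y) + 2 * (ball c d).indicator (fun _ => (1 : ℝ)) y)

theorem ind_one_integrable (c : V) (d : ℝ) : Integrable ((ball c d).indicator fun _ => (1 : ℝ)) :=
  (integrable_indicator_iff measurableSet_ball).mpr (integrableOn_const measure_ball_lt_top.ne)

theorem D34_integrable (K : ℝ) (c : V) (d : ℝ) (x : V) : Integrable (fun y => D34 K c d x y) :=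
  (((w114_integrable.comp_sub_right c).add (w114_integrable.comp_sub_left x)).add
    ((ind_one_integrable c d).const_mul 2)).const_mul K

theorem D34_integral (K : ℝ) (c : V) (d : ℝ) (x : V) :
    ∫ y, D34 K c d x y = K * ((∫ v, w114 (v : V)) + (∫ v, w114 (v : V)) +
      2 * ∫ y, (ball c d).indicator (fun _ => (1 : ℝ)) y) := by
  unfold D34
  have i1 : Integrable (fun y => w114 (y - c) + w114 (x - y)) :=
    (w114_integrable.comp_sub_right c).add (w114_integrable.comp_sub_left x)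
  rw [integral_const_mul, integral_add i1 ((ind_one_integrable c d).const_mul 2),
    integral_add (w114_integrable.comp_sub_right c) (w114_integrable.comp_sub_left x),
    integral_sub_right_eq_self (fun v : V => w114 v) c,
    integral_sub_left_eq_self (fun v : V => w114 v) volume x, integral_const_mul]

section sing
variable {f : V → ℝ} {c : V} {d K : ℝ}

theorem sing_le (hK : 0 ≤ K) (hf : ∀ y, |f y| ≤ K * (‖y - c‖⁻¹) ^ (3 / 4 : ℝ))
    (h0 : ∀ y, y ∉ ball c d → f y = 0) (x y : V) :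
    (‖x - y‖ ^ 2)⁻¹ * |f y| ≤ D34 K c d x y := by
  have w1 := w114_nonneg (y - c)
  have w2 := w114_nonneg (x - y)
  unfold D34
  by_cases hy : y ∈ ball c d
  · rw [indicator_of_mem hy, mul_one]
    have h1 := young34 (a := ‖y - c‖⁻¹) (b := ‖x - y‖⁻¹) (by positivity) (by positivity)
    have h2 := rpow114_le (y - c)
    have h3 := rpow114_le (x - y)
    calc (‖x - y‖ ^ 2)⁻¹ * |f y| ≤ (‖x - y‖ ^ 2)⁻¹ * (K * (‖y - c‖⁻¹) ^ (3 / 4 : ℝ)) :=
          mul_le_mul_of_nonneg_left (hf y) (by positivity)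
      _ = K * ((‖y - c‖⁻¹) ^ (3 / 4 : ℝ) * (‖x - y‖⁻¹) ^ 2) := by rw [inv_pow]; ring
      _ ≤ _ := mul_le_mul_of_nonneg_left (by linarith) hK
  · rw [h0 y hy, abs_zero, mul_zero, indicator_of_notMem hy]
    positivity

theorem sing_le' (hK : 0 ≤ K) (hf : ∀ y, |f y| ≤ K * (‖y - c‖⁻¹) ^ (3 / 4 : ℝ))
    (h0 : ∀ y, y ∉ ball c d → f y = 0) (y : V) :
    |f y| ≤ K * (w114 (y - c) + 2 * (ball c d).indicator (fun _ => (1 : ℝ)) y) := by
  have w1 := w114_nonneg (y - c)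
  by_cases hy : y ∈ ball c d
  · rw [indicator_of_mem hy, mul_one]
    refine (hf y).trans (mul_le_mul_of_nonneg_left ?_ hK)
    have h2 := rpow114_le (y - c)
    rcases le_total (‖y - c‖⁻¹) 1 with h | h
    · have := Real.rpow_le_one (by positivity) h (by norm_num : (0 : ℝ) ≤ 3 / 4)
      linarith
    · have := Real.rpow_le_rpow_of_exponent_le h (by norm_num : (3 / 4 : ℝ) ≤ 11 / 4)
      linarith
  · rw [h0 y hy, abs_zero, indicator_of_notMem hy]
    positivity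

theorem sing_integrable (hm : Measurable f) (hK : 0 ≤ K)
    (hf : ∀ y, |f y| ≤ K * (‖y - c‖⁻¹) ^ (3 / 4 : ℝ))
    (h0 : ∀ y, y ∉ ball c d → f y = 0) : Integrable f := by
  refine ((((w114_integrable.comp_sub_right c).add ((ind_one_integrable c d).const_mul 2)).const_mul
    K)).mono' hm.aestronglyMeasurable (Eventually.of_forall fun y => ?_)
  rw [Real.norm_eq_abs]
  exact sing_le' hK hf h0 y

theorem sing_int2 (hm : Measurable f) (hK : 0 ≤ K)
    (hf : ∀ y, |f y| ≤ K * (‖y - c‖⁻¹) ^ (3 / 4 : ℝ))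
    (h0 : ∀ y, y ∉ ball c d → f y = 0) (x : V) :
    Integrable (fun y => (‖x - y‖ ^ 2)⁻¹ * |f y|) := by
  have hmm : Measurable (fun y => (‖x - y‖ ^ 2)⁻¹ * |f y|) := by
    have : Measurable (fun y : V => (‖x - y‖ ^ 2)⁻¹) := by fun_prop
    exact this.mul hm.abs
  refine (D34_integrable K c d x).mono' hmm.aestronglyMeasurable (Eventually.of_forall fun y => ?_)
  rw [Real.norm_of_nonneg (by positivity)]
  exact sing_le hK hf h0 x y

theorem sing_pot_int (hm : Measurable f) (hK : 0 ≤ K)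
    (hf : ∀ y, |f y| ≤ K * (‖y - c‖⁻¹) ^ (3 / 4 : ℝ))
    (h0 : ∀ y, y ∉ ball c d → f y = 0) (x : V) :
    Integrable (fun y => ‖x - y‖⁻¹ * f y) := by
  have hmm : Measurable (fun y => ‖x - y‖⁻¹ * f y) := by
    have : Measurable (fun y : V => ‖x - y‖⁻¹) := by fun_prop
    exact this.mul hm
  refine ((sing_integrable hm hK hf h0).abs.add (sing_int2 hm hK hf h0 x)).mono'
    hmm.aestronglyMeasurable (Eventually.of_forall fun y => ?_)
  rw [norm_mul, Real.norm_of_nonneg (by positivity : (0 : ℝ) ≤ ‖x - y‖⁻¹), Real.norm_eq_abs]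
  simp only [Pi.add_apply]
  have h1 : ‖x - y‖⁻¹ ≤ 1 + (‖x - y‖ ^ 2)⁻¹ := by
    rw [← inv_pow]
    nlinarith [sq_nonneg (‖x - y‖⁻¹ - 1), sq_nonneg (‖x - y‖⁻¹)]
  have h2 := mul_le_mul_of_nonneg_right h1 (abs_nonneg (f y))
  linarith

/-- the potential of a density with a mild singularity is Lipschitz -/
theorem sing_lip (hm : Measurable f) (hK : 0 ≤ K)
    (hf : ∀ y, |f y| ≤ K * (‖y - c‖⁻¹) ^ (3 / 4 : ℝ))
    (h0 : ∀ y, y ∉ ball c d → f y = 0) :
    ∃ L : ℝ, 0 ≤ L ∧ ∀ x x', |pot f x - pot f x'| ≤ L * ‖x - x'‖ := by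
  haveI := nontriv (V := V)
  set L : ℝ := K * ((∫ v, w114 (v : V)) + (∫ v, w114 (v : V)) +
      2 * ∫ y, (ball c d).indicator (fun _ => (1 : ℝ)) y) with hL
  have hL0 : 0 ≤ L := by
    have h1 : 0 ≤ ∫ v, w114 (v : V) := integral_nonneg fun v => w114_nonneg v
    have h2 : 0 ≤ ∫ y, (ball c d).indicator (fun _ => (1 : ℝ)) y :=
      integral_nonneg fun y => indicator_nonneg (fun _ _ => zero_le_one) _
    positivity
  have hb : ∀ x, ∫ y, (‖x - y‖ ^ 2)⁻¹ * |f y| ≤ L := by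
    intro x
    rw [hL, ← D34_integral K c d x]
    exact integral_mono (sing_int2 hm hK hf h0 x) (D34_integrable K c d x)
      fun y => sing_le hK hf h0 x y
  refine ⟨L, hL0, fun x x' => ?_⟩
  have hi := sing_int2 hm hK hf h0 x
  have hi' := sing_int2 hm hK hf h0 x'
  unfold pot
  rw [← integral_sub (sing_pot_int hm hK hf h0 x) (sing_pot_int hm hK hf h0 x'), ← Real.norm_eq_abs]
  have hae : ∀ᵐ y : V, y ≠ x ∧ y ≠ x' := by
    have h1 : ∀ᵐ y : V, y ≠ x := by rw [ae_iff]; simp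
    have h2 : ∀ᵐ y : V, y ≠ x' := by rw [ae_iff]; simp
    exact h1.and h2
  have h1 : ‖∫ y, (‖x - y‖⁻¹ * f y - ‖x' - y‖⁻¹ * f y)‖ ≤
      ∫ y, (‖x - x'‖ / 2) * ((‖x - y‖ ^ 2)⁻¹ * |f y| + (‖x' - y‖ ^ 2)⁻¹ * |f y|) := by
    refine (norm_integral_le_integral_norm _).trans ?_
    refine integral_mono_of_nonneg (Eventually.of_forall fun y => norm_nonneg _)
      ((hi.add hi').const_mul _) ?_
    filter_upwards [hae] with y hy
    have hn : 0 < ‖x - y‖ := norm_pos_iff.mpr (sub_ne_zero.mpr hy.1.symm)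
    have hn' : 0 < ‖x' - y‖ := norm_pos_iff.mpr (sub_ne_zero.mpr hy.2.symm)
    rw [← sub_mul, norm_mul, Real.norm_eq_abs, Real.norm_eq_abs]
    have h2 : |‖x' - y‖ - ‖x - y‖| ≤ ‖x - x'‖ := by
      have := abs_norm_sub_norm_le (x' - y) (x - y)
      have e : x' - y - (x - y) = -(x - x') := by abel
      rwa [e, norm_neg] at this
    have h3 : |‖x - y‖⁻¹ - ‖x' - y‖⁻¹| ≤ ‖x - x'‖ * (‖x - y‖⁻¹ * ‖x' - y‖⁻¹) := by
      have e : ‖x - y‖⁻¹ - ‖x' - y‖⁻¹ = (‖x' - y‖ - ‖x - y‖) * (‖x - y‖⁻¹ * ‖x' - y‖⁻¹) := by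
        field_simp
      rw [e, abs_mul, abs_of_nonneg (by positivity : 0 ≤ ‖x - y‖⁻¹ * ‖x' - y‖⁻¹)]
      exact mul_le_mul_of_nonneg_right h2 (by positivity)
    have h4 : ‖x - y‖⁻¹ * ‖x' - y‖⁻¹ ≤ ((‖x - y‖ ^ 2)⁻¹ + (‖x' - y‖ ^ 2)⁻¹) / 2 := by
      rw [← inv_pow, ← inv_pow]
      nlinarith [sq_nonneg (‖x - y‖⁻¹ - ‖x' - y‖⁻¹)]
    have h5 : |‖x - y‖⁻¹ - ‖x' - y‖⁻¹| ≤ ‖x - x'‖ * (((‖x - y‖ ^ 2)⁻¹ + (‖x' - y‖ ^ 2)⁻¹) / 2) :=
      h3.trans (mul_le_mul_of_nonneg_left h4 (norm_nonneg _))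
    have h6 := mul_le_mul_of_nonneg_right h5 (abs_nonneg (f y))
    refine h6.trans (le_of_eq ?_)
    ring
  rw [integral_const_mul, integral_add hi hi'] at h1
  have h2 := hb x
  have h3 := hb x'
  refine h1.trans ?_
  have h4 : 0 ≤ ‖x - x'‖ / 2 := by positivity
  calc ‖x - x'‖ / 2 * ((∫ y, (‖x - y‖ ^ 2)⁻¹ * |f y|) + ∫ y, (‖x' - y‖ ^ 2)⁻¹ * |f y|)
      ≤ ‖x - x'‖ / 2 * (L + L) := mul_le_mul_of_nonneg_left (add_le_add h2 h3) h4
    _ = L * ‖x - x'‖ := by ring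

end sing

/-- **the bootstrap** -/
theorem boot (hHol : ∀ f : V → ℝ, BC f → ∃ C, ∀ x y, ‖gradV f x - gradV f y‖ ≤
      C * ‖x - y‖ ^ (1 / 2 : ℝ)) {c : V} {d δ : ℝ} (hδ : 0 < δ) (hδd : δ ≤ d) (hd1 : d ≤ 1)
    {w S f : V → ℝ} {S' : V → V} {K : ℝ} (hK : 0 ≤ K) (hm : Measurable f)
    (hid : ∀ x ∈ ball c δ, x ≠ c → w x = S x - pot f x)
    (hf0 : ∀ y, y ∉ ball c d → f y = 0)
    (hfw : ∀ y ∈ ball c d, |f y| ≤ K * (‖y - c‖⁻¹) ^ (1 / 2 : ℝ) * |w y|)
    (hw : ∀ y ∈ ball c d, |w y| ≤ K * ‖y - c‖ ^ (1 / 4 : ℝ))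
    (hS : ∀ x ∈ ball c δ, HasGradientAt S (S' x) x)
    (hS1 : ∀ x ∈ ball c δ, ‖S' x‖ ≤ K)
    (hSL : ∀ x ∈ ball c δ, ∀ y ∈ ball c δ, ‖S' x - S' y‖ ≤ K * ‖x - y‖) :
    ∃ C : ℝ, ∃ w' : V → V, (∀ x ∈ ball c δ, x ≠ c → HasGradientAt w (w' x) x) ∧
      ∀ x ∈ ball c δ, ∀ y ∈ ball c δ, ‖w' x - w' y‖ ≤ C * ‖x - y‖ ^ (1 / 2 : ℝ) := by
  haveI := nontriv (V := V)
  -- first bound of `f`
  have hwK : ∀ y ∈ ball c d, |w y| ≤ K := by
    intro y hy
    refine (hw y hy).trans ?_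
    rw [mem_ball, dist_eq_norm] at hy
    have h1 : ‖y - c‖ ^ (1 / 4 : ℝ) ≤ 1 := Real.rpow_le_one (norm_nonneg _) (by linarith) (by norm_num)
    calc K * ‖y - c‖ ^ (1 / 4 : ℝ) ≤ K * 1 := mul_le_mul_of_nonneg_left h1 hK
      _ = K := mul_one K
  have hinv : ∀ y ∈ ball c d, y ≠ c → 1 ≤ ‖y - c‖⁻¹ := by
    intro y hy hyc
    have hn : 0 < ‖y - c‖ := norm_pos_iff.mpr (sub_ne_zero.mpr hyc)
    rw [mem_ball, dist_eq_norm] at hy
    exact (one_le_inv₀ hn).mpr (by linarith)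
  have hwc : w c = 0 := by
    have h1 := hw c (mem_ball_self (by linarith))
    rw [sub_self, norm_zero, Real.zero_rpow (by norm_num), mul_zero] at h1
    exact abs_eq_zero.mp (le_antisymm h1 (abs_nonneg _))
  have hfc : f c = 0 := by
    have h1 := hfw c (mem_ball_self (by linarith))
    rw [hwc, abs_zero, mul_zero] at h1
    exact abs_eq_zero.mp (le_antisymm h1 (abs_nonneg _))
  have hf1 : ∀ y, |f y| ≤ K * K * (‖y - c‖⁻¹) ^ (3 / 4 : ℝ) := by
    intro y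
    by_cases hy : y ∈ ball c d
    · by_cases hyc : y = c
      · rw [hyc, hfc, abs_zero]; positivity
      have h1 := hinv y hy hyc
      have h2 : (‖y - c‖⁻¹) ^ (1 / 2 : ℝ) ≤ (‖y - c‖⁻¹) ^ (3 / 4 : ℝ) :=
        Real.rpow_le_rpow_of_exponent_le h1 (by norm_num)
      calc |f y| ≤ K * (‖y - c‖⁻¹) ^ (1 / 2 : ℝ) * |w y| := hfw y hy
        _ ≤ K * (‖y - c‖⁻¹) ^ (3 / 4 : ℝ) * K :=
            mul_le_mul (mul_le_mul_of_nonneg_left h2 hK) (hwK y hy) (abs_nonneg _) (by positivity)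
        _ = _ := by ring
    · rw [hf0 y hy, abs_zero]; positivity
  obtain ⟨L, hL0, hL⟩ := sing_lip hm (mul_nonneg hK hK) hf1 hf0
  -- `S` is Lipschitz
  have hSlip : ∀ x ∈ ball c δ, ∀ y ∈ ball c δ, |S x - S y| ≤ K * ‖x - y‖ := by
    intro x hx y hy
    have h1 := (convex_ball c δ).norm_image_sub_le_of_norm_hasFDerivWithin_le (𝕜 := ℝ)
      (f := S) (f' := fun x => (InnerProductSpace.toDual ℝ V) (S' x)) (C := K)
      (fun x hx => (hS x hx).hasFDerivAt.hasFDerivWithinAt)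
      (fun x hx => by rw [LinearIsometryEquiv.norm_map]; exact hS1 x hx) hy hx
    rwa [Real.norm_eq_abs] at h1
  -- `w` is Lipschitz, hence `|w| ≤ (K + L) r`
  have hwlip : ∀ x ∈ ball c δ, x ≠ c → |w x| ≤ (K + L) * ‖x - c‖ := by
    intro x hx hxc
    have hT : Tendsto (fun y : V => (K + L) * ‖x - y‖ + K * ‖y - c‖ ^ (1 / 4 : ℝ)) (𝓝[≠] c)
        (𝓝 ((K + L) * ‖x - c‖ + K * ‖c - c‖ ^ (1 / 4 : ℝ))) := by
      have h1 : ContinuousAt (fun y : V => (K + L) * ‖x - y‖ + K * ‖y - c‖ ^ (1 / 4 : ℝ)) c := by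
        have h2 : Continuous fun y : V => ‖y - c‖ ^ (1 / 4 : ℝ) :=
          (by fun_prop : Continuous fun y : V => ‖y - c‖).rpow_const fun _ => Or.inr (by norm_num)
        exact (by fun_prop : Continuous fun y : V =>
          (K + L) * ‖x - y‖ + K * ‖y - c‖ ^ (1 / 4 : ℝ)).continuousAt
      exact h1.tendsto.mono_left nhdsWithin_le_nhds
    rw [sub_self, norm_zero, Real.zero_rpow (by norm_num), mul_zero, add_zero] at hT
    refine ge_of_tendsto hT ?_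
    have h1 : ∀ᶠ y in 𝓝[≠] c, y ∈ ball c δ ∧ y ≠ c := by
      filter_upwards [nhdsWithin_le_nhds (ball_mem_nhds c hδ), self_mem_nhdsWithin] with y hy hy'
      exact ⟨hy, hy'⟩
    filter_upwards [h1] with y hy
    have h2 : w x - w y = (S x - S y) - (pot f x - pot f y) := by
      rw [hid x hx hxc, hid y hy.1 hy.2]; ring
    have h3 := hSlip x hx y hy.1
    have h4 := hL x y
    have h5 := hw y (ball_subset_ball hδd hy.1)
    have h6 : |w x| ≤ |w x - w y| + |w y| := by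
      have e : w x = (w x - w y) + w y := by ring
      calc |w x| = |(w x - w y) + w y| := by rw [← e]
        _ ≤ _ := abs_add_le _ _
    have h7 : |w x - w y| ≤ |S x - S y| + |pot f x - pot f y| := by
      rw [h2]; exact abs_sub _ _
    linarith
  -- `f` is bounded
  have hfb : ∀ y, |f y| ≤ K * (K + L) + K * ((δ⁻¹) ^ (1 / 2 : ℝ)) * K := by
    intro y
    by_cases hy : y ∈ ball c d
    · by_cases hyc : y = c
      · rw [hyc, hfc, abs_zero]; positivity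
      have hn : 0 < ‖y - c‖ := norm_pos_iff.mpr (sub_ne_zero.mpr hyc)
      by_cases hyδ : y ∈ ball c δ
      · have h1 := hwlip y hyδ hyc
        have h2 : (‖y - c‖⁻¹) ^ (1 / 2 : ℝ) * ‖y - c‖ ≤ 1 := by
          have h3 := hinv y hy hyc
          have h4 : (‖y - c‖⁻¹) ^ (1 / 2 : ℝ) ≤ (‖y - c‖⁻¹) ^ (1 : ℝ) :=
            Real.rpow_le_rpow_of_exponent_le h3 (by norm_num)
          rw [Real.rpow_one] at h4
          calc (‖y - c‖⁻¹) ^ (1 / 2 : ℝ) * ‖y - c‖ ≤ ‖y - c‖⁻¹ * ‖y - c‖ :=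
                mul_le_mul_of_nonneg_right h4 hn.le
            _ = 1 := inv_mul_cancel₀ hn.ne'
        have h5 : |f y| ≤ K * (K + L) := by
          calc |f y| ≤ K * (‖y - c‖⁻¹) ^ (1 / 2 : ℝ) * |w y| := hfw y hy
            _ ≤ K * (‖y - c‖⁻¹) ^ (1 / 2 : ℝ) * ((K + L) * ‖y - c‖) :=
                mul_le_mul_of_nonneg_left h1 (by positivity)
            _ = K * (K + L) * ((‖y - c‖⁻¹) ^ (1 / 2 : ℝ) * ‖y - c‖) := by ring
            _ ≤ K * (K + L) * 1 := mul_le_mul_of_nonneg_left h2 (by positivity)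
            _ = _ := mul_one _
        have h6 : 0 ≤ K * ((δ⁻¹) ^ (1 / 2 : ℝ)) * K := by positivity
        linarith
      · have h1 : (‖y - c‖⁻¹) ^ (1 / 2 : ℝ) ≤ (δ⁻¹) ^ (1 / 2 : ℝ) := by
          refine Real.rpow_le_rpow (by positivity) (inv_anti₀ hδ ?_) (by norm_num)
          rwa [mem_ball, dist_eq_norm, not_lt] at hyδ
        have h5 : |f y| ≤ K * ((δ⁻¹) ^ (1 / 2 : ℝ)) * K := by
          calc |f y| ≤ K * (‖y - c‖⁻¹) ^ (1 / 2 : ℝ) * |w y| := hfw y hy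
            _ ≤ K * ((δ⁻¹) ^ (1 / 2 : ℝ)) * K :=
                mul_le_mul (mul_le_mul_of_nonneg_left h1 hK) (hwK y hy) (abs_nonneg _)
                  (by positivity)
        have h6 : 0 ≤ K * (K + L) := by positivity
        linarith
    · rw [hf0 y hy, abs_zero]; positivity
  have hbc : BC f := by
    refine ⟨hm, ⟨_, hfb⟩, ⟨‖c‖ + d, fun x hx => hf0 x fun h => ?_⟩⟩
    rw [mem_ball, dist_eq_norm] at h
    have := norm_sub_norm_le x c
    linarith
  obtain ⟨C, hC⟩ := hHol f hbc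
  refine ⟨2 * K + |C|, fun x => S' x - gradV f x, ?_, ?_⟩
  · intro x hx hxc
    have h1 : HasGradientAt (fun x => S x - pot f x) (S' x - gradV f x) x := by
      rw [hasGradientAt_iff_hasFDerivAt, map_sub]
      exact (hS x hx).hasFDerivAt.sub (hasGradientAt_pot hbc x).hasFDerivAt
    refine h1.congr_of_eventuallyEq ?_
    filter_upwards [isOpen_ball.mem_nhds hx, isOpen_ne.mem_nhds hxc] with y hy hy'
    exact hid y hy hy'
  · intro x hx y hy
    have e : S' x - gradV f x - (S' y - gradV f y) = (S' x - S' y) - (gradV f x - gradV f y) := by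
      abel
    have h1 := hSL x hx y hy
    have h2 := hC x y
    have h3 : ‖x - y‖ ≤ 2 * ‖x - y‖ ^ (1 / 2 : ℝ) := by
      have h4 : ‖x - y‖ ≤ 2 := by
        rw [mem_ball, dist_eq_norm] at hx hy
        have e' : x - y = (x - c) - (y - c) := by abel
        have := norm_sub_le (x - c) (y - c)
        rw [← e'] at this
        linarith
      have h5 : ‖x - y‖ = ‖x - y‖ ^ (1 / 2 : ℝ) * ‖x - y‖ ^ (1 / 2 : ℝ) := by
        rw [← Real.rpow_add_of_nonneg (norm_nonneg _) (by norm_num) (by norm_num)]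
        norm_num
      have h6 : ‖x - y‖ ^ (1 / 2 : ℝ) ≤ 2 := by
        calc ‖x - y‖ ^ (1 / 2 : ℝ) ≤ 2 ^ (1 / 2 : ℝ) :=
              Real.rpow_le_rpow (norm_nonneg _) h4 (by norm_num)
          _ ≤ 2 ^ (1 : ℝ) := Real.rpow_le_rpow_of_exponent_le (by norm_num) (by norm_num)
          _ = 2 := Real.rpow_one _
      calc ‖x - y‖ = ‖x - y‖ ^ (1 / 2 : ℝ) * ‖x - y‖ ^ (1 / 2 : ℝ) := h5
        _ ≤ 2 * ‖x - y‖ ^ (1 / 2 : ℝ) := mul_le_mul_of_nonneg_right h6 (by positivity)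
    have hp : 0 ≤ ‖x - y‖ ^ (1 / 2 : ℝ) := Real.rpow_nonneg (norm_nonneg _) _
    have h7 : ‖gradV f x - gradV f y‖ ≤ |C| * ‖x - y‖ ^ (1 / 2 : ℝ) :=
      h2.trans (mul_le_mul_of_nonneg_right (le_abs_self C) hp)
    have h8 : K * ‖x - y‖ ≤ 2 * K * ‖x - y‖ ^ (1 / 2 : ℝ) := by
      calc K * ‖x - y‖ ≤ K * (2 * ‖x - y‖ ^ (1 / 2 : ℝ)) := mul_le_mul_of_nonneg_left h3 hK
        _ = _ := by ring
    simp only
    rw [e, add_mul]
    exact (norm_sub_le _ _).trans (add_le_add (h1.trans h8) h7)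

end Rot23

end Pool.Agent.TF
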