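import Pool.Agent.Lib.MP_9cf0c9_mp.Weak

/-! Soft truncation, level sets, and locally Lipschitz functions with compact support. -/

set_option linter.unusedSectionVars false
set_option linter.unusedVariables false
set_option linter.style.haveILetI false

namespace Pool.Agent.TF
open MeasureTheory Set Metric Filter Topology
open scoped ENNReal NNReal RealInnerProductSpace Gradient

variable {V : Type*} [NormedAddCommGroup V] [InnerProductSpace ℝ V] [FiniteDimensional ℝ V]
  [MeasurableSpace V] [BorelSpace V]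

/-! ### soft truncation -/

/-- the soft threshold function -/
noncomputable def soft (d s : ℝ) : ℝ := s - max (-d) (min s d)

theorem soft_lip {d : ℝ} (hd : 0 ≤ d) (s t : ℝ) : |soft d s - soft d t| ≤ |s - t| := by
  have key : ∀ s t : ℝ, s ≤ t → 0 ≤ soft d t - soft d s ∧ soft d t - soft d s ≤ t - s := by
    intro s t h
    unfold soft
    rcases le_total s d with h1 | h1 <;> rcases le_total t d with h2 | h2 <;>
      rcases le_total (-d) s with h3 | h3 <;> rcases le_total (-d) t with h4 | h4 <;>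
      simp only [min_eq_left h1, min_eq_right h1, min_eq_left h2, min_eq_right h2,
        max_eq_right h3, max_eq_left h3, max_eq_right h4, max_eq_left h4,
        max_eq_right (by linarith : -d ≤ d)] <;> constructor <;> linarith
  rcases le_total s t with h | h
  · obtain ⟨a, b⟩ := key s t h
    rw [abs_sub_comm, abs_sub_comm s, abs_of_nonneg a, abs_of_nonneg (by linarith)]
    exact b
  · obtain ⟨a, b⟩ := key t s h
    rw [abs_of_nonneg a, abs_of_nonneg (by linarith)]
    exact b

theorem soft_eq_zero {d s : ℝ} (h : |s| ≤ d) : soft d s = 0 := by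
  unfold soft
  have h1 := abs_le.mp h
  rw [min_eq_left h1.2, max_eq_right h1.1, sub_self]

theorem soft_abs_le {d : ℝ} (hd : 0 ≤ d) (s : ℝ) : |soft d s| ≤ |s| := by
  have h := soft_lip hd s 0
  rwa [soft_eq_zero (s := 0) (by rwa [abs_zero]), sub_zero, sub_zero] at h

theorem soft_sub_le {d : ℝ} (hd : 0 ≤ d) (s : ℝ) : |soft d s - s| ≤ d := by
  unfold soft
  rw [show s - max (-d) (min s d) - s = -max (-d) (min s d) by ring, abs_neg, abs_le]
  exact ⟨le_max_left _ _, max_le (by linarith) (min_le_right _ _)⟩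

theorem soft_lipschitz {d : ℝ} (hd : 0 ≤ d) : LipschitzWith 1 (soft d) :=
  LipschitzWith.of_dist_le_mul fun s t => by
    rw [NNReal.coe_one, one_mul, Real.dist_eq, Real.dist_eq]; exact soft_lip hd s t

/-- gradient of a one-Lipschitz function of a differentiable function -/
theorem gradient_comp_le {g : ℝ → ℝ} (hg : LipschitzWith 1 g) {k : V → ℝ} {x : V}
    (hk : DifferentiableAt ℝ k x) : ‖∇ (fun y => g (k y)) x‖ ≤ ‖∇ k x‖ := by
  by_cases hd : DifferentiableAt ℝ (fun y => g (k y)) x
  · rw [norm_gradient, norm_gradient]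
    refine ContinuousLinearMap.opNorm_le_bound _ (norm_nonneg _) fun v => ?_
    have h1 : Tendsto (fun t : ℝ => ‖t⁻¹ • (g (k (x + t • v)) - g (k x))‖) (𝓝[>] 0)
        (𝓝 ‖fderiv ℝ (fun y => g (k y)) x v‖) := by
      have h := hd.hasFDerivAt.hasLineDerivAt v
      exact (h.tendsto_slope_zero_right).norm
    have h2 : Tendsto (fun t : ℝ => ‖t⁻¹ • (k (x + t • v) - k x)‖) (𝓝[>] 0)
        (𝓝 ‖fderiv ℝ k x v‖) := by
      have h := hk.hasFDerivAt.hasLineDerivAt v
      exact (h.tendsto_slope_zero_right).norm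
    refine (le_of_tendsto_of_tendsto' h1 h2 fun t => ?_).trans (ContinuousLinearMap.le_opNorm _ _)
    rw [norm_smul, norm_smul]
    refine mul_le_mul_of_nonneg_left ?_ (norm_nonneg _)
    have h3 := hg.dist_le_mul (k (x + t • v)) (k x)
    rwa [NNReal.coe_one, one_mul, dist_eq_norm, dist_eq_norm] at h3
  · rw [norm_gradient, fderiv_zero_of_not_differentiableAt hd, norm_zero]
    exact norm_nonneg _

theorem gradient_soft_zero {d : ℝ} {k : V → ℝ} {x : V} (hk : ContinuousAt k x) (h : |k x| < d) :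
    ∇ (fun y => soft d (k y)) x = 0 := by
  have h1 : (fun y => soft d (k y)) =ᶠ[𝓝 x] fun _ => 0 := by
    have h2 : ∀ᶠ y in 𝓝 x, |k y| < d := hk.abs.eventually (gt_mem_nhds h)
    filter_upwards [h2] with y hy
    exact soft_eq_zero hy.le
  rw [h1.gradient_eq]
  simp [gradient]

theorem gradient_soft_eq {d : ℝ} (hd : 0 ≤ d) {k : V → ℝ} {x : V} (hk : ContinuousAt k x)
    (h : d < |k x|) : ∇ (fun y => soft d (k y)) x = ∇ k x := by
  rcases lt_abs.mp h with h0 | h0
  · have h2 : ∀ᶠ y in 𝓝 x, d < k y := hk.eventually (lt_mem_nhds h0)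
    have h1 : (fun y => soft d (k y)) =ᶠ[𝓝 x] fun y => k y - d := by
      filter_upwards [h2] with y hy
      unfold soft
      rw [min_eq_right hy.le, max_eq_right (by linarith)]
    rw [h1.gradient_eq]
    unfold gradient
    rw [fderiv_sub_const]
  · have h2 : ∀ᶠ y in 𝓝 x, k y < -d := hk.eventually (gt_mem_nhds (by linarith))
    have h1 : (fun y => soft d (k y)) =ᶠ[𝓝 x] fun y => k y + d := by
      filter_upwards [h2] with y hy
      unfold soft
      rw [min_eq_left (by linarith), max_eq_left (by linarith)]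
      ring
    rw [h1.gradient_eq]
    unfold gradient
    rw [fderiv_add_const]

/-! ### level sets -/

/-- the gradient vanishes almost everywhere on a level set -/
theorem ae_level {k : V → ℝ} (hk : Measurable k) (c : ℝ) :
    ∀ᵐ x : V, k x = c → DifferentiableAt ℝ k x → ∇ k x = 0 := by
  rcases subsingleton_or_nontrivial V with hV | hV
  · exact Eventually.of_forall fun x _ _ => Subsingleton.elim _ _
  obtain ⟨e, he⟩ := exists_norm_eq V (zero_le_one (α := ℝ))
  set s : Set V := {x | k x = c} ∩ {x | DifferentiableAt ℝ k x} with hs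
  have hsm : MeasurableSet s :=
    (hk (measurableSet_singleton c)).inter (measurableSet_of_differentiableAt ℝ k)
  have hA : ApproximatesLinearOn (fun x => k x • e) (0 : V →L[ℝ] V) s 0 := by
    intro x hx y hy
    have h1 : k x = c := hx.1
    have h2 : k y = c := hy.1
    simp [h1, h2]
  have h1 := hA.norm_fderiv_sub_le (volume : Measure V) hsm
    (fun x => (fderiv ℝ k x).smulRight e) (fun x hx => by
      have h2 : DifferentiableAt ℝ k x := hx.2
      exact (h2.hasFDerivAt.smul_const e).hasFDerivWithinAt)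
  rw [ae_restrict_iff' hsm] at h1
  filter_upwards [h1] with x hx h2 h3
  have h4 := hx ⟨h2, h3⟩
  rw [sub_zero] at h4
  have h5 : ‖(fderiv ℝ k x).smulRight e‖ = 0 := le_antisymm (by exact_mod_cast h4) (norm_nonneg _)
  rw [ContinuousLinearMap.norm_smulRight_apply, he, mul_one, ← norm_gradient] at h5
  exact norm_eq_zero.mp h5

/-! ### locally Lipschitz functions -/

/-- local Lipschitz property at a point -/
def LipAt (k : V → ℝ) (x : V) : Prop := ∃ C : ℝ≥0, ∃ t ∈ 𝓝 x, LipschitzOnWith C k t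

theorem LipAt.continuousAt {k : V → ℝ} {x : V} (h : LipAt k x) : ContinuousAt k x := by
  obtain ⟨C, t, ht, hC⟩ := h
  exact hC.continuousOn.continuousAt ht

theorem LipAt.congr {k l : V → ℝ} {x : V} (h : LipAt k x) (he : k =ᶠ[𝓝 x] l) : LipAt l x := by
  obtain ⟨C, t, ht, hC⟩ := h
  refine ⟨C, t ∩ {y | k y = l y}, inter_mem ht he, ?_⟩
  intro y hy z hz
  rw [← hy.2, ← hz.2]
  exact hC hy.1 hz.1

theorem LipAt.const (c : ℝ) (x : V) : LipAt (fun _ => c) x :=
  ⟨0, univ, univ_mem, (LipschitzWith.const c).lipschitzOnWith⟩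

theorem lipAt_of_lip {k : V → ℝ} {C : ℝ≥0} (h : LipschitzWith C k) (x : V) : LipAt k x :=
  ⟨C, univ, univ_mem, h.lipschitzOnWith⟩

/-- composition with a function of two real variables -/
theorem LipAt.comp2 {a b : V → ℝ} {x : V} (ha : LipAt a x) (hb : LipAt b x) {F : ℝ × ℝ → ℝ}
    (hF : ∃ C : ℝ≥0, ∃ t ∈ 𝓝 (a x, b x), LipschitzOnWith C F t) :
    LipAt (fun y => F (a y, b y)) x := by
  obtain ⟨C, t, ht, hC⟩ := ha
  obtain ⟨D, s, hs, hD⟩ := hb
  obtain ⟨K, w, hw, hK⟩ := hF
  have hab : ContinuousAt (fun y => (a y, b y)) x :=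
    (hC.continuousOn.continuousAt ht).prodMk (hD.continuousOn.continuousAt hs)
  refine ⟨K * max C D, (t ∩ s) ∩ (fun y => (a y, b y)) ⁻¹' w,
    inter_mem (inter_mem ht hs) (hab hw), ?_⟩
  have h1 : LipschitzOnWith (max C D) (fun y => (a y, b y)) ((t ∩ s) ∩ (fun y => (a y, b y)) ⁻¹' w) :=
    (hC.mono fun y hy => hy.1.1).prodMk (hD.mono fun y hy => hy.1.2)
  exact hK.comp h1 fun y hy => hy.2

theorem LipAt.comp_contDiff {a b : V → ℝ} {x : V} (ha : LipAt a x) (hb : LipAt b x)
    {F : ℝ × ℝ → ℝ} (hF : ContDiffAt ℝ 1 F (a x, b x)) : LipAt (fun y => F (a y, b y)) x := by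
  obtain ⟨K, t, ht, h⟩ := hF.exists_lipschitzOnWith
  exact ha.comp2 hb ⟨K, t, ht, h⟩

theorem LipAt.mul {a b : V → ℝ} {x : V} (ha : LipAt a x) (hb : LipAt b x) :
    LipAt (fun y => a y * b y) x :=
  ha.comp_contDiff hb (F := fun p => p.1 * p.2) (by fun_prop)

theorem LipAt.add {a b : V → ℝ} {x : V} (ha : LipAt a x) (hb : LipAt b x) :
    LipAt (fun y => a y + b y) x :=
  ha.comp_contDiff hb (F := fun p => p.1 + p.2) (by fun_prop)

theorem LipAt.sub {a b : V → ℝ} {x : V} (ha : LipAt a x) (hb : LipAt b x) :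
    LipAt (fun y => a y - b y) x :=
  ha.comp_contDiff hb (F := fun p => p.1 - p.2) (by fun_prop)

theorem LipAt.max {a b : V → ℝ} {x : V} (ha : LipAt a x) (hb : LipAt b x) :
    LipAt (fun y => Max.max (a y) (b y)) x := by
  refine ha.comp2 hb (F := fun p => Max.max p.1 p.2) ⟨Max.max 1 1, univ, univ_mem, ?_⟩
  exact (LipschitzWith.prod_fst.max LipschitzWith.prod_snd).lipschitzOnWith

theorem LipAt.min {a b : V → ℝ} {x : V} (ha : LipAt a x) (hb : LipAt b x) :
    LipAt (fun y => Min.min (a y) (b y)) x := by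
  refine ha.comp2 hb (F := fun p => Min.min p.1 p.2) ⟨Max.max 1 1, univ, univ_mem, ?_⟩
  exact (LipschitzWith.prod_fst.min LipschitzWith.prod_snd).lipschitzOnWith

theorem LipAt.comp_lip {a : V → ℝ} {x : V} (ha : LipAt a x) {g : ℝ → ℝ} {C : ℝ≥0}
    (hg : LipschitzWith C g) : LipAt (fun y => g (a y)) x := by
  obtain ⟨K, t, ht, h⟩ := ha
  exact ⟨C * K, t, ht, hg.comp_lipschitzOnWith h⟩

/-- a function with continuous gradient near a point is locally Lipschitz there -/
theorem lipAt_of_gradient {k : V → ℝ} {k' : V → V} {x : V} {δ : ℝ} (hδ : 0 < δ)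
    (h : ∀ y ∈ ball x δ, HasGradientAt k (k' y) y) (hc : ContinuousAt k' x) : LipAt k x := by
  have h1 : ∀ᶠ y in 𝓝 x, ‖k' y‖ < ‖k' x‖ + 1 := hc.norm.eventually (gt_mem_nhds (by linarith))
  obtain ⟨r, hr, hr'⟩ := Metric.eventually_nhds_iff_ball.mp h1
  refine ⟨(‖k' x‖ + 1).toNNReal, ball x (Min.min r δ), ball_mem_nhds x (lt_min hr hδ), ?_⟩
  refine (convex_ball x _).lipschitzOnWith_of_nnnorm_hasFDerivWithin_le
    (f' := fun y => (InnerProductSpace.toDual ℝ V) (k' y)) (fun y hy => ?_) (fun y hy => ?_)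
  · exact (h y (ball_subset_ball (min_le_right _ _) hy)).hasFDerivAt.hasFDerivWithinAt
  · have h2 := (hr' y (ball_subset_ball (min_le_left _ _) hy)).le
    rw [← NNReal.coe_le_coe, coe_nnnorm, LinearIsometryEquiv.norm_map,
      Real.coe_toNNReal _ (by positivity)]
    exact h2

/-- locally Lipschitz with compact support implies Lipschitz -/
theorem lipschitz_of_compact {u : V → ℝ} (h : ∀ x, LipAt u x) {R : ℝ} (hR : 0 < R)
    (h0 : ∀ x, R ≤ ‖x‖ → u x = 0) : (∃ C, LipschitzWith C u) ∧ HasCompactSupport u := by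
  have hcs : HasCompactSupport u := by
    refine HasCompactSupport.intro (isCompact_closedBall (0 : V) R) fun x hx => h0 x ?_
    rw [mem_closedBall_zero_iff, not_le] at hx
    exact hx.le
  refine ⟨?_, hcs⟩
  have hll : LocallyLipschitz u := fun x => h x
  have h1 : LocallyLipschitzOn (closedBall (0 : V) (R + 1)) u := hll.locallyLipschitzOn
  obtain ⟨K, hK⟩ := h1.exists_lipschitzOnWith_of_compact (isCompact_closedBall _ _)
  obtain ⟨M, hM⟩ := hcs.exists_bound_of_continuous hll.continuous
  have hM0 : 0 ≤ M := (norm_nonneg _).trans (hM 0)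
  refine ⟨Max.max K M.toNNReal, LipschitzWith.of_dist_le_mul fun x y => ?_⟩
  have hcoe : ((Max.max K M.toNNReal : ℝ≥0) : ℝ) = Max.max (K : ℝ) M := by
    rw [NNReal.coe_max, Real.coe_toNNReal _ hM0]
  rw [hcoe]
  have key : ∀ x y : V, ‖x‖ ≤ R → R + 1 < ‖y‖ → dist (u x) (u y) ≤ Max.max (K : ℝ) M * dist x y := by
    intro x y hx hy
    rw [h0 y (by linarith), dist_zero_right]
    have h2 : 1 ≤ dist x y := by
      rw [dist_comm, dist_eq_norm]
      have := norm_sub_norm_le y x
      linarith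
    calc ‖u x‖ ≤ M := hM x
      _ ≤ Max.max (K : ℝ) M * 1 := by rw [mul_one]; exact le_max_right _ _
      _ ≤ _ := mul_le_mul_of_nonneg_left h2 (hM0.trans (le_max_right _ _))
  by_cases hx : ‖x‖ ≤ R + 1
  · by_cases hy : ‖y‖ ≤ R + 1
    · refine (hK.dist_le_mul x (by simpa using hx) y (by simpa using hy)).trans ?_
      exact mul_le_mul_of_nonneg_right (le_max_left _ _) dist_nonneg
    · push Not at hy
      by_cases hx2 : ‖x‖ ≤ R
      · exact key x y hx2 hy
      · push Not at hx2
        rw [h0 x hx2.le, h0 y (by linarith), dist_self]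
        positivity
  · push Not at hx
    by_cases hy2 : ‖y‖ ≤ R
    · rw [dist_comm (u x), dist_comm x]
      exact key y x hy2 hx
    · push Not at hy2
      rw [h0 x (by linarith), h0 y hy2.le, dist_self]
      positivity

end Pool.Agent.TF
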