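import Pool.Agent.Lib.MP_9cf0c9_mp.Existence

/-! Existence for the Thomas-Fermi equation: the limit. -/

set_option linter.unusedSectionVars false
set_option linter.unusedVariables false
set_option linter.style.haveILetI false

namespace Pool.Agent.TF
open MeasureTheory Set Metric Filter Topology
open scoped ENNReal NNReal RealInnerProductSpace

variable {V : Type*} [NormedAddCommGroup V] [InnerProductSpace ℝ V] [FiniteDimensional ℝ V]
  [MeasurableSpace V] [BorelSpace V] [hd : Fact (Module.finrank ℝ V = 3)]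

/-- the iteration -/
noncomputable def itf (a : ℝ) (θ : V ≃ₗᵢ[ℝ] V) (M : ℝ) (W : V → ℝ) (S : Set V) (τ : ℝ) :
    ℕ → V → ℝ
  | 0 => fun _ => 0
  | n + 1 => fun x => (1 - τ) * itf a θ M W S τ n x + τ * Gop a θ M W S (itf a θ M W S τ n) x

theorem Gop_nonneg (a : ℝ) (θ : V ≃ₗᵢ[ℝ] V) (M : ℝ) (W : V → ℝ) (S : Set V) (f : V → ℝ) (x : V) :
    0 ≤ Gop a θ M W S f x := indicator_nonneg (fun _ _ => tfM_nonneg _ _) _

theorem Gop_le (a : ℝ) (θ : V ≃ₗᵢ[ℝ] V) (M : ℝ) (W : V → ℝ) (S : Set V) (f : V → ℝ) (x : V) :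
    Gop a θ M W S f x ≤ tf M := by
  unfold Gop
  by_cases h : x ∈ S
  · rw [indicator_of_mem h]; exact tfM_le _ _
  · rw [indicator_of_notMem h]; exact tf_nonneg _

theorem exists_sol {a : ℝ} (ha0 : 0 ≤ a) (ha1 : a ≤ 1) (θ : V ≃ₗᵢ[ℝ] V)
    (hθ : ∀ x, θ (θ x) = x) {M : ℝ} (hM : 0 ≤ M) {W : V → ℝ} (hW : Measurable W) {S : Set V}
    (hS : MeasurableSet S) {R : ℝ} (hSR : S ⊆ ball 0 R) :
    ∃ ρ : V → ℝ, BC ρ ∧ (∀ x, 0 ≤ ρ x) ∧ (∀ x, x ∉ S → ρ x = 0) ∧
      ∀ x, x ∈ S → ρ x = tfM M (W x - kop a θ ρ x) := by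
  set L : ℝ := 2 * √M + 1 with hLdef
  have hL : 0 < L := by positivity
  have hcoc : ∀ u v, (tfM M u - tfM M v) ^ 2 ≤ L * ((tfM M u - tfM M v) * (u - v)) := by
    intro u v
    have h1 := tfM_coc hM u v
    have h2 : 0 ≤ (tfM M u - tfM M v) * (u - v) := by
      rcases le_total u v with h | h
      · have : tfM M u ≤ tfM M v := tf_mono (min_le_min_right M h)
        exact mul_nonneg_of_nonpos_of_nonpos (by linarith) (by linarith)
      · have : tfM M v ≤ tfM M u := tf_mono (min_le_min_right M h)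
        exact mul_nonneg (by linarith) (by linarith)
    rw [hLdef, add_mul, one_mul]
    linarith
  have hc0 : 0 ≤ cdom V R := by
    rw [← integral_dom R (0 : V)]
    exact integral_nonneg fun y => dom_nonneg R 0 y
  set τ : ℝ := min (1 / 2) (1 / (2 * (2 * cdom V R) * L + 1)) with hτdef
  have hτ0 : 0 < τ := lt_min (by norm_num) (by positivity)
  have hτ1 : τ ≤ 1 / 2 := min_le_left _ _
  have hτ2 : 2 * τ * (2 * cdom V R) * L ≤ 1 := by
    have h1 : τ ≤ 1 / (2 * (2 * cdom V R) * L + 1) := min_le_right _ _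
    rw [le_div_iff₀ (by positivity)] at h1
    have : 0 ≤ 2 * (2 * cdom V R) * L := by positivity
    nlinarith
  set ρs := itf a θ M W S τ with hρs
  have hBC : ∀ n, BC (ρs n) := by
    intro n
    induction n with
    | zero => exact BC.zero
    | succ n ih => exact (ih.const_mul _).add ((Gop_BC hW hS hSR ih).const_mul _)
  have hS0 : ∀ n x, x ∉ S → ρs n x = 0 := by
    intro n
    induction n with
    | zero => intro x _; rfl
    | succ n ih =>
      intro x hx
      change (1 - τ) * ρs n x + τ * Gop a θ M W S (ρs n) x = 0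
      rw [ih x hx]
      unfold Gop
      rw [indicator_of_notMem hx]
      ring
  have hbd : ∀ n x, 0 ≤ ρs n x ∧ ρs n x ≤ tf M := by
    intro n
    induction n with
    | zero => intro x; exact ⟨le_refl _, tf_nonneg _⟩
    | succ n ih =>
      intro x
      change 0 ≤ (1 - τ) * ρs n x + τ * Gop a θ M W S (ρs n) x ∧
        (1 - τ) * ρs n x + τ * Gop a θ M W S (ρs n) x ≤ tf M
      have h1 := Gop_nonneg a θ M W S (ρs n) x
      have h2 := Gop_le a θ M W S (ρs n) x
      obtain ⟨h3, h4⟩ := ih x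
      have h5 : 0 ≤ 1 - τ := by linarith
      constructor
      · positivity
      · nlinarith
  -- the increments
  set dn : ℕ → V → ℝ := fun n x => ρs (n + 1) x - ρs n x with hdn
  have hdB : ∀ n, BC (dn n) := fun n => (hBC (n + 1)).sub (hBC n)
  set J : ℕ → ℝ := fun n => (∫ x, dn n x ^ 2) + 6 * L * Qf a θ (dn n) (dn n) with hJ
  have hJs : ∀ n, J (n + 1) ≤ (1 - τ) * J n := by
    intro n
    refine contr ha0 ha1 θ hθ hW hS hSR hL hcoc hτ0 hτ1 hτ2 (hBC (n + 1)) (hBC n) ?_
    intro x
    change ((1 - τ) * ρs (n + 1) x + τ * Gop a θ M W S (ρs (n + 1)) x) -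
      ((1 - τ) * ρs n x + τ * Gop a θ M W S (ρs n) x) = _
    ring
  have hJn : ∀ n, J n ≤ (1 - τ) ^ n * J 0 := by
    intro n
    induction n with
    | zero => simp
    | succ n ih =>
      refine (hJs n).trans ?_
      rw [pow_succ]
      have h5 : 0 ≤ 1 - τ := by linarith
      calc (1 - τ) * J n ≤ (1 - τ) * ((1 - τ) ^ n * J 0) := mul_le_mul_of_nonneg_left ih h5
        _ = _ := by ring
  have hQn : ∀ n, 0 ≤ Qf a θ (dn n) (dn n) := fun n => Qf_nonneg ha0 ha1 θ hθ (hdB n)
  have hd2 : ∀ n, ∫ x, dn n x ^ 2 ≤ (1 - τ) ^ n * J 0 := by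
    intro n
    refine le_trans ?_ (hJn n)
    have := hQn n
    have h6 : 0 ≤ 6 * L * Qf a θ (dn n) (dn n) := by positivity
    simp only [hJ]
    linarith
  set r : ℝ := √(1 - τ) with hr
  have hr0 : 0 < r := Real.sqrt_pos.mpr (by linarith)
  have hr1 : r < 1 := by
    rw [hr, Real.sqrt_lt' one_pos]; linarith
  have hr2 : r ^ 2 = 1 - τ := Real.sq_sqrt (by linarith)
  set vB : ℝ := volume.real (ball (0 : V) R) with hvB
  have hL1 : ∀ n, ∫ x, |dn n x| ≤ (vB + J 0) / 2 * r ^ n := by
    intro n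
    have hI1 : Integrable ((ball (0 : V) R).indicator fun _ => (1 : ℝ)) := by
      rw [integrable_indicator_iff measurableSet_ball]
      exact integrableOn_const (by finiteness)
    have hrn : 0 < r ^ n := pow_pos hr0 n
    have h1 : ∫ x, |dn n x| ≤ ∫ x, ((r ^ n / 2) * (ball (0 : V) R).indicator (fun _ => (1 : ℝ)) x +
        (1 / (2 * r ^ n)) * dn n x ^ 2) := by
      refine integral_mono (hdB n).integrable.abs
        ((hI1.const_mul _).add ((hdB n).sq.integrable.const_mul _)) fun x => ?_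
      simp only
      by_cases hx : x ∈ ball (0 : V) R
      · rw [indicator_of_mem hx]
        have e1 : |dn n x| = 2 * ((r ^ n) * (|dn n x|)) / (2 * r ^ n) := by field_simp
        have e2 : r ^ n / 2 * 1 + 1 / (2 * r ^ n) * dn n x ^ 2 =
            ((r ^ n) ^ 2 + |dn n x| ^ 2) / (2 * r ^ n) := by
          rw [sq_abs]; field_simp
        rw [e2]
        nth_rewrite 1 [e1]
        refine div_le_div_of_nonneg_right ?_ (by positivity)
        nlinarith [sq_nonneg (r ^ n - |dn n x|)]
      · have hx' : x ∉ S := fun h => hx (hSR h)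
        have e1 : dn n x = 0 := by simp only [hdn, hS0 _ x hx', sub_self]
        rw [e1, indicator_of_notMem hx]
        simp
    refine h1.trans ?_
    rw [integral_add (hI1.const_mul _) ((hdB n).sq.integrable.const_mul _), integral_const_mul,
      integral_const_mul, integral_indicator measurableSet_ball]
    have e3 : ∫ x in ball (0 : V) R, (1 : ℝ) = vB := by simp [hvB]
    rw [e3]
    have e4 : 1 / (2 * r ^ n) * ∫ x, dn n x ^ 2 ≤ 1 / (2 * r ^ n) * ((1 - τ) ^ n * J 0) :=
      mul_le_mul_of_nonneg_left (hd2 n) (by positivity)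
    have e5 : 1 / (2 * r ^ n) * ((1 - τ) ^ n * J 0) = J 0 / 2 * r ^ n := by
      rw [← hr2, ← pow_mul, mul_comm 2 n, pow_mul]
      field_simp
    rw [e5] at e4
    linarith
  -- almost everywhere convergence
  have hsum : ∀ᵐ x : V, Summable (fun n => dn n x) := by
    have h1 : ∫⁻ x, ∑' n, ‖dn n x‖ₑ ≠ ∞ := by
      rw [lintegral_tsum fun n => (hdB n).meas.enorm.aemeasurable]
      have h2 : ∀ n, ∫⁻ x, ‖dn n x‖ₑ ≤ ENNReal.ofReal ((vB + J 0) / 2 * r ^ n) := by
        intro n
        rw [← ofReal_integral_norm_eq_lintegral_enorm (hdB n).integrable]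
        exact ENNReal.ofReal_le_ofReal (hL1 n)
      refine ne_top_of_le_ne_top ?_ (ENNReal.tsum_le_tsum h2)
      have h3 : Summable (fun n => (vB + J 0) / 2 * r ^ n) :=
        (summable_geometric_of_lt_one hr0.le hr1).mul_left _
      have h4 : ∀ n, 0 ≤ (vB + J 0) / 2 * r ^ n := fun n =>
        (integral_nonneg fun x => abs_nonneg _).trans (hL1 n)
      rw [← ENNReal.ofReal_tsum_of_nonneg h4 h3]
      exact ENNReal.ofReal_ne_top
    have hm : Measurable (fun x => ∑' n, ‖dn n x‖ₑ) :=
      Measurable.tsum fun n => (hdB n).meas.enorm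
    filter_upwards [ae_lt_top hm h1] with x hx
    have h5 : Summable (fun n => ‖dn n x‖₊) := by
      rw [← ENNReal.tsum_coe_ne_top_iff_summable]
      exact hx.ne
    exact Summable.of_norm (by simpa using NNReal.summable_coe.mpr h5)
  have htel : ∀ n x, ρs n x = ∑ i ∈ Finset.range n, dn i x := by
    intro n x
    simp only [hdn]
    rw [Finset.sum_range_sub (fun i => ρs i x) n]
    change ρs n x = ρs n x - 0
    ring
  have hconv : ∀ᵐ x : V, ∃ l, Tendsto (fun n => ρs n x) atTop (𝓝 l) := by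
    filter_upwards [hsum] with x hx
    refine ⟨∑' n, dn n x, ?_⟩
    simp_rw [htel]
    exact hx.hasSum.tendsto_sum_nat
  obtain ⟨g, hgm, hg⟩ := measurable_limit_of_tendsto_metrizable_ae
    (fun n => (hBC n).meas.aemeasurable) hconv
  -- the cut-off limit
  set ρ0 : V → ℝ := S.indicator (fun x => max 0 (min (g x) (tf M))) with hρ0
  have hρ0B : BC ρ0 := by
    refine ⟨(measurable_const.max (hgm.min measurable_const)).indicator hS,
      ⟨tf M, fun x => ?_⟩, ⟨R, fun x hx => ?_⟩⟩
    · simp only [hρ0]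
      by_cases h : x ∈ S
      · rw [indicator_of_mem h, abs_of_nonneg (le_max_left _ _)]
        exact max_le (tf_nonneg _) (min_le_right _ _)
      · rw [indicator_of_notMem h, abs_zero]; exact tf_nonneg _
    · simp only [hρ0]
      rw [indicator_of_notMem]
      intro h
      have := hSR h
      rw [mem_ball_zero_iff] at this
      linarith
  have hlim : ∀ᵐ x : V, Tendsto (fun n => ρs n x) atTop (𝓝 (ρ0 x)) := by
    filter_upwards [hg] with x hx
    by_cases h : x ∈ S
    · have h1 : 0 ≤ g x := ge_of_tendsto' hx fun n => (hbd n x).1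
      have h2 : g x ≤ tf M := le_of_tendsto' hx fun n => (hbd n x).2
      simp only [hρ0]
      rw [indicator_of_mem h, min_eq_left h2, max_eq_right h1]
      exact hx
    · have h1 : ρ0 x = 0 := by simp only [hρ0]; rw [indicator_of_notMem h]
      rw [h1]
      simp_rw [hS0 _ x h]
      exact tendsto_const_nhds
  -- convergence of potentials
  have hpot : ∀ x, Tendsto (fun n => pot (ρs n) x) atTop (𝓝 (pot ρ0 x)) := by
    intro x
    set χ : V → ℝ := (ball (0 : V) R).indicator (fun _ => tf M) with hχ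
    have hχB : BC χ := by
      refine ⟨measurable_const.indicator measurableSet_ball, ⟨tf M, fun x => ?_⟩,
        ⟨R, fun x hx => indicator_of_notMem (by simpa using hx) _⟩⟩
      rw [abs_of_nonneg (indicator_nonneg (fun _ _ => tf_nonneg _) _)]
      exact indicator_le_self' (fun _ _ => tf_nonneg _) _
    unfold pot
    refine tendsto_integral_of_dominated_convergence (fun y => ‖x - y‖⁻¹ * χ y)
      (fun n => (pot_integrable (hBC n) x).aestronglyMeasurable) (pot_integrable hχB x)
      (fun n => Eventually.of_forall fun y => ?_) ?_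
    · rw [norm_mul, Real.norm_of_nonneg (by positivity : 0 ≤ ‖x - y‖⁻¹),
        Real.norm_of_nonneg (hbd n y).1]
      refine mul_le_mul_of_nonneg_left ?_ (by positivity)
      by_cases hy : y ∈ ball (0 : V) R
      · rw [hχ, indicator_of_mem hy]; exact (hbd n y).2
      · rw [hχ, indicator_of_notMem hy, hS0 n y fun h => hy (hSR h)]
    · filter_upwards [hlim] with y hy
      exact hy.const_mul _
  have hkop : ∀ x, Tendsto (fun n => kop a θ (ρs n) x) atTop (𝓝 (kop a θ ρ0 x)) := by
    intro x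
    unfold kop
    exact (hpot x).sub ((hpot (θ x)).const_mul a)
  have hG : ∀ x, Tendsto (fun n => Gop a θ M W S (ρs n) x) atTop (𝓝 (Gop a θ M W S ρ0 x)) := by
    intro x
    unfold Gop
    by_cases h : x ∈ S
    · simp only [indicator_of_mem h]
      exact ((tfM_continuous M).tendsto _).comp (tendsto_const_nhds.sub (hkop x))
    · simp only [indicator_of_notMem h]
      exact tendsto_const_nhds
  have heq : ∀ᵐ x : V, ρ0 x = Gop a θ M W S ρ0 x := by
    filter_upwards [hlim] with x hx
    have h1 : Tendsto (fun n => ρs (n + 1) x) atTop (𝓝 (ρ0 x)) := hx.comp (tendsto_add_atTop_nat 1)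
    have h2 : Tendsto (fun n => ρs (n + 1) x) atTop
        (𝓝 ((1 - τ) * ρ0 x + τ * Gop a θ M W S ρ0 x)) :=
      (hx.const_mul _).add ((hG x).const_mul _)
    have h3 := tendsto_nhds_unique h1 h2
    have h4 : τ * ρ0 x = τ * Gop a θ M W S ρ0 x := by linarith
    exact mul_left_cancel₀ hτ0.ne' h4
  refine ⟨Gop a θ M W S ρ0, Gop_BC hW hS hSR hρ0B, Gop_nonneg _ _ _ _ _ _, ?_, ?_⟩
  · intro x hx
    unfold Gop
    rw [indicator_of_notMem hx]
  · intro x hx
    have h1 : pot (Gop a θ M W S ρ0) = pot ρ0 := by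
      refine pot_congr_ae ?_
      filter_upwards [heq] with y hy
      exact hy.symm
    have h2 : kop a θ (Gop a θ M W S ρ0) x = kop a θ ρ0 x := by
      unfold kop
      rw [h1]
    rw [h2]
    unfold Gop
    rw [indicator_of_mem hx]

end Pool.Agent.TF
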