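import Pool.Agent.Lib.MP_9cf0c9_mp.Half

/-! General admissible densities and minimality of solutions. -/

set_option linter.unusedSectionVars false
set_option linter.unusedVariables false
set_option linter.style.haveILetI false

namespace Pool.Agent.TF
open MeasureTheory Set Metric Filter Topology
open scoped ENNReal NNReal RealInnerProductSpace

/-! ### pointwise inequalities -/

theorem tf_eq_rpow {w : ℝ} (hw : 0 ≤ w) : tf w = w ^ (3 / 2 : ℝ) := by
  unfold tf
  rw [max_eq_left hw, Real.sqrt_eq_rpow]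
  rcases hw.eq_or_lt with h | h
  · subst h
    rw [zero_mul, Real.zero_rpow (by norm_num)]
  · nth_rewrite 1 [← Real.rpow_one w]
    rw [← Real.rpow_add h]
    norm_num

theorem Phi_eq_rpow {w : ℝ} (hw : 0 ≤ w) : Phi w = 2 / 5 * w ^ (5 / 2 : ℝ) := by
  unfold Phi
  rw [tf_eq_rpow hw]
  rcases hw.eq_or_lt with h | h
  · subst h
    rw [zero_mul, Real.zero_rpow (by norm_num)]
  · congr 1
    nth_rewrite 1 [← Real.rpow_one w]
    rw [← Real.rpow_add h]
    norm_num

theorem young_tf (w : ℝ) {s : ℝ} (hs : 0 ≤ s) : -Phi w ≤ 3 / 5 * s ^ (5 / 3 : ℝ) - w * s := by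
  rcases le_total w 0 with hw | hw
  · rw [Phi_of_nonpos hw]
    have h1 : 0 ≤ s ^ (5 / 3 : ℝ) := Real.rpow_nonneg hs _
    have h2 : w * s ≤ 0 := mul_nonpos_of_nonpos_of_nonneg hw hs
    linarith
  · rw [Phi_eq_rpow hw]
    have hpq : (5 / 2 : ℝ).HolderConjugate (5 / 3) := by
      rw [Real.holderConjugate_iff]
      norm_num
    have h := Real.young_inequality_of_nonneg hw hs hpq
    have e1 : w ^ (5 / 2 : ℝ) / (5 / 2) = 2 / 5 * w ^ (5 / 2 : ℝ) := by ring
    have e2 : s ^ (5 / 3 : ℝ) / (5 / 3) = 3 / 5 * s ^ (5 / 3 : ℝ) := by ring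
    rw [e1, e2] at h
    linarith

theorem young_tf_eq (w : ℝ) : 3 / 5 * tf w ^ (5 / 3 : ℝ) - w * tf w = -Phi w := by
  rcases le_total w 0 with hw | hw
  · rw [tf_of_nonpos hw, Phi_of_nonpos hw, Real.zero_rpow (by norm_num)]
    ring
  · rw [Phi_eq_rpow hw]
    have h1 : tf w ^ (5 / 3 : ℝ) = w ^ (5 / 2 : ℝ) := by
      rw [tf_eq_rpow hw, ← Real.rpow_mul hw]
      norm_num
    have h2 : w * tf w = w ^ (5 / 2 : ℝ) := by
      have h3 := Phi_eq_rpow hw
      unfold Phi at h3
      linarith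
    rw [h1, h2]
    ring

/-! ### integral helpers -/

theorem integral_sub2 {α : Type*} [MeasurableSpace α] {μ : Measure α} {f g h : α → ℝ}
    (hf : Integrable f μ) (hg : Integrable g μ) (hh : Integrable h μ) :
    ∫ x, (f x - g x - h x) ∂μ = ∫ x, f x ∂μ - ∫ x, g x ∂μ - ∫ x, h x ∂μ := by
  have h1 : Integrable (fun x => f x - g x) μ := hf.sub hg
  rw [integral_sub h1 hh, integral_sub hf hg]

theorem integral_add2 {α : Type*} [MeasurableSpace α] {μ : Measure α} {f g h : α → ℝ}
    (hf : Integrable f μ) (hg : Integrable g μ) (hh : Integrable h μ) :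
    ∫ x, (f x + (g x + h x)) ∂μ = ∫ x, f x ∂μ + (∫ x, g x ∂μ + ∫ x, h x ∂μ) := by
  have h1 : Integrable (fun x => g x + h x) μ := hg.add hh
  rw [integral_add hf h1, integral_add hg hh]

theorem integral_ssa {α : Type*} [MeasurableSpace α] {μ : Measure α} {f g h k : α → ℝ}
    (hf : Integrable f μ) (hg : Integrable g μ) (hh : Integrable h μ) (hk : Integrable k μ) :
    ∫ x, (f x - g x - h x + k x) ∂μ =
      ∫ x, f x ∂μ - ∫ x, g x ∂μ - ∫ x, h x ∂μ + ∫ x, k x ∂μ := by
  have h1 : Integrable (fun x => f x - g x - h x) μ := (hf.sub hg).sub hh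
  rw [integral_add h1 hk, integral_sub2 hf hg hh]

/-! ### the class of densities -/

variable {V : Type*} [NormedAddCommGroup V] [InnerProductSpace ℝ V] [FiniteDimensional ℝ V]
  [MeasurableSpace V] [BorelSpace V]

/-- admissible nonnegative densities -/
structure TC (f : V → ℝ) : Prop where
  meas : Measurable f
  nonneg : ∀ x, 0 ≤ f x
  int : Integrable f
  int53 : Integrable (fun x => f x ^ (5 / 3 : ℝ))

theorem BC.toTC {f : V → ℝ} (hf : BC f) (h0 : ∀ x, 0 ≤ f x) : TC f := by
  refine ⟨hf.meas, h0, hf.integrable, ?_⟩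
  obtain ⟨M, R, hM0, hR0, hM, hR⟩ := hf.bounds
  have : BC (fun x => f x ^ (5 / 3 : ℝ)) := by
    refine ⟨hf.meas.pow_const _, ⟨M ^ (5 / 3 : ℝ), fun x => ?_⟩, ⟨R, fun x hx => ?_⟩⟩
    · rw [abs_of_nonneg (Real.rpow_nonneg (h0 x) _)]
      refine Real.rpow_le_rpow (h0 x) ?_ (by norm_num)
      have := hM x
      rwa [abs_of_nonneg (h0 x)] at this
    · rw [hR x hx, Real.zero_rpow (by norm_num)]
  exact this.integrable

section dim3
variable [hd : Fact (Module.finrank ℝ V = 3)]

include hd in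
theorem integrableOn_rpow52 : IntegrableOn (fun v : V => (‖v‖⁻¹) ^ (5 / 2 : ℝ)) (ball 0 1) := by
  refine integrableOn_ball_of_norm_le_rpow (α := 5 / 2) (C := 1) ?_ ?_ ?_ ?_
  · rw [hd.out]; norm_num
  · rw [hd.out]; norm_num
  · refine Eventually.of_forall fun x => ?_
    rw [Real.norm_of_nonneg (by positivity), one_mul, Real.rpow_neg (norm_nonneg _),
      Real.inv_rpow (norm_nonneg _)]
  · exact ((measurable_norm.inv).pow_const _).aestronglyMeasurable

/-- local singular weight -/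
noncomputable def wt (v : V) : ℝ :=
  (ball (0 : V) 1).indicator (fun v => (‖v‖⁻¹) ^ (5 / 2 : ℝ)) v

theorem wt_nonneg (v : V) : 0 ≤ wt v := indicator_nonneg (fun _ _ => by positivity) _

theorem wt_integrable : Integrable (wt : V → ℝ) :=
  (integrable_indicator_iff measurableSet_ball).mpr integrableOn_rpow52

theorem tc_pointwise {s : ℝ} (hs : 0 ≤ s) (v : V) :
    ‖v‖⁻¹ * s ≤ s + (3 / 5 * s ^ (5 / 3 : ℝ) + 2 / 5 * wt v) := by
  have h53 : 0 ≤ s ^ (5 / 3 : ℝ) := Real.rpow_nonneg hs _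
  by_cases hv : v ∈ ball (0 : V) 1
  · have h1 : wt v = (‖v‖⁻¹) ^ (5 / 2 : ℝ) := indicator_of_mem hv _
    have h2 := young_tf (‖v‖⁻¹) hs
    rw [Phi_eq_rpow (by positivity)] at h2
    rw [h1]
    linarith
  · have h1 : wt v = 0 := indicator_of_notMem hv _
    have h2 : 1 ≤ ‖v‖ := by simpa using hv
    have h3 : ‖v‖⁻¹ ≤ 1 := inv_le_one_of_one_le₀ h2
    have h4 : ‖v‖⁻¹ * s ≤ 1 * s := mul_le_mul_of_nonneg_right h3 hs
    rw [h1]
    linarith

theorem TC.dom_integrable {f : V → ℝ} (hf : TC f) (x : V) :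
    Integrable (fun y => f y + (3 / 5 * f y ^ (5 / 3 : ℝ) + 2 / 5 * wt (x - y))) :=
  hf.int.add ((hf.int53.const_mul _).add ((wt_integrable.comp_sub_left x).const_mul _))

theorem TC.pot_integrable {f : V → ℝ} (hf : TC f) (x : V) :
    Integrable (fun y => ‖x - y‖⁻¹ * f y) := by
  refine (hf.dom_integrable x).mono' ?_ (Eventually.of_forall fun y => ?_)
  · have : Measurable (fun y : V => ‖x - y‖⁻¹) := by fun_prop
    exact (this.mul hf.meas).aestronglyMeasurable
  · rw [Real.norm_of_nonneg (mul_nonneg (by positivity) (hf.nonneg y))]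
    exact tc_pointwise (hf.nonneg y) (x - y)

/-- the uniform bound of the potential -/
noncomputable def tcB (f : V → ℝ) : ℝ :=
  (∫ y, f y) + (3 / 5 * (∫ y, f y ^ (5 / 3 : ℝ)) + 2 / 5 * ∫ v, wt (v : V))

theorem TC.pot_le {f : V → ℝ} (hf : TC f) (x : V) : pot f x ≤ tcB f := by
  unfold pot tcB
  have h1 : ∫ y, (f y + (3 / 5 * f y ^ (5 / 3 : ℝ) + 2 / 5 * wt (x - y))) =
      (∫ y, f y) + (3 / 5 * (∫ y, f y ^ (5 / 3 : ℝ)) + 2 / 5 * ∫ v, wt (v : V)) := by
    rw [integral_add2 hf.int (hf.int53.const_mul _)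
      ((wt_integrable.comp_sub_left x).const_mul _), integral_const_mul, integral_const_mul,
      integral_sub_left_eq_self (fun v : V => wt v) volume x]
  rw [← h1]
  refine integral_mono (hf.pot_integrable x) (hf.dom_integrable x) fun y => ?_
  exact tc_pointwise (hf.nonneg y) (x - y)

theorem TC.prod_integrable {f g : V → ℝ} (hf : TC f) (hg : TC g) :
    Integrable (fun p : V × V => f p.1 * (‖p.1 - p.2‖⁻¹ * g p.2)) (volume.prod volume) := by
  have hm : AEStronglyMeasurable (fun p : V × V => f p.1 * (‖p.1 - p.2‖⁻¹ * g p.2))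
      (volume.prod volume) := by
    have m1 : Measurable (fun p : V × V => ‖p.1 - p.2‖⁻¹) := by fun_prop
    exact ((hf.meas.comp measurable_fst).mul (m1.mul
      (hg.meas.comp measurable_snd))).aestronglyMeasurable
  rw [integrable_prod_iff hm]
  refine ⟨Eventually.of_forall fun x => (hg.pot_integrable x).const_mul (f x), ?_⟩
  refine (hf.int.mul_const (tcB g)).mono' hm.norm.integral_prod_right'
    (Eventually.of_forall fun x => ?_)
  rw [Real.norm_of_nonneg (integral_nonneg fun y => norm_nonneg _)]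
  have : ∫ y, ‖f x * (‖x - y‖⁻¹ * g y)‖ = f x * pot g x := by
    unfold pot
    rw [← integral_const_mul]
    refine integral_congr_ae (Eventually.of_forall fun y => ?_)
    simp only
    rw [Real.norm_of_nonneg]
    exact mul_nonneg (hf.nonneg x) (mul_nonneg (by positivity) (hg.nonneg y))
  simp only
  rw [this]
  exact mul_le_mul_of_nonneg_left (hg.pot_le x) (hf.nonneg x)

theorem TC.En_integrable {f g : V → ℝ} (hf : TC f) (hg : TC g) :
    Integrable (fun x => f x * pot g x) := by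
  have h := (hf.prod_integrable hg).integral_prod_left
  refine h.congr (Eventually.of_forall fun x => ?_)
  simp only
  rw [integral_const_mul]
  rfl

theorem TC.En_symm {f g : V → ℝ} (hf : TC f) (hg : TC g) : En f g = En g f := by
  unfold En pot
  simp_rw [← integral_const_mul]
  rw [integral_integral_swap (hf.prod_integrable hg)]
  refine integral_congr_ae (Eventually.of_forall fun x => ?_)
  refine integral_congr_ae (Eventually.of_forall fun y => ?_)
  simp only
  rw [norm_sub_rev]; ring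

/-- positivity of the energy of a difference -/
theorem TC.psd {f g : V → ℝ} (hf : TC f) (hg : TC g) : 2 * En f g ≤ En f f + En g g := by
  have hff := hf.prod_integrable hf
  have hfg := hf.prod_integrable hg
  have hgf := hg.prod_integrable hf
  have hgg := hg.prod_integrable hg
  have e1 : ∀ p : V × V, (f p.1 - g p.1) * (‖p.1 - p.2‖⁻¹ * (f p.2 - g p.2)) =
      f p.1 * (‖p.1 - p.2‖⁻¹ * f p.2) - f p.1 * (‖p.1 - p.2‖⁻¹ * g p.2) -
      g p.1 * (‖p.1 - p.2‖⁻¹ * f p.2) + g p.1 * (‖p.1 - p.2‖⁻¹ * g p.2) := fun p => by ring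
  have hI : Integrable (fun p : V × V => (f p.1 - g p.1) * (‖p.1 - p.2‖⁻¹ * (f p.2 - g p.2)))
      (volume.prod volume) := by
    simp_rw [e1]
    exact ((hff.sub hfg).sub hgf).add hgg
  have h := coulomb_psd (hf.meas.sub hg.meas) hI
  have h' : 0 ≤ ∫ x, ∫ y, (f x - g x) * (‖x - y‖⁻¹ * (f y - g y)) := h
  rw [← integral_prod (fun p : V × V => (f p.1 - g p.1) * (‖p.1 - p.2‖⁻¹ * (f p.2 - g p.2))) hI]
    at h'
  simp_rw [e1] at h'
  rw [integral_ssa hff hfg hgf hgg, integral_prod _ hff, integral_prod _ hfg, integral_prod _ hgf,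
    integral_prod _ hgg] at h'
  have e2 : ∀ a b : V → ℝ, (∫ x, ∫ y, a x * (‖x - y‖⁻¹ * b y)) = En a b := by
    intro a b
    unfold En pot
    simp_rw [← integral_const_mul]
  simp only [e2] at h'
  rw [hg.En_symm hf] at h'
  linarith

/-- the Thomas-Fermi functional with nuclear density `m` and chemical potential `-φ₀` -/
noncomputable def Ef (φ₀ : ℝ) (m σ : V → ℝ) : ℝ :=
  3 / 5 * (∫ x, σ x ^ (5 / 3 : ℝ)) + φ₀ * (∫ x, σ x) - (∫ x, σ x * pot m x) +
    1 / 2 * En σ σ + 1 / 2 * En m m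

/-- solutions of the Thomas-Fermi equation are minimizers -/
theorem Ef_min {m ρ σ : V → ℝ} {φ₀ : ℝ} (hm : BC m) (hρ : BC ρ) (hρ0 : ∀ x, 0 ≤ ρ x)
    (heq : ∀ x, ρ x = tf (pot (fun y => m y - ρ y) x - φ₀)) (hσ : TC σ) :
    Ef φ₀ m ρ ≤ Ef φ₀ m σ := by
  have hρT := hρ.toTC hρ0
  obtain ⟨B, hB⟩ := pot_bound (hm.sub hρ)
  set w : V → ℝ := fun x => pot (fun y => m y - ρ y) x - φ₀ with hw
  have hwm : Measurable w := (pot_continuous (hm.sub hρ)).measurable.sub measurable_const
  have hwb : ∀ x, |w x| ≤ B + |φ₀| := fun x => by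
    refine (abs_sub _ _).trans ?_
    have := hB x
    linarith
  obtain ⟨Bm, hBm⟩ := pot_bound hm
  have hIw : ∀ {s : V → ℝ}, TC s → Integrable (fun x => w x * s x) := by
    intro s hs
    exact hs.int.bdd_mul hwm.aestronglyMeasurable (Eventually.of_forall hwb)
  have hIm : ∀ {s : V → ℝ}, TC s → Integrable (fun x => s x * pot m x) := by
    intro s hs
    have h1 : Integrable (fun x => pot m x * s x) :=
      hs.int.bdd_mul (pot_continuous hm).measurable.aestronglyMeasurable
        (Eventually.of_forall hBm)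
    exact h1.congr (Eventually.of_forall fun x => by ring)
  have hkey : 3 / 5 * (∫ x, ρ x ^ (5 / 3 : ℝ)) - ∫ x, w x * ρ x ≤
      3 / 5 * (∫ x, σ x ^ (5 / 3 : ℝ)) - ∫ x, w x * σ x := by
    rw [← integral_const_mul, ← integral_const_mul, ← integral_sub (hρT.int53.const_mul _)
      (hIw hρT), ← integral_sub (hσ.int53.const_mul _) (hIw hσ)]
    refine integral_mono ((hρT.int53.const_mul _).sub (hIw hρT))
      ((hσ.int53.const_mul _).sub (hIw hσ)) fun x => ?_
    simp only
    have h1 := young_tf (w x) (hσ.nonneg x)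
    have h2 := young_tf_eq (w x)
    have h3 : ρ x = tf (w x) := heq x
    rw [h3]
    linarith
  -- expand the pairing with w
  have hexp : ∀ {s : V → ℝ}, TC s → ∫ x, w x * s x =
      (∫ x, s x * pot m x) - En s ρ - φ₀ * ∫ x, s x := by
    intro s hs
    have e1 : (fun x => w x * s x) = fun x => s x * pot m x - s x * pot ρ x - φ₀ * s x := by
      funext x
      simp only [hw]
      rw [pot_sub hm hρ]
      ring
    rw [e1, integral_sub2 (hIm hs) (hs.En_integrable hρT) (hs.int.const_mul _),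
      integral_const_mul]
    rfl
  rw [hexp hρT, hexp hσ] at hkey
  have hpsd := hσ.psd hρT
  unfold Ef
  linarith

end dim3

end Pool.Agent.TF
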