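import Pool.Agent.Lib.MP_9cf0c9_mp.GradBase

/-! Local asymptotics of the gradient trial near a nucleus, `b = r ^ (1/4)`. -/

set_option linter.unusedSectionVars false
set_option linter.unusedVariables false
set_option linter.style.haveILetI false

namespace Pool.Agent.TF.Grd
open MeasureTheory Set Metric Filter Topology
open scoped ENNReal NNReal RealInnerProductSpace Gradient

theorem tg_facts {q g t κ : ℝ} (hq : 0 < q) (ht : 0 < t) (htg : t ^ 2 * g = q)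
    (hg : |g - q| ≤ κ) (hκ : κ ≤ q / 2) :
    q / 2 ≤ g ∧ t ≤ 2 ∧ 1 / 2 ≤ t ∧ |t * g - q| ≤ 4 * κ ∧ q * |1 - t ^ 3| ≤ 14 * κ ∧
      t * g ≤ 2 * q := by
  have hκ0 : 0 ≤ κ := (abs_nonneg _).trans hg
  obtain ⟨g1, g2⟩ := abs_le.mp hg
  have hg0 : q / 2 ≤ g := by linarith
  have hgp : 0 < g := by linarith
  have hg3 : g ≤ 2 * q := by linarith
  have ht2 : t ^ 2 ≤ 2 := by
    have : t ^ 2 * (q / 2) ≤ q := by
      calc t ^ 2 * (q / 2) ≤ t ^ 2 * g := mul_le_mul_of_nonneg_left hg0 (by positivity)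
        _ = q := htg
    exact le_of_mul_le_mul_right (by linarith : t ^ 2 * (q / 2) ≤ 2 * (q / 2)) (by linarith)
  have ht3 : 1 / 2 ≤ t ^ 2 := by
    have : q ≤ t ^ 2 * (2 * q) := by
      calc q = t ^ 2 * g := htg.symm
        _ ≤ t ^ 2 * (2 * q) := mul_le_mul_of_nonneg_left hg3 (by positivity)
    exact le_of_mul_le_mul_right (by linarith : 1 / 2 * (2 * q) ≤ t ^ 2 * (2 * q)) (by linarith)
  have hta : t ≤ 2 := le_of_pow_le_pow_left₀ two_ne_zero (by norm_num) (by linarith : t ^ 2 ≤ 2 ^ 2)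
  have htb : 1 / 2 ≤ t :=
    le_of_pow_le_pow_left₀ two_ne_zero ht.le (by linarith : (1 / 2 : ℝ) ^ 2 ≤ t ^ 2)
  -- `q |1 - t| ≤ 2 κ`
  have e1 : g * ((1 - t) * (1 + t)) = g - q := by rw [← htg]; ring
  have e2 : g * |1 - t| ≤ κ := by
    have h1 : g * (|1 - t| * (1 + t)) = |g - q| := by
      rw [← e1, abs_mul, abs_mul, abs_of_pos hgp, abs_of_pos (by linarith : 0 < 1 + t)]
    have h2 : g * |1 - t| ≤ g * (|1 - t| * (1 + t)) := by
      refine mul_le_mul_of_nonneg_left ?_ hgp.le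
      exact le_mul_of_one_le_right (abs_nonneg _) (by linarith)
    linarith
  have e3 : q * |1 - t| ≤ 2 * κ := by
    have : q / 2 * |1 - t| ≤ g * |1 - t| := mul_le_mul_of_nonneg_right hg0 (abs_nonneg _)
    linarith
  refine ⟨hg0, hta, htb, ?_, ?_, ?_⟩
  · -- `t g - q = t g (1 - t)`
    have h1 : t * g - q = t * (g * (1 - t)) := by rw [← htg]; ring
    rw [h1, abs_mul, abs_mul, abs_of_pos ht, abs_of_pos hgp]
    have h2 : t * (g * |1 - t|) ≤ 2 * κ := mul_le_mul hta e2 (by positivity) (by norm_num)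
    linarith
  · have h1 : 1 - t ^ 3 = (1 - t) * (1 + t + t ^ 2) := by ring
    rw [h1, abs_mul, abs_of_pos (by positivity : 0 < 1 + t + t ^ 2)]
    have h2 : q * |1 - t| * (1 + t + t ^ 2) ≤ 2 * κ * 5 :=
      mul_le_mul e3 (by linarith) (by positivity) (by positivity)
    linarith
  · have h1 : t * (t * g) = q := by rw [← htg]; ring
    have h2 : 0 < t * g := mul_pos ht hgp
    linarith [mul_le_mul_of_nonneg_right htb h2.le]

/-- the data near a nucleus at `n = x - R i` with `‖n‖ = b ^ 4` -/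
structure NearD (q B b : ℝ) (n v : X) (T : X →L[ℝ] X) : Prop where
  b0 : 0 < b
  b1 : b ≤ 1
  hn : ‖n‖ = b ^ 4
  hv : ‖v + (q * (‖n‖ ^ 3)⁻¹) • n‖ ≤ B * (b ^ 3)⁻¹
  hT : ∀ u, ‖T u - q • hP 0 n u‖ ≤ B * (b ^ 7)⁻¹ * ‖u‖

section
variable {q B b : ℝ} {n v : X} {T : X →L[ℝ] X}

/-- scaled facts -/
theorem NearD.scaled (h : NearD q B b n v T) (hq : 0 < q) (hB : 0 ≤ B) :
    ∃ m : X, ‖m‖ = 1 ∧ n = b ^ 4 • m ∧ ‖b ^ 8 • v + q • m‖ ≤ B * b ^ 5 ∧
      ‖b ^ 20 • T v + (2 * q ^ 2) • m‖ ≤ (5 * q * B + B ^ 2) * b ^ 5 := by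
  obtain ⟨b0, b1, hn, hv, hT⟩ := h
  obtain ⟨m, hm⟩ : ∃ m : X, m = (b ^ 4)⁻¹ • n := ⟨_, rfl⟩
  have hm1 : ‖m‖ = 1 := by
    rw [hm, norm_smul, norm_inv, norm_pow, Real.norm_of_nonneg b0.le, hn]
    field_simp
  have hnm : n = b ^ 4 • m := by
    rw [hm, smul_smul, mul_inv_cancel₀ (by positivity), one_smul]
  -- scaled gradient
  set W : X := b ^ 8 • v + q • m with hW
  have hW1 : W = b ^ 8 • (v + (q * (‖n‖ ^ 3)⁻¹) • n) := by
    rw [hW, smul_add, hn, hm, smul_smul, smul_smul]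
    congr 2
    field_simp
  have hWb : ‖W‖ ≤ B * b ^ 5 := by
    rw [hW1, norm_smul, norm_pow, Real.norm_of_nonneg b0.le]
    calc b ^ 8 * ‖v + (q * (‖n‖ ^ 3)⁻¹) • n‖ ≤ b ^ 8 * (B * (b ^ 3)⁻¹) :=
          mul_le_mul_of_nonneg_left hv (by positivity)
      _ = B * b ^ 5 := by field_simp
  have hVW : b ^ 8 • v = W - q • m := by rw [hW]; abel
  have hVn : b ^ 8 * ‖v‖ ≤ q + B * b ^ 5 := by
    have h1 : ‖b ^ 8 • v‖ = b ^ 8 * ‖v‖ := by
      rw [norm_smul, norm_pow, Real.norm_of_nonneg b0.le]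
    rw [← h1, hVW]
    refine (norm_sub_le _ _).trans ?_
    rw [norm_smul, hm1, Real.norm_of_nonneg hq.le]
    linarith
  refine ⟨m, hm1, hnm, hWb, ?_⟩
  -- the exact part
  have hP1 : b ^ 20 • (q • hP 0 n v) = (q * 3 * ⟪m, b ^ 8 • v⟫) • m - q • (b ^ 8 • v) := by
    have e1 : ⟪n, v⟫ = b ^ 4 * ⟪m, v⟫ := by rw [hnm, real_inner_smul_left]
    have e2 : (3 * ((b ^ 4) ^ 5)⁻¹ * (b ^ 4 * ⟪m, v⟫)) • n =
        (3 * (b ^ 12)⁻¹ * ⟪m, v⟫) • m := by
      rw [hnm, smul_smul]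
      congr 1
      field_simp
    rw [hP_apply, sub_zero, hn, e1, e2, real_inner_smul_right]
    match_scalars <;> field_simp
  have hP2 : b ^ 20 • (q • hP 0 n v) + (2 * q ^ 2) • m =
      (q * 3 * ⟪m, W⟫) • m - q • W := by
    rw [hP1, hVW, inner_sub_right, real_inner_smul_right, real_inner_self_eq_norm_sq, hm1]
    module
  have hE : ‖b ^ 20 • (T v - q • hP 0 n v)‖ ≤ B * b ^ 5 * (q + B * b ^ 5) := by
    rw [norm_smul, norm_pow, Real.norm_of_nonneg b0.le]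
    calc b ^ 20 * ‖T v - q • hP 0 n v‖ ≤ b ^ 20 * (B * (b ^ 7)⁻¹ * ‖v‖) :=
          mul_le_mul_of_nonneg_left (hT v) (by positivity)
      _ = B * b ^ 5 * (b ^ 8 * ‖v‖) := by field_simp
      _ ≤ B * b ^ 5 * (q + B * b ^ 5) := mul_le_mul_of_nonneg_left hVn (by positivity)
  have hS : b ^ 20 • T v + (2 * q ^ 2) • m =
      b ^ 20 • (T v - q • hP 0 n v) + ((q * 3 * ⟪m, W⟫) • m - q • W) := by
    rw [← hP2, smul_sub]
    abel
  have hI : |⟪m, W⟫| ≤ ‖W‖ := by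
    refine (abs_real_inner_le_norm _ _).trans ?_
    rw [hm1, one_mul]
  have hR : ‖(q * 3 * ⟪m, W⟫) • m - q • W‖ ≤ 4 * q * (B * b ^ 5) := by
    refine (norm_sub_le _ _).trans ?_
    rw [norm_smul, norm_smul, hm1, mul_one, Real.norm_eq_abs, Real.norm_eq_abs, abs_mul, abs_mul,
      abs_of_pos hq, abs_of_pos (by norm_num : (0 : ℝ) < 3)]
    have h1 : q * 3 * |⟪m, W⟫| ≤ q * 3 * (B * b ^ 5) :=
      mul_le_mul_of_nonneg_left (hI.trans hWb) (by positivity)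
    have h2 : q * ‖W‖ ≤ q * (B * b ^ 5) := mul_le_mul_of_nonneg_left hWb hq.le
    linarith
  rw [hS]
  refine (norm_add_le _ _).trans ?_
  have hb5 : b ^ 5 ≤ 1 := pow_le_one₀ b0.le b1
  have h3 : B * b ^ 5 * (B * b ^ 5) ≤ B ^ 2 * b ^ 5 := by
    have : B ^ 2 * b ^ 5 * b ^ 5 ≤ B ^ 2 * b ^ 5 * 1 :=
      mul_le_mul_of_nonneg_left hb5 (by positivity)
    linarith
  linarith

/-- **asymptotics near a nucleus** -/
theorem NearD.main (h : NearD q B b n v T) (hq : 0 < q) (hB : 0 ≤ B) {ε : ℝ} (hε : 0 < ε)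
    (c : ℝ) (hb : (B + ε) * b ^ 5 ≤ q / 2) :
    q / 2 * (b ^ 8)⁻¹ ≤ Gm ε v ∧
    |√(q / Gm ε v) * Gm ε v - q * ‖n‖⁻¹| ≤ 4 * (B + ε) * b ∧
    ‖(√(q / Gm ε v) / (2 * Gm ε v)) • T v + (q * (‖n‖ ^ 3)⁻¹) • n‖ ≤
      (14 * (B + ε) + 2 * (5 * q * B + B ^ 2) / q) * (b ^ 3)⁻¹ ∧
    |2 * ‖n‖ ^ 2 * (√(q / Gm ε v) * Gm ε v - c) * ⟪v, ‖n‖⁻¹ • n⟫ -
        ‖n‖ ^ 2 * √(q / Gm ε v) ^ 2 * ⟪T v, ‖n‖⁻¹ • n⟫ - 2 * c * q| ≤
      (2 * |c| * B + 56 * q * (B + ε) + 4 * q * B + 4 * (5 * q * B + B ^ 2)) * b := by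
  have hh := h
  obtain ⟨b0, b1, hn, hv, hT⟩ := hh
  obtain ⟨m, hm1, hnm, hW, hTv⟩ := h.scaled hq hB
  set M : ℝ := 5 * q * B + B ^ 2 with hM
  have hM0 : 0 ≤ M := by positivity
  set G : ℝ := Gm ε v with hG
  have hG0 : 0 < G := Gm_pos hε v
  set s : ℝ := √(q / G) with hs
  have hs0 : 0 < s := Real.sqrt_pos.mpr (div_pos hq hG0)
  have hs2 : s ^ 2 = q / G := Real.sq_sqrt (by positivity)
  set g : ℝ := b ^ 8 * G with hg
  set t : ℝ := s / b ^ 4 with ht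
  have ht0 : 0 < t := by positivity
  have htg : t ^ 2 * g = q := by
    rw [ht, hg, div_pow, hs2]
    field_simp
  have hst : s = t * b ^ 4 := by rw [ht]; field_simp
  have hGg : G = g * (b ^ 8)⁻¹ := by rw [hg]; field_simp
  have hg0 : 0 < g := by positivity
  -- size of `g`
  have hb85 : b ^ 8 ≤ b ^ 5 := pow_le_pow_of_le_one b0.le b1 (by norm_num)
  have hVn : |b ^ 8 * ‖v‖ - q| ≤ B * b ^ 5 := by
    have h1 : ‖b ^ 8 • v‖ = b ^ 8 * ‖v‖ := by
      rw [norm_smul, norm_pow, Real.norm_of_nonneg b0.le]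
    have h2 : ‖-(q • m)‖ = q := by rw [norm_neg, norm_smul, hm1, Real.norm_of_nonneg hq.le, mul_one]
    have h3 := abs_norm_sub_norm_le (b ^ 8 • v) (-(q • m))
    rw [h1, h2, sub_neg_eq_add] at h3
    exact h3.trans hW
  have hGv : ‖v‖ ≤ G := le_Gm ε v
  have hGv2 : G ≤ ‖v‖ + ε := by
    have h1 : G ^ 2 = ‖v‖ ^ 2 + ε ^ 2 := Gm_sq ε v
    have h2 := norm_nonneg v
    refine le_of_pow_le_pow_left₀ two_ne_zero (by positivity) ?_
    rw [h1]
    linarith [mul_nonneg h2 hε.le]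
  have hgq : |g - q| ≤ (B + ε) * b ^ 5 := by
    obtain ⟨p1, p2⟩ := abs_le.mp hVn
    have h1 : b ^ 8 * ‖v‖ ≤ g := mul_le_mul_of_nonneg_left hGv (by positivity)
    have h2 : g ≤ b ^ 8 * ‖v‖ + b ^ 8 * ε := by
      rw [hg, ← mul_add]
      exact mul_le_mul_of_nonneg_left hGv2 (by positivity)
    have h3 : b ^ 8 * ε ≤ b ^ 5 * ε := mul_le_mul_of_nonneg_right hb85 hε.le
    rw [abs_le]
    have h4 := mul_nonneg hε.le (by positivity : 0 ≤ b ^ 5)
    clear hb hTv hT hW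
    constructor <;> linarith
  obtain ⟨k1, k2, k3, k4, k5, k6⟩ := tg_facts hq ht0 htg hgq hb
  have hb8 : 0 < (b ^ 8)⁻¹ := by positivity
  refine ⟨?_, ?_, ?_, ?_⟩
  · rw [hGg]
    exact mul_le_mul_of_nonneg_right k1 hb8.le
  · have e1 : s * G - q * ‖n‖⁻¹ = (t * g - q) * (b ^ 4)⁻¹ := by
      rw [hst, hGg, hn]
      field_simp
    rw [e1, abs_mul, abs_of_pos (by positivity : 0 < (b ^ 4)⁻¹)]
    calc |t * g - q| * (b ^ 4)⁻¹ ≤ 4 * ((B + ε) * b ^ 5) * (b ^ 4)⁻¹ :=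
          mul_le_mul_of_nonneg_right k4 (by positivity)
      _ = 4 * (B + ε) * b := by field_simp
  · have e1 : (s / (2 * G)) • T v + (q * (‖n‖ ^ 3)⁻¹) • n =
        (b ^ 8)⁻¹ • ((q * (1 - t ^ 3)) • m +
          (t / (2 * g)) • (b ^ 20 • T v + (2 * q ^ 2) • m)) := by
      rw [hst, hn]
      nth_rw 1 [hGg]
      rw [smul_add, smul_add, smul_add, smul_smul, smul_smul, smul_smul, smul_smul, smul_smul]
      have e2 : t * b ^ 4 / (2 * (g * (b ^ 8)⁻¹)) = (b ^ 8)⁻¹ * (t / (2 * g)) * b ^ 20 := by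
        field_simp
      have e3 : (q * ((b ^ 4) ^ 3)⁻¹) • n = ((b ^ 8)⁻¹ * q) • m := by
        rw [hnm, smul_smul]
        congr 1
        field_simp
      have e4 : (b ^ 8)⁻¹ * (q * (1 - t ^ 3)) + (b ^ 8)⁻¹ * (t / (2 * g) * (2 * q ^ 2)) =
          (b ^ 8)⁻¹ * q := by
        have e5 : t / (2 * g) * (2 * q ^ 2) = q * t ^ 3 := by
          rw [div_mul_eq_mul_div, div_eq_iff (by positivity)]
          nth_rw 1 [← htg]
          rw [← htg]
          ring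
        rw [e5]
        ring
      rw [e2, e3, ← e4]
      module
    have e6 : ‖(q * (1 - t ^ 3)) • m +
        (t / (2 * g)) • (b ^ 20 • T v + (2 * q ^ 2) • m)‖ ≤
        14 * ((B + ε) * b ^ 5) + 2 / q * (M * b ^ 5) := by
      refine (norm_add_le _ _).trans (add_le_add ?_ ?_)
      · rw [norm_smul, hm1, mul_one, Real.norm_eq_abs, abs_mul, abs_of_pos hq]
        exact k5
      · rw [norm_smul, Real.norm_of_nonneg (by positivity)]
        refine mul_le_mul ?_ hTv (norm_nonneg _) (by positivity)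
        rw [div_le_div_iff₀ (by positivity) hq]
        have h1 := mul_le_mul_of_nonneg_right k2 hq.le
        clear hb hTv hT hW hgq htg
        linarith
    rw [e1, norm_smul, Real.norm_of_nonneg hb8.le]
    calc (b ^ 8)⁻¹ * _ ≤ (b ^ 8)⁻¹ * (14 * ((B + ε) * b ^ 5) + 2 / q * (M * b ^ 5)) :=
          mul_le_mul_of_nonneg_left e6 hb8.le
      _ = (14 * (B + ε) + 2 * M / q) * (b ^ 3)⁻¹ := by field_simp
  · have hnn : ‖n‖⁻¹ • n = m := by
      rw [hn, hnm, smul_smul, inv_mul_cancel₀ (by positivity), one_smul]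
    set ω : ℝ := ⟪b ^ 8 • v + q • m, m⟫ with hω
    set e : ℝ := ⟪b ^ 20 • T v + (2 * q ^ 2) • m, m⟫ with he
    have hmm : ⟪m, m⟫ = 1 := by rw [real_inner_self_eq_norm_sq, hm1]; norm_num
    have hω1 : |ω| ≤ B * b ^ 5 := by
      refine (abs_real_inner_le_norm _ _).trans ?_
      rw [hm1, mul_one]
      exact hW
    have he1 : |e| ≤ M * b ^ 5 := by
      refine (abs_real_inner_le_norm _ _).trans ?_
      rw [hm1, mul_one]
      exact hTv
    have i1 : ⟪v, m⟫ = (b ^ 8)⁻¹ * (ω - q) := by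
      have : ω = b ^ 8 * ⟪v, m⟫ + q := by
        rw [hω, inner_add_left, real_inner_smul_left, real_inner_smul_left, hmm, mul_one]
      rw [this]
      field_simp
      ring
    have i2 : ⟪T v, m⟫ = (b ^ 20)⁻¹ * (e - 2 * q ^ 2) := by
      have : e = b ^ 20 * ⟪T v, m⟫ + 2 * q ^ 2 := by
        rw [he, inner_add_left, real_inner_smul_left, real_inner_smul_left, hmm, mul_one]
      rw [this]
      field_simp
      ring
    have i3 : t * g * t = q := by rw [← htg]; ring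
    have e1 : 2 * ‖n‖ ^ 2 * (s * G - c) * ⟪v, ‖n‖⁻¹ • n⟫ -
        ‖n‖ ^ 2 * s ^ 2 * ⟪T v, ‖n‖⁻¹ • n⟫ - 2 * c * q =
        -(2 * c * ω) + (b ^ 4)⁻¹ * (2 * (t * g) * ω - t ^ 2 * e +
          2 * (t * g) * (q * (t ^ 3 - 1))) := by
      rw [hnn, i1, i2, hn, hst, hGg]
      have e2 : 2 * (t * g) * (q * (t ^ 3 - 1)) = 2 * q ^ 2 * t ^ 2 - 2 * (t * g) * q := by
        calc 2 * (t * g) * (q * (t ^ 3 - 1)) = 2 * q * t ^ 2 * (t * g * t) - 2 * (t * g) * q := by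
              ring
          _ = _ := by rw [i3]; ring
      rw [e2]
      field_simp
      ring
    rw [e1]
    have j0 : 0 < t * g := by positivity
    have j1 : |-(2 * c * ω)| ≤ 2 * |c| * (B * b ^ 5) := by
      rw [abs_neg, abs_mul, abs_mul, abs_of_pos (by norm_num : (0 : ℝ) < 2)]
      exact mul_le_mul_of_nonneg_left hω1 (by positivity)
    have j2 : |2 * (t * g) * ω| ≤ 2 * (2 * q) * (B * b ^ 5) := by
      rw [abs_mul, abs_of_pos (by positivity : 0 < 2 * (t * g))]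
      exact mul_le_mul (by linarith) hω1 (abs_nonneg _) (by positivity)
    have j3 : |t ^ 2 * e| ≤ 4 * (M * b ^ 5) := by
      rw [abs_mul, abs_of_pos (by positivity : 0 < t ^ 2)]
      have h1 : t ^ 2 ≤ 4 := by
        calc t ^ 2 ≤ 2 ^ 2 := pow_le_pow_left₀ ht0.le k2 2
          _ = 4 := by norm_num
      exact mul_le_mul h1 he1 (abs_nonneg _) (by norm_num)
    have j4 : |2 * (t * g) * (q * (t ^ 3 - 1))| ≤ 2 * (2 * q) * (14 * ((B + ε) * b ^ 5)) := by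
      rw [abs_mul, abs_of_pos (by positivity : 0 < 2 * (t * g)), abs_mul, abs_of_pos hq,
        abs_sub_comm]
      exact mul_le_mul (by linarith) k5 (by positivity) (by positivity)
    have j5 : |2 * (t * g) * ω - t ^ 2 * e + 2 * (t * g) * (q * (t ^ 3 - 1))| ≤
        2 * (2 * q) * (B * b ^ 5) + 4 * (M * b ^ 5) + 2 * (2 * q) * (14 * ((B + ε) * b ^ 5)) := by
      refine (abs_add_le _ _).trans (add_le_add ((abs_sub _ _).trans (add_le_add j2 j3)) j4)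
    refine (abs_add_le _ _).trans ?_
    rw [abs_mul, abs_of_pos (by positivity : 0 < (b ^ 4)⁻¹)]
    have j6 := mul_le_mul_of_nonneg_left j5 (by positivity : 0 ≤ (b ^ 4)⁻¹)
    have j7 : (b ^ 4)⁻¹ * (2 * (2 * q) * (B * b ^ 5) + 4 * (M * b ^ 5) +
        2 * (2 * q) * (14 * ((B + ε) * b ^ 5))) =
        (4 * q * B + 4 * M + 56 * q * (B + ε)) * b := by
      field_simp
      ring
    have hb51 : b ^ 5 ≤ b := by
      calc b ^ 5 = b * b ^ 4 := by ring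
        _ ≤ b * 1 := mul_le_mul_of_nonneg_left (pow_le_one₀ b0.le b1) b0.le
        _ = b := mul_one b
    have j8 : 2 * |c| * (B * b ^ 5) ≤ 2 * |c| * B * b := by
      have := mul_le_mul_of_nonneg_left hb51 (by positivity : 0 ≤ 2 * |c| * B)
      linarith
    rw [j7] at j6
    linarith

end

end Pool.Agent.TF.Grd
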