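import Pool.Agent.Lib.MP_9cf0c9_mp.Soft
import Pool.Agent.Lib.MP_9cf0c9_mp.Compare

/-! Dirichlet energy of potentials, the weak Poisson equation for trial functions which are
bounded, vanish at infinity and are locally Lipschitz off a finite set. -/

set_option linter.unusedSectionVars false
set_option linter.unusedVariables false
set_option linter.style.haveILetI false

namespace Pool.Agent.TF
open MeasureTheory Set Metric Filter Topology
open scoped ENNReal NNReal RealInnerProductSpace Gradient

/-- a version of Fatou's lemma -/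
theorem fatou_int {α : Type*} [MeasurableSpace α] {μ : Measure α} {F : α → ℝ} {Fn : ℕ → α → ℝ}
    {M : ℝ} (hi : ∀ n, Integrable (Fn n) μ) (h0 : ∀ n, ∀ᵐ x ∂μ, 0 ≤ Fn n x)
    (ht : ∀ᵐ x ∂μ, Tendsto (fun n => Fn n x) atTop (𝓝 (F x))) (hM : ∀ n, ∫ x, Fn n x ∂μ ≤ M) :
    Integrable F μ ∧ ∫ x, F x ∂μ ≤ M := by
  have hm : AEStronglyMeasurable F μ :=
    aestronglyMeasurable_of_tendsto_ae atTop (fun n => (hi n).aestronglyMeasurable) ht
  have hF0 : ∀ᵐ x ∂μ, 0 ≤ F x := by
    have h0' := ae_all_iff.mpr h0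
    filter_upwards [ht, h0'] with x hx hx0
    exact ge_of_tendsto' hx hx0
  have hM0 : 0 ≤ M := (integral_nonneg_of_ae (h0 0)).trans (hM 0)
  have h1 : ∫⁻ x, ENNReal.ofReal (F x) ∂μ ≤ ENNReal.ofReal M := by
    have h2 : ∫⁻ x, ENNReal.ofReal (F x) ∂μ =
        ∫⁻ x, liminf (fun n => ENNReal.ofReal (Fn n x)) atTop ∂μ := by
      refine lintegral_congr_ae ?_
      filter_upwards [ht] with x hx
      exact ((ENNReal.continuous_ofReal.tendsto _).comp hx).liminf_eq.symm
    rw [h2]
    refine (lintegral_liminf_le' fun n => (hi n).aestronglyMeasurable.aemeasurable.ennreal_ofReal).trans ?_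
    refine liminf_le_of_frequently_le' (Eventually.of_forall fun n => ?_).frequently
    rw [← ofReal_integral_eq_lintegral_ofReal (hi n) (h0 n)]
    exact ENNReal.ofReal_le_ofReal (hM n)
  have hint : Integrable F μ := by
    refine ⟨hm, ?_⟩
    rw [hasFiniteIntegral_iff_ofReal hF0]
    exact h1.trans_lt ENNReal.ofReal_lt_top
  refine ⟨hint, ?_⟩
  rw [← ofReal_integral_eq_lintegral_ofReal hint hF0] at h1
  exact (ENNReal.ofReal_le_ofReal_iff hM0).mp h1

variable {V : Type*} [NormedAddCommGroup V] [InnerProductSpace ℝ V] [FiniteDimensional ℝ V]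
  [MeasurableSpace V] [BorelSpace V]

section dim3
variable [hd : Fact (Module.finrank ℝ V = 3)]

theorem gradient_pot {f : V → ℝ} (hf : BC f) (x : V) : ∇ (pot f) x = gradV f x :=
  (hasGradientAt_pot hf x).gradient

theorem pot_lipschitz {f : V → ℝ} (hf : BC f) : ∃ C, LipschitzWith C (pot f) := by
  obtain ⟨B, hB⟩ := gradV_bound hf
  have hB0 : 0 ≤ B := (norm_nonneg _).trans (hB 0)
  refine ⟨B.toNNReal, lipschitzWith_of_nnnorm_fderiv_le
    (fun x => (hasGradientAt_pot hf x).differentiableAt) fun x => ?_⟩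
  rw [← NNReal.coe_le_coe, coe_nnnorm, ← norm_gradient, gradient_pot hf,
    Real.coe_toNNReal _ hB0]
  exact hB x

/-- Dirichlet energy of the potential of a bounded density -/
theorem energy_BC {f : V → ℝ} (hf : BC f) :
    Integrable (fun x => ‖gradV f x‖ ^ 2) ∧ ∫ x, ‖gradV f x‖ ^ 2 = 4 * Real.pi * En f f := by
  set k := pot f with hk
  obtain ⟨C, hC⟩ := pot_lipschitz hf
  have hkc : Continuous k := hC.continuous
  set d : ℕ → ℝ := fun n => 1 / ((n : ℝ) + 1) with hdn
  have hd0 : ∀ n, 0 < d n := fun n => by positivity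
  have hdl : Tendsto d atTop (𝓝 0) := tendsto_one_div_add_atTop_nhds_zero_nat
  set u : ℕ → V → ℝ := fun n x => soft (d n) (k x) with hu
  have hul : ∀ n, LipschitzWith (1 * C) (u n) := fun n => (soft_lipschitz (hd0 n).le).comp hC
  have huc : ∀ n, HasCompactSupport (u n) := by
    intro n
    obtain ⟨R', hR'⟩ := pot_decay hf (hd0 n)
    refine HasCompactSupport.intro (isCompact_closedBall (0 : V) R') fun x hx => ?_
    rw [mem_closedBall_zero_iff, not_le] at hx
    exact soft_eq_zero (hR' x hx.le).le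
  have hw : ∀ n, Integrable (fun x => ⟪gradV f x, ∇ (u n) x⟫) ∧
      ∫ x, ⟪gradV f x, ∇ (u n) x⟫ = 4 * Real.pi * ∫ x, f x * u n x := fun n =>
    weak_poisson hf.integrable hf.meas (hul n) (huc n)
  have hdiff : ∀ x, DifferentiableAt ℝ k x := fun x => (hasGradientAt_pot hf x).differentiableAt
  have hlev : ∀ n : ℕ, ∀ᵐ x : V, |k x| = d n → ∇ k x = 0 := by
    intro n
    filter_upwards [ae_level hkc.measurable (d n), ae_level hkc.measurable (-d n)] with x h1 h2 h3
    rcases (abs_eq (hd0 n).le).mp h3 with h | h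
    · exact h1 h (hdiff x)
    · exact h2 h (hdiff x)
  have hlev0 : ∀ᵐ x : V, k x = 0 → ∇ k x = 0 := by
    filter_upwards [ae_level hkc.measurable 0] with x h1 h2
    exact h1 h2 (hdiff x)
  have hg : ∀ n, ∀ᵐ x : V, 0 ≤ ⟪gradV f x, ∇ (u n) x⟫ ∧
      ⟪gradV f x, ∇ (u n) x⟫ ≤ ‖gradV f x‖ ^ 2 := by
    intro n
    filter_upwards [hlev n] with x hx
    have hG : gradV f x = ∇ k x := (gradient_pot hf x).symm
    rcases lt_trichotomy (|k x|) (d n) with h | h | h
    · rw [hu]
      simp only
      rw [gradient_soft_zero hkc.continuousAt h, inner_zero_right]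
      exact ⟨le_rfl, by positivity⟩
    · rw [hG, hx h, inner_zero_left]
      exact ⟨le_rfl, by positivity⟩
    · rw [hu]
      simp only
      rw [gradient_soft_eq (hd0 n).le hkc.continuousAt h, ← hG, real_inner_self_eq_norm_sq]
      exact ⟨by positivity, le_rfl⟩
  have htend : ∀ᵐ x : V, Tendsto (fun n => ⟪gradV f x, ∇ (u n) x⟫) atTop (𝓝 (‖gradV f x‖ ^ 2)) := by
    filter_upwards [hlev0] with x hx
    have hG : gradV f x = ∇ k x := (gradient_pot hf x).symm
    by_cases h0 : k x = 0
    · rw [hG, hx h0]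
      simp only [inner_zero_left, norm_zero]
      rw [zero_pow two_ne_zero]
      exact tendsto_const_nhds
    · have h1 : ∀ᶠ n in atTop, d n < |k x| := hdl.eventually (gt_mem_nhds (abs_pos.mpr h0))
      refine tendsto_const_nhds.congr' ?_
      filter_upwards [h1] with n hn
      rw [hu]
      simp only
      rw [gradient_soft_eq (hd0 n).le hkc.continuousAt hn, ← hG, real_inner_self_eq_norm_sq]
  have hfk : Integrable (fun x => f x * k x) := En_integrable hf hf
  have hb : ∀ n, ∫ x, ⟪gradV f x, ∇ (u n) x⟫ ≤ 4 * Real.pi * ∫ x, |f x * k x| := by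
    intro n
    rw [(hw n).2]
    refine mul_le_mul_of_nonneg_left ?_ (by positivity)
    refine (le_abs_self _).trans ((abs_integral_le_integral_abs).trans ?_)
    refine integral_mono_of_nonneg (Eventually.of_forall fun x => abs_nonneg _) hfk.abs
      (Eventually.of_forall fun x => ?_)
    simp only
    rw [abs_mul, abs_mul]
    exact mul_le_mul_of_nonneg_left (soft_abs_le (hd0 n).le _) (abs_nonneg _)
  have hF := fatou_int (fun n => (hw n).1) (fun n => (hg n).mono fun x h => h.1) htend hb
  refine ⟨hF.1, ?_⟩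
  have hT1 : Tendsto (fun n => ∫ x, ⟪gradV f x, ∇ (u n) x⟫) atTop (𝓝 (∫ x, ‖gradV f x‖ ^ 2)) := by
    refine tendsto_integral_of_dominated_convergence (fun x => ‖gradV f x‖ ^ 2)
      (fun n => (hw n).1.aestronglyMeasurable) hF.1 (fun n => ?_) htend
    filter_upwards [hg n] with x hx
    rw [Real.norm_of_nonneg hx.1]
    exact hx.2
  have hT2 : Tendsto (fun n => ∫ x, f x * u n x) atTop (𝓝 (∫ x, f x * k x)) := by
    refine tendsto_integral_of_dominated_convergence (fun x => |f x * k x|)
      (fun n => (hf.meas.mul (hul n).continuous.measurable).aestronglyMeasurable) hfk.abs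
      (fun n => Eventually.of_forall fun x => ?_) (Eventually.of_forall fun x => ?_)
    · rw [Real.norm_eq_abs, abs_mul, abs_mul]
      exact mul_le_mul_of_nonneg_left (soft_abs_le (hd0 n).le _) (abs_nonneg _)
    · refine Tendsto.const_mul _ ?_
      rw [tendsto_iff_dist_tendsto_zero]
      refine squeeze_zero (fun n => dist_nonneg) (fun n => ?_) hdl
      rw [Real.dist_eq]
      exact soft_sub_le (hd0 n).le _
  have h3 := hT2.const_mul (4 * Real.pi)
  have h4 : (fun n => ∫ x, ⟪gradV f x, ∇ (u n) x⟫) = fun n => 4 * Real.pi * ∫ x, f x * u n x :=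
    funext fun n => (hw n).2
  rw [h4] at hT1
  exact tendsto_nhds_unique hT1 h3

/-- Dirichlet energy of the potential of an admissible density -/
theorem energy_TC_le {f : V → ℝ} (hf : TC f) :
    Integrable (fun x => ‖gradV f x‖ ^ 2) ∧ ∫ x, ‖gradV f x‖ ^ 2 ≤ 4 * Real.pi * En f f := by
  have hB : ∀ n, BC (trunc f n) := trunc_BC hf.meas hf.nonneg
  have ht : ∀ᵐ x : V, Tendsto (fun n => ‖gradV (trunc f n) x‖ ^ 2) atTop
      (𝓝 (‖gradV f x‖ ^ 2)) := by
    filter_upwards [ae_GI hf.int hf.meas] with x hx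
    have h1 : Tendsto (fun n => gradV (trunc f n) x) atTop (𝓝 (gradV f x)) := by
      unfold gradV
      refine Tendsto.neg ?_
      refine tendsto_integral_of_dominated_convergence
        (fun y => ‖f y • ((‖x - y‖ ^ 3)⁻¹ • (x - y))‖) (fun n => ?_) hx.norm
        (fun n => Eventually.of_forall fun y => ?_) (Eventually.of_forall fun y => ?_)
      · exact ((hB n).meas.smul (measurable_kv.comp
          (measurable_const.sub measurable_id))).aestronglyMeasurable
      · rw [norm_smul, norm_smul (f y)]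
        refine mul_le_mul_of_nonneg_right ?_ (norm_nonneg _)
        rw [Real.norm_of_nonneg (trunc_nonneg hf.nonneg n y), Real.norm_of_nonneg (hf.nonneg y)]
        exact trunc_le hf.nonneg n y
      · exact (trunc_tendsto f y).smul_const _
    exact h1.norm.pow 2
  refine fatou_int (fun n => (energy_BC (hB n)).1)
    (fun n => Eventually.of_forall fun x => by positivity) ht fun n => ?_
  rw [(energy_BC (hB n)).2]
  refine mul_le_mul_of_nonneg_left ?_ (by positivity)
  have hT : TC (trunc f n) := (hB n).toTC (trunc_nonneg hf.nonneg n)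
  unfold En
  refine integral_mono (hT.En_integrable hT) (hf.En_integrable hf) fun x => ?_
  simp only
  have h1 : pot (trunc f n) x ≤ pot f x := by
    unfold pot
    refine integral_mono (hT.pot_integrable x) (hf.pot_integrable x) fun y => ?_
    exact mul_le_mul_of_nonneg_left (trunc_le hf.nonneg n y) (by positivity)
  exact mul_le_mul (trunc_le hf.nonneg n x) h1 (pot_nonneg (trunc_nonneg hf.nonneg n) x)
    (hf.nonneg x)

/-! ### trial functions -/

/-- bounded functions vanishing at infinity, locally Lipschitz off `S`, with square integrable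
gradient `k'` -/
structure TrialK (S : Set V) (k : V → ℝ) (k' : V → V) : Prop where
  bdd : ∃ B, ∀ x, |k x| ≤ B
  decay : ∀ ε : ℝ, 0 < ε → ∃ r, ∀ x, r ≤ ‖x‖ → |k x| < ε
  cont : Continuous k
  lip : ∀ x, x ∉ S → LipAt k x
  grad : ∀ᵐ x : V, HasGradientAt k (k' x) x
  sq : Integrable (fun x => ‖k' x‖ ^ 2)

theorem TrialK.mono {S T : Set V} {k : V → ℝ} {k' : V → V} (h : TrialK S k k') (hST : S ⊆ T) :
    TrialK T k k' :=
  ⟨h.bdd, h.decay, h.cont, fun x hx => h.lip x fun hx' => hx (hST hx'), h.grad, h.sq⟩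

theorem TrialK.ae_eq {S : Set V} {k : V → ℝ} {k' : V → V} (h : TrialK S k k') :
    (fun x => ∇ k x) =ᵐ[volume] k' := by
  filter_upwards [h.grad] with x hx
  exact hx.gradient

theorem TrialK.meas {S : Set V} {k : V → ℝ} {k' : V → V} (h : TrialK S k k') :
    AEStronglyMeasurable k' volume :=
  (measurable_gradient k).aestronglyMeasurable.congr h.ae_eq

/-- cut-off near a set -/
noncomputable def cut (S : Set V) (ε : ℝ) (x : V) : ℝ := max 0 (min 1 (infDist x S / ε - 1))

/-- the weight dominating the gradients of the cut-offs -/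
noncomputable def cW (S : Set V) (x : V) : ℝ :=
  {x : V | infDist x S ≤ 2}.indicator (fun x => (infDist x S)⁻¹) x

theorem cut_lip (S : Set V) {ε : ℝ} (hε : 0 < ε) : LipschitzWith (ε⁻¹).toNNReal (cut S ε) := by
  refine LipschitzWith.of_dist_le_mul fun x y => ?_
  rw [Real.coe_toNNReal _ (by positivity), Real.dist_eq]
  unfold cut
  have h1 : |infDist x S - infDist y S| ≤ dist x y := by
    have := (lipschitz_infDist_pt S).dist_le_mul x y
    rwa [NNReal.coe_one, one_mul, Real.dist_eq] at this
  have h2 : ∀ a b : ℝ, |max 0 (min 1 a) - max 0 (min 1 b)| ≤ |a - b| := by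
    intro a b
    refine (abs_max_sub_max_le_max _ _ _ _).trans ?_
    rw [sub_self, abs_zero, max_eq_right (abs_nonneg _)]
    refine (abs_min_sub_min_le_max _ _ _ _).trans ?_
    rw [sub_self, abs_zero, max_eq_right (abs_nonneg _)]
  refine (h2 _ _).trans ?_
  have e1 : infDist x S / ε - 1 - (infDist y S / ε - 1) = ε⁻¹ * (infDist x S - infDist y S) := by
    field_simp
    ring
  rw [e1, abs_mul, abs_of_pos (by positivity)]
  exact mul_le_mul_of_nonneg_left h1 (by positivity)

theorem cut_nonneg (S : Set V) (ε : ℝ) (x : V) : 0 ≤ cut S ε x := le_max_left _ _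

theorem cut_le_one (S : Set V) (ε : ℝ) (x : V) : cut S ε x ≤ 1 :=
  max_le zero_le_one (min_le_left _ _)

theorem cut_eq_zero {S : Set V} {ε : ℝ} (hε : 0 < ε) {x : V} (h : infDist x S ≤ ε) :
    cut S ε x = 0 := by
  unfold cut
  refine max_eq_left ((min_le_right _ _).trans ?_)
  rw [sub_nonpos, div_le_one hε]
  exact h

theorem cut_eq_one {S : Set V} {ε : ℝ} (hε : 0 < ε) {x : V} (h : 2 * ε ≤ infDist x S) :
    cut S ε x = 1 := by
  unfold cut
  have h1 : 1 ≤ infDist x S / ε - 1 := by
    rw [le_sub_iff_add_le, le_div_iff₀ hε]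
    linarith
  rw [min_eq_left h1, max_eq_right zero_le_one]

theorem cut_gradient {S : Set V} {ε : ℝ} (hε : 0 < ε) (hε1 : ε ≤ 1) {x : V} :
    ‖∇ (cut S ε) x‖ ≤ 2 * cW S x := by
  have hc : Continuous fun y : V => infDist y S := continuous_infDist_pt S
  have hW0 : 0 ≤ cW S x := indicator_nonneg (fun _ _ => inv_nonneg.mpr infDist_nonneg) _
  rcases lt_or_ge (infDist x S) ε with h | h
  · have h1 : cut S ε =ᶠ[𝓝 x] fun _ => 0 := by
      filter_upwards [hc.continuousAt.eventually (gt_mem_nhds h)] with y hy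
      exact cut_eq_zero hε hy.le
    rw [h1.gradient_eq]
    simp only [gradient, fderiv_fun_const, Pi.zero_apply, map_zero, norm_zero]
    positivity
  rcases lt_or_ge (2 * ε) (infDist x S) with h2 | h2
  · have h1 : cut S ε =ᶠ[𝓝 x] fun _ => 1 := by
      filter_upwards [hc.continuousAt.eventually (lt_mem_nhds h2)] with y hy
      exact cut_eq_one hε hy.le
    rw [h1.gradient_eq]
    simp only [gradient, fderiv_fun_const, Pi.zero_apply, map_zero, norm_zero]
    positivity
  · refine (gradient_bound (cut_lip S hε) x).trans ?_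
    rw [Real.coe_toNNReal _ (by positivity)]
    have h3 : x ∈ {x : V | infDist x S ≤ 2} := by
      change infDist x S ≤ 2; linarith
    unfold cW
    rw [indicator_of_mem h3]
    have h4 : 0 < infDist x S := hε.trans_le h
    rw [← div_eq_mul_inv, inv_le_comm₀ hε (by positivity), inv_div]
    linarith

/-- approximation of trial functions by Lipschitz functions with compact support vanishing
near `S` -/
noncomputable def apx (S : Set V) (k : V → ℝ) (n : ℕ) (x : V) : ℝ :=
  cut S (1 / ((n : ℝ) + 1)) x * soft (1 / ((n : ℝ) + 1)) (k x)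

theorem apx_lip {S : Set V} (hS : IsClosed S) (hne : S.Nonempty) {k : V → ℝ} {k' : V → V}
    (hk : TrialK S k k') (n : ℕ) :
    (∃ C, LipschitzWith C (apx S k n)) ∧ HasCompactSupport (apx S k n) := by
  set d : ℝ := 1 / ((n : ℝ) + 1) with hd'
  have hd0 : 0 < d := by positivity
  obtain ⟨r, hr⟩ := hk.decay d hd0
  refine lipschitz_of_compact (R := max r 1) (fun x => ?_) (by positivity) fun x hx => ?_
  · by_cases hx : x ∈ S
    · have h1 : infDist x S = 0 := infDist_zero_of_mem hx
      have h2 : apx S k n =ᶠ[𝓝 x] fun _ => 0 := by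
        have hc : Continuous fun y : V => infDist y S := continuous_infDist_pt S
        have h3 : infDist x S < d := by rw [h1]; exact hd0
        filter_upwards [hc.continuousAt.eventually (gt_mem_nhds h3)] with y hy
        unfold apx
        rw [cut_eq_zero hd0 hy.le, zero_mul]
      exact (LipAt.const 0 x).congr h2.symm
    · exact (lipAt_of_lip (cut_lip S hd0) x).mul ((hk.lip x hx).comp_lip (soft_lipschitz hd0.le))
  · unfold apx
    rw [soft_eq_zero (hr x ((le_max_left _ _).trans hx)).le, mul_zero]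

theorem apx_abs_le {S : Set V} {k : V → ℝ} (n : ℕ) (x : V) : |apx S k n x| ≤ |k x| := by
  unfold apx
  rw [abs_mul, abs_of_nonneg (cut_nonneg _ _ _)]
  calc cut S (1 / ((n : ℝ) + 1)) x * |soft (1 / ((n : ℝ) + 1)) (k x)| ≤ 1 * |k x| :=
        mul_le_mul (cut_le_one _ _ _) (soft_abs_le (by positivity) _) (abs_nonneg _) zero_le_one
    _ = _ := one_mul _

theorem apx_tendsto {S : Set V} (hS : IsClosed S) (hne : S.Nonempty) (k : V → ℝ) {x : V}
    (hx : x ∉ S) : Tendsto (fun n => apx S k n x) atTop (𝓝 (k x)) := by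
  have hdl : Tendsto (fun n : ℕ => 1 / ((n : ℝ) + 1)) atTop (𝓝 0) :=
    tendsto_one_div_add_atTop_nhds_zero_nat
  have hpos : 0 < infDist x S := (hS.notMem_iff_infDist_pos hne).mp hx
  have h1 : ∀ᶠ n : ℕ in atTop, 1 / ((n : ℝ) + 1) < infDist x S / 2 :=
    hdl.eventually (gt_mem_nhds (half_pos hpos))
  have h2 : Tendsto (fun n : ℕ => soft (1 / ((n : ℝ) + 1)) (k x)) atTop (𝓝 (k x)) := by
    rw [tendsto_iff_dist_tendsto_zero]
    refine squeeze_zero (fun n => dist_nonneg) (fun n => ?_) hdl
    rw [Real.dist_eq]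
    exact soft_sub_le (by positivity) _
  refine h2.congr' ?_
  filter_upwards [h1] with n hn
  unfold apx
  rw [cut_eq_one (by positivity) (by linarith), one_mul]

theorem apx_gradient {S : Set V} {k : V → ℝ} {k' : V → V} (hk : TrialK S k k') {B : ℝ}
    (hB : ∀ x, |k x| ≤ B) (n : ℕ) :
    ∀ᵐ x : V, ‖∇ (apx S k n) x‖ ≤ ‖k' x‖ + 2 * B * cW S x := by
  set d : ℝ := 1 / ((n : ℝ) + 1) with hd'
  have hd0 : 0 < d := by positivity
  have hd1 : d ≤ 1 := by
    rw [hd', div_le_one (by positivity)]
    linarith [Nat.cast_nonneg (α := ℝ) n]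
  have hB0 : 0 ≤ B := (abs_nonneg _).trans (hB 0)
  filter_upwards [hk.grad, (cut_lip S hd0).ae_differentiableAt] with x hx hx2
  have hW0 : 0 ≤ cW S x := indicator_nonneg (fun _ _ => inv_nonneg.mpr infDist_nonneg) _
  have hkd : DifferentiableAt ℝ k x := hx.differentiableAt
  have hk' : ∇ k x = k' x := hx.gradient
  by_cases hsd : DifferentiableAt ℝ (fun y => soft d (k y)) x
  · have h1 : HasFDerivAt (apx S k n) (cut S d x • fderiv ℝ (fun y => soft d (k y)) x +
        soft d (k x) • fderiv ℝ (cut S d) x) x := by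
      exact hx2.hasFDerivAt.mul hsd.hasFDerivAt
    have h2 : ∇ (apx S k n) x = cut S d x • ∇ (fun y => soft d (k y)) x +
        soft d (k x) • ∇ (cut S d) x := by
      unfold gradient
      rw [h1.fderiv, map_add, map_smul, map_smul]
    rw [h2]
    refine (norm_add_le _ _).trans ?_
    rw [norm_smul, norm_smul, Real.norm_of_nonneg (cut_nonneg _ _ _), Real.norm_eq_abs]
    have h3 : ‖∇ (fun y => soft d (k y)) x‖ ≤ ‖k' x‖ := by
      rw [← hk']; exact gradient_comp_le (soft_lipschitz hd0.le) hkd
    have h4 : |soft d (k x)| ≤ B := (soft_abs_le hd0.le _).trans (hB x)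
    have h5 := cut_gradient (S := S) hd0 hd1 (x := x)
    calc cut S d x * ‖∇ (fun y => soft d (k y)) x‖ + |soft d (k x)| * ‖∇ (cut S d) x‖
        ≤ 1 * ‖k' x‖ + B * (2 * cW S x) := by
          refine add_le_add (mul_le_mul (cut_le_one _ _ _) h3 (norm_nonneg _) zero_le_one)
            (mul_le_mul h4 h5 (norm_nonneg _) hB0)
      _ = _ := by ring
  · -- here `|k x| = d`
    have h6 : |k x| = d := by
      by_contra hne
      rcases lt_or_gt_of_ne hne with h | h
      · have h1 : (fun y => soft d (k y)) =ᶠ[𝓝 x] fun _ => 0 := by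
          have h2 : ∀ᶠ y in 𝓝 x, |k y| < d := hkd.continuousAt.abs.eventually (gt_mem_nhds h)
          filter_upwards [h2] with y hy
          exact soft_eq_zero hy.le
        exact hsd ((differentiableAt_const (0 : ℝ)).congr_of_eventuallyEq h1)
      · rcases lt_abs.mp h with h0 | h0
        · have h2 : ∀ᶠ y in 𝓝 x, d < k y := hkd.continuousAt.eventually (lt_mem_nhds h0)
          have h1 : (fun y => soft d (k y)) =ᶠ[𝓝 x] fun y => k y - d := by
            filter_upwards [h2] with y hy
            unfold soft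
            rw [min_eq_right hy.le, max_eq_right (by linarith)]
          exact hsd ((hkd.sub_const d).congr_of_eventuallyEq h1)
        · have h2 : ∀ᶠ y in 𝓝 x, k y < -d := hkd.continuousAt.eventually (gt_mem_nhds (by linarith))
          have h1 : (fun y => soft d (k y)) =ᶠ[𝓝 x] fun y => k y + d := by
            filter_upwards [h2] with y hy
            unfold soft
            rw [min_eq_left (by linarith), max_eq_left (by linarith)]
            ring
          exact hsd ((hkd.add_const d).congr_of_eventuallyEq h1)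
    by_cases hc0 : DifferentiableAt ℝ (apx S k n) x
    · -- the value of the soft truncation is zero, so the product rule still bounds the gradient
      have hz : soft d (k x) = 0 := soft_eq_zero h6.le
      rw [norm_gradient]
      refine (ContinuousLinearMap.opNorm_le_bound _ (norm_nonneg (k' x)) fun v => ?_).trans
        (le_add_of_nonneg_right (by positivity))
      have h1 : Tendsto (fun t : ℝ => ‖t⁻¹ • (apx S k n (x + t • v) - apx S k n x)‖) (𝓝[>] 0)
          (𝓝 ‖fderiv ℝ (apx S k n) x v‖) :=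
        ((hc0.hasFDerivAt.hasLineDerivAt v).tendsto_slope_zero_right).norm
      have h2 : Tendsto (fun t : ℝ => ‖t⁻¹ • (k (x + t • v) - k x)‖) (𝓝[>] 0)
          (𝓝 ‖fderiv ℝ k x v‖) :=
        ((hkd.hasFDerivAt.hasLineDerivAt v).tendsto_slope_zero_right).norm
      rw [← hk', norm_gradient]
      refine (le_of_tendsto_of_tendsto' h1 h2 fun t => ?_).trans
        (ContinuousLinearMap.le_opNorm _ _)
      rw [norm_smul, norm_smul]
      refine mul_le_mul_of_nonneg_left ?_ (norm_nonneg _)
      have h3 : apx S k n x = 0 := by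
        unfold apx
        rw [hz, mul_zero]
      rw [h3, sub_zero]
      unfold apx
      rw [Real.norm_eq_abs, abs_mul, abs_of_nonneg (cut_nonneg _ _ _), Real.norm_eq_abs]
      have h4 := soft_lip hd0.le (k (x + t • v)) (k x)
      rw [hz, sub_zero] at h4
      calc cut S (1 / ((n : ℝ) + 1)) (x + t • v) * |soft (1 / ((n : ℝ) + 1)) (k (x + t • v))|
          ≤ 1 * |k (x + t • v) - k x| :=
            mul_le_mul (cut_le_one _ _ _) h4 (abs_nonneg _) zero_le_one
        _ = _ := one_mul _
    · rw [norm_gradient, fderiv_zero_of_not_differentiableAt hc0, norm_zero]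
      positivity

theorem apx_gradient_tendsto {S : Set V} (hS : IsClosed S) (hne : S.Nonempty)
    (hnull : volume S = 0) {k : V → ℝ} {k' : V → V} (hk : TrialK S k k') :
    ∀ᵐ x : V, Tendsto (fun n => ∇ (apx S k n) x) atTop (𝓝 (k' x)) := by
  have hdl : Tendsto (fun n : ℕ => 1 / ((n : ℝ) + 1)) atTop (𝓝 0) :=
    tendsto_one_div_add_atTop_nhds_zero_nat
  have hSn : ∀ᵐ x : V, x ∉ S := by
    rw [ae_iff]
    simpa using hnull
  filter_upwards [hk.grad, hSn, ae_level hk.cont.measurable 0] with x hx hxS hlev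
  have hkd : DifferentiableAt ℝ k x := hx.differentiableAt
  have hk' : ∇ k x = k' x := hx.gradient
  have hpos : 0 < infDist x S := (hS.notMem_iff_infDist_pos hne).mp hxS
  have hcI : Continuous fun y : V => infDist y S := continuous_infDist_pt S
  have h1 : ∀ᶠ n : ℕ in atTop, 1 / ((n : ℝ) + 1) < infDist x S / 2 :=
    hdl.eventually (gt_mem_nhds (half_pos hpos))
  have hloc : ∀ n : ℕ, 1 / ((n : ℝ) + 1) < infDist x S / 2 →
      apx S k n =ᶠ[𝓝 x] fun y => soft (1 / ((n : ℝ) + 1)) (k y) := by
    intro n hn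
    have h2 : 2 * (1 / ((n : ℝ) + 1)) < infDist x S := by linarith
    filter_upwards [hcI.continuousAt.eventually (lt_mem_nhds h2)] with y hy
    unfold apx
    rw [cut_eq_one (by positivity) hy.le, one_mul]
  refine tendsto_const_nhds.congr' ?_
  by_cases h0 : k x = 0
  · filter_upwards [h1] with n hn
    rw [(hloc n hn).gradient_eq, gradient_soft_zero hkd.continuousAt (by
      rw [h0, abs_zero]; positivity), ← hk', hlev h0 hkd]
  · have h3 : ∀ᶠ n : ℕ in atTop, 1 / ((n : ℝ) + 1) < |k x| :=
      hdl.eventually (gt_mem_nhds (abs_pos.mpr h0))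
    filter_upwards [h1, h3] with n hn hn3
    rw [(hloc n hn).gradient_eq, gradient_soft_eq (by positivity) hkd.continuousAt hn3, hk']

/-- extension of a weak identity from Lipschitz functions with compact support to trial
functions -/
theorem weak_K {S : Set V} (hS : IsClosed S) (hne : S.Nonempty) (hnull : volume S = 0)
    {k : V → ℝ} {k' : V → V} (hk : TrialK S k k') {A : V → V} {g : V → ℝ}
    (hA : AEStronglyMeasurable A volume) (hg : Integrable g)
    (hw : ∀ (u : V → ℝ) (C : ℝ≥0), LipschitzWith C u → HasCompactSupport u →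
      ∫ x, ⟪A x, ∇ u x⟫ = ∫ x, g x * u x)
    (h1 : Integrable fun x => ‖A x‖ * ‖k' x‖) (h2 : Integrable fun x => ‖A x‖ * cW S x) :
    Integrable (fun x => ⟪A x, k' x⟫) ∧ ∫ x, ⟪A x, k' x⟫ = ∫ x, g x * k x := by
  obtain ⟨B, hB⟩ := hk.bdd
  have hL : Tendsto (fun n => ∫ x, ⟪A x, ∇ (apx S k n) x⟫) atTop (𝓝 (∫ x, ⟪A x, k' x⟫)) := by
    refine tendsto_integral_of_dominated_convergence
      (fun x => ‖A x‖ * ‖k' x‖ + 2 * B * (‖A x‖ * cW S x)) (fun n => ?_)
      (h1.add (h2.const_mul _)) (fun n => ?_) ?_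
    · exact hA.inner (measurable_gradient _).aestronglyMeasurable
    · filter_upwards [apx_gradient hk hB n] with x hx
      rw [Real.norm_eq_abs]
      refine (abs_real_inner_le_norm _ _).trans ?_
      refine (mul_le_mul_of_nonneg_left hx (norm_nonneg _)).trans (le_of_eq ?_)
      ring
    · filter_upwards [apx_gradient_tendsto hS hne hnull hk] with x hx
      exact tendsto_const_nhds.inner hx
  have hR : Tendsto (fun n => ∫ x, g x * apx S k n x) atTop (𝓝 (∫ x, g x * k x)) := by
    refine tendsto_integral_of_dominated_convergence (fun x => |g x| * B) (fun n => ?_)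
      (hg.abs.mul_const _) (fun n => Eventually.of_forall fun x => ?_) ?_
    · obtain ⟨⟨C, hC⟩, -⟩ := apx_lip hS hne hk n
      exact hg.aestronglyMeasurable.mul hC.continuous.measurable.aestronglyMeasurable
    · rw [norm_mul, Real.norm_eq_abs, Real.norm_eq_abs]
      exact mul_le_mul_of_nonneg_left ((apx_abs_le n x).trans (hB x)) (abs_nonneg _)
    · have hSn : ∀ᵐ x : V, x ∉ S := by
        rw [ae_iff]
        simpa using hnull
      filter_upwards [hSn] with x hx
      exact (apx_tendsto hS hne k hx).const_mul _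
  have heq : ∀ n, ∫ x, ⟪A x, ∇ (apx S k n) x⟫ = ∫ x, g x * apx S k n x := by
    intro n
    obtain ⟨⟨C, hC⟩, hc⟩ := apx_lip hS hne hk n
    exact hw _ C hC hc
  simp_rw [heq] at hL
  refine ⟨?_, tendsto_nhds_unique hL hR⟩
  refine h1.mono' (hA.inner hk.meas) (Eventually.of_forall fun x => ?_)
  rw [Real.norm_eq_abs]
  exact abs_real_inner_le_norm _ _

end dim3

end Pool.Agent.TF
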